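import Mathlib

/-! # The stochastic adding machine operator on continuous functions -/

namespace Q82.Adding

set_option linter.unusedSectionVars false

open Filter Topology Finset

noncomputable section

variable (d : ℕ → ℕ) [∀ r, NeZero (d r)]

/-- the space of digit sequences -/
abbrev Gam : Type := ∀ r : ℕ, Fin (d r)

variable {d}

/-- the first `s` digits are maximal -/
def full (x : Gam d) (s : ℕ) : Prop := ∀ j < s, (x j : ℕ) + 1 = d j

/-- adding one, with carries -/
def V (x : Gam d) : Gam d := by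
  classical exact fun i => if full x i then x i + 1 else x i

/-- the first `s` digits replaced by zero -/
def T (s : ℕ) (x : Gam d) : Gam d := fun i => if i < s then 0 else x i

/-- `∏_{i < s} p i` -/
def pp (p : ℕ → ℝ) (s : ℕ) : ℝ := ∏ i ∈ range s, p i

/-- `∏_{i < s_x} p i` -/
def P (p : ℕ → ℝ) (x : Gam d) : ℝ := by
  classical exact ⨅ n : ℕ, ∏ i ∈ range n, if full x i then p i else 1

/-- the weight of `T s x` -/
def wt (p : ℕ → ℝ) (x : Gam d) (s : ℕ) : ℝ := by
  classical exact if full x s then pp p s * (1 - p s) else 0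

/-- the formula (with the term `s = 0` for `(1 - p 0) g x`) -/
def form (p : ℕ → ℝ) (g : Gam d → ℂ) (x : Gam d) : ℂ :=
  (P p x : ℂ) * g (V x) + ∑' s, (wt p x s : ℂ) * g (T s x)

variable {p : ℕ → ℝ}

lemma full_mono {x : Gam d} {s t : ℕ} (h : s ≤ t) (hx : full x t) : full x s :=
  fun j hj => hx j (lt_of_lt_of_le hj h)

lemma full_congr {x y : Gam d} {r s : ℕ} (h : ∀ j < r, x j = y j) (hs : s ≤ r) :
    full x s ↔ full y s := by
  constructor
  · intro hx j hj
    rw [← h j (by omega)]
    exact hx j hj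
  · intro hx j hj
    rw [h j (by omega)]
    exact hx j hj

lemma pp_succ (p : ℕ → ℝ) (s : ℕ) : pp p (s + 1) = pp p s * p s := prod_range_succ _ _

lemma pp_pos (hp : ∀ r, 0 < p r ∧ p r ≤ 1) (s : ℕ) : 0 < pp p s :=
  prod_pos fun i _ => (hp i).1

lemma pp_le_one (hp : ∀ r, 0 < p r ∧ p r ≤ 1) (s : ℕ) : pp p s ≤ 1 :=
  prod_le_one (fun i _ => (hp i).1.le) fun i _ => (hp i).2

/-- partial products -/
def Pn (p : ℕ → ℝ) (x : Gam d) (n : ℕ) : ℝ := by
  classical exact ∏ i ∈ range n, if full x i then p i else 1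

lemma Pn_zero (x : Gam d) : Pn p x 0 = 1 := by simp [Pn]

lemma Pn_succ_full {x : Gam d} {n : ℕ} (h : full x n) : Pn p x (n + 1) = Pn p x n * p n := by
  unfold Pn
  rw [prod_range_succ, if_pos h]

lemma Pn_succ_not {x : Gam d} {n : ℕ} (h : ¬ full x n) : Pn p x (n + 1) = Pn p x n := by
  unfold Pn
  rw [prod_range_succ, if_neg h, mul_one]

lemma Pn_pos (hp : ∀ r, 0 < p r ∧ p r ≤ 1) (x : Gam d) (n : ℕ) : 0 < Pn p x n := by
  unfold Pn
  apply prod_pos
  intro i _
  split_ifs
  · exact (hp i).1
  · exact one_pos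

lemma Pn_anti (hp : ∀ r, 0 < p r ∧ p r ≤ 1) (x : Gam d) : Antitone (Pn p x) := by
  apply antitone_nat_of_succ_le
  intro n
  by_cases h : full x n
  · rw [Pn_succ_full h]
    nlinarith [Pn_pos hp x n, (hp n).2]
  · rw [Pn_succ_not h]

lemma Pn_eq {x : Gam d} {n : ℕ} (h : full x n) : Pn p x n = pp p n := by
  induction n with
  | zero => simp [Pn, pp]
  | succ n ih =>
    have h1 := full_mono (Nat.le_succ n) h
    rw [Pn_succ_full h1, ih h1, pp_succ]

lemma P_tendsto (hp : ∀ r, 0 < p r ∧ p r ≤ 1) (x : Gam d) :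
    Tendsto (Pn p x) atTop (𝓝 (P p x)) := by
  apply tendsto_atTop_ciInf (Pn_anti hp x)
  exact ⟨0, by rintro _ ⟨n, rfl⟩; exact (Pn_pos hp x n).le⟩

lemma P_nonneg (hp : ∀ r, 0 < p r ∧ p r ≤ 1) (x : Gam d) : 0 ≤ P p x :=
  ge_of_tendsto' (P_tendsto hp x) fun n => (Pn_pos hp x n).le

lemma wt_eq (x : Gam d) (s : ℕ) : wt p x s = Pn p x s - Pn p x (s + 1) := by
  unfold wt
  split_ifs with h
  · rw [Pn_succ_full h, Pn_eq h]; ring
  · rw [Pn_succ_not h, sub_self]

lemma wt_nonneg (hp : ∀ r, 0 < p r ∧ p r ≤ 1) (x : Gam d) (s : ℕ) : 0 ≤ wt p x s := by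
  rw [wt_eq]
  exact sub_nonneg.2 (Pn_anti hp x (Nat.le_succ s))

lemma wt_hasSum (hp : ∀ r, 0 < p r ∧ p r ≤ 1) (x : Gam d) :
    HasSum (wt p x) (1 - P p x) := by
  rw [hasSum_iff_tendsto_nat_of_nonneg (wt_nonneg hp x)]
  have h1 : ∀ n, ∑ i ∈ range n, wt p x i = 1 - Pn p x n := by
    intro n
    induction n with
    | zero => simp [Pn_zero]
    | succ n ih => rw [sum_range_succ, ih, wt_eq]; ring
  simp only [h1]
  exact (P_tendsto hp x).const_sub 1

lemma wt_hasSum_from (hp : ∀ r, 0 < p r ∧ p r ≤ 1) (x : Gam d) (r : ℕ) :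
    HasSum (fun s => wt p x (s + r)) (Pn p x r - P p x) := by
  rw [hasSum_iff_tendsto_nat_of_nonneg (fun s => wt_nonneg hp x _)]
  have h1 : ∀ n, ∑ i ∈ range n, wt p x (i + r) = Pn p x r - Pn p x (n + r) := by
    intro n
    induction n with
    | zero => simp
    | succ n ih =>
      rw [sum_range_succ, ih, wt_eq, show n + 1 + r = n + r + 1 by ring]; ring
  simp only [h1]
  exact ((tendsto_add_atTop_iff_nat r).2 (P_tendsto hp x)).const_sub _

lemma form_summable (hp : ∀ r, 0 < p r ∧ p r ≤ 1) (g : Gam d → ℂ) {C : ℝ}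
    (hg : ∀ x, ‖g x‖ ≤ C) (x : Gam d) : Summable (fun s => (wt p x s : ℂ) * g (T s x)) := by
  apply Summable.of_norm
  refine Summable.of_nonneg_of_le (fun _ => norm_nonneg _) (fun s => ?_)
    ((wt_hasSum hp x).summable.mul_right C)
  rw [norm_mul, Complex.norm_real, Real.norm_of_nonneg (wt_nonneg hp x s)]
  exact mul_le_mul_of_nonneg_left (hg _) (wt_nonneg hp x s)

lemma form_norm (hp : ∀ r, 0 < p r ∧ p r ≤ 1) (g : Gam d → ℂ) {C : ℝ}
    (hg : ∀ x, ‖g x‖ ≤ C) (x : Gam d) : ‖form p g x‖ ≤ C := by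
  unfold form
  have h1 : ‖∑' s, (wt p x s : ℂ) * g (T s x)‖ ≤ (1 - P p x) * C := by
    refine tsum_of_norm_bounded ((wt_hasSum hp x).mul_right C) (fun s => ?_)
    rw [norm_mul, Complex.norm_real, Real.norm_of_nonneg (wt_nonneg hp x s)]
    exact mul_le_mul_of_nonneg_left (hg _) (wt_nonneg hp x s)
  calc ‖(P p x : ℂ) * g (V x) + ∑' s, (wt p x s : ℂ) * g (T s x)‖
      ≤ P p x * C + (1 - P p x) * C := by
        refine (norm_add_le _ _).trans (add_le_add ?_ h1)
        rw [norm_mul, Complex.norm_real, Real.norm_of_nonneg (P_nonneg hp x)]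
        exact mul_le_mul_of_nonneg_left (hg _) (P_nonneg hp x)
    _ = C := by ring

lemma form_add (hp : ∀ r, 0 < p r ∧ p r ≤ 1) (g h : Gam d → ℂ) {C C' : ℝ}
    (hg : ∀ x, ‖g x‖ ≤ C) (hh : ∀ x, ‖h x‖ ≤ C') (x : Gam d) :
    form p (g + h) x = form p g x + form p h x := by
  unfold form
  simp only [Pi.add_apply, mul_add]
  rw [(form_summable hp g hg x).tsum_add (form_summable hp h hh x)]
  ring

lemma form_smul (c : ℂ) (g : Gam d → ℂ) (x : Gam d) :
    form p (c • g) x = c * form p g x := by
  unfold form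
  simp only [Pi.smul_apply, smul_eq_mul]
  rw [mul_add, ← tsum_mul_left]
  congr 1
  · ring
  · congr 1; ext s; ring

/-- `g` depends only on the first `r` digits -/
def Dep (r : ℕ) (g : Gam d → ℂ) : Prop := ∀ x y : Gam d, (∀ j < r, x j = y j) → g x = g y

lemma form_dep (hp : ∀ r, 0 < p r ∧ p r ≤ 1) {r : ℕ} {g : Gam d → ℂ} {C : ℝ}
    (hC : ∀ x, ‖g x‖ ≤ C) (hg : Dep r g) : Dep r (form p g) := by
  intro x y hxy
  have hwt : ∀ s ≤ r, wt p x s = wt p y s := by
    intro s hs
    unfold wt
    have := full_congr hxy hs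
    by_cases h : full x s
    · rw [if_pos h, if_pos (this.1 h)]
    · rw [if_neg h, if_neg (fun h' => h (this.2 h'))]
  have hT : ∀ s, g (T s x) = g (T s y) := by
    intro s
    apply hg
    intro j hj
    unfold T
    rw [hxy j hj]
  by_cases hf : full x r
  · -- all first r digits are maximal
    have hfy : full y r := (full_congr hxy le_rfl).1 hf
    have key : ∀ z : Gam d, full z r → form p g z =
        (pp p r : ℂ) * g (fun _ => 0) + ∑ s ∈ range r, (wt p z s : ℂ) * g (T s z) := by
      intro z hz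
      have e1 : g (V z) = g (fun _ => 0) := by
        apply hg
        intro j hj
        unfold V
        rw [if_pos (full_mono hj.le hz)]
        have h1 := hz j hj
        apply Fin.ext
        rw [Fin.val_add, Fin.val_zero]
        have h3 : 1 < d j ∨ d j = 1 := by
          have := NeZero.ne (d j)
          omega
        rcases h3 with h3 | h3
        · have h4 : ((1 : Fin (d j)) : ℕ) = 1 := by
            rw [Fin.val_one', Nat.mod_eq_of_lt h3]
          rw [h4, h1, Nat.mod_self]
        · have h5 : ∀ a b, d j = 1 → (a + b) % d j = 0 := by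
            intro a b h; rw [h, Nat.mod_one]
          exact h5 _ _ h3
      have e2 : ∀ s, g (T (s + r) z) = g (fun _ => 0) := by
        intro s
        apply hg
        intro j hj
        unfold T
        rw [if_pos (by omega)]
      unfold form
      rw [e1, ← (form_summable hp g hC z).sum_add_tsum_nat_add r]
      have e3 : ∑' s, (wt p z (s + r) : ℂ) * g (T (s + r) z) =
          ((Pn p z r - P p z : ℝ) : ℂ) * g (fun _ => 0) := by
        simp only [e2]
        rw [tsum_mul_right]
        congr 1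
        rw [← (wt_hasSum_from hp z r).tsum_eq, Complex.ofReal_tsum]
      rw [e3, Pn_eq hz]
      push_cast
      ring
    rw [key x hf, key y hfy]
    congr 1
    apply sum_congr rfl
    intro s hs
    rw [hwt s (mem_range.1 hs).le, hT s]
  · -- some digit is not maximal
    have hfy : ¬ full y r := fun h => hf ((full_congr hxy le_rfl).2 h)
    have hw0 : ∀ z : Gam d, ¬ full z r → ∀ s, r ≤ s → wt p z s = 0 := by
      intro z hz s hs
      unfold wt
      rw [if_neg (fun h => hz (full_mono hs h))]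
    have hP : ∀ z : Gam d, ¬ full z r → P p z = Pn p z r := by
      intro z hz
      have h1 : ∀ n, r ≤ n → Pn p z n = Pn p z r := by
        intro n hn
        induction n, hn using Nat.le_induction with
        | base => rfl
        | succ m hm ih => rw [Pn_succ_not (fun h => hz (full_mono hm h)), ih]
      have h2 : Tendsto (Pn p z) atTop (𝓝 (Pn p z r)) := by
        apply tendsto_const_nhds.congr'
        filter_upwards [eventually_ge_atTop r] with n hn
        exact (h1 n hn).symm
      exact tendsto_nhds_unique (P_tendsto hp z) h2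
    have hPn : Pn p x r = Pn p y r := by
      unfold Pn
      apply prod_congr rfl
      intro i hi
      have := full_congr hxy (mem_range.1 hi).le
      by_cases h : full x i
      · rw [if_pos h, if_pos (this.1 h)]
      · rw [if_neg h, if_neg (fun h' => h (this.2 h'))]
    have hV : g (V x) = g (V y) := by
      apply hg
      intro j hj
      unfold V
      have := full_congr hxy hj.le
      by_cases h : full x j
      · rw [if_pos h, if_pos (this.1 h), hxy j hj]
      · rw [if_neg h, if_neg (fun h' => h (this.2 h')), hxy j hj]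
    unfold form
    rw [hP x hf, hP y hfy, hPn, hV]
    congr 1
    apply tsum_congr
    intro s
    rcases le_or_gt r s with hs | hs
    · rw [hw0 x hf s hs, hw0 y hfy s hs]; simp
    · rw [hwt s hs.le, hT s]

end

end Q82.Adding
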