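import Pool.Agent.Q82.Adding

/-! # The residual spectrum of the stochastic adding machine operator is empty -/

namespace Q82.Adding

set_option linter.unusedSectionVars false

open Filter Topology Finset

noncomputable section

variable {d : ℕ → ℕ} [∀ r, NeZero (d r)] {p : ℕ → ℝ}

lemma dep_continuous {r : ℕ} {g : Gam d → ℂ} (h : Dep r g) : Continuous g := by
  apply IsLocallyConstant.continuous
  rw [IsLocallyConstant.iff_exists_open]
  intro x
  refine ⟨{y | ∀ j ∈ range r, y j = x j}, ?_, fun j _ => rfl, fun y hy => ?_⟩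
  · have : {y : Gam d | ∀ j ∈ range r, y j = x j} = ⋂ j ∈ range r, {y : Gam d | y j = x j} := by
      ext y; simp
    rw [this]
    apply isOpen_biInter_finset
    intro j _
    exact IsOpen.preimage (f := fun y : Gam d => y j) (continuous_apply (A := fun i => Fin (d i)) j) (isOpen_discrete {x j})
  · exact h y x (fun j hj => hy j (mem_range.2 hj))

lemma Dep.mono {r s : ℕ} {g : Gam d → ℂ} (h : Dep r g) (hrs : r ≤ s) : Dep s g :=
  fun x y hxy => h x y (fun j hj => hxy j (by omega))

variable (d)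

/-- cylinder functions form a star subalgebra -/
def A : StarSubalgebra ℂ C(Gam d, ℂ) where
  carrier := {g | ∃ r, Dep r g}
  mul_mem' := by
    rintro f g ⟨r, hr⟩ ⟨s, hs⟩
    refine ⟨max r s, fun x y hxy => ?_⟩
    change f x * g x = f y * g y
    rw [hr.mono (le_max_left r s) x y hxy, hs.mono (le_max_right r s) x y hxy]
  one_mem' := ⟨0, fun _ _ _ => rfl⟩
  add_mem' := by
    rintro f g ⟨r, hr⟩ ⟨s, hs⟩
    refine ⟨max r s, fun x y hxy => ?_⟩
    change f x + g x = f y + g y
    rw [hr.mono (le_max_left r s) x y hxy, hs.mono (le_max_right r s) x y hxy]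
  zero_mem' := ⟨0, fun _ _ _ => rfl⟩
  algebraMap_mem' := fun c => ⟨0, fun _ _ _ => rfl⟩
  star_mem' := by
    rintro f ⟨r, hr⟩
    refine ⟨r, fun x y hxy => ?_⟩
    change star (f x) = star (f y)
    rw [hr x y hxy]

lemma A_dense : (A d).topologicalClosure = ⊤ := by
  apply ContinuousMap.starSubalgebra_topologicalClosure_eq_top_of_separatesPoints
  intro x y hxy
  obtain ⟨i, hi⟩ : ∃ i, x i ≠ y i := by
    by_contra h
    push Not at h
    exact hxy (funext h)
  have hdep : Dep (d := d) (i + 1) (fun z => ((z i : ℕ) : ℂ)) := by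
    intro a b hab
    simp only
    rw [hab i (by omega)]
  refine ⟨_, ⟨⟨_, dep_continuous hdep⟩, ⟨i + 1, hdep⟩, rfl⟩, ?_⟩
  simp only [ContinuousMap.coe_mk]
  intro h
  apply hi
  apply Fin.ext
  exact_mod_cast h

variable {d}

lemma exists_approx (g : C(Gam d, ℂ)) {ε : ℝ} (hε : 0 < ε) : ∃ h ∈ A d, ‖g - h‖ < ε := by
  have h1 : g ∈ (A d).topologicalClosure := by rw [A_dense]; trivial
  have h2 : g ∈ closure ((A d : StarSubalgebra ℂ C(Gam d, ℂ)) : Set C(Gam d, ℂ)) := h1
  rw [Metric.mem_closure_iff] at h2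
  obtain ⟨h, hh, hd⟩ := h2 ε hε
  exact ⟨h, hh, by rwa [dist_eq_norm] at hd⟩

lemma form_sub_norm (hp : ∀ r, 0 < p r ∧ p r ≤ 1) (g h : C(Gam d, ℂ)) (x : Gam d) :
    ‖form p g x - form p h x‖ ≤ ‖g - h‖ := by
  have e : form p g x = form p (g - h : C(Gam d, ℂ)) x + form p h x := by
    rw [← form_add hp _ _ (g - h : C(Gam d, ℂ)).norm_coe_le_norm h.norm_coe_le_norm]
    congr 1
    ext y
    simp
  rw [e, add_sub_cancel_right]
  exact form_norm hp _ (g - h : C(Gam d, ℂ)).norm_coe_le_norm x

lemma form_continuous (hp : ∀ r, 0 < p r ∧ p r ≤ 1) (g : C(Gam d, ℂ)) :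
    Continuous (form p g) := by
  choose h hh hn using fun n : ℕ => exists_approx g (ε := 1 / ((n : ℝ) + 1)) (by positivity)
  have h1 : TendstoUniformly (fun n => form p (h n)) (form p g) atTop := by
    rw [Metric.tendstoUniformly_iff]
    intro ε hε
    have h2 := tendsto_one_div_add_atTop_nhds_zero_nat (𝕜 := ℝ)
    filter_upwards [h2.eventually (gt_mem_nhds hε)] with n hn' x
    rw [dist_eq_norm]
    exact (form_sub_norm hp g (h n) x).trans_lt ((hn n).trans hn')
  apply h1.continuous
  apply Eventually.frequently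
  refine Eventually.of_forall fun n => ?_
  obtain ⟨r, hr⟩ := hh n
  exact dep_continuous (form_dep hp (h n).norm_coe_le_norm hr)

/-- the stochastic adding machine operator -/
def S (hp : ∀ r, 0 < p r ∧ p r ≤ 1) : C(Gam d, ℂ) →L[ℂ] C(Gam d, ℂ) :=
  LinearMap.mkContinuous
    { toFun := fun g => ⟨form p g, form_continuous hp g⟩
      map_add' := fun g h => by
        ext x
        exact form_add hp g h g.norm_coe_le_norm h.norm_coe_le_norm x
      map_smul' := fun c g => by
        ext x
        exact form_smul c g x } 1 (fun g => by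
      rw [one_mul, ContinuousMap.norm_le _ (norm_nonneg _)]
      intro x
      exact form_norm hp g g.norm_coe_le_norm x)

lemma S_apply (hp : ∀ r, 0 < p r ∧ p r ≤ 1) (g : C(Gam d, ℂ)) (x : Gam d) :
    S hp g x = form p g x := rfl

lemma S_norm (hp : ∀ r, 0 < p r ∧ p r ≤ 1) : ‖S (d := d) hp‖ ≤ 1 :=
  LinearMap.mkContinuous_norm_le _ zero_le_one _

variable (d)

/-- functions of the first `r` digits -/
def F (r : ℕ) : Submodule ℂ C(Gam d, ℂ) where
  carrier := {g | Dep r g}
  add_mem' := by
    intro f g hf hg x y hxy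
    change f x + g x = f y + g y
    rw [hf x y hxy, hg x y hxy]
  zero_mem' := fun _ _ _ => rfl
  smul_mem' := by
    intro c f hf x y hxy
    change c * f x = c * f y
    rw [hf x y hxy]

/-- evaluation of the functions of the first `r` digits -/
def ev (r : ℕ) : F d r →ₗ[ℂ] ((∀ i : Fin r, Fin (d i)) → ℂ) where
  toFun := fun g y => g.1 (fun i => if h : i < r then y ⟨i, h⟩ else 0)
  map_add' := fun _ _ => rfl
  map_smul' := fun _ _ => rfl

lemma ev_inj (r : ℕ) : Function.Injective (ev d r) := by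
  intro f g h
  apply Subtype.ext
  ext x
  have h1 := congrFun h (fun i => x i)
  have h2 : ∀ k : F d r, k.1 x = ev d r k (fun i => x i) := by
    intro k
    apply k.2
    intro j hj
    simp only
    rw [dif_pos hj]
  rw [h2 f, h2 g, h1]

instance (r : ℕ) : FiniteDimensional ℂ (F d r) := Module.Finite.of_injective (ev d r) (ev_inj d r)

variable {d}

/-- If `S - l` is injective, then its range is dense. -/
theorem range_dense (hp : ∀ r, 0 < p r ∧ p r ≤ 1) {l : ℂ}
    (hinj : Function.Injective (S (d := d) hp - l • (1 : C(Gam d, ℂ) →L[ℂ] C(Gam d, ℂ)))) :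
    closure (Set.range (S (d := d) hp - l • (1 : C(Gam d, ℂ) →L[ℂ] C(Gam d, ℂ)))) = Set.univ := by
  set R : C(Gam d, ℂ) →L[ℂ] C(Gam d, ℂ) := S (d := d) hp - l • 1 with hR
  have hsub : ((A d : StarSubalgebra ℂ C(Gam d, ℂ)) : Set C(Gam d, ℂ)) ⊆ Set.range R := by
    rintro g ⟨r, hr⟩
    have hmap : ∀ f ∈ F d r, (R : C(Gam d, ℂ) →ₗ[ℂ] C(Gam d, ℂ)) f ∈ F d r := by
      intro f hf
      have h1 : S hp f ∈ F d r := form_dep hp f.norm_coe_le_norm hf
      exact (F d r).sub_mem h1 ((F d r).smul_mem l hf)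
    set Rr := (R : C(Gam d, ℂ) →ₗ[ℂ] C(Gam d, ℂ)).restrict hmap with hRr
    have hRinj : Function.Injective Rr := by
      intro f h hfh
      apply Subtype.ext
      apply hinj
      exact congrArg Subtype.val hfh
    have hsurj := LinearMap.surjective_of_injective hRinj
    obtain ⟨f, hf⟩ := hsurj ⟨g, hr⟩
    exact ⟨f.1, congrArg Subtype.val hf⟩
  rw [Set.eq_univ_iff_forall]
  intro g
  have h1 : g ∈ (A d).topologicalClosure := by rw [A_dense]; trivial
  have h2 : g ∈ closure ((A d : StarSubalgebra ℂ C(Gam d, ℂ)) : Set C(Gam d, ℂ)) := h1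
  exact closure_mono hsub h2

end

end Q82.Adding
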