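import Pool.Agent.Q82.AlmIsoDef

/-!
# A pair of `L^∞` spaces without property (A): preliminaries

`L^∞` of a counting measure, `σ`-algebras of sets determined by countably many coordinates, and
free sets for set mappings with countable values.
-/

open MeasureTheory Filter Topology Set Cardinal
open scoped ENNReal

namespace Pool.Agent.Q82.AlmIso

/-! ### `L^∞` of a counting measure -/

section Count

variable {X : Type} {m : MeasurableSpace X}

theorem abs_le_norm (f : Lp ℝ ∞ (Measure.count : Measure X)) (x : X) : |f x| ≤ ‖f‖ := by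
  have h := (Measure.ae_count_iff (p := fun y => ‖f y‖ₑ ≤ eLpNormEssSup f Measure.count)).1
    (ae_le_eLpNormEssSup (f := f) (μ := (Measure.count : Measure X))) x
  rw [← eLpNorm_exponent_top] at h
  rw [Lp.norm_def, ← Real.norm_eq_abs, ← toReal_enorm]
  exact ENNReal.toReal_mono (Lp.eLpNorm_ne_top f) h

theorem norm_le_of_forall {f : Lp ℝ ∞ (Measure.count : Measure X)} {C : ℝ} (hC : 0 ≤ C)
    (h : ∀ x, |f x| ≤ C) : ‖f‖ ≤ C := by
  have h1 : eLpNorm f ∞ (Measure.count : Measure X) ≤ ENNReal.ofReal C := by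
    rw [eLpNorm_exponent_top]
    exact eLpNormEssSup_le_of_ae_bound (ae_of_all _ h)
  rw [Lp.norm_def]
  exact ENNReal.toReal_le_of_le_ofReal hC h1

/-- The element of `L^∞` given by a bounded measurable function. -/
noncomputable def mk (h : X → ℝ) (hm : Measurable h) (C : ℝ) (hC : ∀ x, |h x| ≤ C) :
    Lp ℝ ∞ (Measure.count : Measure X) :=
  (memLp_top_of_bound hm.aestronglyMeasurable C (ae_of_all _ hC)).toLp h

theorem mk_apply (h : X → ℝ) (hm : Measurable h) (C : ℝ) (hC : ∀ x, |h x| ≤ C) (x : X) :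
    mk h hm C hC x = h x :=
  (Measure.ae_count_iff (p := fun y => mk h hm C hC y = h y)).1 (MemLp.coeFn_toLp _) x

theorem ext_apply {f g : Lp ℝ ∞ (Measure.count : Measure X)} (h : ∀ x, f x = g x) : f = g :=
  Lp.ext (ae_of_all _ h)

theorem add_apply (f g : Lp ℝ ∞ (Measure.count : Measure X)) (x : X) :
    (f + g) x = f x + g x :=
  (Measure.ae_count_iff (p := fun y => (f + g) y = f y + g y)).1 (Lp.coeFn_add f g) x

theorem sub_apply (f g : Lp ℝ ∞ (Measure.count : Measure X)) (x : X) :
    (f - g) x = f x - g x :=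
  (Measure.ae_count_iff (p := fun y => (f - g) y = f y - g y)).1 (Lp.coeFn_sub f g) x

theorem smul_apply (c : ℝ) (f : Lp ℝ ∞ (Measure.count : Measure X)) (x : X) :
    (c • f) x = c * f x :=
  (Measure.ae_count_iff (p := fun y => (c • f) y = c * f y)).1 (Lp.coeFn_smul c f) x

theorem nonneg_iff (f : Lp ℝ ∞ (Measure.count : Measure X)) : 0 ≤ f ↔ ∀ x, 0 ≤ f x := by
  rw [← Lp.coeFn_nonneg]
  exact Measure.ae_count_iff (p := fun y => (0 : X → ℝ) y ≤ f y)

theorem measurable_coe (f : Lp ℝ ∞ (Measure.count : Measure X)) : Measurable (f : X → ℝ) :=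
  (Lp.stronglyMeasurable f).measurable

end Count

/-! ### Sets determined by countably many coordinates -/

section Det

variable {X ι α : Type} (w : X → ι → α)

/-- The `σ`-algebra of all sets that are determined by countably many of the coordinates
`w · i`. -/
@[reducible] def detSpace : MeasurableSpace X where
  MeasurableSet' B := ∃ C : Set ι, C.Countable ∧ ∀ x y, (∀ i ∈ C, w x i = w y i) → x ∈ B → y ∈ B
  measurableSet_empty := ⟨∅, countable_empty, fun _ _ _ h => h.elim⟩
  measurableSet_compl := by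
    rintro B ⟨C, hC, h⟩
    exact ⟨C, hC, fun x y hxy hx hy => hx (h y x (fun i hi => (hxy i hi).symm) hy)⟩
  measurableSet_iUnion := by
    intro B h
    choose C hC h using h
    refine ⟨⋃ n, C n, countable_iUnion hC, fun x y hxy hx => ?_⟩
    obtain ⟨n, hn⟩ := mem_iUnion.1 hx
    exact mem_iUnion.2 ⟨n, h n x y (fun i hi => hxy i (mem_iUnion.2 ⟨n, hi⟩)) hn⟩

theorem detSpace_fun {h : X → ℝ} (hm : @Measurable X ℝ (detSpace w) _ h) :
    ∃ C : Set ι, C.Countable ∧ ∀ x y, (∀ i ∈ C, w x i = w y i) → h x = h y := by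
  have h1 : ∀ q : ℚ, ∃ C : Set ι, C.Countable ∧
      ∀ x y, (∀ i ∈ C, w x i = w y i) → x ∈ h ⁻¹' Iio (q : ℝ) → y ∈ h ⁻¹' Iio (q : ℝ) := by
    intro q
    exact hm measurableSet_Iio
  choose C hC hCh using h1
  refine ⟨⋃ q, C q, countable_iUnion hC, fun x y hxy => ?_⟩
  have key : ∀ x y, (∀ i ∈ ⋃ q, C q, w x i = w y i) → h y ≤ h x := by
    intro x y hxy
    by_contra hcon
    push Not at hcon
    obtain ⟨q, hq1, hq2⟩ := exists_rat_btwn hcon
    have := hCh q x y (fun i hi => hxy i (mem_iUnion.2 ⟨q, hi⟩)) hq1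
    exact absurd (mem_Iio.1 this) (not_lt.2 hq2.le)
  exact le_antisymm (key y x fun i hi => (hxy i hi).symm) (key x y hxy)

theorem measurable_of_det {h : X → ℝ}
    (hd : ∃ C : Set ι, C.Countable ∧ ∀ x y, (∀ i ∈ C, w x i = w y i) → h x = h y) :
    @Measurable X ℝ (detSpace w) _ h := by
  obtain ⟨C, hC, hd⟩ := hd
  intro U _
  refine ⟨C, hC, fun x y hxy hx => ?_⟩
  rw [mem_preimage, ← hd x y hxy]
  exact hx

end Det

/-! ### Free sets -/

/-- A set mapping with countable values on a set of cardinality at least `ℵ_(n+1)` has a free set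
with `n + 1` elements. -/
theorem exists_free {L : Type} (D : L → Set L) (hD : ∀ a, (D a).Countable) (n : ℕ) :
    ∀ A : Set L, aleph (n + 1 : ℕ) ≤ #A →
      ∃ s : Finset L, (s : Set L) ⊆ A ∧ s.card = n + 1 ∧ ∀ a ∈ s, ∀ b ∈ s, a ≠ b → b ∉ D a := by
  classical
  induction n with
  | zero =>
    intro A hA
    have h1 : (0 : Cardinal) < #A := lt_of_lt_of_le (aleph_pos _) hA
    have h2 : Nonempty A := Cardinal.mk_ne_zero_iff.1 h1.ne'
    obtain ⟨a, ha⟩ := h2
    refine ⟨{a}, by simpa using ha, by simp, ?_⟩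
    intro x hx y hy hxy
    rw [Finset.mem_singleton] at hx hy
    exact absurd (hx.trans hy.symm) hxy
  | succ n ih =>
    intro A hA
    have h0 : aleph (n + 1 : ℕ) < aleph ((n + 1) + 1 : ℕ) := by
      rw [aleph_lt_aleph]; exact_mod_cast Nat.lt_succ_self _
    have h00 : ℵ₀ < aleph (n + 1 : ℕ) := by
      rw [← aleph_zero, aleph_lt_aleph]; exact_mod_cast Nat.succ_pos n
    obtain ⟨B, hBA, hB⟩ := Cardinal.le_mk_iff_exists_subset.1 (h0.le.trans hA)
    -- the union of the values on `B`, together with `B`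
    have hU : #(↑(B ∪ ⋃ b ∈ B, D b) : Set L) ≤ aleph (n + 1 : ℕ) := by
      refine (mk_union_le _ _).trans ?_
      have h1 : #(↑(⋃ b ∈ B, D b) : Set L) ≤ aleph (n + 1 : ℕ) := by
        refine (mk_biUnion_le (fun b => D b) B).trans ?_
        rw [hB]
        refine (mul_le_mul' le_rfl (ciSup_le' fun b : B => (hD b.1).le_aleph0)).trans ?_
        rw [mul_eq_left h00.le h00.le aleph0_ne_zero]
      exact (add_le_add hB.le h1).trans (add_eq_self h00.le).le
    have h2 : ∃ x ∈ A, x ∉ (B ∪ ⋃ b ∈ B, D b) := by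
      by_contra hcon
      push Not at hcon
      have : #A ≤ #(↑(B ∪ ⋃ b ∈ B, D b) : Set L) := mk_le_mk_of_subset hcon
      exact absurd (hA.trans (this.trans hU)) (not_le.2 h0)
    obtain ⟨x, hxA, hx⟩ := h2
    have hxB : x ∉ B := fun h => hx (Or.inl h)
    have hxD : ∀ b ∈ B, x ∉ D b := fun b hb h => hx (Or.inr (mem_biUnion hb h))
    have h3 : aleph (n + 1 : ℕ) ≤ #(↑(B \ D x) : Set L) := by
      by_contra hcon
      push Not at hcon
      have h4 : #B ≤ #(↑(B \ D x) : Set L) + #(D x) := by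
        refine (mk_le_mk_of_subset (?_ : B ⊆ (B \ D x) ∪ D x)).trans (mk_union_le _ _)
        intro b hb
        by_cases hbD : b ∈ D x
        · exact Or.inr hbD
        · exact Or.inl ⟨hb, hbD⟩
      have h5 : #(↑(B \ D x) : Set L) + #(D x) < aleph (n + 1 : ℕ) :=
        add_lt_of_lt h00.le hcon (lt_of_le_of_lt (hD x).le_aleph0 h00)
      rw [hB] at h4
      exact absurd h5 (not_lt.2 h4)
    obtain ⟨s, hs, hcard, hfree⟩ := ih _ h3
    have hxs : x ∉ s := fun h => hxB (hs h).1
    refine ⟨insert x s, ?_, ?_, ?_⟩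
    · intro y hy
      rw [Finset.coe_insert] at hy
      rcases hy with rfl | hy
      · exact hxA
      · exact hBA (hs hy).1
    · rw [Finset.card_insert_of_notMem hxs, hcard]
    · intro a ha b hb hab
      rw [Finset.mem_insert] at ha hb
      rcases ha with rfl | ha
      · rcases hb with rfl | hb
        · exact absurd rfl hab
        · exact (hs hb).2
      · rcases hb with rfl | hb
        · exact hxD a (hs ha).1
        · exact hfree a ha b hb hab

end Pool.Agent.Q82.AlmIso
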