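import Pool.Agent.Q82.AlmIso

/-!
# A pair of `L^∞` spaces without property (A): the operators
-/

open MeasureTheory Filter Topology Set Cardinal
open scoped ENNReal

namespace Pool.Agent.Q82.AlmIso

/-- The first space: the points `base a` and the points `pt a b`. -/
inductive Dom (L : Type) : Type
  | base (a : L)
  | pt (a b : L)

/-- The point `a` of `base a` and of `pt a b`. -/
def Dom.root {L : Type} : Dom L → L
  | Dom.base a => a
  | Dom.pt a _ => a

/-- The `σ`-algebra of countable and co-countable sets. -/
instance (L : Type) : MeasurableSpace (Dom L) :=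
  detSpace (fun (x : Dom L) (c : Dom L) => (x = c : Prop))

/-- The second space: for each `m`, the sets with `m` elements and the points of the first
space. -/
inductive Cod (L : Type) : Type
  | fam (m : ℕ) (s : {s : Finset L // s.card = m})
  | pts (m : ℕ) (g : Dom L)

/-- The index `m` of a point of the second space. -/
def Cod.idx {L : Type} : Cod L → ℕ
  | Cod.fam m _ => m
  | Cod.pts m _ => m

open Dom Cod

/-- The weights of a point of the second space. -/
noncomputable def W {L : Type} : Cod L → (Dom L →₀ ℝ)
  | fam m s => ∑ a ∈ s.1, Finsupp.single (base a) (1 / (m : ℝ))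
  | pts m g => Finsupp.single g (1 - 1 / (m : ℝ)) + Finsupp.single (base g.root) (1 / (m : ℝ))

/-- The coordinates of a point of the second space: its index and its weights. -/
noncomputable def coord {L : Type} (x : Cod L) : Option (Dom L) → ℝ
  | none => x.idx
  | some g => W x g

noncomputable instance (L : Type) : MeasurableSpace (Cod L) := detSpace coord

variable {L : Type}

theorem W_nonneg (x : Cod L) (hx : 1 ≤ x.idx) (g : Dom L) : 0 ≤ W x g := by
  classical
  have hm : ∀ m : ℕ, 1 ≤ m → (0 : ℝ) ≤ 1 / m := fun m _ => by positivity
  have hm' : ∀ m : ℕ, 1 ≤ m → (0 : ℝ) ≤ 1 - 1 / m := by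
    intro m h
    have : (1 : ℝ) ≤ m := by exact_mod_cast h
    rw [sub_nonneg, div_le_one (by linarith)]
    exact this
  rcases x with ⟨m, s⟩ | ⟨m, h⟩
  · simp only [W, Finsupp.coe_finsetSum, Finset.sum_apply]
    refine Finset.sum_nonneg fun a _ => ?_
    rw [Finsupp.single_apply]
    split_ifs
    · exact hm m hx
    · exact le_rfl
  · simp only [W, Finsupp.coe_add, Pi.add_apply, Finsupp.single_apply]
    refine add_nonneg ?_ ?_ <;> split_ifs
    · exact hm' m hx
    · exact le_rfl
    · exact hm m hx
    · exact le_rfl

/-- The average of a function with respect to the weights. -/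
noncomputable def av (f : Dom L → ℝ) (x : Cod L) : ℝ := (W x).sum fun g c => c * f g

theorem av_inl (f : Dom L → ℝ) (m : ℕ) (s : {s : Finset L // s.card = m}) :
    av f (fam m s) = 1 / (m : ℝ) * ∑ a ∈ s.1, f (base a) := by
  classical
  unfold av W
  rw [← Finsupp.sum_finsetSum_index (by intro a; simp) (by intro a b c; ring), Finset.mul_sum]
  refine Finset.sum_congr rfl fun a _ => ?_
  rw [Finsupp.sum_single_index (by simp)]

theorem av_inr (f : Dom L → ℝ) (m : ℕ) (g : Dom L) :
    av f (pts m g) = (1 - 1 / (m : ℝ)) * f g + 1 / (m : ℝ) * f (base g.root) := by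
  classical
  unfold av W
  rw [Finsupp.sum_add_index' (by intro a; simp) (by intro a b c; ring),
    Finsupp.sum_single_index (by simp), Finsupp.sum_single_index (by simp)]

theorem av_one (x : Cod L) (hx : 1 ≤ x.idx) : av (fun _ => 1) x = 1 := by
  rcases x with ⟨m, s⟩ | ⟨m, g⟩
  · have hm : (m : ℝ) ≠ 0 := by
      have : 1 ≤ m := hx
      positivity
    rw [av_inl, Finset.sum_const, s.2]
    simp only [nsmul_eq_mul, mul_one]
    field_simp
  · rw [av_inr]; ring

theorem av_add (f g : Dom L → ℝ) (x : Cod L) : av (fun y => f y + g y) x = av f x + av g x := by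
  unfold av
  rw [← Finsupp.sum_add]
  refine Finsupp.sum_congr fun a _ => ?_
  ring

theorem av_smul (c : ℝ) (f : Dom L → ℝ) (x : Cod L) : av (fun y => c * f y) x = c * av f x := by
  unfold av
  rw [Finsupp.mul_sum]
  refine Finsupp.sum_congr fun a _ => ?_
  ring

theorem av_mono {f g : Dom L → ℝ} (h : ∀ y, f y ≤ g y) (x : Cod L) (hx : 1 ≤ x.idx) :
    av f x ≤ av g x := by
  unfold av
  exact Finset.sum_le_sum fun a _ => mul_le_mul_of_nonneg_left (h a) (W_nonneg x hx a)

theorem av_const (c : ℝ) (x : Cod L) (hx : 1 ≤ x.idx) : av (fun _ => c) x = c := by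
  have := av_smul (L := L) c (fun _ => 1) x
  rw [av_one x hx] at this
  simpa using this

theorem abs_av_le {f : Dom L → ℝ} {C : ℝ} (h : ∀ y, |f y| ≤ C) (x : Cod L) (hx : 1 ≤ x.idx) :
    |av f x| ≤ C := by
  rw [abs_le]
  constructor
  · rw [← av_const (L := L) (-C) x hx]
    exact av_mono (fun y => (abs_le.1 (h y)).1) x hx
  · rw [← av_const (L := L) C x hx]
    exact av_mono (fun y => (abs_le.1 (h y)).2) x hx

/-- Averages of a measurable function are measurable. -/
theorem measurable_av {f : Dom L → ℝ} (hf : Measurable f) (m : ℕ) (hm : 1 ≤ m) :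
    Measurable (fun x : Cod L => if x.idx = m then av f x else 0) := by
  classical
  obtain ⟨C, hC, hCf⟩ := detSpace_fun _ hf
  -- the constant value of `f` off `C`
  obtain ⟨c, hc⟩ : ∃ c : ℝ, ∀ y, y ∉ C → f y = c := by
    by_cases h : ∃ y, y ∉ C
    · obtain ⟨y, hy⟩ := h
      refine ⟨f y, fun z hz => hCf z y fun i hi => ?_⟩
      have h1 : z ≠ i := fun h => hz (h ▸ hi)
      have h2 : y ≠ i := fun h => hy (h ▸ hi)
      simp [h1, h2]
    · push Not at h
      exact ⟨0, fun y hy => absurd (h y) hy⟩
  refine measurable_of_det coord ⟨insert none (some '' C), (hC.image _).insert _, ?_⟩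
  intro x y hxy
  have h0 : x.idx = y.idx := by
    have := hxy none (mem_insert _ _)
    simpa [coord] using this
  have h1 : ∀ g ∈ C, W x g = W y g := fun g hg =>
    hxy (some g) (mem_insert_of_mem _ (mem_image_of_mem _ hg))
  by_cases hx : x.idx = m
  · have hy : y.idx = m := h0 ▸ hx
    rw [if_pos hx, if_pos hy]
    have hx1 : 1 ≤ x.idx := hx ▸ hm
    have hy1 : 1 ≤ y.idx := hy ▸ hm
    have e : ∀ z : Cod L, 1 ≤ z.idx → av f z = av (fun g => f g - c) z + c := by
      intro z hz
      have := av_add (L := L) (fun g => f g - c) (fun _ => c) z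
      rw [av_const c z hz] at this
      rw [← this]
      congr 1
      funext g
      ring
    rw [e x hx1, e y hy1]
    congr 1
    unfold av
    rw [Finsupp.sum_of_support_subset (W x) (Finset.subset_union_left (s₂ := (W y).support)) _
        (by intro i _; simp),
      Finsupp.sum_of_support_subset (W y) (Finset.subset_union_right (s₁ := (W x).support)) _
        (by intro i _; simp)]
    refine Finset.sum_congr rfl fun g _ => ?_
    by_cases hg : g ∈ C
    · rw [h1 g hg]
    · have : f g - c = 0 := by rw [hc g hg, sub_self]
      show W x g * (f g - c) = W y g * (f g - c)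
      rw [this, mul_zero, mul_zero]
  · have hy : ¬ y.idx = m := fun h => hx (h0.trans h)
    rw [if_neg hx, if_neg hy]

/-- The operator `T_m`. -/
noncomputable def TT (m : ℕ) (hm : 1 ≤ m) :
    Lp ℝ ∞ (Measure.count : Measure (Dom L)) →L[ℝ] Lp ℝ ∞ (Measure.count : Measure (Cod L)) :=
  LinearMap.mkContinuous
    { toFun := fun f => mk (fun x : Cod L => if x.idx = m then av f x else 0)
        (measurable_av (measurable_coe f) m hm) ‖f‖ (by
          intro x
          by_cases h : x.idx = m
          · simp only [h, if_true]
            exact abs_av_le (fun y => abs_le_norm f y) x (h ▸ hm)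
          · simp only [h, if_false]
            simp)
      map_add' := by
        intro f g
        refine ext_apply fun x => ?_
        rw [add_apply, mk_apply, mk_apply, mk_apply]
        by_cases h : x.idx = m
        · simp only [h, if_true]
          rw [← av_add]
          congr 1
          funext y
          exact add_apply f g y
        · simp [h]
      map_smul' := by
        intro c f
        refine ext_apply fun x => ?_
        rw [RingHom.id_apply, smul_apply, mk_apply, mk_apply]
        by_cases h : x.idx = m
        · simp only [h, if_true]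
          rw [← av_smul]
          congr 1
          funext y
          exact smul_apply c f y
        · simp [h] }
    1 (by
      intro f
      rw [one_mul]
      refine norm_le_of_forall (norm_nonneg _) fun x => ?_
      simp only [LinearMap.coe_mk, AddHom.coe_mk]
      rw [mk_apply]
      by_cases h : x.idx = m
      · simp only [h, if_true]
        exact abs_av_le (fun y => abs_le_norm f y) x (h ▸ hm)
      · simp only [h, if_false]
        simp)

theorem TT_apply (m : ℕ) (hm : 1 ≤ m) (f : Lp ℝ ∞ (Measure.count : Measure (Dom L)))
    (x : Cod L) : TT m hm f x = if x.idx = m then av f x else 0 := by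
  unfold TT
  rw [LinearMap.mkContinuous_apply, LinearMap.coe_mk, AddHom.coe_mk, mk_apply]

theorem norm_TT_le (m : ℕ) (hm : 1 ≤ m) (f : Lp ℝ ∞ (Measure.count : Measure (Dom L))) :
    ‖TT m hm f‖ ≤ ‖f‖ := by
  refine norm_le_of_forall (norm_nonneg _) fun x => ?_
  rw [TT_apply]
  by_cases h : x.idx = m
  · simp only [h, if_true]
    exact abs_av_le (fun y => abs_le_norm f y) x (h ▸ hm)
  · simp only [h, if_false]
    simp

theorem TT_isPos (m : ℕ) (hm : 1 ≤ m) : IsPos (TT (L := L) m hm) := by
  intro f hf
  rw [nonneg_iff] at hf ⊢
  intro x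
  rw [TT_apply]
  by_cases h : x.idx = m
  · simp only [h, if_true]
    rw [← av_const (L := L) 0 x (h ▸ hm)]
    exact av_mono hf x (h ▸ hm)
  · simp [h]

theorem TT_epsIso (m : ℕ) (hm : 3 ≤ m) : EpsIso (2 / m) (TT (L := L) m (by omega)) := by
  have hm0 : (3 : ℝ) ≤ m := by exact_mod_cast hm
  have hpos : (0 : ℝ) < m := by linarith
  have h1m : (0 : ℝ) < 1 - 1 / m := by
    rw [sub_pos, div_lt_one hpos]; linarith
  intro f
  set T := TT (L := L) m (by omega) with hT
  constructor
  · -- lower bound
    have key : ‖f‖ ≤ (‖T f‖ + 1 / m * ‖f‖) / (1 - 1 / m) := by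
      refine norm_le_of_forall (by positivity) fun g => ?_
      rw [le_div_iff₀ h1m]
      have h1 := abs_le_norm (T f) (pts m g)
      rw [hT, TT_apply, if_pos (show (pts m g : Cod L).idx = m from rfl), av_inr] at h1
      have h2 := abs_le_norm f (base g.root)
      have h3 : |(1 - 1 / (m : ℝ)) * f g| ≤
          |(1 - 1 / (m : ℝ)) * f g + 1 / (m : ℝ) * f (base g.root)| +
            |1 / (m : ℝ) * f (base g.root)| := by
        have := abs_sub ((1 - 1 / (m : ℝ)) * f g + 1 / (m : ℝ) * f (base g.root))
          (1 / (m : ℝ) * f (base g.root))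
        simpa using this
      have hm1 : |1 / (m : ℝ)| = 1 / (m : ℝ) := abs_of_pos (by positivity)
      rw [abs_mul, abs_of_pos h1m, abs_mul (1 / (m : ℝ)), hm1] at h3
      have h4 : 1 / (m : ℝ) * |f (base g.root)| ≤ 1 / (m : ℝ) * ‖f‖ :=
        mul_le_mul_of_nonneg_left h2 (by positivity)
      calc |f g| * (1 - 1 / (m : ℝ)) = (1 - 1 / (m : ℝ)) * |f g| := by ring
        _ ≤ _ := h3
        _ ≤ _ := add_le_add h1 h4
    rw [le_div_iff₀ h1m] at key
    have : (1 - 2 / (m : ℝ)) * ‖f‖ = ‖f‖ * (1 - 1 / (m : ℝ)) - 1 / m * ‖f‖ := by ring
    rw [this]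
    linarith
  · calc ‖T f‖ ≤ ‖f‖ := norm_TT_le m (by omega) f
      _ ≤ (1 + 2 / m) * ‖f‖ := by
        have : 0 ≤ 2 / (m : ℝ) * ‖f‖ := by positivity
        linarith

/-! ### The indicator of a point -/

/-- The indicator of a point of the first space. -/
noncomputable def ind (g : Dom L) : Lp ℝ ∞ (Measure.count : Measure (Dom L)) := by
  classical
  exact mk (fun y => if y = g then 1 else 0) (by
    refine measurable_of_det _ ⟨{g}, countable_singleton g, fun x y hxy => ?_⟩
    have := hxy g rfl
    simp only [eq_iff_iff] at this
    simp [this]) 1 (by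
    intro x
    split_ifs <;> simp)

theorem ind_apply [DecidableEq (Dom L)] (g y : Dom L) : ind g y = if y = g then 1 else 0 := by
  unfold ind
  rw [mk_apply]
  congr

theorem norm_ind (g : Dom L) : ‖ind g‖ = 1 := by
  classical
  refine le_antisymm (norm_le_of_forall zero_le_one fun y => ?_) ?_
  · rw [ind_apply]; split_ifs <;> simp
  · have := abs_le_norm (ind g) g
    rw [ind_apply, if_pos rfl, abs_one] at this
    exact this

/-- The distance from `T_m` to the isometric operators is at least `1`. -/
theorem one_le_dist (hL : ∀ n : ℕ, aleph n ≤ #L) (m : ℕ) (hm : 3 ≤ m)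
    (V : Op (Measure.count : Measure (Dom L))
      (Measure.count : Measure (Cod L))) (hV : EpsIso 0 V) :
    1 ≤ opDist (TT (L := L) m (by omega)) V := by
  classical
  unfold opDist
  by_contra hcon
  push Not at hcon
  set T := TT (L := L) m (by omega) with hT
  set η := ‖T - V‖ with hη
  have hη0 : 0 ≤ η := norm_nonneg _
  have hm0 : (3 : ℝ) ≤ m := by exact_mod_cast hm
  have hVn : ∀ f, ‖V f‖ = ‖f‖ := by
    intro f
    have := hV f
    simp only [sub_zero, add_zero, one_mul] at this
    exact le_antisymm this.2 this.1
  have hdiff : ∀ f x, |T f x - V f x| ≤ η * ‖f‖ := by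
    intro f x
    have h1 := abs_le_norm (T f - V f) x
    rw [sub_apply] at h1
    refine h1.trans ?_
    rw [← _root_.sub_apply]
    exact (T - V).le_opNorm f
  -- step 1: the indicator of `(pt a b)` is attained at the point with that label
  have step1 : ∀ a b : L, |V (ind (pt a b)) (pts m (pt a b))| = 1 := by
    intro a b
    set g : Dom L := (pt a b) with hg
    have hle : |V (ind g) (pts m g)| ≤ 1 := by
      have := abs_le_norm (V (ind g)) (pts m g)
      rwa [hVn, norm_ind] at this
    refine le_antisymm hle ?_
    by_contra hlt
    push Not at hlt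
    have h0 : ‖V (ind g)‖ ≤ max |V (ind g) (pts m g)| η := by
      refine norm_le_of_forall (le_max_of_le_right hη0) fun x => ?_
      by_cases hx : x = (pts m g)
      · rw [hx]; exact le_max_left _ _
      · refine le_max_of_le_right ?_
        have hT0 : T (ind g) x = 0 := by
          rw [hT, TT_apply]
          by_cases hxm : x.idx = m
          · rw [if_pos hxm]
            rcases x with ⟨k, s⟩ | ⟨k, h⟩
            · rw [av_inl]
              have : ∀ c ∈ s.1, ind g (base c) = 0 := by
                intro c _
                rw [ind_apply, if_neg]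
                intro h
                rw [hg] at h
                cases h
              rw [Finset.sum_eq_zero this, mul_zero]
            · have hk : k = m := hxm
              subst hk
              have hgh : h ≠ g := by
                intro h'
                exact hx (by rw [h'])
              rw [av_inr, ind_apply, ind_apply, if_neg hgh, if_neg]
              · ring
              · intro h'
                rw [hg] at h'
                cases h'
          · rw [if_neg hxm]
        have := hdiff (ind g) x
        rw [hT0, zero_sub, abs_neg, norm_ind, mul_one] at this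
        exact this
    rw [hVn, norm_ind] at h0
    rcases le_max_iff.1 h0 with h | h
    · exact absurd hlt (not_lt.2 h)
    · exact absurd hcon (not_lt.2 h)
  -- step 2: other indicators vanish there
  have step2 : ∀ a b : L, ∀ l : Dom L, l ≠ (pt a b) →
      V (ind l) (pts m (pt a b)) = 0 := by
    intro a b l hl
    set g : Dom L := (pt a b) with hg
    have hn : ∀ c : ℝ, |c| = 1 → ‖ind g + c • ind l‖ ≤ 1 := by
      intro c hc
      refine norm_le_of_forall zero_le_one fun y => ?_
      rw [add_apply, smul_apply, ind_apply, ind_apply]
      by_cases hy : y = g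
      · have : y ≠ l := fun h => hl (h ▸ hy)
        simp [hy, Ne.symm hl]
      · by_cases hy' : y = l
        · simp [hy', hl, hc]
        · simp [hy, hy']
    have h1 : ∀ c : ℝ, |c| = 1 →
        |V (ind g) (pts m g) + c * V (ind l) (pts m g)| ≤ 1 := by
      intro c hc
      have := abs_le_norm (V (ind g + c • ind l)) (pts m g)
      rw [hVn, map_add, map_smul, add_apply, smul_apply] at this
      exact this.trans (hn c hc)
    have h2 := h1 1 (by simp)
    have h3 := h1 (-1) (by simp)
    have h4 := step1 a b
    rw [← hg] at h4
    rcases abs_eq (zero_le_one' ℝ) |>.1 h4 with h5 | h5 <;> rw [h5] at h2 h3 <;>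
      rw [abs_le] at h2 h3 <;> linarith [h2.1, h2.2, h3.1, h3.2]
  -- step 3: countable sets of coordinates
  have step3 : ∀ a : L, ∃ C : Set (Option (Dom L)), C.Countable ∧
      ∀ x y : Cod L, (∀ i ∈ C, coord x i = coord y i) →
        V (ind (base a)) x = V (ind (base a)) y := by
    intro a
    exact detSpace_fun coord (measurable_coe (V (ind (base a))))
  choose C hC hCV using step3
  set D : L → Set L := fun a => {b | some (base b) ∈ C a} with hD
  have hDc : ∀ a, (D a).Countable := by
    intro a
    refine (hC a).preimage (f := fun b : L => some (base b)) ?_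
    intro b c hbc
    simpa using hbc
  obtain ⟨s, -, hscard, hfree⟩ := exists_free D hDc (m - 1) Set.univ (by
    rw [mk_univ]
    exact hL _)
  have hscard' : s.card = m := by omega
  set x : Cod L := fam m ⟨s, hscard'⟩ with hx
  have hWx : ∀ l : L, W x (base l) = if l ∈ s then 1 / (m : ℝ) else 0 := by
    intro l
    rw [hx]
    simp only [W, Finsupp.coe_finsetSum, Finset.sum_apply, Finsupp.single_apply]
    have : ∀ a : L, ((base a) = (base l)) ↔ a = l := by
      intro a
      simp
    simp only [this]
    rw [Finset.sum_ite_eq' s l]
  have hWx' : ∀ l b : L, W x (pt l b) = 0 := by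
    intro l b
    rw [hx]
    simp only [W, Finsupp.coe_finsetSum, Finset.sum_apply, Finsupp.single_apply]
    refine Finset.sum_eq_zero fun a _ => ?_
    rw [if_neg]
    simp
  -- step 4: the indicators of the points of the free set vanish at `x`
  have step4 : ∀ a ∈ s, V (ind (base a)) x = 0 := by
    intro a ha
    -- choose `b`
    have hb : ∃ b : L, some (pt a b) ∉ C a := by
      by_contra h
      push Not at h
      have hcount : (Set.univ : Set L).Countable := by
        have h1 : (Set.univ : Set L) ⊆ (fun b : L => some (pt a b)) ⁻¹' (C a) :=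
          fun b _ => h b
        refine Set.Countable.mono h1 ((hC a).preimage ?_)
        intro b c hbc
        simpa using hbc
      have h1 : #L ≤ ℵ₀ := by
        rw [← mk_univ]; exact hcount.le_aleph0
      have h2 : ℵ₀ < aleph 1 := by
        rw [← aleph_zero, aleph_lt_aleph]; exact one_pos
      have h3 := hL 1
      rw [Nat.cast_one] at h3
      exact absurd (h3.trans h1) (not_le.2 h2)
    obtain ⟨b, hb⟩ := hb
    rw [hCV a x (pts m (pt a b))]
    · exact step2 a b (base a) (by
        simp)
    · intro i hi
      rcases i with _ | o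
      · rfl
      · simp only [coord]
        have hWy : ∀ g : Dom L, W ((pts m (pt a b)) : Cod L) g =
            (if g = (pt a b) then 1 - 1 / (m : ℝ) else 0) +
              (if g = (base a) then 1 / (m : ℝ) else 0) := by
          intro g
          simp only [W, Finsupp.coe_add, Pi.add_apply, Finsupp.single_apply]
          congr 1 <;> congr 1 <;> exact propext ⟨Eq.symm, Eq.symm⟩
        rw [hWy]
        cases o with
        | base l =>
          have h1 : ¬ ((base l) = (pt a b)) := by
            simp
          have h2 : ((base l) = (base a)) ↔ l = a := by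
            simp
          have e := hWx l
          rw [if_neg h1, zero_add]
          refine e.trans ?_
          by_cases hla : l = a
          · subst hla
            rw [if_pos ha, if_pos rfl]
          · rw [if_neg (fun h => hla (h2.1 h)), if_neg]
            intro hls
            exact hfree a ha l hls (Ne.symm hla) hi
        | pt l c =>
          have h1 : ¬ ((pt l c) = (pt a b)) := by
            intro h
            exact hb (h ▸ hi)
          have h2 : ¬ ((pt l c) = (base a)) := by
            simp
          rw [if_neg h1, if_neg h2, zero_add]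
          exact hWx' l c
  -- step 5: conclusion
  set F : Lp ℝ ∞ (Measure.count : Measure (Dom L)) := ∑ a ∈ s, ind (base a) with hF
  have hFapp : ∀ y : Dom L, F y = ∑ a ∈ s, (if y = (base a) then (1 : ℝ) else 0) := by
    intro y
    have : ∀ t : Finset L, (∑ a ∈ t, ind (base a)) y =
        ∑ a ∈ t, (if y = (base a) then (1 : ℝ) else 0) := by
      intro t
      induction t using Finset.induction_on with
      | empty =>
        rw [Finset.sum_empty, Finset.sum_empty]
        exact (Measure.ae_count_iff (p := fun z => (0 : Lp ℝ ∞ (Measure.count : Measure (Dom L))) z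
          = 0)).1 (Lp.coeFn_zero _ _ _) y
      | insert a t ha ih =>
        rw [Finset.sum_insert ha, Finset.sum_insert ha, add_apply, ih, ind_apply]
    exact this s
  have hFn : ‖F‖ ≤ 1 := by
    refine norm_le_of_forall zero_le_one fun y => ?_
    rw [hFapp]
    have h1 : ∑ a ∈ s, (if y = (base a) then (1 : ℝ) else 0) ≤ 1 := by
      have : ∑ a ∈ s, (if y = (base a) then (1 : ℝ) else 0) ≤
          ∑ a ∈ s, (if y.root = a then (1 : ℝ) else 0) := by
        refine Finset.sum_le_sum fun a _ => ?_
        by_cases h : y = (base a)
        · have h' : y.root = a := by rw [h]; rfl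
          rw [if_pos h, if_pos h']
        · rw [if_neg h]
          split_ifs <;> norm_num
      refine this.trans ?_
      rw [Finset.sum_ite_eq s y.root]
      split_ifs <;> norm_num
    have h0 : 0 ≤ ∑ a ∈ s, (if y = (base a) then (1 : ℝ) else 0) :=
      Finset.sum_nonneg fun a _ => by split_ifs <;> norm_num
    rw [abs_of_nonneg h0]
    exact h1
  have hVF : V F x = 0 := by
    have : ∀ t : Finset L, t ⊆ s → V (∑ a ∈ t, ind (base a)) x = 0 := by
      intro t
      induction t using Finset.induction_on with
      | empty =>
        intro _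
        rw [Finset.sum_empty, map_zero]
        exact (Measure.ae_count_iff (p := fun z => (0 : Lp ℝ ∞ (Measure.count : Measure (Cod L))) z
          = 0)).1 (Lp.coeFn_zero _ _ _) x
      | insert a t ha ih =>
        intro hsub
        rw [Finset.sum_insert ha, map_add, add_apply,
          ih (fun b hb => hsub (Finset.mem_insert_of_mem hb)),
          step4 a (hsub (Finset.mem_insert_self _ _)), add_zero]
    exact this s (Finset.Subset.refl s)
  have hTF : T F x = 1 := by
    rw [hT, TT_apply, hx, if_pos (show (fam m ⟨s, hscard'⟩ : Cod L).idx = m from rfl), av_inl]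
    have : ∀ a ∈ s, F (base a) = 1 := by
      intro a ha
      rw [hFapp]
      have h2 : ∀ b : L, ((base a) = (base b)) ↔ a = b := by
        intro b
        simp
      simp only [h2]
      rw [Finset.sum_ite_eq s a, if_pos ha]
    rw [Finset.sum_congr rfl this]
    simp only [Finset.sum_const, nsmul_eq_mul, mul_one]
    rw [hscard']
    have : (m : ℝ) ≠ 0 := by positivity
    field_simp
  have := hdiff F x
  rw [hTF, hVF, sub_zero, abs_one] at this
  have h2 : η * ‖F‖ ≤ η * 1 := mul_le_mul_of_nonneg_left hFn hη0
  linarith

end Pool.Agent.Q82.AlmIso
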