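import Mathlib

/-!
# Almost isometric operators between `L^∞` spaces: definitions

The problem: properties (A) and (B₂) for `B(L^∞(Ω₁), L^∞(Ω₂))`.  The space `L^∞(Ω, Σ, μ)` is
Mathlib's `Lp ℝ ∞ μ`, with its norm and its almost everywhere pointwise order.
-/

open MeasureTheory Filter Topology Set
open scoped ENNReal

namespace Pool.Agent.Q82.AlmIso

variable {Ω₁ Ω₂ : Type} {m₁ : MeasurableSpace Ω₁} {m₂ : MeasurableSpace Ω₂}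

/-- The bounded operators from `L^∞(μ₁)` to `L^∞(μ₂)`. -/
abbrev Op (μ₁ : Measure Ω₁) (μ₂ : Measure Ω₂) : Type := Lp ℝ ∞ μ₁ →L[ℝ] Lp ℝ ∞ μ₂

variable {μ₁ : Measure Ω₁} {μ₂ : Measure Ω₂}

/-- `T` is `ε`-isometric: `(1 - ε) ‖x‖ ≤ ‖T x‖ ≤ (1 + ε) ‖x‖` for all `x`.  For `ε = 0` this says
that `T` is isometric. -/
def EpsIso (ε : ℝ) (T : Op μ₁ μ₂) : Prop :=
  ∀ x, (1 - ε) * ‖x‖ ≤ ‖T x‖ ∧ ‖T x‖ ≤ (1 + ε) * ‖x‖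

/-- A positive operator between two `L^∞` spaces. -/
def IsPos (T : Op μ₁ μ₂) : Prop := ∀ f, 0 ≤ f → 0 ≤ T f

/-- The distance of two operators in the operator norm. -/
noncomputable def opDist (T V : Op μ₁ μ₂) : ℝ := ‖T - V‖

/-- Property (A) for `B(L^∞(μ₁), L^∞(μ₂))`. -/
def PropA (μ₁ : Measure Ω₁) (μ₂ : Measure Ω₂) : Prop :=
  ∃ δ : ℝ → ℝ, Tendsto δ (𝓝[>] 0) (𝓝 0) ∧ ∀ ε ∈ Ioo (0 : ℝ) 1,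
    ∀ T : Op μ₁ μ₂, EpsIso ε T → ∃ V : Op μ₁ μ₂, EpsIso 0 V ∧ opDist T V ≤ δ ε

/-- Property (B₂) for `B(L^∞(μ₁), L^∞(μ₂))`. -/
def PropB₂ (μ₁ : Measure Ω₁) (μ₂ : Measure Ω₂) : Prop :=
  ∃ δ : ℝ → ℝ, Tendsto δ (𝓝[>] 0) (𝓝 0) ∧ ∀ ε ∈ Ioo (0 : ℝ) 1,
    ∀ T : Op μ₁ μ₂, IsPos T → EpsIso ε T →
      ∃ V : Op μ₁ μ₂, IsPos V ∧ EpsIso 0 V ∧ opDist T V ≤ δ ε

end Pool.Agent.Q82.AlmIso
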