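import Pool.Agent.Q82.BTDecay

/-!
The quasi-norms of dilated blocks and of Schwartz functions.
-/

open MeasureTheory SchwartzMap
open scoped ENNReal NNReal FourierTransform SchwartzMap RealInnerProductSpace

namespace Pool.Agent.Q82.BT

variable {n : ℕ}

open Pool.Agent.Helper656.Cap (dil dil_apply integral_mul_dil)

theorem geo_sum {t₀ b : ℝ} (ht₀ : 0 < t₀) (hb : 0 < b) : ∃ C : ℝ≥0, ∀ l : ℝ, 0 < l →
    ∑' j : ℕ, (if t₀ < 2 ^ j * l then ENNReal.ofReal ((2 ^ j * l) ^ (-b)) else 0) ≤ C := by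
  have hr0 : (0 : ℝ) ≤ 2 ^ (-b) := by positivity
  have hr1 : (2 : ℝ) ^ (-b) < 1 := Real.rpow_lt_one_of_one_lt_of_neg one_lt_two (by linarith)
  have hs : Summable fun k : ℕ => t₀ ^ (-b) * ((2 : ℝ) ^ (-b)) ^ k :=
    (summable_geometric_of_lt_one hr0 hr1).mul_left _
  refine ⟨(∑' k : ℕ, t₀ ^ (-b) * ((2 : ℝ) ^ (-b)) ^ k).toNNReal, fun l hl => ?_⟩
  have hex : ∃ j : ℕ, t₀ < 2 ^ j * l := by
    obtain ⟨j, hj⟩ := pow_unbounded_of_one_lt (t₀ / l) (one_lt_two)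
    exact ⟨j, by rwa [div_lt_iff₀ hl] at hj⟩
  classical
  set j₀ := Nat.find hex with hj₀
  have h1 : t₀ < 2 ^ j₀ * l := Nat.find_spec hex
  have h2 : ∀ j < j₀, ¬ t₀ < 2 ^ j * l := fun j hj => Nat.find_min hex hj
  set f : ℕ → ℝ≥0∞ := fun j => if t₀ < 2 ^ j * l then ENNReal.ofReal ((2 ^ j * l) ^ (-b)) else 0
    with hf
  have h3 : ∑' j, f j = ∑' k, f (k + j₀) := by
    have h4 := Summable.sum_add_tsum_nat_add' (f := f) (k := j₀) ENNReal.summable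
    rw [← h4, Finset.sum_eq_zero, zero_add]
    intro j hj
    rw [hf]
    simp only
    rw [if_neg (h2 j (Finset.mem_range.1 hj))]
  rw [h3]
  have h5 : ∀ k, f (k + j₀) ≤ ENNReal.ofReal (t₀ ^ (-b) * ((2 : ℝ) ^ (-b)) ^ k) := by
    intro k
    rw [hf]
    simp only
    split_ifs
    · apply ENNReal.ofReal_le_ofReal
      have h6 : (2 : ℝ) ^ (k + j₀) * l = 2 ^ k * (2 ^ j₀ * l) := by rw [pow_add]; ring
      have h7 : ((2 : ℝ) ^ (-b)) ^ k = ((2 : ℝ) ^ k) ^ (-b) := by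
        rw [← Real.rpow_natCast, ← Real.rpow_natCast, ← Real.rpow_mul two_pos.le,
          ← Real.rpow_mul two_pos.le, mul_comm]
      rw [h6, h7, mul_comm (t₀ ^ (-b)), ← Real.mul_rpow (by positivity) ht₀.le]
      apply Real.rpow_le_rpow_of_nonpos (by positivity) _ (by linarith)
      gcongr
    · exact bot_le
  refine (ENNReal.tsum_le_tsum h5).trans (le_of_eq ?_)
  rw [← ENNReal.ofReal_tsum_of_nonneg (fun k => by positivity) hs]
  rfl

/-- the pieces of a Schwartz function -/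
theorem lpPiece_schwartz (Φ : 𝓢(E n, ℂ)) {w : 𝓢(E n, ℂ)} {u : E n → ℝ}
    (hw : ∀ y, w y = ((u y : ℝ) : ℂ)) (j : ℕ) (x : E n) :
    lpPiece Φ u j x = cv (sc (scl j) (scl_pos j) (gen Φ j)) w x := by
  rw [lpPiece_eq, avg, cv_apply']
  refine integral_congr_ae (Filter.Eventually.of_forall fun y => ?_)
  simp only [hw]

/-- the pieces of a dilated block -/
theorem lpPiece_dil (Φ : 𝓢(E n, ℂ)) {w : 𝓢(E n, ℂ)} {ω : E n → ℝ}
    (hw : ∀ y, w y = ((ω y : ℝ) : ℂ)) {l : ℝ} (hl : 0 < l) (c : E n) (j : ℕ) (x : E n) :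
    lpPiece Φ (fun y => ω (l⁻¹ • (y - c))) j x =
      cv (sc (scl j * l) (mul_pos (scl_pos j) hl) (gen Φ j)) w (l⁻¹ • (x - c)) := by
  rw [lpPiece_eq, avg, cv_apply']
  have h1 : ∀ y, (sc (scl j) (scl_pos j) (gen Φ j)) (x - y) * ((ω (l⁻¹ • (y - c)) : ℝ) : ℂ) =
      (((l ^ n : ℝ) : ℂ) * (sc (scl j) (scl_pos j) (gen Φ j)) (x - y)) * dil c l hl w y := by
    intro y
    rw [dil_apply, hw]
    have h2 : ((l ^ n : ℝ) : ℂ) * (((l⁻¹) ^ n : ℝ) : ℂ) = 1 := by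
      rw [← Complex.ofReal_mul, ← mul_pow, mul_inv_cancel₀ hl.ne', one_pow, Complex.ofReal_one]
    calc _ = (((l ^ n : ℝ) : ℂ) * (((l⁻¹) ^ n : ℝ) : ℂ)) *
          ((sc (scl j) (scl_pos j) (gen Φ j)) (x - y) * ((ω (l⁻¹ • (y - c)) : ℝ) : ℂ)) := by
          rw [h2, one_mul]
      _ = _ := by ring
  rw [integral_congr_ae (Filter.Eventually.of_forall h1)]
  rw [integral_mul_dil c hl w
    (fun y => ((l ^ n : ℝ) : ℂ) * (sc (scl j) (scl_pos j) (gen Φ j)) (x - y))]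
  refine integral_congr_ae (Filter.Eventually.of_forall fun z => ?_)
  simp only
  rw [sc_apply, sc_apply, scaled, scaled]
  have h3 : (scl j * l) • (l⁻¹ • (x - c) - z) = scl j • (x - (c + l • z)) := by
    rw [mul_smul, smul_sub l, smul_smul l l⁻¹, mul_inv_cancel₀ hl.ne', one_smul, sub_sub]
  rw [h3, mul_pow]
  push_cast
  ring

theorem lintegral_affine {l : ℝ} (hl : 0 < l) (c : E n) {f : E n → ℝ≥0∞} (hf : Measurable f) :
    ∫⁻ x, f (l⁻¹ • (x - c)) = ENNReal.ofReal (l ^ n) * ∫⁻ x, f x := by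
  rw [lintegral_sub_right_eq_self (fun x => f (l⁻¹ • x)) c]
  rw [← lintegral_scale (inv_pos.2 hl) hf, lintegral_const_mul' _ _ ENNReal.ofReal_ne_top,
    ← mul_assoc, ← ENNReal.ofReal_mul (by positivity), ← mul_pow, mul_inv_cancel₀ hl.ne', one_pow,
    ENNReal.ofReal_one, one_mul]

/-- bound for the integral of the pieces with index at least one -/
theorem theta_bound {Φ : 𝓢(E n, ℂ)} (hΦ : IsGenerator Φ) {p : ℝ} (hp : 0 < p) (m : ℕ) {N : ℕ}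
    (hN : (n : ℝ) < N * p) {t₀ : ℝ} (ht₀ : 0 < t₀) :
    ∃ (C : ℝ≥0), ∀ (t : ℝ) (ht : 0 < t), t₀ ≤ t → ∀ v : 𝓢(E n, ℂ),
      ∫⁻ x, ‖cv (sc t ht (theta Φ)) v x‖ₑ ^ p ≤
        C * (ENNReal.ofReal (t ^ (-(2 * m * p))) * ws N (lap m v) ^ p) := by
  obtain ⟨κ, hκ⟩ := exists_kappa hΦ m
  obtain ⟨C₁, hC₁⟩ := conv_decay κ N ht₀
  obtain ⟨C₂, hC₂⟩ := lintegral_rpow_le N hp hN
  refine ⟨C₂ * C₁ ^ p, fun t ht htt v => ?_⟩
  refine (hC₂ (fun x => cv (sc t ht (theta Φ)) v x)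
    (ENNReal.ofReal ((t ^ 2) ^ m)⁻¹ * (C₁ * ws N (lap m v))) fun x => ?_).trans (le_of_eq ?_)
  · rw [cv_theta hκ t ht v]
    have h1 : (((((t ^ 2) ^ m)⁻¹ : ℝ) : ℂ) • cv (sc t ht κ) (lap m v)) x =
        ((((t ^ 2) ^ m)⁻¹ : ℝ) : ℂ) * cv (sc t ht κ) (lap m v) x := rfl
    rw [h1, enorm_mul, ← ofReal_norm, Complex.norm_real, Real.norm_of_nonneg (by positivity)]
    calc _ = ENNReal.ofReal ((t ^ 2) ^ m)⁻¹ * (wt N x * ‖cv (sc t ht κ) (lap m v) x‖ₑ) := by ring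
      _ ≤ _ := mul_le_mul_right (hC₁ t ht htt (lap m v) x) _
  · rw [ENNReal.mul_rpow_of_nonneg _ _ hp.le, ENNReal.mul_rpow_of_nonneg _ _ hp.le,
      ENNReal.ofReal_rpow_of_pos (by positivity)]
    have h2 : (((t ^ 2) ^ m)⁻¹) ^ p = t ^ (-(2 * m * p)) := by
      rw [← pow_mul, ← Real.rpow_natCast, ← Real.rpow_neg ht.le, ← Real.rpow_mul ht.le]
      congr 1
      push_cast
      ring
    rw [h2]
    push_cast
    rw [ENNReal.coe_rpow_of_nonneg _ hp.le]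
    ring

/-- the quasi-norm of a dilated block with a spectral gap -/
theorem bp_block {Φ : 𝓢(E n, ℂ)} (hΦ : IsGenerator Φ) {α p : ℝ} (hp : 0 < p)
    {w : 𝓢(E n, ℂ)} {ω : E n → ℝ} (hw : ∀ y, w y = ((ω y : ℝ) : ℂ)) {δ : ℝ} (hδ : 0 < δ)
    (hgap : ∀ ξ, ‖ξ‖ ≤ δ → 𝓕 w ξ = 0) :
    ∃ (C : ℝ≥0) (l₀ : ℝ), 0 < l₀ ∧ ∀ (l : ℝ), 0 < l → l ≤ l₀ → ∀ c : E n,
      bp Φ α p (fun y => ω (l⁻¹ • (y - c))) ≤ C * ENNReal.ofReal (l ^ ((n : ℝ) - α * p)) := by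
  obtain ⟨R, hR, hR0⟩ := exists_radius hΦ
  obtain ⟨m, hm⟩ := exists_nat_gt α
  have hb : 0 < (2 * m - α) * p := by
    have : (0 : ℝ) ≤ m := Nat.cast_nonneg m
    apply mul_pos _ hp
    linarith
  set t₀ : ℝ := δ / R with ht₀
  have ht₀p : 0 < t₀ := by positivity
  obtain ⟨N, hN⟩ := exists_nat_gt ((n : ℝ) / p)
  rw [div_lt_iff₀ hp] at hN
  obtain ⟨C₁, hC₁⟩ := theta_bound hΦ hp m hN ht₀p
  obtain ⟨C₂, hC₂⟩ := geo_sum ht₀p hb
  have hzero : ∀ (j : ℕ) (t : ℝ) (ht : 0 < t), t ≤ t₀ → cv (sc t ht (gen Φ j)) w = 0 := by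
    intro j t ht htt
    apply schwartz_ext_fourier
    intro ξ
    rw [fourier_cv, fourier_sc]
    have hz : 𝓕 (0 : 𝓢(E n, ℂ)) ξ = 0 := by
      rw [FourierTransform.fourier_zero]; rfl
    rw [hz]
    rcases le_or_gt ‖ξ‖ δ with h | h
    · rw [hgap ξ h, mul_zero]
    · rw [hR0 j, zero_mul]
      rw [norm_smul, norm_inv, Real.norm_of_nonneg ht.le, lt_inv_mul_iff₀ ht]
      calc t * R ≤ t₀ * R := by gcongr
        _ = δ := by rw [ht₀]; field_simp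
        _ < ‖ξ‖ := h
  have hws := ws_lt_top N (lap m w)
  set W := ws N (lap m w) ^ p with hW
  have hWfin : W ≠ ∞ := ENNReal.rpow_ne_top_of_nonneg hp.le hws.ne
  set D : ℝ≥0∞ := ENNReal.ofReal (2 ^ (α * p)) * (C₁ * W) * C₂ with hD
  have hDfin : D ≠ ∞ := ENNReal.mul_ne_top (ENNReal.mul_ne_top ENNReal.ofReal_ne_top
    (ENNReal.mul_ne_top ENNReal.coe_ne_top hWfin)) ENNReal.coe_ne_top
  refine ⟨D.toNNReal, t₀, ht₀p, fun l hl hll c => ?_⟩
  rw [ENNReal.coe_toNNReal hDfin]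
  have hpc : ∀ j, ∫⁻ x, ‖lpPiece Φ (fun y => ω (l⁻¹ • (y - c))) j x‖ₑ ^ p =
      ENNReal.ofReal (l ^ n) *
        ∫⁻ x, ‖cv (sc (scl j * l) (mul_pos (scl_pos j) hl) (gen Φ j)) w x‖ₑ ^ p := by
    intro j
    simp only [lpPiece_dil Φ hw hl c j]
    exact lintegral_affine hl c (((SchwartzMap.continuous _).enorm.measurable).pow_const p)
  have h0 : ∫⁻ x, ‖lpPiece Φ (fun y => ω (l⁻¹ • (y - c))) 0 x‖ₑ ^ p = 0 := by
    rw [hpc, hzero 0 _ _ (by simpa [scl] using hll)]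
    simp [ENNReal.zero_rpow_of_pos hp]
  have hj : ∀ j : ℕ, ENNReal.ofReal (2 ^ (((j + 1 : ℕ) : ℝ) * α * p)) *
      ∫⁻ x, ‖lpPiece Φ (fun y => ω (l⁻¹ • (y - c))) (j + 1) x‖ₑ ^ p ≤
      (ENNReal.ofReal (2 ^ (α * p)) * (C₁ * W) * ENNReal.ofReal (l ^ ((n : ℝ) - α * p))) *
        (if t₀ < 2 ^ j * l then ENNReal.ofReal ((2 ^ j * l) ^ (-((2 * m - α) * p))) else 0) := by
    intro j
    rw [hpc]
    split_ifs with h
    · have h1 := hC₁ (scl (j + 1) * l) (mul_pos (scl_pos _) hl) h.le w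
      have h2 : scl (j + 1) * l = 2 ^ j * l := rfl
      have htp : 0 < 2 ^ j * l := by positivity
      calc _ ≤ ENNReal.ofReal (2 ^ (((j + 1 : ℕ) : ℝ) * α * p)) * (ENNReal.ofReal (l ^ n) *
            (C₁ * (ENNReal.ofReal ((scl (j + 1) * l) ^ (-(2 * m * p))) * W))) := by
            gcongr
            exact h1
        _ = (ENNReal.ofReal (2 ^ (((j + 1 : ℕ) : ℝ) * α * p)) * ENNReal.ofReal (l ^ n) *
            ENNReal.ofReal ((2 ^ j * l) ^ (-(2 * m * p)))) * (C₁ * W) := by rw [h2]; ring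
        _ = (ENNReal.ofReal (2 ^ (α * p)) * ENNReal.ofReal (l ^ ((n : ℝ) - α * p)) *
            ENNReal.ofReal ((2 ^ j * l) ^ (-((2 * m - α) * p)))) * (C₁ * W) := by
            congr 1
            rw [← ENNReal.ofReal_mul (by positivity), ← ENNReal.ofReal_mul (by positivity),
              ← ENNReal.ofReal_mul (by positivity), ← ENNReal.ofReal_mul (by positivity)]
            congr 1
            have e1 : (2 : ℝ) ^ (((j + 1 : ℕ) : ℝ) * α * p) =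
                2 ^ (α * p) * ((2 : ℝ) ^ j) ^ (α * p) := by
              rw [← Real.rpow_natCast 2 j, ← Real.rpow_mul two_pos.le, ← Real.rpow_add two_pos]
              congr 1
              push_cast
              ring
            have e2 : l ^ n = l ^ ((n : ℝ) - α * p) * l ^ (α * p) := by
              rw [← Real.rpow_add hl, sub_add_cancel, Real.rpow_natCast]
            have e3 : (2 ^ j * l) ^ (-((2 * m - α) * p)) =
                (2 ^ j * l) ^ (-(2 * m * p)) * (2 ^ j * l) ^ (α * p) := by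
              rw [← Real.rpow_add htp]
              congr 1
              ring
            have e4 : (2 ^ j * l) ^ (α * p) = ((2 : ℝ) ^ j) ^ (α * p) * l ^ (α * p) :=
              Real.mul_rpow (by positivity) hl.le
            rw [e1, e2, e3, e4]
            ring
        _ = _ := by ring
    · rw [hzero (j + 1) (scl (j + 1) * l) _ (not_lt.1 h)]
      simp [ENNReal.zero_rpow_of_pos hp]
  unfold bp
  rw [← Summable.sum_add_tsum_nat_add' (k := 1) ENNReal.summable, Finset.sum_range_one, h0,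
    mul_zero, zero_add]
  refine (ENNReal.tsum_le_tsum hj).trans ?_
  rw [ENNReal.tsum_mul_left]
  calc _ ≤ (ENNReal.ofReal (2 ^ (α * p)) * (C₁ * W) *
        ENNReal.ofReal (l ^ ((n : ℝ) - α * p))) * C₂ := by
        gcongr
        exact hC₂ l hl
    _ = _ := by rw [hD]; ring

/-- the quasi-norm of a Schwartz function -/
theorem bp_schwartz {Φ : 𝓢(E n, ℂ)} (hΦ : IsGenerator Φ) (α : ℝ) {p : ℝ} (hp : 0 < p) :
    ∃ (C : ℝ≥0) (N m : ℕ), ∀ (w : 𝓢(E n, ℂ)) (u : E n → ℝ), (∀ y, w y = ((u y : ℝ) : ℂ)) →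
      bp Φ α p u ≤ C * (ws N w ^ p + ws N (lap m w) ^ p) := by
  obtain ⟨m, hm⟩ := exists_nat_gt α
  have hb : 0 < (2 * m - α) * p := by
    have : (0 : ℝ) ≤ m := Nat.cast_nonneg m
    apply mul_pos _ hp
    linarith
  obtain ⟨N, hN⟩ := exists_nat_gt ((n : ℝ) / p)
  rw [div_lt_iff₀ hp] at hN
  obtain ⟨C₁, hC₁⟩ := theta_bound hΦ hp m hN one_pos
  obtain ⟨C₂, hC₂⟩ := geo_sum (t₀ := 1 / 2) (by norm_num) hb
  obtain ⟨C₃, hC₃⟩ := conv_decay Φ N one_pos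
  obtain ⟨C₄, hC₄⟩ := lintegral_rpow_le N hp hN
  set D : ℝ≥0∞ := C₄ * (C₃ : ℝ≥0∞) ^ p + ENNReal.ofReal (2 ^ (α * p)) * C₁ * C₂ with hD
  have hDfin : D ≠ ∞ := ENNReal.add_ne_top.2 ⟨ENNReal.mul_ne_top ENNReal.coe_ne_top
    (ENNReal.rpow_ne_top_of_nonneg hp.le ENNReal.coe_ne_top), ENNReal.mul_ne_top
    (ENNReal.mul_ne_top ENNReal.ofReal_ne_top ENNReal.coe_ne_top) ENNReal.coe_ne_top⟩
  refine ⟨D.toNNReal, N, m, fun w u hw => ?_⟩
  rw [ENNReal.coe_toNNReal hDfin]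
  set W₀ := ws N w with hW₀
  set W := ws N (lap m w) ^ p with hW
  have h0 : ENNReal.ofReal (2 ^ (((0 : ℕ) : ℝ) * α * p)) * ∫⁻ x, ‖lpPiece Φ u 0 x‖ₑ ^ p ≤
      C₄ * (C₃ : ℝ≥0∞) ^ p * W₀ ^ p := by
    simp only [lpPiece_schwartz Φ hw]
    have h1 := hC₄ (fun x => cv (sc (scl 0) (scl_pos 0) (gen Φ 0)) w x) (C₃ * W₀) (fun x =>
      hC₃ (scl 0) (scl_pos 0) le_rfl w x)
    rw [ENNReal.mul_rpow_of_nonneg _ _ hp.le, ← mul_assoc] at h1
    simpa using h1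
  have hj : ∀ j : ℕ, ENNReal.ofReal (2 ^ (((j + 1 : ℕ) : ℝ) * α * p)) *
      ∫⁻ x, ‖lpPiece Φ u (j + 1) x‖ₑ ^ p ≤
      (ENNReal.ofReal (2 ^ (α * p)) * (C₁ * W)) *
        (if (1 / 2 : ℝ) < 2 ^ j * 1 then ENNReal.ofReal ((2 ^ j * 1) ^ (-((2 * m - α) * p)))
          else 0) := by
    intro j
    have h1j : (1 : ℝ) ≤ 2 ^ j := one_le_pow₀ one_le_two
    rw [if_pos (by linarith), mul_one]
    simp only [lpPiece_schwartz Φ hw]
    have h1 := hC₁ (scl (j + 1)) (scl_pos _) h1j w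
    have h2 : scl (j + 1) = 2 ^ j := rfl
    have htp : (0 : ℝ) < 2 ^ j := by positivity
    calc _ ≤ ENNReal.ofReal (2 ^ (((j + 1 : ℕ) : ℝ) * α * p)) *
          (C₁ * (ENNReal.ofReal ((scl (j + 1)) ^ (-(2 * m * p))) * W)) := by
          gcongr
          exact h1
      _ = (ENNReal.ofReal (2 ^ (((j + 1 : ℕ) : ℝ) * α * p)) *
          ENNReal.ofReal ((2 ^ j) ^ (-(2 * m * p)))) * (C₁ * W) := by rw [h2]; ring
      _ = (ENNReal.ofReal (2 ^ (α * p)) *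
          ENNReal.ofReal ((2 ^ j) ^ (-((2 * m - α) * p)))) * (C₁ * W) := by
          congr 1
          rw [← ENNReal.ofReal_mul (by positivity), ← ENNReal.ofReal_mul (by positivity)]
          congr 1
          have e1 : (2 : ℝ) ^ (((j + 1 : ℕ) : ℝ) * α * p) =
              2 ^ (α * p) * ((2 : ℝ) ^ j) ^ (α * p) := by
            rw [← Real.rpow_natCast 2 j, ← Real.rpow_mul two_pos.le, ← Real.rpow_add two_pos]
            congr 1
            push_cast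
            ring
          have e3 : ((2 : ℝ) ^ j) ^ (-((2 * m - α) * p)) =
              (2 ^ j) ^ (-(2 * m * p)) * (2 ^ j) ^ (α * p) := by
            rw [← Real.rpow_add htp]
            congr 1
            ring
          rw [e1, e3]
          ring
      _ = _ := by ring
  unfold bp
  rw [← Summable.sum_add_tsum_nat_add' (k := 1) ENNReal.summable, Finset.sum_range_one]
  have h5 : ∑' j : ℕ, ENNReal.ofReal (2 ^ (((j + 1 : ℕ) : ℝ) * α * p)) *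
      ∫⁻ x, ‖lpPiece Φ u (j + 1) x‖ₑ ^ p ≤ ENNReal.ofReal (2 ^ (α * p)) * (C₁ * W) * C₂ := by
    refine (ENNReal.tsum_le_tsum hj).trans ?_
    rw [ENNReal.tsum_mul_left]
    gcongr
    exact hC₂ 1 one_pos
  calc _ ≤ C₄ * (C₃ : ℝ≥0∞) ^ p * W₀ ^ p + ENNReal.ofReal (2 ^ (α * p)) * (C₁ * W) * C₂ :=
        add_le_add h0 h5
    _ = C₄ * (C₃ : ℝ≥0∞) ^ p * W₀ ^ p + ENNReal.ofReal (2 ^ (α * p)) * C₁ * C₂ * W := by ring
    _ ≤ D * W₀ ^ p + D * W := by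
        gcongr
        · exact le_self_add
        · exact le_add_self
    _ = _ := by ring

end Pool.Agent.Q82.BT
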