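import Pool.Agent.Q82.BTNorm
import Pool.Agent.Helper656.CapUpper

/-!
Decay of the Littlewood-Paley pieces of Schwartz functions.
-/

open MeasureTheory SchwartzMap
open scoped ENNReal NNReal FourierTransform SchwartzMap RealInnerProductSpace

namespace Pool.Agent.Q82.BT

variable {n : ℕ}

/-- the weight `(1 + |x|)^N` -/
noncomputable def wt (N : ℕ) (x : E n) : ℝ≥0∞ := ENNReal.ofReal ((1 + ‖x‖) ^ N)

/-- the weighted supremum -/
noncomputable def ws (N : ℕ) (v : E n → ℂ) : ℝ≥0∞ := ⨆ z, wt N z * ‖v z‖ₑ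

theorem measurable_wt (N : ℕ) : Measurable (wt N : E n → ℝ≥0∞) := by
  unfold wt
  exact ENNReal.measurable_ofReal.comp (by fun_prop)

theorem le_ws (N : ℕ) (v : E n → ℂ) (z : E n) : wt N z * ‖v z‖ₑ ≤ ws N v :=
  le_iSup (fun z => wt N z * ‖v z‖ₑ) z

theorem wt_mul_le (N : ℕ) (x y : E n) : wt N x ≤ wt N y * wt N (x - y) := by
  unfold wt
  rw [← ENNReal.ofReal_mul (by positivity), ← mul_pow]
  apply ENNReal.ofReal_le_ofReal
  gcongr
  have h1 : ‖x‖ ≤ ‖y‖ + ‖x - y‖ := by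
    calc ‖x‖ = ‖y + (x - y)‖ := by congr 1; abel
      _ ≤ _ := norm_add_le _ _
  have h2 : 0 ≤ ‖y‖ * ‖x - y‖ := by positivity
  nlinarith

theorem wt_ne_top (N : ℕ) (x : E n) : wt N x ≠ ∞ := ENNReal.ofReal_ne_top

theorem lintegral_wt_schwartz (κ : 𝓢(E n, ℂ)) (N : ℕ) : ∫⁻ z, ‖κ z‖ₑ * wt N z < ∞ := by
  have h := Pool.Agent.Helper656.Cap.integrable_decay κ N
  have h1 := h.lintegral_lt_top
  refine lt_of_le_of_lt (le_of_eq (lintegral_congr fun z => ?_)) h1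
  rw [wt, ← ofReal_norm, ← ENNReal.ofReal_mul (norm_nonneg _), mul_comm]

theorem conv_decay (κ : 𝓢(E n, ℂ)) (N : ℕ) {t₀ : ℝ} (ht₀ : 0 < t₀) :
    ∃ C : ℝ≥0, ∀ (t : ℝ) (ht : 0 < t), t₀ ≤ t → ∀ (v : 𝓢(E n, ℂ)) (x : E n),
      wt N x * ‖cv (sc t ht κ) v x‖ₑ ≤ C * ws N v := by
  have hfin := lintegral_wt_schwartz κ N
  set A : ℝ := max 1 t₀⁻¹ with hA
  have hA1 : 1 ≤ A := le_max_left _ _
  have hA2 : t₀⁻¹ ≤ A := le_max_right _ _
  set D : ℝ≥0∞ := ENNReal.ofReal (A ^ N) * ∫⁻ z, ‖κ z‖ₑ * wt N z with hD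
  have hDfin : D ≠ ∞ := ENNReal.mul_ne_top ENNReal.ofReal_ne_top hfin.ne
  refine ⟨D.toNNReal, fun t ht htt v x => ?_⟩
  rw [ENNReal.coe_toNNReal hDfin]
  have hm : Measurable fun z : E n => ‖κ z‖ₑ * wt N z :=
    (κ.continuous.enorm.measurable).mul (measurable_wt N)
  have h1 : ∀ y : E n, ‖sc t ht κ y‖ₑ * wt N y ≤ ENNReal.ofReal (A ^ N) *
      (ENNReal.ofReal (t ^ n) * (‖κ (t • y)‖ₑ * wt N (t • y))) := by
    intro y
    have h2 : ‖sc t ht κ y‖ₑ = ENNReal.ofReal (t ^ n) * ‖κ (t • y)‖ₑ := by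
      rw [sc_apply, scaled, enorm_mul, ← ofReal_norm, Complex.norm_real,
        Real.norm_of_nonneg (by positivity)]
    have h3 : wt N y ≤ ENNReal.ofReal (A ^ N) * wt N (t • y) := by
      unfold wt
      rw [← ENNReal.ofReal_mul (by positivity), ← mul_pow]
      apply ENNReal.ofReal_le_ofReal
      gcongr
      rw [norm_smul, Real.norm_of_nonneg ht.le]
      have h4 : 1 ≤ A * t := by
        calc 1 = t₀⁻¹ * t₀ := (inv_mul_cancel₀ ht₀.ne').symm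
          _ ≤ A * t := by gcongr
      have h5 := norm_nonneg y
      calc 1 + ‖y‖ ≤ A * 1 + (A * t) * ‖y‖ := by nlinarith
        _ = _ := by ring
    calc ‖sc t ht κ y‖ₑ * wt N y ≤ (ENNReal.ofReal (t ^ n) * ‖κ (t • y)‖ₑ) *
          (ENNReal.ofReal (A ^ N) * wt N (t • y)) := by rw [h2]; gcongr
      _ = _ := by ring
  calc wt N x * ‖cv (sc t ht κ) v x‖ₑ
      ≤ wt N x * ∫⁻ y, ‖sc t ht κ y * v (x - y)‖ₑ := by
        rw [cv_apply]
        gcongr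
        exact enorm_integral_le_lintegral_enorm _
    _ = ∫⁻ y, wt N x * ‖sc t ht κ y * v (x - y)‖ₑ := by
        rw [lintegral_const_mul' _ _ (wt_ne_top N x)]
    _ ≤ ∫⁻ y, (‖sc t ht κ y‖ₑ * wt N y) * ws N v := by
        refine lintegral_mono fun y => ?_
        simp only
        rw [enorm_mul]
        calc wt N x * (‖sc t ht κ y‖ₑ * ‖v (x - y)‖ₑ)
            ≤ (wt N y * wt N (x - y)) * (‖sc t ht κ y‖ₑ * ‖v (x - y)‖ₑ) := by
              gcongr; exact wt_mul_le N x y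
          _ = (‖sc t ht κ y‖ₑ * wt N y) * (wt N (x - y) * ‖v (x - y)‖ₑ) := by ring
          _ ≤ _ := by gcongr; exact le_ws N v _
    _ = (∫⁻ y, ‖sc t ht κ y‖ₑ * wt N y) * ws N v := by
        rw [lintegral_mul_const]
        exact ((sc t ht κ).continuous.enorm.measurable).mul (measurable_wt N)
    _ ≤ D * ws N v := by
        gcongr
        calc ∫⁻ y, ‖sc t ht κ y‖ₑ * wt N y ≤ ∫⁻ y, ENNReal.ofReal (A ^ N) *
              (ENNReal.ofReal (t ^ n) * (‖κ (t • y)‖ₑ * wt N (t • y))) := lintegral_mono h1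
          _ = ENNReal.ofReal (A ^ N) * ∫⁻ y, ENNReal.ofReal (t ^ n) *
              (‖κ (t • y)‖ₑ * wt N (t • y)) := lintegral_const_mul' _ _ ENNReal.ofReal_ne_top
          _ = _ := by rw [lintegral_scale ht hm]

theorem ws_lt_top (N : ℕ) (v : 𝓢(E n, ℂ)) : ws N v < ∞ := by
  obtain ⟨C, hC, h⟩ := Pool.Agent.Helper656.Cap.exists_decay v N
  refine lt_of_le_of_lt (iSup_le fun z => ?_) (ENNReal.ofReal_lt_top (r := C))
  rw [wt, ← ofReal_norm, ← ENNReal.ofReal_mul (by positivity)]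
  exact ENNReal.ofReal_le_ofReal (h z)

/-- `L^p` norm from the weighted supremum -/
theorem lintegral_rpow_le (N : ℕ) {p : ℝ} (hp : 0 < p) (hN : (n : ℝ) < N * p) :
    ∃ C : ℝ≥0, ∀ (f : E n → ℂ) (S : ℝ≥0∞), (∀ x, wt N x * ‖f x‖ₑ ≤ S) →
      ∫⁻ x, ‖f x‖ₑ ^ p ≤ C * S ^ p := by
  have hfin := lintegral_P_lt_top (n := n) hN
  refine ⟨(∫⁻ x : E n, P (N * p) 1 x).toNNReal, fun f S h => ?_⟩
  rw [ENNReal.coe_toNNReal hfin.ne]
  calc ∫⁻ x, ‖f x‖ₑ ^ p ≤ ∫⁻ x, P (N * p) 1 x * S ^ p := by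
        refine lintegral_mono fun x => ?_
        have h1 : ‖f x‖ₑ ≤ ENNReal.ofReal ((1 + ‖x‖) ^ N)⁻¹ * S := by
          calc ‖f x‖ₑ = ENNReal.ofReal ((1 + ‖x‖) ^ N)⁻¹ * (wt N x * ‖f x‖ₑ) := by
                rw [← mul_assoc, wt, ← ENNReal.ofReal_mul (by positivity),
                  inv_mul_cancel₀ (by positivity), ENNReal.ofReal_one, one_mul]
            _ ≤ _ := by gcongr; exact h x
        calc ‖f x‖ₑ ^ p ≤ (ENNReal.ofReal ((1 + ‖x‖) ^ N)⁻¹ * S) ^ p := by gcongr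
          _ = ENNReal.ofReal ((1 + ‖x‖) ^ N)⁻¹ ^ p * S ^ p := ENNReal.mul_rpow_of_nonneg _ _ hp.le
          _ = _ := by
            congr 1
            rw [ENNReal.ofReal_rpow_of_pos (by positivity), P, one_pow, one_mul, one_mul]
            congr 1
            rw [← Real.rpow_natCast, ← Real.rpow_neg (by positivity), ← Real.rpow_mul (by positivity)]
            congr 1
            ring
    _ = _ := by
        rw [lintegral_mul_const]
        exact (measurable_P _).comp (measurable_const.prodMk measurable_id)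

/-- the multiplier `|ξ|^{2m}` -/
noncomputable def lap (m : ℕ) : 𝓢(E n, ℂ) →L[ℝ] 𝓢(E n, ℂ) :=
  SchwartzMap.fourierMultiplierCLM ℂ (fun ξ : E n => (‖ξ‖ ^ 2) ^ m)

theorem fourier_lap (m : ℕ) (v : 𝓢(E n, ℂ)) (ξ : E n) :
    𝓕 (lap m v) ξ = (((‖ξ‖ ^ 2) ^ m : ℝ) : ℂ) * 𝓕 v ξ := by
  rw [lap, SchwartzMap.fourierMultiplierCLM_apply, FourierTransform.fourier_fourierInv_eq,
    SchwartzMap.smulLeftCLM_apply_apply]
  · rw [Complex.real_smul]
  · fun_prop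

/-- the difference kernel is a multiple of `|ξ|^{2m}` -/
theorem exists_kappa {Φ : 𝓢(E n, ℂ)} (hΦ : IsGenerator Φ) (m : ℕ) :
    ∃ κ : 𝓢(E n, ℂ), ∀ ξ, 𝓕 (theta Φ) ξ = (((‖ξ‖ ^ 2) ^ m : ℝ) : ℂ) * 𝓕 κ ξ := by
  obtain ⟨R, hR, hR0⟩ := exists_radius hΦ
  have hc : HasCompactSupport (𝓕 (theta Φ) : 𝓢(E n, ℂ)) := by
    apply HasCompactSupport.of_support_subset_isCompact (isCompact_closedBall (0 : E n) R)
    intro ξ hξ
    rw [Metric.mem_closedBall, dist_zero_right]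
    by_contra h
    exact hξ (hR0 1 ξ (not_le.1 h))
  obtain ⟨δ, hδ, h1⟩ := Metric.eventually_nhds_iff.1 hΦ.eq_one
  have h0 : ∀ ξ : E n, ‖ξ‖ ≤ δ / 2 → 𝓕 (theta Φ) ξ = 0 := by
    intro ξ hξ
    have h2 : ‖ξ‖ < δ := by linarith
    have h3 : 𝓕 Φ ((2 : ℝ)⁻¹ • ξ) = 1 := by
      apply h1
      rw [dist_zero_right, norm_smul, norm_inv, Real.norm_of_nonneg two_pos.le]
      have := norm_nonneg ξ
      linarith
    rw [fourier_theta, h1 (y := ξ) (by rwa [dist_zero_right]), h3, sub_self]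
  obtain ⟨κ, hκ⟩ := Pool.Agent.Helper656.Cap.exists_mult (𝓕 (theta Φ)) hc (δ / 2) (half_pos hδ) h0
    (-(2 * m : ℝ))
  refine ⟨κ, fun ξ => ?_⟩
  rw [hκ]
  rcases eq_or_ne ξ 0 with rfl | hξ
  · rw [h0 0 (by rw [norm_zero]; positivity)]
    simp
  · rw [← mul_assoc, ← Complex.ofReal_mul, ← pow_mul, ← Real.rpow_natCast,
      ← Real.rpow_add (norm_pos_iff.2 hξ)]
    push_cast
    rw [add_neg_cancel, Real.rpow_zero]
    simp

/-- rapid decay of the convolution with the difference kernels -/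
theorem cv_theta {Φ κ : 𝓢(E n, ℂ)} {m : ℕ}
    (hκ : ∀ ξ, 𝓕 (theta Φ) ξ = (((‖ξ‖ ^ 2) ^ m : ℝ) : ℂ) * 𝓕 κ ξ) (t : ℝ) (ht : 0 < t)
    (v : 𝓢(E n, ℂ)) : cv (sc t ht (theta Φ)) v =
      ((((t ^ 2) ^ m)⁻¹ : ℝ) : ℂ) • cv (sc t ht κ) (lap m v) := by
  apply schwartz_ext_fourier
  intro ξ
  have h1 : 𝓕 (((((t ^ 2) ^ m)⁻¹ : ℝ) : ℂ) • cv (sc t ht κ) (lap m v)) ξ =
      ((((t ^ 2) ^ m)⁻¹ : ℝ) : ℂ) * 𝓕 (cv (sc t ht κ) (lap m v)) ξ := by
    rw [FourierTransform.fourier_smul]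
    rfl
  rw [h1, fourier_cv, fourier_cv, fourier_sc, fourier_sc, fourier_lap, hκ, norm_smul, norm_inv,
    Real.norm_of_nonneg ht.le]
  have ht' : (t : ℂ) ≠ 0 := by exact_mod_cast ht.ne'
  push_cast
  rw [mul_pow, mul_pow, inv_pow, inv_pow]
  ring

end Pool.Agent.Q82.BT
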