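import Mathlib

/-!
Littlewood-Paley definition of the Besov and Triebel-Lizorkin quasi-norms on `ℝⁿ` and the
capacities defined by them.
-/

open MeasureTheory SchwartzMap
open scoped ENNReal NNReal FourierTransform SchwartzMap

namespace Pool.Agent.Q82.BT

/-- Euclidean space `ℝⁿ`. -/
abbrev E (n : ℕ) : Type := EuclideanSpace ℝ (Fin n)

variable {n : ℕ}

/-- A generator of a Littlewood-Paley resolution of unity: a Schwartz function whose Fourier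
transform has compact support and is equal to one in a neighbourhood of the origin. -/
structure IsGenerator (Φ : 𝓢(E n, ℂ)) : Prop where
  compactSupport : HasCompactSupport (𝓕 Φ : 𝓢(E n, ℂ))
  eq_one : ∀ᶠ ξ in nhds (0 : E n), 𝓕 Φ ξ = 1

/-- `K_t(x) = tⁿ K(t x)`. -/
noncomputable def scaled (K : E n → ℂ) (t : ℝ) (x : E n) : ℂ := ((t ^ n : ℝ) : ℂ) * K (t • x)

/-- The Littlewood-Paley kernels `φ₀ = Φ` and, for `j ≥ 0`,
`φ_{j+1}(x) = 2^{(j+1)n} Φ(2^{j+1} x) - 2^{jn} Φ(2^j x)`. -/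
noncomputable def lpKernel (Φ : 𝓢(E n, ℂ)) : ℕ → E n → ℂ
  | 0 => Φ
  | j + 1 => fun x => scaled Φ (2 ^ (j + 1)) x - scaled Φ (2 ^ j) x

/-- The Littlewood-Paley pieces `(φ_j * u)(x)` of a function `u`. -/
noncomputable def lpPiece (Φ : 𝓢(E n, ℂ)) (u : E n → ℝ) (j : ℕ) (x : E n) : ℂ :=
  ∫ y, lpKernel Φ j (x - y) * (u y : ℂ)

/-- The Besov quasi-norm `|u|_{α,p,q} = (∑_j (2^{jα} ‖φ_j * u‖_p)^q)^{1/q}`. -/
noncomputable def besovNorm (Φ : 𝓢(E n, ℂ)) (α p q : ℝ) (u : E n → ℝ) : ℝ≥0∞ :=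
  (∑' j : ℕ, (ENNReal.ofReal (2 ^ (j * α)) *
    (∫⁻ x, ‖lpPiece Φ u j x‖ₑ ^ p) ^ (1 / p)) ^ q) ^ (1 / q)

/-- The quasi-norm `‖ (∑_j (2^{jα} |φ_j * u|)^q)^{1/q} ‖_p` of the Lizorkin-Triebel space
`F^{pq}_α`. -/
noncomputable def triebelNorm (Φ : 𝓢(E n, ℂ)) (α p q : ℝ) (u : E n → ℝ) : ℝ≥0∞ :=
  (∫⁻ x, ((∑' j : ℕ, (ENNReal.ofReal (2 ^ (j * α)) * ‖lpPiece Φ u j x‖ₑ) ^ q) ^ (1 / q)) ^ p) ^
    (1 / p)

/-- The capacity of `K` defined by the quasi-norm `N`, the exponent `p` and the class `D` of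
competitors: the infimum of `N(u)^p` over all `u` in `D` with `u ≥ 1` on `K`. -/
noncomputable def capacity (N : (E n → ℝ) → ℝ≥0∞) (p : ℝ) (D : Set (E n → ℝ)) (K : Set (E n)) :
    ℝ≥0∞ :=
  ⨅ (u : E n → ℝ) (_ : u ∈ D) (_ : ∀ x ∈ K, 1 ≤ u x), N u ^ p

/-- The admissible classes of competitors: `D` contains `C_c^∞(ℝⁿ)` and consists of bounded
continuous functions (for instance `D = C_c^∞(ℝⁿ)`, or the real valued Schwartz functions, or all
bounded smooth functions). -/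
structure IsTestClass (D : Set (E n → ℝ)) : Prop where
  smooth : ∀ u : E n → ℝ, ContDiff ℝ (⊤ : ℕ∞) u → HasCompactSupport u → u ∈ D
  continuous : ∀ u ∈ D, Continuous u
  bounded : ∀ u ∈ D, ∃ C : ℝ, ∀ x, |u x| ≤ C

end Pool.Agent.Q82.BT
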