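import Pool.Agent.Q82.BTUpper

/-!
Null sets of the capacities.
-/

open MeasureTheory SchwartzMap
open scoped ENNReal NNReal FourierTransform SchwartzMap RealInnerProductSpace

namespace Pool.Agent.Q82.BT

variable {n : ℕ}

open Pool.Agent.Helper656.Cap (hausdorffContent)

/-- a quasi-norm between `F^{pq}_α`, `q ≥ p`, and `Λ^{pp}_α` -/
structure Between (Φ : 𝓢(E n, ℂ)) (α p : ℝ) (N : (E n → ℝ) → ℝ≥0∞) : Prop where
  lower : ∃ q : ℝ, 0 < q ∧ ∀ (u : E n → ℝ) (B : ℝ), BC u B →
    triebelNorm Φ α p q u ^ p ≤ N u ^ p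
  upper : ∀ (u : E n → ℝ) (B : ℝ), BC u B → N u ^ p ≤ bp Φ α p u

theorem between_besov (Φ : 𝓢(E n, ℂ)) (α : ℝ) {p : ℝ} (hp : 0 < p) :
    Between Φ α p (besovNorm Φ α p p) where
  lower := ⟨p, hp, fun _ _ hu => by rw [besovNorm_rpow Φ α hp, triebelNorm_pp Φ α hp hu]⟩
  upper _ _ _ := by rw [besovNorm_rpow Φ α hp]

theorem between_triebel (Φ : 𝓢(E n, ℂ)) (α : ℝ) {p q : ℝ} (hp : 0 < p) (hpq : p ≤ q) :
    Between Φ α p (triebelNorm Φ α p q) where
  lower := ⟨q, hp.trans_le hpq, fun _ _ _ => le_rfl⟩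
  upper u _ hu := (triebelNorm_mono Φ α hp hpq u).trans (triebelNorm_pp Φ α hp hu).le

theorem testClass_bc {D : Set (E n → ℝ)} (hD : IsTestClass D) {u : E n → ℝ} (hu : u ∈ D) :
    ∃ B, BC u B := by
  obtain ⟨C, hC⟩ := hD.bounded u hu
  exact ⟨C, hD.continuous u hu, hC⟩

/-- the null sets in the case `α p < n` -/
theorem null_iff_content {Φ : 𝓢(E n, ℂ)} (hΦ : IsGenerator Φ) (hn : 1 ≤ n) {α p : ℝ}
    (hα : 0 < α) (hp : 0 < p) (hp1 : p ≤ 1) (hαp : α * p < n) {N : (E n → ℝ) → ℝ≥0∞}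
    (hN : Between Φ α p N) {D : Set (E n → ℝ)} (hD : IsTestClass D) {K : Set (E n)}
    (hK : IsCompact K) :
    capacity N p D K = 0 ↔ hausdorffContent (n - α * p) K = 0 := by
  constructor
  · intro h
    obtain ⟨q, hq, hlow⟩ := hN.lower
    obtain ⟨C, hC⟩ := content_le hΦ hn hα hp hp1 hαp hq
    have hC1 : ((C : ℝ≥0∞) + 1) ≠ ∞ := ENNReal.add_ne_top.2 ⟨ENNReal.coe_ne_top, ENNReal.one_ne_top⟩
    have h1 : hausdorffContent (n - α * p) K / (C + 1) ≤ capacity N p D K := by
      unfold capacity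
      refine le_iInf fun u => le_iInf fun hu => le_iInf fun hKu => ?_
      obtain ⟨B, hB⟩ := testClass_bc hD hu
      refine ENNReal.div_le_of_le_mul ?_
      calc hausdorffContent (n - α * p) K ≤ C * triebelNorm Φ α p q u ^ p := hC u B hB K hKu
        _ ≤ (C + 1) * N u ^ p := mul_le_mul' le_self_add (hlow u B hB)
        _ = _ := mul_comm _ _
    rw [h, nonpos_iff_eq_zero, ENNReal.div_eq_zero_iff] at h1
    exact h1.resolve_right hC1
  · intro h
    obtain ⟨C, b₀, hb₀, hC⟩ := exists_competitor hΦ hn hα hp hp1 hαp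
    refine le_antisymm (ENNReal.le_of_forall_pos_le_add fun ε hε _ => ?_) bot_le
    rw [zero_add]
    set B : ℝ≥0∞ := min b₀ (ε / (C + 1)) with hB
    have hBpos : 0 < B := by
      refine lt_min hb₀ (ENNReal.div_pos (by exact_mod_cast hε.ne') ?_)
      exact ENNReal.add_ne_top.2 ⟨ENNReal.coe_ne_top, ENNReal.one_ne_top⟩
    obtain ⟨u, h1, h2, h3, h4⟩ := hC K B hK (by rw [h]; exact hBpos) (min_le_left _ _)
    have huD := hD.smooth u h1 h2
    obtain ⟨B', hB'⟩ := testClass_bc hD huD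
    have h5 : capacity N p D K ≤ N u ^ p :=
      iInf_le_of_le u (iInf_le_of_le huD (iInf_le_of_le h3 le_rfl))
    refine h5.trans ?_
    calc N u ^ p ≤ bp Φ α p u := hN.upper u B' hB'
      _ ≤ C * B := h4
      _ ≤ (C + 1) * (ε / (C + 1)) := by
        gcongr
        · exact le_self_add
        · exact min_le_right _ _
      _ = ε := ENNReal.mul_div_cancel (by simp) (ENNReal.add_ne_top.2 ⟨ENNReal.coe_ne_top,
          ENNReal.one_ne_top⟩)

/-- the null sets in the case `α p ≥ n` -/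
theorem null_iff_empty {Φ : 𝓢(E n, ℂ)} (hΦ : IsGenerator Φ) (hn : 1 ≤ n) {α p : ℝ}
    (hp : 0 < p) (hp1 : p ≤ 1) (hαp : n ≤ α * p) {N : (E n → ℝ) → ℝ≥0∞}
    (hN : Between Φ α p N) {D : Set (E n → ℝ)} (hD : IsTestClass D) {K : Set (E n)} :
    capacity N p D K = 0 ↔ K = ∅ := by
  constructor
  · intro h
    rw [Set.eq_empty_iff_forall_notMem]
    intro x hx
    obtain ⟨q, hq, hlow⟩ := hN.lower
    obtain ⟨C, hC⟩ := one_le hΦ hn hp hp1 hαp hq
    have h1 : ((C : ℝ≥0∞) + 1)⁻¹ ≤ capacity N p D K := by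
      unfold capacity
      refine le_iInf fun u => le_iInf fun hu => le_iInf fun hK => ?_
      obtain ⟨B, hB⟩ := testClass_bc hD hu
      rw [ENNReal.inv_le_iff_le_mul (by simp) (by simp)]
      calc (1 : ℝ≥0∞) ≤ C * triebelNorm Φ α p q u ^ p := hC u B hB x (hK x hx)
        _ ≤ (C + 1) * N u ^ p := mul_le_mul' le_self_add (hlow u B hB)
    rw [h] at h1
    simp at h1
  · rintro rfl
    have h0 : (fun _ : E n => (0 : ℝ)) ∈ D :=
      hD.smooth _ contDiff_const (HasCompactSupport.of_support_subset_isCompact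
        (isCompact_empty) (by simp))
    have h1 : bp Φ α p (fun _ : E n => (0 : ℝ)) = 0 := by
      unfold bp
      simp [lpPiece, ENNReal.zero_rpow_of_pos hp]
    have h2 := hN.upper (fun _ : E n => (0 : ℝ)) 0 ⟨continuous_const, fun x => by simp⟩
    rw [h1] at h2
    refine le_antisymm ?_ bot_le
    unfold capacity
    exact iInf_le_of_le _ (iInf_le_of_le h0 (iInf_le_of_le (by simp) h2))

/-! ### Hausdorff measure -/

theorem ediam_ball_le (c : E n) (r : ℝ≥0) : Metric.ediam (Metric.ball c r) ≤ 2 * r := by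
  refine Metric.ediam_le fun x hx y hy => ?_
  have h1 : edist x c ≤ r := by
    rw [edist_nndist]
    exact_mod_cast (show nndist x c < r from hx).le
  have h2 : edist c y ≤ r := by
    rw [edist_comm, edist_nndist]
    exact_mod_cast (show nndist y c < r from hy).le
  calc edist x y ≤ edist x c + edist c y := edist_triangle _ _ _
    _ ≤ r + r := add_le_add h1 h2
    _ = _ := (two_mul _).symm

theorem add_rpow_le (a b : ℝ≥0∞) {d : ℝ} (hd : 0 < d) :
    (a + b) ^ d ≤ 2 ^ d * (a ^ d + b ^ d) := by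
  have h : a + b ≤ 2 * max a b := by
    rw [two_mul]; exact add_le_add (le_max_left _ _) (le_max_right _ _)
  calc (a + b) ^ d ≤ (2 * max a b) ^ d := by gcongr
    _ = 2 ^ d * (max a b) ^ d := ENNReal.mul_rpow_of_nonneg _ _ hd.le
    _ ≤ _ := by
      gcongr
      rcases le_total a b with h | h
      · rw [max_eq_right h]; exact le_add_self
      · rw [max_eq_left h]; exact le_self_add

/-- the Hausdorff measure and the Hausdorff content have the same null sets -/
theorem content_zero_iff {d : ℝ} (hd : 0 < d) (K : Set (E n)) :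
    hausdorffContent d K = 0 ↔ μH[d] K = 0 := by
  constructor
  · intro h
    have h1 : ∀ k : ℕ, ∃ (c : ℕ → E n) (r : ℕ → ℝ≥0), K ⊆ ⋃ i, Metric.ball (c i) (r i) ∧
        ∑' i, (r i : ℝ≥0∞) ^ d < ((k : ℝ≥0∞) + 1)⁻¹ := by
      intro k
      have h2 : hausdorffContent d K < ((k : ℝ≥0∞) + 1)⁻¹ := by
        rw [h]; simp
      unfold hausdorffContent at h2
      rw [iInf_lt_iff] at h2
      obtain ⟨c, h2⟩ := h2
      rw [iInf_lt_iff] at h2
      obtain ⟨r, h2⟩ := h2
      rw [iInf_lt_iff] at h2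
      obtain ⟨h3, h4⟩ := h2
      exact ⟨c, r, h3, h4⟩
    choose c r hcov hsum using h1
    have hlim : Filter.Tendsto (fun k : ℕ => ((k : ℝ≥0∞) + 1)⁻¹) Filter.atTop (nhds 0) := by
      have h2 := (Filter.tendsto_add_atTop_iff_nat 1).2 ENNReal.tendsto_inv_nat_nhds_zero
      refine h2.congr fun k => ?_
      push_cast
      rfl
    have hlim2 : Filter.Tendsto (fun k : ℕ => (2 : ℝ≥0∞) * (((k : ℝ≥0∞) + 1)⁻¹) ^ (1 / d))
        Filter.atTop (nhds 0) := by
      have h2 := ((ENNReal.continuous_rpow_const (y := 1 / d)).tendsto 0).comp hlim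
      rw [ENNReal.zero_rpow_of_pos (by positivity)] at h2
      have h3 := ENNReal.Tendsto.const_mul (a := 2) h2 (Or.inr (by norm_num))
      rw [mul_zero] at h3
      exact h3
    have hlim3 : Filter.Tendsto (fun k : ℕ => (2 : ℝ≥0∞) ^ d * ((k : ℝ≥0∞) + 1)⁻¹)
        Filter.atTop (nhds 0) := by
      have h3 := ENNReal.Tendsto.const_mul (a := (2 : ℝ≥0∞) ^ d) hlim
        (Or.inr (ENNReal.rpow_ne_top_of_nonneg hd.le (by norm_num)))
      rw [mul_zero] at h3
      exact h3
    have h2 := Measure.hausdorffMeasure_le_liminf_tsum d K (l := Filter.atTop)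
      (fun k : ℕ => (2 : ℝ≥0∞) * (((k : ℝ≥0∞) + 1)⁻¹) ^ (1 / d)) hlim2
      (fun k i => Metric.ball (c k i) (r k i)) (Filter.Eventually.of_forall fun k i => by
        refine (ediam_ball_le _ _).trans ?_
        gcongr
        have h3 : (r k i : ℝ≥0∞) ^ d ≤ ((k : ℝ≥0∞) + 1)⁻¹ :=
          (ENNReal.le_tsum (f := fun i => (r k i : ℝ≥0∞) ^ d) i).trans (hsum k).le
        calc (r k i : ℝ≥0∞) = ((r k i : ℝ≥0∞) ^ d) ^ (1 / d) := by
              rw [← ENNReal.rpow_mul, mul_one_div_cancel hd.ne', ENNReal.rpow_one]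
          _ ≤ _ := by gcongr)
      (Filter.Eventually.of_forall hcov)
    refine le_antisymm (h2.trans ?_) bot_le
    have h3 : ∀ k : ℕ, ∑' i, Metric.ediam (Metric.ball (c k i) (r k i)) ^ d ≤
        (2 : ℝ≥0∞) ^ d * ((k : ℝ≥0∞) + 1)⁻¹ := by
      intro k
      calc ∑' i, Metric.ediam (Metric.ball (c k i) (r k i)) ^ d ≤
            ∑' i, (2 : ℝ≥0∞) ^ d * (r k i : ℝ≥0∞) ^ d := by
            refine ENNReal.tsum_le_tsum fun i => ?_
            rw [← ENNReal.mul_rpow_of_nonneg _ _ hd.le]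
            gcongr
            exact ediam_ball_le _ _
        _ = (2 : ℝ≥0∞) ^ d * ∑' i, (r k i : ℝ≥0∞) ^ d := ENNReal.tsum_mul_left
        _ ≤ _ := by
            gcongr
            exact (hsum k).le
    have h4 : Filter.Tendsto (fun k : ℕ => ∑' i, Metric.ediam (Metric.ball (c k i) (r k i)) ^ d)
        Filter.atTop (nhds 0) :=
      tendsto_of_tendsto_of_tendsto_of_le_of_le tendsto_const_nhds hlim3 (fun k => bot_le) h3
    rw [h4.liminf_eq]
  · intro h
    have hmain : ∀ ε : ℝ≥0∞, 0 < ε → hausdorffContent d K ≤ 2 ^ d * ((2 ^ d + 1) * ε) := by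
      intro ε hε
      rw [Measure.hausdorffMeasure_apply] at h
      have h1 : (⨅ (t : ℕ → Set (E n)) (_ : K ⊆ ⋃ n, t n) (_ : ∀ n, Metric.ediam (t n) ≤ 1),
          ∑' n, ⨆ _ : (t n).Nonempty, Metric.ediam (t n) ^ d) < ε := by
        refine lt_of_le_of_lt ?_ hε
        rw [← h]
        exact le_iSup₂_of_le (1 : ℝ≥0∞) one_pos le_rfl
      rw [iInf_lt_iff] at h1
      obtain ⟨t, h1⟩ := h1
      rw [iInf_lt_iff] at h1
      obtain ⟨hcov, h1⟩ := h1
      rw [iInf_lt_iff] at h1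
      obtain ⟨hdiam, hsum⟩ := h1
      obtain ⟨η, hη0, hη⟩ := ENNReal.exists_pos_sum_of_countable hε.ne' ℕ
      have h2 : ∀ i, ∃ (c : E n) (r : ℝ≥0), t i ⊆ Metric.ball c r ∧
          (r : ℝ≥0∞) ^ d ≤ 2 ^ d * (2 ^ d * (⨆ _ : (t i).Nonempty, Metric.ediam (t i) ^ d) +
            η i) := by
        intro i
        rcases (t i).eq_empty_or_nonempty with h3 | h3
        · refine ⟨0, 0, by rw [h3]; exact Set.empty_subset _, ?_⟩
          rw [ENNReal.coe_zero, ENNReal.zero_rpow_of_pos hd]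
          exact bot_le
        · obtain ⟨c, hc⟩ := h3
          have hfin : Metric.ediam (t i) ≠ ∞ := (lt_of_le_of_lt (hdiam i) ENNReal.one_lt_top).ne
          set D : ℝ≥0 := (Metric.ediam (t i)).toNNReal with hD
          have hDe : (D : ℝ≥0∞) = Metric.ediam (t i) := ENNReal.coe_toNNReal hfin
          have hηp : 0 < (η i) ^ (1 / d) := NNReal.rpow_pos (hη0 i)
          refine ⟨c, 2 * D + (η i) ^ (1 / d), fun y hy => ?_, ?_⟩
          · rw [Metric.mem_ball]
            have h4 : edist y c ≤ D := by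
              rw [hDe]; exact Metric.edist_le_ediam_of_mem hy hc
            rw [edist_nndist] at h4
            have h5 : nndist y c ≤ D := by exact_mod_cast h4
            have h6 : nndist y c < 2 * D + (η i) ^ (1 / d) := by
              calc nndist y c ≤ D := h5
                _ ≤ 2 * D := by rw [two_mul]; exact le_self_add
                _ < _ := lt_add_of_pos_right _ hηp
            exact_mod_cast h6
          · have h4 : (⨆ _ : (t i).Nonempty, Metric.ediam (t i) ^ d) = (D : ℝ≥0∞) ^ d := by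
              rw [hDe]; exact iSup_pos ⟨c, hc⟩
            rw [h4]
            push_cast
            refine (add_rpow_le _ _ hd).trans ?_
            gcongr
            · rw [ENNReal.mul_rpow_of_nonneg _ _ hd.le]
            · rw [← ENNReal.coe_rpow_of_nonneg _ hd.le, ← NNReal.rpow_mul,
                one_div_mul_cancel hd.ne', NNReal.rpow_one]
      choose c r hsub hr using h2
      have h3 : hausdorffContent d K ≤ ∑' i, (r i : ℝ≥0∞) ^ d := by
        unfold hausdorffContent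
        exact iInf_le_of_le c (iInf_le_of_le r (iInf_le_of_le
          (hcov.trans (Set.iUnion_mono hsub)) le_rfl))
      refine h3.trans ((ENNReal.tsum_le_tsum hr).trans ?_)
      rw [ENNReal.tsum_mul_left, ENNReal.tsum_add, ENNReal.tsum_mul_left]
      gcongr
      calc _ ≤ 2 ^ d * ε + ε := by gcongr
        _ = _ := by ring
    refine le_antisymm ?_ bot_le
    have hlim : Filter.Tendsto (fun k : ℕ => (2 : ℝ≥0∞) ^ d * ((2 ^ d + 1) * (k : ℝ≥0∞)⁻¹))
        Filter.atTop (nhds 0) := by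
      have hf : (2 : ℝ≥0∞) ^ d ≠ ∞ := ENNReal.rpow_ne_top_of_nonneg hd.le (by norm_num)
      have h3 := ENNReal.Tendsto.const_mul (a := (2 : ℝ≥0∞) ^ d) (ENNReal.Tendsto.const_mul
        (a := (2 : ℝ≥0∞) ^ d + 1) ENNReal.tendsto_inv_nat_nhds_zero
        (Or.inr (ENNReal.add_ne_top.2 ⟨hf, ENNReal.one_ne_top⟩))) (Or.inr hf)
      rw [mul_zero, mul_zero] at h3
      exact h3
    exact ge_of_tendsto' hlim fun k => hmain _ (by simp)

/-- the null sets in terms of the Hausdorff measure -/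
theorem null_iff {Φ : 𝓢(E n, ℂ)} (hΦ : IsGenerator Φ) (hn : 1 ≤ n) {α p : ℝ}
    (hα : 0 < α) (hp : 0 < p) (hp1 : p ≤ 1) {N : (E n → ℝ) → ℝ≥0∞}
    (hN : Between Φ α p N) {D : Set (E n → ℝ)} (hD : IsTestClass D) {K : Set (E n)}
    (hK : IsCompact K) :
    capacity N p D K = 0 ↔ if α * p < n then μH[n - α * p] K = 0 else K = ∅ := by
  split_ifs with h
  · rw [null_iff_content hΦ hn hα hp hp1 h hN hD hK, content_zero_iff (by linarith)]
  · exact null_iff_empty hΦ hn hp hp1 (not_lt.1 h) hN hD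

end Pool.Agent.Q82.BT
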