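import Pool.Agent.Helper656.CapBlock
import Pool.Agent.Q82.BTDefs

/-!
Blocks with a spectral gap (a variant of `Pool.Agent.Helper656.CapBlock`).
-/

open MeasureTheory SchwartzMap
open scoped ENNReal NNReal FourierTransform SchwartzMap RealInnerProductSpace

namespace Pool.Agent.Q82.BT

open Pool.Agent.Helper656.Cap

variable {n : ℕ}

/-- the block of `Pool.Agent.Helper656.CapBlock` has a spectral gap -/
theorem exists_block' (hn : 1 ≤ n) (L : ℕ) :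
    ∃ (A M₀ : ℝ), 0 ≤ A ∧ 1 ≤ M₀ ∧ ∀ M : ℝ, M₀ ≤ M →
      ∃ (w : 𝓢(E n, ℂ)) (ω : E n → ℝ), (∀ y, w y = ((ω y : ℝ) : ℂ)) ∧
        (∀ y, ‖y‖ ≤ Real.sqrt n → 1 ≤ ω y) ∧
        (∀ y, -(A / M ^ n / (1 + ‖y‖ / M) ^ L) ≤ ω y) ∧
        (∀ ξ, ‖ξ‖ ≤ M⁻¹ → 𝓕 w ξ = 0) := by
  have hnR : (0 : ℝ) < Real.sqrt n := Real.sqrt_pos.2 (by exact_mod_cast hn)
  obtain ⟨G, γ, hG, hγ0, hγ2, hGc⟩ := exists_G (n := n) (Real.sqrt n) hnR
  obtain ⟨A, hA0, hA⟩ := conv_bound G (𝓕 (bmp : 𝓢(E n, ℂ))) L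
  refine ⟨A, max 1 A, hA0, le_max_left _ _, ?_⟩
  intro M hM
  have hM1 : 1 ≤ M := (le_max_left _ _).trans hM
  have hMA : A ≤ M := (le_max_right _ _).trans hM
  have hM0 : 0 < M := by linarith
  set χ : 𝓢(E n, ℂ) := dil 0 M hM0 (𝓕 (bmp : 𝓢(E n, ℂ))) with hχ
  set κ : 𝓢(E n, ℂ) := SchwartzMap.convolution (ContinuousLinearMap.mul ℂ ℂ) G χ with hκ
  have hκb : ∀ y, ‖κ y‖ ≤ A / M ^ n / (1 + ‖y‖ / M) ^ L := hA M hM0 hM1
  have hκr : ∀ y, κ y = (((κ y).re : ℝ) : ℂ) := by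
    intro y
    have h1 : κ y = ∫ z, (((γ z * (((M⁻¹) ^ n) * F0 (M⁻¹ • (y - z)))) : ℝ) : ℂ) := by
      rw [hκ, SchwartzMap.convolution_apply]
      unfold MeasureTheory.convolution
      refine integral_congr_ae (Filter.Eventually.of_forall fun z => ?_)
      simp only [ContinuousLinearMap.mul_apply', hG, hχ, dil_apply, F0_eq, sub_zero]
      push_cast
      ring
    rw [h1, integral_complex_ofReal, Complex.ofReal_re]
  have hw : ∀ y, (G - κ) y = ((γ y - (κ y).re : ℝ) : ℂ) := by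
    intro y
    have : (G - κ) y = G y - κ y := rfl
    rw [this, hG, hκr y]
    push_cast
    simp
  have hre : ∀ y, |(κ y).re| ≤ A / M ^ n / (1 + ‖y‖ / M) ^ L := fun y =>
    (Complex.abs_re_le_norm _).trans (hκb y)
  have hFw : ∀ ξ, 𝓕 (G - κ) ξ = (1 - ((beta ‖M • ξ‖ : ℝ) : ℂ)) * 𝓕 G ξ := by
    intro ξ
    have h1 : 𝓕 (G - κ) = 𝓕 G - 𝓕 κ := by
      rw [sub_eq_add_neg, FourierTransform.fourier_add, ← neg_one_smul ℂ κ,
        FourierTransform.fourier_smul, neg_one_smul, sub_eq_add_neg]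
    rw [h1]
    have h2 : (𝓕 G - 𝓕 κ) ξ = 𝓕 G ξ - 𝓕 κ ξ := rfl
    rw [h2, hκ, SchwartzMap.fourier_convolution, SchwartzMap.pairing_apply_apply, hχ,
      fourier_dil, fourier_fourier, bmp_neg, bmp_apply]
    simp
    ring
  have hF0 : ∀ ξ, ‖ξ‖ ≤ M⁻¹ → 𝓕 (G - κ) ξ = 0 := by
    intro ξ hξ
    rw [hFw, beta_eq_one]
    · simp
    · rw [abs_of_nonneg (norm_nonneg _), norm_smul, Real.norm_of_nonneg hM0.le]
      calc M * ‖ξ‖ ≤ M * M⁻¹ := by gcongr
        _ = 1 := mul_inv_cancel₀ hM0.ne'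
  refine ⟨G - κ, fun y => γ y - (κ y).re, hw, ?_, ?_, hF0⟩
  · intro y hy
    have h1 := hγ2 y hy
    have h2 := (abs_le.1 (hre y)).2
    have h3 : A / M ^ n / (1 + ‖y‖ / M) ^ L ≤ 1 := by
      apply div_le_one_of_le₀
      · calc A / M ^ n ≤ 1 := by
              apply div_le_one_of_le₀
              · calc A ≤ M := hMA
                  _ = M ^ 1 := (pow_one M).symm
                  _ ≤ M ^ n := pow_le_pow_right₀ hM1 hn
              · positivity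
          _ ≤ _ := one_le_pow₀ (by
              have : 0 ≤ ‖y‖ / M := by positivity
              linarith)
      · positivity
    linarith
  · intro y
    have h1 := hγ0 y
    have h2 := (abs_le.1 (hre y)).2
    linarith

end Pool.Agent.Q82.BT
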