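import Pool.Agent.Q82.BTPieces
import Pool.Agent.Helper656.CapChain

/-!
The lower bound for the capacities.
-/

open MeasureTheory SchwartzMap
open scoped ENNReal NNReal FourierTransform SchwartzMap RealInnerProductSpace

namespace Pool.Agent.Q82.BT

variable {n : ℕ}

theorem sum_rpow_le {ι : Type*} (s : Finset ι) (f : ι → ℝ≥0∞) {p : ℝ} (hp : 0 < p)
    (hp1 : p ≤ 1) : (∑ i ∈ s, f i) ^ p ≤ ∑ i ∈ s, f i ^ p := by
  classical
  induction s using Finset.induction_on with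
  | empty => simp [ENNReal.zero_rpow_of_pos hp]
  | insert i s hi ih =>
    rw [Finset.sum_insert hi, Finset.sum_insert hi]
    refine (ENNReal.rpow_add_le_add_rpow _ _ hp.le hp1).trans ?_
    gcongr

theorem triebelNorm_rpow (Φ : 𝓢(E n, ℂ)) (α : ℝ) {p : ℝ} (hp : 0 < p) (q : ℝ) (u : E n → ℝ) :
    triebelNorm Φ α p q u ^ p = ∫⁻ x, ((∑' j : ℕ, (ENNReal.ofReal (2 ^ (j * α)) *
      ‖lpPiece Φ u j x‖ₑ) ^ q) ^ (1 / q)) ^ p := by
  rw [triebelNorm, ← ENNReal.rpow_mul, one_div_mul_cancel hp.ne', ENNReal.rpow_one]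

theorem exists_major {Φ : 𝓢(E n, ℂ)} (hΦ : IsGenerator Φ) (α : ℝ) {p q : ℝ} (hp : 0 < p)
    (hp1 : p ≤ 1) (hq : 0 < q) : ∃ C : ℝ≥0, ∀ (u : E n → ℝ) (B : ℝ), BC u B →
      ∃ F : E n → ℝ≥0∞, Measurable F ∧ (∫⁻ y, F y ^ p ≤ C * triebelNorm Φ α p q u ^ p) ∧
        ∀ (j : ℕ) (x y : E n), y ∈ Metric.ball x ((1 / 2 : ℝ) ^ j) →
          ENNReal.ofReal (2 ^ (j * α)) * ‖lpPiece Φ u j x‖ₑ ≤ F y := by
  set r : ℝ := p / 2 with hr
  have hr0 : 0 < r := by positivity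
  have hr1 : r ≤ 1 := by rw [hr]; linarith
  set m : ℝ := (n + 1) / r with hm
  have hm0 : 0 < m := by positivity
  have hmr : m * r = n + 1 := by rw [hm]; field_simp
  obtain ⟨Ψ, hΨ⟩ := exists_reproducing hΦ
  obtain ⟨C0, hC0⟩ := peetre Φ Ψ (hΨ 0) hr0 hr1 hm0
  obtain ⟨C1, hC1⟩ := peetre (theta Φ) Ψ (hΨ 1) hr0 hr1 hm0
  obtain ⟨Cm, hCm⟩ := maximal (n := n) (b := m * r) (by rw [hmr]; linarith)
  set C : ℝ≥0 := max C0 C1 with hC
  have hpe : ∀ (j : ℕ) (t : ℝ) (ht : 0 < t) (u : E n → ℝ) (B : ℝ), BC u B → ∀ x y : E n,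
      ‖avg (sc t ht (gen Φ j)) u x‖ₑ ^ r ≤ C * (ENNReal.ofReal ((1 + t * ‖x - y‖) ^ (m * r)) *
          ∫⁻ z, P (m * r) t (y - z) * ‖avg (sc t ht (gen Φ j)) u z‖ₑ ^ r) := by
    intro j t ht u B hu x y
    cases j with
    | zero =>
      refine (hC0 t ht u B hu x y).trans ?_
      gcongr
      · exact_mod_cast le_max_left C0 C1
      · rfl
    | succ j =>
      refine (hC1 t ht u B hu x y).trans ?_
      gcongr
      · exact_mod_cast le_max_right C0 C1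
      · rfl
  set C' : ℝ≥0∞ := C * ENNReal.ofReal (2 ^ (m * r)) with hC'
  have hC'fin : C' ≠ ∞ := ENNReal.mul_ne_top ENNReal.coe_ne_top ENNReal.ofReal_ne_top
  refine ⟨(C' ^ 2 * Cm).toNNReal, fun u B hu => ?_⟩
  have hcoe : ((C' ^ 2 * Cm).toNNReal : ℝ≥0∞) = C' ^ 2 * Cm := ENNReal.coe_toNNReal
    (ENNReal.mul_ne_top (ENNReal.pow_ne_top hC'fin) ENNReal.coe_ne_top)
  set a : ℕ → E n → ℝ≥0∞ := fun j z => ENNReal.ofReal (2 ^ (j * α)) * ‖lpPiece Φ u j z‖ₑ with ha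
  have ham : ∀ j, Measurable (a j) := fun j =>
    (continuous_lpPiece Φ hu j).enorm.measurable.const_mul _
  set H : E n → ℝ≥0∞ := fun z => ⨆ j, a j z with hH
  have hHm : Measurable H := Measurable.iSup ham
  set M : E n → ℝ≥0∞ := fun y => ⨆ j, ∫⁻ z, P (m * r) (scl j) (y - z) * H z ^ r with hM
  have hMm : Measurable M := by
    refine Measurable.iSup fun j => ?_
    have h1 : Measurable fun q : E n × E n => P (m * r) (scl j) (q.1 - q.2) :=
      measurable_P_sub (m * r) (σ := fun _ => scl j) measurable_const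
    exact (h1.mul ((hHm.comp measurable_snd).pow_const r)).lintegral_prod_right'
  have hGm : Measurable fun z => H z ^ r := hHm.pow_const r
  have hmax := hCm scl scl_pos (fun z => H z ^ r) hGm
  refine ⟨fun y => (C' * M y) ^ (1 / r), (hMm.const_mul _).pow_const _, ?_, ?_⟩
  · rw [hcoe, triebelNorm_rpow Φ α hp q u]
    have h1 : ∀ y, ((C' * M y) ^ (1 / r)) ^ p = C' ^ 2 * M y ^ 2 := by
      intro y
      rw [← ENNReal.rpow_mul, show 1 / r * p = (2 : ℕ) by rw [hr]; push_cast; field_simp,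
        ENNReal.rpow_natCast, mul_pow]
    have h2 : ∀ z, (H z ^ r) ^ 2 = H z ^ p := by
      intro z
      rw [← ENNReal.rpow_natCast, ← ENNReal.rpow_mul]
      congr 1
      rw [hr]; push_cast; ring
    simp only [h1]
    rw [lintegral_const_mul _ (hMm.pow_const 2), mul_assoc]
    gcongr
    refine hmax.trans ?_
    gcongr with z
    rw [h2]
    gcongr
    refine iSup_le fun j => ?_
    calc a j z = (a j z ^ q) ^ (1 / q) := by
          rw [← ENNReal.rpow_mul, mul_one_div_cancel hq.ne', ENNReal.rpow_one]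
      _ ≤ _ := by
          gcongr
          exact ENNReal.le_tsum (f := fun j => a j z ^ q) j
  · intro j x y hy
    rw [Metric.mem_ball, dist_comm, dist_eq_norm] at hy
    have h1 : 1 + scl j * ‖x - y‖ ≤ 2 := by
      have h2 : scl j * ‖x - y‖ ≤ 2 ^ j * (1 / 2 : ℝ) ^ j := by
        gcongr
        exact scl_le j
      rw [← mul_pow] at h2
      norm_num at h2
      linarith
    have h3 : a j x ^ r ≤ C' * M y := by
      calc a j x ^ r = ENNReal.ofReal (2 ^ (j * α)) ^ r * ‖lpPiece Φ u j x‖ₑ ^ r := by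
            rw [ha]; simp only; rw [ENNReal.mul_rpow_of_nonneg _ _ hr0.le]
        _ ≤ ENNReal.ofReal (2 ^ (j * α)) ^ r * (C * (ENNReal.ofReal (2 ^ (m * r)) *
            ∫⁻ z, P (m * r) (scl j) (y - z) * ‖lpPiece Φ u j z‖ₑ ^ r)) := by
            gcongr
            have h4 := hpe j (scl j) (scl_pos j) u B hu x y
            simp only [← lpPiece_eq] at h4
            refine h4.trans ?_
            have h5 := scl_pos j
            gcongr
        _ = C' * ∫⁻ z, P (m * r) (scl j) (y - z) * a j z ^ r := by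
            have h6 : ∀ z, P (m * r) (scl j) (y - z) * a j z ^ r =
                ENNReal.ofReal (2 ^ (j * α)) ^ r *
                  (P (m * r) (scl j) (y - z) * ‖lpPiece Φ u j z‖ₑ ^ r) := by
              intro z
              rw [ha]; simp only; rw [ENNReal.mul_rpow_of_nonneg _ _ hr0.le]; ring
            simp only [h6]
            rw [lintegral_const_mul' _ _ (ENNReal.rpow_ne_top_of_nonneg hr0.le
              ENNReal.ofReal_ne_top)]
            rw [hC']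
            ring
        _ ≤ C' * M y := by
            gcongr
            rw [hM]
            refine le_iSup_of_le j ?_
            gcongr with z
            exact le_iSup (fun j => a j z) j
    calc ENNReal.ofReal (2 ^ (j * α)) * ‖lpPiece Φ u j x‖ₑ = (a j x ^ r) ^ (1 / r) := by
          rw [← ENNReal.rpow_mul, mul_one_div_cancel hr0.ne', ENNReal.rpow_one]
      _ ≤ _ := ENNReal.rpow_le_rpow h3 (by positivity)

/-- partial sums of the pieces are large where `u ≥ 1` -/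
theorem eventually_half {Φ : 𝓢(E n, ℂ)} (hΦ : IsGenerator Φ) {u : E n → ℝ} {B : ℝ}
    (hu : BC u B) {x : E n} (hx : 1 ≤ u x) : ∃ J₀ : ℕ, ∀ J ≥ J₀,
      ENNReal.ofReal (1 / 2) ≤ ∑ j ∈ Finset.range (J + 1), ‖lpPiece Φ u j x‖ₑ := by
  have h1 := (tendsto_lpSum hΦ hu x).norm
  have h2 : (1 / 2 : ℝ) < ‖(u x : ℂ)‖ := by
    rw [Complex.norm_real, Real.norm_eq_abs]
    have := le_abs_self (u x)
    linarith
  obtain ⟨J₀, hJ₀⟩ := Filter.eventually_atTop.1 (h1.eventually (lt_mem_nhds h2))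
  refine ⟨J₀, fun J hJ => ?_⟩
  calc ENNReal.ofReal (1 / 2) ≤ ENNReal.ofReal ‖∑ j ∈ Finset.range (J + 1), lpPiece Φ u j x‖ :=
        ENNReal.ofReal_le_ofReal (hJ₀ J hJ).le
    _ = ‖∑ j ∈ Finset.range (J + 1), lpPiece Φ u j x‖ₑ := ofReal_norm _
    _ ≤ _ := enorm_sum_le _ _

/-- the chain of infima -/
theorem piece_le_iInf {Φ : 𝓢(E n, ℂ)} {α : ℝ} {u : E n → ℝ} {F : E n → ℝ≥0∞}
    (h : ∀ (j : ℕ) (x y : E n), y ∈ Metric.ball x ((1 / 2 : ℝ) ^ j) →
          ENNReal.ofReal (2 ^ (j * α)) * ‖lpPiece Φ u j x‖ₑ ≤ F y) (j : ℕ) (x : E n) :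
    ‖lpPiece Φ u j x‖ₑ ≤ ENNReal.ofReal (2 ^ (-(j * α))) *
      ⨅ y ∈ Metric.ball x ((1 / 2 : ℝ) ^ j), F y := by
  have h1 : ENNReal.ofReal (2 ^ (j * α)) * ‖lpPiece Φ u j x‖ₑ ≤
      ⨅ y ∈ Metric.ball x ((1 / 2 : ℝ) ^ j), F y := le_iInf₂ fun y hy => h j x y hy
  calc ‖lpPiece Φ u j x‖ₑ = ENNReal.ofReal (2 ^ (-(j * α))) *
        (ENNReal.ofReal (2 ^ (j * α)) * ‖lpPiece Φ u j x‖ₑ) := by
        rw [← mul_assoc, ← ENNReal.ofReal_mul (by positivity), ← Real.rpow_add two_pos,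
          neg_add_cancel, Real.rpow_zero, ENNReal.ofReal_one, one_mul]
    _ ≤ _ := by gcongr

theorem chain {Φ : 𝓢(E n, ℂ)} (hΦ : IsGenerator Φ) {α : ℝ} (hα : 0 < α) {u : E n → ℝ} {B : ℝ}
    (hu : BC u B) {F : E n → ℝ≥0∞}
    (h : ∀ (j : ℕ) (x y : E n), y ∈ Metric.ball x ((1 / 2 : ℝ) ^ j) →
          ENNReal.ofReal (2 ^ (j * α)) * ‖lpPiece Φ u j x‖ₑ ≤ F y) {x : E n} (hx : 1 ≤ u x) :
    ∃ t₀ : ℝ, 0 < t₀ ∧ ∀ t : ℝ, 0 < t → t < t₀ →
      1 ≤ ((2 * Real.toNNReal (2 ^ α) : ℝ≥0) : ℝ≥0∞) * ∑' k : ℕ, ENNReal.ofReal ((t * 2 ^ k) ^ α) *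
        ⨅ y ∈ Metric.ball x (t * 2 ^ k), F y := by
  obtain ⟨J₀, hJ₀⟩ := eventually_half hΦ hu hx
  refine ⟨(1 / 2) ^ J₀, by positivity, fun t ht htt => ?_⟩
  obtain ⟨J, hJ1, hJ2⟩ := exists_nat_pow_near_of_lt_one (x := t) (y := (1 / 2 : ℝ)) ht
    (htt.le.trans (pow_le_one₀ (by norm_num) (by norm_num))) (by norm_num) (by norm_num)
  have hJJ : J₀ ≤ J := by
    by_contra hc
    push Not at hc
    have h1 : (1 / 2 : ℝ) ^ J₀ ≤ (1 / 2) ^ (J + 1) :=
      pow_le_pow_of_le_one (by norm_num) (by norm_num) hc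
    linarith
  have h1 := hJ₀ J hJJ
  have h2 : ∀ k ∈ Finset.range (J + 1), ‖lpPiece Φ u (J - k) x‖ₑ ≤
      ENNReal.ofReal (2 ^ α) * (ENNReal.ofReal ((t * 2 ^ k) ^ α) *
        ⨅ y ∈ Metric.ball x (t * 2 ^ k), F y) := by
    intro k hk
    have hkJ : k ≤ J := Nat.lt_succ_iff.1 (Finset.mem_range.1 hk)
    refine (piece_le_iInf h (J - k) x).trans ?_
    rw [← mul_assoc, ← ENNReal.ofReal_mul (by positivity)]
    have e1 : (1 / 2 : ℝ) ^ (J - k) = (1 / 2) ^ J * 2 ^ k := by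
      have : (1 / 2 : ℝ) ^ J = (1 / 2) ^ (J - k) * (1 / 2) ^ k := by
        rw [← pow_add, Nat.sub_add_cancel hkJ]
      rw [this, mul_assoc, ← mul_pow]
      norm_num
    have h3 : (2 : ℝ) ^ (-(((J - k : ℕ) : ℝ) * α)) ≤ 2 ^ α * (t * 2 ^ k) ^ α := by
      have e2 : (2 : ℝ) ^ (-(((J - k : ℕ) : ℝ) * α)) = ((1 / 2 : ℝ) ^ (J - k)) ^ α := by
        rw [one_div, inv_pow, Real.inv_rpow (by positivity), ← Real.rpow_natCast,
          ← Real.rpow_mul two_pos.le, Real.rpow_neg two_pos.le]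
      rw [e2, ← Real.mul_rpow (by norm_num) (by positivity), e1]
      apply Real.rpow_le_rpow (by positivity) _ hα.le
      have h4 : (1 / 2 : ℝ) ^ J ≤ 2 * t := by
        rw [pow_succ] at hJ1; linarith
      have h5 : (0 : ℝ) < 2 ^ k := by positivity
      calc (1 / 2 : ℝ) ^ J * 2 ^ k ≤ 2 * t * 2 ^ k := by gcongr
        _ = _ := by ring
    have h6 : ⨅ y ∈ Metric.ball x ((1 / 2 : ℝ) ^ (J - k)), F y ≤
        ⨅ y ∈ Metric.ball x (t * 2 ^ k), F y := by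
      refine le_iInf₂ fun y hy => iInf₂_le y (Metric.ball_subset_ball ?_ hy)
      rw [e1]
      gcongr
    gcongr
  have h3 : ENNReal.ofReal (1 / 2) ≤ ENNReal.ofReal (2 ^ α) *
      ∑' k : ℕ, ENNReal.ofReal ((t * 2 ^ k) ^ α) * ⨅ y ∈ Metric.ball x (t * 2 ^ k), F y := by
    calc ENNReal.ofReal (1 / 2) ≤ ∑ j ∈ Finset.range (J + 1), ‖lpPiece Φ u j x‖ₑ := h1
      _ = ∑ k ∈ Finset.range (J + 1), ‖lpPiece Φ u (J - k) x‖ₑ := by
          rw [← Finset.sum_range_reflect]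
          refine Finset.sum_congr rfl fun k _ => ?_
          congr 2
      _ ≤ ∑ k ∈ Finset.range (J + 1), ENNReal.ofReal (2 ^ α) *
          (ENNReal.ofReal ((t * 2 ^ k) ^ α) * ⨅ y ∈ Metric.ball x (t * 2 ^ k), F y) :=
          Finset.sum_le_sum h2
      _ ≤ _ := by
          rw [← Finset.mul_sum]
          gcongr
          exact ENNReal.sum_le_tsum _
  calc (1 : ℝ≥0∞) = 2 * ENNReal.ofReal (1 / 2) := by
        rw [show (2 : ℝ≥0∞) = ENNReal.ofReal 2 by simp, ← ENNReal.ofReal_mul (by norm_num)]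
        norm_num
    _ ≤ 2 * (ENNReal.ofReal (2 ^ α) * ∑' k : ℕ, ENNReal.ofReal ((t * 2 ^ k) ^ α) *
        ⨅ y ∈ Metric.ball x (t * 2 ^ k), F y) := by gcongr
    _ = _ := by
        push_cast
        rw [← mul_assoc]
        rfl

/-- the lower bound by the Hausdorff content -/
theorem content_le {Φ : 𝓢(E n, ℂ)} (hΦ : IsGenerator Φ) (hn : 1 ≤ n) {α p q : ℝ} (hα : 0 < α)
    (hp : 0 < p) (hp1 : p ≤ 1) (hαp : α * p < n) (hq : 0 < q) : ∃ C : ℝ≥0,
      ∀ (u : E n → ℝ) (B : ℝ), BC u B → ∀ K : Set (E n), (∀ x ∈ K, 1 ≤ u x) →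
        Pool.Agent.Helper656.Cap.hausdorffContent (n - α * p) K ≤
          C * triebelNorm Φ α p q u ^ p := by
  obtain ⟨C, hC⟩ := exists_major hΦ α hp hp1 hq
  obtain ⟨C', hC'⟩ := Pool.Agent.Helper656.Cap.content_le_of_chain n hn α p hα hp hp1 hαp
    (2 * Real.toNNReal (2 ^ α))
  refine ⟨C' * C, fun u B hu K hK => ?_⟩
  obtain ⟨F, hFm, hF, hFle⟩ := hC u B hu
  refine (hC' F hFm K fun x hx => chain hΦ hα hu hFle (hK x hx)).trans ?_
  push_cast
  rw [mul_assoc]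
  gcongr

/-- the mass of the annuli -/
theorem annuli (x : E n) (G : E n → ℝ≥0∞) (J : ℕ) :
    (∑ j ∈ Finset.range J, ∫⁻ y in Metric.ball x ((1 / 2 : ℝ) ^ j) \
      Metric.ball x ((1 / 2 : ℝ) ^ (j + 1)), G y) +
      ∫⁻ y in Metric.ball x ((1 / 2 : ℝ) ^ J), G y ≤ ∫⁻ y, G y := by
  induction J with
  | zero =>
    rw [Finset.range_zero, Finset.sum_empty, zero_add]
    exact setLIntegral_le_lintegral _ _
  | succ J ih =>
    refine le_trans (le_of_eq ?_) ih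
    have hsub : Metric.ball x ((1 / 2 : ℝ) ^ (J + 1)) ⊆ Metric.ball x ((1 / 2 : ℝ) ^ J) :=
      Metric.ball_subset_ball (pow_le_pow_of_le_one (by norm_num) (by norm_num) (Nat.le_succ J))
    have h1 := lintegral_inter_add_sdiff (μ := volume) G (Metric.ball x ((1 / 2 : ℝ) ^ J))
      (Metric.isOpen_ball (x := x) (ε := (1 / 2 : ℝ) ^ (J + 1))).measurableSet
    rw [Set.inter_eq_self_of_subset_right hsub] at h1
    rw [Finset.sum_range_succ, add_assoc, ← h1]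
    congr 1
    rw [add_comm]

theorem annulus_volume (hn : 1 ≤ n) (x : E n) (j : ℕ) :
    ENNReal.ofReal (((1 / 2 : ℝ) ^ j) ^ n) * (volume (Metric.ball (0 : E n) 1) / 2) ≤
      volume (Metric.ball x ((1 / 2 : ℝ) ^ j) \ Metric.ball x ((1 / 2 : ℝ) ^ (j + 1))) := by
  set V := volume (Metric.ball (0 : E n) 1) with hV
  have hvol : ∀ ρ : ℝ, 0 < ρ → volume (Metric.ball x ρ) = ENNReal.ofReal (ρ ^ n) * V := by
    intro ρ hρ
    have := Measure.addHaar_ball_mul_of_pos (volume : Measure (E n)) x hρ 1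
    rw [mul_one, finrank_euclideanSpace_fin] at this
    exact this
  have hsub : Metric.ball x ((1 / 2 : ℝ) ^ (j + 1)) ⊆ Metric.ball x ((1 / 2 : ℝ) ^ j) :=
    Metric.ball_subset_ball (pow_le_pow_of_le_one (by norm_num) (by norm_num) (Nat.le_succ j))
  rw [measure_sdiff hsub Metric.isOpen_ball.measurableSet.nullMeasurableSet
    (measure_ball_lt_top).ne, hvol _ (by positivity), hvol _ (by positivity)]
  have hVfin : V ≠ ∞ := measure_ball_lt_top.ne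
  apply ENNReal.le_sub_of_add_le_right (ENNReal.mul_ne_top ENNReal.ofReal_ne_top hVfin)
  have h1 : ENNReal.ofReal (((1 / 2 : ℝ) ^ (j + 1)) ^ n) * V ≤
      ENNReal.ofReal (((1 / 2 : ℝ) ^ j) ^ n) * (V / 2) := by
    have h2 : ((1 / 2 : ℝ) ^ (j + 1)) ^ n ≤ ((1 / 2 : ℝ) ^ j) ^ n * (1 / 2) := by
      rw [pow_succ, mul_pow]
      gcongr
      calc (1 / 2 : ℝ) ^ n ≤ (1 / 2) ^ 1 := pow_le_pow_of_le_one (by norm_num) (by norm_num) hn
        _ = 1 / 2 := pow_one _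
    calc _ ≤ ENNReal.ofReal (((1 / 2 : ℝ) ^ j) ^ n * (1 / 2)) * V := by gcongr
      _ = _ := by
        have e : ENNReal.ofReal (1 / 2) = 2⁻¹ := by
          rw [one_div, ENNReal.ofReal_inv_of_pos two_pos]
          simp
        rw [ENNReal.ofReal_mul (by positivity), mul_assoc, e, ENNReal.div_eq_inv_mul]
  calc ENNReal.ofReal (((1 / 2 : ℝ) ^ j) ^ n) * (V / 2) +
        ENNReal.ofReal (((1 / 2 : ℝ) ^ (j + 1)) ^ n) * V
      ≤ ENNReal.ofReal (((1 / 2 : ℝ) ^ j) ^ n) * (V / 2) +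
        ENNReal.ofReal (((1 / 2 : ℝ) ^ j) ^ n) * (V / 2) := by gcongr
    _ = ENNReal.ofReal (((1 / 2 : ℝ) ^ j) ^ n) * (V / 2 + V / 2) := by ring
    _ = _ := by rw [ENNReal.add_halves]

/-- the lower bound when points are not null -/
theorem one_le {Φ : 𝓢(E n, ℂ)} (hΦ : IsGenerator Φ) (hn : 1 ≤ n) {α p q : ℝ}
    (hp : 0 < p) (hp1 : p ≤ 1) (hαp : n ≤ α * p) (hq : 0 < q) : ∃ C : ℝ≥0,
      ∀ (u : E n → ℝ) (B : ℝ), BC u B → ∀ x : E n, 1 ≤ u x →
        1 ≤ C * triebelNorm Φ α p q u ^ p := by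
  obtain ⟨C, hC⟩ := exists_major hΦ α hp hp1 hq
  set V : ℝ≥0∞ := volume (Metric.ball (0 : E n) 1) with hV
  have hVfin : V ≠ ∞ := measure_ball_lt_top.ne
  have hVpos : V ≠ 0 := (Metric.measure_ball_pos _ _ one_pos).ne'
  have hV2 : V / 2 ≠ 0 := (ENNReal.half_pos hVpos).ne'
  have hV2fin : V / 2 ≠ ∞ := (ENNReal.div_lt_top hVfin (by norm_num)).ne
  set D : ℝ≥0∞ := 2 ^ p * ((V / 2)⁻¹ * C) with hD
  have hDfin : D ≠ ∞ := ENNReal.mul_ne_top (ENNReal.rpow_ne_top_of_nonneg hp.le (by norm_num))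
    (ENNReal.mul_ne_top (ENNReal.inv_ne_top.2 hV2) ENNReal.coe_ne_top)
  refine ⟨D.toNNReal, fun u B hu x hx => ?_⟩
  rw [ENNReal.coe_toNNReal hDfin]
  obtain ⟨F, hFm, hF, hFle⟩ := hC u B hu
  obtain ⟨J₀, hJ₀⟩ := eventually_half hΦ hu hx
  have h1 := hJ₀ J₀ le_rfl
  set a : ℕ → ℝ≥0∞ := fun j => ⨅ y ∈ Metric.ball x ((1 / 2 : ℝ) ^ j), F y with ha
  have h2 : ∀ j, ‖lpPiece Φ u j x‖ₑ ^ p ≤ ENNReal.ofReal (((1 / 2 : ℝ) ^ j) ^ n) * a j ^ p := by
    intro j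
    calc ‖lpPiece Φ u j x‖ₑ ^ p ≤ (ENNReal.ofReal (2 ^ (-(j * α))) * a j) ^ p := by
          gcongr
          exact piece_le_iInf hFle j x
      _ = ENNReal.ofReal (2 ^ (-(j * α))) ^ p * a j ^ p := ENNReal.mul_rpow_of_nonneg _ _ hp.le
      _ ≤ _ := by
          gcongr
          rw [ENNReal.ofReal_rpow_of_pos (by positivity)]
          apply ENNReal.ofReal_le_ofReal
          have e : ((1 / 2 : ℝ) ^ j) ^ n = (2 : ℝ) ^ (-((j : ℝ) * n)) := by
            rw [one_div, inv_pow, inv_pow, ← pow_mul, ← Real.rpow_natCast,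
              Real.rpow_neg two_pos.le]
            push_cast
            rfl
          rw [e, ← Real.rpow_mul two_pos.le]
          apply Real.rpow_le_rpow_of_exponent_le (by norm_num)
          have : (j : ℝ) * n ≤ j * (α * p) := by gcongr
          linarith
  have h3 : ∀ j, ENNReal.ofReal (((1 / 2 : ℝ) ^ j) ^ n) * a j ^ p * (V / 2) ≤
      ∫⁻ y in Metric.ball x ((1 / 2 : ℝ) ^ j) \ Metric.ball x ((1 / 2 : ℝ) ^ (j + 1)), F y ^ p := by
    intro j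
    calc ENNReal.ofReal (((1 / 2 : ℝ) ^ j) ^ n) * a j ^ p * (V / 2)
        = a j ^ p * (ENNReal.ofReal (((1 / 2 : ℝ) ^ j) ^ n) * (V / 2)) := by ring
      _ ≤ a j ^ p * volume (Metric.ball x ((1 / 2 : ℝ) ^ j) \
          Metric.ball x ((1 / 2 : ℝ) ^ (j + 1))) := by
          gcongr
          exact annulus_volume hn x j
      _ = ∫⁻ y in Metric.ball x ((1 / 2 : ℝ) ^ j) \ Metric.ball x ((1 / 2 : ℝ) ^ (j + 1)),
          a j ^ p := by rw [setLIntegral_const]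
      _ ≤ _ := by
          refine setLIntegral_mono (hFm.pow_const p) fun y hy => ?_
          gcongr
          exact iInf₂_le y hy.1
  have h4 : ENNReal.ofReal (1 / 2) ^ p * (V / 2) ≤ ∫⁻ y, F y ^ p := by
    calc ENNReal.ofReal (1 / 2) ^ p * (V / 2)
        ≤ (∑ j ∈ Finset.range (J₀ + 1), ‖lpPiece Φ u j x‖ₑ) ^ p * (V / 2) := by gcongr
      _ ≤ (∑ j ∈ Finset.range (J₀ + 1), ‖lpPiece Φ u j x‖ₑ ^ p) * (V / 2) := by
          gcongr
          exact sum_rpow_le _ _ hp hp1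
      _ ≤ (∑ j ∈ Finset.range (J₀ + 1), ENNReal.ofReal (((1 / 2 : ℝ) ^ j) ^ n) * a j ^ p) *
          (V / 2) := by
          gcongr with j _
          exact h2 j
      _ = ∑ j ∈ Finset.range (J₀ + 1), ENNReal.ofReal (((1 / 2 : ℝ) ^ j) ^ n) * a j ^ p *
          (V / 2) := by rw [Finset.sum_mul]
      _ ≤ ∑ j ∈ Finset.range (J₀ + 1), ∫⁻ y in Metric.ball x ((1 / 2 : ℝ) ^ j) \
          Metric.ball x ((1 / 2 : ℝ) ^ (j + 1)), F y ^ p := Finset.sum_le_sum fun j _ => h3 j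
      _ ≤ _ := le_self_add.trans (annuli x (fun y => F y ^ p) (J₀ + 1))
  have h5 : ENNReal.ofReal (1 / 2) ^ p * 2 ^ p = 1 := by
    rw [← ENNReal.mul_rpow_of_nonneg _ _ hp.le, show (2 : ℝ≥0∞) = ENNReal.ofReal 2 by simp,
      ← ENNReal.ofReal_mul (by norm_num)]
    norm_num
  calc (1 : ℝ≥0∞) = (ENNReal.ofReal (1 / 2) ^ p * 2 ^ p) * ((V / 2) * (V / 2)⁻¹) := by
        rw [h5, ENNReal.mul_inv_cancel hV2 hV2fin, one_mul]
    _ = 2 ^ p * ((V / 2)⁻¹ * (ENNReal.ofReal (1 / 2) ^ p * (V / 2))) := by ring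
    _ ≤ 2 ^ p * ((V / 2)⁻¹ * (C * triebelNorm Φ α p q u ^ p)) :=
        mul_le_mul_right (mul_le_mul_right (h4.trans hF) _) _
    _ = _ := by rw [hD]; ring

end Pool.Agent.Q82.BT
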