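import Pool.Agent.Q82.BTDefs

/-!
A maximal inequality in `L²` proved by the `T T*` method.
-/

open MeasureTheory
open scoped ENNReal NNReal

namespace Pool.Agent.Q82.BT


variable {n : ℕ}

/-- Cauchy-Schwarz for lower integrals -/
theorem lint_cs {α : Type*} [MeasurableSpace α] (μ : Measure α) {f g : α → ℝ≥0∞}
    (hf : AEMeasurable f μ) (hg : AEMeasurable g μ) :
    (∫⁻ a, f a * g a ∂μ) ^ 2 ≤ (∫⁻ a, f a ^ 2 ∂μ) * ∫⁻ a, g a ^ 2 ∂μ := by
  have h := ENNReal.lintegral_mul_le_Lp_mul_Lq μ Real.HolderConjugate.two_two hf hg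
  have e : ∀ x : ℝ≥0∞, x ^ (2 : ℝ) = x ^ 2 := fun x => by
    rw [← ENNReal.rpow_natCast]; norm_num
  simp only [Pi.mul_apply, e] at h
  calc (∫⁻ a, f a * g a ∂μ) ^ 2 ≤ ((∫⁻ a, f a ^ 2 ∂μ) ^ (1 / (2 : ℝ)) *
        (∫⁻ a, g a ^ 2 ∂μ) ^ (1 / (2 : ℝ))) ^ 2 := by gcongr
    _ = _ := by
      rw [mul_pow]
      congr 1
      · rw [← ENNReal.rpow_natCast, ← ENNReal.rpow_mul]; norm_num
      · rw [← ENNReal.rpow_natCast, ← ENNReal.rpow_mul]; norm_num

/-- weighted Cauchy-Schwarz -/
theorem lint_cs_weight {α : Type*} [MeasurableSpace α] (μ : Measure α) {w g : α → ℝ≥0∞}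
    (hw : Measurable w) (hg : Measurable g) :
    (∫⁻ a, w a * g a ∂μ) ^ 2 ≤ (∫⁻ a, w a ∂μ) * ∫⁻ a, w a * g a ^ 2 ∂μ := by
  have h := lint_cs (μ.withDensity w) (f := fun _ => (1 : ℝ≥0∞)) (g := g)
    aemeasurable_const hg.aemeasurable
  simp only [one_mul, one_pow] at h
  rw [lintegral_withDensity_eq_lintegral_mul μ hw hg,
    lintegral_withDensity_eq_lintegral_mul μ hw (hg.pow_const 2),
    lintegral_withDensity_eq_lintegral_mul μ hw measurable_const] at h
  simpa using h

/-- the kernel `tⁿ (1 + t |x|)^{-b}` -/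
noncomputable def P (b t : ℝ) (x : E n) : ℝ≥0∞ := ENNReal.ofReal (t ^ n * (1 + t * ‖x‖) ^ (-b))

theorem measurable_P (b : ℝ) : Measurable fun q : ℝ × E n => P b q.1 q.2 := by
  unfold P
  apply ENNReal.measurable_ofReal.comp
  apply Measurable.mul
  · fun_prop
  · apply Measurable.pow_const
    fun_prop

theorem P_neg (b t : ℝ) (x : E n) : P b t (-x) = P b t x := by
  unfold P; rw [norm_neg]

theorem P_sub_comm (b t : ℝ) (x y : E n) : P b t (x - y) = P b t (y - x) := by
  rw [← P_neg, neg_sub]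

theorem lintegral_scale {t : ℝ} (ht : 0 < t) {f : E n → ℝ≥0∞} (hf : Measurable f) :
    ∫⁻ x, ENNReal.ofReal (t ^ n) * f (t • x) = ∫⁻ x, f x := by
  have h : ∫⁻ x, f (t • x) = ENNReal.ofReal ((t ^ n)⁻¹) * ∫⁻ x, f x := by
    have hm : Measurable (fun x : E n => t • x) := measurable_const_smul t
    rw [← lintegral_map hf hm, Measure.map_addHaar_smul volume ht.ne', lintegral_smul_measure,
      finrank_euclideanSpace_fin, abs_of_pos (by positivity), smul_eq_mul]
  rw [lintegral_const_mul _ (show Measurable fun x : E n => f (t • x) from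
    hf.comp (measurable_const_smul t)), h, ← mul_assoc,
    ← ENNReal.ofReal_mul (by positivity), mul_inv_cancel₀ (by positivity), ENNReal.ofReal_one,
    one_mul]

theorem lintegral_P (b : ℝ) {t : ℝ} (ht : 0 < t) :
    ∫⁻ x : E n, P b t x = ∫⁻ x : E n, P b 1 x := by
  rw [← lintegral_scale ht (f := fun x : E n => P b 1 x)
    ((measurable_P b).comp (measurable_const.prodMk measurable_id))]
  refine lintegral_congr fun x => ?_
  unfold P
  rw [← ENNReal.ofReal_mul (by positivity), norm_smul, Real.norm_of_nonneg ht.le, one_pow,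
    one_mul, one_mul]

theorem lintegral_P_lt_top {b : ℝ} (hb : (n : ℝ) < b) : ∫⁻ x : E n, P b 1 x < ∞ := by
  have h := finite_integral_one_add_norm (E := E n) (μ := volume) (r := b)
    (by rwa [finrank_euclideanSpace_fin])
  refine lt_of_le_of_lt (lintegral_mono fun x => ?_) h
  unfold P
  simp

theorem lintegral_P_sub (b : ℝ) {t : ℝ} (ht : 0 < t) (y : E n) :
    ∫⁻ x : E n, P b t (x - y) = ∫⁻ x : E n, P b 1 x := by
  rw [lintegral_sub_right_eq_self (fun x => P b t x) y, lintegral_P b ht]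

theorem lintegral_P_sub' (b : ℝ) {t : ℝ} (ht : 0 < t) (y : E n) :
    ∫⁻ x : E n, P b t (y - x) = ∫⁻ x : E n, P b 1 x := by
  simp only [P_sub_comm b t y]
  exact lintegral_P_sub b ht y

/-- the one variable inequality -/
theorem ratio_bound {b s t w : ℝ} {n : ℕ} (hb : (n : ℝ) ≤ b) (ht : 0 < t) (hts : t ≤ s)
    (hw : 0 ≤ w) :
    s ^ n * (1 + s * w) ^ (-b) * (1 + t * w) ^ b ≤
      2 ^ b * (s ^ n * (1 + s * w) ^ (-b) + t ^ n) := by
  have hs : 0 < s := ht.trans_le hts
  have hb0 : 0 ≤ b := (Nat.cast_nonneg n).trans hb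
  have h1 : 0 < (1 + s * w) ^ (-b) := Real.rpow_pos_of_pos (by positivity) _
  have h2 : (0 : ℝ) < 2 ^ b := by positivity
  rcases le_total (t * w) 1 with h | h
  · have h3 : (1 + t * w) ^ b ≤ 2 ^ b := Real.rpow_le_rpow (by positivity) (by linarith) hb0
    have h4 : 0 < s ^ n := by positivity
    have h5 : 0 < t ^ n := by positivity
    calc s ^ n * (1 + s * w) ^ (-b) * (1 + t * w) ^ b
        ≤ s ^ n * (1 + s * w) ^ (-b) * 2 ^ b := by gcongr
      _ = 2 ^ b * (s ^ n * (1 + s * w) ^ (-b)) := by ring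
      _ ≤ _ := by
        apply mul_le_mul_of_nonneg_left _ h2.le
        linarith
  · have hw0 : 0 < w := by
      rcases hw.lt_or_eq with h0 | h0
      · exact h0
      · rw [← h0, mul_zero] at h; linarith
    have h3 : (1 + s * w) ^ (-b) * (1 + t * w) ^ b ≤ (2 * (t / s)) ^ b := by
      rw [Real.rpow_neg (by positivity), ← Real.inv_rpow (by positivity),
        ← Real.mul_rpow (by positivity) (by positivity)]
      apply Real.rpow_le_rpow (by positivity) _ hb0
      rw [inv_mul_le_iff₀ (by positivity)]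
      have : (1 + s * w) * (2 * (t / s)) = 2 * (t / s) + 2 * (t * w) := by
        field_simp
      rw [this]
      have : 0 < t / s := by positivity
      linarith
    have h4 : (2 * (t / s)) ^ b ≤ 2 ^ b * (t / s) ^ n := by
      rw [Real.mul_rpow (by norm_num) (by positivity)]
      apply mul_le_mul_of_nonneg_left _ h2.le
      rw [← Real.rpow_natCast]
      apply Real.rpow_le_rpow_of_exponent_ge (by positivity) _ hb
      rw [div_le_one hs]; exact hts
    have h5 : 0 < s ^ n * (1 + s * w) ^ (-b) := by positivity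
    calc s ^ n * (1 + s * w) ^ (-b) * (1 + t * w) ^ b
        = s ^ n * ((1 + s * w) ^ (-b) * (1 + t * w) ^ b) := by ring
      _ ≤ s ^ n * (2 ^ b * (t / s) ^ n) :=
        mul_le_mul_of_nonneg_left (h3.trans h4) (by positivity)
      _ = 2 ^ b * t ^ n := by
        rw [div_pow]; field_simp
      _ ≤ _ := by
        apply mul_le_mul_of_nonneg_left _ h2.le
        linarith

theorem kernel_pointwise {b s t : ℝ} (hb : (n : ℝ) ≤ b) (ht : 0 < t) (hts : t ≤ s)
    (x y z : E n) :
    ENNReal.ofReal (t ^ n) * (P b s (x - z) * P b t (y - z)) ≤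
      P b t (x - y) * (ENNReal.ofReal (2 ^ b * 2 ^ b * t ^ n) * P b s (x - z) +
        (ENNReal.ofReal (2 ^ b * 2 ^ b * t ^ n) * P b t (y - z) +
        ENNReal.ofReal (2 ^ b * t ^ n) * P b s (x - z))) := by
  have hs : 0 < s := ht.trans_le hts
  have hb0 : 0 ≤ b := (Nat.cast_nonneg n).trans hb
  unfold P
  set A : ℝ := 1 + t * ‖x - y‖ with hA
  set B : ℝ := 1 + t * ‖x - z‖ with hB
  set D : ℝ := 1 + t * ‖y - z‖ with hD
  set B' : ℝ := 1 + s * ‖x - z‖ with hB'
  have hA0 : 0 < A := by positivity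
  have hB0 : 0 < B := by positivity
  have hD0 : 0 < D := by positivity
  have hD1 : 1 ≤ D := by rw [hD]; have : 0 ≤ t * ‖y - z‖ := by positivity
                         linarith
  have hB'0 : 0 < B' := by positivity
  have hABD : A ≤ B + D := by
    have : ‖x - y‖ ≤ ‖x - z‖ + ‖y - z‖ := by
      rw [norm_sub_rev y z]
      exact norm_sub_le_norm_sub_add_norm_sub x z y
    have := mul_le_mul_of_nonneg_left this ht.le
    rw [hA, hB, hD]; linarith
  have h2 : (0 : ℝ) < 2 ^ b := by positivity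
  have hAb : A ^ b ≤ 2 ^ b * (B ^ b + D ^ b) := by
    have h3 : A ^ b ≤ (2 * max B D) ^ b := by
      apply Real.rpow_le_rpow hA0.le _ hb0
      have := le_max_left B D
      have := le_max_right B D
      linarith
    rw [Real.mul_rpow (by norm_num) (by positivity)] at h3
    refine h3.trans (mul_le_mul_of_nonneg_left ?_ h2.le)
    have h4 : 0 < B ^ b := by positivity
    have h5 : 0 < D ^ b := by positivity
    rcases le_total B D with h | h
    · rw [max_eq_right h]; linarith
    · rw [max_eq_left h]; linarith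
  have hr : s ^ n * B' ^ (-b) * B ^ b ≤ 2 ^ b * (s ^ n * B' ^ (-b) + t ^ n) :=
    ratio_bound hb ht hts (norm_nonneg _)
  have hDb : D ^ (-b) ≤ 1 := by
    apply Real.rpow_le_one_of_one_le_of_nonpos hD1; linarith
  have hDb0 : 0 < D ^ (-b) := by positivity
  have hDD : D ^ (-b) * D ^ b = 1 := by
    rw [← Real.rpow_add hD0, neg_add_cancel, Real.rpow_zero]
  have hAA : A ^ (-b) * A ^ b = 1 := by
    rw [← Real.rpow_add hA0, neg_add_cancel, Real.rpow_zero]
  have htn : 0 < t ^ n := by positivity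
  have hsn : 0 < s ^ n := by positivity
  have hB'b : 0 < B' ^ (-b) := by positivity
  have hAbp : 0 < A ^ (-b) := by positivity
  rw [← ENNReal.ofReal_mul (by positivity), ← ENNReal.ofReal_mul (by positivity),
    ← ENNReal.ofReal_mul (by positivity), ← ENNReal.ofReal_mul (by positivity),
    ← ENNReal.ofReal_mul (by positivity), ← ENNReal.ofReal_add (by positivity) (by positivity),
    ← ENNReal.ofReal_add (by positivity) (by positivity), ← ENNReal.ofReal_mul (by positivity)]
  apply ENNReal.ofReal_le_ofReal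
  -- real inequality
  have key : s ^ n * B' ^ (-b) * (t ^ n * D ^ (-b)) * A ^ b ≤
      2 ^ b * 2 ^ b * t ^ n * (s ^ n * B' ^ (-b)) + (2 ^ b * 2 ^ b * t ^ n * (t ^ n * D ^ (-b)) +
        2 ^ b * t ^ n * (s ^ n * B' ^ (-b))) := by
    calc s ^ n * B' ^ (-b) * (t ^ n * D ^ (-b)) * A ^ b
        ≤ s ^ n * B' ^ (-b) * (t ^ n * D ^ (-b)) * (2 ^ b * (B ^ b + D ^ b)) := by gcongr
      _ = 2 ^ b * t ^ n * D ^ (-b) * (s ^ n * B' ^ (-b) * B ^ b) +
          2 ^ b * t ^ n * (s ^ n * B' ^ (-b)) * (D ^ (-b) * D ^ b) := by ring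
      _ ≤ 2 ^ b * t ^ n * D ^ (-b) * (2 ^ b * (s ^ n * B' ^ (-b) + t ^ n)) +
          2 ^ b * t ^ n * (s ^ n * B' ^ (-b)) * (D ^ (-b) * D ^ b) := by gcongr
      _ = 2 ^ b * 2 ^ b * t ^ n * (s ^ n * B' ^ (-b)) * D ^ (-b) +
          (2 ^ b * 2 ^ b * t ^ n * (t ^ n * D ^ (-b)) +
        2 ^ b * t ^ n * (s ^ n * B' ^ (-b))) := by rw [hDD]; ring
      _ ≤ 2 ^ b * 2 ^ b * t ^ n * (s ^ n * B' ^ (-b)) * 1 +
          (2 ^ b * 2 ^ b * t ^ n * (t ^ n * D ^ (-b)) +
        2 ^ b * t ^ n * (s ^ n * B' ^ (-b))) := by gcongr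
      _ = _ := by ring
  calc t ^ n * (s ^ n * B' ^ (-b) * (t ^ n * D ^ (-b)))
      = t ^ n * A ^ (-b) * (s ^ n * B' ^ (-b) * (t ^ n * D ^ (-b)) * A ^ b) := by
        rw [show t ^ n * A ^ (-b) * (s ^ n * B' ^ (-b) * (t ^ n * D ^ (-b)) * A ^ b) =
          t ^ n * (s ^ n * B' ^ (-b) * (t ^ n * D ^ (-b))) * (A ^ (-b) * A ^ b) by ring, hAA,
          mul_one]
    _ ≤ _ := by gcongr

theorem kernel_conv_of_le {b : ℝ} (hb : (n : ℝ) < b) : ∃ C : ℝ≥0, ∀ s t : ℝ, 0 < t → t ≤ s →
    ∀ x y : E n, ∫⁻ z, P b s (x - z) * P b t (y - z) ≤ C * P b t (x - y) := by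
  have hc := lintegral_P_lt_top (n := n) hb
  set c := ∫⁻ x : E n, P b 1 x with hcdef
  refine ⟨(ENNReal.ofReal (2 ^ b * 2 ^ b) * c + (ENNReal.ofReal (2 ^ b * 2 ^ b) * c +
    ENNReal.ofReal (2 ^ b) * c)).toNNReal, fun s t ht hts x y => ?_⟩
  have hs : 0 < s := ht.trans_le hts
  have hfin : ENNReal.ofReal (2 ^ b * 2 ^ b) * c + (ENNReal.ofReal (2 ^ b * 2 ^ b) * c +
    ENNReal.ofReal (2 ^ b) * c) ≠ ∞ := by
    refine ENNReal.add_ne_top.2 ⟨ENNReal.mul_ne_top ENNReal.ofReal_ne_top hc.ne,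
      ENNReal.add_ne_top.2 ⟨ENNReal.mul_ne_top ENNReal.ofReal_ne_top hc.ne,
      ENNReal.mul_ne_top ENNReal.ofReal_ne_top hc.ne⟩⟩
  rw [ENNReal.coe_toNNReal hfin]
  have hmx : ∀ (r : ℝ) (w : E n), Measurable fun z : E n => P b r (w - z) := fun r w =>
    (measurable_P b).comp (measurable_const.prodMk (measurable_const.sub measurable_id))
  have h1 : ENNReal.ofReal (t ^ n) * ∫⁻ z, P b s (x - z) * P b t (y - z) ≤
      P b t (x - y) * (ENNReal.ofReal (2 ^ b * 2 ^ b * t ^ n) * c +
        (ENNReal.ofReal (2 ^ b * 2 ^ b * t ^ n) * c + ENNReal.ofReal (2 ^ b * t ^ n) * c)) := by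
    rw [← lintegral_const_mul _ (show Measurable fun z => P b s (x - z) * P b t (y - z) from
      (hmx s x).mul (hmx t y))]
    refine (lintegral_mono fun z => kernel_pointwise hb.le ht hts x y z).trans ?_
    have hm1 : Measurable fun z => ENNReal.ofReal (2 ^ b * 2 ^ b * t ^ n) * P b s (x - z) :=
      (hmx s x).const_mul _
    have hm2 : Measurable fun z => ENNReal.ofReal (2 ^ b * 2 ^ b * t ^ n) * P b t (y - z) :=
      (hmx t y).const_mul _
    have hm3 : Measurable fun z => ENNReal.ofReal (2 ^ b * t ^ n) * P b s (x - z) :=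
      (hmx s x).const_mul _
    rw [lintegral_const_mul' _ _ (by unfold P; exact ENNReal.ofReal_ne_top), lintegral_add_left hm1,
      lintegral_add_left hm2, lintegral_const_mul _ (hmx s x), lintegral_const_mul _ (hmx t y),
      lintegral_const_mul _ (hmx s x), lintegral_P_sub' b hs, lintegral_P_sub' b ht]
  have e : ENNReal.ofReal (2 ^ b * 2 ^ b * t ^ n) * c +
        (ENNReal.ofReal (2 ^ b * 2 ^ b * t ^ n) * c + ENNReal.ofReal (2 ^ b * t ^ n) * c) =
      ENNReal.ofReal (t ^ n) * (ENNReal.ofReal (2 ^ b * 2 ^ b) * c +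
        (ENNReal.ofReal (2 ^ b * 2 ^ b) * c + ENNReal.ofReal (2 ^ b) * c)) := by
    rw [ENNReal.ofReal_mul (p := 2 ^ b * 2 ^ b) (by positivity),
      ENNReal.ofReal_mul (p := 2 ^ b) (q := t ^ n) (by positivity)]
    ring
  rw [e, ← mul_assoc, mul_comm (P b t (x - y)), mul_assoc] at h1
  have htn : ENNReal.ofReal (t ^ n) ≠ 0 := by
    rw [Ne, ENNReal.ofReal_eq_zero, not_le]; positivity
  rw [ENNReal.mul_le_mul_iff_right htn ENNReal.ofReal_ne_top] at h1
  rw [mul_comm]
  exact h1

theorem kernel_conv {b : ℝ} (hb : (n : ℝ) < b) : ∃ C : ℝ≥0, ∀ s t : ℝ, 0 < s → 0 < t →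
    ∀ x y : E n, ∫⁻ z, P b s (x - z) * P b t (y - z) ≤ C * (P b s (x - y) + P b t (y - x)) := by
  obtain ⟨C, hC⟩ := kernel_conv_of_le (n := n) hb
  refine ⟨C, fun s t hs ht x y => ?_⟩
  rcases le_total t s with h | h
  · refine (hC s t ht h x y).trans ?_
    rw [P_sub_comm b t x y]
    gcongr
    exact le_add_self
  · have := hC t s hs h y x
    simp only [mul_comm (P b t _)] at this
    refine this.trans ?_
    rw [P_sub_comm b s y x]
    gcongr
    exact le_self_add

theorem measurable_P_sub (b : ℝ) {σ : E n → ℝ} (hσ : Measurable σ) :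
    Measurable fun q : E n × E n => P b (σ q.1) (q.1 - q.2) :=
  (measurable_P b).comp ((hσ.comp measurable_fst).prodMk (measurable_fst.sub measurable_snd))

/-- a single operator is bounded -/
theorem op_sq (b : ℝ) {t : ℝ} (ht : 0 < t) {G : E n → ℝ≥0∞} (hG : Measurable G) :
    ∫⁻ y, (∫⁻ z, P b t (y - z) * G z) ^ 2 ≤
      (∫⁻ x : E n, P b 1 x) ^ 2 * ∫⁻ z, G z ^ 2 := by
  have hm : Measurable fun q : E n × E n => P b t (q.1 - q.2) :=
    measurable_P_sub b (σ := fun _ => t) measurable_const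
  have hmy : ∀ y : E n, Measurable fun z : E n => P b t (y - z) := fun y =>
    (measurable_P b).comp (measurable_const.prodMk (measurable_const.sub measurable_id))
  have hmz : ∀ z : E n, Measurable fun y : E n => P b t (y - z) := fun z =>
    (measurable_P b).comp (measurable_const.prodMk (measurable_id.sub measurable_const))
  have hmG : Measurable fun q : E n × E n => P b t (q.1 - q.2) * G q.2 ^ 2 :=
    hm.mul ((hG.comp measurable_snd).pow_const 2)
  have h1 : ∀ y : E n, ∫⁻ z, P b t (y - z) = ∫⁻ x : E n, P b 1 x := lintegral_P_sub' b ht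
  have h2 : ∀ z : E n, ∫⁻ y, P b t (y - z) = ∫⁻ x : E n, P b 1 x := lintegral_P_sub b ht
  generalize (∫⁻ x : E n, P b 1 x) = c at h1 h2 ⊢
  have h3 : ∀ y : E n, (∫⁻ z, P b t (y - z) * G z) ^ 2 ≤
      c * ∫⁻ z, P b t (y - z) * G z ^ 2 := by
    intro y
    have := lint_cs_weight volume (hmy y) hG
    rwa [h1] at this
  have h4 : ∫⁻ y, c * ∫⁻ z, P b t (y - z) * G z ^ 2 =
      c * ∫⁻ y, ∫⁻ z, P b t (y - z) * G z ^ 2 :=
    lintegral_const_mul _ hmG.lintegral_prod_right'
  have h5 : ∫⁻ y, ∫⁻ z, P b t (y - z) * G z ^ 2 = ∫⁻ z, ∫⁻ y, P b t (y - z) * G z ^ 2 :=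
    lintegral_lintegral_swap hmG.aemeasurable
  have h6 : ∫⁻ z, ∫⁻ y, P b t (y - z) * G z ^ 2 = ∫⁻ z, c * G z ^ 2 := by
    refine lintegral_congr fun z => ?_
    rw [lintegral_mul_const _ (hmz z), h2]
  have h7 : ∫⁻ z, c * G z ^ 2 = c * ∫⁻ z, G z ^ 2 := lintegral_const_mul _ (hG.pow_const 2)
  refine (lintegral_mono h3).trans (le_of_eq ?_)
  rw [h4, h5, h6, h7, sq, mul_assoc]

theorem exists_sel (a : ℕ → E n → ℝ≥0∞) (ha : ∀ j, Measurable (a j)) (J : ℕ) :
    ∃ σ : E n → ℕ, Measurable σ ∧ (∀ y, σ y ≤ J) ∧ (∀ y, ∀ i ≤ J, a i y ≤ a (σ y) y) ∧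
      Measurable fun y => a (σ y) y := by
  induction J with
  | zero =>
    refine ⟨fun _ => 0, measurable_const, fun _ => le_rfl, fun y i hi => ?_, ha 0⟩
    rw [Nat.le_zero.1 hi]
  | succ J ih =>
    obtain ⟨σ, h1, h2, h3, h4⟩ := ih
    have hs : MeasurableSet {y | a (σ y) y ≤ a (J + 1) y} := measurableSet_le h4 (ha (J + 1))
    classical
    refine ⟨fun y => if a (σ y) y ≤ a (J + 1) y then J + 1 else σ y,
      Measurable.ite hs measurable_const h1, fun y => ?_, fun y i hi => ?_, ?_⟩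
    · simp only
      split_ifs
      · exact le_rfl
      · exact (h2 y).trans (Nat.le_succ _)
    · simp only
      split_ifs with h
      · rcases Nat.le_succ_iff.1 hi with h5 | h5
        · exact (h3 y i h5).trans h
        · rw [h5]
      · rcases Nat.le_succ_iff.1 hi with h5 | h5
        · exact h3 y i h5
        · rw [h5]; exact (not_le.1 h).le
    · have : (fun y => a (if a (σ y) y ≤ a (J + 1) y then J + 1 else σ y) y) =
          fun y => if a (σ y) y ≤ a (J + 1) y then a (J + 1) y else a (σ y) y := by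
        funext y
        split_ifs <;> rfl
      rw [this]
      exact Measurable.ite hs (ha _) h4

theorem add_sq_le' (a b : ℝ≥0∞) : (a + b) ^ 2 ≤ 4 * a ^ 2 + 4 * b ^ 2 := by
  have h : a + b ≤ 2 * max a b := by
    rw [two_mul]; exact add_le_add (le_max_left _ _) (le_max_right _ _)
  calc (a + b) ^ 2 ≤ (2 * max a b) ^ 2 := by gcongr
    _ = 4 * (max a b) ^ 2 := by rw [mul_pow]; norm_num
    _ ≤ _ := by
      rcases le_total a b with h | h
      · rw [max_eq_right h]; exact le_add_self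
      · rw [max_eq_left h]; exact le_self_add

theorem sum_sq_lt_top (a : ℕ → E n → ℝ≥0∞) (ha : ∀ j, Measurable (a j))
    (h : ∀ j, ∫⁻ y, a j y ^ 2 < ∞) (s : Finset ℕ) :
    ∫⁻ y, (∑ j ∈ s, a j y) ^ 2 < ∞ := by
  classical
  induction s using Finset.induction_on with
  | empty => simp
  | insert i s hi ih =>
    refine lt_of_le_of_lt (lintegral_mono fun y => ?_)
      (b := ∫⁻ y, (4 * a i y ^ 2 + 4 * (∑ j ∈ s, a j y) ^ 2)) ?_
    · simp only
      rw [Finset.sum_insert hi]
      exact add_sq_le' _ _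
    · rw [lintegral_add_left (((ha i).pow_const 2).const_mul 4),
        lintegral_const_mul' _ _ (by norm_num), lintegral_const_mul' _ _ (by norm_num)]
      exact ENNReal.add_lt_top.2 ⟨ENNReal.mul_lt_top (by norm_num) (h i),
        ENNReal.mul_lt_top (by norm_num) ih⟩

theorem sq_le_of_sq_le_mul {X Y C : ℝ≥0∞} (hX : X ≠ ∞) (h : X ^ 2 ≤ C ^ 2 * (X * Y)) :
    X ≤ C ^ 2 * Y := by
  rcases eq_or_ne X 0 with h0 | h0
  · rw [h0]; exact bot_le
  · rw [sq X, mul_left_comm, ENNReal.mul_le_mul_iff_right h0 hX] at h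
    exact h

/-- the maximal inequality -/
theorem maximal {b : ℝ} (hb : (n : ℝ) < b) : ∃ C : ℝ≥0, ∀ (t : ℕ → ℝ), (∀ j, 0 < t j) →
    ∀ G : E n → ℝ≥0∞, Measurable G →
      ∫⁻ y, (⨆ j, ∫⁻ z, P b (t j) (y - z) * G z) ^ 2 ≤ C * ∫⁻ z, G z ^ 2 := by
  obtain ⟨C, hC⟩ := kernel_conv (n := n) hb
  have hc := lintegral_P_lt_top (n := n) hb
  refine ⟨(2 * C) ^ 2 + 1, fun t ht G hG => ?_⟩
  rcases eq_or_ne (∫⁻ z, G z ^ 2) ∞ with hGi | hGi
  · rw [hGi, ENNReal.mul_top (by simp)]; exact le_top
  have hPm : ∀ j, Measurable fun q : E n × E n => P b (t j) (q.1 - q.2) := fun j =>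
    measurable_P_sub b (σ := fun _ => t j) measurable_const
  -- averages of a measurable function
  have hAm : ∀ f : E n → ℝ≥0∞, Measurable f → ∀ j,
      Measurable fun y => ∫⁻ z, P b (t j) (y - z) * f z := fun f hf j =>
    ((hPm j).mul (hf.comp measurable_snd)).lintegral_prod_right'
  have hAf : ∀ f : E n → ℝ≥0∞, Measurable f → ∫⁻ z, f z ^ 2 ≠ ∞ → ∀ j,
      ∫⁻ y, (∫⁻ z, P b (t j) (y - z) * f z) ^ 2 < ∞ := fun f hf hfi j =>
    lt_of_le_of_lt (op_sq b (ht j) hf)
      (ENNReal.mul_lt_top (ENNReal.pow_lt_top hc) hfi.lt_top)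
  -- reduce to finitely many scales
  have hmono : ∀ y : E n, Monotone fun J : ℕ => (⨆ j ≤ J, ∫⁻ z, P b (t j) (y - z) * G z) ^ 2 := by
    intro y J J' hJ
    simp only
    gcongr ?_ ^ 2
    exact biSup_mono fun j hj => hj.trans hJ
  have hsup : ∀ y : E n, (⨆ j, ∫⁻ z, P b (t j) (y - z) * G z) ^ 2 =
      ⨆ J : ℕ, (⨆ j ≤ J, ∫⁻ z, P b (t j) (y - z) * G z) ^ 2 := by
    intro y
    have e : (⨆ j, ∫⁻ z, P b (t j) (y - z) * G z) =
        ⨆ J : ℕ, ⨆ j ≤ J, ∫⁻ z, P b (t j) (y - z) * G z := by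
      apply le_antisymm
      · refine iSup_le fun j => ?_
        exact le_iSup_of_le j (le_iSup₂_of_le j le_rfl le_rfl)
      · refine iSup_le fun J => iSup₂_le fun j _ => ?_
        exact le_iSup (fun j => ∫⁻ z, P b (t j) (y - z) * G z) j
    rw [e]
    exact ENNReal.iSup_pow _ _
  simp only [hsup]
  rw [lintegral_iSup]
  rotate_left
  · intro J
    exact (Measurable.iSup fun j => Measurable.iSup fun _ => hAm G hG j).pow_const 2
  · intro J J' hJ y
    exact hmono y hJ
  refine iSup_le fun J => ?_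
  -- selection
  obtain ⟨σ, hσm, hσJ, hσ, hσM⟩ := exists_sel (fun j y => ∫⁻ z, P b (t j) (y - z) * G z)
    (hAm G hG) J
  set k : E n → E n → ℝ≥0∞ := fun y z => P b (t (σ y)) (y - z) with hk
  have htm : Measurable fun y => t (σ y) := (measurable_of_countable t).comp hσm
  have hkm : Measurable fun q : E n × E n => k q.1 q.2 := measurable_P_sub b htm
  set M : E n → ℝ≥0∞ := fun y => ∫⁻ z, k y z * G z with hM
  have hMm : Measurable M := (hkm.mul (hG.comp measurable_snd)).lintegral_prod_right'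
  have hMeq : ∀ y, (⨆ j ≤ J, ∫⁻ z, P b (t j) (y - z) * G z) ≤ M y := fun y =>
    iSup₂_le fun j hj => hσ y j hj
  -- the adjoint
  have hkle : ∀ y z, k y z ≤ ∑ j ∈ Finset.range (J + 1), P b (t j) (y - z) := by
    intro y z
    exact Finset.single_le_sum (f := fun j => P b (t j) (y - z)) (fun _ _ => bot_le)
      (Finset.mem_range.2 (Nat.lt_succ_of_le (hσJ y)))
  have hMfin : ∫⁻ y, M y ^ 2 ≠ ∞ := by
    refine (lt_of_le_of_lt (lintegral_mono fun y => ?_) (sum_sq_lt_top
      (fun j y => ∫⁻ z, P b (t j) (y - z) * G z) (hAm G hG) (hAf G hG hGi)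
      (Finset.range (J + 1)))).ne
    simp only
    gcongr
    exact Finset.single_le_sum (f := fun j => ∫⁻ z, P b (t j) (y - z) * G z)
      (fun _ _ => bot_le) (Finset.mem_range.2 (Nat.lt_succ_of_le (hσJ y)))
  set S : E n → ℝ≥0∞ := fun z => ∫⁻ y, k y z * M y with hS
  have hSm : Measurable S :=
    (hkm.mul (hMm.comp measurable_fst)).lintegral_prod_left'
  have hSfin : ∫⁻ z, S z ^ 2 ≠ ∞ := by
    refine (lt_of_le_of_lt (lintegral_mono fun z => ?_) (sum_sq_lt_top
      (fun j z => ∫⁻ y, P b (t j) (z - y) * M y) (hAm M hMm) (hAf M hMm hMfin)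
      (Finset.range (J + 1)))).ne
    simp only
    gcongr
    rw [← lintegral_finsetSum]
    · refine lintegral_mono fun y => ?_
      simp only
      rw [← Finset.sum_mul]
      gcongr
      refine (hkle y z).trans (le_of_eq ?_)
      exact Finset.sum_congr rfl fun j _ => P_sub_comm _ _ _ _
    · intro j _
      exact ((hPm j).comp (measurable_const.prodMk measurable_id)).mul hMm
  -- the identity for the pairing
  have hpair : ∫⁻ y, M y * M y = ∫⁻ z, S z * G z := by
    calc ∫⁻ y, M y * M y = ∫⁻ y, ∫⁻ z, M y * (k y z * G z) := by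
          refine lintegral_congr fun y => ?_
          rw [lintegral_const_mul _ (show Measurable fun z => k y z * G z from
            (hkm.comp (measurable_const.prodMk measurable_id)).mul hG)]
      _ = ∫⁻ z, ∫⁻ y, M y * (k y z * G z) := by
          rw [lintegral_lintegral_swap]
          exact ((hMm.comp measurable_fst).mul (hkm.mul (hG.comp measurable_snd))).aemeasurable
      _ = ∫⁻ z, S z * G z := by
          refine lintegral_congr fun z => ?_
          rw [hS]
          simp only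
          rw [← lintegral_mul_const _ (show Measurable fun y => k y z * M y from
            (hkm.comp (measurable_id.prodMk measurable_const)).mul hMm)]
          refine lintegral_congr fun y => ?_
          ring
  have hpairM : ∫⁻ z, S z * M z = ∫⁻ x, ∫⁻ y, M x * M y * k y x := by
    refine lintegral_congr fun x => ?_
    rw [hS]
    simp only
    rw [← lintegral_mul_const _ (show Measurable fun y => k y x * M y from
            (hkm.comp (measurable_id.prodMk measurable_const)).mul hMm)]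
    refine lintegral_congr fun y => ?_
    ring
  have hSS : ∫⁻ z, S z ^ 2 ≤ 2 * C * ∫⁻ z, S z * M z := by
    calc ∫⁻ z, S z ^ 2 = ∫⁻ z, ∫⁻ x, ∫⁻ y, M x * M y * (k x z * k y z) := by
          refine lintegral_congr fun z => ?_
          have hm1 : Measurable fun y => k y z * M y :=
            (hkm.comp (measurable_id.prodMk measurable_const)).mul hMm
          rw [sq, hS]
          simp only
          rw [← lintegral_mul_const _ hm1]
          refine lintegral_congr fun x => ?_
          rw [← lintegral_const_mul _ hm1]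
          refine lintegral_congr fun y => ?_
          ring
      _ = ∫⁻ x, ∫⁻ z, ∫⁻ y, M x * M y * (k x z * k y z) := by
          rw [lintegral_lintegral_swap]
          refine (Measurable.lintegral_prod_right' (f := fun q : (E n × E n) × E n =>
            M q.1.2 * M q.2 * (k q.1.2 q.1.1 * k q.2 q.1.1)) ?_).aemeasurable
          exact ((hMm.comp (measurable_snd.comp measurable_fst)).mul
            (hMm.comp measurable_snd)).mul ((hkm.comp ((measurable_snd.comp measurable_fst).prodMk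
            (measurable_fst.comp measurable_fst))).mul (hkm.comp (measurable_snd.prodMk
            (measurable_fst.comp measurable_fst))))
      _ = ∫⁻ x, ∫⁻ y, ∫⁻ z, M x * M y * (k x z * k y z) := by
          refine lintegral_congr fun x => ?_
          rw [lintegral_lintegral_swap]
          refine Measurable.aemeasurable ?_
          exact (measurable_const.mul (hMm.comp measurable_snd)).mul
            ((hkm.comp (measurable_const.prodMk measurable_fst)).mul
            (hkm.comp (measurable_snd.prodMk measurable_fst)))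
      _ = ∫⁻ x, ∫⁻ y, M x * M y * ∫⁻ z, k x z * k y z := by
          refine lintegral_congr fun x => lintegral_congr fun y => ?_
          rw [lintegral_const_mul]
          exact (hkm.comp (measurable_const.prodMk measurable_id)).mul
            (hkm.comp (measurable_const.prodMk measurable_id))
      _ ≤ ∫⁻ x, ∫⁻ y, M x * M y * (C * (k x y + k y x)) := by
          refine lintegral_mono fun x => lintegral_mono fun y => ?_
          gcongr
          exact hC _ _ (ht _) (ht _) x y
      _ = C * ((∫⁻ x, ∫⁻ y, M x * M y * k x y) + ∫⁻ x, ∫⁻ y, M x * M y * k y x) := by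
          have hm1 : Measurable fun q : E n × E n => M q.1 * M q.2 * k q.1 q.2 :=
            ((hMm.comp measurable_fst).mul (hMm.comp measurable_snd)).mul hkm
          have hm2 : Measurable fun q : E n × E n => M q.1 * M q.2 * k q.2 q.1 :=
            ((hMm.comp measurable_fst).mul (hMm.comp measurable_snd)).mul
              (hkm.comp (measurable_snd.prodMk measurable_fst))
          rw [← lintegral_add_left hm1.lintegral_prod_right', ← lintegral_const_mul' _ _
            ENNReal.coe_ne_top]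
          refine lintegral_congr fun x => ?_
          have hm3 : Measurable fun y => M x * M y * k x y :=
            hm1.comp (measurable_const.prodMk measurable_id)
          simp only
          rw [← lintegral_add_left hm3, ← lintegral_const_mul' _ _ ENNReal.coe_ne_top]
          refine lintegral_congr fun y => ?_
          ring
      _ = 2 * C * ∫⁻ z, S z * M z := by
          have hsw : ∫⁻ x, ∫⁻ y, M x * M y * k x y = ∫⁻ x, ∫⁻ y, M x * M y * k y x := by
            rw [lintegral_lintegral_swap]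
            · refine lintegral_congr fun x => lintegral_congr fun y => ?_
              ring
            · exact (((hMm.comp measurable_fst).mul (hMm.comp measurable_snd)).mul
                hkm).aemeasurable
          rw [hsw, ← hpairM]
          ring
  have hX : ∫⁻ z, S z ^ 2 ≤ (2 * C) ^ 2 * ∫⁻ z, M z ^ 2 := by
    apply sq_le_of_sq_le_mul hSfin
    calc (∫⁻ z, S z ^ 2) ^ 2 ≤ (2 * C * ∫⁻ z, S z * M z) ^ 2 := by gcongr
      _ = (2 * C) ^ 2 * (∫⁻ z, S z * M z) ^ 2 := by rw [mul_pow]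
      _ ≤ _ := by
        gcongr
        exact lint_cs volume hSm.aemeasurable hMm.aemeasurable
  have hY : ∫⁻ z, M z ^ 2 ≤ (2 * C) ^ 2 * ∫⁻ z, G z ^ 2 := by
    apply sq_le_of_sq_le_mul hMfin
    calc (∫⁻ z, M z ^ 2) ^ 2 = (∫⁻ z, S z * G z) ^ 2 := by
          rw [← hpair]
          simp only [sq (M _)]
      _ ≤ (∫⁻ z, S z ^ 2) * ∫⁻ z, G z ^ 2 :=
          lint_cs volume hSm.aemeasurable hG.aemeasurable
      _ ≤ (2 * C) ^ 2 * (∫⁻ z, M z ^ 2) * ∫⁻ z, G z ^ 2 := by gcongr
      _ = _ := by ring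
  calc ∫⁻ y, (⨆ j ≤ J, ∫⁻ z, P b (t j) (y - z) * G z) ^ 2 ≤ ∫⁻ y, M y ^ 2 := by
        refine lintegral_mono fun y => ?_
        simp only
        gcongr ?_ ^ 2
        exact hMeq y
    _ ≤ (2 * C) ^ 2 * ∫⁻ z, G z ^ 2 := hY
    _ ≤ _ := by
      gcongr
      push_cast
      exact le_self_add

end Pool.Agent.Q82.BT
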