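import Pool.Agent.Q82.BTLower

/-!
Relations between the quasi-norms.
-/

open MeasureTheory SchwartzMap
open scoped ENNReal NNReal FourierTransform SchwartzMap RealInnerProductSpace

namespace Pool.Agent.Q82.BT

variable {n : ℕ}

/-- the `p`-th power of the quasi-norm of `Λ^{pp}_α = F^{pp}_α` -/
noncomputable def bp (Φ : 𝓢(E n, ℂ)) (α p : ℝ) (u : E n → ℝ) : ℝ≥0∞ :=
  ∑' j : ℕ, ENNReal.ofReal (2 ^ (j * α * p)) * ∫⁻ x, ‖lpPiece Φ u j x‖ₑ ^ p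

theorem ofReal_two_rpow_rpow (j : ℕ) (α : ℝ) {p : ℝ} :
    ENNReal.ofReal (2 ^ (j * α)) ^ p = ENNReal.ofReal (2 ^ (j * α * p)) := by
  rw [ENNReal.ofReal_rpow_of_pos (by positivity), ← Real.rpow_mul two_pos.le]

theorem besovNorm_rpow (Φ : 𝓢(E n, ℂ)) (α : ℝ) {p : ℝ} (hp : 0 < p) (u : E n → ℝ) :
    besovNorm Φ α p p u ^ p = bp Φ α p u := by
  rw [besovNorm, bp, ← ENNReal.rpow_mul, one_div_mul_cancel hp.ne', ENNReal.rpow_one]
  refine tsum_congr fun j => ?_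
  rw [ENNReal.mul_rpow_of_nonneg _ _ hp.le, ← ENNReal.rpow_mul, one_div_mul_cancel hp.ne',
    ENNReal.rpow_one, ofReal_two_rpow_rpow]

theorem triebelNorm_pp (Φ : 𝓢(E n, ℂ)) (α : ℝ) {p : ℝ} (hp : 0 < p) {u : E n → ℝ} {B : ℝ}
    (hu : BC u B) : triebelNorm Φ α p p u ^ p = bp Φ α p u := by
  rw [triebelNorm_rpow Φ α hp, bp]
  have h1 : ∀ x, ((∑' j : ℕ, (ENNReal.ofReal (2 ^ (j * α)) * ‖lpPiece Φ u j x‖ₑ) ^ p) ^
      (1 / p)) ^ p = ∑' j : ℕ, ENNReal.ofReal (2 ^ (j * α * p)) * ‖lpPiece Φ u j x‖ₑ ^ p := by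
    intro x
    rw [← ENNReal.rpow_mul, one_div_mul_cancel hp.ne', ENNReal.rpow_one]
    refine tsum_congr fun j => ?_
    rw [ENNReal.mul_rpow_of_nonneg _ _ hp.le, ofReal_two_rpow_rpow]
  simp only [h1]
  rw [lintegral_tsum]
  · refine tsum_congr fun j => ?_
    rw [lintegral_const_mul' _ _ ENNReal.ofReal_ne_top]
  · intro j
    exact (((continuous_lpPiece Φ hu j).enorm.measurable.pow_const p).const_mul _).aemeasurable

theorem sum_rpow_le_rpow_sum {ι : Type*} (s : Finset ι) (f : ι → ℝ≥0∞) {p : ℝ} (hp : 1 ≤ p) :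
    ∑ i ∈ s, f i ^ p ≤ (∑ i ∈ s, f i) ^ p := by
  classical
  induction s using Finset.induction_on with
  | empty => simp
  | insert i s hi ih =>
    rw [Finset.sum_insert hi, Finset.sum_insert hi]
    refine le_trans ?_ (ENNReal.add_rpow_le_rpow_add _ _ hp)
    gcongr

theorem tsum_rpow_le_rpow_tsum {ι : Type*} (f : ι → ℝ≥0∞) {p : ℝ} (hp : 1 ≤ p) :
    ∑' i, f i ^ p ≤ (∑' i, f i) ^ p := by
  rw [ENNReal.tsum_eq_iSup_sum]
  refine iSup_le fun s => (sum_rpow_le_rpow_sum s f hp).trans ?_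
  gcongr
  exact ENNReal.sum_le_tsum _

theorem lq_le_lp {ι : Type*} (f : ι → ℝ≥0∞) {p q : ℝ} (hp : 0 < p) (hpq : p ≤ q) :
    (∑' i, f i ^ q) ^ (1 / q) ≤ (∑' i, f i ^ p) ^ (1 / p) := by
  have hq : 0 < q := hp.trans_le hpq
  have h1 : ∑' i, f i ^ q ≤ (∑' i, f i ^ p) ^ (q / p) := by
    have h2 := tsum_rpow_le_rpow_tsum (fun i => f i ^ p) (p := q / p)
      (by rw [le_div_iff₀ hp]; linarith)
    refine le_trans (le_of_eq (tsum_congr fun i => ?_)) h2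
    rw [← ENNReal.rpow_mul, mul_div_cancel₀ q hp.ne']
  calc (∑' i, f i ^ q) ^ (1 / q) ≤ ((∑' i, f i ^ p) ^ (q / p)) ^ (1 / q) := by gcongr
    _ = _ := by
      rw [← ENNReal.rpow_mul]
      congr 1
      field_simp

theorem triebelNorm_mono (Φ : 𝓢(E n, ℂ)) (α : ℝ) {p q : ℝ} (hp : 0 < p) (hpq : p ≤ q)
    (u : E n → ℝ) : triebelNorm Φ α p q u ^ p ≤ triebelNorm Φ α p p u ^ p := by
  rw [triebelNorm_rpow Φ α hp, triebelNorm_rpow Φ α hp]
  gcongr with x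
  exact lq_le_lp _ hp hpq

/-- linear combinations -/
theorem BC.smul_sum {ι : Type*} (s : Finset ι) (c : ι → ℝ) (w : ι → E n → ℝ) (B : ι → ℝ)
    (h : ∀ i ∈ s, BC (w i) (B i)) :
    BC (fun y => ∑ i ∈ s, c i * w i y) (∑ i ∈ s, |c i| * B i) where
  cont := continuous_finset_sum s fun i hi => ((h i hi).cont).const_mul _
  bdd x := by
    refine (Finset.abs_sum_le_sum_abs _ _).trans (Finset.sum_le_sum fun i hi => ?_)
    rw [abs_mul]
    exact mul_le_mul_of_nonneg_left ((h i hi).bdd x) (abs_nonneg _)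

theorem lpPiece_sum (Φ : 𝓢(E n, ℂ)) {ι : Type*} (s : Finset ι) (c : ι → ℝ) (w : ι → E n → ℝ)
    (B : ι → ℝ) (h : ∀ i ∈ s, BC (w i) (B i)) (j : ℕ) (x : E n) :
    lpPiece Φ (fun y => ∑ i ∈ s, c i * w i y) j x = ∑ i ∈ s, (c i : ℂ) * lpPiece Φ (w i) j x := by
  unfold lpPiece
  have h1 : ∀ i ∈ s, Integrable fun y => (c i : ℂ) * (lpKernel Φ j (x - y) * (w i y : ℂ)) :=
    fun i hi => (integrable_avg (integrable_lpKernel Φ j) (h i hi) x).const_mul _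
  calc ∫ y, lpKernel Φ j (x - y) * ((∑ i ∈ s, c i * w i y : ℝ) : ℂ) =
        ∫ y, ∑ i ∈ s, (c i : ℂ) * (lpKernel Φ j (x - y) * (w i y : ℂ)) := by
        refine integral_congr_ae (Filter.Eventually.of_forall fun y => ?_)
        simp only
        push_cast
        rw [Finset.mul_sum]
        refine Finset.sum_congr rfl fun i _ => ?_
        ring
    _ = _ := by
        rw [integral_finsetSum _ h1]
        refine Finset.sum_congr rfl fun i _ => ?_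
        rw [integral_const_mul]

theorem enorm_sum_rpow_le {ι : Type*} (s : Finset ι) (f : ι → ℂ) {p : ℝ} (hp : 0 < p)
    (hp1 : p ≤ 1) : ‖∑ i ∈ s, f i‖ₑ ^ p ≤ ∑ i ∈ s, ‖f i‖ₑ ^ p := by
  calc ‖∑ i ∈ s, f i‖ₑ ^ p ≤ (∑ i ∈ s, ‖f i‖ₑ) ^ p := by
        gcongr
        exact enorm_sum_le _ _
    _ ≤ _ := sum_rpow_le _ _ hp hp1

/-- the `p`-th power of the quasi-norm is subadditive -/
theorem bp_sum_le (Φ : 𝓢(E n, ℂ)) (α : ℝ) {p : ℝ} (hp : 0 < p) (hp1 : p ≤ 1) {ι : Type*}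
    (s : Finset ι) (c : ι → ℝ) (hc : ∀ i ∈ s, 0 ≤ c i) (w : ι → E n → ℝ)
    (B : ι → ℝ) (h : ∀ i ∈ s, BC (w i) (B i)) :
    bp Φ α p (fun y => ∑ i ∈ s, c i * w i y) ≤
      ∑ i ∈ s, ENNReal.ofReal (c i ^ p) * bp Φ α p (w i) := by
  unfold bp
  have h1 : ∀ j x, ‖lpPiece Φ (fun y => ∑ i ∈ s, c i * w i y) j x‖ₑ ^ p ≤
      ∑ i ∈ s, ENNReal.ofReal (c i ^ p) * ‖lpPiece Φ (w i) j x‖ₑ ^ p := by
    intro j x
    rw [lpPiece_sum Φ s c w B h j x]
    refine (enorm_sum_rpow_le s _ hp hp1).trans (Finset.sum_le_sum fun i hi => ?_)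
    rw [enorm_mul, ENNReal.mul_rpow_of_nonneg _ _ hp.le]
    gcongr
    rw [← ofReal_norm, Complex.norm_real, Real.norm_of_nonneg (hc i hi),
      ENNReal.ofReal_rpow_of_nonneg (hc i hi) hp.le]
  have h2 : ∀ j, ∫⁻ x, ‖lpPiece Φ (fun y => ∑ i ∈ s, c i * w i y) j x‖ₑ ^ p ≤
      ∑ i ∈ s, ENNReal.ofReal (c i ^ p) * ∫⁻ x, ‖lpPiece Φ (w i) j x‖ₑ ^ p := by
    intro j
    refine (lintegral_mono (h1 j)).trans (le_of_eq ?_)
    rw [lintegral_finsetSum' s (f := fun i x => ENNReal.ofReal (c i ^ p) *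
      ‖lpPiece Φ (w i) j x‖ₑ ^ p) (fun i hi =>
      (((continuous_lpPiece Φ (h i hi) j).enorm.measurable.pow_const p).const_mul _).aemeasurable)]
    refine Finset.sum_congr rfl fun i _ => ?_
    rw [lintegral_const_mul' _ _ ENNReal.ofReal_ne_top]
  calc ∑' j : ℕ, ENNReal.ofReal (2 ^ (j * α * p)) *
        ∫⁻ x, ‖lpPiece Φ (fun y => ∑ i ∈ s, c i * w i y) j x‖ₑ ^ p
      ≤ ∑' j : ℕ, ∑ i ∈ s, ENNReal.ofReal (c i ^ p) * (ENNReal.ofReal (2 ^ (j * α * p)) *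
          ∫⁻ x, ‖lpPiece Φ (w i) j x‖ₑ ^ p) := by
        refine ENNReal.tsum_le_tsum fun j => ?_
        calc _ ≤ ENNReal.ofReal (2 ^ (j * α * p)) *
              ∑ i ∈ s, ENNReal.ofReal (c i ^ p) * ∫⁻ x, ‖lpPiece Φ (w i) j x‖ₑ ^ p := by
              gcongr
              exact h2 j
          _ = _ := by
              rw [Finset.mul_sum]
              refine Finset.sum_congr rfl fun i _ => ?_
              ring
    _ = ∑ i ∈ s, ∑' j : ℕ, ENNReal.ofReal (c i ^ p) * (ENNReal.ofReal (2 ^ (j * α * p)) *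
          ∫⁻ x, ‖lpPiece Φ (w i) j x‖ₑ ^ p) := by
        rw [Summable.tsum_finsetSum]
        exact fun i _ => ENNReal.summable
    _ = _ := by
        refine Finset.sum_congr rfl fun i _ => ?_
        rw [ENNReal.tsum_mul_left]

end Pool.Agent.Q82.BT
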