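import Pool.Agent.Q82.BTMax
import Pool.Agent.Helper656.CapBlock

/-!
The Peetre inequality for band limited functions.
-/

open MeasureTheory SchwartzMap
open scoped ENNReal NNReal FourierTransform SchwartzMap RealInnerProductSpace

namespace Pool.Agent.Q82.BT

variable {n : ℕ}

open Pool.Agent.Helper656.Cap (pull pull_apply integral_mul_pull exists_decay)

/-- the scaled Schwartz function -/
noncomputable def sc (t : ℝ) (ht : 0 < t) (K : 𝓢(E n, ℂ)) : 𝓢(E n, ℂ) := pull 0 t ht K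

theorem sc_apply (t : ℝ) (ht : 0 < t) (K : 𝓢(E n, ℂ)) (y : E n) :
    sc t ht K y = scaled K t y := by
  rw [sc, pull_apply, zero_add]; rfl

theorem fourier_sc (t : ℝ) (ht : 0 < t) (K : 𝓢(E n, ℂ)) (ξ : E n) :
    𝓕 (sc t ht K) ξ = 𝓕 K (t⁻¹ • ξ) := by
  rw [sc, fourier_coe, fourier_coe, Real.fourier_eq', Real.fourier_eq']
  simp only [smul_eq_mul]
  rw [integral_mul_pull]
  refine integral_congr_ae (Filter.Eventually.of_forall fun z => ?_)
  simp only [sub_zero]
  congr 2
  rw [real_inner_smul_left, real_inner_smul_right]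

/-- the convolution of Schwartz functions -/
noncomputable def cv (f g : 𝓢(E n, ℂ)) : 𝓢(E n, ℂ) :=
  SchwartzMap.convolution (ContinuousLinearMap.mul ℂ ℂ) f g

theorem fourier_cv (f g : 𝓢(E n, ℂ)) (ξ : E n) : 𝓕 (cv f g) ξ = 𝓕 f ξ * 𝓕 g ξ := by
  rw [cv, SchwartzMap.fourier_convolution_apply]
  rw [Real.fourier_bilin_convolution_eq _ f.integrable g.integrable]
  rfl

theorem cv_apply (f g : 𝓢(E n, ℂ)) (x : E n) : cv f g x = ∫ y, f y * g (x - y) := by
  rw [cv, SchwartzMap.convolution_apply]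
  rfl

theorem cv_apply' (f g : 𝓢(E n, ℂ)) (x : E n) : cv f g x = ∫ y, f (x - y) * g y := by
  rw [cv_apply, ← integral_sub_left_eq_self (fun y => f y * g (x - y)) volume x]
  simp only [sub_sub_cancel]

theorem schwartz_ext_fourier {f g : 𝓢(E n, ℂ)} (h : ∀ ξ, 𝓕 f ξ = 𝓕 g ξ) : f = g := by
  have h0 : (𝓕 f : 𝓢(E n, ℂ)) = 𝓕 g := by ext ξ; exact h ξ
  have h1 : (𝓕⁻ (𝓕 f : 𝓢(E n, ℂ)) : 𝓢(E n, ℂ)) = f := FourierTransform.fourierInv_fourier_eq f
  have h2 : (𝓕⁻ (𝓕 g : 𝓢(E n, ℂ)) : 𝓢(E n, ℂ)) = g := FourierTransform.fourierInv_fourier_eq g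
  rw [← h1, h0, h2]

/-- the convolution of a kernel with a real function -/
noncomputable def avg (K : E n → ℂ) (u : E n → ℝ) (x : E n) : ℂ := ∫ y, K (x - y) * (u y : ℂ)

theorem avg_eq (K : E n → ℂ) (u : E n → ℝ) (x : E n) :
    avg K u x = ∫ y, K y * (u (x - y) : ℂ) := by
  unfold avg
  rw [← integral_sub_left_eq_self (fun y => K (x - y) * (u y : ℂ)) volume x]
  simp only [sub_sub_cancel]

/-- bounded continuous functions -/
structure BC (u : E n → ℝ) (B : ℝ) : Prop where
  cont : Continuous u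
  bdd : ∀ x, |u x| ≤ B

theorem BC.nonneg {u : E n → ℝ} {B : ℝ} (h : BC u B) : 0 ≤ B := (abs_nonneg _).trans (h.bdd 0)

theorem integrable_avg {K : E n → ℂ} (hK : Integrable K) {u : E n → ℝ} {B : ℝ} (hu : BC u B)
    (x : E n) : Integrable fun y => K (x - y) * (u y : ℂ) := by
  have h1 : Integrable fun y => K (x - y) := hK.comp_sub_left x
  refine (h1.norm.mul_const B).mono' ?_ (Filter.Eventually.of_forall fun y => ?_)
  · exact h1.aestronglyMeasurable.mul
      (Complex.continuous_ofReal.comp hu.cont).aestronglyMeasurable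
  · rw [norm_mul, Complex.norm_real]
    exact mul_le_mul_of_nonneg_left (hu.bdd y) (norm_nonneg _)

theorem norm_avg_le {K : E n → ℂ} (hK : Integrable K) {u : E n → ℝ} {B : ℝ} (hu : BC u B)
    (x : E n) : ‖avg K u x‖ ≤ (∫ y, ‖K y‖) * B := by
  unfold avg
  refine (norm_integral_le_integral_norm _).trans ?_
  have h1 : Integrable fun y => K (x - y) := hK.comp_sub_left x
  calc ∫ y, ‖K (x - y) * (u y : ℂ)‖ ≤ ∫ y, ‖K (x - y)‖ * B := by
        refine integral_mono (integrable_avg hK hu x).norm (h1.norm.mul_const B) fun y => ?_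
        simp only
        rw [norm_mul, Complex.norm_real]
        exact mul_le_mul_of_nonneg_left (hu.bdd y) (norm_nonneg _)
    _ = _ := by
        rw [integral_mul_const, integral_sub_left_eq_self (fun y => ‖K y‖) volume x]

theorem continuous_avg {K : E n → ℂ} (hK : Integrable K) {u : E n → ℝ} {B : ℝ} (hu : BC u B) :
    Continuous (avg K u) := by
  have h : avg K u = MeasureTheory.convolution K (fun x => (u x : ℂ))
      (ContinuousLinearMap.mul ℂ ℂ) volume := by
    funext x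
    rw [avg_eq]
    rfl
  rw [h]
  refine BddAbove.continuous_convolution_right_of_integrable _ ?_ hK
    (Complex.continuous_ofReal.comp hu.cont)
  refine ⟨B, ?_⟩
  rintro _ ⟨x, rfl⟩
  simp only
  rw [Complex.norm_real]
  exact hu.bdd x

/-- the reproducing formula -/
theorem reproduce {Ψ K : 𝓢(E n, ℂ)} (h : ∀ ξ, 𝓕 Ψ ξ * 𝓕 K ξ = 𝓕 K ξ) {u : E n → ℝ} {B : ℝ}
    (hu : BC u B) (x : E n) : avg K u x = ∫ z, Ψ (x - z) * avg K u z := by
  have hK : cv Ψ K = K := schwartz_ext_fourier fun ξ => by rw [fourier_cv, h]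
  have hint : Integrable (fun q : E n × E n => Ψ (x - q.2) * (K (q.2 - q.1) * (u q.1 : ℂ)))
      (volume.prod volume) := by
    have h1 : Integrable (fun q : E n × E n => Ψ (x - q.2) * K (q.2 - q.1))
        (volume.prod volume) := by
      have h2 : Integrable (fun q : E n × E n => Ψ q.2 * K (q.1 - q.2))
          (volume.prod volume) :=
        Ψ.integrable.convolution_integrand (ContinuousLinearMap.mul ℂ ℂ) K.integrable
      have e : MeasurePreserving (fun q : E n × E n => (x - q.1, x - q.2))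
          ((volume : Measure (E n)).prod volume) ((volume : Measure (E n)).prod volume) :=
        (Measure.measurePreserving_sub_left volume x).prod (Measure.measurePreserving_sub_left volume x)
      have h3 := e.integrable_comp_of_integrable h2
      refine h3.congr (Filter.Eventually.of_forall fun q => ?_)
      simp only [Function.comp_apply]
      congr 2
      abel
    refine (h1.norm.mul_const B).mono' ?_ (Filter.Eventually.of_forall fun q => ?_)
    · refine Continuous.aestronglyMeasurable ?_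
      have h4 := Ψ.continuous
      have h5 := K.continuous
      have h6 := hu.cont
      fun_prop
    · rw [← mul_assoc, norm_mul, Complex.norm_real]
      exact mul_le_mul_of_nonneg_left (hu.bdd _) (norm_nonneg _)
  calc avg K u x = ∫ y, (∫ z, Ψ (x - z) * (K (z - y) * (u y : ℂ))) := by
        unfold avg
        refine integral_congr_ae (Filter.Eventually.of_forall fun y => ?_)
        simp only
        conv_lhs => rw [← hK, cv_apply']
        rw [← integral_mul_const]
        rw [← integral_sub_right_eq_self (fun z => Ψ (x - y - z) * K z * (u y : ℂ)) y]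
        refine integral_congr_ae (Filter.Eventually.of_forall fun z => ?_)
        simp only [sub_sub_sub_cancel_right, mul_assoc]
    _ = ∫ z, ∫ y, Ψ (x - z) * (K (z - y) * (u y : ℂ)) := integral_integral_swap hint
    _ = _ := by
        refine integral_congr_ae (Filter.Eventually.of_forall fun z => ?_)
        simp only
        rw [integral_const_mul]
        rfl

theorem decay_rpow (Ψ : 𝓢(E n, ℂ)) (m : ℝ) :
    ∃ C : ℝ, 0 ≤ C ∧ ∀ w, ‖Ψ w‖ ≤ C * (1 + ‖w‖) ^ (-m) := by
  obtain ⟨L, hL⟩ := exists_nat_ge m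
  obtain ⟨C, hC, h⟩ := exists_decay Ψ L
  refine ⟨C, hC, fun w => ?_⟩
  have h1 : (1 : ℝ) ≤ 1 + ‖w‖ := by have := norm_nonneg w; linarith
  have h2 : (0 : ℝ) < (1 + ‖w‖) ^ L := by positivity
  have h3 : ‖Ψ w‖ ≤ C * ((1 + ‖w‖) ^ L)⁻¹ := by
    rw [← div_eq_mul_inv, le_div_iff₀ h2, mul_comm]; exact h w
  refine h3.trans (mul_le_mul_of_nonneg_left ?_ hC)
  rw [← Real.rpow_natCast, ← Real.rpow_neg (by positivity)]
  exact Real.rpow_le_rpow_of_exponent_le h1 (by linarith)

theorem enorm_sc_le (Ψ : 𝓢(E n, ℂ)) (m : ℝ) :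
    ∃ C : ℝ≥0, ∀ (t : ℝ) (ht : 0 < t) (w : E n), ‖sc t ht Ψ w‖ₑ ≤ C * P m t w := by
  obtain ⟨C, hC, h⟩ := decay_rpow Ψ m
  refine ⟨C.toNNReal, fun t ht w => ?_⟩
  rw [sc_apply, scaled, ← ofReal_norm, P, ← ENNReal.ofReal_coe_nnreal, Real.coe_toNNReal _ hC,
    ← ENNReal.ofReal_mul hC]
  apply ENNReal.ofReal_le_ofReal
  rw [norm_mul, Complex.norm_real, Real.norm_of_nonneg (by positivity)]
  have h1 := h (t • w)
  rw [norm_smul, Real.norm_of_nonneg ht.le] at h1
  calc t ^ n * ‖Ψ (t • w)‖ ≤ t ^ n * (C * (1 + t * ‖w‖) ^ (-m)) := by gcongr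
    _ = _ := by ring

theorem weight_real {t m r : ℝ} (ht : 0 < t) (hm : 0 < m) (x y z : E n) :
    t ^ n * (1 + t * ‖x - z‖) ^ (-m) * (1 + t * ‖z - y‖) ^ (m * (1 - r)) *
      (1 + t * ‖x - y‖) ^ (-m) ≤ t ^ n * (1 + t * ‖y - z‖) ^ (-(m * r)) := by
  set X := 1 + t * ‖x - z‖ with hX
  set Y := 1 + t * ‖x - y‖ with hY
  set Z := 1 + t * ‖y - z‖ with hZ
  have hX0 : 0 < X := by positivity
  have hY0 : 0 < Y := by positivity
  have hZ0 : 0 < Z := by positivity
  have e : 1 + t * ‖z - y‖ = Z := by rw [norm_sub_rev]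
  rw [e]
  have h1 : Z ≤ X * Y := by
    have h2 : ‖y - z‖ ≤ ‖x - z‖ + ‖x - y‖ := by
      rw [norm_sub_rev x y, add_comm]
      exact norm_sub_le_norm_sub_add_norm_sub y x z
    have h3 := mul_le_mul_of_nonneg_left h2 ht.le
    have h4 : 0 ≤ (t * ‖x - z‖) * (t * ‖x - y‖) := by positivity
    rw [hX, hY, hZ]
    nlinarith
  have h2 : X ^ (-m) * Y ^ (-m) ≤ Z ^ (-m) := by
    rw [← Real.mul_rpow hX0.le hY0.le]
    exact Real.rpow_le_rpow_of_nonpos hZ0 h1 (by linarith)
  calc t ^ n * X ^ (-m) * Z ^ (m * (1 - r)) * Y ^ (-m)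
      = t ^ n * Z ^ (m * (1 - r)) * (X ^ (-m) * Y ^ (-m)) := by ring
    _ ≤ t ^ n * Z ^ (m * (1 - r)) * Z ^ (-m) := by gcongr
    _ = t ^ n * (Z ^ (m * (1 - r)) * Z ^ (-m)) := by ring
    _ = _ := by
      rw [← Real.rpow_add hZ0]
      congr 2
      ring

theorem peetre (K Ψ : 𝓢(E n, ℂ)) (h : ∀ ξ, 𝓕 Ψ ξ * 𝓕 K ξ = 𝓕 K ξ) {r m : ℝ} (hr : 0 < r)
    (hr1 : r ≤ 1) (hm : 0 < m) : ∃ C : ℝ≥0, ∀ (t : ℝ) (ht : 0 < t) (u : E n → ℝ) (B : ℝ),
      BC u B → ∀ x y : E n, ‖avg (sc t ht K) u x‖ₑ ^ r ≤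
        C * (ENNReal.ofReal ((1 + t * ‖x - y‖) ^ (m * r)) *
          ∫⁻ z, P (m * r) t (y - z) * ‖avg (sc t ht K) u z‖ₑ ^ r) := by
  obtain ⟨C, hC⟩ := enorm_sc_le Ψ m
  refine ⟨C, fun t ht u B hu x y => ?_⟩
  set f := avg (sc t ht K) u with hf
  have hfc : Continuous f := continuous_avg (sc t ht K).integrable hu
  set F : E n → ℝ≥0∞ := fun z => ‖f z‖ₑ with hF
  have hFm : Measurable F := hfc.enorm.measurable
  have hrep : ∀ w, f w = ∫ z, sc t ht Ψ (w - z) * f z := fun w =>
    reproduce (fun ξ => by rw [fourier_sc, fourier_sc, h]) hu w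
  have hFle : ∀ w, F w ≤ ∫⁻ z, (C * P m t (w - z)) * F z := by
    intro w
    calc F w = ‖∫ z, sc t ht Ψ (w - z) * f z‖ₑ := by rw [hF]; simp only; rw [hrep w]
      _ ≤ ∫⁻ z, ‖sc t ht Ψ (w - z) * f z‖ₑ := enorm_integral_le_lintegral_enorm _
      _ ≤ _ := by
        refine lintegral_mono fun z => ?_
        rw [enorm_mul]
        gcongr
        exact hC t ht _
  set W : E n → ℝ≥0∞ := fun w => ENNReal.ofReal ((1 + t * ‖w - y‖) ^ (-m)) with hW
  set V : E n → ℝ≥0∞ := fun w => ENNReal.ofReal ((1 + t * ‖w - y‖) ^ m) with hV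
  have hWV : ∀ w, W w * V w = 1 := by
    intro w
    rw [hW, hV]
    simp only
    rw [← ENNReal.ofReal_mul (by positivity), ← Real.rpow_add (by positivity), neg_add_cancel,
      Real.rpow_zero, ENNReal.ofReal_one]
  have hW1 : ∀ w, W w ≤ 1 := by
    intro w
    rw [hW]
    simp only
    rw [← ENNReal.ofReal_one]
    apply ENNReal.ofReal_le_ofReal
    apply Real.rpow_le_one_of_one_le_of_nonpos
    · have : 0 ≤ t * ‖w - y‖ := by positivity
      linarith
    · linarith
  set S : ℝ≥0∞ := ⨆ w, F w * W w with hS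
  have hSle : ∀ w, F w * W w ≤ S := fun w => le_iSup (fun w => F w * W w) w
  have hSfin : S ≠ ∞ := by
    refine (lt_of_le_of_lt (iSup_le fun w => ?_) (ENNReal.ofReal_lt_top
      (r := (∫ y, ‖sc t ht K y‖) * B))).ne
    calc F w * W w ≤ F w * 1 := by gcongr; exact hW1 w
      _ = ENNReal.ofReal ‖f w‖ := by rw [mul_one, hF]; simp only; rw [ofReal_norm]
      _ ≤ _ := ENNReal.ofReal_le_ofReal (norm_avg_le (sc t ht K).integrable hu w)
  have hFS : ∀ w, F w ≤ S * V w := by
    intro w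
    calc F w = F w * (W w * V w) := by rw [hWV, mul_one]
      _ = F w * W w * V w := by ring
      _ ≤ _ := by gcongr; exact hSle w
  set I : ℝ≥0∞ := ∫⁻ z, P (m * r) t (y - z) * F z ^ r with hI
  have hr0 : 0 ≤ 1 - r := by linarith
  have hmain : ∀ w, F w * W w ≤ C * (S ^ (1 - r) * I) := by
    intro w
    have hpt : ∀ z, (C * P m t (w - z)) * F z * W w ≤
        C * S ^ (1 - r) * (P (m * r) t (y - z) * F z ^ r) := by
      intro z
      have h1 : F z ≤ F z ^ r * (S ^ (1 - r) * V z ^ (1 - r)) := by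
        calc F z = F z ^ (r + (1 - r)) := by rw [add_sub_cancel, ENNReal.rpow_one]
          _ = F z ^ r * F z ^ (1 - r) := ENNReal.rpow_add_of_nonneg _ _ hr.le hr0
          _ ≤ F z ^ r * (S * V z) ^ (1 - r) := by
            gcongr
            exact hFS z
          _ = _ := by rw [ENNReal.mul_rpow_of_nonneg _ _ hr0]
      have h2 : P m t (w - z) * V z ^ (1 - r) * W w ≤ P (m * r) t (y - z) := by
        have h3 : V z ^ (1 - r) = ENNReal.ofReal ((1 + t * ‖z - y‖) ^ (m * (1 - r))) := by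
          rw [hV]
          simp only
          rw [ENNReal.ofReal_rpow_of_pos (by positivity), ← Real.rpow_mul (by positivity)]
        rw [h3, hW, P, P]
        simp only
        rw [← ENNReal.ofReal_mul (by positivity), ← ENNReal.ofReal_mul (by positivity)]
        exact ENNReal.ofReal_le_ofReal (weight_real ht hm w y z)
      calc (C * P m t (w - z)) * F z * W w ≤
          (C * P m t (w - z)) * (F z ^ r * (S ^ (1 - r) * V z ^ (1 - r))) * W w := by gcongr
        _ = C * S ^ (1 - r) * ((P m t (w - z) * V z ^ (1 - r) * W w) * F z ^ r) := by ring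
        _ ≤ _ := by gcongr
    calc F w * W w ≤ (∫⁻ z, (C * P m t (w - z)) * F z) * W w := by
          gcongr; exact hFle w
      _ = ∫⁻ z, (C * P m t (w - z)) * F z * W w := by
          rw [lintegral_mul_const']
          rw [hW]; exact ENNReal.ofReal_ne_top
      _ ≤ ∫⁻ z, C * S ^ (1 - r) * (P (m * r) t (y - z) * F z ^ r) := lintegral_mono hpt
      _ = C * S ^ (1 - r) * I := by
          rw [lintegral_const_mul' _ _ (ENNReal.mul_ne_top ENNReal.coe_ne_top
            (ENNReal.rpow_ne_top_of_nonneg hr0 hSfin))]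
      _ = _ := by ring
  have hSr : S ^ r ≤ C * I := by
    rcases eq_or_ne S 0 with h0 | h0
    · rw [h0, ENNReal.zero_rpow_of_pos hr]; exact bot_le
    · have h1 : S ≤ C * (S ^ (1 - r) * I) := iSup_le hmain
      have h2 : S ^ (1 - r) ≠ 0 := by
        intro h3
        rcases ENNReal.rpow_eq_zero_iff.1 h3 with h4 | h4
        · exact h0 h4.1
        · exact hSfin h4.1
      have h3 : S ^ (1 - r) ≠ ∞ := ENNReal.rpow_ne_top_of_nonneg hr0 hSfin
      have h4 : S ^ (1 - r) * S ^ r ≤ S ^ (1 - r) * (C * I) := by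
        calc S ^ (1 - r) * S ^ r = S := by
              rw [← ENNReal.rpow_add_of_nonneg _ _ hr0 hr.le, sub_add_cancel, ENNReal.rpow_one]
          _ ≤ C * (S ^ (1 - r) * I) := h1
          _ = _ := by ring
      exact (ENNReal.mul_le_mul_iff_right h2 h3).1 h4
  have hVr : V x ^ r = ENNReal.ofReal ((1 + t * ‖x - y‖) ^ (m * r)) := by
    rw [hV]
    simp only
    rw [ENNReal.ofReal_rpow_of_pos (by positivity), ← Real.rpow_mul (by positivity)]
  calc F x ^ r ≤ (S * V x) ^ r := by gcongr; exact hFS x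
    _ = S ^ r * V x ^ r := ENNReal.mul_rpow_of_nonneg _ _ hr.le
    _ ≤ (C * I) * V x ^ r := by gcongr
    _ = C * (V x ^ r * I) := by ring
    _ = _ := by rw [hVr]

end Pool.Agent.Q82.BT
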