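import Pool.Agent.Q82.BTPeetre

/-!
The Littlewood-Paley pieces as averages, and the approximation `∑_{j ≤ J} φ_j * u → u`.
-/

open MeasureTheory SchwartzMap
open scoped ENNReal NNReal FourierTransform SchwartzMap RealInnerProductSpace

namespace Pool.Agent.Q82.BT

variable {n : ℕ}

open Pool.Agent.Helper656.Cap (pull bmp bmp_apply beta beta_eq_one beta_eq_zero)

/-- the difference kernel -/
noncomputable def theta (Φ : 𝓢(E n, ℂ)) : 𝓢(E n, ℂ) := sc 2 two_pos Φ - Φ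

/-- the profile of the kernel `j` -/
noncomputable def gen (Φ : 𝓢(E n, ℂ)) : ℕ → 𝓢(E n, ℂ)
  | 0 => Φ
  | _ + 1 => theta Φ

/-- the scale of the kernel `j` -/
noncomputable def scl : ℕ → ℝ
  | 0 => 1
  | j + 1 => 2 ^ j

theorem scl_pos (j : ℕ) : 0 < scl j := by
  cases j with
  | zero => exact one_pos
  | succ j => exact pow_pos two_pos j

theorem scl_le (j : ℕ) : scl j ≤ 2 ^ j := by
  cases j with
  | zero => simp [scl]
  | succ j =>
    simp only [scl]
    exact pow_le_pow_right₀ (by norm_num) (Nat.le_succ j)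

theorem lpKernel_eq (Φ : 𝓢(E n, ℂ)) (j : ℕ) :
    lpKernel Φ j = sc (scl j) (scl_pos j) (gen Φ j) := by
  funext x
  cases j with
  | zero =>
    rw [sc_apply]
    simp [lpKernel, scl, gen, scaled]
  | succ j =>
    rw [sc_apply]
    simp only [lpKernel, scl, gen, theta, scaled, sub_apply, sc_apply]
    rw [mul_sub, ← mul_assoc, ← Complex.ofReal_mul, smul_smul]
    congr 2
    · congr 1
      rw [← mul_pow, pow_succ, mul_comm]
    · rw [pow_succ, mul_comm]

theorem lpPiece_eq (Φ : 𝓢(E n, ℂ)) (u : E n → ℝ) (j : ℕ) (x : E n) :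
    lpPiece Φ u j x = avg (sc (scl j) (scl_pos j) (gen Φ j)) u x := by
  unfold lpPiece avg
  rw [lpKernel_eq]

theorem integrable_lpKernel (Φ : 𝓢(E n, ℂ)) (j : ℕ) : Integrable (lpKernel Φ j) := by
  rw [lpKernel_eq]
  exact SchwartzMap.integrable _

theorem continuous_lpPiece (Φ : 𝓢(E n, ℂ)) {u : E n → ℝ} {B : ℝ} (hu : BC u B) (j : ℕ) :
    Continuous (lpPiece Φ u j) := by
  have : lpPiece Φ u j = avg (sc (scl j) (scl_pos j) (gen Φ j)) u := by
    funext x; exact lpPiece_eq Φ u j x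
  rw [this]
  exact continuous_avg (SchwartzMap.integrable _) hu

/-- telescoping -/
theorem sum_lpKernel (Φ : 𝓢(E n, ℂ)) (J : ℕ) (x : E n) :
    ∑ j ∈ Finset.range (J + 1), lpKernel Φ j x = scaled Φ (2 ^ J) x := by
  induction J with
  | zero => simp [lpKernel, scaled]
  | succ J ih =>
    rw [Finset.sum_range_succ, ih]
    simp only [lpKernel]
    ring

theorem sum_lpPiece (Φ : 𝓢(E n, ℂ)) {u : E n → ℝ} {B : ℝ} (hu : BC u B) (J : ℕ) (x : E n) :
    ∑ j ∈ Finset.range (J + 1), lpPiece Φ u j x = ∫ y, Φ y * (u (x - (2 ^ J : ℝ)⁻¹ • y) : ℂ) := by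
  have h1 : ∑ j ∈ Finset.range (J + 1), lpPiece Φ u j x =
      avg (sc (2 ^ J) (by positivity) Φ) u x := by
    unfold lpPiece avg
    rw [← integral_finsetSum]
    · refine integral_congr_ae (Filter.Eventually.of_forall fun y => ?_)
      simp only
      rw [← Finset.sum_mul, sum_lpKernel, sc_apply]
    · intro j _
      exact integrable_avg (integrable_lpKernel Φ j) hu x
  rw [h1, avg_eq]
  have h2 := Pool.Agent.Helper656.Cap.integral_mul_pull (0 : E n)
    (show (0 : ℝ) < 2 ^ J by positivity) Φ (fun y => (u (x - y) : ℂ))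
  have h3 : ∫ y, (sc (2 ^ J) (by positivity) Φ) y * (u (x - y) : ℂ) =
      ∫ y, (u (x - y) : ℂ) * pull 0 (2 ^ J) (by positivity) Φ y :=
    integral_congr_ae (Filter.Eventually.of_forall fun y => mul_comm _ _)
  rw [h3, h2]
  refine integral_congr_ae (Filter.Eventually.of_forall fun y => ?_)
  simp only [sub_zero]
  rw [mul_comm]

theorem fourier_zero (Φ : 𝓢(E n, ℂ)) : 𝓕 Φ 0 = ∫ y, Φ y := by
  rw [fourier_coe, Real.fourier_eq']
  simp

theorem tendsto_lpSum {Φ : 𝓢(E n, ℂ)} (hΦ : IsGenerator Φ) {u : E n → ℝ} {B : ℝ} (hu : BC u B)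
    (x : E n) : Filter.Tendsto (fun J : ℕ => ∑ j ∈ Finset.range (J + 1), lpPiece Φ u j x)
      Filter.atTop (nhds (u x : ℂ)) := by
  have h0 : ∫ y, Φ y * (u x : ℂ) = (u x : ℂ) := by
    rw [integral_mul_const, ← fourier_zero, hΦ.eq_one.self_of_nhds, one_mul]
  rw [← h0]
  have e : (fun J : ℕ => ∑ j ∈ Finset.range (J + 1), lpPiece Φ u j x) =
      fun J : ℕ => ∫ y, Φ y * (u (x - (2 ^ J : ℝ)⁻¹ • y) : ℂ) := by
    funext J; exact sum_lpPiece Φ hu J x
  rw [e]
  refine tendsto_integral_of_dominated_convergence (fun y => ‖Φ y‖ * B) ?_ ?_ ?_ ?_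
  · intro J
    refine Continuous.aestronglyMeasurable ?_
    have h4 := Φ.continuous
    have h6 := hu.cont
    fun_prop
  · exact Φ.integrable.norm.mul_const B
  · intro J
    refine Filter.Eventually.of_forall fun y => ?_
    rw [norm_mul, Complex.norm_real]
    exact mul_le_mul_of_nonneg_left (hu.bdd _) (norm_nonneg _)
  · refine Filter.Eventually.of_forall fun y => ?_
    refine Filter.Tendsto.const_mul _ ?_
    refine (Complex.continuous_ofReal.tendsto _).comp ?_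
    refine (hu.cont.tendsto x).comp ?_
    have h1 : Filter.Tendsto (fun J : ℕ => (2 ^ J : ℝ)⁻¹) Filter.atTop (nhds 0) := by
      have := tendsto_pow_atTop_nhds_zero_of_lt_one (r := (1 / 2 : ℝ)) (by norm_num) (by norm_num)
      refine this.congr fun J => ?_
      rw [one_div, inv_pow]
    have h2 := (h1.smul_const y).const_sub x
    simpa using h2

/-- a Schwartz function whose Fourier transform is one on a large ball -/
theorem exists_psi (R : ℝ) (hR : 0 < R) : ∃ Ψ : 𝓢(E n, ℂ), ∀ ξ, ‖ξ‖ ≤ R → 𝓕 Ψ ξ = 1 := by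
  refine ⟨sc R hR (𝓕⁻ (bmp : 𝓢(E n, ℂ)) : 𝓢(E n, ℂ)), fun ξ hξ => ?_⟩
  rw [fourier_sc, FourierTransform.fourier_fourierInv_eq, bmp_apply, beta_eq_one]
  · simp
  · rw [abs_norm, norm_smul, norm_inv, Real.norm_of_nonneg hR.le, inv_mul_le_iff₀ hR, mul_one]
    exact hξ

theorem fourier_theta (Φ : 𝓢(E n, ℂ)) (ξ : E n) :
    𝓕 (theta Φ) ξ = 𝓕 Φ ((2 : ℝ)⁻¹ • ξ) - 𝓕 Φ ξ := by
  have : 𝓕 (theta Φ) = 𝓕 (sc 2 two_pos Φ) - 𝓕 Φ := by
    rw [theta, sub_eq_add_neg, FourierTransform.fourier_add, FourierTransform.fourier_neg,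
      ← sub_eq_add_neg]
  rw [this, sub_apply, fourier_sc]

theorem exists_radius {Φ : 𝓢(E n, ℂ)} (hΦ : IsGenerator Φ) :
    ∃ R : ℝ, 0 < R ∧ ∀ j ξ, R < ‖ξ‖ → 𝓕 (gen Φ j) ξ = 0 := by
  obtain ⟨R, hR⟩ := hΦ.compactSupport.isCompact.isBounded.subset_closedBall 0
  have h1 : ∀ ξ, R < ‖ξ‖ → 𝓕 Φ ξ = 0 := by
    intro ξ hξ
    by_contra h
    have := hR (subset_tsupport _ (Function.mem_support.2 h))
    rw [Metric.mem_closedBall, dist_zero_right] at this
    linarith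
  have h2 : ∀ ξ : E n, 2 * (|R| + 1) < ‖ξ‖ → 𝓕 Φ ξ = 0 := fun ξ hξ =>
    h1 ξ (by have := le_abs_self R; have := abs_nonneg R; linarith)
  refine ⟨2 * (|R| + 1), by positivity, fun j ξ hξ => ?_⟩
  cases j with
  | zero => exact h2 ξ hξ
  | succ j =>
    simp only [gen]
    rw [fourier_theta, h2 ξ hξ, h1, sub_zero]
    rw [norm_smul, norm_inv, Real.norm_of_nonneg two_pos.le]
    have := le_abs_self R
    linarith

/-- a common reproducing function -/
theorem exists_reproducing {Φ : 𝓢(E n, ℂ)} (hΦ : IsGenerator Φ) :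
    ∃ Ψ : 𝓢(E n, ℂ), ∀ j ξ, 𝓕 Ψ ξ * 𝓕 (gen Φ j) ξ = 𝓕 (gen Φ j) ξ := by
  obtain ⟨R, hR, h⟩ := exists_radius hΦ
  obtain ⟨Ψ, hΨ⟩ := exists_psi (n := n) R hR
  refine ⟨Ψ, fun j ξ => ?_⟩
  rcases le_or_gt ‖ξ‖ R with h1 | h1
  · rw [hΨ ξ h1, one_mul]
  · rw [h j ξ h1, mul_zero]

end Pool.Agent.Q82.BT
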