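import Pool.Agent.Q82.BTBlock

/-!
Truncation of Schwartz functions.
-/

open MeasureTheory SchwartzMap
open scoped ENNReal NNReal FourierTransform SchwartzMap RealInnerProductSpace

namespace Pool.Agent.Q82.BT

variable {n : ℕ}

open Pool.Agent.Helper656.Cap (pull pull_apply norm_iteratedFDeriv_pull bmp bmp_apply beta
  beta_eq_one beta_eq_zero)

/-- the cut off function at scale `R` -/
noncomputable def cut (R : ℝ) (hR : 0 < R) : 𝓢(E n, ℂ) :=
  ((R ^ n : ℝ) : ℂ) • pull 0 R⁻¹ (inv_pos.2 hR) bmp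

theorem cut_apply (R : ℝ) (hR : 0 < R) (x : E n) :
    cut R hR x = ((beta ‖R⁻¹ • x‖ : ℝ) : ℂ) := by
  have h1 : cut R hR x = ((R ^ n : ℝ) : ℂ) * pull 0 R⁻¹ (inv_pos.2 hR) bmp x := rfl
  rw [h1, pull_apply, bmp_apply, zero_add, ← mul_assoc, ← Complex.ofReal_mul, ← mul_pow,
    mul_inv_cancel₀ hR.ne', one_pow, Complex.ofReal_one, one_mul]

theorem cut_deriv (i : ℕ) : ∃ C : ℝ, 0 ≤ C ∧ ∀ (R : ℝ) (hR : 0 < R), 1 ≤ R → ∀ x : E n,
    ‖iteratedFDeriv ℝ i (cut R hR) x‖ ≤ C := by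
  refine ⟨SchwartzMap.seminorm ℝ 0 i (bmp : 𝓢(E n, ℂ)), apply_nonneg _ _, fun R hR h1 x => ?_⟩
  rw [cut, Pool.Agent.Helper656.Cap.iteratedFDeriv_smul_schwartz, norm_iteratedFDeriv_pull,
    Complex.norm_real, Real.norm_of_nonneg (by positivity), ← mul_assoc]
  have h2 : R ^ n * R⁻¹ ^ (n + i) ≤ 1 := by
    rw [pow_add, ← mul_assoc, ← mul_pow, mul_inv_cancel₀ hR.ne', one_pow, one_mul]
    exact pow_le_one₀ (by positivity) (inv_le_one_of_one_le₀ h1)
  calc _ ≤ 1 * SchwartzMap.seminorm ℝ 0 i (bmp : 𝓢(E n, ℂ)) := by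
        gcongr
        exact norm_iteratedFDeriv_le_seminorm ℝ _ _ _
    _ = _ := one_mul _

/-- the truncation -/
noncomputable def trunc (R : ℝ) (hR : 0 < R) (w : 𝓢(E n, ℂ)) : 𝓢(E n, ℂ) :=
  SchwartzMap.pairing (ContinuousLinearMap.mul ℂ ℂ) (cut R hR) w

theorem trunc_apply (R : ℝ) (hR : 0 < R) (w : 𝓢(E n, ℂ)) (x : E n) :
    trunc R hR w x = cut R hR x * w x := rfl

theorem trunc_eq (R : ℝ) (hR : 0 < R) (w : 𝓢(E n, ℂ)) (x : E n) (hx : ‖x‖ ≤ R) :
    trunc R hR w x = w x := by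
  rw [trunc_apply, cut_apply, beta_eq_one, Complex.ofReal_one, one_mul]
  rw [abs_norm, norm_smul, norm_inv, Real.norm_of_nonneg hR.le, inv_mul_le_iff₀ hR, mul_one]
  exact hx

theorem seminorm_trunc (w : 𝓢(E n, ℂ)) (k l : ℕ) : ∃ C : ℝ, 0 ≤ C ∧ ∀ (R : ℝ) (hR : 0 < R),
    1 ≤ R → SchwartzMap.seminorm ℝ k l (trunc R hR w - w) ≤ C / R := by
  choose D hD0 hD using fun i => cut_deriv (n := n) i
  set S : ℕ → ℝ := fun i => SchwartzMap.seminorm ℝ (k + 1) i w with hS
  have hS0 : ∀ i, 0 ≤ S i := fun i => apply_nonneg _ _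
  set C : ℝ := (∑ i ∈ Finset.range (l + 1), (l.choose i : ℝ) * D i * S (l - i)) + S l with hC
  have hC0 : 0 ≤ C := add_nonneg (Finset.sum_nonneg fun i _ => by
    have := hD0 i
    have := hS0 (l - i)
    positivity) (hS0 l)
  refine ⟨C, hC0, fun R hR h1 => ?_⟩
  refine SchwartzMap.seminorm_le_bound ℝ k l _ (by positivity) fun x => ?_
  rcases lt_or_ge ‖x‖ R with hx | hx
  · have h2 : (fun y => (trunc R hR w - w) y) =ᶠ[nhds x] fun _ => (0 : ℂ) := by
      have h3 : Metric.ball (0 : E n) R ∈ nhds x :=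
        Metric.isOpen_ball.mem_nhds (by rwa [Metric.mem_ball, dist_zero_right])
      filter_upwards [h3] with y hy
      rw [Metric.mem_ball, dist_zero_right] at hy
      have h4 : (trunc R hR w - w) y = trunc R hR w y - w y := rfl
      rw [h4, trunc_eq R hR w y hy.le, sub_self]
    have h5 : iteratedFDeriv ℝ l (fun y => (trunc R hR w - w) y) x =
        iteratedFDeriv ℝ l (fun _ : E n => (0 : ℂ)) x := (h2.iteratedFDeriv ℝ l).eq_of_nhds
    have h6 : iteratedFDeriv ℝ l (⇑(trunc R hR w - w)) x = 0 := by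
      rw [show (⇑(trunc R hR w - w) : E n → ℂ) = fun y => (trunc R hR w - w) y from rfl, h5]
      have : (fun _ : E n => (0 : ℂ)) = 0 := rfl
      rw [this]
      simp
    rw [h6, norm_zero, mul_zero]
    positivity
  · have h2 : iteratedFDeriv ℝ l (⇑(trunc R hR w - w)) x =
        iteratedFDeriv ℝ l (fun y => cut R hR y * w y) x - iteratedFDeriv ℝ l w x := by
      have h3 : (⇑(trunc R hR w - w) : E n → ℂ) = (fun y => cut R hR y * w y) - ⇑w := rfl
      rw [h3]
      apply iteratedFDeriv_sub_apply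
      · exact (((cut R hR).smooth l).mul (w.smooth l)).contDiffAt
      · exact (w.smooth l).contDiffAt
    have h4 : ‖iteratedFDeriv ℝ l (fun y => cut R hR y * w y) x‖ ≤
        ∑ i ∈ Finset.range (l + 1), (l.choose i : ℝ) * D i * ‖iteratedFDeriv ℝ (l - i) w x‖ := by
      refine (norm_iteratedFDeriv_mul_le (N := l) ((cut R hR).smooth l) (w.smooth l) x
        (n := l) le_rfl).trans ?_
      refine Finset.sum_le_sum fun i _ => ?_
      gcongr
      exact hD i R hR h1 x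
    have h5 : ∀ i, ‖x‖ ^ k * ‖iteratedFDeriv ℝ i w x‖ ≤ S i / R := by
      intro i
      rw [le_div_iff₀ hR]
      calc ‖x‖ ^ k * ‖iteratedFDeriv ℝ i w x‖ * R ≤ ‖x‖ ^ k * ‖iteratedFDeriv ℝ i w x‖ * ‖x‖ := by
            gcongr
        _ = ‖x‖ ^ (k + 1) * ‖iteratedFDeriv ℝ i w x‖ := by ring
        _ ≤ _ := SchwartzMap.le_seminorm ℝ (k + 1) i w x
    rw [h2]
    calc ‖x‖ ^ k * ‖iteratedFDeriv ℝ l (fun y => cut R hR y * w y) x - iteratedFDeriv ℝ l w x‖
        ≤ ‖x‖ ^ k * (∑ i ∈ Finset.range (l + 1), (l.choose i : ℝ) * D i *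
            ‖iteratedFDeriv ℝ (l - i) w x‖ + ‖iteratedFDeriv ℝ l w x‖) := by
          gcongr
          exact (norm_sub_le _ _).trans (add_le_add h4 le_rfl)
      _ = (∑ i ∈ Finset.range (l + 1), (l.choose i : ℝ) * D i *
            (‖x‖ ^ k * ‖iteratedFDeriv ℝ (l - i) w x‖)) + ‖x‖ ^ k * ‖iteratedFDeriv ℝ l w x‖ := by
          rw [mul_add, Finset.mul_sum]
          congr 1
          refine Finset.sum_congr rfl fun i _ => ?_
          ring
      _ ≤ (∑ i ∈ Finset.range (l + 1), (l.choose i : ℝ) * D i * (S (l - i) / R)) + S l / R := by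
          gcongr with i _
          · have := hD0 i
            positivity
          · exact h5 _
          · exact h5 _
      _ = C / R := by
          rw [hC, add_div, Finset.sum_div]
          congr 1
          refine Finset.sum_congr rfl fun i _ => ?_
          ring

theorem tendsto_trunc (w : 𝓢(E n, ℂ)) :
    Filter.Tendsto (fun k : ℕ => trunc ((k : ℝ) + 1) (by positivity) w - w) Filter.atTop
      (nhds 0) := by
  rw [(schwartz_withSeminorms ℝ (E n) ℂ).tendsto_nhds _ 0]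
  rintro ⟨k, l⟩ ε hε
  obtain ⟨C, hC0, hC⟩ := seminorm_trunc w k l
  have h1 : Filter.Tendsto (fun j : ℕ => C / ((j : ℝ) + 1)) Filter.atTop (nhds 0) := by
    have := (tendsto_one_div_add_atTop_nhds_zero_nat (𝕜 := ℝ)).const_mul C
    rw [mul_zero] at this
    refine this.congr fun j => ?_
    rw [mul_one_div]
  filter_upwards [h1.eventually (gt_mem_nhds hε)] with j hj
  rw [sub_zero]
  refine lt_of_le_of_lt (hC ((j : ℝ) + 1) (by positivity) ?_) hj
  have : (0 : ℝ) ≤ j := Nat.cast_nonneg j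
  linarith

/-- the weighted supremum tends to zero -/
theorem tendsto_ws (N : ℕ) {ι : Type*} {l : Filter ι} {v : ι → 𝓢(E n, ℂ)}
    (hv : Filter.Tendsto v l (nhds 0)) : Filter.Tendsto (fun i => ws N (v i)) l (nhds 0) := by
  set s : Seminorm ℝ 𝓢(E n, ℂ) := (Finset.Iic ((N, 0) : ℕ × ℕ)).sup
    (fun m => SchwartzMap.seminorm ℝ m.1 m.2) with hs
  have hsc : Continuous s := by
    have h1 : ∀ m : ℕ × ℕ, Continuous (SchwartzMap.seminorm ℝ m.1 m.2 : Seminorm ℝ 𝓢(E n, ℂ)) :=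
      fun m => (schwartz_withSeminorms ℝ (E n) ℂ).continuous_seminorm m
    exact Seminorm.continuous_finsetSup fun m _ => h1 m
  have h2 : Filter.Tendsto (fun i => ENNReal.ofReal (2 ^ N * s (v i))) l (nhds 0) := by
    have h3 := ((hsc.tendsto 0).comp hv).const_mul ((2 : ℝ) ^ N)
    rw [map_zero, mul_zero] at h3
    have h4 := ENNReal.tendsto_ofReal h3
    rwa [ENNReal.ofReal_zero] at h4
  refine tendsto_of_tendsto_of_tendsto_of_le_of_le tendsto_const_nhds h2 (fun i => bot_le)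
    fun i => ?_
  refine iSup_le fun z => ?_
  rw [wt, ← ofReal_norm, ← ENNReal.ofReal_mul (by positivity)]
  apply ENNReal.ofReal_le_ofReal
  have h5 := one_add_le_sup_seminorm_apply (𝕜 := ℝ) (m := ((N, 0) : ℕ × ℕ)) (k := N) (n := 0)
    le_rfl le_rfl (v i) z
  rw [norm_iteratedFDeriv_zero] at h5
  exact h5

theorem bc_schwartz {w : 𝓢(E n, ℂ)} {u : E n → ℝ} (hw : ∀ y, w y = ((u y : ℝ) : ℂ)) :
    BC u (SchwartzMap.seminorm ℝ 0 0 w) := by
  have h1 : u = fun y => (w y).re := by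
    funext y; rw [hw, Complex.ofReal_re]
  refine ⟨?_, fun x => ?_⟩
  · rw [h1]
    exact Complex.continuous_re.comp w.continuous
  · have h2 := norm_le_seminorm ℝ w x
    rw [hw, Complex.norm_real] at h2
    exact h2

theorem bp_add_le (Φ : 𝓢(E n, ℂ)) (α : ℝ) {p : ℝ} (hp : 0 < p) (hp1 : p ≤ 1)
    {u v : E n → ℝ} {B B' : ℝ} (hu : BC u B) (hv : BC v B') :
    bp Φ α p (fun y => u y + v y) ≤ bp Φ α p u + bp Φ α p v := by
  have h := bp_sum_le Φ α hp hp1 (Finset.univ : Finset Bool) (fun _ => 1)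
    (fun _ _ => zero_le_one) (fun b => if b then u else v) (fun b => if b then B else B')
    (fun b _ => by cases b <;> simpa)
  simpa using h

/-- truncation to compact support -/
theorem exists_trunc {Φ : 𝓢(E n, ℂ)} (hΦ : IsGenerator Φ) (α : ℝ) {p : ℝ} (hp : 0 < p)
    (hp1 : p ≤ 1) {w : 𝓢(E n, ℂ)} {u : E n → ℝ} (hw : ∀ y, w y = ((u y : ℝ) : ℂ)) (ρ : ℝ)
    {ε : ℝ≥0∞} (hε : 0 < ε) : ∃ u' : E n → ℝ, ContDiff ℝ (⊤ : ℕ∞) u' ∧ HasCompactSupport u' ∧
      (∀ x, ‖x‖ ≤ ρ → u' x = u x) ∧ bp Φ α p u' ≤ bp Φ α p u + ε := by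
  obtain ⟨C, N, m, hC⟩ := bp_schwartz hΦ α hp
  have h1 : Filter.Tendsto (fun k : ℕ => (C : ℝ≥0∞) *
      (ws N (trunc ((k : ℝ) + 1) (by positivity) w - w) ^ p +
        ws N (lap m (trunc ((k : ℝ) + 1) (by positivity) w - w)) ^ p)) Filter.atTop (nhds 0) := by
    have h2 := tendsto_ws N (tendsto_trunc w)
    have h3 : Filter.Tendsto (fun k : ℕ => lap m (trunc ((k : ℝ) + 1) (by positivity) w - w))
        Filter.atTop (nhds 0) := by
      have := ((lap m).continuous.tendsto (0 : 𝓢(E n, ℂ))).comp (tendsto_trunc w)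
      rwa [map_zero] at this
    have h4 := tendsto_ws N h3
    have h5 : Filter.Tendsto (fun x : ℝ≥0∞ => x ^ p) (nhds 0) (nhds 0) := by
      have := (ENNReal.continuous_rpow_const (y := p)).tendsto 0
      rwa [ENNReal.zero_rpow_of_pos hp] at this
    have h6 := ENNReal.Tendsto.const_mul (a := (C : ℝ≥0∞)) ((h5.comp h2).add (h5.comp h4))
      (Or.inr ENNReal.coe_ne_top)
    simpa using h6
  obtain ⟨k, hk1, hk2⟩ := ((h1.eventually (ge_mem_nhds hε)).and
    (Filter.eventually_ge_atTop ⌈ρ⌉₊)).exists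
  have hRpos : (0 : ℝ) < (k : ℝ) + 1 := by positivity
  set R : ℝ := (k : ℝ) + 1 with hR
  have hρ : ρ ≤ R := by
    have := Nat.le_ceil ρ
    have h2 : ((⌈ρ⌉₊ : ℕ) : ℝ) ≤ k := by exact_mod_cast hk2
    linarith
  set u' : E n → ℝ := fun y => beta ‖R⁻¹ • y‖ * u y with hu'
  have hw' : ∀ y, trunc R hRpos w y = ((u' y : ℝ) : ℂ) := by
    intro y
    rw [trunc_apply, cut_apply, hw, hu']
    push_cast
    rfl
  have hwd : ∀ y, (trunc R hRpos w - w) y = ((u' y - u y : ℝ) : ℂ) := by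
    intro y
    have h4 : (trunc R hRpos w - w) y = trunc R hRpos w y - w y := rfl
    rw [h4, hw', hw]
    push_cast
    rfl
  refine ⟨u', ?_, ?_, fun x hx => ?_, ?_⟩
  · have h2 : u' = fun y => (trunc R hRpos w y).re := by
      funext y; rw [hw', Complex.ofReal_re]
    rw [h2]
    exact Complex.reCLM.contDiff.comp ((trunc R hRpos w).smooth _)
  · apply HasCompactSupport.of_support_subset_isCompact (isCompact_closedBall (0 : E n) (2 * R))
    intro x hx
    rw [Metric.mem_closedBall, dist_zero_right]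
    by_contra h
    apply hx
    push Not at h
    have h3 : 2 < ‖R⁻¹ • x‖ := by
      rw [norm_smul, norm_inv, Real.norm_of_nonneg hRpos.le, lt_inv_mul_iff₀ hRpos, mul_comm]
      exact h
    rw [hu']
    simp only
    rw [beta_eq_zero (by nlinarith), zero_mul]
  · rw [hu']
    simp only
    rw [beta_eq_one, one_mul]
    rw [abs_norm, norm_smul, norm_inv, Real.norm_of_nonneg hRpos.le, inv_mul_le_iff₀ hRpos,
      mul_one]
    linarith
  · have h2 := bp_add_le Φ α hp hp1 (bc_schwartz hw) (bc_schwartz hwd)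
    have h3 : (fun y => u y + (u' y - u y)) = u' := by funext y; ring
    rw [h3] at h2
    refine h2.trans ?_
    gcongr
    exact (hC _ _ hwd).trans hk1

end Pool.Agent.Q82.BT
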