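import Pool.Agent.Q82.BTTrunc
import Pool.Agent.Q82.BTWeights
import Pool.Agent.Q82.BTGap

/-!
The upper bound for the capacities.
-/

open MeasureTheory SchwartzMap
open scoped ENNReal NNReal FourierTransform SchwartzMap RealInnerProductSpace

namespace Pool.Agent.Q82.BT

variable {n : ℕ}

open Pool.Agent.Helper656.Cap (Cube side_pos comb comb_apply dil_apply exists_cubes
  hausdorffContent summable_profile)

/-- the upper bound by the Hausdorff content -/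
theorem exists_competitor {Φ : 𝓢(E n, ℂ)} (hΦ : IsGenerator Φ) (hn : 1 ≤ n) {α p : ℝ}
    (hα : 0 < α) (hp : 0 < p) (hp1 : p ≤ 1) (hαp : α * p < n) :
    ∃ (C : ℝ≥0) (b₀ : ℝ≥0∞), 0 < b₀ ∧ ∀ (K : Set (E n)) (B : ℝ≥0∞), IsCompact K →
      hausdorffContent (n - α * p) K < B → B ≤ b₀ →
      ∃ u : E n → ℝ, ContDiff ℝ (⊤ : ℕ∞) u ∧ HasCompactSupport u ∧ (∀ x ∈ K, 1 ≤ u x) ∧
        bp Φ α p u ≤ C * B := by
  set d : ℝ := n - α * p with hd
  have hd0 : 0 < d := by linarith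
  obtain ⟨L, hLd⟩ := exists_nat_gt d
  obtain ⟨A, M₀, hA, hM₀, hblock⟩ := exists_block' (n := n) hn L
  obtain ⟨δ₀, hδ₀, hW⟩ := exists_weights' n d p hd0 hp hp1 (fun s => 1 / (1 + |s|) ^ L)
    (fun s => by positivity)
    (fun s t hs hst => by
      rw [abs_of_nonneg hs, abs_of_nonneg (hs.trans hst)]
      gcongr) (summable_profile hLd)
  obtain ⟨μ, hμ1, hμ2⟩ : ∃ μ : ℕ, M₀ ≤ 2 ^ μ ∧ A / (2 ^ μ) ^ n * ((2 : ℝ) ^ μ) ^ d ≤ δ₀ := by
    have h1 : Filter.Tendsto (fun μ : ℕ => (2 : ℝ) ^ μ) Filter.atTop Filter.atTop :=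
      tendsto_pow_atTop_atTop_of_one_lt one_lt_two
    have h2 : Filter.Tendsto (fun μ : ℕ => A * ((2 : ℝ) ^ μ) ^ (-(α * p))) Filter.atTop
        (nhds (A * 0)) :=
      ((tendsto_rpow_neg_atTop (by positivity)).comp h1).const_mul A
    rw [mul_zero] at h2
    obtain ⟨μ, h3, h4⟩ := ((h1.eventually_ge_atTop M₀).and (h2.eventually_le_const hδ₀)).exists
    refine ⟨μ, h3, le_trans (le_of_eq ?_) h4⟩
    have h5 : (0 : ℝ) < 2 ^ μ := by positivity
    rw [div_mul_eq_mul_div, mul_div_assoc, ← Real.rpow_natCast _ n, ← Real.rpow_sub h5, hd]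
    congr 2
    ring
  obtain ⟨w, ω, hwω, hω1, hω2, hgap⟩ := hblock (2 ^ μ) hμ1
  obtain ⟨C₁, l₀, hl₀, hC₁⟩ := bp_block hΦ (α := α) hp hwω
    (inv_pos.2 (show (0 : ℝ) < 2 ^ μ by positivity)) hgap
  obtain ⟨Cc, hCc⟩ := exists_cubes (n := n) d hd0
  have hM : (0 : ℝ) < 2 ^ μ := by positivity
  refine ⟨C₁ * 18 * Cc + 1, ENNReal.ofReal (l₀ ^ d / 8) / (Cc + 1), ?_, fun K B hK hB hBb => ?_⟩
  · apply ENNReal.div_pos
    · rw [Ne, ENNReal.ofReal_eq_zero, not_le]; positivity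
    · exact ENNReal.add_ne_top.2 ⟨ENNReal.coe_ne_top, ENNReal.one_ne_top⟩
  obtain ⟨T₀, Ω, hΩ, hKΩ, hcov, hcost⟩ := hCc K hK B hB
  obtain ⟨T, lam, hlam, hge, hsum, hside⟩ := hW μ (A / (2 ^ μ) ^ n) (by positivity) hμ2
    (fun Q y => ω ((Cube.side Q)⁻¹ • (y - Cube.center Q)))
    (by
      intro Q y hy
      apply hω1
      have h1 := Pool.Agent.Helper656.Cap.Cube.norm_sub_center_le Q y hy
      rw [norm_smul, norm_inv, Real.norm_of_nonneg (side_pos Q).le, inv_mul_le_iff₀ (side_pos Q)]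
      rwa [mul_comm])
    (by
      intro Q y
      refine le_trans (le_of_eq ?_) (hω2 _)
      rw [norm_smul, norm_inv, Real.norm_of_nonneg (side_pos Q).le]
      have h1 : ‖y - Cube.center Q‖ / (2 ^ μ * Cube.side Q) =
        (Cube.side Q)⁻¹ * ‖y - Cube.center Q‖ / 2 ^ μ := by
        have := (side_pos Q).ne'
        field_simp
      have h2 : 0 ≤ (Cube.side Q)⁻¹ * ‖y - Cube.center Q‖ / 2 ^ μ := by
        have := side_pos Q
        positivity
      rw [h1, abs_of_nonneg h2, mul_one_div]) T₀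
  set S₀ := ∑ Q ∈ T₀, Cube.side Q ^ d with hS₀
  have hS₀0 : 0 ≤ S₀ := Finset.sum_nonneg fun Q _ => Real.rpow_nonneg (side_pos Q).le _
  -- the sides are small
  have hS₀le : S₀ ≤ l₀ ^ d / 8 := by
    have h1 : ENNReal.ofReal S₀ ≤ ENNReal.ofReal (l₀ ^ d / 8) := by
      refine hcost.trans ?_
      calc (Cc : ℝ≥0∞) * B ≤ (Cc + 1) * (ENNReal.ofReal (l₀ ^ d / 8) / (Cc + 1)) := by
            gcongr
            exact le_self_add
        _ = _ := ENNReal.mul_div_cancel (by simp) (ENNReal.add_ne_top.2 ⟨ENNReal.coe_ne_top,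
            ENNReal.one_ne_top⟩)
    exact (ENNReal.ofReal_le_ofReal_iff (by positivity)).1 h1
  have hsl : ∀ i ∈ T, Cube.side i.2 ≤ l₀ := by
    intro i hi
    have h1 : Cube.side i.2 ^ d ≤ l₀ ^ d := by
      have := hside i hi
      linarith
    exact (Real.rpow_le_rpow_iff (side_pos i.2).le hl₀.le hd0).1 h1
  set u : E n → ℝ := fun y => ∑ i ∈ T, lam i * ω ((Cube.side i.2)⁻¹ • (y - Cube.center i.2))
    with hu
  have hui : ∀ i ∈ T, BC (fun y => ω ((Cube.side i.2)⁻¹ • (y - Cube.center i.2)))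
      (SchwartzMap.seminorm ℝ 0 0 w) := by
    intro i _
    have h1 := bc_schwartz hwω
    have h2 := h1.cont
    exact ⟨by fun_prop, fun x => h1.bdd _⟩
  have hbp : bp Φ α p u ≤ C₁ * ENNReal.ofReal (18 * S₀) := by
    refine (bp_sum_le Φ α hp hp1 T lam hlam _ (fun _ => SchwartzMap.seminorm ℝ 0 0 w)
      hui).trans ?_
    calc ∑ i ∈ T, ENNReal.ofReal (lam i ^ p) *
          bp Φ α p (fun y => ω ((Cube.side i.2)⁻¹ • (y - Cube.center i.2)))
        ≤ ∑ i ∈ T, ENNReal.ofReal (lam i ^ p) *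
            (C₁ * ENNReal.ofReal (Cube.side i.2 ^ ((n : ℝ) - α * p))) := by
          refine Finset.sum_le_sum fun i hi => ?_
          gcongr
          exact hC₁ _ (side_pos i.2) (hsl i hi) _
      _ = C₁ * ENNReal.ofReal (∑ i ∈ T, lam i ^ p * Cube.side i.2 ^ d) := by
          rw [ENNReal.ofReal_sum_of_nonneg, Finset.mul_sum]
          · refine Finset.sum_congr rfl fun i hi => ?_
            rw [ENNReal.ofReal_mul (Real.rpow_nonneg (hlam i hi) _)]
            ring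
          · intro i hi
            exact mul_nonneg (Real.rpow_nonneg (hlam i hi) _) (Real.rpow_nonneg (side_pos _).le _)
      _ ≤ _ := by gcongr
  have huS : ∀ y, comb T (fun i => lam i * Cube.side i.2 ^ n) w y = ((u y : ℝ) : ℂ) := by
    intro y
    rw [comb_apply, hu]
    push_cast
    refine Finset.sum_congr rfl fun i _ => ?_
    rw [dil_apply, hwω]
    have h1 : ((Cube.side i.2 : ℝ) : ℂ) ≠ 0 := by exact_mod_cast (side_pos i.2).ne'
    have h2 : ((Cube.side i.2 : ℝ) : ℂ) ^ n * (((Cube.side i.2)⁻¹ : ℝ) : ℂ) ^ n = 1 := by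
      rw [← mul_pow, Complex.ofReal_inv, mul_inv_cancel₀ h1, one_pow]
    calc _ = ((lam i : ℝ) : ℂ) * (((Cube.side i.2 : ℝ) : ℂ) ^ n *
          (((Cube.side i.2)⁻¹ : ℝ) : ℂ) ^ n) *
          ((ω ((Cube.side i.2)⁻¹ • (y - Cube.center i.2)) : ℝ) : ℂ) := by
          push_cast
          ring
      _ = _ := by rw [h2, mul_one]
  obtain ⟨ρ, hρ⟩ := hK.isBounded.subset_closedBall (0 : E n)
  have hBpos : 0 < B := lt_of_le_of_lt bot_le hB
  obtain ⟨u', h1, h2, h3, h4⟩ := exists_trunc hΦ α hp hp1 huS ρ hBpos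
  refine ⟨u', h1, h2, fun x hx => ?_, ?_⟩
  · have h5 := hρ hx
    rw [Metric.mem_closedBall, dist_zero_right] at h5
    rw [h3 x h5]
    obtain ⟨Q, hQ, hxQ⟩ := hcov x (hKΩ hx)
    exact hge Q hQ x hxQ
  · calc bp Φ α p u' ≤ bp Φ α p u + B := h4
      _ ≤ C₁ * ENNReal.ofReal (18 * S₀) + B := by gcongr
      _ = C₁ * (18 * ENNReal.ofReal S₀) + B := by
          rw [ENNReal.ofReal_mul (by norm_num), ENNReal.ofReal_ofNat]
      _ ≤ C₁ * (18 * (Cc * B)) + B := by gcongr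
      _ = _ := by push_cast; ring

end Pool.Agent.Q82.BT
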