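import Mathlib

/-! # Schreier graphs of the basilica group: definitions -/

namespace Q82.Bas

open MeasureTheory Filter Topology

noncomputable section

/-- words of length `n` over the alphabet `{0, 1}` (`0` is `false`, `1` is `true`) -/
inductive Word : ℕ → Type
  | nil : Word 0
  | cons {n : ℕ} : Bool → Word n → Word (n + 1)

namespace Word

instance instDec (n : ℕ) : DecidableEq (Word n) := Classical.decEq _

/-- a nonempty word is a letter followed by a word -/
def consEquiv (n : ℕ) : Bool × Word n ≃ Word (n + 1) where
  toFun p := cons p.1 p.2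
  invFun
    | cons x w => (x, w)
  left_inv _ := rfl
  right_inv
    | cons _ _ => rfl

instance instFin : ∀ n, Fintype (Word n)
  | 0 => ⟨{nil}, fun | nil => by simp⟩
  | n + 1 => @Fintype.ofEquiv _ _ (@instFintypeProd Bool (Word n) _ (instFin n)) (consEquiv n)

end Word

open Word

/-- the action of the generators `a` (= `act false`) and `b` (= `act true`) on words -/
def act : Bool → ∀ {n : ℕ}, Word n → Word n
  | _, _, nil => nil
  | false, _, cons false w => cons false w
  | false, _, cons true w => cons true (act true w)
  | true, _, cons false w => cons true w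
  | true, _, cons true w => cons false (act false w)

/-- the adjacency matrix of the Schreier graph: `adj n x y` is the number of
`s ∈ {a, a⁻¹, b, b⁻¹}` with `s x = y` -/
def adj (n : ℕ) (x y : Word n) : ℕ :=
  ∑ s : Bool, ((if act s x = y then 1 else 0) + (if act s y = x then 1 else 0))

/-- the Laplacian `1 - A/4` of the Schreier graph -/
def lap (n : ℕ) : Matrix (Word n) (Word n) ℂ := fun x y =>
  (if x = y then 1 else 0) - (adj n x y : ℂ) / 4

theorem lap_herm (n : ℕ) : (lap n).IsHermitian := by
  ext x y
  have h1 : adj n y x = adj n x y := by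
    unfold adj
    apply Finset.sum_congr rfl
    intro s _
    rw [add_comm]
  rw [Matrix.conjTranspose_apply]
  unfold lap
  rw [h1]
  by_cases h : x = y
  · simp [h]
  · simp [h, Ne.symm h]

/-- the eigenvalues of the Laplacian (with multiplicity) -/
def ev (n : ℕ) : Word n → ℝ := (lap_herm n).eigenvalues

/-- `μ` is the weak limit of the spectral counting measures -/
def IsKNS (μ : Measure ℝ) : Prop :=
  ∀ f : ℝ → ℝ, Continuous f → (∃ M, ∀ t, |f t| ≤ M) →
    Tendsto (fun n => (∑ i, f (ev n i)) / 2 ^ n) atTop (𝓝 (∫ t, f t ∂μ))

end

end Q82.Bas
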