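import Pool.Agent.Q82.EigCount
import Pool.Agent.Q82.BasDef

/-! # Schreier graphs of the basilica group -/

namespace Q82.Bas

open scoped InnerProductSpace

noncomputable section

/-! ## Operators with phases on a finite set with two permutations -/

section Phase

set_option linter.unusedSectionVars false

variable {X : Type*} [Fintype X] [DecidableEq X]

/-- the operator `1 - A/4` with phases -/
def H (σ : Bool → X ≃ X) (φ : Bool → X → ℂ) : Matrix X X ℂ := fun x y =>
  (if x = y then 1 else 0) - (1 / 4) * ∑ s, ((if σ s x = y then φ s x else 0) +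
    (if σ s y = x then star (φ s y) else 0))

lemma herm (σ : Bool → X ≃ X) (φ : Bool → X → ℂ) : (H σ φ).IsHermitian := by
  ext x y
  rw [Matrix.conjTranspose_apply]
  unfold H
  rw [star_sub, star_mul', star_sum]
  congr 1
  · by_cases h : x = y
    · simp [h]
    · simp [h, Ne.symm h]
  · congr 1
    · simp
    · apply Finset.sum_congr rfl
      intro s _
      rw [star_add, add_comm]
      congr 1
      · split_ifs <;> simp
      · split_ifs <;> simp

lemma app_eq (σ : Bool → X ≃ X) (φ : Bool → X → ℂ) (f : EuclideanSpace ℂ X) (x : X) :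
    Matrix.toEuclideanLin (H σ φ) f x = f x - (1 / 4) * ∑ s, (φ s x * f (σ s x) +
      star (φ s ((σ s).symm x)) * f ((σ s).symm x)) := by
  have h1 : Matrix.toEuclideanLin (H σ φ) f x = ∑ y, H σ φ x y * f y := by
    simp [Matrix.toEuclideanLin, Matrix.toLin'_apply, Matrix.mulVec, dotProduct]
  rw [h1]
  unfold H
  simp only [sub_mul, Finset.sum_sub_distrib, ite_mul, one_mul, zero_mul, Finset.sum_ite_eq,
    Finset.mem_univ, if_true]
  congr 1
  simp only [mul_assoc, Finset.sum_mul, ← Finset.mul_sum]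
  congr 1
  rw [Finset.sum_comm]
  apply Finset.sum_congr rfl
  intro s _
  simp only [add_mul, Finset.sum_add_distrib, ite_mul, zero_mul, Finset.sum_ite_eq,
    Finset.mem_univ, if_true]
  congr 1
  rw [Finset.sum_eq_single ((σ s).symm x)]
  · simp
  · intro y _ hy
    rw [if_neg]
    intro h
    exact hy (by rw [← h]; simp)
  · simp

/-- multiplication by a function -/
def G (g : X → ℂ) (f : EuclideanSpace ℂ X) : EuclideanSpace ℂ X := WithLp.toLp 2 fun x => g x * f x

lemma G_apply (g : X → ℂ) (f : EuclideanSpace ℂ X) (x : X) : G g f x = g x * f x := rfl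

lemma norm_G (g : X → ℂ) (hg : ∀ x, ‖g x‖ = 1) (f : EuclideanSpace ℂ X) : ‖G g f‖ = ‖f‖ := by
  rw [← sq_eq_sq₀ (norm_nonneg _) (norm_nonneg _), EuclideanSpace.norm_sq_eq,
    EuclideanSpace.norm_sq_eq]
  apply Finset.sum_congr rfl
  intro x _
  rw [G_apply, norm_mul, hg, one_mul]

lemma gauge (σ : Bool → X ≃ X) (φ φ' : Bool → X → ℂ) (g : X → ℂ) (hg : ∀ x, ‖g x‖ = 1)
    (h : ∀ s x, φ' s x = g x * φ s x * star (g (σ s x))) (f : EuclideanSpace ℂ X) :
    Matrix.toEuclideanLin (H σ φ') (G g f) = G g (Matrix.toEuclideanLin (H σ φ) f) := by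
  have hg' : ∀ x, star (g x) * g x = 1 := by
    intro x
    have := Complex.conj_mul' (g x)
    rw [hg x] at this
    simpa using this
  ext x
  rw [app_eq, G_apply, G_apply, app_eq, mul_sub, mul_left_comm (g x)]
  congr 2
  rw [Finset.mul_sum]
  apply Finset.sum_congr rfl
  intro s _
  rw [h, h, G_apply, G_apply, star_mul', star_mul', star_star, Equiv.apply_symm_apply]
  linear_combination (g x * φ s x * f (σ s x)) * hg' (σ s x) +
    (star (φ s ((σ s).symm x)) * g x * f ((σ s).symm x)) * hg' ((σ s).symm x)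

lemma four (a b c d : ℂ) : ‖a + b + (c + d)‖ ^ 2 ≤ 4 * (‖a‖ ^ 2 + ‖b‖ ^ 2 + (‖c‖ ^ 2 + ‖d‖ ^ 2)) := by
  have h1 : ‖a + b + (c + d)‖ ≤ ‖a‖ + ‖b‖ + (‖c‖ + ‖d‖) :=
    (norm_add_le _ _).trans (add_le_add (norm_add_le _ _) (norm_add_le _ _))
  have h2 := pow_le_pow_left₀ (norm_nonneg _) h1 2
  nlinarith [sq_nonneg (‖a‖ - ‖b‖), sq_nonneg (‖a‖ - ‖c‖), sq_nonneg (‖a‖ - ‖d‖),
    sq_nonneg (‖b‖ - ‖c‖), sq_nonneg (‖b‖ - ‖d‖), sq_nonneg (‖c‖ - ‖d‖)]

lemma diff_le (σ : Bool → X ≃ X) (φ φ' : Bool → X → ℂ) (f : EuclideanSpace ℂ X) :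
    ‖Matrix.toEuclideanLin (H σ φ) f - Matrix.toEuclideanLin (H σ φ') f‖ ^ 2 ≤
    (1 / 4) * ∑ s, ∑ x, ‖φ s x - φ' s x‖ ^ 2 * (‖f (σ s x)‖ ^ 2 + ‖f x‖ ^ 2) := by
  rw [EuclideanSpace.norm_sq_eq]
  have h1 : ∀ x, ‖(Matrix.toEuclideanLin (H σ φ) f - Matrix.toEuclideanLin (H σ φ') f) x‖ ^ 2 ≤
      (1 / 4) * ∑ s, (‖φ s x - φ' s x‖ ^ 2 * ‖f (σ s x)‖ ^ 2 +
        ‖φ s ((σ s).symm x) - φ' s ((σ s).symm x)‖ ^ 2 * ‖f ((σ s).symm x)‖ ^ 2) := by
    intro x
    have h2 : (Matrix.toEuclideanLin (H σ φ) f - Matrix.toEuclideanLin (H σ φ') f) x =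
        (-(1 / 4) : ℂ) * (((φ true x - φ' true x) * f (σ true x) +
          star (φ true ((σ true).symm x) - φ' true ((σ true).symm x)) * f ((σ true).symm x)) +
          ((φ false x - φ' false x) * f (σ false x) +
          star (φ false ((σ false).symm x) - φ' false ((σ false).symm x)) *
            f ((σ false).symm x))) := by
      have e1 : (Matrix.toEuclideanLin (H σ φ) f - Matrix.toEuclideanLin (H σ φ') f) x =
        Matrix.toEuclideanLin (H σ φ) f x - Matrix.toEuclideanLin (H σ φ') f x := rfl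
      rw [e1, app_eq, app_eq]
      simp only [Fintype.sum_bool, star_sub]
      ring
    rw [h2, norm_mul, mul_pow]
    have h3 := four ((φ true x - φ' true x) * f (σ true x))
      (star (φ true ((σ true).symm x) - φ' true ((σ true).symm x)) * f ((σ true).symm x))
      ((φ false x - φ' false x) * f (σ false x))
      (star (φ false ((σ false).symm x) - φ' false ((σ false).symm x)) * f ((σ false).symm x))
    simp only [norm_mul, norm_star, mul_pow] at h3
    have h4 : ‖(-(1 / 4) : ℂ)‖ ^ 2 = 1 / 16 := by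
      rw [norm_neg]; norm_num
    rw [h4, Fintype.sum_bool]
    linarith
  refine (Finset.sum_le_sum fun x _ => h1 x).trans (le_of_eq ?_)
  rw [← Finset.mul_sum, Finset.sum_comm]
  congr 1
  apply Finset.sum_congr rfl
  intro s _
  simp only [mul_add]
  rw [Finset.sum_add_distrib, Finset.sum_add_distrib]
  congr 1
  exact Equiv.sum_comp (σ s).symm fun y => ‖φ s y - φ' s y‖ ^ 2 * ‖f y‖ ^ 2

lemma diff_unif (σ : Bool → X ≃ X) (φ φ' : Bool → X → ℂ) (t : ℝ) (ht : 0 ≤ t)
    (h : ∀ s x, ‖φ s x - φ' s x‖ ≤ t) (f : EuclideanSpace ℂ X) :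
    ‖Matrix.toEuclideanLin (H σ φ) f - Matrix.toEuclideanLin (H σ φ') f‖ ≤ t * ‖f‖ := by
  apply le_of_sq_le_sq _ (by positivity)
  refine (diff_le σ φ φ' f).trans ?_
  rw [mul_pow]
  have h1 : ∀ s, ∑ x, ‖φ s x - φ' s x‖ ^ 2 * (‖f (σ s x)‖ ^ 2 + ‖f x‖ ^ 2) ≤
      2 * (t ^ 2 * ‖f‖ ^ 2) := by
    intro s
    calc ∑ x, ‖φ s x - φ' s x‖ ^ 2 * (‖f (σ s x)‖ ^ 2 + ‖f x‖ ^ 2)
        ≤ ∑ x, t ^ 2 * (‖f (σ s x)‖ ^ 2 + ‖f x‖ ^ 2) := by
          apply Finset.sum_le_sum
          intro x _
          apply mul_le_mul_of_nonneg_right _ (by positivity)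
          exact pow_le_pow_left₀ (norm_nonneg _) (h s x) 2
      _ = 2 * (t ^ 2 * ‖f‖ ^ 2) := by
          rw [← Finset.mul_sum, Finset.sum_add_distrib, EuclideanSpace.norm_sq_eq,
            Equiv.sum_comp (σ s) fun y => ‖f y‖ ^ 2]
          ring
  calc (1 / 4) * ∑ s, ∑ x, ‖φ s x - φ' s x‖ ^ 2 * (‖f (σ s x)‖ ^ 2 + ‖f x‖ ^ 2)
      ≤ (1 / 4) * ∑ _s : Bool, 2 * (t ^ 2 * ‖f‖ ^ 2) := by
        apply mul_le_mul_of_nonneg_left _ (by norm_num)
        exact Finset.sum_le_sum fun s _ => h1 s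
    _ = t ^ 2 * ‖f‖ ^ 2 := by
        rw [Fintype.sum_bool]; ring

end Phase

/-! ## Words -/

open Word

lemma card_word : ∀ n, Fintype.card (Word n) = 2 ^ n
  | 0 => rfl
  | n + 1 => by
    rw [← Fintype.card_congr (consEquiv n), Fintype.card_prod, card_word n, Fintype.card_bool,
      pow_succ, mul_comm]

lemma act_inj : ∀ {n : ℕ} (s : Bool) (v w : Word n), act s v = act s w → v = w
  | _, _, nil, nil, _ => rfl
  | _, s, cons x v, cons y w, h => by
    have ht := act_inj true v w
    have hf := act_inj false v w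
    cases s <;> cases x <;> cases y <;> simp only [act, cons.injEq, true_and, reduceCtorEq,
      false_and] at h ⊢
    · exact h
    · exact ht h
    · exact h
    · exact hf h

/-- the action as a permutation -/
def perm (n : ℕ) (s : Bool) : Word n ≃ Word n :=
  Equiv.ofBijective (act s) (Finite.injective_iff_bijective.1 fun v w h => act_inj s v w h)

lemma perm_apply (n : ℕ) (s : Bool) (x : Word n) : perm n s x = act s x := rfl

/-- concatenation -/
def app : ∀ {n m : ℕ}, Word n → Word m → Word (m + n)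
  | _, _, nil, u => u
  | _, _, cons x w, u => cons x (app w u)

def hd : ∀ n m, Word (m + n) → Word n
  | 0, _, _ => nil
  | n + 1, m, cons x y => cons x (hd n m y)

def tl : ∀ n m, Word (m + n) → Word m
  | 0, _, y => y
  | n + 1, m, cons _ y => tl n m y

lemma hd_app : ∀ {n m : ℕ} (w : Word n) (u : Word m), hd n m (app w u) = w
  | _, _, nil, _ => rfl
  | _, _, cons x w, u => by
    show cons x (hd _ _ (app w u)) = cons x w
    rw [hd_app]

lemma tl_app : ∀ {n m : ℕ} (w : Word n) (u : Word m), tl n m (app w u) = u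
  | _, _, nil, _ => rfl
  | _, _, cons x w, u => by
    show tl _ _ (app w u) = u
    rw [tl_app]

lemma app_hd_tl : ∀ n m (y : Word (m + n)), app (hd n m y) (tl n m y) = y
  | 0, _, _ => rfl
  | n + 1, m, cons x y => by
    show cons x (app (hd n m y) (tl n m y)) = cons x y
    rw [app_hd_tl]

/-- concatenation as an equivalence -/
def split (n m : ℕ) : Word n × Word m ≃ Word (m + n) where
  toFun p := app p.1 p.2
  invFun y := (hd n m y, tl n m y)
  left_inv p := by simp [hd_app, tl_app]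
  right_inv y := app_hd_tl n m y

/-- the word `1^n` -/
def ones : ∀ n, Word n
  | 0 => nil
  | n + 1 => cons true (ones n)

/-- the generator whose section at `1^n` is `b` -/
def mn : ℕ → Bool
  | 0 => true
  | n + 1 => !mn n

lemma cons_eq_ones {n : ℕ} (x : Bool) (w : Word n) :
    cons x w = ones (n + 1) ↔ x = true ∧ w = ones n := by
  simp [ones]

lemma act_app : ∀ {n m : ℕ} (s : Bool) (w : Word n) (u : Word m), act s (app w u) =
    app (act s w) (if w = ones n then act (s == mn n) u else u)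
  | _, m, s, nil, u => by
    have h1 : nil = ones 0 := rfl
    rw [if_pos h1]
    cases s <;> rfl
  | _, m, s, @cons n x w, u => by
    have ht := act_app true w u
    have hf := act_app false w u
    cases s <;> cases x <;> simp only [app, act, cons_eq_ones, true_and, Bool.false_eq_true,
      false_and, if_false, ht, hf, mn]
    · congr 2
      simp
    · congr 2
      simp

end

end Q82.Bas
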