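import Pool.Agent.Q82.Basilica

/-! # Height functions, flux and the doubling of the counting functions -/

namespace Q82.Bas

open scoped InnerProductSpace
open Word EigCount

noncomputable section

/-- height function along the main cycle -/
structure Ht (n L : ℕ) where
  r : Word n → ℕ
  C : Word n → Prop
  ones_mem : C (ones n)
  inv : ∀ x, C (act (mn n) x) ↔ C x
  step : ∀ x, C x → x ≠ ones n → r (act (mn n) x) = r x + 1
  top : r (ones n) + 1 = L
  bot : r (act (mn n) (ones n)) = 0
  off : ∀ x, ¬ C x → r (act (mn n) x) = r x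
  oth : ∀ x, r (act (!mn n) x) = r x

def ht0 : Ht 0 1 where
  r _ := 0
  C _ := True
  ones_mem := trivial
  inv x := Iff.rfl
  step x _ hx := by
    cases x
    exact absurd rfl hx
  top := rfl
  bot := rfl
  off _ _ := rfl
  oth _ := rfl

def ht1 {n L : ℕ} (h : Ht n L) (hn : mn n = true) : Ht (n + 1) L where
  r | cons _ w => h.r w
  C | cons x w => x = true ∧ h.C w
  ones_mem := ⟨rfl, h.ones_mem⟩
  inv := by
    intro x
    have h1 := h.inv
    rw [hn] at h1
    rcases x with _ | ⟨x, w⟩
    cases x <;> simp [mn, hn, act, h1]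
  step := by
    intro x hx hne
    have h1 := h.step
    rw [hn] at h1
    rcases x with _ | ⟨x, w⟩
    obtain ⟨rfl, hw⟩ := hx
    rw [Ne, cons_eq_ones] at hne
    simp only [mn, hn, act, Bool.not_true]
    exact h1 w hw (fun h => hne ⟨rfl, h⟩)
  top := h.top
  bot := by
    have h1 := h.bot
    rw [hn] at h1
    simp [mn, hn, act, ones, h1]
  off := by
    intro x hx
    have h1 := h.off
    rw [hn] at h1
    rcases x with _ | ⟨x, w⟩
    cases x
    · simp [mn, hn, act]
    · simp only [mn, hn, act, Bool.not_true]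
      exact h1 w (fun h => hx ⟨rfl, h⟩)
  oth := by
    intro x
    have h1 := h.oth
    rw [hn] at h1
    rcases x with _ | ⟨x, w⟩
    cases x <;> simp_all [mn, act]

open Classical in
def ht2 {n L : ℕ} (h : Ht n L) (hn : mn n = false) : Ht (n + 1) (2 * L) where
  r | cons x w => if x = true then 2 * h.r w + 1 else if h.C w then 2 * h.r w else 2 * h.r w + 1
  C | cons _ w => h.C w
  ones_mem := h.ones_mem
  inv := by
    intro x
    have h1 := h.inv
    rw [hn] at h1
    rcases x with _ | ⟨x, w⟩
    cases x <;> simp [mn, hn, act, h1]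
  step := by
    intro x hx hne
    have h1 := h.step
    have h2 := h.inv
    rw [hn] at h1 h2
    rcases x with _ | ⟨x, w⟩
    have hw : h.C w := hx
    rw [Ne, cons_eq_ones] at hne
    cases x
    · simp [mn, hn, act, hw]
    · simp only [mn, hn, act, Bool.not_false, Bool.false_eq_true, if_false, if_true]
      rw [if_pos ((h2 w).2 hw), h1 w hw (fun h => hne ⟨rfl, h⟩)]
      ring
  top := by
    have := h.top
    simp only [ones, if_true]
    omega
  bot := by
    have h1 := h.bot
    have h2 := (h.inv (ones n)).2 h.ones_mem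
    rw [hn] at h1 h2
    simp [mn, hn, act, ones, h1, h2]
  off := by
    intro x hx
    have h1 := h.off
    have h2 := h.inv
    rw [hn] at h1 h2
    rcases x with _ | ⟨x, w⟩
    have hw : ¬ h.C w := hx
    cases x
    · simp [mn, hn, act, hw]
    · simp only [mn, hn, act, Bool.not_false, Bool.false_eq_true, if_false, if_true]
      rw [if_neg (fun h => hw ((h2 w).1 h)), h1 w hw]
  oth := by
    intro x
    have h1 := h.oth
    rw [hn] at h1
    rcases x with _ | ⟨x, w⟩
    cases x <;> simp_all [mn, act]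

lemma mn_add_two (n : ℕ) : mn (n + 2) = mn n := by simp [mn]

lemma mn_two_mul (k : ℕ) : mn (2 * k) = true := by
  induction k with
  | zero => rfl
  | succ k ih =>
    rw [show 2 * (k + 1) = 2 * k + 2 by ring, mn_add_two, ih]

lemma ht_even : ∀ k, Nonempty (Ht (2 * k) (2 ^ k))
  | 0 => ⟨ht0⟩
  | k + 1 => by
    obtain ⟨h⟩ := ht_even k
    have h1 := ht1 h (mn_two_mul k)
    have h2 := ht2 h1 (by simp [mn, mn_two_mul])
    have e : 2 ^ (k + 1) = 2 * 2 ^ k := by ring
    rw [e]
    exact ⟨h2⟩

lemma ht_all (n : ℕ) : Nonempty (Ht n (2 ^ (n / 2))) := by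
  rcases Nat.even_or_odd' n with ⟨k, rfl | rfl⟩
  · rw [Nat.mul_div_cancel_left _ (by norm_num)]
    exact ht_even k
  · have : (2 * k + 1) / 2 = k := by omega
    rw [this]
    obtain ⟨h⟩ := ht_even k
    exact ⟨ht1 h (mn_two_mul k)⟩

/-- phases with flux through the main cycle -/
def fl (n : ℕ) (ζ : ℂ) : Bool → Word n → ℂ := fun s x => if s = mn n ∧ x = ones n then ζ else 1

/-- the operator with flux -/
def T (n : ℕ) (ζ : ℂ) : EuclideanSpace ℂ (Word n) →ₗ[ℂ] EuclideanSpace ℂ (Word n) :=
  Matrix.toEuclideanLin (H (perm n) (fl n ζ))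

lemma fl_one (n : ℕ) : fl n 1 = fun _ _ => 1 := by
  funext s x
  simp [fl]

lemma flux {n L : ℕ} (h : Ht n L) (hL : 2 ≤ L) (ζ : ℂ) (hζ : ‖ζ‖ = 1) (ε : ℝ) (hε : 0 ≤ ε)
    (hεL : 2 ≤ ε ^ 2 * (L - 1 : ℝ)) (f : EuclideanSpace ℂ (Word n)) :
    ∃ g : Word n → ℂ, (∀ x, ‖g x‖ = 1) ∧ ‖T n 1 (G g f) - G g (T n ζ f)‖ ≤ ε * ‖f‖ := by
  classical
  let S : ℕ → ℝ := fun k => ∑ x, if h.C x ∧ h.r x = k then
    (‖f (act (mn n) x)‖ ^ 2 + ‖f x‖ ^ 2) else 0
  have hS : ∑ k ∈ Finset.range (L - 1), S k ≤ ∑ _k ∈ Finset.range (L - 1), ε ^ 2 * ‖f‖ ^ 2 := by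
    have h1 : ∑ k ∈ Finset.range (L - 1), S k ≤ 2 * ‖f‖ ^ 2 := by
      calc ∑ k ∈ Finset.range (L - 1), S k
          = ∑ x, ∑ k ∈ Finset.range (L - 1), if h.C x ∧ h.r x = k then
            (‖f (act (mn n) x)‖ ^ 2 + ‖f x‖ ^ 2) else 0 := Finset.sum_comm
        _ ≤ ∑ x, (‖f (act (mn n) x)‖ ^ 2 + ‖f x‖ ^ 2) := by
            apply Finset.sum_le_sum
            intro x _
            by_cases hx : h.C x
            · simp only [hx, true_and, Finset.sum_ite_eq]
              split_ifs
              · exact le_refl _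
              · positivity
            · simp only [hx, false_and, if_false, Finset.sum_const_zero]
              positivity
        _ = 2 * ‖f‖ ^ 2 := by
            rw [Finset.sum_add_distrib, EuclideanSpace.norm_sq_eq]
            have := Equiv.sum_comp (perm n (mn n)) fun y => ‖f y‖ ^ 2
            simp only [perm_apply] at this
            rw [this]
            ring
    refine h1.trans ?_
    rw [Finset.sum_const, Finset.card_range, nsmul_eq_mul, Nat.cast_sub (by omega), Nat.cast_one]
    have : 0 ≤ ‖f‖ ^ 2 := by positivity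
    nlinarith
  obtain ⟨k, hk, hSk⟩ := Finset.exists_le_of_sum_le
    (Finset.nonempty_range_iff.2 (by omega)) hS
  rw [Finset.mem_range] at hk
  refine ⟨fun x => if h.r x ≤ k then ζ else 1, ?_, ?_⟩
  · intro x
    show ‖(if h.r x ≤ k then ζ else 1)‖ = 1
    split_ifs
    · exact hζ
    · exact norm_one
  have hg : ∀ x, ‖(if h.r x ≤ k then ζ else 1)‖ = 1 := by
    intro x
    split_ifs
    · exact hζ
    · exact norm_one
  have hζ' : ζ * star ζ = 1 := by
    have := Complex.mul_conj' ζ
    rw [hζ] at this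
    simpa using this
  have e1 := gauge (perm n) (fl n ζ) (fun s x => if s = mn n ∧ h.C x ∧ h.r x = k then ζ else 1)
    (fun x => if h.r x ≤ k then ζ else 1) hg (by
      intro s x
      rw [perm_apply]
      by_cases hs : s = mn n
      · subst hs
        by_cases hC : h.C x
        · by_cases hx : x = ones n
          · have h1 := h.top
            have h2 := h.bot
            subst hx
            simp only [fl, hC, true_and, and_self, if_true, h2]
            rw [if_neg (by omega), if_neg (by omega), if_pos (Nat.zero_le k), one_mul, hζ']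
          · have h1 := h.step x hC hx
            simp only [fl, hC, true_and, hx, h1, if_false, mul_one]
            rcases lt_trichotomy (h.r x) k with hlt | heq | hgt
            · rw [if_neg (by omega), if_pos (by omega), if_pos (by omega), hζ']
            · rw [if_pos heq, if_pos (by omega), if_neg (by omega), star_one, mul_one]
            · rw [if_neg (by omega), if_neg (by omega), if_neg (by omega), star_one, mul_one]
        · have hx : x ≠ ones n := by
            rintro rfl
            exact hC h.ones_mem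
          have h1 := h.off x hC
          simp only [fl, hC, true_and, hx, h1, if_false, mul_one, false_and]
          by_cases hr : h.r x ≤ k
          · rw [if_pos hr, hζ']
          · rw [if_neg hr, star_one, mul_one]
      · have hs' : s = !mn n := by
          cases s <;> cases hm : mn n <;> simp_all
        have h1 := h.oth x
        simp only [fl, hs, false_and, if_false, mul_one]
        rw [hs', h1]
        by_cases hr : h.r x ≤ k
        · rw [if_pos hr, hζ']
        · rw [if_neg hr, star_one, mul_one]) f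
  rw [show T n ζ f = Matrix.toEuclideanLin (H (perm n) (fl n ζ)) f from rfl, ← e1]
  apply le_of_sq_le_sq _ (by positivity)
  rw [mul_pow]
  refine ((diff_le (perm n) (fl n 1) _ _).trans ?_).trans hSk
  rw [fl_one]
  rw [Fintype.sum_eq_single (mn n)]
  · rw [Finset.mul_sum]
    apply Finset.sum_le_sum
    intro x _
    rw [G_apply, G_apply, norm_mul, norm_mul, hg, hg, one_mul, one_mul, perm_apply]
    by_cases hx : h.C x ∧ h.r x = k
    · rw [if_pos ⟨rfl, hx⟩, if_pos hx, ← mul_assoc]
      have h1 : ‖1 - ζ‖ ≤ 2 := by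
        calc ‖1 - ζ‖ ≤ ‖(1 : ℂ)‖ + ‖ζ‖ := norm_sub_le _ _
          _ = 2 := by rw [hζ, norm_one]; norm_num
      have h2 := pow_le_pow_left₀ (norm_nonneg _) h1 2
      have h3 : 0 ≤ ‖f (act (mn n) x)‖ ^ 2 + ‖f x‖ ^ 2 := by positivity
      nlinarith
    · rw [if_neg (fun h => hx h.2), if_neg hx]
      simp
  · intro s hs
    apply Finset.sum_eq_zero
    intro x _
    rw [if_neg (fun h => hs h.1)]
    simp

/-- the diagonalised operator with flux -/
def D (n : ℕ) (ζ : ℂ) : Dg (EuclideanSpace ℂ (Word n)) (Word n) := ofMat _ (herm (perm n) (fl n ζ))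

lemma D_T (n : ℕ) (ζ : ℂ) : (D n ζ).T = T n ζ := rfl

lemma gap_flux {n L : ℕ} (h : Ht n L) (hL : 2 ≤ L) (ζ : ℂ) (hζ : ‖ζ‖ = 1) (ε : ℝ) (hε : 0 ≤ ε)
    (hεL : 2 ≤ ε ^ 2 * (L - 1 : ℝ)) (x δ : ℝ) (hδ : 0 ≤ δ) (hg : ∀ i, δ ≤ |(D n 1).l i - x|)
    (i : Word n) : δ - ε ≤ |(D n ζ).l i - x| := by
  apply (D n ζ).gap_to x
  intro f
  obtain ⟨g, hg1, hg2⟩ := flux h hL ζ hζ ε hε hεL f
  have h1 := (D n 1).gap_of x δ hδ hg (G g f)
  rw [norm_G g hg1] at h1
  have h2 : G g ((D n ζ).T f - (x : ℂ) • f) = G g (T n ζ f) - (x : ℂ) • G g f := by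
    ext y
    show g y * (T n ζ f y - (x : ℂ) * f y) = g y * (T n ζ f y) - (x : ℂ) * (g y * f y)
    ring
  rw [← norm_G g hg1 ((D n ζ).T f - (x : ℂ) • f), h2]
  have h3 : (D n 1).T (G g f) - (x : ℂ) • G g f = (T n 1 (G g f) - G g (T n ζ f)) +
      (G g (T n ζ f) - (x : ℂ) • G g f) := by
    rw [D_T]
    abel
  rw [h3] at h1
  have h4 := norm_add_le (T n 1 (G g f) - G g (T n ζ f)) (G g (T n ζ f) - (x : ℂ) • G g f)
  linarith

lemma fl_diff (n : ℕ) (ζ ξ : ℂ) (s : Bool) (x : Word n) : ‖fl n ζ s x - fl n ξ s x‖ ≤ ‖ζ - ξ‖ := by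
  unfold fl
  split_ifs
  · exact le_refl _
  · simp

/-- the counting function does not change along the flux -/
lemma lo_flux (n : ℕ) (x δ : ℝ) (hδ : 0 < δ) (hg : ∀ ζ : ℂ, ‖ζ‖ = 1 → ∀ i, δ ≤ |(D n ζ).l i - x|) :
    (D n 1).lo x = (D n (-1)).lo x := by
  obtain ⟨N, hN⟩ := exists_nat_gt (Real.pi / δ)
  have hN0 : (0 : ℝ) < N := lt_trans (by positivity) hN
  have key : ∀ j : ℕ, (D n (Complex.exp (Complex.I * ((Real.pi * j / N : ℝ) : ℂ)))).lo x =
      (D n 1).lo x := by
    intro j
    induction j with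
    | zero => simp
    | succ j ih =>
      rw [← ih]
      have hn1 : ∀ t : ℝ, ‖Complex.exp (Complex.I * (t : ℂ))‖ = 1 := by
        intro t
        rw [mul_comm]
        exact Complex.norm_exp_ofReal_mul_I t
      apply Dg.lo_eq_of_near _ _ x δ (Real.pi / N) (hg _ (hn1 _)) (hg _ (hn1 _))
      · intro f
        apply diff_unif
        · positivity
        · intro s y
          refine (fl_diff n _ _ s y).trans ?_
          have e1 : Complex.exp (Complex.I * ((Real.pi * ((j + 1 : ℕ) : ℝ) / N : ℝ) : ℂ)) -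
              Complex.exp (Complex.I * ((Real.pi * j / N : ℝ) : ℂ)) =
              Complex.exp (Complex.I * ((Real.pi * j / N : ℝ) : ℂ)) *
              (Complex.exp (Complex.I * ((Real.pi / N : ℝ) : ℂ)) - 1) := by
            rw [mul_sub, ← Complex.exp_add, mul_one]
            congr 2
            push_cast
            ring
          rw [e1, norm_mul, hn1, one_mul]
          refine (Real.norm_exp_I_mul_ofReal_sub_one_le (x := Real.pi / N)).trans ?_
          rw [Real.norm_eq_abs, abs_of_nonneg (by positivity)]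
      · rw [div_lt_iff₀ hN0, mul_comm, ← div_lt_iff₀ hδ]
        exact hN
  have h1 := key N
  rw [mul_div_assoc, div_self hN0.ne', mul_one, mul_comm, Complex.exp_pi_mul_I] at h1
  exact h1.symm

end

end Q82.Bas
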