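import Pool.Agent.Q82.Basilica2

/-! # Doubling and quasi-modes -/

namespace Q82.Bas

open scoped InnerProductSpace
open Word EigCount

noncomputable section

/-- tensor products -/
def tens {n m : ℕ} (c : EuclideanSpace ℂ (Word m)) :
    EuclideanSpace ℂ (Word n) →ₗ[ℂ] EuclideanSpace ℂ (Word (m + n)) where
  toFun f := WithLp.toLp 2 fun y => f (hd n m y) * c (tl n m y)
  map_add' f g := by
    ext y
    show (f (hd n m y) + g (hd n m y)) * c (tl n m y) = f (hd n m y) * c (tl n m y) +
      g (hd n m y) * c (tl n m y)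
    ring
  map_smul' a f := by
    ext y
    show (a * f (hd n m y)) * c (tl n m y) = a * (f (hd n m y) * c (tl n m y))
    ring

lemma tens_app {n m : ℕ} (c : EuclideanSpace ℂ (Word m)) (f : EuclideanSpace ℂ (Word n))
    (w : Word n) (u : Word m) : tens c f (app w u) = f w * c u := by
  show f (hd n m (app w u)) * c (tl n m (app w u)) = f w * c u
  rw [hd_app, tl_app]

lemma sum_split {n m : ℕ} {M : Type*} [AddCommMonoid M] (F : Word (m + n) → M) :
    ∑ y, F y = ∑ w : Word n, ∑ u : Word m, F (app w u) := by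
  rw [← Equiv.sum_comp (split n m) F, Fintype.sum_prod_type]
  rfl

lemma inner_tens {n m : ℕ} (c d : EuclideanSpace ℂ (Word m)) (f g : EuclideanSpace ℂ (Word n)) :
    ⟪tens c f, tens d g⟫_ℂ = ⟪f, g⟫_ℂ * ⟪c, d⟫_ℂ := by
  rw [PiLp.inner_apply, PiLp.inner_apply, PiLp.inner_apply, sum_split, Finset.sum_mul]
  apply Finset.sum_congr rfl
  intro w _
  rw [Finset.mul_sum]
  apply Finset.sum_congr rfl
  intro u _
  rw [tens_app, tens_app]
  simp only [RCLike.inner_apply, map_mul]
  ring

lemma norm_tens {n m : ℕ} (c : EuclideanSpace ℂ (Word m)) (f : EuclideanSpace ℂ (Word n)) :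
    ‖tens c f‖ = ‖f‖ * ‖c‖ := by
  have h := inner_tens c c f f
  rw [inner_self_eq_norm_sq_to_K, inner_self_eq_norm_sq_to_K, inner_self_eq_norm_sq_to_K] at h
  have h2 : ‖tens c f‖ ^ 2 = (‖f‖ * ‖c‖) ^ 2 := by
    rw [mul_pow]
    exact_mod_cast h
  exact (sq_eq_sq₀ (norm_nonneg _) (by positivity)).1 h2

lemma perm_app {n m : ℕ} (s : Bool) (w : Word n) (u : Word m) : perm (m + n) s (app w u) =
    app (perm n s w) (if w = ones n then perm m (s == mn n) u else u) := by
  simp only [perm_apply]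
  exact act_app s w u

lemma symm_app {n m : ℕ} (s : Bool) (w : Word n) (u : Word m) : (perm (m + n) s).symm (app w u) =
    app ((perm n s).symm w)
      (if (perm n s).symm w = ones n then (perm m (s == mn n)).symm u else u) := by
  rw [Equiv.symm_apply_eq, perm_app, Equiv.apply_symm_apply]
  split_ifs
  · rw [Equiv.apply_symm_apply]
  · rfl

/-- the action of the operator on tensor products -/
lemma T_tens {n m : ℕ} (c : EuclideanSpace ℂ (Word m)) (f : EuclideanSpace ℂ (Word n))
    (w : Word n) (u : Word m) : T (m + n) 1 (tens c f) (app w u) = f w * c u -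
      (1 / 4) * ∑ s, (f (perm n s w) * c (if w = ones n then perm m (s == mn n) u else u) +
        f ((perm n s).symm w) *
          c (if (perm n s).symm w = ones n then (perm m (s == mn n)).symm u else u)) := by
  unfold T
  rw [app_eq, fl_one, tens_app]
  congr 2
  apply Finset.sum_congr rfl
  intro s _
  rw [star_one, one_mul, one_mul, perm_app, symm_app, tens_app, tens_app]

/-- exact intertwining -/
lemma T_tens_eq {n m : ℕ} (c : EuclideanSpace ℂ (Word m)) (ζ : ℂ) (hζ : star ζ = ζ)
    (hc : ∀ s u, c (perm m s u) = (if s = true then ζ else 1) * c u)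
    (hc' : ∀ s u, c ((perm m s).symm u) = (if s = true then ζ else 1) * c u)
    (f : EuclideanSpace ℂ (Word n)) : T (m + n) 1 (tens c f) = tens c (T n ζ f) := by
  ext y
  obtain ⟨⟨w, u⟩, rfl⟩ := (split n m).surjective y
  show T (m + n) 1 (tens c f) (app w u) = tens c (T n ζ f) (app w u)
  rw [T_tens, tens_app]
  unfold T
  rw [app_eq, sub_mul, mul_assoc, Finset.sum_mul]
  congr 2
  apply Finset.sum_congr rfl
  intro s _
  rw [add_mul]
  congr 1
  · unfold fl
    by_cases hw : w = ones n
    · rw [if_pos hw, hc]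
      by_cases hs : s = mn n
      · simp only [hs, hw, beq_self_eq_true, if_true, and_self]
        ring
      · have hs' : (s == mn n) = false := by simpa using hs
        simp [hs', hs]
    · simp [hw]
  · unfold fl
    by_cases hw : (perm n s).symm w = ones n
    · rw [if_pos hw, hc']
      by_cases hs : s = mn n
      · simp only [hs, beq_self_eq_true, if_true, true_and]
        rw [hs] at hw
        rw [if_pos hw, hζ]
        ring
      · have hs' : (s == mn n) = false := by simpa using hs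
        simp [hs', hs]
    · simp [hw]

/-- the symmetric and the antisymmetric function on words of length one -/
def chi (ζ : ℂ) : EuclideanSpace ℂ (Word 1) := WithLp.toLp 2 fun
  | cons x _ => (if x = true then ζ else 1) * ((√2 : ℝ) : ℂ)⁻¹

lemma chi_cons (ζ : ℂ) (x : Bool) (w : Word 0) :
    chi ζ (cons x w) = (if x = true then ζ else 1) * ((√2 : ℝ) : ℂ)⁻¹ := rfl

lemma chi_perm (ζ : ℂ) (hζ : ζ * ζ = 1) (s : Bool) (u : Word 1) :
    chi ζ (perm 1 s u) = (if s = true then ζ else 1) * chi ζ u := by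
  rcases u with _ | ⟨x, w⟩
  rcases w with _ | _
  rw [perm_apply]
  cases s <;> cases x <;> simp only [act, chi_cons, if_true, Bool.false_eq_true, if_false]
  · ring
  · ring
  · ring
  · linear_combination (- ((√2 : ℝ) : ℂ)⁻¹) * hζ

lemma chi_symm (ζ : ℂ) (hζ : ζ * ζ = 1) (s : Bool) (u : Word 1) :
    chi ζ ((perm 1 s).symm u) = (if s = true then ζ else 1) * chi ζ u := by
  have h := chi_perm ζ hζ s ((perm 1 s).symm u)
  rw [Equiv.apply_symm_apply] at h
  rw [h]
  cases s
  · simp
  · simp only [if_true]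
    rw [← mul_assoc, hζ, one_mul]

lemma sum_word_one {M : Type*} [AddCommMonoid M] (F : Word 1 → M) :
    ∑ u, F u = F (cons true nil) + F (cons false nil) := by
  have h0 : ∀ K : Word 0 → M, ∑ y, K y = K nil := fun K => Finset.sum_singleton K nil
  rw [← Equiv.sum_comp (consEquiv 0) F, Fintype.sum_prod_type, Fintype.sum_bool, h0, h0]
  rfl

lemma chi_inner (ζ ξ : ℂ) : ⟪chi ζ, chi ξ⟫_ℂ = (star ζ * ξ + 1) / 2 := by
  rw [PiLp.inner_apply, sum_word_one, chi_cons, chi_cons, chi_cons, chi_cons]
  have h : ((√2 : ℝ) : ℂ)⁻¹ * ((√2 : ℝ) : ℂ)⁻¹ = 1 / 2 := by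
    rw [← mul_inv, ← Complex.ofReal_mul, Real.mul_self_sqrt (by norm_num)]
    norm_num
  simp only [RCLike.inner_apply, map_mul, map_inv₀, Complex.conj_ofReal, if_true,
    Bool.false_eq_true, if_false, one_mul]
  rw [show star ζ = (starRingEnd ℂ) ζ from rfl]
  linear_combination (ξ * (starRingEnd ℂ) ζ + 1) * h

lemma chi_norm (ζ : ℂ) (hζ : ‖ζ‖ = 1) : ‖chi ζ‖ = 1 := by
  have h := chi_inner ζ ζ
  rw [inner_self_eq_norm_sq_to_K] at h
  have h1 : star ζ * ζ = 1 := by
    have := Complex.conj_mul' ζ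
    rw [hζ] at this
    simpa using this
  rw [h1] at h
  have h2 : ‖chi ζ‖ ^ 2 = 1 := by
    have : ((‖chi ζ‖ ^ 2 : ℝ) : ℂ) = 1 := by
      push_cast
      rw [← Complex.coe_algebraMap, h]
      norm_num
    exact_mod_cast this
  nlinarith [norm_nonneg (chi ζ)]

/-- isometric embedding -/
def emb (n : ℕ) (ζ : ℂ) (hζ : ‖ζ‖ = 1) :
    EuclideanSpace ℂ (Word n) →ₗᵢ[ℂ] EuclideanSpace ℂ (Word (1 + n)) where
  toLinearMap := tens (chi ζ)
  norm_map' f := by rw [norm_tens, chi_norm ζ hζ, mul_one]

/-- the counting function at the next level -/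
lemma lo_next (n : ℕ) (x : ℝ) (hx : ∀ i, (D (1 + n) 1).l i ≠ x) (hx₀ : ∀ i, (D n 1).l i ≠ x)
    (hx₁ : ∀ i, (D n (-1)).l i ≠ x) :
    (D (1 + n) 1).lo x = (D n 1).lo x + (D n (-1)).lo x := by
  apply lo_add _ _ _ (emb n 1 norm_one) (emb n (-1) (by simp))
  · rw [card_word, card_word]; ring
  · intro f
    exact T_tens_eq (chi 1) 1 (by simp) (chi_perm 1 (by simp)) (chi_symm 1 (by simp)) f
  · intro f
    exact T_tens_eq (chi (-1)) (-1) (by simp) (chi_perm (-1) (by simp)) (chi_symm (-1) (by simp)) f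
  · intro f g
    show ⟪tens (chi 1) f, tens (chi (-1)) g⟫_ℂ = 0
    rw [inner_tens, chi_inner]
    simp
  · exact hx
  · exact hx₀
  · exact hx₁

/-- **Doubling.** -/
lemma doubling (x δ : ℝ) (hδ : 0 < δ) (hg : ∀ n i, δ ≤ |(D n 1).l i - x|) :
    ∃ n₀, ∀ n, n₀ ≤ n → (D (1 + n) 1).lo x = 2 * (D n 1).lo x := by
  -- the length of the cycle tends to infinity
  obtain ⟨K, hK⟩ := exists_nat_gt (8 / δ ^ 2 + 2)
  refine ⟨2 * K, fun n hn => ?_⟩
  obtain ⟨h⟩ := ht_all n
  have hKn : (K : ℝ) ≤ (2 : ℝ) ^ (n / 2) := by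
    have h1 : K ≤ n / 2 := by omega
    have h2 : K < 2 ^ K := Nat.lt_two_pow_self
    have h3 : 2 ^ K ≤ 2 ^ (n / 2) := Nat.pow_le_pow_right (by norm_num) h1
    exact_mod_cast (h2.le.trans h3)
  have hpos : 0 < 8 / δ ^ 2 := by positivity
  have hL : 2 ≤ 2 ^ (n / 2) := by
    have : (2 : ℝ) ≤ (2 : ℝ) ^ (n / 2) := by linarith
    exact_mod_cast this
  have hεL : 2 ≤ (δ / 2) ^ 2 * (((2 ^ (n / 2) : ℕ) : ℝ) - 1) := by
    push_cast
    have h3 : 8 / δ ^ 2 ≤ (2 : ℝ) ^ (n / 2) - 1 := by linarith
    have h4 : 8 ≤ ((2 : ℝ) ^ (n / 2) - 1) * δ ^ 2 := by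
      rwa [div_le_iff₀ (by positivity)] at h3
    nlinarith
  have hflux : ∀ ζ : ℂ, ‖ζ‖ = 1 → ∀ i, δ / 2 ≤ |(D n ζ).l i - x| := by
    intro ζ hζ i
    have := gap_flux h hL ζ hζ (δ / 2) (by positivity) hεL x δ hδ.le (hg n) i
    linarith
  have h1 := lo_flux n x (δ / 2) (by positivity) hflux
  have hne : ∀ {Y : Type} (l : Y → ℝ) (δ' : ℝ), 0 < δ' → (∀ i, δ' ≤ |l i - x|) → ∀ i, l i ≠ x := by
    intro Y l δ' hδ' hl i hi
    have := hl i
    rw [hi, sub_self, abs_zero] at this
    linarith
  have h2 := lo_next n x (hne _ δ hδ (hg _)) (hne _ δ hδ (hg n))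
    (hne _ (δ / 2) (by positivity) (hflux (-1) (by simp)))
  rw [h2, ← h1]
  ring

/-- quasi-modes -/
lemma quasi {n m : ℕ} (c : EuclideanSpace ℂ (Word m)) (f : EuclideanSpace ℂ (Word n)) (M : ℝ)
    (hM : ∀ w, ‖f w‖ ≤ M) : ‖T (m + n) 1 (tens c f) - tens c (T n 1 f)‖ ≤ 2 * M * ‖c‖ := by
  have hM0 : 0 ≤ M := (norm_nonneg _).trans (hM (ones n))
  apply le_of_sq_le_sq _ (by positivity)
  rw [EuclideanSpace.norm_sq_eq, sum_split]
  -- pointwise bound
  have h1 : ∀ (w : Word n) (u : Word m),
      ‖(T (m + n) 1 (tens c f) - tens c (T n 1 f)) (app w u)‖ ^ 2 ≤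
      (1 / 4) * ∑ s, (M ^ 2 * (if w = ones n then ‖c (perm m (s == mn n) u) - c u‖ ^ 2 else 0) +
        M ^ 2 * (if (perm n s).symm w = ones n then
          ‖c ((perm m (s == mn n)).symm u) - c u‖ ^ 2 else 0)) := by
    intro w u
    have e1 : (T (m + n) 1 (tens c f) - tens c (T n 1 f)) (app w u) =
        T (m + n) 1 (tens c f) (app w u) - tens c (T n 1 f) (app w u) := rfl
    have e2 : (T (m + n) 1 (tens c f) - tens c (T n 1 f)) (app w u) = (-(1 / 4) : ℂ) *
        ((f (perm n true w) * ((if w = ones n then c (perm m (true == mn n) u) - c u else 0)) +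
          f ((perm n true).symm w) * (if (perm n true).symm w = ones n then
            c ((perm m (true == mn n)).symm u) - c u else 0)) +
        (f (perm n false w) * ((if w = ones n then c (perm m (false == mn n) u) - c u else 0)) +
          f ((perm n false).symm w) * (if (perm n false).symm w = ones n then
            c ((perm m (false == mn n)).symm u) - c u else 0))) := by
      rw [e1, T_tens, tens_app]
      unfold T
      rw [app_eq, fl_one]
      simp only [Fintype.sum_bool, star_one, one_mul]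
      split_ifs <;> ring
    rw [e2, norm_mul, mul_pow]
    have h4 : ‖(-(1 / 4) : ℂ)‖ ^ 2 = 1 / 16 := by
      rw [norm_neg]; norm_num
    rw [h4]
    have h5 := four
      (f (perm n true w) * ((if w = ones n then c (perm m (true == mn n) u) - c u else 0)))
      (f ((perm n true).symm w) * (if (perm n true).symm w = ones n then
            c ((perm m (true == mn n)).symm u) - c u else 0))
      (f (perm n false w) * ((if w = ones n then c (perm m (false == mn n) u) - c u else 0)))
      (f ((perm n false).symm w) * (if (perm n false).symm w = ones n then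
            c ((perm m (false == mn n)).symm u) - c u else 0))
    have h6 : ∀ (p : Prop) [Decidable p] (w' : Word n) (z : ℂ),
        ‖f w' * (if p then z else 0)‖ ^ 2 ≤ M ^ 2 * (if p then ‖z‖ ^ 2 else 0) := by
      intro p _ w' z
      rw [norm_mul, mul_pow]
      have : ‖(if p then z else 0)‖ ^ 2 = if p then ‖z‖ ^ 2 else 0 := by
        split_ifs <;> simp
      rw [this]
      apply mul_le_mul_of_nonneg_right (pow_le_pow_left₀ (norm_nonneg _) (hM w') 2)
      split_ifs <;> positivity
    rw [Fintype.sum_bool]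
    have a1 := h6 (w = ones n) (perm n true w) (c (perm m (true == mn n) u) - c u)
    have a2 := h6 ((perm n true).symm w = ones n) ((perm n true).symm w)
      (c ((perm m (true == mn n)).symm u) - c u)
    have a3 := h6 (w = ones n) (perm n false w) (c (perm m (false == mn n) u) - c u)
    have a4 := h6 ((perm n false).symm w = ones n) ((perm n false).symm w)
      (c ((perm m (false == mn n)).symm u) - c u)
    linarith
  have hc4 : ∀ τ : Word m ≃ Word m, ∑ u, ‖c (τ u) - c u‖ ^ 2 ≤ 4 * ‖c‖ ^ 2 := by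
    intro τ
    calc ∑ u, ‖c (τ u) - c u‖ ^ 2 ≤ ∑ u, (2 * ‖c (τ u)‖ ^ 2 + 2 * ‖c u‖ ^ 2) := by
          apply Finset.sum_le_sum
          intro u _
          have := norm_sub_le (c (τ u)) (c u)
          have h7 := pow_le_pow_left₀ (norm_nonneg _) this 2
          nlinarith [sq_nonneg (‖c (τ u)‖ - ‖c u‖)]
      _ = 4 * ‖c‖ ^ 2 := by
          rw [Finset.sum_add_distrib, ← Finset.mul_sum, ← Finset.mul_sum,
            Equiv.sum_comp τ fun y => ‖c y‖ ^ 2, EuclideanSpace.norm_sq_eq]
          ring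
  calc ∑ w : Word n, ∑ u : Word m, ‖(T (m + n) 1 (tens c f) - tens c (T n 1 f)) (app w u)‖ ^ 2
      ≤ ∑ w : Word n, ∑ u : Word m, (1 / 4) * ∑ s,
        (M ^ 2 * (if w = ones n then ‖c (perm m (s == mn n) u) - c u‖ ^ 2 else 0) +
        M ^ 2 * (if (perm n s).symm w = ones n then
          ‖c ((perm m (s == mn n)).symm u) - c u‖ ^ 2 else 0)) :=
        Finset.sum_le_sum fun w _ => Finset.sum_le_sum fun u _ => h1 w u
    _ = (1 / 4) * ∑ s, (M ^ 2 * ∑ u, ‖c (perm m (s == mn n) u) - c u‖ ^ 2 +
        M ^ 2 * ∑ u, ‖c ((perm m (s == mn n)).symm u) - c u‖ ^ 2) := by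
        simp_rw [← Finset.mul_sum]
        congr 1
        simp_rw [Finset.sum_comm (s := (Finset.univ : Finset (Word m))) (t := Finset.univ)]
        rw [Finset.sum_comm]
        apply Finset.sum_congr rfl
        intro s _
        simp_rw [Finset.sum_add_distrib, ← Finset.mul_sum]
        congr 2
        · rw [Finset.sum_comm]
          simp
        · rw [Finset.sum_comm]
          apply Finset.sum_congr rfl
          intro u _
          rw [Finset.sum_eq_single (perm n s (ones n))]
          · simp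
          · intro w _ hw
            rw [if_neg]
            intro h
            exact hw (by rw [← h]; simp)
          · simp
    _ ≤ (1 / 4) * ∑ _s : Bool, (M ^ 2 * (4 * ‖c‖ ^ 2) + M ^ 2 * (4 * ‖c‖ ^ 2)) := by
        apply mul_le_mul_of_nonneg_left _ (by norm_num)
        apply Finset.sum_le_sum
        intro s _
        exact add_le_add (mul_le_mul_of_nonneg_left (hc4 _) (by positivity))
          (mul_le_mul_of_nonneg_left (hc4 _) (by positivity))
    _ = (2 * M * ‖c‖) ^ 2 := by
        rw [Fintype.sum_bool]; ring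

end

end Q82.Bas
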