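import Pool.Agent.Q82.Basilica3

/-! # Spectral measures -/

namespace Q82.Bas

open scoped InnerProductSpace
open Word EigCount MeasureTheory Filter Topology

noncomputable section

lemma lap_eq (n : ℕ) : lap n = H (perm n) (fl n 1) := by
  ext x y
  unfold lap H adj
  rw [fl_one]
  push_cast
  simp only [perm_apply, star_one]
  rw [div_eq_inv_mul, one_div]
  congr

lemma ev_eq (n : ℕ) : ev n = (D n 1).l := by
  have key : ∀ (M : Matrix (Word n) (Word n) ℂ) (hM : M.IsHermitian), M = H (perm n) (fl n 1) →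
      hM.eigenvalues = (herm (perm n) (fl n 1)).eigenvalues := by
    rintro M hM rfl
    rfl
  exact key (lap n) (lap_herm n) (lap_eq n)

/-- clamping to `[0, 1]` -/
def cl (t : ℝ) : ℝ := max 0 (min 1 t)

lemma cl_cont : Continuous cl := by
  unfold cl
  fun_prop

lemma cl_nonneg (t : ℝ) : 0 ≤ cl t := le_max_left _ _

lemma cl_le (t : ℝ) : cl t ≤ 1 := max_le zero_le_one (min_le_left _ _)

lemma cl_zero {t : ℝ} (ht : t ≤ 0) : cl t = 0 := by
  unfold cl
  rw [min_eq_right (by linarith), max_eq_left ht]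

lemma cl_one {t : ℝ} (ht : 1 ≤ t) : cl t = 1 := by
  unfold cl
  rw [min_eq_left ht, max_eq_right zero_le_one]

lemma abs_cl (t : ℝ) : |cl t| ≤ 1 := by
  rw [abs_of_nonneg (cl_nonneg t)]
  exact cl_le t

/-- lift of an eigenvector to a higher level, spread out -/
lemma spread (n m : ℕ) (i : Word n) : ∃ f : EuclideanSpace ℂ (Word (m + n)),
    T (m + n) 1 f = ((D n 1).l i : ℂ) • f ∧ (∀ w, ‖f w‖ ≤ 1) ∧ ‖f‖ ^ 2 = 2 ^ m := by
  have h1 : ‖(D n 1).e i‖ = 1 := (D n 1).e.orthonormal.1 i
  refine ⟨tens (WithLp.toLp 2 fun _ => 1) ((D n 1).e i), ?_, ?_, ?_⟩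
  · rw [T_tens_eq _ 1 (by simp) (by simp) (by simp), ← D_T, (D n 1).he, map_smul]
  · intro y
    obtain ⟨⟨w, u⟩, rfl⟩ := (split n m).surjective y
    show ‖tens (WithLp.toLp 2 fun _ => 1) ((D n 1).e i) (app w u)‖ ≤ 1
    rw [tens_app]
    show ‖(D n 1).e i w * 1‖ ≤ 1
    rw [mul_one, ← h1]
    exact PiLp.norm_apply_le _ w
  · rw [norm_tens, h1, one_mul, EuclideanSpace.norm_sq_eq]
    simp [card_word]

/-- each eigenvalue attracts a positive proportion of the eigenvalues of all higher levels -/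
lemma near_many (n : ℕ) (i : Word n) (ε : ℝ) (hε : 0 < ε) : ∃ N : ℕ, ∀ k : ℕ,
    ∀ S : Finset (Word (k + N)), (∀ j, |(D (k + N) 1).l j - (D n 1).l i| ≤ ε → j ∈ S) →
      2 ^ k ≤ S.card := by
  obtain ⟨m, hm⟩ := exists_nat_gt (4 / ε ^ 2)
  obtain ⟨f, hf1, hf2, hf3⟩ := spread n m i
  refine ⟨m + n, fun k S hS => ?_⟩
  have hm2 : 4 / ε ^ 2 < (2 : ℝ) ^ m := by
    have : (m : ℝ) < (2 : ℝ) ^ m := by exact_mod_cast Nat.lt_two_pow_self
    linarith
  have h2 : 2 ≤ ε * ‖f‖ := by
    apply le_of_sq_le_sq _ (by positivity)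
    rw [mul_pow, hf3]
    rw [div_lt_iff₀ (by positivity)] at hm2
    nlinarith
  have hfpos : 0 < ‖f‖ := by
    rcases (norm_nonneg f).eq_or_lt with h | h
    · rw [← h] at h2
      linarith
    · exact h
  let W : (Word k → ℂ) →ₗ[ℂ] EuclideanSpace ℂ (Word (k + (m + n))) :=
    { toFun := fun c => tens (WithLp.toLp 2 c) f
      map_add' := by
        intro c d
        ext y
        show f (hd (m + n) k y) * (c (tl (m + n) k y) + d (tl (m + n) k y)) =
          f (hd (m + n) k y) * c (tl (m + n) k y) + f (hd (m + n) k y) * d (tl (m + n) k y)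
        ring
      map_smul' := by
        intro a c
        ext y
        show f (hd (m + n) k y) * (a * c (tl (m + n) k y)) =
          a * (f (hd (m + n) k y) * c (tl (m + n) k y))
        ring }
  have hW : ∀ c, W c = tens (WithLp.toLp 2 c) f := fun _ => rfl
  rw [← card_word k]
  apply (D (k + (m + n)) 1).near_ge W ((D n 1).l i) ε hε.le
  · intro c d hcd
    have h3 : W (c - d) = 0 := by rw [map_sub, hcd, sub_self]
    have h4 : ‖W (c - d)‖ = 0 := by rw [h3, norm_zero]
    rw [hW, norm_tens, mul_eq_zero] at h4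
    rcases h4 with h4 | h4
    · exact absurd h4 hfpos.ne'
    · have h5 : (WithLp.toLp 2 (c - d) : EuclideanSpace ℂ (Word k)) = 0 := norm_eq_zero.1 h4
      have h6 : c - d = 0 := by
        have := congrArg WithLp.ofLp h5
        simpa using this
      exact sub_eq_zero.1 h6
  · intro c
    rw [D_T, hW]
    have h7 := quasi (WithLp.toLp 2 c) f 1 hf2
    rw [hf1, map_smul] at h7
    refine h7.trans ?_
    rw [norm_tens, ← mul_assoc]
    exact mul_le_mul_of_nonneg_right (by linarith) (norm_nonneg _)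
  · exact hS

lemma integral_zero_of_null (μ : Measure ℝ) (a b : ℝ) (h : μ (Set.Ioo a b) = 0) (f : ℝ → ℝ)
    (hf : ∀ t, t ∉ Set.Ioo a b → f t = 0) : ∫ t, f t ∂μ = 0 := by
  have h1 : f =ᵐ[μ] 0 := by
    have h2 : ∀ᵐ t ∂μ, t ∉ Set.Ioo a b := measure_eq_zero_iff_ae_notMem.1 h
    filter_upwards [h2] with t ht
    exact hf t ht
  rw [integral_congr_ae h1]
  simp

/-- the eigenvalues stay away from the complement of the support -/
lemma gap_all (μ : Measure ℝ) (hμ : IsKNS μ) (x δ : ℝ) (h0 : μ (Set.Ioo (x - δ) (x + δ)) = 0)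
    (n : ℕ) (i : Word n) : δ ≤ |(D n 1).l i - x| := by
  classical
  by_contra hlt
  push Not at hlt
  set lam := (D n 1).l i with hlam
  set η := δ - |lam - x| with hη
  have hηpos : 0 < η := by linarith
  obtain ⟨N, hN⟩ := near_many n i (η / 2) (by positivity)
  have hφ := hμ (fun t => cl (2 - |t - lam| / (η / 2)))
    (cl_cont.comp (by fun_prop)) ⟨1, fun t => abs_cl _⟩
  have hint : ∫ t, cl (2 - |t - lam| / (η / 2)) ∂μ = 0 := by
    apply integral_zero_of_null μ _ _ h0
    intro t ht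
    apply cl_zero
    have h1 : η ≤ |t - lam| := by
      by_contra h2
      push Not at h2
      apply ht
      have h3 : |t - x| < δ := by
        have := abs_sub_le t lam x
        linarith
      rw [abs_lt] at h3
      constructor <;> linarith [h3.1, h3.2]
    rw [sub_nonpos, le_div_iff₀ (by positivity)]
    linarith
  rw [hint] at hφ
  have hsub : Tendsto (fun k => k + N) atTop atTop := tendsto_add_atTop_nat N
  have h2 := hφ.comp hsub
  have h3 : ∀ k : ℕ, (1 : ℝ) / 2 ^ N ≤ (∑ j, cl (2 - |ev (k + N) j - lam| / (η / 2))) /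
      2 ^ (k + N) := by
    intro k
    rw [ev_eq]
    have h4 := hN k (Finset.univ.filter fun j => |(D (k + N) 1).l j - lam| ≤ η / 2)
      (fun j hj => by simpa using hj)
    have h5 : ((Finset.univ.filter fun j => |(D (k + N) 1).l j - lam| ≤ η / 2).card : ℝ) ≤
        ∑ j, cl (2 - |(D (k + N) 1).l j - lam| / (η / 2)) := by
      rw [Finset.card_eq_sum_ones, Finset.sum_filter]
      push_cast
      apply Finset.sum_le_sum
      intro j _
      split_ifs with hj
      · rw [cl_one]
        have : |(D (k + N) 1).l j - lam| / (η / 2) ≤ 1 := by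
          rw [div_le_one (by positivity)]
          exact hj
        linarith
      · exact cl_nonneg _
    have h6 : (2 : ℝ) ^ k ≤ ∑ j, cl (2 - |(D (k + N) 1).l j - lam| / (η / 2)) := by
      refine le_trans ?_ h5
      exact_mod_cast h4
    rw [le_div_iff₀ (by positivity), pow_add]
    have : (1 : ℝ) / 2 ^ N * (2 ^ k * 2 ^ N) = 2 ^ k := by
      field_simp
    rw [this]
    exact h6
  have h7 := ge_of_tendsto' h2 h3
  have : (0 : ℝ) < 1 / 2 ^ N := by positivity
  linarith

lemma lo_of_gap (n : ℕ) (x δ : ℝ) (hδ : 0 < δ) (hg : ∀ i, δ ≤ |(D n 1).l i - x|) :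
    ∑ i, cl ((x + δ - (D n 1).l i) / (2 * δ)) = ((D n 1).lo x : ℝ) := by
  classical
  unfold Dg.lo
  rw [Finset.card_eq_sum_ones, Finset.sum_filter]
  push_cast
  apply Finset.sum_congr rfl
  intro i _
  have := hg i
  split_ifs with hi
  · apply cl_one
    rw [abs_of_neg (by linarith)] at this
    rw [le_div_iff₀ (by positivity)]
    linarith
  · apply cl_zero
    rw [abs_of_nonneg (by linarith)] at this
    apply div_nonpos_of_nonpos_of_nonneg
    · linarith
    · positivity

/-- **Dyadic gap labels.** -/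
theorem dyadic (μ : Measure ℝ) [IsProbabilityMeasure μ] (hμ : IsKNS μ) (x : ℝ)
    (hx : x ∉ μ.support) : ∃ j k : ℕ, (μ (Set.Iic x)).toReal = (j : ℝ) / 2 ^ k := by
  -- a null interval
  obtain ⟨δ, hδ, h0⟩ : ∃ δ, 0 < δ ∧ μ (Set.Ioo (x - δ) (x + δ)) = 0 := by
    rw [Measure.notMem_support_iff_exists] at hx
    obtain ⟨U, hU, hU0⟩ := hx
    obtain ⟨δ, hδ, hb⟩ := Metric.mem_nhds_iff.1 hU
    rw [Real.ball_eq_Ioo] at hb
    exact ⟨δ, hδ, measure_mono_null hb hU0⟩
  have hg := gap_all μ hμ x δ h0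
  obtain ⟨n₀, hn₀⟩ := doubling x δ hδ hg
  refine ⟨(D n₀ 1).lo x, n₀, ?_⟩
  -- the test function
  have hφ := hμ (fun t => cl ((x + δ - t) / (2 * δ))) (cl_cont.comp (by fun_prop))
    ⟨1, fun t => abs_cl _⟩
  have h1 : ∀ n, n₀ ≤ n → (∑ i, cl ((x + δ - ev n i) / (2 * δ))) / 2 ^ n =
      ((D n₀ 1).lo x : ℝ) / 2 ^ n₀ := by
    intro n hn
    rw [ev_eq, lo_of_gap n x δ hδ (hg n)]
    induction n, hn using Nat.le_induction with
    | base => rfl
    | succ n hn ih =>
      have h2 := hn₀ n hn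
      rw [add_comm 1 n] at h2
      rw [h2, ← ih, pow_succ]
      push_cast
      field_simp
  have h2 : Tendsto (fun n => (∑ i, cl ((x + δ - ev n i) / (2 * δ))) / 2 ^ n) atTop
      (𝓝 (((D n₀ 1).lo x : ℝ) / 2 ^ n₀)) := by
    apply tendsto_const_nhds.congr'
    filter_upwards [eventually_ge_atTop n₀] with n hn
    exact (h1 n hn).symm
  rw [tendsto_nhds_unique h2 hφ]
  have h3 : (fun t => cl ((x + δ - t) / (2 * δ))) =ᵐ[μ] (Set.Iic x).indicator 1 := by
    have h4 : ∀ᵐ t ∂μ, t ∉ Set.Ioo (x - δ) (x + δ) := measure_eq_zero_iff_ae_notMem.1 h0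
    filter_upwards [h4] with t ht
    by_cases htx : t ≤ x
    · rw [Set.indicator_of_mem (show t ∈ Set.Iic x from htx)]
      apply cl_one
      rw [le_div_iff₀ (by positivity)]
      by_contra h5
      push Not at h5
      exact ht ⟨by linarith, by linarith⟩
    · rw [Set.indicator_of_notMem (show t ∉ Set.Iic x from htx)]
      push Not at htx
      apply cl_zero
      apply div_nonpos_of_nonpos_of_nonneg _ (by positivity)
      by_contra h5
      push Not at h5
      exact ht ⟨by linarith, by linarith⟩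
  rw [integral_congr_ae h3, integral_indicator_one measurableSet_Iic]
  rfl

end

end Q82.Bas
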