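import Pool.Agent.Q82.Basilica4

/-! # Existence of the limit measure -/

namespace Q82.Bas

open scoped InnerProductSpace
open Word EigCount MeasureTheory Filter Topology

noncomputable section

/-- interlacing for perturbations which are invisible on a hyperplane -/
lemma lo_le_add_one {E : Type*} [NormedAddCommGroup E] [InnerProductSpace ℂ E] {X : Type*}
    [Fintype X] (D D' : Dg E X) (x δ : ℝ) (hδ : 0 < δ) (hg : ∀ i, δ ≤ |D.l i - x|)
    (p : E →ₗ[ℂ] ℂ) (h : ∀ f, p f = 0 → D.q x f = D'.q x f) : D.lo x ≤ D'.lo x + 1 := by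
  classical
  by_contra hlt
  push Not at hlt
  let W := D.inc fun i => D.l i < x
  let L : ({i // D.l i < x} → ℂ) →ₗ[ℂ] ({i // D'.l i < x} → ℂ) × ℂ :=
    (LinearMap.pi fun i : {i // D'.l i < x} => (innerSL ℂ (D'.e i)).toLinearMap ∘ₗ W).prod (p ∘ₗ W)
  have hL : ¬ Function.Injective L := by
    intro hinj
    have := LinearMap.finrank_le_finrank_of_injective hinj
    rw [Module.finrank_prod, Module.finrank_fintype_fun_eq_card,
      Module.finrank_fintype_fun_eq_card, Module.finrank_self, D.card_lo, D'.card_lo] at this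
    omega
  obtain ⟨c, hc, hc0⟩ : ∃ c, L c = 0 ∧ c ≠ 0 := by
    by_contra hno
    push Not at hno
    exact hL ((injective_iff_map_eq_zero L).2 hno)
  have h1 : ∀ i : {i // D'.l i < x}, ⟪D'.e i, W c⟫_ℂ = 0 := fun i =>
    congrFun (congrArg Prod.fst hc) i
  have h2 : p (W c) = 0 := congrArg Prod.snd hc
  have h3 : W c ≠ 0 := D.inc_ne _ c hc0
  have h4 := D.q_inc_lo x δ hg c
  rw [show D.inc (fun i => D.l i < x) c = W c from rfl, h _ h2, D'.q_eq] at h4
  have h5 : 0 ≤ ∑ i, (D'.l i - x) * ‖⟪D'.e i, W c⟫_ℂ‖ ^ 2 := by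
    apply Finset.sum_nonneg
    intro i _
    by_cases hi : D'.l i < x
    · rw [h1 ⟨i, hi⟩]; simp
    · exact mul_nonneg (by linarith) (by positivity)
  have h6 : 0 < ‖W c‖ ^ 2 := by positivity
  nlinarith

lemma T_inner (n : ℕ) (ζ ξ : ℂ) (f : EuclideanSpace ℂ (Word n)) (hf : f (ones n) = 0) :
    ⟪f, T n ζ f⟫_ℂ = ⟪f, T n ξ f⟫_ℂ := by
  rw [PiLp.inner_apply, PiLp.inner_apply]
  apply Finset.sum_congr rfl
  intro y _
  by_cases hy : y = ones n
  · rw [hy, hf]
    simp
  · congr 1
    unfold T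
    rw [app_eq, app_eq]
    congr 2
    apply Finset.sum_congr rfl
    intro s _
    congr 1
    · simp [fl, hy]
    · by_cases hy' : (perm n s).symm y = ones n
      · rw [hy', hf]
        simp
      · simp [fl, hy']

lemma q_same (n : ℕ) (ζ ξ : ℂ) (x : ℝ) (f : EuclideanSpace ℂ (Word n)) (hf : f (ones n) = 0) :
    (D n ζ).q x f = (D n ξ).q x f := by
  unfold Dg.q
  rw [D_T, D_T, T_inner n ζ ξ f hf]

/-- evaluation at the word `1^n` -/
def pe (n : ℕ) : EuclideanSpace ℂ (Word n) →ₗ[ℂ] ℂ where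
  toFun f := f (ones n)
  map_add' _ _ := rfl
  map_smul' _ _ := rfl

/-- the exceptional points -/
def Zs : Set ℝ := ⋃ n, (Set.range (D n 1).l ∪ Set.range (D n (-1)).l)

lemma Zs_countable : Zs.Countable := by
  apply Set.countable_iUnion
  intro n
  exact (Set.countable_range _).union (Set.countable_range _)

lemma gap_of_ne {n : ℕ} {ζ : ℂ} {x : ℝ} (h : ∀ i, (D n ζ).l i ≠ x) :
    ∃ δ, 0 < δ ∧ ∀ i, δ ≤ |(D n ζ).l i - x| := by
  obtain ⟨i₀, hi₀⟩ := @Finite.exists_min _ _ _ ⟨ones n⟩ _ fun i => |(D n ζ).l i - x|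
  exact ⟨_, abs_pos.2 (sub_ne_zero.2 (h i₀)), hi₀⟩

lemma almost_doubling (n : ℕ) (x : ℝ) (hx : x ∉ Zs) :
    |((D (n + 1) 1).lo x : ℝ) / 2 ^ (n + 1) - ((D n 1).lo x : ℝ) / 2 ^ n| ≤ 1 / 2 / 2 ^ n := by
  have hne : ∀ m i, (D m 1).l i ≠ x := by
    intro m i h
    exact hx (Set.mem_iUnion.2 ⟨m, Or.inl ⟨i, h⟩⟩)
  have hne' : ∀ m i, (D m (-1)).l i ≠ x := by
    intro m i h
    exact hx (Set.mem_iUnion.2 ⟨m, Or.inr ⟨i, h⟩⟩)
  have h1 := lo_next n x (hne _) (hne _) (hne' _)
  rw [add_comm 1 n] at h1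
  obtain ⟨δ, hδ, hg⟩ := gap_of_ne (hne n)
  obtain ⟨δ', hδ', hg'⟩ := gap_of_ne (hne' n)
  have h2 := lo_le_add_one (D n 1) (D n (-1)) x δ hδ hg (pe n) fun f hf => q_same n _ _ x f hf
  have h3 := lo_le_add_one (D n (-1)) (D n 1) x δ' hδ' hg' (pe n) fun f hf => q_same n _ _ x f hf
  have h4 : ((D n 1).lo x : ℝ) ≤ (D n (-1)).lo x + 1 := by exact_mod_cast h2
  have h5 : ((D n (-1)).lo x : ℝ) ≤ (D n 1).lo x + 1 := by exact_mod_cast h3
  have h6 : ((D (n + 1) 1).lo x : ℝ) / 2 ^ (n + 1) - ((D n 1).lo x : ℝ) / 2 ^ n =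
      (((D n (-1)).lo x : ℝ) - (D n 1).lo x) / 2 / 2 ^ n := by
    rw [h1, pow_succ]
    push_cast
    field_simp
    ring
  rw [h6, abs_div, abs_div, abs_of_pos (show (0 : ℝ) < 2 ^ n by positivity),
    abs_of_pos (show (0 : ℝ) < 2 by norm_num)]
  apply div_le_div_of_nonneg_right _ (by positivity)
  apply div_le_div_of_nonneg_right _ (by positivity)
  rw [abs_le]
  constructor <;> linarith

lemma lo_conv (x : ℝ) (hx : x ∉ Zs) :
    ∃ a, Tendsto (fun n => ((D n 1).lo x : ℝ) / 2 ^ n) atTop (𝓝 a) := by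
  apply cauchySeq_tendsto_of_complete
  apply cauchySeq_of_le_geometric_two (C := 1)
  intro n
  rw [dist_comm, Real.dist_eq]
  exact almost_doubling n x hx

lemma ev_bound (n : ℕ) (i : Word n) : 0 ≤ (D n 1).l i ∧ (D n 1).l i ≤ 2 := by
  have h1 : ‖(D n 1).e i‖ = 1 := (D n 1).e.orthonormal.1 i
  have h2 : ∀ f, Matrix.toEuclideanLin (H (perm n) fun _ _ => (0 : ℂ)) f = f := by
    intro f
    ext y
    rw [app_eq]
    simp
  have h3 := diff_unif (perm n) (fl n 1) (fun _ _ => 0) 1 zero_le_one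
    (by intro s x; rw [fl_one]; simp) ((D n 1).e i)
  rw [h2, h1, mul_one, show Matrix.toEuclideanLin (H (perm n) (fl n 1)) ((D n 1).e i) =
    (D n 1).T ((D n 1).e i) from rfl, (D n 1).he] at h3
  have h4 : ((D n 1).l i : ℂ) • (D n 1).e i - (D n 1).e i =
      (((D n 1).l i - 1 : ℝ) : ℂ) • (D n 1).e i := by
    push_cast
    rw [sub_smul, one_smul]
  rw [h4, norm_smul, h1, mul_one, Complex.norm_real, Real.norm_eq_abs, abs_le] at h3
  constructor <;> linarith [h3.1, h3.2]

lemma cauchy_of_approx (a : ℕ → ℝ) (h : ∀ ε > 0, ∃ b : ℕ → ℝ, CauchySeq b ∧ ∀ n, |a n - b n| ≤ ε) :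
    CauchySeq a := by
  rw [Metric.cauchySeq_iff]
  intro ε hε
  obtain ⟨b, hb, hab⟩ := h (ε / 4) (by positivity)
  rw [Metric.cauchySeq_iff] at hb
  obtain ⟨N, hN⟩ := hb (ε / 4) (by positivity)
  refine ⟨N, fun m hm n hn => ?_⟩
  have h1 := hN m hm n hn
  rw [Real.dist_eq] at h1 ⊢
  have h2 := hab m
  have h3 := hab n
  have h4 : |a m - a n| ≤ |a m - b m| + |b m - b n| + |a n - b n| := by
    have e : a m - a n = (a m - b m) + (b m - b n) + -(a n - b n) := by ring
    rw [e]
    refine (abs_add_le _ _).trans ?_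
    rw [abs_neg]
    exact add_le_add (abs_add_le _ _) le_rfl
  linarith

/-- the averages of uniformly continuous functions converge -/
lemma av_cauchy (f : ℝ → ℝ) (hf : UniformContinuous f) :
    CauchySeq fun n => (∑ i, f ((D n 1).l i)) / (2 : ℝ) ^ n := by
  classical
  apply cauchy_of_approx
  intro ε hε
  obtain ⟨ω, hω, hfω⟩ := Metric.uniformContinuous_iff.1 hf ε hε
  set h := ω / 2 with hh
  have hh0 : 0 < h := by positivity
  have hex : ∀ j : ℕ, ∃ t, t ∉ Zs ∧ ((j : ℝ) - 1) * h < t ∧ t < j * h := by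
    intro j
    have hd : Dense Zsᶜ := Zs_countable.dense_compl ℝ
    obtain ⟨t, ht, h1⟩ := hd.exists_between (show ((j : ℝ) - 1) * h < j * h by nlinarith)
    exact ⟨t, ht, h1.1, h1.2⟩
  choose t htZ ht1 ht2 using hex
  obtain ⟨N, hN⟩ := exists_nat_gt (2 / h + 1)
  have hN2 : 2 < ((N : ℝ) - 1) * h := by
    rw [← div_lt_iff₀ hh0]
    linarith
  -- the approximating sequence
  refine ⟨fun n => ∑ j ∈ Finset.range N, f (t j) *
    (((D n 1).lo (t (j + 1)) : ℝ) / 2 ^ n - ((D n 1).lo (t j) : ℝ) / 2 ^ n), ?_, ?_⟩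
  · choose a ha using fun j => lo_conv (t j) (htZ j)
    have : Tendsto (fun n => ∑ j ∈ Finset.range N, f (t j) *
        (((D n 1).lo (t (j + 1)) : ℝ) / 2 ^ n - ((D n 1).lo (t j) : ℝ) / 2 ^ n)) atTop
        (𝓝 (∑ j ∈ Finset.range N, f (t j) * (a (j + 1) - a j))) := by
      apply tendsto_finsetSum
      intro j _
      exact ((ha (j + 1)).sub (ha j)).const_mul _
    exact this.cauchySeq
  · intro n
    let u : ℕ → ℝ → ℝ := fun j l => if l < t j then 1 else 0
    have hlo : ∀ j, ((D n 1).lo (t j) : ℝ) = ∑ i, u j ((D n 1).l i) := by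
      intro j
      unfold Dg.lo
      rw [Finset.card_eq_sum_ones, Finset.sum_filter]
      push_cast
      rfl
    have hu : ∀ j l, 0 ≤ u (j + 1) l - u j l ∧
        (u (j + 1) l - u j l ≠ 0 → |f l - f (t j)| ≤ ε) := by
      intro j l
      have h1 := ht2 j
      have h2 := ht1 (j + 1)
      have h3 := ht1 j
      have h4 := ht2 (j + 1)
      push_cast at h2 h4
      have hmono : t j < t (j + 1) := by
        have : ((j : ℝ) + 1 - 1) * h = j * h := by ring
        linarith
      simp only [u]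
      by_cases ha : l < t j
      · rw [if_pos ha, if_pos (ha.trans hmono)]
        simp
      · rw [if_neg ha]
        by_cases hb : l < t (j + 1)
        · rw [if_pos hb]
          refine ⟨by norm_num, fun _ => ?_⟩
          have h5 : dist l (t j) < ω := by
            rw [Real.dist_eq, abs_of_nonneg (by linarith)]
            have : ((j : ℝ) + 1) * h - ((j : ℝ) - 1) * h = ω := by
              rw [hh]; ring
            linarith
          have h6 := hfω h5
          rw [Real.dist_eq] at h6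
          exact h6.le
        · rw [if_neg hb]
          simp
    have hpt : ∀ l, 0 ≤ l → l ≤ 2 →
        |f l - ∑ j ∈ Finset.range N, f (t j) * (u (j + 1) l - u j l)| ≤ ε := by
      intro l hl0 hl2
      have hone : ∑ j ∈ Finset.range N, (u (j + 1) l - u j l) = 1 := by
        rw [Finset.sum_range_sub (fun j => u j l) N]
        have h1 : l < t N := lt_trans (lt_of_le_of_lt hl2 hN2) (ht1 N)
        have h2 : ¬ l < t 0 := by
          have := ht2 0
          simp only [Nat.cast_zero, zero_mul] at this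
          linarith
        simp only [u]
        rw [if_pos h1, if_neg h2, sub_zero]
      have e1 : f l - ∑ j ∈ Finset.range N, f (t j) * (u (j + 1) l - u j l) =
          ∑ j ∈ Finset.range N, (f l - f (t j)) * (u (j + 1) l - u j l) := by
        simp_rw [sub_mul]
        rw [Finset.sum_sub_distrib, ← Finset.mul_sum, hone, mul_one]
      rw [e1]
      calc |∑ j ∈ Finset.range N, (f l - f (t j)) * (u (j + 1) l - u j l)|
          ≤ ∑ j ∈ Finset.range N, |(f l - f (t j)) * (u (j + 1) l - u j l)| :=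
            Finset.abs_sum_le_sum_abs _ _
        _ ≤ ∑ j ∈ Finset.range N, ε * (u (j + 1) l - u j l) := by
            apply Finset.sum_le_sum
            intro j _
            rw [abs_mul, abs_of_nonneg (hu j l).1]
            by_cases h0 : u (j + 1) l - u j l = 0
            · rw [h0]; simp
            · exact mul_le_mul_of_nonneg_right ((hu j l).2 h0) (hu j l).1
        _ = ε := by rw [← Finset.mul_sum, hone, mul_one]
    have e2 : (∑ i, f ((D n 1).l i)) / (2 : ℝ) ^ n - ∑ j ∈ Finset.range N, f (t j) *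
        (((D n 1).lo (t (j + 1)) : ℝ) / 2 ^ n - ((D n 1).lo (t j) : ℝ) / 2 ^ n) =
        (∑ i, (f ((D n 1).l i) - ∑ j ∈ Finset.range N, f (t j) *
          (u (j + 1) ((D n 1).l i) - u j ((D n 1).l i)))) / (2 : ℝ) ^ n := by
      rw [Finset.sum_sub_distrib, sub_div, Finset.sum_comm]
      congr 1
      rw [Finset.sum_div]
      apply Finset.sum_congr rfl
      intro j _
      rw [hlo, hlo, ← Finset.mul_sum, Finset.sum_sub_distrib]
      ring
    show |(∑ i, f ((D n 1).l i)) / (2 : ℝ) ^ n - ∑ j ∈ Finset.range N, f (t j) *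
        (((D n 1).lo (t (j + 1)) : ℝ) / 2 ^ n - ((D n 1).lo (t j) : ℝ) / 2 ^ n)| ≤ ε
    rw [e2, abs_div, abs_of_pos (show (0 : ℝ) < 2 ^ n by positivity), div_le_iff₀ (by positivity)]
    calc |∑ i, (f ((D n 1).l i) - ∑ j ∈ Finset.range N, f (t j) *
          (u (j + 1) ((D n 1).l i) - u j ((D n 1).l i)))|
        ≤ ∑ i, |f ((D n 1).l i) - ∑ j ∈ Finset.range N, f (t j) *
          (u (j + 1) ((D n 1).l i) - u j ((D n 1).l i))| := Finset.abs_sum_le_sum_abs _ _
      _ ≤ ∑ _i : Word n, ε := Finset.sum_le_sum fun i _ => hpt _ (ev_bound n i).1 (ev_bound n i).2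
      _ = ε * 2 ^ n := by
          rw [Finset.sum_const, Finset.card_univ, card_word, nsmul_eq_mul]
          push_cast
          ring

/-- the interval containing all the spectra -/
abbrev I2 : Type := Set.Icc (0 : ℝ) 2

/-- eigenvalues as points of the interval -/
def pt (n : ℕ) (i : Word n) : I2 := ⟨(D n 1).l i, ev_bound n i⟩

lemma avg_conv (g : I2 → ℝ) (hg : Continuous g) :
    ∃ a, Tendsto (fun n => (∑ i, g (pt n i)) / (2 : ℝ) ^ n) atTop (𝓝 a) := by
  have h02 : (0 : ℝ) ≤ 2 := by norm_num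
  have h1 : UniformContinuous (fun t => g (Set.projIcc 0 2 h02 t)) :=
    (CompactSpace.uniformContinuous_of_continuous hg).comp
      (LipschitzWith.projIcc h02).uniformContinuous
  obtain ⟨a, ha⟩ := cauchySeq_tendsto_of_complete (av_cauchy _ h1)
  refine ⟨a, ha.congr fun n => ?_⟩
  congr 1
  apply Finset.sum_congr rfl
  intro i _
  rw [Set.projIcc_of_mem h02 (ev_bound n i)]
  rfl

open CompactlySupported

/-- the limit functional -/
def Lam0 (g : I2 → ℝ) : ℝ := limUnder atTop fun n => (∑ i, g (pt n i)) / (2 : ℝ) ^ n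

lemma Lam0_tendsto (g : I2 → ℝ) (hg : Continuous g) :
    Tendsto (fun n => (∑ i, g (pt n i)) / (2 : ℝ) ^ n) atTop (𝓝 (Lam0 g)) :=
  tendsto_nhds_limUnder (avg_conv g hg)

def Lam : C_c(I2, ℝ) →ₚ[ℝ] ℝ := PositiveLinearMap.mk₀
  { toFun := fun g => Lam0 g
    map_add' := by
      intro f g
      apply tendsto_nhds_unique (Lam0_tendsto _ (f + g).continuous)
      refine ((Lam0_tendsto _ f.continuous).add (Lam0_tendsto _ g.continuous)).congr fun n => ?_
      rw [← add_div, ← Finset.sum_add_distrib]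
      rfl
    map_smul' := by
      intro c g
      apply tendsto_nhds_unique (Lam0_tendsto _ (c • g).continuous)
      refine ((Lam0_tendsto _ g.continuous).const_mul c).congr fun n => ?_
      rw [← mul_div_assoc, Finset.mul_sum]
      rfl }
  (by
    intro g hg
    apply ge_of_tendsto' (Lam0_tendsto _ g.continuous)
    intro n
    apply div_nonneg _ (by positivity)
    apply Finset.sum_nonneg
    intro i _
    exact hg (pt n i))

/-- **Existence of the limit measure.** -/
theorem exists_kns : ∃ μ : Measure ℝ, IsProbabilityMeasure μ ∧ IsKNS μ := by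
  set μ₀ := RealRMK.rieszMeasure Lam with hμ₀
  have hint : ∀ g : I2 → ℝ, Continuous g → ∫ t, g t ∂μ₀ = Lam0 g := by
    intro g hg
    exact RealRMK.integral_rieszMeasure Lam
      (CompactlySupportedContinuousMap.continuousMapEquiv (⟨g, hg⟩ : C(I2, ℝ)))
  have hKNS : IsKNS (μ₀.map Subtype.val) := by
    intro f hf _
    have e1 : ∫ t : I2, f t ∂μ₀ = Lam0 (f ∘ Subtype.val) :=
      hint _ (hf.comp continuous_subtype_val)
    rw [integral_map measurable_subtype_coe.aemeasurable hf.aestronglyMeasurable, e1]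
    refine (Lam0_tendsto _ (hf.comp continuous_subtype_val)).congr fun n => ?_
    rw [ev_eq]
    rfl
  refine ⟨μ₀.map Subtype.val, ?_, hKNS⟩
  have h1 := hKNS (fun _ => 1) continuous_const ⟨1, fun _ => by simp⟩
  have h2 : Tendsto (fun n => (∑ _i : Word n, (1 : ℝ)) / 2 ^ n) atTop (𝓝 1) := by
    apply tendsto_const_nhds.congr
    intro n
    rw [Finset.sum_const, Finset.card_univ, card_word]
    simp
  have h3 := tendsto_nhds_unique h1 h2
  rw [integral_const, smul_eq_mul, mul_one] at h3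
  constructor
  have h4 : (μ₀.map Subtype.val).real Set.univ = 1 := h3
  have := congrArg ENNReal.ofReal h4
  rw [ofReal_measureReal, ENNReal.ofReal_one] at this
  exact this

end

end Q82.Bas
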