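import Mathlib

/-! # Elementary facts on contraction semigroups and their generators -/

namespace Q82.C0Sg

open Filter Topology Set

variable {E : Type} [NormedAddCommGroup E] [NormedSpace ℝ E]

/-- strongly continuous contraction semigroups -/
structure IsCSg (S : ℝ → E →L[ℝ] E) : Prop where
  zero : S 0 = 1
  add : ∀ s t, 0 ≤ s → 0 ≤ t → S (s + t) = S s * S t
  cont : ∀ x, ContinuousOn (fun t => S t x) (Ici 0)
  contr : ∀ t, 0 ≤ t → ‖S t‖ ≤ 1

/-- `x` is in the domain of the generator, and the value there is `y` -/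
def Gen (S : ℝ → E →L[ℝ] E) (x y : E) : Prop :=
  Tendsto (fun t : ℝ => t⁻¹ • (S t x - x)) (𝓝[>] 0) (𝓝 y)

variable {S : ℝ → E →L[ℝ] E}

lemma Gen.unique {x y y' : E} (h : Gen S x y) (h' : Gen S x y') : y = y' :=
  tendsto_nhds_unique h h'

lemma IsCSg.norm_le (hS : IsCSg S) {t : ℝ} (ht : 0 ≤ t) (x : E) : ‖S t x‖ ≤ ‖x‖ := by
  have := (S t).le_opNorm x
  have h2 := hS.contr t ht
  nlinarith [norm_nonneg x]

lemma deriv_right (hS : IsCSg S) {x y : E} (h : Gen S x y) {t : ℝ} (ht : 0 ≤ t) :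
    HasDerivWithinAt (fun t => S t x) (S t y) (Ici t) t := by
  rw [hasDerivWithinAt_iff_tendsto_slope]
  have e : Ici t \ {t} = Ioi t := by
    ext s
    rw [Set.mem_sdiff]
    constructor
    · rintro ⟨h1, h2⟩; exact lt_of_le_of_ne h1 (Ne.symm h2)
    · intro h1
      have h1' : t < s := h1
      exact ⟨mem_Ici.2 h1'.le, h1'.ne'⟩
  rw [e]
  have h1 : Tendsto (fun τ : ℝ => τ - t) (𝓝[>] t) (𝓝[>] 0) := by
    rw [tendsto_nhdsWithin_iff]
    constructor
    · have : Tendsto (fun τ : ℝ => τ - t) (𝓝 t) (𝓝 (t - t)) :=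
        (continuous_id.sub continuous_const).tendsto t
      rw [sub_self] at this
      exact this.mono_left nhdsWithin_le_nhds
    · filter_upwards [self_mem_nhdsWithin] with τ hτ
      have hτ2 : t < τ := hτ
      exact sub_pos.2 hτ2
  have h2 := (((S t).continuous.tendsto y).comp h).comp h1
  refine h2.congr' ?_
  filter_upwards [self_mem_nhdsWithin] with τ hτ
  have hτ2 : t < τ := hτ
  have hτ' : 0 < τ - t := sub_pos.2 hτ2
  have e2 : S τ = S t * S (τ - t) := by
    rw [← hS.add t (τ - t) ht hτ'.le]; congr 1; ring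
  simp only [Function.comp, slope, vsub_eq_sub]
  rw [e2, map_smul, map_sub]
  rfl

lemma diff_bound (hS : IsCSg S) {x y : E} (h : Gen S x y) {t C : ℝ} (ht : 0 ≤ t)
    (hC : ∀ s ∈ Icc 0 t, ‖S s y - y‖ ≤ C) : ‖S t x - x - t • y‖ ≤ C * t := by
  have hcont : ContinuousOn (fun s => S s x - s • y) (Icc 0 t) := by
    apply ContinuousOn.sub
    · exact (hS.cont x).mono Icc_subset_Ici_self
    · exact (continuous_id.smul continuous_const).continuousOn
  have hder : ∀ s ∈ Ico 0 t, HasDerivWithinAt (fun s => S s x - s • y) (S s y - y) (Ici s) s := by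
    intro s hs
    have h1 := deriv_right hS h hs.1
    have h2 : HasDerivWithinAt (fun s : ℝ => s • y) ((1 : ℝ) • y) (Ici s) s :=
      ((hasDerivAt_id s).smul_const y).hasDerivWithinAt
    rw [one_smul] at h2
    exact h1.sub h2
  have := norm_image_sub_le_of_norm_deriv_right_le_segment hcont hder
    (fun s hs => hC s ⟨hs.1, hs.2.le⟩) t ⟨ht, le_rfl⟩
  simp only [hS.zero, zero_smul, sub_zero] at this
  rw [show S t x - x - t • y = S t x - t • y - (1 : E →L[ℝ] E) x by
    simp only [one_apply_eq_self]; abel]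
  exact this

/-- the generator is closed -/
lemma gen_closed (hS : IsCSg S) {x y : E}
    (h : ∀ ε : ℝ, 0 < ε → ∃ x' y', Gen S x' y' ∧ ‖x' - x‖ ≤ ε ∧ ‖y' - y‖ ≤ ε) : Gen S x y := by
  have hy : Tendsto (fun t => S t y) (𝓝[≥] 0) (𝓝 y) := by
    have := (hS.cont y) 0 self_mem_Ici
    rw [ContinuousWithinAt, hS.zero] at this
    exact this
  have key : ∀ t C : ℝ, 0 ≤ t → (∀ s ∈ Icc 0 t, ‖S s y - y‖ ≤ C) → ‖S t x - x - t • y‖ ≤ C * t := by
    intro t C ht hC
    apply le_of_forall_pos_le_add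
    intro η hη
    set ε : ℝ := η / (2 + 3 * t) with hε
    have hε0 : 0 < ε := by positivity
    obtain ⟨x', y', h1, h2, h3⟩ := h ε hε0
    have h4 : ∀ s ∈ Icc 0 t, ‖S s y' - y'‖ ≤ C + 2 * ε := by
      intro s hs
      have e : S s y' - y' = (S s y - y) + (S s (y' - y) - (y' - y)) := by
        rw [map_sub]; abel
      rw [e]
      have h5 := hS.norm_le hs.1 (y' - y)
      calc ‖(S s y - y) + (S s (y' - y) - (y' - y))‖
          ≤ ‖S s y - y‖ + (‖S s (y' - y)‖ + ‖y' - y‖) :=
            (norm_add_le _ _).trans (add_le_add_right (norm_sub_le _ _) _)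
        _ ≤ C + 2 * ε := by linarith [hC s hs]
    have h5 := diff_bound hS h1 ht h4
    have e : S t x - x - t • y = (S t x' - x' - t • y') - (S t (x' - x) - (x' - x) - t • (y' - y)) := by
      rw [map_sub, smul_sub]; abel
    rw [e]
    have h6 := hS.norm_le ht (x' - x)
    have h7 : ‖t • (y' - y)‖ ≤ t * ε := by
      rw [norm_smul, Real.norm_of_nonneg ht]
      gcongr
    have hηε : η = ε * (2 + 3 * t) := by rw [hε]; field_simp
    calc ‖(S t x' - x' - t • y') - (S t (x' - x) - (x' - x) - t • (y' - y))‖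
        ≤ ‖S t x' - x' - t • y'‖ + (‖S t (x' - x)‖ + ‖x' - x‖ + ‖t • (y' - y)‖) := by
          refine (norm_sub_le _ _).trans (add_le_add_right ?_ _)
          refine (norm_sub_le _ _).trans (add_le_add_left (norm_sub_le _ _) _)
      _ ≤ C * t + η := by
          rw [hηε]; nlinarith
  rw [Gen, Metric.tendsto_nhds]
  intro ε hε
  have h1 : ∀ᶠ t in 𝓝[≥] (0 : ℝ), ‖S t y - y‖ < ε / 2 := by
    have := hy.eventually (Metric.ball_mem_nhds y (half_pos hε))
    filter_upwards [this] with t ht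
    rwa [dist_eq_norm] at ht
  rw [eventually_nhdsWithin_iff, Metric.eventually_nhds_iff] at h1
  obtain ⟨δ, hδ, h2⟩ := h1
  filter_upwards [Ioo_mem_nhdsGT hδ] with t ht
  have ht0 : 0 < t := ht.1
  have h3 := key t (ε / 2) ht0.le (by
    intro s hs
    have : dist s 0 < δ := by
      rw [Real.dist_eq, sub_zero, abs_of_nonneg hs.1]; linarith [hs.2, ht.2]
    exact (h2 this hs.1).le)
  rw [dist_eq_norm]
  have e : t⁻¹ • (S t x - x) - y = t⁻¹ • (S t x - x - t • y) := by
    rw [smul_sub t⁻¹ (S t x - x), smul_smul, inv_mul_cancel₀ ht0.ne', one_smul]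
  rw [e, norm_smul, norm_inv, Real.norm_of_nonneg ht0.le]
  calc t⁻¹ * ‖S t x - x - t • y‖ ≤ t⁻¹ * (ε / 2 * t) := by gcongr
    _ = ε / 2 := by field_simp
    _ < ε := by linarith

end Q82.C0Sg
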