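import Mathlib

/-! Cantor-Bendixson derivatives of sets, indexed by ordinals. -/

set_option autoImplicit false

namespace Pool.Agent.Q82.CP

open Set Filter Topology

universe u v
variable {X : Type u} {Y : Type v} [TopologicalSpace X] [TopologicalSpace Y]

/-- The Cantor-Bendixson derivative of order `ξ` of a set. -/
def dr (S : Set X) (ξ : Ordinal.{0}) : Set X :=
  {x | x ∈ S ∧ ∀ η, ∀ _h : η < ξ, AccPt x (𝓟 (dr S η))}
termination_by ξ

theorem mem_dr {S : Set X} {ξ : Ordinal.{0}} {x : X} :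
    x ∈ dr S ξ ↔ x ∈ S ∧ ∀ η < ξ, AccPt x (𝓟 (dr S η)) := by
  rw [dr]; rfl

theorem dr_subset (S : Set X) (ξ : Ordinal.{0}) : dr S ξ ⊆ S := fun _ hx => (mem_dr.1 hx).1

theorem dr_anti (S : Set X) {η ξ : Ordinal.{0}} (h : η ≤ ξ) : dr S ξ ⊆ dr S η := fun x hx => by
  rw [mem_dr] at hx ⊢
  exact ⟨hx.1, fun ζ hζ => hx.2 ζ (hζ.trans_le h)⟩

theorem dr_zero (S : Set X) : dr S 0 = S := by
  ext x
  rw [mem_dr]
  exact ⟨fun h => h.1, fun h => ⟨h, fun η hη => absurd hη (not_lt.2 zero_le)⟩⟩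

theorem mem_dr_succ {S : Set X} {ξ : Ordinal.{0}} {x : X} :
    x ∈ dr S (ξ + 1) ↔ x ∈ S ∧ AccPt x (𝓟 (dr S ξ)) := by
  rw [mem_dr]
  constructor
  · rintro ⟨h1, h2⟩
    exact ⟨h1, h2 ξ (by simp)⟩
  · rintro ⟨h1, h2⟩
    refine ⟨h1, fun η hη => h2.mono ?_⟩
    exact principal_mono.2 (dr_anti S (Order.lt_add_one_iff.1 hη))

theorem isClosed_dr [T1Space X] {S : Set X} (hS : IsClosed S) (ξ : Ordinal.{0}) :
    IsClosed (dr S ξ) := by
  have : dr S ξ = S ∩ ⋂ (η : Ordinal.{0}) (_ : η < ξ), derivedSet (dr S η) := by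
    ext x
    rw [mem_dr]
    simp [derivedSet]
  rw [this]
  exact hS.inter (isClosed_iInter fun η => isClosed_iInter fun _ => isClosed_derivedSet _)

theorem accPt_inter_iff {A U : Set X} {x : X} (hU : U ∈ 𝓝 x) :
    AccPt x (𝓟 (A ∩ U)) ↔ AccPt x (𝓟 A) := by
  constructor
  · exact fun h => h.mono (principal_mono.2 inter_subset_left)
  · intro h
    rw [inter_comm]
    exact h.nhds_inter hU

theorem dr_inter_open (S : Set X) {U : Set X} (hU : IsOpen U) (ξ : Ordinal.{0}) :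
    dr (S ∩ U) ξ = dr S ξ ∩ U := by
  induction ξ using WellFoundedLT.induction with
  | ind ξ ih =>
    ext x
    rw [mem_inter_iff, mem_dr, mem_dr, mem_inter_iff]
    constructor
    · rintro ⟨⟨h1, h2⟩, h3⟩
      refine ⟨⟨h1, fun η hη => ?_⟩, h2⟩
      have := h3 η hη
      rw [ih η hη, accPt_inter_iff (hU.mem_nhds h2)] at this
      exact this
    · rintro ⟨⟨h1, h2⟩, h3⟩
      refine ⟨⟨h1, h3⟩, fun η hη => ?_⟩
      rw [ih η hη, accPt_inter_iff (hU.mem_nhds h3)]
      exact h2 η hη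

theorem dr_univ_inter {U : Set X} (hU : IsOpen U) (ξ : Ordinal.{0}) :
    dr U ξ = dr univ ξ ∩ U := by
  rw [← dr_inter_open univ hU, univ_inter]

theorem accPt_image_iff {f : X → Y} (hf : IsEmbedding f) {A : Set X} {x : X} :
    AccPt (f x) (𝓟 (f '' A)) ↔ AccPt x (𝓟 A) := by
  simp only [accPt_iff_frequently_nhdsNE]
  constructor
  · intro h
    rw [frequently_iff] at h ⊢
    intro U hU
    rw [mem_nhdsWithin_iff_exists_mem_nhds_inter] at hU
    obtain ⟨V, hV, hVU⟩ := hU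
    rw [hf.nhds_eq_comap] at hV
    obtain ⟨W, hW, hWV⟩ := hV
    obtain ⟨y, hy, a, ha, rfl⟩ := h (show W ∩ {f x}ᶜ ∈ 𝓝[≠] (f x) from
      inter_mem (mem_nhdsWithin_of_mem_nhds hW) self_mem_nhdsWithin)
    refine ⟨a, hVU ⟨hWV hy.1, ?_⟩, ha⟩
    rintro rfl
    exact hy.2 rfl
  · intro h
    have h2 : Tendsto f (𝓝[≠] x) (𝓝[≠] (f x)) := by
      refine tendsto_nhdsWithin_iff.2 ⟨hf.continuous.continuousAt.mono_left nhdsWithin_le_nhds, ?_⟩
      filter_upwards [self_mem_nhdsWithin] with y hy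
      exact fun e => hy (hf.injective e)
    exact h2.frequently (h.mono fun y hy => mem_image_of_mem f hy)

theorem image_dr {f : X → Y} (hf : IsEmbedding f) (S : Set X) (ξ : Ordinal.{0}) :
    f '' dr S ξ = dr (f '' S) ξ := by
  induction ξ using WellFoundedLT.induction with
  | ind ξ ih =>
    ext y
    constructor
    · rintro ⟨x, hx, rfl⟩
      rw [mem_dr] at hx ⊢
      refine ⟨mem_image_of_mem f hx.1, fun η hη => ?_⟩
      rw [← ih η hη, accPt_image_iff hf]
      exact hx.2 η hη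
    · intro hy
      rw [mem_dr] at hy
      obtain ⟨x, hx, rfl⟩ := hy.1
      refine ⟨x, ?_, rfl⟩
      rw [mem_dr]
      refine ⟨hx, fun η hη => ?_⟩
      have := hy.2 η hη
      rwa [← ih η hη, accPt_image_iff hf] at this

theorem dr_mono {S S' : Set X} (h : S ⊆ S') (ξ : Ordinal.{0}) : dr S ξ ⊆ dr S' ξ := by
  induction ξ using WellFoundedLT.induction with
  | ind ξ ih =>
    intro x hx
    rw [mem_dr] at hx ⊢
    exact ⟨h hx.1, fun η hη => (hx.2 η hη).mono (principal_mono.2 (ih η hη))⟩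

theorem dr_dr (S : Set X) (a ξ : Ordinal.{0}) : dr (dr S a) ξ = dr S (a + ξ) := by
  induction ξ using WellFoundedLT.induction with
  | ind ξ ih =>
    ext x
    constructor
    · intro hx
      rw [mem_dr] at hx
      have h1 := mem_dr.1 hx.1
      rw [mem_dr]
      refine ⟨h1.1, fun ζ hζ => ?_⟩
      rcases lt_or_ge ζ a with h | h
      · exact h1.2 ζ h
      · obtain ⟨η, rfl⟩ : ∃ η, ζ = a + η := ⟨ζ - a, (Ordinal.add_sub_cancel_of_le h).symm⟩
        have hη : η < ξ := by simpa using hζ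
        rw [← ih η hη]
        exact hx.2 η hη
    · intro hx
      rw [mem_dr]
      refine ⟨dr_anti S (by simp) hx, fun η hη => ?_⟩
      rw [ih η hη]
      exact (mem_dr.1 hx).2 _ (by simpa using hη)

/-- Off a closed set, derivatives of a union are local. -/
theorem dr_union_closed_inter_compl {A B : Set X} (hB : IsClosed B) (ξ : Ordinal.{0}) :
    dr (A ∪ B) ξ ∩ Bᶜ = dr A ξ ∩ Bᶜ := by
  rw [← dr_inter_open _ hB.isOpen_compl, ← dr_inter_open _ hB.isOpen_compl]
  congr 1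
  ext x
  simp only [mem_inter_iff, mem_union, mem_compl_iff]
  tauto

end Pool.Agent.Q82.CP
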