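import Pool.Agent.Q82.CP9

/-! The second necessary condition: one step. -/

set_option autoImplicit false

namespace Pool.Agent.Q82.CP

open Set Filter Topology

universe u v

section

variable {K : Type u} {L : Type v} [TopologicalSpace K] [TopologicalSpace L]

/-- The functionals `f ↦ T f y` on the unit ball are `e`-separated. -/
def Sep (T : C(K, ℝ) →ₗ[ℝ] C(L, ℝ)) (e : ℝ) : Prop :=
  ∀ y y' : L, y ≠ y' → ∃ f : C(K, ℝ), (∀ x, |f x| ≤ 1) ∧ e ≤ |T f y - T f y'|

theorem base [T2Space K] [Finite K] {T : C(K, ℝ) →ₗ[ℝ] C(L, ℝ)} {e : ℝ} (he : 0 < e)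
    (hS : Sep T e) : dr (univ : Set L) 1 = ∅ := by
  classical
  have := Fintype.ofFinite K
  rw [eq_empty_iff_forall_notMem]
  intro y₀ hy₀
  have h1 : AccPt y₀ (𝓟 (dr (univ : Set L) 0)) := (mem_dr.1 hy₀).2 0 zero_lt_one
  rw [dr_zero, accPt_iff_nhds] at h1
  have hsing : ∀ x : K, IsClopen ({x} : Set K) := fun x => ⟨isClosed_singleton, isOpen_discrete _⟩
  set δ : ℝ := e / (Fintype.card K + 1) with hδ
  have hδ0 : 0 < δ := by positivity
  have h2 : ∀ᶠ y in 𝓝 y₀, ∀ x : K, |T (ind {x}) y - T (ind {x}) y₀| < δ := by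
    rw [eventually_all]
    intro x
    have h3 : Tendsto (fun y => |T (ind {x}) y - T (ind {x}) y₀|) (𝓝 y₀) (𝓝 0) := by
      have : Continuous fun y => |T (ind {x}) y - T (ind {x}) y₀| := by fun_prop
      have h4 := this.tendsto y₀
      simpa using h4
    exact h3.eventually (gt_mem_nhds hδ0)
  obtain ⟨y, ⟨hy, -⟩, hyne⟩ := h1 _ h2
  obtain ⟨f, hf, hfe⟩ := hS y y₀ hyne
  have hdec : f = ∑ x : K, f x • ind ({x} : Set K) := by
    ext z
    rw [ContinuousMap.sum_apply, Finset.sum_eq_single z]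
    · simp [ind_mem (hsing z) (mem_singleton z)]
    · intro x _ hxz
      have : z ∉ ({x} : Set K) := fun h => hxz (by simpa using h.symm)
      simp [ind_notMem (hsing x) this]
    · simp
  have h5 : T f y - T f y₀ = ∑ x : K, f x * (T (ind {x}) y - T (ind {x}) y₀) := by
    conv_lhs => rw [hdec]
    rw [map_sum, ContinuousMap.sum_apply, ContinuousMap.sum_apply, ← Finset.sum_sub_distrib]
    refine Finset.sum_congr rfl fun x _ => ?_
    rw [map_smul, ContinuousMap.smul_apply, ContinuousMap.smul_apply, smul_eq_mul, smul_eq_mul]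
    ring
  have h6 : |T f y - T f y₀| ≤ ∑ _x : K, δ := by
    rw [h5]
    refine (Finset.abs_sum_le_sum_abs _ _).trans (Finset.sum_le_sum fun x _ => ?_)
    rw [abs_mul]
    have h7 : |T (ind {x}) y - T (ind {x}) y₀| < δ := hy x
    calc |f x| * |T (ind {x}) y - T (ind {x}) y₀| ≤ 1 * δ :=
        mul_le_mul (hf x) h7.le (abs_nonneg _) zero_le_one
      _ = δ := one_mul _
  rw [Finset.sum_const, Finset.card_univ, nsmul_eq_mul] at h6
  have h8 : (Fintype.card K + 1 : ℝ) * δ = e := by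
    rw [hδ]; field_simp
  nlinarith

open Classical in
/-- Extension by zero from a clopen set. -/
noncomputable def extz {U : Set K} (hU : IsClopen U) : C(U, ℝ) →ₗ[ℝ] C(K, ℝ) :=
  { toFun := fun f => ⟨fun x => if h : x ∈ U then f ⟨x, h⟩ else 0, by
      rw [continuous_iff_continuousAt]
      intro x
      by_cases hx : x ∈ U
      · have h1 := hU.isOpen.isOpenEmbedding_subtypeVal.continuousAt_iff
          (f := Subtype.val) (g := fun x => if h : x ∈ U then f ⟨x, h⟩ else 0) (x := (⟨x, hx⟩ : U))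
        refine h1.1 ?_
        have h2 : ((fun x => if h : x ∈ U then f ⟨x, h⟩ else 0) ∘ (Subtype.val : U → K)) = f := by
          funext z
          simp
        rw [h2]
        exact f.continuous.continuousAt
      · refine ContinuousAt.congr (f := fun _ => (0 : ℝ)) continuousAt_const ?_
        filter_upwards [hU.compl.isOpen.mem_nhds hx] with z hz
        have hz' : z ∉ U := hz
        simp [hz']⟩
    map_add' := fun f g => by
      ext x
      by_cases hx : x ∈ U <;> simp [hx]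
    map_smul' := fun c f => by
      ext x
      by_cases hx : x ∈ U <;> simp [hx] }

open Classical in
theorem extz_mem {U : Set K} (hU : IsClopen U) (f : C(U, ℝ)) {x : K} (hx : x ∈ U) :
    extz hU f x = f ⟨x, hx⟩ := by
  show (if h : x ∈ U then f ⟨x, h⟩ else 0) = _
  rw [dif_pos hx]

open Classical in
theorem extz_notMem {U : Set K} (hU : IsClopen U) (f : C(U, ℝ)) {x : K} (hx : x ∉ U) :
    extz hU f x = 0 := by
  show (if h : x ∈ U then f ⟨x, h⟩ else 0) = _
  rw [dif_neg hx]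

/-- Restriction of functions to a set. -/
noncomputable def resz (N : Set L) : C(L, ℝ) →ₗ[ℝ] C(N, ℝ) where
  toFun f := f.restrict N
  map_add' f g := rfl
  map_smul' c f := rfl

end

section

variable {K : Type u} [TopologicalSpace K] [CompactSpace K] [T2Space K] [Countable K]

theorem exists_clopen_between {A O : Set K} (hA : IsClosed A) (hO : IsOpen O) (h : A ⊆ O) :
    ∃ U, IsClopen U ∧ A ⊆ U ∧ U ⊆ O := by
  have h1 : ∀ x ∈ A, ∃ V : Set K, IsClopen V ∧ x ∈ V ∧ V ⊆ O := fun x hx =>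
    exists_clopen (hO.mem_nhds (h hx))
  choose! V hV1 hV2 hV3 using h1
  obtain ⟨t, ht1, ht2⟩ := hA.isCompact.elim_nhds_subcover V
    (fun x hx => (hV1 x hx).isOpen.mem_nhds (hV2 x hx))
  exact ⟨⋃ x ∈ t, V x, t.finite_toSet.isClopen_biUnion fun x hx => hV1 x (ht1 x hx), ht2,
    iUnion₂_subset fun x hx => hV3 x (ht1 x hx)⟩

theorem disj_clopens {F : Set K} (hF : F.Finite) {W : Set K} (hW : IsOpen W) (hFW : F ⊆ W) :
    ∃ V : K → Set K, (∀ x ∈ F, IsClopen (V x) ∧ x ∈ V x ∧ V x ⊆ W) ∧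
      ∀ x ∈ F, ∀ y ∈ F, x ≠ y → Disjoint (V x) (V y) := by
  obtain ⟨U, hU1, hU2⟩ := hF.t2_separation
  have h1 : ∀ x, x ∈ F → ∃ V : Set K, IsClopen V ∧ x ∈ V ∧ V ⊆ U x ∩ W := fun x hx =>
    exists_clopen (((hU1 x).2.inter hW).mem_nhds ⟨(hU1 x).1, hFW hx⟩)
  choose! V hV1 hV2 hV3 using h1
  exact ⟨V, fun x hx => ⟨hV1 x hx, hV2 x hx, fun z hz => (hV3 x hx hz).2⟩,
    fun x hx y hy hxy => (hU2 hx hy hxy).mono (fun z hz => (hV3 x hx hz).1)
      (fun z hz => (hV3 y hy hz).1)⟩

variable {L : Type v} [TopologicalSpace L]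

theorem small_part {T : C(K, ℝ) →ₗ[ℝ] C(L, ℝ)} (hT : IsPos T) {F U₁ : Set K} (hF : F.Finite)
    (hU₁ : IsClopen U₁) (hd : Disjoint U₁ F) {t δ : ℝ} {y : L} (h1 : t - δ < T (ind U₁) y)
    (h2 : ∀ U : Set K, IsClopen U → Disjoint U F → T (ind U) y ≤ t) {g : C(K, ℝ)}
    (hg : ∀ z, |g z| ≤ 2) (hgF : ∀ z ∈ F, g z = 0) (hgU : ∀ z ∈ U₁, g z = 0) :
    |T g y| ≤ 2 * δ := by
  refine le_of_forall_pos_le_add fun ε hε => ?_
  set ρ : ℝ := T 1 y with hρ
  have hρ0 : 0 ≤ ρ := hT.nonneg (fun x => by simp) y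
  set η : ℝ := ε / (ρ + 1) with hη
  have hη0 : 0 < η := by positivity
  have hcl : IsClosed {z | η ≤ |g z|} := isClosed_le continuous_const g.continuous.abs
  obtain ⟨U₂, hU₂, hA, hO⟩ := exists_clopen_between hcl
    (O := (F ∪ U₁)ᶜ) (hF.isClosed.union hU₁.isClosed).isOpen_compl (by
      intro z hz
      have hz' : η ≤ |g z| := hz
      rintro (h | h)
      · rw [hgF z h, abs_zero] at hz'; linarith
      · rw [hgU z h, abs_zero] at hz'; linarith)
  have hdis : Disjoint U₁ U₂ := by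
    rw [Set.disjoint_left]
    exact fun z h1 h2 => hO h2 (Or.inr h1)
  have h3 : T (ind U₁) y + T (ind U₂) y ≤ t := by
    have := h2 (U₁ ∪ U₂) (hU₁.union hU₂) (by
      rw [Set.disjoint_left]
      rintro z (hz | hz) hzF
      · exact Set.disjoint_left.1 hd hz hzF
      · exact hO hz (Or.inl hzF))
    rwa [ind_union hU₁ hU₂ hdis, map_add] at this
  have h4 : |T g y| ≤ T ((2 : ℝ) • ind U₂ + η • (1 : C(K, ℝ))) y := by
    refine hT.abs_le (fun z => ?_) y
    simp only [ContinuousMap.add_apply, ContinuousMap.smul_apply, ContinuousMap.one_apply,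
      smul_eq_mul, mul_one]
    by_cases hz : z ∈ U₂
    · rw [ind_mem hU₂ hz]
      linarith [hg z]
    · rw [ind_notMem hU₂ hz]
      have : ¬ η ≤ |g z| := fun h => hz (hA h)
      linarith [not_le.1 this]
  rw [map_add, map_smul, map_smul] at h4
  have h5 : |T g y| ≤ 2 * T (ind U₂) y + η * ρ := h4
  have h6 : η * ρ ≤ ε := by
    rw [hη, div_mul_eq_mul_div, div_le_iff₀ (by positivity)]
    nlinarith
  linarith

end

end Pool.Agent.Q82.CP
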