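import Pool.Agent.Q82.CP10

/-! The second necessary condition: the main step. -/

set_option autoImplicit false

namespace Pool.Agent.Q82.CP

open Set Filter Topology

universe u v

section

variable {K : Type u} [TopologicalSpace K] [CompactSpace K] [T2Space K] [Countable K]
variable {L : Type v} [TopologicalSpace L]

theorem sep_part {T : C(K, ℝ) →ₗ[ℝ] C(L, ℝ)} (hT : IsPos T) {e δ t : ℝ} (hδ : δ = e / 12)
    (he : 0 < e) (hS : Sep T e) (F : Finset K) {V : K → Set K}
    (hV : ∀ x ∈ F, IsClopen (V x) ∧ x ∈ V x)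
    (hVd : ∀ x ∈ F, ∀ y ∈ F, x ≠ y → Disjoint (V x) (V y)) {U₁ : Set K} (hU₁ : IsClopen U₁)
    (hUV : ∀ z, z ∈ U₁ ↔ ∀ x ∈ F, z ∉ V x) {N : Set L} {y₀ : L}
    (hN1 : ∀ y ∈ N, t - δ < T (ind U₁) y)
    (hN2 : ∀ y ∈ N, ∀ x ∈ F, |T (ind (V x)) y - T (ind (V x)) y₀| ≤ δ / (F.card + 1))
    (hN3 : ∀ y ∈ N, ∀ U : Set K, IsClopen U → Disjoint U F → T (ind U) y ≤ t) :
    Sep (resz N ∘ₗ T ∘ₗ extz hU₁) (e / 2) := by
  classical
  intro y y' hyy
  obtain ⟨f, hf, hfe⟩ := hS y.1 y'.1 (fun h => hyy (Subtype.ext h))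
  refine ⟨f.restrict U₁, fun x => hf x, ?_⟩
  set f₁ : C(K, ℝ) := extz hU₁ (f.restrict U₁) with hf₁
  set h : C(K, ℝ) := ∑ x ∈ F, f x • ind (V x) with hh
  set g : C(K, ℝ) := f - f₁ - h with hg
  have hUF : Disjoint U₁ (F : Set K) := by
    rw [Set.disjoint_left]
    intro z hz hzF
    exact (hUV z).1 hz z hzF (hV z hzF).2
  have hh1 : ∀ z ∈ U₁, h z = 0 := by
    intro z hz
    rw [hh, ContinuousMap.sum_apply]
    refine Finset.sum_eq_zero fun x hx => ?_
    rw [ContinuousMap.smul_apply, ind_notMem (hV x hx).1 ((hUV z).1 hz x hx), smul_zero]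
  have hh2 : ∀ x ∈ F, ∀ z ∈ V x, h z = f x := by
    intro x hx z hz
    rw [hh, ContinuousMap.sum_apply, Finset.sum_eq_single x]
    · rw [ContinuousMap.smul_apply, ind_mem (hV x hx).1 hz, smul_eq_mul, mul_one]
    · intro w hw hwx
      have : z ∉ V w := fun h1 => Set.disjoint_left.1 (hVd w hw x hx hwx) h1 hz
      rw [ContinuousMap.smul_apply, ind_notMem (hV w hw).1 this, smul_zero]
    · exact fun h1 => absurd hx h1
  have hgU : ∀ z ∈ U₁, g z = 0 := by
    intro z hz
    rw [hg, ContinuousMap.sub_apply, ContinuousMap.sub_apply, hh1 z hz, hf₁, extz_mem hU₁ _ hz]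
    simp
  have hgV : ∀ x ∈ F, ∀ z ∈ V x, g z = f z - f x := by
    intro x hx z hz
    have hzU : z ∉ U₁ := fun h1 => (hUV z).1 h1 x hx hz
    rw [hg, ContinuousMap.sub_apply, ContinuousMap.sub_apply, hh2 x hx z hz, hf₁,
      extz_notMem hU₁ _ hzU]
    ring
  have hg2 : ∀ z, |g z| ≤ 2 := by
    intro z
    by_cases hz : z ∈ U₁
    · rw [hgU z hz]; norm_num
    · rw [hUV] at hz
      push Not at hz
      obtain ⟨x, hx, hzx⟩ := hz
      rw [hgV x hx z hzx]
      calc |f z - f x| ≤ |f z| + |f x| := abs_sub _ _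
        _ ≤ 2 := by linarith [hf z, hf x]
  have hgF : ∀ z ∈ (F : Set K), g z = 0 := by
    intro z hz
    rw [hgV z hz z (hV z hz).2, sub_self]
  have hsmall : ∀ y ∈ N, |T g y| ≤ 2 * δ := fun y hy =>
    small_part hT F.finite_toSet hU₁ hUF (hN1 y hy) (hN3 y hy) hg2 hgF hgU
  have hfd : f = f₁ + h + g := by
    rw [hg]; abel
  have hδ0 : 0 < δ := by rw [hδ]; positivity
  have hTh : |T h y.1 - T h y'.1| ≤ 2 * δ := by
    have h1 : T h y.1 - T h y'.1 = ∑ x ∈ F, f x * (T (ind (V x)) y.1 - T (ind (V x)) y'.1) := by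
      rw [hh, map_sum, ContinuousMap.sum_apply, ContinuousMap.sum_apply,
        ← Finset.sum_sub_distrib]
      refine Finset.sum_congr rfl fun x _ => ?_
      rw [map_smul, ContinuousMap.smul_apply, ContinuousMap.smul_apply, smul_eq_mul, smul_eq_mul]
      ring
    rw [h1]
    have h2 : ∀ x ∈ F, |f x * (T (ind (V x)) y.1 - T (ind (V x)) y'.1)| ≤
        2 * (δ / (F.card + 1)) := by
      intro x hx
      rw [abs_mul]
      have a1 := hN2 y.1 y.2 x hx
      have a2 := hN2 y'.1 y'.2 x hx
      have a3 : |T (ind (V x)) y.1 - T (ind (V x)) y'.1| ≤ 2 * (δ / (F.card + 1)) := by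
        have : T (ind (V x)) y.1 - T (ind (V x)) y'.1 = (T (ind (V x)) y.1 - T (ind (V x)) y₀)
          - (T (ind (V x)) y'.1 - T (ind (V x)) y₀) := by ring
        rw [this]
        refine (abs_sub _ _).trans ?_
        linarith
      calc |f x| * |T (ind (V x)) y.1 - T (ind (V x)) y'.1| ≤ 1 * (2 * (δ / (F.card + 1))) :=
            mul_le_mul (hf x) a3 (abs_nonneg _) zero_le_one
        _ = _ := one_mul _
    refine (Finset.abs_sum_le_sum_abs _ _).trans ((Finset.sum_le_sum h2).trans ?_)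
    rw [Finset.sum_const, nsmul_eq_mul]
    have h3 : (F.card : ℝ) * (δ / (F.card + 1)) ≤ δ := by
      have hc : (0 : ℝ) < F.card + 1 := Nat.cast_add_one_pos _
      rw [mul_div_assoc', div_le_iff₀ hc]
      have hc2 : (0 : ℝ) ≤ F.card := Nat.cast_nonneg _
      nlinarith
    linarith
  have hTf : T f y.1 - T f y'.1 = (T f₁ y.1 - T f₁ y'.1) + (T h y.1 - T h y'.1) +
      (T g y.1 - T g y'.1) := by
    conv_lhs => rw [hfd]
    rw [map_add, map_add]
    simp only [ContinuousMap.add_apply]
    ring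
  have hTg : |T g y.1 - T g y'.1| ≤ 4 * δ := by
    refine (abs_sub _ _).trans ?_
    linarith [hsmall y.1 y.2, hsmall y'.1 y'.2]
  show e / 2 ≤ |T f₁ y.1 - T f₁ y'.1|
  have h5 : |T f y.1 - T f y'.1| ≤ |T f₁ y.1 - T f₁ y'.1| + 2 * δ + 4 * δ := by
    rw [hTf]
    refine (abs_add_le _ _).trans ?_
    have := abs_add_le (T f₁ y.1 - T f₁ y'.1) (T h y.1 - T h y'.1)
    linarith
  rw [hδ] at h5
  linarith

end

theorem ty_subtype {K : Type u} [TopologicalSpace K] {U : Set K} {a : Ordinal.{0}} {n : ℕ}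
    (h : Ty U a n) : Ty (univ : Set U) a n := by
  have h1 := image_val_dr U a
  refine ⟨?_, ?_, h.2.2⟩
  · have : (Subtype.val '' dr (univ : Set U) a).Finite := by rw [h1]; exact h.1
    exact this.of_finite_image Subtype.val_injective.injOn
  · rw [← ncard_image_of_injective _ Subtype.val_injective, h1, h.2.1]

/-- The statement of the induction, with bound `c` for the rank. -/
def PP (a c : Ordinal.{0}) : Prop :=
  ∀ (K : Type u) [TopologicalSpace K] [CompactSpace K] [T2Space K] [Countable K]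
    (L : Type v) [TopologicalSpace L] [CompactSpace L] [T2Space L] [Countable L]
    (T : C(K, ℝ) →ₗ[ℝ] C(L, ℝ)) (e : ℝ) (n : ℕ), IsPos T → 0 < e → Sep T e →
    Ty (univ : Set K) a n → dr (univ : Set L) c = ∅

theorem step_main {a : Ordinal.{0}} (ha : 1 ≤ a) (IH : ∀ a' < a, PP.{u, v} a' a) :
    PP.{u, v} a (a * Ordinal.omega0) := by
  intro K _ _ _ _ L _ _ _ _ T e n hT he hS hK
  classical
  set F : Finset K := hK.1.toFinset with hF
  have hFs : (F : Set K) = dr (univ : Set K) a := hK.1.coe_toFinset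
  set R : ℝ := ‖T 1‖ with hR
  set δ : ℝ := e / 12 with hδ
  have hδ0 : 0 < δ := by positivity
  have claim : ∀ j : ℕ, ∀ y ∈ dr (univ : Set L) (a * j), ∀ U : Set K, IsClopen U →
      Disjoint U F → T (ind U) y ≤ R - j * δ := by
    intro j
    induction j with
    | zero =>
      intro y _ U hU _
      have h1 : T (ind U) y ≤ T 1 y := hT.mono (fun z => by
        rw [ind_apply hU]; split_ifs <;> simp) y
      have h2 : T 1 y ≤ R := (le_abs_self _).trans ((T 1).norm_coe_le_norm y)
      simpa using h1.trans h2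
    | succ j ih =>
      intro y₀ hy₀ U hU hUF
      by_contra hcon
      rw [not_le] at hcon
      set t : ℝ := R - j * δ with ht
      have hgt : t - δ < T (ind U) y₀ := by
        have : R - ((j + 1 : ℕ) : ℝ) * δ = t - δ := by rw [ht]; push_cast; ring
        rwa [this] at hcon
      obtain ⟨V, hV, hVd⟩ := disj_clopens (F := (F : Set K)) F.finite_toSet
        hU.compl.isOpen (fun x hx => fun hxU => Set.disjoint_left.1 hUF hxU hx)
      set U₁ : Set K := (⋃ x ∈ F, V x)ᶜ with hU₁
      have hU₁c : IsClopen U₁ :=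
        (F.finite_toSet.isClopen_biUnion fun x hx => (hV x hx).1).compl
      have hUV : ∀ z, z ∈ U₁ ↔ ∀ x ∈ F, z ∉ V x := by
        intro z
        simp [hU₁]
      have hUU₁ : U ⊆ U₁ := fun z hz => (hUV z).2 fun x hx hzx => (hV x hx).2.2 hzx hz
      have hU₁F : Disjoint U₁ F := by
        rw [Set.disjoint_left]
        exact fun z hz hzF => (hUV z).1 hz z hzF (hV z hzF).2.1
      have hgt1 : t - δ < T (ind U₁) y₀ := by
        refine hgt.trans_le (hT.mono (fun z => ?_) y₀)
        rw [ind_apply hU, ind_apply hU₁c]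
        by_cases h1 : z ∈ U
        · simp [h1, hUU₁ h1]
        · simp only [h1, if_false]
          split_ifs <;> norm_num
      have hev : {y | t - δ < T (ind U₁) y ∧ ∀ x ∈ F, |T (ind (V x)) y - T (ind (V x)) y₀| <
          δ / (F.card + 1)} ∈ 𝓝 y₀ := by
        have e1 : ∀ᶠ y in 𝓝 y₀, t - δ < T (ind U₁) y :=
          (T (ind U₁)).continuous.continuousAt.eventually (lt_mem_nhds hgt1)
        have e2 : ∀ᶠ y in 𝓝 y₀, ∀ x ∈ F, |T (ind (V x)) y - T (ind (V x)) y₀| <
            δ / (F.card + 1) := by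
          rw [Filter.eventually_all_finset]
          intro x _
          have h3 : Tendsto (fun y => |T (ind (V x)) y - T (ind (V x)) y₀|) (𝓝 y₀) (𝓝 0) := by
            have : Continuous fun y => |T (ind (V x)) y - T (ind (V x)) y₀| := by fun_prop
            have h4 := this.tendsto y₀
            simpa using h4
          exact h3.eventually (gt_mem_nhds (div_pos hδ0 (Nat.cast_add_one_pos _)))
        exact e1.and e2
      obtain ⟨O, hO, hyO, hOs⟩ := exists_clopen hev
      set N : Set L := dr (univ : Set L) (a * j) ∩ O with hN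
      have hNcl : IsClosed N := (isClosed_dr isClosed_univ _).inter hO.isClosed
      have hSN : Sep (resz N ∘ₗ T ∘ₗ extz hU₁c) (e / 2) :=
        sep_part hT hδ he hS F (fun x hx => ⟨(hV x hx).1, (hV x hx).2.1⟩) hVd hU₁c hUV
          (fun y hy => (hOs hy.2).1) (fun y hy x hx => ((hOs hy.2).2 x hx).le)
          (fun y hy => ih y hy.1)
      have hTN : IsPos (resz N ∘ₗ T ∘ₗ extz hU₁c) := by
        intro f hf y
        refine hT.nonneg (fun x => ?_) y.1
        by_cases hx : x ∈ U₁
        · rw [extz_mem hU₁c _ hx]; exact hf _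
        · rw [extz_notMem hU₁c _ hx]
      have cU : CompactSpace U₁ := isCompact_iff_compactSpace.1 hU₁c.isClosed.isCompact
      have cN : CompactSpace N := isCompact_iff_compactSpace.1 hNcl.isCompact
      have hempty : dr (univ : Set N) a = ∅ := by
        rcases U₁.eq_empty_or_nonempty with h0 | hne
        · have : Finite U₁ := by rw [h0]; infer_instance
          have hb := base (half_pos he) hSN
          rw [← subset_empty_iff, ← hb]
          exact dr_anti univ ha
        · obtain ⟨a', n', h1⟩ := exists_ty hU₁c.isClosed hne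
          have haa : a' < a := by
            by_contra h2
            obtain ⟨z, hz⟩ := h1.nonempty
            have h3 := dr_anti U₁ (not_lt.1 h2) hz
            rw [dr_univ_inter hU₁c.isOpen, ← hFs] at h3
            exact Set.disjoint_left.1 hU₁F h3.2 h3.1
          exact IH a' haa U₁ N _ (e / 2) n' hTN (half_pos he) hSN (ty_subtype h1)
      have h6 : y₀ ∈ dr N a := by
        rw [hN, dr_inter_open _ hO.isOpen, dr_dr]
        refine ⟨?_, hyO⟩
        rw [Nat.cast_add, Nat.cast_one, mul_add_one] at hy₀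
        exact hy₀
      rw [← image_val_dr, hempty, image_empty] at h6
      exact h6
  obtain ⟨j, hj⟩ := exists_nat_gt (R / δ)
  rw [div_lt_iff₀ hδ0] at hj
  have hdj : dr (univ : Set L) (a * j) = ∅ := by
    rw [eq_empty_iff_forall_notMem]
    intro y hy
    have h1 := claim j y hy ∅ isClopen_empty (disjoint_bot_left)
    rw [ind_empty, map_zero, ContinuousMap.zero_apply] at h1
    linarith
  rw [← subset_empty_iff, ← hdj]
  refine dr_anti univ ?_
  gcongr
  exact (Ordinal.nat_lt_omega0 j).le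

end Pool.Agent.Q82.CP
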