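import Pool.Agent.Q82.CP11

/-! Assembly. -/

set_option autoImplicit false

namespace Pool.Agent.Q82.CP

open Set Filter Topology

universe u v

theorem mul_omega_le {a' g : Ordinal.{0}} (h : a' < Ordinal.omega0 ^ g) :
    a' * Ordinal.omega0 ≤ Ordinal.omega0 ^ g := by
  rw [Ordinal.mul_le_iff_of_isSuccLimit Ordinal.isSuccLimit_omega0]
  intro c hc
  obtain ⟨k, rfl⟩ := Ordinal.lt_omega0.1 hc
  have h1 : ∀ k : ℕ, a' * k < Ordinal.omega0 ^ g := by
    intro k
    induction k with
    | zero =>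
      rw [Nat.cast_zero, mul_zero]
      exact lt_of_le_of_lt zero_le h
    | succ k ih =>
      rw [Nat.cast_add, Nat.cast_one, mul_add_one]
      exact Ordinal.isPrincipal_add_omega0_opow g ih h
  exact (h1 k).le

/-- A positive bijection is an isomorphism of Banach spaces. -/
theorem exists_cle {K : Type u} {L : Type v} [TopologicalSpace K] [CompactSpace K]
    [TopologicalSpace L] [CompactSpace L] (T : C(K, ℝ) ≃ₗ[ℝ] C(L, ℝ))
    (hT : ∀ f, 0 ≤ f → 0 ≤ T f) : ∃ S : C(K, ℝ) ≃L[ℝ] C(L, ℝ), ∀ f, S f = T f := by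
  have hpos : IsPos (T : C(K, ℝ) →ₗ[ℝ] C(L, ℝ)) := hT
  have hc : Continuous T :=
    (LinearMap.mkContinuous (T : C(K, ℝ) →ₗ[ℝ] C(L, ℝ)) _ hpos.norm_le).continuous
  exact ⟨T.toContinuousLinearEquivOfContinuous hc, fun f => rfl⟩

theorem pp_zero {c : Ordinal.{0}} (hc : 1 ≤ c) : PP.{u, v} 0 c := by
  intro K _ _ _ _ L _ _ _ _ T e n _ he hS hK
  have h1 : (univ : Set K).Finite := by
    have := hK.1
    rwa [dr_zero] at this
  have : Finite K := finite_univ_iff.1 h1
  have hb := base he hS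
  rw [← subset_empty_iff, ← hb]
  exact dr_anti univ hc

theorem pp_mono {a c c' : Ordinal.{0}} (h : PP.{u, v} a c) (hc : c ≤ c') : PP.{u, v} a c' := by
  intro K _ _ _ _ L _ _ _ _ T e n h1 h2 h3 h4
  rw [← subset_empty_iff, ← h K L T e n h1 h2 h3 h4]
  exact dr_anti univ hc

theorem pp_all (a : Ordinal.{0}) (ha : 0 < a) : PP.{u, v} a (a * Ordinal.omega0) := by
  induction a using WellFoundedLT.induction with
  | ind a ih =>
    have ha1 : 1 ≤ a := Order.one_le_iff_pos.2 ha
    set g := Ordinal.log Ordinal.omega0 a with hg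
    have hw1 : Ordinal.omega0 ^ g ≤ a := Ordinal.opow_log_le_self _ ha.ne'
    have hw2 : a < Ordinal.omega0 ^ g * Ordinal.omega0 := by
      have := Ordinal.lt_opow_succ_log_self Ordinal.one_lt_omega0 a
      rwa [Ordinal.opow_succ] at this
    have hw0 : 0 < Ordinal.omega0.{0} ^ g := Ordinal.opow_pos g Ordinal.omega0_pos
    rcases eq_or_lt_of_le hw1 with hw | hw
    · refine step_main ha1 fun a' ha' => ?_
      rcases eq_or_ne a' 0 with rfl | h0
      · exact pp_zero ha1
      · refine pp_mono (ih a' ha' (pos_iff_ne_zero.2 h0)) ?_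
        rw [← hw]
        exact mul_omega_le (by rwa [hw])
    · intro K _ _ _ _ L _ _ _ _ T e n hT he hS hK
      obtain ⟨k, hk⟩ : ∃ k : ℕ, a < Ordinal.omega0 ^ g * k := by
        rw [Ordinal.lt_mul_iff_of_isSuccLimit Ordinal.isSuccLimit_omega0] at hw2
        obtain ⟨c, hc, hbc⟩ := hw2
        obtain ⟨k, rfl⟩ := Ordinal.lt_omega0.1 hc
        exact ⟨k, hbc⟩
      obtain ⟨X, tX, cX, t2X, coX, h1, S, hS1, -, -⟩ := exists_pos_le k K a n hK hw1 hk
      obtain ⟨S', hS'⟩ := exists_cle S hS1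
      obtain ⟨C, hC0, hbd⟩ := (S'.symm : C(K, ℝ) →L[ℝ] C(X, ℝ)).bound
      let T' : C(X, ℝ) →ₗ[ℝ] C(L, ℝ) := T ∘ₗ (S : C(X, ℝ) →ₗ[ℝ] C(K, ℝ))
      have hT' : IsPos T' := fun f hf => hT _ (hS1 f hf)
      have hSep : Sep T' (e / C) := by
        intro y y' hyy
        obtain ⟨f, hf, hfe⟩ := hS y y' hyy
        refine ⟨C⁻¹ • S.symm f, fun x => ?_, ?_⟩
        · have h2 : ‖f‖ ≤ 1 := by
            rw [ContinuousMap.norm_le _ zero_le_one]
            exact hf
          have h3 : S.symm f = S'.symm f := by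
            rw [ContinuousLinearEquiv.eq_symm_apply, hS', LinearEquiv.apply_symm_apply]
          have h4 : ‖S'.symm f‖ ≤ C := by
            have h9 : ‖S'.symm f‖ ≤ C * ‖f‖ := hbd f
            nlinarith
          have h5 : |S.symm f x| ≤ C := by
            rw [h3]
            exact ((S'.symm f).norm_coe_le_norm x).trans h4
          show |C⁻¹ * S.symm f x| ≤ 1
          rw [abs_mul, abs_of_pos (inv_pos.2 hC0), inv_mul_le_iff₀ hC0, mul_one]
          exact h5
        · have h6 : T' (C⁻¹ • S.symm f) = C⁻¹ • T f := by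
            rw [map_smul]
            show C⁻¹ • T (S (S.symm f)) = _
            rw [LinearEquiv.apply_symm_apply]
          rw [h6]
          show e / C ≤ |C⁻¹ * T f y - C⁻¹ * T f y'|
          rw [← mul_sub, abs_mul, abs_of_pos (inv_pos.2 hC0), div_eq_inv_mul]
          exact mul_le_mul_of_nonneg_left hfe (inv_pos.2 hC0).le
      have h7 := ih _ hw hw0 X L T' (e / C) 1 hT' (div_pos he hC0) hSep h1
      rw [← subset_empty_iff, ← h7]
      exact dr_anti univ (mul_le_mul_left hw1 _)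

theorem continuous_of_finite {K : Type u} {L : Type v} [TopologicalSpace K] [T2Space K]
    [Finite K] [TopologicalSpace L] (T : C(K, ℝ) →ₗ[ℝ] C(L, ℝ)) :
    @Continuous _ _ (ptop K) (ptop L) T := by
  classical
  have := Fintype.ofFinite K
  refine continuous_pt fun y => ?_
  have hsing : ∀ x : K, IsClopen ({x} : Set K) := fun x => ⟨isClosed_singleton, isOpen_discrete _⟩
  have h1 : ∀ f : C(K, ℝ), T f y = ∑ x : K, f x * T (ind {x}) y := by
    intro f
    have hdec : f = ∑ x : K, f x • ind ({x} : Set K) := by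
      ext z
      rw [ContinuousMap.sum_apply, Finset.sum_eq_single z]
      · simp [ind_mem (hsing z) (mem_singleton z)]
      · intro x _ hxz
        have : z ∉ ({x} : Set K) := fun h => hxz (by simpa using h.symm)
        simp [ind_notMem (hsing x) this]
      · simp
    conv_lhs => rw [hdec]
    rw [map_sum, ContinuousMap.sum_apply]
    refine Finset.sum_congr rfl fun x _ => ?_
    rw [map_smul, ContinuousMap.smul_apply, smul_eq_mul]
  rw [show (fun f => T f y) = fun f : C(K, ℝ) => ∑ x : K, f x * T (ind {x}) y from funext h1]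
  letI := ptop K
  exact continuous_finsetSum _ fun x _ => (continuous_ev x).mul continuous_const

theorem pos_of_iso {K : Type u} {L : Type v} [TopologicalSpace K] [CompactSpace K] [T2Space K]
    [Countable K] [TopologicalSpace L] [CompactSpace L] [T2Space L] [Countable L]
    (T : C(K, ℝ) ≃L[ℝ] C(L, ℝ)) (hT : ∀ f, 0 ≤ f → 0 ≤ T f) : Pos K L := by
  classical
  let T₀ : C(K, ℝ) →ₗ[ℝ] C(L, ℝ) := (T : C(K, ℝ) →L[ℝ] C(L, ℝ))
  have hT₀ : IsPos T₀ := hT
  obtain ⟨C, hC0, hbd'⟩ := (T.symm : C(L, ℝ) →L[ℝ] C(K, ℝ)).bound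
  have hbd : ∀ g, ‖T.symm g‖ ≤ C * ‖g‖ := hbd'
  have hlow : ∀ f, C⁻¹ * ‖f‖ ≤ ‖T₀ f‖ := by
    intro f
    rw [inv_mul_le_iff₀ hC0]
    have := hbd (T f)
    rw [T.symm_apply_apply] at this
    exact this
  have hSep : Sep T₀ C⁻¹ := by
    intro y y' hyy
    obtain ⟨W, hW, hyW, hWs⟩ := exists_clopen (x := y) (U := {y'}ᶜ)
      (isOpen_compl_singleton.mem_nhds hyy)
    have hy'W : y' ∉ W := fun h => hWs h rfl
    refine ⟨C⁻¹ • T.symm (ind W), fun x => ?_, ?_⟩
    · have h2 : ‖ind W‖ ≤ 1 := by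
        rw [ContinuousMap.norm_le _ zero_le_one]
        intro z
        rw [ind_apply hW]
        split_ifs <;> simp
      have h5 : |T.symm (ind W) x| ≤ C := by
        refine ((T.symm (ind W)).norm_coe_le_norm x).trans ((hbd _).trans ?_)
        nlinarith
      show |C⁻¹ * T.symm (ind W) x| ≤ 1
      rw [abs_mul, abs_of_pos (inv_pos.2 hC0), inv_mul_le_iff₀ hC0, mul_one]
      exact h5
    · have h6 : T₀ (C⁻¹ • T.symm (ind W)) = C⁻¹ • ind W := by
        rw [map_smul]
        show C⁻¹ • T (T.symm (ind W)) = _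
        rw [T.apply_symm_apply]
      rw [h6]
      show C⁻¹ ≤ |C⁻¹ * ind W y - C⁻¹ * ind W y'|
      rw [ind_mem hW hyW, ind_notMem hW hy'W, mul_one, mul_zero, sub_zero,
        abs_of_pos (inv_pos.2 hC0)]
  rcases finite_or_infinite K with hK | hK
  · have hb := base (inv_pos.2 hC0) hSep
    have h1 : (dr (univ : Set L) 0).Finite := dr_finite_of_succ isClosed_univ (by
      rw [zero_add]; exact hb)
    rw [dr_zero] at h1
    have : Finite L := finite_univ_iff.1 h1
    exact ⟨T.toLinearEquiv, hT, continuous_of_finite T₀,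
      continuous_of_finite (T.symm : C(L, ℝ) →L[ℝ] C(K, ℝ)).toLinearMap⟩
  · obtain ⟨a, n, hKt⟩ := exists_ty (isClosed_univ (X := K)) univ_nonempty
    have ha : 0 < a := by
      rw [pos_iff_ne_zero]
      rintro rfl
      have := hKt.1
      rw [dr_zero] at this
      exact (infinite_univ (α := K)) this
    obtain ⟨x, hx⟩ := hKt.nonempty
    obtain ⟨y, hy, -⟩ := exists_atom hT₀ (inv_pos.2 hC0) hlow a x hx
    obtain ⟨b, m, hLt⟩ := exists_ty (isClosed_univ (X := L)) ⟨y, trivial⟩
    have hab : a ≤ b := by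
      by_contra h
      have h2 := dr_anti univ (Order.add_one_le_of_lt (not_le.1 h)) hy
      rw [hLt.succ_empty] at h2
      exact h2
    have hba : b < a * Ordinal.omega0 := by
      by_contra h
      have h1 := pp_all a ha K L T₀ _ n hT₀ (inv_pos.2 hC0) hSep hKt
      obtain ⟨z, hz⟩ := hLt.nonempty
      have h2 := dr_anti univ (not_lt.1 h) hz
      rw [h1] at h2
      exact h2
    exact pos_of_types hKt hLt ha hab hba

end Pool.Agent.Q82.CP
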