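import Pool.Agent.Q82.CP1

/-! Countable compact Hausdorff spaces: isolated points, clopen sets, rank and type. -/

set_option autoImplicit false

namespace Pool.Agent.Q82.CP

open Set Filter Topology

universe u v
variable {X : Type u} {Y : Type v} [TopologicalSpace X] [TopologicalSpace Y]

theorem exists_not_accPt [T2Space X] [Countable X] {C : Set X} (hC : IsCompact C)
    (hne : C.Nonempty) : ∃ x ∈ C, ¬ AccPt x (𝓟 C) := by
  have : CompactSpace C := isCompact_iff_compactSpace.1 hC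
  have : Nonempty C := hne.to_subtype
  obtain ⟨i, hi⟩ := nonempty_interior_of_iUnion_of_closed (X := C) (ι := C)
    (f := fun i => ({i} : Set C)) (fun i => isClosed_singleton) (iUnion_of_singleton _)
  obtain ⟨j, hj⟩ := hi
  rw [mem_interior] at hj
  obtain ⟨t, ht1, ht2, ht3⟩ := hj
  have hji : j = i := by simpa using ht1 ht3
  subst hji
  obtain ⟨U, hU, hUt⟩ := isOpen_induced_iff.1 ht2
  refine ⟨j, j.2, fun hacc => ?_⟩
  rw [accPt_iff_nhds] at hacc
  have hjU : (j : X) ∈ U := by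
    have : j ∈ Subtype.val ⁻¹' U := by rw [hUt]; exact ht3
    exact this
  obtain ⟨y, ⟨hy1, hy2⟩, hy3⟩ := hacc U (hU.mem_nhds hjU)
  have : (⟨y, hy2⟩ : C) ∈ t := by rw [← hUt]; exact hy1
  have h2 := ht1 this
  rw [mem_singleton_iff] at h2
  exact hy3 (by rw [← h2])

theorem exists_clopen [CompactSpace X] [T2Space X] [Countable X] {x : X} {U : Set X}
    (hU : U ∈ 𝓝 x) : ∃ V : Set X, IsClopen V ∧ x ∈ V ∧ V ⊆ U := by
  obtain ⟨W, hWU, hW, hxW⟩ := mem_nhds_iff.1 hU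
  obtain ⟨f, hf0, hf1, -⟩ := exists_continuous_zero_one_of_isClosed (s := {x}) (t := Wᶜ)
    isClosed_singleton hW.isClosed_compl (by simpa using hxW)
  have hc : (range f).Countable := countable_range f
  obtain ⟨t, ht, ht2⟩ := (hc.dense_compl ℝ).exists_mem_open (isOpen_Ioo (a := (0:ℝ)) (b := 1))
    ⟨1 / 2, by norm_num, by norm_num⟩
  refine ⟨{y | f y < t}, ⟨?_, isOpen_lt f.continuous continuous_const⟩, ?_, ?_⟩
  · have : {y | f y < t} = {y | f y ≤ t} := by
      ext y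
      simp only [mem_ofPred_eq]
      refine ⟨le_of_lt, fun h => lt_of_le_of_ne h fun e => ht ⟨y, e⟩⟩
    rw [this]
    exact isClosed_le f.continuous continuous_const
  · have := hf0 (mem_singleton x)
    simp only [mem_ofPred_eq, this, Pi.zero_apply]
    exact ht2.1
  · intro y hy
    refine hWU (by_contra fun h => ?_)
    have h1 := hf1 h
    simp only [mem_ofPred_eq, h1, Pi.one_apply] at hy
    exact absurd hy (not_lt.2 ht2.2.le)

variable [CompactSpace X] [T2Space X] [Countable X]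

theorem exists_dr_eq_empty {S : Set X} (hS : IsClosed S) : ∃ ξ, dr S ξ = ∅ := by
  by_contra hcon
  push Not at hcon
  have h1 : ∀ ξ, ∃ x ∈ dr S ξ, ¬ AccPt x (𝓟 (dr S ξ)) := fun ξ =>
    exists_not_accPt (isClosed_dr hS ξ).isCompact (hcon ξ)
  choose x hx hx2 using h1
  refine not_injective_of_ordinal.{0} x ?_
  have key : ∀ ξ η : Ordinal.{0}, ξ < η → x ξ ≠ x η := by
    intro ξ η h e
    have h2 := (mem_dr.1 (hx η)).2 ξ h
    rw [← e] at h2
    exact hx2 ξ h2
  intro ξ η h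
  rcases lt_trichotomy ξ η with h1 | h1 | h1
  · exact absurd h (key _ _ h1)
  · exact h1
  · exact absurd h.symm (key _ _ h1)

omit [Countable X] in
theorem dr_finite_of_succ {S : Set X} (hS : IsClosed S) {a : Ordinal.{0}}
    (h : dr S (a + 1) = ∅) : (dr S a).Finite := by
  by_contra hinf
  obtain ⟨x, hx, hx2⟩ := Set.Infinite.exists_accPt_of_subset_isCompact hinf
    (isClosed_dr hS a).isCompact Subset.rfl
  have : x ∈ dr S (a + 1) := mem_dr_succ.2 ⟨dr_subset _ _ hx, hx2⟩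
  rw [h] at this
  exact this

theorem exists_rank {S : Set X} (hS : IsClosed S) (hne : S.Nonempty) :
    ∃ a, (dr S a).Finite ∧ (dr S a).Nonempty ∧ dr S (a + 1) = ∅ := by
  obtain ⟨ξ, hξ, hmin⟩ : ∃ ξ, dr S ξ = ∅ ∧ ∀ η < ξ, (dr S η).Nonempty := by
    obtain ⟨ξ₀, h0⟩ := exists_dr_eq_empty hS
    induction ξ₀ using WellFoundedLT.induction with
    | ind ξ ih =>
      by_cases h : ∃ η < ξ, dr S η = ∅
      · obtain ⟨η, h1, h2⟩ := h
        exact ih η h1 h2
      · refine ⟨ξ, h0, fun η hη => ?_⟩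
        rw [nonempty_iff_ne_empty]
        exact fun h2 => h ⟨η, hη, h2⟩
  rcases Ordinal.zero_or_succ_or_isSuccLimit ξ with h0 | ⟨a, rfl⟩ | hl
  · subst h0
    rw [dr_zero] at hξ
    exact absurd hξ hne.ne_empty
  · refine ⟨a, dr_finite_of_succ hS ?_, hmin a (Order.lt_succ a), ?_⟩
    · exact hξ
    · exact hξ
  · exfalso
    have : Nonempty (Iio ξ) := ⟨⟨0, hl.bot_lt⟩⟩
    obtain ⟨x, hx⟩ := IsCompact.nonempty_iInter_of_directed_nonempty_isCompact_isClosed
      (fun η : Iio ξ => dr S η) (fun η ζ => (le_total η.1 ζ.1).elim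
        (fun h => ⟨ζ, dr_anti S h, Subset.rfl⟩) (fun h => ⟨η, Subset.rfl, dr_anti S h⟩))
      (fun η => hmin η η.2)
      (fun η => (isClosed_dr hS _).isCompact) (fun η => isClosed_dr hS _)
    · rw [mem_iInter] at hx
      have : x ∈ dr S ξ := by
        rw [mem_dr]
        refine ⟨dr_subset _ _ (hx ⟨0, hl.bot_lt⟩), fun η hη => ?_⟩
        have h1 := hx ⟨η + 1, hl.succ_lt hη⟩
        exact (mem_dr_succ.1 h1).2
      rw [hξ] at this
      exact this

/-- Below a point of order `b + 1` there are infinitely many points of order exactly `b`. -/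
theorem infinite_exact {b : Ordinal.{0}} {V : Set X} (hV : IsOpen V) {x : X} (hxV : x ∈ V)
    (hx : x ∈ dr (univ : Set X) (b + 1)) :
    (V ∩ (dr univ b \ dr univ (b + 1))).Infinite := by
  intro hfin
  obtain ⟨W, hW, hxW, hWV⟩ := exists_clopen (hV.mem_nhds hxV)
  have hC : IsClosed (dr (univ : Set X) (b + 1) ∩ W) :=
    (isClosed_dr isClosed_univ _).inter hW.isClosed
  obtain ⟨z, hz, hz2⟩ := exists_not_accPt hC.isCompact ⟨x, hx, hxW⟩
  have h1 : AccPt z (𝓟 (dr univ b ∩ W)) :=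
    (accPt_inter_iff (hW.isOpen.mem_nhds hz.2)).2 (mem_dr_succ.1 hz.1).2
  have h2 : AccPt z (𝓟 ((dr (univ : Set X) (b + 1) ∩ W) ∪
      (V ∩ (dr univ b \ dr univ (b + 1))))) := by
    refine h1.mono (principal_mono.2 ?_)
    rintro y ⟨hy1, hy2⟩
    by_cases h : y ∈ dr (univ : Set X) (b + 1)
    · exact Or.inl ⟨h, hy2⟩
    · exact Or.inr ⟨hWV hy2, hy1, h⟩
  rw [← sup_principal, accPt_sup] at h2
  rcases h2 with h2 | h2
  · exact hz2 h2
  · exact (Set.Infinite.of_accPt h2) hfin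

theorem exists_clopen_inter_dr {b : Ordinal.{0}} {V : Set X} (hV : IsClopen V) {P : Set X}
    (hfin : P.Finite) (hPV : P ⊆ V) (hPb : P ⊆ dr univ b) (hP : ∀ x ∈ P, x ∉ dr univ (b + 1)) :
    ∃ C : Set X, IsClopen C ∧ C ⊆ V ∧ dr univ b ∩ C = P := by
  have h1 : ∀ x ∈ P, ∃ W : Set X, IsClopen W ∧ x ∈ W ∧ W ⊆ V ∧ dr univ b ∩ W ⊆ {x} := by
    intro x hx
    have hna : ¬ AccPt x (𝓟 (dr univ b)) := fun h => hP x hx (mem_dr_succ.2 ⟨mem_univ _, h⟩)
    rw [accPt_iff_nhds] at hna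
    push Not at hna
    obtain ⟨U, hU, hU2⟩ := hna
    obtain ⟨W, hW, hxW, hWU⟩ := exists_clopen (inter_mem hU (hV.isOpen.mem_nhds (hPV hx)))
    refine ⟨W, hW, hxW, fun y hy => (hWU hy).2, fun y hy => ?_⟩
    exact hU2 y ⟨(hWU hy.2).1, hy.1⟩
  choose! W hW hxW hWV hWx using h1
  refine ⟨⋃ x ∈ P, W x, hfin.isClopen_biUnion fun x hx => hW x hx,
    iUnion₂_subset fun x hx => hWV x hx, ?_⟩
  ext y
  constructor
  · rintro ⟨hy1, hy2⟩
    obtain ⟨x, hx, hyx⟩ := mem_iUnion₂.1 hy2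
    have := hWx x hx ⟨hy1, hyx⟩
    rw [mem_singleton_iff] at this
    rw [this]
    exact hx
  · intro hy
    exact ⟨hPb hy, mem_iUnion₂.2 ⟨y, hy, hxW y hy⟩⟩

end Pool.Agent.Q82.CP
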