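import Pool.Agent.Q82.CP2

/-! Two compact spaces with matching trees of clopen sets are homeomorphic. -/

set_option autoImplicit false

namespace Pool.Agent.Q82.CP

open Set Filter Topology

universe u v w

/-- A tree of partitions indexed by words. -/
structure Tree {I : Type w} {Z : Type u} (F : List I → Set Z) : Prop where
  root : F [] = univ
  split : ∀ l z, z ∈ F l ↔ ∃ i, z ∈ F (i :: l)
  disj : ∀ l i j z, z ∈ F (i :: l) → z ∈ F (j :: l) → i = j

namespace Tree

variable {I : Type w} {Z : Type u} {F : List I → Set Z}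

theorem ex (h : Tree F) (z : Z) (n : ℕ) : ∃ l : List I, l.length = n ∧ z ∈ F l := by
  induction n with
  | zero => exact ⟨[], rfl, by rw [h.root]; trivial⟩
  | succ n ih =>
    obtain ⟨l, hl, hz⟩ := ih
    obtain ⟨i, hi⟩ := (h.split l z).1 hz
    exact ⟨i :: l, by simp [hl], hi⟩

theorem uniq (h : Tree F) {z : Z} : ∀ {l l' : List I}, l.length = l'.length → z ∈ F l →
    z ∈ F l' → l = l'
  | [], [], _, _, _ => rfl
  | i :: l, j :: l', hl, h1, h2 => by
    have h3 : l = l' := uniq h (by simpa using hl) ((h.split l z).2 ⟨i, h1⟩)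
      ((h.split l' z).2 ⟨j, h2⟩)
    subst h3
    rw [h.disj l i j z h1 h2]

theorem exists_match {Y : Type v} [TopologicalSpace Y] [CompactSpace Y] {G : List I → Set Y}
    (hF : Tree F) (hG : Tree G) (hGc : ∀ l, IsClosed (G l))
    (hne : ∀ l, (F l).Nonempty → (G l).Nonempty) (z : Z) :
    ∃ y : Y, ∀ l, z ∈ F l ↔ y ∈ G l := by
  choose p hp1 hp2 using hF.ex z
  have hstep : ∀ n, G (p (n + 1)) ⊆ G (p n) := by
    intro n y hy
    have h1 := hp1 (n + 1)
    obtain ⟨i, l, hil⟩ : ∃ i l, p (n + 1) = i :: l := by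
      cases hq : p (n + 1) with
      | nil => rw [hq] at h1; simp at h1
      | cons i l => exact ⟨i, l, rfl⟩
    have h2 : l = p n := by
      refine hF.uniq ?_ ?_ (hp2 n)
      · rw [hil] at h1
        rw [hp1 n]
        simpa using h1
      · rw [hF.split]
        exact ⟨i, by rw [← hil]; exact hp2 (n + 1)⟩
    rw [hil] at hy
    rw [← h2]
    exact (hG.split l y).2 ⟨i, hy⟩
  obtain ⟨y, hy⟩ := IsCompact.nonempty_iInter_of_sequence_nonempty_isCompact_isClosed
    (fun n => G (p n)) hstep (fun n => hne _ ⟨z, hp2 n⟩) (hGc _).isCompact (fun n => hGc _)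
  rw [mem_iInter] at hy
  refine ⟨y, fun l => ⟨fun hl => ?_, fun hl => ?_⟩⟩
  · rw [hF.uniq (hp1 l.length).symm hl (hp2 l.length)]
    exact hy _
  · rw [hG.uniq (hp1 l.length).symm hl (hy l.length)]
    exact hp2 _

end Tree

variable {X : Type u} {Y : Type v} [TopologicalSpace X] [TopologicalSpace Y]

theorem continuous_of_match {I : Type w} [CompactSpace Y] {F : List I → Set X}
    {G : List I → Set Y} (hF : ∀ l, IsClopen (F l)) (hG : ∀ l, IsClopen (G l)) {f : X → Y}
    (hf : ∀ x l, x ∈ F l ↔ f x ∈ G l)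
    (hsep : ∀ y y' : Y, (∀ l, y ∈ G l ↔ y' ∈ G l) → y = y') : Continuous f := by
  rw [continuous_iff_isClosed]
  intro C hC
  have h1 : f ⁻¹' C = Prod.fst '' ((⋂ l, {q : X × Y | q.1 ∈ F l ↔ q.2 ∈ G l}) ∩ (Prod.snd ⁻¹' C)) := by
    ext x
    simp only [mem_preimage, mem_image, mem_inter_iff, mem_iInter]
    constructor
    · intro hx
      exact ⟨(x, f x), ⟨fun l => hf x l, hx⟩, rfl⟩
    · rintro ⟨⟨x', y⟩, ⟨h1, h2⟩, h3⟩
      simp only at h3 h2
      subst h3
      have : f x' = y := by
        refine hsep _ _ fun l => ?_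
        rw [← hf]
        exact h1 l
      rw [this]
      exact h2
  rw [h1]
  refine isClosedMap_fst_of_compactSpace _ (IsClosed.inter (isClosed_iInter fun l => ?_)
    (hC.preimage continuous_snd))
  have h2 : {q : X × Y | q.1 ∈ F l ↔ q.2 ∈ G l} =
      ((Prod.fst ⁻¹' F l) ∩ (Prod.snd ⁻¹' G l)) ∪ ((Prod.fst ⁻¹' (F l)ᶜ) ∩ (Prod.snd ⁻¹' (G l)ᶜ)) := by
    ext q
    simp only [mem_union, mem_inter_iff, mem_preimage, mem_compl_iff]
    exact iff_iff_and_or_not_and_not
  rw [h2]
  exact (((hF l).isClosed.preimage continuous_fst).inter ((hG l).isClosed.preimage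
    continuous_snd)).union (((hF l).compl.isClosed.preimage continuous_fst).inter
      ((hG l).compl.isClosed.preimage continuous_snd))

theorem homeo_of_trees {I : Type w} [CompactSpace X] [CompactSpace Y] {F : List I → Set X}
    {G : List I → Set Y} (hFt : Tree F) (hGt : Tree G)
    (hF : ∀ l, IsClopen (F l)) (hG : ∀ l, IsClopen (G l))
    (hne : ∀ l, (F l).Nonempty ↔ (G l).Nonempty)
    (hsX : ∀ x x' : X, (∀ l, x ∈ F l ↔ x' ∈ F l) → x = x')
    (hsY : ∀ y y' : Y, (∀ l, y ∈ G l ↔ y' ∈ G l) → y = y') : Nonempty (X ≃ₜ Y) := by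
  choose f hf using hFt.exists_match hGt (fun l => (hG l).isClosed) (fun l => (hne l).1)
  choose g hg using hGt.exists_match hFt (fun l => (hF l).isClosed) (fun l => (hne l).2)
  exact ⟨{ toFun := f
           invFun := g
           left_inv := fun x => hsX _ _ fun l => by rw [← hg, ← hf]
           right_inv := fun y => hsY _ _ fun l => by rw [← hf, ← hg]
           continuous_toFun := continuous_of_match hF hG hf hsY
           continuous_invFun := continuous_of_match hG hF hg hsX }⟩

end Pool.Agent.Q82.CP
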