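import Pool.Agent.Q82.CP3

/-! Countable compact spaces of the same type are homeomorphic (Mazurkiewicz-Sierpinski). -/

set_option autoImplicit false

namespace Pool.Agent.Q82.CP

open Set Filter Topology

universe u v
variable {X : Type u} {Y : Type v} [TopologicalSpace X] [TopologicalSpace Y]

/-- The set has type `(a, n)`: its derivative of order `a` has exactly `n ≥ 1` points. -/
def Ty (U : Set X) (a : Ordinal.{0}) (n : ℕ) : Prop :=
  (dr U a).Finite ∧ (dr U a).ncard = n ∧ n ≠ 0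

theorem Ty.nonempty {U : Set X} {a : Ordinal.{0}} {n : ℕ} (h : Ty U a n) : (dr U a).Nonempty := by
  rw [nonempty_iff_ne_empty]
  intro h1
  have := h.2.1
  rw [h1, ncard_empty] at this
  exact h.2.2 this.symm

theorem Ty.succ_empty [T1Space X] {U : Set X} {a : Ordinal.{0}} {n : ℕ} (h : Ty U a n) :
    dr U (a + 1) = ∅ := by
  rw [eq_empty_iff_forall_notMem]
  intro x hx
  exact (Set.Infinite.of_accPt (mem_dr_succ.1 hx).2) h.1

theorem exists_ty [CompactSpace X] [T2Space X] [Countable X] {U : Set X} (hU : IsClosed U)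
    (hne : U.Nonempty) : ∃ a n, Ty U a n := by
  obtain ⟨a, h1, h2, -⟩ := exists_rank hU hne
  exact ⟨a, _, h1, rfl, by rw [Ne, ncard_eq_zero h1]; exact h2.ne_empty⟩

/-- The matching relation. -/
def RR (U : Set X) (V : Set Y) : Prop := (U = ∅ ∧ V = ∅) ∨ ∃ a n, Ty U a n ∧ Ty V a n

theorem RR.symm {U : Set X} {V : Set Y} (h : RR U V) : RR V U := by
  rcases h with h | ⟨a, n, h1, h2⟩
  · exact Or.inl ⟨h.2, h.1⟩
  · exact Or.inr ⟨a, n, h2, h1⟩

theorem RR.nonempty_iff {U : Set X} {V : Set Y} (h : RR U V) : U.Nonempty ↔ V.Nonempty := by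
  rcases h with ⟨rfl, rfl⟩ | ⟨a, n, h1, h2⟩
  · simp
  · exact ⟨fun _ => h2.nonempty.mono (dr_subset _ _), fun _ => h1.nonempty.mono (dr_subset _ _)⟩

theorem absorb [CompactSpace X] [T2Space X] [Countable X] [CompactSpace Y] [T2Space Y]
    [Countable Y] {U : Set X} {V : Set Y} (hU : IsClopen U) (hV : IsClopen V)
    {a : Ordinal.{0}} {n : ℕ} (hUa : dr U a = ∅) (hVa : Ty V a n) :
    ∃ C : Set Y, IsClopen C ∧ C ⊆ V ∧ RR U C ∧ Ty (V \ C) a n := by
  rcases U.eq_empty_or_nonempty with rfl | hne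
  · exact ⟨∅, isClopen_empty, empty_subset _, Or.inl ⟨rfl, rfl⟩, by rwa [sdiff_empty]⟩
  obtain ⟨b, m, hb⟩ := exists_ty hU.isClosed hne
  have hba : b < a := by
    by_contra h
    have := (dr_anti U (not_lt.1 h)) hb.nonempty.choose_spec
    rw [hUa] at this
    exact this
  have hba' : b + 1 ≤ a := Order.add_one_le_of_lt hba
  obtain ⟨x, hx⟩ := hVa.nonempty
  rw [dr_univ_inter hV.isOpen] at hx
  have hinf := infinite_exact hV.isOpen hx.2 (dr_anti univ hba' hx.1)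
  obtain ⟨P, hP1, hP2, hP3⟩ := hinf.exists_subset_ncard_eq m
  obtain ⟨C, hC, hCV, hCP⟩ := exists_clopen_inter_dr hV hP2 (fun x hx => (hP1 hx).1)
    (fun x hx => (hP1 hx).2.1) (fun x hx => (hP1 hx).2.2)
  refine ⟨C, hC, hCV, Or.inr ⟨b, m, hb, ?_⟩, ?_⟩
  · rw [Ty, dr_univ_inter hC.isOpen, hCP]
    exact ⟨hP2, hP3, hb.2.2⟩
  · have h1 : dr (V \ C) a = dr V a := by
      rw [dr_univ_inter (hV.diff hC).isOpen, dr_univ_inter hV.isOpen]
      ext y
      constructor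
      · rintro ⟨h1, h2⟩
        exact ⟨h1, h2.1⟩
      · rintro ⟨h1, h2⟩
        refine ⟨h1, h2, fun hyC => ?_⟩
        have h3 : y ∈ dr (univ : Set Y) b ∩ C := ⟨dr_anti univ hba.le h1, hyC⟩
        rw [hCP] at h3
        exact (hP1 h3).2.2 (dr_anti univ hba' h1)
    rw [Ty, h1]
    exact hVa

theorem split [CompactSpace X] [T2Space X] [Countable X] [CompactSpace Y] [T2Space Y]
    [Countable Y] {U : Set X} {V : Set Y} (hU : IsClopen U) (hV : IsClopen V) (hR : RR U V)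
    {A : Set X} (hA : IsClopen A) :
    ∃ B : Set Y, IsClopen B ∧ B ⊆ V ∧ RR (U ∩ A) B ∧ RR (U \ A) (V \ B) := by
  rcases hR with ⟨rfl, rfl⟩ | ⟨a, n, hUn, hVn⟩
  · exact ⟨∅, isClopen_empty, empty_subset _, Or.inl (by simp), Or.inl (by simp)⟩
  have e1 : dr (U ∩ A) a = dr U a ∩ A := dr_inter_open _ hA.isOpen _
  have e2 : dr (U \ A) a = dr U a \ A := by
    rw [sdiff_eq, dr_inter_open _ hA.compl.isOpen, sdiff_eq]
  rcases (dr (U \ A) a).eq_empty_or_nonempty with h0 | h0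
  · obtain ⟨C, hC, hCV, hRC, hVC⟩ := absorb (hU.diff hA) hV h0 hVn
    refine ⟨V \ C, hV.diff hC, sdiff_subset, Or.inr ⟨a, n, ?_, hVC⟩, ?_⟩
    · have : dr (U ∩ A) a = dr U a := by
        rw [e1, inter_eq_left, ← sdiff_eq_empty, ← e2, h0]
      rw [Ty, this]
      exact hUn
    · rwa [sdiff_sdiff_cancel_left hCV]
  rcases (dr (U ∩ A) a).eq_empty_or_nonempty with h1 | h1
  · obtain ⟨C, hC, hCV, hRC, hVC⟩ := absorb (hU.inter hA) hV h1 hVn
    refine ⟨C, hC, hCV, hRC, Or.inr ⟨a, n, ?_, hVC⟩⟩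
    have : dr (U \ A) a = dr U a := by
      rw [e2, sdiff_eq_left, disjoint_iff_inter_eq_empty, ← e1, h1]
    rw [Ty, this]
    exact hUn
  · have hfin := hUn.1
    have hcard : (dr U a ∩ A).ncard + (dr U a \ A).ncard = n := by
      rw [ncard_inter_add_ncard_sdiff_eq_ncard _ _ hfin]
      exact hUn.2.1
    have hle : (dr U a ∩ A).ncard ≤ hVn.1.toFinset.card := by
      rw [← ncard_eq_toFinset_card _ hVn.1, hVn.2.1]
      omega
    obtain ⟨P, hP1, hP2⟩ := Finset.exists_subset_card_eq hle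
    have hPV : (P : Set Y) ⊆ dr V a := fun y hy => by
      have := hP1 hy
      simpa using this
    have hPsub : (P : Set Y) ⊆ dr univ a ∩ V := by
      rw [← dr_univ_inter hV.isOpen]; exact hPV
    have hVs := hVn.succ_empty
    obtain ⟨C, hC, hCV, hCP⟩ := exists_clopen_inter_dr hV P.finite_toSet
      (fun x hx => (hPsub hx).2) (fun x hx => (hPsub hx).1) (fun x hx h2 => by
        have : x ∈ dr V (a + 1) := by
          rw [dr_univ_inter hV.isOpen]
          exact ⟨h2, (hPsub hx).2⟩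
        rw [hVs] at this
        exact this)
    have f1 : dr C a = P := by rw [dr_univ_inter hC.isOpen, hCP]
    have f2 : dr (V \ C) a = dr V a \ P := by
      rw [dr_univ_inter (hV.diff hC).isOpen, dr_univ_inter hV.isOpen, ← hCP]
      ext y
      simp only [mem_inter_iff, Set.mem_sdiff]
      tauto
    refine ⟨C, hC, hCV, Or.inr ⟨a, (dr U a ∩ A).ncard, ?_, ?_⟩,
      Or.inr ⟨a, (dr U a \ A).ncard, ?_, ?_⟩⟩
    · rw [Ty, e1]
      refine ⟨hfin.subset inter_subset_left, rfl, ?_⟩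
      rw [Ne, ncard_eq_zero (hfin.subset inter_subset_left), ← e1]
      exact h1.ne_empty
    · rw [Ty, f1]
      refine ⟨P.finite_toSet, by rw [ncard_coe_finset, hP2], ?_⟩
      rw [Ne, ncard_eq_zero (hfin.subset inter_subset_left), ← e1]
      exact h1.ne_empty
    · rw [Ty, e2]
      refine ⟨hfin.subset sdiff_subset, rfl, ?_⟩
      rw [Ne, ncard_eq_zero (hfin.subset sdiff_subset), ← e2]
      exact h0.ne_empty
    · rw [Ty, f2]
      refine ⟨hVn.1.subset sdiff_subset, ?_, ?_⟩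
      · rw [ncard_sdiff hPV P.finite_toSet, ncard_coe_finset, hP2, hVn.2.1]
        omega
      · rw [Ne, ncard_eq_zero (hfin.subset sdiff_subset), ← e2]
        exact h0.ne_empty

/-- A matched pair of clopen sets. -/
def Good (p : Set X × Set Y) : Prop := IsClopen p.1 ∧ IsClopen p.2 ∧ RR p.1 p.2

theorem step [CompactSpace X] [T2Space X] [Countable X] [CompactSpace Y] [T2Space Y]
    [Countable Y] {A : Set X} (hA : IsClopen A) {B : Set Y} (hB : IsClopen B)
    {p : Set X × Set Y} (hp : Good p) :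
    ∃ q : Bool × Bool → Set X × Set Y, (∀ i, Good (q i)) ∧ (∀ x, x ∈ p.1 ↔ ∃ i, x ∈ (q i).1) ∧
      (∀ y, y ∈ p.2 ↔ ∃ i, y ∈ (q i).2) ∧
      (∀ i j x, x ∈ (q i).1 → x ∈ (q j).1 → i = j) ∧
      (∀ i j y, y ∈ (q i).2 → y ∈ (q j).2 → i = j) ∧
      (∀ i, (q i).1 ⊆ A ∨ (q i).1 ⊆ Aᶜ) ∧ (∀ i, (q i).2 ⊆ B ∨ (q i).2 ⊆ Bᶜ) := by
  obtain ⟨U, V⟩ := p
  obtain ⟨hU, hV, hR⟩ := hp
  simp only at hU hV hR
  obtain ⟨W, hW, hWV, hR1, hR2⟩ := split hU hV hR hA
  obtain ⟨A1, hA1, hA1s, hR3, hR4⟩ := split hW (hU.inter hA) hR1.symm hB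
  obtain ⟨A2, hA2, hA2s, hR5, hR6⟩ := split (hV.diff hW) (hU.diff hA) hR2.symm hB
  refine ⟨fun i => match i with
    | (true, true) => (A1, W ∩ B)
    | (true, false) => ((U ∩ A) \ A1, W \ B)
    | (false, true) => (A2, (V \ W) ∩ B)
    | (false, false) => ((U \ A) \ A2, (V \ W) \ B), ?_, ?_, ?_, ?_, ?_, ?_, ?_⟩
  · rintro ⟨_ | _, _ | _⟩
    · exact ⟨(hU.diff hA).diff hA2, (hV.diff hW).diff hB, hR6.symm⟩
    · exact ⟨hA2, (hV.diff hW).inter hB, hR5.symm⟩
    · exact ⟨(hU.inter hA).diff hA1, hW.diff hB, hR4.symm⟩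
    · exact ⟨hA1, hW.inter hB, hR3.symm⟩
  · intro x
    simp only [Prod.exists, Bool.exists_bool, Set.mem_sdiff, mem_inter_iff]
    have := @hA1s x
    have := @hA2s x
    simp only [Set.mem_sdiff, mem_inter_iff] at *
    tauto
  · intro y
    simp only [Prod.exists, Bool.exists_bool, Set.mem_sdiff, mem_inter_iff]
    have := @hWV y
    tauto
  · rintro ⟨_ | _, _ | _⟩ ⟨_ | _, _ | _⟩ x h1 h2 <;> have g1 := @hA1s x <;> have g2 := @hA2s x <;>
      simp only [Set.mem_sdiff, mem_inter_iff] at * <;> tauto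
  · rintro ⟨_ | _, _ | _⟩ ⟨_ | _, _ | _⟩ y h1 h2 <;> have g1 := @hWV y <;>
      simp only [Set.mem_sdiff, mem_inter_iff] at * <;> tauto
  · rintro ⟨_ | _, _ | _⟩
    · exact Or.inr fun x hx => hx.1.2
    · exact Or.inr fun x hx => (hA2s hx).2
    · exact Or.inl fun x hx => hx.1.2
    · exact Or.inl fun x hx => (hA1s hx).2
  · rintro ⟨_ | _, _ | _⟩
    · exact Or.inr fun x hx => hx.2
    · exact Or.inl fun x hx => hx.2
    · exact Or.inr fun x hx => hx.2
    · exact Or.inl fun x hx => hx.2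

theorem exists_separating (X : Type u) [TopologicalSpace X] [CompactSpace X] [T2Space X]
    [Countable X] : ∃ A : ℕ → Set X, (∀ n, IsClopen (A n)) ∧
      ∀ x x', x ≠ x' → ∃ n, x ∈ A n ∧ x' ∉ A n := by
  rcases isEmpty_or_nonempty X with h | h
  · exact ⟨fun _ => ∅, fun _ => isClopen_empty, fun x => (h.false x).elim⟩
  obtain ⟨f, hf⟩ := exists_surjective_nat (X × X)
  have h1 : ∀ q : X × X, ∃ V : Set X, IsClopen V ∧ (q.1 ≠ q.2 → q.1 ∈ V ∧ q.2 ∉ V) := by
    intro q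
    by_cases hq : q.1 = q.2
    · exact ⟨∅, isClopen_empty, fun h => absurd hq h⟩
    · obtain ⟨V, hV, h1, h2⟩ := exists_clopen (x := q.1) (U := {q.2}ᶜ)
        (isOpen_compl_singleton.mem_nhds hq)
      exact ⟨V, hV, fun _ => ⟨h1, fun h3 => h2 h3 rfl⟩⟩
  choose V hV1 hV2 using h1
  refine ⟨fun n => V (f n), fun n => hV1 _, fun x x' hx => ?_⟩
  obtain ⟨n, hn⟩ := hf (x, x')
  refine ⟨n, ?_⟩
  show x ∈ V (f n) ∧ x' ∉ V (f n)
  rw [hn]
  exact hV2 (x, x') hx

/-- Mazurkiewicz-Sierpinski. -/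
theorem homeo_of_ty [CompactSpace X] [T2Space X] [Countable X] [CompactSpace Y] [T2Space Y]
    [Countable Y] {a : Ordinal.{0}} {n : ℕ} (hX : Ty (univ : Set X) a n)
    (hY : Ty (univ : Set Y) a n) : Nonempty (X ≃ₜ Y) := by
  obtain ⟨A, hA, hAs⟩ := exists_separating X
  obtain ⟨B, hB, hBs⟩ := exists_separating Y
  have hstep : ∀ (n : ℕ) (p : {p : Set X × Set Y // Good p}),
    ∃ q : Bool × Bool → {p : Set X × Set Y // Good p}, (∀ x, x ∈ p.1.1 ↔ ∃ i, x ∈ (q i).1.1) ∧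
      (∀ y, y ∈ p.1.2 ↔ ∃ i, y ∈ (q i).1.2) ∧
      (∀ i j x, x ∈ (q i).1.1 → x ∈ (q j).1.1 → i = j) ∧
      (∀ i j y, y ∈ (q i).1.2 → y ∈ (q j).1.2 → i = j) ∧
      (∀ i, (q i).1.1 ⊆ A n ∨ (q i).1.1 ⊆ (A n)ᶜ) ∧
      (∀ i, (q i).1.2 ⊆ B n ∨ (q i).1.2 ⊆ (B n)ᶜ) := by
    intro n p
    obtain ⟨q, hq, h1⟩ := step (hA n) (hB n) p.2
    exact ⟨fun i => ⟨q i, hq i⟩, h1⟩
  choose q h1 h2 h3 h4 h5 h6 using hstep
  have root : Good ((univ : Set X), (univ : Set Y)) :=
    ⟨isClopen_univ, isClopen_univ, Or.inr ⟨a, n, hX, hY⟩⟩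
  let c : List (Bool × Bool) → {p : Set X × Set Y // Good p} := fun l =>
    List.rec ⟨_, root⟩ (fun i l p => q l.length p i) l
  have hc0 : c [] = ⟨_, root⟩ := rfl
  have hc1 : ∀ i l, c (i :: l) = q l.length (c l) i := fun i l => rfl
  have tX : Tree (fun l => (c l).1.1) :=
    ⟨by rw [hc0], fun l z => by simp only [hc1]; exact h1 _ _ _,
      fun l i j z hi hj => by simp only [hc1] at hi hj; exact h3 _ _ _ _ _ hi hj⟩
  have tY : Tree (fun l => (c l).1.2) :=
    ⟨by rw [hc0], fun l z => by simp only [hc1]; exact h2 _ _ _,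
      fun l i j z hi hj => by simp only [hc1] at hi hj; exact h4 _ _ _ _ _ hi hj⟩
  refine homeo_of_trees tX tY (fun l => (c l).2.1) (fun l => (c l).2.2.1)
    (fun l => (c l).2.2.2.nonempty_iff) (fun x x' hx => ?_) (fun y y' hy => ?_)
  · by_contra hne
    obtain ⟨n, hn1, hn2⟩ := hAs x x' hne
    obtain ⟨l, hl, hxl⟩ := tX.ex x (n + 1)
    have hxl' := (hx l).1 hxl
    cases l with
    | nil => simp at hl
    | cons i l =>
      have hln : l.length = n := by simpa using hl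
      simp only [hc1, hln] at hxl hxl'
      rcases h5 n (c l) i with h | h
      · exact hn2 (h hxl')
      · exact (h hxl) hn1
  · by_contra hne
    obtain ⟨n, hn1, hn2⟩ := hBs y y' hne
    obtain ⟨l, hl, hyl⟩ := tY.ex y (n + 1)
    have hyl' := (hy l).1 hyl
    cases l with
    | nil => simp at hl
    | cons i l =>
      have hln : l.length = n := by simpa using hl
      simp only [hc1, hln] at hyl hyl'
      rcases h6 n (c l) i with h | h
      · exact hn2 (h hyl')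
      · exact (h hyl) hn1

end Pool.Agent.Q82.CP
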