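import Pool.Agent.Q82.CP4

/-! The wedge of a closed set `M` and the quotient `L / M`. -/

set_option autoImplicit false

namespace Pool.Agent.Q82.CP

open Set Filter Topology

universe u v
variable {L : Type u} [TopologicalSpace L]

/-- `X` is the wedge of `M` (via `α`, defined on all of `L` through the retraction `r`) and of
`L / M` (via `β`), glued at the point `s` of `M` and the point `M` of `L / M`. -/
structure IsWedge (M : Set L) (s : L) (r : L → L) {X : Type v} [TopologicalSpace X]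
    (α β : L → X) : Prop where
  closed : IsClosed M
  mem : s ∈ M
  r_cont : Continuous r
  r_mem : ∀ y, r y ∈ M
  r_eq : ∀ m ∈ M, r m = m
  α_cont : Continuous α
  β_cont : Continuous β
  α_r : ∀ y, α (r y) = α y
  α_inj : ∀ m ∈ M, ∀ m' ∈ M, α m = α m' → m = m'
  β_M : ∀ m ∈ M, β m = α s
  β_inj : ∀ y ∉ M, ∀ y' ∉ M, β y = β y' → y = y'
  ne : ∀ y ∉ M, ∀ y', β y ≠ α y'
  surj : ∀ x, ∃ y, x = α y ∨ x = β y

section exist

variable [CompactSpace L] [T2Space L] [Countable L]

theorem exists_embedding (L : Type u) [TopologicalSpace L] [CompactSpace L] [T2Space L]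
    [Countable L] : ∃ j : L → ℕ → Bool, Continuous j ∧ Function.Injective j := by
  classical
  obtain ⟨A, hA, hAs⟩ := exists_separating L
  refine ⟨fun y n => decide (y ∈ A n), ?_, ?_⟩
  · refine continuous_pi fun n => ?_
    exact (IsLocallyConstant.continuous ((IsLocallyConstant.iff_exists_open _).2 fun x => by
      by_cases h : x ∈ A n
      · exact ⟨A n, (hA n).isOpen, h, fun y hy => by simp [hy, h]⟩
      · exact ⟨(A n)ᶜ, (hA n).compl.isOpen, h, fun y hy => by
          have : y ∉ A n := hy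
          simp [this, h]⟩))
  · intro x y hxy
    by_contra h
    obtain ⟨n, h1, h2⟩ := hAs x y h
    have := congrFun hxy n
    simp [h1, h2] at this

theorem exists_retraction {M : Set L} (hM : IsClosed M) (hne : M.Nonempty) :
    ∃ r : L → L, Continuous r ∧ (∀ y, r y ∈ M) ∧ ∀ m ∈ M, r m = m := by
  obtain ⟨j, hj, hji⟩ := exists_embedding L
  have hje : IsClosedEmbedding j := hj.isClosedEmbedding hji
  obtain ⟨ρ, hρ1, hρ2, hρ3⟩ := PiNat.exists_retraction_of_isClosed (E := fun _ => Bool)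
    (hje.isClosedMap _ hM) (hne.image j)
  have h1 : ∀ y, ∃ z ∈ M, j z = ρ (j y) := by
    intro y
    have : ρ (j y) ∈ j '' M := by rw [← hρ2]; exact mem_range_self _
    exact this
  choose r hr1 hr2 using h1
  refine ⟨r, ?_, hr1, fun m hm => hji ?_⟩
  · rw [hje.isEmbedding.continuous_iff]
    have : j ∘ r = ρ ∘ j := funext hr2
    rw [this]
    exact hρ3.comp hj
  · rw [hr2, hρ1 _ (mem_image_of_mem j hm)]

theorem exists_collapse {M : Set L} (hM : IsClosed M) :
    ∃ q : L → ℕ → Bool, Continuous q ∧ (∀ m ∈ M, q m = fun _ => false) ∧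
      ∀ y ∉ M, ∀ y', q y = q y' → y = y' := by
  classical
  have h1 : ∀ p : L × L, ∃ V : Set L, IsClopen V ∧ Disjoint V M ∧
      (p.1 ∉ M → p.1 ≠ p.2 → p.1 ∈ V ∧ p.2 ∉ V) := by
    intro p
    by_cases h : p.1 ∉ M ∧ p.1 ≠ p.2
    · obtain ⟨V, hV, h1, h2⟩ := exists_clopen (x := p.1) (U := Mᶜ ∩ {p.2}ᶜ)
        ((hM.isOpen_compl.inter isOpen_compl_singleton).mem_nhds ⟨h.1, h.2⟩)
      refine ⟨V, hV, ?_, fun _ _ => ⟨h1, fun h3 => (h2 h3).2 rfl⟩⟩
      rw [Set.disjoint_left]
      exact fun x hx => (h2 hx).1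
    · exact ⟨∅, isClopen_empty, disjoint_bot_left, fun h2 h3 => absurd ⟨h2, h3⟩ h⟩
  choose V hV1 hV2 hV3 using h1
  rcases isEmpty_or_nonempty L with hL | hL
  · exact ⟨fun _ _ => false, continuous_const, fun m => (hL.false m).elim,
      fun y => (hL.false y).elim⟩
  obtain ⟨f, hf⟩ := exists_surjective_nat (L × L)
  refine ⟨fun y n => decide (y ∈ V (f n)), ?_, ?_, ?_⟩
  · refine continuous_pi fun n => ?_
    exact (IsLocallyConstant.continuous ((IsLocallyConstant.iff_exists_open _).2 fun x => by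
      by_cases h : x ∈ V (f n)
      · exact ⟨V (f n), (hV1 _).isOpen, h, fun y hy => by simp [hy, h]⟩
      · exact ⟨(V (f n))ᶜ, (hV1 _).compl.isOpen, h, fun y hy => by
          have : y ∉ V (f n) := hy
          simp [this, h]⟩))
  · intro m hm
    funext n
    have : m ∉ V (f n) := fun h => Set.disjoint_left.1 (hV2 _) h hm
    simp [this]
  · intro y hy y' hyy
    by_contra h
    obtain ⟨n, hn⟩ := hf (y, y')
    have h2 := congrFun hyy n
    have h3 := hV3 (y, y') hy h
    rw [← hn] at h3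
    have h4 : y ∈ V (f n) := by
      have := h3.1
      rwa [show (f n).1 = y by rw [hn]] at this
    have h5 : y' ∉ V (f n) := by
      have := h3.2
      rwa [show (f n).2 = y' by rw [hn]] at this
    simp [h4, h5] at h2

theorem exists_wedge {M : Set L} (hM : IsClosed M) {s : L} (hs : s ∈ M) :
    ∃ (X : Type u) (_ : TopologicalSpace X) (_ : CompactSpace X) (_ : T2Space X)
      (_ : Countable X) (r : L → L) (α β : L → X), IsWedge M s r α β := by
  obtain ⟨r, hr1, hr2, hr3⟩ := exists_retraction hM ⟨s, hs⟩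
  obtain ⟨q, hq1, hq2, hq3⟩ := exists_collapse hM
  let α₀ : L → L × (ℕ → Bool) := fun y => (r y, fun _ => false)
  let β₀ : L → L × (ℕ → Bool) := fun y => (s, q y)
  have hα₀ : Continuous α₀ := hr1.prodMk continuous_const
  have hβ₀ : Continuous β₀ := continuous_const.prodMk hq1
  let S : Set (L × (ℕ → Bool)) := range α₀ ∪ range β₀
  have hScomp : IsCompact S := (isCompact_range hα₀).union (isCompact_range hβ₀)
  have hcount : Countable S := by
    have : S.Countable := (countable_range α₀).union (countable_range β₀)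
    exact this.to_subtype
  refine ⟨S, inferInstance, isCompact_iff_compactSpace.1 hScomp, inferInstance, hcount, r,
    fun y => ⟨α₀ y, Or.inl (mem_range_self y)⟩, fun y => ⟨β₀ y, Or.inr (mem_range_self y)⟩,
    ⟨hM, hs, hr1, hr2, hr3, hα₀.subtype_mk _, hβ₀.subtype_mk _, ?_, ?_, ?_, ?_, ?_, ?_⟩⟩
  · intro y
    refine Subtype.ext ?_
    show (r (r y), _) = (r y, _)
    rw [hr3 _ (hr2 y)]
  · intro m hm m' hm' h
    have h1 : r m = r m' := congrArg (fun z => z.1.1) h
    rwa [hr3 m hm, hr3 m' hm'] at h1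
  · intro m hm
    refine Subtype.ext ?_
    show (s, q m) = (r s, _)
    rw [hr3 s hs, hq2 m hm]
  · intro y hy y' _ h
    have h1 : q y = q y' := congrArg (fun z => z.1.2) h
    exact hq3 y hy y' h1
  · intro y hy y' h
    have h1 : q y = fun _ => false := congrArg (fun z => z.1.2) h
    have h2 := hq3 y hy s (by rw [h1, hq2 s hs])
    rw [h2] at hy
    exact hy hs
  · rintro ⟨x, hx | hx⟩
    · obtain ⟨y, rfl⟩ := hx
      exact ⟨y, Or.inl rfl⟩
    · obtain ⟨y, rfl⟩ := hx
      exact ⟨y, Or.inr rfl⟩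

end exist

namespace IsWedge

variable {M : Set L} {s : L} {r : L → L} {X : Type v} [TopologicalSpace X] {α β : L → X}

theorem descend [CompactSpace L] [T2Space X] (h : IsWedge M s r α β) (h1 h2 : C(L, ℝ))
    (e1 : ∀ y, h1 y = h1 (r y)) (e2 : ∀ m ∈ M, h2 m = h1 s) :
    ∃ F : C(X, ℝ), (∀ y, F (α y) = h1 y) ∧ ∀ y, F (β y) = h2 y := by
  have hq : IsQuotientMap (Sum.elim α β) := by
    refine IsQuotientMap.of_surjective_continuous ?_ (h.α_cont.sumElim h.β_cont)
    intro x
    obtain ⟨y, hy | hy⟩ := h.surj x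
    · exact ⟨Sum.inl y, hy.symm⟩
    · exact ⟨Sum.inr y, hy.symm⟩
  let g : C(L ⊕ L, ℝ) := ⟨Sum.elim h1 h2, h1.continuous.sumElim h2.continuous⟩
  have hα : ∀ y y', α y = α y' → h1 y = h1 y' := by
    intro y y' hyy
    rw [e1 y, e1 y']
    congr 1
    refine h.α_inj _ (h.r_mem y) _ (h.r_mem y') ?_
    rw [h.α_r, h.α_r, hyy]
  have hαβ : ∀ y y', α y = β y' → h1 y = h2 y' := by
    intro y y' hyy
    have hm : y' ∈ M := by
      by_contra hc
      exact h.ne y' hc y hyy.symm
    rw [e2 y' hm]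
    exact hα _ _ (by rw [hyy, h.β_M y' hm])
  have hβ : ∀ y y', β y = β y' → h2 y = h2 y' := by
    intro y y' hyy
    by_cases hy : y ∈ M
    · rw [e2 y hy]
      exact hαβ s y' (by rw [← h.β_M y hy, hyy])
    · by_cases hy' : y' ∈ M
      · rw [h.β_M y' hy'] at hyy
        exact absurd hyy (h.ne y hy s)
      · rw [h.β_inj y hy y' hy' hyy]
  have hfac : Function.FactorsThrough g (Sum.elim α β) := by
    rintro (y | y) (y' | y') hyy
    · exact hα y y' hyy
    · exact hαβ y y' hyy
    · exact (hαβ y' y hyy.symm).symm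
    · exact hβ y y' hyy
  let π : C(L ⊕ L, X) := ⟨Sum.elim α β, h.α_cont.sumElim h.β_cont⟩
  have hq' : IsQuotientMap π := hq
  refine ⟨hq'.lift g hfac, fun y => ?_, fun y => ?_⟩
  · exact DFunLike.congr_fun (hq'.lift_comp g hfac) (Sum.inl y)
  · exact DFunLike.congr_fun (hq'.lift_comp g hfac) (Sum.inr y)

theorem ext (h : IsWedge M s r α β) {F G : C(X, ℝ)} (h1 : ∀ y, F (α y) = G (α y))
    (h2 : ∀ y, F (β y) = G (β y)) : F = G := by
  ext x
  obtain ⟨y, rfl | rfl⟩ := h.surj x
  · exact h1 y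
  · exact h2 y

end IsWedge

end Pool.Agent.Q82.CP
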