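import Pool.Agent.Q82.CP5

/-! Cantor-Bendixson type of a wedge. -/

set_option autoImplicit false

namespace Pool.Agent.Q82.CP

open Set Filter Topology

universe u v
variable {L : Type u} [TopologicalSpace L]

theorem image_val_dr (M : Set L) (ξ : Ordinal.{0}) :
    Subtype.val '' (dr (univ : Set M) ξ) = dr M ξ := by
  rw [image_dr IsEmbedding.subtypeVal]
  simp

namespace IsWedge

variable {M : Set L} {s : L} {r : L → L} {X : Type v} [TopologicalSpace X] {α β : L → X}
  [CompactSpace L] [T2Space L] [CompactSpace X] [T2Space X]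

theorem image_α (h : IsWedge M s r α β) (ξ : Ordinal.{0}) : α '' dr M ξ = dr (α '' M) ξ := by
  have hc : CompactSpace M := isCompact_iff_compactSpace.1 h.closed.isCompact
  have hcont : Continuous (fun m : M => α m) := h.α_cont.comp continuous_subtype_val
  have hinj : Function.Injective (fun m : M => α m) := fun m m' hm =>
    Subtype.ext (h.α_inj m m.2 m' m'.2 hm)
  have he := (hcont.isClosedEmbedding hinj).isEmbedding
  have h1 := image_dr he univ ξ
  have h2 : (fun m : M => α m) '' (univ : Set M) = α '' M := by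
    ext x; simp
  rw [h2] at h1
  rw [← h1, ← image_val_dr, ← image_comp]
  rfl

theorem image_β_isOpen (h : IsWedge M s r α β) {U : Set L} (hU : IsOpen U) (hUM : Disjoint U M) :
    IsOpen (β '' U) := by
  have h1 : (β '' U)ᶜ = α '' univ ∪ β '' Uᶜ := by
    ext x
    constructor
    · intro hx
      obtain ⟨y, rfl | rfl⟩ := h.surj x
      · exact Or.inl ⟨y, trivial, rfl⟩
      · exact Or.inr ⟨y, fun hy => hx ⟨y, hy, rfl⟩, rfl⟩
    · rintro (⟨y, -, rfl⟩ | ⟨y, hy, rfl⟩)
      · rintro ⟨z, hz, hzy⟩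
        exact h.ne z (Set.disjoint_left.1 hUM hz) y hzy
      · rintro ⟨z, hz, hzy⟩
        have hzM := Set.disjoint_left.1 hUM hz
        by_cases hyM : y ∈ M
        · rw [h.β_M y hyM] at hzy
          exact h.ne z hzM s hzy
        · rw [h.β_inj z hzM y hyM hzy] at hz
          exact hy hz
  rw [← isClosed_compl_iff, h1]
  exact ((isCompact_univ.image h.α_cont).isClosed).union
    ((hU.isClosed_compl.isCompact.image h.β_cont).isClosed)

theorem image_β (h : IsWedge M s r α β) (ξ : Ordinal.{0}) :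
    β '' (dr univ ξ ∩ Mᶜ) = dr univ ξ ∩ β '' Mᶜ := by
  have hcont : Continuous (fun m : (Mᶜ : Set L) => β m) := h.β_cont.comp continuous_subtype_val
  have hinj : Function.Injective (fun m : (Mᶜ : Set L) => β m) := fun m m' hm =>
    Subtype.ext (h.β_inj m m.2 m' m'.2 hm)
  have hopen : IsOpenMap (fun m : (Mᶜ : Set L) => β m) := by
    intro U hU
    have h1 : (fun m : (Mᶜ : Set L) => β m) '' U = β '' (Subtype.val '' U) := by
      rw [← image_comp]; rfl
    rw [h1]
    refine h.image_β_isOpen (h.closed.isOpen_compl.isOpenMap_subtype_val U hU) ?_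
    rw [Set.disjoint_left]
    rintro _ ⟨m, -, rfl⟩
    exact m.2
  have he : IsEmbedding (fun m : (Mᶜ : Set L) => β m) :=
    (IsOpenEmbedding.of_continuous_injective_isOpenMap hcont hinj hopen).isEmbedding
  have h1 := image_dr he univ ξ
  have h2 : (fun m : (Mᶜ : Set L) => β m) '' (univ : Set (Mᶜ : Set L)) = β '' Mᶜ := by
    ext x; simp
  rw [h2] at h1
  have h3 : IsOpen (β '' Mᶜ) := h.image_β_isOpen h.closed.isOpen_compl disjoint_compl_left
  rw [← dr_univ_inter h3, ← h1, ← dr_univ_inter h.closed.isOpen_compl, ← image_val_dr,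
    ← image_comp]
  rfl

/-- Description of the derivatives away from the gluing point. -/
theorem dr_subset_wedge (h : IsWedge M s r α β) (ξ : Ordinal.{0}) :
    dr (univ : Set X) ξ ⊆ α '' dr M ξ ∪ {α s} ∪ β '' (dr univ ξ ∩ Mᶜ) := by
  intro x hx
  by_cases hxs : x = α s
  · exact Or.inl (Or.inr hxs)
  by_cases hxβ : x ∈ β '' Mᶜ
  · rw [h.image_β]
    exact Or.inr ⟨hx, hxβ⟩
  · have hB : IsClosed (β '' univ) := (isCompact_univ.image h.β_cont).isClosed
    have hxB : x ∉ β '' univ := by
      rintro ⟨y, -, rfl⟩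
      by_cases hy : y ∈ M
      · exact hxs (h.β_M y hy)
      · exact hxβ ⟨y, hy, rfl⟩
    have h1 : (univ : Set X) = α '' M ∪ β '' univ := by
      ext z
      simp only [mem_univ, true_iff]
      obtain ⟨y, rfl | rfl⟩ := h.surj z
      · exact Or.inl ⟨r y, h.r_mem y, h.α_r y⟩
      · exact Or.inr ⟨y, trivial, rfl⟩
    have h2 : x ∈ dr (univ : Set X) ξ ∩ (β '' univ)ᶜ := ⟨hx, hxB⟩
    rw [h1, dr_union_closed_inter_compl hB, ← h.image_α] at h2
    exact Or.inl (Or.inl h2.1)

theorem mem_dr_of (h : IsWedge M s r α β) [Countable L] {a : Ordinal.{0}}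
    (hM : M = dr univ a) : α s ∈ dr (univ : Set X) a := by
  rw [mem_dr]
  refine ⟨trivial, fun η hη => ?_⟩
  rw [accPt_iff_nhds]
  intro U hU
  have hsa : s ∈ dr (univ : Set L) a := hM ▸ h.mem
  have hη' : η + 1 ≤ a := Order.add_one_le_of_lt hη
  have hU' : β ⁻¹' U ∈ 𝓝 s := by
    refine h.β_cont.continuousAt.preimage_mem_nhds ?_
    rw [h.β_M s h.mem]
    exact hU
  obtain ⟨V, hVU, hV, hsV⟩ := mem_nhds_iff.1 hU'
  obtain ⟨y, hyV, hy1, hy2⟩ := (infinite_exact hV hsV (dr_anti univ hη' hsa)).nonempty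
  have hyM : y ∉ M := by
    rw [hM]
    exact fun h2 => hy2 (dr_anti univ hη' h2)
  refine ⟨β y, ⟨hVU hyV, ?_⟩, h.ne y hyM s⟩
  have : β y ∈ β '' (dr univ η ∩ Mᶜ) := ⟨y, ⟨hy1, hyM⟩, rfl⟩
  rw [h.image_β] at this
  exact this.1

/-- The wedge of a space of rank `a + d` with `d < a` has type `(a, 1)`. -/
theorem ty_small (h : IsWedge M s r α β) [Countable L] {a d : Ordinal.{0}} {n : ℕ}
    (hM : M = dr univ a) (hd : d < a) (hL : Ty (univ : Set L) (a + d) n) :
    Ty (univ : Set X) a 1 := by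
  have h1 : dr (univ : Set X) a = {α s} := by
    refine Subset.antisymm (fun x hx => ?_) (by
      rw [singleton_subset_iff]; exact h.mem_dr_of hM)
    rcases h.dr_subset_wedge a hx with (h2 | h2) | h2
    · obtain ⟨m, hm, rfl⟩ := h2
      rw [hM, dr_dr] at hm
      have h3 := dr_anti univ (show a + d + 1 ≤ a + a by
        rw [add_assoc]
        exact add_le_add_right (Order.add_one_le_of_lt hd) a) hm
      rw [hL.succ_empty] at h3
      exact h3.elim
    · exact h2
    · obtain ⟨y, hy, rfl⟩ := h2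
      rw [← hM] at hy
      exact absurd hy.1 hy.2
  rw [Ty, h1]
  exact ⟨finite_singleton _, ncard_singleton _, one_ne_zero⟩

/-- The wedge of a space of rank `a + d` with `a ≤ d` has rank `d`. -/
theorem ty_large (h : IsWedge M s r α β) {a d : Ordinal.{0}} {n : ℕ}
    (hM : M = dr univ a) (hd : a ≤ d) (hL : Ty (univ : Set L) (a + d) n)
    (hs : s ∈ dr (univ : Set L) (a + d)) :
    ∃ m, Ty (univ : Set X) d m := by
  have hfin : (dr (univ : Set X) d).Finite := by
    refine Set.Finite.subset ((hL.1.image α).union (finite_singleton (α s))) fun x hx => ?_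
    rcases h.dr_subset_wedge d hx with (h2 | h2) | h2
    · rw [hM, dr_dr] at h2
      exact Or.inl h2
    · exact Or.inr h2
    · obtain ⟨y, hy, rfl⟩ := h2
      exact absurd (by rw [hM]; exact dr_anti univ hd hy.1) hy.2
  have hmem : α s ∈ dr (univ : Set X) d := by
    have h1 : α s ∈ α '' dr M d := ⟨s, by rw [hM, dr_dr]; exact hs, rfl⟩
    rw [h.image_α] at h1
    exact dr_mono (subset_univ _) d h1
  refine ⟨_, hfin, rfl, ?_⟩
  rw [Ne, ncard_eq_zero hfin]
  exact Nonempty.ne_empty ⟨_, hmem⟩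

end IsWedge

end Pool.Agent.Q82.CP
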