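import Pool.Agent.Q82.CP6

/-! Positive homeomorphisms between spaces `C_p`. -/

set_option autoImplicit false

namespace Pool.Agent.Q82.CP

open Set Filter Topology

universe u v w

/-- The topology of pointwise convergence. -/
abbrev ptop (K : Type u) [TopologicalSpace K] : TopologicalSpace C(K, ℝ) :=
  TopologicalSpace.induced (fun f => (f : K → ℝ)) inferInstance

/-- There is a positive linear homeomorphism of `C_p(K)` onto `C_p(L)`. -/
def Pos (K : Type u) (L : Type v) [TopologicalSpace K] [TopologicalSpace L] : Prop :=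
  ∃ T : C(K, ℝ) ≃ₗ[ℝ] C(L, ℝ), (∀ f, 0 ≤ f → 0 ≤ T f) ∧
    @Continuous _ _ (ptop K) (ptop L) T ∧ @Continuous _ _ (ptop L) (ptop K) T.symm

section

variable {K : Type u} {L : Type v} {N : Type w} [TopologicalSpace K] [TopologicalSpace L]
  [TopologicalSpace N]

theorem continuous_ev (x : K) : @Continuous _ _ (ptop K) _ (fun f : C(K, ℝ) => f x) := by
  letI := ptop K
  have h : @Continuous C(K, ℝ) (K → ℝ) (ptop K) _ (fun f => (f : K → ℝ)) :=
    continuous_induced_dom
  exact (continuous_apply x).comp h

theorem continuous_pt {T : C(K, ℝ) → C(L, ℝ)}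
    (h : ∀ y, @Continuous _ _ (ptop K) _ (fun f => T f y)) :
    @Continuous _ _ (ptop K) (ptop L) T := by
  letI := ptop K
  refine continuous_induced_rng.2 ?_
  exact continuous_pi h

theorem Pos.trans (h1 : Pos K L) (h2 : Pos L N) : Pos K N := by
  obtain ⟨T, hT, hc, hc'⟩ := h1
  obtain ⟨S, hS, hd, hd'⟩ := h2
  refine ⟨T.trans S, fun f hf => hS _ (hT f hf), ?_, ?_⟩
  · exact @Continuous.comp _ _ _ (ptop K) (ptop L) (ptop N) _ _ hd hc
  · exact @Continuous.comp _ _ _ (ptop N) (ptop L) (ptop K) _ _ hc' hd'

theorem Pos.of_homeo (e : K ≃ₜ L) : Pos K L := by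
  refine ⟨{ toFun := fun f => f.comp ⟨e.symm, e.symm.continuous⟩
            invFun := fun f => f.comp ⟨e, e.continuous⟩
            map_add' := fun f g => rfl
            map_smul' := fun c f => rfl
            left_inv := fun f => by ext x; simp
            right_inv := fun f => by ext x; simp }, ?_, ?_, ?_⟩
  · intro f hf y
    exact hf (e.symm y)
  · exact continuous_pt fun y => continuous_ev (e.symm y)
  · exact continuous_pt fun y => continuous_ev (e y)

end

namespace IsWedge

variable {L : Type u} [TopologicalSpace L] {M : Set L} {s : L} {r : L → L} {X : Type v}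
  [TopologicalSpace X] {α β : L → X} [CompactSpace L] [T2Space L] [CompactSpace X] [T2Space X]

/-- The averaging operator `f ↦ (f ∘ α + f ∘ β) / 2`. -/
theorem pos_avg (h : IsWedge M s r α β) : Pos X L := by
  have hrr : ∀ y, r (r y) = r y := fun y => h.r_eq _ (h.r_mem y)
  let R : C(L, L) := ⟨r, h.r_cont⟩
  let A : C(L, X) := ⟨α, h.α_cont⟩
  let B : C(L, X) := ⟨β, h.β_cont⟩
  have key : ∀ g : C(L, ℝ), ∃ F : C(X, ℝ), (∀ y, F (α y) = 2 * g (r y) - g s) ∧
      ∀ y, F (β y) = 2 * g y - 2 * g (r y) + g s := by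
    intro g
    refine h.descend ⟨fun y => 2 * g (r y) - g s, by have := h.r_cont; fun_prop⟩
      ⟨fun y => 2 * g y - 2 * g (r y) + g s, by have := h.r_cont; fun_prop⟩ ?_ ?_
    · intro y
      simp [hrr]
    · intro m hm
      simp only [ContinuousMap.coe_mk, h.r_eq m hm, h.r_eq s h.mem]
      ring
  choose S hS1 hS2 using key
  refine ⟨{ toFun := fun f => (1 / 2 : ℝ) • (f.comp A + f.comp B)
            invFun := S
            map_add' := fun f g => by ext y; simp; ring
            map_smul' := fun c f => by ext y; simp; ring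
            left_inv := fun f => ?_
            right_inv := fun g => ?_ }, ?_, ?_, ?_⟩
  · refine h.ext (fun y => ?_) (fun y => ?_)
    · rw [hS1]
      simp only [ContinuousMap.smul_apply, ContinuousMap.add_apply, ContinuousMap.comp_apply,
        smul_eq_mul, A, B, ContinuousMap.coe_mk, h.α_r, h.β_M _ (h.r_mem y), h.β_M s h.mem]
      ring
    · rw [hS2]
      simp only [ContinuousMap.smul_apply, ContinuousMap.add_apply, ContinuousMap.comp_apply,
        smul_eq_mul, A, B, ContinuousMap.coe_mk, h.α_r, h.β_M _ (h.r_mem y), h.β_M s h.mem]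
      ring
  · ext y
    simp only [ContinuousMap.smul_apply, ContinuousMap.add_apply, ContinuousMap.comp_apply,
      smul_eq_mul, A, B, ContinuousMap.coe_mk, hS1, hS2]
    ring
  · intro f hf y
    have h1 : 0 ≤ f (α y) := hf (α y)
    have h2 : 0 ≤ f (β y) := hf (β y)
    show (0 : ℝ) ≤ (1 / 2 : ℝ) * (f (α y) + f (β y))
    linarith
  · refine continuous_pt fun y => ?_
    letI := ptop X
    have h1 := continuous_ev (α y)
    have h2 := continuous_ev (β y)
    exact (h1.add h2).const_mul (1 / 2 : ℝ)
  · refine continuous_pt fun x => ?_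
    letI := ptop L
    have h1 := continuous_ev (K := L)
    obtain ⟨y, rfl | rfl⟩ := h.surj x
    · show Continuous fun g => S g (α y)
      simp_rw [hS1]
      exact ((h1 _).const_mul 2).sub (h1 _)
    · show Continuous fun g => S g (β y)
      simp_rw [hS2]
      exact (((h1 _).const_mul 2).sub ((h1 _).const_mul 2)).add (h1 _)

/-- If `M` is finite there is a positive homeomorphism from `C_p(L)` onto `C_p(X)`. -/
theorem pos_finite (h : IsWedge M s r α β) (hM : M.Finite) : Pos L X := by
  classical
  have hrr : ∀ y, r (r y) = r y := fun y => h.r_eq _ (h.r_mem y)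
  -- functions on `M` composed with `r` are continuous
  have hcont : ∀ φ : L → ℝ, Continuous fun y => φ (r y) := by
    intro φ
    have hfin : Finite M := hM
    have h1 : Continuous fun y => (⟨r y, h.r_mem y⟩ : M) := h.r_cont.subtype_mk _
    have h2 : Continuous fun m : M => φ m := continuous_of_discreteTopology
    exact h2.comp h1
  let F := hM.toFinset
  have hsF : s ∈ F := by simp [F, h.mem]
  let Sg : C(L, ℝ) → ℝ := fun g => ∑ m ∈ F, g m
  let φ : C(L, ℝ) → L → ℝ := fun g m => if m = s then Sg g else g m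
  have key : ∀ g : C(L, ℝ), ∃ G : C(X, ℝ), (∀ y, G (α y) = φ g (r y)) ∧
      ∀ y, G (β y) = g y - g (r y) + Sg g := by
    intro g
    refine h.descend ⟨fun y => φ g (r y), hcont _⟩
      ⟨fun y => g y - g (r y) + Sg g, by have := h.r_cont; fun_prop⟩ ?_ ?_
    · intro y
      simp [hrr]
    · intro m hm
      simp only [ContinuousMap.coe_mk, h.r_eq m hm, h.r_eq s h.mem, φ, if_true]
      ring
  choose T hT1 hT2 using key
  let ψ : C(X, ℝ) → L → ℝ := fun G m =>
    if m = s then G (α s) - ∑ m' ∈ F.erase s, G (α m') else G (α m)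
  let B : C(L, X) := ⟨β, h.β_cont⟩
  let Sv : C(X, ℝ) → C(L, ℝ) := fun G =>
    ⟨fun y => G (β y) - G (α s) + ψ G (r y), by
      have := h.β_cont
      exact ((G.continuous.comp h.β_cont).sub continuous_const).add (hcont _)⟩
  have hSv : ∀ G y, Sv G y = G (β y) - G (α s) + ψ G (r y) := fun G y => rfl
  have hφs : ∀ g, φ g s = Sg g := fun g => by simp [φ]
  have hφ : ∀ g m, m ≠ s → φ g m = g m := fun g m hm => by simp [φ, hm]
  have hψs : ∀ G, ψ G s = G (α s) - ∑ m' ∈ F.erase s, G (α m') := fun G => by simp [ψ]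
  have hψ : ∀ G m, m ≠ s → ψ G m = G (α m) := fun G m hm => by simp [ψ, hm]
  have hrF : ∀ m ∈ F, r m = m := fun m hm => h.r_eq m (by simpa [F] using hm)
  have hFM : ∀ m ∈ F, m ∈ M := fun m hm => by simpa [F] using hm
  have hTαs : ∀ g, T g (α s) = Sg g := fun g => by rw [hT1, h.r_eq s h.mem, hφs]
  have hleft : ∀ g, Sv (T g) = g := by
    intro g
    ext y
    rw [hSv, hT2, hTαs]
    by_cases hy : r y = s
    · rw [hy, hψs, hTαs]
      have : ∑ m' ∈ F.erase s, T g (α m') = ∑ m' ∈ F.erase s, g m' := by
        refine Finset.sum_congr rfl fun m hm => ?_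
        rw [Finset.mem_erase] at hm
        rw [hT1, hrF m hm.2, hφ g m hm.1]
      rw [this]
      have h2 : g s + ∑ m' ∈ F.erase s, g m' = Sg g := Finset.add_sum_erase F _ hsF
      linarith
    · rw [hψ _ _ hy, hT1, hrr, hφ g _ hy]
      ring
  have hSgSv : ∀ G, Sg (Sv G) = G (α s) := by
    intro G
    show ∑ m ∈ F, Sv G m = _
    rw [← Finset.add_sum_erase F _ hsF]
    have h1 : ∑ m ∈ F.erase s, Sv G m = ∑ m ∈ F.erase s, G (α m) := by
      refine Finset.sum_congr rfl fun m hm => ?_
      rw [Finset.mem_erase] at hm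
      rw [hSv, h.β_M m (hFM m hm.2), hrF m hm.2, hψ G m hm.1]
      ring
    rw [h1, hSv, h.β_M s h.mem, h.r_eq s h.mem, hψs]
    ring
  have hright : ∀ G, T (Sv G) = G := by
    intro G
    refine h.ext (fun y => ?_) (fun y => ?_)
    · rw [hT1]
      by_cases hy : r y = s
      · rw [hy, hφs, hSgSv, ← h.α_r y, hy]
      · rw [hφ _ _ hy, hSv, h.β_M _ (h.r_mem y), hrr, hψ _ _ hy, h.α_r]
        ring
    · rw [hT2, hSgSv, hSv, hSv, hrr, h.β_M _ (h.r_mem y)]
      ring
  have hadd : ∀ g g', T (g + g') = T g + T g' := by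
    intro g g'
    refine h.ext (fun y => ?_) (fun y => ?_)
    · simp only [ContinuousMap.add_apply, hT1, φ, Sg, Finset.sum_add_distrib]
      split_ifs <;> rfl
    · simp only [ContinuousMap.add_apply, hT2, Sg, Finset.sum_add_distrib]
      ring
  have hsmul : ∀ (c : ℝ) g, T (c • g) = c • T g := by
    intro c g
    refine h.ext (fun y => ?_) (fun y => ?_)
    · simp only [ContinuousMap.smul_apply, smul_eq_mul, hT1, φ, Sg, ← Finset.mul_sum]
      split_ifs <;> rfl
    · simp only [ContinuousMap.smul_apply, smul_eq_mul, hT2, Sg, ← Finset.mul_sum]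
      ring
  refine ⟨{ toFun := T
            invFun := Sv
            map_add' := hadd
            map_smul' := hsmul
            left_inv := hleft
            right_inv := hright }, ?_, ?_, ?_⟩
  · intro g hg x
    have h0 : ∀ y, 0 ≤ g y := fun y => hg y
    have hS0 : ∀ m ∈ F, g m ≤ Sg g := fun m hm =>
      Finset.single_le_sum (f := fun m => g m) (fun i _ => h0 i) hm
    show 0 ≤ T g x
    obtain ⟨y, rfl | rfl⟩ := h.surj x
    · rw [hT1]
      by_cases hy : r y = s
      · rw [hy, hφs]
        exact Finset.sum_nonneg fun i _ => h0 i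
      · rw [hφ _ _ hy]
        exact h0 _
    · rw [hT2]
      have := hS0 (r y) (by simp [F, h.r_mem y])
      have := h0 y
      linarith
  · refine continuous_pt fun x => ?_
    letI := ptop L
    have h1 := continuous_ev (K := L)
    have hSc : Continuous Sg := continuous_finsetSum _ fun m _ => h1 m
    obtain ⟨y, rfl | rfl⟩ := h.surj x
    · show Continuous fun g => T g (α y)
      simp_rw [hT1]
      by_cases hy : r y = s
      · simp_rw [hy, hφs]
        exact hSc
      · simp_rw [hφ _ _ hy]
        exact h1 _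
    · show Continuous fun g => T g (β y)
      simp_rw [hT2]
      exact ((h1 _).sub (h1 _)).add hSc
  · refine continuous_pt fun y => ?_
    letI := ptop X
    have h1 := continuous_ev (K := X)
    show Continuous fun G => Sv G y
    simp_rw [hSv]
    refine ((h1 _).sub (h1 _)).add ?_
    by_cases hy : r y = s
    · simp_rw [hy, hψs]
      exact (h1 _).sub (continuous_finsetSum _ fun m _ => h1 _)
    · simp_rw [hψ _ _ hy]
      exact h1 _

end IsWedge

end Pool.Agent.Q82.CP
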