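import Pool.Agent.Q82.CP7

/-! Sufficiency: rank `a ≥ 1`, rank `b` with `a ≤ b < a ω`. -/

set_option autoImplicit false

namespace Pool.Agent.Q82.CP

open Set Filter Topology

universe u v

theorem exists_pos_le {a : Ordinal.{0}} : ∀ (n : ℕ) (L : Type u) [TopologicalSpace L]
    [CompactSpace L] [T2Space L] [Countable L] (b : Ordinal.{0}) (m : ℕ),
    Ty (univ : Set L) b m → a ≤ b → b < a * n →
    ∃ (X : Type u) (_ : TopologicalSpace X) (_ : CompactSpace X) (_ : T2Space X)
      (_ : Countable X), Ty (univ : Set X) a 1 ∧ Pos X L := by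
  intro n
  induction n with
  | zero =>
    intro L _ _ _ _ b m _ _ hb
    simp at hb
  | succ n ih =>
    intro L _ _ _ _ b m hL hab hb
    obtain ⟨d, rfl⟩ : ∃ d, b = a + d := ⟨b - a, (Ordinal.add_sub_cancel_of_le hab).symm⟩
    obtain ⟨s, hs⟩ := hL.nonempty
    have hsM : s ∈ dr (univ : Set L) a := dr_anti univ hab hs
    obtain ⟨X, tX, cX, t2X, coX, r, α, β, hW⟩ :=
      exists_wedge (isClosed_dr isClosed_univ a) hsM
    rcases lt_or_ge d a with hd | hd
    · exact ⟨X, tX, cX, t2X, coX, hW.ty_small rfl hd hL, hW.pos_avg⟩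
    · obtain ⟨m', hm'⟩ := hW.ty_large rfl hd hL hs
      have hdn : d < a * n := by
        have h1 : a * ((n + 1 : ℕ) : Ordinal.{0}) = a + a * n := by
          rw [Nat.add_comm, Nat.cast_add, Nat.cast_one, mul_add, mul_one]
        rw [h1] at hb
        simpa using hb
      obtain ⟨X', tX', cX', t2X', coX', h1, h2⟩ := ih X d m' hm' hd hdn
      exact ⟨X', tX', cX', t2X', coX', h1, h2.trans hW.pos_avg⟩

theorem pos_of_types {K : Type u} {L : Type v} [TopologicalSpace K] [CompactSpace K] [T2Space K]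
    [Countable K] [TopologicalSpace L] [CompactSpace L] [T2Space L] [Countable L]
    {a b : Ordinal.{0}} {n m : ℕ} (hK : Ty (univ : Set K) a n) (hL : Ty (univ : Set L) b m)
    (ha : 0 < a) (hab : a ≤ b) (hb : b < a * Ordinal.omega0) : Pos K L := by
  obtain ⟨k, hk⟩ : ∃ k : ℕ, b < a * k := by
    rw [Ordinal.lt_mul_iff_of_isSuccLimit Ordinal.isSuccLimit_omega0] at hb
    obtain ⟨c, hc, hbc⟩ := hb
    obtain ⟨k, rfl⟩ := Ordinal.lt_omega0.1 hc
    exact ⟨k, hbc⟩
  obtain ⟨X', tX', cX', t2X', coX', h1, h2⟩ := exists_pos_le k L b m hL hab hk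
  obtain ⟨s, hs⟩ := hK.nonempty
  obtain ⟨X, tX, cX, t2X, coX, r, α, β, hW⟩ :=
    exists_wedge (isClosed_dr isClosed_univ a) hs
  have hX : Ty (univ : Set X) a 1 := hW.ty_small (d := 0) (n := n) rfl ha (by rwa [add_zero])
  obtain ⟨e⟩ := homeo_of_ty hX h1
  exact ((hW.pos_finite hK.1).trans (Pos.of_homeo e)).trans h2

end Pool.Agent.Q82.CP
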