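import Pool.Agent.Q82.CP8

/-! Positive operators: basic estimates and the first necessary condition. -/

set_option autoImplicit false

namespace Pool.Agent.Q82.CP

open Set Filter Topology

universe u v
variable {K : Type u} {L : Type v} [TopologicalSpace K] [TopologicalSpace L]

open Classical in
/-- The indicator function of a clopen set (zero if the set is not clopen). -/
noncomputable def ind (V : Set K) : C(K, ℝ) :=
  if h : IsClopen V then ⟨V.indicator (fun _ => 1), h.continuous_indicator continuous_const⟩ else 0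

open Classical in
theorem ind_apply {V : Set K} (hV : IsClopen V) (x : K) : ind V x = if x ∈ V then 1 else 0 := by
  rw [ind, dif_pos hV]
  rfl

theorem ind_mem {V : Set K} (hV : IsClopen V) {x : K} (hx : x ∈ V) : ind V x = 1 := by
  classical rw [ind_apply hV, if_pos hx]

theorem ind_notMem {V : Set K} (hV : IsClopen V) {x : K} (hx : x ∉ V) : ind V x = 0 := by
  classical rw [ind_apply hV, if_neg hx]

theorem ind_nonneg {V : Set K} (hV : IsClopen V) : 0 ≤ ind V := by
  classical
  intro x
  show (0 : ℝ) ≤ ind V x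
  rw [ind_apply hV]
  split_ifs <;> norm_num

theorem ind_empty : ind (∅ : Set K) = 0 := by
  ext x
  rw [ind_notMem isClopen_empty (notMem_empty x)]
  rfl

theorem ind_union {U V : Set K} (hU : IsClopen U) (hV : IsClopen V) (h : Disjoint U V) :
    ind (U ∪ V) = ind U + ind V := by
  classical
  ext x
  simp only [ContinuousMap.add_apply, ind_apply hU, ind_apply hV, ind_apply (hU.union hV),
    mem_union]
  by_cases h1 : x ∈ U
  · have h2 : x ∉ V := Set.disjoint_left.1 h h1
    simp [h1, h2]
  · simp [h1]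

/-- Positivity of a linear map. -/
def IsPos (T : C(K, ℝ) →ₗ[ℝ] C(L, ℝ)) : Prop := ∀ f, 0 ≤ f → 0 ≤ T f

theorem IsPos.mono {T : C(K, ℝ) →ₗ[ℝ] C(L, ℝ)} (hT : IsPos T) {f g : C(K, ℝ)}
    (h : ∀ x, f x ≤ g x) (y : L) : T f y ≤ T g y := by
  have h1 := hT (g - f) (fun x => by
    show (0 : ℝ) ≤ g x - f x
    linarith [h x]) y
  rw [map_sub] at h1
  have h2 : (0 : ℝ) ≤ T g y - T f y := h1
  linarith

theorem IsPos.nonneg {T : C(K, ℝ) →ₗ[ℝ] C(L, ℝ)} (hT : IsPos T) {g : C(K, ℝ)}
    (h : ∀ x, 0 ≤ g x) (y : L) : 0 ≤ T g y := hT g h y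

theorem IsPos.abs_le {T : C(K, ℝ) →ₗ[ℝ] C(L, ℝ)} (hT : IsPos T) {f g : C(K, ℝ)}
    (h : ∀ x, |f x| ≤ g x) (y : L) : |T f y| ≤ T g y := by
  rw [_root_.abs_le]
  constructor
  · have h1 := hT.mono (f := -f) (g := g) (fun x => by
      have := (_root_.abs_le.1 (h x)).1
      show -(f x) ≤ g x
      linarith) y
    rw [map_neg] at h1
    have h2 : -(T f y) ≤ T g y := h1
    linarith
  · exact hT.mono (fun x => (_root_.abs_le.1 (h x)).2) y

theorem IsPos.norm_le [CompactSpace K] [CompactSpace L] {T : C(K, ℝ) →ₗ[ℝ] C(L, ℝ)}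
    (hT : IsPos T) (f : C(K, ℝ)) : ‖T f‖ ≤ ‖T 1‖ * ‖f‖ := by
  rw [ContinuousMap.norm_le _ (by positivity)]
  intro y
  have h1 := hT.abs_le (f := f) (g := ‖f‖ • (1 : C(K, ℝ))) (fun x => by
    show |f x| ≤ ‖f‖ * 1
    rw [mul_one]
    exact f.norm_coe_le_norm x) y
  rw [map_smul] at h1
  have h2 : |T f y| ≤ ‖f‖ * T 1 y := h1
  rw [Real.norm_eq_abs]
  have h3 : T 1 y ≤ ‖T 1‖ := (le_abs_self _).trans ((T 1).norm_coe_le_norm y)
  calc |T f y| ≤ ‖f‖ * T 1 y := h2
    _ ≤ ‖f‖ * ‖T 1‖ := mul_le_mul_of_nonneg_left h3 (norm_nonneg _)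
    _ = ‖T 1‖ * ‖f‖ := mul_comm _ _

variable [CompactSpace K] [T2Space K] [Countable K] [CompactSpace L] [T2Space L] [Countable L]

omit [Countable L] [T2Space L] [CompactSpace L] in
/-- Atoms of mass at least `c` at finitely many points. -/
theorem card_mul_le {T : C(K, ℝ) →ₗ[ℝ] C(L, ℝ)} (hT : IsPos T) {c : ℝ} {y : L}
    (P : Finset K) (hP : ∀ p ∈ P, ∀ W : Set K, IsClopen W → p ∈ W → c ≤ T (ind W) y) :
    ∀ U : Set K, IsClopen U → (P : Set K) ⊆ U → P.card * c ≤ T (ind U) y := by
  classical
  induction P using Finset.induction_on with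
  | empty =>
    intro U hU _
    simpa using hT.nonneg (fun x => ind_nonneg hU x) y
  | insert p P hp ih =>
    intro U hU hPU
    obtain ⟨W, hW, hpW, hWU⟩ := exists_clopen (x := p) (U := U ∩ (P : Set K)ᶜ)
      ((hU.isOpen.inter P.finite_toSet.isClosed.isOpen_compl).mem_nhds
        ⟨hPU (by simp), by simpa using hp⟩)
    have h1 : c ≤ T (ind W) y := hP p (by simp) W hW hpW
    have h2 : P.card * c ≤ T (ind (U \ W)) y := by
      refine ih (fun q hq => hP q (by simp [hq])) (U \ W) (hU.diff hW) ?_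
      intro q hq
      refine ⟨hPU (by simp [Finset.mem_coe.1 hq]), fun hqW => (hWU hqW).2 hq⟩
    have h3 : ind U = ind W + ind (U \ W) := by
      rw [← ind_union hW (hU.diff hW) disjoint_sdiff_self_right]
      congr 1
      rw [union_sdiff_cancel]
      exact fun x hx => (hWU hx).1
    rw [h3, map_add, Finset.card_insert_of_notMem hp]
    show ((P.card + 1 : ℕ) : ℝ) * c ≤ T (ind W) y + T (ind (U \ W)) y
    push_cast
    linarith

theorem exists_atom {T : C(K, ℝ) →ₗ[ℝ] C(L, ℝ)} (hT : IsPos T) {c : ℝ} (hc : 0 < c)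
    (hlow : ∀ f, c * ‖f‖ ≤ ‖T f‖) (ξ : Ordinal.{0}) : ∀ x ∈ dr (univ : Set K) ξ,
    ∃ y ∈ dr (univ : Set L) ξ, ∀ V : Set K, IsClopen V → x ∈ V → c ≤ T (ind V) y := by
  induction ξ using WellFoundedLT.induction with
  | ind ξ ih =>
    intro x hx
    rcases eq_or_ne ξ 0 with rfl | hξ
    · let ι := {V : Set K // IsClopen V ∧ x ∈ V}
      have hι : Nonempty ι := ⟨⟨univ, isClopen_univ, trivial⟩⟩
      have hclosed : ∀ V : ι, IsClosed {y : L | c ≤ T (ind V.1) y} := fun V =>
        isClosed_le continuous_const (T (ind V.1)).continuous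
      obtain ⟨y, hy⟩ := IsCompact.nonempty_iInter_of_directed_nonempty_isCompact_isClosed
        (fun V : ι => {y : L | c ≤ T (ind V.1) y}) (fun V W =>
          ⟨⟨V.1 ∩ W.1, V.2.1.inter W.2.1, V.2.2, W.2.2⟩, fun y hy => by
            have hy' : c ≤ T (ind (V.1 ∩ W.1)) y := hy
            refine hy'.trans (hT.mono (fun z => ?_) y)
            classical
            rw [ind_apply V.2.1, ind_apply (V.2.1.inter W.2.1)]
            by_cases h1 : z ∈ V.1 <;> by_cases h2 : z ∈ W.1 <;> simp [h1, h2], fun y hy => by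
            have hy' : c ≤ T (ind (V.1 ∩ W.1)) y := hy
            refine hy'.trans (hT.mono (fun z => ?_) y)
            classical
            rw [ind_apply W.2.1, ind_apply (V.2.1.inter W.2.1)]
            by_cases h1 : z ∈ V.1 <;> by_cases h2 : z ∈ W.1 <;> simp [h1, h2]⟩)
        (fun V => by
          by_contra hcon
          rw [not_nonempty_iff_eq_empty, eq_empty_iff_forall_notMem] at hcon
          have h1 : ‖T (ind V.1)‖ < c := by
            rw [ContinuousMap.norm_lt_iff _ hc]
            intro y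
            have h2 : ¬ c ≤ T (ind V.1) y := hcon y
            have h3 := hT.nonneg (fun x => ind_nonneg V.2.1 x) y
            rw [Real.norm_eq_abs, abs_of_nonneg h3]
            exact not_le.1 h2
          have h4 : (1 : ℝ) ≤ ‖ind V.1‖ := by
            have := (ind V.1).norm_coe_le_norm x
            rw [ind_mem V.2.1 V.2.2] at this
            simpa using this
          have h5 := hlow (ind V.1)
          nlinarith) (fun V => (hclosed V).isCompact) hclosed
      rw [mem_iInter] at hy
      exact ⟨y, by rw [dr_zero]; trivial, fun V hV hxV => hy ⟨V, hV, hxV⟩⟩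
    · let ι := {p : Set K × Ordinal.{0} // IsClopen p.1 ∧ x ∈ p.1 ∧ p.2 < ξ}
      have hξ0 : 0 < ξ := pos_iff_ne_zero.2 hξ
      have hι : Nonempty ι := ⟨⟨(univ, 0), isClopen_univ, trivial, hξ0⟩⟩
      let A : Set K → Ordinal.{0} → Set L := fun V η => {z | z ∈ dr (univ : Set L) η ∧ c ≤ T (ind V) z}
      have hinf : ∀ p : ι, (A p.1.1 p.1.2).Infinite := by
        rintro ⟨⟨V, η⟩, hV, hxV, hη⟩
        simp only at hV hxV hη ⊢
        intro hfin
        have h1 : AccPt x (𝓟 (V ∩ dr (univ : Set K) η)) := by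
          have := (mem_dr.1 hx).2 η hη
          exact this.nhds_inter (hV.isOpen.mem_nhds hxV)
        have h2 : (V ∩ dr (univ : Set K) η).Infinite := Set.Infinite.of_accPt h1
        have hLne : Nonempty L := by
          obtain ⟨z, hz⟩ := h2.nonempty
          obtain ⟨y, -⟩ := ih η hη z hz.2
          exact ⟨y⟩
        choose! g hg1 hg2 using ih η hη
        have hmaps : ∀ z ∈ V ∩ dr (univ : Set K) η, g z ∈ A V η := fun z hz =>
          ⟨hg1 z hz.2, hg2 z hz.2 V hV hz.1⟩
        obtain ⟨y, hy, hyinf⟩ : ∃ y ∈ A V η, (V ∩ dr (univ : Set K) η ∩ g ⁻¹' {y}).Infinite := by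
          by_contra hcon
          push Not at hcon
          apply h2
          refine (hfin.biUnion (t := fun y => V ∩ dr (univ : Set K) η ∩ g ⁻¹' {y})
            (fun y hy => hcon y hy)).subset ?_
          intro z hz
          exact mem_iUnion₂.2 ⟨g z, hmaps z hz, hz, rfl⟩
        obtain ⟨N, hN⟩ := exists_nat_gt (T (ind (univ : Set K)) y / c)
        obtain ⟨P, hP1, hP2⟩ := hyinf.exists_subset_card_eq N
        have h3 := card_mul_le hT P (fun p hp W hW hpW => by
          have h4 := hP1 hp
          have h5 := hg2 p h4.1.2 W hW hpW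
          rwa [show g p = y from h4.2] at h5) univ isClopen_univ (subset_univ _)
        rw [hP2] at h3
        rw [div_lt_iff₀ hc] at hN
        linarith
      obtain ⟨y, hy⟩ := IsCompact.nonempty_iInter_of_directed_nonempty_isCompact_isClosed
        (fun p : ι => derivedSet (A p.1.1 p.1.2)) (fun p q =>
          ⟨⟨(p.1.1 ∩ q.1.1, max p.1.2 q.1.2), p.2.1.inter q.2.1, ⟨p.2.2.1, q.2.2.1⟩,
            max_lt p.2.2.2 q.2.2.2⟩, derivedSet_mono _ _ (fun z hz =>
              ⟨dr_anti univ (le_max_left _ _) hz.1, by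
                refine hz.2.trans (hT.mono (fun z => ?_) _)
                classical
                rw [ind_apply p.2.1, ind_apply (p.2.1.inter q.2.1)]
                by_cases h1 : z ∈ p.1.1 <;> by_cases h2 : z ∈ q.1.1 <;> simp [h1, h2]⟩),
            derivedSet_mono _ _ (fun z hz =>
              ⟨dr_anti univ (le_max_right _ _) hz.1, by
                refine hz.2.trans (hT.mono (fun z => ?_) _)
                classical
                rw [ind_apply q.2.1, ind_apply (p.2.1.inter q.2.1)]
                by_cases h1 : z ∈ p.1.1 <;> by_cases h2 : z ∈ q.1.1 <;> simp [h1, h2]⟩)⟩)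
        (fun p => by
          obtain ⟨z, -, hz⟩ := Set.Infinite.exists_accPt_of_subset_isCompact (hinf p)
            isCompact_univ (subset_univ _)
          exact ⟨z, hz⟩) (fun p => (isClosed_derivedSet _).isCompact)
        (fun p => isClosed_derivedSet _)
      rw [mem_iInter] at hy
      refine ⟨y, ?_, fun V hV hxV => ?_⟩
      · rw [mem_dr]
        refine ⟨trivial, fun η hη => ?_⟩
        have h1 : AccPt y (𝓟 (A univ η)) := hy ⟨(univ, η), isClopen_univ, trivial, hη⟩
        exact h1.mono (principal_mono.2 fun z hz => hz.1)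
      · have h1 : AccPt y (𝓟 (A V 0)) := hy ⟨(V, 0), hV, hxV, hξ0⟩
        have h2 : AccPt y (𝓟 {z | c ≤ T (ind V) z}) :=
          h1.mono (principal_mono.2 fun z hz => hz.2)
        have h3 : IsClosed {z | c ≤ T (ind V) z} :=
          isClosed_le continuous_const (T (ind V)).continuous
        exact (isClosed_iff_clusterPt.1 h3) y h2.clusterPt

end Pool.Agent.Q82.CP
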