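import Mathlib

/-! # Lower densities of sets of positive integers -/

namespace Q82.Dens

open Filter

/-- the lower `q`-density `liminf |A ∩ [1, n^q]| / n` of a set `A` of positive integers -/
noncomputable def dens (q : ℝ) (A : Set ℕ) : ENNReal :=
  liminf (fun n : ℕ =>
    (({j : ℕ | j ∈ A ∧ 1 ≤ j ∧ (j : ℝ) ≤ (n : ℝ) ^ q}.ncard : ℕ) : ENNReal) / (n : ENNReal)) atTop

end Q82.Dens
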