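import Mathlib

/-!
# A multiscale digit set and its word length

`a i = 2 ^ (i ^ 3)`, `b i = 2 ^ ⌊3 λ i²⌋`; `F L k` is the set of the numbers `∑_{i<k} a i * c i`
with `c i ≤ L * b i`.  The word length `w n` is the least `L` with `n ∈ F L k` for some `k`.
-/

namespace Q82.Digit

open Filter Topology Finset

noncomputable section

variable (lam : ℝ)

/-- scales -/
def a (i : ℕ) : ℕ := 2 ^ (i ^ 3)

/-- number of binary digits in block `i` -/
def l (i : ℕ) : ℕ := ⌊3 * lam * (i : ℝ) ^ 2⌋₊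

/-- digits in block `i` -/
def b (i : ℕ) : ℕ := 2 ^ (l lam i)

/-- sums `∑_{i<k} a i * c i` with `c i ≤ L * b i` -/
def F (L : ℕ) : ℕ → Finset ℕ
  | 0 => {0}
  | k + 1 => ((F L k) ×ˢ (range (L * b lam k + 1))).image (fun p => p.1 + a k * p.2)

/-- sums `∑_{i<k} a i * c i` with `c i < b i` -/
def G : ℕ → Finset ℕ
  | 0 => {0}
  | k + 1 => ((G k) ×ˢ (range (b lam k))).image (fun p => p.1 + a k * p.2)

/-- exponent sum -/
def sig (k : ℕ) : ℕ := ∑ i ∈ range k, l lam i

variable {lam}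

lemma mem_F_succ {L k n : ℕ} : n ∈ F lam L (k + 1) ↔
    ∃ m ∈ F lam L k, ∃ c ≤ L * b lam k, n = m + a k * c := by
  simp only [F, mem_image, mem_product, mem_range, Prod.exists]
  constructor
  · rintro ⟨m, c, ⟨h1, h2⟩, h3⟩
    exact ⟨m, h1, c, Nat.lt_succ_iff.1 h2, h3.symm⟩
  · rintro ⟨m, h1, c, h2, h3⟩
    exact ⟨m, c, ⟨h1, Nat.lt_succ_iff.2 h2⟩, h3.symm⟩

lemma mem_G_succ {k n : ℕ} : n ∈ G lam (k + 1) ↔
    ∃ m ∈ G lam k, ∃ c < b lam k, n = m + a k * c := by
  simp only [G, mem_image, mem_product, mem_range, Prod.exists]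
  constructor
  · rintro ⟨m, c, ⟨h1, h2⟩, h3⟩
    exact ⟨m, h1, c, h2, h3.symm⟩
  · rintro ⟨m, h1, c, h2, h3⟩
    exact ⟨m, c, ⟨h1, h2⟩, h3.symm⟩

lemma a_pos (i : ℕ) : 0 < a i := by unfold a; positivity

lemma b_pos (i : ℕ) : 0 < b lam i := by unfold b; positivity

lemma a_mono : Monotone a := by
  intro i j h
  unfold a
  exact Nat.pow_le_pow_right (by norm_num) (Nat.pow_le_pow_left h 3)

lemma F_succ {L k n : ℕ} (h : n ∈ F lam L k) : n ∈ F lam L (k + 1) :=
  mem_F_succ.2 ⟨n, h, 0, Nat.zero_le _, by simp⟩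

lemma F_mono {L k k' n : ℕ} (hk : k ≤ k') (h : n ∈ F lam L k) : n ∈ F lam L k' := by
  induction k', hk using Nat.le_induction with
  | base => exact h
  | succ m _ ih => exact F_succ ih

lemma F_monoL {L L' k n : ℕ} (hL : L ≤ L') (h : n ∈ F lam L k) : n ∈ F lam L' k := by
  induction k generalizing n with
  | zero => exact h
  | succ k ih =>
    obtain ⟨m, hm, c, hc, rfl⟩ := mem_F_succ.1 h
    exact mem_F_succ.2 ⟨m, ih hm, c, hc.trans (Nat.mul_le_mul_right _ hL), rfl⟩

lemma F_add {L L' k x y : ℕ} (hx : x ∈ F lam L k) (hy : y ∈ F lam L' k) :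
    x + y ∈ F lam (L + L') k := by
  induction k generalizing x y with
  | zero =>
    simp only [F, mem_singleton] at hx hy ⊢
    omega
  | succ k ih =>
    obtain ⟨m, hm, c, hc, rfl⟩ := mem_F_succ.1 hx
    obtain ⟨m', hm', c', hc', rfl⟩ := mem_F_succ.1 hy
    refine mem_F_succ.2 ⟨m + m', ih hm hm', c + c', ?_, by ring⟩
    rw [add_mul]
    exact add_le_add hc hc'

lemma F_bound {L K k n : ℕ} (h : n ∈ F lam L K) (hn : n < a k) : n ∈ F lam L k := by
  induction K generalizing n with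
  | zero => exact F_mono (Nat.zero_le _) h
  | succ K ih =>
    rcases le_or_gt (K + 1) k with hk | hk
    · exact F_mono hk h
    · obtain ⟨m, hm, c, hc, rfl⟩ := mem_F_succ.1 h
      have h1 : a k ≤ a K := a_mono (by omega)
      have hc0 : c = 0 := by
        by_contra hne
        have : a K * 1 ≤ a K * c := Nat.mul_le_mul_left _ (Nat.one_le_iff_ne_zero.2 hne)
        omega
      subst hc0
      simp only [mul_zero, add_zero] at hn ⊢
      exact ih hm hn

lemma card_F_le (L k : ℕ) : (F lam L k).card ≤ (L + 1) ^ k * 2 ^ (sig lam k) := by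
  induction k with
  | zero => simp [F, Nat.one_le_two_pow]
  | succ k ih =>
    have h1 : (F lam L (k + 1)).card ≤ (F lam L k).card * (L * b lam k + 1) := by
      refine card_image_le.trans ?_
      rw [card_product, card_range]
    refine h1.trans ?_
    have h2 : L * b lam k + 1 ≤ (L + 1) * b lam k := by
      have := b_pos (lam := lam) k
      rw [add_mul, one_mul]; omega
    calc (F lam L k).card * (L * b lam k + 1)
        ≤ ((L + 1) ^ k * 2 ^ (sig lam k)) * ((L + 1) * b lam k) := Nat.mul_le_mul ih h2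
      _ = (L + 1) ^ (k + 1) * 2 ^ (sig lam (k + 1)) := by
        unfold sig b
        rw [sum_range_succ, pow_add, pow_succ]
        ring

lemma ab_le (h1 : lam ≤ 1) (i : ℕ) : a i * b lam i ≤ a (i + 1) := by
  unfold a b
  rw [← pow_add]
  apply Nat.pow_le_pow_right (by norm_num)
  have h2 : l lam i ≤ 3 * i ^ 2 := by
    unfold l
    apply Nat.floor_le_of_le
    push_cast
    nlinarith [sq_nonneg (i : ℝ)]
  have h3 : (i + 1) ^ 3 = i ^ 3 + 3 * i ^ 2 + 3 * i + 1 := by ring
  omega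

lemma G_lt (h1 : lam ≤ 1) {k n : ℕ} (h : n ∈ G lam k) : n < a k := by
  induction k generalizing n with
  | zero =>
    simp only [G, mem_singleton] at h
    subst h
    exact a_pos 0
  | succ k ih =>
    obtain ⟨m, hm, c, hc, rfl⟩ := mem_G_succ.1 h
    refine lt_of_lt_of_le ?_ (ab_le h1 k)
    have h2 := ih hm
    calc m + a k * c < a k + a k * c := by omega
      _ = a k * (c + 1) := by ring
      _ ≤ a k * b lam k := Nat.mul_le_mul_left _ hc

lemma G_sub {k n : ℕ} (h : n ∈ G lam k) : n ∈ F lam 1 k := by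
  induction k generalizing n with
  | zero => exact h
  | succ k ih =>
    obtain ⟨m, hm, c, hc, rfl⟩ := mem_G_succ.1 h
    exact mem_F_succ.2 ⟨m, ih hm, c, by omega, rfl⟩

lemma card_G (h1 : lam ≤ 1) (k : ℕ) : (G lam k).card = 2 ^ (sig lam k) := by
  induction k with
  | zero => simp [G, sig]
  | succ k ih =>
    have : (G lam (k + 1)).card = (G lam k).card * b lam k := by
      rw [G, card_image_of_injOn, card_product, card_range]
      rintro ⟨x, c⟩ hx ⟨y, d⟩ hy hxy
      simp only [coe_product, Set.mem_prod, mem_coe, mem_range] at hx hy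
      have hx1 := G_lt h1 hx.1
      have hy1 := G_lt h1 hy.1
      have hxy' : x + a k * c = y + a k * d := hxy
      have e1 : x = y := by
        have := congrArg (· % a k) hxy'
        simp only [Nat.add_mul_mod_self_left] at this
        rwa [Nat.mod_eq_of_lt hx1, Nat.mod_eq_of_lt hy1] at this
      subst e1
      have e2 : a k * c = a k * d := by omega
      have e3 := Nat.eq_of_mul_eq_mul_left (a_pos k) e2
      rw [e3]
    rw [this, ih]
    unfold sig b
    rw [sum_range_succ, pow_add]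

lemma self_mem (n : ℕ) : n ∈ F lam n 1 := by
  refine mem_F_succ.2 ⟨0, by simp [F], n, ?_, ?_⟩
  · have := b_pos (lam := lam) 0
    exact Nat.le_mul_of_pos_right n this
  · simp [a]

variable (lam)

/-- numbers which are sums of blocks with digits at most `L * b i` -/
def W (L : ℕ) : Set ℕ := {n | ∃ k, n ∈ F lam L k}

/-- word length -/
def w (n : ℕ) : ℕ := sInf {L | n ∈ W lam L}

variable {lam}

lemma w_spec (n : ℕ) : n ∈ W lam (w lam n) :=
  Nat.sInf_mem (s := {L | n ∈ W lam L}) ⟨n, 1, self_mem n⟩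

lemma w_le {n L : ℕ} (h : n ∈ W lam L) : w lam n ≤ L := Nat.sInf_le h

lemma w_add {n j : ℕ} (hj : j ∈ W lam 1) : w lam (n + j) ≤ w lam n + 1 := by
  obtain ⟨k, hk⟩ := w_spec (lam := lam) n
  obtain ⟨k', hk'⟩ := hj
  exact w_le ⟨max k k', F_add (F_mono (le_max_left _ _) hk) (F_mono (le_max_right _ _) hk')⟩

lemma one_mem : 1 ∈ W lam 1 := ⟨1, self_mem 1⟩

lemma w_zero : w lam 0 = 0 := Nat.le_zero.1 (w_le ⟨0, by simp [F]⟩)

variable (lam)

/-- the numbers of small word length -/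
def R : Set ℕ := {n | (2 : ℝ) ^ (w lam n) < ((n : ℝ) + 1) ^ 3}

variable {lam}

lemma R_sub {k n : ℕ} (h : n ∈ R lam) (hn : n < a k) : n ∈ F lam (3 * k ^ 3) k := by
  obtain ⟨K, hK⟩ := w_spec (lam := lam) n
  refine F_monoL ?_ (F_bound hK hn)
  have h1 : ((n : ℝ) + 1) ≤ 2 ^ (k ^ 3) := by
    have : n + 1 ≤ 2 ^ (k ^ 3) := hn
    exact_mod_cast this
  have h2 : (2 : ℝ) ^ (w lam n) < 2 ^ (3 * k ^ 3) := by
    refine lt_of_lt_of_le h ?_
    calc ((n : ℝ) + 1) ^ 3 ≤ (2 ^ (k ^ 3)) ^ 3 := pow_le_pow_left₀ (by positivity) h1 3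
      _ = 2 ^ (3 * k ^ 3) := by rw [← pow_mul]; ring_nf
  exact ((pow_lt_pow_iff_right₀ (by norm_num : (1:ℝ) < 2)).1 h2).le

lemma sum_sq (k : ℕ) :
    ∑ i ∈ range k, (3 * (i : ℝ) ^ 2) = (k : ℝ) * ((k : ℝ) - 1) * (2 * (k : ℝ) - 1) / 2 := by
  induction k with
  | zero => simp
  | succ k ih => rw [sum_range_succ, ih]; push_cast; ring

lemma sig_le (h0 : 0 ≤ lam) (k : ℕ) : (sig lam k : ℝ) ≤ lam * (k * (k - 1) * (2 * k - 1) / 2) := by
  rw [← sum_sq, mul_sum]
  unfold sig l
  push_cast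
  apply sum_le_sum
  intro i _
  refine (Nat.floor_le (by positivity)).trans (le_of_eq ?_)
  ring

lemma le_sig (k : ℕ) : lam * (k * (k - 1) * (2 * k - 1) / 2) - k ≤ (sig lam k : ℝ) := by
  rw [← sum_sq, mul_sum]
  unfold sig l
  push_cast
  have : ∑ i ∈ range k, (lam * (3 * (i : ℝ) ^ 2) - 1) ≤
      ∑ i ∈ range k, ((⌊3 * lam * (i : ℝ) ^ 2⌋₊ : ℕ) : ℝ) := by
    apply sum_le_sum
    intro i _
    have := Nat.lt_floor_add_one (3 * lam * (i : ℝ) ^ 2)
    linarith
  refine le_trans (le_of_eq ?_) this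
  rw [sum_sub_distrib]
  simp

end

end Q82.Digit
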