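import Pool.Agent.Q82.Digit

/-! # Densities of the digit sets -/

namespace Q82.Digit

open Filter Topology Finset

noncomputable section

variable {lam : ℝ}

lemma tend_small (h0 : 0 < lam) :
    Tendsto (fun k : ℕ => (3 * (k : ℝ) ^ 3 + 1) * ((2 : ℝ) ^ (-lam)) ^ k) atTop (𝓝 0) := by
  have hr : |(2 : ℝ) ^ (-lam)| < 1 := by
    rw [abs_of_pos (by positivity)]
    exact Real.rpow_lt_one_of_one_lt_of_neg (by norm_num) (by linarith)
  have h1 := (tendsto_pow_const_mul_const_pow_of_abs_lt_one 3 hr).const_mul 3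
  have h2 := tendsto_pow_const_mul_const_pow_of_abs_lt_one 0 hr
  have h3 := h1.add h2
  simp only [mul_zero, add_zero, pow_zero, one_mul] at h3
  refine h3.congr fun k => ?_
  ring

lemma count_le (h0 : 0 < lam) {ε : ℝ} (hε : 0 < ε) (c : ℕ) :
    ∀ᶠ k : ℕ in atTop, (((3 * k ^ 3 + 1) ^ k * 2 ^ (sig lam k) : ℕ) : ℝ) + c + 1 ≤
      ε * ((2 : ℝ) ^ (lam * (k : ℝ) ^ 3) - 1) := by
  have e1 := (tend_small h0).eventually (ge_mem_nhds (by norm_num : (0 : ℝ) < 1 / 2))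
  have e2 : ∀ᶠ k : ℕ in atTop, ((1 / 2 : ℝ)) ^ k ≤ ε / 4 :=
    (tendsto_pow_atTop_nhds_zero_of_lt_one (by norm_num) (by norm_num)).eventually
      (ge_mem_nhds (by positivity))
  have e3 : Tendsto (fun k : ℕ => (2 : ℝ) ^ (lam * (k : ℝ) ^ 3)) atTop atTop := by
    have : Tendsto (fun k : ℕ => lam * (k : ℝ) ^ 3) atTop atTop :=
      ((tendsto_pow_atTop (by norm_num)).comp tendsto_natCast_atTop_atTop).const_mul_atTop h0
    exact (tendsto_rpow_atTop_of_base_gt_one _ (by norm_num)).comp this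
  have e4 := e3.eventually_ge_atTop ((4 / ε) * (c + 1) + 4)
  filter_upwards [e1, e2, e4, eventually_ge_atTop 1] with k h1 h2 h4 hk
  have hkr : (1 : ℝ) ≤ k := by exact_mod_cast hk
  have h5 : ((2 : ℝ) ^ (sig lam k)) ≤ (2 : ℝ) ^ (lam * (k : ℝ) ^ 3) * (((2 : ℝ) ^ (-lam)) ^ k) ^ k := by
    have e5 : (((2 : ℝ) ^ (-lam)) ^ k) ^ k = (2 : ℝ) ^ (-lam * (k : ℝ) * (k : ℝ)) := by
      rw [Real.rpow_mul (by norm_num), Real.rpow_natCast, Real.rpow_mul (by norm_num),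
        Real.rpow_natCast]
    rw [e5, ← Real.rpow_natCast, ← Real.rpow_add (by norm_num)]
    apply Real.rpow_le_rpow_of_exponent_le (by norm_num)
    refine (sig_le h0.le k).trans ?_
    have : (k : ℝ) * ((k : ℝ) - 1) * (2 * (k : ℝ) - 1) / 2 ≤ (k : ℝ) ^ 3 - (k : ℝ) ^ 2 := by
      nlinarith
    nlinarith
  have h6 : (((3 * k ^ 3 + 1) ^ k * 2 ^ (sig lam k) : ℕ) : ℝ) ≤
      (2 : ℝ) ^ (lam * (k : ℝ) ^ 3) * (ε / 4) := by
    push_cast
    calc (3 * (k : ℝ) ^ 3 + 1) ^ k * 2 ^ (sig lam k)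
        ≤ (3 * (k : ℝ) ^ 3 + 1) ^ k *
          ((2 : ℝ) ^ (lam * (k : ℝ) ^ 3) * (((2 : ℝ) ^ (-lam)) ^ k) ^ k) := by gcongr
      _ = (2 : ℝ) ^ (lam * (k : ℝ) ^ 3) * ((3 * (k : ℝ) ^ 3 + 1) * ((2 : ℝ) ^ (-lam)) ^ k) ^ k := by
          rw [mul_pow]; ring
      _ ≤ (2 : ℝ) ^ (lam * (k : ℝ) ^ 3) * (1 / 2) ^ k := by gcongr
      _ ≤ _ := by gcongr
  have h7 : (c : ℝ) + 1 ≤ (ε / 4) * (2 : ℝ) ^ (lam * (k : ℝ) ^ 3) - ε := by
    have := mul_le_mul_of_nonneg_left h4 (by positivity : 0 ≤ ε / 4)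
    have e : ε / 4 * (4 / ε * (c + 1) + 4) = (c + 1) + ε := by field_simp
    rw [e] at this
    linarith
  nlinarith [Real.rpow_pos_of_pos (by norm_num : (0:ℝ) < 2) (lam * (k : ℝ) ^ 3)]

lemma k_tendsto (h0 : 0 < lam) :
    Tendsto (fun k : ℕ => ⌊(2 : ℝ) ^ (lam * (k : ℝ) ^ 3)⌋₊) atTop atTop := by
  have : Tendsto (fun k : ℕ => lam * (k : ℝ) ^ 3) atTop atTop :=
    ((tendsto_pow_atTop (by norm_num)).comp tendsto_natCast_atTop_atTop).const_mul_atTop h0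
  exact tendsto_nat_floor_atTop.comp
    ((tendsto_rpow_atTop_of_base_gt_one _ (by norm_num)).comp this)

/-- The exceptional sets are small along a sequence. -/
theorem small (h0 : 0 < lam) (c : ℕ) {ε : ℝ} (hε : 0 < ε) :
    ∃ᶠ n : ℕ in atTop, ∀ A : Set ℕ, A ⊆ {j | j ∈ R lam ∨ j < c} →
      (({j : ℕ | j ∈ A ∧ 1 ≤ j ∧ (j : ℝ) ≤ (n : ℝ) ^ (1 / lam)}.ncard : ℕ) : ℝ) ≤ ε * n := by
  have key : ∀ᶠ k : ℕ in atTop, ∀ A : Set ℕ, A ⊆ {j | j ∈ R lam ∨ j < c} →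
      (({j : ℕ | j ∈ A ∧ 1 ≤ j ∧ (j : ℝ) ≤
        ((⌊(2 : ℝ) ^ (lam * (k : ℝ) ^ 3)⌋₊ : ℕ) : ℝ) ^ (1 / lam)}.ncard : ℕ) : ℝ) ≤
        ε * (⌊(2 : ℝ) ^ (lam * (k : ℝ) ^ 3)⌋₊ : ℕ) := by
    filter_upwards [count_le h0 hε c] with k hk A hA
    have hsub : {j : ℕ | j ∈ A ∧ 1 ≤ j ∧ (j : ℝ) ≤
        ((⌊(2 : ℝ) ^ (lam * (k : ℝ) ^ 3)⌋₊ : ℕ) : ℝ) ^ (1 / lam)} ⊆
        ((F lam (3 * k ^ 3) k ∪ range c ∪ {a k} : Finset ℕ) : Set ℕ) := by
      rintro j ⟨h1, _, h3⟩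
      have h4 : (j : ℝ) ≤ 2 ^ (k ^ 3) := by
        refine h3.trans ?_
        have : (((⌊(2 : ℝ) ^ (lam * (k : ℝ) ^ 3)⌋₊ : ℕ) : ℝ)) ^ (1 / lam) ≤
            ((2 : ℝ) ^ (lam * (k : ℝ) ^ 3)) ^ (1 / lam) :=
          Real.rpow_le_rpow (by positivity) (Nat.floor_le (by positivity)) (by positivity)
        refine this.trans (le_of_eq ?_)
        have e6 : lam * (k : ℝ) ^ 3 * (1 / lam) = ((k ^ 3 : ℕ) : ℝ) := by
          push_cast
          field_simp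
        rw [← Real.rpow_mul (by norm_num), e6, Real.rpow_natCast]
      have h5 : j ≤ a k := by
        unfold a
        exact_mod_cast h4
      simp only [coe_union, Set.mem_union, mem_coe, mem_range, coe_singleton, Set.mem_singleton_iff]
      rcases h5.lt_or_eq with h6 | h6
      · rcases hA h1 with h7 | h7
        · exact Or.inl (Or.inl (R_sub h7 h6))
        · exact Or.inl (Or.inr h7)
      · exact Or.inr h6
    have h8 := Set.ncard_le_ncard hsub (Finset.finite_toSet _)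
    rw [Set.ncard_coe_finset] at h8
    have h9 : (F lam (3 * k ^ 3) k ∪ range c ∪ {a k} : Finset ℕ).card ≤
        (3 * k ^ 3 + 1) ^ k * 2 ^ (sig lam k) + c + 1 := by
      refine (card_union_le _ _).trans ?_
      rw [card_singleton]
      have := (card_union_le (F lam (3 * k ^ 3) k) (range c))
      rw [card_range] at this
      have h10 := card_F_le (lam := lam) (3 * k ^ 3) k
      omega
    have h11 : (({j : ℕ | j ∈ A ∧ 1 ≤ j ∧ (j : ℝ) ≤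
        ((⌊(2 : ℝ) ^ (lam * (k : ℝ) ^ 3)⌋₊ : ℕ) : ℝ) ^ (1 / lam)}.ncard : ℕ) : ℝ) ≤
        (((3 * k ^ 3 + 1) ^ k * 2 ^ (sig lam k) : ℕ) : ℝ) + c + 1 := by
      exact_mod_cast h8.trans h9
    refine h11.trans (hk.trans ?_)
    have := Nat.lt_floor_add_one ((2 : ℝ) ^ (lam * (k : ℝ) ^ 3))
    exact mul_le_mul_of_nonneg_left (by linarith) hε.le
  exact (k_tendsto h0).frequently key.frequently

lemma exp_ge {lam' : ℝ} (h0 : 0 < lam') (h1 : lam' < lam) (h2 : lam ≤ 1) (c : ℕ) :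
    ∃ K : ℕ, ∀ k ≥ K, (2 : ℝ) ^ (lam' * ((k : ℝ) + 1) ^ 3) + c + 1 ≤ (2 : ℝ) ^ (sig lam k) := by
  have hd : 0 < lam - lam' := by linarith
  obtain ⟨K1, hK1⟩ := exists_nat_ge (20 / (lam - lam'))
  have e3 : Tendsto (fun k : ℕ => (2 : ℝ) ^ (lam' * ((k : ℝ) + 1) ^ 3)) atTop atTop := by
    have : Tendsto (fun k : ℕ => lam' * ((k : ℝ) + 1) ^ 3) atTop atTop :=
      ((tendsto_pow_atTop (by norm_num)).comp
        (tendsto_atTop_add_const_right _ _ tendsto_natCast_atTop_atTop)).const_mul_atTop h0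
    exact (tendsto_rpow_atTop_of_base_gt_one _ (by norm_num)).comp this
  obtain ⟨K2, hK2⟩ := (e3.eventually_ge_atTop ((c : ℝ) + 1)).exists_forall_of_atTop
  refine ⟨max (max K1 K2) 1, fun k hk => ?_⟩
  have hk1 : K1 ≤ k := le_trans (le_trans (le_max_left _ _) (le_max_left _ _)) hk
  have hk2 : K2 ≤ k := le_trans (le_trans (le_max_right _ _) (le_max_left _ _)) hk
  have hk3 : 1 ≤ k := le_trans (le_max_right _ _) hk
  have hkr : (1 : ℝ) ≤ k := by exact_mod_cast hk3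
  have hdk : 20 ≤ (lam - lam') * k := by
    have : 20 / (lam - lam') ≤ k := hK1.trans (by exact_mod_cast hk1)
    rw [div_le_iff₀ hd] at this
    linarith
  have h3 := hK2 k hk2
  have h4 : lam' * ((k : ℝ) + 1) ^ 3 + 1 ≤ (sig lam k : ℝ) := by
    refine le_trans ?_ (le_sig (lam := lam) k)
    have e5 : 20 * (k : ℝ) ^ 2 ≤ (lam - lam') * (k : ℝ) ^ 3 := by
      nlinarith [sq_nonneg (k : ℝ)]
    have e6 : lam * (k : ℝ) ^ 2 ≤ (k : ℝ) ^ 2 := by nlinarith [sq_nonneg (k : ℝ)]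
    have e7 : lam' * (k : ℝ) ^ 2 ≤ (k : ℝ) ^ 2 := by nlinarith [sq_nonneg (k : ℝ)]
    have e8 : lam' * (k : ℝ) ≤ (k : ℝ) := by nlinarith
    have e9 : 0 ≤ lam * (k : ℝ) := by nlinarith
    nlinarith
  calc (2 : ℝ) ^ (lam' * ((k : ℝ) + 1) ^ 3) + c + 1
      ≤ (2 : ℝ) ^ (lam' * ((k : ℝ) + 1) ^ 3) + (2 : ℝ) ^ (lam' * ((k : ℝ) + 1) ^ 3) := by linarith
    _ = (2 : ℝ) ^ (lam' * ((k : ℝ) + 1) ^ 3 + 1) := by
        rw [Real.rpow_add (by norm_num), Real.rpow_one]; ring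
    _ ≤ (2 : ℝ) ^ ((sig lam k : ℝ)) := Real.rpow_le_rpow_of_exponent_le (by norm_num) h4
    _ = _ := Real.rpow_natCast _ _

/-- The set `W 1` is large at all scales, for every smaller exponent. -/
theorem big {lam' : ℝ} (h0 : 0 < lam') (h1 : lam' < lam) (h2 : lam ≤ 1) (c : ℕ) :
    ∀ᶠ n : ℕ in atTop,
      (n : ℝ) ≤ (({j : ℕ | (j ∈ W lam 1 ∧ c ≤ j) ∧ 1 ≤ j ∧ (j : ℝ) ≤
        (n : ℝ) ^ (1 / lam')}.ncard : ℕ) : ℝ) := by
  obtain ⟨K, hK⟩ := exp_ge h0 h1 h2 c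
  have e1 : Tendsto (fun n : ℕ => (n : ℝ) ^ (1 / lam')) atTop atTop :=
    (tendsto_rpow_atTop (by positivity)).comp tendsto_natCast_atTop_atTop
  filter_upwards [e1.eventually_ge_atTop ((2 : ℝ) ^ (K ^ 3)), eventually_ge_atTop 1] with n hn hn1
  have hnr : (0 : ℝ) < n := by exact_mod_cast hn1
  have hex : ∃ m : ℕ, (n : ℝ) ^ (1 / lam') < 2 ^ ((m + 1) ^ 3) := by
    obtain ⟨m, hm⟩ := pow_unbounded_of_one_lt ((n : ℝ) ^ (1 / lam')) (by norm_num : (1 : ℝ) < 2)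
    refine ⟨m, hm.trans_le ?_⟩
    apply pow_le_pow_right₀ (by norm_num)
    nlinarith [Nat.zero_le (m ^ 3), Nat.zero_le (m ^ 2)]
  classical
  set k := Nat.find hex with hk
  have hk1 : (n : ℝ) ^ (1 / lam') < 2 ^ ((k + 1) ^ 3) := Nat.find_spec hex
  have hkK : K ≤ k := by
    by_contra hlt
    push Not at hlt
    have : (2 : ℝ) ^ ((k + 1) ^ 3) ≤ 2 ^ (K ^ 3) :=
      pow_le_pow_right₀ (by norm_num) (Nat.pow_le_pow_left hlt 3)
    linarith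
  have hk2 : (2 : ℝ) ^ (k ^ 3) ≤ (n : ℝ) ^ (1 / lam') := by
    rcases Nat.eq_zero_or_pos k with h | h
    · rw [h]
      have hK0 : K = 0 := by omega
      rw [hK0] at hn
      simpa using hn
    · have := Nat.find_min hex (m := k - 1) (by omega)
      push Not at this
      have e : k - 1 + 1 = k := by omega
      rwa [e] at this
  have hn2 : (n : ℝ) < (2 : ℝ) ^ (lam' * ((k : ℝ) + 1) ^ 3) := by
    have h3 : ((n : ℝ) ^ (1 / lam')) ^ lam' < ((2 : ℝ) ^ ((k + 1) ^ 3)) ^ lam' :=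
      Real.rpow_lt_rpow (by positivity) hk1 h0
    rw [← Real.rpow_mul hnr.le, one_div, inv_mul_cancel₀ h0.ne', Real.rpow_one,
      ← Real.rpow_natCast, ← Real.rpow_mul (by norm_num)] at h3
    refine h3.trans_le (le_of_eq ?_)
    congr 1
    push_cast
    ring
  have hsub : ((G lam k \ range (c + 1) : Finset ℕ) : Set ℕ) ⊆
      {j : ℕ | (j ∈ W lam 1 ∧ c ≤ j) ∧ 1 ≤ j ∧ (j : ℝ) ≤ (n : ℝ) ^ (1 / lam')} := by
    intro j hj
    simp only [coe_sdiff, Set.mem_sdiff, mem_coe, mem_range, not_lt] at hj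
    refine ⟨⟨⟨k, G_sub hj.1⟩, by omega⟩, by omega, ?_⟩
    have h3 : j < 2 ^ (k ^ 3) := G_lt h2 hj.1
    have h4 : (j : ℝ) ≤ 2 ^ (k ^ 3) := by exact_mod_cast h3.le
    exact h4.trans hk2
  have hfin : {j : ℕ | (j ∈ W lam 1 ∧ c ≤ j) ∧ 1 ≤ j ∧ (j : ℝ) ≤ (n : ℝ) ^ (1 / lam')}.Finite := by
    apply (Set.finite_Iic ⌊(n : ℝ) ^ (1 / lam')⌋₊).subset
    rintro j ⟨_, _, h⟩
    exact Nat.le_floor h
  have h5 := Set.ncard_le_ncard hsub hfin
  rw [Set.ncard_coe_finset] at h5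
  have h6 : (G lam k).card ≤ (G lam k \ range (c + 1)).card + (c + 1) := by
    have := Finset.card_le_card_sdiff_add_card (s := G lam k) (t := range (c + 1))
    rwa [card_range] at this
  rw [card_G h2] at h6
  have h7 := hK k hkK
  have h8 : (2 : ℝ) ^ (sig lam k) ≤ (({j : ℕ | (j ∈ W lam 1 ∧ c ≤ j) ∧ 1 ≤ j ∧ (j : ℝ) ≤
        (n : ℝ) ^ (1 / lam')}.ncard : ℕ) : ℝ) + (c + 1) := by
    exact_mod_cast h6.trans (Nat.add_le_add_right h5 _)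
  linarith

end

end Q82.Digit
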