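import Mathlib

/-! # Counting eigenvalues of self-adjoint operators on finite dimensional spaces -/

namespace Q82.EigCount

open scoped InnerProductSpace

noncomputable section

/-- a diagonalised self-adjoint operator -/
structure Dg (E : Type*) [NormedAddCommGroup E] [InnerProductSpace ℂ E] (X : Type*)
    [Fintype X] where
  T : E →ₗ[ℂ] E
  e : OrthonormalBasis X ℂ E
  l : X → ℝ
  he : ∀ i, T (e i) = (l i : ℂ) • e i

variable {E : Type*} [NormedAddCommGroup E] [InnerProductSpace ℂ E] {X : Type*} [Fintype X]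

namespace Dg

variable (D : Dg E X)

lemma T_eq (f : E) : D.T f = ∑ i, ((D.l i : ℂ) * ⟪D.e i, f⟫_ℂ) • D.e i := by
  conv_lhs => rw [← D.e.sum_repr' f]
  rw [map_sum]
  apply Finset.sum_congr rfl
  intro i _
  rw [map_smul, D.he, smul_smul, mul_comm]

lemma coef (f : E) (i : X) : ⟪D.e i, D.T f⟫_ℂ = (D.l i : ℂ) * ⟪D.e i, f⟫_ℂ := by
  rw [D.T_eq f, D.e.orthonormal.inner_right_fintype]

lemma norm_sq (f : E) : ‖f‖ ^ 2 = ∑ i, ‖⟪D.e i, f⟫_ℂ‖ ^ 2 := (D.e.sum_sq_norm_inner_right f).symm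

lemma norm_sub (f : E) (x : ℝ) : ‖D.T f - (x : ℂ) • f‖ ^ 2 =
    ∑ i, (D.l i - x) ^ 2 * ‖⟪D.e i, f⟫_ℂ‖ ^ 2 := by
  rw [D.norm_sq]
  apply Finset.sum_congr rfl
  intro i _
  rw [inner_sub_right, D.coef, inner_smul_right, ← sub_mul, norm_mul, mul_pow, ← Complex.ofReal_sub,
    Complex.norm_real, Real.norm_eq_abs, sq_abs]

/-- the quadratic form minus `x` -/
def q (x : ℝ) (f : E) : ℝ := (⟪f, D.T f⟫_ℂ).re - x * ‖f‖ ^ 2

lemma q_eq (x : ℝ) (f : E) : D.q x f = ∑ i, (D.l i - x) * ‖⟪D.e i, f⟫_ℂ‖ ^ 2 := by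
  unfold q
  have h1 : ⟪f, D.T f⟫_ℂ = ∑ i, ((D.l i * ‖⟪D.e i, f⟫_ℂ‖ ^ 2 : ℝ) : ℂ) := by
    rw [← D.e.sum_inner_mul_inner f (D.T f)]
    apply Finset.sum_congr rfl
    intro i _
    rw [D.coef, ← inner_conj_symm f (D.e i)]
    push_cast
    rw [← Complex.conj_mul' ⟪D.e i, f⟫_ℂ]
    ring
  rw [h1, ← Complex.ofReal_sum, Complex.ofReal_re, D.norm_sq, Finset.mul_sum,
    ← Finset.sum_sub_distrib]
  apply Finset.sum_congr rfl
  intro i _
  ring

/-- number of eigenvalues less than `x` -/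
def lo (x : ℝ) : ℕ := by classical exact (Finset.univ.filter fun i => D.l i < x).card

/-- number of eigenvalues greater than `x` -/
def hi (x : ℝ) : ℕ := by classical exact (Finset.univ.filter fun i => x < D.l i).card

lemma exists_orth (S : Finset X) {Y : Type*} [Fintype Y] (W : (Y → ℂ) →ₗ[ℂ] E)
    (h : S.card < Fintype.card Y) : ∃ c, c ≠ 0 ∧ ∀ i ∈ S, ⟪D.e i, W c⟫_ℂ = 0 := by
  classical
  let L : (Y → ℂ) →ₗ[ℂ] (S → ℂ) := LinearMap.pi fun i => (innerSL ℂ (D.e i)).toLinearMap ∘ₗ W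
  have hL : ¬ Function.Injective L := by
    intro hinj
    have := LinearMap.finrank_le_finrank_of_injective hinj
    simp at this
    omega
  obtain ⟨c, hc, hc0⟩ : ∃ c, L c = 0 ∧ c ≠ 0 := by
    by_contra hno
    push Not at hno
    exact hL ((injective_iff_map_eq_zero L).2 hno)
  exact ⟨c, hc0, fun i hi => congrFun hc ⟨i, hi⟩⟩

lemma lo_ge {Y : Type*} [Fintype Y] (W : (Y → ℂ) →ₗ[ℂ] E) (x : ℝ)
    (h : ∀ c, c ≠ 0 → D.q x (W c) < 0) : Fintype.card Y ≤ D.lo x := by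
  classical
  by_contra hlt
  push Not at hlt
  obtain ⟨c, hc, hc'⟩ := D.exists_orth (Finset.univ.filter fun i => D.l i < x) W (by
    unfold lo at hlt
    convert hlt)
  have h1 := h c hc
  rw [D.q_eq] at h1
  have h2 : 0 ≤ ∑ i, (D.l i - x) * ‖⟪D.e i, W c⟫_ℂ‖ ^ 2 := by
    apply Finset.sum_nonneg
    intro i _
    by_cases hi : D.l i < x
    · rw [hc' i (by simp [hi])]; simp
    · exact mul_nonneg (by linarith) (by positivity)
  linarith

lemma hi_ge {Y : Type*} [Fintype Y] (W : (Y → ℂ) →ₗ[ℂ] E) (x : ℝ)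
    (h : ∀ c, c ≠ 0 → 0 < D.q x (W c)) : Fintype.card Y ≤ D.hi x := by
  classical
  by_contra hlt
  push Not at hlt
  obtain ⟨c, hc, hc'⟩ := D.exists_orth (Finset.univ.filter fun i => x < D.l i) W (by
    unfold hi at hlt
    convert hlt)
  have h1 := h c hc
  rw [D.q_eq] at h1
  have h2 : ∑ i, (D.l i - x) * ‖⟪D.e i, W c⟫_ℂ‖ ^ 2 ≤ 0 := by
    apply Finset.sum_nonpos
    intro i _
    by_cases hi : x < D.l i
    · rw [hc' i (by simp [hi])]; simp
    · exact mul_nonpos_of_nonpos_of_nonneg (by linarith) (by positivity)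
  linarith

lemma near_ge {Y : Type*} [Fintype Y] (W : (Y → ℂ) →ₗ[ℂ] E) (x ε : ℝ) (hε : 0 ≤ ε)
    (hW : Function.Injective W)
    (h : ∀ c, ‖D.T (W c) - (x : ℂ) • W c‖ ≤ ε * ‖W c‖) (S : Finset X)
    (hS : ∀ i, |D.l i - x| ≤ ε → i ∈ S) : Fintype.card Y ≤ S.card := by
  classical
  by_contra hlt
  push Not at hlt
  obtain ⟨c, hc, hc'⟩ := D.exists_orth S W hlt
  have hne : 0 < ‖W c‖ ^ 2 := by
    have : W c ≠ 0 := fun h0 => hc (hW (by rw [h0, map_zero]))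
    positivity
  have h1 := pow_le_pow_left₀ (norm_nonneg _) (h c) 2
  rw [D.norm_sub, mul_pow, D.norm_sq, Finset.mul_sum] at h1
  rw [D.norm_sq] at hne
  obtain ⟨j, -, hj⟩ := Finset.exists_ne_zero_of_sum_ne_zero hne.ne'
  have h2 : ∑ i, ε ^ 2 * ‖⟪D.e i, W c⟫_ℂ‖ ^ 2 <
      ∑ i, (D.l i - x) ^ 2 * ‖⟪D.e i, W c⟫_ℂ‖ ^ 2 := by
    apply Finset.sum_lt_sum
    · intro i _
      by_cases hi : i ∈ S
      · rw [hc' i hi]; simp
      · apply mul_le_mul_of_nonneg_right _ (by positivity)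
        have h3 : ε < |D.l i - x| := by
          by_contra h4
          exact hi (hS i (not_lt.1 h4))
        rw [← sq_abs (D.l i - x)]
        exact pow_le_pow_left₀ hε h3.le 2
    · refine ⟨j, Finset.mem_univ j, ?_⟩
      have hjS : j ∉ S := by
        intro h3
        rw [hc' j h3] at hj
        simp at hj
      have h3 : ε < |D.l j - x| := by
        by_contra h4
        exact hjS (hS j (not_lt.1 h4))
      apply mul_lt_mul_of_pos_right
      · rw [← sq_abs (D.l j - x)]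
        exact pow_lt_pow_left₀ h3 hε (by norm_num)
      · positivity
  linarith

/-- inclusion of the span of some of the eigenvectors -/
def inc (p : X → Prop) : ({i // p i} → ℂ) →ₗ[ℂ] E where
  toFun c := by classical exact ∑ i, c i • D.e i
  map_add' c d := by simp [add_smul, Finset.sum_add_distrib]
  map_smul' a c := by simp [smul_smul, Finset.smul_sum]

lemma inc_coef (p : X → Prop) (c : {i // p i} → ℂ) (j : {i // p i}) :
    ⟪D.e j, D.inc p c⟫_ℂ = c j := by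
  classical
  have h := (D.e.orthonormal.comp (fun i : {i // p i} => (i : X)) Subtype.val_injective)
  exact h.inner_right_fintype c j

lemma inc_coef' (p : X → Prop) (c : {i // p i} → ℂ) (j : X) (hj : ¬ p j) :
    ⟪D.e j, D.inc p c⟫_ℂ = 0 := by
  classical
  show ⟪D.e j, ∑ i, c i • D.e i⟫_ℂ = 0
  rw [inner_sum]
  apply Finset.sum_eq_zero
  intro i _
  rw [inner_smul_right, D.e.orthonormal.inner_eq_zero, mul_zero]
  rintro rfl
  exact hj i.2

lemma inc_ne (p : X → Prop) (c : {i // p i} → ℂ) (hc : c ≠ 0) : D.inc p c ≠ 0 := by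
  intro h0
  apply hc
  funext j
  rw [← D.inc_coef p c j, h0, inner_zero_right]
  rfl

lemma q_inc_lo (x δ : ℝ) (h : ∀ i, δ ≤ |D.l i - x|) (c : {i // D.l i < x} → ℂ) :
    D.q x (D.inc (fun i => D.l i < x) c) ≤ - δ * ‖D.inc (fun i => D.l i < x) c‖ ^ 2 := by
  rw [D.q_eq, D.norm_sq, Finset.mul_sum]
  apply Finset.sum_le_sum
  intro i _
  by_cases hi : D.l i < x
  · apply mul_le_mul_of_nonneg_right _ (by positivity)
    have := h i
    rw [abs_of_neg (by linarith)] at this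
    linarith
  · rw [D.inc_coef' (fun i => D.l i < x) c i hi]
    simp

lemma q_inc_hi (x δ : ℝ) (h : ∀ i, δ ≤ |D.l i - x|) (c : {i // x < D.l i} → ℂ) :
    δ * ‖D.inc (fun i => x < D.l i) c‖ ^ 2 ≤ D.q x (D.inc (fun i => x < D.l i) c) := by
  rw [D.q_eq, D.norm_sq, Finset.mul_sum]
  apply Finset.sum_le_sum
  intro i _
  by_cases hi : x < D.l i
  · apply mul_le_mul_of_nonneg_right _ (by positivity)
    have := h i
    rw [abs_of_pos (by linarith)] at this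
    linarith
  · rw [D.inc_coef' (fun i => x < D.l i) c i hi]
    simp

lemma gap_of (x δ : ℝ) (hδ : 0 ≤ δ) (h : ∀ i, δ ≤ |D.l i - x|) (f : E) :
    δ * ‖f‖ ≤ ‖D.T f - (x : ℂ) • f‖ := by
  apply le_of_sq_le_sq _ (norm_nonneg _)
  rw [mul_pow, D.norm_sub, D.norm_sq, Finset.mul_sum]
  apply Finset.sum_le_sum
  intro i _
  apply mul_le_mul_of_nonneg_right _ (by positivity)
  rw [← sq_abs (D.l i - x)]
  exact pow_le_pow_left₀ hδ (h i) 2

lemma gap_to (x δ : ℝ) (h : ∀ f, δ * ‖f‖ ≤ ‖D.T f - (x : ℂ) • f‖) (i : X) :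
    δ ≤ |D.l i - x| := by
  have h1 := h (D.e i)
  rw [D.he, ← sub_smul, norm_smul, D.e.orthonormal.1 i, mul_one, mul_one, ← Complex.ofReal_sub,
    Complex.norm_real, Real.norm_eq_abs] at h1
  exact h1

lemma card_lo (x : ℝ) : Fintype.card {i // D.l i < x} = D.lo x := by
  classical
  unfold lo
  rw [Fintype.card_subtype]

lemma card_hi (x : ℝ) : Fintype.card {i // x < D.l i} = D.hi x := by
  classical
  unfold hi
  rw [Fintype.card_subtype]

lemma lo_add_hi (x : ℝ) (h : ∀ i, D.l i ≠ x) : D.lo x + D.hi x = Fintype.card X := by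
  classical
  unfold lo hi
  rw [← Finset.card_union_of_disjoint, ← Finset.card_univ]
  · congr 1
    ext i
    simp only [Finset.mem_union, Finset.mem_filter, Finset.mem_univ, true_and, iff_true]
    exact lt_or_gt_of_ne (h i)
  · rw [Finset.disjoint_filter]
    intro i _ h1 h2
    linarith

lemma lo_le_of_near (D' : Dg E X) (x δ ρ : ℝ) (h : ∀ i, δ ≤ |D.l i - x|)
    (hρ : ∀ f, ‖D.T f - D'.T f‖ ≤ ρ * ‖f‖) (hlt : ρ < δ) : D.lo x ≤ D'.lo x := by
  classical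
  rw [← D.card_lo]
  apply D'.lo_ge (D.inc fun i => D.l i < x) x
  intro c hc
  set f := D.inc (fun i => D.l i < x) c with hf
  have hf0 : f ≠ 0 := D.inc_ne _ c hc
  have h1 : D.q x f ≤ - δ * ‖f‖ ^ 2 := D.q_inc_lo x δ h c
  have h2 : D'.q x f = D.q x f + (⟪f, D'.T f - D.T f⟫_ℂ).re := by
    unfold q
    rw [inner_sub_right, Complex.sub_re]
    ring
  have h3 : (⟪f, D'.T f - D.T f⟫_ℂ).re ≤ ρ * ‖f‖ ^ 2 := by
    calc (⟪f, D'.T f - D.T f⟫_ℂ).re ≤ ‖⟪f, D'.T f - D.T f⟫_ℂ‖ := Complex.re_le_norm _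
      _ ≤ ‖f‖ * ‖D'.T f - D.T f‖ := norm_inner_le_norm _ _
      _ ≤ ‖f‖ * (ρ * ‖f‖) := by
        rw [norm_sub_rev]
        exact mul_le_mul_of_nonneg_left (hρ f) (norm_nonneg _)
      _ = ρ * ‖f‖ ^ 2 := by ring
  have h4 : 0 < ‖f‖ ^ 2 := by positivity
  nlinarith

lemma lo_eq_of_near (D' : Dg E X) (x δ ρ : ℝ) (h : ∀ i, δ ≤ |D.l i - x|)
    (h' : ∀ i, δ ≤ |D'.l i - x|)
    (hρ : ∀ f, ‖D.T f - D'.T f‖ ≤ ρ * ‖f‖) (hlt : ρ < δ) : D.lo x = D'.lo x := by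
  apply le_antisymm
  · exact D.lo_le_of_near D' x δ ρ h hρ hlt
  · apply D'.lo_le_of_near D x δ ρ h' _ hlt
    intro f
    rw [norm_sub_rev]
    exact hρ f

end Dg

/-- the counting functions add up over an orthogonal decomposition -/
lemma lo_add {E₀ : Type*} [NormedAddCommGroup E₀] [InnerProductSpace ℂ E₀] {X₀ : Type*}
    [Fintype X₀] (D : Dg E X) (D₀ D₁ : Dg E₀ X₀) (S₀ S₁ : E₀ →ₗᵢ[ℂ] E)
    (hc : Fintype.card X = 2 * Fintype.card X₀)
    (h₀ : ∀ f, D.T (S₀ f) = S₀ (D₀.T f)) (h₁ : ∀ f, D.T (S₁ f) = S₁ (D₁.T f))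
    (ho : ∀ f g, ⟪S₀ f, S₁ g⟫_ℂ = 0) (x : ℝ) (hx : ∀ i, D.l i ≠ x) (hx₀ : ∀ i, D₀.l i ≠ x)
    (hx₁ : ∀ i, D₁.l i ≠ x) : D.lo x = D₀.lo x + D₁.lo x := by
  classical
  have ho' : ∀ f g, ⟪S₁ f, S₀ g⟫_ℂ = 0 := by
    intro f g
    rw [← inner_conj_symm, ho, map_zero]
  have hq : ∀ f g, D.q x (S₀ f + S₁ g) = D₀.q x f + D₁.q x g := by
    intro f g
    unfold Dg.q
    rw [map_add, h₀, h₁, inner_add_left, inner_add_right, inner_add_right, ho, ho',
      S₀.inner_map_map, S₁.inner_map_map]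
    have h2 : ‖S₀ f + S₁ g‖ ^ 2 = ‖f‖ ^ 2 + ‖g‖ ^ 2 := by
      have := norm_add_sq (𝕜 := ℂ) (S₀ f) (S₁ g)
      rw [ho, S₀.norm_map, S₁.norm_map] at this
      simpa using this
    rw [h2]
    simp
    ring
  -- uniform distance
  have hd : ∀ D' : Dg E₀ X₀, (∀ i, D'.l i ≠ x) → ∃ δ, 0 < δ ∧ ∀ i, δ ≤ |D'.l i - x| := by
    intro D' hD'
    by_cases hE : Nonempty X₀
    · obtain ⟨i₀, hi₀⟩ := Finite.exists_min fun i => |D'.l i - x|
      exact ⟨|D'.l i₀ - x|, abs_pos.2 (sub_ne_zero.2 (hD' i₀)), hi₀⟩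
    · exact ⟨1, one_pos, fun i => (hE ⟨i⟩).elim⟩
  obtain ⟨δ₀, hδ₀, hg₀⟩ := hd D₀ hx₀
  obtain ⟨δ₁, hδ₁, hg₁⟩ := hd D₁ hx₁
  have hlo : D₀.lo x + D₁.lo x ≤ D.lo x := by
    rw [← D₀.card_lo, ← D₁.card_lo, ← Fintype.card_sum]
    let W : (({i // D₀.l i < x} ⊕ {i // D₁.l i < x}) → ℂ) →ₗ[ℂ] E :=
      S₀.toLinearMap ∘ₗ (D₀.inc fun i => D₀.l i < x) ∘ₗ LinearMap.funLeft ℂ ℂ Sum.inl +
      S₁.toLinearMap ∘ₗ (D₁.inc fun i => D₁.l i < x) ∘ₗ LinearMap.funLeft ℂ ℂ Sum.inr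
    apply D.lo_ge W x
    intro c hc
    have hW : W c = S₀ (D₀.inc (fun i => D₀.l i < x) (c ∘ Sum.inl)) +
      S₁ (D₁.inc (fun i => D₁.l i < x) (c ∘ Sum.inr)) := rfl
    rw [hW, hq]
    have e0 := D₀.q_inc_lo x δ₀ hg₀ (c ∘ Sum.inl)
    have e1 := D₁.q_inc_lo x δ₁ hg₁ (c ∘ Sum.inr)
    have hne : c ∘ Sum.inl ≠ 0 ∨ c ∘ Sum.inr ≠ 0 := by
      by_contra hno
      push Not at hno
      apply hc
      funext j
      rcases j with j | j
      · exact congrFun hno.1 j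
      · exact congrFun hno.2 j
    rcases hne with hne | hne
    · have : 0 < ‖D₀.inc (fun i => D₀.l i < x) (c ∘ Sum.inl)‖ ^ 2 := by
        have := D₀.inc_ne _ _ hne
        positivity
      have h5 : 0 ≤ ‖D₁.inc (fun i => D₁.l i < x) (c ∘ Sum.inr)‖ ^ 2 := by positivity
      nlinarith
    · have : 0 < ‖D₁.inc (fun i => D₁.l i < x) (c ∘ Sum.inr)‖ ^ 2 := by
        have := D₁.inc_ne _ _ hne
        positivity
      have h5 : 0 ≤ ‖D₀.inc (fun i => D₀.l i < x) (c ∘ Sum.inl)‖ ^ 2 := by positivity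
      nlinarith
  have hhi : D₀.hi x + D₁.hi x ≤ D.hi x := by
    rw [← D₀.card_hi, ← D₁.card_hi, ← Fintype.card_sum]
    let W : (({i // x < D₀.l i} ⊕ {i // x < D₁.l i}) → ℂ) →ₗ[ℂ] E :=
      S₀.toLinearMap ∘ₗ (D₀.inc fun i => x < D₀.l i) ∘ₗ LinearMap.funLeft ℂ ℂ Sum.inl +
      S₁.toLinearMap ∘ₗ (D₁.inc fun i => x < D₁.l i) ∘ₗ LinearMap.funLeft ℂ ℂ Sum.inr
    apply D.hi_ge W x
    intro c hc
    have hW : W c = S₀ (D₀.inc (fun i => x < D₀.l i) (c ∘ Sum.inl)) +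
      S₁ (D₁.inc (fun i => x < D₁.l i) (c ∘ Sum.inr)) := rfl
    rw [hW, hq]
    have e0 := D₀.q_inc_hi x δ₀ hg₀ (c ∘ Sum.inl)
    have e1 := D₁.q_inc_hi x δ₁ hg₁ (c ∘ Sum.inr)
    have hne : c ∘ Sum.inl ≠ 0 ∨ c ∘ Sum.inr ≠ 0 := by
      by_contra hno
      push Not at hno
      apply hc
      funext j
      rcases j with j | j
      · exact congrFun hno.1 j
      · exact congrFun hno.2 j
    rcases hne with hne | hne
    · have : 0 < ‖D₀.inc (fun i => x < D₀.l i) (c ∘ Sum.inl)‖ ^ 2 := by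
        have := D₀.inc_ne _ _ hne
        positivity
      have h5 : 0 ≤ ‖D₁.inc (fun i => x < D₁.l i) (c ∘ Sum.inr)‖ ^ 2 := by positivity
      nlinarith
    · have : 0 < ‖D₁.inc (fun i => x < D₁.l i) (c ∘ Sum.inr)‖ ^ 2 := by
        have := D₁.inc_ne _ _ hne
        positivity
      have h5 : 0 ≤ ‖D₀.inc (fun i => x < D₀.l i) (c ∘ Sum.inl)‖ ^ 2 := by positivity
      nlinarith
  have a := D.lo_add_hi x hx
  have b := D₀.lo_add_hi x hx₀
  have c := D₁.lo_add_hi x hx₁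
  omega

/-- the diagonalisation of a Hermitian matrix -/
def ofMat [DecidableEq X] (M : Matrix X X ℂ) (hM : M.IsHermitian) :
    Dg (EuclideanSpace ℂ X) X where
  T := Matrix.toEuclideanLin M
  e := hM.eigenvectorBasis
  l := hM.eigenvalues
  he i := by
    ext j
    have := congrFun (hM.mulVec_eigenvectorBasis i) j
    simpa [Matrix.toEuclideanLin, Matrix.toLin'_apply] using this

end

end Q82.EigCount
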