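import Pool.Agent.Q82.FBDef

/-!
Dilations and multiplication operators on `L^p(ℝ^d)`: the building blocks for a symmetric
sub-Markovian semigroup on level sets of a dilation invariant function.
-/

open MeasureTheory Filter Topology
open scoped ENNReal NNReal

namespace Pool.Agent.Q82.FB

noncomputable section

/-- The level function: it takes values in the positive integers and is invariant
under the dilation `y ↦ 2 y`. -/
def lev {d : ℕ} (y : X d) : ℕ := ⌊(1 - Int.fract (Real.logb 2 ‖y‖))⁻¹⌋₊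

theorem lev_measurable {d : ℕ} : Measurable (lev : X d → ℕ) := by
  unfold lev
  refine Nat.measurable_floor.comp (Measurable.inv ?_)
  refine measurable_const.sub (measurable_fract.comp ?_)
  unfold Real.logb
  exact (Real.measurable_log.comp measurable_norm).div_const _

theorem lev_two {d : ℕ} (y : X d) : lev ((2 : ℝ) • y) = lev y := by
  unfold lev
  by_cases hy : y = 0
  · simp [hy]
  have h : Real.logb 2 ‖(2 : ℝ) • y‖ = Real.logb 2 ‖y‖ + 1 := by
    rw [norm_smul, Real.logb_mul (by norm_num) (norm_ne_zero_iff.mpr hy)]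
    simp
    ring
  rw [h, Int.fract_add_one]

theorem lev_half {d : ℕ} (y : X d) : lev ((2 : ℝ)⁻¹ • y) = lev y := by
  rw [← lev_two ((2 : ℝ)⁻¹ • y), smul_smul]
  norm_num

theorem lev_pos {d : ℕ} (y : X d) : 1 ≤ lev y := by
  unfold lev
  rw [Nat.one_le_floor_iff]
  have h1 := Int.fract_nonneg (Real.logb 2 ‖y‖)
  have h2 := Int.fract_lt_one (Real.logb 2 ‖y‖)
  exact (one_le_inv₀ (by linarith)).mpr (by linarith)

/-! ### Multiplication operators -/

def Bdd (φ : ℕ → ℝ) : Prop := ∃ B : ℝ, ∀ n, |φ n| ≤ B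

theorem memLp_mul {d : ℕ} {p : ℝ≥0∞} {φ : ℕ → ℝ} (h : Bdd φ) {f : X d → ℂ}
    (hf : MemLp f p volume) :
    MemLp (fun x => ((φ (lev x) : ℝ) : ℂ) * f x) p volume := by
  obtain ⟨B, hB⟩ := h
  refine hf.of_le_mul (c := B) ?_ (Eventually.of_forall fun x => ?_)
  · refine AEStronglyMeasurable.mul ?_ hf.aestronglyMeasurable
    have h1 : Measurable fun x : X d => ((φ (lev x) : ℝ) : ℂ) :=
      Complex.measurable_ofReal.comp ((measurable_from_top (f := φ)).comp lev_measurable)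
    exact h1.aestronglyMeasurable
  · rw [norm_mul, Complex.norm_real]
    exact mul_le_mul_of_nonneg_right (hB _) (norm_nonneg _)

open Classical in
/-- Multiplication by `φ ∘ lev` on `L^p`. -/
def mulOp (d : ℕ) (p : ℝ≥0∞) [Fact (1 ≤ p)] (φ : ℕ → ℝ) : L d p →L[ℂ] L d p :=
  if h : Bdd φ then
    LinearMap.mkContinuous
      { toFun := fun f => (memLp_mul h (Lp.memLp f)).toLp _
        map_add' := by
          intro f g
          rw [← MemLp.toLp_add]
          apply (MemLp.toLp_eq_toLp_iff _ _).mpr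
          filter_upwards [Lp.coeFn_add f g] with x hx
          rw [hx]
          simp only [Pi.add_apply]
          ring
        map_smul' := by
          intro c f
          rw [RingHom.id_apply, ← MemLp.toLp_const_smul]
          apply (MemLp.toLp_eq_toLp_iff _ _).mpr
          filter_upwards [Lp.coeFn_smul c f] with x hx
          rw [hx]
          simp only [Pi.smul_apply, smul_eq_mul]
          ring } (Classical.choose h)
      (by
        intro f
        apply Lp.norm_le_mul_norm_of_ae_le_mul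
        filter_upwards [MemLp.coeFn_toLp (memLp_mul h (Lp.memLp f))] with x hx
        change ‖((memLp_mul h (Lp.memLp f)).toLp _ : L d p) x‖ ≤ _
        rw [hx, norm_mul, Complex.norm_real]
        exact mul_le_mul_of_nonneg_right (Classical.choose_spec h _) (norm_nonneg _))
  else 0

variable {d : ℕ} {p : ℝ≥0∞} [Fact (1 ≤ p)]

theorem mulOp_coe {φ : ℕ → ℝ} (h : Bdd φ) (f : L d p) :
    (mulOp d p φ f : X d → ℂ) =ᵐ[volume] fun x => ((φ (lev x) : ℝ) : ℂ) * f x := by
  unfold mulOp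
  rw [dif_pos h]
  exact MemLp.coeFn_toLp (memLp_mul h (Lp.memLp f))

theorem mulOp_norm_le {φ : ℕ → ℝ} {B : ℝ} (hB : ∀ n, |φ n| ≤ B) : ‖mulOp d p φ‖ ≤ B := by
  have hB0 : 0 ≤ B := le_trans (abs_nonneg _) (hB 0)
  refine ContinuousLinearMap.opNorm_le_bound _ hB0 fun f => ?_
  apply Lp.norm_le_mul_norm_of_ae_le_mul
  filter_upwards [mulOp_coe ⟨B, hB⟩ f] with x hx
  rw [hx, norm_mul, Complex.norm_real]
  exact mul_le_mul_of_nonneg_right (hB _) (norm_nonneg _)

theorem mulOp_mul {φ ψ : ℕ → ℝ} (h : Bdd φ) (h' : Bdd ψ) :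
    mulOp d p φ * mulOp d p ψ = mulOp d p (fun n => φ n * ψ n) := by
  have h2 : Bdd (fun n => φ n * ψ n) := by
    obtain ⟨B, hB⟩ := h
    obtain ⟨C, hC⟩ := h'
    refine ⟨B * C, fun n => ?_⟩
    rw [abs_mul]
    exact mul_le_mul (hB n) (hC n) (abs_nonneg _) (le_trans (abs_nonneg _) (hB 0))
  ext1 f
  apply Lp.ext
  change (mulOp d p φ (mulOp d p ψ f) : X d → ℂ) =ᵐ[volume] _
  filter_upwards [mulOp_coe h (mulOp d p ψ f), mulOp_coe h' f, mulOp_coe h2 f] with x h3 h4 h5
  rw [h3, h4, h5]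
  push_cast
  ring

theorem mulOp_one : mulOp d p (fun _ => 1) = 1 := by
  ext1 f
  apply Lp.ext
  change (mulOp d p (fun _ => 1) f : X d → ℂ) =ᵐ[volume] f
  filter_upwards [mulOp_coe (d := d) (p := p) (φ := fun _ => (1 : ℝ)) ⟨1, fun _ => by simp⟩ f]
    with x h3
  rw [h3]
  simp

theorem mulOp_add {φ ψ : ℕ → ℝ} (h : Bdd φ) (h' : Bdd ψ) (f : L d p) :
    mulOp d p (fun n => φ n + ψ n) f = mulOp d p φ f + mulOp d p ψ f := by
  have h2 : Bdd (fun n => φ n + ψ n) := by
    obtain ⟨B, hB⟩ := h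
    obtain ⟨C, hC⟩ := h'
    exact ⟨B + C, fun n => (abs_add_le _ _).trans (add_le_add (hB n) (hC n))⟩
  apply Lp.ext
  filter_upwards [mulOp_coe h2 f, mulOp_coe h f, mulOp_coe h' f,
    Lp.coeFn_add (mulOp d p φ f) (mulOp d p ψ f)] with x h3 h4 h5 h6
  rw [h3, h6, Pi.add_apply, h4, h5]
  push_cast
  ring

theorem mulOp_smul {φ : ℕ → ℝ} (h : Bdd φ) (r : ℝ) (f : L d p) :
    mulOp d p (fun n => r * φ n) f = (r : ℂ) • mulOp d p φ f := by
  have h2 : Bdd (fun n => r * φ n) := by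
    obtain ⟨B, hB⟩ := h
    exact ⟨|r| * B, fun n => by rw [abs_mul]; exact mul_le_mul_of_nonneg_left (hB n) (abs_nonneg _)⟩
  apply Lp.ext
  filter_upwards [mulOp_coe h2 f, mulOp_coe h f,
    Lp.coeFn_smul (r : ℂ) (mulOp d p φ f)] with x h3 h4 h6
  rw [h3, h6, Pi.smul_apply, h4, smul_eq_mul]
  push_cast
  ring

/-- Dominated convergence for multiplication operators. -/
theorem mulOp_tendsto {ι : Type*} {l : Filter ι} [l.IsCountablyGenerated] (hp : p ≠ ∞)
    {φ : ι → ℕ → ℝ} {φ0 : ℕ → ℝ} {B : ℝ} (hB : ∀ t, ∀ n, |φ t n| ≤ B)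
    (hB0 : ∀ n, |φ0 n| ≤ B) (h : ∀ n, Tendsto (fun t => φ t n) l (𝓝 (φ0 n))) (f : L d p) :
    Tendsto (fun t => mulOp d p (φ t) f) l (𝓝 (mulOp d p φ0 f)) := by
  have hp0 : p ≠ 0 := (zero_lt_one.trans_le (Fact.out (p := 1 ≤ p))).ne'
  have hpr : 0 < p.toReal := ENNReal.toReal_pos hp0 hp
  rw [Lp.tendsto_Lp_iff_tendsto_eLpNorm']
  have key : ∀ t, eLpNorm (mulOp d p (φ t) f - mulOp d p φ0 f : X d → ℂ) p volume
      = (∫⁻ x, ‖(((φ t (lev x) - φ0 (lev x) : ℝ)) : ℂ) * f x‖ₑ ^ p.toReal) ^ (1 / p.toReal) := by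
    intro t
    rw [eLpNorm_eq_lintegral_rpow_enorm_toReal hp0 hp]
    congr 1
    apply lintegral_congr_ae
    filter_upwards [mulOp_coe ⟨B, hB t⟩ f, mulOp_coe ⟨B, hB0⟩ f] with x h1 h2
    rw [Pi.sub_apply, h1, h2]
    congr 2
    push_cast
    ring
  simp_rw [key]
  have hz : (0 : ℝ≥0∞) = 0 ^ (1 / p.toReal) := by
    rw [ENNReal.zero_rpow_of_pos (by positivity)]
  rw [hz]
  refine Tendsto.ennrpow_const _ ?_
  have hz2 : (0 : ℝ≥0∞) = ∫⁻ _ : X d, 0 := by simp
  rw [hz2]
  have hmeas : ∀ t, Measurable fun x : X d => (((φ t (lev x) - φ0 (lev x) : ℝ)) : ℂ) := fun t =>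
    Complex.measurable_ofReal.comp
      ((measurable_from_top (f := fun n => φ t n - φ0 n)).comp lev_measurable)
  refine tendsto_lintegral_filter_of_dominated_convergence
    (fun x => (ENNReal.ofReal (2 * B) * ‖f x‖ₑ) ^ p.toReal) ?_ ?_ ?_ ?_
  · refine Eventually.of_forall fun t => ?_
    exact (((hmeas t).mul (Lp.stronglyMeasurable f).measurable).enorm).pow_const _
  · refine Eventually.of_forall fun t => Eventually.of_forall fun x => ?_
    refine ENNReal.rpow_le_rpow ?_ hpr.le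
    rw [enorm_mul]
    gcongr
    rw [← ofReal_norm, Complex.norm_real]
    apply ENNReal.ofReal_le_ofReal
    rw [Real.norm_eq_abs]
    have h1 := hB t (lev x)
    have h2 := hB0 (lev x)
    calc |φ t (lev x) - φ0 (lev x)| ≤ |φ t (lev x)| + |φ0 (lev x)| := abs_sub _ _
      _ ≤ 2 * B := by linarith
  · simp_rw [ENNReal.mul_rpow_of_nonneg _ _ hpr.le]
    rw [lintegral_const_mul' _ _ (ENNReal.rpow_ne_top_of_nonneg hpr.le ENNReal.ofReal_ne_top)]
    refine ENNReal.mul_ne_top (ENNReal.rpow_ne_top_of_nonneg hpr.le ENNReal.ofReal_ne_top) ?_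
    exact (lintegral_rpow_enorm_lt_top_of_eLpNorm_lt_top hp0 hp (Lp.eLpNorm_lt_top f)).ne
  · refine Eventually.of_forall fun x => ?_
    have h1 : Tendsto (fun t => (((φ t (lev x) - φ0 (lev x) : ℝ)) : ℂ) * f x) l (𝓝 0) := by
      have h2 : Tendsto (fun t => φ t (lev x) - φ0 (lev x)) l (𝓝 0) := by
        have := (h (lev x)).sub_const (φ0 (lev x))
        rwa [sub_self] at this
      have h3 := (Complex.continuous_ofReal.tendsto 0).comp h2
      have h4 := h3.mul_const (f x)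
      simpa using h4
    have h5 := (continuous_enorm.tendsto (0 : ℂ)).comp h1
    rw [enorm_zero] at h5
    have h6 := h5.ennrpow_const p.toReal
    rwa [ENNReal.zero_rpow_of_pos hpr] at h6

end

end Pool.Agent.Q82.FB
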