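import Mathlib

/-!
# Symmetric sub-Markovian semigroups, `L¹` generator, spectral radius and form bound

Definitions for the problem MP_62a15f_an.
-/

open MeasureTheory Filter Topology
open scoped ENNReal NNReal

namespace Pool.Agent.Q82.FormDelta

noncomputable section

/-- The space `ℝ^d`. -/
def Rd (d : ℕ) : Type := EuclideanSpace ℝ (Fin d)

instance instMeasurableRd (d : ℕ) : MeasurableSpace (Rd d) :=
  (inferInstance : MeasurableSpace (EuclideanSpace ℝ (Fin d)))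

/-- Lebesgue measure on `ℝ^d`. -/
def vol (d : ℕ) : Measure (Rd d) := (volume : Measure (EuclideanSpace ℝ (Fin d)))

/-- The complex space `L^p(ℝ^d)` with Lebesgue measure. -/
def E (d : ℕ) (p : ℝ≥0∞) : Type := Lp ℂ p (vol d)

instance instNormE (d : ℕ) (p : ℝ≥0∞) [Fact (1 ≤ p)] : NormedAddCommGroup (E d p) :=
  (inferInstance : NormedAddCommGroup (Lp ℂ p (vol d)))

instance instSpaceE (d : ℕ) (p : ℝ≥0∞) [Fact (1 ≤ p)] : NormedSpace ℂ (E d p) :=
  (inferInstance : NormedSpace ℂ (Lp ℂ p (vol d)))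

/-- The function (defined almost everywhere) represented by an element of `L^p`. -/
def E.fn {d : ℕ} {p : ℝ≥0∞} (f : E d p) : Rd d → ℂ := (f.1 : Rd d → ℂ)

/-- Bounded operators on `L^p(ℝ^d)`. -/
def Op (d : ℕ) (p : ℝ≥0∞) [Fact (1 ≤ p)] : Type := E d p →L[ℂ] E d p

/-- Application of an operator. -/
def Op.app {d : ℕ} {p : ℝ≥0∞} [Fact (1 ≤ p)] (A : Op d p) (f : E d p) : E d p :=
  ContinuousLinearMap.toLinearMap A f

/-- The spectral radius of a bounded operator. -/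
def Op.radius {d : ℕ} {p : ℝ≥0∞} [Fact (1 ≤ p)] (A : Op d p) : ℝ≥0∞ :=
  @spectralRadius ℂ (E d p →L[ℂ] E d p) _ _ _ A

/-- The element `f - g` of `L^p`. -/
def E.minus {d : ℕ} {p : ℝ≥0∞} [Fact (1 ≤ p)] (f g : E d p) : E d p := f - g

/-- The element `z f` of `L^p`. -/
def E.times {d : ℕ} {p : ℝ≥0∞} [Fact (1 ≤ p)] (f : E d p) (z : ℂ) : E d p := z • f

/-- The norm of `L^p`. -/
def E.nrm {d : ℕ} {p : ℝ≥0∞} [Fact (1 ≤ p)] (f : E d p) : ℝ := ‖f‖

/-- Norm continuity of a curve in `L^p`. -/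
def E.ContCurve {d : ℕ} {p : ℝ≥0∞} [Fact (1 ≤ p)] (u : ℝ≥0 → E d p) : Prop := Continuous u

/-- Norm convergence `u t → g` in `L^p` for `t → 0`, `t > 0`. -/
def E.TendsAtZero {d : ℕ} {p : ℝ≥0∞} [Fact (1 ≤ p)] (u : ℝ≥0 → E d p) (g : E d p) : Prop :=
  Tendsto u (𝓝[>] 0) (𝓝 g)

/-- The `L²` inner product `∫ f ḡ`. -/
def inn {d : ℕ} (f g : E d 2) : ℂ := ∫ x, f.fn x * (starRingEnd ℂ) (g.fn x) ∂(vol d)

/-- `f = g` almost everywhere. -/
def AEEq {d : ℕ} (f g : Rd d → ℂ) : Prop := ∀ᵐ x ∂(vol d), f x = g x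

/-- `f` is real and nonnegative almost everywhere. -/
def AENonneg {d : ℕ} (f : Rd d → ℂ) : Prop := ∀ᵐ x ∂(vol d), 0 ≤ (f x).re ∧ (f x).im = 0

/-- A family of operators `U p t` on `L^p(ℝ^d)`, `1 ≤ p ≤ ∞`, `t ≥ 0`. -/
def Family (d : ℕ) : Type := ∀ (p : ℝ≥0∞) [Fact (1 ≤ p)], ℝ≥0 → Op d p

/-- The operators are consistent: almost everywhere equal inputs have almost everywhere equal
outputs. -/
def Family.Consistent {d : ℕ} (U : Family d) : Prop :=
  ∀ (p q : ℝ≥0∞) [Fact (1 ≤ p)] [Fact (1 ≤ q)] (t : ℝ≥0) (f : E d p) (g : E d q),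
    AEEq f.fn g.fn → AEEq ((U p t).app f).fn ((U q t).app g).fn

/-- The semigroup law. -/
def Family.IsSemigroup {d : ℕ} (U : Family d) : Prop :=
  ∀ (p : ℝ≥0∞) [Fact (1 ≤ p)] (f : E d p), (U p 0).app f = f ∧
    ∀ s t : ℝ≥0, (U p (s + t)).app f = (U p s).app ((U p t).app f)

/-- Positivity. -/
def Family.IsPositive {d : ℕ} (U : Family d) : Prop :=
  ∀ (p : ℝ≥0∞) [Fact (1 ≤ p)] (t : ℝ≥0) (f : E d p), AENonneg f.fn → AENonneg ((U p t).app f).fn

/-- Contractivity on `L^p`. -/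
def Family.ContractiveOn {d : ℕ} (U : Family d) (p : ℝ≥0∞) [Fact (1 ≤ p)] : Prop :=
  ∀ (t : ℝ≥0) (f : E d p), ((U p t).app f).nrm ≤ f.nrm

/-- Strong continuity on `L^p` for `p < ∞`. -/
def Family.StronglyContinuous {d : ℕ} (U : Family d) : Prop :=
  ∀ (p : ℝ≥0∞) [Fact (1 ≤ p)], p ≠ ∞ → ∀ f : E d p, E.ContCurve fun t => (U p t).app f

/-- Self-adjointness on `L²`. -/
def Family.SymmetricTwo {d : ℕ} (U : Family d) : Prop :=
  ∀ (t : ℝ≥0) (f g : E d 2), inn ((U 2 t).app f) g = inn f ((U 2 t).app g)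

/-- A symmetric sub-Markovian semigroup on `ℝ^d`: a consistent family of semigroups `U p` on
`L^p(ℝ^d)`, `1 ≤ p ≤ ∞`, of positive operators, contractive on `L¹` and on `L^∞`, strongly
continuous on `L^p` for `p < ∞`, self-adjoint on `L²`. -/
structure SymSubMarkov (d : ℕ) where
  /-- the semigroup on `L^p` -/
  U : Family d
  consistent : U.Consistent
  semigroup : U.IsSemigroup
  positive : U.IsPositive
  contractive_one : U.ContractiveOn 1
  contractive_top : U.ContractiveOn ∞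
  continuous : U.StronglyContinuous
  symmetric : U.SymmetricTwo

variable {d : ℕ}

/-- `f` is in the domain of the generator `T` of the semigroup on `L¹`, and `T f = g`. -/
def SymSubMarkov.IsGen (S : SymSubMarkov d) (f g : E d 1) : Prop :=
  E.TendsAtZero (fun t : ℝ≥0 => (((S.U 1 t).app f).minus f).times ((t : ℝ) : ℂ)⁻¹) g

/-- `V` is `T`-bounded in `L¹`: for every `f` in the domain of `T`, `V f` is in `L¹`. -/
def SymSubMarkov.TBounded (S : SymSubMarkov d) (V : Rd d → ℝ) : Prop :=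
  ∀ f g : E d 1, S.IsGen f g → Integrable (fun x => (V x : ℂ) * f.fn x) (vol d)

/-- The bounded operator `A` on `L¹` is `V (λ - T)⁻¹`: the operator `λ - T` maps the domain
of `T` onto `L¹`, and `A (λ f - T f) = V f` for every `f` in the domain of `T`. -/
def SymSubMarkov.IsVRes (S : SymSubMarkov d) (V : Rd d → ℝ) (lam : ℝ) (A : Op d 1) : Prop :=
  (∀ h : E d 1, ∃ f g : E d 1, S.IsGen f g ∧ (f.times lam).minus g = h) ∧
    ∀ f g : E d 1, S.IsGen f g →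
      AEEq (A.app ((f.times lam).minus g)).fn fun x => (V x : ℂ) * f.fn x

/-- `δ = lim_{λ → ∞} r (V (λ - T)⁻¹)`, where `r` is the spectral radius in `L¹`. -/
def SymSubMarkov.IsDelta (S : SymSubMarkov d) (V : Rd d → ℝ) (δ : ℝ≥0∞) : Prop :=
  ∃ A : ℝ → Op d 1, (∀ lam : ℝ, 0 < lam → S.IsVRes V lam (A lam)) ∧
    Tendsto (fun lam : ℝ => (A lam).radius) atTop (𝓝 δ)

/-- The closed quadratic form `q(φ) = ‖(-T₂)^{1/2} φ‖²` of the semigroup on `L²`, with value `∞`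
outside the form domain: `q(φ) = sup_{t>0} t⁻¹ ⟨φ - U(t) φ, φ⟩`. -/
def SymSubMarkov.form (S : SymSubMarkov d) (φ : E d 2) : ℝ≥0∞ :=
  ⨆ (t : ℝ≥0) (_ : 0 < t), ENNReal.ofReal ((t : ℝ)⁻¹ * (inn (φ.minus ((S.U 2 t).app φ)) φ).re)

/-- The number `a` is a form bound of `V`: there is `b ≥ 0` with
`∫ V |φ|² ≤ a q(φ) + b ‖φ‖²` for all `φ` in the form domain. -/
def SymSubMarkov.IsFormBound (S : SymSubMarkov d) (V : Rd d → ℝ) (a : ℝ) : Prop :=
  0 ≤ a ∧ ∃ b : ℝ, 0 ≤ b ∧ ∀ φ : E d 2, S.form φ < ∞ →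
    ∫⁻ x, ENNReal.ofReal (V x * ‖φ.fn x‖ ^ 2) ∂(vol d)
      ≤ ENNReal.ofReal a * S.form φ + ENNReal.ofReal (b * φ.nrm ^ 2)

end

end Pool.Agent.Q82.FormDelta
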