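import Pool.Agent.Q82.FB9
import Pool.Agent.Q82.FormDelta

/-!
Transfer to the definitions of `FormDelta`.
-/

open MeasureTheory Filter Topology
open scoped ENNReal NNReal ComplexOrder InnerProductSpace

namespace Pool.Agent.Q82.FB

noncomputable section

def toL {d : ℕ} {p : ℝ≥0∞} (f : FormDelta.E d p) : L d p := f

theorem inn_eq {d : ℕ} (f g : FormDelta.E d 2) :
    FormDelta.inn f g = ⟪toL g, toL f⟫_ℂ := by
  rw [L2.inner_def]
  rfl

theorem nonneg_iff {d : ℕ} {f : X d → ℂ} :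
    FormDelta.AENonneg f ↔ ∀ᵐ x ∂(volume : Measure (X d)), 0 ≤ f x := by
  have h : ∀ z : ℂ, (0 ≤ z.re ∧ z.im = 0) ↔ 0 ≤ z := by
    intro z
    rw [Complex.nonneg_iff, eq_comm (a := (0 : ℝ))]
  constructor
  · intro h1
    have h2 : ∀ᵐ x ∂(volume : Measure (X d)), 0 ≤ (f x).re ∧ (f x).im = 0 := h1
    filter_upwards [h2] with x hx
    exact (h _).mp hx
  · intro h1
    change ∀ᵐ x ∂(volume : Measure (X d)), 0 ≤ (f x).re ∧ (f x).im = 0
    filter_upwards [h1] with x hx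
    exact (h _).mpr hx

theorem Ut_contr {d : ℕ} {p : ℝ≥0∞} [Fact (1 ≤ p)] (t : ℝ≥0) (f : L d p) :
    ‖Ut d p t f‖ ≤ ‖f‖ := by
  calc ‖Ut d p t f‖ ≤ ‖Ut d p t‖ * ‖f‖ := ContinuousLinearMap.le_opNorm _ _
    _ ≤ 1 * ‖f‖ := by gcongr; exact Ut_norm_le t
    _ = ‖f‖ := one_mul _

theorem Ut_symm {d : ℕ} (t : ℝ≥0) (f g : L d 2) :
    ⟪g, Ut d 2 t f⟫_ℂ = ⟪Ut d 2 t g, f⟫_ℂ := by
  have h1 := (ContinuousLinearMap.isSelfAdjoint_iff_isSymmetric.mp
    (Phi_selfAdjoint (d := d) (ua_adm t)))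
  exact (h1 g f).symm

/-- The semigroup of the counterexample. -/
def SgN (d : ℕ) : FormDelta.SymSubMarkov d where
  U := fun p _ t => Ut d p t
  consistent := fun p q _ _ t f g h =>
    Phi_consistent (d := d) (p := p) (q := q) (ua_adm t) (f := toL f) (g := toL g) h
  semigroup := fun p _ f =>
    ⟨congrArg (fun T : L d p →L[ℂ] L d p => T (toL f)) (Ut_zero (d := d) (p := p)),
      fun s t => congrArg (fun T : L d p →L[ℂ] L d p => T (toL f)) (Ut_add (d := d) (p := p) s t)⟩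
  positive := fun p _ t f h => nonneg_iff.mpr
    (Phi_nonneg (d := d) (p := p) (ua_adm t) (fun k m => wt_nonneg (by positivity) k)
      (f := toL f) (nonneg_iff.mp h))
  contractive_one := fun t f => Ut_contr t (toL f)
  contractive_top := fun t f => Ut_contr t (toL f)
  continuous := fun p _ hp f => Ut_continuous (d := d) (p := p) hp (toL f)
  symmetric := fun t f g => by
    rw [inn_eq, inn_eq]
    exact Ut_symm t (toL f) (toL g)

/-- The potential. -/
def Vn (d : ℕ) (x : FormDelta.Rd d) : ℝ := (lev (d := d) x : ℝ)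

theorem Vn_meas (d : ℕ) : Measurable (Vn d) :=
  (measurable_from_top (f := fun n : ℕ => (n : ℝ))).comp (lev_measurable (d := d))

theorem isGen_iff {d : ℕ} (f g : FormDelta.E d 1) :
    (SgN d).IsGen f g ↔ (Sg d).IsGen (toL f) (toL g) := Iff.rfl

theorem tboundedN (d : ℕ) : (SgN d).TBounded (Vn d) := by
  intro f g h
  exact tbounded (d := d) (toL f) (toL g) h

theorem isVResN {d : ℕ} {lam : ℝ} (hl : 0 < lam) :
    (SgN d).IsVRes (Vn d) lam (Aop d lam) := by
  obtain ⟨h1, h2⟩ := isVRes (d := d) hl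
  constructor
  · intro h
    obtain ⟨f, g, h3, h4⟩ := h1 (toL h)
    exact ⟨f, g, h3, h4⟩
  · intro f g h3
    exact h2 (toL f) (toL g) h3

theorem isDeltaN {d : ℕ} (hd : 1 ≤ d) : (SgN d).IsDelta (Vn d) 1 := by
  refine ⟨fun lam => Aop d lam, fun lam hl => isVResN hl, ?_⟩
  refine tendsto_const_nhds.congr' ?_
  filter_upwards [eventually_gt_atTop 0] with lam hl
  exact (spectralRadius_Aop hd hl).symm

theorem form_eq {d : ℕ} (f : FormDelta.E d 2) :
    (SgN d).form f = (Sg d).form (toL f) := by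
  unfold FormDelta.SymSubMarkov.form SymSubMarkov.form
  congr 1
  ext1 t
  congr 1
  ext1 ht
  rw [inn_eq]
  have h : ⟪toL f, toL (f.minus (((SgN d).U 2 t).app f))⟫_ℂ
      = ⟪toL f, toL f - Ut d 2 t (toL f)⟫_ℂ := rfl
  have h' : (⟪toL f, toL f - Ut d 2 t (toL f)⟫_ℂ).re
      = (⟪toL f - (Sg d).U 2 t (toL f), toL f⟫_ℂ).re := by
    change _ = (⟪toL f - Ut d 2 t (toL f), toL f⟫_ℂ).re
    rw [← inner_conj_symm (toL f - Ut d 2 t (toL f)) (toL f), Complex.conj_re]
  rw [h, h']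

theorem isFormBoundN {d : ℕ} (hd : 1 ≤ d) :
    (SgN d).IsFormBound (Vn d) (1 / (2 - rho d)) := by
  have hr : 0 < 2 - rho d := by linarith [rho_lt_one hd]
  refine ⟨by positivity, 0, le_rfl, fun f _ => ?_⟩
  rw [zero_mul, ENNReal.ofReal_zero, add_zero, form_eq]
  exact form_bound hd (toL f)

theorem formBound_ltN {d : ℕ} (hd : 1 ≤ d) :
    sInf {a : ℝ | (SgN d).IsFormBound (Vn d) a} < 1 := by
  have h1 : sInf {a : ℝ | (SgN d).IsFormBound (Vn d) a} ≤ 1 / (2 - rho d) :=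
    csInf_le ⟨0, fun a ha => ha.1⟩ (isFormBoundN hd)
  refine lt_of_le_of_lt h1 ?_
  have hr := rho_lt_one hd
  rw [div_lt_one (by linarith)]
  linarith

end

end Pool.Agent.Q82.FB
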