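import Pool.Agent.Q82.FB1

/-!
Dilations on `L^p(ℝ^d)` and the symmetric Markov operator `Π`.
-/

open MeasureTheory Filter Topology
open scoped ENNReal NNReal

namespace Pool.Agent.Q82.FB

noncomputable section

theorem map_smul_vol {d : ℕ} {s : ℝ} (hs : 0 < s) :
    Measure.map (fun y : X d => s • y) (volume : Measure (X d))
      = ENNReal.ofReal ((s ^ d)⁻¹) • volume := by
  have h := Measure.map_addHaar_smul (volume : Measure (X d)) hs.ne'
  rw [finrank_euclideanSpace_fin, abs_of_pos (by positivity)] at h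
  exact h

theorem qmp_smul {d : ℕ} {s : ℝ} (hs : 0 < s) :
    Measure.QuasiMeasurePreserving (fun y : X d => s • y) volume volume :=
  Measure.quasiMeasurePreserving_smul volume hs.ne'

theorem memLp_dil {d : ℕ} {p : ℝ≥0∞} {s : ℝ} (hs : 0 < s) {f : X d → ℂ}
    (hf : MemLp f p volume) : MemLp (fun x : X d => f (s • x)) p volume := by
  have h1 : MemLp f p (Measure.map (fun y : X d => s • y) (volume : Measure (X d))) := by
    rw [map_smul_vol hs]
    exact hf.smul_measure ENNReal.ofReal_ne_top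
  exact h1.comp_of_map (measurable_const_smul s).aemeasurable

theorem eLpNorm_dil {d : ℕ} {p : ℝ≥0∞} {s : ℝ} (hs : 0 < s) {f : X d → ℂ}
    (hf : AEStronglyMeasurable f volume) :
    eLpNorm (fun x : X d => f (s • x)) p volume
      = ENNReal.ofReal (((s ^ d)⁻¹) ^ (1 / p).toReal) * eLpNorm f p volume := by
  have h0 : (0 : ℝ) < (s ^ d)⁻¹ := by positivity
  have h1 : AEStronglyMeasurable f
      (Measure.map (fun y : X d => s • y) (volume : Measure (X d))) := by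
    rw [map_smul_vol hs]
    exact hf.smul_measure _
  have h2 := eLpNorm_map_measure (p := p) h1 (measurable_const_smul s).aemeasurable
  rw [map_smul_vol hs, eLpNorm_smul_measure_of_ne_zero (by simpa using h0)] at h2
  rw [← ENNReal.ofReal_rpow_of_pos h0]
  exact h2.symm

/-- The dilation `f ↦ f (s ·)` on `L^p`. -/
def dil (d : ℕ) (p : ℝ≥0∞) [Fact (1 ≤ p)] (s : ℝ) (hs : 0 < s) : L d p →L[ℂ] L d p :=
  LinearMap.mkContinuous
    { toFun := fun f => (memLp_dil hs (Lp.memLp f)).toLp _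
      map_add' := by
        intro f g
        rw [← MemLp.toLp_add]
        apply (MemLp.toLp_eq_toLp_iff _ _).mpr
        filter_upwards [(qmp_smul hs).ae (Lp.coeFn_add f g)] with x hx
        rw [hx]
        simp only [Pi.add_apply]
      map_smul' := by
        intro c f
        rw [RingHom.id_apply, ← MemLp.toLp_const_smul]
        apply (MemLp.toLp_eq_toLp_iff _ _).mpr
        filter_upwards [(qmp_smul hs).ae (Lp.coeFn_smul c f)] with x hx
        rw [hx]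
        simp only [Pi.smul_apply, smul_eq_mul] }
    (((s ^ d)⁻¹) ^ (1 / p).toReal)
    (by
      intro f
      change ‖((memLp_dil hs (Lp.memLp f)).toLp _ : L d p)‖ ≤ _
      rw [Lp.norm_toLp, eLpNorm_dil hs (Lp.aestronglyMeasurable f), ENNReal.toReal_mul,
        ENNReal.toReal_ofReal (by positivity), Lp.norm_def])

variable {d : ℕ} {p : ℝ≥0∞} [Fact (1 ≤ p)]

theorem dil_coe {s : ℝ} (hs : 0 < s) (f : L d p) :
    (dil d p s hs f : X d → ℂ) =ᵐ[volume] fun x => f (s • x) :=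
  MemLp.coeFn_toLp (memLp_dil hs (Lp.memLp f))

theorem dil_norm {s : ℝ} (hs : 0 < s) : ‖dil d p s hs‖ ≤ ((s ^ d)⁻¹) ^ (1 / p).toReal :=
  LinearMap.mkContinuous_norm_le _ (by positivity) _

theorem dil_mulOp {s : ℝ} (hs : 0 < s) (hl : ∀ y : X d, lev (s • y) = lev y) {φ : ℕ → ℝ}
    (h : Bdd φ) : dil d p s hs * mulOp d p φ = mulOp d p φ * dil d p s hs := by
  ext1 f
  apply Lp.ext
  change (dil d p s hs (mulOp d p φ f) : X d → ℂ) =ᵐ[volume] mulOp d p φ (dil d p s hs f)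
  filter_upwards [dil_coe hs (mulOp d p φ f), (qmp_smul hs).ae (mulOp_coe h f),
    mulOp_coe h (dil d p s hs f), dil_coe hs f] with x h1 h2 h3 h4
  rw [h1, h2, h3, h4, hl]

theorem two_pos' : (0 : ℝ) < 2 := two_pos

theorem half_pos' : (0 : ℝ) < (2 : ℝ)⁻¹ := by norm_num

/-- The operator `Π f (y) = (2^d f(2y) + f(y/2)) / (2^d + 1)`. -/
def Pi' (d : ℕ) (p : ℝ≥0∞) [Fact (1 ≤ p)] : L d p →L[ℂ] L d p :=
  (((2 : ℝ) ^ d / (2 ^ d + 1) : ℝ) : ℂ) • dil d p 2 two_pos'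
    + ((1 / ((2 : ℝ) ^ d + 1) : ℝ) : ℂ) • dil d p (2 : ℝ)⁻¹ half_pos'

theorem Pi'_coe (f : L d p) :
    (Pi' d p f : X d → ℂ) =ᵐ[volume] fun x =>
      (((2 : ℝ) ^ d / (2 ^ d + 1) : ℝ) : ℂ) * f ((2 : ℝ) • x)
        + ((1 / ((2 : ℝ) ^ d + 1) : ℝ) : ℂ) * f ((2 : ℝ)⁻¹ • x) := by
  have h : Pi' d p f = (((2 : ℝ) ^ d / (2 ^ d + 1) : ℝ) : ℂ) • dil d p 2 two_pos' f
      + ((1 / ((2 : ℝ) ^ d + 1) : ℝ) : ℂ) • dil d p (2 : ℝ)⁻¹ half_pos' f := rfl
  rw [h]
  filter_upwards [Lp.coeFn_add ((((2 : ℝ) ^ d / (2 ^ d + 1) : ℝ) : ℂ) • dil d p 2 two_pos' f)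
      (((1 / ((2 : ℝ) ^ d + 1) : ℝ) : ℂ) • dil d p (2 : ℝ)⁻¹ half_pos' f),
    Lp.coeFn_smul (((2 : ℝ) ^ d / (2 ^ d + 1) : ℝ) : ℂ) (dil d p 2 two_pos' f),
    Lp.coeFn_smul ((1 / ((2 : ℝ) ^ d + 1) : ℝ) : ℂ) (dil d p (2 : ℝ)⁻¹ half_pos' f),
    dil_coe two_pos' f, dil_coe half_pos' f] with x h1 h2 h3 h4 h5
  rw [h1, Pi.add_apply, h2, h3, Pi.smul_apply, Pi.smul_apply, h4, h5, smul_eq_mul, smul_eq_mul]

theorem Pi'_comm {φ : ℕ → ℝ} (h : Bdd φ) :
    Commute (Pi' d p) (mulOp d p φ) := by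
  unfold Commute SemiconjBy Pi'
  rw [add_mul, mul_add, smul_mul_assoc, smul_mul_assoc, mul_smul_comm, mul_smul_comm,
    dil_mulOp two_pos' lev_two h, dil_mulOp half_pos' lev_half h]

theorem Pi'_norm_le_gen : ‖Pi' d p‖ ≤ (2 ^ d / (2 ^ d + 1)) * (((2 : ℝ) ^ d)⁻¹) ^ (1 / p).toReal
    + (1 / (2 ^ d + 1)) * ((((2 : ℝ)⁻¹) ^ d)⁻¹) ^ (1 / p).toReal := by
  unfold Pi'
  refine (norm_add_le _ _).trans ?_
  rw [norm_smul, norm_smul, Complex.norm_real, Complex.norm_real, Real.norm_eq_abs,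
    Real.norm_eq_abs, abs_of_pos (by positivity), abs_of_pos (by positivity)]
  gcongr
  · exact dil_norm _
  · exact dil_norm _

theorem theta_le : (1 / p).toReal ≤ 1 := by
  have h1 : 1 / p ≤ 1 := by
    rw [one_div]
    exact ENNReal.inv_le_one.mpr Fact.out
  exact ENNReal.toReal_le_of_le_ofReal zero_le_one (by simpa using h1)

theorem Pi'_norm_le : ‖Pi' d p‖ ≤ 1 := by
  refine Pi'_norm_le_gen.trans ?_
  set x : ℝ := 2 ^ d with hx
  have hx1 : 1 ≤ x := one_le_pow₀ (by norm_num)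
  have hx0 : 0 < x := by linarith
  have e1 : (((2 : ℝ)⁻¹) ^ d)⁻¹ = x := by rw [inv_pow, inv_inv]
  rw [e1, Real.inv_rpow hx0.le]
  set y : ℝ := x ^ (1 / p).toReal with hy
  have hy1 : 1 ≤ y := Real.one_le_rpow hx1 ENNReal.toReal_nonneg
  have hyx : y ≤ x := by
    have := Real.rpow_le_rpow_of_exponent_le hx1 (theta_le (p := p))
    rwa [Real.rpow_one] at this
  have hy0 : 0 < y := by linarith
  have e2 : x / (x + 1) * y⁻¹ + 1 / (x + 1) * y = (x + y ^ 2) / (y * (x + 1)) := by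
    field_simp
  rw [e2, div_le_one (by positivity)]
  nlinarith [mul_nonneg (sub_nonneg.mpr hy1) (sub_nonneg.mpr hyx)]

/-- The `L²` norm of `Π`. -/
def rho (d : ℕ) : ℝ := 2 * Real.sqrt (2 ^ d) / (2 ^ d + 1)

theorem rho_lt_one (hd : 1 ≤ d) : rho d < 1 := by
  unfold rho
  have hx1 : (1 : ℝ) < 2 ^ d := one_lt_pow₀ (by norm_num) (by omega)
  have h1 : (1 : ℝ) < Real.sqrt (2 ^ d) := by
    rw [Real.lt_sqrt (by norm_num)]
    simpa using hx1
  have h2 : Real.sqrt ((2 : ℝ) ^ d) ^ 2 = 2 ^ d := Real.sq_sqrt (by positivity)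
  rw [div_lt_one (by positivity)]
  nlinarith

theorem rho_nonneg : 0 ≤ rho d := by unfold rho; positivity

theorem Pi'_norm_two : ‖Pi' d 2‖ ≤ rho d := by
  refine Pi'_norm_le_gen.trans (le_of_eq ?_)
  unfold rho
  set x : ℝ := 2 ^ d with hx
  have hx1 : 1 ≤ x := one_le_pow₀ (by norm_num)
  have hx0 : 0 < x := by linarith
  have e1 : (((2 : ℝ)⁻¹) ^ d)⁻¹ = x := by rw [inv_pow, inv_inv]
  have e3 : (1 / (2 : ℝ≥0∞)).toReal = 1 / 2 := by simp
  rw [e1, Real.inv_rpow hx0.le, e3, ← Real.sqrt_eq_rpow]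
  have h2 : Real.sqrt x ^ 2 = x := Real.sq_sqrt hx0.le
  have h3 : 0 < Real.sqrt x := Real.sqrt_pos.mpr hx0
  field_simp
  nlinarith

end

end Pool.Agent.Q82.FB
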