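import Pool.Agent.Q82.FB2

/-!
The operators `Φ(a) = ∑_k a_k(lev) Π^k` on all `L^p(ℝ^d)` at once.
-/

open MeasureTheory Filter Topology
open scoped ENNReal NNReal

namespace Pool.Agent.Q82.FB

noncomputable section

/-- Admissible coefficient arrays. -/
def Adm (a : ℕ → ℕ → ℝ) (B : ℕ → ℝ) : Prop := Summable B ∧ ∀ k m, |a k m| ≤ B k

theorem Adm.bdd {a : ℕ → ℕ → ℝ} {B : ℕ → ℝ} (h : Adm a B) (k : ℕ) : Bdd (a k) := ⟨B k, h.2 k⟩

theorem Adm.nonneg {a : ℕ → ℕ → ℝ} {B : ℕ → ℝ} (h : Adm a B) (k : ℕ) : 0 ≤ B k :=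
  (abs_nonneg _).trans (h.2 k 0)

/-- The operator `Φ(a)`. -/
def Phi (d : ℕ) (p : ℝ≥0∞) [Fact (1 ≤ p)] (a : ℕ → ℕ → ℝ) : L d p →L[ℂ] L d p :=
  ∑' k, mulOp d p (a k) * (Pi' d p) ^ k

variable {d : ℕ} {p : ℝ≥0∞} [Fact (1 ≤ p)] {a b : ℕ → ℕ → ℝ} {B : ℕ → ℝ}

set_option synthInstance.maxHeartbeats 400000 in
instance instCompleteOp (d : ℕ) (p : ℝ≥0∞) [Fact (1 ≤ p)] :
    CompleteSpace (L d p →L[ℂ] L d p) := inferInstance

theorem Pi'_pow_norm_le (k : ℕ) : ‖(Pi' d p) ^ k‖ ≤ 1 := by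
  induction k with
  | zero => rw [pow_zero]; exact ContinuousLinearMap.norm_id_le
  | succ k ih =>
      rw [pow_succ]
      refine (norm_mul_le _ _).trans ?_
      calc ‖Pi' d p ^ k‖ * ‖Pi' d p‖ ≤ 1 * 1 :=
            mul_le_mul ih Pi'_norm_le (norm_nonneg _) zero_le_one
        _ = 1 := one_mul 1

theorem term_norm_le (h : Adm a B) (k : ℕ) : ‖mulOp d p (a k) * (Pi' d p) ^ k‖ ≤ B k := by
  refine (norm_mul_le _ _).trans ?_
  calc ‖mulOp d p (a k)‖ * ‖Pi' d p ^ k‖ ≤ B k * 1 :=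
        mul_le_mul (mulOp_norm_le (h.2 k)) (Pi'_pow_norm_le k) (norm_nonneg _) (h.nonneg k)
    _ = B k := mul_one _

theorem Phi_hasSum (h : Adm a B) :
    HasSum (fun k => mulOp d p (a k) * (Pi' d p) ^ k) (Phi d p a) :=
  (Summable.of_norm_bounded (E := L d p →L[ℂ] L d p) h.1 (term_norm_le h)).hasSum

theorem Phi_hasSum_apply (h : Adm a B) (f : L d p) :
    HasSum (fun k => mulOp d p (a k) (((Pi' d p) ^ k) f)) (Phi d p a f) := by
  have h1 := (Phi_hasSum (d := d) (p := p) h).mapL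
    (ContinuousLinearMap.apply ℂ (L d p) f)
  exact h1

/-- Projection onto the level set `m`. -/
def chi (d : ℕ) (p : ℝ≥0∞) [Fact (1 ≤ p)] (m : ℕ) : L d p →L[ℂ] L d p :=
  mulOp d p (fun n => if n = m then 1 else 0)

theorem ind_bdd (m : ℕ) : Bdd (fun n => if n = m then (1 : ℝ) else 0) :=
  ⟨1, fun n => by beta_reduce; split_ifs <;> simp⟩

theorem ind_abs (m : ℕ) : ∀ n, |(if n = m then (1 : ℝ) else 0)| ≤ 1 :=
  fun n => by split_ifs <;> simp

theorem chi_norm_le (m : ℕ) : ‖chi d p m‖ ≤ 1 := mulOp_norm_le (ind_abs m)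

theorem chi_coe (m : ℕ) (f : L d p) :
    (chi d p m f : X d → ℂ) =ᵐ[volume] fun x => if lev x = m then f x else 0 := by
  filter_upwards [mulOp_coe (ind_bdd m) f] with x hx
  unfold chi
  rw [hx]
  split_ifs <;> simp

theorem chi_mulOp (m : ℕ) {φ : ℕ → ℝ} (h : Bdd φ) (f : L d p) :
    chi d p m (mulOp d p φ f) = (φ m : ℂ) • chi d p m f := by
  apply Lp.ext
  filter_upwards [chi_coe m (mulOp d p φ f), mulOp_coe h f, chi_coe m f,
    Lp.coeFn_smul (φ m : ℂ) (chi d p m f)] with x h1 h2 h3 h4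
  rw [h1, h4, Pi.smul_apply, h3, smul_eq_mul, h2]
  split_ifs with hm
  · rw [hm]
  · simp

theorem mulOp_chi (m : ℕ) {φ : ℕ → ℝ} (h : Bdd φ) (f : L d p) :
    mulOp d p φ (chi d p m f) = (φ m : ℂ) • chi d p m f := by
  apply Lp.ext
  filter_upwards [chi_coe m f, mulOp_coe h (chi d p m f),
    Lp.coeFn_smul (φ m : ℂ) (chi d p m f)] with x h1 h2 h4
  rw [h2, h4, Pi.smul_apply, h1, smul_eq_mul]
  split_ifs with hm
  · rw [hm]
  · simp

theorem Pi'_pow_comm {φ : ℕ → ℝ} (h : Bdd φ) (k : ℕ) :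
    Commute ((Pi' d p) ^ k) (mulOp d p φ) := (Pi'_comm h).pow_left k

theorem chi_pow (m k : ℕ) (f : L d p) :
    chi d p m (((Pi' d p) ^ k) f) = ((Pi' d p) ^ k) (chi d p m f) := by
  have h := (Pi'_pow_comm (d := d) (p := p) (ind_bdd m) k).eq
  exact (congrArg (fun T : L d p →L[ℂ] L d p => T f) h).symm

theorem chi_Pi (m : ℕ) (f : L d p) :
    chi d p m (Pi' d p f) = Pi' d p (chi d p m f) := by
  have := chi_pow m 1 f
  rwa [pow_one] at this

/-- On the level `m`, the operator `Φ(a)` is a power series in `Π`. -/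
theorem chi_Phi_hasSum (h : Adm a B) (m : ℕ) (f : L d p) :
    HasSum (fun k => (a k m : ℂ) • ((Pi' d p) ^ k) (chi d p m f)) (chi d p m (Phi d p a f)) := by
  have h1 := (Phi_hasSum_apply h f).mapL (chi d p m)
  refine h1.congr_fun ?_
  intro k
  rw [chi_mulOp m (h.bdd k), chi_pow]

/-! ### Level-wise comparison -/

theorem enorm_chi (hp : p ≠ ∞) (m : ℕ) (f : L d p) :
    ‖chi d p m f‖ₑ ^ p.toReal = ∫⁻ x in lev ⁻¹' {m}, ‖f x‖ₑ ^ p.toReal := by
  have hp0 : p ≠ 0 := (zero_lt_one.trans_le (Fact.out (p := 1 ≤ p))).ne'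
  have hpr : 0 < p.toReal := ENNReal.toReal_pos hp0 hp
  rw [Lp.enorm_def, eLpNorm_eq_lintegral_rpow_enorm_toReal hp0 hp, ← ENNReal.rpow_mul,
    one_div_mul_cancel hpr.ne', ENNReal.rpow_one,
    ← lintegral_indicator (lev_measurable (measurableSet_singleton m))]
  apply lintegral_congr_ae
  filter_upwards [chi_coe m f] with x hx
  rw [hx]
  by_cases hm : lev x = m
  · rw [if_pos hm, Set.indicator_of_mem (by exact hm)]
  · rw [if_neg hm, Set.indicator_of_notMem (by exact hm), enorm_zero,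
      ENNReal.zero_rpow_of_pos hpr]

theorem enorm_eq_tsum_chi (hp : p ≠ ∞) (f : L d p) :
    ‖f‖ₑ ^ p.toReal = ∑' m, ‖chi d p m f‖ₑ ^ p.toReal := by
  have hp0 : p ≠ 0 := (zero_lt_one.trans_le (Fact.out (p := 1 ≤ p))).ne'
  have hpr : 0 < p.toReal := ENNReal.toReal_pos hp0 hp
  simp_rw [enorm_chi hp]
  rw [← lintegral_iUnion (fun m => lev_measurable (measurableSet_singleton m))]
  · have hU : (⋃ m, (lev : X d → ℕ) ⁻¹' {m}) = Set.univ := by
      ext x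
      simp
    rw [hU, Measure.restrict_univ, Lp.enorm_def, eLpNorm_eq_lintegral_rpow_enorm_toReal hp0 hp,
      ← ENNReal.rpow_mul, one_div_mul_cancel hpr.ne', ENNReal.rpow_one]
  · intro i j hij
    exact Disjoint.preimage _ (by simpa using hij)

theorem norm_le_of_chi {f g : L d p} {C : ℝ} (hC : 0 ≤ C)
    (h : ∀ m, ‖chi d p m f‖ ≤ C * ‖chi d p m g‖) : ‖f‖ ≤ C * ‖g‖ := by
  have h' : ∀ m, ‖chi d p m f‖ₑ ≤ ENNReal.ofReal C * ‖chi d p m g‖ₑ := by
    intro m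
    rw [← ofReal_norm, ← ofReal_norm, ← ENNReal.ofReal_mul hC]
    exact ENNReal.ofReal_le_ofReal (h m)
  suffices hs : ‖f‖ₑ ≤ ENNReal.ofReal C * ‖g‖ₑ by
    rw [← ofReal_norm, ← ofReal_norm, ← ENNReal.ofReal_mul hC] at hs
    exact (ENNReal.ofReal_le_ofReal_iff (by positivity)).mp hs
  by_cases hp : p = ∞
  · subst hp
    have h1 : ∀ m, ∀ᵐ x ∂(volume : Measure (X d)),
        ‖chi d ∞ m f x‖ₑ ≤ ENNReal.ofReal C * ‖g‖ₑ := by
      intro m
      have h2 : ∀ᵐ x ∂(volume : Measure (X d)), ‖chi d ∞ m f x‖ₑ ≤ ‖chi d ∞ m f‖ₑ := by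
        rw [Lp.enorm_def, eLpNorm_exponent_top]
        exact ae_le_eLpNormEssSup
      filter_upwards [h2] with x hx
      refine hx.trans ((h' m).trans ?_)
      gcongr
      rw [← ofReal_norm, ← ofReal_norm]
      apply ENNReal.ofReal_le_ofReal
      calc ‖chi d ∞ m g‖ ≤ ‖chi d ∞ m‖ * ‖g‖ := ContinuousLinearMap.le_opNorm _ _
        _ ≤ 1 * ‖g‖ := by gcongr; exact chi_norm_le m
        _ = ‖g‖ := one_mul _
    rw [Lp.enorm_def f, eLpNorm_exponent_top]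
    have h3 := ae_all_iff.mpr h1
    have h4 := ae_all_iff.mpr fun m => chi_coe m f
    have h6 : (fun x => ‖f x‖ₑ) ≤ᵐ[volume] fun _ => ENNReal.ofReal C * ‖g‖ₑ := by
      filter_upwards [h3, h4] with x hx hx'
      have h5 := hx (lev x)
      rwa [hx' (lev x), if_pos rfl] at h5
    exact essSup_le_of_ae_le _ h6
  · have hp0 : p ≠ 0 := (zero_lt_one.trans_le (Fact.out (p := 1 ≤ p))).ne'
    have hpr : 0 < p.toReal := ENNReal.toReal_pos hp0 hp
    rw [← ENNReal.rpow_le_rpow_iff hpr, ENNReal.mul_rpow_of_nonneg _ _ hpr.le,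
      enorm_eq_tsum_chi hp, enorm_eq_tsum_chi hp, ← ENNReal.tsum_mul_left]
    refine ENNReal.tsum_le_tsum fun m => ?_
    rw [← ENNReal.mul_rpow_of_nonneg _ _ hpr.le]
    exact ENNReal.rpow_le_rpow (h' m) hpr.le

theorem ext_chi {f g : L d p} (h : ∀ m, chi d p m f = chi d p m g) : f = g := by
  have h1 : ‖f - g‖ ≤ 0 * ‖(0 : L d p)‖ := by
    apply norm_le_of_chi le_rfl
    intro m
    rw [map_sub, h m, sub_self, norm_zero]
    simp
  rw [zero_mul] at h1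
  exact sub_eq_zero.mp (norm_le_zero_iff.mp h1)

theorem Phi_norm_le (h : Adm a B) {C : ℝ} (hC : 0 ≤ C)
    (hs : ∀ m, ∑' k, |a k m| ≤ C) : ‖Phi d p a‖ ≤ C := by
  refine ContinuousLinearMap.opNorm_le_bound _ hC fun f => ?_
  apply norm_le_of_chi hC
  intro m
  have h1 := chi_Phi_hasSum h m f
  have hsum : Summable fun k => |a k m| :=
    Summable.of_nonneg_of_le (fun k => abs_nonneg _) (fun k => h.2 k m) h.1
  have h2 : HasSum (fun k => |a k m| * ‖chi d p m f‖) ((∑' k, |a k m|) * ‖chi d p m f‖) :=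
    hsum.hasSum.mul_right _
  have h3 : ∀ k, ‖(a k m : ℂ) • ((Pi' d p) ^ k) (chi d p m f)‖ ≤ |a k m| * ‖chi d p m f‖ := by
    intro k
    rw [norm_smul, Complex.norm_real, Real.norm_eq_abs]
    gcongr
    calc ‖((Pi' d p) ^ k) (chi d p m f)‖ ≤ ‖(Pi' d p) ^ k‖ * ‖chi d p m f‖ :=
          ContinuousLinearMap.le_opNorm _ _
      _ ≤ 1 * ‖chi d p m f‖ := by gcongr; exact Pi'_pow_norm_le k
      _ = ‖chi d p m f‖ := one_mul _
  rw [← h1.tsum_eq]
  refine (tsum_of_norm_bounded h2 h3).trans ?_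
  gcongr
  exact hs m

/-- Two arrays whose level series agree give the same operator. -/
theorem Phi_tendsto {ι : Type*} {l : Filter ι} [l.IsCountablyGenerated] (hp : p ≠ ∞)
    {c : ι → ℕ → ℕ → ℝ} {c0 : ℕ → ℕ → ℝ} (hc : ∀ t, Adm (c t) B) (hc0 : Adm c0 B)
    (ht : ∀ k m, Tendsto (fun t => c t k m) l (𝓝 (c0 k m))) (f : L d p) :
    Tendsto (fun t => Phi d p (c t) f) l (𝓝 (Phi d p c0 f)) := by
  have h1 : ∀ t, Phi d p (c t) f = ∑' k, mulOp d p (c t k) (((Pi' d p) ^ k) f) :=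
    fun t => (Phi_hasSum_apply (hc t) f).tsum_eq.symm
  have h2 : Phi d p c0 f = ∑' k, mulOp d p (c0 k) (((Pi' d p) ^ k) f) :=
    (Phi_hasSum_apply hc0 f).tsum_eq.symm
  simp_rw [h1]
  rw [h2]
  refine tendsto_tsum_of_dominated_convergence (bound := fun k => B k * ‖f‖)
    (hc0.1.mul_right _) ?_ ?_
  · intro k
    exact mulOp_tendsto hp (fun t => (hc t).2 k) (hc0.2 k) (ht k) _
  · refine Eventually.of_forall fun t k => ?_
    have h3 := term_norm_le (d := d) (p := p) (hc t) k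
    exact (ContinuousLinearMap.le_opNorm (mulOp d p (c t k) * (Pi' d p) ^ k) f).trans
      (by gcongr)

end

end Pool.Agent.Q82.FB
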