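import Pool.Agent.Q82.FB3

/-!
Positivity, consistency and self-adjointness of the operators `Φ(a)`.
-/

open MeasureTheory Filter Topology
open scoped ENNReal NNReal ComplexOrder InnerProductSpace

namespace Pool.Agent.Q82.FB

noncomputable section

variable {d : ℕ} {p : ℝ≥0∞} [Fact (1 ≤ p)] {q : ℝ≥0∞} [Fact (1 ≤ q)]
  {a b : ℕ → ℕ → ℝ} {B : ℕ → ℝ}

theorem nonneg_of_tendsto {ι : Type*} {l : Filter ι} [l.NeBot] [l.IsCountablyGenerated]
    {F : ι → L d p} {f : L d p} (h : Tendsto F l (𝓝 f))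
    (hF : ∀ i, ∀ᵐ x ∂(volume : Measure (X d)), 0 ≤ F i x) :
    ∀ᵐ x ∂(volume : Measure (X d)), 0 ≤ f x := by
  obtain ⟨ns, h1, h2⟩ := (tendstoInMeasure_of_tendsto_Lp h).exists_seq_tendsto_ae'
  filter_upwards [h2, ae_all_iff.mpr fun n => hF (ns n)] with x h3 h4
  exact ge_of_tendsto' h3 h4

theorem eq_of_tendsto {ι : Type*} {l : Filter ι} [l.NeBot] [l.IsCountablyGenerated]
    {F : ι → L d p} {f : L d p} {G : ι → L d q} {g : L d q}
    (h : Tendsto F l (𝓝 f)) (h' : Tendsto G l (𝓝 g))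
    (hFG : ∀ i, (F i : X d → ℂ) =ᵐ[volume] G i) : (f : X d → ℂ) =ᵐ[volume] g :=
  tendstoInMeasure_ae_unique
    ((tendstoInMeasure_of_tendsto_Lp h).congr_left hFG) (tendstoInMeasure_of_tendsto_Lp h')

theorem Pi'_nonneg {f : L d p} (h : ∀ᵐ x ∂(volume : Measure (X d)), 0 ≤ f x) :
    ∀ᵐ x ∂(volume : Measure (X d)), 0 ≤ Pi' d p f x := by
  filter_upwards [Pi'_coe f, (qmp_smul (d := d) two_pos').ae h,
    (qmp_smul (d := d) half_pos').ae h] with x h1 h2 h3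
  rw [h1]
  refine add_nonneg (mul_nonneg ?_ h2) (mul_nonneg ?_ h3)
  · exact Complex.zero_le_real.mpr (by positivity)
  · exact Complex.zero_le_real.mpr (by positivity)

theorem Pi'_pow_nonneg {f : L d p} (h : ∀ᵐ x ∂(volume : Measure (X d)), 0 ≤ f x) (k : ℕ) :
    ∀ᵐ x ∂(volume : Measure (X d)), 0 ≤ ((Pi' d p) ^ k) f x := by
  induction k with
  | zero => simpa using h
  | succ k ih =>
      rw [pow_succ']
      exact Pi'_nonneg ih

theorem mulOp_nonneg {φ : ℕ → ℝ} (hφ : Bdd φ) (h0 : ∀ n, 0 ≤ φ n) {f : L d p}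
    (h : ∀ᵐ x ∂(volume : Measure (X d)), 0 ≤ f x) :
    ∀ᵐ x ∂(volume : Measure (X d)), 0 ≤ mulOp d p φ f x := by
  filter_upwards [mulOp_coe hφ f, h] with x h1 h2
  rw [h1]
  exact mul_nonneg (Complex.zero_le_real.mpr (h0 _)) h2

theorem Phi_nonneg (ha : Adm a B) (h0 : ∀ k n, 0 ≤ a k n) {f : L d p}
    (h : ∀ᵐ x ∂(volume : Measure (X d)), 0 ≤ f x) :
    ∀ᵐ x ∂(volume : Measure (X d)), 0 ≤ Phi d p a f x := by
  refine nonneg_of_tendsto (Phi_hasSum_apply ha f) ?_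
  intro s
  classical
  induction s using Finset.induction_on with
  | empty =>
      rw [Finset.sum_empty]
      filter_upwards [Lp.coeFn_zero ℂ p (volume : Measure (X d))] with x hx
      rw [hx]
      exact le_rfl
  | insert k s hk ih =>
      rw [Finset.sum_insert hk]
      filter_upwards [Lp.coeFn_add (mulOp d p (a k) (((Pi' d p) ^ k) f))
        (∑ i ∈ s, mulOp d p (a i) (((Pi' d p) ^ i) f)), ih,
        mulOp_nonneg (ha.bdd k) (h0 k) (Pi'_pow_nonneg h k)] with x h1 h2 h3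
      rw [h1]
      exact add_nonneg h3 h2

theorem Pi'_consistent {f : L d p} {g : L d q} (h : (f : X d → ℂ) =ᵐ[volume] g) :
    (Pi' d p f : X d → ℂ) =ᵐ[volume] Pi' d q g := by
  filter_upwards [Pi'_coe f, Pi'_coe g, (qmp_smul (d := d) two_pos').ae h,
    (qmp_smul (d := d) half_pos').ae h] with x h1 h2 h3 h4
  rw [h1, h2, h3, h4]

theorem Pi'_pow_consistent {f : L d p} {g : L d q} (h : (f : X d → ℂ) =ᵐ[volume] g) (k : ℕ) :
    (((Pi' d p) ^ k) f : X d → ℂ) =ᵐ[volume] ((Pi' d q) ^ k) g := by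
  induction k with
  | zero => simpa using h
  | succ k ih =>
      rw [pow_succ', pow_succ']
      exact Pi'_consistent ih

theorem mulOp_consistent {φ : ℕ → ℝ} (hφ : Bdd φ) {f : L d p} {g : L d q}
    (h : (f : X d → ℂ) =ᵐ[volume] g) :
    (mulOp d p φ f : X d → ℂ) =ᵐ[volume] mulOp d q φ g := by
  filter_upwards [mulOp_coe hφ f, mulOp_coe hφ g, h] with x h1 h2 h3
  rw [h1, h2, h3]

theorem Phi_consistent (ha : Adm a B) {f : L d p} {g : L d q}
    (h : (f : X d → ℂ) =ᵐ[volume] g) :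
    (Phi d p a f : X d → ℂ) =ᵐ[volume] Phi d q a g := by
  refine eq_of_tendsto (Phi_hasSum_apply ha f) (Phi_hasSum_apply ha g) ?_
  intro s
  classical
  induction s using Finset.induction_on with
  | empty =>
      rw [Finset.sum_empty, Finset.sum_empty]
      filter_upwards [Lp.coeFn_zero ℂ p (volume : Measure (X d)),
        Lp.coeFn_zero ℂ q (volume : Measure (X d))] with x hx hx'
      rw [hx, hx']
  | insert k s hk ih =>
      rw [Finset.sum_insert hk, Finset.sum_insert hk]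
      filter_upwards [Lp.coeFn_add (mulOp d p (a k) (((Pi' d p) ^ k) f))
        (∑ i ∈ s, mulOp d p (a i) (((Pi' d p) ^ i) f)),
        Lp.coeFn_add (mulOp d q (a k) (((Pi' d q) ^ k) g))
        (∑ i ∈ s, mulOp d q (a i) (((Pi' d q) ^ i) g)), ih,
        mulOp_consistent (ha.bdd k) (Pi'_pow_consistent h k)] with x h1 h2 h3 h4
      rw [h1, h2, Pi.add_apply, Pi.add_apply, h3, h4]

/-! ### Self-adjointness on `L²` -/

theorem inner_dil {s : ℝ} (hs : 0 < s) (f g : L d 2) :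
    ⟪dil d 2 s hs f, g⟫_ℂ = (((s ^ d)⁻¹ : ℝ) : ℂ) * ⟪f, dil d 2 s⁻¹ (inv_pos.mpr hs) g⟫_ℂ := by
  rw [L2.inner_def, L2.inner_def]
  have h1 := Measure.integral_comp_smul (volume : Measure (X d))
    (fun y : X d => ⟪f y, g (s⁻¹ • y)⟫_ℂ) s
  rw [finrank_euclideanSpace_fin, abs_of_pos (by positivity)] at h1
  have h2 : ∫ x : X d, ⟪dil d 2 s hs f x, g x⟫_ℂ = ∫ x : X d, ⟪f (s • x), g (s⁻¹ • (s • x))⟫_ℂ := by
    apply integral_congr_ae
    filter_upwards [dil_coe hs f] with x hx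
    rw [hx, smul_smul, inv_mul_cancel₀ hs.ne', one_smul]
  have h3 : ∫ x : X d, ⟪f x, dil d 2 s⁻¹ (inv_pos.mpr hs) g x⟫_ℂ
      = ∫ x : X d, ⟪f x, g (s⁻¹ • x)⟫_ℂ := by
    apply integral_congr_ae
    filter_upwards [dil_coe (inv_pos.mpr hs) g] with x hx
    rw [hx]
  rw [h2, h1, h3]
  rfl

theorem Pi'_inner (f g : L d 2) : ⟪Pi' d 2 f, g⟫_ℂ = ⟪f, Pi' d 2 g⟫_ℂ := by
  have e : ∀ u : L d 2, Pi' d 2 u = (((2 : ℝ) ^ d / (2 ^ d + 1) : ℝ) : ℂ) • dil d 2 2 two_pos' u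
      + ((1 / ((2 : ℝ) ^ d + 1) : ℝ) : ℂ) • dil d 2 (2 : ℝ)⁻¹ half_pos' u := fun u => rfl
  rw [e f, e g, inner_add_left, inner_add_right, inner_smul_left, inner_smul_left,
    inner_smul_right, inner_smul_right, Complex.conj_ofReal, Complex.conj_ofReal,
    inner_dil two_pos' f g, inner_dil half_pos' f g]
  have h2 : dil d 2 ((2 : ℝ)⁻¹)⁻¹ (inv_pos.mpr half_pos') g = dil d 2 2 two_pos' g := by
    congr 2
    exact inv_inv _
  have h3 : (((2 : ℝ)⁻¹ ^ d)⁻¹) = 2 ^ d := by rw [inv_pow, inv_inv]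
  rw [h2, h3]
  have h4 : ((2 : ℂ) ^ d) ≠ 0 := pow_ne_zero _ two_ne_zero
  have h5 : ((2 : ℂ) ^ d + 1) ≠ 0 := by
    have h6 : ((2 : ℝ) ^ d + 1) ≠ 0 := by positivity
    exact_mod_cast h6
  push_cast
  field_simp
  ring

theorem Pi'_selfAdjoint : IsSelfAdjoint (Pi' d 2) := by
  rw [ContinuousLinearMap.isSelfAdjoint_iff_isSymmetric]
  exact fun f g => Pi'_inner f g

theorem mulOp_selfAdjoint {φ : ℕ → ℝ} (h : Bdd φ) : IsSelfAdjoint (mulOp d 2 φ) := by
  rw [ContinuousLinearMap.isSelfAdjoint_iff_isSymmetric]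
  intro f g
  change ⟪mulOp d 2 φ f, g⟫_ℂ = ⟪f, mulOp d 2 φ g⟫_ℂ
  rw [L2.inner_def, L2.inner_def]
  apply integral_congr_ae
  filter_upwards [mulOp_coe h f, mulOp_coe h g] with x h1 h2
  rw [h1, h2]
  simp only [RCLike.inner_apply, map_mul, Complex.conj_ofReal]
  ring

theorem Phi_selfAdjoint (ha : Adm a B) : IsSelfAdjoint (Phi d 2 a) := by
  unfold Phi IsSelfAdjoint
  rw [tsum_star]
  congr 1
  ext1 k
  exact ((mulOp_selfAdjoint (ha.bdd k)).commute_iff ((Pi'_selfAdjoint).pow k)).mp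
    (Pi'_pow_comm (ha.bdd k) k).symm

end

end Pool.Agent.Q82.FB
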