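import Pool.Agent.Q82.FB4

/-!
The semigroup `U(t) = ∑_k e^{-2 t lev} (t lev)^k / k! Π^k`.
-/

open MeasureTheory Filter Topology
open scoped ENNReal NNReal ComplexOrder InnerProductSpace Nat

namespace Pool.Agent.Q82.FB

noncomputable section

/-- The scalar weights `e^{-2x} x^k / k!`. -/
def wt (x : ℝ) (k : ℕ) : ℝ := Real.exp (-2 * x) * x ^ k / (k ! : ℝ)

theorem wt_nonneg {x : ℝ} (hx : 0 ≤ x) (k : ℕ) : 0 ≤ wt x k := by
  unfold wt; positivity

theorem wt_le {x : ℝ} (hx : 0 ≤ x) (k : ℕ) : wt x k ≤ (1 / 2) ^ k := by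
  unfold wt
  have h1 := Real.pow_div_factorial_le_exp (2 * x) (by positivity) k
  have h2 : Real.exp (-2 * x) * x ^ k / (k ! : ℝ)
      = Real.exp (-2 * x) * ((2 * x) ^ k / (k ! : ℝ)) * (1 / 2) ^ k := by
    rw [mul_pow, one_div, inv_pow]
    field_simp
  have h3 : Real.exp (-2 * x) * Real.exp (2 * x) = 1 := by
    rw [← Real.exp_add]
    simp
  rw [h2]
  calc Real.exp (-2 * x) * ((2 * x) ^ k / (k ! : ℝ)) * (1 / 2) ^ k
      ≤ Real.exp (-2 * x) * Real.exp (2 * x) * (1 / 2) ^ k := by gcongr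
    _ = (1 / 2) ^ k := by rw [h3, one_mul]

theorem wt_hasSum (x : ℝ) : HasSum (wt x) (Real.exp (-x)) := by
  have h1 : HasSum (fun k : ℕ => x ^ k / (k ! : ℝ)) (Real.exp x) := by
    rw [Real.exp_eq_exp_ℝ]
    exact NormedSpace.expSeries_div_hasSum_exp x
  have h2 := h1.mul_left (Real.exp (-2 * x))
  have h3 : Real.exp (-2 * x) * Real.exp x = Real.exp (-x) := by
    rw [← Real.exp_add]
    congr 1
    ring
  rw [h3] at h2
  refine h2.congr_fun fun k => ?_
  unfold wt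
  ring

/-- The coefficient array of `U(t)`. -/
def ua (t : ℝ≥0) (k m : ℕ) : ℝ := wt ((t : ℝ) * m) k

theorem geo_summable : Summable fun k : ℕ => ((1 : ℝ) / 2) ^ k :=
  summable_geometric_of_lt_one (by norm_num) (by norm_num)

theorem ua_adm (t : ℝ≥0) : Adm (ua t) (fun k => (1 / 2) ^ k) := by
  refine ⟨geo_summable, fun k m => ?_⟩
  have h : 0 ≤ (t : ℝ) * m := by positivity
  unfold ua
  rw [abs_of_nonneg (wt_nonneg h k)]
  exact wt_le h k

variable {d : ℕ} {p : ℝ≥0∞} [Fact (1 ≤ p)]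

/-- The semigroup. -/
def Ut (d : ℕ) (p : ℝ≥0∞) [Fact (1 ≤ p)] (t : ℝ≥0) : L d p →L[ℂ] L d p := Phi d p (ua t)

/-- The level-wise semigroup `e^{-2x} exp(x Π)`. -/
def W (d : ℕ) (p : ℝ≥0∞) [Fact (1 ≤ p)] (x : ℝ) : L d p →L[ℂ] L d p :=
  ((Real.exp (-2 * x) : ℝ) : ℂ) • NormedSpace.exp ((x : ℂ) • Pi' d p)

theorem W_add (x y : ℝ) : W d p (x + y) = W d p x * W d p y := by
  unfold W
  have h1 : Commute ((x : ℂ) • Pi' d p) ((y : ℂ) • Pi' d p) :=
    ((Commute.refl (Pi' d p)).smul_left _).smul_right _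
  have h2 : NormedSpace.exp ((x : ℂ) • Pi' d p + (y : ℂ) • Pi' d p)
      = NormedSpace.exp ((x : ℂ) • Pi' d p) * NormedSpace.exp ((y : ℂ) • Pi' d p) := by
    let _ : NormedAlgebra ℚ (L d p →L[ℂ] L d p) := NormedAlgebra.restrictScalars ℚ ℂ _
    exact NormedSpace.exp_add_of_commute h1
  rw [smul_mul_smul_comm, ← h2, ← add_smul]
  congr 1
  · rw [← Complex.ofReal_mul, ← Real.exp_add]
    congr 2
    ring
  · push_cast
    rfl

theorem W_hasSum (x : ℝ) (f : L d p) :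
    HasSum (fun k => ((wt x k : ℝ) : ℂ) • ((Pi' d p) ^ k) f) (W d p x f) := by
  have h1 := NormedSpace.exp_series_hasSum_exp' (𝕂 := ℂ) ((x : ℂ) • Pi' d p)
  have h2 := (h1.const_smul ((Real.exp (-2 * x) : ℝ) : ℂ)).mapL
    (ContinuousLinearMap.apply ℂ (L d p) f)
  refine h2.congr_fun fun k => ?_
  change _ = (((Real.exp (-2 * x) : ℝ) : ℂ) • ((k ! : ℂ)⁻¹ • ((x : ℂ) • Pi' d p) ^ k)) f
  rw [smul_pow, smul_smul, smul_smul]
  change _ = (((Real.exp (-2 * x) : ℝ) : ℂ) * (k ! : ℂ)⁻¹ * (x : ℂ) ^ k) • ((Pi' d p) ^ k) f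
  congr 1
  unfold wt
  push_cast
  rw [div_eq_mul_inv]
  ring

theorem chi_Ut (t : ℝ≥0) (m : ℕ) (f : L d p) :
    chi d p m (Ut d p t f) = W d p (t * m) (chi d p m f) :=
  (chi_Phi_hasSum (ua_adm t) m f).unique (W_hasSum _ _)

theorem Ut_zero : Ut d p 0 = 1 := by
  ext1 f
  apply ext_chi
  intro m
  rw [chi_Ut]
  unfold W
  simp

theorem Ut_add (s t : ℝ≥0) : Ut d p (s + t) = Ut d p s * Ut d p t := by
  ext1 f
  apply ext_chi
  intro m
  change _ = chi d p m (Ut d p s (Ut d p t f))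
  rw [chi_Ut, chi_Ut, chi_Ut, NNReal.coe_add, add_mul, W_add]
  rfl

theorem Ut_norm_le (t : ℝ≥0) : ‖Ut d p t‖ ≤ 1 := by
  refine Phi_norm_le (ua_adm t) zero_le_one fun m => ?_
  have h : 0 ≤ (t : ℝ) * m := by positivity
  have h1 : ∀ k, |ua t k m| = wt ((t : ℝ) * m) k := fun k => abs_of_nonneg (wt_nonneg h k)
  simp_rw [h1]
  rw [(wt_hasSum _).tsum_eq]
  exact Real.exp_le_one_iff.mpr (by linarith)

theorem Ut_continuous (hp : p ≠ ∞) (f : L d p) : Continuous fun t => Ut d p t f := by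
  rw [continuous_iff_continuousAt]
  intro t0
  refine Phi_tendsto hp (fun t => ua_adm t) (ua_adm t0) (fun k m => ?_) f
  have h : Continuous fun t : ℝ≥0 => ua t k m := by
    unfold ua wt
    fun_prop
  exact h.tendsto t0

/-- The counterexample semigroup. -/
def Sg (d : ℕ) : SymSubMarkov d where
  U := fun p _ t => Ut d p t
  consistent := fun p q _ _ t f g h => Phi_consistent (ua_adm t) h
  zero := fun p _ => Ut_zero
  add := fun p _ s t => Ut_add s t
  positive := fun p _ t f h =>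
    Phi_nonneg (ua_adm t) (fun k m => wt_nonneg (by positivity) k) h
  contractive_one := fun t => Ut_norm_le t
  contractive_top := fun t => Ut_norm_le t
  continuous := fun p _ hp f => Ut_continuous hp f
  selfAdjoint := fun t => Phi_selfAdjoint (ua_adm t)

end

end Pool.Agent.Q82.FB
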