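import Pool.Agent.Q82.FB5

/-!
The generator of the semigroup on `L^p` and the resolvent.
-/

open MeasureTheory Filter Topology
open scoped ENNReal NNReal ComplexOrder InnerProductSpace Nat

namespace Pool.Agent.Q82.FB

noncomputable section

/-- Difference quotient weights. -/
def gq (x : ℝ) : ℕ → ℝ
  | 0 => if x = 0 then -2 else (Real.exp (-2 * x) - 1) / x
  | (j + 1) => Real.exp (-2 * x) * x ^ j / ((j + 1)! : ℝ)

theorem gq_abs {x : ℝ} (hx : 0 ≤ x) (k : ℕ) : |gq x k| ≤ 2 * (1 / 2) ^ k := by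
  cases k with
  | zero =>
      simp only [gq, pow_zero, mul_one]
      split_ifs with h
      · norm_num
      · have hx0 : 0 < x := lt_of_le_of_ne hx (Ne.symm h)
        have h1 := Real.add_one_le_exp (-2 * x)
        have h2 : Real.exp (-2 * x) ≤ 1 := Real.exp_le_one_iff.mpr (by linarith)
        rw [abs_div, abs_of_pos hx0, div_le_iff₀ hx0, abs_le]
        constructor <;> linarith
  | succ j =>
      have h1 := wt_le hx j
      have h2 := wt_nonneg hx j
      have h3 : gq x (j + 1) = wt x j / ((j : ℝ) + 1) := by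
        simp only [gq, wt]
        rw [Nat.factorial_succ]
        push_cast
        field_simp
      rw [h3, abs_of_nonneg (by positivity), div_le_iff₀ (by positivity), pow_succ]
      have h4 : (0 : ℝ) ≤ (1 / 2) ^ j := by positivity
      have h5 : (0 : ℝ) ≤ j := by positivity
      nlinarith [mul_nonneg h4 h5]

theorem gq_mul (x : ℝ) (k : ℕ) : gq x k * x = wt x k - if k = 0 then 1 else 0 := by
  cases k with
  | zero =>
      simp only [gq, wt, pow_zero, if_true]
      split_ifs with h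
      · rw [h]; simp
      · rw [div_mul_cancel₀ _ h]
        simp
  | succ j =>
      simp only [gq, wt]
      rw [if_neg (Nat.succ_ne_zero j), pow_succ]
      ring

theorem gq_tendsto (m k : ℕ) :
    Tendsto (fun t : ℝ≥0 => gq ((t : ℝ) * m) k) (𝓝[>] 0) (𝓝 (gq 0 k)) := by
  have hx : Tendsto (fun t : ℝ≥0 => (t : ℝ) * m) (𝓝[>] 0) (𝓝 0) := by
    have h1 : Continuous fun t : ℝ≥0 => (t : ℝ) * m := by fun_prop
    have h2 := (h1.tendsto 0).mono_left (nhdsWithin_le_nhds (s := Set.Ioi 0))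
    simpa using h2
  have hc : ContinuousAt (fun x : ℝ => gq x k) 0 := by
    cases k with
    | zero =>
        have hd : HasDerivAt (fun x : ℝ => Real.exp (-2 * x)) (-2) 0 := by
          have h3 : HasDerivAt (fun x : ℝ => -2 * x) (-2 * 1) 0 :=
            (hasDerivAt_id (0 : ℝ)).const_mul (-2)
          have h4 := h3.exp
          simpa using h4
        rw [hasDerivAt_iff_tendsto_slope] at hd
        rw [continuousAt_iff_punctured_nhds]
        have h0 : gq 0 0 = -2 := by simp [gq]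
        rw [h0]
        refine hd.congr' ?_
        filter_upwards [self_mem_nhdsWithin] with x hx'
        have hx0 : x ≠ 0 := hx'
        simp only [gq, if_neg hx0, slope_def_field]
        simp
    | succ j =>
        simp only [gq]
        fun_prop
  exact hc.tendsto.comp hx

/-- The array of the difference quotient. -/
def ga (t : ℝ≥0) (k m : ℕ) : ℝ := gq ((t : ℝ) * m) k

theorem ga_adm (t : ℝ≥0) : Adm (ga t) (fun k => 2 * (1 / 2) ^ k) :=
  ⟨geo_summable.mul_left 2, fun k m => gq_abs (by positivity) k⟩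

def gz (k _m : ℕ) : ℝ := gq 0 k

theorem gz_adm : Adm gz (fun k => 2 * (1 / 2) ^ k) :=
  ⟨geo_summable.mul_left 2, fun k _ => gq_abs le_rfl k⟩

variable {d : ℕ} {p : ℝ≥0∞} [Fact (1 ≤ p)]

theorem chi_chi (m n : ℕ) (f : L d p) :
    chi d p m (chi d p n f) = if m = n then chi d p m f else 0 := by
  have h := chi_mulOp m (ind_bdd n) f
  change chi d p m (mulOp d p (fun k => if k = n then 1 else 0) f) = _
  rw [h]
  split_ifs <;> simp

theorem quotient_eq {f w : L d p} (h : ∀ m, chi d p m w = (m : ℂ) • chi d p m f) {t : ℝ≥0}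
    (ht : 0 < t) : ((t : ℝ) : ℂ)⁻¹ • (Ut d p t f - f) = Phi d p (ga t) w := by
  have ht' : ((t : ℝ) : ℂ) ≠ 0 := by
    have : (t : ℝ) ≠ 0 := (NNReal.coe_pos.mpr ht).ne'
    exact_mod_cast this
  apply ext_chi
  intro m
  have h1 := chi_Phi_hasSum (ua_adm t) m f
  have h2 : HasSum (fun k : ℕ => if k = 0 then chi d p m f else 0) (chi d p m f) :=
    hasSum_ite_eq 0 _
  have h3 := ((h1.sub h2).const_smul (((t : ℝ) : ℂ)⁻¹))
  have h4 := chi_Phi_hasSum (ga_adm t) m w
  rw [map_smul, map_sub]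
  refine h3.unique (h4.congr_fun fun k => ?_)
  rw [h m, map_smul, smul_smul]
  have h5 := gq_mul ((t : ℝ) * m) k
  have h6 : ((ga t k m : ℝ) : ℂ) * ((t : ℝ) * m : ℂ)
      = ((ua t k m : ℝ) : ℂ) - if k = 0 then 1 else 0 := by
    unfold ga ua
    have := congrArg (fun r : ℝ => (r : ℂ)) h5
    push_cast at this
    rw [this]
    split_ifs <;> simp
  have h7 : ((ga t k m : ℝ) : ℂ) * (m : ℂ)
      = ((t : ℝ) : ℂ)⁻¹ * (((ua t k m : ℝ) : ℂ) - if k = 0 then 1 else 0) := by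
    rw [← h6]
    field_simp
  rw [h7]
  by_cases hk : k = 0
  · subst hk
    rw [if_pos rfl, if_pos rfl, pow_zero]
    change ((t : ℝ) : ℂ)⁻¹ • (((ua t 0 m : ℝ) : ℂ) • chi d p m f - chi d p m f)
      = (((t : ℝ) : ℂ)⁻¹ * (((ua t 0 m : ℝ) : ℂ) - 1)) • chi d p m f
    rw [mul_smul, sub_smul, one_smul]
  · rw [if_neg hk, if_neg hk, sub_zero, sub_zero, smul_smul]

theorem Phi_gz (w : L d p) : Phi d p gz w = Pi' d p w - (2 : ℂ) • w := by
  apply ext_chi
  intro m
  refine (chi_Phi_hasSum gz_adm m w).unique ?_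
  rw [map_sub, map_smul, chi_Pi]
  have h1 : ∑ k ∈ Finset.range 2, ((gz k m : ℝ) : ℂ) • ((Pi' d p) ^ k) (chi d p m w)
      = Pi' d p (chi d p m w) - (2 : ℂ) • chi d p m w := by
    rw [Finset.sum_range_succ, Finset.sum_range_one, pow_zero, pow_one]
    have e0 : gz 0 m = -2 := by simp [gz, gq]
    have e1 : gz 1 m = 1 := by simp [gz, gq]
    rw [e0, e1]
    change ((-2 : ℝ) : ℂ) • chi d p m w + ((1 : ℝ) : ℂ) • Pi' d p (chi d p m w) = _
    push_cast
    rw [one_smul, neg_smul]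
    abel
  rw [← h1]
  apply hasSum_sum_of_ne_finset_zero
  intro k hk
  rw [Finset.mem_range, not_lt] at hk
  obtain ⟨j, rfl⟩ : ∃ j, k = j + 2 := ⟨k - 2, by omega⟩
  have e : gz (j + 2) m = 0 := by
    simp [gz, gq]
  rw [e]
  simp

theorem quotient_tendsto (hp : p ≠ ∞) {f w : L d p}
    (h : ∀ m, chi d p m w = (m : ℂ) • chi d p m f) :
    Tendsto (fun t : ℝ≥0 => ((t : ℝ) : ℂ)⁻¹ • (Ut d p t f - f)) (𝓝[>] 0)
      (𝓝 (Pi' d p w - (2 : ℂ) • w)) := by
  rw [← Phi_gz]
  have h1 : Tendsto (fun t : ℝ≥0 => Phi d p (ga t) w) (𝓝[>] 0) (𝓝 (Phi d p gz w)) :=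
    Phi_tendsto hp (fun t => ga_adm t) gz_adm (fun k m => gq_tendsto m k) w
  refine h1.congr' ?_
  filter_upwards [self_mem_nhdsWithin] with t ht
  exact (quotient_eq h ht).symm

theorem isGen_of {f w : L d 1} (h : ∀ m, chi d 1 m w = (m : ℂ) • chi d 1 m f) :
    (Sg d).IsGen f (Pi' d 1 w - (2 : ℂ) • w) :=
  quotient_tendsto ENNReal.one_ne_top h

instance nnreal_neBot : (𝓝[>] (0 : ℝ≥0)).NeBot := inferInstance

theorem gen_level {f g : L d 1} (h : (Sg d).IsGen f g) (m : ℕ) :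
    chi d 1 m g = Pi' d 1 ((m : ℂ) • chi d 1 m f) - (2 : ℂ) • ((m : ℂ) • chi d 1 m f) := by
  have h1 : (Sg d).IsGen (chi d 1 m f)
      (Pi' d 1 ((m : ℂ) • chi d 1 m f) - (2 : ℂ) • ((m : ℂ) • chi d 1 m f)) := by
    apply isGen_of
    intro n
    rw [map_smul, chi_chi]
    split_ifs with hn
    · rw [hn]
    · simp
  have h2 : (Sg d).IsGen (chi d 1 m f) (chi d 1 m g) := by
    have h3 := ((chi d 1 m).continuous.tendsto g).comp h
    refine h3.congr fun t => ?_
    change chi d 1 m (((t : ℝ) : ℂ)⁻¹ • (Ut d 1 t f - f))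
      = ((t : ℝ) : ℂ)⁻¹ • (Ut d 1 t (chi d 1 m f) - chi d 1 m f)
    rw [map_smul, map_sub]
    congr 2
    apply ext_chi
    intro n
    have e1 : chi d 1 n (chi d 1 m (Ut d 1 t f))
        = if n = m then W d 1 (t * n) (chi d 1 n f) else 0 := by rw [chi_chi, chi_Ut]
    have e2 : chi d 1 n (Ut d 1 t (chi d 1 m f))
        = W d 1 (t * n) (if n = m then chi d 1 n f else 0) := by rw [chi_Ut, chi_chi]
    rw [e1, e2]
    split_ifs with hn
    · rfl
    · simp
  exact tendsto_nhds_unique h2 h1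

theorem IsGen_sub {f g f' g' : L d 1} (h : (Sg d).IsGen f g) (h' : (Sg d).IsGen f' g') :
    (Sg d).IsGen (f - f') (g - g') := by
  have h1 := Tendsto.sub h h'
  refine h1.congr fun t => ?_
  rw [map_sub, ← smul_sub]
  congr 1
  abel

theorem level_norm (w : L d p) : ‖w‖ ≤ ‖Pi' d p w - (2 : ℂ) • w‖ := by
  have h1 : ‖Pi' d p w‖ ≤ ‖w‖ := by
    calc ‖Pi' d p w‖ ≤ ‖Pi' d p‖ * ‖w‖ := ContinuousLinearMap.le_opNorm _ _
      _ ≤ 1 * ‖w‖ := by gcongr; exact Pi'_norm_le
      _ = ‖w‖ := one_mul _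
  have h2 : ‖(2 : ℂ) • w‖ = 2 * ‖w‖ := by rw [norm_smul]; norm_num
  have h3 := norm_sub_norm_le ((2 : ℂ) • w) (Pi' d p w)
  rw [norm_sub_rev] at h3
  linarith

/-- `V f` as a level-wise statement. -/
theorem ae_of_level {f w : L d p} (h : ∀ m, chi d p m w = (m : ℂ) • chi d p m f) :
    (w : X d → ℂ) =ᵐ[volume] fun x => ((lev x : ℝ) : ℂ) * f x := by
  have h1 := ae_all_iff.mpr fun m => chi_coe m w
  have h2 := ae_all_iff.mpr fun m => chi_coe m f
  have h3 := ae_all_iff.mpr fun m : ℕ => Lp.coeFn_smul (m : ℂ) (chi d p m f)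
  filter_upwards [h1, h2, h3] with x h4 h5 h6
  have h7 := h4 (lev x)
  rw [if_pos rfl] at h7
  rw [← h7, h (lev x), h6, Pi.smul_apply, h5, if_pos rfl, smul_eq_mul]
  push_cast
  rfl

theorem tbounded : (Sg d).TBounded (fun x => (lev x : ℝ)) := by
  intro f g h
  have hlev : ∀ m : ℕ, ‖(m : ℂ) • chi d 1 m f‖ₑ ≤ ‖chi d 1 m g‖ₑ := by
    intro m
    rw [gen_level h m, ← ofReal_norm, ← ofReal_norm]
    exact ENNReal.ofReal_le_ofReal (level_norm _)
  have hmeas : Measurable fun x : X d => (((lev x : ℝ)) : ℂ) :=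
    Complex.measurable_ofReal.comp
      ((measurable_from_top (f := fun n : ℕ => (n : ℝ))).comp lev_measurable)
  refine ⟨hmeas.aestronglyMeasurable.mul (Lp.aestronglyMeasurable f), ?_⟩
  rw [hasFiniteIntegral_iff_enorm]
  have hU : (⋃ m, (lev : X d → ℕ) ⁻¹' {m}) = Set.univ := by
    ext x
    simp
  have h1 : ∫⁻ x : X d, ‖((lev x : ℝ) : ℂ) * f x‖ₑ
      = ∑' m : ℕ, ∫⁻ x in lev ⁻¹' {m}, ‖((lev x : ℝ) : ℂ) * f x‖ₑ := by
    rw [← lintegral_iUnion (fun m => lev_measurable (measurableSet_singleton m)), hU,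
      Measure.restrict_univ]
    intro i j hij
    exact Disjoint.preimage _ (by simpa using hij)
  have h2 : ∀ m : ℕ, ∫⁻ x in lev ⁻¹' {m}, ‖((lev x : ℝ) : ℂ) * f x‖ₑ
      = ‖(m : ℂ) • chi d 1 m f‖ₑ := by
    intro m
    have e1 := enorm_chi (d := d) ENNReal.one_ne_top m ((m : ℂ) • f)
    simp only [ENNReal.toReal_one, ENNReal.rpow_one] at e1
    rw [← map_smul, e1]
    apply setLIntegral_congr_fun_ae (lev_measurable (measurableSet_singleton m))
    filter_upwards [Lp.coeFn_smul (m : ℂ) f] with x hx hx'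
    rw [hx, Pi.smul_apply, smul_eq_mul, show lev x = m from hx']
    push_cast
    rfl
  rw [h1]
  simp_rw [h2]
  have h3 := enorm_eq_tsum_chi (d := d) ENNReal.one_ne_top g
  simp only [ENNReal.toReal_one, ENNReal.rpow_one] at h3
  calc ∑' m : ℕ, ‖(m : ℂ) • chi d 1 m f‖ₑ ≤ ∑' m : ℕ, ‖chi d 1 m g‖ₑ :=
        ENNReal.tsum_le_tsum hlev
    _ = ‖g‖ₑ := h3.symm
    _ < ∞ := enorm_lt_top

end

end Pool.Agent.Q82.FB
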