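import Pool.Agent.Q82.FB6

/-!
The operators `V (λ - T)⁻¹` and their spectral radius.
-/

open MeasureTheory Filter Topology
open scoped ENNReal NNReal ComplexOrder InnerProductSpace Nat

namespace Pool.Agent.Q82.FB

noncomputable section

/-- `s = m / (λ + 2 m)`. -/
def sr (lam : ℝ) (m : ℕ) : ℝ := m / (lam + 2 * m)

theorem sr_nonneg {lam : ℝ} (hl : 0 < lam) (m : ℕ) : 0 ≤ sr lam m := by
  unfold sr; positivity

theorem sr_le {lam : ℝ} (hl : 0 < lam) (m : ℕ) : sr lam m ≤ 1 / 2 := by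
  unfold sr
  rw [div_le_div_iff₀ (by positivity) (by norm_num)]
  linarith

def ra (lam : ℝ) (k m : ℕ) : ℝ := (lam + 2 * m)⁻¹ * sr lam m ^ k

def va (lam : ℝ) (k m : ℕ) : ℝ := sr lam m ^ (k + 1)

theorem ra_adm {lam : ℝ} (hl : 0 < lam) : Adm (ra lam) (fun k => lam⁻¹ * (1 / 2) ^ k) := by
  refine ⟨geo_summable.mul_left _, fun k m => ?_⟩
  have h1 := sr_nonneg hl m
  have h2 := sr_le hl m
  unfold ra
  rw [abs_of_nonneg (by positivity)]
  have h3 : (lam + 2 * (m : ℝ))⁻¹ ≤ lam⁻¹ := by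
    apply inv_anti₀ hl
    have : (0 : ℝ) ≤ m := by positivity
    linarith
  change (lam + 2 * (m : ℝ))⁻¹ * sr lam m ^ k ≤ lam⁻¹ * (1 / 2) ^ k
  gcongr

theorem va_adm {lam : ℝ} (hl : 0 < lam) : Adm (va lam) (fun k => (1 / 2) ^ k) := by
  refine ⟨geo_summable, fun k m => ?_⟩
  have h1 := sr_nonneg hl m
  have h2 := sr_le hl m
  unfold va
  rw [abs_of_nonneg (by positivity), pow_succ]
  calc sr lam m ^ k * sr lam m ≤ (1 / 2) ^ k * 1 := by
        gcongr
        linarith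
    _ = (1 / 2) ^ k := mul_one _

variable {d : ℕ}

/-- The operator `V (λ - T)⁻¹`. -/
def Aop (d : ℕ) (lam : ℝ) : L d 1 →L[ℂ] L d 1 := Phi d 1 (va lam)

def Rop (d : ℕ) (lam : ℝ) : L d 1 →L[ℂ] L d 1 := Phi d 1 (ra lam)

theorem Aop_level {lam : ℝ} (hl : 0 < lam) (h : L d 1) (m : ℕ) :
    chi d 1 m (Aop d lam h) = (m : ℂ) • chi d 1 m (Rop d lam h) := by
  have h1 := chi_Phi_hasSum (va_adm hl) m h
  have h2 := (chi_Phi_hasSum (ra_adm hl) m h).const_smul (m : ℂ)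
  refine h1.unique (h2.congr_fun fun k => ?_)
  rw [smul_smul]
  congr 1
  have h3 : va lam k m = m * ra lam k m := by
    unfold va ra
    have h0 : sr lam m = m * (lam + 2 * (m : ℝ))⁻¹ := by
      unfold sr; rw [div_eq_mul_inv]
    rw [pow_succ]
    nth_rewrite 2 [h0]
    ring
  rw [h3]
  push_cast
  rfl

theorem resolvent_eq {lam : ℝ} (hl : 0 < lam) (h : L d 1) :
    (lam : ℂ) • Rop d lam h - (Pi' d 1 (Aop d lam h) - (2 : ℂ) • Aop d lam h) = h := by
  apply ext_chi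
  intro m
  rw [map_sub, map_sub, map_smul, map_smul, chi_Pi]
  set u := chi d 1 m h with hu
  have h1 := (chi_Phi_hasSum (ra_adm hl) m h).const_smul (lam : ℂ)
  have h2 := (chi_Phi_hasSum (va_adm hl) m h).const_smul (2 : ℂ)
  have h3 := (chi_Phi_hasSum (va_adm hl) m h).mapL (Pi' d 1)
  have h4 := h1.add h2
  have hS : HasSum (fun k => ((sr lam m ^ k : ℝ) : ℂ) • ((Pi' d 1) ^ k) u)
      ((lam : ℂ) • chi d 1 m (Phi d 1 (ra lam) h) + (2 : ℂ) • chi d 1 m (Phi d 1 (va lam) h)) := by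
    refine h4.congr_fun fun k => ?_
    rw [smul_smul, smul_smul, ← add_smul]
    congr 1
    have hne : lam + 2 * (m : ℝ) ≠ 0 := by positivity
    have e : sr lam m ^ k = lam * ra lam k m + 2 * va lam k m := by
      unfold va ra
      have h0 : lam * (lam + 2 * (m : ℝ))⁻¹ + 2 * sr lam m = 1 := by
        unfold sr; field_simp
      rw [pow_succ]
      calc sr lam m ^ k = (lam * (lam + 2 * (m : ℝ))⁻¹ + 2 * sr lam m) * sr lam m ^ k := by
            rw [h0, one_mul]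
        _ = _ := by ring
    rw [e]
    push_cast
    rfl
  have h5 : HasSum (fun k => ((sr lam m ^ (k + 1) : ℝ) : ℂ) • ((Pi' d 1) ^ (k + 1)) u)
      (Pi' d 1 (chi d 1 m (Phi d 1 (va lam) h))) := by
    refine h3.congr_fun fun k => ?_
    rw [map_smul, pow_succ' (Pi' d 1)]
    rfl
  have h6 := (hasSum_nat_add_iff (f := fun k => ((sr lam m ^ k : ℝ) : ℂ) • ((Pi' d 1) ^ k) u) 1).mp h5
  have h7 := hS.unique h6
  rw [Finset.sum_range_one, pow_zero, pow_zero] at h7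
  have h8 : ((1 : ℝ) : ℂ) • ((1 : L d 1 →L[ℂ] L d 1) u) = u := by
    rw [Complex.ofReal_one, one_smul]
    rfl
  rw [h8] at h7
  change (lam : ℂ) • chi d 1 m (Phi d 1 (ra lam) h)
    - (Pi' d 1 (chi d 1 m (Phi d 1 (va lam) h)) - (2 : ℂ) • chi d 1 m (Phi d 1 (va lam) h)) = u
  rw [sub_sub_eq_add_sub, h7]
  abel

theorem Rop_gen {lam : ℝ} (hl : 0 < lam) (h : L d 1) :
    (Sg d).IsGen (Rop d lam h) (Pi' d 1 (Aop d lam h) - (2 : ℂ) • Aop d lam h) :=
  isGen_of (Aop_level hl h)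

theorem gen_inj {lam : ℝ} (hl : 0 < lam) {u : L d 1} (h : (Sg d).IsGen u ((lam : ℂ) • u)) :
    u = 0 := by
  apply ext_chi
  intro m
  have h1 := gen_level h m
  rw [map_zero]
  set v := chi d 1 m u with hv
  rw [map_smul, ← hv, map_smul] at h1
  have h2 : ((lam + 2 * m : ℝ) : ℂ) • v = (m : ℂ) • Pi' d 1 v := by
    have h3 : (m : ℂ) • Pi' d 1 v = (lam : ℂ) • v + (2 : ℂ) • (m : ℂ) • v := by
      rw [h1]; abel
    rw [h3, smul_smul, ← add_smul]
    push_cast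
    rfl
  have h4 := congrArg norm h2
  rw [norm_smul, norm_smul, Complex.norm_real, Complex.norm_natCast, Real.norm_eq_abs,
    abs_of_pos (by positivity)] at h4
  have h5 : ‖Pi' d 1 v‖ ≤ ‖v‖ := by
    calc ‖Pi' d 1 v‖ ≤ ‖Pi' d 1‖ * ‖v‖ := ContinuousLinearMap.le_opNorm _ _
      _ ≤ 1 * ‖v‖ := by gcongr; exact Pi'_norm_le
      _ = ‖v‖ := one_mul _
  have h6 : (lam + 2 * m) * ‖v‖ ≤ m * ‖v‖ := by
    rw [h4]; gcongr
  have h7 : 0 ≤ (m : ℝ) * ‖v‖ := by positivity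
  have h8 : lam * ‖v‖ ≤ 0 := by nlinarith
  have h9 : ‖v‖ ≤ 0 := by
    by_contra hc
    push Not at hc
    nlinarith [mul_pos hl hc]
  exact norm_le_zero_iff.mp h9

theorem isVRes {lam : ℝ} (hl : 0 < lam) :
    (Sg d).IsVRes (fun x => (lev x : ℝ)) lam (Aop d lam) := by
  refine ⟨fun h => ⟨_, _, Rop_gen hl h, resolvent_eq hl h⟩, fun f g hfg => ?_⟩
  set h := (lam : ℂ) • f - g with hh
  have h1 := IsGen_sub hfg (Rop_gen hl h)
  have h2 := resolvent_eq hl h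
  have h3 : g - (Pi' d 1 (Aop d lam h) - (2 : ℂ) • Aop d lam h)
      = (lam : ℂ) • (f - Rop d lam h) := by
    rw [smul_sub]
    have h4 : g = (lam : ℂ) • f - h := by rw [hh]; abel
    have h5 : (Pi' d 1 (Aop d lam h) - (2 : ℂ) • Aop d lam h)
        = (lam : ℂ) • Rop d lam h - h := by
      have h6 := sub_eq_iff_eq_add.mp h2
      rw [h6]
      abel
    rw [h5]
    nth_rewrite 1 [h4]
    abel
  rw [h3] at h1
  have h6 : f = Rop d lam h := sub_eq_zero.mp (gen_inj hl h1)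
  have h7 := ae_of_level (Aop_level hl h)
  rw [← h6] at h7
  exact h7

end

end Pool.Agent.Q82.FB
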