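import Pool.Agent.Q82.FB7

/-!
The spectral radius of `V (λ - T)⁻¹` on `L¹` is `1`.
-/

open MeasureTheory Filter Topology
open scoped ENNReal NNReal ComplexOrder InnerProductSpace Nat

namespace Pool.Agent.Q82.FB

noncomputable section

/-- Integration as a functional on `L¹`. -/
def ell (d : ℕ) : L d 1 →L[ℂ] ℂ :=
  LinearMap.mkContinuous
    { toFun := fun f => ∫ x, f x
      map_add' := by
        intro f g
        rw [← integral_add (L1.integrable_coeFn f) (L1.integrable_coeFn g)]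
        exact integral_congr_ae (Lp.coeFn_add f g)
      map_smul' := by
        intro c f
        rw [RingHom.id_apply, ← integral_smul]
        exact integral_congr_ae (Lp.coeFn_smul c f) } 1
    (by
      intro f
      rw [one_mul, L1.norm_eq_integral_norm]
      exact norm_integral_le_integral_norm _)

variable {d : ℕ}

theorem ell_apply (f : L d 1) : ell d f = ∫ x, f x := rfl

theorem ell_dil {s : ℝ} (hs : 0 < s) (f : L d 1) :
    ell d (dil d 1 s hs f) = (((s ^ d)⁻¹ : ℝ) : ℂ) * ell d f := by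
  rw [ell_apply, ell_apply, integral_congr_ae (dil_coe hs f)]
  have h1 := Measure.integral_comp_smul (volume : Measure (X d)) (fun y : X d => f y) s
  rw [finrank_euclideanSpace_fin, abs_of_pos (by positivity)] at h1
  rw [h1]
  rfl

theorem ell_Pi (f : L d 1) : ell d (Pi' d 1 f) = ell d f := by
  have e : Pi' d 1 f = (((2 : ℝ) ^ d / (2 ^ d + 1) : ℝ) : ℂ) • dil d 1 2 two_pos' f
      + ((1 / ((2 : ℝ) ^ d + 1) : ℝ) : ℂ) • dil d 1 (2 : ℝ)⁻¹ half_pos' f := rfl
  rw [e, map_add, map_smul, map_smul, ell_dil, ell_dil, smul_eq_mul, smul_eq_mul]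
  have h3 : (((2 : ℝ)⁻¹ ^ d)⁻¹) = 2 ^ d := by rw [inv_pow, inv_inv]
  rw [h3]
  have h4 : ((2 : ℂ) ^ d) ≠ 0 := pow_ne_zero _ two_ne_zero
  have h5 : ((2 : ℂ) ^ d + 1) ≠ 0 := by
    have h6 : ((2 : ℝ) ^ d + 1) ≠ 0 := by positivity
    exact_mod_cast h6
  push_cast
  field_simp
  ring

theorem ell_Pi_pow (k : ℕ) (f : L d 1) : ell d (((Pi' d 1) ^ k) f) = ell d f := by
  induction k with
  | zero => rfl
  | succ k ih =>
      rw [pow_succ']
      exact (ell_Pi _).trans ih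

theorem sum_va {lam : ℝ} (hl : 0 < lam) (m : ℕ) :
    HasSum (fun k => va lam k m) (m / (lam + m)) := by
  have h1 := sr_nonneg hl m
  have h2 := sr_le hl m
  have h3 := (hasSum_geometric_of_lt_one h1 (by linarith : sr lam m < 1)).mul_left (sr lam m)
  have h4 : sr lam m * (1 - sr lam m)⁻¹ = m / (lam + m) := by
    unfold sr
    have e1 : lam + 2 * (m : ℝ) ≠ 0 := by positivity
    have e2 : lam + (m : ℝ) ≠ 0 := by positivity
    have e3 : 1 - (m : ℝ) / (lam + 2 * m) = (lam + m) / (lam + 2 * m) := by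
      field_simp; ring
    rw [e3]
    field_simp
  rw [h4] at h3
  refine h3.congr_fun fun k => ?_
  unfold va
  rw [pow_succ']

theorem ell_Aop {lam : ℝ} (hl : 0 < lam) (m : ℕ) (h : L d 1) :
    ell d (chi d 1 m (Aop d lam h)) = ((m / (lam + m) : ℝ) : ℂ) * ell d (chi d 1 m h) := by
  have h1 := (chi_Phi_hasSum (va_adm hl) m h).mapL (ell d)
  have h2 := (Complex.hasSum_ofReal.mpr (sum_va hl m)).mul_right (ell d (chi d 1 m h))
  refine h1.unique (h2.congr_fun fun k => ?_)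
  rw [map_smul, ell_Pi_pow, smul_eq_mul]

/-- The open annulus inside the level set `m`. -/
def ann (d m : ℕ) : Set (X d) :=
  {y | ‖y‖ ∈ Set.Ioo ((2 : ℝ) ^ (1 - 1 / (m : ℝ))) ((2 : ℝ) ^ (1 - 1 / ((m : ℝ) + 1)))}

theorem ann_open (m : ℕ) : IsOpen (ann d m) := isOpen_Ioo.preimage continuous_norm

theorem ann_nonempty (hd : 1 ≤ d) {m : ℕ} (hm : 1 ≤ m) : (ann d m).Nonempty := by
  have hm' : (1 : ℝ) ≤ m := by exact_mod_cast hm
  have h1 : (2 : ℝ) ^ (1 - 1 / (m : ℝ)) < (2 : ℝ) ^ (1 - 1 / ((m : ℝ) + 1)) := by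
    apply Real.rpow_lt_rpow_of_exponent_lt (by norm_num)
    have : 1 / ((m : ℝ) + 1) < 1 / (m : ℝ) := by
      apply one_div_lt_one_div_of_lt <;> linarith
    linarith
  obtain ⟨r, hr1, hr2⟩ := exists_between h1
  have hr0 : 0 < r := lt_trans (by positivity) hr1
  refine ⟨EuclideanSpace.single (⟨0, hd⟩ : Fin d) r, ?_⟩
  change ‖EuclideanSpace.single (⟨0, hd⟩ : Fin d) r‖
    ∈ Set.Ioo ((2 : ℝ) ^ (1 - 1 / (m : ℝ))) ((2 : ℝ) ^ (1 - 1 / ((m : ℝ) + 1)))
  rw [PiLp.norm_single, Real.norm_eq_abs, abs_of_pos hr0]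
  exact ⟨hr1, hr2⟩

theorem lev_ann {m : ℕ} (hm : 1 ≤ m) {y : X d} (hy : y ∈ ann d m) : lev y = m := by
  have hm' : (1 : ℝ) ≤ m := by exact_mod_cast hm
  obtain ⟨h1, h2⟩ := hy
  have hy0 : 0 < ‖y‖ := lt_trans (by positivity) h1
  have h3 : 1 - 1 / (m : ℝ) < Real.logb 2 ‖y‖ :=
    (Real.lt_logb_iff_rpow_lt (by norm_num) hy0).mpr h1
  have h4 : Real.logb 2 ‖y‖ < 1 - 1 / ((m : ℝ) + 1) :=
    (Real.logb_lt_iff_lt_rpow (by norm_num) hy0).mpr h2
  have h5 : 1 / (m : ℝ) ≤ 1 := by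
    rw [div_le_one (by linarith)]; exact hm'
  have h6 : 0 < 1 / ((m : ℝ) + 1) := by positivity
  have h7 : Int.fract (Real.logb 2 ‖y‖) = Real.logb 2 ‖y‖ :=
    Int.fract_eq_self.mpr ⟨by linarith, by linarith⟩
  unfold lev
  rw [h7, Nat.floor_eq_iff (by
    rw [inv_nonneg]; linarith)]
  set u := 1 - Real.logb 2 ‖y‖ with hu
  have hu1 : u < 1 / (m : ℝ) := by rw [hu]; linarith
  have hu2 : 1 / ((m : ℝ) + 1) < u := by rw [hu]; linarith
  have hu0 : 0 < u := lt_trans h6 hu2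
  constructor
  · rw [le_inv_comm₀ (by linarith) hu0, ← one_div]
    exact hu1.le
  · rw [inv_lt_comm₀ hu0 (by linarith), ← one_div]
    exact hu2

theorem ann_finite (m : ℕ) : volume (ann d m) ≠ ∞ := by
  have h : Bornology.IsBounded (ann d m) := by
    rw [isBounded_iff_forall_norm_le]
    exact ⟨_, fun y hy => hy.2.le⟩
  exact h.measure_lt_top.ne

theorem ann_pos (hd : 1 ≤ d) {m : ℕ} (hm : 1 ≤ m) : 0 < volume (ann d m) :=
  (ann_open m).measure_pos volume (ann_nonempty hd hm)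

/-- A test function on the level `m`. -/
def tst (d m : ℕ) : L d 1 :=
  indicatorConstLp 1 (ann_open (d := d) m).measurableSet (ann_finite m) (1 : ℂ)

theorem chi_tst {m : ℕ} (hm : 1 ≤ m) : chi d 1 m (tst d m) = tst d m := by
  apply Lp.ext
  have h1 := indicatorConstLp_coeFn (p := 1) (hs := (ann_open (d := d) m).measurableSet)
    (hμs := ann_finite m) (c := (1 : ℂ))
  filter_upwards [chi_coe m (tst d m), h1] with x h2 h3
  rw [h2]
  split_ifs with hx
  · rfl
  · unfold tst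
    rw [h3, Set.indicator_of_notMem]
    intro hmem
    exact hx (lev_ann hm hmem)

theorem ell_tst (hd : 1 ≤ d) {m : ℕ} (hm : 1 ≤ m) : ell d (chi d 1 m (tst d m)) ≠ 0 := by
  rw [chi_tst hm, ell_apply]
  unfold tst
  rw [integral_indicatorConstLp]
  simp only [Complex.real_smul, mul_one, ne_eq, Complex.ofReal_eq_zero]
  rw [Measure.real, ENNReal.toReal_eq_zero_iff]
  push Not
  exact ⟨(ann_pos hd hm).ne', ann_finite m⟩

theorem mem_spectrum (hd : 1 ≤ d) {lam : ℝ} (hl : 0 < lam) {m : ℕ} (hm : 1 ≤ m) :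
    ((m / (lam + m) : ℝ) : ℂ) ∈ spectrum ℂ (Aop d lam) := by
  rw [spectrum.mem_iff]
  intro hu
  obtain ⟨B, hB⟩ := hu.exists_right_inv
  set z : ℂ := ((m / (lam + m) : ℝ) : ℂ) with hz
  have h1 : ∀ h : L d 1, z • B h - Aop d lam (B h) = h := by
    intro h
    have h2 := congrArg (fun T : L d 1 →L[ℂ] L d 1 => T h) hB
    exact h2
  have h3 := h1 (tst d m)
  have h4 : ell d (chi d 1 m (z • B (tst d m) - Aop d lam (B (tst d m)))) = 0 := by
    rw [map_sub, map_sub, map_smul, map_smul, ell_Aop hl, smul_eq_mul, sub_self]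
  rw [h3] at h4
  exact ell_tst hd hm h4

theorem tst_ne (hd : 1 ≤ d) : tst d 1 ≠ 0 := by
  intro h
  have := ell_tst hd (m := 1) le_rfl
  rw [h, map_zero, map_zero] at this
  exact this rfl

theorem spectralRadius_Aop (hd : 1 ≤ d) {lam : ℝ} (hl : 0 < lam) :
    spectralRadius ℂ (Aop d lam) = 1 := by
  apply le_antisymm
  · have hnt : Nontrivial (L d 1) := ⟨⟨tst d 1, 0, tst_ne hd⟩⟩
    have h1 : ‖Aop d lam‖ ≤ 1 := by
      refine Phi_norm_le (va_adm hl) zero_le_one fun m => ?_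
      have h2 : ∀ k, |va lam k m| = va lam k m := fun k =>
        abs_of_nonneg (pow_nonneg (sr_nonneg hl m) _)
      simp_rw [h2]
      rw [(sum_va hl m).tsum_eq, div_le_one (by positivity)]
      linarith
    refine (spectrum.spectralRadius_le_nnnorm _).trans ?_
    exact_mod_cast h1
  · have h1 : ∀ m : ℕ, 1 ≤ m → ENNReal.ofReal (m / (lam + m)) ≤ spectralRadius ℂ (Aop d lam) := by
      intro m hm
      have h2 := mem_spectrum hd hl hm
      have h3 : (‖((m / (lam + m) : ℝ) : ℂ)‖₊ : ℝ≥0∞) ≤ spectralRadius ℂ (Aop d lam) :=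
        le_iSup₂ (f := fun (k : ℂ) (_ : k ∈ spectrum ℂ (Aop d lam)) => (‖k‖₊ : ℝ≥0∞)) _ h2
      refine le_trans (le_of_eq ?_) h3
      rw [← enorm_eq_nnnorm, ← ofReal_norm, Complex.norm_real, Real.norm_eq_abs,
        abs_of_nonneg (by positivity)]
    have h4 : Tendsto (fun m : ℕ => (m : ℝ) / (lam + m)) atTop (𝓝 1) := by
      have h5 := tendsto_natCast_div_add_atTop lam
      refine h5.congr fun n => ?_
      rw [add_comm]
    have h6 := (ENNReal.continuous_ofReal.tendsto 1).comp h4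
    rw [ENNReal.ofReal_one] at h6
    exact le_of_tendsto h6 ((eventually_ge_atTop 1).mono fun m hm => h1 m hm)

theorem isDelta (hd : 1 ≤ d) : (Sg d).IsDelta (fun x => (lev x : ℝ)) 1 := by
  refine ⟨Aop d, fun lam hl => isVRes hl, ?_⟩
  refine tendsto_const_nhds.congr' ?_
  filter_upwards [eventually_gt_atTop 0] with lam hl
  exact (spectralRadius_Aop hd hl).symm

end

end Pool.Agent.Q82.FB
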