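import Pool.Agent.Q82.FB8

/-!
The form bound on `L²`.
-/

open MeasureTheory Filter Topology
open scoped ENNReal NNReal ComplexOrder InnerProductSpace

namespace Pool.Agent.Q82.FB

noncomputable section

variable {d : ℕ}

/-- The truncation indicator `1_{n < N}`. -/
def tr (N n : ℕ) : ℝ := if n < N then 1 else 0

theorem tr_bdd (N : ℕ) : Bdd (tr N) := ⟨1, fun n => by unfold tr; split_ifs <;> simp⟩

def trc (N n : ℕ) : ℝ := if n < N then 0 else 1

theorem trc_bdd (N : ℕ) : Bdd (trc N) := ⟨1, fun n => by unfold trc; split_ifs <;> simp⟩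

def vt (N n : ℕ) : ℝ := if n < N then (n : ℝ) else 0

theorem vt_bdd (N : ℕ) : Bdd (vt N) := by
  refine ⟨N, fun n => ?_⟩
  unfold vt
  split_ifs with h
  · rw [abs_of_nonneg (by positivity)]
    exact_mod_cast h.le
  · simp

def sv (N n : ℕ) : ℝ := if n < N then Real.sqrt n else 0

theorem sv_bdd (N : ℕ) : Bdd (sv N) := by
  refine ⟨Real.sqrt N, fun n => ?_⟩
  unfold sv
  split_ifs with h
  · rw [abs_of_nonneg (by positivity)]
    exact Real.sqrt_le_sqrt (by exact_mod_cast h.le)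
  · rw [abs_zero]; positivity

theorem Ut_comm {φ : ℕ → ℝ} (h : Bdd φ) (t : ℝ≥0) (f : L d 2) :
    Ut d 2 t (mulOp d 2 φ f) = mulOp d 2 φ (Ut d 2 t f) := by
  apply ext_chi
  intro m
  rw [chi_Ut, chi_mulOp m h, chi_mulOp m h, chi_Ut, map_smul]

theorem tr_add (N : ℕ) (f : L d 2) : mulOp d 2 (tr N) f + mulOp d 2 (trc N) f = f := by
  rw [← mulOp_add (tr_bdd N) (trc_bdd N)]
  have : (fun n => tr N n + trc N n) = fun _ => (1 : ℝ) := by
    ext n
    unfold tr trc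
    split_ifs <;> simp
  rw [this, mulOp_one]
  rfl

theorem inner_mulOp {φ : ℕ → ℝ} (h : Bdd φ) (f g : L d 2) :
    ⟪mulOp d 2 φ f, g⟫_ℂ = ⟪f, mulOp d 2 φ g⟫_ℂ := by
  have h1 := (ContinuousLinearMap.isSelfAdjoint_iff_isSymmetric.mp (mulOp_selfAdjoint (d := d) h))
  exact h1 f g

theorem tr_trc (N : ℕ) (f : L d 2) : mulOp d 2 (tr N) (mulOp d 2 (trc N) f) = 0 := by
  apply ext_chi
  intro m
  rw [chi_mulOp m (tr_bdd N), chi_mulOp m (trc_bdd N), map_zero, smul_smul]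
  have : ((tr N m : ℝ) : ℂ) * ((trc N m : ℝ) : ℂ) = 0 := by
    unfold tr trc
    split_ifs <;> simp
  rw [this, zero_smul]

theorem defect_nonneg (t : ℝ≥0) (f : L d 2) : 0 ≤ (⟪f - Ut d 2 t f, f⟫_ℂ).re := by
  rw [inner_sub_left, Complex.sub_re]
  have h1 : (⟪f, f⟫_ℂ).re = ‖f‖ ^ 2 := by
    rw [inner_self_eq_norm_sq_to_K]
    norm_cast
  have h2 : (⟪Ut d 2 t f, f⟫_ℂ).re ≤ ‖f‖ ^ 2 := by
    calc (⟪Ut d 2 t f, f⟫_ℂ).re ≤ ‖⟪Ut d 2 t f, f⟫_ℂ‖ := Complex.re_le_norm _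
      _ ≤ ‖Ut d 2 t f‖ * ‖f‖ := norm_inner_le_norm _ _
      _ ≤ (1 * ‖f‖) * ‖f‖ := by
          gcongr
          calc ‖Ut d 2 t f‖ ≤ ‖Ut d 2 t‖ * ‖f‖ := ContinuousLinearMap.le_opNorm _ _
            _ ≤ 1 * ‖f‖ := by gcongr; exact Ut_norm_le t
      _ = ‖f‖ ^ 2 := by ring
  rw [h1]
  linarith

/-- Truncation decreases the defect. -/
theorem defect_trunc (t : ℝ≥0) (N : ℕ) (f : L d 2) :
    (⟪mulOp d 2 (tr N) f - Ut d 2 t (mulOp d 2 (tr N) f), mulOp d 2 (tr N) f⟫_ℂ).re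
      ≤ (⟪f - Ut d 2 t f, f⟫_ℂ).re := by
  set P := mulOp d 2 (tr N) f with hP
  set Q := mulOp d 2 (trc N) f with hQ
  have hf : f = P + Q := (tr_add N f).symm
  have hPQ : ∀ g : L d 2, ⟪mulOp d 2 (tr N) g, Q⟫_ℂ = 0 := by
    intro g
    rw [inner_mulOp (tr_bdd N), hQ, tr_trc, inner_zero_right]
  have hQP : ∀ g : L d 2, ⟪mulOp d 2 (trc N) g, P⟫_ℂ = 0 := by
    intro g
    rw [hP, ← inner_mulOp (tr_bdd N), tr_trc, inner_zero_left]
  have e : ⟪f - Ut d 2 t f, f⟫_ℂ = ⟪P - Ut d 2 t P, P⟫_ℂ + ⟪Q - Ut d 2 t Q, Q⟫_ℂ := by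
    have h1 : ⟪P - Ut d 2 t P, Q⟫_ℂ = 0 := by
      have : P - Ut d 2 t P = mulOp d 2 (tr N) (f - Ut d 2 t f) := by
        rw [hP, Ut_comm (tr_bdd N), map_sub]
      rw [this]
      exact hPQ _
    have h2 : ⟪Q - Ut d 2 t Q, P⟫_ℂ = 0 := by
      have : Q - Ut d 2 t Q = mulOp d 2 (trc N) (f - Ut d 2 t f) := by
        rw [hQ, Ut_comm (trc_bdd N), map_sub]
      rw [this]
      exact hQP _
    have h3 : f - Ut d 2 t f = (P - Ut d 2 t P) + (Q - Ut d 2 t Q) := by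
      nth_rewrite 1 2 [hf]
      rw [map_add]
      abel
    rw [h3]
    nth_rewrite 1 [hf]
    rw [inner_add_left, inner_add_right, inner_add_right, h1, h2]
    ring
  rw [e, Complex.add_re]
  have := defect_nonneg (d := d) t Q
  linarith

theorem limit_lower (N : ℕ) (f : L d 2) :
    (2 - rho d) * ‖mulOp d 2 (sv N) f‖ ^ 2
      ≤ -(⟪Pi' d 2 (mulOp d 2 (vt N) f) - (2 : ℂ) • mulOp d 2 (vt N) f,
          mulOp d 2 (tr N) f⟫_ℂ).re := by
  set v := mulOp d 2 (sv N) f with hv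
  have h1 : mulOp d 2 (vt N) f = mulOp d 2 (sv N) v := by
    have h2 := mulOp_mul (d := d) (p := 2) (sv_bdd N) (sv_bdd N)
    have h3 := congrArg (fun T : L d 2 →L[ℂ] L d 2 => T f) h2
    have h4 : (fun n => sv N n * sv N n) = vt N := by
      ext n
      unfold sv vt
      split_ifs
      · exact Real.mul_self_sqrt (by positivity)
      · simp
    rw [h4] at h3
    exact h3.symm
  have h5 : mulOp d 2 (sv N) (mulOp d 2 (tr N) f) = v := by
    have h2 := mulOp_mul (d := d) (p := 2) (sv_bdd N) (tr_bdd N)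
    have h3 := congrArg (fun T : L d 2 →L[ℂ] L d 2 => T f) h2
    have h4 : (fun n => sv N n * tr N n) = sv N := by
      ext n
      unfold sv tr
      split_ifs <;> simp
    rw [h4] at h3
    exact h3
  have h6 : Pi' d 2 (mulOp d 2 (sv N) v) = mulOp d 2 (sv N) (Pi' d 2 v) := by
    have := (Pi'_comm (d := d) (p := 2) (sv_bdd N)).eq
    exact congrArg (fun T : L d 2 →L[ℂ] L d 2 => T v) this
  rw [h1, inner_sub_left, inner_smul_left, h6, inner_mulOp (sv_bdd N), inner_mulOp (sv_bdd N), h5]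
  have h7 : ⟪v, v⟫_ℂ = ((‖v‖ ^ 2 : ℝ) : ℂ) := by
    rw [inner_self_eq_norm_sq_to_K]
    norm_cast
  have h8 : (⟪Pi' d 2 v, v⟫_ℂ).re ≤ rho d * ‖v‖ ^ 2 := by
    calc (⟪Pi' d 2 v, v⟫_ℂ).re ≤ ‖⟪Pi' d 2 v, v⟫_ℂ‖ := Complex.re_le_norm _
      _ ≤ ‖Pi' d 2 v‖ * ‖v‖ := norm_inner_le_norm _ _
      _ ≤ (rho d * ‖v‖) * ‖v‖ := by
          gcongr
          calc ‖Pi' d 2 v‖ ≤ ‖Pi' d 2‖ * ‖v‖ := ContinuousLinearMap.le_opNorm _ _
            _ ≤ rho d * ‖v‖ := by gcongr; exact Pi'_norm_two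
      _ = rho d * ‖v‖ ^ 2 := by ring
  rw [h7, Complex.sub_re]
  have h9 : ((starRingEnd ℂ) (2 : ℂ) * ((‖v‖ ^ 2 : ℝ) : ℂ)).re = 2 * ‖v‖ ^ 2 := by
    have : (starRingEnd ℂ) (2 : ℂ) = ((2 : ℝ) : ℂ) := by
      rw [show (2 : ℂ) = ((2 : ℝ) : ℂ) by norm_num, Complex.conj_ofReal]
    rw [this, ← Complex.ofReal_mul, Complex.ofReal_re]
  rw [h9]
  linarith

theorem form_lower (N : ℕ) (f : L d 2) :
    ENNReal.ofReal ((2 - rho d) * ‖mulOp d 2 (sv N) f‖ ^ 2) ≤ (Sg d).form f := by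
  set P := mulOp d 2 (tr N) f with hP
  set w := mulOp d 2 (vt N) f with hw
  have hlev : ∀ m, chi d 2 m w = (m : ℂ) • chi d 2 m P := by
    intro m
    rw [hw, hP, chi_mulOp m (vt_bdd N), chi_mulOp m (tr_bdd N), smul_smul]
    congr 1
    unfold vt tr
    split_ifs <;> simp
  have h1 := quotient_tendsto (d := d) (p := 2) (by norm_num) hlev
  have h2 : Tendsto (fun t : ℝ≥0 => (t : ℝ)⁻¹ * (⟪P - Ut d 2 t P, P⟫_ℂ).re) (𝓝[>] 0)
      (𝓝 (-(⟪Pi' d 2 w - (2 : ℂ) • w, P⟫_ℂ).re)) := by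
    have h3 := (h1.inner tendsto_const_nhds (g := fun _ : ℝ≥0 => P) (y := P) (𝕜 := ℂ))
    have h4 := ((Complex.continuous_re.tendsto _).comp h3).neg
    refine h4.congr fun t => ?_
    change -(⟪((t : ℝ) : ℂ)⁻¹ • (Ut d 2 t P - P), P⟫_ℂ).re = _
    rw [inner_smul_left, ← Complex.ofReal_inv, Complex.conj_ofReal, Complex.re_ofReal_mul,
      ← neg_sub P, inner_neg_left, Complex.neg_re]
    ring
  have h5 := limit_lower N f
  rw [← hP, ← hw] at h5
  have h6 := (ENNReal.continuous_ofReal.tendsto _).comp h2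
  refine (ENNReal.ofReal_le_ofReal h5).trans ?_
  refine le_of_tendsto h6 ?_
  filter_upwards [self_mem_nhdsWithin] with t ht
  have ht0 : 0 < t := ht
  have ht' : (0 : ℝ) < (t : ℝ) := NNReal.coe_pos.mpr ht0
  have h7 : ENNReal.ofReal ((t : ℝ)⁻¹ * (⟪f - (Sg d).U 2 t f, f⟫_ℂ).re) ≤ (Sg d).form f :=
    le_iSup₂ (f := fun (t : ℝ≥0) (_ : 0 < t) =>
      ENNReal.ofReal ((t : ℝ)⁻¹ * (⟪f - (Sg d).U 2 t f, f⟫_ℂ).re)) t ht0
  refine le_trans (ENNReal.ofReal_le_ofReal ?_) h7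
  exact mul_le_mul_of_nonneg_left (defect_trunc t N f) (by positivity)

theorem norm_sv (N : ℕ) (f : L d 2) :
    ENNReal.ofReal (‖mulOp d 2 (sv N) f‖ ^ 2)
      = ∫⁻ x : X d, ENNReal.ofReal (vt N (lev x) * ‖f x‖ ^ 2) := by
  rw [ENNReal.ofReal_pow (norm_nonneg _), ofReal_norm, Lp.enorm_def,
    eLpNorm_eq_lintegral_rpow_enorm_toReal (by norm_num) (by norm_num)]
  rw [← ENNReal.rpow_natCast, ← ENNReal.rpow_mul]
  have e : 1 / (2 : ℝ≥0∞).toReal * ((2 : ℕ) : ℝ) = 1 := by simp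
  rw [e, ENNReal.rpow_one]
  apply lintegral_congr_ae
  filter_upwards [mulOp_coe (sv_bdd N) f] with x hx
  rw [hx, enorm_mul, ← ofReal_norm, ← ofReal_norm, Complex.norm_real,
    ← ENNReal.ofReal_mul (norm_nonneg _)]
  have e2 : (2 : ℝ≥0∞).toReal = ((2 : ℕ) : ℝ) := by simp
  rw [e2, ENNReal.rpow_natCast, ← ENNReal.ofReal_pow (by positivity), mul_pow]
  congr 2
  unfold sv vt
  split_ifs
  · rw [Real.norm_eq_abs, sq_abs, Real.sq_sqrt (by positivity)]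
  · simp

theorem form_bound (hd : 1 ≤ d) (f : L d 2) :
    ∫⁻ x : X d, ENNReal.ofReal ((lev x : ℝ) * ‖f x‖ ^ 2)
      ≤ ENNReal.ofReal (1 / (2 - rho d)) * (Sg d).form f := by
  have hr : 0 < 2 - rho d := by linarith [rho_lt_one hd]
  have h1 : ∀ N, ∫⁻ x : X d, ENNReal.ofReal (vt N (lev x) * ‖f x‖ ^ 2)
      ≤ ENNReal.ofReal (1 / (2 - rho d)) * (Sg d).form f := by
    intro N
    rw [← norm_sv]
    have h2 := form_lower N f
    rw [ENNReal.ofReal_mul hr.le] at h2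
    calc ENNReal.ofReal (‖mulOp d 2 (sv N) f‖ ^ 2)
        = ENNReal.ofReal (1 / (2 - rho d)) * (ENNReal.ofReal (2 - rho d)
          * ENNReal.ofReal (‖mulOp d 2 (sv N) f‖ ^ 2)) := by
          rw [← mul_assoc, ← ENNReal.ofReal_mul (by positivity), one_div,
            inv_mul_cancel₀ hr.ne', ENNReal.ofReal_one, one_mul]
      _ ≤ _ := by gcongr
  have hmono : Monotone fun (N : ℕ) (x : X d) => ENNReal.ofReal (vt N (lev x) * ‖f x‖ ^ 2) := by
    intro M N hMN x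
    apply ENNReal.ofReal_le_ofReal
    apply mul_le_mul_of_nonneg_right _ (by positivity)
    unfold vt
    split_ifs with h1 h2
    · exact le_rfl
    · omega
    · positivity
    · exact le_rfl
  have hmeas : ∀ N, Measurable fun x : X d => ENNReal.ofReal (vt N (lev x) * ‖f x‖ ^ 2) := by
    intro N
    apply ENNReal.measurable_ofReal.comp
    exact ((measurable_from_top (f := vt N)).comp lev_measurable).mul
      ((Lp.stronglyMeasurable f).measurable.norm.pow_const 2)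
  have h3 : ∀ x : X d, ENNReal.ofReal ((lev x : ℝ) * ‖f x‖ ^ 2)
      = ⨆ N, ENNReal.ofReal (vt N (lev x) * ‖f x‖ ^ 2) := by
    intro x
    apply le_antisymm
    · refine le_iSup_of_le (lev x + 1) ?_
      unfold vt
      rw [if_pos (Nat.lt_succ_self _)]
    · refine iSup_le fun N => ENNReal.ofReal_le_ofReal ?_
      apply mul_le_mul_of_nonneg_right _ (by positivity)
      unfold vt
      split_ifs
      · exact le_rfl
      · positivity
  simp_rw [h3]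
  rw [lintegral_iSup hmeas hmono]
  exact iSup_le h1

theorem isFormBound (hd : 1 ≤ d) :
    (Sg d).IsFormBound (fun x => (lev x : ℝ)) (1 / (2 - rho d)) := by
  have hr : 0 < 2 - rho d := by linarith [rho_lt_one hd]
  refine ⟨by positivity, 0, le_rfl, fun φ _ => ?_⟩
  rw [zero_mul, ENNReal.ofReal_zero, add_zero]
  exact form_bound hd φ

theorem formBound_lt (hd : 1 ≤ d) :
    sInf {a : ℝ | (Sg d).IsFormBound (fun x => (lev x : ℝ)) a} < 1 := by
  have h1 : sInf {a : ℝ | (Sg d).IsFormBound (fun x => (lev x : ℝ)) a} ≤ 1 / (2 - rho d) :=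
    csInf_le ⟨0, fun a ha => ha.1⟩ (isFormBound hd)
  refine lt_of_le_of_lt h1 ?_
  have hr := rho_lt_one hd
  rw [div_lt_one (by linarith)]
  linarith

end

end Pool.Agent.Q82.FB
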