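import Mathlib

/-!
# Symmetric sub-Markovian semigroups, `L¹` generator, spectral radius and form bound

Definitions for the problem MP_62a15f_an.
-/

open MeasureTheory Filter Topology
open scoped ENNReal NNReal ComplexOrder InnerProductSpace

namespace Pool.Agent.Q82.FB

noncomputable section

/-- The space `ℝ^d`. -/
abbrev X (d : ℕ) := EuclideanSpace ℝ (Fin d)

/-- The complex space `L^p(ℝ^d)` with Lebesgue measure. -/
abbrev L (d : ℕ) (p : ℝ≥0∞) := Lp ℂ p (volume : Measure (X d))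

/-- A symmetric sub-Markovian semigroup on `ℝ^d`: a consistent family of semigroups `U p` on
`L^p(ℝ^d)`, `1 ≤ p ≤ ∞`, of positive operators, contractive on `L¹` and on `L^∞`, strongly
continuous on `L^p` for `p < ∞`, self-adjoint on `L²`. -/
structure SymSubMarkov (d : ℕ) where
  /-- the semigroup on `L^p` -/
  U : ∀ (p : ℝ≥0∞) [Fact (1 ≤ p)], ℝ≥0 → (L d p →L[ℂ] L d p)
  consistent : ∀ (p q : ℝ≥0∞) [Fact (1 ≤ p)] [Fact (1 ≤ q)] (t : ℝ≥0) (f : L d p) (g : L d q),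
    (f : X d → ℂ) =ᵐ[volume] g → (U p t f : X d → ℂ) =ᵐ[volume] U q t g
  zero : ∀ (p : ℝ≥0∞) [Fact (1 ≤ p)], U p 0 = 1
  add : ∀ (p : ℝ≥0∞) [Fact (1 ≤ p)] (s t : ℝ≥0), U p (s + t) = U p s * U p t
  positive : ∀ (p : ℝ≥0∞) [Fact (1 ≤ p)] (t : ℝ≥0) (f : L d p),
    (∀ᵐ x ∂(volume : Measure (X d)), 0 ≤ f x) →
      ∀ᵐ x ∂(volume : Measure (X d)), 0 ≤ U p t f x
  contractive_one : ∀ t, ‖U 1 t‖ ≤ 1
  contractive_top : ∀ t, ‖U ∞ t‖ ≤ 1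
  continuous : ∀ (p : ℝ≥0∞) [Fact (1 ≤ p)], p ≠ ∞ → ∀ f : L d p, Continuous fun t => U p t f
  selfAdjoint : ∀ t, IsSelfAdjoint (U 2 t)

variable {d : ℕ}

/-- `f` is in the domain of the generator `T` of the semigroup on `L¹`, and `T f = g`. -/
def SymSubMarkov.IsGen (S : SymSubMarkov d) (f g : L d 1) : Prop :=
  Tendsto (fun t : ℝ≥0 => ((t : ℝ) : ℂ)⁻¹ • (S.U 1 t f - f)) (𝓝[>] 0) (𝓝 g)

/-- `V` is `T`-bounded in `L¹`: for every `f` in the domain of `T`, `V f` is in `L¹`. -/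
def SymSubMarkov.TBounded (S : SymSubMarkov d) (V : X d → ℝ) : Prop :=
  ∀ f g : L d 1, S.IsGen f g → Integrable (fun x => (V x : ℂ) * f x) volume

/-- The bounded operator `A` on `L¹` is `V (λ - T)⁻¹`: the operator `λ - T` maps the domain
of `T` onto `L¹`, and `A (λ f - T f) = V f` for every `f` in the domain of `T`. -/
def SymSubMarkov.IsVRes (S : SymSubMarkov d) (V : X d → ℝ) (lam : ℝ) (A : L d 1 →L[ℂ] L d 1) :
    Prop :=
  (∀ h : L d 1, ∃ f g : L d 1, S.IsGen f g ∧ (lam : ℂ) • f - g = h) ∧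
    ∀ f g : L d 1, S.IsGen f g →
      (A ((lam : ℂ) • f - g) : X d → ℂ) =ᵐ[volume] fun x => (V x : ℂ) * f x

/-- `δ = lim_{λ → ∞} r (V (λ - T)⁻¹)`, where `r` is the spectral radius in `L¹`. -/
def SymSubMarkov.IsDelta (S : SymSubMarkov d) (V : X d → ℝ) (δ : ℝ≥0∞) : Prop :=
  ∃ A : ℝ → (L d 1 →L[ℂ] L d 1), (∀ lam : ℝ, 0 < lam → S.IsVRes V lam (A lam)) ∧
    Tendsto (fun lam : ℝ => spectralRadius ℂ (A lam)) atTop (𝓝 δ)

/-- The closed quadratic form `q(φ) = ‖(-T₂)^{1/2} φ‖²` of the semigroup on `L²`, with value `∞`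
outside the form domain: `q(φ) = sup_{t>0} t⁻¹ ⟨φ - U(t) φ, φ⟩`. -/
def SymSubMarkov.form (S : SymSubMarkov d) (φ : L d 2) : ℝ≥0∞ :=
  ⨆ (t : ℝ≥0) (_ : 0 < t), ENNReal.ofReal ((t : ℝ)⁻¹ * (⟪φ - S.U 2 t φ, φ⟫_ℂ).re)

/-- The number `a` is a form bound of `V`: there is `b ≥ 0` with
`∫ V |φ|² ≤ a q(φ) + b ‖φ‖²` for all `φ` in the form domain. -/
def SymSubMarkov.IsFormBound (S : SymSubMarkov d) (V : X d → ℝ) (a : ℝ) : Prop :=
  0 ≤ a ∧ ∃ b : ℝ, 0 ≤ b ∧ ∀ φ : L d 2, S.form φ < ∞ →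
    ∫⁻ x, ENNReal.ofReal (V x * ‖φ x‖ ^ 2)
      ≤ ENNReal.ofReal a * S.form φ + ENNReal.ofReal (b * ‖φ‖ ^ 2)

end

end Pool.Agent.Q82.FB
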