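import Mathlib

/-!
# Fourier decomposition properties on the circle and on the line: definitions
-/

open MeasureTheory Filter Topology FourierTransform
open scoped ENNReal NNReal SchwartzMap

namespace Pool.Agent.Q82.FDec

universe u

/-- A partition of a preordered set into (nonempty) intervals, i.e. order-connected sets. -/
def IsIntervalPartition {α : Type} [Preorder α] (P : Set (Set α)) : Prop :=
  Setoid.IsPartition P ∧ ∀ I ∈ P, I.OrdConnected

/-- The `ℓ^q`-sum of a family of numbers in `[0, ∞]` (the supremum if `q = ∞`). -/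
noncomputable def lq (q : ℝ≥0∞) {ι : Type} (a : ι → ℝ≥0∞) : ℝ≥0∞ :=
  open Classical in
  if q = ∞ then ⨆ i, a i else (∑' i, a i ^ q.toReal) ^ (1 / q.toReal)

section

variable {X : Type u} [NormedAddCommGroup X] [NormedSpace ℂ X]

/-- The trigonometric polynomial with coefficients `c`. -/
noncomputable def trig (c : ℤ →₀ X) (t : UnitAddCircle) : X :=
  ∑ n ∈ c.support, fourier n t • c n

/-- `X`-valued trigonometric polynomials on the circle. -/
def IsTrigPoly (f : UnitAddCircle → X) : Prop := ∃ c : ℤ →₀ X, f = trig c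

/-- `D_I f = ∑_{n ∈ I} f^(n) e_n` for a function on the circle. -/
noncomputable def circleProj (I : Set ℤ) (f : UnitAddCircle → X) (t : UnitAddCircle) : X :=
  open Classical in
  ∑' n : ℤ, if n ∈ I then fourier n t • fourierCoeff f n else 0

/-- `D_I f = F⁻¹ (1_I F f)` for a function on the line. -/
noncomputable def lineProj (I : Set ℝ) (f : ℝ → X) : ℝ → X := 𝓕⁻ (I.indicator (𝓕 f))

/-- The class `S_c(ℝ; X)`: finite sums `∑ φ_j x_j` with `φ_j` a Schwartz function whose
Fourier transform has compact support. -/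
def IsSc (f : ℝ → X) : Prop :=
  ∃ (m : ℕ) (φ : Fin m → 𝓢(ℝ, ℂ)) (x : Fin m → X),
    (∀ j, HasCompactSupport (𝓕 (φ j : ℝ → ℂ))) ∧ f = fun t => ∑ j, φ j t • x j

end

/-- Upper `ℓ^q(L^p)`-decompositions on the circle. -/
def UpperCircle (X : Type u) [NormedAddCommGroup X] [NormedSpace ℂ X] (p q : ℝ≥0∞) : Prop :=
  ∃ U : ℝ≥0, 0 < U ∧ ∀ P : Set (Set ℤ), IsIntervalPartition P →
    ∀ f : UnitAddCircle → X, IsTrigPoly f →
      eLpNorm f p volume ≤ U * lq q (fun I : P => eLpNorm (circleProj (I : Set ℤ) f) p volume)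

/-- Lower `ℓ^q(L^p)`-decompositions on the circle. -/
def LowerCircle (X : Type u) [NormedAddCommGroup X] [NormedSpace ℂ X] (p q : ℝ≥0∞) : Prop :=
  ∃ L : ℝ≥0, 0 < L ∧ ∀ P : Set (Set ℤ), IsIntervalPartition P →
    ∀ f : UnitAddCircle → X, IsTrigPoly f →
      lq q (fun I : P => eLpNorm (circleProj (I : Set ℤ) f) p volume) ≤ L * eLpNorm f p volume

/-- Upper `ℓ^q(L^p)`-decompositions on the line, for the interval partitions in a class `C`. -/
def UpperLine (C : Set (Set ℝ) → Prop) (X : Type u) [NormedAddCommGroup X] [NormedSpace ℂ X]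
    (p q : ℝ≥0∞) : Prop :=
  ∃ U : ℝ≥0, 0 < U ∧ ∀ P : Set (Set ℝ), IsIntervalPartition P → C P →
    ∀ f : ℝ → X, IsSc f →
      eLpNorm f p volume ≤ U * lq q (fun I : P => eLpNorm (lineProj (I : Set ℝ) f) p volume)

/-- Lower `ℓ^q(L^p)`-decompositions on the line, for the interval partitions in a class `C`. -/
def LowerLine (C : Set (Set ℝ) → Prop) (X : Type u) [NormedAddCommGroup X] [NormedSpace ℂ X]
    (p q : ℝ≥0∞) : Prop :=
  ∃ L : ℝ≥0, 0 < L ∧ ∀ P : Set (Set ℝ), IsIntervalPartition P → C P →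
    ∀ f : ℝ → X, IsSc f →
      lq q (fun I : P => eLpNorm (lineProj (I : Set ℝ) f) p volume) ≤ L * eLpNorm f p volume

/-- All members have positive length (contain two different points). -/
def Nondegenerate (P : Set (Set ℝ)) : Prop := ∀ I ∈ P, I.Nontrivial

/-! ## The `ℓ^q`-sum -/

theorem lq_top {ι : Type} (a : ι → ℝ≥0∞) : lq ∞ a = ⨆ i, a i := by simp [lq]

theorem lq_of_ne {q : ℝ≥0∞} (hq : q ≠ ∞) {ι : Type} (a : ι → ℝ≥0∞) :
    lq q a = (∑' i, a i ^ q.toReal) ^ (1 / q.toReal) := by simp [lq, hq]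

theorem toReal_pos_of {q : ℝ≥0∞} (h1 : 1 ≤ q) (hq : q ≠ ∞) : 0 < q.toReal :=
  ENNReal.toReal_pos (by
    intro h
    rw [h] at h1
    exact absurd h1 (by simp)) hq

theorem lq_mono {q : ℝ≥0∞} (h1 : 1 ≤ q) {ι : Type} {a b : ι → ℝ≥0∞} (h : ∀ i, a i ≤ b i) :
    lq q a ≤ lq q b := by
  by_cases hq : q = ∞
  · subst hq
    rw [lq_top, lq_top]
    exact iSup_mono h
  · rw [lq_of_ne hq, lq_of_ne hq]
    have := toReal_pos_of h1 hq
    gcongr with i
    exact h i

theorem lq_const_mul {q : ℝ≥0∞} (h1 : 1 ≤ q) {ι : Type} (a : ι → ℝ≥0∞) (c : ℝ≥0∞) :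
    lq q (fun i => c * a i) = c * lq q a := by
  by_cases hq : q = ∞
  · subst hq
    rw [lq_top, lq_top, ENNReal.mul_iSup]
  · rw [lq_of_ne hq, lq_of_ne hq]
    have h0 := toReal_pos_of h1 hq
    simp_rw [ENNReal.mul_rpow_of_nonneg _ _ h0.le]
    rw [ENNReal.tsum_mul_left, ENNReal.mul_rpow_of_nonneg _ _ (by positivity)]
    congr 1
    rw [← ENNReal.rpow_mul, mul_one_div_cancel h0.ne', ENNReal.rpow_one]

theorem le_lq {q : ℝ≥0∞} (h1 : 1 ≤ q) {ι : Type} (a : ι → ℝ≥0∞) (i : ι) : a i ≤ lq q a := by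
  by_cases hq : q = ∞
  · subst hq
    rw [lq_top]
    exact le_iSup a i
  · rw [lq_of_ne hq]
    have h0 := toReal_pos_of h1 hq
    calc a i = (a i ^ q.toReal) ^ (1 / q.toReal) := by
          rw [← ENNReal.rpow_mul, mul_one_div_cancel h0.ne', ENNReal.rpow_one]
      _ ≤ _ := by
          gcongr
          exact ENNReal.le_tsum i

/-- Reindexing. -/
theorem lq_family {q : ℝ≥0∞} (h1 : 1 ≤ q) {α : Type} {ι : Type} (I : ι → Set α)
    (hd : Pairwise (Function.onFun Disjoint I)) (a : Set α → ℝ≥0∞) (h0 : a ∅ = 0) :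
    lq q (fun J : {J | J ∈ Set.range I ∧ J.Nonempty} => a J) = lq q (fun i => a (I i)) := by
  have hex : ∀ J : {J | J ∈ Set.range I ∧ J.Nonempty}, ∃ i, I i = J := fun J => J.2.1
  choose g hg using hex
  have hginj : Function.Injective g := by
    intro J K h
    apply Subtype.ext
    rw [← hg J, ← hg K, h]
  have hrange : ∀ i, (I i).Nonempty → i ∈ Set.range g := by
    intro i hi
    refine ⟨⟨I i, ⟨i, rfl⟩, hi⟩, ?_⟩
    by_contra hne
    have h2 := hd hne
    have h3 : I (g ⟨I i, ⟨i, rfl⟩, hi⟩) = I i := hg ⟨I i, ⟨i, rfl⟩, hi⟩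
    rw [Function.onFun, h3, disjoint_self] at h2
    rw [Set.bot_eq_empty] at h2
    rw [h2] at hi
    exact Set.not_nonempty_empty hi
  by_cases hq : q = ∞
  · subst hq
    rw [lq_top, lq_top]
    apply le_antisymm
    · apply iSup_le
      intro J
      rw [← hg J]
      exact le_iSup (fun i => a (I i)) (g J)
    · apply iSup_le
      intro i
      rcases Set.eq_empty_or_nonempty (I i) with h | h
      · rw [h, h0]
        exact zero_le
      · exact le_iSup (fun J : {J | J ∈ Set.range I ∧ J.Nonempty} => a J) ⟨I i, ⟨i, rfl⟩, h⟩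
  · rw [lq_of_ne hq, lq_of_ne hq]
    have hq0 := toReal_pos_of h1 hq
    congr 1
    rw [← hginj.tsum_eq]
    · apply tsum_congr
      intro J
      rw [hg J]
    · intro i hi
      apply hrange
      by_contra hne
      rw [Set.not_nonempty_iff_eq_empty] at hne
      apply hi
      show a (I i) ^ q.toReal = 0
      rw [hne, h0, ENNReal.zero_rpow_of_pos hq0]

theorem isIntervalPartition_family {α : Type} [Preorder α] {ι : Type} (I : ι → Set α)
    (hI : ∀ i, (I i).OrdConnected)
    (hd : Pairwise (Function.onFun Disjoint I)) (hU : ∀ x, ∃ i, x ∈ I i) :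
    IsIntervalPartition {J | J ∈ Set.range I ∧ J.Nonempty} := by
  refine ⟨⟨?_, ?_⟩, ?_⟩
  · rintro ⟨-, h⟩
    exact Set.not_nonempty_empty h
  · intro x
    obtain ⟨i, hi⟩ := hU x
    refine ⟨I i, ⟨⟨⟨i, rfl⟩, ⟨x, hi⟩⟩, hi⟩, ?_⟩
    rintro J ⟨⟨⟨j, rfl⟩, -⟩, hxj⟩
    by_contra hne
    have hij : j ≠ i := by
      rintro rfl
      exact hne rfl
    exact Set.disjoint_left.1 (hd hij) hxj hi
  · rintro J ⟨⟨i, rfl⟩, -⟩
    exact hI i

theorem IsIntervalPartition.pairwise {α : Type} [Preorder α] {P : Set (Set α)}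
    (h : IsIntervalPartition P) :
    Pairwise (Function.onFun Disjoint (fun J : P => (J : Set α))) := by
  intro J K hJK
  rw [Function.onFun, Set.disjoint_left]
  intro x hxJ hxK
  obtain ⟨L, -, hL⟩ := h.1.2 x
  apply hJK
  apply Subtype.ext
  rw [hL J ⟨J.2, hxJ⟩, hL K ⟨K.2, hxK⟩]

theorem IsIntervalPartition.exists_mem {α : Type} [Preorder α] {P : Set (Set α)}
    (h : IsIntervalPartition P) (x : α) : ∃ J : P, x ∈ (J : Set α) := by
  obtain ⟨L, ⟨hL, hx⟩, -⟩ := h.1.2 x
  exact ⟨⟨L, hL⟩, hx⟩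

theorem IsIntervalPartition.nonempty {α : Type} [Preorder α] {P : Set (Set α)}
    (h : IsIntervalPartition P) (J : P) : (J : Set α).Nonempty := by
  rw [Set.nonempty_iff_ne_empty]
  intro h0
  exact h.1.1 (h0 ▸ J.2)

theorem IsIntervalPartition.countable_int {P : Set (Set ℤ)}
    (h : IsIntervalPartition P) : Countable P := by
  choose g hg using fun J : P => h.nonempty J
  have : Function.Injective g := by
    intro J K hJK
    by_contra hne
    have := h.pairwise hne
    rw [Function.onFun, Set.disjoint_left] at this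
    exact this (hg J) (hJK ▸ hg K)
  exact this.countable

/-- Lower semicontinuity of the `ℓ^q`-sum. -/
theorem lq_le_liminf {q : ℝ≥0∞} (h1 : 1 ≤ q) {ι : Type} (a : ι → ℝ≥0∞) (b : ℕ → ι → ℝ≥0∞)
    (h : ∀ i, a i ≤ liminf (fun N => b N i) atTop) :
    lq q a ≤ liminf (fun N => lq q (b N)) atTop := by
  by_cases hq : q = ∞
  · subst hq
    simp_rw [lq_top]
    apply iSup_le
    intro i
    refine (h i).trans ?_
    apply liminf_le_liminf
    · filter_upwards with N
      exact le_iSup (b N) i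
    · isBoundedDefault
    · isBoundedDefault
  · have h0 := toReal_pos_of h1 hq
    simp_rw [lq_of_ne hq]
    have h2 : (liminf (fun N => (∑' i, b N i ^ q.toReal) ^ (1 / q.toReal)) atTop) =
        (liminf (fun N => (∑' i, b N i ^ q.toReal)) atTop) ^ (1 / q.toReal) := by
      have := (ENNReal.orderIsoRpow (1 / q.toReal) (by positivity)).liminf_apply
        (u := fun N => (∑' i, b N i ^ q.toReal)) (f := atTop)
      exact this.symm
    rw [h2]
    gcongr
    let _ : MeasurableSpace ι := ⊤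
    have h3 : ∀ f : ι → ℝ≥0∞, ∑' i, f i = ∫⁻ i, f i ∂(Measure.count : Measure ι) := by
      intro f
      rw [lintegral_count]
    simp_rw [h3]
    refine le_trans ?_ (lintegral_liminf_le (fun N => measurable_from_top))
    apply lintegral_mono
    intro i
    have h4 : (liminf (fun N => b N i ^ q.toReal) atTop) =
        (liminf (fun N => b N i) atTop) ^ q.toReal := by
      have := (ENNReal.orderIsoRpow q.toReal h0).liminf_apply
        (u := fun N => b N i) (f := atTop)
      exact this.symm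
    show a i ^ q.toReal ≤ liminf (fun N => b N i ^ q.toReal) atTop
    rw [h4]
    gcongr
    exact h i

/-- Continuity for families with a fixed finite support. -/
theorem lq_tendsto_finset {q : ℝ≥0∞} (h1 : 1 ≤ q) {ι : Type} (F : Finset ι) (a : ι → ℝ≥0∞)
    (b : ℕ → ι → ℝ≥0∞) (h : ∀ i ∈ F, Tendsto (fun N => b N i) atTop (𝓝 (a i)))
    (hb : ∀ N, ∀ i ∉ F, b N i = 0) :
    limsup (fun N => lq q (b N)) atTop ≤ lq q a := by
  by_cases hq : q = ∞
  · subst hq
    simp_rw [lq_top]
    apply le_of_forall_gt_imp_ge_of_dense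
    intro M hM
    apply limsup_le_of_le
    · isBoundedDefault
    have : ∀ᶠ N in atTop, ∀ i ∈ F, b N i < M := by
      rw [Filter.eventually_all_finset]
      intro i hi
      exact (h i hi).eventually_lt_const (lt_of_le_of_lt (le_iSup a i) hM)
    filter_upwards [this] with N hN
    apply iSup_le
    intro i
    by_cases hi : i ∈ F
    · exact (hN i hi).le
    · rw [hb N i hi]
      exact zero_le
  · have h0 := toReal_pos_of h1 hq
    simp_rw [lq_of_ne hq]
    have h2 : ∀ N, ∑' i, b N i ^ q.toReal = ∑ i ∈ F, b N i ^ q.toReal := by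
      intro N
      apply tsum_eq_sum
      intro i hi
      rw [hb N i hi, ENNReal.zero_rpow_of_pos h0]
    simp_rw [h2]
    have h3 : Tendsto (fun N => (∑ i ∈ F, b N i ^ q.toReal) ^ (1 / q.toReal)) atTop
        (𝓝 ((∑ i ∈ F, a i ^ q.toReal) ^ (1 / q.toReal))) := by
      apply (ENNReal.continuous_rpow_const.tendsto _).comp
      apply tendsto_finsetSum
      intro i hi
      exact (ENNReal.continuous_rpow_const.tendsto _).comp (h i hi)
    rw [h3.limsup_eq]
    gcongr
    exact ENNReal.sum_le_tsum F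

end Pool.Agent.Q82.FDec
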