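import Mathlib
import Pool.Agent.Q82.FDef

open MeasureTheory Filter Topology FourierTransform
open scoped ENNReal NNReal SchwartzMap

namespace Pool.Agent.Q82.FDec

universe u

variable {X : Type u} [NormedAddCommGroup X] [NormedSpace ℂ X]

/-- Restriction of a coefficient family to a set of frequencies. -/
noncomputable def restr (I : Set ℤ) (c : ℤ →₀ X) : ℤ →₀ X :=
  open Classical in c.filter (· ∈ I)

open Classical in
theorem restr_apply (I : Set ℤ) (c : ℤ →₀ X) (n : ℤ) :
    restr I c n = if n ∈ I then c n else 0 := by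
  rw [restr, Finsupp.filter_apply]

theorem trig_eq_sum {c : ℤ →₀ X} {S : Finset ℤ} (h : ∀ n ∉ S, c n = 0) (t : UnitAddCircle) :
    trig c t = ∑ n ∈ S, fourier n t • c n := by
  rw [trig]
  apply Finset.sum_subset_zero_on_sdiff
  · intro n hn
    by_contra hnS
    exact (Finsupp.mem_support_iff.1 hn) (h n hnS)
  · intro n hn
    rw [Finset.mem_sdiff, Finsupp.notMem_support_iff] at hn
    rw [hn.2, smul_zero]
  · intro n _
    rfl

theorem trig_zero : trig (0 : ℤ →₀ X) = 0 := by
  funext t
  simp [trig]

theorem trig_add (c d : ℤ →₀ X) (t : UnitAddCircle) : trig (c + d) t = trig c t + trig d t := by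
  classical
  rw [trig_eq_sum (S := c.support ∪ d.support) (c := c + d),
    trig_eq_sum (S := c.support ∪ d.support) (c := c),
    trig_eq_sum (S := c.support ∪ d.support) (c := d), ← Finset.sum_add_distrib]
  · apply Finset.sum_congr rfl
    intro n _
    rw [Finsupp.add_apply, smul_add]
  · intro n hn
    rw [Finset.mem_union, not_or, Finsupp.notMem_support_iff, Finsupp.notMem_support_iff] at hn
    exact hn.2
  · intro n hn
    rw [Finset.mem_union, not_or, Finsupp.notMem_support_iff, Finsupp.notMem_support_iff] at hn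
    exact hn.1
  · intro n hn
    rw [Finset.mem_union, not_or, Finsupp.notMem_support_iff, Finsupp.notMem_support_iff] at hn
    rw [Finsupp.add_apply, hn.1, hn.2, add_zero]

theorem trig_sum {ι : Type*} (s : Finset ι) (c : ι → ℤ →₀ X) (t : UnitAddCircle) :
    trig (∑ i ∈ s, c i) t = ∑ i ∈ s, trig (c i) t := by
  classical
  induction s using Finset.induction_on with
  | empty => simp [trig_zero]
  | insert i s hi ih => rw [Finset.sum_insert hi, Finset.sum_insert hi, trig_add, ih]

theorem trig_single (n : ℤ) (x : X) (t : UnitAddCircle) :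
    trig (Finsupp.single n x) t = fourier n t • x := by
  rw [trig_eq_sum (S := {n})]
  · simp
  · intro m hm
    rw [Finset.mem_singleton] at hm
    exact Finsupp.single_eq_of_ne hm

theorem continuous_trig (c : ℤ →₀ X) : Continuous (trig c) := by
  unfold trig
  fun_prop

theorem integral_fourier (n : ℤ) :
    ∫ t : UnitAddCircle, fourier n t ∂AddCircle.haarAddCircle = if n = 0 then (1 : ℂ) else 0 := by
  split_ifs with h
  · subst h
    simp
  · have : ∫ t : UnitAddCircle, fourier n t ∂AddCircle.haarAddCircle = 0 :=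
      integral_eq_zero_of_add_right_eq_neg (μ := AddCircle.haarAddCircle)
        (fourier_add_half_inv_index h one_pos)
    exact this

theorem fourierCoeff_trig [CompleteSpace X] (c : ℤ →₀ X) (n : ℤ) :
    fourierCoeff (trig c) n = c n := by
  unfold fourierCoeff
  have h1 : ∀ t : UnitAddCircle, fourier (-n) t • trig c t =
      ∑ m ∈ c.support, fourier (m - n) t • c m := by
    intro t
    rw [trig, Finset.smul_sum]
    apply Finset.sum_congr rfl
    intro m _
    rw [smul_smul, ← fourier_add]
    congr 2
    ring_nf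
  simp_rw [h1]
  rw [integral_finsetSum]
  · have h2 : ∀ m ∈ c.support, ∫ t : UnitAddCircle, fourier (m - n) t • c m
        ∂AddCircle.haarAddCircle = if m = n then c n else 0 := by
      intro m _
      rw [integral_smul_const, integral_fourier]
      by_cases h : m = n
      · subst h
        simp
      · rw [if_neg (by omega), if_neg h, zero_smul]
    rw [Finset.sum_congr rfl h2]
    rw [Finset.sum_ite_eq']
    split_ifs with h
    · rfl
    · exact (Finsupp.notMem_support_iff.1 h).symm
  · intro m _
    apply Continuous.integrable_of_hasCompactSupport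
    · fun_prop
    · exact HasCompactSupport.of_compactSpace _

theorem circleProj_trig [CompleteSpace X] (I : Set ℤ) (c : ℤ →₀ X) :
    circleProj I (trig c) = trig (restr I c) := by
  classical
  funext t
  rw [circleProj]
  simp_rw [fourierCoeff_trig]
  rw [tsum_eq_sum (s := c.support)]
  · rw [trig_eq_sum (S := c.support)]
    · apply Finset.sum_congr rfl
      intro n _
      rw [restr_apply]
      split_ifs
      · rfl
      · simp
    · intro n hn
      rw [restr_apply, Finsupp.notMem_support_iff.1 hn]
      simp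
  · intro n hn
    rw [Finsupp.notMem_support_iff.1 hn]
    simp

theorem UpperCircle.family [CompleteSpace X] {p q : ℝ≥0∞} (hq : 1 ≤ q)
    (h : UpperCircle X p q) : ∃ U : ℝ≥0, 0 < U ∧ ∀ (ι : Type) (I : ι → Set ℤ),
      (∀ i, (I i).OrdConnected) → Pairwise (Function.onFun Disjoint I) → (∀ x, ∃ i, x ∈ I i) →
      ∀ c : ℤ →₀ X, eLpNorm (trig c) p volume ≤
        U * lq q (fun i => eLpNorm (trig (restr (I i) c)) p volume) := by
  obtain ⟨U, hU, h⟩ := h
  refine ⟨U, hU, ?_⟩
  intro ι I hI hd hc c
  have h1 := h _ (isIntervalPartition_family I hI hd hc) (trig c) ⟨c, rfl⟩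
  have h2 := lq_family hq I hd (fun J => eLpNorm (circleProj J (trig c)) p volume) (by
    have : circleProj ∅ (trig c) = 0 := by
      funext t
      simp [circleProj]
    simp only [this]
    simp)
  rw [h2] at h1
  simpa only [circleProj_trig] using h1

theorem LowerCircle.family [CompleteSpace X] {p q : ℝ≥0∞} (hq : 1 ≤ q)
    (h : LowerCircle X p q) : ∃ L : ℝ≥0, 0 < L ∧ ∀ (ι : Type) (I : ι → Set ℤ),
      (∀ i, (I i).OrdConnected) → Pairwise (Function.onFun Disjoint I) → (∀ x, ∃ i, x ∈ I i) →
      ∀ c : ℤ →₀ X, lq q (fun i => eLpNorm (trig (restr (I i) c)) p volume) ≤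
        L * eLpNorm (trig c) p volume := by
  obtain ⟨U, hU, h⟩ := h
  refine ⟨U, hU, ?_⟩
  intro ι I hI hd hc c
  have h1 := h _ (isIntervalPartition_family I hI hd hc) (trig c) ⟨c, rfl⟩
  have h2 := lq_family hq I hd (fun J => eLpNorm (circleProj J (trig c)) p volume) (by
    have : circleProj ∅ (trig c) = 0 := by
      funext t
      simp [circleProj]
    simp only [this]
    simp)
  rw [h2] at h1
  simpa only [circleProj_trig] using h1

/-- The `L^p` norm over a scaled period. -/
theorem eLpNorm_scaled (c : ℤ →₀ X) (p : ℝ≥0∞) {N : ℝ} (hN : 0 < N) :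
    eLpNorm (fun s : ℝ => trig c ((s / N : ℝ) : UnitAddCircle)) p
      (volume.restrict (Set.Ioc (-(N / 2)) (N / 2))) =
      ENNReal.ofReal N ^ (1 / p).toReal * eLpNorm (trig c) p volume := by
  have h1 : MeasurePreserving (fun s : ℝ => s / N) volume (ENNReal.ofReal N • volume) := by
    refine ⟨by fun_prop, ?_⟩
    have h := Real.map_volume_mul_left (a := N⁻¹) (by positivity)
    have h2 : (fun s : ℝ => s / N) = (fun s => N⁻¹ * s) := by
      funext s
      ring
    rw [h2, h, inv_inv, abs_of_pos hN]
  have h2 := h1.restrict_preimage (s := Set.Ioc (-(1 / 2) : ℝ) (-(1 / 2) + 1)) measurableSet_Ioc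
  have h3 : (fun s : ℝ => s / N) ⁻¹' (Set.Ioc (-(1 / 2) : ℝ) (-(1 / 2) + 1)) =
      Set.Ioc (-(N / 2)) (N / 2) := by
    ext s
    rw [Set.mem_preimage, Set.mem_Ioc, Set.mem_Ioc, lt_div_iff₀ hN, div_le_iff₀ hN]
    constructor
    · rintro ⟨h, h'⟩
      constructor <;> linarith
    · rintro ⟨h, h'⟩
      constructor <;> linarith
  rw [h3, Measure.restrict_smul] at h2
  have h4 := UnitAddCircle.measurePreserving_mk (-(1 / 2) : ℝ)
  have h5 : AEStronglyMeasurable (fun s : ℝ => trig c ((s : ℝ) : UnitAddCircle))
      (ENNReal.ofReal N • volume.restrict (Set.Ioc (-(1 / 2) : ℝ) (-(1 / 2) + 1))) := by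
    apply Continuous.aestronglyMeasurable
    exact (continuous_trig c).comp (AddCircle.continuous_mk' 1)
  have h6 := eLpNorm_comp_measurePreserving (p := p) h5 h2
  have h7 : (fun s : ℝ => trig c ((s / N : ℝ) : UnitAddCircle)) =
      (fun s : ℝ => trig c ((s : ℝ) : UnitAddCircle)) ∘ (fun s : ℝ => s / N) := rfl
  rw [h7, h6, eLpNorm_smul_measure_of_ne_zero (by simpa using hN)]
  have h8 := eLpNorm_comp_measurePreserving (p := p)
    (f := ((↑) : ℝ → UnitAddCircle)) (g := trig c)
    (continuous_trig c).aestronglyMeasurable h4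
  have h9 : (fun s : ℝ => trig c ((s : ℝ) : UnitAddCircle)) =
    trig c ∘ ((↑) : ℝ → UnitAddCircle) := rfl
  rw [h9, h8, smul_eq_mul]

end Pool.Agent.Q82.FDec
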