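import Mathlib
import Pool.Agent.Q82.FCirc

open MeasureTheory Filter Topology FourierTransform
open scoped ENNReal NNReal SchwartzMap ContDiff

namespace Pool.Agent.Q82.FDec

universe u

variable {X : Type u} [NormedAddCommGroup X] [NormedSpace ℂ X]

/-- `e(x) = exp(2 π i x)`. -/
noncomputable def ec (x : ℝ) : ℂ := Complex.exp (2 * Real.pi * x * Complex.I)

theorem ec_eq (x : ℝ) : ec x = Complex.exp (((2 * Real.pi * x : ℝ) : ℂ) * Complex.I) := by
  rw [ec]
  push_cast
  rfl

theorem norm_ec (x : ℝ) : ‖ec x‖ = 1 := by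
  rw [ec_eq, Complex.norm_exp_ofReal_mul_I]

theorem ec_add (x y : ℝ) : ec (x + y) = ec x * ec y := by
  rw [ec, ec, ec, ← Complex.exp_add]
  congr 1
  push_cast
  ring

theorem ec_zero : ec 0 = 1 := by
  rw [ec]
  simp

@[fun_prop]
theorem continuous_ec : Continuous ec := by
  unfold ec
  fun_prop

theorem fourier_coe_ec (n : ℤ) (x : ℝ) : fourier n (x : UnitAddCircle) = ec (n * x) := by
  rw [fourier_coe_apply, ec]
  congr 1
  push_cast
  ring

theorem fourierInv_real (f : ℝ → X) (t : ℝ) : 𝓕⁻ f t = ∫ v, ec (t * v) • f v := by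
  rw [Real.fourierInv_eq']
  apply integral_congr_ae
  filter_upwards with v
  congr 1
  rw [ec_eq]
  congr 3

theorem fourier_real (f : ℝ → X) (t : ℝ) : 𝓕 f t = ∫ v, ec (-(t * v)) • f v := by
  rw [Real.fourier_real_eq_integral_exp_smul]
  apply integral_congr_ae
  filter_upwards with v
  congr 1
  rw [ec_eq]
  congr 3
  ring

theorem fourier_sum_smul [CompleteSpace X] {ι : Type*} (S : Finset ι) (φ : ι → 𝓢(ℝ, ℂ)) (x : ι → X) (ξ : ℝ) :
    𝓕 (fun t => ∑ i ∈ S, φ i t • x i) ξ = ∑ i ∈ S, 𝓕 (φ i : ℝ → ℂ) ξ • x i := by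
  rw [fourier_real]
  simp_rw [Finset.smul_sum, smul_smul]
  rw [integral_finsetSum]
  · apply Finset.sum_congr rfl
    intro i _
    rw [fourier_real, ← integral_smul_const]
    rfl
  · intro i _
    apply Integrable.smul_const
    have h1 : Integrable (φ i : ℝ → ℂ) := (φ i).integrable
    have h2 : Continuous fun v : ℝ => ec (-(ξ * v)) := by fun_prop
    exact h1.bdd_mul h2.aestronglyMeasurable (c := 1) (by
      filter_upwards with v
      rw [norm_ec])

theorem isSc_of_finset {ι : Type*} (S : Finset ι) (φ : ι → 𝓢(ℝ, ℂ)) (x : ι → X)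
    (h : ∀ i ∈ S, HasCompactSupport (𝓕 (φ i : ℝ → ℂ))) :
    IsSc (fun t => ∑ i ∈ S, φ i t • x i) := by
  classical
  let e := S.equivFin
  refine ⟨S.card, fun j => φ (e.symm j), fun j => x (e.symm j), ?_, ?_⟩
  · intro j
    exact h _ (e.symm j).2
  · funext t
    rw [← Finset.sum_coe_sort S (fun i => φ i t • x i)]
    exact (Equiv.sum_comp e.symm (fun i : S => φ i t • x i)).symm

theorem IsSc.fourier_props [CompleteSpace X] {f : ℝ → X} (hf : IsSc f) :
    HasCompactSupport (𝓕 f) ∧ ContDiff ℝ ∞ (𝓕 f) ∧ Integrable f ∧ Continuous f := by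
  obtain ⟨m, φ, x, h1, rfl⟩ := hf
  have h2 : 𝓕 (fun t => ∑ j, φ j t • x j) = fun ξ => ∑ j, 𝓕 (φ j : ℝ → ℂ) ξ • x j := by
    funext ξ
    exact fourier_sum_smul Finset.univ φ x ξ
  rw [h2]
  refine ⟨?_, ?_, ?_, ?_⟩
  · have h3 : ∀ S : Finset (Fin m), HasCompactSupport
        (fun ξ => ∑ j ∈ S, 𝓕 (φ j : ℝ → ℂ) ξ • x j) := by
      intro S
      classical
      induction S using Finset.induction_on with
      | empty =>
          simp only [Finset.sum_empty]
          exact HasCompactSupport.zero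
      | insert j S hj ih =>
          simp only [Finset.sum_insert hj]
          exact ((h1 j).smul_right (f' := fun _ => x j)).add ih
    exact h3 Finset.univ
  · apply ContDiff.sum
    intro j _
    apply ContDiff.smul _ contDiff_const
    rw [← SchwartzMap.fourier_coe]
    exact (𝓕 (φ j)).smooth ⊤
  · apply integrable_finsetSum
    intro j _
    exact ((φ j).integrable).smul_const _
  · apply continuous_finsetSum
    intro j _
    exact ((φ j).continuous).smul continuous_const

theorem IsSc.inversion [CompleteSpace X] {f : ℝ → X} (hf : IsSc f) (t : ℝ) :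
    f t = ∫ ξ, ec (t * ξ) • 𝓕 f ξ := by
  obtain ⟨h1, h2, h3, h4⟩ := hf.fourier_props
  have h5 : Integrable (𝓕 f) := h2.continuous.integrable_of_hasCompactSupport h1
  rw [← fourierInv_real, h4.fourierInv_fourier_eq h3 h5]

/-- A number bounding the decay of `f`. -/
theorem IsSc.decay {f : ℝ → X} (hf : IsSc f) : ∃ C : ℝ, 0 ≤ C ∧ ∀ t, t ^ 2 * ‖f t‖ ≤ C := by
  obtain ⟨m, φ, x, h1, rfl⟩ := hf
  choose C hC hC2 using fun j => (φ j).decay 2 0
  refine ⟨∑ j, C j * ‖x j‖, Finset.sum_nonneg fun j _ => by have := hC j; positivity, ?_⟩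
  intro t
  calc t ^ 2 * ‖∑ j, φ j t • x j‖ ≤ t ^ 2 * ∑ j, ‖φ j t • x j‖ := by
        gcongr
        exact norm_sum_le _ _
    _ = ∑ j, (t ^ 2 * ‖φ j t‖) * ‖x j‖ := by
        rw [Finset.mul_sum]
        apply Finset.sum_congr rfl
        intro j _
        rw [norm_smul]
        ring
    _ ≤ _ := by
        apply Finset.sum_le_sum
        intro j _
        gcongr
        have := hC2 j t
        rw [norm_iteratedFDeriv_zero] at this
        simpa using this

theorem lineProj_eq {I : Set ℝ} (hI : MeasurableSet I) (f : ℝ → X) (t : ℝ) :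
    lineProj I f t = ∫ ξ in I, ec (t * ξ) • 𝓕 f ξ := by
  rw [lineProj, fourierInv_real, ← integral_indicator hI]
  apply integral_congr_ae
  filter_upwards with ξ
  by_cases h : ξ ∈ I
  · rw [Set.indicator_of_mem h, Set.indicator_of_mem h]
  · rw [Set.indicator_of_notMem h, Set.indicator_of_notMem h, smul_zero]

end Pool.Agent.Q82.FDec
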