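import Mathlib
import Pool.Agent.Q82.FLine

open MeasureTheory Filter Topology FourierTransform
open scoped ENNReal NNReal SchwartzMap ContDiff

namespace Pool.Agent.Q82.FDec

universe u

variable {X : Type u} [NormedAddCommGroup X] [NormedSpace ℂ X]

/-- Countable triangle inequality, pointwise form. -/
theorem eLpNorm_le_tsum {ι : Type*} [Countable ι] {α : Type*} [MeasurableSpace α] {μ : Measure α}
    {p : ℝ≥0∞} (hp : 1 ≤ p) (u : ι → α → X) (hu : ∀ i, AEStronglyMeasurable (u i) μ) (g : α → X)
    (h : ∀ x, HasSum (fun i => u i x) (g x)) : eLpNorm g p μ ≤ ∑' i, eLpNorm (u i) p μ := by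
  obtain ⟨F, hF⟩ := Filter.exists_seq_tendsto (atTop : Filter (Finset ι))
  have h1 : ∀ n, AEStronglyMeasurable (fun x => ∑ i ∈ F n, u i x) μ := by
    intro n
    exact Finset.aestronglyMeasurable_fun_sum _ fun i _ => hu i
  refine (Lp.eLpNorm_lim_le_liminf_eLpNorm h1 g ?_).trans ?_
  · filter_upwards with x
    exact (h x).comp hF
  · apply liminf_le_of_le
    · isBoundedDefault
    · intro b hb
      obtain ⟨n, hn⟩ := hb.exists
      refine hn.trans ?_
      have h2 : eLpNorm (∑ i ∈ F n, u i) p μ ≤ ∑ i ∈ F n, eLpNorm (u i) p μ :=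
        eLpNorm_sum_le (fun i _ => hu i) hp
      have h3 : (fun x => ∑ i ∈ F n, u i x) = ∑ i ∈ F n, u i := by
        funext x
        rw [Finset.sum_apply]
      rw [h3]
      exact h2.trans (ENNReal.sum_le_tsum _)

/-- The unit cell with centre `k`. -/
def cell (k : ℤ) : Set ℝ := Set.Ioc (k - 1 / 2 : ℝ) (k - 1 / 2 + 1)

theorem measurableSet_cell (k : ℤ) : MeasurableSet (cell k) := measurableSet_Ioc

theorem eLpNorm_le_cells {p : ℝ≥0∞} (hp : 1 ≤ p) (g : ℝ → X)
    (hg : AEStronglyMeasurable g volume) :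
    eLpNorm g p volume ≤ ∑' k : ℤ, eLpNorm g p (volume.restrict (cell k)) := by
  have h := eLpNorm_le_tsum (μ := volume) hp (fun k : ℤ => (cell k).indicator g)
    (fun k => hg.indicator (measurableSet_cell k)) g ?_
  · refine h.trans (le_of_eq ?_)
    apply tsum_congr
    intro k
    rw [eLpNorm_indicator_eq_eLpNorm_restrict (measurableSet_cell k)]
  · intro x
    have h1 : x ∈ cell ⌈x - 1 / 2⌉ := by
      have h2 := Int.le_ceil (x - 1 / 2)
      have h3 := Int.ceil_lt_add_one (x - 1 / 2)
      constructor <;> linarith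
    have h4 : HasSum (fun k : ℤ => (cell k).indicator g x)
        ((cell ⌈x - 1 / 2⌉).indicator g x) := by
      apply hasSum_single
      intro k hk
      apply Set.indicator_of_notMem
      rintro ⟨h5, h6⟩
      apply hk
      symm
      rw [Int.ceil_eq_iff]
      constructor <;> linarith
    rw [Set.indicator_of_mem h1] at h4
    exact h4

theorem eLpNorm_trig_cell (c : ℤ →₀ X) (p : ℝ≥0∞) (k : ℤ) :
    eLpNorm (fun t : ℝ => trig c (t : UnitAddCircle)) p (volume.restrict (cell k)) =
      eLpNorm (trig c) p volume := by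
  have h4 := UnitAddCircle.measurePreserving_mk (k - 1 / 2 : ℝ)
  have h8 := eLpNorm_comp_measurePreserving (p := p)
    (f := ((↑) : ℝ → UnitAddCircle)) (g := trig c)
    (continuous_trig c).aestronglyMeasurable h4
  exact h8

/-- A fixed bump function. -/
noncomputable def psi : ContDiffBump (0 : ℝ) := ⟨1 / 8, 1 / 4, by norm_num, by norm_num⟩

theorem psi_shift_compact (n : ℤ) : HasCompactSupport (fun ξ : ℝ => ((psi (ξ - n) : ℝ) : ℂ)) := by
  have h : HasCompactSupport (fun ξ : ℝ => psi (ξ - n)) := by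
    have := psi.hasCompactSupport.comp_homeomorph (Homeomorph.subRight (n : ℝ))
    exact this
  exact h.comp_left (g := fun y : ℝ => (y : ℂ)) (by simp)

theorem psi_shift_smooth (n : ℤ) : ContDiff ℝ ∞ (fun ξ : ℝ => ((psi (ξ - n) : ℝ) : ℂ)) := by
  have h : ContDiff ℝ ∞ (fun ξ : ℝ => psi (ξ - n)) := by
    have := (psi.contDiff (n := ⊤)).comp (g := psi) (f := fun ξ : ℝ => ξ - n)
      (by fun_prop)
    exact this
  exact Complex.ofRealCLM.contDiff.comp h

/-- The translated bump as a Schwartz function. -/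
noncomputable def psin (n : ℤ) : 𝓢(ℝ, ℂ) :=
  HasCompactSupport.toSchwartzMap (psi_shift_compact n) (psi_shift_smooth n)

theorem psin_apply (n : ℤ) (ξ : ℝ) : psin n ξ = ((psi (ξ - n) : ℝ) : ℂ) := rfl

/-- Its inverse Fourier transform. -/
noncomputable def phin (n : ℤ) : 𝓢(ℝ, ℂ) := 𝓕⁻ (psin n)

theorem fourier_phin (n : ℤ) : 𝓕 (phin n : ℝ → ℂ) = psin n := by
  rw [← SchwartzMap.fourier_coe, phin, FourierTransform.fourier_fourierInv_eq]

theorem phin_eq_integral (n : ℤ) (t : ℝ) : phin n t = ∫ v, ec (t * v) • psin n v := by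
  rw [phin, SchwartzMap.fourierInv_coe, fourierInv_real]

theorem phin_apply (n : ℤ) (t : ℝ) : phin n t = ec (n * t) * phin 0 t := by
  rw [phin_eq_integral, phin_eq_integral, ← integral_const_mul]
  have h := integral_sub_right_eq_self (μ := volume)
    (fun v : ℝ => ec (n * t) * (ec (t * v) • psin 0 v)) (n : ℝ)
  rw [← h]
  apply integral_congr_ae
  filter_upwards with v
  rw [psin_apply, psin_apply, smul_eq_mul, smul_eq_mul, ← mul_assoc, ← ec_add]
  congr 2
  · ring
  · push_cast
    ring_nf

theorem psin_zero_integrable : Integrable (fun ξ : ℝ => psi ξ) :=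
  psi.continuous.integrable_of_hasCompactSupport psi.hasCompactSupport

/-- The constant in the lower bound. -/
noncomputable def c0 : ℝ := (1 / 2) * ∫ ξ, psi ξ

theorem c0_pos : 0 < c0 := by
  have : 0 < ∫ ξ, psi ξ := psi.integral_pos
  rw [c0]
  positivity

theorem phin_lower {t : ℝ} (ht : |t| ≤ 1 / 2) : c0 ≤ ‖phin 0 t‖ := by
  refine le_trans ?_ (Complex.re_le_norm _)
  rw [phin_eq_integral]
  have hint : Integrable (fun v : ℝ => ec (t * v) • psin 0 v) := by
    have h2 : Continuous fun v : ℝ => ec (t * v) := by fun_prop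
    exact (psin 0).integrable.bdd_mul h2.aestronglyMeasurable (c := 1) (by
      filter_upwards with v
      rw [norm_ec])
  have h1 : (∫ v, ec (t * v) • psin 0 v).re = ∫ v, (ec (t * v) • psin 0 v).re :=
    (integral_re hint).symm
  rw [h1, c0, ← integral_const_mul]
  apply integral_mono
  · exact psin_zero_integrable.const_mul _
  · exact hint.re
  · intro v
    show 1 / 2 * psi v ≤ (ec (t * v) • psin 0 v).re
    rw [psin_apply, smul_eq_mul, Complex.re_mul_ofReal]
    have e1 : (v - ((0 : ℤ) : ℝ)) = v := by simp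
    rw [e1]
    by_cases hv : psi v = 0
    · rw [hv]
      simp
    · have h3 : v ∈ Function.support psi := hv
      rw [psi.support_eq, Metric.mem_ball, Real.dist_eq, sub_zero] at h3
      have h3' : |v| < 1 / 4 := h3
      have h4 : |2 * Real.pi * (t * v)| ≤ 1 := by
        rw [abs_mul, abs_mul t v, abs_of_pos (by positivity : (0 : ℝ) < 2 * Real.pi)]
        have h5 : |t| * |v| ≤ 1 / 2 * (1 / 4) := by
          gcongr
        have h6 := Real.pi_lt_four
        have h7 := Real.pi_pos
        nlinarith [abs_nonneg t, abs_nonneg v, mul_nonneg (abs_nonneg t) (abs_nonneg v)]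
      have h5 := Real.one_sub_sq_div_two_le_cos (x := 2 * Real.pi * (t * v))
      have h6 : (2 * Real.pi * (t * v)) ^ 2 ≤ 1 := by
        rw [← sq_abs]
        have := abs_nonneg (2 * Real.pi * (t * v))
        nlinarith
      rw [ec_eq, Complex.exp_ofReal_mul_I_re]
      have h7 : 0 ≤ psi v := psi.nonneg
      have h8 : 1 / 2 ≤ Real.cos (2 * Real.pi * (t * v)) := by linarith
      exact mul_le_mul_of_nonneg_right h8 h7

theorem phin_upper : ∃ B : ℤ → ℝ≥0, (∑' k, (B k : ℝ≥0∞)) ≠ ⊤ ∧
    ∀ k, ∀ t ∈ cell k, ‖phin 0 t‖ ≤ B k := by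
  obtain ⟨C0, h0, hC0⟩ := (phin 0).decay 0 0
  obtain ⟨C2, h2, hC2⟩ := (phin 0).decay 2 0
  have hs : Summable (fun k : ℤ => (if k = 0 then C0 else 0) + 4 * C2 * (1 / (k : ℝ) ^ 2)) := by
    apply Summable.add
    · apply summable_of_hasFiniteSupport
      apply (Set.finite_singleton (0 : ℤ)).subset
      intro k hk
      by_contra hne
      apply hk
      exact if_neg hne
    · apply Summable.mul_left
      exact Real.summable_one_div_int_pow.2 one_lt_two
  have hnn : ∀ k : ℤ, 0 ≤ (if k = 0 then C0 else 0) + 4 * C2 * (1 / (k : ℝ) ^ 2) := by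
    intro k
    split_ifs <;> positivity
  refine ⟨fun k => Real.toNNReal ((if k = 0 then C0 else 0) + 4 * C2 * (1 / (k : ℝ) ^ 2)), ?_, ?_⟩
  · have h3 : Summable (fun k : ℤ =>
        Real.toNNReal ((if k = 0 then C0 else 0) + 4 * C2 * (1 / (k : ℝ) ^ 2))) := by
      rw [← NNReal.summable_coe]
      simp_rw [Real.coe_toNNReal _ (hnn _)]
      exact hs
    exact ENNReal.tsum_coe_ne_top_iff_summable.2 h3
  · intro k t ht
    rw [Real.coe_toNNReal _ (hnn _)]
    by_cases hk : k = 0
    · rw [if_pos hk]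
      have := hC0 t
      rw [norm_iteratedFDeriv_zero, pow_zero, one_mul] at this
      have h4 : 0 ≤ 4 * C2 * (1 / (k : ℝ) ^ 2) := by positivity
      linarith
    · rw [if_neg hk, zero_add]
      have h5 := hC2 t
      rw [norm_iteratedFDeriv_zero] at h5
      have h6 : |(k : ℝ)| ≤ 2 * |t| := by
        have h7 : (1 : ℝ) ≤ |(k : ℝ)| := by
          have : (1 : ℤ) ≤ |k| := Int.one_le_abs hk
          exact_mod_cast this
        have h8 : |(k : ℝ) - t| ≤ 1 / 2 := by
          rw [abs_le]
          have h9 := ht.1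
          have h10 := ht.2
          constructor <;> linarith
        have h9 : |(k : ℝ)| ≤ |(k : ℝ) - t| + |t| := by
          calc |(k : ℝ)| = |((k : ℝ) - t) + t| := by congr 1; ring
            _ ≤ _ := abs_add_le _ _
        linarith
      have h7 : (k : ℝ) ^ 2 ≤ 4 * ‖t‖ ^ 2 := by
        rw [← sq_abs (k : ℝ), Real.norm_eq_abs]
        nlinarith [abs_nonneg (k : ℝ), abs_nonneg t]
      have h8 : 0 < (k : ℝ) ^ 2 := by positivity
      rw [mul_one_div, le_div_iff₀ h8]
      nlinarith [norm_nonneg (phin 0 t)]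

/-- The function on the line attached to a trigonometric polynomial. -/
noncomputable def gc (c : ℤ →₀ X) (t : ℝ) : X := ∑ n ∈ c.support, phin n t • c n

theorem gc_eq (c : ℤ →₀ X) (t : ℝ) : gc c t = phin 0 t • trig c (t : UnitAddCircle) := by
  rw [gc, trig, Finset.smul_sum]
  apply Finset.sum_congr rfl
  intro n _
  rw [phin_apply, fourier_coe_ec, smul_smul, mul_comm]

theorem isSc_gc (c : ℤ →₀ X) : IsSc (gc c) := by
  apply isSc_of_finset
  intro n _
  rw [fourier_phin]
  exact psi_shift_compact n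

theorem isSc_gc_continuous (c : ℤ →₀ X) : Continuous (gc c) := by
  unfold gc
  apply continuous_finsetSum
  intro n _
  exact ((phin n).continuous).smul continuous_const

theorem fourier_gc [CompleteSpace X] (c : ℤ →₀ X) (ξ : ℝ) :
    𝓕 (gc c) ξ = ∑ n ∈ c.support, psin n ξ • c n := by
  have h := fourier_sum_smul c.support (fun n => phin n) (fun n => c n) ξ
  simp only [fourier_phin] at h
  exact h

/-- Rounding. -/
noncomputable def rd (x : ℝ) : ℤ := ⌊x + 1 / 2⌋

theorem rd_mono : Monotone rd := by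
  intro x y h
  unfold rd
  exact Int.floor_mono (by linarith)

theorem rd_int (n : ℤ) : rd n = n := by
  rw [rd, Int.floor_eq_iff]
  constructor <;> linarith

theorem rd_of_psin {n : ℤ} {ξ : ℝ} (h : psin n ξ ≠ 0) : rd ξ = n := by
  rw [psin_apply, Ne, Complex.ofReal_eq_zero] at h
  have h3 : ξ - n ∈ Function.support psi := h
  rw [psi.support_eq, Metric.mem_ball, Real.dist_eq, sub_zero] at h3
  have h3' : |ξ - n| < 1 / 4 := h3
  rw [abs_lt] at h3'
  rw [rd, Int.floor_eq_iff]
  constructor <;> linarith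

theorem lineProj_gc [CompleteSpace X] (c : ℤ →₀ X) (J : Set ℤ) :
    lineProj (rd ⁻¹' J) (gc c) = gc (restr J c) := by
  classical
  have h1 : (rd ⁻¹' J).indicator (𝓕 (gc c)) = 𝓕 (gc (restr J c)) := by
    funext ξ
    rw [fourier_gc]
    have h2 : ∑ n ∈ (restr J c).support, psin n ξ • (restr J c) n =
        ∑ n ∈ c.support, psin n ξ • (restr J c) n := by
      apply Finset.sum_subset
      · intro n hn
        rw [Finsupp.mem_support_iff, restr_apply] at hn
        rw [Finsupp.mem_support_iff]
        intro h0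
        rw [h0] at hn
        simp at hn
      · intro n _ hn
        rw [Finsupp.notMem_support_iff.1 hn, smul_zero]
    rw [h2]
    by_cases hξ : ξ ∈ rd ⁻¹' J
    · rw [Set.indicator_of_mem hξ, fourier_gc]
      apply Finset.sum_congr rfl
      intro n _
      by_cases h0 : psin n ξ = 0
      · rw [h0, zero_smul, zero_smul]
      · have h3 := rd_of_psin h0
        rw [restr_apply, if_pos]
        rw [← h3]
        exact hξ
    · rw [Set.indicator_of_notMem hξ]
      symm
      apply Finset.sum_eq_zero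
      intro n _
      by_cases h0 : psin n ξ = 0
      · rw [h0, zero_smul]
      · have h3 := rd_of_psin h0
        rw [restr_apply, if_neg, smul_zero]
        rw [← h3]
        exact hξ
  rw [lineProj, h1]
  obtain ⟨h1, h2, h3, h4⟩ := (isSc_gc (restr J c)).fourier_props
  have h5 : Integrable (𝓕 (gc (restr J c))) := h2.continuous.integrable_of_hasCompactSupport h1
  exact h4.fourierInv_fourier_eq h3 h5

/-- Comparison of norms. -/
theorem gc_norms {p : ℝ≥0∞} (hp : 1 ≤ p) : ∃ A B : ℝ≥0, 0 < A ∧ 0 < B ∧ ∀ c : ℤ →₀ X,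
    eLpNorm (trig c) p volume ≤ A * eLpNorm (gc c) p volume ∧
    eLpNorm (gc c) p volume ≤ B * eLpNorm (trig c) p volume := by
  obtain ⟨Bk, hB, hB2⟩ := phin_upper
  refine ⟨Real.toNNReal c0⁻¹, (∑' k, (Bk k : ℝ≥0∞)).toNNReal + 1,
    Real.toNNReal_pos.2 (inv_pos.2 c0_pos), by positivity, ?_⟩
  intro c
  constructor
  · rw [← eLpNorm_trig_cell c p 0]
    refine le_trans ?_ (mul_le_mul_right (eLpNorm_restrict_le (gc c) p volume (cell 0)) _)
    have h1 := eLpNorm_le_nnreal_smul_eLpNorm_of_ae_le_mul
      (f := fun t : ℝ => trig c (t : UnitAddCircle)) (g := gc c)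
      (c := Real.toNNReal c0⁻¹) (μ := volume.restrict (cell 0)) ?_ p
    · rw [ENNReal.smul_def, smul_eq_mul] at h1
      exact h1
    · filter_upwards [ae_restrict_mem (measurableSet_cell 0)] with t ht
      have h2 : |t| ≤ 1 / 2 := by
        have h3 := ht.1
        have h4 := ht.2
        push_cast at h3 h4
        rw [abs_le]
        constructor <;> linarith
      have h3 := phin_lower h2
      rw [← NNReal.coe_le_coe, NNReal.coe_mul, Real.coe_toNNReal _ (inv_pos.2 c0_pos).le]
      show ‖trig c (t : UnitAddCircle)‖ ≤ c0⁻¹ * ‖gc c t‖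
      rw [gc_eq, norm_smul]
      have h4 := c0_pos
      calc ‖trig c (t : UnitAddCircle)‖ = c0⁻¹ * (c0 * ‖trig c (t : UnitAddCircle)‖) := by
            field_simp
        _ ≤ _ := by gcongr
  · have hcont : Continuous (gc c) := (isSc_gc_continuous c)
    refine (eLpNorm_le_cells hp (gc c) hcont.aestronglyMeasurable).trans ?_
    have h5 : ∀ k : ℤ, eLpNorm (gc c) p (volume.restrict (cell k)) ≤
        Bk k * eLpNorm (trig c) p volume := by
      intro k
      rw [← eLpNorm_trig_cell c p k]
      have h1 := eLpNorm_le_nnreal_smul_eLpNorm_of_ae_le_mul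
        (g := fun t : ℝ => trig c (t : UnitAddCircle)) (f := gc c)
        (c := Bk k) (μ := volume.restrict (cell k)) ?_ p
      · rw [ENNReal.smul_def, smul_eq_mul] at h1
        exact h1
      · filter_upwards [ae_restrict_mem (measurableSet_cell k)] with t ht
        have h3 := hB2 k t ht
        rw [← NNReal.coe_le_coe]
        show ‖gc c t‖ ≤ Bk k * ‖trig c (t : UnitAddCircle)‖
        rw [gc_eq, norm_smul]
        gcongr
    refine (ENNReal.tsum_le_tsum h5).trans ?_
    rw [ENNReal.tsum_mul_right]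
    gcongr
    push_cast
    rw [ENNReal.coe_toNNReal hB]
    exact le_self_add

theorem lineProj_empty (f : ℝ → X) : lineProj ∅ f = 0 := by
  funext t
  rw [lineProj, fourierInv_real]
  simp

/-- The partition of the line attached to a partition of the integers. -/
def lift (P : Set (Set ℤ)) : Set (Set ℝ) :=
  {J | J ∈ Set.range (fun I : P => rd ⁻¹' (I : Set ℤ)) ∧ J.Nonempty}

theorem lift_disjoint {P : Set (Set ℤ)} (hP : IsIntervalPartition P) :
    Pairwise (Function.onFun Disjoint (fun I : P => rd ⁻¹' (I : Set ℤ))) := by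
  intro I J hIJ
  exact (hP.pairwise hIJ).preimage rd

theorem lift_partition {P : Set (Set ℤ)} (hP : IsIntervalPartition P) :
    IsIntervalPartition (lift P) := by
  apply isIntervalPartition_family
  · intro I
    exact (hP.2 I I.2).preimage_mono rd_mono
  · exact lift_disjoint hP
  · intro x
    exact hP.exists_mem (rd x)

theorem lift_nondegenerate {P : Set (Set ℤ)} (hP : IsIntervalPartition P) :
    Nondegenerate (lift P) := by
  rintro J ⟨⟨I, rfl⟩, -⟩
  obtain ⟨n, hn⟩ := hP.nonempty I
  refine ⟨(n : ℝ), ?_, (n : ℝ) + 1 / 4, ?_, ?_⟩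
  · show rd n ∈ (I : Set ℤ)
    rw [rd_int]
    exact hn
  · show rd (n + 1 / 4) ∈ (I : Set ℤ)
    have : rd ((n : ℝ) + 1 / 4) = n := by
      rw [rd, Int.floor_eq_iff]
      constructor <;> linarith
    rw [this]
    exact hn
  · intro h
    linarith

theorem lift_countable {P : Set (Set ℤ)} (hP : IsIntervalPartition P) :
    (lift P).Countable := by
  have := hP.countable_int
  apply (Set.countable_range (fun I : P => rd ⁻¹' (I : Set ℤ))).mono
  rintro J ⟨h, -⟩
  exact h

theorem UpperLine.toCircle [CompleteSpace X] {C : Set (Set ℝ) → Prop} {p q : ℝ≥0∞} (hp : 1 ≤ p)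
    (hq : 1 ≤ q) (hC : ∀ P : Set (Set ℤ), IsIntervalPartition P → C (lift P))
    (h : UpperLine C X p q) : UpperCircle X p q := by
  obtain ⟨U, hU, h⟩ := h
  obtain ⟨A, B, hA, hB, hAB⟩ := gc_norms (X := X) hp
  refine ⟨A * U * B, by positivity, ?_⟩
  rintro P hP f ⟨c, rfl⟩
  simp_rw [circleProj_trig]
  have h1 := h (lift P) (lift_partition hP) (hC P hP) (gc c) (isSc_gc c)
  have h2 := lq_family hq (fun I : P => rd ⁻¹' (I : Set ℤ)) (lift_disjoint hP)
    (fun J => eLpNorm (lineProj J (gc c)) p volume) (by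
      simp only [lineProj_empty, eLpNorm_zero])
  have h3 : lq q (fun I : lift P => eLpNorm (lineProj (I : Set ℝ) (gc c)) p volume) ≤
      B * lq q (fun I : P => eLpNorm (trig (restr (I : Set ℤ) c)) p volume) := by
    rw [← lq_const_mul hq]
    refine h2.le.trans ?_
    apply lq_mono hq
    intro I
    rw [lineProj_gc]
    exact (hAB _).2
  calc eLpNorm (trig c) p volume ≤ A * eLpNorm (gc c) p volume := (hAB c).1
    _ ≤ A * (U * (B * lq q (fun I : P => eLpNorm (trig (restr (I : Set ℤ) c)) p volume))) := by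
        gcongr
        exact h1.trans (by gcongr)
    _ = _ := by
        push_cast
        ring

theorem LowerLine.toCircle [CompleteSpace X] {C : Set (Set ℝ) → Prop} {p q : ℝ≥0∞} (hp : 1 ≤ p)
    (hq : 1 ≤ q) (hC : ∀ P : Set (Set ℤ), IsIntervalPartition P → C (lift P))
    (h : LowerLine C X p q) : LowerCircle X p q := by
  obtain ⟨U, hU, h⟩ := h
  obtain ⟨A, B, hA, hB, hAB⟩ := gc_norms (X := X) hp
  refine ⟨A * U * B, by positivity, ?_⟩
  rintro P hP f ⟨c, rfl⟩
  simp_rw [circleProj_trig]
  have h1 := h (lift P) (lift_partition hP) (hC P hP) (gc c) (isSc_gc c)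
  have h2 := lq_family hq (fun I : P => rd ⁻¹' (I : Set ℤ)) (lift_disjoint hP)
    (fun J => eLpNorm (lineProj J (gc c)) p volume) (by
      simp only [lineProj_empty, eLpNorm_zero])
  have h3 : lq q (fun I : P => eLpNorm (trig (restr (I : Set ℤ) c)) p volume) ≤
      A * lq q (fun I : lift P => eLpNorm (lineProj (I : Set ℝ) (gc c)) p volume) := by
    refine le_trans ?_ (mul_le_mul_right h2.symm.le _)
    rw [← lq_const_mul hq]
    apply lq_mono hq
    intro I
    rw [lineProj_gc]
    exact (hAB _).1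
  calc _ ≤ _ := h3
    _ ≤ A * (U * (B * eLpNorm (trig c) p volume)) := by
        gcongr
        exact h1.trans (by gcongr; exact (hAB c).2)
    _ = _ := by
        push_cast
        ring

end Pool.Agent.Q82.FDec
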