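import Mathlib
import Pool.Agent.Q82.FToT

open MeasureTheory Filter Topology FourierTransform
open scoped ENNReal NNReal SchwartzMap ContDiff

namespace Pool.Agent.Q82.FDec

universe u

variable {X : Type u} [NormedAddCommGroup X] [NormedSpace ℂ X]

/-- The coefficients of the Riemann sum of mesh `1/N` for `h` restricted to `A`. -/
noncomputable def coefs (h : ℝ → X) (R N : ℕ) (A : Set ℝ) : ℤ →₀ X :=
  Finsupp.onFinset (Finset.Icc (-((N * R : ℕ) : ℤ)) ((N * R : ℕ) : ℤ))
    (fun n => if n ∈ Finset.Icc (-((N * R : ℕ) : ℤ)) ((N * R : ℕ) : ℤ) then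
      (N : ℝ)⁻¹ • A.indicator h ((n : ℝ) / N) else 0)
    (by
      intro n hn
      by_contra hne
      rw [if_neg hne] at hn
      exact hn rfl)

theorem coefs_out {h : ℝ → X} {R N : ℕ} {A : Set ℝ} {n : ℤ}
    (hn : n ∉ Finset.Icc (-((N * R : ℕ) : ℤ)) ((N * R : ℕ) : ℤ)) : coefs h R N A n = 0 := by
  rw [coefs, Finsupp.onFinset_apply, if_neg hn]

theorem coefs_apply {h : ℝ → X} {R N : ℕ} (hR : ∀ ξ, (R : ℝ) < |ξ| → h ξ = 0) (hN : 0 < N)
    (A : Set ℝ) (n : ℤ) : coefs h R N A n = (N : ℝ)⁻¹ • A.indicator h ((n : ℝ) / N) := by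
  rw [coefs, Finsupp.onFinset_apply]
  split_ifs with hn
  · rfl
  · have h1 : h ((n : ℝ) / N) = 0 := by
      apply hR
      have hN' : (0 : ℝ) < N := by exact_mod_cast hN
      rw [abs_div, abs_of_pos hN', lt_div_iff₀ hN']
      rw [Finset.mem_Icc, not_and_or, not_le, not_le] at hn
      rcases hn with hn | hn
      · have : (n : ℝ) < -((N * R : ℕ) : ℝ) := by exact_mod_cast hn
        rw [lt_abs]
        right
        push_cast at this
        linarith
      · have : ((N * R : ℕ) : ℝ) < (n : ℝ) := by exact_mod_cast hn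
        rw [lt_abs]
        left
        push_cast at this
        linarith
    classical
    rw [Set.indicator_apply]
    split_ifs
    · rw [h1, smul_zero]
    · rw [smul_zero]

theorem restr_coefs {h : ℝ → X} {R N : ℕ} (A J : Set ℝ) :
    restr {n : ℤ | (n : ℝ) / N ∈ J} (coefs h R N A) = coefs h R N (A ∩ J) := by
  classical
  ext n
  rw [restr_apply, coefs, coefs, Finsupp.onFinset_apply, Finsupp.onFinset_apply]
  by_cases hJ : (n : ℝ) / N ∈ J
  · rw [if_pos (show n ∈ {n : ℤ | (n : ℝ) / N ∈ J} from hJ)]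
    congr 2
    by_cases hA : (n : ℝ) / N ∈ A
    · rw [Set.indicator_of_mem hA, Set.indicator_of_mem (Set.mem_inter hA hJ)]
    · rw [Set.indicator_of_notMem hA, Set.indicator_of_notMem (fun h => hA h.1)]
  · rw [if_neg (show n ∉ {n : ℤ | (n : ℝ) / N ∈ J} from hJ)]
    rw [Set.indicator_of_notMem (fun h => hJ h.2), smul_zero]
    simp

theorem coefs_empty {h : ℝ → X} {R N : ℕ} : coefs h R N ∅ = 0 := by
  ext n
  rw [coefs, Finsupp.onFinset_apply]
  simp

/-- The rescaled Riemann sum. -/
noncomputable def PN (h : ℝ → X) (R N : ℕ) (A : Set ℝ) (s : ℝ) : X :=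
  trig (coefs h R N A) ((s / N : ℝ) : UnitAddCircle)

theorem continuous_PN (h : ℝ → X) (R N : ℕ) (A : Set ℝ) : Continuous (PN h R N A) := by
  unfold PN
  exact (continuous_trig _).comp ((AddCircle.continuous_mk' 1).comp (by fun_prop))

theorem PN_eq {h : ℝ → X} {R N : ℕ} (hR : ∀ ξ, (R : ℝ) < |ξ| → h ξ = 0) (hN : 0 < N)
    (A : Set ℝ) (s : ℝ) : PN h R N A s =
      ∑ n ∈ Finset.Icc (-((N * R : ℕ) : ℤ)) ((N * R : ℕ) : ℤ),
        (N : ℝ)⁻¹ • (ec (s * ((n : ℝ) / N)) • A.indicator h ((n : ℝ) / N)) := by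
  rw [PN, trig_eq_sum (S := Finset.Icc (-((N * R : ℕ) : ℤ)) ((N * R : ℕ) : ℤ))]
  · apply Finset.sum_congr rfl
    intro n _
    rw [coefs_apply hR hN, fourier_coe_ec, smul_comm]
    congr 3
    ring
  · intro n hn
    exact coefs_out hn

/-- Riemann sum as an integral of a step function. -/
theorem PN_integral [CompleteSpace X] {h : ℝ → X} {R N : ℕ} (hR : ∀ ξ, (R : ℝ) < |ξ| → h ξ = 0) (hN : 0 < N)
    (A : Set ℝ) (s : ℝ) :
    AEStronglyMeasurable (fun x : ℝ => (fun ξ => ec (s * ξ) • A.indicator h ξ)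
      ((⌊(N : ℝ) * x⌋ : ℝ) / N)) volume ∧
    PN h R N A s = ∫ x : ℝ, (fun ξ => ec (s * ξ) • A.indicator h ξ) ((⌊(N : ℝ) * x⌋ : ℝ) / N) := by
  have hN' : (0 : ℝ) < N := by exact_mod_cast hN
  set u : ℝ → X := fun ξ => ec (s * ξ) • A.indicator h ξ with hu
  have hu0 : ∀ ξ, (R : ℝ) < |ξ| → u ξ = 0 := by
    intro ξ hξ
    classical
    rw [hu]
    simp only
    rw [Set.indicator_apply, hR ξ hξ]
    simp
  have h1 : (fun x : ℝ => u ((⌊(N : ℝ) * x⌋ : ℝ) / N)) = fun x =>
      ∑ n ∈ Finset.Icc (-((N * R : ℕ) : ℤ)) ((N * R : ℕ) : ℤ),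
        (Set.Ico ((n : ℝ) / N) (((n : ℝ) + 1) / N)).indicator (fun _ => u ((n : ℝ) / N)) x := by
    funext x
    have hmem : ∀ n : ℤ, x ∈ Set.Ico ((n : ℝ) / N) (((n : ℝ) + 1) / N) ↔
        n = ⌊(N : ℝ) * x⌋ := by
      intro n
      rw [Set.mem_Ico, div_le_iff₀ hN', lt_div_iff₀ hN', mul_comm x, eq_comm, Int.floor_eq_iff]
    by_cases hS : ⌊(N : ℝ) * x⌋ ∈ Finset.Icc (-((N * R : ℕ) : ℤ)) ((N * R : ℕ) : ℤ)
    · rw [Finset.sum_eq_single_of_mem _ hS]
      · rw [Set.indicator_of_mem ((hmem _).2 rfl)]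
      · intro n _ hn
        exact Set.indicator_of_notMem (fun hx => hn ((hmem n).1 hx)) _
    · rw [Finset.sum_eq_zero]
      · apply hu0
        rw [abs_div, abs_of_pos hN', lt_div_iff₀ hN']
        rw [Finset.mem_Icc, not_and_or, not_le, not_le] at hS
        rcases hS with hS | hS
        · have : ((⌊(N : ℝ) * x⌋ : ℤ) : ℝ) < -((N * R : ℕ) : ℝ) := by exact_mod_cast hS
          rw [lt_abs]
          right
          push_cast at this
          linarith
        · have : ((N * R : ℕ) : ℝ) < ((⌊(N : ℝ) * x⌋ : ℤ) : ℝ) := by exact_mod_cast hS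
          rw [lt_abs]
          left
          push_cast at this
          linarith
      · intro n hn
        apply Set.indicator_of_notMem
        intro hx
        rw [(hmem n).1 hx] at hn
        exact hS hn
  have hint : ∀ n ∈ Finset.Icc (-((N * R : ℕ) : ℤ)) ((N * R : ℕ) : ℤ), Integrable
      ((Set.Ico ((n : ℝ) / N) (((n : ℝ) + 1) / N)).indicator (fun _ => u ((n : ℝ) / N))) := by
    intro n _
    rw [integrable_indicator_iff measurableSet_Ico]
    exact integrableOn_const (by rw [Real.volume_Ico]; exact ENNReal.ofReal_ne_top)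
  constructor
  · show AEStronglyMeasurable (fun x : ℝ => u ((⌊(N : ℝ) * x⌋ : ℝ) / N)) volume
    rw [h1]
    exact (integrable_finsetSum _ hint).aestronglyMeasurable
  · show _ = ∫ x : ℝ, u ((⌊(N : ℝ) * x⌋ : ℝ) / N)
    rw [h1, integral_finsetSum _ hint, PN_eq hR hN]
    apply Finset.sum_congr rfl
    intro n _
    rw [integral_indicator_const _ measurableSet_Ico]
    congr 1
    rw [Real.volume_real_Ico_of_le (by gcongr; linarith)]
    field_simp
    ring

theorem tendsto_floor_div (x : ℝ) :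
    Tendsto (fun N : ℕ => ((⌊(N : ℝ) * x⌋ : ℝ) / N)) atTop (𝓝 x) := by
  have h1 : Tendsto (fun N : ℕ => x - 1 / (N : ℝ)) atTop (𝓝 x) := by
    have := (tendsto_const_nhds (x := x)).sub (tendsto_one_div_atTop_nhds_zero_nat (𝕜 := ℝ))
    simpa using this
  apply tendsto_of_tendsto_of_tendsto_of_le_of_le' h1 tendsto_const_nhds
  · filter_upwards [eventually_gt_atTop 0] with N hN
    have hN' : (0 : ℝ) < N := by exact_mod_cast hN
    rw [le_div_iff₀ hN']
    have := Int.sub_one_lt_floor ((N : ℝ) * x)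
    have h2 : (x - 1 / (N : ℝ)) * N = N * x - 1 := by
      field_simp
    rw [h2]
    exact this.le
  · filter_upwards [eventually_gt_atTop 0] with N hN
    have hN' : (0 : ℝ) < N := by exact_mod_cast hN
    rw [div_le_iff₀ hN']
    have := Int.floor_le ((N : ℝ) * x)
    linarith

/-- Convergence of the Riemann sums. -/
theorem PN_tendsto [CompleteSpace X] {h : ℝ → X} (hc : Continuous h) {R : ℕ}
    (hR : ∀ ξ, (R : ℝ) < |ξ| → h ξ = 0)
    {M : ℝ} (hM : ∀ ξ, ‖h ξ‖ ≤ M) {A : Set ℝ} (hA : MeasurableSet A)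
    (hA0 : volume (frontier A) = 0) (s : ℝ) :
    Tendsto (fun N : ℕ => PN h R N A s) atTop (𝓝 (∫ ξ in A, ec (s * ξ) • h ξ)) := by
  have hM0 : 0 ≤ M := (norm_nonneg _).trans (hM 0)
  have h0 : ∫ ξ in A, ec (s * ξ) • h ξ = ∫ ξ, ec (s * ξ) • A.indicator h ξ := by
    rw [← integral_indicator hA]
    apply integral_congr_ae
    filter_upwards with ξ
    by_cases hξ : ξ ∈ A
    · rw [Set.indicator_of_mem hξ, Set.indicator_of_mem hξ]
    · rw [Set.indicator_of_notMem hξ, Set.indicator_of_notMem hξ, smul_zero]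
  rw [h0]
  have h1 : Tendsto (fun N : ℕ => ∫ x : ℝ, (fun ξ => ec (s * ξ) • A.indicator h ξ)
      ((⌊(N : ℝ) * x⌋ : ℝ) / N)) atTop (𝓝 (∫ ξ, ec (s * ξ) • A.indicator h ξ)) := by
    apply tendsto_integral_filter_of_dominated_convergence
      (bound := (Set.Icc (-(R : ℝ) - 1) (R + 1)).indicator (fun _ => M))
    · filter_upwards [eventually_gt_atTop 0] with N hN
      exact (PN_integral hR hN A s).1
    · filter_upwards [eventually_gt_atTop 0] with N hN
      filter_upwards with x
      have hN' : (0 : ℝ) < N := by exact_mod_cast hN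
      have hN1 : (1 : ℝ) ≤ N := by exact_mod_cast hN
      by_cases hx : x ∈ Set.Icc (-(R : ℝ) - 1) (R + 1)
      · rw [Set.indicator_of_mem hx]
        rw [norm_smul, norm_ec, one_mul]
        exact (norm_indicator_le_norm_self _ _).trans (hM _)
      · rw [Set.indicator_of_notMem hx]
        have h2 : h ((⌊(N : ℝ) * x⌋ : ℝ) / N) = 0 := by
          apply hR
          rw [Set.mem_Icc, not_and_or, not_le, not_le] at hx
          rw [lt_abs]
          rcases hx with hx | hx
          · right
            have h3 : (⌊(N : ℝ) * x⌋ : ℝ) / N ≤ x := by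
              rw [div_le_iff₀ hN']
              have := Int.floor_le ((N : ℝ) * x)
              linarith
            linarith
          · left
            have h3 : x - 1 < (⌊(N : ℝ) * x⌋ : ℝ) / N := by
              rw [lt_div_iff₀ hN']
              have := Int.sub_one_lt_floor ((N : ℝ) * x)
              nlinarith
            linarith
        classical
        rw [Set.indicator_apply, h2]
        simp
    · rw [integrable_indicator_iff measurableSet_Icc]
      exact integrableOn_const (by rw [Real.volume_Icc]; exact ENNReal.ofReal_ne_top)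
    · have h2 : ∀ᵐ x : ℝ, x ∉ frontier A := measure_eq_zero_iff_ae_notMem.1 hA0
      filter_upwards [h2] with x hx
      have h3 : ContinuousAt (fun ξ => ec (s * ξ) • A.indicator h ξ) x := by
        by_cases hi : x ∈ interior A
        · have h4 : (fun ξ => ec (s * ξ) • A.indicator h ξ) =ᶠ[𝓝 x] fun ξ => ec (s * ξ) • h ξ := by
            filter_upwards [isOpen_interior.mem_nhds hi] with ξ hξ
            rw [Set.indicator_of_mem (interior_subset hξ)]
          rw [continuousAt_congr h4]
          apply Continuous.continuousAt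
          fun_prop
        · have hcl : x ∈ (closure A)ᶜ := by
            intro h5
            exact hx ⟨h5, hi⟩
          have h4 : (fun ξ => ec (s * ξ) • A.indicator h ξ) =ᶠ[𝓝 x] fun ξ => (0 : X) := by
            filter_upwards [isClosed_closure.isOpen_compl.mem_nhds hcl] with ξ hξ
            rw [Set.indicator_of_notMem (fun h6 => hξ (subset_closure h6)), smul_zero]
          rw [continuousAt_congr h4]
          exact continuousAt_const
      exact h3.tendsto.comp (tendsto_floor_div x)
  apply h1.congr'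
  filter_upwards [eventually_gt_atTop 0] with N hN
  exact (PN_integral hR hN A s).2.symm

theorem frontier_null {A : Set ℝ} (h : A.OrdConnected) :
    volume (frontier A) = 0 := h.convex.addHaar_frontier volume

end Pool.Agent.Q82.FDec
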