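import Mathlib
import Pool.Agent.Q82.FRiem

open MeasureTheory Filter Topology FourierTransform
open scoped ENNReal NNReal SchwartzMap ContDiff

namespace Pool.Agent.Q82.FDec

universe u

variable {X : Type u} [NormedAddCommGroup X] [NormedSpace ℂ X]

theorem one_sub_ec_lower {x : ℝ} (hx : |x| ≤ 1 / 2) : 4 * |x| ≤ ‖1 - ec x‖ := by
  have h1 : ‖1 - ec x‖ = ‖2 * Real.sin (2 * Real.pi * x / 2)‖ := by
    rw [← Complex.norm_exp_I_mul_ofReal_sub_one, norm_sub_rev, ec_eq, mul_comm Complex.I]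
  have hpi := Real.pi_pos
  have h2 : |2 * Real.pi * x / 2| ≤ Real.pi / 2 := by
    have : 2 * Real.pi * x / 2 = Real.pi * x := by ring
    rw [this, abs_mul, abs_of_pos hpi]
    nlinarith
  have h3 := Real.mul_abs_le_abs_sin h2
  rw [h1, norm_mul, Real.norm_eq_abs, Real.norm_eq_abs, abs_of_pos (by norm_num : (0 : ℝ) < 2)]
  have h4 : 2 / Real.pi * |2 * Real.pi * x / 2| = 2 * |x| := by
    have : 2 * Real.pi * x / 2 = Real.pi * x := by ring
    rw [this, abs_mul, abs_of_pos hpi]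
    field_simp
  linarith

/-- Summation by parts. -/
theorem abel (c : ℤ →₀ X) (L : ℕ) (hc : ∀ n ∉ Finset.Icc (-(L : ℤ)) (L : ℤ), c n = 0)
    (t : UnitAddCircle) :
    (1 - fourier 1 t) • trig c t =
      ∑ n ∈ Finset.Icc (-(L : ℤ)) (L + 1), fourier n t • (c n - c (n - 1)) := by
  have h1 : trig c t = ∑ n ∈ Finset.Icc (-(L : ℤ)) (L + 1), fourier n t • c n := by
    apply trig_eq_sum
    intro n hn
    apply hc
    rw [Finset.mem_Icc] at hn ⊢
    omega
  have h2 : trig c t = ∑ n ∈ Finset.Icc (-(L : ℤ) - 1) L, fourier n t • c n := by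
    apply trig_eq_sum
    intro n hn
    apply hc
    rw [Finset.mem_Icc] at hn ⊢
    omega
  have h3 : ∑ n ∈ Finset.Icc (-(L : ℤ)) (L + 1), fourier n t • c (n - 1) =
      fourier 1 t • trig c t := by
    rw [h2, Finset.smul_sum]
    apply Finset.sum_equiv (Equiv.subRight (1 : ℤ))
    · intro n
      rw [Finset.mem_Icc, Finset.mem_Icc, Equiv.subRight_apply]
      omega
    · intro n _
      rw [Equiv.subRight_apply, smul_smul, ← fourier_add]
      congr 2
      ring_nf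
  simp_rw [smul_sub]
  rw [Finset.sum_sub_distrib, h3, ← h1, sub_smul, one_smul]

theorem abel_norm (c : ℤ →₀ X) (L : ℕ) (hc : ∀ n ∉ Finset.Icc (-(L : ℤ)) (L : ℤ), c n = 0)
    (t : UnitAddCircle) :
    ‖1 - fourier 1 t‖ * ‖trig c t‖ ≤ ∑ n ∈ Finset.Icc (-(L : ℤ)) (L + 1), ‖c n - c (n - 1)‖ := by
  rw [← norm_smul, abel c L hc t]
  refine (norm_sum_le _ _).trans ?_
  apply Finset.sum_le_sum
  intro n _
  rw [norm_smul]
  have : ‖fourier n t‖ = 1 := by
    rw [fourier_apply]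
    exact Circle.norm_coe _
  rw [this, one_mul]

theorem card_entry {J : Set ℤ} (hJ : J.OrdConnected) (S : Finset ℤ) :
    open Classical in (S.filter (fun n => n ∈ J ∧ n - 1 ∉ J)).card ≤ 1 := by
  classical
  rw [Finset.card_le_one]
  intro a ha b hb
  rw [Finset.mem_filter] at ha hb
  rcases lt_trichotomy a b with h | h | h
  · exact absurd (hJ.out ha.2.1 hb.2.1 ⟨by omega, by omega⟩) hb.2.2
  · exact h
  · exact absurd (hJ.out hb.2.1 ha.2.1 ⟨by omega, by omega⟩) ha.2.2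

theorem card_exit {J : Set ℤ} (hJ : J.OrdConnected) (S : Finset ℤ) :
    open Classical in (S.filter (fun n => n ∉ J ∧ n - 1 ∈ J)).card ≤ 1 := by
  classical
  rw [Finset.card_le_one]
  intro a ha b hb
  rw [Finset.mem_filter] at ha hb
  rcases lt_trichotomy a b with h | h | h
  · exact absurd (hJ.out ha.2.2 hb.2.2 ⟨by omega, by omega⟩) ha.2.1
  · exact h
  · exact absurd (hJ.out hb.2.2 ha.2.2 ⟨by omega, by omega⟩) hb.2.1

/-- Variation of the coefficients. -/
theorem variation {v : ℤ → X} {M δ : ℝ} (hM : ∀ n, ‖v n‖ ≤ M) (hδ : ∀ n, ‖v n - v (n - 1)‖ ≤ δ)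
    {J : Set ℤ} (hJ : J.OrdConnected) (S : Finset ℤ) :
    ∑ n ∈ S, ‖J.indicator v n - J.indicator v (n - 1)‖ ≤ S.card * δ + 2 * M := by
  classical
  have hM0 : 0 ≤ M := (norm_nonneg _).trans (hM 0)
  have hδ0 : 0 ≤ δ := (norm_nonneg _).trans (hδ 0)
  have h1 : ∀ n, ‖J.indicator v n - J.indicator v (n - 1)‖ ≤
      δ + (if n ∈ J ∧ n - 1 ∉ J then M else 0) + (if n ∉ J ∧ n - 1 ∈ J then M else 0) := by
    intro n
    by_cases h2 : n ∈ J
    · by_cases h3 : n - 1 ∈ J
      · rw [Set.indicator_of_mem h2, Set.indicator_of_mem h3, if_neg (by tauto),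
          if_neg (by tauto)]
        have := hδ n
        linarith
      · rw [Set.indicator_of_mem h2, Set.indicator_of_notMem h3, if_pos ⟨h2, h3⟩,
          if_neg (by tauto), sub_zero]
        have := hM n
        linarith
    · by_cases h3 : n - 1 ∈ J
      · rw [Set.indicator_of_notMem h2, Set.indicator_of_mem h3, if_neg (by tauto),
          if_pos ⟨h2, h3⟩, zero_sub, norm_neg]
        have := hM (n - 1)
        linarith
      · rw [Set.indicator_of_notMem h2, Set.indicator_of_notMem h3, if_neg (by tauto),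
          if_neg (by tauto), sub_zero, norm_zero]
        linarith
  refine (Finset.sum_le_sum fun n _ => h1 n).trans ?_
  rw [Finset.sum_add_distrib, Finset.sum_add_distrib, Finset.sum_const, nsmul_eq_mul,
    ← Finset.sum_filter, ← Finset.sum_filter, Finset.sum_const, Finset.sum_const,
    nsmul_eq_mul, nsmul_eq_mul]
  have h4 : (((S.filter (fun n => n ∈ J ∧ n - 1 ∉ J)).card : ℕ) : ℝ) ≤ 1 := by
    have := card_entry hJ S
    exact_mod_cast this
  have h5 : (((S.filter (fun n => n ∉ J ∧ n - 1 ∈ J)).card : ℕ) : ℝ) ≤ 1 := by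
    have := card_exit hJ S
    exact_mod_cast this
  nlinarith

/-- The window. -/
def win (N : ℕ) : Set ℝ := Set.Ioc (-((N : ℝ) / 2)) ((N : ℝ) / 2)

theorem measurableSet_win (N : ℕ) : MeasurableSet (win N) := measurableSet_Ioc

/-- The uniform decay of the Riemann sums on the window. -/
theorem PN_bound {h : ℝ → X} {R : ℕ} (hR : ∀ ξ, (R : ℝ) < |ξ| → h ξ = 0)
    {M : ℝ} (hM : ∀ ξ, ‖h ξ‖ ≤ M) {K : ℝ≥0} (hK : LipschitzWith K h) :
    ∃ C : ℝ, 0 ≤ C ∧ ∀ I : Set ℝ, I.OrdConnected → ∀ N : ℕ, 0 < N → ∀ s ∈ win N,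
      ‖PN h R N I s‖ ≤ C * (1 + |s|)⁻¹ := by
  have hM0 : 0 ≤ M := (norm_nonneg _).trans (hM 0)
  have hK0 : (0 : ℝ) ≤ K := K.2
  refine ⟨(2 * R + 1) * M + ((2 * R + 2) * K + 2 * M) / 4, by positivity, ?_⟩
  intro I hI N hN s hs
  have hN' : (0 : ℝ) < N := by exact_mod_cast hN
  have hN1 : (1 : ℝ) ≤ N := by exact_mod_cast hN
  have hb1 : ‖PN h R N I s‖ ≤ (2 * R + 1) * M := by
    rw [PN_eq hR hN]
    refine (norm_sum_le _ _).trans ?_
    have h1 : ∀ n ∈ Finset.Icc (-((N * R : ℕ) : ℤ)) ((N * R : ℕ) : ℤ),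
        ‖(N : ℝ)⁻¹ • (ec (s * ((n : ℝ) / N)) • I.indicator h ((n : ℝ) / N))‖ ≤
        (N : ℝ)⁻¹ * M := by
      intro n _
      rw [norm_smul, norm_smul, norm_ec, one_mul, Real.norm_eq_abs,
        abs_of_pos (inv_pos.2 hN')]
      gcongr
      exact (norm_indicator_le_norm_self _ _).trans (hM _)
    refine (Finset.sum_le_sum h1).trans ?_
    rw [Finset.sum_const, nsmul_eq_mul, Int.card_Icc]
    have h2 : ((((N * R : ℕ) : ℤ) + 1 - (-((N * R : ℕ) : ℤ))).toNat : ℝ) = 2 * N * R + 1 := by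
      have h3 : ((N * R : ℕ) : ℤ) + 1 - (-((N * R : ℕ) : ℤ)) = ((2 * N * R + 1 : ℕ) : ℤ) := by
        push_cast
        ring
      rw [h3, Int.toNat_natCast]
      push_cast
      ring
    rw [h2, ← mul_assoc]
    have h4 : (2 * N * R + 1) * (N : ℝ)⁻¹ ≤ 2 * R + 1 := by
      rw [← div_eq_mul_inv, div_le_iff₀ hN']
      nlinarith [(Nat.cast_nonneg R : (0 : ℝ) ≤ R)]
    gcongr
  have hb2 : |s| * ‖PN h R N I s‖ ≤ ((2 * R + 2) * K + 2 * M) / 4 := by
    have h1 := abel_norm (coefs h R N I) (N * R) (fun n hn => coefs_out (by exact_mod_cast hn))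
      ((s / N : ℝ) : UnitAddCircle)
    have h2 : (fourier 1 ((s / N : ℝ) : UnitAddCircle) : ℂ) = ec (s / N) := by
      rw [fourier_coe_ec]
      simp
    rw [h2] at h1
    have h3 : |s / N| ≤ 1 / 2 := by
      rw [abs_div, abs_of_pos hN', div_le_iff₀ hN', abs_le]
      have h4 := hs.1
      have h5 := hs.2
      constructor <;> linarith
    have h4 := one_sub_ec_lower h3
    set J : Set ℤ := {n : ℤ | (n : ℝ) / N ∈ I} with hJ
    have hJo : J.OrdConnected := by
      apply hI.preimage_mono (f := fun n : ℤ => (n : ℝ) / N)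
      intro a b hab
      have : (a : ℝ) ≤ b := by exact_mod_cast hab
      simp only
      gcongr
    have h5 : ∀ n, coefs h R N I n = (N : ℝ)⁻¹ • J.indicator (fun n : ℤ => h ((n : ℝ) / N)) n := by
      intro n
      rw [coefs_apply hR hN]
      congr 1
    have h6 := variation (v := fun n : ℤ => h ((n : ℝ) / N)) (M := M) (δ := K / N)
      (fun n => hM _) (fun n => by
        have := hK.dist_le_mul ((n : ℝ) / N) (((n - 1 : ℤ) : ℝ) / N)
        rw [dist_eq_norm] at this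
        refine this.trans (le_of_eq ?_)
        rw [Real.dist_eq]
        have h7 : (n : ℝ) / N - ((n - 1 : ℤ) : ℝ) / N = 1 / N := by
          push_cast
          ring
        rw [h7, abs_of_pos (by positivity)]
        ring) hJo (Finset.Icc (-((N * R : ℕ) : ℤ)) (((N * R : ℕ) : ℤ) + 1))
    have h7 : ∑ n ∈ Finset.Icc (-((N * R : ℕ) : ℤ)) (((N * R : ℕ) : ℤ) + 1),
        ‖coefs h R N I n - coefs h R N I (n - 1)‖ ≤ (N : ℝ)⁻¹ * ((2 * R + 2) * K + 2 * M) := by
      simp_rw [h5, ← smul_sub, norm_smul]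
      rw [← Finset.mul_sum, Real.norm_eq_abs, abs_of_pos (inv_pos.2 hN')]
      refine mul_le_mul_of_nonneg_left (h6.trans ?_) (inv_pos.2 hN').le
      have h8 : ((Finset.Icc (-((N * R : ℕ) : ℤ)) (((N * R : ℕ) : ℤ) + 1)).card : ℝ) =
          2 * N * R + 2 := by
        rw [Int.card_Icc]
        have h3 : ((N * R : ℕ) : ℤ) + 1 + 1 - (-((N * R : ℕ) : ℤ)) =
            ((2 * N * R + 2 : ℕ) : ℤ) := by
          push_cast
          ring
        rw [h3, Int.toNat_natCast]
        push_cast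
        ring
      rw [h8]
      have h9 : (2 * N * R + 2) * (K / N : ℝ) ≤ (2 * R + 2) * K := by
        rw [mul_div_assoc', div_le_iff₀ hN']
        have : (K : ℝ) ≤ K * N := by nlinarith
        nlinarith
      linarith
    have h8 : ‖PN h R N I s‖ = ‖trig (coefs h R N I) ((s / N : ℝ) : UnitAddCircle)‖ := rfl
    rw [← h8] at h1
    have h9 : |s / N| = |s| * (N : ℝ)⁻¹ := by
      rw [abs_div, abs_of_pos hN', div_eq_mul_inv]
    rw [h9] at h4
    have h10 : 4 * (|s| * (N : ℝ)⁻¹) * ‖PN h R N I s‖ ≤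
        (N : ℝ)⁻¹ * ((2 * R + 2) * K + 2 * M) :=
      (mul_le_mul_of_nonneg_right h4 (norm_nonneg _)).trans (h1.trans h7)
    have h11 : (N : ℝ)⁻¹ * (4 * (|s| * ‖PN h R N I s‖)) ≤
        (N : ℝ)⁻¹ * ((2 * R + 2) * K + 2 * M) := by
      linarith
    have h12 := le_of_mul_le_mul_left h11 (inv_pos.2 hN')
    linarith
  have hs0 : 0 < 1 + |s| := by positivity
  rw [← div_eq_mul_inv, le_div_iff₀ hs0]
  linarith

end Pool.Agent.Q82.FDec
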