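import Mathlib
import Pool.Agent.Q82.FDom

open MeasureTheory Filter Topology FourierTransform
open scoped ENNReal NNReal SchwartzMap ContDiff

namespace Pool.Agent.Q82.FDec

universe u

variable {X : Type u} [NormedAddCommGroup X] [NormedSpace ℂ X]

/-- The truncated inverse transform. -/
noncomputable def TI (A : Set ℝ) (h : ℝ → X) (s : ℝ) : X := ∫ ξ in A, ec (s * ξ) • h ξ

theorem window_tendsto [CompleteSpace X] {h : ℝ → X} (hc : Continuous h) {R : ℕ}
    (hR : ∀ ξ, (R : ℝ) < |ξ| → h ξ = 0)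
    {M : ℝ} (hM : ∀ ξ, ‖h ξ‖ ≤ M) {A : Set ℝ} (hA : MeasurableSet A)
    (hA0 : volume (frontier A) = 0) (s : ℝ) :
    Tendsto (fun N : ℕ => (win N).indicator (PN h R N A) s) atTop (𝓝 (TI A h s)) := by
  apply (PN_tendsto hc hR hM hA hA0 s).congr'
  obtain ⟨N0, hN0⟩ := exists_nat_gt (2 * |s|)
  filter_upwards [eventually_ge_atTop N0] with N hN
  rw [Set.indicator_of_mem]
  have h1 : (N0 : ℝ) ≤ N := by exact_mod_cast hN
  have h2 := neg_abs_le s
  have h3 := le_abs_self s
  constructor <;> linarith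

theorem fatou_PN [CompleteSpace X] {h : ℝ → X} (hc : Continuous h) {R : ℕ}
    (hR : ∀ ξ, (R : ℝ) < |ξ| → h ξ = 0)
    {M : ℝ} (hM : ∀ ξ, ‖h ξ‖ ≤ M) {A : Set ℝ} (hA : MeasurableSet A)
    (hA0 : volume (frontier A) = 0) (p : ℝ≥0∞) :
    eLpNorm (TI A h) p volume ≤
      liminf (fun N : ℕ => eLpNorm (PN h R N A) p (volume.restrict (win N))) atTop := by
  have h1 := Lp.eLpNorm_lim_le_liminf_eLpNorm (p := p) (μ := volume)
    (f := fun (N : ℕ) => (win N).indicator (PN h R N A))
    (fun N => (continuous_PN h R N A).aestronglyMeasurable.indicator (measurableSet_win N))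
    (TI A h) (by
      filter_upwards with s
      exact window_tendsto hc hR hM hA hA0 s)
  refine h1.trans (le_of_eq ?_)
  congr 1
  funext N
  rw [eLpNorm_indicator_eq_eLpNorm_restrict (measurableSet_win N)]

theorem norm_tendsto [CompleteSpace X] {h : ℝ → X} (hc : Continuous h) {R : ℕ}
    (hR : ∀ ξ, (R : ℝ) < |ξ| → h ξ = 0)
    {M : ℝ} (hM : ∀ ξ, ‖h ξ‖ ≤ M) {K : ℝ≥0} (hK : LipschitzWith K h)
    {I : Set ℝ} (hI : I.OrdConnected) {p : ℝ≥0∞} (hp : 1 < p) (hpt : p ≠ ⊤) :
    Tendsto (fun N : ℕ => eLpNorm (PN h R N I) p (volume.restrict (win N))) atTop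
      (𝓝 (eLpNorm (TI I h) p volume)) := by
  obtain ⟨C, hC0, hC⟩ := PN_bound hR hM hK
  have hp0 : p ≠ 0 := by
    rintro rfl
    exact absurd hp (by simp)
  have hpr : 1 < p.toReal := by
    rw [← ENNReal.toReal_one]
    exact (ENNReal.toReal_lt_toReal ENNReal.one_ne_top hpt).2 hp
  have h1 : ∀ N : ℕ, eLpNorm (PN h R N I) p (volume.restrict (win N)) =
      (∫⁻ s, ‖(win N).indicator (PN h R N I) s‖ₑ ^ p.toReal) ^ (1 / p.toReal) := by
    intro N
    rw [← eLpNorm_indicator_eq_eLpNorm_restrict (measurableSet_win N),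
      eLpNorm_eq_lintegral_rpow_enorm_toReal hp0 hpt]
  simp_rw [h1]
  rw [eLpNorm_eq_lintegral_rpow_enorm_toReal hp0 hpt]
  apply (ENNReal.continuous_rpow_const.tendsto _).comp
  have hmeas : ∀ N : ℕ, AEStronglyMeasurable ((win N).indicator (PN h R N I)) volume :=
    fun N => (continuous_PN h R N I).aestronglyMeasurable.indicator (measurableSet_win N)
  apply tendsto_lintegral_of_dominated_convergence'
    (bound := fun s : ℝ => ENNReal.ofReal (C ^ p.toReal * (1 + ‖s‖) ^ (-p.toReal)))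
  · intro N
    exact ((hmeas N).enorm).pow_const _
  · intro N
    filter_upwards with s
    show ‖(win N).indicator (PN h R N I) s‖ₑ ^ p.toReal ≤
      ENNReal.ofReal (C ^ p.toReal * (1 + ‖s‖) ^ (-p.toReal))
    have h2 : ‖(win N).indicator (PN h R N I) s‖ ≤ C * (1 + |s|)⁻¹ := by
      by_cases hs : s ∈ win N
      · rw [Set.indicator_of_mem hs]
        rcases Nat.eq_zero_or_pos N with h0 | h0
        · exfalso
          subst h0
          have h3 := hs.1
          have h4 := hs.2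
          simp at h3 h4
          linarith
        · exact hC I hI N h0 s hs
      · rw [Set.indicator_of_notMem hs, norm_zero]
        positivity
    have h3 : C ^ p.toReal * (1 + ‖s‖) ^ (-p.toReal) = (C * (1 + |s|)⁻¹) ^ p.toReal := by
      rw [Real.mul_rpow hC0 (by positivity), Real.rpow_neg (by positivity),
        Real.inv_rpow (by positivity), Real.norm_eq_abs]
    rw [h3, ← ofReal_norm, ENNReal.ofReal_rpow_of_nonneg (norm_nonneg _) (by positivity)]
    apply ENNReal.ofReal_le_ofReal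
    exact Real.rpow_le_rpow (norm_nonneg _) h2 (by positivity)
  · have h2 : Integrable (fun s : ℝ => C ^ p.toReal * (1 + ‖s‖) ^ (-p.toReal)) :=
      (integrable_one_add_norm (E := ℝ) (r := p.toReal) (by simpa using hpr)).const_mul _
    have h3 := h2.lintegral_lt_top
    exact h3.ne
  · filter_upwards with s
    apply (ENNReal.continuous_rpow_const.tendsto _).comp
    exact ((continuous_enorm.tendsto _).comp
      (window_tendsto hc hR hM hI.measurableSet (frontier_null hI) s))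

theorem scaled_PN (h : ℝ → X) (R : ℕ) {N : ℕ} (hN : 0 < N) (A : Set ℝ) (p : ℝ≥0∞) :
    eLpNorm (PN h R N A) p (volume.restrict (win N)) =
      ENNReal.ofReal N ^ (1 / p).toReal * eLpNorm (trig (coefs h R N A)) p volume := by
  have hN' : (0 : ℝ) < N := by exact_mod_cast hN
  exact eLpNorm_scaled (coefs h R N A) p hN'

/-- The partition of the integers induced at level `N`. -/
def lev (P : Set (Set ℝ)) (N : ℕ) (J : P) : Set ℤ := {n : ℤ | (n : ℝ) / N ∈ (J : Set ℝ)}

theorem lev_facts {P : Set (Set ℝ)} (hP : IsIntervalPartition P) (N : ℕ) :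
    (∀ J : P, (lev P N J).OrdConnected) ∧ Pairwise (Function.onFun Disjoint (lev P N)) ∧
      (∀ n : ℤ, ∃ J : P, n ∈ lev P N J) := by
  refine ⟨?_, ?_, ?_⟩
  · intro J
    apply (hP.2 J J.2).preimage_mono (f := fun n : ℤ => (n : ℝ) / N)
    intro a b hab
    have : (a : ℝ) ≤ b := by exact_mod_cast hab
    simp only
    gcongr
  · intro J K hJK
    exact (hP.pairwise hJK).preimage (fun n : ℤ => (n : ℝ) / N)
  · intro n
    exact hP.exists_mem _

theorem upper_level [CompleteSpace X] {p q : ℝ≥0∞} (hq : 1 ≤ q) {U : ℝ≥0}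
    (hU : ∀ (ι : Type) (I : ι → Set ℤ),
      (∀ i, (I i).OrdConnected) → Pairwise (Function.onFun Disjoint I) → (∀ x, ∃ i, x ∈ I i) →
      ∀ c : ℤ →₀ X, eLpNorm (trig c) p volume ≤
        U * lq q (fun i => eLpNorm (trig (restr (I i) c)) p volume))
    {P : Set (Set ℝ)} (hP : IsIntervalPartition P) (h : ℝ → X) (R : ℕ) {N : ℕ} (hN : 0 < N)
    (A : Set ℝ) :
    eLpNorm (PN h R N A) p (volume.restrict (win N)) ≤
      U * lq q (fun J : P => eLpNorm (PN h R N (A ∩ J)) p (volume.restrict (win N))) := by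
  obtain ⟨h1, h2, h3⟩ := lev_facts hP N
  have h4 := hU P (lev P N) h1 h2 h3 (coefs h R N A)
  simp_rw [scaled_PN h R hN]
  rw [lq_const_mul hq]
  have h5 : ∀ J : P, restr (lev P N J) (coefs h R N A) = coefs h R N (A ∩ J) :=
    fun J => restr_coefs A J
  simp_rw [h5] at h4
  calc _ ≤ ENNReal.ofReal N ^ (1 / p).toReal *
        (U * lq q (fun J : P => eLpNorm (trig (coefs h R N (A ∩ J))) p volume)) := by
        gcongr
    _ = _ := by ring

theorem lower_level [CompleteSpace X] {p q : ℝ≥0∞} (hq : 1 ≤ q) {U : ℝ≥0}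
    (hU : ∀ (ι : Type) (I : ι → Set ℤ),
      (∀ i, (I i).OrdConnected) → Pairwise (Function.onFun Disjoint I) → (∀ x, ∃ i, x ∈ I i) →
      ∀ c : ℤ →₀ X, lq q (fun i => eLpNorm (trig (restr (I i) c)) p volume) ≤
        U * eLpNorm (trig c) p volume)
    {P : Set (Set ℝ)} (hP : IsIntervalPartition P) (h : ℝ → X) (R : ℕ) {N : ℕ} (hN : 0 < N)
    (A : Set ℝ) :
    lq q (fun J : P => eLpNorm (PN h R N (A ∩ J)) p (volume.restrict (win N))) ≤
      U * eLpNorm (PN h R N A) p (volume.restrict (win N)) := by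
  obtain ⟨h1, h2, h3⟩ := lev_facts hP N
  have h4 := hU P (lev P N) h1 h2 h3 (coefs h R N A)
  simp_rw [scaled_PN h R hN]
  rw [lq_const_mul hq]
  have h5 : ∀ J : P, restr (lev P N J) (coefs h R N A) = coefs h R N (A ∩ J) :=
    fun J => restr_coefs A J
  simp_rw [h5] at h4
  calc _ ≤ ENNReal.ofReal N ^ (1 / p).toReal *
        (U * eLpNorm (trig (coefs h R N A)) p volume) := by
        gcongr
    _ = _ := by ring

/-- Data attached to `f ∈ S_c`. -/
theorem IsSc.data [CompleteSpace X] {f : ℝ → X} (hf : IsSc f) :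
    ∃ (R : ℕ) (M : ℝ) (K : ℝ≥0), Continuous (𝓕 f) ∧ (∀ ξ, (R : ℝ) < |ξ| → 𝓕 f ξ = 0) ∧
      (∀ ξ, ‖𝓕 f ξ‖ ≤ M) ∧ LipschitzWith K (𝓕 f) ∧ Integrable (𝓕 f) := by
  obtain ⟨h1, h2, h3, h4⟩ := hf.fourier_props
  obtain ⟨K, hK⟩ := h2.lipschitzWith_of_hasCompactSupport h1 (by simp)
  obtain ⟨M, hM⟩ := h2.continuous.bounded_above_of_compact_support h1
  obtain ⟨r, hr⟩ := (h1.isCompact.isBounded).subset_closedBall 0
  obtain ⟨R, hR⟩ := exists_nat_ge r
  refine ⟨R, M, K, h2.continuous, ?_, hM, hK, h2.continuous.integrable_of_hasCompactSupport h1⟩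
  intro ξ hξ
  by_contra hne
  have h5 := hr (subset_tsupport _ hne)
  rw [Metric.mem_closedBall, Real.dist_eq, sub_zero] at h5
  linarith

theorem countable_of_nondegenerate {P : Set (Set ℝ)} (hP : IsIntervalPartition P)
    (h : Nondegenerate P) : P.Countable := by
  have h1 : ∀ J : P, ∃ r : ℚ, (r : ℝ) ∈ (J : Set ℝ) := by
    intro J
    obtain ⟨x, hx, y, hy, hxy⟩ := h J J.2
    rcases lt_or_gt_of_ne hxy with h2 | h2
    · obtain ⟨r, h3, h4⟩ := exists_rat_btwn h2
      exact ⟨r, (hP.2 J J.2).out hx hy ⟨h3.le, h4.le⟩⟩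
    · obtain ⟨r, h3, h4⟩ := exists_rat_btwn h2
      exact ⟨r, (hP.2 J J.2).out hy hx ⟨h3.le, h4.le⟩⟩
  choose g hg using h1
  have : Function.Injective g := by
    intro J K hJK
    by_contra hne
    have := hP.pairwise hne
    rw [Function.onFun, Set.disjoint_left] at this
    exact this (hg J) (hJK ▸ hg K)
  exact Set.countable_coe_iff.1 this.countable

theorem lineProj_TI {f : ℝ → X} {J : Set ℝ} (hJ : J.OrdConnected) :
    lineProj J f = TI J (𝓕 f) := by
  funext s
  rw [lineProj_eq hJ.measurableSet, TI]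

theorem hasSum_lineProj [CompleteSpace X] {f : ℝ → X} (hf : IsSc f) {P : Set (Set ℝ)}
    (hP : IsIntervalPartition P) (hPc : P.Countable) (s : ℝ) :
    HasSum (fun J : P => lineProj (J : Set ℝ) f s) (f s) := by
  obtain ⟨R, M, K, hc, hR, hM, hK, hint⟩ := hf.data
  have : Countable P := Set.countable_coe_iff.2 hPc
  have h1 : Integrable (fun ξ => ec (s * ξ) • 𝓕 f ξ) := by
    have h2 : Continuous fun v : ℝ => ec (s * v) := by fun_prop
    apply hint.bdd_smul 1 h2.aestronglyMeasurable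
    filter_upwards with v
    rw [norm_ec]
  have h2 := hasSum_integral_iUnion (μ := volume) (f := fun ξ => ec (s * ξ) • 𝓕 f ξ)
    (s := fun J : P => (J : Set ℝ)) (fun J => (hP.2 J J.2).measurableSet) hP.pairwise
    h1.integrableOn
  have h3 : (⋃ J : P, (J : Set ℝ)) = Set.univ := by
    rw [Set.eq_univ_iff_forall]
    intro x
    obtain ⟨J, hJ⟩ := hP.exists_mem x
    exact Set.mem_iUnion.2 ⟨J, hJ⟩
  rw [h3, setIntegral_univ, ← hf.inversion] at h2
  convert h2 using 2 with J
  exact lineProj_eq (hP.2 J J.2).measurableSet f s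

end Pool.Agent.Q82.FDec
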