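import Mathlib
import Pool.Agent.Q82.FNorm

open MeasureTheory Filter Topology FourierTransform
open scoped ENNReal NNReal SchwartzMap ContDiff

namespace Pool.Agent.Q82.FDec

universe u

variable {X : Type u} [NormedAddCommGroup X] [NormedSpace ℂ X]

theorem frontier_finite_union {ι : Type} (F : Finset ι) (I : ι → Set ℝ)
    (hI : ∀ i, (I i).OrdConnected) : volume (frontier (⋃ i ∈ F, I i)) = 0 := by
  classical
  induction F using Finset.induction_on with
  | empty => simp
  | insert i F hi ih =>
      rw [Finset.set_biUnion_insert]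
      have h1 : frontier (I i ∪ ⋃ j ∈ F, I j) ⊆ frontier (I i) ∪ frontier (⋃ j ∈ F, I j) := by
        refine (frontier_union_subset _ _).trans ?_
        apply Set.union_subset_union
        · exact Set.inter_subset_left
        · exact Set.inter_subset_right
      exact measure_mono_null h1 (measure_union_null (frontier_null (hI i)) ih)

theorem upper_finite [CompleteSpace X] {p q : ℝ≥0∞} (hp : 1 < p) (hpt : p ≠ ⊤) (hq : 1 ≤ q)
    {U : ℝ≥0}
    (hU : ∀ (ι : Type) (I : ι → Set ℤ),
      (∀ i, (I i).OrdConnected) → Pairwise (Function.onFun Disjoint I) → (∀ x, ∃ i, x ∈ I i) →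
      ∀ c : ℤ →₀ X, eLpNorm (trig c) p volume ≤
        U * lq q (fun i => eLpNorm (trig (restr (I i) c)) p volume))
    {P : Set (Set ℝ)} (hP : IsIntervalPartition P) {f : ℝ → X} (hf : IsSc f) (F : Finset P) :
    eLpNorm (fun s => ∑ J ∈ F, lineProj (J : Set ℝ) f s) p volume ≤
      U * lq q (fun J : P => eLpNorm (lineProj (J : Set ℝ) f) p volume) := by
  obtain ⟨R, M, K, hc, hR, hM, hK, hint⟩ := hf.data
  set A : Set ℝ := ⋃ J ∈ F, (J : Set ℝ) with hA
  have hAm : MeasurableSet A :=
    Finset.measurableSet_biUnion F (fun J _ => (hP.2 J J.2).measurableSet)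
  have hA0 : volume (frontier A) = 0 :=
    frontier_finite_union F (fun J : P => (J : Set ℝ)) (fun J => hP.2 J J.2)
  have hTI : (fun s => ∑ J ∈ F, lineProj (J : Set ℝ) f s) = TI A (𝓕 f) := by
    funext s
    rw [TI, hA, integral_biUnion_finset]
    · apply Finset.sum_congr rfl
      intro J _
      exact lineProj_eq (hP.2 J J.2).measurableSet f s
    · intro J _
      exact (hP.2 J J.2).measurableSet
    · intro J _ K _ hJK
      exact hP.pairwise hJK
    · intro J _
      have h1 : Integrable (fun ξ => ec (s * ξ) • 𝓕 f ξ) := by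
        have h2 : Continuous fun v : ℝ => ec (s * v) := by fun_prop
        apply hint.bdd_smul 1 h2.aestronglyMeasurable
        filter_upwards with v
        rw [norm_ec]
      exact h1.integrableOn
  have hin : ∀ J : P, J ∈ F → A ∩ (J : Set ℝ) = J := by
    intro J hJ
    rw [Set.inter_eq_right]
    exact Set.subset_biUnion_of_mem (u := fun J : P => (J : Set ℝ)) hJ
  have hout : ∀ J : P, J ∉ F → A ∩ (J : Set ℝ) = ∅ := by
    intro J hJ
    rw [Set.eq_empty_iff_forall_notMem]
    rintro x ⟨h1, h2⟩
    rw [hA, Set.mem_iUnion₂] at h1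
    obtain ⟨K, hK, hxK⟩ := h1
    have hne : K ≠ J := by
      rintro rfl
      exact hJ hK
    exact Set.disjoint_left.1 (hP.pairwise hne) hxK h2
  rw [hTI]
  refine (fatou_PN hc hR hM hAm hA0 p).trans ?_
  refine (liminf_le_limsup (by isBoundedDefault) (by isBoundedDefault)).trans ?_
  have h1 : limsup (fun N : ℕ => eLpNorm (PN (𝓕 f) R N A) p (volume.restrict (win N))) atTop ≤
      limsup (fun N : ℕ => (U : ℝ≥0∞) * lq q (fun J : P =>
        eLpNorm (PN (𝓕 f) R N (A ∩ J)) p (volume.restrict (win N)))) atTop := by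
    apply limsup_le_limsup
    · filter_upwards [eventually_gt_atTop 0] with N hN
      exact upper_level hq hU hP (𝓕 f) R hN A
    · isBoundedDefault
    · isBoundedDefault
  refine h1.trans ?_
  rw [ENNReal.limsup_const_mul_of_ne_top ENNReal.coe_ne_top]
  gcongr
  apply lq_tendsto_finset hq F
  · intro J hJ
    simp_rw [hin J hJ]
    rw [lineProj_TI (hP.2 J J.2)]
    exact norm_tendsto hc hR hM hK (hP.2 J J.2) hp hpt
  · intro N J hJ
    rw [hout J hJ]
    have : PN (𝓕 f) R N ∅ = 0 := by
      funext s
      rw [PN, coefs_empty, trig_zero]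
      rfl
    rw [this, eLpNorm_zero]

theorem continuous_lineProj [CompleteSpace X] {f : ℝ → X} (hf : IsSc f) {J : Set ℝ}
    (hJ : J.OrdConnected) : Continuous (lineProj J f) := by
  obtain ⟨R, M, K, hc, hR, hM, hK, hint⟩ := hf.data
  have h1 : lineProj J f = fun s => ∫ ξ, ec (s * ξ) • J.indicator (𝓕 f) ξ := by
    funext s
    rw [lineProj, fourierInv_real]
  rw [h1]
  have hint2 : Integrable (J.indicator (𝓕 f)) := hint.indicator hJ.measurableSet
  apply continuous_of_dominated (bound := fun ξ => ‖J.indicator (𝓕 f) ξ‖)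
  · intro s
    have h2 : Continuous fun v : ℝ => ec (s * v) := by fun_prop
    exact h2.aestronglyMeasurable.smul hint2.aestronglyMeasurable
  · intro s
    filter_upwards with ξ
    rw [norm_smul, norm_ec, one_mul]
  · exact hint2.norm
  · filter_upwards with ξ
    fun_prop

theorem UpperCircle.toLine_mid [CompleteSpace X] {p q : ℝ≥0∞} (hp : 1 < p) (hpt : p ≠ ⊤)
    (hq : 1 ≤ q) (h : UpperCircle X p q) {C : Set (Set ℝ) → Prop}
    (hC : ∀ P, IsIntervalPartition P → C P → P.Countable) : UpperLine C X p q := by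
  obtain ⟨U, hU0, hU⟩ := h.family hq
  refine ⟨U, hU0, ?_⟩
  intro P hP hCP f hf
  have hPc := hC P hP hCP
  have : Countable P := Set.countable_coe_iff.2 hPc
  obtain ⟨F, hF⟩ := Filter.exists_seq_tendsto (atTop : Filter (Finset P))
  have h1 : ∀ n, AEStronglyMeasurable (fun s => ∑ J ∈ F n, lineProj (J : Set ℝ) f s) volume := by
    intro n
    exact Finset.aestronglyMeasurable_fun_sum _
      fun J _ => (continuous_lineProj hf (hP.2 J J.2)).aestronglyMeasurable
  refine (Lp.eLpNorm_lim_le_liminf_eLpNorm h1 f ?_).trans ?_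
  · filter_upwards with s
    exact (hasSum_lineProj hf hP hPc s).comp hF
  · apply liminf_le_of_le
    · isBoundedDefault
    · intro b hb
      obtain ⟨n, hn⟩ := hb.exists
      exact hn.trans (upper_finite hp hpt hq hU hP hf (F n))

theorem upperLine_one [CompleteSpace X] {p : ℝ≥0∞} (hp : 1 ≤ p)
    {C : Set (Set ℝ) → Prop}
    (hC : ∀ P, IsIntervalPartition P → C P → P.Countable) : UpperLine C X p 1 := by
  refine ⟨1, one_pos, ?_⟩
  intro P hP hCP f hf
  have hPc := hC P hP hCP
  have : Countable P := Set.countable_coe_iff.2 hPc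
  have h1 := eLpNorm_le_tsum (μ := volume) hp (fun J : P => lineProj (J : Set ℝ) f)
    (fun J => (continuous_lineProj hf (hP.2 J J.2)).aestronglyMeasurable) f
    (hasSum_lineProj hf hP hPc)
  rw [lq_of_ne ENNReal.one_ne_top]
  simpa using h1

end Pool.Agent.Q82.FDec
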