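import Mathlib
import Pool.Agent.Q82.FUp

open MeasureTheory Filter Topology FourierTransform
open scoped ENNReal NNReal SchwartzMap ContDiff

namespace Pool.Agent.Q82.FDec

universe u

variable {X : Type u} [NormedAddCommGroup X] [NormedSpace ℂ X]

theorem poisson_scaled (φ : 𝓢(ℝ, ℂ)) {N : ℝ} (hN : 0 < N) (s : ℝ) :
    ∑' k : ℤ, φ (s + N * k) = ∑' n : ℤ, (N : ℂ)⁻¹ * 𝓕 (φ : ℝ → ℂ) (n / N) * ec (n * (s / N)) := by
  set g : ℝ → ℂ := fun x => φ (N * x) with hg
  have hF : ∀ ξ : ℝ, 𝓕 g ξ = (N : ℂ)⁻¹ * 𝓕 (φ : ℝ → ℂ) (ξ / N) := by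
    intro ξ
    rw [fourier_real, fourier_real]
    have h1 := Measure.integral_comp_mul_left (fun v : ℝ => ec (-(ξ / N * v)) • φ v) N
    have h2 : (fun v : ℝ => ec (-(ξ * v)) • g v) =
        fun v : ℝ => (fun v : ℝ => ec (-(ξ / N * v)) • φ v) (N * v) := by
      funext v
      rw [hg]
      simp only
      congr 2
      field_simp
    rw [h2, h1, abs_of_pos (inv_pos.2 hN)]
    rw [Complex.real_smul]
    push_cast
    rfl
  have hcont : Continuous g := by
    rw [hg]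
    exact φ.continuous.comp (by fun_prop)
  have hdec : ∀ ψ : 𝓢(ℝ, ℂ), ∀ a : ℝ, 0 < a →
      (fun x : ℝ => ψ (a * x)) =O[cocompact ℝ] fun x : ℝ => |x| ^ (-2 : ℝ) := by
    intro ψ a ha
    obtain ⟨C, hC0, hC⟩ := ψ.decay 2 0
    apply Asymptotics.IsBigO.of_bound (C / a ^ 2)
    have h1 : ∀ᶠ x : ℝ in cocompact ℝ, x ≠ 0 := by
      have : ({0} : Set ℝ)ᶜ ∈ cocompact ℝ := isCompact_singleton.compl_mem_cocompact
      exact this
    filter_upwards [h1] with x hx
    have h2 := hC (a * x)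
    rw [norm_iteratedFDeriv_zero, Real.norm_eq_abs, sq_abs] at h2
    have h3 : 0 < x ^ 2 := by positivity
    have h4 : ‖|x| ^ (-2 : ℝ)‖ = (x ^ 2)⁻¹ := by
      rw [Real.rpow_neg (abs_nonneg x), norm_inv, Real.norm_eq_abs]
      congr 1
      rw [abs_of_nonneg (by positivity)]
      have : |x| ^ (2 : ℝ) = |x| ^ 2 := by
        exact_mod_cast Real.rpow_natCast |x| 2
      rw [this, sq_abs]
    rw [h4]
    have h5 : C / a ^ 2 * (x ^ 2)⁻¹ = C / (a * x) ^ 2 := by
      field_simp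
    rw [h5, le_div_iff₀ (by positivity)]
    linarith
  have h1 := Real.tsum_eq_tsum_fourier_of_rpow_decay hcont one_lt_two (hdec φ N hN) (by
    have h2 : 𝓕 g = fun ξ => (N : ℂ)⁻¹ * (𝓕 φ) (N⁻¹ * ξ) := by
      funext ξ
      rw [hF, SchwartzMap.fourier_coe]
      congr 2
      ring
    rw [h2]
    exact (hdec (𝓕 φ) N⁻¹ (inv_pos.2 hN)).const_mul_left _) (s / N)
  calc ∑' k : ℤ, φ (s + N * k) = ∑' k : ℤ, g (s / N + k) := by
        apply tsum_congr
        intro k
        rw [hg]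
        simp only
        congr 1
        field_simp
    _ = _ := h1
    _ = _ := by
        apply tsum_congr
        intro n
        rw [hF, fourier_coe_ec]

/-- Poisson summation estimate. -/
theorem poisson_est (φ : 𝓢(ℝ, ℂ)) {R : ℕ} (hR : ∀ ξ, (R : ℝ) < |ξ| → 𝓕 (φ : ℝ → ℂ) ξ = 0) :
    ∃ C : ℝ, 0 ≤ C ∧ ∀ N : ℕ, 0 < N → ∀ s ∈ win N,
      ‖PN (𝓕 (φ : ℝ → ℂ)) R N Set.univ s - φ s‖ ≤ C / (N : ℝ) ^ 2 := by
  obtain ⟨C2, h2, hC2⟩ := φ.decay 2 0
  have hZ : Summable (fun k : ℤ => 1 / (k : ℝ) ^ 2) := Real.summable_one_div_int_pow.2 one_lt_two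
  refine ⟨4 * C2 * ∑' k : ℤ, 1 / (k : ℝ) ^ 2, ?_, ?_⟩
  · have : 0 ≤ ∑' k : ℤ, 1 / (k : ℝ) ^ 2 := tsum_nonneg fun k => by positivity
    positivity
  intro N hN s hs
  have hN' : (0 : ℝ) < N := by exact_mod_cast hN
  have h1 : PN (𝓕 (φ : ℝ → ℂ)) R N Set.univ s = ∑' k : ℤ, φ (s + N * k) := by
    have h0 : ∑' n : ℤ, ((N : ℝ)⁻¹ • (ec (s * ((n : ℝ) / N)) •
        Set.univ.indicator (𝓕 (φ : ℝ → ℂ)) ((n : ℝ) / N))) =
        ∑ n ∈ Finset.Icc (-((N * R : ℕ) : ℤ)) ((N * R : ℕ) : ℤ),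
        ((N : ℝ)⁻¹ • (ec (s * ((n : ℝ) / N)) •
        Set.univ.indicator (𝓕 (φ : ℝ → ℂ)) ((n : ℝ) / N))) := by
      apply tsum_eq_sum
      intro n hn
      have h3 := coefs_apply hR hN Set.univ n
      rw [coefs_out hn] at h3
      rw [smul_comm, ← h3, smul_zero]
    rw [poisson_scaled φ hN' s, PN_eq hR hN, ← h0]
    apply tsum_congr
    intro n
    rw [Set.indicator_univ, Complex.real_smul, smul_eq_mul]
    push_cast
    have h3 : s * ((n : ℝ) / N) = n * (s / N) := by ring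
    rw [h3]
    ring
  have h3 : ∀ k : ℤ, k ≠ 0 → ‖φ (s + N * k)‖ ≤ 4 * C2 / (N : ℝ) ^ 2 * (1 / (k : ℝ) ^ 2) := by
    intro k hk
    have h5 := hC2 (s + N * k)
    rw [norm_iteratedFDeriv_zero, Real.norm_eq_abs, sq_abs] at h5
    have h7 : (1 : ℝ) ≤ |(k : ℝ)| := by
      have : (1 : ℤ) ≤ |k| := Int.one_le_abs hk
      exact_mod_cast this
    have hs1 : |s| ≤ N / 2 := by
      rw [abs_le]
      have h9 := hs.1
      have h10 := hs.2
      constructor <;> linarith
    have h6 : N * |(k : ℝ)| / 2 ≤ |s + N * k| := by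
      have h8 : |(N : ℝ) * k| ≤ |s + N * k| + |s| := by
        calc |(N : ℝ) * k| = |(s + N * k) + (-s)| := by congr 1; ring
          _ ≤ |s + N * k| + |-s| := abs_add_le _ _
          _ = _ := by rw [abs_neg]
      rw [abs_mul, abs_of_pos hN'] at h8
      nlinarith
    have h8 : (N * |(k : ℝ)| / 2) ^ 2 ≤ (s + N * k) ^ 2 := by
      rw [← sq_abs (s + N * k)]
      gcongr
    have h9 : (N * |(k : ℝ)| / 2) ^ 2 = (N : ℝ) ^ 2 * (k : ℝ) ^ 2 / 4 := by
      rw [div_pow, mul_pow, sq_abs]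
      norm_num
    rw [h9] at h8
    have hk2 : 0 < (k : ℝ) ^ 2 := by positivity
    have h10 : 4 * C2 / (N : ℝ) ^ 2 * (1 / (k : ℝ) ^ 2) = 4 * C2 / ((N : ℝ) ^ 2 * (k : ℝ) ^ 2) := by
      field_simp
    rw [h10, le_div_iff₀ (by positivity)]
    nlinarith [norm_nonneg (φ (s + N * k))]
  have hs1 : Summable (fun k : ℤ => φ (s + N * k)) := by
    apply Summable.of_norm_bounded_eventually
      (g := fun k : ℤ => 4 * C2 / (N : ℝ) ^ 2 * (1 / (k : ℝ) ^ 2)) (hZ.mul_left _)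
    rw [Filter.eventually_cofinite]
    apply (Set.finite_singleton (0 : ℤ)).subset
    intro k hk
    by_contra hne
    exact hk (h3 k hne)
  rw [h1, hs1.tsum_eq_add_tsum_ite 0]
  have h4 : s + N * ((0 : ℤ) : ℝ) = s := by simp
  rw [h4, add_sub_cancel_left]
  have h5 : HasSum (fun k : ℤ => 4 * C2 / (N : ℝ) ^ 2 * (1 / (k : ℝ) ^ 2))
      (4 * C2 / (N : ℝ) ^ 2 * ∑' k : ℤ, 1 / (k : ℝ) ^ 2) := hZ.hasSum.mul_left _
  have h6 := tsum_of_norm_bounded h5 (f := fun k : ℤ => if k = 0 then 0 else φ (s + N * k)) (by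
    intro k
    split_ifs with hk
    · rw [norm_zero]
      positivity
    · exact h3 k hk)
  refine h6.trans (le_of_eq ?_)
  ring

theorem PN_sum_smul {m : ℕ} (φ : Fin m → 𝓢(ℝ, ℂ)) (x : Fin m → X) {R : ℕ}
    (hR : ∀ j, ∀ ξ, (R : ℝ) < |ξ| → 𝓕 (φ j : ℝ → ℂ) ξ = 0) {N : ℕ} (hN : 0 < N) (s : ℝ) :
    PN (fun ξ => ∑ j, 𝓕 (φ j : ℝ → ℂ) ξ • x j) R N Set.univ s =
      ∑ j, PN (𝓕 (φ j : ℝ → ℂ)) R N Set.univ s • x j := by
  rw [PN_eq (fun ξ hξ => by
    apply Finset.sum_eq_zero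
    intro j _
    rw [hR j ξ hξ, zero_smul]) hN]
  simp_rw [PN_eq (hR _) hN, Finset.sum_smul]
  rw [Finset.sum_comm]
  apply Finset.sum_congr rfl
  intro n _
  rw [Set.indicator_univ, Finset.smul_sum, Finset.smul_sum]
  apply Finset.sum_congr rfl
  intro j _
  rw [Set.indicator_univ, smul_eq_mul, smul_assoc, smul_smul]

theorem IsSc.poisson [CompleteSpace X] {f : ℝ → X} (hf : IsSc f) :
    ∃ (R : ℕ) (C : ℝ), 0 ≤ C ∧ (∀ ξ, (R : ℝ) < |ξ| → 𝓕 f ξ = 0) ∧
      ∀ N : ℕ, 0 < N → ∀ s ∈ win N, ‖PN (𝓕 f) R N Set.univ s‖ ≤ ‖f s‖ + C / (N : ℝ) ^ 2 := by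
  obtain ⟨m, φ, x, h1, rfl⟩ := hf
  have h2 : 𝓕 (fun t => ∑ j, φ j t • x j) = fun ξ => ∑ j, 𝓕 (φ j : ℝ → ℂ) ξ • x j := by
    funext ξ
    exact fourier_sum_smul Finset.univ φ x ξ
  have h3 : ∀ j, ∃ r : ℕ, ∀ ξ, (r : ℝ) < |ξ| → 𝓕 (φ j : ℝ → ℂ) ξ = 0 := by
    intro j
    obtain ⟨r, hr⟩ := ((h1 j).isCompact.isBounded).subset_closedBall 0
    obtain ⟨R, hR⟩ := exists_nat_ge r
    refine ⟨R, ?_⟩
    intro ξ hξ
    by_contra hne
    have h5 := hr (subset_tsupport _ hne)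
    rw [Metric.mem_closedBall, Real.dist_eq, sub_zero] at h5
    linarith
  choose r hr using h3
  have hR : ∀ j, ∀ ξ, ((∑ i, r i : ℕ) : ℝ) < |ξ| → 𝓕 (φ j : ℝ → ℂ) ξ = 0 := by
    intro j ξ hξ
    apply hr j
    refine lt_of_le_of_lt ?_ hξ
    have : r j ≤ ∑ i, r i := Finset.single_le_sum (f := r) (fun _ _ => Nat.zero_le _)
      (Finset.mem_univ j)
    exact_mod_cast this
  choose C hC0 hC using fun j => poisson_est (φ j) (hR j)
  refine ⟨∑ i, r i, ∑ j, C j * ‖x j‖, Finset.sum_nonneg fun j _ => by have := hC0 j; positivity,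
    ?_, ?_⟩
  · intro ξ hξ
    rw [h2]
    simp only
    apply Finset.sum_eq_zero
    intro j _
    rw [hR j ξ hξ, zero_smul]
  · intro N hN s hs
    rw [h2, PN_sum_smul φ x hR hN]
    have h4 : ∑ j, PN (𝓕 (φ j : ℝ → ℂ)) (∑ i, r i) N Set.univ s • x j =
        (∑ j, φ j s • x j) +
        ∑ j, (PN (𝓕 (φ j : ℝ → ℂ)) (∑ i, r i) N Set.univ s - φ j s) • x j := by
      rw [← Finset.sum_add_distrib]
      apply Finset.sum_congr rfl
      intro j _
      rw [← add_smul, add_sub_cancel]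
    rw [h4]
    refine (norm_add_le _ _).trans ?_
    gcongr
    refine (norm_sum_le _ _).trans ?_
    rw [Finset.sum_div]
    apply Finset.sum_le_sum
    intro j _
    rw [norm_smul]
    calc _ ≤ C j / (N : ℝ) ^ 2 * ‖x j‖ := by
          gcongr
          exact hC j N hN s hs
      _ = _ := by ring

theorem LowerCircle.toLine [CompleteSpace X] {p q : ℝ≥0∞} (hp : 1 ≤ p) (hq : 1 ≤ q)
    (h : LowerCircle X p q) (C : Set (Set ℝ) → Prop) : LowerLine C X p q := by
  obtain ⟨U, hU0, hU⟩ := h.family hq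
  refine ⟨U, hU0, ?_⟩
  intro P hP _ f hf
  obtain ⟨-, M, K, hc, -, hM, hK, hint⟩ := hf.data
  obtain ⟨R, C, hC0, hR, hC⟩ := hf.poisson
  have hfc : Continuous f := hf.fourier_props.2.2.2
  have h1 : lq q (fun J : P => eLpNorm (lineProj (J : Set ℝ) f) p volume) ≤
      liminf (fun N : ℕ => lq q (fun J : P =>
        eLpNorm (PN (𝓕 f) R N (Set.univ ∩ J)) p (volume.restrict (win N)))) atTop := by
    apply lq_le_liminf hq _ (fun (N : ℕ) (J : P) =>
        eLpNorm (PN (𝓕 f) R N (Set.univ ∩ J)) p (volume.restrict (win N)))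
    intro J
    simp_rw [Set.univ_inter]
    rw [lineProj_TI (hP.2 J J.2)]
    exact fatou_PN hc hR hM (hP.2 J J.2).measurableSet (frontier_null (hP.2 J J.2)) p
  refine h1.trans ?_
  have h2 : ∀ᶠ N : ℕ in atTop, lq q (fun J : P =>
        eLpNorm (PN (𝓕 f) R N (Set.univ ∩ J)) p (volume.restrict (win N))) ≤
      U * (eLpNorm f p volume + ENNReal.ofReal (C / N)) := by
    filter_upwards [eventually_gt_atTop 0] with N hN
    refine (lower_level hq hU hP (𝓕 f) R hN Set.univ).trans ?_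
    have hN' : (0 : ℝ) < N := by exact_mod_cast hN
    have hN1 : (1 : ℝ) ≤ N := by exact_mod_cast hN
    gcongr
    have h3 : eLpNorm (PN (𝓕 f) R N Set.univ) p (volume.restrict (win N)) ≤
        eLpNorm ((fun s => ‖f s‖) + fun _ => C / (N : ℝ) ^ 2) p (volume.restrict (win N)) := by
      apply eLpNorm_mono_ae
      filter_upwards [ae_restrict_mem (measurableSet_win N)] with s hs
      have h4 : 0 ≤ C / (N : ℝ) ^ 2 := by positivity
      rw [Pi.add_apply, Real.norm_eq_abs, abs_of_nonneg (by positivity)]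
      exact hC N hN s hs
    refine h3.trans ((eLpNorm_add_le hfc.norm.aestronglyMeasurable
      aestronglyMeasurable_const hp).trans ?_)
    gcongr
    · rw [eLpNorm_norm]
      exact eLpNorm_restrict_le _ _ _ _
    · have h5 : (volume.restrict (win N)) Set.univ = ENNReal.ofReal N := by
        rw [Measure.restrict_apply_univ, win, Real.volume_Ioc]
        congr 1
        ring
      have h6 : volume.restrict (win N) ≠ 0 := by
        intro h0
        rw [h0] at h5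
        have : 0 < ENNReal.ofReal N := ENNReal.ofReal_pos.2 hN'
        rw [← h5] at this
        simp at this
      rw [eLpNorm_const _ (by
        intro h0
        rw [h0] at hp
        exact absurd hp (by simp)) h6, h5]
      have h7 : ‖C / (N : ℝ) ^ 2‖ₑ = ENNReal.ofReal (C / (N : ℝ) ^ 2) := by
        rw [← ofReal_norm, Real.norm_eq_abs, abs_of_nonneg (by positivity)]
      rw [h7]
      have h8 : ENNReal.ofReal (N : ℝ) ^ (1 / p.toReal) ≤ ENNReal.ofReal N := by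
        calc ENNReal.ofReal (N : ℝ) ^ (1 / p.toReal) ≤ ENNReal.ofReal (N : ℝ) ^ (1 : ℝ) := by
              apply ENNReal.rpow_le_rpow_of_exponent_le
              · rw [← ENNReal.ofReal_one]
                exact ENNReal.ofReal_le_ofReal hN1
              · by_cases hpt : p = ⊤
                · rw [hpt]
                  simp
                · have : 1 ≤ p.toReal := by
                    rw [← ENNReal.toReal_one]
                    exact (ENNReal.toReal_le_toReal ENNReal.one_ne_top hpt).2 hp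
                  rw [div_le_one (by linarith)]
                  exact this
          _ = _ := ENNReal.rpow_one _
      calc _ ≤ ENNReal.ofReal (C / (N : ℝ) ^ 2) * ENNReal.ofReal N := by gcongr
        _ = ENNReal.ofReal (C / N) := by
            rw [← ENNReal.ofReal_mul (by positivity)]
            congr 1
            field_simp
  have h4 : Tendsto (fun N : ℕ => (U : ℝ≥0∞) * (eLpNorm f p volume + ENNReal.ofReal (C / N)))
      atTop (𝓝 (U * (eLpNorm f p volume + 0))) := by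
    apply ENNReal.Tendsto.const_mul _ (Or.inr ENNReal.coe_ne_top)
    apply tendsto_const_nhds.add
    have h5 : Tendsto (fun N : ℕ => C / (N : ℝ)) atTop (𝓝 0) :=
      tendsto_const_div_atTop_nhds_zero_nat C
    have h6 := (ENNReal.continuous_ofReal.tendsto 0).comp h5
    rw [ENNReal.ofReal_zero] at h6
    exact h6
  have h5 := liminf_le_liminf h2
  refine h5.trans ?_
  rw [h4.liminf_eq, add_zero]

end Pool.Agent.Q82.FDec
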