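import Mathlib
import Pool.Agent.Q82.FPois

open MeasureTheory Filter Topology FourierTransform
open scoped ENNReal NNReal SchwartzMap ContDiff

namespace Pool.Agent.Q82.FDec

universe u

variable {X : Type u} [NormedAddCommGroup X] [NormedSpace ℂ X]

theorem lq_indicator_le {q : ℝ≥0∞} (h1 : 1 ≤ q) {ι : Type} (F : Finset ι) (b : ι → ℝ≥0∞)
    (a : ℝ≥0∞) (hb : ∀ i ∈ F, b i ≤ a) (hb0 : ∀ i ∉ F, b i = 0) :
    lq q b ≤ (F.card : ℝ≥0∞) ^ (1 / q.toReal) * a := by
  by_cases hq : q = ⊤
  · subst hq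
    rw [lq_top, ENNReal.toReal_top, div_zero, ENNReal.rpow_zero, one_mul]
    apply iSup_le
    intro i
    by_cases hi : i ∈ F
    · exact hb i hi
    · rw [hb0 i hi]
      exact zero_le
  · have h0 := toReal_pos_of h1 hq
    rw [lq_of_ne hq]
    have h2 : ∑' i, b i ^ q.toReal ≤ F.card * a ^ q.toReal := by
      rw [tsum_eq_sum (s := F)]
      · calc _ ≤ ∑ i ∈ F, a ^ q.toReal := by
              apply Finset.sum_le_sum
              intro i hi
              exact ENNReal.rpow_le_rpow (hb i hi) h0.le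
          _ = _ := by rw [Finset.sum_const, nsmul_eq_mul]
      · intro i hi
        rw [hb0 i hi, ENNReal.zero_rpow_of_pos h0]
    calc _ ≤ (F.card * a ^ q.toReal) ^ (1 / q.toReal) := by gcongr
      _ = _ := by
        rw [ENNReal.mul_rpow_of_nonneg _ _ (by positivity), ← ENNReal.rpow_mul,
          mul_one_div_cancel h0.ne', ENNReal.rpow_one]

theorem growth {U θ : ℝ} (hU : 0 ≤ U) (h : ∀ k : ℕ, 0 < k → (k : ℝ) ≤ U * (k : ℝ) ^ θ) :
    1 ≤ θ := by
  by_contra hlt
  rw [not_le] at hlt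
  have h1 : Tendsto (fun k : ℕ => (k : ℝ) ^ (1 - θ)) atTop atTop :=
    (tendsto_rpow_atTop (by linarith)).comp tendsto_natCast_atTop_atTop
  obtain ⟨k, hk, hk0⟩ := ((h1.eventually_gt_atTop U).and (eventually_gt_atTop 0)).exists
  have hk' : (0 : ℝ) < k := by exact_mod_cast hk0
  have h2 := h k hk0
  have h3 : (k : ℝ) ^ (1 - θ) * (k : ℝ) ^ θ = k := by
    rw [← Real.rpow_add hk']
    simp
  have h4 : 0 < (k : ℝ) ^ θ := by positivity
  nlinarith

theorem q_eq_one_of {q : ℝ≥0∞} (hq : 1 ≤ q) {U : ℝ≥0} {a : ℝ≥0∞} (ha0 : a ≠ 0) (hat : a ≠ ⊤)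
    (h : ∀ k : ℕ, 0 < k → (k : ℝ≥0∞) * a ≤ U * ((k : ℝ≥0∞) ^ (1 / q.toReal) * a)) : q = 1 := by
  have h1 : ∀ k : ℕ, 0 < k → (k : ℝ) ≤ U * (k : ℝ) ^ (1 / q.toReal) := by
    intro k hk
    have h2 := h k hk
    rw [← mul_assoc] at h2
    have h3 : (k : ℝ≥0∞) ≤ U * (k : ℝ≥0∞) ^ (1 / q.toReal) :=
      (ENNReal.mul_le_mul_iff_left ha0 hat).1 h2
    have h4 : (U : ℝ≥0∞) * (k : ℝ≥0∞) ^ (1 / q.toReal) ≠ ⊤ := by
      apply ENNReal.mul_ne_top ENNReal.coe_ne_top
      apply ENNReal.rpow_ne_top_of_nonneg (by positivity) (ENNReal.natCast_ne_top k)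
    have h5 := ENNReal.toReal_mono h4 h3
    rw [ENNReal.toReal_mul, ← ENNReal.toReal_rpow] at h5
    simpa using h5
  have h2 := growth U.2 h1
  have hq0 : q ≠ ⊤ := by
    rintro rfl
    simp at h2
    linarith
  have h3 := toReal_pos_of hq hq0
  rw [le_div_iff₀ h3, one_mul] at h2
  apply le_antisymm _ hq
  rw [← ENNReal.toReal_one] at h2
  exact (ENNReal.toReal_le_toReal hq0 ENNReal.one_ne_top).1 h2

theorem restr_add (I : Set ℤ) (c d : ℤ →₀ X) : restr I (c + d) = restr I c + restr I d := by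
  classical
  ext n
  rw [Finsupp.add_apply, restr_apply, restr_apply, restr_apply, Finsupp.add_apply]
  split_ifs <;> simp

theorem restr_zero (I : Set ℤ) : restr I (0 : ℤ →₀ X) = 0 := by
  classical
  ext n
  rw [restr_apply]
  simp

theorem restr_sum {ι : Type*} (I : Set ℤ) (s : Finset ι) (c : ι → ℤ →₀ X) :
    restr I (∑ i ∈ s, c i) = ∑ i ∈ s, restr I (c i) := by
  classical
  induction s using Finset.induction_on with
  | empty => simp [restr_zero]
  | insert i s hi ih => rw [Finset.sum_insert hi, Finset.sum_insert hi, restr_add, ih]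

theorem restr_single_mem {I : Set ℤ} {n : ℤ} (h : n ∈ I) (x : X) :
    restr I (Finsupp.single n x) = Finsupp.single n x := by
  classical
  ext m
  rw [restr_apply]
  split_ifs with hm
  · rfl
  · symm
    apply Finsupp.single_eq_of_ne
    rintro rfl
    exact hm h

theorem restr_single_notMem {I : Set ℤ} {n : ℤ} (h : n ∉ I) (x : X) :
    restr I (Finsupp.single n x) = 0 := by
  classical
  ext m
  rw [restr_apply]
  split_ifs with hm
  · apply Finsupp.single_eq_of_ne
    rintro rfl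
    exact h hm
  · rfl

theorem le_eLpNorm_top (c : ℤ →₀ X) (t : UnitAddCircle) :
    ‖trig c t‖ₑ ≤ eLpNorm (trig c) ⊤ volume := by
  rw [eLpNorm_exponent_top]
  have h1 := ae_le_eLpNormEssSup (f := trig c) (μ := (volume : Measure UnitAddCircle))
  have h2 : Dense {t | ‖trig c t‖ₑ ≤ eLpNormEssSup (trig c) (volume : Measure UnitAddCircle)} :=
    Measure.dense_of_ae h1
  have h3 : IsClosed {t | ‖trig c t‖ₑ ≤
      eLpNormEssSup (trig c) (volume : Measure UnitAddCircle)} :=
    isClosed_le ((continuous_trig c).enorm) continuous_const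
  have h4 := h2.closure_eq
  rw [h3.closure_eq] at h4
  have h5 : t ∈ {t | ‖trig c t‖ₑ ≤ eLpNormEssSup (trig c) (volume : Measure UnitAddCircle)} := by
    rw [h4]
    trivial
  exact h5

theorem enorm_fourier (n : ℤ) (t : UnitAddCircle) : ‖(fourier n t : ℂ)‖ₑ = 1 := by
  rw [← ofReal_norm, fourier_apply, Circle.norm_coe, ENNReal.ofReal_one]

theorem q_one_of_top [CompleteSpace X] [Nontrivial X] {q : ℝ≥0∞} (hq : 1 ≤ q)
    (h : UpperCircle X ⊤ q) : q = 1 := by
  classical
  obtain ⟨U, hU0, hU⟩ := h.family hq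
  obtain ⟨x, hx⟩ := exists_ne (0 : X)
  apply q_eq_one_of hq (U := U) (a := ‖x‖ₑ) (by simpa using hx) (by simp)
  intro k hk
  set c : ℤ →₀ X := ∑ n ∈ Finset.range k, Finsupp.single (n : ℤ) x with hc
  have h1 := hU ℤ (fun n => {n}) (fun n => Set.ordConnected_singleton) (by
    intro n m hnm
    simp only [Function.onFun]
    exact Set.disjoint_singleton.2 hnm) (fun n => ⟨n, rfl⟩) c
  have h2 : (k : ℝ≥0∞) * ‖x‖ₑ ≤ eLpNorm (trig c) ⊤ volume := by
    refine le_trans (le_of_eq ?_) (le_eLpNorm_top c ((0 : ℝ) : UnitAddCircle))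
    have h3 : trig c ((0 : ℝ) : UnitAddCircle) = (k : ℂ) • x := by
      rw [hc, trig_sum]
      have : ∀ n ∈ Finset.range k, trig (Finsupp.single (n : ℤ) x) ((0 : ℝ) : UnitAddCircle)
          = x := by
        intro n _
        rw [trig_single, fourier_coe_ec, mul_zero, ec_zero, one_smul]
      rw [Finset.sum_congr rfl this, Finset.sum_const, Finset.card_range, Nat.cast_smul_eq_nsmul]
    rw [h3, enorm_smul]
    congr 1
    rw [← ofReal_norm]
    simp
  refine h2.trans (h1.trans ?_)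
  gcongr
  have h3 := lq_indicator_le hq ((Finset.range k).map Nat.castEmbedding)
    (fun n : ℤ => eLpNorm (trig (restr {n} c)) ⊤ volume) ‖x‖ₑ ?_ ?_
  · rw [Finset.card_map, Finset.card_range] at h3
    exact h3
  · intro n hn
    rw [Finset.mem_map] at hn
    obtain ⟨m, hm, rfl⟩ := hn
    rw [hc, restr_sum, Finset.sum_eq_single_of_mem m hm]
    · rw [restr_single_mem (by simp)]
      rw [eLpNorm_exponent_top]
      apply eLpNormEssSup_le_of_ae_enorm_bound
      filter_upwards with t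
      rw [trig_single, enorm_smul, enorm_fourier, one_mul]
    · intro j _ hj
      apply restr_single_notMem
      intro h
      apply hj
      have : (j : ℤ) = (m : ℤ) := h
      exact_mod_cast this
  · intro n hn
    rw [hc, restr_sum, Finset.sum_eq_zero]
    · rw [trig_zero, eLpNorm_zero]
    · intro j hj
      apply restr_single_notMem
      intro h
      apply hn
      rw [Finset.mem_map]
      exact ⟨j, hj, h⟩

/-! ## The exponent `p = 1` -/

/-- The Dirichlet sum. -/
noncomputable def dS (d : ℕ) (y : ℝ) : ℂ := ∑ n ∈ Finset.range d, ec (n * y)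

/-- The Fejer kernel. -/
noncomputable def fK (d : ℕ) (y : ℝ) : ℝ := ‖dS d y‖ ^ 2 / d

theorem continuous_dS (d : ℕ) : Continuous (dS d) := by
  unfold dS
  fun_prop

theorem continuous_fK (d : ℕ) : Continuous (fK d) := by
  unfold fK
  exact ((continuous_dS d).norm.pow 2).div_const _

theorem fK_nonneg (d : ℕ) (y : ℝ) : 0 ≤ fK d y := by
  unfold fK
  positivity

theorem ec_int (n : ℤ) : ec n = 1 := by
  rw [ec, Complex.exp_eq_one_iff]
  refine ⟨n, ?_⟩
  push_cast
  ring

theorem dS_periodic (d : ℕ) (y : ℝ) : dS d (y + 1) = dS d y := by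
  unfold dS
  apply Finset.sum_congr rfl
  intro n _
  have h1 := ec_int n
  push_cast at h1
  rw [mul_add, mul_one, ec_add, h1, mul_one]

theorem fK_periodic (d : ℕ) : Function.Periodic (fK d) 1 := by
  intro y
  rw [fK, fK, dS_periodic]

theorem conj_ec (x : ℝ) : (starRingEnd ℂ) (ec x) = ec (-x) := by
  rw [ec_eq, ec_eq, ← Complex.exp_conj]
  congr 1
  rw [map_mul, Complex.conj_I, Complex.conj_ofReal]
  push_cast
  ring

theorem fK_expand (d : ℕ) (y : ℝ) : ((fK d y : ℝ) : ℂ) =
    (d : ℂ)⁻¹ * ∑ n ∈ Finset.range d, ∑ m ∈ Finset.range d, ec (((n : ℤ) - (m : ℤ) : ℤ) * y) := by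
  have h1 : ((‖dS d y‖ ^ 2 : ℝ) : ℂ) = dS d y * (starRingEnd ℂ) (dS d y) := by
    rw [Complex.mul_conj, Complex.normSq_eq_norm_sq]
  rw [fK]
  push_cast
  push_cast at h1
  rw [h1, dS, map_sum, Finset.sum_mul_sum, div_eq_inv_mul]
  congr 1
  apply Finset.sum_congr rfl
  intro n _
  apply Finset.sum_congr rfl
  intro m _
  rw [conj_ec, ← ec_add]
  congr 1
  ring

theorem integral_ec (a : ℝ) (n : ℤ) :
    ∫ t in a..a + 1, ec (n * t) = if n = 0 then (1 : ℂ) else 0 := by
  have h1 := UnitAddCircle.intervalIntegral_preimage a (fun t => (fourier n t : ℂ))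
  simp_rw [fourier_coe_ec] at h1
  rw [h1]
  have h2 : (volume : Measure UnitAddCircle) = AddCircle.haarAddCircle := by
    rw [AddCircle.volume_eq_smul_haarAddCircle, ENNReal.ofReal_one, one_smul]
  rw [h2]
  exact integral_fourier n

theorem integral_fK {d : ℕ} (hd : 0 < d) (a : ℝ) : ∫ t in a..a + 1, fK d t = 1 := by
  have h1 : ((∫ t in a..a + 1, fK d t : ℝ) : ℂ) = 1 := by
    rw [← intervalIntegral.integral_ofReal]
    simp_rw [fK_expand]
    rw [intervalIntegral.integral_const_mul, intervalIntegral.integral_finsetSum]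
    · have h2 : ∀ n ∈ Finset.range d, ∫ t in a..a + 1, ∑ m ∈ Finset.range d,
          ec (((n : ℤ) - (m : ℤ) : ℤ) * t) = 1 := by
        intro n hn
        rw [intervalIntegral.integral_finsetSum]
        · simp_rw [integral_ec]
          rw [Finset.sum_eq_single_of_mem n hn]
          · simp
          · intro m _ hm
            rw [if_neg]
            intro h
            apply hm
            omega
        · intro m _
          apply Continuous.intervalIntegrable
          fun_prop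
      rw [Finset.sum_congr rfl h2, Finset.sum_const, Finset.card_range, nsmul_eq_mul, mul_one]
      have : (d : ℂ) ≠ 0 := by exact_mod_cast hd.ne'
      field_simp
    · intro n _
      apply Continuous.intervalIntegrable
      fun_prop
  exact_mod_cast h1

theorem dS_bound (d : ℕ) (y : ℝ) : ‖1 - ec y‖ * ‖dS d y‖ ≤ 2 := by
  have h1 : ∀ n : ℕ, ec (n * y) = ec y ^ n := by
    intro n
    rw [ec, ec, ← Complex.exp_nat_mul]
    congr 1
    push_cast
    ring
  have h2 : (1 - ec y) * dS d y = 1 - ec y ^ d := by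
    rw [dS]
    simp_rw [h1]
    exact mul_neg_geom_sum (ec y) d
  rw [← norm_mul, h2]
  calc ‖1 - ec y ^ d‖ ≤ ‖(1 : ℂ)‖ + ‖ec y ^ d‖ := norm_sub_le _ _
    _ = 2 := by
      rw [norm_pow, norm_ec]
      norm_num

theorem fK_far {k : ℕ} (hk : 0 < k) {y : ℝ} (h1 : 1 / (2 * k) ≤ y) (h2 : y ≤ 1 - 1 / (2 * k)) :
    fK (4 * k ^ 2) y ≤ 1 / 4 := by
  have hk' : (0 : ℝ) < k := by exact_mod_cast hk
  have h3 : 2 / (k : ℝ) ≤ ‖1 - ec y‖ := by
    have e1 : 4 * (1 / (2 * (k : ℝ))) = 2 / k := by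
      field_simp
      norm_num
    have e0 : 0 < 1 / (2 * (k : ℝ)) := by positivity
    rcases le_total y (1 / 2) with h | h
    · have h4 := one_sub_ec_lower (x := y) (by rw [abs_of_pos (by linarith)]; exact h)
      rw [abs_of_pos (by linarith)] at h4
      linarith
    · have h4 := one_sub_ec_lower (x := y - 1) (by rw [abs_of_neg (by linarith)]; linarith)
      rw [abs_of_neg (by linarith)] at h4
      have h5 : ec y = ec (y - 1) := by
        have := ec_add (y - 1) 1
        have h6 := ec_int 1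
        push_cast at h6
        rw [h6, mul_one, sub_add_cancel] at this
        exact this
      rw [h5]
      linarith
  have h4 := dS_bound (4 * k ^ 2) y
  have h5 : ‖dS (4 * k ^ 2) y‖ ≤ k := by
    have h6 : 2 / (k : ℝ) * ‖dS (4 * k ^ 2) y‖ ≤ 2 :=
      (mul_le_mul_of_nonneg_right h3 (norm_nonneg _)).trans h4
    rw [div_mul_eq_mul_div, div_le_iff₀ hk'] at h6
    linarith
  rw [fK, div_le_iff₀ (by positivity)]
  push_cast
  have h6 : ‖dS (4 * k ^ 2) y‖ ^ 2 ≤ (k : ℝ) ^ 2 := by gcongr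
  linarith

/-- The central mass of the kernel. -/
theorem fK_central {k : ℕ} (hk : 0 < k) :
    3 / 4 ≤ ∫ y in (-(1 / (2 * (k : ℝ))))..(1 / (2 * (k : ℝ))), fK (4 * k ^ 2) y := by
  have hk' : (0 : ℝ) < k := by exact_mod_cast hk
  have hk1 : (1 : ℝ) ≤ k := by exact_mod_cast hk
  have h1 := integral_fK (d := 4 * k ^ 2) (by positivity) (-(1 / (2 * (k : ℝ))))
  have hint : ∀ a b : ℝ, IntervalIntegrable (fK (4 * k ^ 2)) volume a b :=
    fun a b => (continuous_fK _).intervalIntegrable a b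
  rw [← intervalIntegral.integral_add_adjacent_intervals (hint _ (1 / (2 * (k : ℝ))))
    (hint _ _)] at h1
  have e0 : 1 / (2 * (k : ℝ)) ≤ 1 / 2 := by
    apply one_div_le_one_div_of_le (by norm_num)
    linarith
  have h2 : ∫ y in (1 / (2 * (k : ℝ)))..(-(1 / (2 * (k : ℝ))) + 1), fK (4 * k ^ 2) y ≤
      ∫ y in (1 / (2 * (k : ℝ)))..(-(1 / (2 * (k : ℝ))) + 1), (1 / 4 : ℝ) := by
    apply intervalIntegral.integral_mono_on (by linarith) (hint _ _) (by simp)
    intro y hy
    exact fK_far hk hy.1 (by linarith [hy.2])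
  rw [intervalIntegral.integral_const, smul_eq_mul] at h2
  have e1 : 0 < 1 / (2 * (k : ℝ)) := by positivity
  nlinarith

end Pool.Agent.Q82.FDec
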