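import Mathlib
import Pool.Agent.Q82.FOne

open MeasureTheory Filter Topology FourierTransform
open scoped ENNReal NNReal SchwartzMap ContDiff

namespace Pool.Agent.Q82.FDec

universe u

variable {X : Type u} [NormedAddCommGroup X] [NormedSpace ℂ X]

/-- The coefficients of the `j`-th piece. -/
noncomputable def pc (k d : ℕ) (x : X) (j : ℕ) : ℤ →₀ X :=
  ∑ n ∈ Finset.range d, ∑ m ∈ Finset.range d,
    Finsupp.single (((n : ℤ) - (m : ℤ)) + (j : ℤ) * (2 * d))
      (((d : ℂ)⁻¹ * ec (-((((n : ℤ) - (m : ℤ) : ℤ) : ℝ) * ((j : ℝ) / k)))) • x)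

theorem trig_pc (k d : ℕ) (x : X) (j : ℕ) (t : ℝ) :
    trig (pc k d x j) (t : UnitAddCircle) =
      (ec (2 * d * j * t) * (fK d (t - j / k) : ℂ)) • x := by
  rw [pc, trig_sum]
  simp_rw [trig_sum, trig_single, fourier_coe_ec, smul_smul]
  rw [fK_expand]
  simp_rw [← Finset.sum_smul]
  congr 1
  rw [Finset.mul_sum, Finset.mul_sum]
  apply Finset.sum_congr rfl
  intro n _
  rw [Finset.mul_sum, Finset.mul_sum]
  apply Finset.sum_congr rfl
  intro m _
  have h1 : ec ((((n : ℤ) - (m : ℤ)) + (j : ℤ) * (2 * d) : ℤ) * t) *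
      ec (-((((n : ℤ) - (m : ℤ) : ℤ) : ℝ) * ((j : ℝ) / k))) =
      ec (2 * d * j * t) * ec ((((n : ℤ) - (m : ℤ) : ℤ) : ℝ) * (t - j / k)) := by
    rw [← ec_add, ← ec_add]
    congr 1
    push_cast
    ring
  calc _ = (d : ℂ)⁻¹ * (ec ((((n : ℤ) - (m : ℤ)) + (j : ℤ) * (2 * d) : ℤ) * t) *
      ec (-((((n : ℤ) - (m : ℤ) : ℤ) : ℝ) * ((j : ℝ) / k)))) := by ring
    _ = _ := by
      rw [h1]
      ring

/-- The blocks. -/
def blk (d : ℕ) (l : ℤ) : Set ℤ := (fun n : ℤ => (n + d) / (2 * d)) ⁻¹' {l}

theorem mem_blk {d : ℕ} (hd : 0 < d) {n m : ℕ} (hn : n < d) (hm : m < d) (j l : ℤ) :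
    ((n : ℤ) - (m : ℤ)) + j * (2 * d) ∈ blk d l ↔ j = l := by
  have h1 : (((n : ℤ) - (m : ℤ)) + j * (2 * d) + d) / (2 * d) = j := by
    have e1 : ((n : ℤ) - (m : ℤ)) + j * (2 * d) + d = ((n : ℤ) - (m : ℤ) + d) + j * (2 * d) := by
      ring
    rw [e1, Int.add_mul_ediv_right _ _ (by positivity), Int.ediv_eq_zero_of_lt, zero_add]
    · omega
    · omega
  rw [blk, Set.mem_preimage, Set.mem_singleton_iff, h1]

theorem restr_pc {k d : ℕ} (hd : 0 < d) (x : X) (j : ℕ) (l : ℤ) :
    restr (blk d l) (pc k d x j) = if (j : ℤ) = l then pc k d x j else 0 := by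
  rw [pc, restr_sum]
  simp_rw [restr_sum]
  split_ifs with h
  · apply Finset.sum_congr rfl
    intro n hn
    apply Finset.sum_congr rfl
    intro m hm
    apply restr_single_mem
    rw [Finset.mem_range] at hn hm
    exact (mem_blk hd hn hm j l).2 h
  · apply Finset.sum_eq_zero
    intro n hn
    apply Finset.sum_eq_zero
    intro m hm
    apply restr_single_notMem
    rw [Finset.mem_range] at hn hm
    intro h2
    exact h ((mem_blk hd hn hm j l).1 h2)

theorem blk_facts {d : ℕ} (hd : 0 < d) :
    (∀ l, (blk d l).OrdConnected) ∧ Pairwise (Function.onFun Disjoint (blk d)) ∧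
      (∀ n : ℤ, ∃ l, n ∈ blk d l) := by
  refine ⟨?_, ?_, ?_⟩
  · intro l
    apply Set.ordConnected_singleton.preimage_mono
    intro a b hab
    have h2 : (0 : ℤ) < 2 * d := by positivity
    exact Int.ediv_le_ediv h2 (by linarith)
  · intro a b hab
    exact (Set.disjoint_singleton.2 hab).preimage _
  · intro n
    exact ⟨_, rfl⟩

theorem eLpNorm_one_trig (c : ℤ →₀ X) (a : ℝ) :
    eLpNorm (trig c) 1 volume =
      ENNReal.ofReal (∫ t in a..a + 1, ‖trig c (t : UnitAddCircle)‖) := by
  rw [eLpNorm_one_eq_lintegral_enorm, ← UnitAddCircle.lintegral_preimage a,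
    intervalIntegral.integral_of_le (by linarith)]
  rw [ofReal_integral_norm_eq_lintegral_enorm]
  have h1 : Continuous fun t : ℝ => trig c (t : UnitAddCircle) :=
    (continuous_trig c).comp (AddCircle.continuous_mk' 1)
  exact (h1.integrableOn_Icc).mono_set Set.Ioc_subset_Icc_self

theorem eLpNorm_pc {k d : ℕ} (hd : 0 < d) (x : X) (j : ℕ) :
    eLpNorm (trig (pc k d x j)) 1 volume ≤ ‖x‖ₑ := by
  rw [eLpNorm_one_trig _ 0, ← ofReal_norm]
  apply ENNReal.ofReal_le_ofReal
  have h1 : ∀ t : ℝ, ‖trig (pc k d x j) (t : UnitAddCircle)‖ = fK d (t - j / k) * ‖x‖ := by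
    intro t
    rw [trig_pc, norm_smul, norm_mul, norm_ec, one_mul, Complex.norm_real, Real.norm_eq_abs,
      abs_of_nonneg (fK_nonneg _ _)]
  simp_rw [h1]
  rw [intervalIntegral.integral_mul_const,
    intervalIntegral.integral_comp_sub_right (fun y => fK d y) ((j : ℝ) / k)]
  have e1 : (0 : ℝ) + 1 - j / k = (0 - j / k) + 1 := by ring
  rw [e1, integral_fK hd, one_mul]

theorem q_one_of_one [CompleteSpace X] [Nontrivial X] {q : ℝ≥0∞} (hq : 1 ≤ q)
    (h : UpperCircle X 1 q) : q = 1 := by
  obtain ⟨U, hU0, hU⟩ := h.family hq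
  obtain ⟨x, hx⟩ := exists_ne (0 : X)
  apply q_eq_one_of hq (U := 2 * U) (a := ‖x‖ₑ) (by simpa using hx) (by simp)
  intro k hk
  have hk' : (0 : ℝ) < k := by exact_mod_cast hk
  set d : ℕ := 4 * k ^ 2 with hd
  have hd0 : 0 < d := by positivity
  obtain ⟨hb1, hb2, hb3⟩ := blk_facts hd0
  set c : ℤ →₀ X := ∑ j ∈ Finset.range k, pc k d x j with hc
  have h1 := hU ℤ (blk d) hb1 hb2 hb3 c
  have h3 := lq_indicator_le hq ((Finset.range k).map Nat.castEmbedding)
    (fun n : ℤ => eLpNorm (trig (restr (blk d n) c)) 1 volume) ‖x‖ₑ ?_ ?_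
  · rw [Finset.card_map, Finset.card_range] at h3
    -- lower bound
    have hlow : ENNReal.ofReal ((k : ℝ) / 2 * ‖x‖) ≤ eLpNorm (trig c) 1 volume := by
      rw [eLpNorm_one_trig c (-(1 / (2 * (k : ℝ))))]
      apply ENNReal.ofReal_le_ofReal
      set a : ℕ → ℝ := fun l => ((l : ℝ) - 1 / 2) / k with ha
      have hcont : Continuous fun t : ℝ => ‖trig c (t : UnitAddCircle)‖ :=
        ((continuous_trig c).comp (AddCircle.continuous_mk' 1)).norm
      have hsum := intervalIntegral.sum_integral_adjacent_intervals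
        (f := fun t : ℝ => ‖trig c (t : UnitAddCircle)‖) (a := a) (n := k) (μ := volume)
        (fun l _ => hcont.intervalIntegrable _ _)
      have ha0 : a 0 = -(1 / (2 * (k : ℝ))) := by
        rw [ha]
        simp only
        push_cast
        field_simp
        ring
      have hak : a k = -(1 / (2 * (k : ℝ))) + 1 := by
        rw [ha]
        simp only
        field_simp
        ring
      rw [ha0, hak] at hsum
      rw [← hsum]
      have hKint : ∀ j : ℕ, ∀ u v : ℝ,
          IntervalIntegrable (fun t : ℝ => fK d (t - j / k)) volume u v := by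
        intro j u v
        apply Continuous.intervalIntegrable
        exact (continuous_fK d).comp (by fun_prop)
      have hKsum : ∀ u v : ℝ, IntervalIntegrable
          (fun t : ℝ => ∑ j ∈ Finset.range k, fK d (t - j / k)) volume u v := by
        intro u v
        apply Continuous.intervalIntegrable
        apply continuous_finsetSum
        intro j _
        exact (continuous_fK d).comp (by fun_prop)
      have hpt : ∀ l ∈ Finset.range k, ∀ t : ℝ,
          (2 * fK d (t - l / k) - ∑ j ∈ Finset.range k, fK d (t - j / k)) * ‖x‖ ≤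
          ‖trig c (t : UnitAddCircle)‖ := by
        intro l hl t
        rw [hc, trig_sum, ← Finset.add_sum_erase (Finset.range k)
          (fun j => trig (pc k d x j) (t : UnitAddCircle)) hl]
        have h4 : ∀ j : ℕ, ‖trig (pc k d x j) (t : UnitAddCircle)‖ = fK d (t - j / k) * ‖x‖ := by
          intro j
          rw [trig_pc, norm_smul, norm_mul, norm_ec, one_mul, Complex.norm_real,
            Real.norm_eq_abs, abs_of_nonneg (fK_nonneg _ _)]
        have h5 : ‖∑ j ∈ (Finset.range k).erase l, trig (pc k d x j) (t : UnitAddCircle)‖ ≤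
            ∑ j ∈ (Finset.range k).erase l, fK d (t - j / k) * ‖x‖ := by
          refine (norm_sum_le _ _).trans (le_of_eq ?_)
          apply Finset.sum_congr rfl
          intro j _
          exact h4 j
        have h6 : ∑ j ∈ (Finset.range k).erase l, fK d (t - j / k) * ‖x‖ =
            (∑ j ∈ Finset.range k, fK d (t - j / k)) * ‖x‖ - fK d (t - l / k) * ‖x‖ := by
          rw [Finset.sum_mul, ← Finset.add_sum_erase _ _ hl]
          ring
        have h7 := norm_sub_le_norm_add (trig (pc k d x l) (t : UnitAddCircle))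
          (∑ j ∈ (Finset.range k).erase l, trig (pc k d x j) (t : UnitAddCircle))
        rw [h4 l] at h7
        linarith
      have hl1 : ∀ l ∈ Finset.range k,
          (2 * (3 / 4) - ∫ t in a l..a (l + 1), ∑ j ∈ Finset.range k, fK d (t - j / k)) * ‖x‖ ≤
          ∫ t in a l..a (l + 1), ‖trig c (t : UnitAddCircle)‖ := by
        intro l hl
        have hal : a l ≤ a (l + 1) := by
          rw [ha]
          simp only
          gcongr
          push_cast
          linarith
        have h4 : ∫ t in a l..a (l + 1),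
            (2 * fK d (t - l / k) - ∑ j ∈ Finset.range k, fK d (t - j / k)) * ‖x‖ ≤
            ∫ t in a l..a (l + 1), ‖trig c (t : UnitAddCircle)‖ := by
          apply intervalIntegral.integral_mono_on hal
          · apply IntervalIntegrable.mul_const
            apply IntervalIntegrable.sub
            · exact (hKint l _ _).const_mul _
            · exact hKsum _ _
          · exact hcont.intervalIntegrable _ _
          · intro t _
            exact hpt l hl t
        refine le_trans ?_ h4
        rw [intervalIntegral.integral_mul_const, intervalIntegral.integral_sub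
          ((hKint l _ _).const_mul _) (hKsum _ _),
          intervalIntegral.integral_const_mul]
        have h5 : ∫ t in a l..a (l + 1), fK d (t - l / k) =
            ∫ y in (-(1 / (2 * (k : ℝ))))..(1 / (2 * (k : ℝ))), fK d y := by
          rw [intervalIntegral.integral_comp_sub_right (fun y => fK d y) ((l : ℝ) / k)]
          congr 1
          · rw [ha]
            simp only
            field_simp
            ring
          · rw [ha]
            simp only
            push_cast
            field_simp
            ring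
        rw [h5]
        have h6 := fK_central hk
        have h7 : (0 : ℝ) ≤ ‖x‖ := norm_nonneg _
        gcongr
      have hsum2 : ∑ l ∈ Finset.range k, ∫ t in a l..a (l + 1),
          ∑ j ∈ Finset.range k, fK d (t - j / k) = k := by
        rw [intervalIntegral.sum_integral_adjacent_intervals
          (f := fun t : ℝ => ∑ j ∈ Finset.range k, fK d (t - j / k)) (a := a) (n := k)
          (fun l _ => hKsum _ _), ha0, hak,
          intervalIntegral.integral_finsetSum (fun j _ => hKint j _ _)]
        have h4 : ∀ j ∈ Finset.range k, ∫ t in (-(1 / (2 * (k : ℝ))))..(-(1 / (2 * (k : ℝ))) + 1),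
            fK d (t - j / k) = 1 := by
          intro j _
          rw [intervalIntegral.integral_comp_sub_right (fun y => fK d y) ((j : ℝ) / k)]
          have e1 : -(1 / (2 * (k : ℝ))) + 1 - j / k = (-(1 / (2 * (k : ℝ))) - j / k) + 1 := by
            ring
          rw [e1, integral_fK hd0]
        rw [Finset.sum_congr rfl h4, Finset.sum_const, Finset.card_range, nsmul_eq_mul, mul_one]
      calc (k : ℝ) / 2 * ‖x‖ = ∑ l ∈ Finset.range k, (2 * (3 / 4) -
            ∫ t in a l..a (l + 1), ∑ j ∈ Finset.range k, fK d (t - j / k)) * ‖x‖ := by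
            rw [← Finset.sum_mul, Finset.sum_sub_distrib, hsum2, Finset.sum_const,
              Finset.card_range, nsmul_eq_mul]
            ring
        _ ≤ _ := Finset.sum_le_sum hl1
    have h4 : (k : ℝ≥0∞) * ‖x‖ₑ = 2 * ENNReal.ofReal ((k : ℝ) / 2 * ‖x‖) := by
      rw [← ofReal_norm, ← ENNReal.ofReal_natCast k, ← ENNReal.ofReal_mul (by positivity)]
      have : (2 : ℝ≥0∞) = ENNReal.ofReal 2 := by simp
      rw [this, ← ENNReal.ofReal_mul (by positivity)]
      congr 1
      ring
    rw [h4]
    calc 2 * ENNReal.ofReal ((k : ℝ) / 2 * ‖x‖) ≤ 2 * (U * ((k : ℝ≥0∞) ^ (1 / q.toReal) * ‖x‖ₑ)) := by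
          gcongr
          exact hlow.trans (h1.trans (by gcongr))
      _ = _ := by
          push_cast
          ring
  · intro n hn
    rw [Finset.mem_map] at hn
    obtain ⟨m, hm, rfl⟩ := hn
    rw [hc, restr_sum, Finset.sum_eq_single_of_mem m hm]
    · rw [restr_pc hd0, if_pos (show (m : ℤ) = Nat.castEmbedding m from rfl)]
      exact eLpNorm_pc hd0 x m
    · intro j _ hj
      rw [restr_pc hd0, if_neg]
      intro h
      apply hj
      have : (j : ℤ) = (m : ℤ) := h
      exact_mod_cast this
  · intro n hn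
    rw [hc, restr_sum, Finset.sum_eq_zero]
    · rw [trig_zero, eLpNorm_zero]
    · intro j hj
      rw [restr_pc hd0, if_neg]
      intro h
      apply hn
      rw [Finset.mem_map]
      exact ⟨j, hj, h⟩

end Pool.Agent.Q82.FDec
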