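import Mathlib

/-! # The fractional part integral operator on `L²[0,1]`: construction and lower bounds -/

namespace Q82.Frac

open MeasureTheory Set Filter Topology
open scoped ENNReal InnerProductSpace ComplexConjugate

noncomputable section

/-- Lebesgue measure on `(0,1]` -/
abbrev mu : Measure ℝ := volume.restrict (Ioc (0 : ℝ) 1)

/-- the Hilbert space -/
abbrev H : Type := Lp ℂ 2 mu

instance : IsProbabilityMeasure mu := ⟨by simp [mu]⟩

/-- the kernel -/
def K (y u : ℝ) : ℝ := Int.fract (u / y) / (u / y)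

lemma K_nonneg {y u : ℝ} (hy : 0 < y) (hu : 0 < u) : 0 ≤ K y u :=
  div_nonneg (Int.fract_nonneg _) (div_pos hu hy).le

lemma K_le_one {y u : ℝ} (hy : 0 < y) (hu : 0 < u) : K y u ≤ 1 := by
  unfold K
  have h := div_pos hu hy
  rw [div_le_one h]
  unfold Int.fract
  have : (0 : ℝ) ≤ ⌊u / y⌋ := by exact_mod_cast Int.floor_nonneg.2 h.le
  linarith

lemma K_norm {y u : ℝ} (hy : 0 < y) (hu : 0 < u) : ‖(K y u : ℂ)‖ ≤ 1 := by
  rw [Complex.norm_real, Real.norm_of_nonneg (K_nonneg hy hu)]
  exact K_le_one hy hu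

lemma K_meas : Measurable (Function.uncurry K) := by
  unfold Function.uncurry K
  fun_prop

lemma K_meas_right (y : ℝ) : Measurable (K y) := by
  unfold K
  fun_prop

/-- the integral -/
def I (h : ℝ → ℂ) (y : ℝ) : ℂ := ∫ u, (K y u : ℂ) * h u ∂mu

lemma int_norm_le (h : H) : ∫ u, ‖h u‖ ∂mu ≤ ‖h‖ := by
  have h1 : MemLp (fun u => h u) 2 mu := Lp.memLp h
  have h2 : eLpNorm (fun u => h u) 1 mu ≤ eLpNorm (fun u => h u) 2 mu :=
    eLpNorm_le_eLpNorm_of_exponent_le (by norm_num) h1.1
  have h3 : ∫ u, ‖h u‖ ∂mu = (eLpNorm (fun u => h u) 1 mu).toReal := by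
    rw [eLpNorm_one_eq_lintegral_enorm, integral_norm_eq_lintegral_enorm h1.1]
  rw [h3, Lp.norm_def]
  exact ENNReal.toReal_mono h1.2.ne h2

lemma h_int (h : H) : Integrable (fun u => h u) mu :=
  (Lp.memLp h).integrable (by norm_num)

lemma Kh_int (h : ℝ → ℂ) (hh : Integrable h mu) {y : ℝ} (hy : 0 < y) :
    Integrable (fun u => (K y u : ℂ) * h u) mu := by
  apply hh.bdd_mul (c := 1)
  · exact (Complex.measurable_ofReal.comp (K_meas_right y)).aestronglyMeasurable
  · rw [ae_restrict_iff' measurableSet_Ioc]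
    exact Eventually.of_forall fun u hu => K_norm hy hu.1

lemma I_norm (h : H) {y : ℝ} (hy : 0 < y) : ‖I h y‖ ≤ ‖h‖ := by
  refine (norm_integral_le_of_norm_le (h_int h).norm ?_).trans (int_norm_le h)
  rw [ae_restrict_iff' measurableSet_Ioc]
  refine Eventually.of_forall fun u hu => ?_
  rw [norm_mul]
  exact mul_le_of_le_one_left (norm_nonneg _) (K_norm hy hu.1)

lemma I_meas (h : H) : StronglyMeasurable (I h) := by
  have : StronglyMeasurable (Function.uncurry fun (y u : ℝ) => (K y u : ℂ) * h u) := by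
    apply StronglyMeasurable.mul
    · exact (Complex.measurable_ofReal.comp K_meas).stronglyMeasurable
    · exact (Lp.stronglyMeasurable h).comp_measurable measurable_snd
  exact this.integral_prod_right

lemma I_mem (h : H) : MemLp (I h) 2 mu := by
  apply MemLp.of_bound (I_meas h).aestronglyMeasurable ‖h‖
  rw [ae_restrict_iff' measurableSet_Ioc]
  exact Eventually.of_forall fun y hy => I_norm h hy.1

/-- the operator -/
def T : H →L[ℂ] H :=
  LinearMap.mkContinuous
    { toFun := fun h => (I_mem h).toLp (I h)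
      map_add' := fun g h => by
        rw [← MemLp.toLp_add, MemLp.toLp_eq_toLp_iff, EventuallyEq,
          ae_restrict_iff' measurableSet_Ioc]
        refine Eventually.of_forall fun y hy => ?_
        simp only [Pi.add_apply]
        unfold I
        rw [← integral_add (Kh_int _ (h_int g) hy.1) (Kh_int _ (h_int h) hy.1)]
        apply integral_congr_ae
        filter_upwards [Lp.coeFn_add g h] with u hu
        rw [hu, Pi.add_apply]
        ring
      map_smul' := fun c g => by
        rw [RingHom.id_apply, ← MemLp.toLp_const_smul, MemLp.toLp_eq_toLp_iff, EventuallyEq,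
          ae_restrict_iff' measurableSet_Ioc]
        refine Eventually.of_forall fun y hy => ?_
        simp only [Pi.smul_apply]
        unfold I
        rw [smul_eq_mul, ← integral_const_mul]
        apply integral_congr_ae
        filter_upwards [Lp.coeFn_smul c g] with u hu
        rw [hu, Pi.smul_apply, smul_eq_mul]
        ring } 1 (fun h => by
      change ‖(I_mem h).toLp (I h)‖ ≤ 1 * ‖h‖
      have h1 := Lp.norm_le_of_ae_bound (f := (I_mem h).toLp (I h)) (norm_nonneg h) (by
        filter_upwards [(I_mem h).coeFn_toLp, ae_restrict_mem measurableSet_Ioc] with y hy hy'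
        rw [hy]
        exact I_norm h hy'.1)
      have h2 : measureUnivNNReal mu = 1 := by
        rw [measureUnivNNReal, measure_univ]
        rfl
      rw [h2, NNReal.coe_one, Real.one_rpow] at h1
      exact h1)

lemma T_apply (h : H) : ∀ᵐ y ∂mu, T h y = ∫ u, (K y u : ℂ) * h u ∂mu :=
  (I_mem h).coeFn_toLp

/-- functions supported in `(1/2, 1]` -/
def ind (f : ℝ → ℂ) : ℝ → ℂ := indicator (Ioc (1 / 2) 1) f

lemma ind_mem {f : ℝ → ℂ} (hf : Continuous f) : MemLp (ind f) 2 mu := by
  obtain ⟨C, hC⟩ := (isCompact_Icc (a := (1 / 2 : ℝ)) (b := 1)).exists_bound_of_continuousOn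
    hf.continuousOn
  apply MemLp.of_bound ((hf.measurable.indicator measurableSet_Ioc).aestronglyMeasurable)
    (max C 0)
  refine Eventually.of_forall fun u => ?_
  change ‖indicator (Ioc (1 / 2 : ℝ) 1) f u‖ ≤ _
  by_cases hu : u ∈ Ioc (1 / 2 : ℝ) 1
  · rw [indicator_of_mem hu]
    exact (hC u ⟨hu.1.le, hu.2⟩).trans (le_max_left _ _)
  · rw [indicator_of_notMem hu, norm_zero]
    exact le_max_right _ _

/-- the element of `L²` of a continuous function cut off at `1/2` -/
def E : C(ℝ, ℂ) →ₗ[ℂ] H where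
  toFun f := (ind_mem f.continuous).toLp (ind f)
  map_add' f g := by
    rw [← MemLp.toLp_add]
    congr 1
    exact indicator_add' _ _ _
  map_smul' c f := by
    rw [RingHom.id_apply, ← MemLp.toLp_const_smul]
    congr 1
    exact indicator_const_smul (Ioc (1 / 2 : ℝ) 1) c (fun u => f u)

lemma E_coe (f : C(ℝ, ℂ)) : ∀ᵐ u ∂mu, E f u = ind f u :=
  (ind_mem f.continuous).coeFn_toLp

lemma restrict_eq : mu.restrict (Ioc (1 / 2) 1) = volume.restrict (Ioc (1 / 2 : ℝ) 1) := by
  rw [mu, Measure.restrict_restrict measurableSet_Ioc,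
    inter_eq_left.2 (Ioc_subset_Ioc_left (by norm_num))]

lemma set_eq (F : ℝ → ℂ) :
    ∫ u in Ioc (1 / 2 : ℝ) 1, F u = ∫ u, indicator (Ioc (1 / 2) 1) F u ∂mu := by
  rw [integral_indicator (μ := mu) measurableSet_Ioc, restrict_eq]

lemma E_inner (f g : C(ℝ, ℂ)) : ⟪E f, E g⟫_ℂ = ∫ u in (1 / 2 : ℝ)..1, g u * conj (f u) := by
  rw [L2.inner_def, intervalIntegral.integral_of_le (by norm_num), set_eq]
  apply integral_congr_ae
  filter_upwards [E_coe f, E_coe g] with u hf hg
  rw [hf, hg]
  unfold ind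
  by_cases hu : u ∈ Ioc (1 / 2 : ℝ) 1
  · rw [indicator_of_mem hu, indicator_of_mem hu, indicator_of_mem hu]
    rfl
  · rw [indicator_of_notMem hu, indicator_of_notMem hu, indicator_of_notMem hu]
    simp

/-- value of the operator on cut off functions -/
lemma T_E (f : C(ℝ, ℂ)) : ∀ᵐ y ∂mu, y ∈ Ioc (1 / 2 : ℝ) 1 →
    T (E f) y = (∫ u in (1 / 2 : ℝ)..1, f u) - y * ∫ u in y..1, f u / u := by
  filter_upwards [T_apply (E f)] with y hy hyI
  rw [hy]
  have hy0 : 0 < y := by linarith [hyI.1]
  have hlt : ∀ u, u ∈ Ioc (1 / 2 : ℝ) 1 → u / y < 2 := by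
    intro u hu
    rw [div_lt_iff₀ hy0]
    linarith [hu.2, hyI.1]
  have h1 : ∫ u, (K y u : ℂ) * (E f) u ∂mu =
      ∫ u in Ioc (1 / 2 : ℝ) 1, (f u - indicator (Ioc y 1) (fun u => y * (f u / u)) u) := by
    rw [set_eq]
    apply integral_congr_ae
    have hne : ∀ᵐ u ∂mu, u ≠ y := by
      apply ae_restrict_of_ae
      exact Measure.ae_ne volume y
    filter_upwards [E_coe f, hne] with u hu huy
    rw [hu]
    unfold ind
    by_cases hm : u ∈ Ioc (1 / 2 : ℝ) 1
    · rw [indicator_of_mem hm, indicator_of_mem hm]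
      have hu0 : 0 < u := by linarith [hm.1]
      have hu0' : (u : ℂ) ≠ 0 := by exact_mod_cast hu0.ne'
      have hy0' : (y : ℂ) ≠ 0 := by exact_mod_cast hy0.ne'
      rcases lt_or_gt_of_ne huy with h | h
      · have hf : Int.fract (u / y) = u / y := by
          rw [Int.fract_eq_self]
          exact ⟨(div_pos hu0 hy0).le, (div_lt_one hy0).2 h⟩
        have hK : K y u = 1 := by
          unfold K
          rw [hf, div_self (div_pos hu0 hy0).ne']
        rw [hK, indicator_of_notMem (fun h' => absurd h'.1 (not_lt.2 h.le))]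
        simp
      · have hf : Int.fract (u / y) = u / y - 1 := by
          rw [Int.fract_eq_iff]
          refine ⟨by rw [sub_nonneg, one_le_div hy0]; exact h.le, by linarith [hlt u hm], 1, ?_⟩
          push_cast; ring
        have hK : K y u = 1 - y / u := by
          unfold K
          rw [hf]
          field_simp
        rw [hK, indicator_of_mem (show u ∈ Ioc y 1 from ⟨h, hm.2⟩)]
        push_cast
        field_simp
    · rw [indicator_of_notMem hm, indicator_of_notMem hm, mul_zero]
  have hi1 : IntegrableOn f (Ioc (1 / 2 : ℝ) 1) volume :=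
    (f.continuous.integrableOn_Icc).mono_set Ioc_subset_Icc_self
  have hc2 : ContinuousOn (fun u : ℝ => (y : ℂ) * (f u / u)) (Icc y 1) := by
    apply ContinuousOn.mul continuousOn_const
    apply f.continuous.continuousOn.div Complex.continuous_ofReal.continuousOn
    intro u hu
    have : 0 < u := hy0.trans_le hu.1
    exact_mod_cast this.ne'
  have hi2 : IntegrableOn (fun u : ℝ => (y : ℂ) * (f u / u)) (Ioc y 1) volume :=
    (hc2.integrableOn_Icc).mono_set Ioc_subset_Icc_self
  have hi3 : IntegrableOn (indicator (Ioc y 1) fun u : ℝ => (y : ℂ) * (f u / u))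
      (Ioc (1 / 2 : ℝ) 1) volume := by
    apply Integrable.integrableOn
    exact (integrable_indicator_iff measurableSet_Ioc).2 hi2
  rw [h1, integral_sub hi1 hi3, intervalIntegral.integral_of_le (by norm_num : (1 / 2 : ℝ) ≤ 1)]
  congr 1
  rw [setIntegral_indicator measurableSet_Ioc, inter_eq_right.2 (Ioc_subset_Ioc_left hyI.1.le),
    ← intervalIntegral.integral_of_le hyI.2, ← intervalIntegral.integral_const_mul]

/-- frequencies -/
def w (k : ℕ) : ℝ := 4 * Real.pi * (k + 1)

lemma w_pos (k : ℕ) : 0 < w k := by unfold w; have := Real.pi_pos; positivity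

lemma w_mono {k n : ℕ} (h : k ≤ n) : w k ≤ w n := by
  unfold w
  have := Real.pi_pos
  have h' : (k : ℝ) ≤ n := by exact_mod_cast h
  nlinarith

lemma sin_w (k : ℕ) : Real.sin (w k) = 0 := by
  have := Real.sin_nat_mul_pi (4 * (k + 1))
  rw [← this]; congr 1; unfold w; push_cast; ring

lemma sin_w_half (k : ℕ) : Real.sin (w k * (1 / 2)) = 0 := by
  have := Real.sin_nat_mul_pi (2 * (k + 1))
  rw [← this]; congr 1; unfold w; push_cast; ring

lemma cos_w (k : ℕ) : Real.cos (w k) = 1 := by
  have h := Real.cos_nat_mul_two_pi (2 * (k + 1))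
  have e : w k = ((2 * (k + 1) : ℕ) : ℝ) * (2 * Real.pi) := by unfold w; push_cast; ring
  rw [e]; exact h

lemma cos_w_half (k : ℕ) : Real.cos (w k * (1 / 2)) = 1 := by
  have h := Real.cos_nat_mul_two_pi (k + 1)
  have e : w k * (1 / 2) = ((k + 1 : ℕ) : ℝ) * (2 * Real.pi) := by unfold w; push_cast; ring
  rw [e]; exact h

/-- `∫_{1/2}^1 cos (4 π m u) du` -/
lemma int_cos (m : ℤ) : ∫ u in (1 / 2 : ℝ)..1, Real.cos (4 * Real.pi * m * u) =
    if m = 0 then 1 / 2 else 0 := by
  split_ifs with h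
  · subst h; norm_num
  · have hm : (m : ℝ) ≠ 0 := by exact_mod_cast h
    have h0 : 4 * Real.pi * m ≠ 0 := by have := Real.pi_pos; positivity
    rw [intervalIntegral.integral_comp_mul_left (fun x => Real.cos x) h0, integral_cos]
    have h1 : Real.sin (4 * Real.pi * m * 1) = 0 := by
      have := Real.sin_int_mul_pi (4 * m)
      rw [← this]; congr 1; push_cast; ring
    have h2 : Real.sin (4 * Real.pi * m * (1 / 2)) = 0 := by
      have := Real.sin_int_mul_pi (2 * m)
      rw [← this]; congr 1; push_cast; ring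
    rw [h1, h2]; simp

lemma cos_cos (j k : ℕ) : ∫ u in (1 / 2 : ℝ)..1, (2 * Real.cos (w k * u)) *
    (2 * Real.cos (w j * u)) = if j = k then 1 else 0 := by
  have h1 : ∀ u : ℝ, (2 * Real.cos (w k * u)) * (2 * Real.cos (w j * u)) =
      2 * Real.cos (4 * Real.pi * ((j - k : ℤ) : ℝ) * u) +
      2 * Real.cos (4 * Real.pi * ((j + k + 2 : ℤ) : ℝ) * u) := by
    intro u
    have e1 : 4 * Real.pi * ((j - k : ℤ) : ℝ) * u = w j * u - w k * u := by
      unfold w; push_cast; ring
    have e2 : 4 * Real.pi * ((j + k + 2 : ℤ) : ℝ) * u = w j * u + w k * u := by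
      unfold w; push_cast; ring
    rw [e1, e2, Real.cos_sub, Real.cos_add]; ring
  simp only [h1]
  rw [intervalIntegral.integral_add (by apply Continuous.intervalIntegrable; fun_prop)
    (by apply Continuous.intervalIntegrable; fun_prop), intervalIntegral.integral_const_mul,
    intervalIntegral.integral_const_mul, int_cos, int_cos]
  have h2 : ¬ ((j : ℤ) + k + 2 = 0) := by omega
  rw [if_neg h2]
  by_cases h : j = k
  · rw [if_pos (by omega), if_pos h]; norm_num
  · rw [if_neg (by omega), if_neg h]; norm_num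

lemma sin_sin (j k : ℕ) : ∫ u in (1 / 2 : ℝ)..1, (2 * Real.sin (w k * u)) *
    (2 * Real.sin (w j * u)) = if j = k then 1 else 0 := by
  have h1 : ∀ u : ℝ, (2 * Real.sin (w k * u)) * (2 * Real.sin (w j * u)) =
      2 * Real.cos (4 * Real.pi * ((j - k : ℤ) : ℝ) * u) -
      2 * Real.cos (4 * Real.pi * ((j + k + 2 : ℤ) : ℝ) * u) := by
    intro u
    have e1 : 4 * Real.pi * ((j - k : ℤ) : ℝ) * u = w j * u - w k * u := by
      unfold w; push_cast; ring
    have e2 : 4 * Real.pi * ((j + k + 2 : ℤ) : ℝ) * u = w j * u + w k * u := by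
      unfold w; push_cast; ring
    rw [e1, e2, Real.cos_sub, Real.cos_add]; ring
  simp only [h1]
  rw [intervalIntegral.integral_sub (by apply Continuous.intervalIntegrable; fun_prop)
    (by apply Continuous.intervalIntegrable; fun_prop), intervalIntegral.integral_const_mul,
    intervalIntegral.integral_const_mul, int_cos, int_cos]
  have h2 : ¬ ((j : ℤ) + k + 2 = 0) := by omega
  rw [if_neg h2]
  by_cases h : j = k
  · rw [if_pos (by omega), if_pos h]; norm_num
  · rw [if_neg (by omega), if_neg h]; norm_num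

/-- real functions as elements of `C(ℝ, ℂ)` -/
def ofR (f : ℝ → ℝ) (hf : Continuous f) : C(ℝ, ℂ) :=
  ⟨fun u => (f u : ℂ), Complex.continuous_ofReal.comp hf⟩

/-- cosine modes -/
def cm (k : ℕ) : C(ℝ, ℂ) := ofR (fun u => 2 * Real.cos (w k * u)) (by fun_prop)

/-- sine modes -/
def sm (k : ℕ) : C(ℝ, ℂ) := ofR (fun u => 2 * Real.sin (w k * u)) (by fun_prop)

lemma ofR_inner (f g : ℝ → ℝ) (hf : Continuous f) (hg : Continuous g) :
    ⟪E (ofR f hf), E (ofR g hg)⟫_ℂ = ((∫ u in (1 / 2 : ℝ)..1, g u * f u : ℝ) : ℂ) := by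
  rw [E_inner, ← intervalIntegral.integral_ofReal]
  congr 1
  ext u
  simp [ofR]

lemma cm_orth : Orthonormal ℂ (fun k => E (cm k)) := by
  rw [orthonormal_iff_ite]
  intro j k
  rw [cm, cm, ofR_inner, cos_cos]
  split_ifs <;> simp

lemma sm_orth : Orthonormal ℂ (fun k => E (sm k)) := by
  rw [orthonormal_iff_ite]
  intro j k
  rw [sm, sm, ofR_inner, sin_sin]
  split_ifs <;> simp

/-- multiplication by `u` -/
def xm (k : ℕ) : C(ℝ, ℂ) := ofR (fun u => u * (2 * Real.cos (w k * u))) (by fun_prop)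

/-- test functions -/
def W (n : ℕ) : (Fin n → ℂ) →ₗ[ℂ] H where
  toFun c := E (∑ k, c k • xm k)
  map_add' c d := by
    rw [← map_add, ← Finset.sum_add_distrib]
    congr 1
    apply Finset.sum_congr rfl
    intro k _
    ext u
    simp only [Pi.add_apply, ContinuousMap.add_apply, ContinuousMap.smul_apply, smul_eq_mul]
    ring
  map_smul' a c := by
    rw [RingHom.id_apply, ← map_smul, Finset.smul_sum]
    congr 1
    apply Finset.sum_congr rfl
    intro k _
    ext u
    simp only [Pi.smul_apply, ContinuousMap.smul_apply, smul_eq_mul]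
    ring

lemma ind_norm_le {f g : ℝ → ℂ} {a : ℝ} {u : ℝ}
    (h : u ∈ Ioc (1 / 2 : ℝ) 1 → ‖f u‖ ≤ a * ‖g u‖) :
    ‖ind f u‖ ≤ a * ‖ind g u‖ := by
  unfold ind
  by_cases hu : u ∈ Ioc (1 / 2 : ℝ) 1
  · rw [indicator_of_mem hu, indicator_of_mem hu]; exact h hu
  · rw [indicator_of_notMem hu, indicator_of_notMem hu]; simp

lemma sum_norm_sq {v : ℕ → H} (hv : Orthonormal ℂ v) {n : ℕ} (c : Fin n → ℂ) :
    ‖∑ k, c k • v k‖ ^ 2 = ∑ k, ‖c k‖ ^ 2 := by
  have h1 : Orthonormal ℂ (fun k : Fin n => v k) := hv.comp _ Fin.val_injective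
  have h2 := h1.inner_sum c c Finset.univ
  rw [inner_self_eq_norm_sq_to_K] at h2
  have h3 : ((‖∑ k, c k • v k‖ ^ 2 : ℝ) : ℂ) = ((∑ k, ‖c k‖ ^ 2 : ℝ) : ℂ) := by
    push_cast
    refine Eq.trans ?_ (h2.trans ?_)
    · rfl
    · apply Finset.sum_congr rfl
      intro k _
      exact Complex.conj_mul' (c k)
  exact_mod_cast h3

/-- the image of the test functions -/
lemma T_W (n : ℕ) (c : Fin n → ℂ) : ∀ᵐ y ∂mu, y ∈ Ioc (1 / 2 : ℝ) 1 →
    T (W n c) y = y * (∑ k : Fin n, (c k / (w k : ℂ)) • sm k : C(ℝ, ℂ)) y := by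
  filter_upwards [T_E (∑ k, c k • xm k)] with y hy hyI
  change T (E _) y = _
  rw [hy hyI]
  have hy0 : 0 < y := by linarith [hyI.1]
  have h1 : ∫ u in (1 / 2 : ℝ)..1, (∑ k, c k • xm k : C(ℝ, ℂ)) u = 0 := by
    simp only [ContinuousMap.sum_apply, ContinuousMap.smul_apply, smul_eq_mul]
    rw [intervalIntegral.integral_finsetSum (fun k _ => by
      apply Continuous.intervalIntegrable; fun_prop)]
    apply Finset.sum_eq_zero
    intro k _
    rw [intervalIntegral.integral_const_mul]
    have h2 : ∫ u in (1 / 2 : ℝ)..1, xm k u =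
        ((∫ u in (1 / 2 : ℝ)..1, u * (2 * Real.cos (w k * u)) : ℝ) : ℂ) := by
      rw [← intervalIntegral.integral_ofReal]; rfl
    have h3 : ∫ u in (1 / 2 : ℝ)..1, u * (2 * Real.cos (w k * u)) = 0 := by
      have hd : ∀ u ∈ uIcc (1 / 2 : ℝ) 1, HasDerivAt
          (fun u => 2 * (u * Real.sin (w k * u) / w k + Real.cos (w k * u) / (w k) ^ 2))
          (u * (2 * Real.cos (w k * u))) u := by
        intro u _
        have hl : HasDerivAt (fun u : ℝ => w k * u) (w k) u := by
          simpa using (hasDerivAt_id u).const_mul (w k)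
        have h := ((((hasDerivAt_id u).mul hl.sin).div_const (w k)).add
          (hl.cos.div_const ((w k) ^ 2))).const_mul 2
        refine h.congr_deriv ?_
        have := (w_pos k).ne'
        simp only [id]
        field_simp
        ring
      rw [intervalIntegral.integral_eq_sub_of_hasDerivAt hd
        (by apply Continuous.intervalIntegrable; fun_prop)]
      rw [mul_one, sin_w, cos_w, sin_w_half, cos_w_half]
      ring
    rw [h2, h3]
    simp
  have h4 : ∫ u in y..1, (∑ k, c k • xm k : C(ℝ, ℂ)) u / u =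
      - (∑ k : Fin n, (c k / (w k : ℂ)) • sm k : C(ℝ, ℂ)) y := by
    have e1 : ∫ u in y..1, (∑ k, c k • xm k : C(ℝ, ℂ)) u / u =
        ∫ u in y..1, ∑ k, c k * cm k u := by
      apply intervalIntegral.integral_congr
      intro u hu
      rw [uIcc_of_le hyI.2] at hu
      have hu0 : (u : ℂ) ≠ 0 := by
        have : 0 < u := hy0.trans_le hu.1
        exact_mod_cast this.ne'
      simp only [ContinuousMap.sum_apply, ContinuousMap.smul_apply, smul_eq_mul]
      rw [Finset.sum_div]
      apply Finset.sum_congr rfl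
      intro k _
      simp only [xm, cm, ofR, ContinuousMap.coe_mk]
      push_cast
      field_simp
    rw [e1, intervalIntegral.integral_finsetSum (fun k _ => by
      apply Continuous.intervalIntegrable; fun_prop)]
    simp only [ContinuousMap.sum_apply, ContinuousMap.smul_apply, smul_eq_mul]
    rw [← Finset.sum_neg_distrib]
    apply Finset.sum_congr rfl
    intro k _
    rw [intervalIntegral.integral_const_mul]
    have h2 : ∫ u in y..1, cm k u = ((∫ u in y..1, 2 * Real.cos (w k * u) : ℝ) : ℂ) := by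
      rw [← intervalIntegral.integral_ofReal]; rfl
    have h3 : ∫ u in y..1, 2 * Real.cos (w k * u) = - (2 * Real.sin (w k * y)) / w k := by
      have hd : ∀ u ∈ uIcc y 1, HasDerivAt
          (fun u => 2 * (Real.sin (w k * u) / w k)) (2 * Real.cos (w k * u)) u := by
        intro u _
        have hl : HasDerivAt (fun u : ℝ => w k * u) (w k) u := by
          simpa using (hasDerivAt_id u).const_mul (w k)
        have h := (hl.sin.div_const (w k)).const_mul 2
        refine h.congr_deriv ?_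
        rw [mul_div_cancel_right₀ _ (w_pos k).ne']
      rw [intervalIntegral.integral_eq_sub_of_hasDerivAt hd
        (by apply Continuous.intervalIntegrable; fun_prop)]
      rw [mul_one, sin_w]
      ring
    rw [h2, h3]
    simp only [sm, ofR, ContinuousMap.coe_mk]
    push_cast
    ring
  rw [h1, h4]
  ring

theorem lower (n : ℕ) (c : Fin n → ℂ) :
    ‖W n c‖ ≤ 8 * Real.pi * n * ‖T (W n c)‖ ∧ ‖c‖ ≤ 8 * Real.pi * n * ‖T (W n c)‖ := by
  have hpi := Real.pi_pos
  rcases Nat.eq_zero_or_pos n with hn | hn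
  · subst hn
    have h1 : c = 0 := Subsingleton.elim _ _
    rw [h1, map_zero, map_zero]
    simp
  have hn' : (0 : ℝ) < n := by exact_mod_cast hn
  set Ec := E (∑ k, c k • cm k) with hEc
  set Es := E (∑ k : Fin n, (c k / (w k : ℂ)) • sm k) with hEs
  have e1 : ‖Ec‖ ^ 2 = ∑ k, ‖c k‖ ^ 2 := by
    rw [hEc, map_sum]
    simp only [map_smul]
    exact sum_norm_sq cm_orth c
  have e2 : ‖Es‖ ^ 2 = ∑ k : Fin n, ‖c k / (w k : ℂ)‖ ^ 2 := by
    rw [hEs, map_sum]
    simp only [map_smul]
    exact sum_norm_sq sm_orth (fun k => c k / (w k : ℂ))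
  have hle : ∀ k : Fin n, w k ≤ 4 * Real.pi * n := by
    intro k
    have h1 : (k : ℝ) + 1 ≤ n := by exact_mod_cast k.2
    unfold w
    nlinarith
  have e3 : ‖Ec‖ ≤ 4 * Real.pi * n * ‖Es‖ := by
    apply le_of_sq_le_sq _ (by positivity)
    rw [mul_pow, e1, e2, Finset.mul_sum]
    apply Finset.sum_le_sum
    intro k _
    rw [norm_div, Complex.norm_real, Real.norm_of_nonneg (w_pos k).le, ← mul_pow]
    apply pow_le_pow_left₀ (norm_nonneg _)
    rw [mul_div_assoc', le_div_iff₀ (w_pos k), mul_comm]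
    exact mul_le_mul_of_nonneg_right (hle k) (norm_nonneg _)
  have e4 : ‖W n c‖ ≤ ‖Ec‖ := by
    apply Lp.norm_le_norm_of_ae_le
    filter_upwards [E_coe (∑ k, c k • xm k), E_coe (∑ k, c k • cm k)] with u h1 h2
    change ‖E (∑ k, c k • xm k) u‖ ≤ _
    rw [h1, h2]
    have := ind_norm_le (f := (∑ k, c k • xm k : C(ℝ, ℂ))) (g := (∑ k, c k • cm k : C(ℝ, ℂ)))
      (a := 1) (u := u) ?_
    · rwa [one_mul] at this
    · intro hu
      have h3 : (∑ k, c k • xm k : C(ℝ, ℂ)) u = u * (∑ k, c k • cm k : C(ℝ, ℂ)) u := by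
        simp only [ContinuousMap.sum_apply, ContinuousMap.smul_apply, smul_eq_mul,
          Finset.mul_sum]
        apply Finset.sum_congr rfl
        intro k _
        simp only [xm, cm, ofR, ContinuousMap.coe_mk]
        push_cast
        ring
      rw [h3, norm_mul, Complex.norm_real, Real.norm_of_nonneg (by linarith [hu.1])]
      exact mul_le_mul_of_nonneg_right hu.2 (norm_nonneg _)
  have e5 : ‖Es‖ ≤ 2 * ‖T (W n c)‖ := by
    apply Lp.norm_le_mul_norm_of_ae_le_mul
    filter_upwards [T_W n c, E_coe (∑ k : Fin n, (c k / (w k : ℂ)) • sm k)] with y h1 h2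
    rw [h2]
    unfold ind
    by_cases hy : y ∈ Ioc (1 / 2 : ℝ) 1
    · rw [indicator_of_mem hy, h1 hy, norm_mul, Complex.norm_real,
        Real.norm_of_nonneg (by linarith [hy.1])]
      have := norm_nonneg ((∑ k : Fin n, (c k / (w k : ℂ)) • sm k : C(ℝ, ℂ)) y)
      nlinarith [hy.1]
    · rw [indicator_of_notMem hy, norm_zero]
      positivity
  have e6 : ‖c‖ ≤ ‖Ec‖ := by
    rw [pi_norm_le_iff_of_nonneg (norm_nonneg _)]
    intro k
    apply le_of_sq_le_sq _ (norm_nonneg _)
    rw [e1]
    exact Finset.single_le_sum (f := fun k => ‖c k‖ ^ 2) (fun i _ => by positivity)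
      (Finset.mem_univ k)
  have e7 : ‖Ec‖ ≤ 8 * Real.pi * n * ‖T (W n c)‖ := by
    refine e3.trans ?_
    calc 4 * Real.pi * n * ‖Es‖ ≤ 4 * Real.pi * n * (2 * ‖T (W n c)‖) :=
          mul_le_mul_of_nonneg_left e5 (by positivity)
      _ = _ := by ring
  exact ⟨e4.trans e7, e6.trans e7⟩

end

end Q82.Frac
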