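import Mathlib

/-! # Singular systems of operators on Hilbert spaces: a lower bound, compactness, existence -/

namespace Q82.SingVal

open Filter Topology
open scoped InnerProductSpace

noncomputable section

variable {H : Type*} [NormedAddCommGroup H] [InnerProductSpace ℂ H] [CompleteSpace H]

/-- the adjoint -/
def adj (A : H →L[ℂ] H) : H →L[ℂ] H := ContinuousLinearMap.adjoint A

/-- `e` is an orthonormal family of eigenvectors of `A* A` for the eigenvalues `s i ^ 2`, and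
`A` vanishes on its orthogonal complement -/
def IsSystem (A : H →L[ℂ] H) {ι : Type*} (e : ι → H) (s : ι → ℝ) : Prop :=
  Orthonormal ℂ e ∧ (∀ i, 0 ≤ s i ∧ adj A (A (e i)) = ((s i ^ 2 : ℝ) : ℂ) • e i) ∧
    ∀ x, (∀ i, ⟪e i, x⟫_ℂ = 0) → A x = 0

variable {A : H →L[ℂ] H} {ι : Type*} {e : ι → H} {s : ι → ℝ}

lemma norm_sum_sq (h : IsSystem A e s) (G : Finset ι) (c : ι → ℂ) :
    ‖A (∑ i ∈ G, c i • e i)‖ ^ 2 = ∑ i ∈ G, s i ^ 2 * ‖c i‖ ^ 2 := by
  have h1 : ((‖A (∑ i ∈ G, c i • e i)‖ ^ 2 : ℝ) : ℂ) =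
      ⟪∑ i ∈ G, c i • e i, adj A (A (∑ i ∈ G, c i • e i))⟫_ℂ := by
    rw [adj, ContinuousLinearMap.adjoint_inner_right, inner_self_eq_norm_sq_to_K]
    push_cast; rfl
  have h2 : adj A (A (∑ i ∈ G, c i • e i)) =
      ∑ i ∈ G, (((s i ^ 2 : ℝ) : ℂ) * c i) • e i := by
    rw [map_sum, map_sum]
    apply Finset.sum_congr rfl
    intro i _
    rw [map_smul, map_smul, (h.2.1 i).2, smul_smul, mul_comm]
  rw [h2, h.1.inner_sum] at h1
  have h3 : ((‖A (∑ i ∈ G, c i • e i)‖ ^ 2 : ℝ) : ℂ) =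
      ((∑ i ∈ G, s i ^ 2 * ‖c i‖ ^ 2 : ℝ) : ℂ) := by
    rw [h1]
    push_cast
    apply Finset.sum_congr rfl
    intro i _
    rw [← Complex.conj_mul' (c i)]
    ring
  exact_mod_cast h3

lemma upper (h : IsSystem A e s) {F : Finset ι} {x : H} (hx : ∀ i ∈ F, ⟪e i, x⟫_ℂ = 0) {t : ℝ}
    (ht : 0 ≤ t) (hs : ∀ i, i ∉ F → s i ≤ t) : ‖A x‖ ≤ t * ‖x‖ := by
  classical
  have hsum : Summable (fun i => ⟪e i, x⟫_ℂ • e i) := by
    have h1 := (h.1.orthogonalFamily).summable_iff_norm_sq_summable (fun i => ⟪e i, x⟫_ℂ)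
    simp only [LinearIsometry.toSpanSingleton_apply] at h1
    exact h1.2 (h.1.inner_products_summable (x := x))
  obtain ⟨y, hy⟩ := hsum
  have hperp : A (x - y) = 0 := by
    apply h.2.2
    intro j
    rw [inner_sub_right, sub_eq_zero]
    have h1 : HasSum (fun i => ⟪e j, ⟪e i, x⟫_ℂ • e i⟫_ℂ) ⟪e j, y⟫_ℂ :=
      hy.mapL (innerSL ℂ (e j))
    have h2 : HasSum (fun i => ⟪e j, ⟪e i, x⟫_ℂ • e i⟫_ℂ) ⟪e j, x⟫_ℂ := by
      have h3 : ∀ i, ⟪e j, ⟪e i, x⟫_ℂ • e i⟫_ℂ = if i = j then ⟪e j, x⟫_ℂ else 0 := by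
        intro i
        rw [inner_smul_right, (orthonormal_iff_ite.1 h.1) j i]
        by_cases hij : i = j
        · rw [if_pos hij, if_pos hij.symm, hij, mul_one]
        · rw [if_neg hij, if_neg (fun h' => hij h'.symm), mul_zero]
      simp only [h3]
      exact hasSum_ite_eq j _
    exact h2.unique h1
  have hAx : A x = A y := by
    rw [map_sub, sub_eq_zero] at hperp
    exact hperp
  rw [hAx]
  have hlim : Tendsto (fun G : Finset ι => ‖A (∑ i ∈ G, ⟪e i, x⟫_ℂ • e i)‖) atTop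
      (𝓝 ‖A y‖) := ((A.continuous.tendsto y).comp hy).norm
  apply le_of_tendsto' hlim
  intro G
  apply le_of_sq_le_sq _ (mul_nonneg ht (norm_nonneg _))
  rw [norm_sum_sq h]
  calc ∑ i ∈ G, s i ^ 2 * ‖⟪e i, x⟫_ℂ‖ ^ 2 ≤ ∑ i ∈ G, t ^ 2 * ‖⟪e i, x⟫_ℂ‖ ^ 2 := by
        apply Finset.sum_le_sum
        intro i _
        by_cases hi : i ∈ F
        · rw [hx i hi]; simp
        · apply mul_le_mul_of_nonneg_right _ (by positivity)
          exact pow_le_pow_left₀ (h.2.1 i).1 (hs i hi) 2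
    _ = t ^ 2 * ∑ i ∈ G, ‖⟪e i, x⟫_ℂ‖ ^ 2 := by rw [Finset.mul_sum]
    _ ≤ t ^ 2 * ‖x‖ ^ 2 := by
        apply mul_le_mul_of_nonneg_left _ (by positivity)
        exact h.1.sum_inner_products_le x
    _ = (t * ‖x‖) ^ 2 := by ring

/-- if `A` is bounded below by `a / n` on subspaces of dimension `n`, then the singular values
are not summable -/
theorem not_summable (h : IsSystem A e s) {a : ℝ} (ha : 0 < a)
    (hW : ∀ n : ℕ, ∃ W : (Fin n → ℂ) →ₗ[ℂ] H, Function.Injective W ∧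
      ∀ c, a * ‖W c‖ ≤ n * ‖A (W c)‖) : ¬ Summable s := by
  classical
  intro hsum
  -- for each `F` with fewer than `n` elements there is an index outside
  have key : ∀ (n : ℕ) (F : Finset ι), F.card < n → ∃ i, i ∉ F ∧ a / (2 * n) ≤ s i := by
    intro n F hF
    by_contra hcon
    push Not at hcon
    obtain ⟨W, hWinj, hW⟩ := hW n
    have hn : (0 : ℝ) < n := by exact_mod_cast (Nat.zero_le _).trans_lt hF
    -- a nonzero vector orthogonal to `e i`, `i ∈ F`
    let L : (Fin n → ℂ) →ₗ[ℂ] (F → ℂ) := LinearMap.pi fun i => (innerSL ℂ (e i)).toLinearMap ∘ₗ W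
    have hL : ¬ Function.Injective L := by
      intro hinj
      have := LinearMap.finrank_le_finrank_of_injective hinj
      simp at this
      omega
    obtain ⟨c, hc, hc0⟩ : ∃ c, L c = 0 ∧ c ≠ 0 := by
      by_contra hno
      push Not at hno
      exact hL ((injective_iff_map_eq_zero L).2 hno)
    have h1 : ∀ i ∈ F, ⟪e i, W c⟫_ℂ = 0 := by
      intro i hi
      exact congrFun hc ⟨i, hi⟩
    have h2 := upper h h1 (t := a / (2 * n)) (by positivity) (fun i hi => (hcon i hi).le)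
    have h3 := hW c
    have h4 : 0 < ‖W c‖ := by
      rw [norm_pos_iff]
      intro h0
      exact hc0 (hWinj (by rw [h0, map_zero]))
    have h5 : (n : ℝ) * ‖A (W c)‖ ≤ n * (a / (2 * n) * ‖W c‖) :=
      mul_le_mul_of_nonneg_left h2 hn.le
    have h6 : (n : ℝ) * (a / (2 * n) * ‖W c‖) = a * ‖W c‖ / 2 := by field_simp
    have h7 : 0 < a * ‖W c‖ := mul_pos ha h4
    linarith
  -- sets of large singular values
  have big : ∀ (n m : ℕ) (F : Finset ι), F.card + m ≤ n →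
      ∃ G : Finset ι, Disjoint F G ∧ G.card = m ∧ ∀ i ∈ G, a / (2 * n) ≤ s i := by
    intro n m
    induction m with
    | zero => intro F _; exact ⟨∅, by simp, rfl, by simp⟩
    | succ m ih =>
      intro F hF
      obtain ⟨G, hd, hc, hG⟩ := ih F (by omega)
      obtain ⟨i, hi, hi'⟩ := key n (F ∪ G) (by
        have := Finset.card_union_le F G
        omega)
      rw [Finset.mem_union, not_or] at hi
      refine ⟨insert i G, ?_, ?_, ?_⟩
      · rw [Finset.disjoint_insert_right]; exact ⟨hi.1, hd⟩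
      · rw [Finset.card_insert_of_notMem hi.2, hc]
      · intro j hj
        rcases Finset.mem_insert.1 hj with rfl | hj
        · exact hi'
        · exact hG j hj
  obtain ⟨F, hF⟩ := (summable_iff_vanishing_norm.1 hsum) (a / 4) (by positivity)
  obtain ⟨G, hd, hc, hG⟩ := big (2 * (F.card + 1)) (F.card + 1) F (by omega)
  have h1 := hF G hd.symm
  have h2 : a / 4 ≤ ∑ i ∈ G, s i := by
    calc a / 4 = G.card • (a / (2 * ((2 * (F.card + 1) : ℕ) : ℝ))) := by
          rw [hc, nsmul_eq_mul]; push_cast; field_simp; ring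
      _ ≤ ∑ i ∈ G, s i := Finset.card_nsmul_le_sum _ _ _ hG
  rw [Real.norm_of_nonneg (Finset.sum_nonneg fun i _ => (h.2.1 i).1)] at h1
  linarith

omit [CompleteSpace H] in
/-- approximation numbers -/
theorem approx {a : ℝ} {n : ℕ} (hW : ∃ W : (Fin (n + 1) → ℂ) →ₗ[ℂ] H, Function.Injective W ∧
      ∀ c, a * ‖W c‖ ≤ (n + 1 : ℕ) * ‖A (W c)‖) (F : H →L[ℂ] H)
    (hF : Module.Finite ℂ F.range) (hF' : Module.finrank ℂ F.range ≤ n) :
    a / (n + 1) ≤ ‖A - F‖ := by
  obtain ⟨W, hWinj, hW⟩ := hW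
  let L : (Fin (n + 1) → ℂ) →ₗ[ℂ] F.range := F.toLinearMap.rangeRestrict ∘ₗ W
  have hL : ¬ Function.Injective L := by
    intro hinj
    have := LinearMap.finrank_le_finrank_of_injective hinj
    simp at this
    omega
  obtain ⟨c, hc, hc0⟩ : ∃ c, L c = 0 ∧ c ≠ 0 := by
    by_contra hno
    push Not at hno
    exact hL ((injective_iff_map_eq_zero L).2 hno)
  have h1 : F (W c) = 0 := congrArg Subtype.val hc
  have h4 : 0 < ‖W c‖ := by
    rw [norm_pos_iff]
    intro h0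
    exact hc0 (hWinj (by rw [h0, map_zero]))
  have h2 : ‖A (W c)‖ ≤ ‖A - F‖ * ‖W c‖ := by
    have := (A - F).le_opNorm (W c)
    change ‖A (W c) - F (W c)‖ ≤ _ at this
    rwa [h1, sub_zero] at this
  have h3 := hW c
  push_cast at h3
  have hn : (0 : ℝ) < n + 1 := by positivity
  rw [div_le_iff₀ hn]
  have h5 : a * ‖W c‖ ≤ (‖A - F‖ * (n + 1)) * ‖W c‖ := by
    calc a * ‖W c‖ ≤ (n + 1) * ‖A (W c)‖ := h3
      _ ≤ (n + 1) * (‖A - F‖ * ‖W c‖) := mul_le_mul_of_nonneg_left h2 hn.le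
      _ = _ := by ring
  exact le_of_mul_le_mul_right h5 h4

/-- finite parts of an operator -/
def part (A : H →L[ℂ] H) {ι : Type*} (b : HilbertBasis ι ℂ H) (F : Finset ι) : H →L[ℂ] H :=
  ∑ i ∈ F, ContinuousLinearMap.toSpanSingleton ℂ (A (b i)) ∘L innerSL ℂ (b i)

omit [CompleteSpace H] in
lemma part_compact (b : HilbertBasis ι ℂ H) (F : Finset ι) : IsCompactOperator (part A b F) := by
  unfold part
  apply Finset.sum_induction (p := fun B : H →L[ℂ] H => IsCompactOperator B)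
  · intro B C hB hC
    exact hB.add hC
  · exact isCompactOperator_zero
  · intro i _
    have h1 : IsCompactOperator (innerSL ℂ (b i) : H →L[ℂ] ℂ) := by
      refine ⟨Metric.closedBall 0 ‖innerSL ℂ (b i)‖, isCompact_closedBall _ _, ?_⟩
      filter_upwards [Metric.ball_mem_nhds (0 : H) one_pos] with x hx
      rw [mem_ball_zero_iff] at hx
      change innerSL ℂ (b i) x ∈ Metric.closedBall (0 : ℂ) _
      rw [mem_closedBall_zero_iff]
      refine ((innerSL ℂ (b i)).le_opNorm x).trans ?_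
      exact mul_le_of_le_one_right (norm_nonneg _) hx.le
    exact h1.clm_comp (ContinuousLinearMap.toSpanSingleton ℂ (A (b i)))

omit [CompleteSpace H] in
lemma part_apply (b : HilbertBasis ι ℂ H) (F : Finset ι) (x : H) :
    part A b F x = ∑ i ∈ F, ⟪b i, x⟫_ℂ • A (b i) := by
  simp [part]

/-- Hilbert-Schmidt operators are compact -/
theorem compact_of_hs (b : HilbertBasis ι ℂ H) (hb : Summable fun i => ‖A (b i)‖ ^ 2) :
    IsCompactOperator A := by
  classical
  apply isCompactOperator_of_tendsto (l := atTop) (F := part A b) _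
    (Eventually.of_forall fun F => part_compact b F)
  rw [Metric.tendsto_atTop]
  intro ε hε
  obtain ⟨F0, hF0⟩ := (summable_iff_vanishing_norm.1 hb) ((ε / 2) ^ 2) (by positivity)
  refine ⟨F0, fun F hF => ?_⟩
  rw [dist_eq_norm, norm_sub_rev]
  refine lt_of_le_of_lt (ContinuousLinearMap.opNorm_le_bound _ (by positivity : 0 ≤ ε / 2) ?_)
    (half_lt_self hε)
  intro x
  change ‖A x - part A b F x‖ ≤ _
  have h1 : HasSum (fun i => ⟪b i, x⟫_ℂ • A (b i)) (A x) := by
    have := (b.hasSum_repr x).mapL A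
    simpa only [map_smul, b.repr_apply_apply] using this
  have h2 : Tendsto (fun G : Finset ι => ‖∑ i ∈ G, ⟪b i, x⟫_ℂ • A (b i) - part A b F x‖) atTop
      (𝓝 ‖A x - part A b F x‖) := (Tendsto.sub_const h1 _).norm
  apply le_of_tendsto h2
  filter_upwards [eventually_ge_atTop F] with G hG
  have h3 : ∑ i ∈ G, ⟪b i, x⟫_ℂ • A (b i) - part A b F x = ∑ i ∈ G \ F, ⟪b i, x⟫_ℂ • A (b i) := by
    rw [part_apply, ← Finset.sum_sdiff hG, add_sub_cancel_right]
  rw [h3]
  have h4 : (∑ i ∈ G \ F, ‖⟪b i, x⟫_ℂ‖ * ‖A (b i)‖) ^ 2 ≤ (ε / 2 * ‖x‖) ^ 2 := by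
    calc (∑ i ∈ G \ F, ‖⟪b i, x⟫_ℂ‖ * ‖A (b i)‖) ^ 2
        ≤ (∑ i ∈ G \ F, ‖⟪b i, x⟫_ℂ‖ ^ 2) * ∑ i ∈ G \ F, ‖A (b i)‖ ^ 2 :=
          Finset.sum_mul_sq_le_sq_mul_sq _ _ _
      _ ≤ ‖x‖ ^ 2 * (ε / 2) ^ 2 := by
          apply mul_le_mul
          · exact b.orthonormal.sum_inner_products_le x
          · have := hF0 (G \ F) (Finset.disjoint_of_subset_right hF Finset.sdiff_disjoint)
            rw [Real.norm_of_nonneg (Finset.sum_nonneg fun i _ => by positivity)] at this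
            exact this.le
          · exact Finset.sum_nonneg fun i _ => by positivity
          · positivity
      _ = _ := by ring
  calc ‖∑ i ∈ G \ F, ⟪b i, x⟫_ℂ • A (b i)‖ ≤ ∑ i ∈ G \ F, ‖⟪b i, x⟫_ℂ‖ * ‖A (b i)‖ := by
        refine (norm_sum_le _ _).trans (Finset.sum_le_sum fun i _ => ?_)
        rw [norm_smul]
    _ ≤ ε / 2 * ‖x‖ := le_of_sq_le_sq h4 (by positivity)

end

universe u

/-- compact operators have singular systems -/
theorem exists_system {H : Type u} [NormedAddCommGroup H] [InnerProductSpace ℂ H]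
    [CompleteSpace H] {A : H →L[ℂ] H} (hA : IsCompactOperator A) :
    ∃ (ι : Type u) (e : ι → H) (s : ι → ℝ), IsSystem A e s := by
  let B : H →L[ℂ] H := adj A ∘L A
  have hB : IsCompactOperator B := hA.clm_comp (adj A)
  have hinner : ∀ x y, ⟪x, B y⟫_ℂ = ⟪A x, A y⟫_ℂ := by
    intro x y
    exact ContinuousLinearMap.adjoint_inner_right A x (A y)
  have hsymm : (B : H →ₗ[ℂ] H).IsSymmetric := by
    intro x y
    change ⟪B x, y⟫_ℂ = ⟪x, B y⟫_ℂ
    rw [hinner, ← inner_conj_symm, hinner, inner_conj_symm]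
  have hbot := ContinuousLinearMap.orthogonalComplement_iSup_eigenspaces_eq_bot hB hsymm
  let K : ℂ → Submodule ℂ H := fun μ => Module.End.eigenspace (B : Module.End ℂ H) μ
  have hKc : ∀ μ, IsClosed (K μ : Set H) := by
    intro μ
    have : (K μ : Set H) = {x | B x = μ • x} := by
      ext x
      exact Module.End.mem_eigenspace_iff
    rw [this]
    exact isClosed_eq B.continuous (continuous_const_smul μ)
  have hKcomp : ∀ μ, CompleteSpace (K μ) := fun μ => (hKc μ).completeSpace_coe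
  choose w b hb using fun μ => exists_hilbertBasis (𝕜 := ℂ) (E := K μ)
  have horth := hsymm.orthogonalFamily_eigenspaces
  have hon : Orthonormal ℂ (fun a : Σ μ : ℂ, w μ => ((b a.1 a.2 : K a.1) : H)) :=
    horth.orthonormal_sigma_orthonormal (fun μ => (b μ).orthonormal)
  refine ⟨Σ μ : ℂ, w μ, fun a => ((b a.1 a.2 : K a.1) : H),
    fun a => ‖A ((b a.1 a.2 : K a.1) : H)‖, hon, fun a => ⟨norm_nonneg _, ?_⟩, ?_⟩
  · have h1 : B ((b a.1 a.2 : K a.1) : H) = a.1 • ((b a.1 a.2 : K a.1) : H) :=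
      Module.End.mem_eigenspace_iff.1 (b a.1 a.2).2
    have h2 := hinner ((b a.1 a.2 : K a.1) : H) ((b a.1 a.2 : K a.1) : H)
    rw [h1, inner_smul_right, inner_self_eq_norm_sq_to_K, inner_self_eq_norm_sq_to_K,
      hon.1 a] at h2
    have h3 : a.1 = ((‖A ((b a.1 a.2 : K a.1) : H)‖ ^ 2 : ℝ) : ℂ) := by
      push_cast
      simpa using h2
    rw [← h3]
    exact h1
  · intro x hx
    have h1 : x ∈ (⨆ μ, Module.End.eigenspace (B : Module.End ℂ H) μ)ᗮ := by
      rw [← Submodule.iInf_orthogonal, Submodule.mem_iInf]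
      intro μ
      rw [Submodule.mem_orthogonal]
      intro v hv
      have h2 := ((b μ).hasSum_repr (⟨v, hv⟩ : K μ)).mapL (K μ).subtypeL
      have h3 : HasSum (fun i : w μ => ⟪x, (((b μ).repr ⟨v, hv⟩ i • b μ i : K μ) : H)⟫_ℂ)
          ⟪x, v⟫_ℂ := h2.mapL (innerSL ℂ x)
      have h4 : (fun i : w μ => ⟪x, (((b μ).repr ⟨v, hv⟩ i • b μ i : K μ) : H)⟫_ℂ) =
          fun _ => 0 := by
        ext i
        rw [Submodule.coe_smul, inner_smul_right, ← inner_conj_symm, hx ⟨μ, i⟩, map_zero,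
          mul_zero]
      rw [h4] at h3
      rw [← inner_conj_symm, h3.unique hasSum_zero, map_zero]
    rw [hbot, Submodule.mem_bot] at h1
    rw [h1, map_zero]

end Q82.SingVal
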