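import Pool.Agent.Q82.Frac
import Pool.Agent.Q82.SingVal

/-! # The fractional part integral operator on `L²[0,1]` is compact and not trace class -/

namespace Q82.Frac

open MeasureTheory Set Filter Topology
open scoped ENNReal InnerProductSpace ComplexConjugate

noncomputable section

lemma norm_sq_eq (f : H) : ‖f‖ ^ 2 = ∫ y, ‖f y‖ ^ 2 ∂mu := by
  have h1 : ((‖f‖ ^ 2 : ℝ) : ℂ) = ((∫ y, ‖f y‖ ^ 2 ∂mu : ℝ) : ℂ) := by
    have h2 := inner_self_eq_norm_sq_to_K (𝕜 := ℂ) f
    rw [L2.inner_def] at h2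
    rw [← integral_complex_ofReal]
    push_cast
    refine Eq.trans h2.symm ?_
    apply integral_congr_ae
    refine Eventually.of_forall fun y => ?_
    exact inner_self_eq_norm_sq_to_K (𝕜 := ℂ) (f y)
  exact_mod_cast h1

lemma Ky_mem {y : ℝ} (hy : 0 < y) : MemLp (fun u => (K y u : ℂ)) 2 mu := by
  apply MemLp.of_bound (Complex.measurable_ofReal.comp (K_meas_right y)).aestronglyMeasurable 1
  rw [ae_restrict_iff' measurableSet_Ioc]
  exact Eventually.of_forall fun u hu => K_norm hy hu.1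

lemma Ky_norm {y : ℝ} (hy : 0 < y) : ‖(Ky_mem hy).toLp (fun u => (K y u : ℂ))‖ ≤ 1 := by
  have h1 := Lp.norm_le_of_ae_bound (f := (Ky_mem hy).toLp (fun u => (K y u : ℂ)))
    (zero_le_one (α := ℝ)) (by
      filter_upwards [(Ky_mem hy).coeFn_toLp, ae_restrict_mem measurableSet_Ioc] with u hu hu'
      rw [hu]
      exact K_norm hy hu'.1)
  have h2 : measureUnivNNReal mu = 1 := by
    rw [measureUnivNNReal, measure_univ]
    rfl
  rw [h2, NNReal.coe_one, Real.one_rpow, mul_one] at h1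
  exact h1

lemma T_inner (h : H) : ∀ᵐ y ∂mu, ∀ hy : 0 < y,
    T h y = ⟪(Ky_mem hy).toLp (fun u => (K y u : ℂ)), h⟫_ℂ := by
  filter_upwards [T_apply h] with y hy hy0
  rw [hy, L2.inner_def]
  apply integral_congr_ae
  filter_upwards [(Ky_mem hy0).coeFn_toLp] with u hu
  rw [hu]
  change _ = h u * conj (K y u : ℂ)
  rw [Complex.conj_ofReal, mul_comm]

theorem hs {ι : Type*} (b : HilbertBasis ι ℂ H) : Summable fun i => ‖T (b i)‖ ^ 2 := by
  apply summable_of_sum_le (c := 1) (fun i => by positivity)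
  intro F
  have hint : ∀ i, Integrable (fun y => ‖T (b i) y‖ ^ 2) mu := fun i =>
    (Lp.memLp (T (b i))).integrable_norm_pow (by norm_num)
  simp only [norm_sq_eq]
  rw [← integral_finsetSum _ (fun i _ => hint i)]
  have h1 : ∫ y, ∑ i ∈ F, ‖T (b i) y‖ ^ 2 ∂mu ≤ ∫ y, (1 : ℝ) ∂mu := by
    apply integral_mono_ae
    · exact integrable_finsetSum _ (fun i _ => hint i)
    · exact integrable_const _
    · have h2 : ∀ᵐ y ∂mu, ∀ i ∈ F, ∀ hy : 0 < y,
          T (b i) y = ⟪(Ky_mem hy).toLp (fun u => (K y u : ℂ)), b i⟫_ℂ := by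
        rw [Filter.eventually_all_finset]
        intro i _
        exact T_inner (b i)
      filter_upwards [h2, ae_restrict_mem measurableSet_Ioc] with y hy hy0
      calc ∑ i ∈ F, ‖T (b i) y‖ ^ 2
          = ∑ i ∈ F, ‖⟪b i, (Ky_mem hy0.1).toLp (fun u => (K y u : ℂ))⟫_ℂ‖ ^ 2 := by
            apply Finset.sum_congr rfl
            intro i hi
            rw [hy i hi hy0.1, norm_inner_symm]
        _ ≤ ‖(Ky_mem hy0.1).toLp (fun u => (K y u : ℂ))‖ ^ 2 :=
            b.orthonormal.sum_inner_products_le _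
        _ ≤ 1 := pow_le_one₀ (norm_nonneg _) (Ky_norm hy0.1)
  simpa using h1

theorem T_compact : IsCompactOperator T := by
  obtain ⟨w, b, -⟩ := exists_hilbertBasis ℂ H
  exact SingVal.compact_of_hs b (hs b)

lemma W_inj (n : ℕ) : Function.Injective (W n) := by
  rw [injective_iff_map_eq_zero]
  intro c hc
  have h1 := (lower n c).2
  rw [hc, map_zero, norm_zero, mul_zero] at h1
  exact norm_le_zero_iff.1 h1

lemma W_lower (n : ℕ) (c : Fin n → ℂ) : 1 / (8 * Real.pi) * ‖W n c‖ ≤ n * ‖T (W n c)‖ := by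
  have h1 := (lower n c).1
  have hpi := Real.pi_pos
  rw [one_div, inv_mul_le_iff₀ (by positivity)]
  calc ‖W n c‖ ≤ 8 * Real.pi * n * ‖T (W n c)‖ := h1
    _ = _ := by ring

theorem not_trace {ι : Type*} {e : ι → H} {s : ι → ℝ} (h : SingVal.IsSystem T e s) :
    ¬ Summable s :=
  SingVal.not_summable h (a := 1 / (8 * Real.pi)) (by have := Real.pi_pos; positivity)
    (fun n => ⟨W n, W_inj n, W_lower n⟩)

theorem approx_lower (n : ℕ) (F : H →L[ℂ] H) (hF : Module.Finite ℂ F.range)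
    (hF' : Module.finrank ℂ F.range ≤ n) : 1 / (8 * Real.pi) / (n + 1) ≤ ‖T - F‖ :=
  SingVal.approx ⟨W (n + 1), W_inj (n + 1), W_lower (n + 1)⟩ F hF hF'

end

end Q82.Frac
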