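import Pool.Agent.Q82.HKId

/-!
The trace bound: the sum of the squares of the eigenvectors' sums, and summability of
`ρ_j σ_j / (ρ_j - σ_j)`; positivity from finite forms.
-/

set_option autoImplicit false
open Filter Topology InnerProductSpace
open scoped RealInnerProductSpace ENNReal

namespace Pool.Agent.Q82.HK

/-- truncated constant sequence -/
noncomputable def one (L : ℕ) : E := ∑ n ∈ Finset.range L, dl n

lemma one_apply (L n : ℕ) : one L n = if n < L then (1 : ℝ) else 0 := by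
  rw [← inner_dl, one, inner_sum]
  simp_rw [inner_dl, dl_apply]
  simp

lemma inner_one (L : ℕ) (x : E) : ⟪x, one L⟫ = ∑ n ∈ Finset.range L, x n := by
  rw [one, inner_sum]
  exact Finset.sum_congr rfl fun n _ => by rw [real_inner_comm, inner_dl]

section
variable {a : ℕ → ℝ} (Q : Sq a)
variable {ρ σ : ℕ → ℝ} {e f : ℕ → E} (EH : Eig (Op (kH a)) ρ e) (EK : Eig (Op (kK a)) σ f)
  (hσ : ∀ j, 0 < σ j) (h1 : ∀ j, σ j < ρ j) (h2 : ∀ j, ρ (j + 1) < σ j)

include Q in
lemma Sq.K_one (L : ℕ) : ⟪Op (kK a) (one L), one L⟫ ≤ ∑' q, kK a q := by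
  rw [real_inner_comm]
  refine hasSum_le (fun q => ?_) (Op_inner Q.sumK (one L) (one L)) Q.sumK.hasSum
  refine mul_le_of_le_one_right (Q.nn _) ?_
  rw [one_apply, one_apply]
  split_ifs <;> norm_num

include EK hσ in
lemma Sq.sum_b (M : ℕ) :
    ∑ j ∈ Finset.range M, σ j * (⟪Q.w, f j⟫ / σ j) ^ 2 ≤ ∑' q, kK a q := by
  have t1 : Tendsto (fun L => ∑ j ∈ Finset.range M, σ j * ⟪f j, one L⟫ ^ 2) atTop
      (𝓝 (∑ j ∈ Finset.range M, σ j * (⟪Q.w, f j⟫ / σ j) ^ 2)) := by
    refine tendsto_finsetSum _ fun j _ => ?_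
    refine Tendsto.const_mul _ (Tendsto.pow ?_ 2)
    have h3 := (Q.sum_f EK j (hσ j)).tendsto_sum_nat
    refine h3.congr fun L => ?_
    rw [inner_one]
  refine le_of_tendsto t1 (Eventually.of_forall fun L => ?_)
  exact (EK.bessel (fun j => (hσ j).le) (one L) M).trans (Q.K_one L)

include Q EH EK hσ h1 h2 in
theorem Sq.summable_D : Summable (fun j => ρ j * σ j / (ρ j - σ j)) := by
  have N := Q.num EH EK hσ h1 h2
  refine summable_of_sum_range_le (c := ∑' q, kK a q) (fun j => ?_) (fun M => ?_)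
  · exact div_nonneg (mul_pos (N.ρpos j) (hσ j)).le (sub_pos.2 (h1 j)).le
  · refine (Finset.sum_le_sum fun j _ => ?_).trans (Q.sum_b EK hσ M)
    have h3 := N.bound j
    have h4 : 0 < ρ j - σ j := sub_pos.2 (h1 j)
    have h5 : ρ j / (ρ j - σ j) ≤ (⟪Q.w, f j⟫ / σ j) ^ 2 := by
      refine le_trans ?_ h3
      exact div_le_div_of_nonneg_right (by linarith [hσ j]) h4.le
    have h6 := mul_le_mul_of_nonneg_left h5 (hσ j).le
    calc ρ j * σ j / (ρ j - σ j) = σ j * (ρ j / (ρ j - σ j)) := by ring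
      _ ≤ _ := h6

end

/-- positivity of an operator from positivity of the finite forms -/
lemma form_nonneg {κ : ℕ × ℕ → ℝ} (hκ : Summable κ)
    (hf : ∀ (L : ℕ) (x : ℕ → ℝ), 0 ≤ ∑ n ∈ Finset.range L, ∑ p ∈ Finset.range L,
      κ (n, p) * (x n * x p)) (x : E) : 0 ≤ ⟪Op κ x, x⟫ := by
  rw [real_inner_comm]
  have h1 : Tendsto (fun L => ∑ q ∈ Finset.range L ×ˢ Finset.range L, κ q * (x q.1 * x q.2)) atTop
      (𝓝 ⟪x, Op κ x⟫) := by
    refine (Op_inner hκ x x).comp ?_
    refine tendsto_atTop_finset_of_monotone ?_ fun q => ?_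
    · intro L L' h
      exact Finset.product_subset_product (Finset.range_mono h) (Finset.range_mono h)
    · refine ⟨max q.1 q.2 + 1, ?_⟩
      rw [Finset.mem_product, Finset.mem_range, Finset.mem_range]
      exact ⟨by omega, by omega⟩
  refine ge_of_tendsto h1 (Eventually.of_forall fun L => ?_)
  rw [Finset.sum_product]
  exact hf L x

end Pool.Agent.Q82.HK
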