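import Pool.Agent.Q82.HKDefs

/-!
A `C¹` function on the circle with nonnegative Fourier coefficients on the nonnegative frequencies
and none on the negative ones has a summable first moment.
-/

set_option autoImplicit false
open Filter Topology MeasureTheory intervalIntegral

namespace Pool.Agent.Q82.HK

/-- exponential with integer frequency -/
noncomputable def ex (m : ℤ) (x : ℝ) : ℂ := Complex.exp (Complex.I * (m : ℂ) * (x : ℂ))

lemma ex_cont (m : ℤ) : Continuous (ex m) := by
  unfold ex
  fun_prop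

lemma ex_mul (m n : ℤ) (x : ℝ) : ex m x * ex n x = ex (m + n) x := by
  unfold ex
  rw [← Complex.exp_add]
  congr 1
  push_cast
  ring

lemma norm_ex (m : ℤ) (x : ℝ) : ‖ex m x‖ = 1 := by
  unfold ex
  have : Complex.I * (m : ℂ) * (x : ℂ) = ((m * x : ℝ) : ℂ) * Complex.I := by push_cast; ring
  rw [this, Complex.norm_exp_ofReal_mul_I]

lemma conj_ex (m : ℤ) (x : ℝ) : (starRingEnd ℂ) (ex m x) = ex (-m) x := by
  unfold ex
  rw [← Complex.exp_conj]
  congr 1
  simp

lemma ex_deriv (m : ℤ) (x : ℝ) : HasDerivAt (ex m) (Complex.I * m * ex m x) x := by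
  unfold ex
  have h1 : HasDerivAt (fun y : ℝ => Complex.I * (m : ℂ) * (y : ℂ)) (Complex.I * (m : ℂ)) x := by
    simpa using (Complex.ofRealCLM.hasDerivAt (x := x)).const_mul (Complex.I * (m : ℂ))
  have := h1.cexp
  simpa [mul_comm] using this

lemma ex_zero (m : ℤ) : ex m 0 = 1 := by simp [ex]

lemma ex_two_pi (m : ℤ) : ex m (2 * Real.pi) = 1 := by
  unfold ex
  have : Complex.I * (m : ℂ) * ((2 * Real.pi : ℝ) : ℂ) = m * (2 * Real.pi * Complex.I) := by
    push_cast; ring
  rw [this, Complex.exp_int_mul_two_pi_mul_I]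

lemma int_ex (m : ℤ) : ∫ x in (0 : ℝ)..(2 * Real.pi), ex m x =
    if m = 0 then 2 * (Real.pi : ℂ) else 0 := by
  split_ifs with h
  · subst h
    simp [ex]
  · have h0 : Complex.I * (m : ℂ) ≠ 0 := mul_ne_zero Complex.I_ne_zero (by exact_mod_cast h)
    have h1 : ∀ x ∈ Set.uIcc (0 : ℝ) (2 * Real.pi),
        HasDerivAt (fun y => (Complex.I * (m : ℂ))⁻¹ * ex m y) (ex m x) x := by
      intro x _
      have := (ex_deriv m x).const_mul ((Complex.I * (m : ℂ))⁻¹)
      rwa [inv_mul_cancel_left₀ h0] at this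
    rw [integral_eq_sub_of_hasDerivAt h1 ((ex_cont m).intervalIntegrable _ _), ex_two_pi, ex_zero,
      sub_self]

/-- Fourier coefficients of the derivative -/
lemma deriv_coef {f : ℝ → ℂ} (hf : ContDiff ℝ 1 f) (hp : Function.Periodic f (2 * Real.pi))
    (m : ℤ) : ∫ x in (0 : ℝ)..(2 * Real.pi), deriv f x * ex m x =
      -(Complex.I * m) * ∫ x in (0 : ℝ)..(2 * Real.pi), f x * ex m x := by
  have hd : ∀ x, HasDerivAt f (deriv f x) x := fun x =>
    (hf.differentiable (by norm_num) x).hasDerivAt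
  have hc : Continuous (deriv f) := hf.continuous_deriv (by norm_num)
  have h1 := integral_deriv_mul_eq_sub (u := f) (v := ex m) (u' := deriv f)
    (v' := fun x => Complex.I * m * ex m x) (a := 0) (b := 2 * Real.pi)
    (fun x _ => hd x) (fun x _ => ex_deriv m x) (hc.intervalIntegrable _ _)
    ((continuous_const.mul (ex_cont m)).intervalIntegrable _ _)
  have h2 : f (2 * Real.pi) = f 0 := by simpa using hp 0
  have c1 : Continuous (fun x => deriv f x * ex m x) := hc.mul (ex_cont m)
  have c2 : Continuous (fun x => f x * (Complex.I * m * ex m x)) :=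
    hf.continuous.mul (continuous_const.mul (ex_cont m))
  rw [h2, ex_two_pi, ex_zero, sub_self, integral_add (c1.intervalIntegrable _ _)
    (c2.intervalIntegrable _ _)] at h1
  have h3 : ∫ x in (0 : ℝ)..(2 * Real.pi), f x * (Complex.I * m * ex m x) =
      (Complex.I * m) * ∫ x in (0 : ℝ)..(2 * Real.pi), f x * ex m x := by
    rw [← intervalIntegral.integral_const_mul]
    exact integral_congr fun x _ => by ring
  rw [h3] at h1
  linear_combination h1

/-- the Dirichlet sum -/
noncomputable def Ds (L : ℕ) (x : ℝ) : ℂ := ∑ k ∈ Finset.range L, ex k x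

lemma Ds_cont (L : ℕ) : Continuous (Ds L) :=
  continuous_finsetSum _ fun k _ => ex_cont k

lemma Ds_sq (L : ℕ) (x : ℝ) : Ds L x * (starRingEnd ℂ) (Ds L x) =
    ∑ j ∈ Finset.range L, ∑ k ∈ Finset.range L, ex ((k : ℤ) - j) x := by
  unfold Ds
  rw [map_sum, Finset.sum_mul_sum, Finset.sum_comm]
  refine Finset.sum_congr rfl fun j _ => Finset.sum_congr rfl fun k _ => ?_
  rw [conj_ex, ex_mul, sub_eq_add_neg]

lemma int_Ds (L : ℕ) : ∫ x in (0 : ℝ)..(2 * Real.pi), ‖Ds L x‖ ^ 2 = 2 * Real.pi * L := by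
  have h1 : ((∫ x in (0 : ℝ)..(2 * Real.pi), ‖Ds L x‖ ^ 2 : ℝ) : ℂ) = (2 * Real.pi * L : ℝ) := by
    rw [← intervalIntegral.integral_ofReal]
    have h2 : ∀ x, ((‖Ds L x‖ ^ 2 : ℝ) : ℂ) =
        ∑ j ∈ Finset.range L, ∑ k ∈ Finset.range L, ex ((k : ℤ) - j) x := by
      intro x
      rw [← Ds_sq, Complex.mul_conj, Complex.normSq_eq_norm_sq]
    simp_rw [h2]
    rw [integral_finsetSum fun j _ => (continuous_finsetSum _ fun k _ =>
      ex_cont _).intervalIntegrable _ _]
    have h3 : ∀ j ∈ Finset.range L, ∫ x in (0 : ℝ)..(2 * Real.pi),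
        ∑ k ∈ Finset.range L, ex ((k : ℤ) - j) x = 2 * Real.pi := by
      intro j hj
      rw [integral_finsetSum fun k _ => (ex_cont _).intervalIntegrable _ _]
      simp_rw [int_ex, sub_eq_zero, Nat.cast_inj]
      rw [Finset.sum_ite_eq' (Finset.range L) j, if_pos hj]
    rw [Finset.sum_congr rfl h3]
    simp
    ring
  exact_mod_cast h1

theorem moment {a : ℕ → ℝ} (ha : ∀ n, 0 ≤ a n) (h : IsC1 fun n => (a n : ℂ)) :
    Summable fun n : ℕ => (n : ℝ) * a n := by
  obtain ⟨f, hf, hp, h1, h2⟩ := h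
  have hc : Continuous (deriv f) := hf.continuous_deriv (by norm_num)
  obtain ⟨C, hC⟩ := isCompact_Icc.exists_bound_of_continuousOn (s := Set.Icc (0 : ℝ) (2 * Real.pi))
    hc.continuousOn
  have hC0 : 0 ≤ C := (norm_nonneg _).trans (hC 0 ⟨le_rfl, by positivity⟩)
  have hpi : (0 : ℝ) < 2 * Real.pi := by positivity
  -- coefficients of the derivative
  set G : ℕ → ℕ → ℝ := fun j k => if k ≤ j then ((j - k : ℕ) : ℝ) * a (j - k) else 0 with hG
  have co : ∀ j k : ℕ, ∫ x in (0 : ℝ)..(2 * Real.pi), deriv f x * ex ((k : ℤ) - j) x =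
      Complex.I * (2 * Real.pi) * (G j k : ℂ) := by
    intro j k
    rw [deriv_coef hf hp]
    by_cases hkj : k ≤ j
    · have e : ((k : ℤ) - j) = -((j - k : ℕ) : ℤ) := by push_cast [Nat.cast_sub hkj]; ring
      have h3 := h1 (j - k)
      have h4 : ∫ x in (0 : ℝ)..(2 * Real.pi), f x * ex (-((j - k : ℕ) : ℤ)) x =
          2 * Real.pi * (a (j - k) : ℂ) := by
        change _ = 2 * Real.pi * ((fun n => (a n : ℂ)) (j - k))
        rw [← h3]
        have e2 : ∀ x : ℝ, ex (-((j - k : ℕ) : ℤ)) x =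
            Complex.exp (-(Complex.I * ((j - k : ℕ) : ℂ) * (x : ℂ))) := by
          intro x
          unfold ex
          congr 1
          push_cast
          ring
        simp_rw [e2]
        have : (Real.pi : ℂ) ≠ 0 := by exact_mod_cast Real.pi_ne_zero
        field_simp
      rw [e, h4]
      simp only [hG, if_pos hkj]
      push_cast
      ring
    · have hjk : 0 < k - j := by omega
      have e : ((k : ℤ) - j) = ((k - j : ℕ) : ℤ) := by omega
      have h3 := h2 (k - j) hjk
      have h4 : ∫ x in (0 : ℝ)..(2 * Real.pi), f x * ex ((k - j : ℕ) : ℤ) x = 0 := by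
        rw [← h3]
        exact integral_congr fun x _ => by
          simp only [ex]
          push_cast
          rfl
      rw [e, h4]
      simp only [hG, if_neg hkj]
      simp
  have key : ∀ L : ℕ, ∑ j ∈ Finset.range L, ∑ k ∈ Finset.range L, G j k ≤ C * L := by
    intro L
    have e1 : ∫ x in (0 : ℝ)..(2 * Real.pi), deriv f x * (Ds L x * (starRingEnd ℂ) (Ds L x)) =
        Complex.I * (2 * Real.pi) * ((∑ j ∈ Finset.range L, ∑ k ∈ Finset.range L, G j k : ℝ) : ℂ) := by
      simp_rw [Ds_sq, Finset.mul_sum]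
      have c1 : ∀ j k : ℕ, Continuous (fun x => deriv f x * ex ((k : ℤ) - j) x) := fun j k =>
        hc.mul (ex_cont _)
      have c2 : ∀ j : ℕ, Continuous (fun x => ∑ k ∈ Finset.range L,
          deriv f x * ex ((k : ℤ) - j) x) := fun j => continuous_finsetSum _ fun k _ => c1 j k
      rw [integral_finsetSum fun j _ => (c2 j).intervalIntegrable _ _]
      push_cast
      rw [Finset.mul_sum]
      refine Finset.sum_congr rfl fun j _ => ?_
      rw [integral_finsetSum fun k _ => (c1 j k).intervalIntegrable _ _, Finset.mul_sum]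
      exact Finset.sum_congr rfl fun k _ => co j k
    have e2 : ‖∫ x in (0 : ℝ)..(2 * Real.pi), deriv f x * (Ds L x * (starRingEnd ℂ) (Ds L x))‖ ≤
        ∫ x in (0 : ℝ)..(2 * Real.pi), C * ‖Ds L x‖ ^ 2 := by
      refine norm_integral_le_of_norm_le hpi.le ?_
        ((continuous_const.mul ((Ds_cont L).norm.pow 2)).intervalIntegrable _ _)
      refine Eventually.of_forall fun x hx => ?_
      rw [norm_mul, norm_mul, RCLike.norm_conj, ← pow_two]
      exact mul_le_mul_of_nonneg_right (hC x ⟨hx.1.le, hx.2⟩) (by positivity)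
    rw [e1, intervalIntegral.integral_const_mul, int_Ds, norm_mul, norm_mul, Complex.norm_I,
      one_mul, Complex.norm_real] at e2
    have e3 : ‖(2 * Real.pi : ℂ)‖ = 2 * Real.pi := by
      rw [norm_mul, Complex.norm_real, Real.norm_of_nonneg Real.pi_pos.le]; norm_num
    rw [e3] at e2
    have e4 := (le_abs_self (∑ j ∈ Finset.range L, ∑ k ∈ Finset.range L, G j k))
    rw [Real.norm_eq_abs] at e2
    have e5 : 2 * Real.pi * |∑ j ∈ Finset.range L, ∑ k ∈ Finset.range L, G j k| ≤
        2 * Real.pi * (C * L) := by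
      calc _ ≤ C * (2 * Real.pi * L) := e2
        _ = _ := by ring
    exact e4.trans (le_of_mul_le_mul_left e5 hpi)
  refine summable_of_sum_range_le (c := 2 * C) (fun n => mul_nonneg (Nat.cast_nonneg n) (ha n))
    fun M => ?_
  rcases Nat.eq_zero_or_pos M with hM | hM
  · subst hM; simp; exact hC0
  have G0 : ∀ j k, 0 ≤ G j k := by
    intro j k
    simp only [hG]
    split_ifs
    · exact mul_nonneg (Nat.cast_nonneg _) (ha _)
    · exact le_rfl
  have low : (M : ℝ) * ∑ m ∈ Finset.range M, (m : ℝ) * a m ≤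
      ∑ j ∈ Finset.range (2 * M), ∑ k ∈ Finset.range (2 * M), G j k := by
    rw [Finset.sum_comm]
    calc (M : ℝ) * ∑ m ∈ Finset.range M, (m : ℝ) * a m
        = ∑ _k ∈ Finset.range M, ∑ m ∈ Finset.range M, (m : ℝ) * a m := by simp
      _ ≤ ∑ k ∈ Finset.range M, ∑ j ∈ Finset.range (2 * M), G j k := by
          refine Finset.sum_le_sum fun k hk => ?_
          rw [Finset.mem_range] at hk
          have e1 : ∑ m ∈ Finset.range M, (m : ℝ) * a m = ∑ j ∈ Finset.Ico k (k + M), G j k := by
            rw [Finset.sum_Ico_eq_sum_range, Nat.add_sub_cancel_left]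
            refine Finset.sum_congr rfl fun m _ => ?_
            simp only [hG]
            rw [if_pos (Nat.le_add_right k m), Nat.add_sub_cancel_left]
          rw [e1]
          refine Finset.sum_le_sum_of_subset_of_nonneg (fun j hj => ?_) fun j _ _ => G0 j k
          rw [Finset.mem_Ico] at hj
          rw [Finset.mem_range]
          omega
      _ ≤ ∑ k ∈ Finset.range (2 * M), ∑ j ∈ Finset.range (2 * M), G j k := by
          refine Finset.sum_le_sum_of_subset_of_nonneg (Finset.range_mono (by omega))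
            fun k _ _ => Finset.sum_nonneg fun j _ => G0 j k
  have h3 := low.trans (key (2 * M))
  have hM' : (0 : ℝ) < M := by exact_mod_cast hM
  have h4 : (M : ℝ) * ∑ m ∈ Finset.range M, (m : ℝ) * a m ≤ M * (2 * C) := by
    push_cast at h3
    linarith
  exact le_of_mul_le_mul_left h4 hM'

end Pool.Agent.Q82.HK
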