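import Mathlib

/-!
Definitions for the problem on Hankel tori (cubic Szegő equation). Elements of `L²_+` are given by
their Fourier (Taylor) coefficients.
-/

set_option autoImplicit false
open Filter Topology Matrix

namespace Pool.Agent.Q82.HK

/-- square-summable sequences: the Fourier coefficients of the elements of `L²_+(𝕋)` -/
def SqS (h : ℕ → ℂ) : Prop := Summable fun n => ‖h n‖ ^ 2

/-- Fourier coefficients of `H_u h = Π(u h̄)` -/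
noncomputable def Hu (u h : ℕ → ℂ) (n : ℕ) : ℂ := ∑' p, u (n + p) * (starRingEnd ℂ) (h p)

/-- Fourier coefficients of `(S h)(x) = e^{ix} h(x)` -/
def Sh (h : ℕ → ℂ) : ℕ → ℂ
  | 0 => 0
  | n + 1 => h n

/-- `K_u = H_u S` -/
noncomputable def Ku (u h : ℕ → ℂ) : ℕ → ℂ := Hu u (Sh h)

/-- The nonzero eigenvalues of the square `A²` of `A` on `L²_+` are exactly the numbers `t_j²`, and
the corresponding eigenspaces are one-dimensional. -/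
structure SimpleSpec (A : (ℕ → ℂ) → ℕ → ℂ) (t : ℕ → ℝ) : Prop where
  mem : ∀ j, ∃ h, h ≠ 0 ∧ SqS h ∧ A (A h) = fun n => ((t j ^ 2 : ℝ) : ℂ) * h n
  only : ∀ (μ : ℂ) (h : ℕ → ℂ), μ ≠ 0 → h ≠ 0 → SqS h → (A (A h) = fun n => μ * h n) →
    ∃ j, μ = ((t j ^ 2 : ℝ) : ℂ)
  simple : ∀ (j : ℕ) (h h' : ℕ → ℂ), h ≠ 0 → SqS h → SqS h' →
    (A (A h) = fun n => ((t j ^ 2 : ℝ) : ℂ) * h n) →
    (A (A h') = fun n => ((t j ^ 2 : ℝ) : ℂ) * h' n) → ∃ c : ℂ, h' = fun n => c * h n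

/-- `u ∈ 𝒯((s_r))`: `u ∈ H^{1/2}_+`, and the square roots of the nonzero eigenvalues of `H_u²` and
of `K_u²`, interleaved, form the (strictly decreasing) sequence `s`. The sequence is indexed from
`0`: `s (2j) = ρ_{j+1}`, `s (2j+1) = σ_{j+1}`. -/
structure InTorus (s : ℕ → ℝ) (u : ℕ → ℂ) : Prop where
  half : Summable fun n : ℕ => ((n : ℝ) + 1) * ‖u n‖ ^ 2
  specH : SimpleSpec (Hu u) fun j => s (2 * j)
  specK : SimpleSpec (Ku u) fun j => s (2 * j + 1)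

/-- the matrix `𝒞_N(z)` -/
noncomputable def CN (s ψ : ℕ → ℝ) (N : ℕ) (z : ℂ) : Matrix (Fin N) (Fin N) ℂ :=
  Matrix.of fun j k =>
    ((s (2 * j) : ℂ) * Complex.exp (Complex.I * (ψ (2 * j) : ℂ)) -
        z * ((s (2 * k + 1) : ℂ) * Complex.exp (Complex.I * (ψ (2 * k + 1) : ℂ)))) /
      ((s (2 * j) : ℂ) ^ 2 - (s (2 * k + 1) : ℂ) ^ 2)

/-- `u` is the point with angles `ψ`: `u(z) = lim_N ⟨𝒞_N(z)⁻¹ 1_N, 1_N⟩` for `|z| < 1` -/
def HasAngles (s ψ : ℕ → ℝ) (u : ℕ → ℂ) : Prop :=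
  ∀ z : ℂ, ‖z‖ < 1 → Tendsto (fun N : ℕ => (fun _ => (1 : ℂ)) ⬝ᵥ ((CN s ψ N z)⁻¹ *ᵥ fun _ => 1))
    atTop (𝓝 (∑' n, u n * z ^ n))

/-- the function with Fourier coefficients `u` (nonnegative frequencies) is of class `C¹` on the
circle -/
def IsC1 (u : ℕ → ℂ) : Prop :=
  ∃ f : ℝ → ℂ, ContDiff ℝ 1 f ∧ Function.Periodic f (2 * Real.pi) ∧
    (∀ n : ℕ, (1 / (2 * Real.pi) : ℂ) *
      ∫ x in (0 : ℝ)..(2 * Real.pi), f x * Complex.exp (-(Complex.I * (n : ℂ) * (x : ℂ))) = u n) ∧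
    (∀ n : ℕ, 0 < n → ∫ x in (0 : ℝ)..(2 * Real.pi),
      f x * Complex.exp (Complex.I * (n : ℂ) * (x : ℂ)) = 0)

end Pool.Agent.Q82.HK
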