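import Mathlib

/-!
The finite Cauchy-like matrices with zero angles: the function `⟨C_N(z)⁻¹ 1, 1⟩` is a power series
whose coefficients give positive Hankel forms.
-/

set_option autoImplicit false
open Filter Topology Matrix

namespace Pool.Agent.Q82.HK

lemma hcongrC {f g : ℕ → ℂ} {a : ℂ} (h : HasSum f a) (e : ∀ i, g i = f i) : HasSum g a := by
  have : g = f := funext e
  rw [this]
  exact h

/-- interlacing finite families -/
structure Fi {N : ℕ} (ρ σ : Fin N → ℝ) : Prop where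
  hσ : ∀ k, 0 < σ k
  h1 : ∀ j k, j ≤ k → σ k < ρ j
  h2 : ∀ j k, j < k → ρ k < σ j

section
variable {N : ℕ} {ρ σ : Fin N → ℝ} (F : Fi ρ σ)
include F

lemma Fi.hρ (j : Fin N) : 0 < ρ j := (F.hσ j).trans (F.h1 j j le_rfl)

lemma Fi.σlt {j k : Fin N} (h : j < k) : σ k < σ j := (F.h1 k k le_rfl).trans (F.h2 j k h)

lemma Fi.ρlt {j k : Fin N} (h : j < k) : ρ k < ρ j := (F.h2 j k h).trans (F.h1 j j le_rfl)

lemma Fi.ne (j k : Fin N) : ρ j ^ 2 ≠ σ k ^ 2 := by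
  intro h
  have h' := (pow_left_inj₀ (F.hρ j).le (F.hσ k).le two_ne_zero).1 h
  rcases le_or_gt j k with h3 | h3
  · exact (F.h1 j k h3).ne' h'
  · exact (F.h2 k j h3).ne h'

lemma Fi.ρinj {j k : Fin N} (h : ρ j ^ 2 = ρ k ^ 2) : j = k := by
  have h' := (pow_left_inj₀ (F.hρ j).le (F.hρ k).le two_ne_zero).1 h
  rcases lt_trichotomy j k with h3 | h3 | h3
  · exact absurd h' (F.ρlt h3).ne'
  · exact h3
  · exact absurd h' (F.ρlt h3).ne

lemma Fi.σinj {j k : Fin N} (h : σ j ^ 2 = σ k ^ 2) : j = k := by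
  have h' := (pow_left_inj₀ (F.hσ j).le (F.hσ k).le two_ne_zero).1 h
  rcases lt_trichotomy j k with h3 | h3 | h3
  · exact absurd h' (F.σlt h3).ne'
  · exact h3
  · exact absurd h' (F.σlt h3).ne

lemma Fi.ratio_pos {k i : Fin N} (h : i ≠ k) :
    0 < (σ k ^ 2 - ρ i ^ 2) / (σ k ^ 2 - σ i ^ 2) := by
  rcases lt_or_gt_of_ne h with h3 | h3
  · apply div_pos_of_neg_of_neg
    · nlinarith [F.h1 i k h3.le, F.hσ k, F.hρ i]
    · nlinarith [F.σlt h3, F.hσ k, F.hσ i]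
  · apply div_pos
    · nlinarith [F.h2 k i h3, F.hσ k, F.hρ i]
    · nlinarith [F.σlt h3, F.hσ k, F.hσ i]

lemma Fi.exists_beta :
    ∃ β : Fin N → ℝ, (∀ k, 0 < β k) ∧ ∀ j, ∑ k, β k ^ 2 / (ρ j ^ 2 - σ k ^ 2) = 1 := by
  classical
  set r : Fin N → ℝ := fun j => ρ j ^ 2 with hr
  set τ : Fin N → ℝ := fun k => σ k ^ 2 with hτ
  set P : Polynomial ℝ := Lagrange.nodal Finset.univ τ - Lagrange.nodal Finset.univ r with hP
  set w : Fin N → ℝ := fun k => Lagrange.nodalWeight Finset.univ τ k * P.eval (τ k) with hw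
  have hinj : Set.InjOn τ (Finset.univ : Finset (Fin N)) := fun j _ k _ h => F.σinj h
  have hwpos : ∀ k, 0 < w k := by
    intro k
    have e1 : P.eval (τ k) = (r k - τ k) * ∏ i ∈ Finset.univ.erase k, (τ k - r i) := by
      rw [hP, Polynomial.eval_sub, Lagrange.eval_nodal_at_node (Finset.mem_univ k),
        Lagrange.eval_nodal, ← Finset.mul_prod_erase _ _ (Finset.mem_univ k)]
      ring
    have e2 : w k = (r k - τ k) * ∏ i ∈ Finset.univ.erase k, ((τ k - r i) / (τ k - τ i)) := by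
      simp only [hw]
      rw [e1, Lagrange.nodalWeight, Finset.prod_div_distrib, Finset.prod_inv_distrib]
      ring
    rw [e2]
    refine mul_pos ?_ (Finset.prod_pos fun i hi => F.ratio_pos (Finset.ne_of_mem_erase hi))
    have := F.h1 k k le_rfl
    simp only [hr, hτ]
    nlinarith [F.hσ k, F.hρ k]
  have hsum : ∀ j, ∑ k, w k / (r j - τ k) = 1 := by
    intro j
    have hN : 0 < N := j.pos
    have hdeg : P.degree < (Finset.univ : Finset (Fin N)).card := by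
      have h1 : (Lagrange.nodal Finset.univ τ).degree = (Finset.univ : Finset (Fin N)).card :=
        Lagrange.degree_nodal
      have h2 : (Lagrange.nodal Finset.univ r).degree = (Finset.univ : Finset (Fin N)).card :=
        Lagrange.degree_nodal
      rw [← h1]
      refine Polynomial.degree_sub_lt_left (h1.trans h2.symm) Lagrange.nodal_ne_zero ?_
      rw [Lagrange.nodal_monic.leadingCoeff, Lagrange.nodal_monic.leadingCoeff]
    have h3 := Lagrange.eq_interpolate_of_eval_eq (fun k => P.eval (τ k)) hinj hdeg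
      (fun k _ => rfl)
    have hx : ∀ i ∈ (Finset.univ : Finset (Fin N)), r j ≠ τ i := fun i _ => F.ne j i
    have h4 := Lagrange.eval_interpolate_not_at_node (s := Finset.univ) (v := τ) (x := r j)
      (fun k => P.eval (τ k)) hx
    rw [← h3] at h4
    have h5 : P.eval (r j) = (Lagrange.nodal Finset.univ τ).eval (r j) := by
      rw [hP, Polynomial.eval_sub, Lagrange.eval_nodal_at_node (Finset.mem_univ j), sub_zero]
    rw [h5] at h4
    have h6 : (Lagrange.nodal Finset.univ τ).eval (r j) ≠ 0 :=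
      Lagrange.eval_nodal_not_at_node hx
    have h7 : ∑ i, Lagrange.nodalWeight Finset.univ τ i * (r j - τ i)⁻¹ * P.eval (τ i) = 1 := by
      have := mul_left_cancel₀ h6 (h4.symm.trans (mul_one _).symm)
      exact this
    rw [← h7]
    exact Finset.sum_congr rfl fun k _ => by simp only [hw]; ring
  refine ⟨fun k => √(w k), fun k => Real.sqrt_pos.2 (hwpos k), fun j => ?_⟩
  rw [← hsum j]
  exact Finset.sum_congr rfl fun k _ => by rw [Real.sq_sqrt (hwpos k).le]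

/-- the orthogonal Cauchy matrix -/
theorem Fi.exists_orth :
    ∃ (α β : Fin N → ℝ) (O : Matrix (Fin N) (Fin N) ℝ), (∀ j, α j ≠ 0) ∧ (∀ k, β k ≠ 0) ∧
      (∀ j k, (ρ j ^ 2 - σ k ^ 2) * O j k = α j * β k) ∧ O * Oᵀ = 1 ∧ Oᵀ * O = 1 ∧
      O *ᵥ β = α := by
  classical
  obtain ⟨β, hβ, hs⟩ := F.exists_beta
  set S : Fin N → ℝ := fun j => ∑ k, β k ^ 2 / (ρ j ^ 2 - σ k ^ 2) ^ 2 with hS
  have hd : ∀ j k, ρ j ^ 2 - σ k ^ 2 ≠ 0 := fun j k => sub_ne_zero.2 (F.ne j k)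
  have hS0 : ∀ j, 0 < S j := fun j =>
    Finset.sum_pos (fun k _ => div_pos (pow_pos (hβ k) 2) (by positivity [hd j k]))
      ⟨j, Finset.mem_univ j⟩
  set α : Fin N → ℝ := fun j => (√(S j))⁻¹ with hα
  have hα0 : ∀ j, α j ≠ 0 := fun j => inv_ne_zero (Real.sqrt_pos.2 (hS0 j)).ne'
  set O : Matrix (Fin N) (Fin N) ℝ := Matrix.of fun j k => α j * β k / (ρ j ^ 2 - σ k ^ 2) with hO
  have hOO : O * Oᵀ = 1 := by
    ext i j
    rw [Matrix.mul_apply, Matrix.one_apply]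
    simp only [hO, Matrix.transpose_apply, Matrix.of_apply]
    split_ifs with hij
    · subst hij
      have : ∀ k, α i * β k / (ρ i ^ 2 - σ k ^ 2) * (α i * β k / (ρ i ^ 2 - σ k ^ 2)) =
          α i ^ 2 * (β k ^ 2 / (ρ i ^ 2 - σ k ^ 2) ^ 2) := fun k => by
        rw [div_mul_div_comm, ← mul_div_assoc]
        congr 1 <;> ring
      rw [Finset.sum_congr rfl fun k _ => this k, ← Finset.mul_sum]
      change α i ^ 2 * S i = 1
      simp only [hα]
      rw [inv_pow, Real.sq_sqrt (hS0 i).le, inv_mul_cancel₀ (hS0 i).ne']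
    · have hr : ρ i ^ 2 - ρ j ^ 2 ≠ 0 := sub_ne_zero.2 fun h => hij (F.ρinj h)
      have : ∀ k, α i * β k / (ρ i ^ 2 - σ k ^ 2) * (α j * β k / (ρ j ^ 2 - σ k ^ 2)) =
          α i * α j / (ρ i ^ 2 - ρ j ^ 2) *
            (β k ^ 2 / (ρ j ^ 2 - σ k ^ 2) - β k ^ 2 / (ρ i ^ 2 - σ k ^ 2)) := by
        intro k
        have := hd i k
        have := hd j k
        field_simp
        ring
      rw [Finset.sum_congr rfl fun k _ => this k, ← Finset.mul_sum, Finset.sum_sub_distrib, hs i,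
        hs j, sub_self, mul_zero]
  refine ⟨α, β, O, hα0, fun k => (hβ k).ne', ?_, hOO, mul_eq_one_comm.1 hOO, ?_⟩
  · intro j k
    simp only [hO, Matrix.of_apply]
    rw [mul_div_cancel₀ _ (hd j k)]
  · funext j
    rw [Matrix.mulVec, dotProduct]
    simp only [hO, Matrix.of_apply]
    have : ∀ k, α j * β k / (ρ j ^ 2 - σ k ^ 2) * β k = α j * (β k ^ 2 / (ρ j ^ 2 - σ k ^ 2)) :=
      fun k => by ring
    rw [Finset.sum_congr rfl fun k _ => this k, ← Finset.mul_sum, hs, mul_one]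

end

section
variable {N : ℕ} {O : Matrix (Fin N) (Fin N) ℝ}

lemma dot_mulVec (M : Matrix (Fin N) (Fin N) ℝ) (x y : Fin N → ℝ) :
    (M *ᵥ x) ⬝ᵥ y = x ⬝ᵥ (Mᵀ *ᵥ y) := by
  rw [Matrix.mulVec_transpose, dotProduct_comm, Matrix.dotProduct_mulVec, dotProduct_comm]

lemma orth_dot (h : Oᵀ * O = 1) (x y : Fin N → ℝ) : (O *ᵥ x) ⬝ᵥ (O *ᵥ y) = x ⬝ᵥ y := by
  rw [dot_mulVec, Matrix.mulVec_mulVec, h, Matrix.one_mulVec]

/-- the vector `t_k(x) = ∑_j O_jk x_j / ρ_j` -/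
noncomputable def tv (ρ : Fin N → ℝ) (O : Matrix (Fin N) (Fin N) ℝ) (x : Fin N → ℝ) : Fin N → ℝ :=
  Oᵀ *ᵥ fun j => (ρ j)⁻¹ * x j

/-- the matrix `A = M D⁻¹` acting on vectors -/
noncomputable def Am (ρ σ : Fin N → ℝ) (O : Matrix (Fin N) (Fin N) ℝ) (x : Fin N → ℝ) :
    Fin N → ℝ :=
  O *ᵥ fun k => σ k * tv ρ O x k

/-- the orbit of a vector -/
noncomputable def orb (ρ σ : Fin N → ℝ) (O : Matrix (Fin N) (Fin N) ℝ) (b : Fin N → ℝ) :
    ℕ → Fin N → ℝ
  | 0 => b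
  | n + 1 => Am ρ σ O (orb ρ σ O b n)

/-- the weighted form -/
noncomputable def gf (ρ : Fin N → ℝ) (x y : Fin N → ℝ) : ℝ := x ⬝ᵥ fun j => (ρ j)⁻¹ * y j

lemma gf_comm (ρ : Fin N → ℝ) (x y : Fin N → ℝ) : gf ρ x y = gf ρ y x := by
  unfold gf dotProduct
  exact Finset.sum_congr rfl fun j _ => by ring

lemma gf_Am (ρ σ : Fin N → ℝ) (x y : Fin N → ℝ) :
    gf ρ (Am ρ σ O x) y = ∑ k, σ k * (tv ρ O x k * tv ρ O y k) := by
  unfold gf Am
  rw [dot_mulVec]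
  unfold tv dotProduct
  exact Finset.sum_congr rfl fun j _ => by ring

lemma gf_symm (ρ σ : Fin N → ℝ) (x y : Fin N → ℝ) :
    gf ρ (Am ρ σ O x) y = gf ρ x (Am ρ σ O y) := by
  rw [gf_comm ρ x, gf_Am, gf_Am]
  exact Finset.sum_congr rfl fun j _ => by ring

lemma gf_orb (ρ σ : Fin N → ℝ) (b : Fin N → ℝ) (n p : ℕ) :
    gf ρ (orb ρ σ O b n) (orb ρ σ O b p) = gf ρ b (orb ρ σ O b (n + p)) := by
  induction n generalizing p with
  | zero => rw [zero_add]; rfl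
  | succ n ih =>
    have : n + 1 + p = n + (p + 1) := by ring
    rw [this, ← ih (p + 1)]
    exact gf_symm ρ σ _ _

variable {ρ σ α β : Fin N → ℝ}

lemma contraction (hρ : ∀ j, ρ j ≠ 0) (h3 : ∀ j k, (ρ j ^ 2 - σ k ^ 2) * O j k = α j * β k)
    (h4 : O * Oᵀ = 1) (h5 : Oᵀ * O = 1) (h6 : O *ᵥ β = α) (x : Fin N → ℝ) :
    Am ρ σ O x ⬝ᵥ Am ρ σ O x ≤ x ⬝ᵥ x := by
  set s := α ⬝ᵥ (fun j => (ρ j)⁻¹ * x j) with hs
  have e1 : Am ρ σ O x ⬝ᵥ Am ρ σ O x = ∑ k, (σ k ^ 2 * tv ρ O x k) * tv ρ O x k := by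
    unfold Am
    rw [orth_dot h5]
    unfold dotProduct
    exact Finset.sum_congr rfl fun j _ => by ring
  have e2 : (fun k => σ k ^ 2 * tv ρ O x k) = fun k =>
      (Oᵀ *ᵥ fun j => ρ j * x j) k - s * β k := by
    funext k
    simp only [tv, Matrix.mulVec, dotProduct, Matrix.transpose_apply, hs]
    rw [Finset.mul_sum, Finset.sum_mul, ← Finset.sum_sub_distrib]
    refine Finset.sum_congr rfl fun j _ => ?_
    have h7 := h3 j k
    have h8 := hρ j
    field_simp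
    linear_combination (- x j) * h7
  have e3 : ∑ k, (σ k ^ 2 * tv ρ O x k) * tv ρ O x k =
      (fun k => σ k ^ 2 * tv ρ O x k) ⬝ᵥ tv ρ O x := rfl
  have e4 : (fun k => (Oᵀ *ᵥ fun j => ρ j * x j) k - s * β k) ⬝ᵥ tv ρ O x =
      (Oᵀ *ᵥ fun j => ρ j * x j) ⬝ᵥ tv ρ O x - s * (β ⬝ᵥ tv ρ O x) := by
    simp only [dotProduct, Finset.mul_sum, ← Finset.sum_sub_distrib]
    exact Finset.sum_congr rfl fun j _ => by ring
  have e5 : (Oᵀ *ᵥ fun j => ρ j * x j) ⬝ᵥ tv ρ O x = x ⬝ᵥ x := by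
    unfold tv
    have : (Oᵀ)ᵀ * Oᵀ = 1 := by rw [Matrix.transpose_transpose]; exact h4
    rw [orth_dot this]
    unfold dotProduct
    exact Finset.sum_congr rfl fun j _ => by have := hρ j; field_simp
  have e6 : β ⬝ᵥ tv ρ O x = s := by
    unfold tv
    rw [dotProduct_comm, dot_mulVec, Matrix.transpose_transpose, h6, dotProduct_comm]
  rw [e1, e3, e2, e4, e5, e6]
  nlinarith [mul_self_nonneg s]

lemma orb_le (hρ : ∀ j, ρ j ≠ 0) (h3 : ∀ j k, (ρ j ^ 2 - σ k ^ 2) * O j k = α j * β k)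
    (h4 : O * Oᵀ = 1) (h5 : Oᵀ * O = 1) (h6 : O *ᵥ β = α) (b : Fin N → ℝ) (n : ℕ) :
    orb ρ σ O b n ⬝ᵥ orb ρ σ O b n ≤ b ⬝ᵥ b := by
  induction n with
  | zero => exact le_rfl
  | succ n ih => exact (contraction hρ h3 h4 h5 h6 _).trans ih

lemma orb_coord (hρ : ∀ j, ρ j ≠ 0) (h3 : ∀ j k, (ρ j ^ 2 - σ k ^ 2) * O j k = α j * β k)
    (h4 : O * Oᵀ = 1) (h5 : Oᵀ * O = 1) (h6 : O *ᵥ β = α) (b : Fin N → ℝ) (n : ℕ) (j : Fin N) :
    |orb ρ σ O b n j| ≤ √(b ⬝ᵥ b) := by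
  apply Real.abs_le_sqrt
  refine le_trans ?_ (orb_le hρ h3 h4 h5 h6 b n)
  rw [dotProduct, pow_two]
  exact Finset.single_le_sum (f := fun i => orb ρ σ O b n i * orb ρ σ O b n i)
    (fun i _ => mul_self_nonneg _) (Finset.mem_univ j)

end


section
variable {N : ℕ} {ρ σ : Fin N → ℝ}

/-- the Cauchy-like matrix at angles zero -/
noncomputable def C0 (ρ σ : Fin N → ℝ) (z : ℂ) : Matrix (Fin N) (Fin N) ℂ :=
  Matrix.of fun j k => ((ρ j : ℂ) - z * (σ k : ℂ)) / ((ρ j : ℂ) ^ 2 - (σ k : ℂ) ^ 2)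

/-- solution of the linear system for a real right-hand side -/
lemma solve {O : Matrix (Fin N) (Fin N) ℝ} {α β : Fin N → ℝ} (F : Fi ρ σ)
    (hα : ∀ j, α j ≠ 0)
    (h3 : ∀ j k, (ρ j ^ 2 - σ k ^ 2) * O j k = α j * β k)
    (h4 : O * Oᵀ = 1) (h5 : Oᵀ * O = 1) (h6 : O *ᵥ β = α) (b : Fin N → ℝ) {z : ℂ}
    (hz : ‖z‖ < 1) :
    ∃ X : Fin N → ℂ, (C0 ρ σ z *ᵥ X = fun j => ((b j / α j : ℝ) : ℂ)) ∧
      HasSum (fun n => ((gf ρ α (orb ρ σ O b n) : ℝ) : ℂ) * z ^ n) (∑ k, X k) := by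
  have hρ : ∀ j, ρ j ≠ 0 := fun j => (F.hρ j).ne'
  have sY : ∀ j, Summable (fun n => ((orb ρ σ O b n j : ℝ) : ℂ) * z ^ n) := by
    intro j
    refine Summable.of_norm_bounded (g := fun n => √(b ⬝ᵥ b) * ‖z‖ ^ n)
      ((summable_geometric_of_lt_one (norm_nonneg _) hz).mul_left _) fun n => ?_
    rw [norm_mul, norm_pow, Complex.norm_real, Real.norm_eq_abs]
    exact mul_le_mul_of_nonneg_right (orb_coord hρ h3 h4 h5 h6 b n j) (by positivity)
  choose Y hY using fun j => (sY j)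
  -- the vectors `t(Y)`
  set t : Fin N → ℂ := fun k => ∑ i, ((O i k : ℝ) : ℂ) * (((ρ i)⁻¹ : ℝ) : ℂ) * Y i with ht
  have ht1 : ∀ k, HasSum (fun n => ((tv ρ O (orb ρ σ O b n) k : ℝ) : ℂ) * z ^ n) (t k) := by
    intro k
    have h7 := hasSum_sum (s := Finset.univ) fun i (_ : i ∈ (Finset.univ : Finset (Fin N))) =>
      (hY i).mul_left (((O i k : ℝ) : ℂ) * (((ρ i)⁻¹ : ℝ) : ℂ))
    refine hcongrC h7 fun n => ?_
    simp only [tv, Matrix.mulVec, dotProduct, Matrix.transpose_apply]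
    push_cast
    rw [Finset.sum_mul]
    exact Finset.sum_congr rfl fun i _ => by ring
  set AY : Fin N → ℂ := fun j => ∑ k, ((O j k : ℝ) : ℂ) * (σ k : ℂ) * t k with hAY
  have hA1 : ∀ j, HasSum (fun n => ((orb ρ σ O b (n + 1) j : ℝ) : ℂ) * z ^ n) (AY j) := by
    intro j
    have h7 := hasSum_sum (s := Finset.univ) fun i (_ : i ∈ (Finset.univ : Finset (Fin N))) =>
      (ht1 i).mul_left (((O j i : ℝ) : ℂ) * (σ i : ℂ))
    refine hcongrC h7 fun n => ?_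
    simp only [orb, Am, Matrix.mulVec, dotProduct]
    push_cast
    rw [Finset.sum_mul]
    exact Finset.sum_congr rfl fun i _ => by ring
  have hrec : ∀ j, Y j = ((b j : ℝ) : ℂ) + z * AY j := by
    intro j
    have h7 := hY j
    rw [← hasSum_nat_add_iff' 1] at h7
    have h8 := (hA1 j).mul_left z
    have h9 := h7.unique (hcongrC h8 fun n => by rw [pow_succ]; ring)
    have h10 : orb ρ σ O b 0 j = b j := rfl
    simp only [Finset.range_one, Finset.sum_singleton, pow_zero, mul_one, h10] at h9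
    linear_combination h9
  have hOO : ∀ j i, ∑ k, ((O j k : ℝ) : ℂ) * ((O i k : ℝ) : ℂ) = if j = i then 1 else 0 := by
    intro j i
    have h7 := congrFun (congrFun h4 j) i
    rw [Matrix.mul_apply, Matrix.one_apply] at h7
    simp only [Matrix.transpose_apply] at h7
    have h8 := congrArg (fun x : ℝ => (x : ℂ)) h7
    push_cast at h8
    rw [h8]
    split_ifs <;> simp
  have hOt : ∀ j, ∑ k, ((O j k : ℝ) : ℂ) * t k = (((ρ j)⁻¹ : ℝ) : ℂ) * Y j := by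
    intro j
    simp only [ht, Finset.mul_sum]
    rw [Finset.sum_comm]
    have h7 : ∀ i, ∑ k, ((O j k : ℝ) : ℂ) * (((O i k : ℝ) : ℂ) * (((ρ i)⁻¹ : ℝ) : ℂ) * Y i) =
        (if j = i then 1 else 0) * ((((ρ i)⁻¹ : ℝ) : ℂ) * Y i) := by
      intro i
      rw [← hOO j i, Finset.sum_mul]
      exact Finset.sum_congr rfl fun k _ => by ring
    rw [Finset.sum_congr rfl fun i _ => h7 i]
    simp
  refine ⟨fun k => ((β k : ℝ) : ℂ) * t k, ?_, ?_⟩
  · funext j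
    have hαj : ((α j : ℝ) : ℂ) ≠ 0 := Complex.ofReal_ne_zero.2 (hα j)
    have hρj : ((ρ j : ℝ) : ℂ) ≠ 0 := Complex.ofReal_ne_zero.2 (hρ j)
    have h7 : ∀ k, ((ρ j : ℂ) - z * (σ k : ℂ)) / ((ρ j : ℂ) ^ 2 - (σ k : ℂ) ^ 2) *
        (((β k : ℝ) : ℂ) * t k) = ((α j : ℝ) : ℂ)⁻¹ * ((ρ j : ℂ) * (((O j k : ℝ) : ℂ) * t k) -
          z * (((O j k : ℝ) : ℂ) * (σ k : ℂ) * t k)) := by
      intro k
      have h8 : ((ρ j : ℂ) ^ 2 - (σ k : ℂ) ^ 2) * ((O j k : ℝ) : ℂ) =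
          ((α j : ℝ) : ℂ) * ((β k : ℝ) : ℂ) := by exact_mod_cast h3 j k
      have h9 : (ρ j : ℂ) ^ 2 - (σ k : ℂ) ^ 2 ≠ 0 := by
        exact_mod_cast sub_ne_zero.2 (F.ne j k)
      field_simp
      linear_combination (-(t k * ((ρ j : ℂ) - z * (σ k : ℂ)))) * h8
    simp only [C0, Matrix.mulVec, dotProduct, Matrix.of_apply]
    rw [Finset.sum_congr rfl fun k _ => h7 k, ← Finset.mul_sum, Finset.sum_sub_distrib,
      ← Finset.mul_sum, ← Finset.mul_sum, hOt]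
    change ((α j : ℝ) : ℂ)⁻¹ * ((ρ j : ℂ) * ((((ρ j)⁻¹ : ℝ) : ℂ) * Y j) - z * AY j) = _
    rw [hrec j]
    push_cast
    field_simp
    ring
  · have h7 : ∑ k, ((β k : ℝ) : ℂ) * t k = ∑ i, ((α i : ℝ) : ℂ) * ((((ρ i)⁻¹ : ℝ) : ℂ) * Y i) := by
      simp only [ht, Finset.mul_sum]
      rw [Finset.sum_comm]
      refine Finset.sum_congr rfl fun i _ => ?_
      have h8 : ((α i : ℝ) : ℂ) = ∑ k, ((O i k : ℝ) : ℂ) * ((β k : ℝ) : ℂ) := by
        rw [← h6]
        simp only [Matrix.mulVec, dotProduct]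
        push_cast
        rfl
      rw [h8, Finset.sum_mul]
      exact Finset.sum_congr rfl fun k _ => by ring
    rw [h7]
    have h8 := hasSum_sum (s := Finset.univ) fun i (_ : i ∈ (Finset.univ : Finset (Fin N))) =>
      (hY i).mul_left (((α i : ℝ) : ℂ) * (((ρ i)⁻¹ : ℝ) : ℂ))
    have h9 : ∑ i, ((α i : ℝ) : ℂ) * ((((ρ i)⁻¹ : ℝ) : ℂ) * Y i) =
        ∑ i, ((α i : ℝ) : ℂ) * (((ρ i)⁻¹ : ℝ) : ℂ) * Y i :=
      Finset.sum_congr rfl fun k _ => by ring
    rw [h9]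
    refine hcongrC h8 fun n => ?_
    simp only [gf, dotProduct]
    push_cast
    rw [Finset.sum_mul]
    exact Finset.sum_congr rfl fun i _ => by ring

/-- the finite zero-angle function: power series with positive Hankel forms -/
theorem fin_main (F : Fi ρ σ) :
    ∃ c : ℕ → ℝ, (∀ (L : ℕ) (x : ℕ → ℝ), 0 ≤ ∑ n ∈ Finset.range L, ∑ p ∈ Finset.range L,
        c (n + p) * (x n * x p)) ∧
      (∀ (L : ℕ) (x : ℕ → ℝ), 0 ≤ ∑ n ∈ Finset.range L, ∑ p ∈ Finset.range L,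
        c (n + p + 1) * (x n * x p)) ∧
      ∀ z : ℂ, ‖z‖ < 1 → HasSum (fun n => ((c n : ℝ) : ℂ) * z ^ n)
        ((fun _ => (1 : ℂ)) ⬝ᵥ ((C0 ρ σ z)⁻¹ *ᵥ fun _ => (1 : ℂ))) := by
  obtain ⟨α, β, O, hα, hβ, h3, h4, h5, h6⟩ := F.exists_orth
  set v := orb ρ σ O α with hv
  have form : ∀ (L : ℕ) (x : ℕ → ℝ) (B : (Fin N → ℝ) → (Fin N → ℝ) → ℝ) (w : Fin N → ℝ)
      (T : (Fin N → ℝ) → (Fin N → ℝ)) (_ : ∀ k, 0 ≤ w k)
      (_ : ∀ y y', B y y' = ∑ k, w k * (T y k * T y' k)),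
      0 ≤ ∑ n ∈ Finset.range L, ∑ p ∈ Finset.range L, B (v n) (v p) * (x n * x p) := by
    intro L x B w T hw hB
    have e : ∑ n ∈ Finset.range L, ∑ p ∈ Finset.range L, B (v n) (v p) * (x n * x p) =
        ∑ k, w k * (∑ n ∈ Finset.range L, x n * T (v n) k) ^ 2 := by
      have e1 : ∀ k, w k * (∑ n ∈ Finset.range L, x n * T (v n) k) ^ 2 =
          ∑ n ∈ Finset.range L, ∑ p ∈ Finset.range L,
            w k * (T (v n) k * T (v p) k) * (x n * x p) := by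
        intro k
        rw [pow_two, Finset.sum_mul_sum, Finset.mul_sum]
        refine Finset.sum_congr rfl fun n _ => ?_
        rw [Finset.mul_sum]
        exact Finset.sum_congr rfl fun p _ => by ring
      rw [Finset.sum_congr rfl (fun (k : Fin N) _ => e1 k)]
      refine Eq.trans ?_ (Finset.sum_comm.trans
        (Finset.sum_congr rfl fun n _ => Finset.sum_comm)).symm
      refine Finset.sum_congr rfl fun n _ => Finset.sum_congr rfl fun p _ => ?_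
      rw [hB, Finset.sum_mul]
    rw [e]
    exact Finset.sum_nonneg fun k _ => mul_nonneg (hw k) (sq_nonneg _)
  refine ⟨fun n => gf ρ α (v n), ?_, ?_, ?_⟩
  · intro L x
    have h7 := form L x (gf ρ) (fun j => (ρ j)⁻¹) (fun y => y)
      (fun j => (inv_pos.2 (F.hρ j)).le) (fun y y' => by
        unfold gf dotProduct
        exact Finset.sum_congr rfl fun j _ => by ring)
    simpa only [hv, gf_orb] using h7
  · intro L x
    have h7 := form L x (fun y y' => gf ρ (Am ρ σ O y) y') σ (tv ρ O)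
      (fun j => (F.hσ j).le) (fun y y' => gf_Am ρ σ y y')
    have h8 : ∀ n p, gf ρ (Am ρ σ O (v n)) (v p) = gf ρ α (v (n + p + 1)) := by
      intro n p
      have : n + p + 1 = n + 1 + p := by ring
      rw [this, hv, ← gf_orb]
      rfl
    simpa only [h8] using h7
  · intro z hz
    have surj : Function.Surjective (C0 ρ σ z).mulVec := by
      intro y
      obtain ⟨X1, hX1, _⟩ := solve F hα h3 h4 h5 h6 (fun j => α j * (y j).re) hz
      obtain ⟨X2, hX2, _⟩ := solve F hα h3 h4 h5 h6 (fun j => α j * (y j).im) hz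
      refine ⟨X1 + Complex.I • X2, ?_⟩
      rw [Matrix.mulVec_add, Matrix.mulVec_smul, hX1, hX2]
      funext j
      simp only [Pi.add_apply, Pi.smul_apply, mul_div_cancel_left₀ _ (hα j), smul_eq_mul]
      rw [mul_comm, Complex.re_add_im]
    have hu : IsUnit (C0 ρ σ z) := Matrix.mulVec_surjective_iff_isUnit.1 surj
    obtain ⟨X, hX, hXs⟩ := solve F hα h3 h4 h5 h6 α hz
    have e1 : (fun j => ((α j / α j : ℝ) : ℂ)) = fun _ => (1 : ℂ) := by
      funext j; rw [div_self (hα j)]; simp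
    rw [e1] at hX
    have e2 : (C0 ρ σ z)⁻¹ *ᵥ (fun _ => (1 : ℂ)) = X := by
      rw [← hX, Matrix.mulVec_mulVec, Matrix.nonsing_inv_mul _
        ((Matrix.isUnit_iff_isUnit_det _).1 hu), Matrix.one_mulVec]
    rw [e2]
    have e3 : (fun _ => (1 : ℂ)) ⬝ᵥ X = ∑ k, X k := by
      simp [dotProduct]
    rw [e3]
    exact hXs

end

end Pool.Agent.Q82.HK
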