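import Mathlib

/-!
Convergence of the coefficients of power series with nonnegative coefficients from pointwise
convergence on the disc.
-/

set_option autoImplicit false
open Filter Topology

namespace Pool.Agent.Q82.HK

/-- convergence of coefficients -/
theorem coeff_lim {c : ℕ → ℕ → ℝ} (hc : ∀ N n, 0 ≤ c N n) {u : ℕ → ℂ}
    (hs : ∀ N, ∀ x : ℝ, 0 < x → x < 1 → Summable fun n => c N n * x ^ n)
    (hu : ∀ x : ℝ, 0 < x → x < 1 → Summable fun n => ‖u n‖ * x ^ n)
    (hlim : ∀ x : ℝ, 0 < x → x < 1 →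
      Tendsto (fun N => ((∑' n, c N n * x ^ n : ℝ) : ℂ)) atTop (𝓝 (∑' n, u n * (x : ℂ) ^ n)))
    (n : ℕ) : Tendsto (fun N => ((c N n : ℝ) : ℂ)) atTop (𝓝 (u n)) := by
  -- summability of the shifted series
  have hs' : ∀ n N, ∀ x : ℝ, 0 < x → x < 1 → Summable fun k => c N (n + k) * x ^ k := by
    intro n N x hx hx1
    have h1 := ((summable_nat_add_iff n).2 (hs N x hx hx1)).mul_right ((x ^ n)⁻¹)
    refine h1.congr fun k => ?_
    have : x ^ n ≠ 0 := (pow_pos hx n).ne'
    rw [pow_add, add_comm k n]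
    field_simp
  have hu' : ∀ n, ∀ x : ℝ, 0 < x → x < 1 → Summable fun k => ‖u (n + k)‖ * x ^ k := by
    intro n x hx hx1
    have h1 := ((summable_nat_add_iff n).2 (hu x hx hx1)).mul_right ((x ^ n)⁻¹)
    refine h1.congr fun k => ?_
    have : x ^ n ≠ 0 := (pow_pos hx n).ne'
    rw [pow_add, add_comm k n]
    field_simp
  have huc : ∀ n, ∀ x : ℝ, 0 < x → x < 1 → Summable fun k => u (n + k) * (x : ℂ) ^ k := by
    intro n x hx hx1
    refine Summable.of_norm ((hu' n x hx hx1).congr fun k => ?_)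
    rw [norm_mul, norm_pow, Complex.norm_real, Real.norm_of_nonneg hx.le]
  -- recursion
  have rc : ∀ n N, ∀ x : ℝ, 0 < x → x < 1 →
      ∑' k, c N (n + k) * x ^ k = c N n + x * ∑' k, c N (n + 1 + k) * x ^ k := by
    intro n N x hx hx1
    rw [(hs' n N x hx hx1).tsum_eq_zero_add, ← tsum_mul_left]
    simp only [add_zero, pow_zero, mul_one]
    congr 1
    refine tsum_congr fun k => ?_
    rw [pow_succ]
    have : n + (k + 1) = n + 1 + k := by ring
    rw [this]; ring
  have ru : ∀ n, ∀ x : ℝ, 0 < x → x < 1 →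
      ∑' k, u (n + k) * (x : ℂ) ^ k = u n + x * ∑' k, u (n + 1 + k) * (x : ℂ) ^ k := by
    intro n x hx hx1
    rw [(huc n x hx hx1).tsum_eq_zero_add, ← tsum_mul_left]
    simp only [add_zero, pow_zero, mul_one]
    congr 1
    refine tsum_congr fun k => ?_
    rw [pow_succ]
    have : n + (k + 1) = n + 1 + k := by ring
    rw [this]; ring
  -- the step
  have step : ∀ n, (∀ x : ℝ, 0 < x → x < 1 → Tendsto (fun N => ((∑' k, c N (n + k) * x ^ k : ℝ) : ℂ))
      atTop (𝓝 (∑' k, u (n + k) * (x : ℂ) ^ k))) →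
      Tendsto (fun N => ((c N n : ℝ) : ℂ)) atTop (𝓝 (u n)) := by
    intro n hn
    have hh := hn (1 / 2) (by norm_num) (by norm_num)
    obtain ⟨C, hC⟩ := hh.norm.bddAbove_range
    have hC' : ∀ N, ∑' k, c N (n + k) * (1 / 2 : ℝ) ^ k ≤ C := by
      intro N
      have h1 : ‖((∑' k, c N (n + k) * (1 / 2 : ℝ) ^ k : ℝ) : ℂ)‖ ≤ C := hC ⟨N, rfl⟩
      rw [Complex.norm_real] at h1
      exact (le_abs_self _).trans h1
    set B := ∑' k, ‖u (n + 1 + k)‖ * (1 / 2 : ℝ) ^ k with hB
    have hB0 : 0 ≤ B := tsum_nonneg fun k => by positivity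
    have hC0 : 0 ≤ C := (tsum_nonneg fun k => mul_nonneg (hc 0 _) (by positivity)).trans (hC' 0)
    have bc : ∀ N, ∀ x : ℝ, 0 < x → x ≤ 1 / 2 →
        |∑' k, c N (n + k) * x ^ k - c N n| ≤ 2 * C * x := by
      intro N x hx hx1
      have hx2 : x < 1 := by linarith
      rw [rc n N x hx hx2]
      have h1 : ∑' k, c N (n + 1 + k) * x ^ k ≤ ∑' k, c N (n + 1 + k) * (1 / 2 : ℝ) ^ k := by
        refine (hs' (n + 1) N x hx hx2).tsum_le_tsum (fun k => ?_)
          (hs' (n + 1) N (1 / 2) (by norm_num) (by norm_num))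
        exact mul_le_mul_of_nonneg_left (pow_le_pow_left₀ hx.le hx1 k) (hc _ _)
      have h2 := rc n N (1 / 2) (by norm_num) (by norm_num)
      have h3 := hC' N
      have h4 := hc N n
      have h5 : 0 ≤ ∑' k, c N (n + 1 + k) * x ^ k :=
        tsum_nonneg fun k => mul_nonneg (hc _ _) (by positivity)
      rw [add_sub_cancel_left, abs_of_nonneg (mul_nonneg hx.le h5)]
      have h6 : ∑' k, c N (n + 1 + k) * x ^ k ≤ 2 * C := by linarith
      calc x * ∑' k, c N (n + 1 + k) * x ^ k ≤ x * (2 * C) := mul_le_mul_of_nonneg_left h6 hx.le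
        _ = 2 * C * x := by ring
    have bu : ∀ x : ℝ, 0 < x → x ≤ 1 / 2 → ‖∑' k, u (n + k) * (x : ℂ) ^ k - u n‖ ≤ B * x := by
      intro x hx hx1
      have hx2 : x < 1 := by linarith
      rw [ru n x hx hx2, add_sub_cancel_left, norm_mul, Complex.norm_real,
        Real.norm_of_nonneg hx.le, mul_comm]
      refine mul_le_mul_of_nonneg_right ?_ hx.le
      refine (norm_tsum_le_tsum_norm ?_).trans ?_
      · refine (hu' (n + 1) x hx hx2).congr fun k => ?_
        rw [norm_mul, norm_pow, Complex.norm_real, Real.norm_of_nonneg hx.le]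
      · rw [hB]
        have e : ∀ k, ‖u (n + 1 + k) * (x : ℂ) ^ k‖ = ‖u (n + 1 + k)‖ * x ^ k := fun k => by
          rw [norm_mul, norm_pow, Complex.norm_real, Real.norm_of_nonneg hx.le]
        simp_rw [e]
        refine (hu' (n + 1) x hx hx2).tsum_le_tsum (fun k => ?_)
          (hu' (n + 1) (1 / 2) (by norm_num) (by norm_num))
        exact mul_le_mul_of_nonneg_left (pow_le_pow_left₀ hx.le hx1 k) (norm_nonneg _)
    rw [Metric.tendsto_atTop]
    intro ε hε
    set x := min (1 / 2) (ε / (2 * (2 * C + B + 1))) with hx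
    have hden : 0 < 2 * (2 * C + B + 1) := by linarith
    have hx0 : 0 < x := lt_min (by norm_num) (div_pos hε hden)
    have hx1 : x ≤ 1 / 2 := min_le_left _ _
    have hx2 : (2 * C + B) * x ≤ ε / 2 := by
      have h1 : x ≤ ε / (2 * (2 * C + B + 1)) := min_le_right _ _
      rw [le_div_iff₀ hden] at h1
      nlinarith
    obtain ⟨M, hM⟩ := Metric.tendsto_atTop.1 (hn x hx0 (by linarith)) (ε / 2) (half_pos hε)
    refine ⟨M, fun N hN => ?_⟩
    have h1 := hM N hN
    rw [dist_eq_norm] at h1 ⊢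
    have h2 := bc N x hx0 hx1
    have h3 := bu x hx0 hx1
    have h2' : ‖((∑' k, c N (n + k) * x ^ k : ℝ) : ℂ) - ((c N n : ℝ) : ℂ)‖ ≤ 2 * C * x := by
      rw [← Complex.ofReal_sub, Complex.norm_real]
      exact h2
    have e : ((c N n : ℝ) : ℂ) - u n =
        -(((∑' k, c N (n + k) * x ^ k : ℝ) : ℂ) - ((c N n : ℝ) : ℂ)) +
        ((((∑' k, c N (n + k) * x ^ k : ℝ) : ℂ) - ∑' k, u (n + k) * (x : ℂ) ^ k) +
        (∑' k, u (n + k) * (x : ℂ) ^ k - u n)) := by ring
    rw [e]
    refine (norm_add_le _ _).trans_lt ?_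
    rw [norm_neg]
    have h4 := norm_add_le (((∑' k, c N (n + k) * x ^ k : ℝ) : ℂ) - ∑' k, u (n + k) * (x : ℂ) ^ k)
      (∑' k, u (n + k) * (x : ℂ) ^ k - u n)
    linarith
  -- induction
  have main : ∀ n, ∀ x : ℝ, 0 < x → x < 1 → Tendsto (fun N => ((∑' k, c N (n + k) * x ^ k : ℝ) : ℂ))
      atTop (𝓝 (∑' k, u (n + k) * (x : ℂ) ^ k)) := by
    intro n
    induction n with
    | zero => simpa using hlim
    | succ n ih =>
      intro x hx hx1
      have h1 := ih x hx hx1
      have h2 := step n ih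
      have hxc : (x : ℂ) ≠ 0 := Complex.ofReal_ne_zero.2 hx.ne'
      have h3 := (h1.sub h2).div_const (x : ℂ)
      have e1 : (∑' k, u (n + k) * (x : ℂ) ^ k - u n) / (x : ℂ) =
          ∑' k, u (n + 1 + k) * (x : ℂ) ^ k := by
        rw [ru n x hx hx1, add_sub_cancel_left, mul_div_cancel_left₀ _ hxc]
      rw [e1] at h3
      refine h3.congr fun N => ?_
      rw [rc n N x hx hx1]
      push_cast
      rw [add_sub_cancel_left, mul_div_cancel_left₀ _ hxc]
  exact step n (main n)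

end Pool.Agent.Q82.HK
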