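import Pool.Agent.Q82.HKBd
import Pool.Agent.Q82.HKFin
import Pool.Agent.Q82.HKLim
import Pool.Agent.Q82.HKC1

/-!
From the complex antilinear operators to the real ones, and the final theorem.
-/

set_option autoImplicit false
open Filter Topology InnerProductSpace Matrix
open scoped RealInnerProductSpace ENNReal

namespace Pool.Agent.Q82.HK

/-- a real sequence with summable squares as an element of `E` -/
noncomputable def vec2 (f : ℕ → ℝ) (hf : Summable fun n => f n ^ 2) : E :=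
  ⟨f, by
    apply memℓp_gen
    simpa using hf⟩

lemma sq_of_E (x y : E) : SqS (fun n => (x n : ℂ) + Complex.I * (y n : ℂ)) := by
  have h1 := (hasSum_inner' x x).summable
  have h2 := (hasSum_inner' y y).summable
  refine (h1.add h2).congr fun n => ?_
  rw [← Complex.normSq_eq_norm_sq, Complex.normSq_apply]
  simp

/-- `𝒜` acts on `x + iy` as `A x - i A y` -/
def Acts (𝒜 : (ℕ → ℂ) → ℕ → ℂ) (A : E →L[ℝ] E) : Prop :=
  ∀ (x y : E) (n : ℕ), 𝒜 (fun p => (x p : ℂ) + Complex.I * (y p : ℂ)) n =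
    (A x n : ℂ) - Complex.I * (A y n : ℂ)

lemma Acts.sq {𝒜 : (ℕ → ℂ) → ℕ → ℂ} {A : E →L[ℝ] E} (h : Acts 𝒜 A) (x y : E) (n : ℕ) :
    𝒜 (𝒜 (fun p => (x p : ℂ) + Complex.I * (y p : ℂ))) n =
      (A (A x) n : ℂ) + Complex.I * (A (A y) n : ℂ) := by
  have h1 : 𝒜 (fun p => (x p : ℂ) + Complex.I * (y p : ℂ)) =
      fun p => ((A x) p : ℂ) + Complex.I * (((-(A y) : E) p : ℝ) : ℂ) := by
    funext p
    rw [h x y p, lp.coeFn_neg, Pi.neg_apply]
    push_cast
    ring
  rw [h1, h (A x) (-(A y)) n, map_neg, lp.coeFn_neg, Pi.neg_apply]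
  push_cast
  ring

theorem eig_of_spec {𝒜 : (ℕ → ℂ) → ℕ → ℂ} {A : E →L[ℝ] E} (hP : Acts 𝒜 A) {t : ℕ → ℝ}
    (hA : IsCompactOperator A) (hs : ∀ x y, ⟪A x, y⟫ = ⟪x, A y⟫) (hp : ∀ x, 0 ≤ ⟪A x, x⟫)
    (ht : ∀ j, 0 < t j) (hinj : Function.Injective t) (S : SimpleSpec 𝒜 t) :
    ∃ v, Eig A t v := by
  have real_of : ∀ (x y : E) (μ : ℝ),
      𝒜 (𝒜 (fun p => (x p : ℂ) + Complex.I * (y p : ℂ))) =
        (fun n => (μ : ℂ) * ((x n : ℂ) + Complex.I * (y n : ℂ))) →
      A (A x) = μ • x ∧ A (A y) = μ • y := by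
    intro x y μ h
    have h1 : ∀ n, ((A (A x) n : ℝ) : ℂ) + Complex.I * ((A (A y) n : ℝ) : ℂ) =
        (μ : ℂ) * ((x n : ℂ) + Complex.I * (y n : ℂ)) := fun n => by
      rw [← hP.sq]; exact congrFun h n
    constructor
    · apply lp.ext
      funext n
      have h2 := congrArg Complex.re (h1 n)
      rw [lp.coeFn_smul, Pi.smul_apply, smul_eq_mul]
      simpa using h2
    · apply lp.ext
      funext n
      have h2 := congrArg Complex.im (h1 n)
      rw [lp.coeFn_smul, Pi.smul_apply, smul_eq_mul]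
      simpa using h2
  have of_real : ∀ (x : E) (μ : ℝ), A (A x) = μ • x →
      𝒜 (𝒜 (fun p => (x p : ℂ) + Complex.I * (((0 : E) p : ℝ) : ℂ))) =
        (fun n => (μ : ℂ) * ((x n : ℂ) + Complex.I * (((0 : E) n : ℝ) : ℂ))) := by
    intro x μ h
    funext n
    rw [hP.sq, h, map_zero, map_zero, lp.coeFn_smul, Pi.smul_apply, smul_eq_mul, lp.coeFn_zero]
    simp
  have ne_of : ∀ x : E, x ≠ 0 → ∃ n, x n ≠ 0 := by
    intro x hx
    by_contra hc
    push Not at hc
    exact hx (lp.ext (funext fun n => by rw [hc n]; rfl))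
  refine exists_eig hA hs hp ht hinj ?_ ?_ ?_
  · intro j
    obtain ⟨h, h0, hsq, heq⟩ := S.mem j
    have s1 : Summable fun n => (h n).re ^ 2 :=
      Summable.of_nonneg_of_le (fun n => sq_nonneg _) (fun n => by
        rw [← Complex.normSq_eq_norm_sq, Complex.normSq_apply]
        nlinarith [mul_self_nonneg (h n).im]) hsq
    have s2 : Summable fun n => (h n).im ^ 2 :=
      Summable.of_nonneg_of_le (fun n => sq_nonneg _) (fun n => by
        rw [← Complex.normSq_eq_norm_sq, Complex.normSq_apply]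
        nlinarith [mul_self_nonneg (h n).re]) hsq
    set x : E := vec2 _ s1 with hx
    set y : E := vec2 _ s2 with hy
    have hxy : h = fun p => (x p : ℂ) + Complex.I * (y p : ℂ) := by
      funext p
      change h p = ((h p).re : ℂ) + Complex.I * ((h p).im : ℂ)
      rw [mul_comm, Complex.re_add_im]
    rw [hxy] at heq
    obtain ⟨e1, e2⟩ := real_of x y (t j ^ 2) heq
    by_cases hx0 : x = 0
    · refine ⟨y, fun hy0 => h0 ?_, e2⟩
      rw [hxy, hx0, hy0]
      funext p
      simp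
    · exact ⟨x, hx0, e1⟩
  · intro μ hμ x hx hxe
    obtain ⟨m, hm⟩ := ne_of x hx
    obtain ⟨j, hj⟩ := S.only (μ : ℂ) (fun p => (x p : ℂ) + Complex.I * (((0 : E) p : ℝ) : ℂ))
      (Complex.ofReal_ne_zero.2 hμ) (fun h => hm (by simpa using congrFun h m)) (sq_of_E x 0)
      (of_real x μ hxe)
    exact ⟨j, Complex.ofReal_injective hj⟩
  · intro j x y hx hxe hye
    obtain ⟨m, hm⟩ := ne_of x hx
    obtain ⟨c, hc⟩ := S.simple j (fun p => (x p : ℂ) + Complex.I * (((0 : E) p : ℝ) : ℂ))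
      (fun p => (y p : ℂ) + Complex.I * (((0 : E) p : ℝ) : ℂ))
      (fun h => hm (by simpa using congrFun h m)) (sq_of_E x 0) (sq_of_E y 0)
      (of_real x _ hxe) (of_real y _ hye)
    have h1 : ∀ n, ((y n : ℝ) : ℂ) = c * ((x n : ℝ) : ℂ) := fun n => by
      have := congrFun hc n
      simpa using this
    refine ⟨y m / x m, lp.ext (funext fun n => ?_)⟩
    rw [lp.coeFn_smul, Pi.smul_apply, smul_eq_mul]
    have hm' : ((x m : ℝ) : ℂ) ≠ 0 := Complex.ofReal_ne_zero.2 hm
    have h2 : c = ((y m / x m : ℝ) : ℂ) := by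
      rw [Complex.ofReal_div, eq_div_iff hm', ← h1 m]
    have h3 := h1 n
    rw [h2, ← Complex.ofReal_mul] at h3
    exact Complex.ofReal_injective h3

section
variable {a : ℕ → ℝ} (Q : Sq a)
include Q

omit Q in
lemma hasSum_cplx {f : ℕ → ℝ} {x y : E} {v w : ℝ} (h1 : HasSum (fun p => f p * x p) v)
    (h2 : HasSum (fun p => f p * y p) w) :
    HasSum (fun p => (f p : ℂ) * (starRingEnd ℂ) ((x p : ℂ) + Complex.I * (y p : ℂ)))
      ((v : ℂ) - Complex.I * (w : ℂ)) := by
  have h3 := Complex.ofRealCLM.hasSum h1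
  have h4 := Complex.ofRealCLM.hasSum h2
  have h5 := h3.sub (h4.mul_left Complex.I)
  refine hcongrC h5 fun p => ?_
  simp only [Complex.ofRealCLM_apply, map_add, map_mul, Complex.conj_ofReal,
    Complex.conj_I]
  push_cast
  ring

lemma Sq.actsH : Acts (Hu fun n => (a n : ℂ)) (Op (kH a)) := by
  intro x y n
  exact (hasSum_cplx (Q.H_apply x n) (Q.H_apply y n)).tsum_eq

lemma Sq.actsK : Acts (Ku fun n => (a n : ℂ)) (Op (kK a)) := by
  intro x y n
  have h1 := hasSum_cplx (Q.K_apply x n) (Q.K_apply y n)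
  unfold Ku Hu
  refine HasSum.tsum_eq ?_
  rw [← hasSum_nat_add_iff' 1]
  have e : (((Op (kK a)) x n : ℝ) : ℂ) - Complex.I * (((Op (kK a)) y n : ℝ) : ℂ) -
      ∑ i ∈ Finset.range 1, ((a (n + i) : ℝ) : ℂ) * (starRingEnd ℂ)
        (Sh (fun p => (x p : ℂ) + Complex.I * (y p : ℂ)) i) =
      (((Op (kK a)) x n : ℝ) : ℂ) - Complex.I * (((Op (kK a)) y n : ℝ) : ℂ) := by
    simp [Sh]
  rw [e]
  exact hcongrC h1 fun p => by
    simp only [Sh]
    rw [← add_assoc]

end

/-- the zero-angle point of a torus with `D = ∞` is not of class `C¹` -/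
theorem main (s : ℕ → ℝ) (hs : StrictAnti s) (hpos : ∀ r, 0 < s r)
    (u : ℕ → ℂ) (hu : InTorus s u) (ha : HasAngles s (fun _ => 0) u) (hC : IsC1 u) :
    Summable fun j => s (2 * j) * s (2 * j + 1) / (s (2 * j) - s (2 * j + 1)) := by
  -- the finite problems
  have hFi : ∀ N, Fi (fun j : Fin N => s (2 * j)) (fun k : Fin N => s (2 * k + 1)) := by
    intro N
    refine ⟨fun k => hpos _, fun j k h => hs ?_, fun j k h => hs ?_⟩
    · have : (j : ℕ) ≤ k := h
      omega
    · have : (j : ℕ) < k := h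
      omega
  choose c hc1 hc2 hc3 using fun N => fin_main (hFi N)
  have hc0 : ∀ N n, 0 ≤ c N n := by
    intro N n
    have hx : ∀ m : ℕ, ∀ g : ℕ → ℝ, ∑ n ∈ Finset.range (m + 1), ∑ p ∈ Finset.range (m + 1),
        g (n + p) * ((if n = m then (1 : ℝ) else 0) * (if p = m then (1 : ℝ) else 0)) =
        g (m + m) := by
      intro m g
      rw [Finset.sum_eq_single m, Finset.sum_eq_single m]
      · simp
      · intro p _ hp; simp [hp]
      · intro h; exact absurd (Finset.mem_range.2 (Nat.lt_succ_self m)) h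
      · intro n _ hn
        exact Finset.sum_eq_zero fun p _ => by simp [hn]
      · intro h; exact absurd (Finset.mem_range.2 (Nat.lt_succ_self m)) h
    rcases Nat.even_or_odd' n with ⟨m, hm | hm⟩
    · have h1 := hc1 N (m + 1) fun n => if n = m then 1 else 0
      rw [hx m] at h1
      rw [hm, two_mul]; exact h1
    · have h1 := hc2 N (m + 1) fun n => if n = m then 1 else 0
      have h2 := hx m fun q => c N (q + 1)
      rw [h2] at h1
      rw [hm, two_mul]; exact h1
  have hCN : ∀ N z, CN s (fun _ => 0) N z = C0 (fun j : Fin N => s (2 * j))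
      (fun k : Fin N => s (2 * k + 1)) z := by
    intro N z
    ext j k
    simp [CN, C0]
  -- summability of the limit series
  have hu0 : ∀ x : ℝ, 0 < x → x < 1 → Summable fun n => ‖u n‖ * x ^ n := by
    intro x hx hx1
    have h1 := hu.half
    have h2 : ∀ n, ‖u n‖ ≤ 1 + ((n : ℝ) + 1) * ‖u n‖ ^ 2 := by
      intro n
      have : (0 : ℝ) ≤ n := Nat.cast_nonneg n
      nlinarith [sq_nonneg (‖u n‖ - 1), norm_nonneg (u n), mul_nonneg this (sq_nonneg ‖u n‖)]
    have h3 : Summable fun n => x ^ n := summable_geometric_of_lt_one hx.le hx1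
    refine Summable.of_nonneg_of_le (fun n => by positivity) (fun n => ?_) (h3.add h1)
    have h4 : x ^ n ≤ 1 := pow_le_one₀ hx.le hx1.le
    have h5 : 0 ≤ ((n : ℝ) + 1) * ‖u n‖ ^ 2 := by positivity
    have h6 : 0 ≤ x ^ n := by positivity
    calc ‖u n‖ * x ^ n ≤ (1 + ((n : ℝ) + 1) * ‖u n‖ ^ 2) * x ^ n :=
          mul_le_mul_of_nonneg_right (h2 n) h6
      _ = x ^ n + ((n : ℝ) + 1) * ‖u n‖ ^ 2 * x ^ n := by ring
      _ ≤ _ := add_le_add le_rfl (mul_le_of_le_one_right h5 h4)
  have hlim := coeff_lim hc0 (u := u)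
    (fun N x hx hx1 => by
      have h1 := hc3 N (x : ℂ) (by rw [Complex.norm_real, Real.norm_of_nonneg hx.le]; exact hx1)
      have h2 := Complex.reCLM.hasSum h1
      refine h2.summable.congr fun n => ?_
      simp only [Complex.reCLM_apply]
      rw [← Complex.ofReal_pow, ← Complex.ofReal_mul, Complex.ofReal_re])
    hu0
    (fun x hx hx1 => by
      have hx2 : ‖(x : ℂ)‖ < 1 := by rw [Complex.norm_real, Real.norm_of_nonneg hx.le]; exact hx1
      refine (ha (x : ℂ) hx2).congr fun N => ?_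
      rw [hCN, ← (hc3 N (x : ℂ) hx2).tsum_eq, Complex.ofReal_tsum]
      exact tsum_congr fun n => by push_cast; rfl)
  -- real nonnegative coefficients
  set a : ℕ → ℝ := fun n => (u n).re with hadef
  have hlimr : ∀ n, Tendsto (fun N => c N n) atTop (𝓝 (a n)) := fun n => by
    have := (Complex.continuous_re.tendsto _).comp (hlim n)
    exact this.congr fun N => by simp
  have hua : u = fun n => (a n : ℂ) := by
    funext n
    exact tendsto_nhds_unique (hlim n) ((Complex.continuous_ofReal.tendsto _).comp (hlimr n))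
  have ha0 : ∀ n, 0 ≤ a n := fun n => ge_of_tendsto (hlimr n) (Eventually.of_forall fun N => hc0 N n)
  rw [hua] at hC hu
  have Q : Sq a := ⟨ha0, moment ha0 hC⟩
  have fH : ∀ x, 0 ≤ ⟪Op (kH a) x, x⟫ := by
    refine form_nonneg Q.sumH fun L x => ?_
    have h1 : Tendsto (fun N => ∑ n ∈ Finset.range L, ∑ p ∈ Finset.range L,
        c N (n + p) * (x n * x p)) atTop (𝓝 (∑ n ∈ Finset.range L, ∑ p ∈ Finset.range L,
          kH a (n, p) * (x n * x p))) :=
      tendsto_finsetSum _ fun n _ => tendsto_finsetSum _ fun p _ => (hlimr _).mul_const _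
    exact ge_of_tendsto h1 (Eventually.of_forall fun N => hc1 N L x)
  have fK : ∀ x, 0 ≤ ⟪Op (kK a) x, x⟫ := by
    refine form_nonneg Q.sumK fun L x => ?_
    have h1 : Tendsto (fun N => ∑ n ∈ Finset.range L, ∑ p ∈ Finset.range L,
        c N (n + p + 1) * (x n * x p)) atTop (𝓝 (∑ n ∈ Finset.range L, ∑ p ∈ Finset.range L,
          kK a (n, p) * (x n * x p))) :=
      tendsto_finsetSum _ fun n _ => tendsto_finsetSum _ fun p _ => (hlimr _).mul_const _
    exact ge_of_tendsto h1 (Eventually.of_forall fun N => hc2 N L x)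
  obtain ⟨e, EH⟩ := eig_of_spec Q.actsH (Op_compact Q.sumH) Q.symH fH (fun j => hpos _)
    (fun i j h => by have := hs.injective h; omega) hu.specH
  obtain ⟨f, EK⟩ := eig_of_spec Q.actsK (Op_compact Q.sumK) Q.symK fK (fun j => hpos _)
    (fun i j h => by have := hs.injective h; omega) hu.specK
  exact Q.summable_D EH EK (fun j => hpos _) (fun j => hs (by omega)) (fun j => hs (by omega))

end Pool.Agent.Q82.HK
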