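import Mathlib

/-!
Numeric part of the zero-angle Hankel problem: deflation of two families of rational sums with
interlacing zeros and poles, and the lower bound for the squared sums of the eigenvectors.
-/

set_option autoImplicit false
open Filter Topology

namespace Pool.Agent.Q82.HK

lemma summ_mul {g h : ℕ → ℝ} (hg : Summable g) {c : ℝ} (hh : Tendsto h atTop (𝓝 c)) :
    Summable (fun l => g l * h l) := by
  have h1 : ∀ᶠ l in atTop, ‖h l‖ < ‖c‖ + 1 :=
    hh.norm.eventually_lt_const (lt_add_one _)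
  refine Summable.of_norm_bounded_eventually_nat (g := fun l => (‖c‖ + 1) * ‖g l‖)
    (hg.norm.mul_left _) ?_
  filter_upwards [h1] with l hl
  rw [norm_mul, mul_comm]
  exact mul_le_mul_of_nonneg_right hl.le (norm_nonneg _)

/-- weights after deflation -/
noncomputable def gw (r τ : ℕ → ℝ) (g : ℕ → ℝ) (J : Finset ℕ) (l : ℕ) : ℝ :=
  g l * ∏ i ∈ J, (τ l - τ i) / (τ l - r i)

/-- weight at zero after deflation -/
noncomputable def nw (r τ : ℕ → ℝ) (ν : ℝ) (J : Finset ℕ) : ℝ := ν * ∏ i ∈ J, τ i / r i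

lemma summ_div {g τ : ℕ → ℝ} (hg : Summable g) (hτ : Tendsto τ atTop (𝓝 0)) {x : ℝ}
    (hx : x ≠ 0) : Summable (fun l => g l / (x - τ l)) := by
  have h1 : Tendsto (fun l => (x - τ l)⁻¹) atTop (𝓝 (x - 0)⁻¹) :=
    (tendsto_const_nhds.sub hτ).inv₀ (by simpa using hx)
  simpa [div_eq_mul_inv] using summ_mul hg h1

lemma summ_div' {g τ : ℕ → ℝ} (hg : Summable g) (hτ : Tendsto τ atTop (𝓝 0)) {x : ℝ}
    (hx : x ≠ 0) : Summable (fun l => g l / (x + τ l)) := by
  have h1 : Tendsto (fun l => (x + τ l)⁻¹) atTop (𝓝 (x + 0)⁻¹) :=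
    (tendsto_const_nhds.add hτ).inv₀ (by simpa using hx)
  simpa [div_eq_mul_inv] using summ_mul hg h1

lemma gdefl {r τ g : ℕ → ℝ} {ν : ℝ} (hτ : Tendsto τ atTop (𝓝 0)) (hne : ∀ j l, r j ≠ τ l)
    (hr : ∀ j, r j ≠ 0) (hinj : Function.Injective r) (hg : Summable g)
    (hG : ∀ j, ∑' l, g l / (r j - τ l) + ν / r j = 1) (J : Finset ℕ) :
    Summable (gw r τ g J) ∧
      (∀ j, j ∉ J → ∑' l, gw r τ g J l / (r j - τ l) + nw r τ ν J / r j = 1) ∧
      ∑' l, gw r τ g J l + nw r τ ν J = ∑' l, g l + ν - ∑ i ∈ J, (r i - τ i) := by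
  classical
  induction J using Finset.induction_on with
  | empty => 
    have e : gw r τ g ∅ = g := by funext l; simp [gw]
    exact ⟨by rw [e]; exact hg, fun j _ => by simpa [gw, nw] using hG j, by simp [gw, nw]⟩
  | insert i J hi ih =>
    obtain ⟨h1, h2, h3⟩ := ih
    set G := gw r τ g J with hGd
    set N := nw r τ ν J with hNd
    have e1 : ∀ l, gw r τ g (insert i J) l = G l - (r i - τ i) * (G l / (r i - τ l)) := by
      intro l
      have h4 : r i - τ l ≠ 0 := sub_ne_zero.2 (hne i l)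
      have h5 : τ l - r i ≠ 0 := sub_ne_zero.2 (hne i l).symm
      rw [hGd]
      simp only [gw]
      rw [Finset.prod_insert hi]
      set P := ∏ i ∈ J, (τ l - τ i) / (τ l - r i)
      field_simp
      ring
    have e2 : nw r τ ν (insert i J) = N - (r i - τ i) * (N / r i) := by
      rw [hNd]
      simp only [nw]
      rw [Finset.prod_insert hi]
      have := hr i
      set P := ∏ i ∈ J, τ i / r i
      field_simp
      ring
    have s1 : Summable (fun l => G l / (r i - τ l)) := summ_div h1 hτ (hr i)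
    have A1 := h2 i hi
    refine ⟨?_, ?_, ?_⟩
    · have : gw r τ g (insert i J) = fun l => G l - (r i - τ i) * (G l / (r i - τ l)) :=
        funext e1
      rw [this]
      exact h1.sub (s1.mul_left _)
    · intro j hj
      rw [Finset.mem_insert, not_or] at hj
      have hji : r i ≠ r j := fun h => hj.1 (hinj h).symm
      have s2 : Summable (fun l => G l / (r j - τ l)) := summ_div h1 hτ (hr j)
      have A2 := h2 j hj.2
      have e3 : ∀ l, gw r τ g (insert i J) l / (r j - τ l) =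
          G l / (r j - τ l) - (r i - τ i) / (r i - r j) *
            (G l / (r j - τ l) - G l / (r i - τ l)) := by
        intro l
        rw [e1]
        have h4 : r i - τ l ≠ 0 := sub_ne_zero.2 (hne i l)
        have h5 : r j - τ l ≠ 0 := sub_ne_zero.2 (hne j l)
        have h6 : r i - r j ≠ 0 := sub_ne_zero.2 hji
        field_simp
        ring
      simp_rw [e3]
      rw [(s2).tsum_sub ((s2.sub s1).mul_left _), tsum_mul_left, (s2).tsum_sub s1, e2]
      have B1 : ∑' l, G l / (r i - τ l) = 1 - N / r i := by linarith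
      have B2 : ∑' l, G l / (r j - τ l) = 1 - N / r j := by linarith
      rw [B1, B2]
      have h6 : r i - r j ≠ 0 := sub_ne_zero.2 hji
      have h7 := hr i
      have h8 := hr j
      field_simp
      ring
    · rw [Finset.sum_insert hi]
      simp_rw [e1]
      rw [h1.tsum_sub (s1.mul_left _), tsum_mul_left, e2]
      have B1 : ∑' l, G l / (r i - τ l) = 1 - N / r i := by linarith
      rw [B1]
      linear_combination h3

/-- coefficients of the first family after deflation -/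
noncomputable def dw (ρ σ d : ℕ → ℝ) (J : Finset ℕ) (l : ℕ) : ℝ :=
  d l * ∏ i ∈ J, (σ l - σ i) / (σ l + ρ i)

/-- the function `x - T + ∑ d_l / (x + σ_l)` after deflation -/
noncomputable def Xf (ρ σ d : ℕ → ℝ) (T : ℝ) (J : Finset ℕ) (x : ℝ) : ℝ :=
  x - (T - ∑ i ∈ J, (ρ i + σ i)) + ∑' l, dw ρ σ d J l / (x + σ l)

lemma xdefl {ρ σ d : ℕ → ℝ} {T : ℝ} (hσ0 : Tendsto σ atTop (𝓝 0)) (hρ : ∀ j, 0 < ρ j)
    (hσ : ∀ j, 0 < σ j) (hinj : Function.Injective ρ) (hd : Summable d)
    (hW : ∀ j, Xf ρ σ d T ∅ (ρ j) = 0) (J : Finset ℕ) :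
    Summable (dw ρ σ d J) ∧ (∀ j, j ∉ J → Xf ρ σ d T J (ρ j) = 0) ∧
      ∀ x, 0 < x → Xf ρ σ d T J x * ∏ i ∈ J, (x - ρ i) =
        Xf ρ σ d T ∅ x * ∏ i ∈ J, (x + σ i) := by
  classical
  induction J using Finset.induction_on with
  | empty =>
    have e : dw ρ σ d ∅ = d := by funext l; simp [dw]
    exact ⟨by rw [e]; exact hd, fun j _ => hW j, fun x _ => by simp⟩
  | insert i J hi ih =>
    obtain ⟨h1, h2, h3⟩ := ih
    set D := dw ρ σ d J with hDd
    set T' := T - ∑ i ∈ J, (ρ i + σ i) with hT'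
    have hT2 : T - ∑ i ∈ insert i J, (ρ i + σ i) = T' - (ρ i + σ i) := by
      rw [Finset.sum_insert hi, hT']; ring
    have e1 : ∀ l, dw ρ σ d (insert i J) l = D l * ((σ l - σ i) / (σ l + ρ i)) := by
      intro l
      rw [hDd]
      simp only [dw]
      rw [Finset.prod_insert hi]
      ring
    have e4 : ∀ l, dw ρ σ d (insert i J) l = D l - (ρ i + σ i) * (D l / (ρ i + σ l)) := by
      intro l
      rw [e1]
      have h4 : ρ i + σ l ≠ 0 := (add_pos (hρ i) (hσ l)).ne'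
      have h5 : σ l + ρ i ≠ 0 := by rw [add_comm]; exact h4
      field_simp
      ring
    have s1 : Summable (fun l => D l / (ρ i + σ l)) := summ_div' h1 hσ0 (hρ i).ne'
    have s0 : Summable (dw ρ σ d (insert i J)) := by
      have : dw ρ σ d (insert i J) = fun l => D l - (ρ i + σ i) * (D l / (ρ i + σ l)) :=
        funext e4
      rw [this]
      exact h1.sub (s1.mul_left _)
    have A1 : ρ i - T' + ∑' l, D l / (ρ i + σ l) = 0 := h2 i hi
    have key : ∀ x, 0 < x → Xf ρ σ d T (insert i J) x * (x - ρ i) =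
        Xf ρ σ d T J x * (x + σ i) := by
      intro x hx
      have s2 : Summable (fun l => D l / (x + σ l)) := summ_div' h1 hσ0 hx.ne'
      have e3 : ∀ l, dw ρ σ d (insert i J) l / (x + σ l) * (x - ρ i) =
          (x + σ i) * (D l / (x + σ l)) - (ρ i + σ i) * (D l / (ρ i + σ l)) := by
        intro l
        rw [e4]
        have h4 : ρ i + σ l ≠ 0 := (add_pos (hρ i) (hσ l)).ne'
        have h5 : x + σ l ≠ 0 := (add_pos hx (hσ l)).ne'
        field_simp
        ring
      unfold Xf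
      rw [hT2, add_mul, ← tsum_mul_right]
      simp_rw [e3]
      rw [(s2.mul_left _).tsum_sub (s1.mul_left _), tsum_mul_left, tsum_mul_left]
      have B1 : ∑' l, D l / (ρ i + σ l) = T' - ρ i := by linarith
      rw [B1, ← hDd, ← hT']
      ring
    refine ⟨s0, ?_, ?_⟩
    · intro j hj
      rw [Finset.mem_insert, not_or] at hj
      have hji : ρ j ≠ ρ i := fun h => hj.1 (hinj h)
      have := key (ρ j) (hρ j)
      rw [h2 j hj.2, zero_mul] at this
      exact (mul_eq_zero.1 this).resolve_right (sub_ne_zero.2 hji)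
    · intro x hx
      rw [Finset.prod_insert hi, Finset.prod_insert hi, ← mul_assoc, key x hx]
      linear_combination (x + σ i) * h3 x hx


/-- the numeric data -/
structure Num (ρ σ β b : ℕ → ℝ) (ν T : ℝ) : Prop where
  hσ : ∀ j, 0 < σ j
  h1 : ∀ j, σ j < ρ j
  h2 : ∀ j, ρ (j + 1) < σ j
  hν : 0 ≤ ν
  hβ : Summable (fun l => β l ^ 2)
  hm : HasSum (fun j => ρ j ^ 2 - σ j ^ 2) (∑' l, β l ^ 2 + ν)
  hG : ∀ j, ∑' l, β l ^ 2 / (ρ j ^ 2 - σ l ^ 2) + ν / ρ j ^ 2 = 1
  hd : Summable (fun l => β l * (σ l * b l))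
  hW : ∀ j, ∑' l, β l * (σ l * b l) / (ρ j + σ l) = T - ρ j
  hT : HasSum (fun j => ρ j + σ j) T
  hI : ∀ k, 2 * b k * (σ k - T + ∑' l, β l * (σ l * b l) / (σ k + σ l)) = - β k

section
variable {ρ σ β b : ℕ → ℝ} {ν T : ℝ} (N : Num ρ σ β b ν T)
include N

lemma Num.ρpos (j : ℕ) : 0 < ρ j := (N.hσ j).trans (N.h1 j)

lemma Num.σanti : StrictAnti σ := strictAnti_nat_of_succ_lt fun j => (N.h1 (j + 1)).trans (N.h2 j)

lemma Num.ρanti : StrictAnti ρ := strictAnti_nat_of_succ_lt fun j => (N.h2 j).trans (N.h1 j)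

lemma Num.σ_lt_ρ {i j : ℕ} (h : i ≤ j) : σ j < ρ i :=
  (N.σanti.antitone h).trans_lt (N.h1 i)

lemma Num.ρ_lt_σ {i j : ℕ} (h : i < j) : ρ j < σ i :=
  (N.ρanti.antitone (Nat.succ_le_of_lt h)).trans_lt (N.h2 i)

lemma Num.σ0 : Tendsto σ atTop (𝓝 0) :=
  squeeze_zero (fun j => (N.hσ j).le) (fun j => le_add_of_nonneg_left (N.ρpos j).le)
    N.hT.summable.tendsto_atTop_zero

lemma Num.ne (j l : ℕ) : ρ j ≠ σ l := by
  rcases lt_or_ge l j with h | h
  · exact (N.ρ_lt_σ h).ne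
  · exact (N.σ_lt_ρ h).ne'

lemma Num.factor_nonneg (i l : ℕ) :
    0 ≤ (σ l ^ 2 - σ i ^ 2) / (σ l ^ 2 - ρ i ^ 2) := by
  rcases lt_trichotomy i l with h | h | h
  · apply div_nonneg_of_nonpos
    · nlinarith [N.σanti h, N.hσ i, N.hσ l]
    · nlinarith [N.σ_lt_ρ h.le, N.ρpos i, N.hσ l]
  · subst h; simp
  · apply div_nonneg
    · nlinarith [N.σanti h, N.hσ i, N.hσ l]
    · nlinarith [N.ρ_lt_σ h, N.ρpos i, N.hσ l]

lemma Num.lim_X (k : ℕ) :
    Tendsto (fun M => Xf ρ σ (fun l => β l * (σ l * b l)) T (Finset.range M) (σ k)) atTop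
      (𝓝 (σ k)) := by
  set d := fun l => β l * (σ l * b l) with hd
  have t1 : Tendsto (fun M => T - ∑ i ∈ Finset.range M, (ρ i + σ i)) atTop (𝓝 (T - T)) :=
    tendsto_const_nhds.sub N.hT.tendsto_sum_nat
  have t2 : Tendsto (fun M => ∑' l, dw ρ σ d (Finset.range M) l / (σ k + σ l)) atTop
      (𝓝 (∑' _ : ℕ, (0 : ℝ))) := by
    refine tendsto_tsum_of_dominated_convergence (bound := fun l => |d l| * (σ k)⁻¹)
      (N.hd.abs.mul_right _) ?_ ?_
    · intro l
      refine tendsto_const_nhds.congr' ?_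
      filter_upwards [eventually_gt_atTop l] with M hM
      have : dw ρ σ d (Finset.range M) l = 0 := by
        unfold dw
        rw [Finset.prod_eq_zero (Finset.mem_range.2 hM) (by simp), mul_zero]
      rw [this, zero_div]
    · refine Eventually.of_forall fun M l => ?_
      rw [Real.norm_eq_abs, abs_div, abs_of_pos (add_pos (N.hσ k) (N.hσ l)), div_eq_mul_inv]
      have e1 : |dw ρ σ d (Finset.range M) l| ≤ |d l| := by
        unfold dw
        rw [abs_mul, Finset.abs_prod]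
        refine mul_le_of_le_one_right (abs_nonneg _) (Finset.prod_le_one (fun _ _ => abs_nonneg _)
          fun i _ => ?_)
        rw [abs_div, abs_of_pos (add_pos (N.hσ l) (N.ρpos i)),
          div_le_one (add_pos (N.hσ l) (N.ρpos i)), abs_le]
        constructor <;> linarith [N.hσ l, N.hσ i, N.h1 i, N.ρpos i]
      exact mul_le_mul e1 (inv_anti₀ (N.hσ k) (by linarith [N.hσ l]))
        (inv_nonneg.2 (add_pos (N.hσ k) (N.hσ l)).le) (abs_nonneg _)
  have t3 := (tendsto_const_nhds (x := σ k)).sub t1 |>.add t2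
  simpa [Xf] using t3

lemma Num.lower (k M : ℕ) (hM : k < M) :
    (ρ k ^ 2 - σ k ^ 2) -
      ((∑' l, β l ^ 2 + ν) - ∑ i ∈ Finset.range M, (ρ i ^ 2 - σ i ^ 2)) /
        ((σ k ^ 2 - σ (k + 1) ^ 2) / (ρ k ^ 2 - σ (k + 1) ^ 2)) ≤
    gw (fun i => ρ i ^ 2) (fun i => σ i ^ 2) (fun l => β l ^ 2) ((Finset.range M).erase k) k := by
  classical
  set r : ℕ → ℝ := fun i => ρ i ^ 2 with hr
  set τ : ℕ → ℝ := fun i => σ i ^ 2 with hτ
  set g : ℕ → ℝ := fun l => β l ^ 2 with hg
  have hτ0 : Tendsto τ atTop (𝓝 0) := by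
    have := N.σ0.pow 2
    simpa using this
  have hrpos : ∀ j, 0 < r j := fun j => pow_pos (N.ρpos j) 2
  have hτpos : ∀ j, 0 < τ j := fun j => pow_pos (N.hσ j) 2
  have hne : ∀ j l, r j ≠ τ l := fun j l h =>
    N.ne j l ((pow_left_inj₀ (N.ρpos j).le (N.hσ l).le two_ne_zero).1 h)
  have hinj : Function.Injective r := fun i j h =>
    N.ρanti.injective ((pow_left_inj₀ (N.ρpos i).le (N.ρpos j).le two_ne_zero).1 h)
  obtain ⟨h1, h2, h3⟩ := gdefl hτ0 hne (fun j => (hrpos j).ne') hinj N.hβ N.hG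
    ((Finset.range M).erase k)
  have h2k := h2 k (Finset.notMem_erase k _)
  set G := gw r τ g ((Finset.range M).erase k) with hG
  set W := nw r τ ν ((Finset.range M).erase k) with hW
  have hW0 : 0 ≤ W := mul_nonneg N.hν (Finset.prod_nonneg fun i _ =>
    div_nonneg (hτpos i).le (hrpos i).le)
  have hG0 : ∀ l, 0 ≤ G l := fun l => mul_nonneg (sq_nonneg _) (Finset.prod_nonneg fun i _ =>
    N.factor_nonneg i l)
  have hGl : ∀ l, l < k → G l = 0 := fun l hl => by
    rw [hG]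
    unfold gw
    rw [Finset.prod_eq_zero (i := l) (Finset.mem_erase.2 ⟨hl.ne, Finset.mem_range.2 (hl.trans hM)⟩)
      (by simp), mul_zero]
  have hsum : ∑ i ∈ (Finset.range M).erase k, (r i - τ i) =
      ∑ i ∈ Finset.range M, (r i - τ i) - (r k - τ k) := by
    rw [← Finset.add_sum_erase _ _ (Finset.mem_range.2 hM)]; ring
  rw [hsum] at h3
  have a1 : 0 < τ k - τ (k + 1) := by
    have := N.σanti (Nat.lt_succ_self k)
    simp only [hτ]
    nlinarith [N.hσ k, N.hσ (k + 1)]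
  have a2 : 0 < r k - τ k := by
    have := N.h1 k
    simp only [hτ, hr]
    nlinarith [N.hσ k]
  have a3 : 0 < r k - τ (k + 1) := by linarith
  set κ := (τ k - τ (k + 1)) / (r k - τ (k + 1)) with hκ
  have hκ0 : 0 < κ := div_pos a1 a3
  have mono : ∀ t, t ≤ τ (k + 1) → κ ≤ 1 - (r k - τ k) / (r k - t) := by
    intro t ht
    have a4 : 0 < r k - t := by linarith
    rw [one_sub_div a4.ne', hκ, div_le_div_iff₀ a3 a4]
    nlinarith [mul_nonneg (sub_nonneg.2 ht) a2.le]
  have s1 : Summable (fun l => G l / (r k - τ l)) := summ_div h1 hτ0 (hrpos k).ne'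
  have s2 : Summable (fun l => if l = k then G l else 0) :=
    summable_of_ne_finset_zero (s := {k}) fun l hl => by
      rw [Finset.mem_singleton] at hl
      rw [if_neg hl]
  have e2 : ∑' l, (if l = k then G l else 0) = G k := by
    rw [tsum_eq_single k (fun l hl => if_neg hl), if_pos rfl]
  have nn : 0 ≤ ∑' l, (G l - (r k - τ k) * (G l / (r k - τ l)) -
      κ * (G l - if l = k then G l else 0)) := by
    refine tsum_nonneg fun l => ?_
    rcases lt_trichotomy l k with h | h | h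
    · rw [hGl l h]; simp
    · subst h
      rw [if_pos rfl, sub_self, mul_zero, sub_zero, mul_div_cancel₀ _ a2.ne', sub_self]
    · rw [if_neg h.ne', sub_zero]
      have := mul_le_mul_of_nonneg_right (mono (τ l) ?_) (hG0 l)
      · have e : G l - (r k - τ k) * (G l / (r k - τ l)) =
            (1 - (r k - τ k) / (r k - τ l)) * G l := by ring
        rw [e]; linarith
      · simp only [hτ]
        exact pow_le_pow_left₀ (N.hσ l).le (N.σanti.antitone h) 2
  rw [(h1.sub (s1.mul_left _)).tsum_sub ((h1.sub s2).mul_left _), h1.tsum_sub (s1.mul_left _),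
    tsum_mul_left, tsum_mul_left, h1.tsum_sub s2, e2] at nn
  have B1 : ∑' l, G l / (r k - τ l) = 1 - W / r k := by linarith
  rw [B1] at nn
  set A := ∑' l, G l with hA
  set Q := (∑' l, g l + ν) - ∑ i ∈ Finset.range M, (r i - τ i) with hQ
  have hQ0 : 0 ≤ Q := by
    rw [hQ, sub_nonneg]
    exact sum_le_hasSum _ (fun i _ => by
      have := N.h1 i
      simp only [hτ, hr]
      nlinarith [N.hσ i, N.ρpos i]) N.hm
  have hAQ : A = (r k - τ k) + Q - W := by rw [hQ]; linarith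
  have hκ2 : κ * W ≤ W - (r k - τ k) * (W / r k) := by
    have := mul_le_mul_of_nonneg_right (mono 0 (hτpos _).le) hW0
    rw [sub_zero] at this
    have e : W - (r k - τ k) * (W / r k) = (1 - (r k - τ k) / r k) * W := by ring
    rw [e]; exact this
  have fin : κ * ((r k - τ k) - G k) ≤ Q := by
    rw [hAQ] at nn
    nlinarith [mul_nonneg hκ0.le hQ0]
  have : (r k - τ k) - G k ≤ Q / κ := by
    rw [le_div_iff₀ hκ0]; linarith
  linarith

lemma Num.upper (k M : ℕ) (hM : k < M) :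
    gw (fun i => ρ i ^ 2) (fun i => σ i ^ 2) (fun l => β l ^ 2) ((Finset.range M).erase k) k ≤
    b k ^ 2 * (Xf ρ σ (fun l => β l * (σ l * b l)) T (Finset.range M) (σ k)) ^ 2 *
      ((ρ k - σ k) ^ 2 / σ k ^ 2) := by
  classical
  set d := fun l => β l * (σ l * b l) with hd
  have hW : ∀ j, Xf ρ σ d T ∅ (ρ j) = 0 := by
    intro j
    have := N.hW j
    simp only [Xf, dw, Finset.prod_empty, mul_one, Finset.sum_empty, sub_zero]
    rw [this]; ring
  obtain ⟨h1, h2, h3⟩ := xdefl N.σ0 N.ρpos N.hσ N.ρanti.injective N.hd hW (Finset.range M)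
  have h4 := h3 (σ k) (N.hσ k)
  set X := Xf ρ σ d T (Finset.range M) (σ k) with hX
  have hI : 2 * b k * Xf ρ σ d T ∅ (σ k) = - β k := by
    have := N.hI k
    simp only [Xf, dw, Finset.prod_empty, mul_one, Finset.sum_empty, sub_zero]
    exact this
  set X0 := Xf ρ σ d T ∅ (σ k) with hX0
  have hk : k ∈ Finset.range M := Finset.mem_range.2 hM
  rw [← Finset.mul_prod_erase _ _ hk, ← Finset.mul_prod_erase _ _ hk] at h4
  set P := ∏ i ∈ (Finset.range M).erase k, (σ k - ρ i) with hP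
  set R := ∏ i ∈ (Finset.range M).erase k, (σ k + σ i) with hR
  have hR0 : 0 < R := Finset.prod_pos fun i _ => add_pos (N.hσ k) (N.hσ i)
  have e1 : gw (fun i => ρ i ^ 2) (fun i => σ i ^ 2) (fun l => β l ^ 2)
      ((Finset.range M).erase k) k = b k ^ 2 * X ^ 2 * ((ρ k - σ k) ^ 2 / σ k ^ 2) *
      ∏ i ∈ (Finset.range M).erase k,
        ((σ k - ρ i) ^ 2 / (σ k + σ i) ^ 2 * ((σ k ^ 2 - σ i ^ 2) / (σ k ^ 2 - ρ i ^ 2))) := by
    have e2 : ∏ i ∈ (Finset.range M).erase k, ((σ k - ρ i) ^ 2 / (σ k + σ i) ^ 2) =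
        P ^ 2 / R ^ 2 := by
      rw [Finset.prod_div_distrib, Finset.prod_pow, Finset.prod_pow]
    unfold gw
    rw [Finset.prod_mul_distrib, e2, ← mul_assoc]
    congr 1
    show β k ^ 2 = _
    have h5 : β k ^ 2 = 4 * b k ^ 2 * X0 ^ 2 := by
      have : β k = - (2 * b k * X0) := by linarith
      rw [this]; ring
    have h6 : X0 = X * ((σ k - ρ k) * P) / ((σ k + σ k) * R) := by
      rw [eq_div_iff (mul_pos (add_pos (N.hσ k) (N.hσ k)) hR0).ne', h4]
    rw [h5, h6]
    have := (N.hσ k).ne'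
    have := hR0.ne'
    field_simp
    ring
  rw [e1]
  refine mul_le_of_le_one_right (by positivity) (Finset.prod_le_one (fun i _ => ?_) fun i _ => ?_)
  · exact mul_nonneg (by positivity) (N.factor_nonneg i k)
  · have p1 : 0 < σ k + σ i := add_pos (N.hσ k) (N.hσ i)
    have p2 : 0 < σ k + ρ i := add_pos (N.hσ k) (N.ρpos i)
    have p3 : σ k - ρ i ≠ 0 := sub_ne_zero.2 (N.ne i k).symm
    have e : (σ k - ρ i) ^ 2 / (σ k + σ i) ^ 2 * ((σ k ^ 2 - σ i ^ 2) / (σ k ^ 2 - ρ i ^ 2)) =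
        ((σ k - ρ i) / (σ k + ρ i)) * ((σ k - σ i) / (σ k + σ i)) := by
      have p4 : σ k ^ 2 - ρ i ^ 2 ≠ 0 := by
        have : σ k ^ 2 - ρ i ^ 2 = (σ k - ρ i) * (σ k + ρ i) := by ring
        rw [this]; exact mul_ne_zero p3 p2.ne'
      have := p1.ne'
      have := p2.ne'
      field_simp
      ring
    rw [e]
    refine (le_abs_self _).trans ?_
    rw [abs_mul]
    refine mul_le_one₀ ?_ (abs_nonneg _) ?_
    · rw [abs_div, abs_of_pos p2, div_le_one p2, abs_le]
      constructor <;> linarith [N.hσ k, N.ρpos i]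
    · rw [abs_div, abs_of_pos p1, div_le_one p1, abs_le]
      constructor <;> linarith [N.hσ k, N.hσ i]

/-- the key lower bound -/
theorem Num.bound (k : ℕ) : (ρ k + σ k) / (ρ k - σ k) ≤ b k ^ 2 := by
  have a2 : 0 < ρ k - σ k := sub_pos.2 (N.h1 k)
  set κ := (σ k ^ 2 - σ (k + 1) ^ 2) / (ρ k ^ 2 - σ (k + 1) ^ 2) with hκ
  have t1 : Tendsto (fun M => (ρ k ^ 2 - σ k ^ 2) -
      ((∑' l, β l ^ 2 + ν) - ∑ i ∈ Finset.range M, (ρ i ^ 2 - σ i ^ 2)) / κ) atTop
      (𝓝 ((ρ k ^ 2 - σ k ^ 2) - ((∑' l, β l ^ 2 + ν) - (∑' l, β l ^ 2 + ν)) / κ)) :=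
    tendsto_const_nhds.sub ((tendsto_const_nhds.sub N.hm.tendsto_sum_nat).div_const _)
  rw [sub_self, zero_div, sub_zero] at t1
  have t2 : Tendsto (fun M => b k ^ 2 *
      (Xf ρ σ (fun l => β l * (σ l * b l)) T (Finset.range M) (σ k)) ^ 2 *
      ((ρ k - σ k) ^ 2 / σ k ^ 2)) atTop
      (𝓝 (b k ^ 2 * (σ k) ^ 2 * ((ρ k - σ k) ^ 2 / σ k ^ 2))) :=
    (((N.lim_X k).pow 2).const_mul _).mul_const _
  have le : ρ k ^ 2 - σ k ^ 2 ≤ b k ^ 2 * (σ k) ^ 2 * ((ρ k - σ k) ^ 2 / σ k ^ 2) := by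
    refine le_of_tendsto_of_tendsto t1 t2 ?_
    filter_upwards [eventually_gt_atTop k] with M hM
    exact (N.lower k M hM).trans (N.upper k M hM)
  have e : b k ^ 2 * (σ k) ^ 2 * ((ρ k - σ k) ^ 2 / σ k ^ 2) = b k ^ 2 * (ρ k - σ k) ^ 2 := by
    have := (N.hσ k).ne'
    field_simp
  rw [e] at le
  rw [div_le_iff₀ a2]
  have : (ρ k + σ k) * (ρ k - σ k) ≤ b k ^ 2 * (ρ k - σ k) * (ρ k - σ k) := by nlinarith
  exact le_of_mul_le_mul_right this a2

end

end Pool.Agent.Q82.HK
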