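import Pool.Agent.Q82.HKOp
import Pool.Agent.Q82.HKNum

/-!
The two Hankel operators of a nonnegative sequence with summable first moment: all identities
needed for the numeric part.
-/

set_option autoImplicit false
open Filter Topology InnerProductSpace
open scoped RealInnerProductSpace ENNReal

namespace Pool.Agent.Q82.HK

/-- nonnegative sequence with finite first moment -/
structure Sq (a : ℕ → ℝ) : Prop where
  nn : ∀ n, 0 ≤ a n
  sm : Summable fun n : ℕ => (n : ℝ) * a n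

/-- kernel of `H` -/
def kH (a : ℕ → ℝ) (q : ℕ × ℕ) : ℝ := a (q.1 + q.2)

/-- kernel of `K` -/
def kK (a : ℕ → ℝ) (q : ℕ × ℕ) : ℝ := a (q.1 + q.2 + 1)

section
variable {a : ℕ → ℝ} (Q : Sq a)
include Q

lemma Sq.sum : Summable a := by
  rw [← summable_nat_add_iff 1]
  refine Summable.of_nonneg_of_le (fun n => Q.nn _) (fun n => ?_) ((summable_nat_add_iff 1).2 Q.sm)
  have : (1 : ℝ) ≤ ((n + 1 : ℕ) : ℝ) := by push_cast; linarith [Nat.cast_nonneg (α := ℝ) n]
  exact le_mul_of_one_le_left (Q.nn _) this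

lemma Sq.sumH : Summable (kH a) := by
  rw [← Finset.HasAntidiagonal.sigmaAntidiagonalEquivProd.summable_iff]
  refine (summable_sigma_of_nonneg
    (f := kH a ∘ ⇑Finset.HasAntidiagonal.sigmaAntidiagonalEquivProd)
    (fun _ => Q.nn _)).2 ⟨fun n => (hasSum_fintype _).summable, ?_⟩
  have h1 : Summable (fun n : ℕ => ((n : ℝ) + 1) * a n) := by
    simpa [add_mul] using Q.sm.add Q.sum
  refine h1.congr fun n => ?_
  rw [tsum_fintype]
  have : ∀ y : Finset.HasAntidiagonal.antidiagonal n,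
      (kH a ∘ Finset.HasAntidiagonal.sigmaAntidiagonalEquivProd) ⟨n, y⟩ = a n := by
    rintro ⟨y, hy⟩
    simp only [Function.comp, Finset.HasAntidiagonal.sigmaAntidiagonalEquivProd_apply, kH]
    rw [Finset.HasAntidiagonal.mem_antidiagonal.1 hy]
  rw [Finset.sum_congr rfl fun y _ => this y]
  simp

lemma Sq.sumK : Summable (kK a) := by
  refine (Q.sumH.comp_injective (i := fun q : ℕ × ℕ => (q.1 + 1, q.2)) ?_).congr fun q => ?_
  · rintro ⟨x, y⟩ ⟨x', y'⟩ h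
    simp only [Prod.mk.injEq, add_left_inj] at h
    rw [h.1, h.2]
  · simp only [Function.comp, kH, kK]
    congr 1; ring

omit Q in
lemma swapH (q : ℕ × ℕ) : kH a q.swap = kH a q := by
  simp only [kH, Prod.fst_swap, Prod.snd_swap, add_comm]

omit Q in
lemma swapK (q : ℕ × ℕ) : kK a q.swap = kK a q := by
  simp only [kK, Prod.fst_swap, Prod.snd_swap, add_comm]

/-- the symbol as a vector -/
noncomputable def Sq.u : E := vec a Q.sum

lemma Sq.u_apply (n : ℕ) : Q.u n = a n := rfl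

lemma Sq.H_apply (x : E) (n : ℕ) : HasSum (fun p => a (n + p) * x p) (Op (kH a) x n) :=
  Op_apply Q.sumH x n

lemma Sq.K_apply (x : E) (n : ℕ) : HasSum (fun p => a (n + p + 1) * x p) (Op (kK a) x n) :=
  Op_apply Q.sumK x n

lemma Sq.K_eq (x : E) (n : ℕ) : Op (kK a) x n = Op (kH a) x (n + 1) := by
  refine (Q.K_apply x n).unique (hcongr (Q.H_apply x (n + 1)) fun p => ?_)
  have : n + p + 1 = n + 1 + p := by ring
  rw [this]

omit Q in
lemma hasSum_inner' (x y : E) : HasSum (fun n => x n * y n) ⟪x, y⟫ :=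
  hcongr (lp.hasSum_inner (𝕜 := ℝ) x y) fun n => by
    show _ = inner ℝ (x n) (y n)
    rw [real_inner_eq_re_inner]
    simp [mul_comm]

lemma Sq.H_zero (x : E) : Op (kH a) x 0 = ⟪Q.u, x⟫ := by
  refine (hcongr (Q.H_apply x 0) fun p => ?_).unique (hasSum_inner' Q.u x)
  rw [Q.u_apply, zero_add]

lemma Sq.symH (x y : E) : ⟪Op (kH a) x, y⟫ = ⟪x, Op (kH a) y⟫ := Op_symm Q.sumH swapH x y

lemma Sq.symK (x y : E) : ⟪Op (kK a) x, y⟫ = ⟪x, Op (kK a) y⟫ := Op_symm Q.sumK swapK x y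

lemma Sq.rank_one (x : E) : Op (kH a) (Op (kH a) x) = Op (kK a) (Op (kK a) x) + ⟪Q.u, x⟫ • Q.u := by
  refine ext_inner_right ℝ fun y => ?_
  rw [inner_add_left, real_inner_smul_left, Q.symH, Q.symK]
  have h1 := hasSum_inner' (Op (kH a) x) (Op (kH a) y)
  have h2 := hasSum_inner' (Op (kK a) x) (Op (kK a) y)
  rw [← h1.tsum_eq, ← h2.tsum_eq, h1.summable.tsum_eq_zero_add, Q.H_zero, Q.H_zero, add_comm]
  congr 1
  exact tsum_congr fun n => by rw [Q.K_eq, Q.K_eq]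

/-- row sums of `H` -/
noncomputable def Sq.h : E := tot Q.sumH

/-- row sums of `K` -/
noncomputable def Sq.w : E := tot Q.sumK

lemma Sq.h_apply (n : ℕ) : Q.h n = ∑' p, a (n + p) := rfl

lemma Sq.w_apply (n : ℕ) : Q.w n = ∑' p, a (n + p + 1) := rfl

lemma Sq.h_eq (n : ℕ) : Q.h n = a n + Q.w n := by
  rw [Q.h_apply, Q.w_apply]
  have : Summable fun p => a (n + p) := by
    simpa [add_comm] using (summable_nat_add_iff n).2 Q.sum
  rw [this.tsum_eq_zero_add]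
  simp [add_assoc]

lemma Sq.h_succ (n : ℕ) : Q.h (n + 1) = Q.w n := by
  rw [Q.h_apply, Q.w_apply]
  exact tsum_congr fun p => by congr 1; ring

lemma Sq.h_add : Q.h = Q.w + Q.u := by
  apply lp.ext
  funext n
  rw [lp.coeFn_add, Pi.add_apply, Q.h_eq, Q.u_apply, add_comm]

lemma Sq.h_zero : Q.h 0 = ∑' n, a n := by
  rw [Q.h_apply]; simp

lemma Sq.sum_H (x : E) : HasSum (fun n => Op (kH a) x n) ⟪Q.h, x⟫ := sum_Op Q.sumH swapH x

lemma Sq.sum_K (x : E) : HasSum (fun n => Op (kK a) x n) ⟪Q.w, x⟫ := sum_Op Q.sumK swapK x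

lemma Sq.diagH (n : ℕ) : ⟪Op (kH a) (dl n), dl n⟫ = a (n + n) := by
  rw [real_inner_comm, inner_dl]
  have h1 := hasSum_single (f := fun p => a (n + p) * (dl n) p) n (fun p hp => by
    rw [dl_apply, if_neg hp, mul_zero])
  rw [(Q.H_apply (dl n) n).unique h1, dl_apply, if_pos rfl, mul_one]

lemma Sq.diagK (n : ℕ) : ⟪Op (kK a) (dl n), dl n⟫ = a (n + n + 1) := by
  rw [real_inner_comm, inner_dl]
  have h1 := hasSum_single (f := fun p => a (n + p + 1) * (dl n) p) n (fun p hp => by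
    rw [dl_apply, if_neg hp, mul_zero])
  rw [(Q.K_apply (dl n) n).unique h1, dl_apply, if_pos rfl, mul_one]

variable {ρ σ : ℕ → ℝ} {e f : ℕ → E} (EH : Eig (Op (kH a)) ρ e) (EK : Eig (Op (kK a)) σ f)
  (hσ : ∀ j, 0 < σ j) (h1 : ∀ j, σ j < ρ j) (h2 : ∀ j, ρ (j + 1) < σ j)

omit Q in
include EK in
lemma p0_self (x : E) : ⟪x, p0 f x⟫ = ⟪p0 f x, p0 f x⟫ := by
  have h3 : ⟪x - p0 f x, p0 f x⟫ = 0 := by
    have : x - p0 f x = pr f x := by unfold p0; abel
    rw [this, real_inner_comm]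
    exact inner_p0_pr EK.on x x
  rw [inner_sub_left, sub_eq_zero] at h3
  exact h3

include EK in
lemma Sq.p0_w : p0 f Q.w = 0 := by
  have h3 : ⟪Q.w, p0 f Q.w⟫ = 0 := by
    refine (Q.sum_K (p0 f Q.w)).unique ?_
    rw [EK.A_p0]
    simp
  rw [p0_self EK] at h3
  exact inner_self_eq_zero.1 h3

lemma Sq.comp2 (EK : Eig (Op (kK a)) σ f) (l : ℕ) (x : E) :
    ⟪f l, Op (kK a) (Op (kK a) x)⟫ = σ l ^ 2 * ⟪f l, x⟫ := by
  rw [← Q.symK, EK.eq, real_inner_smul_left, ← Q.symK, EK.eq, real_inner_smul_left]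
  ring

include EH in
lemma Sq.Ke (j : ℕ) : Op (kK a) (Op (kK a) (e j)) = ρ j ^ 2 • e j - ⟪Q.u, e j⟫ • Q.u := by
  have h3 := Q.rank_one (e j)
  rw [EH.eq, map_smul, EH.eq, smul_smul, ← pow_two] at h3
  rw [h3]; abel

include EK in
lemma Sq.Hf (k : ℕ) : Op (kH a) (Op (kH a) (f k)) = σ k ^ 2 • f k + ⟪Q.u, f k⟫ • Q.u := by
  have h3 := Q.rank_one (f k)
  rw [EK.eq, map_smul, EK.eq, smul_smul, ← pow_two] at h3
  exact h3

include EH EK in
lemma Sq.coef (j l : ℕ) : (ρ j ^ 2 - σ l ^ 2) * ⟪f l, e j⟫ = ⟪Q.u, e j⟫ * ⟪f l, Q.u⟫ := by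
  have h3 := Q.comp2 EK l (e j)
  rw [Q.Ke EH, inner_sub_right, real_inner_smul_right, real_inner_smul_right] at h3
  linarith

include EH EK hσ h1 in
lemma Sq.alpha_ne (hne : ∀ j l, ρ j ≠ σ l) (j : ℕ) : ⟪Q.u, e j⟫ ≠ 0 := by
  intro h3
  have hρ : 0 < ρ j := (hσ j).trans (h1 j)
  have h4 : ∀ l, ⟪f l, e j⟫ = 0 := by
    intro l
    have h5 := Q.coef EH EK j l
    rw [h3, zero_mul] at h5
    refine (mul_eq_zero.1 h5).resolve_left ?_
    have : ρ j ^ 2 - σ l ^ 2 = (ρ j - σ l) * (ρ j + σ l) := by ring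
    rw [this]
    exact mul_ne_zero (sub_ne_zero.2 (hne j l)) (add_pos hρ (hσ l)).ne'
  have h5 := EK.comp _ h4
  have h6 := Q.Ke EH j
  rw [h5, map_zero, h3, zero_smul, sub_zero] at h6
  have h7 : e j = 0 := by
    rcases smul_eq_zero.1 h6.symm with h | h
    · exact absurd h (pow_pos hρ 2).ne'
    · exact h
  have h8 := EH.on.1 j
  rw [h7, norm_zero] at h8
  exact zero_ne_one h8

end

end Pool.Agent.Q82.HK
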