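import Pool.Agent.Q82.HKHank

/-!
The numeric data of a pair of Hankel operators with interlacing simple spectra.
-/

set_option autoImplicit false
open Filter Topology InnerProductSpace
open scoped RealInnerProductSpace ENNReal

namespace Pool.Agent.Q82.HK

lemma ne_of_interlace {ρ σ : ℕ → ℝ} (h1 : ∀ j, σ j < ρ j) (h2 : ∀ j, ρ (j + 1) < σ j) (j l : ℕ) :
    ρ j ≠ σ l := by
  have hσ : StrictAnti σ := strictAnti_nat_of_succ_lt fun j => (h1 (j + 1)).trans (h2 j)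
  have hρ : StrictAnti ρ := strictAnti_nat_of_succ_lt fun j => (h2 j).trans (h1 j)
  rcases lt_or_ge l j with h | h
  · exact ((hρ.antitone (Nat.succ_le_of_lt h)).trans_lt (h2 l)).ne
  · exact ((hσ.antitone h).trans_lt (h1 j)).ne'

section
variable {a : ℕ → ℝ} (Q : Sq a)
variable {ρ σ : ℕ → ℝ} {e f : ℕ → E} (EH : Eig (Op (kH a)) ρ e) (EK : Eig (Op (kK a)) σ f)
  (hσ : ∀ j, 0 < σ j) (h1 : ∀ j, σ j < ρ j) (h2 : ∀ j, ρ (j + 1) < σ j)

include EK in
lemma inner_p0_left (x y : E) : ⟪x, p0 f y⟫ = ⟪p0 f x, p0 f y⟫ := by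
  have h3 : ⟪x - p0 f x, p0 f y⟫ = 0 := by
    have : x - p0 f x = pr f x := by unfold p0; abel
    rw [this, real_inner_comm]
    exact inner_p0_pr EK.on y x
  rw [inner_sub_left, sub_eq_zero] at h3
  exact h3

include Q in
lemma Sq.le_tot (n : ℕ) : a n ≤ ∑' m, a m := Q.sum.le_tsum n fun m _ => Q.nn m

include Q in
lemma Sq.H_dl (n p : ℕ) : Op (kH a) (dl n) p = a (p + n) := by
  have h1 := hasSum_single (f := fun q => a (p + q) * (dl n) q) n (fun q hq => by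
    rw [dl_apply, if_neg hq, mul_zero])
  rw [(Q.H_apply (dl n) p).unique h1, dl_apply, if_pos rfl, mul_one]

include Q in
lemma Sq.trHH : Summable (fun n => ⟪((Op (kH a)).comp (Op (kH a))) (dl n), dl n⟫) := by
  refine Summable.of_nonneg_of_le (fun n => ?_) (fun n => ?_)
    ((Q.sumH.prod).mul_left (∑' m, a m))
  · rw [ContinuousLinearMap.comp_apply, Q.symH]
    exact real_inner_self_nonneg
  · rw [ContinuousLinearMap.comp_apply, real_inner_comm, inner_dl]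
    refine hasSum_le (fun p => ?_) (Q.H_apply (Op (kH a) (dl n)) n)
      ((Q.sumH.prod_factor n).hasSum.mul_left (∑' m, a m))
    rw [Q.H_dl, mul_comm]
    exact mul_le_mul_of_nonneg_right (Q.le_tot _) (Q.nn _)

include Q in
lemma Sq.HH_KK (n : ℕ) : ⟪((Op (kH a)).comp (Op (kH a))) (dl n), dl n⟫ =
    ⟪((Op (kK a)).comp (Op (kK a))) (dl n), dl n⟫ + a n ^ 2 := by
  rw [ContinuousLinearMap.comp_apply, ContinuousLinearMap.comp_apply, Q.rank_one, inner_add_left,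
    real_inner_smul_left, real_inner_comm (dl n) Q.u, inner_dl, Q.u_apply, pow_two]

include Q in
lemma Sq.trKK : Summable (fun n => ⟪((Op (kK a)).comp (Op (kK a))) (dl n), dl n⟫) := by
  refine Summable.of_nonneg_of_le (fun n => ?_) (fun n => ?_) Q.trHH
  · rw [ContinuousLinearMap.comp_apply, Q.symK]
    exact real_inner_self_nonneg
  · rw [Q.HH_KK]
    exact le_add_of_nonneg_right (sq_nonneg _)

include EH EK hσ h1 in
lemma Sq.hasSum_mass :
    HasSum (fun j => ρ j ^ 2 - σ j ^ 2) ⟪Q.u, Q.u⟫ := by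
  have a1 := EH.sq.trace (fun j => sq_nonneg _) Q.trHH
  have a2 := EK.sq.trace (fun j => sq_nonneg _) Q.trKK
  have a3 := a1.sub a2
  have a4 : ∑' n, ⟪((Op (kH a)).comp (Op (kH a))) (dl n), dl n⟫ -
      ∑' n, ⟪((Op (kK a)).comp (Op (kK a))) (dl n), dl n⟫ = ⟪Q.u, Q.u⟫ := by
    rw [← Q.trHH.tsum_sub Q.trKK]
    have : ∀ n, ⟪((Op (kH a)).comp (Op (kH a))) (dl n), dl n⟫ -
        ⟪((Op (kK a)).comp (Op (kK a))) (dl n), dl n⟫ = Q.u n * Q.u n := by
      intro n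
      rw [Q.HH_KK, Q.u_apply]; ring
    simp_rw [this]
    exact (hasSum_inner' Q.u Q.u).tsum_eq
  rw [a4] at a3
  exact a3

include Q EH EK in
lemma Sq.hasSum_T (hσ : ∀ j, 0 < σ j) (h1 : ∀ j, σ j < ρ j) :
    HasSum (fun j => ρ j + σ j) (∑' n, a n) := by
  have i0 : Function.Injective (fun n : ℕ => n + n) := fun x y h => by
    simp only at h; omega
  have i1 : Function.Injective (fun n : ℕ => n + n + 1) := fun x y h => by
    simp only at h; omega
  have s0 : Summable (fun n => ⟪Op (kH a) (dl n), dl n⟫) := by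
    simp_rw [Q.diagH]
    exact Q.sum.comp_injective i0
  have s1 : Summable (fun n => ⟪Op (kK a) (dl n), dl n⟫) := by
    simp_rw [Q.diagK]
    exact Q.sum.comp_injective i1
  have a1 := EH.trace (fun j => ((hσ j).trans (h1 j)).le) s0
  have a2 := EK.trace (fun j => (hσ j).le) s1
  have a3 := a1.add a2
  simp_rw [Q.diagH, Q.diagK] at a3
  have a4 : ∑' n, a (n + n) + ∑' n, a (n + n + 1) = ∑' n, a n := by
    have := tsum_even_add_odd (f := a)
      ((Q.sum.comp_injective i0).congr fun n => by simp only [Function.comp]; congr 1; ring)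
      ((Q.sum.comp_injective i1).congr fun n => by simp only [Function.comp]; congr 1; ring)
    rw [← this]
    congr 1 <;> exact tsum_congr fun n => by congr 1; ring
  rw [a4] at a3
  exact a3

include EH EK hσ h1 h2 in
lemma Sq.hG (j : ℕ) : ∑' l, ⟪f l, Q.u⟫ ^ 2 / (ρ j ^ 2 - σ l ^ 2) +
    ⟪p0 f Q.u, p0 f Q.u⟫ / ρ j ^ 2 = 1 := by
  have hne := ne_of_interlace h1 h2
  have hα := Q.alpha_ne EH EK hσ h1 hne j
  have hρ : 0 < ρ j := (hσ j).trans (h1 j)
  have a1 := parseval EK.on (e j) Q.u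
  have a2 : ρ j ^ 2 * ⟪p0 f (e j), p0 f Q.u⟫ = ⟪Q.u, e j⟫ * ⟪p0 f Q.u, p0 f Q.u⟫ := by
    rw [← inner_p0_left EK, ← real_inner_smul_left]
    have h3 := Q.Ke EH j
    have h4 : ρ j ^ 2 • e j = Op (kK a) (Op (kK a) (e j)) + ⟪Q.u, e j⟫ • Q.u := by
      rw [h3]; abel
    rw [h4, inner_add_left, Q.symK, EK.A_p0, inner_zero_right, zero_add, real_inner_smul_left,
      inner_p0_left EK]
  have a3 : ∀ l, ⟪Q.u, e j⟫ * (⟪f l, Q.u⟫ ^ 2 / (ρ j ^ 2 - σ l ^ 2)) =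
      ⟪f l, e j⟫ * ⟪f l, Q.u⟫ := by
    intro l
    have h3 := Q.coef EH EK j l
    have h4 : ρ j ^ 2 - σ l ^ 2 ≠ 0 := by
      have : ρ j ^ 2 - σ l ^ 2 = (ρ j - σ l) * (ρ j + σ l) := by ring
      rw [this]
      exact mul_ne_zero (sub_ne_zero.2 (hne j l)) (add_pos hρ (hσ l)).ne'
    field_simp
    linear_combination (-⟪f l, Q.u⟫) * h3
  have a4 := (hcongr a1 a3).tsum_eq
  rw [tsum_mul_left, real_inner_comm Q.u (e j)] at a4
  have a5 : ⟪p0 f (e j), p0 f Q.u⟫ = ⟪Q.u, e j⟫ * ⟪p0 f Q.u, p0 f Q.u⟫ / ρ j ^ 2 := by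
    rw [eq_div_iff (pow_pos hρ 2).ne', mul_comm, a2]
  rw [a5] at a4
  have a6 : ⟪Q.u, e j⟫ * (∑' l, ⟪f l, Q.u⟫ ^ 2 / (ρ j ^ 2 - σ l ^ 2) +
      ⟪p0 f Q.u, p0 f Q.u⟫ / ρ j ^ 2) = ⟪Q.u, e j⟫ * 1 := by
    rw [mul_add, a4]; ring
  exact mul_left_cancel₀ hα a6

include EH in
lemma Sq.sum_e (j : ℕ) (hρ : 0 < ρ j) : HasSum (fun n => e j n) (⟪Q.h, e j⟫ / ρ j) := by
  have h3 := (Q.sum_H (e j)).div_const (ρ j)
  rw [EH.eq] at h3
  refine hcongr h3 fun n => ?_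
  rw [lp.coeFn_smul, Pi.smul_apply, smul_eq_mul, mul_div_cancel_left₀ _ hρ.ne']

include EK in
lemma Sq.sum_f (k : ℕ) (hσ : 0 < σ k) : HasSum (fun n => f k n) (⟪Q.w, f k⟫ / σ k) := by
  have h3 := (Q.sum_K (f k)).div_const (σ k)
  rw [EK.eq] at h3
  refine hcongr h3 fun n => ?_
  rw [lp.coeFn_smul, Pi.smul_apply, smul_eq_mul, mul_div_cancel_left₀ _ hσ.ne']

include EK in
lemma Sq.parseval_w (x : E) : HasSum (fun l => ⟪f l, x⟫ * ⟪f l, Q.w⟫) ⟪x, Q.w⟫ := by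
  have h3 := parseval EK.on x Q.w
  rw [Q.p0_w EK, inner_zero_right, sub_zero] at h3
  exact h3

include EH EK hσ h1 h2 in
lemma Sq.hW (j : ℕ) : ∑' l, ⟪f l, Q.u⟫ * (σ l * (⟪Q.w, f l⟫ / σ l)) / (ρ j + σ l) =
    (∑' n, a n) - ρ j := by
  have hne := ne_of_interlace h1 h2
  have hα := Q.alpha_ne EH EK hσ h1 hne j
  have hρ : 0 < ρ j := (hσ j).trans (h1 j)
  have a1 := ((Q.parseval_w EK (e j)).mul_left (ρ j)).sub (EK.form (e j) Q.w)
  have a2 : ∀ l, ⟪Q.u, e j⟫ * (⟪f l, Q.u⟫ * (σ l * (⟪Q.w, f l⟫ / σ l)) / (ρ j + σ l)) =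
      ρ j * (⟪f l, e j⟫ * ⟪f l, Q.w⟫) - σ l * (⟪f l, e j⟫ * ⟪f l, Q.w⟫) := by
    intro l
    have h3 := Q.coef EH EK j l
    have h4 : ρ j + σ l ≠ 0 := (add_pos hρ (hσ l)).ne'
    have h5 := (hσ l).ne'
    rw [mul_div_cancel₀ _ h5, real_inner_comm (f l) Q.w]
    field_simp
    linear_combination (-⟪f l, Q.w⟫) * h3
  have a3 := (hcongr a1 a2).tsum_eq
  rw [tsum_mul_left] at a3
  set A := ⟪Q.h, e j⟫ / ρ j with hA
  have b1 : ⟪e j, Q.w⟫ = ρ j * A - ⟪Q.u, e j⟫ := by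
    rw [hA, mul_div_cancel₀ _ hρ.ne', Q.h_add, inner_add_left, real_inner_comm]
    ring
  have b2 : ⟪Op (kK a) (e j), Q.w⟫ = ρ j ^ 2 * A - ⟪Q.u, e j⟫ * ∑' n, a n := by
    rw [real_inner_comm]
    refine (Q.sum_K (Op (kK a) (e j))).unique ?_
    rw [Q.Ke EH]
    refine hcongr (((Q.sum_e EH j hρ).mul_left (ρ j ^ 2)).sub (Q.sum.hasSum.mul_left ⟪Q.u, e j⟫))
      fun n => ?_
    rw [lp.coeFn_sub, Pi.sub_apply, lp.coeFn_smul, lp.coeFn_smul, Pi.smul_apply, Pi.smul_apply,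
      Q.u_apply, smul_eq_mul, smul_eq_mul]
  rw [b1, b2] at a3
  have a6 : ⟪Q.u, e j⟫ * ∑' l, ⟪f l, Q.u⟫ * (σ l * (⟪Q.w, f l⟫ / σ l)) / (ρ j + σ l) =
      ⟪Q.u, e j⟫ * ((∑' n, a n) - ρ j) := by
    rw [a3]; ring
  exact mul_left_cancel₀ hα a6

include EH in
lemma exists_solution (Q : Sq a) {s : ℝ} (hs : 0 < s) (hne : ∀ j, ρ j ≠ s) (y : E) :
    ∃ g : E, s • g - Op (kH a) g = y := by
  rcases IsCompactOperator.hasEigenvalue_or_mem_resolventSet (Op_compact Q.sumH) hs.ne' with h | h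
  · exfalso
    obtain ⟨x, hx⟩ := h.exists_hasEigenvector
    have hx1 : Op (kH a) x = s • x := Module.End.mem_eigenspace_iff.1 hx.1
    have hx2 : ∀ j, ⟪e j, x⟫ = 0 := by
      intro j
      have h3 := Q.symH (e j) x
      rw [EH.eq, hx1, real_inner_smul_left, real_inner_smul_right] at h3
      have h4 : (ρ j - s) * ⟪e j, x⟫ = 0 := by linarith
      exact (mul_eq_zero.1 h4).resolve_left (sub_ne_zero.2 (hne j))
    rw [EH.comp x hx2] at hx1
    rcases smul_eq_zero.1 hx1.symm with h3 | h3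
    · exact hs.ne' h3
    · exact hx.2 h3
  · rw [resolventSet, Set.mem_ofPred_eq] at h
    obtain ⟨U, hU⟩ := h
    refine ⟨(U.inv : E →L[ℝ] E) y, ?_⟩
    have h3 : (U : E →L[ℝ] E) * U.inv = 1 := U.val_inv
    have h4 := congrArg (fun T : E →L[ℝ] E => T y) h3
    simp only [mul_apply_eq_comp, hU] at h4
    simpa [Algebra.algebraMap_eq_smul_one] using h4

include EH EK hσ h1 h2 in
lemma Sq.hI (k : ℕ) : 2 * (⟪Q.w, f k⟫ / σ k) * (σ k - (∑' n, a n) +
    ∑' l, ⟪f l, Q.u⟫ * (σ l * (⟪Q.w, f l⟫ / σ l)) / (σ k + σ l)) = - ⟪f k, Q.u⟫ := by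
  have hne := ne_of_interlace h1 h2
  set s := σ k with hs
  have hs0 : 0 < s := hσ k
  set T := ∑' n, a n with hT
  set b := ⟪Q.w, f k⟫ / s with hb
  obtain ⟨g, hg⟩ := exists_solution EH Q hs0 (fun j => hne j k) Q.h
  -- coordinates
  have c1 : ∀ n, s * g n = Op (kH a) g n + Q.h n := by
    intro n
    rw [← hg, lp.coeFn_sub, Pi.sub_apply, lp.coeFn_smul, Pi.smul_apply, smul_eq_mul]
    ring
  have sg : Summable (fun n => g n) := by
    have h3 := ((Q.sum_H g).summable.add Q.sumH.prod).mul_left s⁻¹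
    refine h3.congr fun n => ?_
    have := c1 n
    rw [Q.h_apply] at this
    change s⁻¹ * (Op (kH a) g n + ∑' p, a (n + p)) = g n
    rw [← this, inv_mul_cancel_left₀ hs0.ne']
  have sg1 : Summable (fun n => g (n + 1)) := (summable_nat_add_iff 1).2 sg
  have sy : Summable (fun n => g n - g (n + 1)) := sg.sub sg1
  set y : E := vec _ sy with hy
  have ysum : HasSum (fun n => y n) (g 0) := by
    have h3 := sg.hasSum.sub sg1.hasSum
    have h4 : ∑' n, g n - ∑' n, g (n + 1) = g 0 := by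
      rw [sg.tsum_eq_zero_add]; ring
    rw [h4] at h3
    exact h3
  have Ky : ∀ n, Op (kK a) y n = (1 + g 0) * a n - s * y n := by
    intro n
    have h3 := Q.K_apply g n
    have h4 : HasSum (fun p => a (n + p + 1) * g (p + 1)) (Op (kH a) g n - a n * g 0) := by
      have h5 := Q.H_apply g n
      rw [← hasSum_nat_add_iff' 1] at h5
      simpa [add_assoc] using h5
    have h5 := h3.sub h4
    have h6 := (Q.K_apply y n).unique (hcongr h5 fun p => by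
      change a (n + p + 1) * (g p - g (p + 1)) = _
      ring)
    rw [h6, Q.K_eq]
    have h7 := c1 n
    have h8 := c1 (n + 1)
    rw [Q.h_succ] at h8
    rw [Q.h_eq] at h7
    change Op (kH a) g (n + 1) - (Op (kH a) g n - a n * g 0) =
      (1 + g 0) * a n - s * (g n - g (n + 1))
    rw [mul_sub, h7, h8]
    ring
  have Ky' : Op (kK a) y = (1 + g 0) • Q.u - s • y := by
    apply lp.ext
    funext n
    rw [Ky, lp.coeFn_sub, Pi.sub_apply, lp.coeFn_smul, lp.coeFn_smul, Pi.smul_apply,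
      Pi.smul_apply, Q.u_apply, smul_eq_mul, smul_eq_mul]
  have comp : ∀ l, ⟪f l, y⟫ = (1 + g 0) * ⟪f l, Q.u⟫ / (s + σ l) := by
    intro l
    have h3 := Q.symK (f l) y
    rw [EK.eq, Ky', real_inner_smul_left, inner_sub_right, real_inner_smul_right,
      real_inner_smul_right] at h3
    rw [eq_div_iff (add_pos hs0 (hσ l)).ne']
    linarith
  have wy1 : ⟪y, Q.w⟫ = (1 + g 0) * T - s * g 0 := by
    rw [real_inner_comm]
    refine (Q.sum_K y).unique ?_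
    exact hcongr ((Q.sum.hasSum.mul_left (1 + g 0)).sub (ysum.mul_left s)) Ky
  have wy2 : ⟪y, Q.w⟫ = (1 + g 0) *
      ∑' l, ⟪f l, Q.u⟫ * (σ l * (⟪Q.w, f l⟫ / σ l)) / (s + σ l) := by
    rw [← (Q.parseval_w EK y).tsum_eq, ← tsum_mul_left]
    refine tsum_congr fun l => ?_
    rw [comp, mul_div_cancel₀ _ (hσ l).ne', real_inner_comm (f l) Q.w]
    ring
  set Z := ∑' l, ⟪f l, Q.u⟫ * (σ l * (⟪Q.w, f l⟫ / σ l)) / (s + σ l) with hZ
  have r1 : (1 + g 0) * (s - T + Z) = s := by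
    have : (1 + g 0) * Z = (1 + g 0) * T - s * g 0 := by rw [← wy2, wy1]
    linear_combination this
  -- second relation
  set β := ⟪f k, Q.u⟫ with hβ
  have hwf : ⟪Q.w, f k⟫ = s * b := by rw [hb, mul_div_cancel₀ _ hs0.ne']
  have d1 : ⟪Q.h, f k⟫ = s * b + β := by
    rw [Q.h_add, inner_add_left, hwf, real_inner_comm (f k) Q.u]
  have d2 : ⟪Q.h, Op (kH a) (f k)⟫ = s ^ 2 * b + β * T := by
    refine (Q.sum_H (Op (kH a) (f k))).unique ?_
    rw [Q.Hf EK]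
    refine hcongr (((Q.sum_f EK k hs0).mul_left (s ^ 2)).add (Q.sum.hasSum.mul_left β))
      fun n => ?_
    rw [lp.coeFn_add, Pi.add_apply, lp.coeFn_smul, lp.coeFn_smul, Pi.smul_apply, Pi.smul_apply,
      Q.u_apply, smul_eq_mul, smul_eq_mul, real_inner_comm (f k) Q.u]
  have d3 : ⟪Q.u, g⟫ = s * g 0 - T := by
    have h3 := c1 0
    rw [Q.h_zero, ← hT] at h3
    rw [← Q.H_zero]; linarith
  have d4 : s * ⟪Q.h, f k⟫ + ⟪Q.h, Op (kH a) (f k)⟫ = - (β * ⟪Q.u, g⟫) := by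
    have h3 : ⟪Q.h, s • f k + Op (kH a) (f k)⟫ = ⟪g, s • (s • f k) - Op (kH a) (Op (kH a) (f k))⟫ := by
      conv_lhs => rw [← hg]
      rw [inner_sub_left, Q.symH, real_inner_smul_left, ← real_inner_smul_right, ← inner_sub_right]
      congr 1
      rw [map_add, map_smul, smul_add]
      abel
    rw [Q.Hf EK, inner_add_right, real_inner_smul_right] at h3
    rw [h3]
    have h4 : s • (s • f k) - (σ k ^ 2 • f k + ⟪Q.u, f k⟫ • Q.u) = - (⟪Q.u, f k⟫ • Q.u) := by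
      rw [smul_smul, ← pow_two]; abel
    rw [h4, inner_neg_right, real_inner_smul_right, real_inner_comm g Q.u,
      real_inner_comm (f k) Q.u]
  have r2 : 2 * s * b = - β * (1 + g 0) := by
    rw [d1, d2, d3] at d4
    have : s * (2 * s * b) = s * (- β * (1 + g 0)) := by linear_combination d4
    exact mul_left_cancel₀ hs0.ne' this
  have : s * (2 * b * (s - T + Z)) = s * (- β) := by
    linear_combination (s - T + Z) * r2 - β * r1
  exact mul_left_cancel₀ hs0.ne' this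

include EH EK hσ h1 h2 in
/-- the numeric data -/
theorem Sq.num : Num ρ σ (fun l => ⟪f l, Q.u⟫) (fun l => ⟪Q.w, f l⟫ / σ l)
    ⟪p0 f Q.u, p0 f Q.u⟫ (∑' n, a n) where
  hσ := hσ
  h1 := h1
  h2 := h2
  hν := real_inner_self_nonneg
  hβ := by
    simpa only [pow_two] using (parseval EK.on Q.u Q.u).summable
  hm := by
    have h3 := Q.hasSum_mass EH EK hσ h1
    have h4 := (parseval EK.on Q.u Q.u).tsum_eq
    have h5 : ∑' l, ⟪f l, Q.u⟫ ^ 2 + ⟪p0 f Q.u, p0 f Q.u⟫ = ⟪Q.u, Q.u⟫ := by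
      simp_rw [pow_two]
      rw [h4]; ring
    rw [h5]
    exact h3
  hG := Q.hG EH EK hσ h1 h2
  hd := by
    have h3 := (Q.parseval_w EK Q.u).summable
    refine h3.congr fun l => ?_
    rw [mul_div_cancel₀ _ (hσ l).ne', real_inner_comm (f l) Q.w]
  hW := Q.hW EH EK hσ h1 h2
  hT := Q.hasSum_T EH EK hσ h1
  hI := Q.hI EH EK hσ h1 h2

end

end Pool.Agent.Q82.HK
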