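import Mathlib

/-!
Operators on real square-summable sequences given by absolutely summable kernels, and their
eigenfunction expansions.
-/

set_option autoImplicit false
open Filter Topology InnerProductSpace
open scoped RealInnerProductSpace ENNReal

namespace Pool.Agent.Q82.HK

lemma hcongr {ι : Type*} {f g : ι → ℝ} {a : ℝ} (h : HasSum f a) (e : ∀ i, g i = f i) :
    HasSum g a := by
  have : g = f := funext e
  rw [this]
  exact h

/-- real square-summable sequences -/
abbrev E := lp (fun _ : ℕ => ℝ) 2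

/-- unit vectors -/
noncomputable def dl (n : ℕ) : E := lp.single 2 n (1 : ℝ)

lemma inner_dl (n : ℕ) (x : E) : ⟪dl n, x⟫ = x n := by
  unfold dl
  rw [lp.inner_single_left]
  simp

lemma dl_apply (n m : ℕ) : (dl n) m = if m = n then (1 : ℝ) else 0 := by
  unfold dl
  rw [lp.single_apply, Pi.single_apply]

lemma norm_dl (n : ℕ) : ‖dl n‖ = 1 := by
  unfold dl
  rw [lp.norm_single (by norm_num)]
  simp

lemma abs_le_norm (x : E) (n : ℕ) : |x n| ≤ ‖x‖ := by
  rw [← inner_dl]
  exact (abs_real_inner_le_norm _ _).trans (by rw [norm_dl, one_mul])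

/-- the operator with kernel `κ` -/
noncomputable def Op (κ : ℕ × ℕ → ℝ) : E →L[ℝ] E := ∑' q, κ q • rankOne ℝ (dl q.1) (dl q.2)

variable {κ : ℕ × ℕ → ℝ}

lemma Op_hasSum (hκ : Summable κ) :
    HasSum (fun q => κ q • rankOne ℝ (dl q.1) (dl q.2)) (Op κ) := by
  refine Summable.hasSum (Summable.of_norm ?_)
  simp only [norm_smul, norm_rankOne, norm_dl, mul_one]
  exact hκ.norm

lemma Op_inner (hκ : Summable κ) (x y : E) :
    HasSum (fun q : ℕ × ℕ => κ q * (y q.1 * x q.2)) ⟪y, Op κ x⟫ := by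
  have h := (Op_hasSum hκ).mapL ((innerSL ℝ y).comp (ContinuousLinearMap.apply ℝ E x))
  have e : ∀ q : ℕ × ℕ, ((innerSL ℝ y).comp (ContinuousLinearMap.apply ℝ E x))
      (κ q • rankOne ℝ (dl q.1) (dl q.2)) = κ q * (y q.1 * x q.2) := by
    intro q
    simp only [ContinuousLinearMap.comp_apply, ContinuousLinearMap.apply_apply,
      _root_.smul_apply, rankOne_apply, innerSL_apply_apply, inner_smul_right]
    rw [inner_dl, real_inner_comm, inner_dl]
    ring
  simp_rw [e] at h
  exact h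

lemma rankOne_compact (x y : E) : IsCompactOperator (rankOne ℝ x y : E →L[ℝ] E) := by
  have h1 : IsCompactOperator (innerSL ℝ y : E →L[ℝ] ℝ) := by
    refine ⟨Metric.closedBall 0 ‖innerSL ℝ y‖, isCompact_closedBall _ _, ?_⟩
    filter_upwards [Metric.ball_mem_nhds (0 : E) one_pos] with x hx
    rw [mem_ball_zero_iff] at hx
    change innerSL ℝ y x ∈ Metric.closedBall (0 : ℝ) _
    rw [mem_closedBall_zero_iff]
    refine ((innerSL ℝ y).le_opNorm x).trans ?_
    exact mul_le_of_le_one_right (norm_nonneg _) hx.le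
  exact h1.clm_comp (ContinuousLinearMap.toSpanSingleton ℝ x)

lemma Op_compact (hκ : Summable κ) : IsCompactOperator (Op κ) := by
  refine isCompactOperator_of_tendsto (l := atTop)
    (F := fun s : Finset (ℕ × ℕ) => ∑ q ∈ s, κ q • rankOne ℝ (dl q.1) (dl q.2)) (Op_hasSum hκ)
    (Eventually.of_forall fun s => ?_)
  apply Finset.sum_induction (p := fun B : E →L[ℝ] E => IsCompactOperator B)
  · intro B C hB hC
    exact hB.add hC
  · exact isCompactOperator_zero
  · intro q _
    exact (rankOne_compact _ _).smul (κ q)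

lemma Op_symm (hκ : Summable κ) (hs : ∀ q, κ q.swap = κ q) (x y : E) :
    ⟪Op κ x, y⟫ = ⟪x, Op κ y⟫ := by
  have h1 := Op_inner hκ x y
  have h2 := Op_inner hκ y x
  rw [real_inner_comm]
  refine h1.unique ?_
  rw [← (Equiv.prodComm ℕ ℕ).hasSum_iff] at h2
  convert h2 using 2 with q
  simp only [Function.comp, Equiv.prodComm_apply, Prod.fst_swap, Prod.snd_swap, hs]
  ring


lemma Op_apply (hκ : Summable κ) (x : E) (n : ℕ) :
    HasSum (fun p => κ (n, p) * x p) (Op κ x n) := by
  have h := Op_inner hκ x (dl n)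
  rw [inner_dl] at h
  have hi : Function.Injective (fun p : ℕ => (n, p)) := fun a b hab => by simpa using hab
  rw [← hi.hasSum_iff] at h
  · convert h using 2 with p
    simp [dl_apply]
  · intro q hq
    have : q.1 ≠ n := fun hn => hq ⟨q.2, by rw [← hn]⟩
    rw [dl_apply, if_neg this]
    ring

/-- a summable sequence as a square-summable one -/
noncomputable def vec (f : ℕ → ℝ) (hf : Summable f) : E :=
  ⟨f, by
    have h1 : Memℓp f 1 := by
      rw [memℓp_gen_iff (by norm_num)]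
      simpa using hf.abs
    exact h1.of_exponent_ge (by norm_num)⟩

lemma vec_apply (f : ℕ → ℝ) (hf : Summable f) (n : ℕ) : vec f hf n = f n := rfl

lemma summable_mul_snd (hκ : Summable κ) (x : E) : Summable (fun q : ℕ × ℕ => κ q * x q.2) := by
  refine Summable.of_norm_bounded (g := fun q => ‖x‖ * |κ q|) (hκ.abs.mul_left _) fun q => ?_
  rw [norm_mul, mul_comm, Real.norm_eq_abs, Real.norm_eq_abs]
  exact mul_le_mul_of_nonneg_right (abs_le_norm x _) (abs_nonneg _)

/-- row sums of the kernel -/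
noncomputable def tot (hκ : Summable κ) : E := vec (fun n => ∑' p, κ (n, p)) hκ.prod

lemma sum_Op (hκ : Summable κ) (hs : ∀ q, κ q.swap = κ q) (x : E) :
    HasSum (fun n => Op κ x n) ⟪tot hκ, x⟫ := by
  have h1 := (summable_mul_snd hκ x).hasSum
  have h2 : HasSum (fun n => Op κ x n) (∑' q : ℕ × ℕ, κ q * x q.2) :=
    h1.prod_fiberwise fun n => Op_apply hκ x n
  have h3 : HasSum (fun n => (∑' p, κ (n, p)) * x n) (∑' q : ℕ × ℕ, κ q * x q.2) := by
    rw [← (Equiv.prodComm ℕ ℕ).hasSum_iff] at h1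
    refine h1.prod_fiberwise fun n => ?_
    have h4 : HasSum (fun p => κ (n, p) * x n) ((∑' p, κ (n, p)) * x n) :=
      (hκ.prod_factor n).hasSum.mul_right _
    convert h4 using 2 with p
    simp only [Function.comp, Equiv.prodComm_apply, Prod.swap_prod_mk]
    rw [← hs (n, p)]
    rfl
  have h5 := lp.hasSum_inner (𝕜 := ℝ) (tot hκ) x
  have h6 : HasSum (fun n => (∑' p, κ (n, p)) * x n) ⟪tot hκ, x⟫ :=
    hcongr h5 fun n => by
      show _ = inner ℝ (∑' p, κ (n, p)) (x n)
      rw [real_inner_eq_re_inner]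
      simp [mul_comm]
  rw [← h3.unique h6]
  exact h2

/-- eigenfunction expansion of an operator -/
structure Eig (A : E →L[ℝ] E) (lam : ℕ → ℝ) (v : ℕ → E) : Prop where
  on : Orthonormal ℝ v
  eq : ∀ j, A (v j) = lam j • v j
  comp : ∀ x, (∀ j, ⟪v j, x⟫ = 0) → A x = 0

section
variable {A : E →L[ℝ] E} {lam : ℕ → ℝ} {v : ℕ → E}

/-- the projection on the span of the family -/
noncomputable def pr (v : ℕ → E) (x : E) : E := ∑' j, ⟪v j, x⟫ • v j

lemma pr_hasSum (hv : Orthonormal ℝ v) (x : E) : HasSum (fun j => ⟪v j, x⟫ • v j) (pr v x) := by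
  have h := hv.orthogonalFamily.summable_iff_norm_sq_summable (fun j => ⟪v j, x⟫)
  have h2 : Summable (fun j => (LinearIsometry.toSpanSingleton ℝ E (hv.1 j)) ⟪v j, x⟫) :=
    h.2 (hv.inner_products_summable x)
  exact (by simpa using h2 : Summable (fun j => ⟪v j, x⟫ • v j)).hasSum

lemma inner_pr (hv : Orthonormal ℝ v) (x : E) (j : ℕ) : ⟪v j, pr v x⟫ = ⟪v j, x⟫ := by
  have h := (pr_hasSum hv x).mapL (innerSL ℝ (v j))
  simp only [innerSL_apply_apply, inner_smul_right] at h
  refine h.unique ?_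
  have := hasSum_single (f := fun i => ⟪v i, x⟫ * ⟪v j, v i⟫) j (fun i hi => by
    rw [hv.2 hi.symm, mul_zero])
  rw [real_inner_self_eq_norm_sq, hv.1 j] at this
  simpa using this

/-- the complementary part -/
noncomputable def p0 (v : ℕ → E) (x : E) : E := x - pr v x

lemma inner_p0 (hv : Orthonormal ℝ v) (x : E) (j : ℕ) : ⟪v j, p0 v x⟫ = 0 := by
  unfold p0
  rw [inner_sub_right, inner_pr hv, sub_self]

lemma inner_p0_pr (hv : Orthonormal ℝ v) (x y : E) : ⟪p0 v x, pr v y⟫ = 0 := by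
  have h := (pr_hasSum hv y).mapL (innerSL ℝ (p0 v x))
  simp only [innerSL_apply_apply, inner_smul_right] at h
  refine h.unique ?_
  have e : (fun j => ⟪v j, y⟫ * ⟪p0 v x, v j⟫) = fun _ => 0 := by
    funext j
    rw [real_inner_comm (v j) (p0 v x), inner_p0 hv, mul_zero]
  rw [e]
  exact hasSum_zero

lemma parseval (hv : Orthonormal ℝ v) (x y : E) :
    HasSum (fun j => ⟪v j, x⟫ * ⟪v j, y⟫) (⟪x, y⟫ - ⟪p0 v x, p0 v y⟫) := by
  have h := (pr_hasSum hv x).mapL (innerSL ℝ y)
  simp only [innerSL_apply_apply, inner_smul_right] at h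
  have e1 : ⟪y, pr v x⟫ = ⟪x, y⟫ - ⟪p0 v x, p0 v y⟫ := by
    have h1 : pr v x = x - p0 v x := by unfold p0; abel
    have h2 : y = p0 v y + pr v y := by unfold p0; abel
    have h3 : ⟪p0 v x, y⟫ = ⟪p0 v x, p0 v y⟫ := by
      conv_lhs => rw [h2]
      rw [inner_add_right, inner_p0_pr hv, add_zero]
    rw [h1, inner_sub_right, real_inner_comm, real_inner_comm (p0 v x) y, h3]
  rw [e1] at h
  exact hcongr h fun j => by rw [real_inner_comm y (v j)]

variable (H : Eig A lam v)
include H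

lemma Eig.A_p0 (x : E) : A (p0 v x) = 0 := H.comp _ fun j => inner_p0 H.on x j

lemma Eig.form (x y : E) : HasSum (fun j => lam j * (⟪v j, x⟫ * ⟪v j, y⟫)) ⟪A x, y⟫ := by
  have h := (pr_hasSum H.on x).mapL ((innerSL ℝ y).comp A)
  simp only [ContinuousLinearMap.comp_apply, innerSL_apply_apply, map_smul, H.eq] at h
  have e : A (pr v x) = A x := by
    have h1 : pr v x = x - p0 v x := by unfold p0; abel
    rw [h1, map_sub, H.A_p0, sub_zero]
  rw [e, real_inner_comm] at h
  refine hcongr h fun j => ?_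
  rw [real_inner_comm y (v j), smul_eq_mul, smul_eq_mul]
  ring

lemma Eig.sq : Eig (A.comp A) (fun j => lam j ^ 2) v where
  on := H.on
  eq j := by rw [ContinuousLinearMap.comp_apply, H.eq, map_smul, H.eq, smul_smul, pow_two]
  comp x hx := by rw [ContinuousLinearMap.comp_apply, H.comp x hx, map_zero]

lemma Eig.trace (hl : ∀ j, 0 ≤ lam j) (hs : Summable (fun n => ⟪A (dl n), dl n⟫)) :
    HasSum lam (∑' n, ⟪A (dl n), dl n⟫) := by
  have h1 : ∀ n, HasSum (fun j => lam j * (v j n * v j n)) ⟪A (dl n), dl n⟫ := by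
    intro n
    have := H.form (dl n) (dl n)
    convert this using 4 with j <;> rw [real_inner_comm, inner_dl]
  have h2 : Summable (fun q : ℕ × ℕ => lam q.2 * (v q.2 q.1 * v q.2 q.1)) := by
    rw [summable_prod_of_nonneg (fun q => mul_nonneg (hl _) (mul_self_nonneg _))]
    refine ⟨fun n => (h1 n).summable, ?_⟩
    convert hs using 2 with n
    exact (h1 n).tsum_eq
  have h3 : HasSum (fun n => ⟪A (dl n), dl n⟫) (∑' q : ℕ × ℕ, lam q.2 * (v q.2 q.1 * v q.2 q.1)) :=
    h2.hasSum.prod_fiberwise h1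
  rw [h3.tsum_eq]
  have h4 := h2.hasSum
  rw [← (Equiv.prodComm ℕ ℕ).hasSum_iff] at h4
  refine h4.prod_fiberwise fun j => ?_
  have h5 := (lp.hasSum_inner (𝕜 := ℝ) (v j) (v j)).mul_left (lam j)
  rw [real_inner_self_eq_norm_sq, H.on.1 j, one_pow, mul_one] at h5
  refine hcongr h5 fun n => ?_
  show lam j * (v j n * v j n) = lam j * inner ℝ (v j n) (v j n)
  rw [real_inner_eq_re_inner]
  simp [pow_two]

lemma Eig.bessel (hl : ∀ j, 0 ≤ lam j) (x : E) (M : ℕ) :
    ∑ j ∈ Finset.range M, lam j * ⟪v j, x⟫ ^ 2 ≤ ⟪A x, x⟫ := by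
  have := sum_le_hasSum (Finset.range M) (fun j _ => mul_nonneg (hl j) (mul_self_nonneg _))
    (H.form x x)
  simpa only [pow_two] using this

end

/-- existence of the expansion from the knowledge of the spectrum of the square -/
theorem exists_eig {A : E →L[ℝ] E} {lam : ℕ → ℝ} (hA : IsCompactOperator A)
    (hs : ∀ x y, ⟪A x, y⟫ = ⟪x, A y⟫) (hp : ∀ x, 0 ≤ ⟪A x, x⟫) (hl : ∀ j, 0 < lam j)
    (hinj : Function.Injective lam)
    (h1 : ∀ j, ∃ x, x ≠ 0 ∧ A (A x) = lam j ^ 2 • x)
    (h2 : ∀ μ : ℝ, μ ≠ 0 → ∀ x, x ≠ 0 → A (A x) = μ • x → ∃ j, μ = lam j ^ 2)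
    (h3 : ∀ j, ∀ x y, x ≠ 0 → A (A x) = lam j ^ 2 • x → A (A y) = lam j ^ 2 • y →
      ∃ c : ℝ, y = c • x) :
    ∃ v, Eig A lam v := by
  have root : ∀ j x, A (A x) = lam j ^ 2 • x → A x = lam j • x := by
    intro j x hx
    have e1 : A (A x - lam j • x) = - (lam j • (A x - lam j • x)) := by
      rw [map_sub, map_smul, hx, smul_sub, smul_smul, sq]; abel
    have e2 := hp (A x - lam j • x)
    rw [e1, inner_neg_left, inner_smul_left, real_inner_self_eq_norm_sq] at e2
    have e3 : ‖A x - lam j • x‖ ^ 2 ≤ 0 := by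
      by_contra hc
      push Not at hc
      have := mul_pos (hl j) hc
      simp at e2
      linarith
    have e4 : ‖A x - lam j • x‖ = 0 := by nlinarith [norm_nonneg (A x - lam j • x)]
    exact sub_eq_zero.1 (norm_eq_zero.1 e4)
  choose w hw0 hw using h1
  have hv1 : ∀ j, ‖(‖w j‖⁻¹ • w j : E)‖ = 1 := fun j => by
    rw [norm_smul, norm_inv, norm_norm, inv_mul_cancel₀ (norm_ne_zero_iff.2 (hw0 j))]
  have hve : ∀ j, A (‖w j‖⁻¹ • w j) = lam j • (‖w j‖⁻¹ • w j) := fun j => by
    rw [map_smul, root j _ (hw j), smul_comm]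
  refine ⟨fun j => ‖w j‖⁻¹ • w j, ⟨⟨hv1, ?_⟩, hve, ?_⟩⟩
  · intro i j hij
    have := hs (‖w i‖⁻¹ • w i) (‖w j‖⁻¹ • w j)
    rw [hve, hve, real_inner_smul_left (‖w i‖⁻¹ • w i) (‖w j‖⁻¹ • w j) (lam i),
      real_inner_smul_right (‖w i‖⁻¹ • w i) (‖w j‖⁻¹ • w j) (lam j)] at this
    have h4 : (lam i - lam j) * ⟪‖w i‖⁻¹ • w i, ‖w j‖⁻¹ • w j⟫ = 0 := by
      rw [sub_mul, sub_eq_zero]; exact this
    exact (mul_eq_zero.1 h4).resolve_left (sub_ne_zero.2 fun h => hij (hinj h))
  · intro x hx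
    have hsym : (A : E →L[ℝ] E).IsSymmetric := hs
    have hbot := ContinuousLinearMap.orthogonalComplement_iSup_eigenspaces_eq_bot hA hsym
    have : A x ∈ (⨆ μ, Module.End.eigenspace (A : Module.End ℝ E) μ)ᗮ := by
      rw [Submodule.mem_orthogonal]
      intro y hy
      induction hy using Submodule.iSup_induction' with
      | mem μ y hy =>
        have hy' : A y = μ • y := Module.End.mem_eigenspace_iff.1 hy
        rw [← hs, hy']
        by_cases hμ : μ = 0
        · simp [hμ]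
        by_cases hy0 : y = 0
        · simp [hy0]
        have hyy : A (A y) = (μ ^ 2) • y := by rw [hy', map_smul, hy', smul_smul, sq]
        obtain ⟨j, hj⟩ := h2 (μ ^ 2) (pow_ne_zero 2 hμ) y hy0 hyy
        rw [hj] at hyy
        obtain ⟨c, hc⟩ := h3 j (w j) y (hw0 j) (hw j) hyy
        have hxj := hx j
        rw [inner_smul_left] at hxj
        have hxj' : ⟪w j, x⟫ = 0 := by
          rcases mul_eq_zero.1 hxj with h | h
          · simp at h
            exact absurd h (hw0 j)
          · exact h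
        rw [hc, inner_smul_left, inner_smul_left, hxj', mul_zero, mul_zero]
      | zero => simp
      | add y z _ _ hy hz => rw [inner_add_left, hy, hz, add_zero]
    rw [hbot] at this
    simpa using this

end Pool.Agent.Q82.HK
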