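import Mathlib

/-! # A semigroup of Jordan blocks on `c_0` -/

namespace Q82.JordanSg

open Filter Topology MeasureTheory
open scoped ZeroAtInfty ENNReal

noncomputable section

/-- time scales -/
def L (k : ℕ) : ℝ := 2 ^ (4 ^ (k + 1))

/-- sizes -/
def M (k : ℕ) : ℝ := ((k : ℝ) + 1) ^ 3

lemma L_pos (k : ℕ) : 0 < L k := by unfold L; positivity

lemma M_pos (k : ℕ) : 0 < M k := by unfold M; positivity

lemma L_succ (k : ℕ) : L (k + 1) = L k ^ 4 := by
  unfold L
  rw [← pow_mul, ← pow_succ]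

lemma M_mono {i k : ℕ} (h : i ≤ k) : M i ≤ M k := by
  unfold M
  have : (i : ℝ) ≤ k := by exact_mod_cast h
  gcongr

lemma two_M_le (k : ℕ) : 2 * M (k + 1) ≤ L k := by
  induction k with
  | zero => unfold M L; norm_num
  | succ k ih =>
    rw [L_succ]
    have h1 : M (k + 1 + 1) ≤ 4 * M (k + 1) := by
      unfold M
      push_cast
      have : (0 : ℝ) ≤ k := by positivity
      nlinarith [mul_nonneg this this, mul_nonneg (mul_nonneg this this) this]
    have h2 : (16 : ℝ) ≤ L k := by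
      unfold L
      calc (16 : ℝ) = 2 ^ 4 := by norm_num
        _ ≤ 2 ^ (4 ^ (k + 1)) := by
          apply pow_le_pow_right₀ (by norm_num)
          calc 4 = 4 ^ 1 := by norm_num
            _ ≤ 4 ^ (k + 1) := Nat.pow_le_pow_right (by norm_num) (by omega)
    have h3 : L k ^ 4 = L k * L k ^ 3 := by ring
    have h4 : (4 : ℝ) ≤ L k ^ 3 := by nlinarith [sq_nonneg (L k), mul_pos (L_pos k) (L_pos k)]
    rw [h3]
    nlinarith [L_pos k]

lemma L_ge (k : ℕ) : (16 : ℝ) ≤ L k := by
  unfold L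
  calc (16 : ℝ) = 2 ^ 4 := by norm_num
    _ ≤ 2 ^ (4 ^ (k + 1)) := by
      apply pow_le_pow_right₀ (by norm_num)
      calc 4 = 4 ^ 1 := by norm_num
        _ ≤ 4 ^ (k + 1) := Nat.pow_le_pow_right (by norm_num) (by omega)

lemma two_M_le' (k : ℕ) : 2 * M k ≤ L k := by
  have := two_M_le k
  have h := M_mono (Nat.le_succ k)
  have h2 : M k ≤ M (k + 1) := h
  linarith

lemma L_mono {i k : ℕ} (h : i ≤ k) : L i ≤ L k := by
  unfold L
  apply pow_le_pow_right₀ (by norm_num)
  exact Nat.pow_le_pow_right (by norm_num) (by omega)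

lemma L_ge_k (k : ℕ) : (k : ℝ) + 1 ≤ L k := by
  have h := two_M_le' k
  have h2 : (k : ℝ) + 1 ≤ M k := by
    unfold M
    have : (0 : ℝ) ≤ k := by positivity
    nlinarith [mul_nonneg this this, mul_nonneg (mul_nonneg this this) this]
  have := M_pos k
  linarith

lemma L_tendsto : Tendsto L atTop atTop := by
  apply tendsto_atTop_mono L_ge_k
  exact tendsto_atTop_add_const_right _ _ tendsto_natCast_atTop_atTop

/-- norm of block `k` at time `t` -/
def nb (t : ℝ) (k : ℕ) : ℝ := Real.exp (-(t / L k)) * (1 + M k * (|t| / L k))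

lemma nb_nonneg (t : ℝ) (k : ℕ) : 0 ≤ nb t k := by
  unfold nb
  have := L_pos k
  have := M_pos k
  positivity

lemma nb_le (t : ℝ) (k : ℕ) : nb t k ≤ Real.exp |t| * (1 + |t|) := by
  unfold nb
  have h1 := L_ge k
  have h2 := two_M_le' k
  have h3 := M_pos k
  have h4 : -(t / L k) ≤ |t| := by
    rw [← neg_div, div_le_iff₀ (L_pos k)]
    nlinarith [neg_abs_le t, abs_nonneg t, le_abs_self t]
  have h5 : M k * (|t| / L k) ≤ |t| := by
    rw [← mul_div_assoc, div_le_iff₀ (L_pos k)]
    nlinarith [abs_nonneg t]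
  have h6 : 0 ≤ M k * (|t| / L k) := by
    have := L_pos k
    positivity
  exact mul_le_mul (Real.exp_le_exp.2 h4) (by linarith) (by linarith) (Real.exp_pos _).le

/-- windows where the semigroup has norm at most two -/
lemma nb_win {t : ℝ} {k : ℕ} (h1 : L k ^ 2 ≤ t) (h2 : t ≤ L k ^ 3) (i : ℕ) : nb t i ≤ 2 := by
  have hL := L_pos k
  have hLi := L_pos i
  have hMi := M_pos i
  have ht : 0 ≤ t := le_trans (by positivity) h1
  unfold nb
  rw [abs_of_nonneg ht]
  set s : ℝ := t / L i with hs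
  have hs0 : 0 ≤ s := by positivity
  have he1 : Real.exp (-s) ≤ 1 := by rw [Real.exp_le_one_iff]; linarith
  have he0 := Real.exp_pos (-s)
  have key : M i * s * Real.exp (-s) ≤ 1 := by
    rcases le_or_gt i k with hik | hik
    · have h3 : 2 * M i ≤ s := by
        rw [hs, le_div_iff₀ hLi]
        have e1 := L_mono hik
        have e2 := two_M_le' k
        have e3 := M_mono hik
        calc 2 * M i * L i ≤ L k * L k := by
              apply mul_le_mul _ e1 hLi.le hL.le
              linarith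
          _ = L k ^ 2 := by ring
          _ ≤ t := h1
      have hspos : 0 < s := by linarith
      have h4 : s ^ 2 / 2 ≤ Real.exp s := by
        have := Real.quadratic_le_exp_of_nonneg hs0
        linarith
      have h5 : Real.exp (-s) * Real.exp s = 1 := by rw [← Real.exp_add]; simp
      have h6 : Real.exp (-s) * (s ^ 2 / 2) ≤ 1 := by
        rw [← h5]; exact mul_le_mul_of_nonneg_left h4 he0.le
      calc M i * s * Real.exp (-s) ≤ (s / 2) * s * Real.exp (-s) := by
            gcongr; linarith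
        _ = Real.exp (-s) * (s ^ 2 / 2) := by ring
        _ ≤ 1 := h6
    · have h3 : M i * s ≤ 1 := by
        obtain ⟨j, rfl⟩ : ∃ j, i = j + 1 := ⟨i - 1, by omega⟩
        rw [hs, ← mul_div_assoc, div_le_one hLi, L_succ]
        have e1 : L k ≤ L j := L_mono (by omega)
        have e2 := two_M_le j
        have e3 : t ≤ L j ^ 3 := h2.trans (pow_le_pow_left₀ hL.le e1 3)
        calc M (j + 1) * t ≤ L j * L j ^ 3 := by
              apply mul_le_mul _ e3 ht (L_pos j).le
              linarith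
          _ = L j ^ 4 := by ring
      calc M i * s * Real.exp (-s) ≤ 1 * 1 := by
            apply mul_le_mul h3 he1 he0.le zero_le_one
        _ = 1 := one_mul 1
  calc Real.exp (-s) * (1 + M i * s) = Real.exp (-s) + M i * s * Real.exp (-s) := by ring
    _ ≤ 2 := by linarith

lemma nb_tendsto (k : ℕ) : Tendsto (fun t => nb t k) atTop (𝓝 0) := by
  have hL := L_pos k
  have h1 : Tendsto (fun s : ℝ => Real.exp (-s) * (1 + M k * s)) atTop (𝓝 0) := by
    have e1 := Real.tendsto_exp_neg_atTop_nhds_zero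
    have e2 := (Real.tendsto_pow_mul_exp_neg_atTop_nhds_zero 1).const_mul (M k)
    have e3 := e1.add e2
    simp only [mul_zero, add_zero, pow_one] at e3
    refine e3.congr fun s => ?_
    ring
  have h2 : Tendsto (fun t : ℝ => t / L k) atTop atTop := tendsto_id.atTop_div_const hL
  refine (h1.comp h2).congr' ?_
  filter_upwards [eventually_ge_atTop 0] with t ht
  unfold nb
  rw [abs_of_nonneg ht]
  rfl

variable (K : Type) [RCLike K]

/-- action on block `k` -/
def act (t : ℝ) (k : ℕ) (p : K × K) : K × K :=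
  ((Real.exp (-(t / L k)) : ℝ) : K) • (p.1 + ((M k * (t / L k) : ℝ) : K) * p.2, p.2)

variable {K}

lemma act_norm (t : ℝ) (k : ℕ) (p : K × K) : ‖act K t k p‖ ≤ nb t k * ‖p‖ := by
  have hM := M_pos k
  have hL := L_pos k
  unfold act nb
  rw [norm_smul, RCLike.norm_ofReal, abs_of_pos (Real.exp_pos _), mul_assoc]
  gcongr
  rw [Prod.norm_def, max_le_iff]
  have h1 : ‖p.1‖ ≤ ‖p‖ := norm_fst_le p
  have h2 : ‖p.2‖ ≤ ‖p‖ := norm_snd_le p
  have h3 : ‖((M k * (t / L k) : ℝ) : K)‖ = M k * (|t| / L k) := by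
    rw [RCLike.norm_ofReal, abs_mul, abs_of_pos hM, abs_div, abs_of_pos hL]
  have h4 : 0 ≤ M k * (|t| / L k) := by positivity
  constructor
  · refine (norm_add_le _ _).trans ?_
    rw [norm_mul, h3]
    nlinarith
  · simp only
    nlinarith [norm_nonneg p]

lemma act_add (s t : ℝ) (k : ℕ) (p : K × K) : act K (s + t) k p = act K s k (act K t k p) := by
  unfold act
  have e1 : ((Real.exp (-((s + t) / L k)) : ℝ) : K) =
      ((Real.exp (-(s / L k)) : ℝ) : K) * ((Real.exp (-(t / L k)) : ℝ) : K) := by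
    rw [← RCLike.ofReal_mul, ← Real.exp_add]
    congr 2
    ring
  have e2 : ((M k * ((s + t) / L k) : ℝ) : K) = ((M k * (s / L k) : ℝ) : K) +
      ((M k * (t / L k) : ℝ) : K) := by
    rw [← RCLike.ofReal_add]
    congr 1
    ring
  rw [e1, e2]
  ext
  · simp only [Prod.smul_fst, Prod.smul_snd, smul_eq_mul]
    ring
  · simp only [Prod.smul_snd, smul_eq_mul]
    ring

lemma act_zero (k : ℕ) (p : K × K) : act K 0 k p = p := by
  unfold act
  simp

lemma act_sub_norm {h : ℝ} (hh : |h| ≤ 1) (k : ℕ) (p : K × K) :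
    ‖act K h k p - p‖ ≤ 5 * |h| * ‖p‖ := by
  have hM := M_pos k
  have hL := L_pos k
  have hL16 := L_ge k
  have h2M := two_M_le' k
  set e : ℝ := Real.exp (-(h / L k)) with he
  have hsmall : |-(h / L k)| ≤ |h| := by
    rw [abs_neg, abs_div, abs_of_pos hL, div_le_iff₀ hL]
    nlinarith [abs_nonneg h]
  have h1 : |e - 1| ≤ 2 * |h| := by
    have := Real.abs_exp_sub_one_le (x := -(h / L k)) (hsmall.trans hh)
    linarith
  have h1' : e ≤ 3 := by
    have := (abs_le.1 h1).2
    linarith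
  have he0 : 0 < e := Real.exp_pos _
  have hp1 : ‖p.1‖ ≤ ‖p‖ := norm_fst_le p
  have hp2 : ‖p.2‖ ≤ ‖p‖ := norm_snd_le p
  have e1 : act K h k p - p = (((e - 1 : ℝ) : K) * p.1 + ((e * (M k * (h / L k)) : ℝ) : K) * p.2,
      ((e - 1 : ℝ) : K) * p.2) := by
    unfold act
    rw [← he]
    ext
    · simp only [Prod.fst_sub, Prod.smul_fst, smul_eq_mul]
      push_cast
      ring
    · simp only [Prod.snd_sub, Prod.smul_snd, smul_eq_mul]
      push_cast
      ring
  rw [e1, Prod.norm_def, max_le_iff]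
  have h3 : M k * (|h| / L k) ≤ |h| := by
    rw [← mul_div_assoc, div_le_iff₀ hL]
    nlinarith [abs_nonneg h]
  constructor
  · refine (norm_add_le _ _).trans ?_
    rw [norm_mul, norm_mul, RCLike.norm_ofReal, RCLike.norm_ofReal, abs_mul, abs_of_pos he0, abs_mul,
      abs_of_pos hM, abs_div, abs_of_pos hL]
    have h4 : |e - 1| * ‖p.1‖ ≤ 2 * |h| * ‖p‖ := by gcongr
    have h5 : e * (M k * (|h| / L k)) * ‖p.2‖ ≤ 3 * |h| * ‖p‖ := by gcongr
    linarith
  · simp only
    rw [norm_mul, RCLike.norm_ofReal]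
    have h4 : |e - 1| * ‖p.2‖ ≤ 2 * |h| * ‖p‖ := by gcongr
    nlinarith [abs_nonneg h, norm_nonneg p, mul_nonneg (abs_nonneg h) (norm_nonneg p)]

variable (K)

lemma c0_tendsto (x : C₀(ℕ, K × K)) : Tendsto (fun i => x i) atTop (𝓝 0) := by
  have := x.zero_at_infty'
  rwa [cocompact_eq_cofinite, Nat.cofinite_eq_atTop] at this

/-- build an element of `c_0` -/
def mkC0 (y : ℕ → K × K) (h : Tendsto y atTop (𝓝 0)) : C₀(ℕ, K × K) where
  toFun := y
  continuous_toFun := continuous_of_discreteTopology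
  zero_at_infty' := by rwa [cocompact_eq_cofinite, Nat.cofinite_eq_atTop]

variable {K}

lemma c0_norm_le {x : C₀(ℕ, K × K)} {C : ℝ} (hC : 0 ≤ C) (h : ∀ i, ‖x i‖ ≤ C) : ‖x‖ ≤ C := by
  rw [← ZeroAtInftyContinuousMap.norm_toBCF_eq_norm]
  exact (BoundedContinuousFunction.norm_le hC).2 h

lemma c0_le (x : C₀(ℕ, K × K)) (i : ℕ) : ‖x i‖ ≤ ‖x‖ := by
  rw [← ZeroAtInftyContinuousMap.norm_toBCF_eq_norm]
  exact BoundedContinuousFunction.norm_coe_le_norm x.toBCF i

variable (K)

/-- the value of the semigroup -/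
def Tf (t : ℝ) (x : C₀(ℕ, K × K)) : C₀(ℕ, K × K) :=
  mkC0 K (fun k => act K t k (x k)) (by
    have h1 : Tendsto (fun i => (Real.exp |t| * (1 + |t|)) * ‖x i‖) atTop (𝓝 0) := by
      have := ((c0_tendsto K x).norm).const_mul (Real.exp |t| * (1 + |t|))
      simpa using this
    refine squeeze_zero_norm (fun i => ?_) h1
    exact (act_norm t i (x i)).trans (mul_le_mul_of_nonneg_right (nb_le t i) (norm_nonneg _)))

/-- the semigroup -/
def T (t : ℝ) : C₀(ℕ, K × K) →L[K] C₀(ℕ, K × K) :=
  LinearMap.mkContinuous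
    { toFun := Tf K t
      map_add' := fun x y => by
        ext1 k
        change act K t k (x k + y k) = act K t k (x k) + act K t k (y k)
        unfold act
        ext
        · simp only [Prod.smul_fst, Prod.fst_add, Prod.snd_add, smul_eq_mul]
          ring
        · simp only [Prod.smul_snd, Prod.snd_add, smul_eq_mul]
          ring
      map_smul' := fun r x => by
        ext1 k
        change act K t k (r • x k) = r • act K t k (x k)
        unfold act
        ext
        · simp only [Prod.smul_fst, Prod.smul_snd, smul_eq_mul]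
          ring
        · simp only [Prod.smul_snd, smul_eq_mul]
          ring }
    (Real.exp |t| * (1 + |t|)) (fun x => by
      apply c0_norm_le (by positivity)
      intro i
      change ‖act K t i (x i)‖ ≤ _
      refine (act_norm t i (x i)).trans ?_
      exact mul_le_mul (nb_le t i) (c0_le x i) (norm_nonneg _) (by positivity))

variable {K}

lemma T_apply (t : ℝ) (x : C₀(ℕ, K × K)) (k : ℕ) : (T K t x) k = act K t k (x k) := rfl

lemma T_zero : T K 0 = 1 := by
  ext1 x
  ext1 k
  rw [T_apply, act_zero]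
  rfl

lemma T_add (s t : ℝ) : T K (s + t) = T K s * T K t := by
  ext1 x
  ext1 k
  rw [T_apply, act_add]
  rfl

lemma T_sub_norm {h : ℝ} (hh : |h| ≤ 1) (x : C₀(ℕ, K × K)) : ‖T K h x - x‖ ≤ 5 * |h| * ‖x‖ := by
  apply c0_norm_le (by positivity)
  intro i
  change ‖act K h i (x i) - x i‖ ≤ _
  refine (act_sub_norm hh i (x i)).trans ?_
  gcongr
  exact c0_le x i

lemma T_continuous (x : C₀(ℕ, K × K)) : Continuous (fun t => T K t x) := by
  rw [continuous_iff_continuousAt]
  intro s
  rw [ContinuousAt, tendsto_iff_norm_sub_tendsto_zero]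
  have h1 : ∀ᶠ t in 𝓝 s, ‖T K t x - T K s x‖ ≤ ‖T K s‖ * (5 * |t - s| * ‖x‖) := by
    have : ∀ᶠ t in 𝓝 s, |t - s| < 1 := by
      filter_upwards [Metric.ball_mem_nhds s one_pos] with t ht
      rwa [Metric.mem_ball, Real.dist_eq] at ht
    filter_upwards [this] with t ht
    have e : T K t x - T K s x = T K s (T K (t - s) x - x) := by
      rw [map_sub]
      congr 1
      have : T K t = T K s * T K (t - s) := by rw [← T_add]; congr 1; ring
      rw [this]; rfl
    rw [e]
    refine ((T K s).le_opNorm _).trans ?_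
    gcongr
    exact T_sub_norm ht.le x
  have h2 : Tendsto (fun t => ‖T K s‖ * (5 * |t - s| * ‖x‖)) (𝓝 s) (𝓝 0) := by
    have : Continuous (fun t => ‖T K s‖ * (5 * |t - s| * ‖x‖)) := by fun_prop
    have h3 := this.tendsto s
    simpa using h3
  exact squeeze_zero' (Eventually.of_forall fun _ => norm_nonneg _) h1 h2

/-- orbits tend to zero along the windows -/
lemma T_small (x : C₀(ℕ, K × K)) {ε : ℝ} (hε : 0 < ε) :
    ∃ m : ℝ, ∀ t, m ≤ t → ∀ k, L k ^ 2 ≤ t → t ≤ L k ^ 3 → ‖T K t x‖ < ε := by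
  have h1 := (c0_tendsto K x).norm
  rw [norm_zero] at h1
  obtain ⟨N, hN⟩ := (h1.eventually (gt_mem_nhds (by positivity : 0 < ε / 4))).exists_forall_of_atTop
  have h2 : ∀ᶠ t in atTop, ∀ i ∈ Finset.range N, nb t i < ε / (2 * (‖x‖ + 1)) := by
    rw [Filter.eventually_all_finset]
    intro i _
    exact (nb_tendsto i).eventually (gt_mem_nhds (by positivity))
  obtain ⟨m, hm⟩ := h2.exists_forall_of_atTop
  refine ⟨m, fun t ht k hk1 hk2 => ?_⟩
  refine lt_of_le_of_lt (c0_norm_le (half_pos hε).le ?_) (half_lt_self hε)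
  intro i
  rw [T_apply]
  refine (act_norm t i (x i)).trans ?_
  by_cases hi : i < N
  · have h3 := hm t ht i (Finset.mem_range.2 hi)
    rw [lt_div_iff₀ (by positivity)] at h3
    have h4 := c0_le x i
    have h5 := nb_nonneg t i
    nlinarith [norm_nonneg x]
  · have h3 := nb_win hk1 hk2 i
    have h4 := hN i (by omega)
    have h5 := nb_nonneg t i
    nlinarith [norm_nonneg (x i)]

/-- finitely supported sequences -/
def X0 (K : Type) [RCLike K] : Submodule K (C₀(ℕ, K × K)) where
  carrier := {x | ∃ m, ∀ i, m ≤ i → x i = 0}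
  add_mem' := by
    rintro x y ⟨m, hm⟩ ⟨m', hm'⟩
    refine ⟨max m m', fun i hi => ?_⟩
    change x i + y i = 0
    rw [hm i (le_trans (le_max_left _ _) hi), hm' i (le_trans (le_max_right _ _) hi), add_zero]
  zero_mem' := ⟨0, fun _ _ => rfl⟩
  smul_mem' := by
    rintro r x ⟨m, hm⟩
    refine ⟨m, fun i hi => ?_⟩
    change r • x i = 0
    rw [hm i hi, smul_zero]

lemma X0_dense : Dense (X0 K : Set (C₀(ℕ, K × K))) := by
  rw [Metric.dense_iff]
  intro x r hr
  have h1 := (c0_tendsto K x).norm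
  rw [norm_zero] at h1
  obtain ⟨m, hm⟩ := (h1.eventually (gt_mem_nhds (half_pos hr))).exists_forall_of_atTop
  have h2 : Tendsto (fun i => if i < m then x i else 0) atTop (𝓝 0) := by
    apply tendsto_const_nhds.congr'
    filter_upwards [eventually_ge_atTop m] with i hi
    rw [if_neg (by omega)]
  refine ⟨mkC0 K _ h2, ?_, m, ?_⟩
  · rw [Metric.mem_ball, dist_comm, dist_eq_norm]
    refine lt_of_le_of_lt (c0_norm_le (half_pos hr).le ?_) (half_lt_self hr)
    intro i
    change ‖x i - (if i < m then x i else 0)‖ ≤ r / 2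
    by_cases hi : i < m
    · rw [if_pos hi, sub_self, norm_zero]; positivity
    · rw [if_neg hi, sub_zero]; exact (hm i (by omega)).le
  · intro i hi
    change (if i < m then x i else 0) = 0
    rw [if_neg (by omega)]

lemma X0_null (x : C₀(ℕ, K × K)) (hx : x ∈ X0 K) : Tendsto (fun t => T K t x) atTop (𝓝 0) := by
  obtain ⟨m, hm⟩ := hx
  rw [Metric.tendsto_nhds]
  intro ε hε
  have h2 : ∀ᶠ t in atTop, ∀ i ∈ Finset.range m, nb t i < ε / (2 * (‖x‖ + 1)) := by
    rw [Filter.eventually_all_finset]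
    intro i _
    exact (nb_tendsto i).eventually (gt_mem_nhds (by positivity))
  filter_upwards [h2] with t ht
  rw [dist_zero_right]
  refine lt_of_le_of_lt (c0_norm_le (half_pos hε).le ?_) (half_lt_self hε)
  intro i
  rw [T_apply]
  refine (act_norm t i (x i)).trans ?_
  by_cases hi : i < m
  · have h3 := ht i (Finset.mem_range.2 hi)
    rw [lt_div_iff₀ (by positivity)] at h3
    have h4 := c0_le x i
    have h5 := nb_nonneg t i
    nlinarith [norm_nonneg x]
  · rw [hm i (by omega), norm_zero, mul_zero]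
    positivity

/-- the irregular vector -/
def z (K : Type) [RCLike K] : C₀(ℕ, K × K) :=
  mkC0 K (fun k => (0, ((1 / ((k : ℝ) + 1) : ℝ) : K))) (by
    rw [tendsto_zero_iff_norm_tendsto_zero]
    have : (fun k : ℕ => ‖((0 : K), ((1 / ((k : ℝ) + 1) : ℝ) : K))‖) =
        fun k : ℕ => 1 / ((k : ℝ) + 1) := by
      ext k
      rw [Prod.norm_def, norm_zero, RCLike.norm_ofReal, abs_of_pos (by positivity),
        max_eq_right (by positivity)]
    rw [this]
    exact tendsto_one_div_add_atTop_nhds_zero_nat)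

lemma z_large {t : ℝ} {k : ℕ} (h1 : L k / ((k : ℝ) + 1) ≤ t) (h2 : t ≤ L k) :
    ((k : ℝ) + 1) * Real.exp (-1) ≤ ‖T K t (z K)‖ := by
  have hL := L_pos k
  have hk : (0 : ℝ) < (k : ℝ) + 1 := by positivity
  refine le_trans ?_ (c0_le (T K t (z K)) k)
  rw [T_apply]
  have e : act K t k ((z K) k) =
      ((Real.exp (-(t / L k)) : ℝ) : K) • ((((M k * (t / L k)) * (1 / ((k : ℝ) + 1)) : ℝ) : K),
        ((1 / ((k : ℝ) + 1) : ℝ) : K)) := by
    change act K t k (0, ((1 / ((k : ℝ) + 1) : ℝ) : K)) = _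
    unfold act
    simp only [zero_add]
    rw [← RCLike.ofReal_mul]
  rw [e, norm_smul, RCLike.norm_ofReal, abs_of_pos (Real.exp_pos _)]
  have h3 : 1 / ((k : ℝ) + 1) ≤ t / L k := by
    rw [div_le_div_iff₀ hk hL]
    rw [div_le_iff₀ hk] at h1
    linarith
  have h4 : t / L k ≤ 1 := by rw [div_le_one hL]; exact h2
  have h5 : (k : ℝ) + 1 ≤ ‖((((M k * (t / L k)) * (1 / ((k : ℝ) + 1)) : ℝ) : K),
        ((1 / ((k : ℝ) + 1) : ℝ) : K))‖ := by
    refine le_trans ?_ (norm_fst_le _)
    simp only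
    rw [RCLike.norm_ofReal]
    refine le_trans ?_ (le_abs_self _)
    have h6 : M k * (1 / ((k : ℝ) + 1)) * (1 / ((k : ℝ) + 1)) = (k : ℝ) + 1 := by
      unfold M
      field_simp
    calc (k : ℝ) + 1 = M k * (1 / ((k : ℝ) + 1)) * (1 / ((k : ℝ) + 1)) := h6.symm
      _ ≤ M k * (t / L k) * (1 / ((k : ℝ) + 1)) := by
        apply mul_le_mul_of_nonneg_right _ (by positivity)
        exact mul_le_mul_of_nonneg_left h3 (M_pos k).le
  have h7 : Real.exp (-1) ≤ Real.exp (-(t / L k)) := Real.exp_le_exp.2 (by linarith)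
  have h8 := Real.exp_pos (-1)
  calc ((k : ℝ) + 1) * Real.exp (-1) = Real.exp (-1) * ((k : ℝ) + 1) := mul_comm _ _
    _ ≤ _ := mul_le_mul h7 h5 hk.le (Real.exp_pos _).le

end

end Q82.JordanSg
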