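import Pool.Agent.Q82.C0Sg

/-! # A bounded Kato-Voigt generator on `ℓ^1` -/

namespace Q82.KV

open Filter Topology Set Q82.C0Sg
open scoped ENNReal

noncomputable section

/-- `ℓ^1(ℕ)` -/
abbrev E : Type := lp (fun _ : ℕ => ℝ) 1

lemma mem_iff {f : ℕ → ℝ} : Memℓp f 1 ↔ Summable (fun n => |f n|) := by
  rw [memℓp_gen_iff (by simp)]
  simp

lemma summ (x : E) : Summable (fun n => |x n|) := mem_iff.1 (lp.memℓp x)

lemma summ' (x : E) : Summable (fun n => x n) := (summ x).of_abs

lemma norm_eq (x : E) : ‖x‖ = ∑' n, |x n| := by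
  rw [lp.norm_eq_tsum_rpow (by simp)]
  simp

/-- make an element of `ℓ^1` -/
def mk (f : ℕ → ℝ) (h : Summable (fun n => |f n|)) : E := ⟨f, mem_iff.2 h⟩

@[simp] lemma mk_apply (f : ℕ → ℝ) (h : Summable (fun n => |f n|)) (n : ℕ) : (mk f h) n = f n := rfl

lemma apply_le (x : E) (n : ℕ) : |x n| ≤ ‖x‖ := by
  rw [norm_eq]
  exact (summ x).le_tsum n (fun _ _ => abs_nonneg _)

lemma tendsto_apply {α : Type} {l : Filter α} {F : α → E} {y : E} (h : Tendsto F l (𝓝 y)) (n : ℕ) :
    Tendsto (fun t => F t n) l (𝓝 (y n)) := by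
  rw [tendsto_iff_norm_sub_tendsto_zero] at h ⊢
  refine squeeze_zero (fun _ => norm_nonneg _) (fun t => ?_) h
  exact apply_le (F t - y) n

/-- dominated convergence in `ℓ^1` -/
lemma tendsto_dom {α : Type} {l : Filter α} {F : α → E} {y : E} {bound : ℕ → ℝ}
    (hb : Summable bound) (h1 : ∀ n, Tendsto (fun t => F t n) l (𝓝 (y n)))
    (h2 : ∀ᶠ t in l, ∀ n, |F t n - y n| ≤ bound n) : Tendsto F l (𝓝 y) := by
  rw [tendsto_iff_norm_sub_tendsto_zero]
  have h3 := tendsto_tsum_of_dominated_convergence (𝓕 := l) (f := fun t n => |F t n - y n|)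
    (g := fun _ => (0 : ℝ)) hb (fun n => by
      have := ((h1 n).sub_const (y n)).abs
      simpa using this) (by
      filter_upwards [h2] with t ht n
      rw [Real.norm_eq_abs, abs_abs]
      exact ht n)
  rw [tsum_zero] at h3
  refine h3.congr fun t => ?_
  rw [norm_eq]
  rfl

/-- the sum functional -/
def tot (x : E) : ℝ := ∑' n, x n

lemma tot_add (x y : E) : tot (x + y) = tot x + tot y := (summ' x).tsum_add (summ' y)

lemma tot_smul (r : ℝ) (x : E) : tot (r • x) = r * tot x := tsum_mul_left

lemma tot_le (x : E) : |tot x| ≤ ‖x‖ := by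
  rw [norm_eq]
  have := norm_tsum_le_tsum_norm (f := fun n => x n) (summ x)
  unfold tot
  simpa [Real.norm_eq_abs] using this

/-- `tot` as a continuous linear functional -/
def totL : E →L[ℝ] ℝ :=
  LinearMap.mkContinuous
    { toFun := tot, map_add' := tot_add, map_smul' := fun r x => tot_smul r x } 1
    (fun x => by rw [one_mul]; exact tot_le x)

/-- the rates -/
def a (n : ℕ) : ℝ := 2 ^ (n + 1)

lemma a_pos (n : ℕ) : 0 < a n := by unfold a; positivity

lemma one_le_a (n : ℕ) : 1 ≤ a n := one_le_pow₀ (by norm_num)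

lemma inv_a_summable : Summable (fun n => |(a n)⁻¹|) := by
  have h : Summable (fun n : ℕ => ((1 : ℝ) / 2) ^ (n + 1)) :=
    (summable_nat_add_iff 1).2 (summable_geometric_of_lt_one (by norm_num) (by norm_num))
  refine h.congr fun n => ?_
  rw [abs_of_pos (inv_pos.2 (a_pos n)), one_div, inv_pow]
  rfl

/-- the probability vector `π_n = 2^{-(n+1)}` -/
def pv : E := mk (fun n => (a n)⁻¹) inv_a_summable

lemma pi_apply (n : ℕ) : pv n = (a n)⁻¹ := rfl

lemma tot_pi : tot pv = 1 := by
  unfold tot
  have : (fun n => pv n) = fun n : ℕ => (1 : ℝ) / 2 / 2 ^ n := by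
    ext n
    rw [pi_apply]
    unfold a
    rw [pow_succ]
    field_simp
  rw [this]
  exact tsum_geometric_two' 1

/-- the domain of multiplication by `a` -/
def D : Submodule ℝ E where
  carrier := {x | Summable (fun n => |a n * x n|)}
  add_mem' := by
    intro x y hx hy
    refine Summable.of_nonneg_of_le (fun _ => abs_nonneg _) (fun n => ?_) (hx.add hy)
    change |a n * (x n + y n)| ≤ _
    rw [mul_add]
    exact abs_add_le _ _
  zero_mem' := by
    change Summable (fun n => |a n * (0 : E) n|)
    simp only [lp.coeFn_zero, Pi.zero_apply, mul_zero, abs_zero]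
    exact summable_zero
  smul_mem' := by
    intro r x hx
    have h := hx.mul_left |r|
    refine h.congr fun n => ?_
    change |r| * |a n * x n| = |a n * (r * x n)|
    rw [← abs_mul]
    congr 1
    ring

/-- multiplication by `a` on its domain -/
def mulA (x : D) : E := mk (fun n => a n * (x : E) n) x.2

lemma mulA_apply (x : D) (n : ℕ) : mulA x n = a n * (x : E) n := rfl

/-- the bounded operator `B x = (∑ x) π - x` -/
def B : E →L[ℝ] E := totL.smulRight pv - 1

lemma B_apply (x : E) : B x = tot x • pv - x := rfl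

/-- multiplication semigroup `e^{-a t}` -/
def S1f (t : ℝ) (x : E) : E :=
  mk (fun n => Real.exp (-(a n * max t 0)) * x n) (by
    refine Summable.of_nonneg_of_le (fun _ => abs_nonneg _) (fun n => ?_) (summ x)
    rw [abs_mul, abs_of_pos (Real.exp_pos _)]
    have : Real.exp (-(a n * max t 0)) ≤ 1 := by
      rw [Real.exp_le_one_iff]
      have := a_pos n
      have := le_max_right t 0
      nlinarith
    nlinarith [abs_nonneg (x n)])

lemma S1f_apply (t : ℝ) (x : E) (n : ℕ) : S1f t x n = Real.exp (-(a n * max t 0)) * x n := rfl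

lemma S1f_norm (t : ℝ) (x : E) : ‖S1f t x‖ ≤ ‖x‖ := by
  rw [norm_eq, norm_eq]
  refine (summ (S1f t x)).tsum_le_tsum (fun n => ?_) (summ x)
  rw [S1f_apply, abs_mul, abs_of_pos (Real.exp_pos _)]
  have : Real.exp (-(a n * max t 0)) ≤ 1 := by
    rw [Real.exp_le_one_iff]
    have := a_pos n
    have := le_max_right t 0
    nlinarith
  nlinarith [abs_nonneg (x n)]

/-- multiplication semigroup `e^{-a t}` -/
def S1 (t : ℝ) : E →L[ℝ] E :=
  LinearMap.mkContinuous
    { toFun := S1f t
      map_add' := fun x y => by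
        ext n
        change _ * (x n + y n) = _ * x n + _ * y n
        ring
      map_smul' := fun r x => by
        ext n
        change _ * (r * x n) = r * (_ * x n)
        ring } 1 (fun x => by rw [one_mul]; exact S1f_norm t x)

lemma S1_apply (t : ℝ) (x : E) (n : ℕ) : S1 t x n = Real.exp (-(a n * max t 0)) * x n := rfl

lemma S1_csg : IsCSg S1 where
  zero := by
    ext x n
    rw [S1_apply]
    simp
  add := by
    intro s t hs ht
    ext x n
    change S1 (s + t) x n = S1 s (S1 t x) n
    rw [S1_apply, S1_apply, S1_apply, max_eq_left hs, max_eq_left ht, max_eq_left (add_nonneg hs ht),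
      ← mul_assoc, ← Real.exp_add]
    congr 2
    ring
  cont := by
    intro x
    apply Continuous.continuousOn
    rw [continuous_iff_continuousAt]
    intro s
    apply tendsto_dom ((summ x).mul_left 2)
    · intro n
      have : Continuous (fun t : ℝ => Real.exp (-(a n * max t 0)) * x n) := by fun_prop
      exact this.tendsto s
    · refine Eventually.of_forall fun t n => ?_
      rw [S1_apply, S1_apply, ← sub_mul, abs_mul]
      apply mul_le_mul_of_nonneg_right _ (abs_nonneg _)
      have h1 : ∀ u : ℝ, 0 < Real.exp (-(a n * max u 0)) ∧ Real.exp (-(a n * max u 0)) ≤ 1 := by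
        intro u
        refine ⟨Real.exp_pos _, ?_⟩
        rw [Real.exp_le_one_iff]
        have := a_pos n
        have := le_max_right u 0
        nlinarith
      rw [abs_le]
      constructor <;> linarith [(h1 t).1, (h1 t).2, (h1 s).1, (h1 s).2]
  contr := fun t _ => LinearMap.mkContinuous_norm_le _ zero_le_one _

lemma exp_bound {c t : ℝ} (hc : 0 ≤ c) (ht : 0 < t) :
    |t⁻¹ * (Real.exp (-(c * t)) - 1) + c| ≤ c := by
  have h1 : Real.exp (-(c * t)) ≤ 1 := by
    rw [Real.exp_le_one_iff]; nlinarith
  have h2 : 1 - c * t ≤ Real.exp (-(c * t)) := by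
    have := Real.add_one_le_exp (-(c * t)); linarith
  have h3 : t⁻¹ * (Real.exp (-(c * t)) - 1) ≤ 0 :=
    mul_nonpos_of_nonneg_of_nonpos (inv_nonneg.2 ht.le) (by linarith)
  have h4 : -c ≤ t⁻¹ * (Real.exp (-(c * t)) - 1) := by
    rw [inv_mul_eq_div, le_div_iff₀ ht]
    linarith
  rw [abs_le]
  constructor <;> linarith

lemma exp_tendsto (c : ℝ) :
    Tendsto (fun t : ℝ => t⁻¹ * (Real.exp (-(c * t)) - 1)) (𝓝[>] 0) (𝓝 (-c)) := by
  have h : HasDerivAt (fun t : ℝ => Real.exp (-(c * t))) (-c) 0 := by
    have h1 : HasDerivAt (fun t : ℝ => -(c * t)) (-(c * 1)) 0 := ((hasDerivAt_id (0 : ℝ)).const_mul c).neg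
    have h2 := h1.exp
    simpa using h2
  have h2 := h.hasDerivWithinAt (s := Ioi 0)
  rw [hasDerivWithinAt_iff_tendsto_slope' (by simp)] at h2
  refine h2.congr fun t => ?_
  simp [slope]

lemma S1_gen (x y : E) : Gen S1 x y ↔ x ∈ D ∧ ∀ n, y n = -(a n * x n) := by
  constructor
  · intro h
    have h1 : ∀ n, y n = -(a n * x n) := by
      intro n
      have e1 := tendsto_apply h n
      have e2 : Tendsto (fun t : ℝ => t⁻¹ * (Real.exp (-(a n * t)) - 1) * x n) (𝓝[>] 0)
          (𝓝 (-(a n) * x n)) := (exp_tendsto (a n)).mul_const _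
      have e3 : Tendsto (fun t : ℝ => (t⁻¹ • (S1 t x - x)) n) (𝓝[>] 0) (𝓝 (-(a n) * x n)) := by
        refine e2.congr' ?_
        filter_upwards [self_mem_nhdsWithin] with t ht
        have ht0 : (0 : ℝ) < t := ht
        change _ = t⁻¹ * (S1 t x n - x n)
        rw [S1_apply, max_eq_left ht0.le]
        ring
      have := tendsto_nhds_unique e1 e3
      rw [this]; ring
    refine ⟨?_, h1⟩
    change Summable (fun n => |a n * x n|)
    refine (summ y).congr fun n => ?_
    rw [h1, abs_neg]
  · rintro ⟨hx, hy⟩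
    apply tendsto_dom hx
    · intro n
      have e2 : Tendsto (fun t : ℝ => t⁻¹ * (Real.exp (-(a n * t)) - 1) * x n) (𝓝[>] 0)
          (𝓝 (-(a n) * x n)) := (exp_tendsto (a n)).mul_const _
      rw [hy n, show -(a n * x n) = -(a n) * x n by ring]
      refine e2.congr' ?_
      filter_upwards [self_mem_nhdsWithin] with t ht
      have ht0 : (0 : ℝ) < t := ht
      change _ = t⁻¹ * (S1 t x n - x n)
      rw [S1_apply, max_eq_left ht0.le]
      ring
    · filter_upwards [self_mem_nhdsWithin] with t ht n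
      have ht0 : (0 : ℝ) < t := ht
      change |t⁻¹ * (S1 t x n - x n) - y n| ≤ _
      rw [S1_apply, max_eq_left ht0.le, hy n]
      have e : t⁻¹ * (Real.exp (-(a n * t)) * x n - x n) - -(a n * x n) =
          (t⁻¹ * (Real.exp (-(a n * t)) - 1) + a n) * x n := by ring
      rw [e, abs_mul, abs_mul, abs_of_pos (a_pos n)]
      exact mul_le_mul_of_nonneg_right (exp_bound (a_pos n).le ht0) (abs_nonneg _)

/-- the semigroup `e^{tB}` -/
def J (t : ℝ) : E →L[ℝ] E := Real.exp (-t) • (1 : E →L[ℝ] E) + (1 - Real.exp (-t)) • totL.smulRight pv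

lemma J_apply (t : ℝ) (x : E) : J t x = Real.exp (-t) • x + ((1 - Real.exp (-t)) * tot x) • pv := by
  change Real.exp (-t) • x + (1 - Real.exp (-t)) • (tot x • pv) = _
  rw [smul_smul]

lemma J_sub (t : ℝ) (x : E) : J t x - x = (1 - Real.exp (-t)) • B x := by
  rw [J_apply, B_apply, smul_sub, smul_smul, sub_smul 1 (Real.exp (-t)) x, one_smul]
  abel

lemma norm_pi : ‖pv‖ = 1 := by
  rw [norm_eq, ← tot_pi]
  unfold tot
  congr 1
  ext n
  rw [pi_apply, abs_of_pos (inv_pos.2 (a_pos n))]

lemma J_csg : IsCSg J where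
  zero := by
    ext1 x
    rw [J_apply]
    simp
  add := by
    intro s t _ _
    ext1 x
    change J (s + t) x = J s (J t x)
    have e : tot (J t x) = tot x := by
      rw [J_apply, tot_add, tot_smul, tot_smul, tot_pi]; ring
    rw [J_apply s, e, J_apply, J_apply, smul_add, smul_smul, smul_smul, neg_add, Real.exp_add,
      add_assoc, ← add_smul]
    congr 2
    ring
  cont := by
    intro x
    apply Continuous.continuousOn
    simp only [J_apply]
    fun_prop
  contr := by
    intro t ht
    apply ContinuousLinearMap.opNorm_le_bound _ zero_le_one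
    intro x
    rw [J_apply, one_mul]
    have h1 : Real.exp (-t) ≤ 1 := by rw [Real.exp_le_one_iff]; linarith
    have h0 := Real.exp_pos (-t)
    refine (norm_add_le _ _).trans ?_
    rw [norm_smul, norm_smul, norm_pi, Real.norm_of_nonneg h0.le, mul_one, norm_mul,
      Real.norm_of_nonneg (by linarith), Real.norm_eq_abs]
    have := tot_le x
    nlinarith

lemma J_pos {t : ℝ} (ht : 0 ≤ t) {x : E} (hx : ∀ n, 0 ≤ x n) (n : ℕ) : 0 ≤ J t x n := by
  rw [J_apply]
  change 0 ≤ Real.exp (-t) * x n + ((1 - Real.exp (-t)) * tot x) * pv n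
  have h1 : Real.exp (-t) ≤ 1 := by rw [Real.exp_le_one_iff]; linarith
  have h0 := Real.exp_pos (-t)
  have h2 : 0 ≤ tot x := tsum_nonneg hx
  have h3 : 0 ≤ pv n := by rw [pi_apply]; exact inv_nonneg.2 (a_pos n).le
  have h4 : 0 ≤ 1 - Real.exp (-t) := by linarith
  have := hx n
  positivity

lemma J_gen (x : E) : Gen J x (B x) := by
  have h := (exp_tendsto 1).neg.smul_const (B x)
  rw [neg_neg, one_smul] at h
  refine h.congr fun t => ?_
  rw [J_sub, smul_smul, one_mul]
  congr 1
  ring

/-- finitely supported vectors are dense, so `D` is dense -/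
lemma D_dense (x : E) {ε : ℝ} (hε : 0 < ε) : ∃ x' ∈ D, ‖x' - x‖ ≤ ε := by
  have h := lp.hasSum_single (p := 1) (by simp) x
  rw [HasSum, Metric.tendsto_nhds] at h
  obtain ⟨s, hs⟩ := (h ε hε).exists
  refine ⟨∑ i ∈ s, lp.single 1 i (x i), ?_, ?_⟩
  · apply Submodule.sum_mem
    intro i _
    change Summable (fun n => |a n * (lp.single 1 i (x i) : E) n|)
    apply summable_of_ne_finset_zero (s := {i})
    intro n hn
    rw [Finset.mem_singleton] at hn
    rw [lp.single_apply, Pi.single_eq_of_ne hn, mul_zero, abs_zero]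
  · rw [dist_eq_norm] at hs
    exact hs.le

/-- every contraction semigroup whose generator extends `B` restricted to `D` is `J` -/
theorem unique_J {S : ℝ → E →L[ℝ] E} (hS : IsCSg S) (h : ∀ x ∈ D, Gen S x (B x)) {t : ℝ}
    (ht : 0 ≤ t) : S t = J t := by
  have hall : ∀ x, Gen S x (B x) := by
    intro x
    apply gen_closed hS
    intro ε hε
    obtain ⟨x', hx', hn⟩ := D_dense x (ε := ε / (‖B‖ + 1)) (by positivity)
    refine ⟨x', B x', h x' hx', ?_, ?_⟩
    · refine hn.trans ?_
      rw [div_le_iff₀ (by positivity)]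
      nlinarith [norm_nonneg B]
    · rw [← map_sub]
      refine (B.le_opNorm _).trans ?_
      rw [le_div_iff₀ (by positivity)] at hn
      nlinarith [norm_nonneg (x' - x)]
  have hpi : ∀ s, 0 ≤ s → S s pv = pv := by
    intro s hs
    have hB : B pv = 0 := by rw [B_apply, tot_pi, one_smul, sub_self]
    have h1 := constant_of_has_deriv_right_zero (f := fun s => S s pv) (a := 0) (b := s)
      ((hS.cont pv).mono Icc_subset_Ici_self) (by
        intro u hu
        have := deriv_right hS (hall pv) hu.1
        rwa [hB, map_zero] at this) s ⟨hs, le_rfl⟩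
    simpa [hS.zero] using h1
  ext1 x
  have h1 := constant_of_has_deriv_right_zero
    (f := fun s => Real.exp s • (S s x - tot x • pv)) (a := 0) (b := t)
    (by
      apply ContinuousOn.smul Real.continuous_exp.continuousOn
      exact ((hS.cont x).mono Icc_subset_Ici_self).sub continuousOn_const) (by
      intro u hu
      have h2 := deriv_right hS (hall x) hu.1
      have h3 := (Real.hasDerivAt_exp u).hasDerivWithinAt (s := Ici u)
      have h4 := h3.smul (h2.sub_const (tot x • pv))
      have e : Real.exp u • S u (B x) + Real.exp u • (S u x - tot x • pv) = 0 := by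
        rw [B_apply, map_sub, map_smul, hpi u hu.1, ← smul_add]
        simp
      rwa [e] at h4) t ⟨ht, le_rfl⟩
  simp only [hS.zero, Real.exp_zero, one_smul] at h1
  have h5 : S t x - tot x • pv = Real.exp (-t) • (x - tot x • pv) := by
    have : Real.exp (-t) • (Real.exp t • (S t x - tot x • pv)) = Real.exp (-t) • (x - tot x • pv) := by
      rw [h1]; rfl
    rwa [smul_smul, ← Real.exp_add, neg_add_cancel, Real.exp_zero, one_smul] at this
  rw [J_apply, sub_mul, one_mul, sub_smul, ← smul_smul]
  rw [smul_sub] at h5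
  have h6 := sub_eq_iff_eq_add.1 h5
  rw [h6]
  abel

end

end Q82.KV
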