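import Mathlib

/-!
# Logarithmic potentials in the plane: basic estimates
-/

open Set MeasureTheory Filter Topology Metric
open scoped ENNReal InnerProductSpace

namespace Pool.Agent.Q82.LP

noncomputable section

/-- The square of the logarithm is integrable on discs. -/
theorem integrableOn_logsq (r : ℝ) : IntegrableOn (fun z : ℂ => (Real.log ‖z‖) ^ 2) (ball 0 r) := by
  rcases le_or_gt r 0 with hr | hr
  · rw [ball_eq_empty.2 hr]; exact integrableOn_empty
  rw [integrableOn_fun_norm_addHaar volume (f := fun y : ℝ => (Real.log y) ^ 2) (E := ℂ)]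
  rw [Complex.finrank_real_complex]
  have h1 : IntervalIntegrable (fun y : ℝ => (y * Real.log y) * Real.log y) volume 0 r :=
    intervalIntegral.intervalIntegrable_log'.continuousOn_mul Real.continuous_mul_log.continuousOn
  rw [intervalIntegrable_iff_integrableOn_Ioo_of_le hr.le] at h1
  refine h1.congr_fun (fun y _ => ?_) measurableSet_Ioo
  simp only [smul_eq_mul]
  norm_num
  ring

/-- The integral of the square of the logarithm over a disc. -/
def Lam (r : ℝ) : ℝ := ∫ z in ball (0 : ℂ) r, (Real.log ‖z‖) ^ 2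

theorem Lam_nonneg (r : ℝ) : 0 ≤ Lam r := setIntegral_nonneg measurableSet_ball fun _ _ => sq_nonneg _

theorem Lam_mono {r s : ℝ} (h : r ≤ s) : Lam r ≤ Lam s := by
  unfold Lam
  exact setIntegral_mono_set (integrableOn_logsq s) (Eventually.of_forall fun _ => sq_nonneg _)
    (Filter.Eventually.of_forall (ball_subset_ball h))

theorem Lam_tendsto : Tendsto (fun n : ℕ => Lam (1 / ((n : ℝ) + 1))) atTop (𝓝 0) := by
  have h1 := tendsto_setIntegral_of_antitone (μ := (volume : Measure ℂ))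
    (f := fun z : ℂ => (Real.log ‖z‖) ^ 2)
    (s := fun n : ℕ => ball (0 : ℂ) (1 / ((n : ℝ) + 1))) (fun _ => measurableSet_ball)
    (fun m n hmn => ball_subset_ball (Nat.one_div_le_one_div hmn))
    ⟨0, integrableOn_logsq _⟩
  have h2 : (⋂ n : ℕ, ball (0 : ℂ) (1 / ((n : ℝ) + 1))) = {0} := by
    ext z
    simp only [mem_iInter, mem_ball, dist_zero_right, mem_singleton_iff]
    constructor
    · intro h
      by_contra hz
      obtain ⟨n, hn⟩ := exists_nat_one_div_lt (norm_pos_iff.2 hz)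
      exact absurd (h n) (not_lt.2 hn.le)
    · rintro rfl n
      rw [norm_zero]; positivity
  rw [h2] at h1
  have h3 : ∫ z in ({0} : Set ℂ), (Real.log ‖z‖) ^ 2 = 0 := by
    rw [Measure.restrict_singleton]; simp
  rw [h3] at h1
  exact h1

/-! ### The disc -/

variable (c₀ : ℂ) (R : ℝ)

/-- Lebesgue measure on a disc. -/
abbrev mu : Measure ℂ := volume.restrict (closedBall c₀ R)

instance : IsFiniteMeasure (mu c₀ R) := by
  constructor
  rw [Measure.restrict_apply MeasurableSet.univ, univ_inter]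
  exact measure_closedBall_lt_top

/-- The Hilbert space. -/
abbrev E : Type := Lp ℝ 2 (mu c₀ R)

/-- The logarithmic kernel. -/
def k (x y : ℂ) : ℝ := -Real.log ‖x - y‖

theorem k_comm (x y : ℂ) : k x y = k y x := by unfold k; rw [norm_sub_rev]

theorem k_meas : Measurable (Function.uncurry k) := by
  unfold Function.uncurry k
  fun_prop

theorem k_meas_right (x : ℂ) : Measurable (k x) := by
  unfold k
  fun_prop

variable {c₀ R}

theorem sq_int (x : ℂ) {s : ℝ} (hs : ‖x - c₀‖ + R < s) :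
    Integrable (fun y => k x y ^ 2) (mu c₀ R) ∧ ∫ y, k x y ^ 2 ∂(mu c₀ R) ≤ Lam s := by
  set g : ℂ → ℝ := indicator (ball 0 s) (fun z => (Real.log ‖z‖) ^ 2) with hg
  have hgi : Integrable g := (integrable_indicator_iff measurableSet_ball).2 (integrableOn_logsq s)
  have hgn : ∀ z, 0 ≤ g z := fun z => indicator_nonneg (fun _ _ => sq_nonneg _) z
  have hgi' : Integrable (fun y => g (x - y)) := hgi.comp_sub_left x
  have heq : ∀ y ∈ closedBall c₀ R, k x y ^ 2 = g (x - y) := by
    intro y hy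
    rw [mem_closedBall, dist_eq_norm] at hy
    have h1 : x - y ∈ ball (0 : ℂ) s := by
      rw [mem_ball_zero_iff]
      calc ‖x - y‖ = ‖(x - c₀) - (y - c₀)‖ := by rw [sub_sub_sub_cancel_right]
        _ ≤ ‖x - c₀‖ + ‖y - c₀‖ := norm_sub_le _ _
        _ < s := by linarith
    rw [hg, indicator_of_mem h1]
    unfold k
    ring
  constructor
  · exact (hgi'.integrableOn).congr_fun (fun y hy => (heq y hy).symm) measurableSet_closedBall
  · calc ∫ y, k x y ^ 2 ∂(mu c₀ R) = ∫ y in closedBall c₀ R, g (x - y) :=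
          setIntegral_congr_fun measurableSet_closedBall heq
      _ ≤ ∫ y, g (x - y) := setIntegral_le_integral hgi' (Eventually.of_forall fun y => hgn _)
      _ = ∫ z, g z := integral_sub_left_eq_self g volume x
      _ = Lam s := by rw [hg, integral_indicator measurableSet_ball]; rfl

theorem k_memLp (x : ℂ) : MemLp (k x) 2 (mu c₀ R) :=
  (memLp_two_iff_integrable_sq (k_meas_right x).aestronglyMeasurable).2
    (sq_int x (lt_add_one _)).1

/-! ### The inequality of Cauchy and Schwarz -/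

theorem cs {X : Type} [MeasurableSpace X] {ν : Measure X} {f g : X → ℝ} (hf : MemLp f 2 ν)
    (hg : MemLp g 2 ν) : Integrable (fun y => f y * g y) ν ∧
      ∫ y, |f y * g y| ∂ν ≤ Real.sqrt (∫ y, f y ^ 2 ∂ν) * Real.sqrt (∫ y, g y ^ 2 ∂ν) := by
  have hf2 : Integrable (fun y => f y ^ 2) ν := hf.integrable_sq
  have hg2 : Integrable (fun y => g y ^ 2) ν := hg.integrable_sq
  have hint : Integrable (fun y => f y * g y) ν := hf.integrable_mul hg
  refine ⟨hint, ?_⟩
  set a := ∫ y, f y ^ 2 ∂ν with ha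
  set b := ∫ y, g y ^ 2 ∂ν with hb
  set c := ∫ y, |f y * g y| ∂ν with hc
  have ha0 : 0 ≤ a := integral_nonneg fun _ => sq_nonneg _
  have hb0 : 0 ≤ b := integral_nonneg fun _ => sq_nonneg _
  have hc0 : 0 ≤ c := integral_nonneg fun _ => abs_nonneg _
  -- discriminant
  have key : ∀ t : ℝ, 0 ≤ a * (t * t) + (-(2 * c)) * t + b := by
    intro t
    have h1 : 0 ≤ ∫ y, (t * |f y| - |g y|) ^ 2 ∂ν := integral_nonneg fun _ => sq_nonneg _
    have h2 : ∫ y, (t * |f y| - |g y|) ^ 2 ∂ν = a * (t * t) + (-(2 * c)) * t + b := by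
      have e : ∀ y, (t * |f y| - |g y|) ^ 2 = t * t * f y ^ 2 + (-(2 * t)) * |f y * g y| + g y ^ 2 := by
        intro y
        rw [abs_mul, ← sq_abs (f y), ← sq_abs (g y)]
        ring
      simp_rw [e]
      have i1 : Integrable (fun y => t * t * f y ^ 2 + (-(2 * t)) * |f y * g y|) ν :=
        (hf2.const_mul _).add (hint.abs.const_mul _)
      rw [integral_add i1 hg2,
        integral_add (hf2.const_mul _) (hint.abs.const_mul _), integral_const_mul,
        integral_const_mul]
      ring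
    rwa [h2] at h1
  have hd := discrim_le_zero key
  unfold discrim at hd
  have h3 : c ^ 2 ≤ a * b := by nlinarith
  rw [← Real.sqrt_mul ha0]
  exact Real.le_sqrt_of_sq_le h3

theorem norm_sq_eq {X : Type} [MeasurableSpace X] {ν : Measure X} (u : Lp ℝ 2 ν) :
    ‖u‖ ^ 2 = ∫ y, u y ^ 2 ∂ν := by
  rw [← real_inner_self_eq_norm_sq, L2.inner_def]
  refine integral_congr_ae (Eventually.of_forall fun y => ?_)
  show u y * u y = u y ^ 2
  ring

theorem cs' {X : Type} [MeasurableSpace X] {ν : Measure X} {f : X → ℝ} (hf : MemLp f 2 ν)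
    (u : Lp ℝ 2 ν) : Integrable (fun y => f y * u y) ν ∧
      ∫ y, |f y * u y| ∂ν ≤ Real.sqrt (∫ y, f y ^ 2 ∂ν) * ‖u‖ := by
  obtain ⟨h1, h2⟩ := cs hf (Lp.memLp u)
  refine ⟨h1, h2.trans (le_of_eq ?_)⟩
  rw [← norm_sq_eq, Real.sqrt_sq (norm_nonneg _)]

/-! ### Potentials -/

/-- The logarithmic potential. -/
def pot (u : E c₀ R) (x : ℂ) : ℝ := ∫ y, k x y * u y ∂(mu c₀ R)

theorem ku_int (u : E c₀ R) (x : ℂ) : Integrable (fun y => k x y * u y) (mu c₀ R) :=
  (cs' (k_memLp x) u).1

theorem abs_ku_le (u : E c₀ R) (x : ℂ) {s : ℝ} (hs : ‖x - c₀‖ + R < s) :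
    ∫ y, |k x y * u y| ∂(mu c₀ R) ≤ Real.sqrt (Lam s) * ‖u‖ :=
  (cs' (k_memLp x) u).2.trans
    (mul_le_mul_of_nonneg_right (Real.sqrt_le_sqrt (sq_int x hs).2) (norm_nonneg _))

theorem pot_le (u : E c₀ R) (x : ℂ) {s : ℝ} (hs : ‖x - c₀‖ + R < s) :
    |pot u x| ≤ Real.sqrt (Lam s) * ‖u‖ :=
  (abs_integral_le_integral_abs).trans (abs_ku_le u x hs)

theorem pot_add (u v : E c₀ R) (x : ℂ) : pot (u + v) x = pot u x + pot v x := by
  unfold pot
  rw [← integral_add (ku_int u x) (ku_int v x)]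
  refine integral_congr_ae ?_
  filter_upwards [Lp.coeFn_add u v] with y hy
  rw [hy, Pi.add_apply]; ring

theorem pot_smul (c : ℝ) (u : E c₀ R) (x : ℂ) : pot (c • u) x = c * pot u x := by
  unfold pot
  rw [← integral_const_mul]
  refine integral_congr_ae ?_
  filter_upwards [Lp.coeFn_smul c u] with y hy
  rw [hy, Pi.smul_apply, smul_eq_mul]; ring

theorem pot_neg (u : E c₀ R) (x : ℂ) : pot (-u) x = -pot u x := by
  have := pot_smul (-1) u x
  rw [neg_one_smul] at this
  rw [this]; ring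

theorem pot_meas (u : E c₀ R) : StronglyMeasurable (pot u) := by
  have : StronglyMeasurable (Function.uncurry fun (x y : ℂ) => k x y * u y) := by
    apply StronglyMeasurable.mul
    · exact k_meas.stronglyMeasurable
    · exact (Lp.stronglyMeasurable u).comp_measurable measurable_snd
  exact this.integral_prod_right

/-! ### Continuity -/

/-- The regularized potential. -/
def potr (ρ : ℝ) (u : E c₀ R) (x : ℂ) : ℝ := ∫ y, -Real.log (max ‖x - y‖ ρ) * u y ∂(mu c₀ R)

theorem u_int (u : E c₀ R) : Integrable (fun y => u y) (mu c₀ R) :=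
  (Lp.memLp u).integrable (by norm_num)

theorem kr_cont {ρ : ℝ} (hρ : 0 < ρ) : Continuous fun p : ℂ × ℂ => -Real.log (max ‖p.1 - p.2‖ ρ) := by
  refine Continuous.neg (Continuous.log (by fun_prop) fun p => ?_)
  exact (lt_of_lt_of_le hρ (le_max_right _ _)).ne'

theorem kr_bound {ρ : ℝ} (hρ : 0 < ρ) (x : ℂ) : ∃ C : ℝ, ∀ x' ∈ closedBall x 1,
    ∀ y ∈ closedBall c₀ R, ‖-Real.log (max ‖x' - y‖ ρ)‖ ≤ C := by
  obtain ⟨C, hC⟩ := ((isCompact_closedBall x 1).prod
    (isCompact_closedBall c₀ R)).exists_bound_of_continuousOn (kr_cont hρ).continuousOn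
  exact ⟨C, fun x' hx' y hy => hC (x', y) ⟨hx', hy⟩⟩

theorem kru_int {ρ : ℝ} (hρ : 0 < ρ) (u : E c₀ R) (x : ℂ) :
    Integrable (fun y => -Real.log (max ‖x - y‖ ρ) * u y) (mu c₀ R) := by
  obtain ⟨C, hC⟩ := kr_bound (c₀ := c₀) (R := R) hρ x
  refine (u_int u).bdd_mul (c := C) ?_ ?_
  · exact ((kr_cont hρ).comp (by fun_prop : Continuous fun y : ℂ => (x, y))).aestronglyMeasurable
  · rw [ae_restrict_iff' measurableSet_closedBall]
    exact Eventually.of_forall fun y hy => hC x (mem_closedBall_self zero_le_one) y hy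

theorem potr_cont {ρ : ℝ} (hρ : 0 < ρ) (u : E c₀ R) : Continuous (potr ρ u) := by
  rw [continuous_iff_continuousAt]
  intro x
  obtain ⟨C, hC⟩ := kr_bound (c₀ := c₀) (R := R) hρ x
  refine continuousAt_of_dominated (bound := fun y => C * ‖u y‖) ?_ ?_ ?_ ?_
  · exact Eventually.of_forall fun x' => (kru_int hρ u x').1
  · filter_upwards [closedBall_mem_nhds x one_pos] with x' hx'
    rw [ae_restrict_iff' measurableSet_closedBall]
    refine Eventually.of_forall fun y hy => ?_
    rw [norm_mul]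
    exact mul_le_mul_of_nonneg_right (hC x' hx' y hy) (norm_nonneg _)
  · exact (u_int u).norm.const_mul C
  · refine Eventually.of_forall fun y => ?_
    refine ContinuousAt.mul ?_ continuousAt_const
    exact ((kr_cont hρ).comp (by fun_prop : Continuous fun x : ℂ => (x, y))).continuousAt

theorem pot_sub_potr {ρ : ℝ} (hρ : 0 < ρ) (hρ1 : ρ ≤ 1) (u : E c₀ R) (x : ℂ) :
    |pot u x - potr ρ u x| ≤ Real.sqrt (Lam ρ) * ‖u‖ := by
  set h : ℂ → ℝ := fun y => indicator (ball 0 ρ) (fun z => Real.log ‖z‖) (x - y) with hh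
  have hgi : Integrable (indicator (ball (0 : ℂ) ρ) (fun z => (Real.log ‖z‖) ^ 2)) :=
    (integrable_indicator_iff measurableSet_ball).2 (integrableOn_logsq ρ)
  have hgi' := hgi.comp_sub_left x
  have hsq : ∀ y, h y ^ 2 = indicator (ball (0 : ℂ) ρ) (fun z => (Real.log ‖z‖) ^ 2) (x - y) := by
    intro y
    rw [hh]
    dsimp only
    by_cases hy : x - y ∈ ball (0 : ℂ) ρ
    · rw [indicator_of_mem hy, indicator_of_mem hy]
    · rw [indicator_of_notMem hy, indicator_of_notMem hy]; norm_num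
  have hmeas : Measurable h := by
    rw [hh]
    exact (Measurable.indicator (by fun_prop) measurableSet_ball).comp (by fun_prop)
  have hmem : MemLp h 2 (mu c₀ R) := by
    rw [memLp_two_iff_integrable_sq hmeas.aestronglyMeasurable]
    simp_rw [hsq]
    exact hgi'.restrict
  have hint : ∫ y, h y ^ 2 ∂(mu c₀ R) ≤ Lam ρ := by
    simp_rw [hsq]
    calc ∫ y in closedBall c₀ R, indicator (ball (0 : ℂ) ρ) (fun z => (Real.log ‖z‖) ^ 2) (x - y)
        ≤ ∫ y, indicator (ball (0 : ℂ) ρ) (fun z => (Real.log ‖z‖) ^ 2) (x - y) :=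
          setIntegral_le_integral hgi' (Eventually.of_forall fun y =>
            indicator_nonneg (fun _ _ => sq_nonneg _) _)
      _ = ∫ z, indicator (ball (0 : ℂ) ρ) (fun z => (Real.log ‖z‖) ^ 2) z :=
          integral_sub_left_eq_self _ volume x
      _ = Lam ρ := by rw [integral_indicator measurableSet_ball]; rfl
  have hk : ∀ y, y ≠ x → |k x y - -Real.log (max ‖x - y‖ ρ)| ≤ |h y| := by
    intro y hne
    unfold k
    rw [hh]
    dsimp only
    by_cases hy : x - y ∈ ball (0 : ℂ) ρ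
    · rw [indicator_of_mem hy]
      rw [mem_ball_zero_iff] at hy
      rw [max_eq_right hy.le]
      have hpos : 0 < ‖x - y‖ := norm_pos_iff.2 (sub_ne_zero.2 hne.symm)
      have h1 : Real.log ‖x - y‖ ≤ Real.log ρ := Real.log_le_log hpos hy.le
      have h2 : Real.log ρ ≤ 0 := Real.log_nonpos hρ.le hρ1
      rw [abs_of_nonneg (by linarith), abs_of_nonpos (by linarith)]
      linarith
    · rw [indicator_of_notMem hy]
      rw [mem_ball_zero_iff, not_lt] at hy
      rw [max_eq_left hy]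
      simp
  have h1 : pot u x - potr ρ u x = ∫ y, (k x y - -Real.log (max ‖x - y‖ ρ)) * u y ∂(mu c₀ R) := by
    unfold pot potr
    rw [← integral_sub (ku_int u x) (kru_int hρ u x)]
    refine integral_congr_ae (Eventually.of_forall fun y => ?_)
    dsimp only
    ring
  rw [h1]
  calc |∫ y, (k x y - -Real.log (max ‖x - y‖ ρ)) * u y ∂(mu c₀ R)|
      ≤ ∫ y, |h y * u y| ∂(mu c₀ R) := by
        refine (abs_integral_le_integral_abs).trans ?_
        refine integral_mono_of_nonneg (Eventually.of_forall fun _ => abs_nonneg _)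
          (cs' hmem u).1.abs ?_
        filter_upwards [ae_restrict_of_ae (Measure.ae_ne volume x)] with y hy
        rw [abs_mul, abs_mul]
        exact mul_le_mul_of_nonneg_right (hk y hy) (abs_nonneg _)
    _ ≤ Real.sqrt (∫ y, h y ^ 2 ∂(mu c₀ R)) * ‖u‖ := (cs' hmem u).2
    _ ≤ Real.sqrt (Lam ρ) * ‖u‖ :=
        mul_le_mul_of_nonneg_right (Real.sqrt_le_sqrt hint) (norm_nonneg _)

end

end Pool.Agent.Q82.LP
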