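import Pool.Agent.Q82.LogPot1

/-!
# Logarithmic potentials in the plane: continuity, decay, maximum principle
-/

open Set MeasureTheory Filter Topology Metric
open scoped ENNReal InnerProductSpace

namespace Pool.Agent.Q82.LP

noncomputable section

variable {c₀ : ℂ} {R : ℝ}

theorem pot_cont (u : E c₀ R) : Continuous (pot u) := by
  refine continuous_of_uniform_approx_of_continuous fun s hs => ?_
  obtain ⟨ε, hε, hεs⟩ := Metric.mem_uniformity_dist.1 hs
  have h1 : Tendsto (fun n : ℕ => Real.sqrt (Lam (1 / ((n : ℝ) + 1))) * ‖u‖) atTop (𝓝 0) := by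
    have := (Lam_tendsto.sqrt).mul_const ‖u‖
    rwa [Real.sqrt_zero, zero_mul] at this
  obtain ⟨n, hn⟩ := (h1.eventually (gt_mem_nhds hε)).exists
  have hρ : (0 : ℝ) < 1 / ((n : ℝ) + 1) := by positivity
  have hρ1 : 1 / ((n : ℝ) + 1) ≤ 1 := by
    rw [div_le_one (by positivity)]
    linarith [(Nat.cast_nonneg n : (0 : ℝ) ≤ n)]
  refine ⟨potr (1 / ((n : ℝ) + 1)) u, potr_cont hρ u, fun x => hεs ?_⟩
  rw [Real.dist_eq]
  exact lt_of_le_of_lt (pot_sub_potr hρ hρ1 u x) hn

theorem pot_decay (u : E c₀ R) (hu : 0 ≤ ∫ y, u y ∂(mu c₀ R)) {ε : ℝ} (hε : 0 < ε) :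
    ∃ R' : ℝ, ∀ x : ℂ, R' < ‖x‖ → pot u x < ε := by
  set A := ∫ y, |u y| ∂(mu c₀ R) with hA
  have hA0 : 0 ≤ A := integral_nonneg fun _ => abs_nonneg _
  set d₀ := max 1 (max (2 * |R|) ((2 * |R|) * (A + 1) / ε)) with hd₀
  refine ⟨d₀ + ‖c₀‖, fun x hx => ?_⟩
  set d := ‖x - c₀‖ with hd
  have hdd : d₀ < d := by
    have h1 : ‖x‖ ≤ ‖x - c₀‖ + ‖c₀‖ := by
      calc ‖x‖ = ‖(x - c₀) + c₀‖ := by rw [sub_add_cancel]
        _ ≤ _ := norm_add_le _ _
    linarith
  have hd1 : 1 < d := lt_of_le_of_lt (le_max_left _ _) hdd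
  have hd2 : 2 * |R| < d := lt_of_le_of_lt ((le_max_left _ _).trans (le_max_right _ _)) hdd
  have hd3 : (2 * |R|) * (A + 1) / ε < d :=
    lt_of_le_of_lt ((le_max_right _ _).trans (le_max_right _ _)) hdd
  have hd0 : 0 < d := by linarith
  have hR0 : 0 ≤ |R| := abs_nonneg R
  -- the kernel on the disc
  have hk : ∀ y ∈ closedBall c₀ R, |k x y - -Real.log d| ≤ 2 * |R| / d := by
    intro y hy
    rw [mem_closedBall, dist_eq_norm] at hy
    have hy' : ‖y - c₀‖ ≤ |R| := hy.trans (le_abs_self R)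
    have e1 : ‖x - y‖ ≤ d + |R| := by
      calc ‖x - y‖ = ‖(x - c₀) - (y - c₀)‖ := by rw [sub_sub_sub_cancel_right]
        _ ≤ ‖x - c₀‖ + ‖y - c₀‖ := norm_sub_le _ _
        _ ≤ d + |R| := by linarith
    have e2 : d - |R| ≤ ‖x - y‖ := by
      have : ‖x - c₀‖ ≤ ‖x - y‖ + ‖y - c₀‖ := by
        calc ‖x - c₀‖ = ‖(x - y) + (y - c₀)‖ := by rw [sub_add_sub_cancel]
          _ ≤ _ := norm_add_le _ _
      linarith
    have hpos : 0 < ‖x - y‖ := by linarith
    set t := ‖x - y‖ / d with ht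
    have ht0 : 0 < t := div_pos hpos hd0
    have h1 : k x y - -Real.log d = -Real.log t := by
      unfold k
      rw [ht, Real.log_div hpos.ne' hd0.ne']
      ring
    rw [h1, abs_neg]
    have h2 : Real.log t ≤ t - 1 := Real.log_le_sub_one_of_pos ht0
    have h3 : 1 - t⁻¹ ≤ Real.log t := Real.one_sub_inv_le_log_of_pos ht0
    have h4 : t - 1 ≤ |R| / d := by
      rw [ht, div_sub_one hd0.ne', div_le_div_iff_of_pos_right hd0]; linarith
    have h5 : -(2 * |R| / d) ≤ 1 - t⁻¹ := by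
      rw [ht, inv_div, neg_le, neg_sub, div_sub_one hpos.ne', div_le_div_iff₀ hpos hd0]
      nlinarith
    rw [abs_le]
    have h6 : |R| / d ≤ 2 * |R| / d := by
      rw [div_le_div_iff_of_pos_right hd0]; linarith
    constructor <;> linarith
  have h1 : pot u x = (-Real.log d) * ∫ y, u y ∂(mu c₀ R) +
      ∫ y, (k x y - -Real.log d) * u y ∂(mu c₀ R) := by
    unfold pot
    rw [← integral_const_mul, ← integral_add ((u_int u).const_mul _)]
    · refine integral_congr_ae (Eventually.of_forall fun y => ?_)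
      dsimp only
      ring
    · refine ((ku_int u x).sub ((u_int u).const_mul (-Real.log d))).congr ?_
      refine Eventually.of_forall fun y => ?_
      simp only [Pi.sub_apply]
      ring
  have h2 : |∫ y, (k x y - -Real.log d) * u y ∂(mu c₀ R)| ≤ 2 * |R| / d * A := by
    rw [hA, ← integral_const_mul]
    refine (abs_integral_le_integral_abs).trans ?_
    refine integral_mono_of_nonneg (Eventually.of_forall fun _ => abs_nonneg _)
      ((u_int u).abs.const_mul _) ?_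
    rw [EventuallyLE, ae_restrict_iff' measurableSet_closedBall]
    refine Eventually.of_forall fun y hy => ?_
    rw [abs_mul]
    exact mul_le_mul_of_nonneg_right (hk y hy) (abs_nonneg _)
  have h3 : (-Real.log d) * ∫ y, u y ∂(mu c₀ R) ≤ 0 :=
    mul_nonpos_of_nonpos_of_nonneg (neg_nonpos.2 (Real.log_nonneg hd1.le)) hu
  have h4 : 2 * |R| / d * A < ε := by
    rw [div_mul_eq_mul_div, div_lt_iff₀ hd0]
    rw [div_lt_iff₀ hε] at hd3
    nlinarith
  have h5 := le_abs_self (∫ y, (k x y - -Real.log d) * u y ∂(mu c₀ R))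
  rw [h1]
  linarith

/-! ### Circle averages -/

theorem avg_k (x₀ y : ℂ) {ρ : ℝ} (hρ : 0 < ρ) :
    (2 * Real.pi)⁻¹ * ∫ θ in (0 : ℝ)..2 * Real.pi, k (circleMap x₀ ρ θ) y =
      -Real.log (max ‖x₀ - y‖ ρ) := by
  have h := circleAverage_log_norm_sub_const_eq_log_radius_add_posLog (a := y) (c := x₀) hρ.ne'
  rw [Real.circleAverage_def, smul_eq_mul] at h
  unfold k
  rw [intervalIntegral.integral_neg, mul_neg, h, neg_inj]
  unfold Real.posLog
  rcases le_or_gt ρ ‖x₀ - y‖ with h1 | h1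
  · have hpos : 0 < ‖x₀ - y‖ := lt_of_lt_of_le hρ h1
    rw [max_eq_left h1, Real.log_mul (inv_ne_zero hρ.ne') hpos.ne', Real.log_inv, max_eq_right]
    · ring
    · have := Real.log_le_log hρ h1; linarith
  · rw [max_eq_right h1.le, max_eq_left, add_zero]
    refine Real.log_nonpos (by positivity) ?_
    rw [inv_mul_le_iff₀ hρ]; linarith

theorem avg_pot (u : E c₀ R) (x₀ : ℂ) {ρ : ℝ} (hρ : 0 < ρ) :
    (2 * Real.pi)⁻¹ * ∫ θ in (0 : ℝ)..2 * Real.pi, pot u (circleMap x₀ ρ θ) = potr ρ u x₀ := by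
  set s := ‖x₀ - c₀‖ + ρ + |R| + 1 with hs
  have hs' : ∀ θ, ‖circleMap x₀ ρ θ - c₀‖ + R < s := by
    intro θ
    have h1 : ‖circleMap x₀ ρ θ - c₀‖ ≤ ρ + ‖x₀ - c₀‖ := by
      calc ‖circleMap x₀ ρ θ - c₀‖ = ‖(circleMap x₀ ρ θ - x₀) + (x₀ - c₀)‖ := by
            rw [sub_add_sub_cancel]
        _ ≤ ‖circleMap x₀ ρ θ - x₀‖ + ‖x₀ - c₀‖ := norm_add_le _ _
        _ = ρ + ‖x₀ - c₀‖ := by rw [circleMap_sub_center, norm_circleMap_zero, abs_of_pos hρ]
    have h2 := le_abs_self R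
    linarith
  set F : ℝ → ℂ → ℝ := fun θ y => k (circleMap x₀ ρ θ) y * u y with hF
  have hmeas : StronglyMeasurable (Function.uncurry F) := by
    rw [hF]
    apply StronglyMeasurable.mul
    · exact (k_meas.comp ((continuous_circleMap x₀ ρ).measurable.prodMap
        measurable_id)).stronglyMeasurable
    · exact (Lp.stronglyMeasurable u).comp_measurable measurable_snd
  have hint : Integrable (Function.uncurry F)
      ((volume.restrict (Ioc 0 (2 * Real.pi))).prod (mu c₀ R)) := by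
    rw [integrable_prod_iff hmeas.aestronglyMeasurable]
    constructor
    · exact Eventually.of_forall fun θ => ku_int u (circleMap x₀ ρ θ)
    · have hm2 : StronglyMeasurable (fun θ => ∫ y, ‖Function.uncurry F (θ, y)‖ ∂(mu c₀ R)) :=
        hmeas.norm.integral_prod_right'
      refine Integrable.of_bound hm2.aestronglyMeasurable (Real.sqrt (Lam s) * ‖u‖) ?_
      refine Eventually.of_forall fun θ => ?_
      rw [Real.norm_of_nonneg (integral_nonneg fun _ => norm_nonneg _)]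
      exact abs_ku_le u (circleMap x₀ ρ θ) (hs' θ)
  unfold potr
  have h2pi : (0 : ℝ) ≤ 2 * Real.pi := by positivity
  have h1 : ∫ θ in (0 : ℝ)..2 * Real.pi, pot u (circleMap x₀ ρ θ) =
      ∫ y, (∫ θ in (0 : ℝ)..2 * Real.pi, k (circleMap x₀ ρ θ) y) * u y ∂(mu c₀ R) := by
    rw [intervalIntegral.integral_of_le h2pi]
    have h2 := integral_integral_swap hint
    calc ∫ θ in Ioc 0 (2 * Real.pi), pot u (circleMap x₀ ρ θ)
        = ∫ y, (∫ θ in Ioc 0 (2 * Real.pi), F θ y) ∂(mu c₀ R) := h2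
      _ = _ := by
          refine integral_congr_ae (Eventually.of_forall fun y => ?_)
          dsimp only
          rw [intervalIntegral.integral_of_le h2pi, ← integral_mul_const]
  rw [h1, ← integral_const_mul]
  refine integral_congr_ae (Eventually.of_forall fun y => ?_)
  dsimp only
  rw [← mul_assoc, avg_k x₀ y hρ]

/-- The mean value inequality. -/
theorem eq_on_circle (u : E c₀ R) (x₀ : ℂ) {ρ : ℝ} (hρ : 0 < ρ)
    (hu : ∀ᵐ y ∂(mu c₀ R), y ∈ ball x₀ ρ → u y ≤ 0)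
    (hle : ∀ x ∈ sphere x₀ ρ, pot u x ≤ pot u x₀) : pot u (x₀ + ρ) = pot u x₀ := by
  have h1 : pot u x₀ ≤ potr ρ u x₀ := by
    unfold pot potr
    refine integral_mono_ae (ku_int u x₀) (kru_int hρ u x₀) ?_
    filter_upwards [hu, ae_restrict_of_ae (Measure.ae_ne volume x₀)] with y hy hne
    rcases le_or_gt ρ ‖x₀ - y‖ with h | h
    · rw [max_eq_left h]; rfl
    · have hy' : u y ≤ 0 := hy (by rw [mem_ball, dist_eq_norm, norm_sub_rev]; exact h)
      rw [max_eq_right h.le]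
      refine mul_le_mul_of_nonpos_right ?_ hy'
      unfold k
      rw [neg_le_neg_iff]
      exact Real.log_le_log (norm_pos_iff.2 (sub_ne_zero.2 hne.symm)) h.le
  rw [← avg_pot u x₀ hρ] at h1
  by_contra hne
  have hcm : ∀ θ, circleMap x₀ ρ θ ∈ sphere x₀ ρ := fun θ => circleMap_mem_sphere x₀ hρ.le θ
  have h0 : circleMap x₀ ρ 0 = x₀ + ρ := by simp [circleMap]
  have hlt : pot u (circleMap x₀ ρ 0) < pot u x₀ :=
    lt_of_le_of_ne (hle _ (hcm 0)) (by rw [h0]; exact hne)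
  have hcont : Continuous fun θ => pot u (circleMap x₀ ρ θ) :=
    (pot_cont u).comp (continuous_circleMap x₀ ρ)
  have h2 : 0 < ∫ θ in (0 : ℝ)..2 * Real.pi, (pot u x₀ - pot u (circleMap x₀ ρ θ)) := by
    refine intervalIntegral.integral_pos (by positivity)
      (continuous_const.sub hcont).continuousOn (fun θ _ => ?_) ⟨0, ⟨le_rfl, by positivity⟩, ?_⟩
    · exact sub_nonneg.2 (hle _ (hcm θ))
    · exact sub_pos.2 hlt
  rw [intervalIntegral.integral_sub (by simp) (hcont.intervalIntegrable _ _),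
    intervalIntegral.integral_const, smul_eq_mul, sub_zero] at h2
  have hpi : 0 < 2 * Real.pi := by positivity
  have h3 : (2 * Real.pi)⁻¹ * ∫ θ in (0 : ℝ)..2 * Real.pi, pot u (circleMap x₀ ρ θ) <
      pot u x₀ := by
    rw [inv_mul_lt_iff₀ hpi]; linarith
  linarith

/-- The maximum principle. -/
theorem max_principle (w : E c₀ R) (U : Set ℂ) (hU : IsOpen U)
    (hfr : ∀ x ∈ frontier U, pot w x ≤ 0)
    (hdec : ∀ ε > 0, ∃ R' : ℝ, ∀ x ∈ U, R' < ‖x‖ → pot w x < ε)
    (hw : ∀ᵐ y ∂(mu c₀ R), y ∈ U → 0 < pot w y → w y ≤ 0) : ∀ x ∈ U, pot w x ≤ 0 := by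
  intro x₁ hx₁
  by_contra hcon
  push Not at hcon
  obtain ⟨R', hR'⟩ := hdec (pot w x₁) hcon
  set r := max R' ‖x₁‖ with hr
  set K := closure U ∩ closedBall 0 r with hK
  have hKc : IsCompact K := (isCompact_closedBall 0 r).inter_left isClosed_closure
  have hx₁K : x₁ ∈ K := ⟨subset_closure hx₁, by
    rw [mem_closedBall_zero_iff]; exact le_max_right _ _⟩
  obtain ⟨x₂, hx₂, hmax⟩ := hKc.exists_isMaxOn ⟨x₁, hx₁K⟩ (pot_cont w).continuousOn
  set m := pot w x₂ with hm
  have hm1 : pot w x₁ ≤ m := hmax hx₁K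
  have hm0 : 0 < m := lt_of_lt_of_le hcon hm1
  set K' := K ∩ {x | pot w x = m} with hK'
  have hK'c : IsCompact K' := hKc.inter_right (isClosed_eq (pot_cont w) continuous_const)
  obtain ⟨x₀, hx₀, hre⟩ := hK'c.exists_isMaxOn ⟨x₂, hx₂, rfl⟩ Complex.continuous_re.continuousOn
  have hx₀m : pot w x₀ = m := hx₀.2
  have hx₀U : x₀ ∈ U := by
    by_contra hnot
    have : x₀ ∈ frontier U := by
      rw [hU.frontier_eq]; exact ⟨hx₀.1.1, hnot⟩
    have := hfr x₀ this
    linarith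
  have hopen : IsOpen (U ∩ {x | 0 < pot w x}) :=
    hU.inter (isOpen_lt continuous_const (pot_cont w))
  obtain ⟨ρ₀, hρ₀, hball⟩ := Metric.isOpen_iff.1 hopen x₀ ⟨hx₀U, by
    show 0 < pot w x₀
    rw [hx₀m]; exact hm0⟩
  set ρ := ρ₀ / 2 with hρd
  have hρ : 0 < ρ := half_pos hρ₀
  have hcb : closedBall x₀ ρ ⊆ U ∩ {x | 0 < pot w x} :=
    (closedBall_subset_ball (half_lt_self hρ₀)).trans hball
  have hleU : ∀ x ∈ U, pot w x ≤ m := by
    intro x hx
    by_cases hxr : ‖x‖ ≤ r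
    · exact hmax ⟨subset_closure hx, by rwa [mem_closedBall_zero_iff]⟩
    · push Not at hxr
      exact ((hR' x hx (lt_of_le_of_lt (le_max_left _ _) hxr)).le).trans hm1
  have h1 : pot w (x₀ + ρ) = pot w x₀ := by
    refine eq_on_circle w x₀ hρ ?_ ?_
    · filter_upwards [hw] with y hy hyb
      have := hcb (ball_subset_closedBall hyb)
      exact hy this.1 this.2
    · intro x hx
      rw [hx₀m]
      exact hleU x (hcb (sphere_subset_closedBall hx)).1
  have h2 : x₀ + ρ ∈ closedBall x₀ ρ := by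
    rw [mem_closedBall, dist_eq_norm, add_sub_cancel_left, Complex.norm_real,
      Real.norm_of_nonneg hρ.le]
  have h3 : x₀ + ρ ∈ K' := by
    refine ⟨⟨subset_closure (hcb h2).1, ?_⟩, ?_⟩
    · rw [mem_closedBall_zero_iff]
      by_contra hcon2
      push Not at hcon2
      have := hR' _ (hcb h2).1 (lt_of_le_of_lt (le_max_left _ _) hcon2)
      rw [h1, hx₀m] at this
      linarith
    · show pot w (x₀ + ρ) = m
      rw [h1, hx₀m]
  have h4 : (x₀ + ρ).re ≤ x₀.re := hre h3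
  rw [Complex.add_re, Complex.ofReal_re] at h4
  linarith

end

end Pool.Agent.Q82.LP
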