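import Mathlib

/-!
# Compact symmetric operators on real Hilbert spaces
-/

open Set Filter Topology
open scoped InnerProductSpace

namespace Pool.Agent.Q82.LP

variable {H : Type} [NormedAddCommGroup H] [InnerProductSpace ℝ H]

theorem sq_le_of_pos {B : H →L[ℝ] H} (hs : ∀ x y, ⟪B x, y⟫_ℝ = ⟪x, B y⟫_ℝ)
    (hp : ∀ x, 0 ≤ ⟪B x, x⟫_ℝ) (x : H) : ‖B x‖ ^ 2 ≤ (‖B‖ + 1) * ⟪B x, x⟫_ℝ := by
  set β := ‖B‖ + 1 with hβ
  have hβ0 : 0 < β := by positivity
  have h1 := hp (x + (-β⁻¹) • B x)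
  have h2 : ⟪B (x + (-β⁻¹) • B x), x + (-β⁻¹) • B x⟫_ℝ =
      ⟪B x, x⟫_ℝ - 2 * β⁻¹ * ‖B x‖ ^ 2 + β⁻¹ ^ 2 * ⟪B (B x), B x⟫_ℝ := by
    rw [map_add, map_smul, inner_add_left, inner_add_right, inner_add_right, inner_smul_left,
      inner_smul_right, inner_smul_left, inner_smul_right, hs (B x) x,
      real_inner_self_eq_norm_sq]
    simp only [map_neg, conj_trivial]
    ring
  have h3 : ⟪B (B x), B x⟫_ℝ ≤ β * ‖B x‖ ^ 2 := by
    calc ⟪B (B x), B x⟫_ℝ ≤ ‖B (B x)‖ * ‖B x‖ := real_inner_le_norm _ _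
      _ ≤ (‖B‖ * ‖B x‖) * ‖B x‖ := mul_le_mul_of_nonneg_right (B.le_opNorm _) (norm_nonneg _)
      _ ≤ β * ‖B x‖ ^ 2 := by
        have : 0 ≤ ‖B x‖ ^ 2 := sq_nonneg _
        nlinarith
  rw [h2] at h1
  have h4 : β⁻¹ ^ 2 * ⟪B (B x), B x⟫_ℝ ≤ β⁻¹ * ‖B x‖ ^ 2 := by
    calc β⁻¹ ^ 2 * ⟪B (B x), B x⟫_ℝ ≤ β⁻¹ ^ 2 * (β * ‖B x‖ ^ 2) :=
          mul_le_mul_of_nonneg_left h3 (by positivity)
      _ = β⁻¹ * ‖B x‖ ^ 2 := by field_simp
  have h5 : β⁻¹ * ‖B x‖ ^ 2 ≤ ⟪B x, x⟫_ℝ := by linarith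
  rwa [inv_mul_le_iff₀ hβ0] at h5

variable [CompleteSpace H]

omit [CompleteSpace H] in
/-- A compact symmetric operator with a negative value of the quadratic form has a negative
eigenvalue at most this value. -/
theorem exists_eigen (A : H →L[ℝ] H) (hc : IsCompactOperator A)
    (hs : ∀ x y, ⟪A x, y⟫_ℝ = ⟪x, A y⟫_ℝ) {r : ℝ} (hr : r < 0) {v : H} (hv : v ≠ 0)
    (hrv : ⟪A v, v⟫_ℝ ≤ r * ‖v‖ ^ 2) : ∃ m ≤ r, ∃ x : H, x ≠ 0 ∧ A x = m • x := by
  set S : Set ℝ := (fun x : H => ⟪A x, x⟫_ℝ) '' {x | ‖x‖ = 1} with hS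
  have hbdd : BddBelow S := by
    refine ⟨-‖A‖, ?_⟩
    rintro _ ⟨x, hx, rfl⟩
    have hx' : ‖x‖ = 1 := hx
    have h1 : |⟪A x, x⟫_ℝ| ≤ ‖A‖ := by
      refine (abs_real_inner_le_norm _ _).trans ?_
      rw [hx', mul_one]
      have := A.le_opNorm x
      rwa [hx', mul_one] at this
    exact (abs_le.1 h1).1
  set u : H := ‖v‖⁻¹ • v with hu
  have hv0 : 0 < ‖v‖ := norm_pos_iff.2 hv
  have hu1 : ‖u‖ = 1 := by
    rw [hu, norm_smul, norm_inv, norm_norm, inv_mul_cancel₀ hv0.ne']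
  have huS : ⟪A u, u⟫_ℝ ∈ S := ⟨u, hu1, rfl⟩
  have hur : ⟪A u, u⟫_ℝ ≤ r := by
    rw [hu, map_smul, inner_smul_left, inner_smul_right]
    simp only [conj_trivial]
    rw [← mul_assoc]
    calc ‖v‖⁻¹ * ‖v‖⁻¹ * ⟪A v, v⟫_ℝ ≤ ‖v‖⁻¹ * ‖v‖⁻¹ * (r * ‖v‖ ^ 2) :=
          mul_le_mul_of_nonneg_left hrv (by positivity)
      _ = r := by field_simp
  set m := sInf S with hm
  have hmr : m ≤ r := (csInf_le hbdd huS).trans hur
  have hm0 : m < 0 := lt_of_le_of_lt hmr hr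
  set B : H →L[ℝ] H := A - m • 1 with hB
  have hBx : ∀ x, B x = A x - m • x := fun x => by
    rw [hB, _root_.sub_apply, _root_.smul_apply, one_apply_eq_self]
  have hpos : ∀ x, 0 ≤ ⟪B x, x⟫_ℝ := by
    intro x
    rw [hBx, inner_sub_left, inner_smul_left, real_inner_self_eq_norm_sq]
    simp only [conj_trivial]
    rcases eq_or_ne x 0 with rfl | hx
    · simp
    · have hx0 : 0 < ‖x‖ := norm_pos_iff.2 hx
      have h1 : m ≤ ⟪A (‖x‖⁻¹ • x), ‖x‖⁻¹ • x⟫_ℝ := by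
        refine csInf_le hbdd ⟨_, ?_, rfl⟩
        show ‖‖x‖⁻¹ • x‖ = 1
        rw [norm_smul, norm_inv, norm_norm, inv_mul_cancel₀ hx0.ne']
      rw [map_smul, inner_smul_left, inner_smul_right] at h1
      simp only [conj_trivial] at h1
      have h2 : m * ‖x‖ ^ 2 ≤ ⟪A x, x⟫_ℝ := by
        calc m * ‖x‖ ^ 2 ≤ (‖x‖⁻¹ * (‖x‖⁻¹ * ⟪A x, x⟫_ℝ)) * ‖x‖ ^ 2 :=
              mul_le_mul_of_nonneg_right h1 (by positivity)
          _ = ⟪A x, x⟫_ℝ := by field_simp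
      linarith
  have hsB : ∀ x y, ⟪B x, y⟫_ℝ = ⟪x, B y⟫_ℝ := by
    intro x y
    rw [hBx, hBx, inner_sub_left, inner_sub_right, inner_smul_left, inner_smul_right, hs]
    simp only [conj_trivial]
  refine ⟨m, hmr, ?_⟩
  by_contra hcon
  push Not at hcon
  have hne : ¬ Module.End.HasEigenvalue (A : Module.End ℝ H) m := by
    intro h
    obtain ⟨x, hx⟩ := h.exists_hasEigenvector
    exact hcon x hx.2 hx.apply_eq_smul
  obtain ⟨K, hK⟩ := IsCompactOperator.antilipschitz_of_not_hasEigenvalue hc hm0.ne hne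
  have hKx : ∀ x : H, ‖x‖ ≤ K * ‖B x‖ := by
    intro x
    have := hK.le_mul_dist x 0
    rw [dist_zero_right, map_zero, dist_zero_right] at this
    exact this
  -- a lower bound for the form
  have hlow : ∀ s ∈ S, m + 1 / (((K : ℝ) + 1) ^ 2 * (‖B‖ + 1)) ≤ s := by
    rintro _ ⟨x, hx, rfl⟩
    have hx' : ‖x‖ = 1 := hx
    have h1 := hKx x
    rw [hx'] at h1
    have h2 := sq_le_of_pos hsB hpos x
    have hK0 : (0 : ℝ) ≤ K := K.2
    have h3 : 1 ≤ ((K : ℝ) + 1) * ‖B x‖ := by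
      have := norm_nonneg (B x)
      nlinarith
    have h4 : 1 ≤ ((K : ℝ) + 1) ^ 2 * ((‖B‖ + 1) * ⟪B x, x⟫_ℝ) := by
      calc (1 : ℝ) = 1 ^ 2 := by norm_num
        _ ≤ (((K : ℝ) + 1) * ‖B x‖) ^ 2 := pow_le_pow_left₀ zero_le_one h3 2
        _ = ((K : ℝ) + 1) ^ 2 * ‖B x‖ ^ 2 := by ring
        _ ≤ _ := mul_le_mul_of_nonneg_left h2 (by positivity)
    have h5 : 1 / (((K : ℝ) + 1) ^ 2 * (‖B‖ + 1)) ≤ ⟪B x, x⟫_ℝ := by
      rw [div_le_iff₀ (by positivity)]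
      linarith
    rw [hBx, inner_sub_left, inner_smul_left, real_inner_self_eq_norm_sq, hx'] at h5
    simp only [conj_trivial] at h5
    dsimp only
    linarith
  have h1 : m + 1 / (((K : ℝ) + 1) ^ 2 * (‖B‖ + 1)) ≤ m := le_csInf ⟨_, huS⟩ hlow
  have h2 : 0 < 1 / (((K : ℝ) + 1) ^ 2 * (‖B‖ + 1)) := by positivity
  linarith

/-- The compression to a closed subspace. -/
noncomputable def comp (A : H →L[ℝ] H) (V : Submodule ℝ H) [V.HasOrthogonalProjection] :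
    V →L[ℝ] V := V.orthogonalProjectionOnto.comp (A.comp V.subtypeL)

omit [CompleteSpace H] in
theorem comp_inner (A : H →L[ℝ] H) (V : Submodule ℝ H) [V.HasOrthogonalProjection] (x y : V) :
    ⟪comp A V x, y⟫_ℝ = ⟪A x, (y : H)⟫_ℝ := by
  unfold comp
  rw [ContinuousLinearMap.comp_apply, ContinuousLinearMap.comp_apply,
    Submodule.inner_orthogonalProjectionOnto_eq_of_mem_right]
  rfl

omit [CompleteSpace H] in
theorem comp_compact {A : H →L[ℝ] H} (hc : IsCompactOperator A) (V : Submodule ℝ H)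
    [V.HasOrthogonalProjection] : IsCompactOperator (comp A V) :=
  (hc.comp_clm V.subtypeL).clm_comp V.orthogonalProjectionOnto

theorem exists_eigen_sub (A : H →L[ℝ] H) (hc : IsCompactOperator A)
    (hs : ∀ x y, ⟪A x, y⟫_ℝ = ⟪x, A y⟫_ℝ) (V : Submodule ℝ H) (hV : IsClosed (V : Set H))
    {r : ℝ} (hr : r < 0) {v : H} (hvV : v ∈ V) (hv : v ≠ 0)
    (hrv : ⟪A v, v⟫_ℝ ≤ r * ‖v‖ ^ 2) :
    ∃ m ≤ r, ∃ x ∈ V, x ≠ 0 ∧ ∀ y ∈ V, ⟪A x, y⟫_ℝ = m * ⟪x, y⟫_ℝ := by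
  have : CompleteSpace V := hV.completeSpace_coe
  obtain ⟨m, hm, x, hx, hAx⟩ := exists_eigen (comp A V) (comp_compact hc V)
    (fun x y => (comp_inner A V x y).trans ((hs _ _).trans ((real_inner_comm _ _).trans
      ((comp_inner A V y x).symm.trans (real_inner_comm _ _))))) hr
    (v := ⟨v, hvV⟩) (fun h => hv (congrArg Subtype.val h))
    (by rw [comp_inner]; exact hrv)
  refine ⟨m, hm, x, x.2, fun h => hx (Subtype.ext h), fun y hy => ?_⟩
  have h1 := comp_inner A V x ⟨y, hy⟩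
  rw [hAx, inner_smul_left] at h1
  simp only [conj_trivial] at h1
  exact h1.symm

theorem exists_solution (A : H →L[ℝ] H) (hc : IsCompactOperator A) (V : Submodule ℝ H)
    (hV : IsClosed (V : Set H)) {r : ℝ} (hr : r < 0) (hpos : ∀ x ∈ V, 0 ≤ ⟪A x, x⟫_ℝ) (f : H) :
    ∃ a ∈ V, ∀ y ∈ V, ⟪A a - r • a, y⟫_ℝ = ⟪f, y⟫_ℝ := by
  have : CompleteSpace V := hV.completeSpace_coe
  have hne : ¬ Module.End.HasEigenvalue (comp A V : Module.End ℝ V) r := by
    intro h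
    obtain ⟨x, hx⟩ := h.exists_hasEigenvector
    have h1 : comp A V x = r • x := hx.apply_eq_smul
    have h2 := comp_inner A V x x
    rw [h1, inner_smul_left, real_inner_self_eq_norm_sq] at h2
    simp only [conj_trivial] at h2
    have h3 := hpos x x.2
    rw [← h2] at h3
    have h4 : 0 < ‖x‖ ^ 2 := by
      have := norm_pos_iff.2 hx.2
      positivity
    nlinarith
  have h1 := (IsCompactOperator.hasEigenvalue_or_mem_resolventSet (comp_compact hc V)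
    hr.ne).resolve_left hne
  rw [spectrum.mem_resolventSet_iff, ContinuousLinearMap.isUnit_iff_bijective] at h1
  obtain ⟨a, ha⟩ := h1.2 (-V.orthogonalProjectionOnto f)
  refine ⟨a, a.2, fun y hy => ?_⟩
  have h2 : comp A V a - r • a = V.orthogonalProjectionOnto f := by
    have h3 : (algebraMap ℝ (V →L[ℝ] V) r - comp A V) a = r • a - comp A V a := rfl
    rw [h3] at ha
    rw [← neg_sub, ha, neg_neg]
  have h3 : ⟪comp A V a - r • a, (⟨y, hy⟩ : V)⟫_ℝ =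
      ⟪V.orthogonalProjectionOnto f, (⟨y, hy⟩ : V)⟫_ℝ := by rw [h2]
  rw [inner_sub_left, comp_inner, Submodule.inner_orthogonalProjectionOnto_eq_of_mem_right,
    inner_smul_left] at h3
  simp only [conj_trivial] at h3
  rw [inner_sub_left, inner_smul_left]
  simp only [conj_trivial]
  exact h3

/-! ### Hilbert–Schmidt operators -/

/-- Finite parts of an operator. -/
noncomputable def part (A : H →L[ℝ] H) {ι : Type*} (b : HilbertBasis ι ℝ H) (F : Finset ι) :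
    H →L[ℝ] H :=
  ∑ i ∈ F, ContinuousLinearMap.toSpanSingleton ℝ (A (b i)) ∘L innerSL ℝ (b i)

omit [CompleteSpace H] in
theorem part_compact (A : H →L[ℝ] H) {ι : Type*} (b : HilbertBasis ι ℝ H) (F : Finset ι) :
    IsCompactOperator (part A b F) := by
  unfold part
  apply Finset.sum_induction (p := fun B : H →L[ℝ] H => IsCompactOperator B)
  · intro B C hB hC
    exact hB.add hC
  · exact isCompactOperator_zero
  · intro i _
    have h1 : IsCompactOperator (innerSL ℝ (b i) : H →L[ℝ] ℝ) := by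
      refine ⟨Metric.closedBall 0 ‖innerSL ℝ (b i)‖, isCompact_closedBall _ _, ?_⟩
      filter_upwards [Metric.ball_mem_nhds (0 : H) one_pos] with x hx
      rw [mem_ball_zero_iff] at hx
      change innerSL ℝ (b i) x ∈ Metric.closedBall (0 : ℝ) _
      rw [mem_closedBall_zero_iff]
      refine ((innerSL ℝ (b i)).le_opNorm x).trans ?_
      exact mul_le_of_le_one_right (norm_nonneg _) hx.le
    exact h1.clm_comp (ContinuousLinearMap.toSpanSingleton ℝ (A (b i)))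

omit [CompleteSpace H] in
theorem part_apply (A : H →L[ℝ] H) {ι : Type*} (b : HilbertBasis ι ℝ H) (F : Finset ι) (x : H) :
    part A b F x = ∑ i ∈ F, ⟪b i, x⟫_ℝ • A (b i) := by
  simp [part]

/-- Hilbert–Schmidt operators are compact. -/
theorem compact_of_hs {A : H →L[ℝ] H} {ι : Type*} (b : HilbertBasis ι ℝ H)
    (hb : Summable fun i => ‖A (b i)‖ ^ 2) : IsCompactOperator A := by
  classical
  apply isCompactOperator_of_tendsto (l := atTop) (F := part A b) _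
    (Eventually.of_forall fun F => part_compact A b F)
  rw [Metric.tendsto_atTop]
  intro ε hε
  obtain ⟨F0, hF0⟩ := (summable_iff_vanishing_norm.1 hb) ((ε / 2) ^ 2) (by positivity)
  refine ⟨F0, fun F hF => ?_⟩
  rw [dist_eq_norm, norm_sub_rev]
  refine lt_of_le_of_lt (ContinuousLinearMap.opNorm_le_bound _ (by positivity : 0 ≤ ε / 2) ?_)
    (half_lt_self hε)
  intro x
  change ‖A x - part A b F x‖ ≤ _
  have h1 : HasSum (fun i => ⟪b i, x⟫_ℝ • A (b i)) (A x) := by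
    have := (b.hasSum_repr x).mapL A
    simpa only [map_smul, b.repr_apply_apply] using this
  have h2 : Tendsto (fun G : Finset ι => ‖∑ i ∈ G, ⟪b i, x⟫_ℝ • A (b i) - part A b F x‖) atTop
      (𝓝 ‖A x - part A b F x‖) := (Tendsto.sub_const h1 _).norm
  apply le_of_tendsto h2
  filter_upwards [eventually_ge_atTop F] with G hG
  have h3 : ∑ i ∈ G, ⟪b i, x⟫_ℝ • A (b i) - part A b F x = ∑ i ∈ G \ F, ⟪b i, x⟫_ℝ • A (b i) := by
    rw [part_apply, ← Finset.sum_sdiff hG, add_sub_cancel_right]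
  rw [h3]
  have h4 : (∑ i ∈ G \ F, ‖⟪b i, x⟫_ℝ‖ * ‖A (b i)‖) ^ 2 ≤ (ε / 2 * ‖x‖) ^ 2 := by
    calc (∑ i ∈ G \ F, ‖⟪b i, x⟫_ℝ‖ * ‖A (b i)‖) ^ 2
        ≤ (∑ i ∈ G \ F, ‖⟪b i, x⟫_ℝ‖ ^ 2) * ∑ i ∈ G \ F, ‖A (b i)‖ ^ 2 :=
          Finset.sum_mul_sq_le_sq_mul_sq _ _ _
      _ ≤ ‖x‖ ^ 2 * (ε / 2) ^ 2 := by
          apply mul_le_mul
          · exact b.orthonormal.sum_inner_products_le x
          · have := hF0 (G \ F) (Finset.disjoint_of_subset_right hF Finset.sdiff_disjoint)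
            rw [Real.norm_of_nonneg (Finset.sum_nonneg fun i _ => by positivity)] at this
            exact this.le
          · exact Finset.sum_nonneg fun i _ => by positivity
          · positivity
      _ = _ := by ring
  calc ‖∑ i ∈ G \ F, ⟪b i, x⟫_ℝ • A (b i)‖ ≤ ∑ i ∈ G \ F, ‖⟪b i, x⟫_ℝ‖ * ‖A (b i)‖ := by
        refine (norm_sum_le _ _).trans (Finset.sum_le_sum fun i _ => ?_)
        rw [norm_smul]
    _ ≤ ε / 2 * ‖x‖ := le_of_sq_le_sq h4 (by positivity)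

end Pool.Agent.Q82.LP
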