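import Pool.Agent.Q82.LogPot2
import Pool.Agent.Q82.LogPot3

/-!
# Logarithmic potentials in the plane: the operator
-/

open Set MeasureTheory Filter Topology Metric
open scoped ENNReal InnerProductSpace

namespace Pool.Agent.Q82.LP

noncomputable section

variable {c₀ : ℂ} {R : ℝ}

theorem near {x : ℂ} (hx : x ∈ closedBall c₀ R) : ‖x - c₀‖ + R < 2 * |R| + 1 := by
  rw [mem_closedBall, dist_eq_norm] at hx
  have := le_abs_self R
  linarith

theorem pot_bound (u : E c₀ R) {x : ℂ} (hx : x ∈ closedBall c₀ R) :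
    |pot u x| ≤ Real.sqrt (Lam (2 * |R| + 1)) * ‖u‖ := pot_le u x (near hx)

theorem pot_mem (u : E c₀ R) : MemLp (pot u) 2 (mu c₀ R) := by
  apply MemLp.of_bound (pot_meas u).aestronglyMeasurable (Real.sqrt (Lam (2 * |R| + 1)) * ‖u‖)
  rw [ae_restrict_iff' measurableSet_closedBall]
  exact Eventually.of_forall fun x hx => pot_bound u hx

/-- The operator of the logarithmic potential. -/
def T : E c₀ R →L[ℝ] E c₀ R :=
  LinearMap.mkContinuous
    { toFun := fun u => (pot_mem u).toLp (pot u)
      map_add' := fun u v => by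
        rw [← MemLp.toLp_add, MemLp.toLp_eq_toLp_iff]
        exact Eventually.of_forall fun x => pot_add u v x
      map_smul' := fun c u => by
        rw [RingHom.id_apply, ← MemLp.toLp_const_smul, MemLp.toLp_eq_toLp_iff]
        exact Eventually.of_forall fun x => pot_smul c u x }
    ((measureUnivNNReal (mu c₀ R) : ℝ) ^ ((2 : ℝ≥0∞).toReal)⁻¹ *
      Real.sqrt (Lam (2 * |R| + 1))) (fun u => by
      change ‖(pot_mem u).toLp (pot u)‖ ≤ _
      have h1 := Lp.norm_le_of_ae_bound (f := (pot_mem u).toLp (pot u))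
        (C := Real.sqrt (Lam (2 * |R| + 1)) * ‖u‖) (by positivity) (by
        filter_upwards [(pot_mem u).coeFn_toLp, ae_restrict_mem measurableSet_closedBall] with
          x hx hx'
        rw [hx]
        exact pot_bound u hx')
      rw [mul_assoc]
      exact h1)

theorem T_apply (u : E c₀ R) : ∀ᵐ x ∂(mu c₀ R), T u x = pot u x := (pot_mem u).coeFn_toLp

theorem inner_eq (u v : E c₀ R) : ⟪u, v⟫_ℝ = ∫ y, u y * v y ∂(mu c₀ R) := by
  rw [L2.inner_def]
  refine integral_congr_ae (Eventually.of_forall fun y => ?_)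
  show v y * u y = u y * v y
  ring

theorem T_symm (u v : E c₀ R) : ⟪T u, v⟫_ℝ = ⟪u, T v⟫_ℝ := by
  rw [inner_eq, inner_eq]
  set F : ℂ → ℂ → ℝ := fun x y => k x y * u y * v x with hF
  have hmeas : StronglyMeasurable (Function.uncurry F) := by
    rw [hF]
    apply StronglyMeasurable.mul
    · apply StronglyMeasurable.mul
      · exact k_meas.stronglyMeasurable
      · exact (Lp.stronglyMeasurable u).comp_measurable measurable_snd
    · exact (Lp.stronglyMeasurable v).comp_measurable measurable_fst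
  have hint : Integrable (Function.uncurry F) ((mu c₀ R).prod (mu c₀ R)) := by
    rw [integrable_prod_iff hmeas.aestronglyMeasurable]
    constructor
    · exact Eventually.of_forall fun x => (ku_int u x).mul_const (v x)
    · have hm2 : StronglyMeasurable (fun x => ∫ y, ‖Function.uncurry F (x, y)‖ ∂(mu c₀ R)) :=
        hmeas.norm.integral_prod_right'
      refine Integrable.mono' (g := fun x => Real.sqrt (Lam (2 * |R| + 1)) * ‖u‖ * ‖v x‖)
        ((u_int v).norm.const_mul _) hm2.aestronglyMeasurable ?_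
      rw [ae_restrict_iff' measurableSet_closedBall]
      refine Eventually.of_forall fun x hx => ?_
      rw [Real.norm_of_nonneg (integral_nonneg fun _ => norm_nonneg _)]
      have h1 : ∫ y, ‖Function.uncurry F (x, y)‖ ∂(mu c₀ R) =
          (∫ y, |k x y * u y| ∂(mu c₀ R)) * ‖v x‖ := by
        rw [← integral_mul_const]
        refine integral_congr_ae (Eventually.of_forall fun y => ?_)
        show ‖k x y * u y * v x‖ = _
        rw [norm_mul]; rfl
      rw [h1]
      exact mul_le_mul_of_nonneg_right (abs_ku_le u x (near hx)) (norm_nonneg _)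
  have e1 : ∫ y, T u y * v y ∂(mu c₀ R) = ∫ x, ∫ y, F x y ∂(mu c₀ R) ∂(mu c₀ R) := by
    refine integral_congr_ae ?_
    filter_upwards [T_apply u] with x hx
    rw [hx]
    unfold pot
    rw [← integral_mul_const]
  have e2 : ∫ y, u y * T v y ∂(mu c₀ R) = ∫ y, ∫ x, F x y ∂(mu c₀ R) ∂(mu c₀ R) := by
    refine integral_congr_ae ?_
    filter_upwards [T_apply v] with y hy
    rw [hy]
    unfold pot
    rw [← integral_const_mul]
    refine integral_congr_ae (Eventually.of_forall fun x => ?_)
    show u y * (k y x * v x) = k x y * u y * v x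
    rw [k_comm]; ring
  rw [e1, e2]
  exact integral_integral_swap hint

theorem pot_eq_inner (u : E c₀ R) (x : ℂ) :
    pot u x = ⟪(k_memLp (c₀ := c₀) (R := R) x).toLp (k x), u⟫_ℝ := by
  rw [inner_eq]
  unfold pot
  refine integral_congr_ae ?_
  filter_upwards [(k_memLp (c₀ := c₀) (R := R) x).coeFn_toLp] with y hy
  rw [hy]

theorem norm_kap {x : ℂ} (hx : x ∈ closedBall c₀ R) :
    ‖(k_memLp (c₀ := c₀) (R := R) x).toLp (k x)‖ ^ 2 ≤ Lam (2 * |R| + 1) := by
  rw [norm_sq_eq]
  refine le_trans (le_of_eq ?_) (sq_int x (near hx)).2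
  refine integral_congr_ae ?_
  filter_upwards [(k_memLp (c₀ := c₀) (R := R) x).coeFn_toLp] with y hy
  rw [hy]

theorem T_compact : IsCompactOperator (T : E c₀ R →L[ℝ] E c₀ R) := by
  obtain ⟨w, b, -⟩ := exists_hilbertBasis ℝ (E c₀ R)
  refine compact_of_hs b ?_
  apply summable_of_sum_le (c := Lam (2 * |R| + 1) * (mu c₀ R).real univ)
    (fun i => by positivity)
  intro F
  have hint : ∀ i, Integrable (fun y => (T (b i) : E c₀ R) y ^ 2) (mu c₀ R) := fun i =>
    (Lp.memLp (T (b i))).integrable_sq
  simp only [norm_sq_eq]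
  rw [← integral_finsetSum _ (fun i _ => hint i)]
  have h1 : ∫ y, ∑ i ∈ F, (T (b i) : E c₀ R) y ^ 2 ∂(mu c₀ R) ≤
      ∫ y, Lam (2 * |R| + 1) ∂(mu c₀ R) := by
    apply integral_mono_ae
    · exact integrable_finsetSum _ (fun i _ => hint i)
    · exact integrable_const _
    · have h2 : ∀ᵐ y ∂(mu c₀ R), ∀ i ∈ F, T (b i) y = pot (b i) y := by
        rw [Filter.eventually_all_finset]
        intro i _
        exact T_apply (b i)
      filter_upwards [h2, ae_restrict_mem measurableSet_closedBall] with y hy hy0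
      calc ∑ i ∈ F, (T (b i) : E c₀ R) y ^ 2
          = ∑ i ∈ F, ‖⟪b i, (k_memLp (c₀ := c₀) (R := R) y).toLp (k y)⟫_ℝ‖ ^ 2 := by
            apply Finset.sum_congr rfl
            intro i hi
            rw [hy i hi, pot_eq_inner, real_inner_comm, Real.norm_eq_abs, sq_abs]
        _ ≤ ‖(k_memLp (c₀ := c₀) (R := R) y).toLp (k y)‖ ^ 2 :=
            b.orthonormal.sum_inner_products_le _
        _ ≤ Lam (2 * |R| + 1) := norm_kap hy0
  refine h1.trans (le_of_eq ?_)
  rw [integral_const, smul_eq_mul, mul_comm]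

/-! ### Restriction to a set -/

/-- The restriction to a set. -/
def chi (A : Set ℂ) (hA : MeasurableSet A) : E c₀ R →L[ℝ] E c₀ R :=
  LinearMap.mkContinuous
    { toFun := fun u => ((Lp.memLp u).indicator hA).toLp (indicator A u)
      map_add' := fun u v => by
        rw [← MemLp.toLp_add, MemLp.toLp_eq_toLp_iff]
        filter_upwards [Lp.coeFn_add u v] with y hy
        simp only [Pi.add_apply]
        by_cases h : y ∈ A
        · rw [indicator_of_mem h, indicator_of_mem h, indicator_of_mem h, hy, Pi.add_apply]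
        · rw [indicator_of_notMem h, indicator_of_notMem h, indicator_of_notMem h, add_zero]
      map_smul' := fun c u => by
        rw [RingHom.id_apply, ← MemLp.toLp_const_smul, MemLp.toLp_eq_toLp_iff]
        filter_upwards [Lp.coeFn_smul c u] with y hy
        simp only [Pi.smul_apply]
        by_cases h : y ∈ A
        · rw [indicator_of_mem h, indicator_of_mem h, hy, Pi.smul_apply]
        · rw [indicator_of_notMem h, indicator_of_notMem h, smul_zero] } 1 (fun u => by
      rw [one_mul]
      refine Lp.norm_le_norm_of_ae_le ?_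
      filter_upwards [((Lp.memLp u).indicator hA).coeFn_toLp] with y hy
      change ‖((Lp.memLp u).indicator hA).toLp (indicator A u) y‖ ≤ _
      rw [hy]
      exact norm_indicator_le_norm_self _ _)

theorem chi_coe (A : Set ℂ) (hA : MeasurableSet A) (u : E c₀ R) :
    ∀ᵐ y ∂(mu c₀ R), chi A hA u y = indicator A u y := ((Lp.memLp u).indicator hA).coeFn_toLp

theorem chi_symm (A : Set ℂ) (hA : MeasurableSet A) (u v : E c₀ R) :
    ⟪chi A hA u, v⟫_ℝ = ⟪u, chi A hA v⟫_ℝ := by
  rw [inner_eq, inner_eq]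
  refine integral_congr_ae ?_
  filter_upwards [chi_coe A hA u, chi_coe A hA v] with y h1 h2
  rw [h1, h2]
  by_cases h : y ∈ A
  · rw [indicator_of_mem h, indicator_of_mem h]
  · rw [indicator_of_notMem h, indicator_of_notMem h, zero_mul, mul_zero]

/-- The function vanishes almost everywhere outside the set. -/
def Supp (A : Set ℂ) (u : E c₀ R) : Prop := ∀ᵐ y ∂(mu c₀ R), y ∉ A → u y = 0

theorem chi_eq_iff {A : Set ℂ} (hA : MeasurableSet A) (u : E c₀ R) :
    chi A hA u = u ↔ Supp A u := by
  constructor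
  · intro h
    have h1 := chi_coe A hA u
    rw [h] at h1
    filter_upwards [h1] with y hy hn
    rw [hy, indicator_of_notMem hn]
  · intro h
    refine Lp.ext ?_
    filter_upwards [chi_coe A hA u, h] with y h1 h2
    rw [h1]
    by_cases hy : y ∈ A
    · rw [indicator_of_mem hy]
    · rw [indicator_of_notMem hy, h2 hy]

theorem supp_chi {A : Set ℂ} (hA : MeasurableSet A) (u : E c₀ R) : Supp A (chi A hA u) := by
  filter_upwards [chi_coe A hA u] with y hy hn
  rw [hy, indicator_of_notMem hn]

/-- The subspace of the functions that vanish outside the set. -/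
def sub (A : Set ℂ) (hA : MeasurableSet A) : Submodule ℝ (E c₀ R) :=
  LinearMap.ker ((1 - chi A hA : E c₀ R →L[ℝ] E c₀ R) : E c₀ R →ₗ[ℝ] E c₀ R)

theorem mem_sub {A : Set ℂ} (hA : MeasurableSet A) {u : E c₀ R} : u ∈ sub A hA ↔ Supp A u := by
  rw [← chi_eq_iff hA]
  unfold sub
  rw [LinearMap.mem_ker]
  show u - chi A hA u = 0 ↔ _
  rw [sub_eq_zero, eq_comm]

theorem sub_closed (A : Set ℂ) (hA : MeasurableSet A) :
    IsClosed ((sub A hA : Submodule ℝ (E c₀ R)) : Set (E c₀ R)) :=
  ContinuousLinearMap.isClosed_ker (1 - chi A hA : E c₀ R →L[ℝ] E c₀ R)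

/-- The inner product with a function supported in `A` of a function vanishing on `A`. -/
theorem inner_eq_zero {A : Set ℂ} {u v : E c₀ R} (hu : ∀ᵐ y ∂(mu c₀ R), y ∈ A → u y = 0)
    (hv : Supp A v) : ⟪u, v⟫_ℝ = 0 := by
  rw [inner_eq]
  refine integral_eq_zero_of_ae ?_
  filter_upwards [hu, hv] with y h1 h2
  by_cases h : y ∈ A
  · rw [h1 h, zero_mul]; rfl
  · rw [h2 h, mul_zero]; rfl

end

end Pool.Agent.Q82.LP
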