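import Pool.Agent.Q82.LogPot4

/-!
# Logarithmic potentials in the plane: polarization
-/

open Set MeasureTheory Filter Topology Metric
open scoped ENNReal InnerProductSpace

namespace Pool.Agent.Q82.LP

noncomputable section

/-- A reflection `σ` that preserves the disc, with a half-plane `H` whose boundary is fixed. -/
structure Refl (c₀ : ℂ) (R : ℝ) where
  σ : ℂ → ℂ
  H : Set ℂ
  inv : ∀ x, σ (σ x) = x
  iso : ∀ x y, ‖σ x - σ y‖ = ‖x - y‖
  mp : MeasurePreserving σ (mu c₀ R) (mu c₀ R)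
  cont : Continuous σ
  openH : IsOpen H
  fr : ∀ x ∈ frontier H, σ x = x
  out : ∀ x ∈ H, σ x ∉ H
  inn : ∀ x, x ∉ H → σ x ≠ x → σ x ∈ H

namespace Refl

variable {c₀ : ℂ} {R : ℝ} (G : Refl c₀ R)

theorem inj : Function.Injective G.σ := fun x y h => by
  rw [← G.inv x, h, G.inv]

theorem me : MeasurableEmbedding G.σ := G.cont.measurableEmbedding G.inj

theorem iso' (x y : ℂ) : ‖x - G.σ y‖ = ‖G.σ x - y‖ := by
  rw [← G.iso x (G.σ y), G.inv]

/-- Composition with the reflection. -/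
def S : E c₀ R →L[ℝ] E c₀ R := (Lp.compMeasurePreservingₗᵢ ℝ G.σ G.mp).toContinuousLinearMap

theorem S_coe (u : E c₀ R) : ∀ᵐ y ∂(mu c₀ R), G.S u y = u (G.σ y) :=
  Lp.coeFn_compMeasurePreserving u G.mp

theorem ae_comp {p : ℂ → Prop} (h : ∀ᵐ y ∂(mu c₀ R), p y) : ∀ᵐ y ∂(mu c₀ R), p (G.σ y) :=
  G.mp.quasiMeasurePreserving.ae h

theorem S_S (u : E c₀ R) : G.S (G.S u) = u := by
  refine Lp.ext ?_
  filter_upwards [G.S_coe (G.S u), G.ae_comp (G.S_coe u)] with y h1 h2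
  rw [h1, h2, G.inv]

theorem S_inner (u v : E c₀ R) : ⟪G.S u, v⟫_ℝ = ⟪u, G.S v⟫_ℝ := by
  have h : ⟪G.S u, G.S (G.S v)⟫_ℝ = ⟪u, G.S v⟫_ℝ :=
    (Lp.compMeasurePreservingₗᵢ ℝ G.σ G.mp).inner_map_map u (G.S v)
  rwa [S_S] at h

theorem pot_S (u : E c₀ R) (x : ℂ) : pot (G.S u) x = pot u (G.σ x) := by
  have h1 : pot (G.S u) x = ∫ y, k (G.σ x) (G.σ y) * u (G.σ y) ∂(mu c₀ R) := by
    unfold pot
    refine integral_congr_ae ?_
    filter_upwards [G.S_coe u] with y hy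
    rw [hy]
    unfold k
    rw [G.iso]
  rw [h1]
  exact G.mp.integral_comp G.me (fun y => k (G.σ x) y * u y)

theorem T_S (u : E c₀ R) : T (G.S u) = G.S (T u) := by
  refine Lp.ext ?_
  filter_upwards [T_apply (G.S u), G.S_coe (T u), G.ae_comp (T_apply u)] with y h1 h2 h3
  rw [h1, h2, h3, pot_S]

theorem integral_S (u : E c₀ R) : ∫ y, G.S u y ∂(mu c₀ R) = ∫ y, u y ∂(mu c₀ R) := by
  rw [← G.mp.integral_comp G.me (fun y => u y)]
  exact integral_congr_ae (G.S_coe u)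

/-- Odd functions. -/
def Odd (u : E c₀ R) : Prop := G.S u = -u

/-- The subspace of the odd functions. -/
def odd : Submodule ℝ (E c₀ R) :=
  LinearMap.ker ((G.S + 1 : E c₀ R →L[ℝ] E c₀ R) : E c₀ R →ₗ[ℝ] E c₀ R)

theorem mem_odd {u : E c₀ R} : u ∈ G.odd ↔ G.Odd u := by
  unfold odd Odd
  rw [LinearMap.mem_ker]
  show G.S u + u = 0 ↔ _
  exact add_eq_zero_iff_eq_neg

theorem odd_closed : IsClosed (G.odd : Set (E c₀ R)) :=
  ContinuousLinearMap.isClosed_ker (G.S + 1 : E c₀ R →L[ℝ] E c₀ R)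

variable {G}

theorem Odd.integral {u : E c₀ R} (h : G.Odd u) : ∫ y, u y ∂(mu c₀ R) = 0 := by
  have h1 := G.integral_S u
  rw [h] at h1
  have h2 : ∫ y, (-u : E c₀ R) y ∂(mu c₀ R) = -∫ y, u y ∂(mu c₀ R) := by
    rw [← integral_neg]
    refine integral_congr_ae ?_
    filter_upwards [Lp.coeFn_neg u] with y hy
    rw [hy, Pi.neg_apply]
  linarith

theorem Odd.pot {u : E c₀ R} (h : G.Odd u) (x : ℂ) : pot u (G.σ x) = -pot u x := by
  rw [← pot_S, h, pot_neg]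

theorem Odd.ae {u : E c₀ R} (h : G.Odd u) : ∀ᵐ y ∂(mu c₀ R), u (G.σ y) = -u y := by
  have h1 := G.S_coe u
  rw [h] at h1
  filter_upwards [h1, Lp.coeFn_neg u] with y h2 h3
  rw [← h2, h3, Pi.neg_apply]

theorem Odd.T {u : E c₀ R} (h : G.Odd u) : G.Odd (T u) := by
  unfold Odd
  rw [← T_S, h, map_neg]

theorem Odd.smul {u : E c₀ R} (h : G.Odd u) (c : ℝ) : G.Odd (c • u) := by
  unfold Odd
  rw [map_smul, h, smul_neg]

theorem Odd.sub {u v : E c₀ R} (h : G.Odd u) (h' : G.Odd v) : G.Odd (u - v) := by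
  unfold Odd
  rw [map_sub, h, h']; abel

theorem Odd.add {u v : E c₀ R} (h : G.Odd u) (h' : G.Odd v) : G.Odd (u + v) := by
  unfold Odd
  rw [map_add, h, h']; abel

theorem Odd.neg {u : E c₀ R} (h : G.Odd u) : G.Odd (-u) := by
  unfold Odd
  rw [map_neg, h]

theorem Odd.decay {u : E c₀ R} (h : G.Odd u) {ε : ℝ} (hε : 0 < ε) :
    ∃ R' : ℝ, ∀ x : ℂ, R' < ‖x‖ → Pool.Agent.Q82.LP.pot u x < ε :=
  pot_decay u h.integral.ge hε

/-- The operator is nonnegative on the odd functions. -/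
theorem Odd.nonneg {u : E c₀ R} (h : G.Odd u) : 0 ≤ ⟪Pool.Agent.Q82.LP.T u, u⟫_ℝ := by
  by_contra hcon
  push Not at hcon
  have hu : u ≠ 0 := by
    rintro rfl
    rw [map_zero, inner_zero_left] at hcon
    exact lt_irrefl _ hcon
  have hu0 : 0 < ‖u‖ := norm_pos_iff.2 hu
  set r := ⟪Pool.Agent.Q82.LP.T u, u⟫_ℝ / ‖u‖ ^ 2 with hr
  have hr0 : r < 0 := div_neg_of_neg_of_pos hcon (by positivity)
  obtain ⟨m, hmr, x, hx, hx0, hxy⟩ := exists_eigen_sub Pool.Agent.Q82.LP.T T_compact T_symm G.odd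
    G.odd_closed hr0 (G.mem_odd.2 h) hu (by rw [hr]; field_simp; exact le_rfl)
  have hxo : G.Odd x := G.mem_odd.1 hx
  have hm0 : m < 0 := lt_of_le_of_lt hmr hr0
  -- an eigenfunction
  have hTx : Pool.Agent.Q82.LP.T x = m • x := by
    have h1 : Pool.Agent.Q82.LP.T x - m • x ∈ G.odd := G.mem_odd.2 (hxo.T.sub (hxo.smul m))
    have h2 := hxy _ h1
    have h3 : ⟪Pool.Agent.Q82.LP.T x - m • x, Pool.Agent.Q82.LP.T x - m • x⟫_ℝ = 0 := by
      rw [inner_sub_left, h2, inner_smul_left]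
      simp
    exact sub_eq_zero.1 (inner_self_eq_zero.1 h3)
  have hpot : ∀ᵐ y ∂(mu c₀ R), Pool.Agent.Q82.LP.pot x y = m * x y := by
    have h1 := T_apply x
    rw [hTx] at h1
    filter_upwards [h1, Lp.coeFn_smul m x] with y h2 h3
    rw [← h2, h3, Pi.smul_apply, smul_eq_mul]
  have hle : ∀ w : E c₀ R, G.Odd w → (∀ᵐ y ∂(mu c₀ R), Pool.Agent.Q82.LP.pot w y = m * w y) →
      ∀ z, Pool.Agent.Q82.LP.pot w z ≤ 0 := by
    intro w hwo hw z
    refine max_principle w univ isOpen_univ (by simp) (fun ε hε => ?_) ?_ z (mem_univ z)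
    · obtain ⟨R', hR'⟩ := hwo.decay hε
      exact ⟨R', fun x _ hx => hR' x hx⟩
    · filter_upwards [hw] with y hy _ hpos
      rw [hy] at hpos
      by_contra h
      push Not at h
      nlinarith
  have h1 := hle x hxo hpot
  have h2 := hle (-x) hxo.neg (by
    filter_upwards [hpot, Lp.coeFn_neg x] with y h2 h3
    rw [pot_neg, h2, h3, Pi.neg_apply]; ring)
  have h3 : x = 0 := by
    refine Lp.ext ?_
    filter_upwards [hpot, Lp.coeFn_zero ℝ 2 (mu c₀ R)] with y hy hz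
    rw [hz]
    have h4 := h1 y
    have h5 := h2 y
    rw [pot_neg] at h5
    have h6 : m * x y = 0 := by linarith
    rcases mul_eq_zero.1 h6 with h7 | h7
    · exact absurd h7 hm0.ne
    · exact h7
  exact hx0 h3

end Refl

/-! ### The sign of an eigenfunction with a negative eigenvalue -/

variable {c₀ : ℂ} {R : ℝ}

theorem eigen_nonneg {P : Set ℂ} {u : E c₀ R} {r : ℝ} (hr : r < 0) (hP : Supp P u)
    (hTu : ∀ᵐ y ∂(mu c₀ R), y ∈ P → pot u y = r * u y)
    (hint : 0 ≤ ∫ y, u y ∂(mu c₀ R)) : ∀ᵐ y ∂(mu c₀ R), 0 ≤ u y := by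
  have h1 : ∀ z, pot u z ≤ 0 := by
    intro z
    refine max_principle u univ isOpen_univ (by simp) (fun ε hε => ?_) ?_ z (mem_univ z)
    · obtain ⟨R', hR'⟩ := pot_decay u hint hε
      exact ⟨R', fun x _ hx => hR' x hx⟩
    · filter_upwards [hTu, hP] with y hy hy' _ hpos
      by_cases h : y ∈ P
      · rw [hy h] at hpos
        by_contra h
        push Not at h
        nlinarith
      · rw [hy' h]
  filter_upwards [hTu, hP] with y hy hy'
  by_cases h : y ∈ P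
  · have h2 := h1 y
    rw [hy h] at h2
    by_contra h3
    push Not at h3
    nlinarith
  · rw [hy' h]

end

end Pool.Agent.Q82.LP
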