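import Pool.Agent.Q82.LogPot5

/-!
# Logarithmic potentials in the plane: polarization does not lower the negative eigenvalue
-/

open Set MeasureTheory Filter Topology Metric
open scoped ENNReal InnerProductSpace

namespace Pool.Agent.Q82.LP

noncomputable section

variable {c₀ : ℂ} {R : ℝ}

/-- `T - r`. -/
def L (r : ℝ) (u : E c₀ R) : E c₀ R := T u - r • u

theorem L_add (r : ℝ) (u v : E c₀ R) : L r (u + v) = L r u + L r v := by
  unfold L; rw [map_add, smul_add]; abel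

theorem L_sub (r : ℝ) (u v : E c₀ R) : L r (u - v) = L r u - L r v := by
  unfold L; rw [map_sub, smul_sub]; abel

theorem L_smul (r c : ℝ) (u : E c₀ R) : L r (c • u) = c • L r u := by
  unfold L; rw [map_smul, smul_sub, smul_comm]

theorem L_symm (r : ℝ) (u v : E c₀ R) : ⟪L r u, v⟫_ℝ = ⟪u, L r v⟫_ℝ := by
  unfold L
  rw [inner_sub_left, inner_sub_right, T_symm, inner_smul_left, inner_smul_right]
  simp

theorem L_coe (r : ℝ) (u : E c₀ R) : ∀ᵐ y ∂(mu c₀ R), L r u y = pot u y - r * u y := by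
  unfold L
  filter_upwards [Lp.coeFn_sub (T u) (r • u), T_apply u, Lp.coeFn_smul r u] with y h1 h2 h3
  rw [h1, Pi.sub_apply, h2, h3, Pi.smul_apply, smul_eq_mul]

theorem inner_chi_self {A : Set ℂ} (hA : MeasurableSet A) (u : E c₀ R) :
    ⟪u, chi A hA u⟫_ℝ = ‖chi A hA u‖ ^ 2 := by
  rw [← real_inner_self_eq_norm_sq, chi_symm, (chi_eq_iff hA _).2 (supp_chi hA u)]

theorem ae_zero_of_chi {A : Set ℂ} (hA : MeasurableSet A) {u : E c₀ R}
    (h : ⟪u, chi A hA u⟫_ℝ = 0) : ∀ᵐ y ∂(mu c₀ R), y ∈ A → u y = 0 := by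
  rw [inner_chi_self] at h
  have h1 : chi A hA u = 0 := by
    have : ‖chi A hA u‖ = 0 := by
      rcases sq_eq_zero_iff.1 h with h; exact h
    exact norm_eq_zero.1 this
  have h2 := chi_coe A hA u
  rw [h1] at h2
  filter_upwards [h2, Lp.coeFn_zero ℝ 2 (mu c₀ R)] with y h3 h4 hy
  rw [indicator_of_mem hy, h4] at h3
  exact h3.symm

theorem S_L (G : Refl c₀ R) (r : ℝ) (u : E c₀ R) : G.S (L r u) = L r (G.S u) := by
  unfold L
  rw [map_sub, map_smul, G.T_S]

theorem S_chi (G : Refl c₀ R) {A : Set ℂ} (hA : MeasurableSet A)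
    (hsym : ∀ y, G.σ y ∈ A ↔ y ∈ A) (u : E c₀ R) : G.S (chi A hA u) = chi A hA (G.S u) := by
  refine Lp.ext ?_
  filter_upwards [G.S_coe (chi A hA u), G.ae_comp (chi_coe A hA u), chi_coe A hA (G.S u),
    G.S_coe u] with y h1 h2 h3 h4
  rw [h1, h2, h3]
  by_cases hy : y ∈ A
  · rw [indicator_of_mem hy, indicator_of_mem ((hsym y).2 hy), h4]
  · rw [indicator_of_notMem hy, indicator_of_notMem (fun h => hy ((hsym y).1 h))]

/-- The polarization, in terms of the reflection. -/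
def pol (G : Refl c₀ R) (Ω : Set ℂ) : Set ℂ :=
  ((Ω ∪ G.σ ⁻¹' Ω) ∩ G.H) ∪ ((Ω ∩ G.σ ⁻¹' Ω) \ G.H)

theorem main_aux (G : Refl c₀ R) {Ω : Set ℂ} (hΩ : MeasurableSet Ω) {r : ℝ} (hr : r < 0)
    {u : E c₀ R} (hu0 : u ≠ 0) (hPu : Supp (pol G Ω) u)
    (hTu : ∀ᵐ y ∂(mu c₀ R), y ∈ pol G Ω → pot u y = r * u y)
    (hpos : ∀ᵐ y ∂(mu c₀ R), 0 ≤ u y) :
    ∃ v : E c₀ R, v ≠ 0 ∧ Supp Ω v ∧ ⟪T v, v⟫_ℝ ≤ r * ‖v‖ ^ 2 := by
  classical
  -- the sets
  set AA : Set ℂ := Ω ∩ G.σ ⁻¹' Ω with hAA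
  set CC : Set ℂ := G.H ∩ (Ωᶜ ∩ G.σ ⁻¹' Ω) with hCC
  set C2 : Set ℂ := CC ∪ G.σ ⁻¹' CC with hC2
  have hσm : Measurable G.σ := G.cont.measurable
  have mAA : MeasurableSet AA := hΩ.inter (hσm hΩ)
  have mCC : MeasurableSet CC := G.openH.measurableSet.inter (hΩ.compl.inter (hσm hΩ))
  have mC2 : MeasurableSet C2 := mCC.union (hσm mCC)
  have sAA : ∀ y, G.σ y ∈ AA ↔ y ∈ AA := by
    intro y
    simp only [hAA, mem_inter_iff, mem_preimage, G.inv]
    exact and_comm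
  have sC2 : ∀ y, G.σ y ∈ C2 ↔ y ∈ C2 := by
    intro y
    simp only [hC2, mem_union, mem_preimage, G.inv]
    exact or_comm
  have hAAP : AA ⊆ pol G Ω := by
    intro y hy
    by_cases h : y ∈ G.H
    · exact Or.inl ⟨Or.inl hy.1, h⟩
    · exact Or.inr ⟨hy, h⟩
  have hLu : ∀ᵐ y ∂(mu c₀ R), y ∈ pol G Ω → L r u y = 0 := by
    filter_upwards [hTu, L_coe r u] with y h1 h2 hy
    rw [h2, h1 hy, sub_self]
  -- the odd part
  set uo : E c₀ R := (1 / 2 : ℝ) • (u - G.S u) with huo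
  set ue : E c₀ R := (1 / 2 : ℝ) • (u + G.S u) with hue
  have huoue : u = uo + ue := by
    rw [huo, hue, ← smul_add, sub_add_add_cancel, ← two_smul ℝ u, smul_smul]
    norm_num
  have huo_odd : G.Odd uo := by
    unfold Refl.Odd
    rw [huo, map_smul, map_sub, G.S_S, ← smul_neg, neg_sub]
  have huo_coe : ∀ᵐ y ∂(mu c₀ R), uo y = (u y - u (G.σ y)) / 2 := by
    filter_upwards [Lp.coeFn_smul (1 / 2 : ℝ) (u - G.S u), Lp.coeFn_sub u (G.S u),
      G.S_coe u] with y h1 h2 h3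
    rw [huo, h1, Pi.smul_apply, h2, Pi.sub_apply, h3, smul_eq_mul]
    ring
  set ch : E c₀ R := chi C2 mC2 uo with hch
  have hch_odd : G.Odd ch := by
    unfold Refl.Odd
    rw [hch, S_chi G mC2 sC2, huo_odd, map_neg]
  -- the solution
  set V : Submodule ℝ (E c₀ R) := G.odd ⊓ sub AA mAA with hV
  have hVc : IsClosed (V : Set (E c₀ R)) := by
    rw [hV, Submodule.coe_inf]
    exact G.odd_closed.inter (sub_closed AA mAA)
  obtain ⟨a, haV, ha⟩ := exists_solution T T_compact V hVc hr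
    (fun x hx => (G.mem_odd.1 hx.1).nonneg) (-(L r ch))
  have ha_odd : G.Odd a := G.mem_odd.1 haV.1
  have ha_supp : Supp AA a := (mem_sub mAA).1 haV.2
  set w : E c₀ R := a + ch with hw
  set w' : E c₀ R := uo - w with hw'
  have hw_odd : G.Odd w := ha_odd.add hch_odd
  have hw'_odd : G.Odd w' := huo_odd.sub hw_odd
  have h1 : ∀ y ∈ V, ⟪L r w, y⟫_ℝ = 0 := by
    intro y hy
    rw [hw, L_add, inner_add_left]
    have h2 := ha y hy
    have h3 : ⟪L r a, y⟫_ℝ = ⟪-(L r ch), y⟫_ℝ := h2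
    rw [h3, inner_neg_left]; ring
  have hLuy : ∀ y : E c₀ R, Supp AA y → ⟪L r u, y⟫_ℝ = 0 := by
    intro y hy
    refine inner_eq_zero (A := AA) ?_ hy
    filter_upwards [hLu] with z hz hzA
    exact hz (hAAP hzA)
  have hLue : ∀ y : E c₀ R, G.Odd y → ⟪L r ue, y⟫_ℝ = 0 := by
    intro y hy
    have h2 : G.S (L r ue) = L r ue := by
      rw [S_L, hue, map_smul, map_add, G.S_S, add_comm]
    have h3 : ⟪L r ue, y⟫_ℝ = -⟪L r ue, y⟫_ℝ := by
      calc ⟪L r ue, y⟫_ℝ = ⟪G.S (L r ue), y⟫_ℝ := by rw [h2]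
        _ = ⟪L r ue, G.S y⟫_ℝ := G.S_inner _ _
        _ = -⟪L r ue, y⟫_ℝ := by rw [hy, inner_neg_right]
    linarith
  have hLuo : ∀ y : E c₀ R, G.Odd y → ⟪L r u, y⟫_ℝ = ⟪L r uo, y⟫_ℝ := by
    intro y hy
    have h2 : L r u = L r uo + L r ue := by rw [← L_add, ← huoue]
    rw [h2, inner_add_left, hLue y hy, add_zero]
  have h3 : ∀ y ∈ V, ⟪L r w', y⟫_ℝ = 0 := by
    intro y hy
    rw [hw', L_sub, inner_sub_left, h1 y hy, ← hLuo y (G.mem_odd.1 hy.1),
      hLuy y ((mem_sub mAA).1 hy.2), sub_zero]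
  -- the equation on `AA`
  have h4 : ∀ᵐ y ∂(mu c₀ R), y ∈ AA → L r w' y = 0 := by
    refine ae_zero_of_chi mAA ?_
    refine h3 _ ⟨G.mem_odd.2 ?_, (mem_sub mAA).2 (supp_chi mAA _)⟩
    unfold Refl.Odd
    rw [S_chi G mAA sAA, S_L, hw'_odd]
    have : L r (-w') = -L r w' := by
      have := L_smul r (-1) w'
      rwa [neg_one_smul, neg_one_smul] at this
    rw [this, map_neg]
  have h5 : ∀ᵐ y ∂(mu c₀ R), y ∈ AA → pot w' y = r * w' y := by
    filter_upwards [h4, L_coe r w'] with y hy hy' hA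
    rw [hy hA] at hy'
    linarith
  -- pointwise values
  have hw'_coe : ∀ᵐ y ∂(mu c₀ R), w' y = uo y - (a y + indicator C2 uo y) := by
    filter_upwards [Lp.coeFn_sub uo w, Lp.coeFn_add a ch, chi_coe C2 mC2 uo] with y e1 e2 e3
    rw [hw', e1, Pi.sub_apply, hw, e2, Pi.add_apply, hch, e3]
  have hPσ : ∀ᵐ y ∂(mu c₀ R), G.σ y ∉ pol G Ω → u (G.σ y) = 0 := G.ae_comp hPu
  have hposσ : ∀ᵐ y ∂(mu c₀ R), 0 ≤ u (G.σ y) := G.ae_comp hpos
  -- potential theory
  have h6 : ∀ x ∈ G.H, pot (-w') x ≤ 0 := by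
    refine max_principle (-w') G.H G.openH ?_ ?_ ?_
    · intro x hx
      have := hw'_odd.pot x
      rw [G.fr x hx] at this
      rw [pot_neg]
      linarith
    · intro ε hε
      obtain ⟨R', hR'⟩ := hw'_odd.neg.decay hε
      exact ⟨R', fun x _ hx => hR' x hx⟩
    · filter_upwards [h5, hw'_coe, ha_supp, huo_coe, hPσ, hpos, Lp.coeFn_neg w'] with
        y e1 e2 e3 e4 e5 e6 e7 hyH hyp
      rw [pot_neg] at hyp
      rw [e7, Pi.neg_apply, neg_nonpos]
      by_cases hyA : y ∈ AA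
      · have e8 := e1 hyA
        by_contra hcon
        push Not at hcon
        nlinarith
      · rw [e2, e3 hyA, zero_add]
        by_cases hyC : y ∈ CC
        · rw [indicator_of_mem (show y ∈ C2 from Or.inl hyC), sub_self]
        · have hyC2 : y ∉ C2 := by
            rintro (h | h)
            · exact hyC h
            · exact G.out _ h.1 (by rw [G.inv]; exact hyH)
          rw [indicator_of_notMem hyC2, sub_zero, e4, e5, sub_zero]
          · linarith
          · rintro (h | h)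
            · exact G.out y hyH h.2
            · have hh := h.1.2
              rw [mem_preimage, G.inv] at hh
              exact hyA ⟨hh, h.1.1⟩
  have h7 : ∀ x ∈ G.H, 0 ≤ pot w' x := by
    intro x hx
    have := h6 x hx
    rw [pot_neg] at this
    linarith
  -- the main inequality
  have h8 : 0 ≤ ⟪L r w', w⟫_ℝ := by
    rw [hw, inner_add_right, h3 a haV, zero_add]
    unfold L
    rw [inner_sub_left, inner_smul_left]
    have e1 : ⟪w', ch⟫_ℝ = 0 := by
      refine inner_eq_zero (A := C2) ?_ (supp_chi mC2 _)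
      filter_upwards [hw'_coe, ha_supp] with y e2 e3 hyC
      have hyA : y ∉ AA := by
        rcases hyC with h | h
        · exact fun h' => h.2.1 h'.1
        · exact fun h' => h.2.1 h'.2
      rw [e2, e3 hyA, indicator_of_mem hyC]
      ring
    rw [e1, mul_zero, sub_zero, inner_eq]
    refine integral_nonneg_of_ae ?_
    filter_upwards [T_apply w', chi_coe C2 mC2 uo, huo_coe, hPσ, hPu, hpos, hposσ] with
      y e2 e3 e4 e5 e6 e7 e8
    rw [Pi.zero_apply, e2, hch, e3]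
    by_cases hyC : y ∈ C2
    · rw [indicator_of_mem hyC, e4]
      rcases hyC with h | h
      · -- `y ∈ CC`
        have hσ : G.σ y ∉ pol G Ω := by
          rintro (h' | h')
          · exact G.out y h.1 h'.2
          · have hh := h'.1.2
            rw [mem_preimage, G.inv] at hh
            exact h.2.1 hh
        rw [e5 hσ, sub_zero]
        exact mul_nonneg (h7 y h.1) (by linarith)
      · have hyH : y ∉ G.H := by
          intro h'
          exact G.out y h' h.1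
        have hyP : y ∉ pol G Ω := by
          rintro (h' | h')
          · exact hyH h'.2
          · exact h.2.1 h'.1.2
        rw [e6 hyP, zero_sub]
        have e9 := h7 _ h.1
        rw [hw'_odd.pot y] at e9
        have : pot w' y * (-u (G.σ y) / 2) = (-pot w' y) * (u (G.σ y) / 2) := by ring
        rw [this]
        exact mul_nonneg e9 (by linarith)
    · rw [indicator_of_notMem hyC, mul_zero]
  -- the test function
  set v : E c₀ R := u - (2 : ℝ) • w with hv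
  have hv_coe : ∀ᵐ y ∂(mu c₀ R), v y = u y - 2 * (a y + indicator C2 uo y) := by
    filter_upwards [Lp.coeFn_sub u ((2 : ℝ) • w), Lp.coeFn_smul (2 : ℝ) w, Lp.coeFn_add a ch,
      chi_coe C2 mC2 uo] with y e1 e2 e3 e4
    rw [hv, e1, Pi.sub_apply, e2, Pi.smul_apply, hw, e3, Pi.add_apply, hch, e4, smul_eq_mul]
  refine ⟨v, ?_, ?_, ?_⟩
  · intro hv0
    have e1 : u = (2 : ℝ) • w := sub_eq_zero.1 hv0
    have e2 : G.Odd u := by rw [e1]; exact hw_odd.smul 2
    apply hu0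
    refine Lp.ext ?_
    filter_upwards [e2.ae, hpos, hposσ, Lp.coeFn_zero ℝ 2 (mu c₀ R)] with y e3 e4 e5 e6
    rw [e6, Pi.zero_apply]
    linarith
  · filter_upwards [hv_coe, ha_supp, huo_coe, hPσ, hPu] with y e1 e2 e3 e4 e5 hy
    have hyA : y ∉ AA := fun h => hy h.1
    rw [e1, e2 hyA, zero_add]
    by_cases hyC : y ∈ CC
    · rw [indicator_of_mem (show y ∈ C2 from Or.inl hyC), e3]
      have hσ : G.σ y ∉ pol G Ω := by
        rintro (h' | h')
        · exact G.out y hyC.1 h'.2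
        · have hh := h'.1.2
          rw [mem_preimage, G.inv] at hh
          exact hy hh
      rw [e4 hσ]
      ring
    · have hyC2 : y ∉ C2 := by
        rintro (h | h)
        · exact hyC h
        · have hh := h.2.2
          rw [mem_preimage, G.inv] at hh
          exact hy hh
      rw [indicator_of_notMem hyC2, mul_zero, sub_zero]
      refine e5 ?_
      rintro (h' | h')
      · rcases h'.1 with h | h
        · exact hy h
        · exact hyC ⟨h'.2, hy, h⟩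
      · exact hy h'.1.1
  · have e1 : ⟪L r v, v⟫_ℝ = -4 * ⟪L r w', w⟫_ℝ := by
      have e2 : ⟪L r u, u⟫_ℝ = 0 := inner_eq_zero hLu hPu
      have e3 : ⟪L r w, u⟫_ℝ = ⟪L r u, w⟫_ℝ := by
        rw [L_symm, real_inner_comm]
      have e4 : ⟪L r u, w⟫_ℝ = ⟪L r uo, w⟫_ℝ := hLuo w hw_odd
      have e5 : ⟪L r w', w⟫_ℝ = ⟪L r uo, w⟫_ℝ - ⟪L r w, w⟫_ℝ := by
        rw [hw', L_sub, inner_sub_left]
      have e6 : ⟪L r v, v⟫_ℝ = ⟪L r u, u⟫_ℝ - 2 * ⟪L r u, w⟫_ℝ - 2 * ⟪L r w, u⟫_ℝ +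
          4 * ⟪L r w, w⟫_ℝ := by
        rw [hv, L_sub, L_smul, inner_sub_left, inner_sub_right, inner_sub_right, inner_smul_left,
          inner_smul_right, inner_smul_left, inner_smul_right]
        simp only [conj_trivial]
        ring
      rw [e6, e2, e3, e4, e5]
      ring
    have e2 : ⟪L r v, v⟫_ℝ = ⟪T v, v⟫_ℝ - r * ‖v‖ ^ 2 := by
      unfold L
      rw [inner_sub_left, inner_smul_left, real_inner_self_eq_norm_sq]
      simp only [conj_trivial]
    linarith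

theorem main (G : Refl c₀ R) {Ω : Set ℂ} (hΩ : MeasurableSet Ω) {r : ℝ} (hr : r < 0)
    {u : E c₀ R} (hu0 : u ≠ 0) (hPu : Supp (pol G Ω) u)
    (hTu : ∀ᵐ y ∂(mu c₀ R), y ∈ pol G Ω → pot u y = r * u y) :
    ∃ m ≤ r, ∃ x : E c₀ R, x ≠ 0 ∧ Supp Ω x ∧
      ∀ᵐ y ∂(mu c₀ R), y ∈ Ω → pot x y = m * x y := by
  obtain ⟨v, hv0, hvΩ, hv⟩ : ∃ v : E c₀ R, v ≠ 0 ∧ Supp Ω v ∧ ⟪T v, v⟫_ℝ ≤ r * ‖v‖ ^ 2 := by
    by_cases hint : 0 ≤ ∫ y, u y ∂(mu c₀ R)
    · exact main_aux G hΩ hr hu0 hPu hTu (eigen_nonneg hr hPu hTu hint)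
    · push Not at hint
      have hPu' : Supp (pol G Ω) (-u) := by
        filter_upwards [hPu, Lp.coeFn_neg u] with y h1 h2 hy
        rw [h2, Pi.neg_apply, h1 hy, neg_zero]
      have hTu' : ∀ᵐ y ∂(mu c₀ R), y ∈ pol G Ω → pot (-u) y = r * (-u : E c₀ R) y := by
        filter_upwards [hTu, Lp.coeFn_neg u] with y h1 h2 hy
        rw [h2, Pi.neg_apply, pot_neg, h1 hy]; ring
      have hint' : 0 ≤ ∫ y, (-u : E c₀ R) y ∂(mu c₀ R) := by
        have h2 : ∫ y, (-u : E c₀ R) y ∂(mu c₀ R) = -∫ y, u y ∂(mu c₀ R) := by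
          rw [← integral_neg]
          refine integral_congr_ae ?_
          filter_upwards [Lp.coeFn_neg u] with y hy
          rw [hy, Pi.neg_apply]
        rw [h2]; linarith
      exact main_aux G hΩ hr (neg_ne_zero.2 hu0) hPu' hTu' (eigen_nonneg hr hPu' hTu' hint')
  obtain ⟨m, hm, x, hx, hx0, hxy⟩ := exists_eigen_sub T T_compact T_symm (sub Ω hΩ)
    (sub_closed Ω hΩ) hr ((mem_sub hΩ).2 hvΩ) hv0 hv
  refine ⟨m, hm, x, hx0, (mem_sub hΩ).1 hx, ?_⟩
  have h1 : ∀ᵐ y ∂(mu c₀ R), y ∈ Ω → L m x y = 0 := by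
    refine ae_zero_of_chi hΩ ?_
    have h2 := hxy (chi Ω hΩ (L m x)) ((mem_sub hΩ).2 (supp_chi hΩ _))
    unfold L at h2 ⊢
    rw [inner_sub_left, h2, inner_smul_left]
    simp
  filter_upwards [h1, L_coe m x] with y hy hy' hyΩ
  rw [hy hyΩ] at hy'
  linarith

end

end Pool.Agent.Q82.LP
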