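import Pool.Agent.Q82.LogPot6

/-!
# Polarization and the negative eigenvalue of the logarithmic potential: the concrete statement
-/

open Set MeasureTheory Filter Topology Metric
open scoped ENNReal InnerProductSpace

namespace Pool.Agent.Q82.LP

noncomputable section

/-- The inner product of the plane `ℂ`. -/
def dot (e z : ℂ) : ℝ := e.re * z.re + e.im * z.im

/-- The open half-plane with inner normal `e`. -/
def halfPlane (e : ℂ) (c : ℝ) : Set ℂ := {z | c < dot e z}

/-- The reflection in the boundary line of the half-plane (`e` a unit vector). -/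
def refl (e : ℂ) (c : ℝ) (z : ℂ) : ℂ := z - ((2 * (dot e z - c) : ℝ) : ℂ) * e

/-- The polarization of a set. -/
def polarize (e : ℂ) (c : ℝ) (Ω : Set ℂ) : Set ℂ :=
  ((Ω ∪ refl e c '' Ω) ∩ halfPlane e c) ∪ ((Ω ∩ refl e c '' Ω) \ halfPlane e c)

/-- `r` is an eigenvalue of the operator of the logarithmic potential on `L²(Ω)`. -/
def IsEigenvalue (Ω : Set ℂ) (r : ℝ) : Prop :=
  ∃ u : ℂ → ℝ, MemLp u 2 (volume.restrict Ω) ∧ ¬ u =ᵐ[volume.restrict Ω] 0 ∧
    ∀ᵐ x ∂(volume.restrict Ω), ∫ y in Ω, Real.log (1 / ‖x - y‖) * u y = r * u x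

/-- The negative eigenvalue, or zero if there is none. -/
def tau (Ω : Set ℂ) : ℝ := sInf ({0} ∪ {r | r < 0 ∧ IsEigenvalue Ω r})

/-! ### The reflection -/

theorem dot_add (e x y : ℂ) : dot e (x + y) = dot e x + dot e y := by
  unfold dot; simp only [Complex.add_re, Complex.add_im]; ring

theorem dot_sub (e x y : ℂ) : dot e (x - y) = dot e x - dot e y := by
  unfold dot; simp only [Complex.sub_re, Complex.sub_im]; ring

theorem dot_mul (e x : ℂ) (r : ℝ) : dot e ((r : ℂ) * x) = r * dot e x := by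
  unfold dot
  simp only [Complex.mul_re, Complex.mul_im, Complex.ofReal_re, Complex.ofReal_im]; ring

theorem dot_self {e : ℂ} (he : ‖e‖ = 1) : dot e e = 1 := by
  have : ‖e‖ ^ 2 = dot e e := by
    rw [← Complex.normSq_eq_norm_sq, Complex.normSq_apply]; rfl
  rw [← this, he]; norm_num

theorem dot_cont (e : ℂ) : Continuous (dot e) := by unfold dot; fun_prop

theorem refl_cont (e : ℂ) (c : ℝ) : Continuous (refl e c) := by
  unfold refl
  have := dot_cont e
  fun_prop

theorem dot_refl {e : ℂ} (he : ‖e‖ = 1) (c : ℝ) (z : ℂ) : dot e (refl e c z) = 2 * c - dot e z := by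
  unfold refl
  rw [dot_sub, dot_mul, dot_self he]; ring

theorem refl_refl {e : ℂ} (he : ‖e‖ = 1) (c : ℝ) (z : ℂ) : refl e c (refl e c z) = z := by
  have h : refl e c (refl e c z) = refl e c z - ((2 * (dot e (refl e c z) - c) : ℝ) : ℂ) * e := rfl
  rw [h, dot_refl he]
  unfold refl
  push_cast
  ring

/-- The linear part. -/
def linPart (e : ℂ) (he : ‖e‖ = 1) : ℂ →ₗᵢ[ℝ] ℂ where
  toFun z := z - ((2 * dot e z : ℝ) : ℂ) * e
  map_add' x y := by
    rw [dot_add]; push_cast; ring
  map_smul' r x := by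
    rw [RingHom.id_apply, Complex.real_smul, Complex.real_smul, dot_mul]; push_cast; ring
  norm_map' z := by
    show ‖z - ((2 * dot e z : ℝ) : ℂ) * e‖ = ‖z‖
    have h1 : ‖z - ((2 * dot e z : ℝ) : ℂ) * e‖ ^ 2 = ‖z‖ ^ 2 := by
      have h2 := dot_self he
      rw [← Complex.normSq_eq_norm_sq, ← Complex.normSq_eq_norm_sq, Complex.normSq_apply,
        Complex.normSq_apply]
      unfold dot at h2 ⊢
      simp only [Complex.sub_re, Complex.sub_im, Complex.mul_re, Complex.mul_im,
        Complex.ofReal_re, Complex.ofReal_im]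
      linear_combination (4 * (e.re * z.re + e.im * z.im) ^ 2) * h2
    exact (pow_left_inj₀ (norm_nonneg _) (norm_nonneg _) two_ne_zero).1 h1

theorem refl_eq {e : ℂ} (he : ‖e‖ = 1) (c : ℝ) (z : ℂ) :
    refl e c z = linPart e he z + ((2 * c : ℝ) : ℂ) * e := by
  show refl e c z = (z - ((2 * dot e z : ℝ) : ℂ) * e) + ((2 * c : ℝ) : ℂ) * e
  unfold refl
  push_cast
  ring

theorem refl_iso {e : ℂ} (he : ‖e‖ = 1) (c : ℝ) (x y : ℂ) :
    ‖refl e c x - refl e c y‖ = ‖x - y‖ := by
  rw [refl_eq he, refl_eq he, add_sub_add_right_eq_sub, ← map_sub, LinearIsometry.norm_map]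

theorem refl_mp {e : ℂ} (he : ‖e‖ = 1) (c : ℝ) :
    MeasurePreserving (refl e c) (volume : Measure ℂ) volume := by
  have h1 : MeasurePreserving ((linPart e he).toLinearIsometryEquiv rfl) (volume : Measure ℂ)
      volume := LinearIsometryEquiv.measurePreserving _
  have h2 := (measurePreserving_add_right (volume : Measure ℂ) (((2 * c : ℝ) : ℂ) * e)).comp h1
  have h3 : refl e c = (fun x => x + ((2 * c : ℝ) : ℂ) * e) ∘
      ((linPart e he).toLinearIsometryEquiv rfl) := by
    funext z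
    rw [Function.comp_apply, refl_eq he]
    rfl
  rw [h3]
  exact h2

/-- The center of the disc. -/
def cen (e : ℂ) (c : ℝ) : ℂ := (c : ℂ) * e

theorem refl_cen {e : ℂ} (he : ‖e‖ = 1) (c : ℝ) : refl e c (cen e c) = cen e c := by
  unfold refl cen
  rw [dot_mul, dot_self he]
  simp

theorem refl_ball {e : ℂ} (he : ‖e‖ = 1) (c R : ℝ) :
    refl e c ⁻¹' closedBall (cen e c) R = closedBall (cen e c) R := by
  ext z
  rw [mem_preimage, mem_closedBall, mem_closedBall, dist_eq_norm, dist_eq_norm]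
  nth_rewrite 1 [← refl_cen he c]
  rw [refl_iso he]

/-- The reflection data. -/
def reflData (e : ℂ) (he : ‖e‖ = 1) (c R : ℝ) : Refl (cen e c) R where
  σ := refl e c
  H := halfPlane e c
  inv := refl_refl he c
  iso := refl_iso he c
  mp := by
    have h := (refl_mp he c).restrict_preimage
      (measurableSet_closedBall (x := cen e c) (ε := R))
    rwa [refl_ball he] at h
  cont := refl_cont e c
  openH := isOpen_lt continuous_const (dot_cont e)
  fr := by
    intro x hx
    have h1 : c = dot e x := frontier_lt_subset_eq continuous_const (dot_cont e) hx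
    unfold refl
    rw [← h1]
    simp
  out := by
    intro x hx
    have h1 : c < dot e x := hx
    show ¬ c < dot e (refl e c x)
    rw [dot_refl he]; linarith
  inn := by
    intro x hx hne
    have h1 : ¬ c < dot e x := hx
    show c < dot e (refl e c x)
    rw [dot_refl he]
    have h2 : dot e x ≠ c := by
      intro h
      apply hne
      unfold refl
      rw [h]; simp
    have h3 : dot e x < c := lt_of_le_of_ne (not_lt.1 h1) h2
    linarith

theorem pol_eq {e : ℂ} (he : ‖e‖ = 1) (c R : ℝ) (Ω : Set ℂ) :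
    pol (reflData e he c R) Ω = polarize e c Ω := by
  have h : refl e c '' Ω = refl e c ⁻¹' Ω := by
    ext z
    constructor
    · rintro ⟨x, hx, rfl⟩
      rw [mem_preimage, refl_refl he]; exact hx
    · intro hz
      exact ⟨refl e c z, hz, refl_refl he c z⟩
  unfold pol polarize
  rw [h]
  rfl

/-! ### Eigenvalues -/

variable {c₀ : ℂ} {R : ℝ}

theorem k_eq (x y : ℂ) : Real.log (1 / ‖x - y‖) = k x y := by
  unfold k
  rw [one_div, Real.log_inv]

theorem restrict_eq {A : Set ℂ} (hA : A ⊆ closedBall c₀ R) :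
    (mu c₀ R).restrict A = volume.restrict A := Measure.restrict_restrict_of_subset hA

theorem exists_of_isEigenvalue {A : Set ℂ} (hAm : MeasurableSet A) (hA : A ⊆ closedBall c₀ R)
    {r : ℝ} (h : IsEigenvalue A r) : ∃ u : E c₀ R, u ≠ 0 ∧ Supp A u ∧
      ∀ᵐ y ∂(mu c₀ R), y ∈ A → pot u y = r * u y := by
  obtain ⟨f, hf, hf0, hfe⟩ := h
  have hg : MemLp (indicator A f) 2 (mu c₀ R) :=
    ((memLp_indicator_iff_restrict hAm).2 hf).restrict _
  refine ⟨hg.toLp (indicator A f), ?_, ?_, ?_⟩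
  · intro h0
    apply hf0
    have h1 := hg.coeFn_toLp
    rw [h0] at h1
    have h2 : ∀ᵐ y ∂(mu c₀ R), y ∈ A → f y = 0 := by
      filter_upwards [h1, Lp.coeFn_zero ℝ 2 (mu c₀ R)] with y h3 h4 hy
      rw [h4, indicator_of_mem hy] at h3
      exact h3.symm
    rw [← ae_restrict_iff' hAm, restrict_eq hA] at h2
    exact h2
  · filter_upwards [hg.coeFn_toLp] with y hy hn
    rw [hy, indicator_of_notMem hn]
  · have h1 : ∀ x, pot (hg.toLp (indicator A f)) x =
        ∫ y in A, Real.log (1 / ‖x - y‖) * f y := by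
      intro x
      unfold pot
      have e1 : ∫ y, k x y * (hg.toLp (indicator A f)) y ∂(mu c₀ R) =
          ∫ y, indicator A (fun y => Real.log (1 / ‖x - y‖) * f y) y ∂(mu c₀ R) := by
        refine integral_congr_ae ?_
        filter_upwards [hg.coeFn_toLp] with y hy
        rw [hy]
        by_cases h : y ∈ A
        · rw [indicator_of_mem h, indicator_of_mem h, k_eq]
        · rw [indicator_of_notMem h, indicator_of_notMem h, mul_zero]
      rw [e1, integral_indicator hAm, restrict_eq hA]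
    rw [ae_restrict_iff' hAm] at hfe
    have h2 : ∀ᵐ y ∂(mu c₀ R), y ∈ A →
        ∫ z in A, Real.log (1 / ‖y - z‖) * f z = r * f y := ae_restrict_of_ae hfe
    filter_upwards [h2, hg.coeFn_toLp] with y e1 e2 hy
    rw [h1, e1 hy, e2, indicator_of_mem hy]

theorem isEigenvalue_of {A : Set ℂ} (hAm : MeasurableSet A) (hA : A ⊆ closedBall c₀ R) {r : ℝ}
    {u : E c₀ R} (hu0 : u ≠ 0) (hAu : Supp A u)
    (hu : ∀ᵐ y ∂(mu c₀ R), y ∈ A → pot u y = r * u y) : IsEigenvalue A r := by
  refine ⟨u, ?_, ?_, ?_⟩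
  · have := (Lp.memLp u).restrict A
    rwa [restrict_eq hA] at this
  · intro h0
    apply hu0
    rw [← restrict_eq hA] at h0
    have h1 := (ae_restrict_iff' hAm).1 h0
    refine Lp.ext ?_
    filter_upwards [h1, hAu, Lp.coeFn_zero ℝ 2 (mu c₀ R)] with y e1 e2 e3
    rw [e3]
    by_cases h : y ∈ A
    · exact e1 h
    · exact e2 h
  · rw [← restrict_eq hA, ae_restrict_iff' hAm]
    filter_upwards [hu] with x hx hxA
    rw [restrict_eq hA, ← hx hxA]
    unfold pot
    rw [← restrict_eq hA, ← integral_indicator hAm]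
    refine integral_congr_ae ?_
    filter_upwards [hAu] with y hy
    by_cases h : y ∈ A
    · rw [indicator_of_mem h, k_eq]
    · rw [indicator_of_notMem h, hy h, mul_zero]

theorem bddBelow_eigen {A : Set ℂ} (hAm : MeasurableSet A) (hA : A ⊆ closedBall c₀ R) :
    BddBelow ({0} ∪ {r | r < 0 ∧ IsEigenvalue A r}) := by
  refine ⟨-‖(T : E c₀ R →L[ℝ] E c₀ R)‖, ?_⟩
  rintro r (hr | ⟨_, hr⟩)
  · rw [mem_singleton_iff] at hr
    rw [hr]
    exact neg_nonpos.2 (T : E c₀ R →L[ℝ] E c₀ R).opNorm_nonneg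
  · obtain ⟨u, hu0, hAu, hu⟩ := exists_of_isEigenvalue hAm hA hr
    have h1 : ⟪L r u, u⟫_ℝ = 0 := by
      refine inner_eq_zero (A := A) ?_ hAu
      filter_upwards [hu, L_coe r u] with y e1 e2 hy
      rw [e2, e1 hy, sub_self]
    unfold L at h1
    rw [inner_sub_left, inner_smul_left, real_inner_self_eq_norm_sq] at h1
    simp only [conj_trivial] at h1
    have h2 : |⟪T u, u⟫_ℝ| ≤ ‖(T : E c₀ R →L[ℝ] E c₀ R)‖ * ‖u‖ ^ 2 := by
      calc |⟪T u, u⟫_ℝ| ≤ ‖T u‖ * ‖u‖ := abs_real_inner_le_norm _ _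
        _ ≤ (‖(T : E c₀ R →L[ℝ] E c₀ R)‖ * ‖u‖) * ‖u‖ :=
            mul_le_mul_of_nonneg_right (ContinuousLinearMap.le_opNorm _ _) (norm_nonneg _)
        _ = _ := by ring
    have h3 : 0 < ‖u‖ ^ 2 := by
      have := norm_pos_iff.2 hu0
      positivity
    have h4 := (abs_le.1 h2).1
    have h5 : (-‖(T : E c₀ R →L[ℝ] E c₀ R)‖) * ‖u‖ ^ 2 ≤ r * ‖u‖ ^ 2 := by linarith
    exact le_of_mul_le_mul_right h5 h3

/-- Polarization does not lower the negative eigenvalue. -/
theorem polarization (Ω : Set ℂ) (hΩ : MeasurableSet Ω) (hb : Bornology.IsBounded Ω) (e : ℂ)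
    (he : ‖e‖ = 1) (c : ℝ) :
    (∀ r < 0, IsEigenvalue (polarize e c Ω) r → ∃ m ≤ r, IsEigenvalue Ω m) ∧
      tau Ω ≤ tau (polarize e c Ω) := by
  obtain ⟨R, hR⟩ := hb.subset_closedBall (cen e c)
  set G := reflData e he c R with hG
  have hσm : Measurable (refl e c) := (refl_cont e c).measurable
  have hPm : MeasurableSet (polarize e c Ω) := by
    rw [← pol_eq he c R]
    exact ((hΩ.union (hσm hΩ)).inter G.openH.measurableSet).union
      ((hΩ.inter (hσm hΩ)).diff G.openH.measurableSet)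
  have hPsub : polarize e c Ω ⊆ closedBall (cen e c) R := by
    rw [← pol_eq he c R]
    have h1 : refl e c ⁻¹' Ω ⊆ closedBall (cen e c) R := by
      intro z hz
      rw [← refl_ball he c R]
      exact hR hz
    rintro z (⟨h | h, _⟩ | ⟨h, _⟩)
    · exact hR h
    · exact h1 h
    · exact hR h.1
  have key : ∀ r < 0, IsEigenvalue (polarize e c Ω) r → ∃ m ≤ r, IsEigenvalue Ω m := by
    intro r hr h
    obtain ⟨u, hu0, hPu, hu⟩ := exists_of_isEigenvalue hPm hPsub h
    rw [← pol_eq he c R] at hPu hu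
    obtain ⟨m, hm, x, hx0, hxΩ, hx⟩ := main G hΩ hr hu0 hPu hu
    exact ⟨m, hm, isEigenvalue_of hΩ hR hx0 hxΩ hx⟩
  refine ⟨key, ?_⟩
  refine le_csInf ⟨0, Or.inl rfl⟩ ?_
  rintro r (hr | ⟨hr0, hr⟩)
  · rw [mem_singleton_iff] at hr
    rw [hr]
    exact csInf_le (bddBelow_eigen hΩ hR) (Or.inl rfl)
  · obtain ⟨m, hm, hmΩ⟩ := key r hr0 hr
    exact (csInf_le (bddBelow_eigen hΩ hR) (Or.inr ⟨lt_of_le_of_lt hm hr0, hmΩ⟩)).trans hm

end

end Pool.Agent.Q82.LP
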