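import Mathlib
set_option autoImplicit false
set_option maxHeartbeats 4000000
noncomputable section
namespace Pool.Agent.Q82.NB
open Finset

lemma add_rpow_le_two {p : ℝ} (hp : 1 ≤ p) (x y : ℝ) :
    |x + y| ^ p ≤ 2 ^ (p-1) * (|x| ^ p + |y| ^ p) := by
  have h := Real.rpow_sum_le_const_mul_sum_rpow (s := (univ : Finset (Fin 2))) (f := ![x,y]) hp
  simp [Fin.sum_univ_two] at h
  exact (Real.rpow_le_rpow (abs_nonneg _) (abs_add_le x y) (by linarith)).trans h

lemma abs_sum_rpow_le {p : ℝ} (hp : 1 ≤ p) {ι : Type*} (s : Finset ι) (f : ι → ℝ) :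
    |∑ i ∈ s, f i| ^ p ≤ (s.card : ℝ) ^ (p-1) * ∑ i ∈ s, |f i| ^ p :=
  (Real.rpow_le_rpow (abs_nonneg _) (abs_sum_le_sum_abs f s) (by linarith)).trans
    (Real.rpow_sum_le_const_mul_sum_rpow s f hp)

lemma exists_eps_const {p : ℝ} (hp : 1 ≤ p) {η : ℝ} (hη : 0 < η) :
    ∃ C : ℝ, 0 < C ∧ ∀ x y : ℝ, |x + y| ^ p ≤ (1+η) * |x| ^ p + C * |y| ^ p := by
  have hc : ContinuousAt (fun t : ℝ => (1 - t) ^ (1 - p)) 0 := by
    apply ContinuousAt.rpow_const (by fun_prop) (by left; norm_num)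
  have h1 : ∀ᶠ t in nhds (0:ℝ), (1 - t) ^ (1 - p) < 1 + η := by
    apply hc.eventually_lt continuousAt_const
    simp [hη]
  obtain ⟨δ, hδ, hb⟩ := Metric.eventually_nhds_iff.mp h1
  set l : ℝ := min (δ/2) (1/2) with hl
  have hl0 : 0 < l := by rw [hl]; positivity
  have hl1 : l < 1 := by
    have : l ≤ 1/2 := min_le_right _ _
    linarith
  have h2 : (1 - l) ^ (1 - p) < 1 + η := by
    apply hb
    rw [Real.dist_eq, sub_zero, abs_of_pos hl0]
    have : l ≤ δ/2 := min_le_left _ _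
    linarith
  have h1l : 0 < 1 - l := by linarith
  refine ⟨l ^ (1-p), Real.rpow_pos_of_pos hl0 _, fun x y => ?_⟩
  have hx : 0 ≤ |x| / (1-l) := by positivity
  have hy : 0 ≤ |y| / l := by positivity
  have hcv := (convexOn_rpow hp).2 (Set.mem_Ici.mpr hx) (Set.mem_Ici.mpr hy) h1l.le hl0.le
    (by ring)
  simp only [smul_eq_mul] at hcv
  have e1 : (1-l) * (|x| / (1-l)) + l * (|y|/l) = |x| + |y| := by
    rw [mul_div_cancel₀ _ h1l.ne', mul_div_cancel₀ _ hl0.ne']
  rw [e1] at hcv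
  have e2 : ∀ (t : ℝ), 0 < t → ∀ z : ℝ, t * (|z|/t) ^ p = t ^ (1-p) * |z| ^ p := by
    intro t ht z
    rw [Real.div_rpow (abs_nonneg _) ht.le, Real.rpow_sub ht, Real.rpow_one]
    field_simp
  rw [e2 _ h1l, e2 _ hl0] at hcv
  calc |x+y| ^ p ≤ (|x| + |y|) ^ p :=
        Real.rpow_le_rpow (abs_nonneg _) (abs_add_le x y) (by linarith)
    _ ≤ (1 - l) ^ (1 - p) * |x| ^ p + l ^ (1 - p) * |y| ^ p := hcv
    _ ≤ _ := by
      have : 0 ≤ |x| ^ p := by positivity
      nlinarith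

/-- truncation -/
def tr (m : ℕ) (b : ℕ → ℝ) : ℕ → ℝ := fun i => if i < m then b i else 0

/-- block sums -/
def T (B s o : ℕ) (b : ℕ → ℝ) : ℝ := ∑ i ∈ range (B^s), b (o+i)

/-- block p-sums -/
def W (p : ℝ) (B s o : ℕ) (b : ℕ → ℝ) : ℝ := ∑ i ∈ range (B^s), |b (o+i)| ^ p

def G (p γ β : ℝ) (B : ℕ) : ℕ → ℕ → ℝ → (ℕ → ℝ) → ℝ
  | 0, o, a, b => |a + b o| ^ p
  | s+1, o, a, b => (∑ k ∈ range B, G p γ β B s (o + k*B^s) a b) + γ*β^(s+1)*|T B (s+1) o b| ^ p

lemma sum_range_mul' (F : ℕ → ℝ) (n B : ℕ) :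
    ∑ i ∈ range (B*n), F i = ∑ q ∈ range B, ∑ i ∈ range n, F (q*n+i) := by
  induction B with
  | zero => simp
  | succ B ih => rw [Nat.succ_mul, Finset.sum_range_add, ih, Finset.sum_range_succ]

lemma T_succ (B s o : ℕ) (b : ℕ → ℝ) : T B (s+1) o b = ∑ k ∈ range B, T B s (o + k*B^s) b := by
  unfold T
  rw [pow_succ', sum_range_mul']
  apply sum_congr rfl
  intro q _
  apply sum_congr rfl
  intro i _
  rw [add_assoc]

lemma W_succ (p : ℝ) (B s o : ℕ) (b : ℕ → ℝ) :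
    W p B (s+1) o b = ∑ k ∈ range B, W p B s (o + k*B^s) b := by
  unfold W
  rw [pow_succ', sum_range_mul' (fun i => |b (o+i)| ^ p)]
  apply sum_congr rfl
  intro q _
  apply sum_congr rfl
  intro i _
  rw [add_assoc]

lemma W_nonneg (p : ℝ) (B s o : ℕ) (b : ℕ → ℝ) : 0 ≤ W p B s o b :=
  sum_nonneg fun i _ => by positivity

section
variable {p γ β : ℝ} {B : ℕ}

lemma G_nonneg (hγ : 0 ≤ γ) (hβ : 0 ≤ β) (s o : ℕ) (a : ℝ) (b : ℕ → ℝ) :
    0 ≤ G p γ β B s o a b := by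
  induction s generalizing o with
  | zero => unfold G; positivity
  | succ s ih =>
    unfold G
    have : 0 ≤ ∑ k ∈ range B, G p γ β B s (o + k*B^s) a b := sum_nonneg fun k _ => ih _
    positivity

lemma sub_block {k s o : ℕ} (hk : k < B) {i : ℕ} (h : o + k * B^s ≤ i) (h2 : i < o + k*B^s + B^s) :
    o ≤ i ∧ i < o + B^(s+1) := by
  have h3 : (k+1) * B^s ≤ B * B^s := Nat.mul_le_mul_right _ hk
  rw [add_mul, one_mul] at h3
  rw [pow_succ']
  constructor
  · exact (Nat.le_add_right _ _).trans h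
  · omega

lemma G_congr (s o : ℕ) (a : ℝ) {b b' : ℕ → ℝ} (h : ∀ i, o ≤ i → i < o + B^s → b i = b' i) :
    G p γ β B s o a b = G p γ β B s o a b' := by
  induction s generalizing o with
  | zero =>
    unfold G
    rw [h o le_rfl (by simp)]
  | succ s ih =>
    unfold G
    congr 1
    · apply sum_congr rfl
      intro k hk
      apply ih
      intro i hi hi'
      have := sub_block (mem_range.mp hk) hi hi'
      exact h i this.1 this.2
    · have : T B (s+1) o b = T B (s+1) o b' := by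
        unfold T
        apply sum_congr rfl
        intro i hi
        exact h _ (by omega) (by have := mem_range.mp hi; omega)
      rw [this]

lemma G_zero (hp : 0 < p) (s o : ℕ) (a : ℝ) : G p γ β B s o a (fun _ => 0) = (B:ℝ)^s * |a| ^ p := by
  induction s generalizing o with
  | zero => unfold G; simp
  | succ s ih =>
    unfold G
    simp only [ih]
    have : T B (s+1) o (fun _ => 0) = 0 := by unfold T; simp
    rw [this, abs_zero, Real.zero_rpow hp.ne']
    simp [pow_succ]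
    ring

/-- lower bound of the block functional -/
lemma I1 (hp : 1 ≤ p) (hγ : 0 ≤ γ) (hB : 0 < B) (hβ : β = (B:ℝ) ^ (1-p)) (s o : ℕ) (a : ℝ)
    (b : ℕ → ℝ) :
    β^s * (|(B:ℝ)^s * a + T B s o b| ^ p + γ * s * |T B s o b| ^ p) ≤ G p γ β B s o a b := by
  have hB' : (0:ℝ) < B := by exact_mod_cast hB
  have hβ0 : 0 < β := by rw [hβ]; positivity
  induction s generalizing o with
  | zero => unfold G T; simp
  | succ s ih =>
    unfold G
    have jen : ∀ x : ℕ → ℝ, β^(s+1) * |∑ k ∈ range B, x k| ^ p ≤ β^s * ∑ k ∈ range B, |x k| ^ p := by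
      intro x
      have h := abs_sum_rpow_le hp (range B) x
      rw [card_range] at h
      have e : β * (B:ℝ) ^ (p-1) = 1 := by
        rw [hβ, ← Real.rpow_add hB']; simp
      calc β^(s+1) * |∑ k ∈ range B, x k| ^ p
          ≤ β^(s+1) * ((B:ℝ) ^ (p-1) * ∑ i ∈ range B, |x i| ^ p) := by gcongr
        _ = (β * (B:ℝ) ^ (p-1)) * (β^s * ∑ i ∈ range B, |x i| ^ p) := by ring
        _ = _ := by rw [e, one_mul]
    have h1 := jen (fun k => (B:ℝ)^s * a + T B s (o + k*B^s) b)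
    have h2 := jen (fun k => T B s (o + k*B^s) b)
    rw [← T_succ] at h2
    have h3 : ∑ k ∈ range B, ((B:ℝ)^s * a + T B s (o + k*B^s) b) = (B:ℝ)^(s+1) * a + T B (s+1) o b := by
      rw [sum_add_distrib, ← T_succ]
      simp [pow_succ]
      ring
    rw [h3] at h1
    have h4 : ∑ k ∈ range B, β^s * (|(B:ℝ)^s * a + T B s (o + k*B^s) b| ^ p +
        γ * s * |T B s (o + k*B^s) b| ^ p) ≤ ∑ k ∈ range B, G p γ β B s (o + k*B^s) a b :=
      sum_le_sum fun k _ => ih _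
    have h5 : ∑ k ∈ range B, β^s * (|(B:ℝ)^s * a + T B s (o + k*B^s) b| ^ p +
        γ * s * |T B s (o + k*B^s) b| ^ p) = β^s * ∑ k ∈ range B, |(B:ℝ)^s * a + T B s (o + k*B^s) b| ^ p
        + γ * s * (β^s * ∑ k ∈ range B, |T B s (o + k*B^s) b| ^ p) := by
      simp only [mul_add, sum_add_distrib, mul_sum]
      congr 1
      apply sum_congr rfl
      intro k _
      ring
    rw [h5] at h4
    have h6 : γ * s * (β^(s+1) * |T B (s+1) o b| ^ p) ≤
        γ * s * (β^s * ∑ k ∈ range B, |T B s (o + k*B^s) b| ^ p) :=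
      mul_le_mul_of_nonneg_left h2 (by positivity)
    push_cast
    nlinarith

lemma beta_pow (hB : 0 < B) (hβ : β = (B:ℝ) ^ (1-p)) (s : ℕ) :
    β^s * ((B:ℝ)^s) ^ (p-1) = 1 := by
  have hB' : (0:ℝ) < B := by exact_mod_cast hB
  rw [hβ, ← Real.rpow_natCast ((B:ℝ) ^ (1-p)), ← Real.rpow_natCast (B:ℝ), ← Real.rpow_mul hB'.le,
    ← Real.rpow_mul hB'.le, ← Real.rpow_add hB']
  have : (1-p) * (s:ℝ) + (s:ℝ) * (p-1) = 0 := by ring
  rw [this, Real.rpow_zero]

lemma large (hp : 1 ≤ p) {η C : ℝ} (hη : 0 < η)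
    (hC : ∀ x y : ℝ, |x + y| ^ p ≤ (1+η) * |x| ^ p + C * |y| ^ p)
    (hγ : 0 ≤ γ) (hB : 0 < B) (hβ : β = (B:ℝ) ^ (1-p)) {t0 : ℕ} (ht : C ≤ γ * t0) {s : ℕ}
    (hs : t0 ≤ s) (o : ℕ) (a : ℝ) (b : ℕ → ℝ) :
    (B:ℝ)^s * |a| ^ p ≤ (1+η) * G p γ β B s o a b := by
  have hB' : (0:ℝ) < B := by exact_mod_cast hB
  have hβ0 : 0 < β := by rw [hβ]; positivity
  have h1 := I1 hp hγ hB hβ s o a b
  have h2 := hC ((B:ℝ)^s * a + T B s o b) (-T B s o b)
  rw [add_neg_cancel_right, abs_neg] at h2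
  have hBs : (0:ℝ) < (B:ℝ)^s := by positivity
  have h3 : β^s * |(B:ℝ)^s * a| ^ p = (B:ℝ)^s * |a| ^ p := by
    rw [abs_mul, abs_of_pos hBs, Real.mul_rpow hBs.le (abs_nonneg _)]
    have e := beta_pow (p := p) (β := β) hB hβ s
    have e2 : ((B:ℝ)^s) ^ p = ((B:ℝ)^s) ^ (p-1) * (B:ℝ)^s := by
      rw [← Real.rpow_add_one hBs.ne']; congr 1; ring
    rw [e2]
    calc β^s * (((B:ℝ)^s) ^ (p-1) * (B:ℝ)^s * |a| ^ p)
        = (β^s * ((B:ℝ)^s) ^ (p-1)) * ((B:ℝ)^s * |a| ^ p) := by ring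
      _ = _ := by rw [e, one_mul]
  have h4 : C * |T B s o b| ^ p ≤ (1+η) * (γ * s * |T B s o b| ^ p) := by
    have hts : (t0:ℝ) ≤ s := by exact_mod_cast hs
    have h5 : C ≤ γ * s := ht.trans (mul_le_mul_of_nonneg_left hts hγ)
    have h6 : 0 ≤ |T B s o b| ^ p := by positivity
    have h7 : C * |T B s o b| ^ p ≤ γ * s * |T B s o b| ^ p := mul_le_mul_of_nonneg_right h5 h6
    have h8 : 0 ≤ γ * s * |T B s o b| ^ p := by positivity
    nlinarith
  calc (B:ℝ)^s * |a| ^ p = β^s * |(B:ℝ)^s * a| ^ p := h3.symm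
    _ ≤ β^s * ((1+η) * |(B:ℝ)^s * a + T B s o b| ^ p + C * |T B s o b| ^ p) := by gcongr
    _ ≤ β^s * ((1+η) * (|(B:ℝ)^s * a + T B s o b| ^ p + γ * s * |T B s o b| ^ p)) := by
        gcongr
        linarith
    _ = (1+η) * (β^s * (|(B:ℝ)^s * a + T B s o b| ^ p + γ * s * |T B s o b| ^ p)) := by ring
    _ ≤ _ := by gcongr

lemma T_rpow_le (hp : 1 ≤ p) (s o : ℕ) (b : ℕ → ℝ) :
    |T B s o b| ^ p ≤ ((B:ℝ)^s) ^ (p-1) * W p B s o b := by
  have h := abs_sum_rpow_le hp (range (B^s)) (fun i => b (o+i))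
  rw [card_range] at h
  push_cast at h
  exact h

lemma triv1 {m s o : ℕ} (h : o + B^s ≤ m) (a : ℝ) (b : ℕ → ℝ) :
    G p γ β B s o a (tr m b) = G p γ β B s o a b := by
  apply G_congr
  intro i _ hi
  unfold tr
  rw [if_pos (by omega)]

lemma triv2 (hp : 0 < p) {m s o : ℕ} (h : m ≤ o) (a : ℝ) (b : ℕ → ℝ) :
    G p γ β B s o a (tr m b) = (B:ℝ)^s * |a| ^ p := by
  rw [← G_zero (p := p) (γ := γ) (β := β) hp s o a]
  apply G_congr
  intro i hi _
  unfold tr
  rw [if_neg (by omega)]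

lemma J (hp : 1 ≤ p) {η C : ℝ} (hη : 0 < η)
    (hC : ∀ x y : ℝ, |x + y| ^ p ≤ (1+η) * |x| ^ p + C * |y| ^ p)
    (hγ : 0 ≤ γ) (hB : 0 < B) (hβ : β = (B:ℝ) ^ (1-p)) {t0 : ℕ} (ht : C ≤ γ * t0) (m : ℕ)
    (a : ℝ) (b : ℕ → ℝ) (s o : ℕ) :
    G p γ β B s o a (tr m b) ≤ (1+η) * G p γ β B s o a b + (B:ℝ)^(min s t0) * |a| ^ p +
      γ * (2 ^ (p-1) * (1 + s * β)) * W p B s o (tr m b) := by
  have hB' : (0:ℝ) < B := by exact_mod_cast hB
  have hB1 : (1:ℝ) ≤ B := by exact_mod_cast hB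
  have hβ0 : 0 < β := by rw [hβ]; positivity
  have hp0 : 0 < p := by linarith
  have h2p : (0:ℝ) < 2 ^ (p-1) := by positivity
  induction s generalizing o with
  | zero =>
    have hW := W_nonneg p B 0 o (tr m b)
    have hG := G_nonneg (p := p) (B := B) hγ hβ0.le 0 o a b
    have h0 : 0 ≤ γ * (2 ^ (p-1) * (1 + (0:ℕ) * β)) * W p B 0 o (tr m b) := by positivity
    have ha : 0 ≤ |a| ^ p := by positivity
    by_cases hm : o < m
    · rw [triv1 (by simpa using hm)]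
      have : 0 ≤ (B:ℝ)^(min 0 t0) * |a| ^ p := by positivity
      nlinarith
    · rw [triv2 hp0 (by omega)]
      simp only [Nat.zero_min, pow_zero, one_mul]
      nlinarith
  | succ s ih =>
    have hW := W_nonneg p B (s+1) o (tr m b)
    have hG := G_nonneg (p := p) (B := B) hγ hβ0.le (s+1) o a b
    have hL : 0 ≤ γ * (2 ^ (p-1) * (1 + ((s+1:ℕ):ℝ) * β)) * W p B (s+1) o (tr m b) := by positivity
    have ha : 0 ≤ |a| ^ p := by positivity
    by_cases hm1 : o + B^(s+1) ≤ m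
    · rw [triv1 hm1]
      have : 0 ≤ (B:ℝ)^(min (s+1) t0) * |a| ^ p := by positivity
      nlinarith
    by_cases hm2 : m ≤ o
    · rw [triv2 hp0 hm2]
      by_cases hst : t0 ≤ s+1
      · have h1 := large hp hη hC hγ hB hβ ht hst o a b
        have : 0 ≤ (B:ℝ)^(min (s+1) t0) * |a| ^ p := by positivity
        linarith
      · rw [min_eq_left (by omega)]
        nlinarith
    push Not at hm1 hm2
    -- main case
    obtain ⟨k0, hk0⟩ : ∃ k0, k0 = (m - o) / B^s := ⟨_, rfl⟩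
    have hBs : 0 < B^s := by positivity
    have hk0B : k0 < B := by
      rw [hk0, Nat.div_lt_iff_lt_mul hBs]
      rw [pow_succ'] at hm1
      omega
    have hk0a : k0 * B^s ≤ m - o := by rw [hk0]; exact Nat.div_mul_le_self _ _
    have hk0b : m - o < k0 * B^s + B^s := by
      have := Nat.lt_div_mul_add (a := m - o) hBs
      rw [hk0]
      exact this
    clear hk0
    obtain ⟨r, hr⟩ : ∃ r, B = k0 + 1 + r := ⟨B - (k0+1), by omega⟩
    have split : ∀ F : ℕ → ℝ, ∑ k ∈ range B, F k = ∑ k ∈ range k0, F k + F k0 +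
        ∑ j ∈ range r, F (k0 + 1 + j) := by
      intro F
      have : range B = range (k0+1+r) := by rw [← hr]
      rw [this, Finset.sum_range_add, Finset.sum_range_succ]
    have zer : ∀ k, k0 + 1 ≤ k → m ≤ o + k * B^s := by
      intro k hk
      have : (k0+1) * B^s ≤ k * B^s := Nat.mul_le_mul_right _ hk
      rw [add_mul, one_mul] at this
      omega
    have ful : ∀ k, k < k0 → o + k * B^s + B^s ≤ m := by
      intro k hk
      have : (k+1) * B^s ≤ k0 * B^s := Nat.mul_le_mul_right _ hk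
      rw [add_mul, one_mul] at this
      omega
    -- G sum
    have g1 : ∑ k ∈ range k0, G p γ β B s (o + k*B^s) a (tr m b) =
        ∑ k ∈ range k0, G p γ β B s (o + k*B^s) a b := by
      apply sum_congr rfl
      intro k hk
      exact triv1 (ful k (mem_range.mp hk)) a b
    have g1n : 0 ≤ ∑ k ∈ range k0, G p γ β B s (o + k*B^s) a b :=
      sum_nonneg fun k _ => G_nonneg hγ hβ0.le _ _ _ _
    have g3 : ∑ j ∈ range r, G p γ β B s (o + (k0+1+j)*B^s) a (tr m b) + (B:ℝ)^(min s t0) * |a| ^ p ≤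
        (1+η) * ∑ j ∈ range r, G p γ β B s (o + (k0+1+j)*B^s) a b
          + (B:ℝ)^(min (s+1) t0) * |a| ^ p := by
      have e : ∀ j ∈ range r, G p γ β B s (o + (k0+1+j)*B^s) a (tr m b) = (B:ℝ)^s * |a| ^ p := by
        intro j _
        exact triv2 hp0 (zer _ (by omega)) a b
      rw [sum_congr rfl e]
      by_cases hst : t0 ≤ s
      · rw [min_eq_right hst, min_eq_right (by omega : t0 ≤ s+1), mul_sum]
        have : ∑ j ∈ range r, (B:ℝ)^s * |a| ^ p ≤
            ∑ j ∈ range r, (1+η) * G p γ β B s (o + (k0+1+j)*B^s) a b :=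
          sum_le_sum fun j _ => large hp hη hC hγ hB hβ ht hst _ a b
        linarith
      · rw [min_eq_left (by omega), min_eq_left (by omega)]
        have hn : 0 ≤ ∑ j ∈ range r, G p γ β B s (o + (k0+1+j)*B^s) a b :=
          sum_nonneg fun k _ => G_nonneg hγ hβ0.le _ _ _ _
        have hr' : (r:ℝ) + 1 ≤ B := by
          have : r + 1 ≤ B := by omega
          exact_mod_cast this
        rw [sum_const, card_range, nsmul_eq_mul]
        have h5 : ((r:ℝ) + 1) * ((B:ℝ)^s * |a| ^ p) ≤ B * ((B:ℝ)^s * |a| ^ p) :=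
          mul_le_mul_of_nonneg_right hr' (by positivity)
        have h6 : (B:ℝ)^(s+1) * |a| ^ p = B * ((B:ℝ)^s * |a| ^ p) := by ring
        nlinarith
    -- W sum
    have w3 : ∀ j ∈ range r, W p B s (o + (k0+1+j)*B^s) (tr m b) = 0 := by
      intro j _
      unfold W
      apply sum_eq_zero
      intro i _
      have := zer (k0+1+j) (by omega)
      unfold tr
      rw [if_neg (by omega), abs_zero, Real.zero_rpow hp0.ne']
    have t3 : ∀ j ∈ range r, T B s (o + (k0+1+j)*B^s) (tr m b) = 0 := by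
      intro j _
      unfold T
      apply sum_eq_zero
      intro i _
      have := zer (k0+1+j) (by omega)
      unfold tr
      rw [if_neg (by omega)]
    set X := W p B s (o + k0*B^s) (tr m b) with hX
    set Y := ∑ k ∈ range k0, W p B s (o + k*B^s) (tr m b) with hY
    have hX0 : 0 ≤ X := W_nonneg _ _ _ _ _
    have hY0 : 0 ≤ Y := sum_nonneg fun k _ => W_nonneg _ _ _ _ _
    have hWs : W p B (s+1) o (tr m b) = Y + X := by
      rw [W_succ, split, sum_congr rfl w3]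
      simp only [sum_const_zero, add_zero]
      rw [hX, hY]
    -- T sum
    have hTs : T B (s+1) o (tr m b) = ∑ k ∈ range k0, T B s (o + k*B^s) (tr m b)
        + T B s (o + k0*B^s) (tr m b) := by
      rw [T_succ, split, sum_congr rfl t3]
      simp
    have hT1 : β^(s+1) * |T B s (o + k0*B^s) (tr m b)| ^ p ≤ β * X := by
      have h := T_rpow_le (B := B) hp s (o + k0*B^s) (tr m b)
      calc β^(s+1) * |T B s (o + k0*B^s) (tr m b)| ^ p
          ≤ β^(s+1) * (((B:ℝ)^s) ^ (p-1) * W p B s (o + k0*B^s) (tr m b)) := by gcongr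
        _ = β * (β^s * ((B:ℝ)^s) ^ (p-1)) * X := by rw [hX]; ring
        _ = β * X := by rw [beta_pow hB hβ s, mul_one]
    have hT2 : β^(s+1) * |∑ k ∈ range k0, T B s (o + k*B^s) (tr m b)| ^ p ≤ Y := by
      -- sum over k0 blocks, i.e. over at most B^(s+1) indices
      have h1 : |∑ k ∈ range k0, T B s (o + k*B^s) (tr m b)| ^ p ≤
          (k0:ℝ) ^ (p-1) * ∑ k ∈ range k0, |T B s (o + k*B^s) (tr m b)| ^ p := by
        have h := abs_sum_rpow_le hp (range k0) (fun k => T B s (o + k*B^s) (tr m b))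
        rwa [card_range] at h
      have h2 : ∑ k ∈ range k0, |T B s (o + k*B^s) (tr m b)| ^ p ≤ ((B:ℝ)^s) ^ (p-1) * Y := by
        rw [hY, mul_sum]
        exact sum_le_sum fun k _ => T_rpow_le hp _ _ _
      have h3 : (k0:ℝ) ^ (p-1) ≤ (B:ℝ) ^ (p-1) := by
        apply Real.rpow_le_rpow (by positivity) _ (by linarith)
        exact_mod_cast hk0B.le
      have h4 : β * (B:ℝ) ^ (p-1) = 1 := by
        have := beta_pow (p := p) (β := β) hB hβ 1
        simpa using this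
      calc β^(s+1) * |∑ k ∈ range k0, T B s (o + k*B^s) (tr m b)| ^ p
          ≤ β^(s+1) * ((B:ℝ) ^ (p-1) * (((B:ℝ)^s) ^ (p-1) * Y)) := by
            apply mul_le_mul_of_nonneg_left _ (by positivity)
            refine h1.trans ?_
            apply mul_le_mul h3 h2 _ (by positivity)
            exact sum_nonneg fun k _ => by positivity
        _ = (β * (B:ℝ) ^ (p-1)) * (β^s * ((B:ℝ)^s) ^ (p-1)) * Y := by ring
        _ = Y := by rw [h4, beta_pow hB hβ s]; ring
    have hT : γ * β^(s+1) * |T B (s+1) o (tr m b)| ^ p ≤ γ * (2 ^ (p-1) * (Y + β * X)) := by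
      rw [mul_assoc]
      apply mul_le_mul_of_nonneg_left _ hγ
      rw [hTs]
      calc _ ≤ β^(s+1) * (2 ^ (p-1) * (|∑ k ∈ range k0, T B s (o + k*B^s) (tr m b)| ^ p +
            |T B s (o + k0*B^s) (tr m b)| ^ p)) := by
            apply mul_le_mul_of_nonneg_left (add_rpow_le_two hp _ _) (by positivity)
        _ = 2 ^ (p-1) * (β^(s+1) * |∑ k ∈ range k0, T B s (o + k*B^s) (tr m b)| ^ p +
            β^(s+1) * |T B s (o + k0*B^s) (tr m b)| ^ p) := by ring
        _ ≤ _ := by gcongr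
    have ih0 := ih (o + k0*B^s)
    rw [← hX] at ih0
    have hGs : G p γ β B (s+1) o a (tr m b) = (∑ k ∈ range k0, G p γ β B s (o + k*B^s) a b
        + G p γ β B s (o + k0*B^s) a (tr m b)
        + ∑ j ∈ range r, G p γ β B s (o + (k0+1+j)*B^s) a (tr m b))
        + γ * β^(s+1) * |T B (s+1) o (tr m b)| ^ p := by
      conv_lhs => unfold G
      rw [split, g1]
    have hGs2 : G p γ β B (s+1) o a b = (∑ k ∈ range k0, G p γ β B s (o + k*B^s) a b
        + G p γ β B s (o + k0*B^s) a b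
        + ∑ j ∈ range r, G p γ β B s (o + (k0+1+j)*B^s) a b)
        + γ * β^(s+1) * |T B (s+1) o b| ^ p := by
      conv_lhs => unfold G
      rw [split]
    have hTn : 0 ≤ γ * β^(s+1) * |T B (s+1) o b| ^ p := by positivity
    rw [hGs, hGs2, hWs]
    clear_value X Y
    have hfin : γ * (2 ^ (p-1) * (1 + s * β)) * X + γ * (2 ^ (p-1) * (Y + β * X)) ≤
        γ * (2 ^ (p-1) * (1 + ((s+1:ℕ):ℝ) * β)) * (Y + X) := by
      push_cast
      have h7 : 0 ≤ γ * 2 ^ (p-1) * ((s:ℝ) + 1) * β * Y := by positivity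
      have h8 : γ * (2 ^ (p-1) * (1 + ((s:ℝ)+1) * β)) * (Y + X) - (γ * (2 ^ (p-1) * (1 + s * β)) * X
        + γ * (2 ^ (p-1) * (Y + β * X))) = γ * 2 ^ (p-1) * ((s:ℝ) + 1) * β * Y := by ring
      linarith
    have g1' : ∑ k ∈ range k0, G p γ β B s (o + k*B^s) a b ≤
        (1+η) * ∑ k ∈ range k0, G p γ β B s (o + k*B^s) a b := by nlinarith
    have hTn' : 0 ≤ (1+η) * (γ * β^(s+1) * |T B (s+1) o b| ^ p) := by positivity
    generalize ∑ k ∈ range k0, G p γ β B s (o + k*B^s) a b = x1 at *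
    generalize G p γ β B s (o + k0*B^s) a b = x2 at *
    generalize ∑ j ∈ range r, G p γ β B s (o + (k0+1+j)*B^s) a b = x3 at *
    generalize ∑ j ∈ range r, G p γ β B s (o + (k0+1+j)*B^s) a (tr m b) = x4 at *
    generalize G p γ β B s (o + k0*B^s) a (tr m b) = x5 at *
    generalize γ * β^(s+1) * |T B (s+1) o b| ^ p = x6 at *
    generalize γ * β^(s+1) * |T B (s+1) o (tr m b)| ^ p = x7 at *
    generalize (B:ℝ)^(min s t0) * |a| ^ p = x8 at *
    generalize (B:ℝ)^(min (s+1) t0) * |a| ^ p = x9 at *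
    generalize γ * (2 ^ (p-1) * (1 + ((s+1:ℕ):ℝ) * β)) * (Y + X) = x10 at *
    generalize γ * (2 ^ (p-1) * (1 + s * β)) * X = x11 at *
    generalize γ * (2 ^ (p-1) * (Y + β * X)) = x12 at *
    have e1 : (1+η) * (x1+x2+x3+x6) = (1+η)*x1 + (1+η)*x2+(1+η)*x3+(1+η)*x6 := by ring
    rw [e1]
    linarith

end
end Pool.Agent.Q82.NB
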