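import Pool.Agent.Q82.NB1
set_option autoImplicit false
noncomputable section
namespace Pool.Agent.Q82.NB
open Finset

lemma alt_sum (n : ℕ) (h : Even n) : ∑ i ∈ range n, (-1:ℝ)^i = 0 := by
  obtain ⟨m, hm⟩ := h
  subst hm
  induction m with
  | zero => simp
  | succ m ih =>
    rw [show m + 1 + (m+1) = (m+m)+1+1 by ring, sum_range_succ, sum_range_succ, ih]
    rw [pow_succ]
    ring

/-- the recursive functional as a finite sum of p-th powers of linear forms -/
lemma rep {p γ β : ℝ} {B : ℕ} (hp : 0 < p) (hγ : 0 ≤ γ) (hβ : 0 ≤ β) (hB : Even B) (hB0 : 0 < B)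
    (s : ℕ) :
    ∃ (ι : Type) (_ : Fintype ι) (w : ι → ℕ → ℝ), (∀ k i, 0 ≤ w k i) ∧
      (∀ k, ∑ i ∈ range (B^s), w k i * (-1)^i = 0) ∧
      ∀ o a b, G p γ β B s o a b = ∑ i ∈ range (B^s), |a + b (o+i)| ^ p +
        ∑ k, |∑ i ∈ range (B^s), w k i * b (o+i)| ^ p := by
  induction s with
  | zero =>
    refine ⟨Empty, inferInstance, fun k _ => k.elim, fun k => k.elim, fun k => k.elim, ?_⟩
    intro o a b
    simp [G]
  | succ s ih =>
    obtain ⟨ι, hι, w, hw0, hws, hwG⟩ := ih
    have hBs : 0 < B^s := by positivity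
    refine ⟨Option (Fin B × ι), inferInstance, fun k i => match k with
      | none => (γ*β^(s+1)) ^ (1/p)
      | some (q, k) => if i / B^s = (q:ℕ) then w k (i % B^s) else 0, ?_, ?_, ?_⟩
    · rintro (_ | ⟨q, k⟩) i
      · simp only
        positivity
      · simp only
        split_ifs
        · exact hw0 _ _
        · exact le_rfl
    · rintro (_ | ⟨q, k⟩)
      · simp only
        rw [← mul_sum, alt_sum _ (by rw [pow_succ]; exact hB.mul_left _), mul_zero]
      · simp only
        rw [pow_succ', sum_range_mul']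
        rw [sum_eq_single (q:ℕ)]
        · have : ∀ i ∈ range (B^s), (if ((q:ℕ) * B^s + i) / B^s = (q:ℕ) then
              w k (((q:ℕ) * B^s + i) % B^s) else 0) * (-1)^((q:ℕ) * B^s + i) =
              (-1)^((q:ℕ) * B^s) * (w k i * (-1)^i) := by
            intro i hi
            rw [mem_range] at hi
            rw [if_pos (by rw [mul_comm, Nat.mul_add_div hBs, Nat.div_eq_of_lt hi, add_zero]),
              mul_comm (q:ℕ) (B^s), Nat.mul_add_mod, Nat.mod_eq_of_lt hi, pow_add]
            ring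
          rw [sum_congr rfl this, ← mul_sum, hws, mul_zero]
        · intro q' _ hq'
          apply sum_eq_zero
          intro i hi
          rw [mem_range] at hi
          rw [if_neg, zero_mul]
          rw [mul_comm, Nat.mul_add_div hBs, Nat.div_eq_of_lt hi, add_zero]
          exact hq'
        · intro h
          exact absurd (mem_range.mpr q.2) h
    · intro o a b
      have e1 : ∑ i ∈ range (B^(s+1)), |a + b (o+i)| ^ p =
          ∑ q ∈ range B, ∑ i ∈ range (B^s), |a + b (o + q*B^s+i)| ^ p := by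
        rw [pow_succ', sum_range_mul' (fun i => |a + b (o+i)| ^ p)]
        apply sum_congr rfl; intro q _
        apply sum_congr rfl; intro i _
        rw [add_assoc]
      have e2 : |∑ i ∈ range (B^(s+1)), (γ*β^(s+1)) ^ (1/p) * b (o+i)| ^ p =
          γ*β^(s+1)*|T B (s+1) o b| ^ p := by
        rw [← mul_sum]
        change |(γ*β^(s+1)) ^ (1/p) * T B (s+1) o b| ^ p = _
        have h0 : 0 ≤ γ*β^(s+1) := by positivity
        rw [abs_mul, abs_of_nonneg (by positivity), Real.mul_rpow (by positivity) (abs_nonneg _),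
          ← Real.rpow_mul h0, one_div, inv_mul_cancel₀ hp.ne', Real.rpow_one]
      have e3 : ∀ (q : Fin B) (k : ι), ∑ i ∈ range (B^(s+1)),
          (if i / B^s = (q:ℕ) then w k (i % B^s) else 0) * b (o+i) =
          ∑ i ∈ range (B^s), w k i * b (o + q*B^s+i) := by
        intro q k
        rw [pow_succ', sum_range_mul']
        rw [sum_eq_single (q:ℕ)]
        · apply sum_congr rfl
          intro i hi
          rw [mem_range] at hi
          rw [if_pos (by rw [mul_comm, Nat.mul_add_div hBs, Nat.div_eq_of_lt hi, add_zero]),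
              mul_comm (q:ℕ) (B^s), Nat.mul_add_mod, Nat.mod_eq_of_lt hi, ← add_assoc]
        · intro q' _ hq'
          apply sum_eq_zero
          intro i hi
          rw [mem_range] at hi
          rw [if_neg, zero_mul]
          rw [mul_comm, Nat.mul_add_div hBs, Nat.div_eq_of_lt hi, add_zero]
          exact hq'
        · intro h
          exact absurd (mem_range.mpr q.2) h
      rw [e1, Fintype.sum_option, e2, Fintype.sum_prod_type]
      simp only [e3]
      conv_lhs => unfold G
      simp only [hwG]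
      rw [sum_add_distrib, Finset.sum_range (fun q => ∑ k, |∑ i ∈ range (B^s), w k i * b (o + q*B^s+i)| ^ p)]
      ring

/-- The block functional. -/
def Gf (p : ℝ) (M K : ℕ) (w : ℕ → ℕ → ℝ) (a : ℝ) (b : ℕ → ℝ) : ℝ :=
  ∑ i ∈ range M, |a + b i| ^ p + ∑ k ∈ range K, |∑ i ∈ range M, w k i * b i| ^ p

structure Good (p η : ℝ) (M K : ℕ) (w : ℕ → ℕ → ℝ) : Prop where
  pos : 0 < M
  even : Even M
  nonneg : ∀ k i, 0 ≤ w k i
  alt : ∀ k < K, ∑ i ∈ range M, w k i * (-1)^i = 0
  trunc : ∀ a b m, Gf p M K w a (tr m b) ≤ (1+η) * Gf p M K w a b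

lemma good_of_type {p η : ℝ} {M : ℕ} (hM : 0 < M) (hMe : Even M) {ι : Type} [Fintype ι]
    (w : ι → ℕ → ℝ) (h0 : ∀ k i, 0 ≤ w k i) (hs : ∀ k, ∑ i ∈ range M, w k i * (-1)^i = 0)
    (ht : ∀ (a : ℝ) (b : ℕ → ℝ) (m : ℕ),
      ∑ i ∈ range M, |a + tr m b i| ^ p + ∑ k, |∑ i ∈ range M, w k i * tr m b i| ^ p ≤
        (1+η) * (∑ i ∈ range M, |a + b i| ^ p + ∑ k, |∑ i ∈ range M, w k i * b i| ^ p)) :
    ∃ K w', Good p η M K w' := by
  classical
  let e := Fintype.equivFin ι
  refine ⟨Fintype.card ι, fun k i => if h : k < Fintype.card ι then w (e.symm ⟨k, h⟩) i else 0,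
    hM, hMe, ?_, ?_, ?_⟩
  · intro k i
    split_ifs
    · exact h0 _ _
    · exact le_rfl
  · intro k hk
    simp only [dif_pos hk]
    exact hs _
  · intro a b m
    have key : ∀ b : ℕ → ℝ, Gf p M (Fintype.card ι)
        (fun k i => if h : k < Fintype.card ι then w (e.symm ⟨k, h⟩) i else 0) a b =
        ∑ i ∈ range M, |a + b i| ^ p + ∑ k, |∑ i ∈ range M, w k i * b i| ^ p := by
      intro b
      unfold Gf
      congr 1
      rw [Finset.sum_range, ← Equiv.sum_comp e.symm]
      apply sum_congr rfl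
      intro k _
      simp
    rw [key, key]
    exact ht a b m

lemma good_p_gt {p : ℝ} (hp : 1 < p) {η : ℝ} (hη : 0 < η) (hη1 : η ≤ 1) :
    ∃ M K w, Good p (4*η) M K w := by
  obtain ⟨C, hC0, hC⟩ := exists_eps_const hp.le hη
  -- γ
  obtain ⟨γ, hγ0, hγ⟩ : ∃ γ : ℝ, 0 < γ ∧ γ * (2^p * (2^(p-1) * (2+η))) ≤ η := by
    refine ⟨η / (2^p * (2^(p-1) * (2+η))), by positivity, ?_⟩
    rw [div_mul_cancel₀ _ (by positivity)]
  obtain ⟨t0, ht0⟩ : ∃ t0 : ℕ, C ≤ γ * t0 := by
    obtain ⟨t, ht⟩ := exists_nat_ge (C/γ)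
    refine ⟨t, ?_⟩
    rw [div_le_iff₀ hγ0] at ht
    linarith
  set S := t0 + 1 with hS
  -- B
  obtain ⟨B, hB0, hBe, hB1, hB2⟩ : ∃ B : ℕ, 0 < B ∧ Even B ∧ 1 ≤ η * B ∧ (S:ℝ) * (B:ℝ) ^ (1-p) ≤ 1 := by
    have h1 : Filter.Tendsto (fun x : ℝ => (S:ℝ) * x ^ (-(p-1))) Filter.atTop (nhds ((S:ℝ) * 0)) :=
      (tendsto_rpow_neg_atTop (by linarith)).const_mul _
    rw [mul_zero] at h1
    have h2 : ∀ᶠ x : ℝ in Filter.atTop, (S:ℝ) * x ^ (-(p-1)) < 1 :=
      h1.eventually (gt_mem_nhds one_pos)
    obtain ⟨X, hX⟩ := Filter.eventually_atTop.mp h2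
    obtain ⟨N, hN⟩ := exists_nat_ge (max X (1/η))
    refine ⟨2*(N+1), by omega, ⟨N+1, by ring⟩, ?_, ?_⟩
    · have : 1/η ≤ N := (le_max_right _ _).trans hN
      rw [div_le_iff₀ hη] at this
      push_cast
      nlinarith
    · have h3 := hX ((2*(N+1):ℕ):ℝ) (by
        have : X ≤ N := (le_max_left _ _).trans hN
        push_cast
        have : (0:ℝ) ≤ N := by positivity
        linarith)
      rw [neg_sub] at h3
      exact h3.le
  set β : ℝ := (B:ℝ) ^ (1-p) with hβ
  have hB' : (0:ℝ) < B := by exact_mod_cast hB0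
  have hβ0 : 0 < β := by rw [hβ]; positivity
  obtain ⟨ι, hι, w, hw0, hws, hwG⟩ := rep (p := p) (γ := γ) (β := β) (by linarith) hγ0.le hβ0.le hBe hB0 S
  have hM : 0 < B^S := by positivity
  have hMe : Even (B^S) := by rw [hS, pow_succ]; exact hBe.mul_left _
  have hG : ∀ (a : ℝ) (b : ℕ → ℝ) (m : ℕ), G p γ β B S 0 a (tr m b) ≤ (1 + 4*η) * G p γ β B S 0 a b := by
    intro a b m
    have h1 := J hp.le hη hC hγ0.le hB0 hβ ht0 m a b S 0
    have hGn := G_nonneg (p := p) (B := B) hγ0.le hβ0.le S 0 a b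
    have h2 := large hp.le hη hC hγ0.le hB0 hβ ht0 (by omega : t0 ≤ S) 0 a b
    rw [min_eq_right (by omega : t0 ≤ S)] at h1
    -- B^t0 |a|^p ≤ η (1+η) G
    have ha : 0 ≤ |a| ^ p := by positivity
    have h3 : (B:ℝ)^t0 * |a| ^ p ≤ η * ((1+η) * G p γ β B S 0 a b) := by
      have e : (B:ℝ)^S * |a| ^ p = B * ((B:ℝ)^t0 * |a| ^ p) := by rw [hS]; ring
      have h4 : 0 ≤ (B:ℝ)^t0 * |a| ^ p := by positivity
      calc (B:ℝ)^t0 * |a| ^ p ≤ (η * B) * ((B:ℝ)^t0 * |a| ^ p) := by nlinarith
        _ = η * ((B:ℝ)^S * |a| ^ p) := by rw [e]; ring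
        _ ≤ _ := by gcongr
    -- W bound
    have hWle : W p B S 0 (tr m b) ≤ W p B S 0 b := by
      unfold W
      apply sum_le_sum
      intro i _
      unfold tr
      split_ifs
      · exact le_rfl
      · rw [abs_zero, Real.zero_rpow (by linarith)]
        positivity
    have hW2 : W p B S 0 b ≤ 2^(p-1) * ((2+η) * G p γ β B S 0 a b) := by
      have h5 : W p B S 0 b ≤ ∑ i ∈ range (B^S), 2^(p-1) * (|a + b (0+i)| ^ p + |a| ^ p) := by
        unfold W
        apply sum_le_sum
        intro i _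
        have := add_rpow_le_two hp.le (a + b (0+i)) (-a)
        rw [abs_neg] at this
        rwa [show a + b (0+i) + -a = b (0+i) by ring] at this
      rw [← mul_sum, sum_add_distrib, sum_const, card_range, nsmul_eq_mul] at h5
      push_cast at h5
      have h6 : ∑ i ∈ range (B^S), |a + b (0+i)| ^ p ≤ G p γ β B S 0 a b := by
        rw [hwG]
        have : 0 ≤ ∑ k, |∑ i ∈ range (B^S), w k i * b (0+i)| ^ p :=
          sum_nonneg fun k _ => by positivity
        linarith
      refine h5.trans ?_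
      apply mul_le_mul_of_nonneg_left _ (by positivity)
      linarith
    have hL : 2^(p-1) * (1 + (S:ℝ) * β) ≤ 2^p := by
      have e : (2:ℝ)^p = 2^(p-1) * 2 := by
        rw [← Real.rpow_add_one (by norm_num)]; congr 1; ring
      rw [e]
      apply mul_le_mul_of_nonneg_left _ (by positivity)
      linarith
    have h7 : γ * (2^(p-1) * (1 + (S:ℝ) * β)) * W p B S 0 (tr m b) ≤ η * G p γ β B S 0 a b := by
      have hWn := W_nonneg p B S 0 (tr m b)
      calc γ * (2^(p-1) * (1 + (S:ℝ) * β)) * W p B S 0 (tr m b)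
          ≤ γ * 2^p * (2^(p-1) * ((2+η) * G p γ β B S 0 a b)) := by
            apply mul_le_mul _ (hWle.trans hW2) hWn (by positivity)
            exact mul_le_mul_of_nonneg_left hL hγ0.le
        _ = γ * (2^p * (2^(p-1) * (2+η))) * G p γ β B S 0 a b := by ring
        _ ≤ _ := by gcongr
    have h8 : η * ((1+η) * G p γ β B S 0 a b) ≤ 2 * η * G p γ β B S 0 a b := by
      have : 0 ≤ η * G p γ β B S 0 a b := by positivity
      nlinarith
    nlinarith
  obtain ⟨K, w', hK⟩ := good_of_type (η := 4*η) hM hMe w hw0 hws (p := p) (by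
    intro a b m
    have h := hG a b m
    rw [hwG, hwG] at h
    simpa using h)
  exact ⟨_, K, w', hK⟩

lemma good_p_one {η : ℝ} (hη : 0 < η) : ∃ M K w, Good 1 η M K w := by
  obtain ⟨J, hJ⟩ := exists_nat_gt (1/η)
  have hJ0 : 0 < J := by
    rcases Nat.eq_zero_or_pos J with h | h
    · rw [h] at hJ
      have : 0 < 1/η := by positivity
      simp at hJ
      linarith
    · exact h
  have hw : ∀ (b : ℕ → ℝ) (k : ℕ), k < J → ∑ i ∈ range (J*2), (if i / 2 = k then (1:ℝ) else 0) * b i =
      b (k*2) + b (k*2+1) := by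
    intro b k hk
    rw [sum_range_mul', sum_eq_single k]
    · rw [sum_range_succ, sum_range_one]
      rw [if_pos (by omega), if_pos (by omega)]
      simp
    · intro q _ hq
      rw [sum_range_succ, sum_range_one, if_neg (by omega), if_neg (by omega)]
      simp
    · intro h
      exact absurd (mem_range.mpr hk) h
  have hG : ∀ (a : ℝ) (b : ℕ → ℝ), Gf 1 (J*2) J (fun k i => if i / 2 = k then (1:ℝ) else 0) a b =
      ∑ k ∈ range J, (|a + b (k*2)| + |a + b (k*2+1)| + |b (k*2) + b (k*2+1)|) := by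
    intro a b
    unfold Gf
    simp only [Real.rpow_one]
    rw [sum_range_mul' (fun i => |a + b i|), ← sum_add_distrib]
    apply sum_congr rfl
    intro k hk
    rw [hw b k (mem_range.mp hk), sum_range_succ, sum_range_one, add_zero]
  have hlow : ∀ (a : ℝ) (b : ℕ → ℝ) (k : ℕ), 2 * |a| ≤ |a + b (k*2)| + |a + b (k*2+1)| + |b (k*2) + b (k*2+1)| := by
    intro a b k
    have h1 := abs_add_le (a + b (k*2)) (a + b (k*2+1))
    have h2 := abs_sub (a + b (k*2) + (a + b (k*2+1))) (b (k*2) + b (k*2+1))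
    have h3 : a + b (k*2) + (a + b (k*2+1)) - (b (k*2) + b (k*2+1)) = 2 * a := by ring
    rw [h3, abs_mul, abs_two] at h2
    linarith
  refine ⟨J*2, J, fun k i => if i / 2 = k then 1 else 0, by omega, ⟨J, by ring⟩, ?_, ?_, ?_⟩
  · intro k i
    split_ifs <;> norm_num
  · intro k hk
    rw [hw (fun i => (-1)^i) k hk, pow_succ]
    ring
  · intro a b m
    rw [hG, hG]
    have hsum : (2 * |a|) * J ≤ ∑ k ∈ range J, (|a + b (k*2)| + |a + b (k*2+1)| + |b (k*2) + b (k*2+1)|) := by
      have : ∑ k ∈ range J, 2 * |a| ≤ ∑ k ∈ range J, (|a + b (k*2)| + |a + b (k*2+1)| + |b (k*2) + b (k*2+1)|) :=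
        sum_le_sum fun k _ => hlow a b k
      rw [sum_const, card_range, nsmul_eq_mul] at this
      linarith
    have hstep : ∀ k, |a + tr m b (k*2)| + |a + tr m b (k*2+1)| + |tr m b (k*2) + tr m b (k*2+1)| ≤
        (|a + b (k*2)| + |a + b (k*2+1)| + |b (k*2) + b (k*2+1)|) + (if k = m / 2 then 2 * |a| else 0) := by
      intro k
      unfold tr
      by_cases h1 : k*2+1 < m
      · rw [if_pos h1, if_pos (by omega)]
        have : 0 ≤ (if k = m / 2 then 2 * |a| else 0) := by split_ifs <;> positivity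
        linarith
      · by_cases h2 : k*2 < m
        · rw [if_neg h1, if_pos h2, if_pos (by omega), add_zero, add_zero]
          have h3 := abs_sub (b (k*2) + b (k*2+1)) (a + b (k*2+1))
          have h4 : b (k*2) + b (k*2+1) - (a + b (k*2+1)) = b (k*2) - a := by ring
          rw [h4] at h3
          have h5 := abs_add_le (b (k*2) - a) a
          rw [sub_add_cancel] at h5
          linarith
        · rw [if_neg h1, if_neg h2, add_zero, add_zero, abs_zero]
          have := hlow a b k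
          have : 0 ≤ (if k = m / 2 then 2 * |a| else 0) := by split_ifs <;> positivity
          linarith
    clear hw hG hlow
    have h9 : ∑ k ∈ range J, (if k = m / 2 then 2 * |a| else 0) ≤ 2 * |a| := by
      rw [sum_ite_eq']
      split_ifs
      · exact le_rfl
      · positivity
    have h10 := (sum_le_sum (fun k (_ : k ∈ range J) => hstep k)).trans_eq sum_add_distrib
    have h11 : 2 * |a| ≤ η * ((2 * |a|) * J) := by
      have : 1 < η * J := by
        rw [div_lt_iff₀ hη] at hJ
        linarith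
      have h0 : 0 ≤ 2 * |a| := by positivity
      nlinarith
    nlinarith

theorem block {p : ℝ} (hp : 1 ≤ p) {η : ℝ} (hη : 0 < η) : ∃ M K w, Good p η M K w := by
  rcases hp.eq_or_lt with h | h
  · rw [← h]; exact good_p_one hη
  · obtain ⟨M, K, w, hg⟩ := good_p_gt h (η := min (η/4) 1) (by positivity) (min_le_right _ _)
    refine ⟨M, K, w, hg.pos, hg.even, hg.nonneg, hg.alt, ?_⟩
    intro a b m
    refine (hg.trunc a b m).trans ?_
    have h0 : 0 ≤ Gf p M K w a b := by
      unfold Gf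
      have h1 : 0 ≤ ∑ i ∈ range M, |a + b i| ^ p := sum_nonneg fun _ _ => by positivity
      have h2 : 0 ≤ ∑ k ∈ range K, |∑ i ∈ range M, w k i * b i| ^ p :=
        sum_nonneg fun _ _ => by positivity
      linarith
    have : min (η/4) 1 ≤ η/4 := min_le_left _ _
    apply mul_le_mul_of_nonneg_right _ h0
    linarith

end Pool.Agent.Q82.NB
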