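import Pool.Agent.Q82.NB2
set_option autoImplicit false
noncomputable section
namespace Pool.Agent.Q82.NB
open Finset MeasureTheory
open scoped ENNReal

section
variable (p : ℝ≥0∞) [Fact (1 ≤ p)]

/-- indicator function of a set as an element of `L_p(ℝ)` -/
def ind (A : Set ℝ) : Lp ℝ p (volume : Measure ℝ) := by
  classical
  exact if h : MeasurableSet A ∧ volume A ≠ ∞ then indicatorConstLp p h.1 h.2 (1:ℝ) else 0

lemma ind_eq {A : Set ℝ} (hA : MeasurableSet A) (hf : volume A ≠ ∞) :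
    ind p A = indicatorConstLp p hA hf (1:ℝ) := by
  unfold ind
  rw [dif_pos ⟨hA, hf⟩]

lemma ind_coeFn {A : Set ℝ} (hA : MeasurableSet A) (hf : volume A ≠ ∞) :
    (ind p A : ℝ → ℝ) =ᵐ[volume] A.indicator (fun _ => (1:ℝ)) := by
  rw [ind_eq p hA hf]
  exact indicatorConstLp_coeFn

variable {p}

lemma coe_sum_ind {ι : Type*} (s : Finset ι) (A : ι → Set ℝ) (hA : ∀ i ∈ s, MeasurableSet (A i))
    (hf : ∀ i ∈ s, volume (A i) ≠ ∞) (c : ι → ℝ) :
    ((∑ i ∈ s, c i • ind p (A i) : Lp ℝ p (volume : Measure ℝ)) : ℝ → ℝ) =ᵐ[volume]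
      fun x => ∑ i ∈ s, c i * (A i).indicator (fun _ => (1:ℝ)) x := by
  have h1 := Lp.coeFn_fun_finsetSum s (fun i => c i • ind p (A i))
  have h2 : ∀ i ∈ s, ∀ᵐ x ∂(volume : Measure ℝ), (c i • ind p (A i) : Lp ℝ p (volume : Measure ℝ)) x
      = c i * (A i).indicator (fun _ => (1:ℝ)) x := by
    intro i hi
    filter_upwards [Lp.coeFn_smul (c i) (ind p (A i)), ind_coeFn p (hA i hi) (hf i hi)] with x h3 h4
    rw [h3, Pi.smul_apply, h4, smul_eq_mul]
  have h3 := (Filter.eventually_all_finset s).mpr h2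
  filter_upwards [h1, h3] with x h4 h5
  rw [h4]
  exact sum_congr rfl h5

lemma norm_rpow_eq (hp : p ≠ ∞) (f : Lp ℝ p (volume : Measure ℝ)) {g : ℝ → ℝ}
    (hg : (f : ℝ → ℝ) =ᵐ[volume] g) :
    ‖f‖ ^ p.toReal = (∫⁻ x, ‖g x‖ₑ ^ p.toReal).toReal := by
  have hp1 : (1:ℝ≥0∞) ≤ p := Fact.out
  have hp0 : p ≠ 0 := (zero_lt_one.trans_le hp1).ne'
  have hq : 0 < p.toReal := ENNReal.toReal_pos hp0 hp
  rw [Lp.norm_def, eLpNorm_congr_ae hg, eLpNorm_eq_lintegral_rpow_enorm_toReal hp0 hp,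
    ENNReal.toReal_rpow, ← ENNReal.rpow_mul, one_div, inv_mul_cancel₀ hq.ne', ENNReal.rpow_one]

lemma norm_sum_ind (hp : p ≠ ∞) {ι : Type*} (s : Finset ι) (A : ι → Set ℝ)
    (hA : ∀ i ∈ s, MeasurableSet (A i)) (hf : ∀ i ∈ s, volume (A i) ≠ ∞)
    (hd : ∀ i ∈ s, ∀ j ∈ s, i ≠ j → Disjoint (A i) (A j)) (c : ι → ℝ) :
    ‖∑ i ∈ s, c i • ind p (A i)‖ ^ p.toReal = ∑ i ∈ s, |c i| ^ p.toReal * (volume (A i)).toReal := by
  classical
  have hp1 : (1:ℝ≥0∞) ≤ p := Fact.out
  have hp0 : p ≠ 0 := (zero_lt_one.trans_le hp1).ne'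
  have hq : 0 < p.toReal := ENNReal.toReal_pos hp0 hp
  rw [norm_rpow_eq hp _ (coe_sum_ind s A hA hf c)]
  have key : ∀ x : ℝ, ‖∑ i ∈ s, c i * (A i).indicator (fun _ => (1:ℝ)) x‖ₑ ^ p.toReal =
      ∑ i ∈ s, (A i).indicator (fun _ => ‖c i‖ₑ ^ p.toReal) x := by
    intro x
    by_cases hx : ∃ j ∈ s, x ∈ A j
    · obtain ⟨j, hj, hxj⟩ := hx
      have hne : ∀ i ∈ s, i ≠ j → x ∉ A i := by
        intro i hi hij hxi
        exact Set.disjoint_left.mp (hd i hi j hj hij) hxi hxj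
      rw [sum_eq_single j, sum_eq_single j]
      · rw [Set.indicator_of_mem hxj, Set.indicator_of_mem hxj, mul_one]
      · intro i hi hij
        rw [Set.indicator_of_notMem (hne i hi hij)]
      · intro h; exact absurd hj h
      · intro i hi hij
        rw [Set.indicator_of_notMem (hne i hi hij), mul_zero]
      · intro h; exact absurd hj h
    · push Not at hx
      rw [sum_eq_zero, sum_eq_zero]
      · rw [enorm_zero, ENNReal.zero_rpow_of_pos hq]
      · intro i hi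
        rw [Set.indicator_of_notMem (hx i hi)]
      · intro i hi
        rw [Set.indicator_of_notMem (hx i hi), mul_zero]
  simp only [key]
  rw [lintegral_finsetSum']
  · rw [ENNReal.toReal_sum]
    · apply sum_congr rfl
      intro i hi
      rw [lintegral_indicator_const (hA i hi), ENNReal.toReal_mul, ← ENNReal.toReal_rpow,
        toReal_enorm, Real.norm_eq_abs]
    · intro i hi
      rw [lintegral_indicator_const (hA i hi)]
      apply ENNReal.mul_ne_top _ (hf i hi)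
      apply ENNReal.rpow_ne_top_of_nonneg hq.le
      exact enorm_ne_top
  · intro i hi
    exact (measurable_const.indicator (hA i hi)).aemeasurable

end
end Pool.Agent.Q82.NB
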