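import Pool.Agent.Q82.NB3
set_option autoImplicit false
noncomputable section
namespace Pool.Agent.Q82.NB
open Finset MeasureTheory
open scoped ENNReal

lemma sum_range_mulG {E : Type*} [AddCommMonoid E] (F : ℕ → E) (n B : ℕ) :
    ∑ i ∈ range (B*n), F i = ∑ q ∈ range B, ∑ i ∈ range n, F (q*n+i) := by
  induction B with
  | zero => simp
  | succ B ih => rw [Nat.succ_mul, Finset.sum_range_add, ih, Finset.sum_range_succ]

structure Dat (q : ℝ) where
  η : ℕ → ℝ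
  M : ℕ → ℕ
  K : ℕ → ℕ
  w : ℕ → ℕ → ℕ → ℝ
  η0 : ∀ L, 0 ≤ η L
  good : ∀ L, Good q (η L) (M L) (K L) (w L)

namespace Dat
variable {q : ℝ} (D : Dat q)

def nn : ℕ → ℕ
  | 0 => 1
  | L+1 => nn L * D.M L

lemma nn_pos (L : ℕ) : 0 < D.nn L := by
  induction L with
  | zero => simp [nn]
  | succ L ih => exact Nat.mul_pos ih (D.good L).pos

lemma nn_posR (L : ℕ) : (0:ℝ) < D.nn L := by exact_mod_cast D.nn_pos L

def eS (L j : ℕ) : Set ℝ := Set.Ico ((j:ℝ)/D.nn L) ((j+1)/D.nn L)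

end Dat

def zz (l Q k : ℕ) : ℕ := Nat.pair l (Nat.pair Q k)

def rS (l Q k : ℕ) : Set ℝ := Set.Ico ((zz l Q k:ℝ)+1) ((zz l Q k:ℝ)+2)

lemma measurable_rS (l Q k : ℕ) : MeasurableSet (rS l Q k) := measurableSet_Ico

lemma vol_rS (l Q k : ℕ) : volume (rS l Q k) = 1 := by
  unfold rS
  rw [Real.volume_Ico]
  norm_num

lemma disj_rS {l Q k l' Q' k' : ℕ} (h : (l,Q,k) ≠ (l',Q',k')) : Disjoint (rS l Q k) (rS l' Q' k') := by
  rw [Set.disjoint_left]
  intro x hx hx'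
  apply h
  have h1 : zz l Q k = zz l' Q' k' := by
    obtain ⟨h1, h2⟩ := hx
    obtain ⟨h3, h4⟩ := hx'
    have a1 : (zz l Q k : ℝ) < zz l' Q' k' + 1 := by linarith
    have a2 : (zz l' Q' k' : ℝ) < zz l Q k + 1 := by linarith
    have b1 : zz l Q k < zz l' Q' k' + 1 := by exact_mod_cast a1
    have b2 : zz l' Q' k' < zz l Q k + 1 := by exact_mod_cast a2
    omega
  unfold zz at h1
  rw [Nat.pair_eq_pair, Nat.pair_eq_pair] at h1
  obtain ⟨h2, h3, h4⟩ := h1
  rw [h2, h3, h4]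

namespace Dat
variable {q : ℝ} (D : Dat q)

lemma measurable_eS (L j : ℕ) : MeasurableSet (D.eS L j) := measurableSet_Ico

lemma vol_eS (L j : ℕ) : volume (D.eS L j) = ENNReal.ofReal (1 / D.nn L) := by
  unfold eS
  rw [Real.volume_Ico]
  congr 1
  ring

lemma vol_eS_ne (L j : ℕ) : volume (D.eS L j) ≠ ∞ := by rw [vol_eS]; exact ENNReal.ofReal_ne_top

lemma disj_eS {L j j' : ℕ} (h : j ≠ j') : Disjoint (D.eS L j) (D.eS L j') := by
  rw [Set.disjoint_left]
  intro x hx hx'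
  apply h
  have hn := D.nn_posR L
  unfold eS at hx hx'
  obtain ⟨h1, h2⟩ := hx
  obtain ⟨h3, h4⟩ := hx'
  have a1 : (j:ℝ)/D.nn L < (j'+1)/D.nn L := lt_of_le_of_lt h1 h4
  have a2 : (j':ℝ)/D.nn L < (j+1)/D.nn L := lt_of_le_of_lt h3 h2
  rw [div_lt_div_iff_of_pos_right hn] at a1 a2
  have b1 : j < j' + 1 := by exact_mod_cast a1
  have b2 : j' < j + 1 := by exact_mod_cast a2
  omega

lemma eS_sub {L j : ℕ} (hj : j < D.nn L) : D.eS L j ⊆ Set.Ico 0 1 := by
  intro x hx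
  have hn := D.nn_posR L
  obtain ⟨h1, h2⟩ := hx
  constructor
  · exact le_trans (by positivity) h1
  · refine lt_of_lt_of_le h2 ?_
    rw [div_le_one hn]
    exact_mod_cast hj

lemma disj_e_r {L j l Q k : ℕ} (hj : j < D.nn L) : Disjoint (D.eS L j) (rS l Q k) := by
  rw [Set.disjoint_left]
  intro x hx hx'
  have h1 := (D.eS_sub hj hx).2
  have h2 := hx'.1
  have h3 : (0:ℝ) ≤ zz l Q k := by positivity
  linarith

/-- the atoms of level `L` -/
def atom (L : ℕ) : ℕ ⊕ (Σ _ : ℕ, ℕ × ℕ) → Set ℝ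
  | Sum.inl j => D.eS L j
  | Sum.inr ⟨l, Q, k⟩ => rS l Q k

def idx (L : ℕ) : Finset (ℕ ⊕ (Σ _ : ℕ, ℕ × ℕ)) :=
  (range (D.nn L)).disjSum ((range L).sigma fun l => range (D.nn l) ×ˢ range (D.K l))

lemma sum_idx {E : Type*} [AddCommMonoid E] (L : ℕ) (F : ℕ ⊕ (Σ _ : ℕ, ℕ × ℕ) → E) :
    ∑ i ∈ D.idx L, F i = ∑ j ∈ range (D.nn L), F (Sum.inl j) +
      ∑ l ∈ range L, ∑ Q ∈ range (D.nn l), ∑ k ∈ range (D.K l), F (Sum.inr ⟨l, Q, k⟩) := by
  unfold idx
  rw [sum_disjSum, sum_sigma]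
  congr 1
  apply sum_congr rfl
  intro l _
  rw [sum_product]

variable (p : ℝ≥0∞) [Fact (1 ≤ p)]

/-- general element of level `L` -/
def Psi (L : ℕ) (u : ℕ → ℝ) (v : ℕ → ℕ → ℕ → ℝ) : Lp ℝ p (volume : Measure ℝ) :=
  ∑ j ∈ range (D.nn L), u j • ind p (D.eS L j) +
    ∑ l ∈ range L, ∑ Q ∈ range (D.nn l), ∑ k ∈ range (D.K l), v l Q k • ind p (rS l Q k)

lemma norm_Psi (hp : p ≠ ∞) (L : ℕ) (u : ℕ → ℝ) (v : ℕ → ℕ → ℕ → ℝ) :
    ‖D.Psi p L u v‖ ^ p.toReal = (1 / D.nn L) * ∑ j ∈ range (D.nn L), |u j| ^ p.toReal +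
      ∑ l ∈ range L, ∑ Q ∈ range (D.nn l), ∑ k ∈ range (D.K l), |v l Q k| ^ p.toReal := by
  have h := norm_sum_ind hp (D.idx L) (D.atom L) (by
      rintro (j | ⟨l, Q, k⟩) _
      · exact D.measurable_eS L j
      · exact measurable_rS l Q k) (by
      rintro (j | ⟨l, Q, k⟩) _
      · exact D.vol_eS_ne L j
      · change volume (rS l Q k) ≠ ∞
        rw [vol_rS]; exact ENNReal.one_ne_top) (by
      rintro (j | ⟨l, Q, k⟩) hi (j' | ⟨l', Q', k'⟩) hj hne
      · exact D.disj_eS (fun h => hne (by rw [h]))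
      · unfold idx at hi
        rw [inl_mem_disjSum, mem_range] at hi
        exact D.disj_e_r hi
      · unfold idx at hj
        rw [inl_mem_disjSum, mem_range] at hj
        exact (D.disj_e_r hj).symm
      · apply disj_rS
        intro h
        apply hne
        simp only [Prod.mk.injEq] at h
        obtain ⟨h1, h2, h3⟩ := h
        subst h1 h2 h3
        rfl)
    (fun i => match i with
      | Sum.inl j => u j
      | Sum.inr ⟨l, Q, k⟩ => v l Q k)
  rw [sum_idx, sum_idx] at h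
  unfold Psi
  refine h.trans ?_
  congr 1
  · rw [mul_sum]
    apply sum_congr rfl
    intro j _
    change |u j| ^ p.toReal * (volume (D.eS L j)).toReal = _
    rw [vol_eS, ENNReal.toReal_ofReal (by have := D.nn_posR L; positivity)]
    ring
  · apply sum_congr rfl; intro l _
    apply sum_congr rfl; intro Q _
    apply sum_congr rfl; intro k _
    change |v l Q k| ^ p.toReal * (volume (rS l Q k)).toReal = _
    rw [vol_rS]
    simp

end Dat

lemma ind_Ico_add (p : ℝ≥0∞) [Fact (1 ≤ p)] {a b c : ℝ} (h1 : a ≤ b) (h2 : b ≤ c) :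
    ind p (Set.Ico a b) + ind p (Set.Ico b c) = ind p (Set.Ico a c) := by
  have hf : ∀ x y : ℝ, volume (Set.Ico x y) ≠ ∞ := fun x y => by
    rw [Real.volume_Ico]; exact ENNReal.ofReal_ne_top
  apply Lp.ext
  filter_upwards [Lp.coeFn_add (ind p (Set.Ico a b)) (ind p (Set.Ico b c)),
    ind_coeFn p measurableSet_Ico (hf a b), ind_coeFn p measurableSet_Ico (hf b c),
    ind_coeFn p measurableSet_Ico (hf a c)] with x e1 e2 e3 e4
  rw [e1, Pi.add_apply, e2, e3, e4]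
  simp only [Set.indicator_apply, Set.mem_Ico]
  by_cases hx1 : a ≤ x <;> by_cases hx2 : x < b <;> by_cases hx3 : x < c <;>
    simp [hx1, hx2, hx3, not_le.mpr, not_lt.mp] <;> linarith

lemma ind_Ico_sum (p : ℝ≥0∞) [Fact (1 ≤ p)] (x : ℕ → ℝ) (hx : Monotone x) (m : ℕ) :
    ∑ i ∈ range m, ind p (Set.Ico (x i) (x (i+1))) = ind p (Set.Ico (x 0) (x m)) := by
  induction m with
  | zero =>
    simp only [range_zero, sum_empty, Set.Ico_self]
    have : ind p (∅ : Set ℝ) = 0 := by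
      have h := ind_Ico_add p (le_refl (0:ℝ)) (le_refl (0:ℝ))
      rw [Set.Ico_self] at h
      exact left_eq_add.mp h.symm
    rw [this]
  | succ m ih =>
    rw [sum_range_succ, ih, ind_Ico_add p (hx (Nat.zero_le _)) (hx (Nat.le_succ _))]

namespace Dat
set_option linter.unusedSectionVars false
variable {p : ℝ≥0∞} [Fact (1 ≤ p)] (D : Dat p.toReal)

lemma eS_split (L Q : ℕ) : ind p (D.eS L Q) = ∑ i ∈ range (D.M L), ind p (D.eS (L+1) (Q * D.M L + i)) := by
  have hM : (0:ℝ) < D.M L := by exact_mod_cast (D.good L).pos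
  have hn := D.nn_posR L
  have h := ind_Ico_sum p (fun i => (((Q * D.M L + i : ℕ)):ℝ) / D.nn (L+1)) (by
    intro i j hij
    have hn' := D.nn_posR (L+1)
    simp only
    apply div_le_div_of_nonneg_right _ hn'.le
    exact_mod_cast Nat.add_le_add_left hij _) (D.M L)
  have e1 : (((Q * D.M L + 0 : ℕ)):ℝ) / D.nn (L+1) = Q / D.nn L := by
    rw [add_zero, nn]
    push_cast
    field_simp
  have e2 : (((Q * D.M L + D.M L : ℕ)):ℝ) / D.nn (L+1) = (Q+1) / D.nn L := by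
    rw [nn]
    push_cast
    field_simp
  rw [e1, e2] at h
  unfold eS
  rw [← h]
  apply sum_congr rfl
  intro i _
  push_cast
  ring_nf

/-- normalisation -/
def cst (L : ℕ) : ℝ := (1 / (D.nn (L+1) : ℝ)) ^ (1 / p.toReal)

/-- the elements of level `L+1` -/
def F (L j : ℕ) : Lp ℝ p (volume : Measure ℝ) :=
  ind p (D.eS (L+1) j) +
    D.cst L • ∑ k ∈ range (D.K L), D.w L k (j % D.M L) • ind p (rS L (j / D.M L) k)

lemma sum_levels {E : Type*} [AddCommMonoid E] (L : ℕ) (f : ℕ → E) :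
    ∑ j ∈ range (D.nn (L+1)), f j = ∑ Q ∈ range (D.nn L), ∑ i ∈ range (D.M L), f (Q * D.M L + i) := by
  rw [nn, sum_range_mulG]

lemma div_M {L Q i : ℕ} (hi : i < D.M L) : (Q * D.M L + i) / D.M L = Q := by
  rw [mul_comm, Nat.mul_add_div (D.good L).pos, Nat.div_eq_of_lt hi, add_zero]

lemma mod_M {L Q i : ℕ} (hi : i < D.M L) : (Q * D.M L + i) % D.M L = i := by
  rw [mul_comm, Nat.mul_add_mod, Nat.mod_eq_of_lt hi]

/-- the new coefficients -/
def nv (L : ℕ) (v : ℕ → ℕ → ℕ → ℝ) (b : ℕ → ℝ) : ℕ → ℕ → ℕ → ℝ := fun l Q k =>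
  if l = L then D.cst L * ∑ i ∈ range (D.M L), D.w L k i * b (Q * D.M L + i) else v l Q k

lemma Psi_add (L : ℕ) (u : ℕ → ℝ) (v : ℕ → ℕ → ℕ → ℝ) (b : ℕ → ℝ) :
    D.Psi p L u v + ∑ j ∈ range (D.nn (L+1)), b j • D.F L j =
      D.Psi p (L+1) (fun j => u (j / D.M L) + b j) (D.nv L v b) := by
  have h1 : ∑ Q ∈ range (D.nn L), u Q • ind p (D.eS L Q) =
      ∑ j ∈ range (D.nn (L+1)), u (j / D.M L) • ind p (D.eS (L+1) j) := by
    rw [sum_levels]
    apply sum_congr rfl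
    intro Q _
    rw [eS_split, smul_sum]
    apply sum_congr rfl
    intro i hi
    rw [D.div_M (mem_range.mp hi)]
  have h2 : ∑ j ∈ range (D.nn (L+1)), b j • D.F L j =
      ∑ j ∈ range (D.nn (L+1)), b j • ind p (D.eS (L+1) j) +
      ∑ Q ∈ range (D.nn L), ∑ k ∈ range (D.K L),
        (D.cst L * ∑ i ∈ range (D.M L), D.w L k i * b (Q * D.M L + i)) • ind p (rS L Q k) := by
    have h3 : ∀ j, b j • D.F L j = b j • ind p (D.eS (L+1) j) +
        b j • D.cst L • ∑ k ∈ range (D.K L), D.w L k (j % D.M L) • ind p (rS L (j / D.M L) k) := by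
      intro j
      unfold F
      rw [smul_add]
    simp only [h3]
    rw [sum_add_distrib]
    congr 1
    rw [sum_levels]
    apply sum_congr rfl
    intro Q _
    have h4 : ∀ i ∈ range (D.M L), b (Q * D.M L + i) • D.cst L • ∑ k ∈ range (D.K L),
        D.w L k ((Q * D.M L + i) % D.M L) • ind p (rS L ((Q * D.M L + i) / D.M L) k) =
        ∑ k ∈ range (D.K L), (D.cst L * (D.w L k i * b (Q * D.M L + i))) • ind p (rS L Q k) := by
      intro i hi
      rw [D.mod_M (mem_range.mp hi), D.div_M (mem_range.mp hi), smul_sum, smul_sum]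
      apply sum_congr rfl
      intro k _
      rw [smul_smul, smul_smul]
      congr 1
      ring
    rw [sum_congr rfl h4, sum_comm]
    apply sum_congr rfl
    intro k _
    rw [← sum_smul, mul_sum]
  rw [h2]
  unfold Psi
  rw [h1]
  have h5 : ∀ j, (u (j / D.M L) + b j) • ind p (D.eS (L+1) j) =
      u (j / D.M L) • ind p (D.eS (L+1) j) + b j • ind p (D.eS (L+1) j) := fun j => add_smul _ _ _
  simp only [h5]
  rw [sum_add_distrib, sum_range_succ (n := L)]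
  have h6 : ∑ l ∈ range L, ∑ Q ∈ range (D.nn l), ∑ k ∈ range (D.K l), D.nv L v b l Q k • ind p (rS l Q k)
      = ∑ l ∈ range L, ∑ Q ∈ range (D.nn l), ∑ k ∈ range (D.K l), v l Q k • ind p (rS l Q k) := by
    apply sum_congr rfl
    intro l hl
    have : l ≠ L := by have := mem_range.mp hl; omega
    apply sum_congr rfl; intro Q _
    apply sum_congr rfl; intro k _
    unfold nv
    rw [if_neg this]
  have h7 : ∑ Q ∈ range (D.nn L), ∑ k ∈ range (D.K L), D.nv L v b L Q k • ind p (rS L Q k)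
      = ∑ Q ∈ range (D.nn L), ∑ k ∈ range (D.K L),
        (D.cst L * ∑ i ∈ range (D.M L), D.w L k i * b (Q * D.M L + i)) • ind p (rS L Q k) := by
    apply sum_congr rfl; intro Q _
    apply sum_congr rfl; intro k _
    unfold nv
    rw [if_pos rfl]
  rw [h6, h7]
  abel

/-- the norm identity -/
lemma norm_add (hp : p ≠ ∞) (L : ℕ) (u : ℕ → ℝ) (v : ℕ → ℕ → ℕ → ℝ) (b : ℕ → ℝ) :
    ‖D.Psi p L u v + ∑ j ∈ range (D.nn (L+1)), b j • D.F L j‖ ^ p.toReal =
      (1 / D.nn (L+1)) * ∑ Q ∈ range (D.nn L), Gf p.toReal (D.M L) (D.K L) (D.w L) (u Q)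
        (fun i => b (Q * D.M L + i)) +
      ∑ l ∈ range L, ∑ Q ∈ range (D.nn l), ∑ k ∈ range (D.K l), |v l Q k| ^ p.toReal := by
  have hp1 : (1:ℝ≥0∞) ≤ p := Fact.out
  have hp0 : p ≠ 0 := (zero_lt_one.trans_le hp1).ne'
  have hq : 0 < p.toReal := ENNReal.toReal_pos hp0 hp
  have hn := D.nn_posR (L+1)
  rw [Psi_add, D.norm_Psi p hp, sum_range_succ (n := L)]
  have h6 : ∑ l ∈ range L, ∑ Q ∈ range (D.nn l), ∑ k ∈ range (D.K l), |D.nv L v b l Q k| ^ p.toReal
      = ∑ l ∈ range L, ∑ Q ∈ range (D.nn l), ∑ k ∈ range (D.K l), |v l Q k| ^ p.toReal := by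
    apply sum_congr rfl
    intro l hl
    have : l ≠ L := by have := mem_range.mp hl; omega
    apply sum_congr rfl; intro Q _
    apply sum_congr rfl; intro k _
    unfold nv
    rw [if_neg this]
  have h7 : ∑ Q ∈ range (D.nn L), ∑ k ∈ range (D.K L), |D.nv L v b L Q k| ^ p.toReal
      = (1 / D.nn (L+1)) * ∑ Q ∈ range (D.nn L), ∑ k ∈ range (D.K L),
        |∑ i ∈ range (D.M L), D.w L k i * b (Q * D.M L + i)| ^ p.toReal := by
    rw [mul_sum]
    apply sum_congr rfl; intro Q _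
    rw [mul_sum]
    apply sum_congr rfl; intro k _
    unfold nv
    rw [if_pos rfl, abs_mul, Real.mul_rpow (abs_nonneg _) (abs_nonneg _)]
    congr 1
    unfold cst
    have h0 : (0:ℝ) ≤ 1 / D.nn (L+1) := by positivity
    rw [abs_of_nonneg (by positivity), ← Real.rpow_mul h0, one_div_mul_cancel hq.ne', Real.rpow_one]
  rw [h6, h7, sum_levels]
  have h8 : ∑ Q ∈ range (D.nn L), Gf p.toReal (D.M L) (D.K L) (D.w L) (u Q) (fun i => b (Q * D.M L + i))
      = ∑ Q ∈ range (D.nn L), ∑ i ∈ range (D.M L),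
          |u ((Q * D.M L + i) / D.M L) + b (Q * D.M L + i)| ^ p.toReal +
        ∑ Q ∈ range (D.nn L), ∑ k ∈ range (D.K L),
        |∑ i ∈ range (D.M L), D.w L k i * b (Q * D.M L + i)| ^ p.toReal := by
    rw [← sum_add_distrib]
    apply sum_congr rfl; intro Q _
    unfold Gf
    congr 1
    apply sum_congr rfl; intro i hi
    rw [D.div_M (mem_range.mp hi)]
  rw [h8]
  ring

lemma trunc_le (hp : p ≠ ∞) (L : ℕ) (u : ℕ → ℝ) (v : ℕ → ℕ → ℕ → ℝ) (b : ℕ → ℝ) (m : ℕ) :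
    ‖D.Psi p L u v + ∑ j ∈ range (D.nn (L+1)), tr m b j • D.F L j‖ ^ p.toReal ≤
      (1 + D.η L) * ‖D.Psi p L u v + ∑ j ∈ range (D.nn (L+1)), b j • D.F L j‖ ^ p.toReal := by
  rw [D.norm_add hp, D.norm_add hp]
  have h1 : ∑ Q ∈ range (D.nn L), Gf p.toReal (D.M L) (D.K L) (D.w L) (u Q)
        (fun i => tr m b (Q * D.M L + i)) ≤ ∑ Q ∈ range (D.nn L), (1 + D.η L) *
        Gf p.toReal (D.M L) (D.K L) (D.w L) (u Q) (fun i => b (Q * D.M L + i)) := by
    apply sum_le_sum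
    intro Q _
    have h2 : (fun i => tr m b (Q * D.M L + i)) = tr (m - Q * D.M L) (fun i => b (Q * D.M L + i)) := by
      funext i
      unfold tr
      by_cases h : Q * D.M L + i < m
      · rw [if_pos h, if_pos (by omega)]
      · rw [if_neg h, if_neg (by omega)]
    rw [h2]
    exact (D.good L).trunc _ _ _
  rw [← mul_sum] at h1
  have h3 : 0 ≤ ∑ l ∈ range L, ∑ Q ∈ range (D.nn l), ∑ k ∈ range (D.K l), |v l Q k| ^ p.toReal :=
    sum_nonneg fun _ _ => sum_nonneg fun _ _ => sum_nonneg fun _ _ => by positivity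
  have h4 := D.η0 L
  have h5 : (1 / (D.nn (L+1):ℝ)) * ∑ Q ∈ range (D.nn L), Gf p.toReal (D.M L) (D.K L) (D.w L) (u Q)
        (fun i => tr m b (Q * D.M L + i)) ≤ (1 / (D.nn (L+1):ℝ)) * ((1 + D.η L) * ∑ Q ∈ range (D.nn L),
        Gf p.toReal (D.M L) (D.K L) (D.w L) (u Q) (fun i => b (Q * D.M L + i))) :=
    mul_le_mul_of_nonneg_left h1 (by positivity)
  nlinarith

end Dat
end Pool.Agent.Q82.NB
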