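import Pool.Agent.Q82.NB4
set_option autoImplicit false
noncomputable section
namespace Pool.Agent.Q82.NB
open Finset MeasureTheory
open scoped ENNReal

namespace Dat
set_option linter.unusedSectionVars false
variable {p : ℝ≥0∞} [Fact (1 ≤ p)] (D : Dat p.toReal)

/-- position of the element number `n+1` -/
def loc : ℕ → ℕ × ℕ
  | 0 => (0, 0)
  | n+1 => if (loc n).2 + 1 < D.nn ((loc n).1 + 1) then ((loc n).1, (loc n).2 + 1)
      else ((loc n).1 + 1, 0)

/-- the sequence -/
def f : ℕ → Lp ℝ p (volume : Measure ℝ)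
  | 0 => ind p (D.eS 0 0)
  | n+1 => D.F (D.loc n).1 (D.loc n).2

/-- number of elements before level `L+1`, minus one -/
def cnt (L : ℕ) : ℕ := ∑ l ∈ range L, D.nn (l+1)

lemma loc_step {n L j : ℕ} (h : D.loc n = (L, j)) : D.loc (n+1) =
    if j + 1 < D.nn (L+1) then (L, j+1) else (L+1, 0) := by
  conv_lhs => unfold loc
  rw [h]

lemma loc_add {n L : ℕ} (h : D.loc n = (L, 0)) (j : ℕ) (hj : j < D.nn (L+1)) :
    D.loc (n + j) = (L, j) := by
  induction j with
  | zero => exact h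
  | succ j ih =>
    rw [← add_assoc, D.loc_step (ih (by omega)), if_pos hj]

lemma loc_cnt (L : ℕ) : D.loc (D.cnt L) = (L, 0) := by
  induction L with
  | zero => simp [cnt, loc]
  | succ L ih =>
    have hn := D.nn_pos (L+1)
    have h := D.loc_add ih (D.nn (L+1) - 1) (by omega)
    have h2 := D.loc_step h
    rw [if_neg (by omega)] at h2
    have e : D.cnt (L+1) = D.cnt L + (D.nn (L+1) - 1) + 1 := by
      unfold cnt
      rw [sum_range_succ]
      omega
    rw [e, h2]

lemma f_eq (L j : ℕ) (hj : j < D.nn (L+1)) : D.f (1 + D.cnt L + j) = D.F L j := by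
  have e : 1 + D.cnt L + j = (D.cnt L + j) + 1 := by ring
  rw [e]
  change D.F (D.loc (D.cnt L + j)).1 (D.loc (D.cnt L + j)).2 = _
  rw [D.loc_add (D.loc_cnt L) j hj]

/-- partial sums -/
def S (a : ℕ → ℝ) (N : ℕ) : Lp ℝ p (volume : Measure ℝ) := ∑ n ∈ range N, a n • D.f n

lemma S_add (a : ℕ → ℝ) (L m : ℕ) (hm : m ≤ D.nn (L+1)) :
    D.S a (1 + D.cnt L + m) = D.S a (1 + D.cnt L) +
      ∑ j ∈ range (D.nn (L+1)), tr m (fun j => a (1 + D.cnt L + j)) j • D.F L j := by
  unfold S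
  rw [sum_range_add]
  congr 1
  have h : ∑ j ∈ range (D.nn (L+1)), tr m (fun j => a (1 + D.cnt L + j)) j • D.F L j =
      ∑ j ∈ range m, tr m (fun j => a (1 + D.cnt L + j)) j • D.F L j := by
    symm
    apply sum_subset
    · intro i hi
      rw [mem_range] at *
      omega
    · intro i _ hi
      rw [mem_range] at hi
      unfold tr
      rw [if_neg hi, zero_smul]
  rw [h]
  apply sum_congr rfl
  intro j hj
  rw [mem_range] at hj
  unfold tr
  rw [if_pos hj, D.f_eq L j (by omega)]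

lemma cnt_succ (L : ℕ) : D.cnt (L+1) = D.cnt L + D.nn (L+1) := by
  unfold cnt
  rw [sum_range_succ]

lemma exists_Psi (a : ℕ → ℝ) (L : ℕ) : ∃ u v, D.S a (1 + D.cnt L) = D.Psi p L u v := by
  induction L with
  | zero =>
    refine ⟨fun _ => a 0, fun _ _ _ => 0, ?_⟩
    unfold S Psi cnt nn
    simp [f]
  | succ L ih =>
    obtain ⟨u, v, h⟩ := ih
    rw [cnt_succ, ← add_assoc, D.S_add a L _ le_rfl, h, Psi_add]
    exact ⟨_, _, rfl⟩

lemma tr_tr {m m' : ℕ} (h : m ≤ m') (b : ℕ → ℝ) : tr m (tr m' b) = tr m b := by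
  funext i
  unfold tr
  by_cases h1 : i < m
  · rw [if_pos h1, if_pos (by omega), if_pos h1]
  · rw [if_neg h1, if_neg h1]

lemma within (hp : p ≠ ∞) (a : ℕ → ℝ) (L m m' : ℕ) (hm : m ≤ m') (hm' : m' ≤ D.nn (L+1)) :
    ‖D.S a (1 + D.cnt L + m)‖ ^ p.toReal ≤ (1 + D.η L) * ‖D.S a (1 + D.cnt L + m')‖ ^ p.toReal := by
  obtain ⟨u, v, h⟩ := D.exists_Psi a L
  rw [D.S_add a L m (hm.trans hm'), D.S_add a L m' hm', h, ← tr_tr hm]
  exact D.trunc_le hp L u v _ m

/-- product bound -/
lemma chain (hp : p ≠ ∞) (a : ℕ → ℝ) (L : ℕ) : ∀ N N', N ≤ N' → N' ≤ 1 + D.cnt L →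
    ‖D.S a N‖ ^ p.toReal ≤ (∏ l ∈ range L, (1 + D.η l)) * ‖D.S a N'‖ ^ p.toReal := by
  have hp1 : (1:ℝ≥0∞) ≤ p := Fact.out
  have hp0 : p ≠ 0 := (zero_lt_one.trans_le hp1).ne'
  have hq : 0 < p.toReal := ENNReal.toReal_pos hp0 hp
  induction L with
  | zero =>
    intro N N' h1 h2
    simp only [range_zero, prod_empty, one_mul]
    have hc : D.cnt 0 = 0 := by simp [cnt]
    rw [hc] at h2
    rcases Nat.eq_or_lt_of_le h1 with h | h
    · rw [h]
    · have : N = 0 := by omega
      rw [this]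
      unfold S
      rw [range_zero, sum_empty, norm_zero, Real.zero_rpow hq.ne']
      positivity
  | succ L ih =>
    intro N N' h1 h2
    rw [prod_range_succ]
    have hP : 0 ≤ ∏ l ∈ range L, (1 + D.η l) := prod_nonneg fun l _ => by have := D.η0 l; linarith
    have hP1 : 1 ≤ ∏ l ∈ range L, (1 + D.η l) := by
      calc (1:ℝ) = ∏ l ∈ range L, (1:ℝ) := by simp
        _ ≤ _ := prod_le_prod (fun l _ => zero_le_one) (fun l _ => by have := D.η0 l; linarith)
    have hη := D.η0 L
    have hS' : 0 ≤ ‖D.S a N'‖ ^ p.toReal := by positivity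
    by_cases h3 : N' ≤ 1 + D.cnt L
    · refine (ih N N' h1 h3).trans ?_
      have : 0 ≤ (∏ l ∈ range L, (1 + D.η l)) * ‖D.S a N'‖ ^ p.toReal := by positivity
      nlinarith
    · obtain ⟨m', hm'⟩ : ∃ m', N' = 1 + D.cnt L + m' := ⟨N' - (1 + D.cnt L), by omega⟩
      rw [cnt_succ] at h2
      by_cases h4 : 1 + D.cnt L ≤ N
      · obtain ⟨m, hm⟩ : ∃ m, N = 1 + D.cnt L + m := ⟨N - (1 + D.cnt L), by omega⟩
        subst hm hm'
        refine (D.within hp a L m m' (by omega) (by omega)).trans ?_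
        have : 0 ≤ (1 + D.η L) * ‖D.S a (1 + D.cnt L + m')‖ ^ p.toReal := by positivity
        nlinarith
      · have h5 := ih N (1 + D.cnt L) (by omega) le_rfl
        subst hm'
        have h6 := D.within hp a L 0 m' (by omega) (by omega)
        rw [add_zero] at h6
        calc _ ≤ _ := h5
          _ ≤ (∏ l ∈ range L, (1 + D.η l)) * ((1 + D.η L) * ‖D.S a (1 + D.cnt L + m')‖ ^ p.toReal) := by
            gcongr
          _ = _ := by ring

end Dat

/-- existence of data with small total loss -/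
lemma exists_dat {q : ℝ} (hq : 1 ≤ q) {ε : ℝ} (hε : 0 < ε) :
    ∃ D : Dat q, ∀ L, ∏ l ∈ range L, (1 + D.η l) ≤ 1 + ε := by
  set c := Real.log (1 + ε) with hc
  have hc0 : 0 < c := Real.log_pos (by linarith)
  have h : ∀ L : ℕ, ∃ M K w, Good q (c / 2^(L+1)) M K w := fun L => block hq (by positivity)
  choose M K w hg using h
  refine ⟨⟨fun L => c / 2^(L+1), M, K, w, fun L => by positivity, hg⟩, ?_⟩
  intro L
  simp only
  calc ∏ l ∈ range L, (1 + c / 2^(l+1)) ≤ ∏ l ∈ range L, Real.exp (c / 2^(l+1)) := by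
        apply prod_le_prod
        · intro l _; positivity
        · intro l _
          have := Real.add_one_le_exp (c / 2^(l+1))
          linarith
    _ = Real.exp (∑ l ∈ range L, c / 2^(l+1)) := by rw [Real.exp_sum]
    _ ≤ Real.exp c := by
        apply Real.exp_le_exp.mpr
        have h1 : ∀ L : ℕ, ∑ l ∈ range L, c / 2^(l+1) = c - c / 2^L := by
          intro L
          induction L with
          | zero => simp
          | succ L ih =>
            rw [sum_range_succ, ih, pow_succ]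
            field_simp
            ring
        rw [h1]
        have : 0 < c / 2^L := by positivity
        linarith
    _ = 1 + ε := by rw [hc, Real.exp_log (by linarith)]

lemma Dat.basis_ineq {p : ℝ≥0∞} [Fact (1 ≤ p)] (hp : p ≠ ∞) (D : Dat p.toReal) {ε : ℝ} (hε : 0 < ε)
    (hD : ∀ L, ∏ l ∈ range L, (1 + D.η l) ≤ 1 + ε) (a : ℕ → ℝ) (N N' : ℕ) (h : N ≤ N') :
    ‖∑ n ∈ range N, a n • D.f n‖ ≤ (1 + ε) * ‖∑ n ∈ range N', a n • D.f n‖ := by
  have hp1 : (1:ℝ≥0∞) ≤ p := Fact.out
  have hp0 : p ≠ 0 := (zero_lt_one.trans_le hp1).ne'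
  have hq : 0 < p.toReal := ENNReal.toReal_pos hp0 hp
  have hq1 : 1 ≤ p.toReal := by
    have := (ENNReal.toReal_le_toReal ENNReal.one_ne_top hp).mpr hp1
    simpa using this
  have hcnt : N' ≤ 1 + D.cnt N' := by
    have : ∀ L, L ≤ D.cnt L := by
      intro L
      induction L with
      | zero => exact Nat.zero_le _
      | succ L ih =>
        rw [D.cnt_succ]
        have := D.nn_pos (L+1)
        omega
    have := this N'
    omega
  have h1 := D.chain hp a N' N N' h hcnt
  have h2 : ‖D.S a N‖ ^ p.toReal ≤ ((1 + ε) * ‖D.S a N'‖) ^ p.toReal := by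
    refine h1.trans ?_
    rw [Real.mul_rpow (by linarith) (norm_nonneg _)]
    apply mul_le_mul_of_nonneg_right _ (by positivity)
    refine (hD N').trans ?_
    have : (1 + ε) ^ (1:ℝ) ≤ (1+ε) ^ p.toReal :=
      Real.rpow_le_rpow_of_exponent_le (by linarith) hq1
    rwa [Real.rpow_one] at this
  exact (Real.rpow_le_rpow_iff (norm_nonneg _) (by positivity) hq).mp h2

end Pool.Agent.Q82.NB
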