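import Pool.Agent.Q82.NB5
set_option autoImplicit false
noncomputable section
namespace Pool.Agent.Q82.NB
open Finset MeasureTheory
open scoped ENNReal
set_option linter.unusedSectionVars false

section
variable {p : ℝ≥0∞} [Fact (1 ≤ p)]

lemma ind_nonneg (A : Set ℝ) : 0 ≤ ind p A := by
  by_cases h : MeasurableSet A ∧ volume A ≠ ∞
  · rw [← Lp.coeFn_nonneg]
    filter_upwards [ind_coeFn p h.1 h.2] with x hx
    rw [hx]
    exact Set.indicator_nonneg (fun _ _ => zero_le_one) x
  · unfold ind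
    rw [dif_neg h]

lemma smul_nonneg_Lp {c : ℝ} (hc : 0 ≤ c) {f : Lp ℝ p (volume : Measure ℝ)} (hf : 0 ≤ f) :
    0 ≤ c • f := by
  rw [← Lp.coeFn_nonneg] at hf ⊢
  filter_upwards [hf, Lp.coeFn_smul c f] with x h1 h2
  rw [h2]
  exact mul_nonneg hc h1

lemma ind_ne_zero (hp : p ≠ ∞) {A : Set ℝ} (hA : MeasurableSet A) (hf : volume A ≠ ∞)
    (h0 : volume A ≠ 0) : ind p A ≠ 0 := by
  intro h
  have hp1 : (1:ℝ≥0∞) ≤ p := Fact.out
  have hp0 : p ≠ 0 := (zero_lt_one.trans_le hp1).ne'
  have hq : 0 < p.toReal := ENNReal.toReal_pos hp0 hp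
  have h1 := norm_sum_ind hp ({0} : Finset ℕ) (fun _ => A) (fun _ _ => hA) (fun _ _ => hf)
    (fun i hi j hj hij => by
      rw [mem_singleton] at hi hj
      exact absurd (hi.trans hj.symm) hij) (fun _ => 1)
  rw [sum_singleton, sum_singleton, one_smul, h, norm_zero, Real.zero_rpow hq.ne', abs_one,
    Real.one_rpow, one_mul] at h1
  have : 0 < (volume A).toReal := ENNReal.toReal_pos h0 hf
  linarith

lemma ne_zero_of_le {f g : Lp ℝ p (volume : Measure ℝ)} (h0 : 0 ≤ f) (h1 : f ≤ g) (hf : f ≠ 0) :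
    g ≠ 0 := by
  intro h
  rw [h] at h1
  exact hf (le_antisymm h1 h0)
end

namespace Dat
variable {p : ℝ≥0∞} [Fact (1 ≤ p)] (D : Dat p.toReal)

lemma F_tail_nonneg (L j : ℕ) :
    0 ≤ D.cst L • ∑ k ∈ range (D.K L), D.w L k (j % D.M L) • ind p (rS L (j / D.M L) k) := by
  apply smul_nonneg_Lp
  · unfold cst
    positivity
  · apply sum_nonneg
    intro k _
    exact smul_nonneg_Lp ((D.good L).nonneg _ _) (ind_nonneg _)

lemma F_nonneg (L j : ℕ) : 0 ≤ D.F L j := by
  unfold F
  exact add_nonneg (ind_nonneg _) (D.F_tail_nonneg L j)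

lemma f_nonneg (n : ℕ) : 0 ≤ D.f n := by
  cases n with
  | zero => exact ind_nonneg _
  | succ n => exact D.F_nonneg _ _

lemma vol_eS_ne_zero (L j : ℕ) : volume (D.eS L j) ≠ 0 := by
  rw [vol_eS]
  have := D.nn_pos L
  simp
  omega

lemma f_ne_zero (hp : p ≠ ∞) (n : ℕ) : D.f n ≠ 0 := by
  cases n with
  | zero => exact ind_ne_zero hp (D.measurable_eS 0 0) (D.vol_eS_ne 0 0) (D.vol_eS_ne_zero 0 0)
  | succ n =>
    apply ne_zero_of_le (ind_nonneg _) _
      (ind_ne_zero hp (D.measurable_eS ((D.loc n).1+1) (D.loc n).2) (D.vol_eS_ne _ _)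
        (D.vol_eS_ne_zero _ _))
    change _ ≤ D.F (D.loc n).1 (D.loc n).2
    unfold F
    exact le_add_of_nonneg_right (D.F_tail_nonneg _ _)

/-- the span -/
def V : Submodule ℝ (Lp ℝ p (volume : Measure ℝ)) := Submodule.span ℝ (Set.range D.f)

lemma F_mem {L j : ℕ} (hj : j < D.nn (L+1)) : D.F L j ∈ D.V := by
  rw [← D.f_eq L j hj]
  exact Submodule.subset_span ⟨_, rfl⟩

/-- the alternating vector -/
def hv (L Q : ℕ) : Lp ℝ p (volume : Measure ℝ) :=
  ∑ i ∈ range (D.M L), ((-1:ℝ)^i) • ind p (D.eS (L+1) (Q * D.M L + i))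

lemma idx_lt {L Q i : ℕ} (hQ : Q < D.nn L) (hi : i < D.M L) : Q * D.M L + i < D.nn (L+1) := by
  have h : (Q+1) * D.M L ≤ D.nn L * D.M L := Nat.mul_le_mul_right _ hQ
  rw [add_mul, one_mul] at h
  rw [nn]
  omega

lemma hv_mem {L Q : ℕ} (hQ : Q < D.nn L) : D.hv L Q ∈ D.V := by
  have h : D.hv L Q = ∑ i ∈ range (D.M L), ((-1:ℝ)^i) • D.F L (Q * D.M L + i) := by
    have h1 : ∀ i ∈ range (D.M L), ((-1:ℝ)^i) • D.F L (Q * D.M L + i) =
        ((-1:ℝ)^i) • ind p (D.eS (L+1) (Q * D.M L + i)) +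
        ∑ k ∈ range (D.K L), (D.cst L * (D.w L k i * (-1)^i)) • ind p (rS L Q k) := by
      intro i hi
      unfold F
      rw [smul_add, D.mod_M (mem_range.mp hi), D.div_M (mem_range.mp hi), smul_sum, smul_sum]
      congr 1
      apply sum_congr rfl
      intro k _
      rw [smul_smul, smul_smul]
      congr 1
      ring
    rw [sum_congr rfl h1, sum_add_distrib, sum_comm]
    have h2 : ∀ k ∈ range (D.K L), ∑ i ∈ range (D.M L), (D.cst L * (D.w L k i * (-1)^i)) • ind p (rS L Q k)
        = 0 := by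
      intro k hk
      rw [← sum_smul, ← mul_sum, (D.good L).alt k (mem_range.mp hk), mul_zero, zero_smul]
    rw [sum_eq_zero h2, add_zero]
    rfl
  rw [h]
  apply Submodule.sum_mem
  intro i hi
  exact Submodule.smul_mem _ _ (D.F_mem (D.idx_lt hQ (mem_range.mp hi)))

/-- binary code of the index of an interval -/
def code : ℕ → ℕ → ℕ
  | 0, _ => 0
  | L+1, j => 2 * code L (j / D.M L) + (j % D.M L) % 2

lemma code_lt (L j : ℕ) : D.code L j < 2^L := by
  induction L generalizing j with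
  | zero => simp [code]
  | succ L ih =>
    have := ih (j / D.M L)
    unfold code
    rw [pow_succ]
    omega

/-- indicator function of the set of points with code `k` -/
def EE (L k : ℕ) : Lp ℝ p (volume : Measure ℝ) :=
  ∑ j ∈ range (D.nn L), (if D.code L j = k then (1:ℝ) else 0) • ind p (D.eS L j)

lemma EE_mem (L k : ℕ) : D.EE L k ∈ D.V := by
  induction L generalizing k with
  | zero =>
    unfold EE nn
    rw [range_one, sum_singleton]
    apply Submodule.smul_mem
    exact Submodule.subset_span ⟨0, rfl⟩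
  | succ L ih =>
    -- k = 2 k0 + d
    obtain ⟨k0, d, hd, hk⟩ : ∃ k0 d, d < 2 ∧ k = 2 * k0 + d := ⟨k/2, k%2, by omega, by omega⟩
    have h : D.EE (L+1) k = (1/2 : ℝ) • D.EE L k0 + ((1/2:ℝ) * (-1)^d) •
        ∑ Q ∈ range (D.nn L), (if D.code L Q = k0 then (1:ℝ) else 0) • D.hv L Q := by
      unfold EE
      rw [sum_levels, smul_sum, smul_sum, ← sum_add_distrib]
      apply sum_congr rfl
      intro Q _
      rw [D.eS_split L Q]
      unfold hv
      rw [smul_sum, smul_sum, smul_sum, smul_sum, ← sum_add_distrib]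
      apply sum_congr rfl
      intro i hi
      rw [smul_smul, smul_smul, smul_smul, ← add_smul]
      congr 1
      conv_lhs => unfold code
      rw [D.div_M (mem_range.mp hi), D.mod_M (mem_range.mp hi)]
      have hi2 : (-1:ℝ)^i = (-1)^(i%2) := by
        conv_lhs => rw [← Nat.div_add_mod i 2]
        rw [pow_add, pow_mul]
        norm_num
      rw [hi2]
      have hm : i % 2 < 2 := Nat.mod_lt _ (by norm_num)
      generalize i % 2 = e at *
      by_cases hc : D.code L Q = k0
      · rw [if_pos hc, hc]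
        interval_cases d <;> interval_cases e <;> simp [hk] <;> norm_num
      · rw [if_neg hc, if_neg (by omega)]
        ring
    rw [h]
    apply Submodule.add_mem
    · exact Submodule.smul_mem _ _ (ih k0)
    · apply Submodule.smul_mem
      apply Submodule.sum_mem
      intro Q hQ
      exact Submodule.smul_mem _ _ (D.hv_mem (mem_range.mp hQ))

end Dat
end Pool.Agent.Q82.NB
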