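import Pool.Agent.Q82.NB6
set_option autoImplicit false
noncomputable section
namespace Pool.Agent.Q82.NB
open Finset MeasureTheory Filter Topology
open scoped ENNReal
set_option linter.unusedSectionVars false

section
variable {p : ℝ≥0∞} [Fact (1 ≤ p)]

lemma ind_tendsto (hp : p ≠ ∞) {A : ℕ → Set ℝ} {B : Set ℝ} (hA : ∀ n, MeasurableSet (A n))
    (hB : MeasurableSet B) (hfA : ∀ n, volume (A n) ≠ ∞) (hfB : volume B ≠ ∞)
    (hanti : Antitone (fun n => symmDiff (A n) B)) (hempty : ⋂ n, symmDiff (A n) B = ∅) :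
    Tendsto (fun n => ind p (A n)) atTop (𝓝 (ind p B)) := by
  have h1 : Tendsto (fun n => volume (symmDiff (A n) B)) atTop (𝓝 0) := by
    have h := tendsto_measure_iInter_atTop (μ := (volume : Measure ℝ)) (s := fun n => symmDiff (A n) B)
      (fun n => ((hA n).symmDiff hB).nullMeasurableSet) hanti ⟨0, by
        apply ne_top_of_le_ne_top (ENNReal.add_ne_top.mpr ⟨hfA 0, hfB⟩)
        refine (measure_mono (t := A 0 ∪ B) ?_).trans (measure_union_le _ _)
        intro x hx
        rcases hx with hx | hx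
        · exact Or.inl hx.1
        · exact Or.inr hx.1⟩
    rw [hempty, measure_empty] at h
    exact h
  have h2 := tendsto_indicatorConstLp_set (c := (1:ℝ)) (ht := hA) (hμt := hfA) (hs := hB) (hμs := hfB) hp h1
  rw [ind_eq p hB hfB]
  refine h2.congr ?_
  intro n
  rw [ind_eq p (hA n) (hfA n)]

end

namespace Dat
variable {p : ℝ≥0∞} [Fact (1 ≤ p)] (D : Dat p.toReal)

def fl (L : ℕ) (t : ℝ) : ℕ := ⌊t * D.nn L⌋₊

lemma fl_succ (L : ℕ) (t : ℝ) : D.fl (L+1) t / D.M L = D.fl L t := by
  have hM : (D.M L : ℝ) ≠ 0 := by exact_mod_cast (D.good L).pos.ne'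
  unfold fl
  rw [← Nat.floor_div_natCast, nn]
  congr 1
  push_cast
  field_simp

def cc (L : ℕ) (t : ℝ) : ℝ := (D.code L (D.fl L t) : ℝ) / 2^L

lemma cc_succ (L : ℕ) (t : ℝ) : D.cc L t ≤ D.cc (L+1) t := by
  unfold cc
  rw [div_le_div_iff₀ (by positivity) (by positivity), pow_succ]
  have h : 2 * D.code L (D.fl L t) ≤ D.code (L+1) (D.fl (L+1) t) := by
    conv_rhs => unfold code
    rw [fl_succ]
    omega
  have h' : 2 * (D.code L (D.fl L t) : ℝ) ≤ D.code (L+1) (D.fl (L+1) t) := by exact_mod_cast h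
  have : (0:ℝ) < 2^L := by positivity
  nlinarith

lemma cc_mono (t : ℝ) : Monotone (fun L => D.cc L t) := monotone_nat_of_le_succ fun L => D.cc_succ L t

lemma cc_nonneg (L : ℕ) (t : ℝ) : 0 ≤ D.cc L t := by unfold cc; positivity

lemma cc_le_one (L : ℕ) (t : ℝ) : D.cc L t ≤ 1 := by
  unfold cc
  rw [div_le_one (by positivity)]
  exact_mod_cast (D.code_lt L _).le

lemma cc_bdd (t : ℝ) : BddAbove (Set.range (fun L => D.cc L t)) := ⟨1, by
  rintro _ ⟨L, rfl⟩
  exact D.cc_le_one L t⟩

lemma cc_measurable (L : ℕ) : Measurable (D.cc L) := by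
  unfold cc fl
  have h1 : Measurable (fun t : ℝ => ⌊t * D.nn L⌋₊) := Nat.measurable_floor.comp (measurable_id.mul_const _)
  have h2 : Measurable (fun n : ℕ => (D.code L n : ℝ) / 2^L) := measurable_from_nat
  exact h2.comp h1

def theta (t : ℝ) : ℝ := ⨆ L, D.cc L t

lemma theta_tendsto (t : ℝ) : Tendsto (fun L => D.cc L t) atTop (𝓝 (D.theta t)) :=
  tendsto_atTop_ciSup (D.cc_mono t) (D.cc_bdd t)

lemma theta_measurable : Measurable D.theta :=
  measurable_of_tendsto_metrizable D.cc_measurable (by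
    rw [tendsto_pi_nhds]
    exact D.theta_tendsto)

lemma theta_nonneg (t : ℝ) : 0 ≤ D.theta t := (D.cc_nonneg 0 t).trans (le_ciSup (D.cc_bdd t) 0)

lemma theta_le_one (t : ℝ) : D.theta t ≤ 1 := ciSup_le fun L => D.cc_le_one L t

lemma theta_le_iff (t x : ℝ) : D.theta t ≤ x ↔ ∀ L, D.cc L t ≤ x :=
  ⟨fun h L => (le_ciSup (D.cc_bdd t) L).trans h, fun h => ciSup_le h⟩

lemma mem_eS_iff {t : ℝ} (ht : 0 ≤ t) (L j : ℕ) : t ∈ D.eS L j ↔ D.fl L t = j := by
  have hn := D.nn_posR L
  unfold eS fl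
  rw [Set.mem_Ico, div_le_iff₀ hn, lt_div_iff₀ hn, Nat.floor_eq_iff (by positivity)]

/-- points with code less than `m` -/
def A (L m : ℕ) : Set ℝ := {t | t ∈ Set.Ico (0:ℝ) 1 ∧ D.code L (D.fl L t) < m}

lemma A_measurable (L m : ℕ) : MeasurableSet (D.A L m) := by
  have h1 : Measurable (fun t : ℝ => D.code L (D.fl L t)) := by
    unfold fl
    have h1 : Measurable (fun t : ℝ => ⌊t * D.nn L⌋₊) :=
      Nat.measurable_floor.comp (measurable_id.mul_const _)
    exact (measurable_from_nat (f := fun n : ℕ => D.code L n)).comp h1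
  exact measurableSet_Ico.inter (h1 measurableSet_Iio)

lemma A_sub (L m : ℕ) : D.A L m ⊆ Set.Ico (0:ℝ) 1 := fun _ h => h.1

lemma vol_ne_top_of_sub {B : Set ℝ} (h : B ⊆ Set.Ico (0:ℝ) 1) : volume B ≠ ∞ := by
  apply ne_top_of_le_ne_top _ (measure_mono h)
  rw [Real.volume_Ico]
  exact ENNReal.ofReal_ne_top

lemma fl_lt {t : ℝ} (ht : t ∈ Set.Ico (0:ℝ) 1) (L : ℕ) : D.fl L t < D.nn L := by
  have hn := D.nn_posR L
  unfold fl
  rw [Nat.floor_lt (by have := ht.1; positivity)]
  have := ht.2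
  nlinarith

lemma ind_A (L m : ℕ) : ind p (D.A L m) =
    ∑ j ∈ range (D.nn L), (if D.code L j < m then (1:ℝ) else 0) • ind p (D.eS L j) := by
  apply Lp.ext
  filter_upwards [ind_coeFn p (D.A_measurable L m) (vol_ne_top_of_sub (D.A_sub L m)),
    coe_sum_ind (p := p) (range (D.nn L)) (fun j => D.eS L j) (fun j _ => D.measurable_eS L j)
      (fun j _ => D.vol_eS_ne L j) (fun j => if D.code L j < m then (1:ℝ) else 0)] with t h1 h2
  rw [h1, h2]
  by_cases ht : t ∈ Set.Ico (0:ℝ) 1
  · rw [sum_eq_single (D.fl L t)]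
    · rw [Set.indicator_of_mem ((D.mem_eS_iff ht.1 L _).mpr rfl), mul_one]
      by_cases hc : D.code L (D.fl L t) < m
      · rw [Set.indicator_of_mem (show t ∈ D.A L m from ⟨ht, hc⟩), if_pos hc]
      · rw [Set.indicator_of_notMem (show t ∉ D.A L m from fun h => hc h.2), if_neg hc]
    · intro j _ hj
      rw [Set.indicator_of_notMem, mul_zero]
      intro h
      exact hj ((D.mem_eS_iff ht.1 L j).mp h).symm
    · intro h
      exact absurd (mem_range.mpr (D.fl_lt ht L)) h
  · rw [Set.indicator_of_notMem (fun h => ht h.1)]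
    symm
    apply sum_eq_zero
    intro j hj
    rw [Set.indicator_of_notMem, mul_zero]
    intro h
    exact ht (D.eS_sub (mem_range.mp hj) h)

lemma ind_A_mem (L m : ℕ) : ind p (D.A L m) ∈ D.V := by
  have h : ind p (D.A L m) = ∑ k ∈ range m, D.EE L k := by
    rw [ind_A]
    unfold EE
    rw [sum_comm]
    apply sum_congr rfl
    intro j _
    rw [← sum_smul, sum_ite_eq]
    simp only [mem_range]
  rw [h]
  exact Submodule.sum_mem _ fun k _ => D.EE_mem L k

lemma count_eq (L k : ℕ) (hk : k < 2^L) :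
    ∑ j ∈ range (D.nn L), (if D.code L j = k then (1:ℝ) else 0) = D.nn L / 2^L := by
  induction L generalizing k with
  | zero =>
    have : k = 0 := by simpa using hk
    subst this
    simp [nn, code]
  | succ L ih =>
    obtain ⟨k0, d, hd, hk'⟩ : ∃ k0 d, d < 2 ∧ k = 2 * k0 + d := ⟨k/2, k%2, by omega, by omega⟩
    rw [pow_succ] at hk
    have h1 : ∀ Q, ∑ i ∈ range (D.M L), (if D.code (L+1) (Q * D.M L + i) = k then (1:ℝ) else 0) =
        (if D.code L Q = k0 then (1:ℝ) else 0) * (D.M L / 2) := by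
      intro Q
      have h2 : ∀ i ∈ range (D.M L), (if D.code (L+1) (Q * D.M L + i) = k then (1:ℝ) else 0) =
          (if D.code L Q = k0 then (1:ℝ) else 0) * ((1/2) + (1/2) * (-1)^d * (-1)^i) := by
        intro i hi
        conv_lhs => unfold code
        rw [D.div_M (mem_range.mp hi), D.mod_M (mem_range.mp hi)]
        have hi2 : (-1:ℝ)^i = (-1)^(i%2) := by
          conv_lhs => rw [← Nat.div_add_mod i 2]
          rw [pow_add, pow_mul]
          norm_num
        rw [hi2]
        have hm : i % 2 < 2 := Nat.mod_lt _ (by norm_num)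
        generalize i % 2 = e at *
        by_cases hc : D.code L Q = k0
        · rw [if_pos hc, hc]
          interval_cases d <;> interval_cases e <;> simp [hk'] <;> norm_num
        · rw [if_neg hc, if_neg (by omega)]
          ring
      rw [sum_congr rfl h2, ← mul_sum, sum_add_distrib, ← mul_sum, alt_sum _ (D.good L).even,
        sum_const, card_range, nsmul_eq_mul, mul_zero, add_zero]
      ring
    rw [sum_levels]
    simp only [h1]
    rw [← sum_mul, ih k0 (by omega), nn]
    push_cast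
    rw [pow_succ]
    field_simp

lemma vol_A (L m : ℕ) (hm : m ≤ 2^L) (hp : p ≠ ∞) : volume (D.A L m) = ENNReal.ofReal (m / 2^L) := by
  have hp1 : (1:ℝ≥0∞) ≤ p := Fact.out
  have hp0 : p ≠ 0 := (zero_lt_one.trans_le hp1).ne'
  have hq : 0 < p.toReal := ENNReal.toReal_pos hp0 hp
  have hn := D.nn_posR L
  have h1 := norm_sum_ind hp ({0} : Finset ℕ) (fun _ => D.A L m) (fun _ _ => D.A_measurable L m)
    (fun _ _ => vol_ne_top_of_sub (D.A_sub L m))
    (fun i hi j hj hij => by
      rw [mem_singleton] at hi hj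
      exact absurd (hi.trans hj.symm) hij) (fun _ => 1)
  rw [sum_singleton, sum_singleton, one_smul, abs_one, Real.one_rpow, one_mul] at h1
  have h2 := norm_sum_ind hp (range (D.nn L)) (fun j => D.eS L j) (fun j _ => D.measurable_eS L j)
      (fun j _ => D.vol_eS_ne L j) (fun i _ j _ hij => D.disj_eS hij)
      (fun j => if D.code L j < m then (1:ℝ) else 0)
  rw [← ind_A, h1] at h2
  have h3 : ∀ j ∈ range (D.nn L), |if D.code L j < m then (1:ℝ) else 0| ^ p.toReal * (volume (D.eS L j)).toReal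
      = (∑ k ∈ range m, if D.code L j = k then (1:ℝ) else 0) * (1 / D.nn L) := by
    intro j _
    rw [vol_eS, ENNReal.toReal_ofReal (by positivity), sum_ite_eq]
    simp only [mem_range]
    split_ifs
    · rw [abs_one, Real.one_rpow]
    · rw [abs_zero, Real.zero_rpow hq.ne']
  rw [sum_congr rfl h3, ← sum_mul, sum_comm, sum_congr rfl (fun k hk => D.count_eq L k (by
    have := mem_range.mp hk
    omega)), sum_const, card_range, nsmul_eq_mul] at h2
  rw [← ENNReal.ofReal_toReal (vol_ne_top_of_sub (D.A_sub L m)), h2]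
  congr 1
  field_simp

end Dat
end Pool.Agent.Q82.NB
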