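import Pool.Agent.Q82.NB7
set_option autoImplicit false
noncomputable section
namespace Pool.Agent.Q82.NB
open Finset MeasureTheory Filter Topology
open scoped ENNReal
set_option linter.unusedSectionVars false

namespace Dat
variable {p : ℝ≥0∞} [Fact (1 ≤ p)] (D : Dat p.toReal)

/-- preimage under theta in `[0,1)` -/
def pre (B : Set ℝ) : Set ℝ := Set.Ico (0:ℝ) 1 ∩ D.theta ⁻¹' B

lemma pre_measurable {B : Set ℝ} (hB : MeasurableSet B) : MeasurableSet (D.pre B) :=
  measurableSet_Ico.inter (D.theta_measurable hB)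

lemma pre_sub (B : Set ℝ) : D.pre B ⊆ Set.Ico (0:ℝ) 1 := Set.inter_subset_left

/-- closed span -/
def Z : Submodule ℝ (Lp ℝ p (volume : Measure ℝ)) := (D.V).topologicalClosure

lemma V_le_Z : D.V ≤ D.Z := Submodule.le_topologicalClosure _

lemma Z_closed : IsClosed (D.Z : Set (Lp ℝ p (volume : Measure ℝ))) :=
  Submodule.isClosed_topologicalClosure _

/-- approximating sets for `x` in `[0,1)` -/
def AA (x : ℝ) (L : ℕ) : Set ℝ := D.A L (⌊(2:ℝ)^L * x⌋₊ + 1)

lemma mem_AA {x : ℝ} (hx : 0 ≤ x) (L : ℕ) (t : ℝ) : t ∈ D.AA x L ↔ t ∈ Set.Ico (0:ℝ) 1 ∧ D.cc L t ≤ x := by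
  unfold AA A cc
  rw [Set.mem_ofPred_eq, Nat.lt_succ_iff, Nat.le_floor_iff (by positivity), div_le_iff₀ (by positivity)]
  rw [mul_comm x]

lemma AA_anti {x : ℝ} (hx : 0 ≤ x) : Antitone (D.AA x) := by
  intro L L' h t ht
  rw [mem_AA _ hx] at ht ⊢
  exact ⟨ht.1, (D.cc_mono t h).trans ht.2⟩

lemma AA_inter {x : ℝ} (hx : 0 ≤ x) : ⋂ L, D.AA x L = D.pre (Set.Iic x) := by
  ext t
  rw [Set.mem_iInter]
  unfold pre
  rw [Set.mem_inter_iff, Set.mem_preimage, Set.mem_Iic, theta_le_iff]
  constructor
  · intro h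
    exact ⟨((D.mem_AA hx 0 t).mp (h 0)).1, fun L => ((D.mem_AA hx L t).mp (h L)).2⟩
  · intro h L
    exact (D.mem_AA hx L t).mpr ⟨h.1, h.2 L⟩

lemma vol_AA (hp : p ≠ ∞) {x : ℝ} (hx : 0 ≤ x) (hx1 : x < 1) (L : ℕ) :
    volume (D.AA x L) = ENNReal.ofReal (((⌊(2:ℝ)^L * x⌋₊ : ℝ) + 1) / 2^L) := by
  unfold AA
  rw [D.vol_A L _ _ hp]
  · push_cast
    rfl
  · have h1 : ⌊(2:ℝ)^L * x⌋₊ < 2^L := by
      rw [Nat.floor_lt (by positivity)]
      have : (0:ℝ) < 2^L := by positivity
      push_cast
      nlinarith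
    omega

lemma vol_pre_Iic (hp : p ≠ ∞) {x : ℝ} (hx : 0 ≤ x) (hx1 : x < 1) :
    volume (D.pre (Set.Iic x)) = ENNReal.ofReal x := by
  have h1 := tendsto_measure_iInter_atTop (μ := (volume : Measure ℝ)) (s := D.AA x)
    (fun n => (D.A_measurable _ _).nullMeasurableSet) (D.AA_anti hx)
    ⟨0, vol_ne_top_of_sub (D.A_sub _ _)⟩
  rw [D.AA_inter hx] at h1
  have h2 : Tendsto (fun L : ℕ => ((⌊(2:ℝ)^L * x⌋₊ : ℝ) + 1) / 2^L) atTop (𝓝 x) := by
    have hz : Tendsto (fun L : ℕ => (1:ℝ) / 2^L) atTop (𝓝 0) := by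
      have := tendsto_pow_atTop_nhds_zero_of_lt_one (r := (1/2 : ℝ)) (by norm_num) (by norm_num)
      refine this.congr ?_
      intro L
      rw [one_div, inv_pow, one_div]
    apply tendsto_of_tendsto_of_tendsto_of_le_of_le (g := fun _ => x) (h := fun L => x + 1 / 2^L)
      tendsto_const_nhds
    · have := hz.const_add x
      rwa [add_zero] at this
    · intro L
      simp only
      rw [le_div_iff₀ (by positivity)]
      have := Nat.lt_floor_add_one ((2:ℝ)^L * x)
      nlinarith
    · intro L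
      simp only
      rw [add_div]
      have h3 := Nat.floor_le (a := (2:ℝ)^L * x) (by positivity)
      have : (⌊(2:ℝ)^L * x⌋₊ : ℝ) / 2^L ≤ x := by
        rw [div_le_iff₀ (by positivity)]
        linarith
      linarith
  have h3 : Tendsto (volume ∘ D.AA x) atTop (𝓝 (ENNReal.ofReal x)) := by
    refine (ENNReal.tendsto_ofReal h2).congr ?_
    intro L
    rw [Function.comp_apply, D.vol_AA hp hx hx1]
  exact tendsto_nhds_unique h1 h3

lemma pre_Iic_neg {x : ℝ} (hx : x < 0) : D.pre (Set.Iic x) = ∅ := by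
  ext t
  constructor
  · intro h
    have := D.theta_nonneg t
    have h2 : D.theta t ≤ x := h.2
    linarith
  · intro h; exact h.elim

lemma pre_Iic_ge {x : ℝ} (hx : 1 ≤ x) : D.pre (Set.Iic x) = Set.Ico (0:ℝ) 1 := by
  ext t
  constructor
  · intro h; exact h.1
  · intro h
    exact ⟨h, (D.theta_le_one t).trans hx⟩

/-- `theta` maps Lebesgue measure of `[0,1)` to Lebesgue measure of `(0,1)` -/
lemma theta_mp (hp : p ≠ ∞) : MeasurePreserving D.theta (volume.restrict (Set.Ico (0:ℝ) 1))
    (volume.restrict (Set.Ioo (0:ℝ) 1)) := by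
  refine ⟨D.theta_measurable, ?_⟩
  have : IsFiniteMeasure (Measure.map D.theta (volume.restrict (Set.Ico (0:ℝ) 1))) := by
    have : IsFiniteMeasure (volume.restrict (Set.Ico (0:ℝ) 1)) := ⟨by simp⟩
    exact Measure.isFiniteMeasure_map _ _
  apply Measure.ext_of_Iic
  intro x
  rw [Measure.map_apply D.theta_measurable measurableSet_Iic,
    Measure.restrict_apply (D.theta_measurable measurableSet_Iic),
    Measure.restrict_apply measurableSet_Iic, Set.inter_comm]
  change volume (D.pre (Set.Iic x)) = _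
  rcases lt_or_ge x 0 with h | h
  · rw [D.pre_Iic_neg h, measure_empty]
    symm
    have : Set.Iic x ∩ Set.Ioo (0:ℝ) 1 = ∅ := by
      ext t
      simp only [Set.mem_inter_iff, Set.mem_Iic, Set.mem_Ioo, Set.mem_empty_iff_false, iff_false]
      intro h2
      linarith [h2.1, h2.2.1]
    rw [this, measure_empty]
  · rcases lt_or_ge x 1 with h1 | h1
    · rw [D.vol_pre_Iic hp h h1]
      have : Set.Iic x ∩ Set.Ioo (0:ℝ) 1 = Set.Ioc 0 x := by
        ext t
        simp only [Set.mem_inter_iff, Set.mem_Iic, Set.mem_Ioo, Set.mem_Ioc]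
        constructor
        · intro h2; exact ⟨h2.2.1, h2.1⟩
        · intro h2; exact ⟨h2.2, h2.1, by linarith [h2.2]⟩
      rw [this, Real.volume_Ioc, sub_zero]
    · rw [D.pre_Iic_ge h1]
      have : Set.Iic x ∩ Set.Ioo (0:ℝ) 1 = Set.Ioo 0 1 := by
        ext t
        simp only [Set.mem_inter_iff, Set.mem_Iic, Set.mem_Ioo]
        constructor
        · intro h2; exact h2.2
        · intro h2; exact ⟨by linarith [h2.2], h2⟩
      rw [this, Real.volume_Ico, Real.volume_Ioo]

lemma ind_I_mem : ind p (Set.Ico (0:ℝ) 1) ∈ D.Z := by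
  apply D.V_le_Z
  have h : D.eS 0 0 = Set.Ico (0:ℝ) 1 := by
    unfold eS nn
    simp
  rw [← h]
  exact Submodule.subset_span ⟨0, rfl⟩

lemma ind_empty : ind p (∅ : Set ℝ) = 0 := by
  have h := ind_Ico_add p (le_refl (0:ℝ)) (le_refl (0:ℝ))
  rw [Set.Ico_self] at h
  exact left_eq_add.mp h.symm

lemma ind_diff {A B : Set ℝ} (hA : MeasurableSet A) (hB : MeasurableSet B) (hfB : volume B ≠ ∞)
    (h : A ⊆ B) : ind p (B \ A) = ind p B - ind p A := by
  classical
  have hfA : volume A ≠ ∞ := ne_top_of_le_ne_top hfB (measure_mono h)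
  have hfd : volume (B \ A) ≠ ∞ := ne_top_of_le_ne_top hfB (measure_mono Set.sdiff_subset)
  apply Lp.ext
  filter_upwards [Lp.coeFn_sub (ind p B) (ind p A), ind_coeFn p hA hfA, ind_coeFn p hB hfB,
    ind_coeFn p (hB.diff hA) hfd] with x e1 e2 e3 e4
  rw [e1, Pi.sub_apply, e2, e3, e4]
  simp only [Set.indicator_apply, Set.mem_sdiff]
  by_cases hx1 : x ∈ A
  · simp [hx1, h hx1]
  · by_cases hx2 : x ∈ B <;> simp [hx1, hx2]

lemma ind_union {A B : Set ℝ} (hA : MeasurableSet A) (hB : MeasurableSet B) (hfA : volume A ≠ ∞)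
    (hfB : volume B ≠ ∞) (h : Disjoint A B) : ind p (A ∪ B) = ind p A + ind p B := by
  classical
  have hfd : volume (A ∪ B) ≠ ∞ := ne_top_of_le_ne_top (ENNReal.add_ne_top.mpr ⟨hfA, hfB⟩)
    (measure_union_le _ _)
  apply Lp.ext
  filter_upwards [Lp.coeFn_add (ind p A) (ind p B), ind_coeFn p hA hfA, ind_coeFn p hB hfB,
    ind_coeFn p (hA.union hB) hfd] with x e1 e2 e3 e4
  rw [e1, Pi.add_apply, e2, e3, e4]
  simp only [Set.indicator_apply, Set.mem_union]
  by_cases hx1 : x ∈ A
  · have : x ∉ B := Set.disjoint_left.mp h hx1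
    simp [hx1, this]
  · by_cases hx2 : x ∈ B <;> simp [hx1, hx2]

/-- preimages of Borel sets are in the closed span -/
lemma ind_pre_mem (hp : p ≠ ∞) {B : Set ℝ} (hB : MeasurableSet B) : ind p (D.pre B) ∈ D.Z := by
  induction B, hB using MeasurableSpace.induction_on_inter
    (h_eq := (BorelSpace.measurable_eq (α := ℝ)).trans (borel_eq_generateFrom_Iic ℝ))
    (h_inter := isPiSystem_Iic) with
  | empty =>
    have : D.pre ∅ = ∅ := by unfold pre; simp
    rw [this, ind_empty]
    exact Submodule.zero_mem _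
  | basic B hB =>
    obtain ⟨x, rfl⟩ := hB
    rcases lt_or_ge x 0 with h | h
    · rw [D.pre_Iic_neg h, ind_empty]
      exact Submodule.zero_mem _
    · rcases lt_or_ge x 1 with h1 | h1
      · have hsub : ∀ L, D.pre (Set.Iic x) ⊆ D.AA x L := by
          intro L
          rw [← D.AA_inter h]
          exact Set.iInter_subset _ L
        have hsd : ∀ L, symmDiff (D.AA x L) (D.pre (Set.Iic x)) = D.AA x L \ D.pre (Set.Iic x) := by
          intro L
          have : D.pre (Set.Iic x) \ D.AA x L = ∅ := Set.sdiff_eq_empty.mpr (hsub L)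
          rw [Set.symmDiff_def, this, Set.union_empty]
        have ht := ind_tendsto (p := p) hp (A := D.AA x) (B := D.pre (Set.Iic x))
          (fun L => D.A_measurable _ _) (D.pre_measurable measurableSet_Iic)
          (fun L => vol_ne_top_of_sub (D.A_sub _ _)) (vol_ne_top_of_sub (D.pre_sub _))
          (by
            intro L L' hL
            simp only [hsd]
            exact Set.sdiff_subset_sdiff_left (D.AA_anti h hL))
          (by
            simp only [hsd]
            rw [← D.AA_inter h]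
            ext t
            simp only [Set.mem_iInter, Set.mem_sdiff, Set.mem_empty_iff_false, iff_false]
            intro h3
            exact (h3 0).2 fun L => (h3 L).1)
        exact D.Z_closed.mem_of_tendsto ht (Eventually.of_forall fun L => D.V_le_Z (D.ind_A_mem _ _))
      · rw [D.pre_Iic_ge h1]
        exact D.ind_I_mem
  | compl B hB ih =>
    have : D.pre Bᶜ = Set.Ico (0:ℝ) 1 \ D.pre B := by
      ext t
      unfold pre
      simp only [Set.mem_inter_iff, Set.mem_preimage, Set.mem_compl_iff, Set.mem_sdiff, not_and]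
      tauto
    rw [this, ind_diff (D.pre_measurable hB) measurableSet_Ico (vol_ne_top_of_sub le_rfl) (D.pre_sub B)]
    exact Submodule.sub_mem _ D.ind_I_mem ih
  | iUnion B hd hB ih =>
    set C : ℕ → Set ℝ := fun n => D.pre (⋃ i ∈ Set.Iio n, B i) with hC
    have hCm : ∀ n, MeasurableSet (⋃ i ∈ Set.Iio n, B i) := fun n =>
      MeasurableSet.biUnion (Set.to_countable _) (fun i _ => hB i)
    have hmem : ∀ n, ind p (C n) ∈ D.Z := by
      intro n
      induction n with
      | zero =>
        have : C 0 = ∅ := by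
          rw [hC]
          simp only
          unfold pre
          simp
        rw [this, ind_empty]
        exact Submodule.zero_mem _
      | succ n ih' =>
        have h1 : C (n+1) = C n ∪ D.pre (B n) := by
          ext t
          simp only [hC, pre, Set.mem_inter_iff, Set.mem_preimage, Set.mem_union, Set.mem_iUnion,
            Set.mem_Iio, exists_prop]
          constructor
          · rintro ⟨h1, i, h2, h3⟩
            rcases Nat.lt_succ_iff_lt_or_eq.mp h2 with h4 | h4
            · exact Or.inl ⟨h1, i, h4, h3⟩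
            · rw [h4] at h3
              exact Or.inr ⟨h1, h3⟩
          · rintro (⟨h1, i, h2, h3⟩ | ⟨h1, h2⟩)
            · exact ⟨h1, i, by omega, h3⟩
            · exact ⟨h1, n, by omega, h2⟩
        have h2 : Disjoint (C n) (D.pre (B n)) := by
          rw [Set.disjoint_left]
          intro t ht ht'
          simp only [hC, pre, Set.mem_inter_iff, Set.mem_preimage, Set.mem_iUnion,
            Set.mem_Iio, exists_prop] at ht
          obtain ⟨_, i, hi, hti⟩ := ht
          exact Set.disjoint_left.mp (hd (by omega : i ≠ n)) hti ht'.2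
        rw [h1, ind_union (D.pre_measurable (hCm n)) (D.pre_measurable (hB n))
          (vol_ne_top_of_sub (D.pre_sub _)) (vol_ne_top_of_sub (D.pre_sub _)) h2]
        exact Submodule.add_mem _ ih' (ih n)
    have hmono : ∀ n m, n ≤ m → C n ⊆ C m := by
      intro n m hnm t ht
      simp only [hC, pre, Set.mem_inter_iff, Set.mem_preimage, Set.mem_iUnion,
            Set.mem_Iio, exists_prop] at ht ⊢
      obtain ⟨h1, i, h2, h3⟩ := ht
      exact ⟨h1, i, by omega, h3⟩
    have hCsub : ∀ n, C n ⊆ D.pre (⋃ i, B i) := by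
      intro n t ht
      simp only [hC, pre, Set.mem_inter_iff, Set.mem_preimage, Set.mem_iUnion,
            Set.mem_Iio, exists_prop] at ht ⊢
      obtain ⟨h1, i, _, h3⟩ := ht
      exact ⟨h1, i, h3⟩
    have hsd : ∀ n, symmDiff (C n) (D.pre (⋃ i, B i)) = D.pre (⋃ i, B i) \ C n := by
      intro n
      have : C n \ D.pre (⋃ i, B i) = ∅ := Set.sdiff_eq_empty.mpr (hCsub n)
      rw [Set.symmDiff_def, this, Set.empty_union]
    have ht := ind_tendsto (p := p) hp (A := C) (B := D.pre (⋃ i, B i))
      (fun n => D.pre_measurable (hCm n)) (D.pre_measurable (MeasurableSet.iUnion hB))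
      (fun n => vol_ne_top_of_sub (D.pre_sub _)) (vol_ne_top_of_sub (D.pre_sub _))
      (by
        intro n m hnm
        simp only [hsd]
        exact Set.sdiff_subset_sdiff_right (hmono n m hnm))
      (by
        simp only [hsd]
        ext t
        simp only [Set.mem_iInter, Set.mem_sdiff, Set.mem_empty_iff_false, iff_false, not_forall]
        by_cases h : t ∈ D.pre (⋃ i, B i)
        · have h' := h
          simp only [pre, Set.mem_inter_iff, Set.mem_preimage, Set.mem_iUnion] at h'
          obtain ⟨h1, i, h2⟩ := h'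
          refine ⟨i+1, fun h3 => h3.2 ?_⟩
          simp only [hC, pre, Set.mem_inter_iff, Set.mem_preimage, Set.mem_iUnion,
            Set.mem_Iio, exists_prop]
          exact ⟨h1, i, by omega, h2⟩
        · exact ⟨0, fun h3 => h h3.1⟩)
    exact D.Z_closed.mem_of_tendsto ht (Eventually.of_forall hmem)

end Dat
end Pool.Agent.Q82.NB
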