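import Pool.Agent.Q82.NB8
set_option autoImplicit false
noncomputable section
namespace Pool.Agent.Q82.NB
open Finset MeasureTheory Filter Topology
open scoped ENNReal NNReal
set_option linter.unusedSectionVars false

section
variable {p : ℝ≥0∞} [Fact (1 ≤ p)]

/-- extension by zero -/
lemma ext0_memLp {s : Set ℝ} (hs : MeasurableSet s) (g : Lp ℝ p ((volume : Measure ℝ).restrict s)) :
    MemLp (s.indicator (g : ℝ → ℝ)) p (volume : Measure ℝ) :=
  (memLp_indicator_iff_restrict hs).mpr (Lp.memLp g)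

def ext0 {s : Set ℝ} (hs : MeasurableSet s) :
    Lp ℝ p ((volume : Measure ℝ).restrict s) →ₗᵢ[ℝ] Lp ℝ p (volume : Measure ℝ) where
  toFun g := (ext0_memLp hs g).toLp _
  map_add' g h := by
    apply Lp.ext
    have h1 := (ae_restrict_iff' hs).mp (Lp.coeFn_add g h)
    filter_upwards [(ext0_memLp hs (g+h)).coeFn_toLp, (ext0_memLp hs g).coeFn_toLp,
      (ext0_memLp hs h).coeFn_toLp, h1,
      Lp.coeFn_add ((ext0_memLp hs g).toLp _) ((ext0_memLp hs h).toLp _)] with x e1 e2 e3 e4 e5
    rw [e5, Pi.add_apply, e1, e2, e3]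
    by_cases hx : x ∈ s
    · rw [Set.indicator_of_mem hx, Set.indicator_of_mem hx, Set.indicator_of_mem hx, e4 hx,
        Pi.add_apply]
    · rw [Set.indicator_of_notMem hx, Set.indicator_of_notMem hx, Set.indicator_of_notMem hx,
        add_zero]
  map_smul' c g := by
    apply Lp.ext
    have h1 := (ae_restrict_iff' hs).mp (Lp.coeFn_smul c g)
    filter_upwards [(ext0_memLp hs (c • g)).coeFn_toLp, (ext0_memLp hs g).coeFn_toLp, h1,
      Lp.coeFn_smul c ((ext0_memLp hs g).toLp _)] with x e1 e2 e4 e5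
    rw [RingHom.id_apply, e5, Pi.smul_apply, e1, e2]
    by_cases hx : x ∈ s
    · rw [Set.indicator_of_mem hx, Set.indicator_of_mem hx, e4 hx, Pi.smul_apply]
    · rw [Set.indicator_of_notMem hx, Set.indicator_of_notMem hx, smul_zero]
  norm_map' g := by
    change ‖(ext0_memLp hs g).toLp _‖ = ‖g‖
    rw [Lp.norm_toLp, eLpNorm_indicator_eq_eLpNorm_restrict hs, Lp.norm_def]

lemma ext0_coeFn {s : Set ℝ} (hs : MeasurableSet s) (g : Lp ℝ p ((volume : Measure ℝ).restrict s)) :
    (ext0 hs g : ℝ → ℝ) =ᵐ[volume] s.indicator (g : ℝ → ℝ) := (ext0_memLp hs g).coeFn_toLp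

/-- change of density -/
lemma dens_eLpNorm (hp : p ≠ ∞) {μ : Measure ℝ} {w : ℝ → ℝ≥0} (hw : Measurable w) {g : ℝ → ℝ}
    (hg : Measurable g) :
    eLpNorm (fun x => (w x : ℝ) ^ (1 / p.toReal) * g x) p μ =
      eLpNorm g p (μ.withDensity (fun x => (w x : ℝ≥0∞))) := by
  have hp1 : (1:ℝ≥0∞) ≤ p := Fact.out
  have hp0 : p ≠ 0 := (zero_lt_one.trans_le hp1).ne'
  have hq : 0 < p.toReal := ENNReal.toReal_pos hp0 hp
  rw [eLpNorm_eq_lintegral_rpow_enorm_toReal hp0 hp, eLpNorm_eq_lintegral_rpow_enorm_toReal hp0 hp]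
  congr 1
  have hwm : Measurable (fun x => (w x : ℝ≥0∞)) := hw.coe_nnreal_ennreal
  rw [lintegral_withDensity_eq_lintegral_mul _ hwm (hg.enorm.pow_const _)]
  apply lintegral_congr
  intro x
  rw [Pi.mul_apply, enorm_mul, ENNReal.mul_rpow_of_nonneg _ _ hq.le]
  congr 1
  rw [Real.enorm_eq_ofReal (by positivity), ← ENNReal.ofReal_rpow_of_nonneg (by positivity) (by positivity),
    ENNReal.ofReal_coe_nnreal, ← ENNReal.rpow_mul, one_div_mul_cancel hq.ne', ENNReal.rpow_one]

variable {μ : Measure ℝ} {w : ℝ → ℝ≥0}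

lemma dens_memLp (hp : p ≠ ∞) (hw : Measurable w)
    (g : Lp ℝ p (μ.withDensity (fun x => (w x : ℝ≥0∞)))) :
    MemLp (fun x => (w x : ℝ) ^ (1 / p.toReal) * g x) p μ := by
  have hgm : Measurable (g : ℝ → ℝ) := (Lp.stronglyMeasurable g).measurable
  refine ⟨?_, ?_⟩
  · exact ((hw.coe_nnreal_real.pow_const _).mul hgm).aestronglyMeasurable
  · rw [dens_eLpNorm hp hw hgm]
    exact (Lp.memLp g).2

def dens (hp : p ≠ ∞) (hw : Measurable w) :
    Lp ℝ p (μ.withDensity (fun x => (w x : ℝ≥0∞))) →ₗᵢ[ℝ] Lp ℝ p μ where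
  toFun g := (dens_memLp hp hw g).toLp _
  map_add' g h := by
    have hq : 0 < p.toReal := ENNReal.toReal_pos (zero_lt_one.trans_le (Fact.out : 1 ≤ p)).ne' hp
    apply Lp.ext
    have h1 := (ae_withDensity_iff (measurable_coe_nnreal_ennreal.comp hw)).mp (Lp.coeFn_add g h)
    filter_upwards [(dens_memLp hp hw (g+h)).coeFn_toLp, (dens_memLp hp hw g).coeFn_toLp,
      (dens_memLp hp hw h).coeFn_toLp, h1,
      Lp.coeFn_add ((dens_memLp hp hw g).toLp _) ((dens_memLp hp hw h).toLp _)] with x e1 e2 e3 e4 e5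
    rw [e5, Pi.add_apply, e1, e2, e3]
    by_cases hx : w x = 0
    · rw [hx, NNReal.coe_zero, Real.zero_rpow (by positivity)]
      ring
    · rw [e4 (by simpa using hx), Pi.add_apply]
      ring
  map_smul' c g := by
    have hq : 0 < p.toReal := ENNReal.toReal_pos (zero_lt_one.trans_le (Fact.out : 1 ≤ p)).ne' hp
    apply Lp.ext
    have h1 := (ae_withDensity_iff (measurable_coe_nnreal_ennreal.comp hw)).mp (Lp.coeFn_smul c g)
    filter_upwards [(dens_memLp hp hw (c • g)).coeFn_toLp, (dens_memLp hp hw g).coeFn_toLp, h1,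
      Lp.coeFn_smul c ((dens_memLp hp hw g).toLp _)] with x e1 e2 e4 e5
    rw [RingHom.id_apply, e5, Pi.smul_apply, e1, e2]
    by_cases hx : w x = 0
    · rw [hx, NNReal.coe_zero, Real.zero_rpow (by positivity)]
      simp
    · rw [e4 (by simpa using hx), Pi.smul_apply, smul_eq_mul, smul_eq_mul]
      ring
  norm_map' g := by
    change ‖(dens_memLp hp hw g).toLp _‖ = ‖g‖
    rw [Lp.norm_toLp, dens_eLpNorm hp hw (Lp.stronglyMeasurable g).measurable, Lp.norm_def]

end

/-- the logit function -/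
def phi (y : ℝ) : ℝ := Real.log y - Real.log (1 - y)
def phi' (y : ℝ) : ℝ := 1 / y + 1 / (1 - y)

lemma phi_deriv {y : ℝ} (hy : y ∈ Set.Ioo (0:ℝ) 1) : HasDerivAt phi (phi' y) y := by
  have h1 := Real.hasDerivAt_log hy.1.ne'
  have h2 : HasDerivAt (fun y : ℝ => 1 - y) (-1) y := by
    simpa using (hasDerivAt_id y).const_sub 1
  have h3 := h2.log (by have := hy.2; linarith)
  have h4 := h1.sub h3
  have e : phi' y = y⁻¹ - -1 / (1 - y) := by
    unfold phi'
    ring
  rw [e]
  exact h4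

lemma phi_inj : Set.InjOn phi (Set.Ioo (0:ℝ) 1) := by
  have hm : StrictMonoOn phi (Set.Ioo (0:ℝ) 1) := by
    intro a ha b hb hab
    unfold phi
    have h1 := Real.log_lt_log ha.1 hab
    have h2 := Real.log_lt_log (show 0 < 1 - b by linarith [hb.2]) (show 1 - b < 1 - a by linarith)
    linarith
  exact hm.injOn

lemma phi_image : phi '' (Set.Ioo (0:ℝ) 1) = Set.univ := by
  apply Set.eq_univ_of_forall
  intro x
  have he : 0 < Real.exp x := Real.exp_pos x
  have h1 : 0 < 1 + Real.exp x := by linarith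
  refine ⟨Real.exp x / (1 + Real.exp x), ⟨by positivity, by rw [div_lt_one h1]; linarith⟩, ?_⟩
  unfold phi
  have h2 : 1 - Real.exp x / (1 + Real.exp x) = 1 / (1 + Real.exp x) := by
    field_simp
    ring
  rw [h2, Real.log_div he.ne' h1.ne', Real.log_div one_ne_zero h1.ne', Real.log_exp, Real.log_one]
  ring

lemma phi_measurable : Measurable phi :=
  Real.measurable_log.sub (Real.measurable_log.comp (measurable_const.sub measurable_id))

def wt (y : ℝ) : ℝ≥0 := Real.toNNReal |phi' y|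

lemma wt_measurable : Measurable wt := by
  unfold wt phi'
  have : Measurable (fun y : ℝ => 1 / y + 1 / (1 - y)) :=
    (measurable_const.div measurable_id).add (measurable_const.div (measurable_const.sub measurable_id))
  have h2 : Measurable (fun y : ℝ => |1 / y + 1 / (1 - y)|) := continuous_abs.measurable.comp this
  exact h2.real_toNNReal

lemma phi_mp : MeasurePreserving phi
    (((volume : Measure ℝ).restrict (Set.Ioo (0:ℝ) 1)).withDensity (fun x => (wt x : ℝ≥0∞)))
    (volume : Measure ℝ) := by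
  refine ⟨phi_measurable, ?_⟩
  have h := map_withDensity_abs_det_fderiv_eq_addHaar (μ := (volume : Measure ℝ))
    (s := Set.Ioo (0:ℝ) 1) (f := phi)
    (f' := fun y => ContinuousLinearMap.toSpanSingleton ℝ (phi' y))
    measurableSet_Ioo.nullMeasurableSet
    (fun y hy => (phi_deriv hy).hasFDerivAt.hasFDerivWithinAt) phi_inj
  rw [phi_image, Measure.restrict_univ] at h
  simp only [ContinuousLinearMap.det_toSpanSingleton] at h
  exact h

section final
variable {p : ℝ≥0∞} [Fact (1 ≤ p)] (D : Dat p.toReal)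

/-- composition with `theta`, extended by zero -/
def Dat.up (hp : p ≠ ∞) : Lp ℝ p ((volume : Measure ℝ).restrict (Set.Ioo (0:ℝ) 1)) →ₗᵢ[ℝ]
    Lp ℝ p (volume : Measure ℝ) :=
  (ext0 (p := p) (measurableSet_Ico : MeasurableSet (Set.Ico (0:ℝ) 1))).comp
    (Lp.compMeasurePreservingₗᵢ ℝ D.theta (D.theta_mp hp))

lemma Dat.up_mem (hp : p ≠ ∞) (g : Lp ℝ p ((volume : Measure ℝ).restrict (Set.Ioo (0:ℝ) 1))) :
    D.up hp g ∈ D.Z := by
  induction g using Lp.induction hp with
  | indicatorConst c hs hμs =>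
    rename_i s
    rw [Lp.simpleFunc.coe_indicatorConst]
    have h : D.up hp (indicatorConstLp p hs hμs.ne c) = c • ind p (D.pre s) := by
      apply Lp.ext
      have h1 : (Lp.compMeasurePreservingₗᵢ ℝ D.theta (D.theta_mp hp)) (indicatorConstLp p hs hμs.ne c) =
        indicatorConstLp p (hs.preimage (D.theta_mp hp).measurable)
        (by rw [(D.theta_mp hp).measure_preimage hs.nullMeasurableSet]; exact hμs.ne) c := rfl
      have h2 := (ae_restrict_iff' (measurableSet_Ico : MeasurableSet (Set.Ico (0:ℝ) 1))).mp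
        (indicatorConstLp_coeFn (p := p) (μ := volume.restrict (Set.Ico (0:ℝ) 1))
          (hs := hs.preimage (D.theta_mp hp).measurable)
          (hμs := by rw [(D.theta_mp hp).measure_preimage hs.nullMeasurableSet]; exact hμs.ne) (c := c))
      filter_upwards [ext0_coeFn (p := p) (measurableSet_Ico : MeasurableSet (Set.Ico (0:ℝ) 1))
        ((Lp.compMeasurePreservingₗᵢ ℝ D.theta (D.theta_mp hp)) (indicatorConstLp p hs hμs.ne c)),
        Lp.coeFn_smul c (ind p (D.pre s)), ind_coeFn p (D.pre_measurable hs)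
          (vol_ne_top_of_sub (D.pre_sub s)), h2] with x e1 e2 e3 e4
      change ext0 (p := p) (measurableSet_Ico : MeasurableSet (Set.Ico (0:ℝ) 1))
        ((Lp.compMeasurePreservingₗᵢ ℝ D.theta (D.theta_mp hp)) (indicatorConstLp p hs hμs.ne c)) x = _
      rw [e1, e2, Pi.smul_apply, e3]
      by_cases hx : x ∈ Set.Ico (0:ℝ) 1
      · rw [Set.indicator_of_mem hx, h1, e4 hx]
        by_cases hx2 : D.theta x ∈ s
        · rw [Set.indicator_of_mem (show x ∈ D.theta ⁻¹' s from hx2),
            Set.indicator_of_mem (show x ∈ D.pre s from ⟨hx, hx2⟩), smul_eq_mul, mul_one]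
        · rw [Set.indicator_of_notMem (show x ∉ D.theta ⁻¹' s from hx2),
            Set.indicator_of_notMem (show x ∉ D.pre s from fun h => hx2 h.2), smul_zero]
      · rw [Set.indicator_of_notMem hx, Set.indicator_of_notMem (show x ∉ D.pre s from fun h => hx h.1),
          smul_zero]
    rw [h]
    exact Submodule.smul_mem _ _ (D.ind_pre_mem hp hs)
  | add hf hg hd h1 h2 =>
    rw [map_add]
    exact Submodule.add_mem _ h1 h2
  | isClosed =>
    exact D.Z_closed.preimage (D.up hp).continuous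

/-- the isometric copy of `L_p(ℝ)` -/
def Dat.iso (hp : p ≠ ∞) : Lp ℝ p (volume : Measure ℝ) →ₗᵢ[ℝ] Lp ℝ p (volume : Measure ℝ) :=
  (D.up hp).comp ((dens (p := p) hp wt_measurable).comp (Lp.compMeasurePreservingₗᵢ ℝ phi phi_mp))

lemma Dat.iso_mem (hp : p ≠ ∞) (g : Lp ℝ p (volume : Measure ℝ)) : D.iso hp g ∈ D.Z :=
  D.up_mem hp _

end final

end Pool.Agent.Q82.NB
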