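import Mathlib

/-! Weighted area integrals on the unit disc, a Hardy type inequality for differences
`f z - f (ρ z)`. -/

set_option autoImplicit false

namespace Pool.Agent.Q82.OC

open MeasureTheory Metric Set Complex Filter Topology
open scoped ENNReal

/-- the open unit disc -/
abbrev D : Set ℂ := ball (0 : ℂ) 1

/-- the weight `(1 - |z|) ^ s` -/
noncomputable def wt (s : ℝ) (z : ℂ) : ℝ≥0∞ := ENNReal.ofReal ((1 - ‖z‖) ^ s)

theorem measurable_wt (s : ℝ) : Measurable (wt s) := by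
  unfold wt
  fun_prop

/-- substitution `w = t z` -/
theorem lintegral_smul_eq {t : ℝ} (ht : 0 < t) (G : ℂ → ℝ≥0∞) (hG : Measurable G) :
    ∫⁻ z, G ((t : ℂ) * z) = ENNReal.ofReal ((t ^ 2)⁻¹) * ∫⁻ w, G w := by
  have h1 := Measure.map_addHaar_smul (E := ℂ) volume ht.ne'
  have h2 : ∫⁻ w, G w ∂(Measure.map (fun z : ℂ => t • z) volume) = ∫⁻ z, G (t • z) :=
    lintegral_map hG (measurable_const_smul t)
  have h3 : ∀ z : ℂ, t • z = (t : ℂ) * z := fun z => by simp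
  simp only [h3] at h2
  rw [← h2]
  have h4 : Measure.map (fun z : ℂ => (t : ℂ) * z) volume = ENNReal.ofReal |(t ^ 2)⁻¹| • volume := by
    have : (fun z : ℂ => (t : ℂ) * z) = fun z => t • z := by ext z; simp
    rw [this, h1]
    simp
  rw [h4, lintegral_smul_measure, abs_of_pos (by positivity), smul_eq_mul]

/-- Hölder on an interval -/
theorem lintegral_rpow_le {p : ℝ} (hp : 1 < p) {ρ : ℝ} (hρ : ρ < 1) (φ : ℝ → ℝ≥0∞)
    (hφ : Measurable φ) :
    (∫⁻ t in Ioc ρ 1, φ t) ^ p ≤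
      ENNReal.ofReal ((1 - ρ) ^ (p - 1)) * ∫⁻ t in Ioc ρ 1, φ t ^ p := by
  have hpq : p.HolderConjugate (p / (p - 1)) := Real.HolderConjugate.conjExponent hp
  have h := ENNReal.lintegral_mul_le_Lp_mul_Lq (volume.restrict (Ioc ρ 1)) hpq
    (f := φ) (g := fun _ => 1) hφ.aemeasurable aemeasurable_const
  simp only [Pi.mul_apply, mul_one, ENNReal.one_rpow, lintegral_const, one_mul] at h
  have h2 : (volume.restrict (Ioc ρ 1)) univ = ENNReal.ofReal (1 - ρ) := by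
    simp
  rw [h2] at h
  have hp0 : 0 < p := by linarith
  have h3 := ENNReal.rpow_le_rpow h hp0.le
  rw [ENNReal.mul_rpow_of_nonneg _ _ hp0.le, ← ENNReal.rpow_mul, ← ENNReal.rpow_mul,
    one_div_mul_cancel hp0.ne', ENNReal.rpow_one] at h3
  have h4 : 1 / (p / (p - 1)) * p = p - 1 := by
    have : p - 1 ≠ 0 := by linarith
    field_simp
  rw [h4, ENNReal.ofReal_rpow_of_pos (by linarith)] at h3
  rw [mul_comm]
  exact h3

/-- the fundamental theorem of calculus along a radius -/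
theorem enorm_sub_le {f : ℂ → ℂ} (hf : DifferentiableOn ℂ f D) {ρ : ℝ} (h0 : 0 ≤ ρ) (h1 : ρ < 1)
    {z : ℂ} (hz : z ∈ D) :
    ‖f z - f (ρ * z)‖ₑ ≤ ∫⁻ t in Ioc ρ 1, ‖deriv f (t * z)‖ₑ := by
  have hz1 : ‖z‖ < 1 := by simpa using hz
  have hmem : ∀ t ∈ uIcc ρ 1, (t : ℂ) * z ∈ D := by
    intro t ht
    rw [uIcc_of_le h1.le] at ht
    rw [mem_ball_zero_iff, norm_mul, Complex.norm_real, Real.norm_of_nonneg (h0.trans ht.1)]
    nlinarith [norm_nonneg z, ht.2]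
  have hd : ∀ t ∈ uIcc ρ 1, HasDerivAt (fun t : ℝ => f (t * z)) (deriv f (t * z) * z) t := by
    intro t ht
    have h2 : HasDerivAt f (deriv f ((t : ℂ) * z)) ((t : ℂ) * z) :=
      (hf.differentiableAt (isOpen_ball.mem_nhds (hmem t ht))).hasDerivAt
    have h3 : HasDerivAt (fun s : ℂ => s * z) z (t : ℂ) := by
      simpa using (hasDerivAt_id (t : ℂ)).mul_const z
    have h4 := HasDerivAt.comp (t : ℂ) h2 h3
    exact h4.comp_ofReal
  have hcont : ContinuousOn (fun t : ℝ => deriv f (t * z) * z) (uIcc ρ 1) := by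
    have h5 : ContinuousOn (deriv f) D := (hf.deriv isOpen_ball).continuousOn
    have h6 : ContinuousOn (fun t : ℝ => deriv f (t * z)) (uIcc ρ 1) :=
      h5.comp (by fun_prop) (fun t ht => hmem t ht)
    exact h6.mul continuousOn_const
  have h := intervalIntegral.integral_eq_sub_of_hasDerivAt hd hcont.intervalIntegrable
  simp only [ofReal_one, one_mul] at h
  rw [← h, intervalIntegral.integral_of_le h1.le]
  refine (enorm_integral_le_lintegral_enorm _).trans ?_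
  refine lintegral_mono fun t => ?_
  rw [enorm_mul]
  have : ‖z‖ₑ ≤ 1 := by
    rw [← ofReal_norm_eq_enorm]
    exact ENNReal.ofReal_le_one.2 hz1.le
  calc ‖deriv f (t * z)‖ₑ * ‖z‖ₑ ≤ ‖deriv f (t * z)‖ₑ * 1 := by gcongr
    _ = _ := mul_one _


/-- the elementary weight inequality -/
theorem weight_le {p ρ x : ℝ} (hp : 2 ≤ p) (h0 : 0 ≤ ρ) (h1 : ρ < 1) (hx0 : 0 ≤ x) (hx1 : x < 1) :
    (1 - x) ^ (p - 1) * (1 - ρ * x) ^ (-p) * (1 - ρ) ^ (p - 1) ≤ (1 - x) ^ (p - 2) := by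
  have a1 : 0 < 1 - x := by linarith
  have a2 : 0 < 1 - ρ * x := by nlinarith
  have a3 : 0 < 1 - ρ := by linarith
  have e1 : (1 - ρ) ^ (p - 1) ≤ (1 - ρ * x) ^ (p - 1) :=
    Real.rpow_le_rpow a3.le (by nlinarith) (by linarith)
  have e2 : (1 - x) ^ (p - 1) = (1 - x) ^ (p - 2) * (1 - x) := by
    rw [← Real.rpow_add_one a1.ne']
    congr 1
    ring
  have e3 : (1 - ρ * x) ^ (-p) * (1 - ρ * x) ^ (p - 1) = (1 - ρ * x)⁻¹ := by
    rw [← Real.rpow_add a2, ← Real.rpow_neg_one]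
    congr 1
    ring
  have e4 : (1 - x) * (1 - ρ * x)⁻¹ ≤ 1 := by
    rw [← div_eq_mul_inv, div_le_one a2]
    nlinarith
  have b1 : 0 ≤ (1 - x) ^ (p - 1) := Real.rpow_nonneg a1.le _
  have b2 : 0 ≤ (1 - ρ * x) ^ (-p) := Real.rpow_nonneg a2.le _
  have b3 : 0 ≤ (1 - x) ^ (p - 2) := Real.rpow_nonneg a1.le _
  calc (1 - x) ^ (p - 1) * (1 - ρ * x) ^ (-p) * (1 - ρ) ^ (p - 1)
      ≤ (1 - x) ^ (p - 1) * (1 - ρ * x) ^ (-p) * (1 - ρ * x) ^ (p - 1) := by gcongr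
    _ = (1 - x) ^ (p - 2) * ((1 - x) * (1 - ρ * x)⁻¹) := by
        rw [mul_assoc, e3, e2]; ring
    _ ≤ (1 - x) ^ (p - 2) * 1 := by gcongr
    _ = _ := mul_one _

/-- scaled integrals over the disc -/
theorem scaled_le {s : ℝ} (hs : 0 ≤ s) {t : ℝ} (ht : 1 / 2 ≤ t) (ht1 : t ≤ 1) (F : ℂ → ℝ≥0∞)
    (hF : Measurable F) {S S' : Set ℂ} (hS : MeasurableSet S) (hS' : MeasurableSet S')
    (hSS : ∀ z ∈ S, (t : ℂ) * z ∈ S') :
    ∫⁻ z in D ∩ S, wt s z * F (t * z) ≤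
      4 * ∫⁻ w in D ∩ S', {w : ℂ | ‖w‖ < t}.indicator (fun w => wt s w * F w) w := by
  have ht0 : 0 < t := by linarith
  set G : ℂ → ℝ≥0∞ := fun w => (D ∩ S').indicator
    ({w : ℂ | ‖w‖ < t}.indicator (fun w => wt s w * F w)) w with hG
  have hmS' : MeasurableSet (D ∩ S') := measurableSet_ball.inter hS'
  have hmt : MeasurableSet {w : ℂ | ‖w‖ < t} := measurableSet_lt measurable_norm measurable_const
  have hGm : Measurable G :=
    (((measurable_wt s).mul hF).indicator hmt).indicator hmS'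
  have h1 : ∫⁻ z in D ∩ S, wt s z * F (t * z) ≤ ∫⁻ z, G (t * z) := by
    rw [← lintegral_indicator (measurableSet_ball.inter hS)]
    refine lintegral_mono fun z => ?_
    by_cases hz : z ∈ D ∩ S
    · rw [indicator_of_mem hz]
      have hz1 : ‖z‖ < 1 := by simpa using hz.1
      have hn : ‖(t : ℂ) * z‖ = t * ‖z‖ := by
        rw [norm_mul, Complex.norm_real, Real.norm_of_nonneg ht0.le]
      have hlt : ‖(t : ℂ) * z‖ < t := by rw [hn]; nlinarith
      have hm : (t : ℂ) * z ∈ D ∩ S' := ⟨by rw [mem_ball_zero_iff]; linarith, hSS z hz.2⟩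
      simp only [hG]
      rw [indicator_of_mem hm, indicator_of_mem (show (t : ℂ) * z ∈ {w : ℂ | ‖w‖ < t} from hlt)]
      gcongr
      unfold wt
      refine ENNReal.ofReal_le_ofReal (Real.rpow_le_rpow (by linarith) ?_ hs)
      rw [hn]
      nlinarith [norm_nonneg z]
    · rw [indicator_of_notMem hz]
      exact zero_le
  refine h1.trans ?_
  rw [lintegral_smul_eq ht0 G hGm]
  have h2 : ENNReal.ofReal ((t ^ 2)⁻¹) ≤ 4 := by
    have : (t ^ 2)⁻¹ ≤ 4 := by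
      rw [inv_le_comm₀ (by positivity) (by norm_num)]
      nlinarith
    calc ENNReal.ofReal ((t ^ 2)⁻¹) ≤ ENNReal.ofReal 4 := ENNReal.ofReal_le_ofReal this
      _ = 4 := by norm_num
  have h3 : ∫⁻ w, G w = ∫⁻ w in D ∩ S', {w : ℂ | ‖w‖ < t}.indicator (fun w => wt s w * F w) w := by
    rw [← lintegral_indicator hmS']
  rw [h3]
  gcongr

/-- **Hardy type inequality.** -/
theorem hardy {p : ℝ} (hp : 2 ≤ p) {f : ℂ → ℂ} (hf : DifferentiableOn ℂ f D) {ρ : ℝ}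
    (h0 : 1 / 2 ≤ ρ) (h1 : ρ < 1) {S S' : Set ℂ} (hS : MeasurableSet S) (hS' : MeasurableSet S')
    (hSS : ∀ t ∈ Ioc ρ 1, ∀ z ∈ S, (t : ℂ) * z ∈ S') :
    ∫⁻ z in D ∩ S, wt (p - 1) z * (‖f z - f (ρ * z)‖ₑ ^ p * ENNReal.ofReal ((1 - ρ * ‖z‖) ^ (-p)))
      ≤ 4 * ∫⁻ w in D ∩ S', wt (p - 1) w * ‖deriv f w‖ₑ ^ p := by
  have hmS : MeasurableSet (D ∩ S) := measurableSet_ball.inter hS
  have hmS' : MeasurableSet (D ∩ S') := measurableSet_ball.inter hS'
  have hρ0 : 0 ≤ ρ := by linarith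
  have hp0 : 0 ≤ p := by linarith
  have hdm : Measurable (fun w => ‖deriv f w‖ₑ ^ p) := (measurable_deriv f).enorm.pow_const p
  -- step 1: pointwise bound
  have s1 : ∫⁻ z in D ∩ S, wt (p - 1) z *
      (‖f z - f (ρ * z)‖ₑ ^ p * ENNReal.ofReal ((1 - ρ * ‖z‖) ^ (-p))) ≤
      ∫⁻ z in D ∩ S, ∫⁻ t in Ioc ρ 1, wt (p - 2) z * ‖deriv f (t * z)‖ₑ ^ p := by
    refine setLIntegral_mono' hmS fun z hz => ?_
    have hz1 : ‖z‖ < 1 := by simpa using hz.1
    have hmz : Measurable fun t : ℝ => ‖deriv f (t * z)‖ₑ :=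
      ((measurable_deriv f).comp (by fun_prop)).enorm
    have e1 : ‖f z - f (ρ * z)‖ₑ ^ p ≤
        ENNReal.ofReal ((1 - ρ) ^ (p - 1)) * ∫⁻ t in Ioc ρ 1, ‖deriv f (t * z)‖ₑ ^ p :=
      (ENNReal.rpow_le_rpow (enorm_sub_le hf hρ0 h1 hz.1) hp0).trans
        (lintegral_rpow_le (by linarith) h1 _ hmz)
    rw [lintegral_const_mul _ (hmz.pow_const p)]
    have a2 : 0 < 1 - ρ * ‖z‖ := by nlinarith [norm_nonneg z]
    calc wt (p - 1) z * (‖f z - f (ρ * z)‖ₑ ^ p * ENNReal.ofReal ((1 - ρ * ‖z‖) ^ (-p)))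
        ≤ wt (p - 1) z * ((ENNReal.ofReal ((1 - ρ) ^ (p - 1)) *
          ∫⁻ t in Ioc ρ 1, ‖deriv f (t * z)‖ₑ ^ p) * ENNReal.ofReal ((1 - ρ * ‖z‖) ^ (-p))) := by
          gcongr
      _ = (wt (p - 1) z * ENNReal.ofReal ((1 - ρ * ‖z‖) ^ (-p)) *
          ENNReal.ofReal ((1 - ρ) ^ (p - 1))) * ∫⁻ t in Ioc ρ 1, ‖deriv f (t * z)‖ₑ ^ p := by
          ring
      _ ≤ wt (p - 2) z * ∫⁻ t in Ioc ρ 1, ‖deriv f (t * z)‖ₑ ^ p := by
          gcongr
          unfold wt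
          rw [← ENNReal.ofReal_mul (Real.rpow_nonneg (by linarith) _),
            ← ENNReal.ofReal_mul (mul_nonneg (Real.rpow_nonneg (by linarith) _)
              (Real.rpow_nonneg a2.le _))]
          exact ENNReal.ofReal_le_ofReal (weight_le hp hρ0 h1 (norm_nonneg z) hz1)
  refine s1.trans ?_
  -- step 2: Tonelli
  have hm2 : Measurable (fun q : ℂ × ℝ => wt (p - 2) q.1 * ‖deriv f (q.2 * q.1)‖ₑ ^ p) := by
    refine ((measurable_wt _).comp measurable_fst).mul ?_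
    exact hdm.comp (by fun_prop)
  rw [lintegral_lintegral_swap hm2.aemeasurable]
  have s2 : ∫⁻ t in Ioc ρ 1, ∫⁻ z in D ∩ S, wt (p - 2) z * ‖deriv f (t * z)‖ₑ ^ p ≤
      ∫⁻ t in Ioc ρ 1, 4 * ∫⁻ w in D ∩ S', {w : ℂ | ‖w‖ < t}.indicator
        (fun w => wt (p - 2) w * ‖deriv f w‖ₑ ^ p) w := by
    refine setLIntegral_mono' measurableSet_Ioc fun t ht => ?_
    exact scaled_le (by linarith) (h0.trans ht.1.le) ht.2 (fun w => ‖deriv f w‖ₑ ^ p) hdm hS hS'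
      (fun z hz => hSS t ht z hz)
  refine s2.trans ?_
  have hind : ∀ (t : ℝ) (w : ℂ), {w : ℂ | ‖w‖ < t}.indicator
        (fun w => wt (p - 2) w * ‖deriv f w‖ₑ ^ p) w =
      (wt (p - 2) w * ‖deriv f w‖ₑ ^ p) * (Ioi ‖w‖).indicator (fun _ => 1) t := by
    intro t w
    by_cases h : ‖w‖ < t
    · rw [indicator_of_mem (show w ∈ {w : ℂ | ‖w‖ < t} from h),
        indicator_of_mem (show t ∈ Ioi ‖w‖ from h), mul_one]
    · rw [indicator_of_notMem (show w ∉ {w : ℂ | ‖w‖ < t} from h),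
        indicator_of_notMem (show t ∉ Ioi ‖w‖ from h), mul_zero]
  simp only [hind]
  have hset : MeasurableSet {q : ℝ × ℂ | ‖q.2‖ < q.1} :=
    measurableSet_lt (by fun_prop) (by fun_prop)
  have hm3 : Measurable (fun q : ℝ × ℂ => (wt (p - 2) q.2 * ‖deriv f q.2‖ₑ ^ p) *
      (Ioi ‖q.2‖).indicator (fun _ => (1 : ℝ≥0∞)) q.1) := by
    refine (((measurable_wt _).mul hdm).comp measurable_snd).mul ?_
    have : (fun q : ℝ × ℂ => (Ioi ‖q.2‖).indicator (fun _ => (1 : ℝ≥0∞)) q.1) =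
        {q : ℝ × ℂ | ‖q.2‖ < q.1}.indicator (fun _ => 1) := by
      ext q
      simp only [indicator, mem_Ioi, mem_setOf_eq]
    rw [this]
    exact measurable_const.indicator hset
  rw [lintegral_const_mul' _ _ (by norm_num)]
  refine mul_le_mul' le_rfl ?_
  rw [lintegral_lintegral_swap hm3.aemeasurable]
  refine setLIntegral_mono' hmS' fun w hw => ?_
  have hw1 : ‖w‖ < 1 := by simpa using hw.1
  rw [lintegral_const_mul _ (measurable_const.indicator measurableSet_Ioi)]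
  have e5 : ∫⁻ t in Ioc ρ 1, (Ioi ‖w‖).indicator (fun _ => (1 : ℝ≥0∞)) t ≤
      ENNReal.ofReal (1 - ‖w‖) := by
    rw [lintegral_indicator measurableSet_Ioi, Measure.restrict_restrict measurableSet_Ioi,
      setLIntegral_const, one_mul]
    calc volume (Ioi ‖w‖ ∩ Ioc ρ 1) ≤ volume (Ioc ‖w‖ 1) := by
          refine measure_mono fun x hx => ⟨hx.1, hx.2.2⟩
      _ = ENNReal.ofReal (1 - ‖w‖) := by simp
  calc wt (p - 2) w * ‖deriv f w‖ₑ ^ p * ∫⁻ t in Ioc ρ 1, (Ioi ‖w‖).indicator (fun _ => 1) t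
      ≤ wt (p - 2) w * ‖deriv f w‖ₑ ^ p * ENNReal.ofReal (1 - ‖w‖) := by gcongr
    _ = wt (p - 1) w * ‖deriv f w‖ₑ ^ p := by
        have : wt (p - 2) w * ENNReal.ofReal (1 - ‖w‖) = wt (p - 1) w := by
          unfold wt
          rw [← ENNReal.ofReal_mul (Real.rpow_nonneg (by linarith) _),
            ← Real.rpow_add_one (by linarith)]
          congr 2
          ring
        rw [← this]
        ring

end Pool.Agent.Q82.OC
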