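import Pool.Agent.Q82.OC1

/-! Convergence of dilates in the weighted Dirichlet type spaces. -/

set_option autoImplicit false

namespace Pool.Agent.Q82.OC

open MeasureTheory Metric Set Complex Filter Topology
open scoped ENNReal

theorem nhdsLT_ge {a : ℝ} (ha : a < 1) : ∀ᶠ ρ in 𝓝[<] (1 : ℝ), a ≤ ρ := by
  have : Ici a ∈ 𝓝[<] (1 : ℝ) := mem_nhdsWithin_of_mem_nhds (Ici_mem_nhds ha)
  exact this

theorem nhdsLT_lt : ∀ᶠ ρ in 𝓝[<] (1 : ℝ), ρ < 1 := self_mem_nhdsWithin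

theorem measurableSet_ann (s : ℝ) : MeasurableSet {w : ℂ | s < ‖w‖} :=
  measurableSet_lt measurable_const measurable_norm

/-- tails of convergent integrals -/
theorem tail_tendsto (F : ℂ → ℝ≥0∞) (hF : Measurable F) (hfin : ∫⁻ w in D, F w ≠ ⊤) :
    Tendsto (fun s : ℝ => ∫⁻ w in D ∩ {w : ℂ | s < ‖w‖}, F w) (𝓝[<] 1) (𝓝 0) := by
  have h1 : ∀ s : ℝ, ∫⁻ w in D ∩ {w : ℂ | s < ‖w‖}, F w =
      ∫⁻ w in D, {w : ℂ | s < ‖w‖}.indicator F w := by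
    intro s
    rw [lintegral_indicator (measurableSet_ann s), Measure.restrict_restrict (measurableSet_ann s),
      inter_comm]
  simp only [h1]
  have h2 : ∫⁻ w in D, (0 : ℂ → ℝ≥0∞) w = 0 := by simp
  rw [← h2]
  refine tendsto_lintegral_filter_of_dominated_convergence F ?_ ?_ hfin ?_
  · exact Eventually.of_forall fun s => hF.indicator (measurableSet_ann s)
  · exact Eventually.of_forall fun s => Eventually.of_forall fun w =>
      indicator_le_self _ _ _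
  · refine (ae_restrict_iff' measurableSet_ball).2 (Eventually.of_forall fun w hw => ?_)
    have hw1 : ‖w‖ < 1 := by simpa using hw
    refine tendsto_const_nhds.congr' ?_
    filter_upwards [nhdsLT_ge hw1] with s hs
    rw [indicator_of_notMem]
    · rfl
    · simp only [mem_setOf_eq, not_lt]
      exact hs

/-- splitting of integrals over the disc -/
theorem tendsto_split (Φ : ℝ → ℂ → ℝ≥0∞) (F : ℂ → ℝ≥0∞) (hF : Measurable F)
    (hfin : ∫⁻ w in D, F w ≠ ⊤) (C : ℝ≥0∞) (hC : C ≠ ⊤)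
    (hin : ∀ R : ℝ, 0 < R → R < 1 →
      Tendsto (fun ρ => ∫⁻ z in D ∩ {z : ℂ | ‖z‖ ≤ R}, Φ ρ z) (𝓝[<] 1) (𝓝 0))
    (hout : ∀ R ρ : ℝ, 0 < R → R < 1 → 1 / 2 ≤ ρ → ρ < 1 →
      ∫⁻ z in D ∩ {z : ℂ | R < ‖z‖}, Φ ρ z ≤ C * ∫⁻ w in D ∩ {w : ℂ | ρ * R < ‖w‖}, F w) :
    Tendsto (fun ρ => ∫⁻ z in D, Φ ρ z) (𝓝[<] 1) (𝓝 0) := by
  rw [ENNReal.tendsto_nhds_zero]
  intro ε hε
  have hε2 : 0 < ε / 2 := ENNReal.half_pos hε.ne'
  have hT : Tendsto (fun s : ℝ => C * ∫⁻ w in D ∩ {w : ℂ | s < ‖w‖}, F w) (𝓝[<] 1) (𝓝 0) := by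
    have := ENNReal.Tendsto.const_mul (tail_tendsto F hF hfin) (Or.inr hC)
    simpa using this
  rw [ENNReal.tendsto_nhds_zero] at hT
  obtain ⟨s, hs⟩ := ((hT _ hε2).and ((nhdsLT_ge (show (1 / 2 : ℝ) < 1 by norm_num)).and
    nhdsLT_lt)).exists
  obtain ⟨hs1, hs2, hs3⟩ := hs
  set R : ℝ := (1 + s) / 2 with hR
  have hR0 : 0 < R := by rw [hR]; linarith
  have hR1 : R < 1 := by rw [hR]; linarith
  have hsR : s / R < 1 := by rw [div_lt_one hR0, hR]; linarith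
  have hin' := hin R hR0 hR1
  rw [ENNReal.tendsto_nhds_zero] at hin'
  filter_upwards [hin' _ hε2, nhdsLT_ge (show (1 / 2 : ℝ) < 1 by norm_num), nhdsLT_ge hsR,
    nhdsLT_lt] with ρ h1 h2 h3 h4
  have h5 : s ≤ ρ * R := by rwa [div_le_iff₀ hR0] at h3
  have h6 : ∫⁻ z in D, Φ ρ z ≤ (∫⁻ z in D ∩ {z : ℂ | ‖z‖ ≤ R}, Φ ρ z) +
      ∫⁻ z in D ∩ {z : ℂ | R < ‖z‖}, Φ ρ z := by
    have : D ⊆ (D ∩ {z : ℂ | ‖z‖ ≤ R}) ∪ (D ∩ {z : ℂ | R < ‖z‖}) := by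
      intro z hz
      rcases le_or_gt ‖z‖ R with h | h
      · exact Or.inl ⟨hz, h⟩
      · exact Or.inr ⟨hz, h⟩
    exact (lintegral_mono_set this).trans (lintegral_union_le _ _ _)
  refine h6.trans ?_
  rw [← ENNReal.add_halves ε]
  refine add_le_add h1 ((hout R ρ hR0 hR1 h2 h4).trans (le_trans ?_ hs1))
  refine mul_le_mul' le_rfl (lintegral_mono_set ?_)
  intro w hw
  exact ⟨hw.1, lt_of_le_of_lt h5 hw.2⟩

/-- a continuous function composed with dilations, local version -/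
theorem inner_tendsto {p : ℝ} (hp : 0 < p) (Ψ : ℝ → ℂ → ℂ) (w : ℝ → ℂ → ℝ≥0∞)
    {R : ℝ} (M W : ℝ≥0∞) (hM : M ≠ ⊤) (hW : W ≠ ⊤)
    (hm : ∀ ρ, Measurable (Ψ ρ)) (hwm : ∀ ρ, Measurable (w ρ))
    (hb : ∀ᶠ ρ in 𝓝[<] (1 : ℝ), ∀ z : ℂ, ‖z‖ ≤ R → ‖Ψ ρ z‖ₑ ≤ M)
    (hwb : ∀ᶠ ρ in 𝓝[<] (1 : ℝ), ∀ z : ℂ, ‖z‖ ≤ R → w ρ z ≤ W)
    (hlim : ∀ z : ℂ, ‖z‖ ≤ R → Tendsto (fun ρ => Ψ ρ z) (𝓝[<] 1) (𝓝 0)) :
    Tendsto (fun ρ => ∫⁻ z in D ∩ {z : ℂ | ‖z‖ ≤ R}, w ρ z * ‖Ψ ρ z‖ₑ ^ p) (𝓝[<] 1) (𝓝 0) := by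
  have hms : MeasurableSet (D ∩ {z : ℂ | ‖z‖ ≤ R}) :=
    measurableSet_ball.inter (measurableSet_le measurable_norm measurable_const)
  have h2 : ∫⁻ z in D ∩ {z : ℂ | ‖z‖ ≤ R}, (0 : ℂ → ℝ≥0∞) z = 0 := by simp
  rw [← h2]
  refine tendsto_lintegral_filter_of_dominated_convergence (fun _ => W * M ^ p) ?_ ?_ ?_ ?_
  · exact Eventually.of_forall fun ρ => (hwm ρ).mul ((hm ρ).enorm.pow_const p)
  · filter_upwards [hb, hwb] with ρ h1 h3
    refine (ae_restrict_iff' hms).2 (Eventually.of_forall fun z hz => ?_)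
    exact mul_le_mul' (h3 z hz.2) (ENNReal.rpow_le_rpow (h1 z hz.2) hp.le)
  · rw [setLIntegral_const]
    refine ENNReal.mul_ne_top (ENNReal.mul_ne_top hW (ENNReal.rpow_ne_top_of_nonneg hp.le hM)) ?_
    refine ne_top_of_le_ne_top ?_ (measure_mono inter_subset_left)
    exact measure_ball_lt_top.ne
  · refine (ae_restrict_iff' hms).2 (Eventually.of_forall fun z hz => ?_)
    have h3 : Tendsto (fun ρ => ‖Ψ ρ z‖ₑ ^ p) (𝓝[<] 1) (𝓝 0) := by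
      have h4 : Tendsto (fun ρ => ‖Ψ ρ z‖ₑ) (𝓝[<] 1) (𝓝 0) := by
        have := (hlim z hz.2).enorm
        simpa using this
      have h5 := (ENNReal.continuous_rpow_const (y := p)).tendsto 0
      rw [ENNReal.zero_rpow_of_pos hp] at h5
      exact h5.comp h4
    have h6 : Tendsto (fun ρ => W * ‖Ψ ρ z‖ₑ ^ p) (𝓝[<] 1) (𝓝 0) := by
      have := ENNReal.Tendsto.const_mul h3 (Or.inr hW)
      simpa using this
    refine tendsto_of_tendsto_of_tendsto_of_le_of_le' tendsto_const_nhds h6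
      (Eventually.of_forall fun _ => by simp) ?_
    filter_upwards [hwb] with ρ h7
    exact mul_le_mul' (h7 z hz.2) le_rfl

/-- bounds on compact discs -/
theorem bound_on {g : ℂ → ℂ} (hg : ContinuousOn g D) {R : ℝ} (hR : R < 1) :
    ∃ M : ℝ, 0 ≤ M ∧ ∀ z : ℂ, ‖z‖ ≤ R → ‖g z‖ ≤ M := by
  have hsub : closedBall (0 : ℂ) R ⊆ D := closedBall_subset_ball hR
  obtain ⟨M, hM⟩ := (isCompact_closedBall (0 : ℂ) R).exists_bound_of_continuousOn (hg.mono hsub)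
  refine ⟨max M 0, le_max_right _ _, fun z hz => (hM z ?_).trans (le_max_left _ _)⟩
  simpa using hz

theorem dil_mem {ρ : ℝ} (h0 : 0 ≤ ρ) (h1 : ρ ≤ 1) {R : ℝ} {z : ℂ} (hz : ‖z‖ ≤ R) :
    ‖(ρ : ℂ) * z‖ ≤ R := by
  rw [norm_mul, Complex.norm_real, Real.norm_of_nonneg h0]
  nlinarith [norm_nonneg z]

theorem dil_lim {g : ℂ → ℂ} (hg : ContinuousOn g D) {z : ℂ} (hz : z ∈ D) :
    Tendsto (fun ρ : ℝ => g (ρ * z)) (𝓝[<] 1) (𝓝 (g z)) := by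
  have h1 : ContinuousAt g z := hg.continuousAt (isOpen_ball.mem_nhds hz)
  have h2 : Tendsto (fun ρ : ℝ => (ρ : ℂ) * z) (𝓝[<] 1) (𝓝 z) := by
    have h3 : Tendsto (fun ρ : ℝ => (ρ : ℂ) * z) (𝓝 1) (𝓝 ((1 : ℝ) * z)) := by
      exact (Continuous.tendsto (by fun_prop) 1)
    simp only [ofReal_one, one_mul] at h3
    exact h3.mono_left nhdsWithin_le_nhds
  exact h1.tendsto.comp h2

theorem enorm_sub_rpow_le {p : ℝ} (hp : 1 ≤ p) (a b : ℂ) :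
    ‖a - b‖ₑ ^ p ≤ 2 ^ (p - 1) * (‖a‖ₑ ^ p + ‖b‖ₑ ^ p) := by
  have h : ‖a - b‖ₑ ≤ ‖a‖ₑ + ‖b‖ₑ := by
    have := enorm_add_le a (-b)
    rwa [← sub_eq_add_neg, enorm_neg] at this
  exact (ENNReal.rpow_le_rpow h (by linarith)).trans
    (ENNReal.rpow_add_le_mul_rpow_add_rpow _ _ hp)

theorem enorm_add_rpow_le {p : ℝ} (hp : 1 ≤ p) (a b : ℂ) :
    ‖a + b‖ₑ ^ p ≤ 2 ^ (p - 1) * (‖a‖ₑ ^ p + ‖b‖ₑ ^ p) :=
  (ENNReal.rpow_le_rpow (enorm_add_le a b) (by linarith)).trans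
    (ENNReal.rpow_add_le_mul_rpow_add_rpow _ _ hp)

/-- **dilations converge.** -/
theorem dilation {p : ℝ} (hp : 1 ≤ p) {g : ℂ → ℂ} (hg : ContinuousOn g D) (hgm : Measurable g)
    (hfin : ∫⁻ w in D, wt (p - 1) w * ‖g w‖ₑ ^ p ≠ ⊤) :
    Tendsto (fun ρ : ℝ => ∫⁻ z in D, wt (p - 1) z * ‖g z - ρ * g (ρ * z)‖ₑ ^ p)
      (𝓝[<] 1) (𝓝 0) := by
  have hp0 : 0 < p := by linarith
  set F : ℂ → ℝ≥0∞ := fun w => wt (p - 1) w * ‖g w‖ₑ ^ p with hFdef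
  have hgp : Measurable fun w => ‖g w‖ₑ ^ p := hgm.enorm.pow_const p
  have hFm : Measurable F := (measurable_wt _).mul hgp
  have hwt1 : ∀ z : ℂ, wt (p - 1) z ≤ 1 ∨ 1 ≤ ‖z‖ := by
    intro z
    rcases lt_or_ge ‖z‖ 1 with h | h
    · left
      unfold wt
      refine ENNReal.ofReal_le_one.2 (Real.rpow_le_one (by linarith) (by linarith [norm_nonneg z])
        (by linarith))
    · exact Or.inr h
  refine tendsto_split _ F hFm hfin (2 ^ (p - 1) * 5) (by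
    refine ENNReal.mul_ne_top (ENNReal.rpow_ne_top_of_nonneg (by linarith) (by norm_num))
      (by norm_num)) ?_ ?_
  · intro R hR0 hR1
    obtain ⟨M, hM0, hM⟩ := bound_on hg hR1
    refine inner_tendsto hp0 (fun ρ z => g z - ρ * g (ρ * z)) (fun _ => wt (p - 1))
      (ENNReal.ofReal (2 * M)) 1 ENNReal.ofReal_ne_top (by norm_num) ?_ (fun _ => measurable_wt _)
      ?_ ?_ ?_
    · intro ρ
      have : Measurable fun z : ℂ => g (ρ * z) := hgm.comp (by fun_prop)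
      exact hgm.sub (this.const_mul _)
    · filter_upwards [nhdsLT_ge (show (0 : ℝ) < 1 by norm_num), nhdsLT_lt] with ρ h1 h2 z hz
      rw [← ofReal_norm_eq_enorm]
      refine ENNReal.ofReal_le_ofReal ?_
      have e1 := hM z hz
      have e2 := hM _ (dil_mem h1 h2.le hz)
      calc ‖g z - ρ * g (ρ * z)‖ ≤ ‖g z‖ + ‖(ρ : ℂ) * g (ρ * z)‖ := norm_sub_le _ _
        _ = ‖g z‖ + ρ * ‖g (ρ * z)‖ := by
            rw [norm_mul, Complex.norm_real, Real.norm_of_nonneg h1]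
        _ ≤ M + 1 * M := by gcongr
        _ = 2 * M := by ring
    · refine Eventually.of_forall fun ρ z hz => ?_
      rcases hwt1 z with h | h
      · exact h
      · exact absurd (h.trans hz) (by linarith)
    · intro z hz
      have hzD : z ∈ D := by rw [mem_ball_zero_iff]; linarith
      have h1 := dil_lim hg hzD
      have h2 : Tendsto (fun ρ : ℝ => (ρ : ℂ)) (𝓝[<] 1) (𝓝 1) := by
        have : Tendsto (fun ρ : ℝ => (ρ : ℂ)) (𝓝 1) (𝓝 ((1 : ℝ) : ℂ)) :=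
          Complex.continuous_ofReal.tendsto 1
        rw [ofReal_one] at this
        exact this.mono_left nhdsWithin_le_nhds
      have h3 := (tendsto_const_nhds (x := g z)).sub (h2.mul h1)
      simpa using h3
  · intro R ρ hR0 hR1 h1 h2
    have hms : MeasurableSet (D ∩ {z : ℂ | R < ‖z‖}) := measurableSet_ball.inter (measurableSet_ann R)
    have hρ0 : 0 ≤ ρ := by linarith
    have hgρ : Measurable fun z : ℂ => ‖g (ρ * z)‖ₑ ^ p :=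
      ((hgm.comp (by fun_prop : Measurable fun z : ℂ => (ρ : ℂ) * z)).enorm).pow_const p
    have e1 : ∫⁻ z in D ∩ {z : ℂ | R < ‖z‖}, wt (p - 1) z * ‖g z - ρ * g (ρ * z)‖ₑ ^ p ≤
        2 ^ (p - 1) * ((∫⁻ z in D ∩ {z : ℂ | R < ‖z‖}, F z) +
          ∫⁻ z in D ∩ {z : ℂ | R < ‖z‖}, wt (p - 1) z * ‖g (ρ * z)‖ₑ ^ p) := by
      rw [← lintegral_add_left hFm, ← lintegral_const_mul' _ _
        (ENNReal.rpow_ne_top_of_nonneg (by linarith) (by norm_num))]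
      refine lintegral_mono fun z => ?_
      have e2 := enorm_sub_rpow_le hp (g z) (ρ * g (ρ * z))
      have e3 : ‖(ρ : ℂ) * g (ρ * z)‖ₑ ^ p ≤ ‖g (ρ * z)‖ₑ ^ p := by
        refine ENNReal.rpow_le_rpow ?_ hp0.le
        rw [enorm_mul]
        have : ‖(ρ : ℂ)‖ₑ ≤ 1 := by
          rw [← ofReal_norm_eq_enorm, Complex.norm_real, Real.norm_of_nonneg hρ0]
          exact ENNReal.ofReal_le_one.2 h2.le
        calc ‖(ρ : ℂ)‖ₑ * ‖g (ρ * z)‖ₑ ≤ 1 * ‖g (ρ * z)‖ₑ := by gcongr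
          _ = _ := one_mul _
      calc wt (p - 1) z * ‖g z - ρ * g (ρ * z)‖ₑ ^ p
          ≤ wt (p - 1) z * (2 ^ (p - 1) * (‖g z‖ₑ ^ p + ‖g (ρ * z)‖ₑ ^ p)) := by
            refine mul_le_mul' le_rfl (e2.trans ?_)
            gcongr
        _ = 2 ^ (p - 1) * (F z + wt (p - 1) z * ‖g (ρ * z)‖ₑ ^ p) := by
            rw [hFdef]; ring
    refine e1.trans ?_
    have e4 : ∫⁻ z in D ∩ {z : ℂ | R < ‖z‖}, F z ≤ ∫⁻ z in D ∩ {z : ℂ | ρ * R < ‖z‖}, F z := by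
      refine lintegral_mono_set fun z hz => ⟨hz.1, ?_⟩
      have : R < ‖z‖ := hz.2
      simp only [mem_setOf_eq]
      nlinarith
    have e5 : ∫⁻ z in D ∩ {z : ℂ | R < ‖z‖}, wt (p - 1) z * ‖g (ρ * z)‖ₑ ^ p ≤
        4 * ∫⁻ z in D ∩ {z : ℂ | ρ * R < ‖z‖}, F z := by
      refine (scaled_le (by linarith) h1 h2.le (fun w => ‖g w‖ₑ ^ p) hgp (measurableSet_ann R)
        (measurableSet_ann (ρ * R)) ?_).trans ?_
      · intro z hz
        simp only [mem_setOf_eq] at hz ⊢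
        rw [norm_mul, Complex.norm_real, Real.norm_of_nonneg hρ0]
        nlinarith
      · refine mul_le_mul' le_rfl (lintegral_mono fun w => ?_)
        exact indicator_le_self _ _ _
    set X : ℝ≥0∞ := ∫⁻ z in D ∩ {z : ℂ | ρ * R < ‖z‖}, F z with hX
    calc 2 ^ (p - 1) * ((∫⁻ z in D ∩ {z : ℂ | R < ‖z‖}, F z) +
          ∫⁻ z in D ∩ {z : ℂ | R < ‖z‖}, wt (p - 1) z * ‖g (ρ * z)‖ₑ ^ p)
        ≤ 2 ^ (p - 1) * (X + 4 * X) := mul_le_mul' le_rfl (add_le_add e4 e5)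
      _ = 2 ^ (p - 1) * 5 * X := by ring

end Pool.Agent.Q82.OC
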