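import Pool.Agent.Q82.OC2

/-! Multiplication by dilates of bounded functions. -/

set_option autoImplicit false

namespace Pool.Agent.Q82.OC

open MeasureTheory Metric Set Complex Filter Topology
open scoped ENNReal

/-- the weighted energy -/
noncomputable def En (p : ℝ) (g : ℂ → ℂ) : ℝ≥0∞ := ∫⁻ z in D, wt (p - 1) z * ‖g z‖ₑ ^ p

/-- Cauchy estimate (with a factor 2) -/
theorem cauchy_est {a : ℂ → ℂ} (ha : DifferentiableOn ℂ a D) {M : ℝ}
    (hM : ∀ z ∈ D, ‖a z‖ ≤ M) {w : ℂ} (hw : w ∈ D) : ‖deriv a w‖ ≤ 2 * M / (1 - ‖w‖) := by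
  have hw1 : ‖w‖ < 1 := by simpa using hw
  have hsub : ball w (1 - ‖w‖) ⊆ D := by
    intro x hx
    rw [mem_ball_zero_iff]
    have h1 : ‖x - w‖ < 1 - ‖w‖ := by simpa [dist_eq_norm] using hx
    calc ‖x‖ = ‖(x - w) + w‖ := by ring_nf
      _ ≤ ‖x - w‖ + ‖w‖ := norm_add_le _ _
      _ < 1 := by linarith
  refine Complex.norm_deriv_le_div_of_mapsTo_ball (ha.mono hsub) ?_ (by linarith)
  intro x hx
  rw [mem_closedBall, dist_eq_norm]
  calc ‖a x - a w‖ ≤ ‖a x‖ + ‖a w‖ := norm_sub_le _ _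
    _ ≤ M + M := add_le_add (hM x (hsub hx)) (hM w hw)
    _ = 2 * M := by ring

/-- differences of dilates with the strong weight -/
theorem hardy_tendsto {p : ℝ} (hp : 2 ≤ p) {f : ℂ → ℂ} (hf : DifferentiableOn ℂ f D)
    (hfm : Measurable f) (hfin : En p (deriv f) ≠ ⊤) :
    Tendsto (fun ρ : ℝ => ∫⁻ z in D, wt (p - 1) z *
      (‖f z - f (ρ * z)‖ₑ ^ p * ENNReal.ofReal ((1 - ρ * ‖z‖) ^ (-p)))) (𝓝[<] 1) (𝓝 0) := by
  have hp0 : 0 < p := by linarith
  have hdm : Measurable (fun w => ‖deriv f w‖ₑ ^ p) := (measurable_deriv f).enorm.pow_const p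
  refine tendsto_split _ (fun w => wt (p - 1) w * ‖deriv f w‖ₑ ^ p)
    ((measurable_wt _).mul hdm) hfin 4 (by norm_num) ?_ ?_
  · intro R hR0 hR1
    obtain ⟨M, hM0, hM⟩ := bound_on hf.continuousOn hR1
    have h := inner_tendsto hp0 (fun ρ z => f z - f (ρ * z))
      (fun ρ z => wt (p - 1) z * ENNReal.ofReal ((1 - ρ * ‖z‖) ^ (-p))) (R := R)
      (ENNReal.ofReal (2 * M)) (ENNReal.ofReal ((1 - R) ^ (-p)))
      ENNReal.ofReal_ne_top ENNReal.ofReal_ne_top ?_ ?_ ?_ ?_ ?_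
    · refine h.congr fun ρ => lintegral_congr fun z => ?_
      ring
    · intro ρ
      exact hfm.sub (hfm.comp (by fun_prop))
    · intro ρ
      exact (measurable_wt _).mul (by fun_prop)
    · filter_upwards [nhdsLT_ge (show (0 : ℝ) < 1 by norm_num), nhdsLT_lt] with ρ h1 h2 z hz
      rw [← ofReal_norm_eq_enorm]
      refine ENNReal.ofReal_le_ofReal ?_
      calc ‖f z - f (ρ * z)‖ ≤ ‖f z‖ + ‖f (ρ * z)‖ := norm_sub_le _ _
        _ ≤ M + M := add_le_add (hM z hz) (hM _ (dil_mem h1 h2.le hz))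
        _ = 2 * M := by ring
    · filter_upwards [nhdsLT_ge (show (0 : ℝ) < 1 by norm_num), nhdsLT_lt] with ρ h1 h2 z hz
      have h3 : wt (p - 1) z ≤ 1 := by
        unfold wt
        exact ENNReal.ofReal_le_one.2 (Real.rpow_le_one (by linarith)
          (by linarith [norm_nonneg z]) (by linarith))
      have h4 : (1 - ρ * ‖z‖) ^ (-p) ≤ (1 - R) ^ (-p) := by
        refine Real.rpow_le_rpow_of_nonpos (by linarith) ?_ (by linarith)
        nlinarith [norm_nonneg z]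
      calc wt (p - 1) z * ENNReal.ofReal ((1 - ρ * ‖z‖) ^ (-p))
          ≤ 1 * ENNReal.ofReal ((1 - R) ^ (-p)) :=
            mul_le_mul' h3 (ENNReal.ofReal_le_ofReal h4)
        _ = _ := one_mul _
    · intro z hz
      have hzD : z ∈ D := by rw [mem_ball_zero_iff]; linarith
      have h3 := (tendsto_const_nhds (x := f z)).sub (dil_lim hf.continuousOn hzD)
      simpa using h3
  · intro R ρ hR0 hR1 h1 h2
    refine hardy hp hf h1 h2 (measurableSet_ann R) (measurableSet_ann (ρ * R)) ?_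
    intro t ht z hz
    simp only [mem_setOf_eq] at hz ⊢
    have ht0 : 0 < t := by linarith [ht.1]
    rw [norm_mul, Complex.norm_real, Real.norm_of_nonneg ht0.le]
    have h3 : ρ * R < t * R := by nlinarith [ht.1]
    nlinarith

/-- functions in the space are in the weighted `L^p` space -/
theorem En_self {p : ℝ} (hp : 2 ≤ p) {f : ℂ → ℂ} (hf : DifferentiableOn ℂ f D)
    (hfm : Measurable f) (hfin : En p (deriv f) ≠ ⊤) : En p f ≠ ⊤ := by
  have hp0 : 0 < p := by linarith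
  obtain ⟨M, hM0, hM⟩ := bound_on hf.continuousOn (show (1 / 2 : ℝ) < 1 by norm_num)
  have h := hardy hp hf (ρ := 1 / 2) le_rfl (by norm_num) MeasurableSet.univ MeasurableSet.univ
    (fun t _ z _ => mem_univ _)
  rw [inter_univ] at h
  have h1 : ∫⁻ z in D, wt (p - 1) z * ‖f z - f ((1 / 2 : ℝ) * z)‖ₑ ^ p ≤ 4 * En p (deriv f) := by
    refine le_trans ?_ h
    refine setLIntegral_mono' measurableSet_ball fun z hz => ?_
    have hz1 : ‖z‖ < 1 := by simpa using hz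
    refine mul_le_mul' le_rfl ?_
    have h2 : 1 ≤ ENNReal.ofReal ((1 - 1 / 2 * ‖z‖) ^ (-p)) := by
      rw [← ENNReal.ofReal_one]
      refine ENNReal.ofReal_le_ofReal ?_
      refine Real.one_le_rpow_of_pos_of_le_one_of_nonpos ?_ ?_ (by linarith)
      · linarith
      · linarith [norm_nonneg z]
    calc ‖f z - f ((1 / 2 : ℝ) * z)‖ₑ ^ p = ‖f z - f ((1 / 2 : ℝ) * z)‖ₑ ^ p * 1 := (mul_one _).symm
      _ ≤ _ := mul_le_mul' le_rfl h2
  have h3 : En p f ≤ 2 ^ (p - 1) * (4 * En p (deriv f) +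
      ∫⁻ z in D, ENNReal.ofReal M ^ p) := by
    have hm : Measurable fun z : ℂ => wt (p - 1) z * ‖f z - f ((1 / 2 : ℝ) * z)‖ₑ ^ p :=
      (measurable_wt _).mul ((hfm.sub (hfm.comp (by fun_prop))).enorm.pow_const p)
    refine le_trans ?_ (mul_le_mul' le_rfl (add_le_add h1 le_rfl))
    rw [← lintegral_add_left hm, ← lintegral_const_mul' _ _
        (ENNReal.rpow_ne_top_of_nonneg (by linarith) (by norm_num))]
    refine setLIntegral_mono' measurableSet_ball fun z hz => ?_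
    have hz1 : ‖z‖ < 1 := by simpa using hz
    have e1 := enorm_add_rpow_le (p := p) (by linarith) (f z - f ((1 / 2 : ℝ) * z))
      (f ((1 / 2 : ℝ) * z))
    rw [sub_add_cancel] at e1
    have e2 : ‖f ((1 / 2 : ℝ) * z)‖ₑ ≤ ENNReal.ofReal M := by
      rw [← ofReal_norm_eq_enorm]
      refine ENNReal.ofReal_le_ofReal (hM _ ?_)
      rw [norm_mul, Complex.norm_real, Real.norm_of_nonneg (by norm_num)]
      linarith
    have e3 : wt (p - 1) z ≤ 1 := by
      unfold wt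
      exact ENNReal.ofReal_le_one.2 (Real.rpow_le_one (by linarith)
        (by linarith [norm_nonneg z]) (by linarith))
    calc wt (p - 1) z * ‖f z‖ₑ ^ p
        ≤ wt (p - 1) z * (2 ^ (p - 1) * (‖f z - f ((1 / 2 : ℝ) * z)‖ₑ ^ p +
          ‖f ((1 / 2 : ℝ) * z)‖ₑ ^ p)) := mul_le_mul' le_rfl e1
      _ = 2 ^ (p - 1) * (wt (p - 1) z * ‖f z - f ((1 / 2 : ℝ) * z)‖ₑ ^ p +
          wt (p - 1) z * ‖f ((1 / 2 : ℝ) * z)‖ₑ ^ p) := by ring
      _ ≤ 2 ^ (p - 1) * (wt (p - 1) z * ‖f z - f ((1 / 2 : ℝ) * z)‖ₑ ^ p +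
          1 * ENNReal.ofReal M ^ p) := by
          gcongr
      _ = _ := by rw [one_mul]
  refine ne_top_of_le_ne_top ?_ h3
  refine ENNReal.mul_ne_top (ENNReal.rpow_ne_top_of_nonneg (by linarith) (by norm_num)) ?_
  refine ENNReal.add_ne_top.2 ⟨ENNReal.mul_ne_top (by norm_num) hfin, ?_⟩
  rw [setLIntegral_const]
  exact ENNReal.mul_ne_top (ENNReal.rpow_ne_top_of_nonneg hp0.le ENNReal.ofReal_ne_top)
    measure_ball_lt_top.ne

end Pool.Agent.Q82.OC
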