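import Pool.Agent.Q82.OC3

/-! Multiplication by bounded functions, and by polynomials. -/

set_option autoImplicit false

namespace Pool.Agent.Q82.OC

open MeasureTheory Metric Set Complex Filter Topology
open scoped ENNReal

theorem En_mono_const {p : ℝ} (hp : 0 ≤ p) {g h : ℂ → ℂ} {K : ℝ} (hK : 0 ≤ K)
    (H : ∀ z ∈ D, ‖g z‖ ≤ K * ‖h z‖) : En p g ≤ ENNReal.ofReal K ^ p * En p h := by
  unfold En
  rw [← lintegral_const_mul' _ _ (ENNReal.rpow_ne_top_of_nonneg hp ENNReal.ofReal_ne_top)]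
  refine setLIntegral_mono' measurableSet_ball fun z hz => ?_
  have h1 : ‖g z‖ₑ ≤ ENNReal.ofReal K * ‖h z‖ₑ := by
    rw [← ofReal_norm_eq_enorm, ← ofReal_norm_eq_enorm, ← ENNReal.ofReal_mul hK]
    exact ENNReal.ofReal_le_ofReal (H z hz)
  calc wt (p - 1) z * ‖g z‖ₑ ^ p ≤ wt (p - 1) z * (ENNReal.ofReal K * ‖h z‖ₑ) ^ p :=
        mul_le_mul' le_rfl (ENNReal.rpow_le_rpow h1 hp)
    _ = ENNReal.ofReal K ^ p * (wt (p - 1) z * ‖h z‖ₑ ^ p) := by
        rw [ENNReal.mul_rpow_of_nonneg _ _ hp]; ring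

theorem En_congr {p : ℝ} {g h : ℂ → ℂ} (H : ∀ z ∈ D, g z = h z) : En p g = En p h := by
  unfold En
  refine setLIntegral_congr_fun measurableSet_ball fun z hz => ?_
  simp only [H z hz]

theorem two_ne_top {p : ℝ} (hp : 1 ≤ p) : (2 : ℝ≥0∞) ^ (p - 1) ≠ ⊤ :=
  ENNReal.rpow_ne_top_of_nonneg (by linarith) (by norm_num)

theorem En_add_le {p : ℝ} (hp : 1 ≤ p) {g h : ℂ → ℂ} (hg : Measurable g) :
    En p (fun z => g z + h z) ≤ 2 ^ (p - 1) * (En p g + En p h) := by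
  unfold En
  have hm : Measurable fun z => wt (p - 1) z * ‖g z‖ₑ ^ p :=
    (measurable_wt _).mul (hg.enorm.pow_const p)
  rw [← lintegral_add_left hm, ← lintegral_const_mul' _ _ (two_ne_top hp)]
  refine lintegral_mono fun z => ?_
  calc wt (p - 1) z * ‖g z + h z‖ₑ ^ p ≤ wt (p - 1) z * (2 ^ (p - 1) * (‖g z‖ₑ ^ p + ‖h z‖ₑ ^ p)) :=
        mul_le_mul' le_rfl (enorm_add_rpow_le hp _ _)
    _ = _ := by ring

theorem En_sub_le {p : ℝ} (hp : 1 ≤ p) {g h : ℂ → ℂ} (hg : Measurable g) :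
    En p (fun z => g z - h z) ≤ 2 ^ (p - 1) * (En p g + En p h) := by
  unfold En
  have hm : Measurable fun z => wt (p - 1) z * ‖g z‖ₑ ^ p :=
    (measurable_wt _).mul (hg.enorm.pow_const p)
  rw [← lintegral_add_left hm, ← lintegral_const_mul' _ _ (two_ne_top hp)]
  refine lintegral_mono fun z => ?_
  calc wt (p - 1) z * ‖g z - h z‖ₑ ^ p ≤ wt (p - 1) z * (2 ^ (p - 1) * (‖g z‖ₑ ^ p + ‖h z‖ₑ ^ p)) :=
        mul_le_mul' le_rfl (enorm_sub_rpow_le hp _ _)
    _ = _ := by ring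

/-- **The key approximation**: `a(ρ z) f z → a z f z` in the energy. -/
theorem prod_tendsto {p : ℝ} (hp : 2 ≤ p) {f a : ℂ → ℂ} (hf : DifferentiableOn ℂ f D)
    (hfm : Measurable f) (ham : Measurable a) (hfE : En p (deriv f) ≠ ⊤)
    (ha : DifferentiableOn ℂ a D)
    {M : ℝ} (hM0 : 0 ≤ M) (hM : ∀ z ∈ D, ‖a z‖ ≤ M)
    (hbE : En p (deriv fun z => a z * f z) ≠ ⊤) :
    Tendsto (fun ρ : ℝ => En p (fun z => deriv (fun z => a (ρ * z) * f z) z -
      deriv (fun z => a z * f z) z)) (𝓝[<] 1) (𝓝 0) := by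
  have hp0 : 0 < p := by linarith
  have hp1 : 1 ≤ p := by linarith
  have hb : DifferentiableOn ℂ (fun z => a z * f z) D := ha.mul hf
  have t1 := hardy_tendsto hp hf hfm hfE
  have t2 := dilation hp1 (hf.deriv isOpen_ball).continuousOn (measurable_deriv f) hfE
  have t3 := dilation hp1 (hb.deriv isOpen_ball).continuousOn (measurable_deriv _) hbE
  set b : ℂ → ℂ := fun z => a z * f z with hbdef
  -- the three pieces
  set X : ℝ → ℂ → ℂ := fun ρ z => ρ * deriv a (ρ * z) * (f z - f (ρ * z)) with hX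
  set Y : ℝ → ℂ → ℂ := fun ρ z => a (ρ * z) * (deriv f z - ρ * deriv f (ρ * z)) with hY
  set Z : ℝ → ℂ → ℂ := fun ρ z => deriv b z - ρ * deriv b (ρ * z) with hZ
  set A1 : ℝ → ℝ≥0∞ := fun ρ => ∫⁻ z in D, wt (p - 1) z *
      (‖f z - f (ρ * z)‖ₑ ^ p * ENNReal.ofReal ((1 - ρ * ‖z‖) ^ (-p))) with hA1
  set A2 : ℝ → ℝ≥0∞ := fun ρ =>
    ∫⁻ z in D, wt (p - 1) z * ‖deriv f z - ρ * deriv f (ρ * z)‖ₑ ^ p with hA2
  set A3 : ℝ → ℝ≥0∞ := fun ρ =>
    ∫⁻ z in D, wt (p - 1) z * ‖deriv b z - ρ * deriv b (ρ * z)‖ₑ ^ p with hA3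
  have hmul : ∀ ρ : ℝ, Measurable fun z : ℂ => (ρ : ℂ) * z := fun ρ => by fun_prop
  have hXm : ∀ ρ, Measurable (X ρ) := fun ρ =>
    (((measurable_deriv a).comp (hmul ρ)).const_mul _).mul (hfm.sub (hfm.comp (hmul ρ)))
  have hYm : ∀ ρ, Measurable (Y ρ) := fun ρ =>
    (ham.comp (hmul ρ)).mul ((measurable_deriv f).sub
      (((measurable_deriv f).comp (hmul ρ)).const_mul _))
  have hlim : Tendsto (fun ρ : ℝ => 2 ^ (p - 1) * (2 ^ (p - 1) *
      (ENNReal.ofReal (2 * M) ^ p * A1 ρ + ENNReal.ofReal M ^ p * A2 ρ) + A3 ρ))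
      (𝓝[<] 1) (𝓝 0) := by
    have c1 : Tendsto (fun ρ : ℝ => ENNReal.ofReal (2 * M) ^ p * A1 ρ) (𝓝[<] 1) (𝓝 0) := by
      have := ENNReal.Tendsto.const_mul (a := ENNReal.ofReal (2 * M) ^ p) t1
        (Or.inr (ENNReal.rpow_ne_top_of_nonneg hp0.le ENNReal.ofReal_ne_top))
      simpa using this
    have c2 : Tendsto (fun ρ : ℝ => ENNReal.ofReal M ^ p * A2 ρ) (𝓝[<] 1) (𝓝 0) := by
      have := ENNReal.Tendsto.const_mul (a := ENNReal.ofReal M ^ p) t2
        (Or.inr (ENNReal.rpow_ne_top_of_nonneg hp0.le ENNReal.ofReal_ne_top))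
      simpa using this
    have c3 := ENNReal.Tendsto.const_mul (a := (2 : ℝ≥0∞) ^ (p - 1)) (c1.add c2)
      (Or.inr (two_ne_top hp1))
    have c4 := ENNReal.Tendsto.const_mul (a := (2 : ℝ≥0∞) ^ (p - 1)) (c3.add t3)
      (Or.inr (two_ne_top hp1))
    simpa using c4
  refine tendsto_of_tendsto_of_tendsto_of_le_of_le' tendsto_const_nhds hlim
    (Eventually.of_forall fun _ => by simp) ?_
  filter_upwards [nhdsLT_ge (show (0 : ℝ) < 1 by norm_num), nhdsLT_lt] with ρ h1 h2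
  have hdm : ∀ z ∈ D, (ρ : ℂ) * z ∈ D := by
    intro z hz
    have hz1 : ‖z‖ < 1 := by simpa using hz
    rw [mem_ball_zero_iff]
    exact lt_of_le_of_lt (dil_mem h1 h2.le le_rfl) hz1
  have hXYZ : ∀ z ∈ D, deriv (fun z => a (ρ * z) * f z) z - deriv (fun z => a z * f z) z =
      (X ρ z + Y ρ z) - Z ρ z := by
    intro z hz
    have da : HasDerivAt a (deriv a (ρ * z)) (ρ * z) :=
      (ha.differentiableAt (isOpen_ball.mem_nhds (hdm z hz))).hasDerivAt
    have df : HasDerivAt f (deriv f z) z :=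
      (hf.differentiableAt (isOpen_ball.mem_nhds hz)).hasDerivAt
    have dfρ : HasDerivAt f (deriv f (ρ * z)) (ρ * z) :=
      (hf.differentiableAt (isOpen_ball.mem_nhds (hdm z hz))).hasDerivAt
    have dl : HasDerivAt (fun z : ℂ => (ρ : ℂ) * z) ρ z := by
      simpa using (hasDerivAt_id z).const_mul (ρ : ℂ)
    have daρ : HasDerivAt (fun z => a (ρ * z)) (deriv a (ρ * z) * ρ) z :=
      HasDerivAt.comp z da dl
    have e1 : deriv (fun z => a (ρ * z) * f z) z =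
        deriv a (ρ * z) * ρ * f z + a (ρ * z) * deriv f z := (daρ.mul df).deriv
    have e2 : deriv b (ρ * z) = deriv a (ρ * z) * f (ρ * z) + a (ρ * z) * deriv f (ρ * z) :=
      (da.mul dfρ).deriv
    rw [e1, hX, hY, hZ]
    simp only [e2]
    simp only [hbdef]
    ring
  rw [En_congr hXYZ]
  refine (En_sub_le hp1 (g := fun z => X ρ z + Y ρ z) ((hXm ρ).add (hYm ρ))).trans ?_
  refine mul_le_mul' le_rfl (add_le_add ?_ le_rfl)
  refine (En_add_le hp1 (hXm ρ)).trans ?_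
  refine mul_le_mul' le_rfl (add_le_add ?_ ?_)
  · -- the first piece
    unfold En
    rw [hA1, ← lintegral_const_mul' _ _ (ENNReal.rpow_ne_top_of_nonneg hp0.le
      ENNReal.ofReal_ne_top)]
    refine setLIntegral_mono' measurableSet_ball fun z hz => ?_
    have hz1 : ‖z‖ < 1 := by simpa using hz
    have hn : ‖(ρ : ℂ) * z‖ = ρ * ‖z‖ := by
      rw [norm_mul, Complex.norm_real, Real.norm_of_nonneg h1]
    have hpos : 0 < 1 - ρ * ‖z‖ := by nlinarith [norm_nonneg z]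
    have hest := cauchy_est ha hM (hdm z hz)
    rw [hn] at hest
    have e3 : ‖X ρ z‖ ≤ (2 * M) * (1 - ρ * ‖z‖)⁻¹ * ‖f z - f (ρ * z)‖ := by
      rw [hX]
      simp only [norm_mul]
      rw [Complex.norm_real, Real.norm_of_nonneg h1]
      refine mul_le_mul_of_nonneg_right ?_ (norm_nonneg _)
      rw [← div_eq_mul_inv]
      calc ρ * ‖deriv a (ρ * z)‖ ≤ 1 * ‖deriv a (ρ * z)‖ := by gcongr
        _ ≤ _ := by rw [one_mul]; exact hest
    have e4 : ‖X ρ z‖ₑ ^ p ≤ ENNReal.ofReal (2 * M) ^ p *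
        (‖f z - f (ρ * z)‖ₑ ^ p * ENNReal.ofReal ((1 - ρ * ‖z‖) ^ (-p))) := by
      have e5 : ‖X ρ z‖ₑ ≤ ENNReal.ofReal (2 * M) *
          (‖f z - f (ρ * z)‖ₑ * ENNReal.ofReal ((1 - ρ * ‖z‖)⁻¹)) := by
        rw [← ofReal_norm_eq_enorm, ← ofReal_norm_eq_enorm,
          ← ENNReal.ofReal_mul (norm_nonneg _), ← ENNReal.ofReal_mul (by positivity)]
        refine ENNReal.ofReal_le_ofReal (e3.trans (le_of_eq (by ring)))
      refine (ENNReal.rpow_le_rpow e5 hp0.le).trans (le_of_eq ?_)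
      rw [ENNReal.mul_rpow_of_nonneg _ _ hp0.le, ENNReal.mul_rpow_of_nonneg _ _ hp0.le,
        ENNReal.ofReal_rpow_of_pos (inv_pos.2 hpos), Real.inv_rpow hpos.le, Real.rpow_neg hpos.le]
    calc wt (p - 1) z * ‖X ρ z‖ₑ ^ p ≤ wt (p - 1) z * (ENNReal.ofReal (2 * M) ^ p *
        (‖f z - f (ρ * z)‖ₑ ^ p * ENNReal.ofReal ((1 - ρ * ‖z‖) ^ (-p)))) :=
          mul_le_mul' le_rfl e4
      _ = _ := by ring
  · refine En_mono_const hp0.le hM0 (h := fun z => deriv f z - ρ * deriv f (ρ * z)) ?_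
    intro z hz
    rw [hY]
    simp only [norm_mul]
    exact mul_le_mul_of_nonneg_right (hM _ (hdm z hz)) (norm_nonneg _)

/-- polynomials approximate dilates, with their derivatives -/
theorem poly_approx {a : ℂ → ℂ} (ha : DifferentiableOn ℂ a D) {ρ : ℝ} (h0 : 0 ≤ ρ) (h1 : ρ < 1)
    {ε : ℝ} (hε : 0 < ε) : ∃ q : Polynomial ℂ, ∀ z ∈ D,
      ‖q.eval z - a (ρ * z)‖ ≤ ε ∧ ‖q.derivative.eval z - ρ * deriv a (ρ * z)‖ ≤ ε := by
  obtain ⟨r, hr1, hr2⟩ := exists_between h1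
  have hr0 : 0 < r := lt_of_le_of_lt h0 hr1
  lift r to NNReal using hr0.le
  have hsub : closedBall (0 : ℂ) r ⊆ D := closedBall_subset_ball hr2
  have hps := (ha.mono hsub).hasFPowerSeriesOnBall (by exact_mod_cast hr0)
  set P : FormalMultilinearSeries ℂ ℂ ℂ := cauchyPowerSeries a 0 r with hP
  set q : ℕ → Polynomial ℂ := fun n => ∑ k ∈ Finset.range n, Polynomial.monomial k (P.coeff k)
    with hq
  have hqe : ∀ n z, (q n).eval z = P.partialSum n z := by
    intro n z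
    rw [hq]
    simp only [Polynomial.eval_finsetSum, Polynomial.eval_monomial,
      FormalMultilinearSeries.partialSum]
    refine Finset.sum_congr rfl fun k _ => ?_
    rw [FormalMultilinearSeries.apply_eq_pow_smul_coeff, smul_eq_mul, mul_comm]
  have hU : Metric.eball (0 : ℂ) (r : ℝ≥0∞) = ball (0 : ℂ) r := by
    rw [← Metric.eball_coe]
  have hlu : TendstoLocallyUniformlyOn (fun n z => (q n).eval z) a atTop (ball (0 : ℂ) r) := by
    have h := hps.tendstoLocallyUniformlyOn'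
    simp only [sub_zero] at h
    rw [hU] at h
    refine h.congr fun n z _ => ?_
    exact (hqe n z).symm
  have hlud : TendstoLocallyUniformlyOn (fun n z => (q n).derivative.eval z) (deriv a) atTop
      (ball (0 : ℂ) r) := by
    have h := hlu.deriv (Eventually.of_forall fun n => (q n).differentiable.differentiableOn)
      isOpen_ball
    refine h.congr fun n z _ => ?_
    exact (Polynomial.deriv (q n))
  have hK : closedBall (0 : ℂ) ρ ⊆ ball (0 : ℂ) r := closedBall_subset_ball hr1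
  have hKc : IsCompact (closedBall (0 : ℂ) ρ) := isCompact_closedBall _ _
  have u1 := (tendstoLocallyUniformlyOn_iff_forall_isCompact isOpen_ball).1 hlu _ hK hKc
  have u2 := (tendstoLocallyUniformlyOn_iff_forall_isCompact isOpen_ball).1 hlud _ hK hKc
  rw [Metric.tendstoUniformlyOn_iff] at u1 u2
  obtain ⟨n, hn1, hn2⟩ := ((u1 ε hε).and (u2 ε hε)).exists
  refine ⟨(q n).comp (Polynomial.C (ρ : ℂ) * Polynomial.X), fun z hz => ?_⟩
  have hz1 : ‖z‖ < 1 := by simpa using hz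
  have hm : (ρ : ℂ) * z ∈ closedBall (0 : ℂ) ρ := by
    rw [mem_closedBall_zero_iff, norm_mul, Complex.norm_real, Real.norm_of_nonneg h0]
    nlinarith
  have b1 := hn1 _ hm
  have b2 := hn2 _ hm
  rw [dist_eq_norm, norm_sub_rev] at b1 b2
  constructor
  · simpa using b1.le
  · rw [Polynomial.derivative_comp]
    simp only [Polynomial.derivative_mul, Polynomial.derivative_C, zero_mul,
      Polynomial.derivative_X, mul_one, zero_add, Polynomial.eval_mul, Polynomial.eval_C,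
      Polynomial.eval_comp, Polynomial.eval_X]
    rw [← mul_sub, norm_mul, Complex.norm_real, Real.norm_of_nonneg h0]
    calc ρ * _ ≤ 1 * ε := mul_le_mul h1.le b2.le (norm_nonneg _) (by norm_num)
      _ = ε := one_mul _

/-- polynomial multiples approximate dilated multiples -/
theorem poly_prod {p : ℝ} (hp : 2 ≤ p) {f a : ℂ → ℂ} (hf : DifferentiableOn ℂ f D)
    (hfm : Measurable f) (hfE : En p (deriv f) ≠ ⊤)
    (ha : DifferentiableOn ℂ a D) {ρ : ℝ} (h0 : 0 ≤ ρ) (h1 : ρ < 1) {δ : ℝ≥0∞} (hδ : 0 < δ) :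
    ∃ q : Polynomial ℂ, ‖q.eval 0 * f 0 - a 0 * f 0‖ₑ ≤ δ ∧
      En p (fun z => deriv (fun z => q.eval z * f z) z - deriv (fun z => a (ρ * z) * f z) z) ≤ δ := by
  have hp0 : 0 < p := by linarith
  have hp1 : 1 ≤ p := by linarith
  have hfE' := En_self hp hf hfm hfE
  set K : ℝ≥0∞ := 2 ^ (p - 1) * (En p f + En p (deriv f)) with hK
  have hKt : K ≠ ⊤ := ENNReal.mul_ne_top (two_ne_top hp1) (ENNReal.add_ne_top.2 ⟨hfE', hfE⟩)
  -- choose ε
  have hlim : Tendsto (fun ε : ℝ => ENNReal.ofReal ε ^ p * K) (𝓝[>] 0) (𝓝 0) := by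
    have e1 : Tendsto (fun ε : ℝ => ENNReal.ofReal ε) (𝓝[>] 0) (𝓝 0) := by
      have := (ENNReal.continuous_ofReal.tendsto (0 : ℝ)).mono_left
        (nhdsWithin_le_nhds (s := Ioi 0))
      simpa using this
    have e2 : Tendsto (fun ε : ℝ => ENNReal.ofReal ε ^ p) (𝓝[>] 0) (𝓝 0) := by
      have := (ENNReal.continuous_rpow_const (y := p)).tendsto 0
      rw [ENNReal.zero_rpow_of_pos hp0] at this
      exact this.comp e1
    have e3 := ENNReal.Tendsto.mul_const (b := K) e2 (Or.inr hKt)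
    simpa using e3
  have hlim2 : Tendsto (fun ε : ℝ => ENNReal.ofReal ε * ‖f 0‖ₑ) (𝓝[>] 0) (𝓝 0) := by
    have e1 : Tendsto (fun ε : ℝ => ENNReal.ofReal ε) (𝓝[>] 0) (𝓝 0) := by
      have := (ENNReal.continuous_ofReal.tendsto (0 : ℝ)).mono_left
        (nhdsWithin_le_nhds (s := Ioi 0))
      simpa using this
    have e3 := ENNReal.Tendsto.mul_const (b := ‖f 0‖ₑ) e1 (Or.inr enorm_ne_top)
    simpa using e3
  rw [ENNReal.tendsto_nhds_zero] at hlim hlim2
  have hpos : ∀ᶠ ε in 𝓝[>] (0 : ℝ), ε ∈ Ioi (0 : ℝ) := self_mem_nhdsWithin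
  obtain ⟨ε, ⟨he1, he2⟩, he3⟩ := (((hlim δ hδ).and (hlim2 δ hδ)).and hpos).exists
  have hε : 0 < ε := he3
  obtain ⟨q, hq⟩ := poly_approx ha h0 h1 hε
  refine ⟨q, ?_, ?_⟩
  · have h2 := (hq 0 (by simp)).1
    rw [mul_zero] at h2
    rw [← sub_mul, enorm_mul]
    refine le_trans (mul_le_mul' ?_ le_rfl) he2
    rw [← ofReal_norm_eq_enorm]
    exact ENNReal.ofReal_le_ofReal h2
  · refine le_trans ?_ he1
    have hdm : ∀ z ∈ D, (ρ : ℂ) * z ∈ D := by
      intro z hz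
      have hz1 : ‖z‖ < 1 := by simpa using hz
      rw [mem_ball_zero_iff]
      exact lt_of_le_of_lt (dil_mem h0 h1.le le_rfl) hz1
    have e4 : ∀ z ∈ D, deriv (fun z => q.eval z * f z) z - deriv (fun z => a (ρ * z) * f z) z =
        (q.derivative.eval z - ρ * deriv a (ρ * z)) * f z +
          (q.eval z - a (ρ * z)) * deriv f z := by
      intro z hz
      have da : HasDerivAt a (deriv a (ρ * z)) (ρ * z) :=
        (ha.differentiableAt (isOpen_ball.mem_nhds (hdm z hz))).hasDerivAt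
      have df : HasDerivAt f (deriv f z) z :=
        (hf.differentiableAt (isOpen_ball.mem_nhds hz)).hasDerivAt
      have dl : HasDerivAt (fun z : ℂ => (ρ : ℂ) * z) ρ z := by
        simpa using (hasDerivAt_id z).const_mul (ρ : ℂ)
      have daρ : HasDerivAt (fun z => a (ρ * z)) (deriv a (ρ * z) * ρ) z :=
        HasDerivAt.comp z da dl
      have e1 : deriv (fun z => a (ρ * z) * f z) z =
          deriv a (ρ * z) * ρ * f z + a (ρ * z) * deriv f z := (daρ.mul df).deriv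
      have e2 : deriv (fun z => q.eval z * f z) z =
          q.derivative.eval z * f z + q.eval z * deriv f z := ((q.hasDerivAt z).mul df).deriv
      rw [e1, e2]
      ring
    rw [En_congr e4]
    have hpt : ∀ z ∈ D, wt (p - 1) z * ‖(q.derivative.eval z - ρ * deriv a (ρ * z)) * f z +
          (q.eval z - a (ρ * z)) * deriv f z‖ₑ ^ p ≤
        ENNReal.ofReal ε ^ p * (2 ^ (p - 1) * (wt (p - 1) z * ‖f z‖ₑ ^ p +
          wt (p - 1) z * ‖deriv f z‖ₑ ^ p)) := by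
      intro z hz
      have c1 : ‖(q.derivative.eval z - ρ * deriv a (ρ * z)) * f z‖ₑ ^ p ≤
          ENNReal.ofReal ε ^ p * ‖f z‖ₑ ^ p := by
        rw [← ENNReal.mul_rpow_of_nonneg _ _ hp0.le, enorm_mul]
        refine ENNReal.rpow_le_rpow (mul_le_mul' ?_ le_rfl) hp0.le
        rw [← ofReal_norm_eq_enorm]
        exact ENNReal.ofReal_le_ofReal (hq z hz).2
      have c2 : ‖(q.eval z - a (ρ * z)) * deriv f z‖ₑ ^ p ≤
          ENNReal.ofReal ε ^ p * ‖deriv f z‖ₑ ^ p := by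
        rw [← ENNReal.mul_rpow_of_nonneg _ _ hp0.le, enorm_mul]
        refine ENNReal.rpow_le_rpow (mul_le_mul' ?_ le_rfl) hp0.le
        rw [← ofReal_norm_eq_enorm]
        exact ENNReal.ofReal_le_ofReal (hq z hz).1
      calc wt (p - 1) z * ‖(q.derivative.eval z - ρ * deriv a (ρ * z)) * f z +
          (q.eval z - a (ρ * z)) * deriv f z‖ₑ ^ p
          ≤ wt (p - 1) z * (2 ^ (p - 1) * (ENNReal.ofReal ε ^ p * ‖f z‖ₑ ^ p +
            ENNReal.ofReal ε ^ p * ‖deriv f z‖ₑ ^ p)) :=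
            mul_le_mul' le_rfl ((enorm_add_rpow_le hp1 _ _).trans
              (mul_le_mul' le_rfl (add_le_add c1 c2)))
        _ = _ := by ring
    unfold En at hK ⊢
    refine (setLIntegral_mono' measurableSet_ball hpt).trans ?_
    have hm : Measurable fun z => wt (p - 1) z * ‖f z‖ₑ ^ p :=
      (measurable_wt _).mul (hfm.enorm.pow_const p)
    rw [lintegral_const_mul' _ _ (ENNReal.rpow_ne_top_of_nonneg hp0.le ENNReal.ofReal_ne_top),
      lintegral_const_mul' _ _ (two_ne_top hp1), lintegral_add_left hm, hK]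

end Pool.Agent.Q82.OC
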