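import Pool.Agent.Q82.OC4
import Pool.Agent.Helper289.HardyIso

/-! The Littlewood–Paley estimate for bounded functions. -/

set_option autoImplicit false

namespace Pool.Agent.Q82.OC

open MeasureTheory Metric Set Complex Filter Topology
open scoped ENNReal Real

open Pool.Agent.Helper289.Hardy (mean2 mean2_series norm_pt)

/-- Taylor coefficients -/
noncomputable def tc (b : ℂ → ℂ) (n : ℕ) : ℂ := ((n.factorial : ℂ))⁻¹ * iteratedDeriv n b 0

theorem hasSum_tc {b : ℂ → ℂ} (hb : DifferentiableOn ℂ b D) {z : ℂ} (hz : z ∈ D) :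
    HasSum (fun n => tc b n * z ^ n) (b z) := by
  have h := Complex.hasSum_taylorSeries_on_ball hb hz
  have e : ∀ n : ℕ, ((n.factorial : ℂ))⁻¹ • (z - 0) ^ n • iteratedDeriv n b 0 =
      tc b n * z ^ n := by
    intro n
    simp only [tc, sub_zero, smul_eq_mul]
    ring
  simp only [e] at h
  exact h

theorem tc_zero (b : ℂ → ℂ) : tc b 0 = b 0 := by simp [tc]

theorem tc_deriv (b : ℂ → ℂ) (n : ℕ) : tc (deriv b) n = (n + 1) * tc b (n + 1) := by
  unfold tc
  rw [iteratedDeriv_succ', Nat.factorial_succ]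
  push_cast
  have h1 : (n.factorial : ℂ) ≠ 0 := by exact_mod_cast n.factorial_ne_zero
  have h2 : (n + 1 : ℂ) ≠ 0 := by exact_mod_cast n.succ_ne_zero
  field_simp

theorem summable_tc {b : ℂ → ℂ} (hb : DifferentiableOn ℂ b D) {r : ℝ} (h0 : 0 ≤ r) (h1 : r < 1) :
    Summable fun n => ‖tc b n‖ * r ^ n := by
  have hz : (r : ℂ) ∈ D := by
    rw [mem_ball_zero_iff, Complex.norm_real, Real.norm_of_nonneg h0]
    exact h1
  have h := (hasSum_tc hb hz).summable.norm
  refine h.congr fun n => ?_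
  rw [norm_mul, norm_pow, Complex.norm_real, Real.norm_of_nonneg h0]

theorem hasSum_mean {b : ℂ → ℂ} (hb : DifferentiableOn ℂ b D) {r : ℝ} (h0 : 0 ≤ r) (h1 : r < 1) :
    HasSum (fun n => ‖tc b n‖ ^ 2 * r ^ (2 * n)) (mean2 b r) := by
  refine mean2_series h0 (summable_tc hb h0 h1) fun z hz => ?_
  have : z ∈ D := by rw [mem_ball_zero_iff, hz]; exact h1
  exact (hasSum_tc hb this).tsum_eq.symm

theorem mean_le_one {b : ℂ → ℂ} (hb : DifferentiableOn ℂ b D) (h : ∀ z ∈ D, ‖b z‖ ≤ 1) {r : ℝ}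
    (h0 : 0 ≤ r) (h1 : r < 1) : mean2 b r ≤ 1 := by
  unfold mean2
  have hpi : 0 < 2 * π := by positivity
  have hmem : ∀ t : ℝ, (r : ℂ) * exp (t * I) ∈ D := fun t => by
    rw [mem_ball_zero_iff, norm_pt r t h0]; exact h1
  have e : ∫ t in (0 : ℝ)..(2 * π), ‖b (r * exp (t * I))‖ ^ 2 ≤ ∫ t in (0 : ℝ)..(2 * π), (1 : ℝ) := by
    refine intervalIntegral.integral_mono_on hpi.le ?_ intervalIntegrable_const ?_
    · refine ContinuousOn.intervalIntegrable ?_
      have : Continuous fun t : ℝ => b (r * exp (t * I)) :=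
        hb.continuousOn.comp_continuous (by fun_prop) hmem
      exact (this.norm.pow 2).continuousOn
    · intro t _
      exact pow_le_one₀ (norm_nonneg _) (h _ (hmem t))
  rw [intervalIntegral.integral_const, sub_zero, smul_eq_mul, mul_one] at e
  calc (2 * π)⁻¹ * _ ≤ (2 * π)⁻¹ * (2 * π) := by gcongr
    _ = 1 := inv_mul_cancel₀ hpi.ne'

theorem sum_tc_le {b : ℂ → ℂ} (hb : DifferentiableOn ℂ b D) (h : ∀ z ∈ D, ‖b z‖ ≤ 1) (N : ℕ) :
    ∑ n ∈ Finset.range N, ‖tc b n‖ ^ 2 ≤ 1 := by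
  have h1 : ∀ r : ℝ, 0 ≤ r → r < 1 → ∑ n ∈ Finset.range N, ‖tc b n‖ ^ 2 * r ^ (2 * n) ≤ 1 := by
    intro r h0 h1
    exact ((hasSum_mean hb h0 h1).summable.sum_le_tsum _ (fun n _ => by positivity)).trans
      ((hasSum_mean hb h0 h1).tsum_eq.le.trans (mean_le_one hb h h0 h1))
  have h2 : Tendsto (fun r : ℝ => ∑ n ∈ Finset.range N, ‖tc b n‖ ^ 2 * r ^ (2 * n)) (𝓝[<] 1)
      (𝓝 (∑ n ∈ Finset.range N, ‖tc b n‖ ^ 2 * 1 ^ (2 * n))) := by
    refine Tendsto.mono_left ?_ nhdsWithin_le_nhds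
    exact Continuous.tendsto (by fun_prop) 1
  simp only [one_pow, mul_one] at h2
  refine le_of_tendsto h2 ?_
  filter_upwards [nhdsLT_ge (show (0 : ℝ) < 1 by norm_num), nhdsLT_lt] with r h3 h4
  exact h1 r h3 h4

theorem summable_tc_sq {b : ℂ → ℂ} (hb : DifferentiableOn ℂ b D) (h : ∀ z ∈ D, ‖b z‖ ≤ 1) :
    Summable fun n => ‖tc b n‖ ^ 2 :=
  summable_of_sum_range_le (fun n => by positivity) (sum_tc_le hb h)

theorem tsum_tc_le {b : ℂ → ℂ} (hb : DifferentiableOn ℂ b D) (h : ∀ z ∈ D, ‖b z‖ ≤ 1) :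
    ∑' n, ‖tc b (n + 1)‖ ^ 2 ≤ 1 - ‖b 0‖ ^ 2 := by
  have h1 := (summable_tc_sq hb h).tsum_le_of_sum_range_le (sum_tc_le hb h)
  have h2 := (summable_tc_sq hb h).tsum_eq_zero_add
  rw [h2, tc_zero] at h1
  linarith

/-- the radial integral -/
theorem radial_int (n : ℕ) : ∫⁻ r in Ioo (0 : ℝ) 1, ENNReal.ofReal (r * (1 - r) * r ^ (2 * n)) =
    ENNReal.ofReal (1 / ((2 * n + 2) * (2 * n + 3))) := by
  rw [← ofReal_integral_eq_lintegral_ofReal]
  · congr 1
    rw [← integral_Ioc_eq_integral_Ioo, ← intervalIntegral.integral_of_le zero_le_one]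
    have e : ∀ r : ℝ, r * (1 - r) * r ^ (2 * n) = r ^ (2 * n + 1) - r ^ (2 * n + 2) := by
      intro r; ring
    simp only [e]
    rw [intervalIntegral.integral_sub (by simp) (by simp), integral_pow, integral_pow]
    push_cast
    field_simp
    ring
  · have : Continuous fun r : ℝ => r * (1 - r) * r ^ (2 * n) := by fun_prop
    exact (this.integrableOn_Icc (a := 0) (b := 1)).mono_set Ioo_subset_Icc_self
  · refine (ae_restrict_iff' measurableSet_Ioo).2 (Eventually.of_forall fun r hr => ?_)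
    have : 0 ≤ 1 - r := by linarith [hr.2]
    have h2 : 0 ≤ r := hr.1.le
    positivity

/-- integrals over circles -/
theorem circle_int {g : ℂ → ℂ} (hg : ContinuousOn g D) {r : ℝ} (h0 : 0 ≤ r) (h1 : r < 1) :
    ∫⁻ t in Ioo (-π) π, ‖g (r * (Real.cos t + Real.sin t * I))‖ₑ ^ (2 : ℝ) =
      ENNReal.ofReal (2 * π * mean2 g r) := by
  have hmem : ∀ t : ℝ, (r : ℂ) * exp (t * I) ∈ D := fun t => by
    rw [mem_ball_zero_iff, norm_pt r t h0]; exact h1
  have hc : Continuous fun t : ℝ => g (r * exp (t * I)) :=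
    hg.comp_continuous (by fun_prop) hmem
  have e1 : ∀ t : ℝ, ‖g (r * (Real.cos t + Real.sin t * I))‖ₑ ^ (2 : ℝ) =
      ENNReal.ofReal (‖g (r * exp (t * I))‖ ^ 2) := by
    intro t
    have : (Real.cos t : ℂ) + Real.sin t * I = exp (t * I) := by
      rw [Complex.exp_mul_I]; simp
    rw [this, ← ofReal_norm_eq_enorm, ENNReal.ofReal_rpow_of_nonneg (norm_nonneg _) (by norm_num)]
    congr 1
    exact Real.rpow_two _
  simp only [e1]
  rw [← ofReal_integral_eq_lintegral_ofReal]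
  · congr 1
    unfold mean2
    rw [← integral_Ioc_eq_integral_Ioo, ← intervalIntegral.integral_of_le (by linarith [Real.pi_pos])]
    have hper : Function.Periodic (fun t : ℝ => ‖g (r * exp (t * I))‖ ^ 2) (2 * π) := by
      intro t
      simp only [ofReal_add, ofReal_mul, ofReal_ofNat, add_mul]
      rw [Complex.exp_add, Complex.exp_two_pi_mul_I, mul_one]
    have h2 := hper.intervalIntegral_add_eq (-π) 0
    have h3 : -π + 2 * π = π := by ring
    rw [h3, zero_add] at h2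
    rw [h2]
    have hpi : 2 * π ≠ 0 := by positivity
    rw [mul_inv_cancel_left₀ hpi]
  · exact ((hc.norm.pow 2).integrableOn_Icc).mono_set Ioo_subset_Icc_self
  · exact Eventually.of_forall fun t => by positivity

/-- polar coordinates in the disc -/
theorem polar_disc {g : ℂ → ℂ} (hg : ContinuousOn g D) (hgm : Measurable g) :
    ∫⁻ z in D, wt 1 z * ‖g z‖ₑ ^ (2 : ℝ) =
      ∫⁻ r in Ioo (0 : ℝ) 1, ENNReal.ofReal (r * (1 - r)) * ENNReal.ofReal (2 * π * mean2 g r) := by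
  set F : ℂ → ℝ≥0∞ := D.indicator (fun z => wt 1 z * ‖g z‖ₑ ^ (2 : ℝ)) with hF
  have hFm : Measurable F :=
    ((measurable_wt 1).mul (hgm.enorm.pow_const 2)).indicator measurableSet_ball
  have h1 : ∫⁻ z in D, wt 1 z * ‖g z‖ₑ ^ (2 : ℝ) = ∫⁻ z, F z := by
    rw [hF, lintegral_indicator measurableSet_ball]
  rw [h1, ← Complex.lintegral_comp_polarCoord_symm]
  rw [polarCoord_target, Measure.volume_eq_prod, ← Measure.prod_restrict,
    lintegral_prod]
  · have h2 : ∀ r ∈ Ioi (0 : ℝ), ∫⁻ t in Ioo (-π) π,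
        ENNReal.ofReal r • F (Complex.polarCoord.symm (r, t)) =
        (Ioo (0 : ℝ) 1).indicator (fun r => ENNReal.ofReal (r * (1 - r)) *
          ENNReal.ofReal (2 * π * mean2 g r)) r := by
      intro r hr
      have hr0 : 0 < r := hr
      have e2 : ∀ t : ℝ, Complex.polarCoord.symm (r, t) = r * (Real.cos t + Real.sin t * I) := by
        intro t
        rw [Complex.polarCoord_symm_apply]
      have hn : ∀ t : ℝ, ‖(r : ℂ) * (Real.cos t + Real.sin t * I)‖ = r := by
        intro t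
        have : (Real.cos t : ℂ) + Real.sin t * I = exp (t * I) := by
          rw [Complex.exp_mul_I]; simp
        rw [this]
        exact norm_pt r t hr0.le
      simp only [e2, smul_eq_mul]
      by_cases h : r < 1
      · rw [indicator_of_mem (show r ∈ Ioo (0 : ℝ) 1 from ⟨hr0, h⟩), ← circle_int hg hr0.le h]
        have e3 : ∀ t : ℝ, ENNReal.ofReal r * F (r * (Real.cos t + Real.sin t * I)) =
            ENNReal.ofReal (r * (1 - r)) * ‖g (r * (Real.cos t + Real.sin t * I))‖ₑ ^ (2 : ℝ) := by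
          intro t
          rw [hF, indicator_of_mem (by rw [mem_ball_zero_iff, hn t]; exact h)]
          unfold wt
          rw [hn t, Real.rpow_one, ← mul_assoc, ← ENNReal.ofReal_mul hr0.le]
        simp only [e3]
        rw [lintegral_const_mul' _ _ ENNReal.ofReal_ne_top]
      · rw [indicator_of_notMem (fun h' => h h'.2)]
        have e3 : ∀ t : ℝ, ENNReal.ofReal r * F (r * (Real.cos t + Real.sin t * I)) = 0 := by
          intro t
          rw [hF, indicator_of_notMem (by rw [mem_ball_zero_iff, hn t]; exact h), mul_zero]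
        simp only [e3]
        simp
    rw [setLIntegral_congr_fun measurableSet_Ioi h2, lintegral_indicator measurableSet_Ioo,
      Measure.restrict_restrict measurableSet_Ioo]
    congr 2
    ext x
    simp only [mem_inter_iff, mem_Ioo, mem_Ioi]
    tauto
  · refine Measurable.aemeasurable ?_
    have hc : Continuous fun q : ℝ × ℝ => (q.1 : ℂ) * (Real.cos q.2 + Real.sin q.2 * I) := by
      fun_prop
    have hm1 : Measurable fun q : ℝ × ℝ => ENNReal.ofReal q.1 := by fun_prop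
    have hsymm : (fun q : ℝ × ℝ => Complex.polarCoord.symm q) =
        fun q : ℝ × ℝ => (q.1 : ℂ) * (Real.cos q.2 + Real.sin q.2 * I) := by
      funext q
      rw [Complex.polarCoord_symm_apply]
    have hm2 : Measurable fun q : ℝ × ℝ => Complex.polarCoord.symm q := by
      rw [hsymm]; exact hc.measurable
    exact hm1.mul (hFm.comp hm2)

/-- **Littlewood–Paley for bounded functions.** -/
theorem lp_two {b : ℂ → ℂ} (hb : DifferentiableOn ℂ b D) (h : ∀ z ∈ D, ‖b z‖ ≤ 1) :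
    ∫⁻ z in D, wt 1 z * ‖deriv b z‖ₑ ^ (2 : ℝ) ≤ ENNReal.ofReal (2 * π * (1 - ‖b 0‖ ^ 2)) := by
  have hd := hb.deriv isOpen_ball
  rw [polar_disc hd.continuousOn (measurable_deriv b)]
  have e1 : ∀ r ∈ Ioo (0 : ℝ) 1, ENNReal.ofReal (r * (1 - r)) *
      ENNReal.ofReal (2 * π * mean2 (deriv b) r) =
      ∑' n : ℕ, ENNReal.ofReal (2 * π * ((n + 1) ^ 2 * ‖tc b (n + 1)‖ ^ 2)) *
        ENNReal.ofReal (r * (1 - r) * r ^ (2 * n)) := by
    intro r hr
    have hs := hasSum_mean hd hr.1.le hr.2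
    have h1 : 0 ≤ r * (1 - r) := mul_nonneg hr.1.le (by linarith [hr.2])
    have hpi := Real.pi_pos
    rw [← ENNReal.ofReal_mul h1, ← hs.tsum_eq]
    have e2 : r * (1 - r) * (2 * π * ∑' n, ‖tc (deriv b) n‖ ^ 2 * r ^ (2 * n)) =
        ∑' n, (2 * π * ((n + 1) ^ 2 * ‖tc b (n + 1)‖ ^ 2)) * (r * (1 - r) * r ^ (2 * n)) := by
      rw [← tsum_mul_left, ← tsum_mul_left]
      refine tsum_congr fun n => ?_
      rw [tc_deriv, norm_mul, mul_pow]
      have : ‖((n : ℂ) + 1)‖ = n + 1 := by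
        have := Complex.norm_natCast (n + 1)
        push_cast at this
        exact this
      rw [this]
      ring
    rw [e2, ENNReal.ofReal_tsum_of_nonneg]
    · refine tsum_congr fun n => ?_
      rw [ENNReal.ofReal_mul (by positivity)]
    · intro n
      have : 0 ≤ r ^ (2 * n) := by have := hr.1.le; positivity
      positivity
    · have := (hs.summable.mul_left (2 * π)).mul_left (r * (1 - r))
      refine this.congr fun n => ?_
      rw [tc_deriv, norm_mul, mul_pow]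
      have : ‖((n : ℂ) + 1)‖ = n + 1 := by
        have := Complex.norm_natCast (n + 1)
        push_cast at this
        exact this
      rw [this]
      ring
  rw [setLIntegral_congr_fun measurableSet_Ioo e1, lintegral_tsum]
  · have e3 : ∀ n : ℕ, ∫⁻ r in Ioo (0 : ℝ) 1, ENNReal.ofReal (2 * π *
        ((n + 1) ^ 2 * ‖tc b (n + 1)‖ ^ 2)) * ENNReal.ofReal (r * (1 - r) * r ^ (2 * n)) ≤
        ENNReal.ofReal (2 * π * ‖tc b (n + 1)‖ ^ 2) := by
      intro n
      have hpi := Real.pi_pos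
      rw [lintegral_const_mul' _ _ ENNReal.ofReal_ne_top, radial_int,
        ← ENNReal.ofReal_mul (by positivity)]
      refine ENNReal.ofReal_le_ofReal ?_
      have h4 : ((n : ℝ) + 1) ^ 2 * (1 / ((2 * n + 2) * (2 * n + 3))) ≤ 1 := by
        rw [mul_one_div, div_le_one (by positivity)]
        nlinarith [(Nat.cast_nonneg n : (0 : ℝ) ≤ n)]
      calc 2 * π * ((n + 1) ^ 2 * ‖tc b (n + 1)‖ ^ 2) * (1 / ((2 * n + 2) * (2 * n + 3)))
          = 2 * π * ‖tc b (n + 1)‖ ^ 2 * (((n : ℝ) + 1) ^ 2 * (1 / ((2 * n + 2) * (2 * n + 3)))) := by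
            ring
        _ ≤ 2 * π * ‖tc b (n + 1)‖ ^ 2 * 1 := by gcongr
        _ = _ := mul_one _
    refine (ENNReal.tsum_le_tsum e3).trans ?_
    have hs2 := (summable_nat_add_iff 1).2 (summable_tc_sq hb h)
    rw [← ENNReal.ofReal_tsum_of_nonneg (fun n => by positivity) (hs2.mul_left (2 * π))]
    refine ENNReal.ofReal_le_ofReal ?_
    rw [tsum_mul_left]
    have := tsum_tc_le hb h
    gcongr
  · intro n
    refine Measurable.aemeasurable ?_
    fun_prop

/-- the energy of bounded functions -/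
theorem En_bounded {p : ℝ} (hp : 2 ≤ p) {b : ℂ → ℂ} (hb : DifferentiableOn ℂ b D)
    (h : ∀ z ∈ D, ‖b z‖ ≤ 1) :
    En p (deriv b) ≤ 2 ^ (p - 2) * ENNReal.ofReal (2 * π * (1 - ‖b 0‖ ^ 2)) := by
  refine le_trans ?_ (mul_le_mul' le_rfl (lp_two hb h))
  unfold En
  rw [← lintegral_const_mul' _ _ (ENNReal.rpow_ne_top_of_nonneg (by linarith) (by norm_num))]
  refine setLIntegral_mono' measurableSet_ball fun z hz => ?_
  have hz1 : ‖z‖ < 1 := by simpa using hz
  have hpos : 0 < 1 - ‖z‖ := by linarith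
  have hc := cauchy_est hb h hz
  rw [mul_one, le_div_iff₀ hpos] at hc
  unfold wt
  rw [← ofReal_norm_eq_enorm, ENNReal.ofReal_rpow_of_nonneg (norm_nonneg _) (by linarith),
    ENNReal.ofReal_rpow_of_nonneg (norm_nonneg _) (by norm_num),
    ← ENNReal.ofReal_mul (Real.rpow_nonneg hpos.le _),
    ← ENNReal.ofReal_mul (Real.rpow_nonneg hpos.le _)]
  have e2 : (2 : ℝ≥0∞) ^ (p - 2) = ENNReal.ofReal (2 ^ (p - 2)) := by
    rw [← ENNReal.ofReal_rpow_of_pos (by norm_num)]
    norm_num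
  rw [e2, ← ENNReal.ofReal_mul (by positivity)]
  refine ENNReal.ofReal_le_ofReal ?_
  set y : ℝ := ‖deriv b z‖ with hy
  have hy0 : 0 ≤ y := norm_nonneg _
  have s1 : y ^ p = y ^ (p - 2) * y ^ (2 : ℝ) := by
    rw [← Real.rpow_add_of_nonneg hy0 (by linarith) (by norm_num)]
    congr 1
    ring
  have s2 : (1 - ‖z‖) ^ (p - 1) = (1 - ‖z‖) ^ (p - 2) * (1 - ‖z‖) ^ (1 : ℝ) := by
    rw [← Real.rpow_add hpos]
    congr 1
    ring
  have s3 : y ^ (p - 2) * (1 - ‖z‖) ^ (p - 2) ≤ 2 ^ (p - 2) := by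
    rw [← Real.mul_rpow hy0 hpos.le]
    exact Real.rpow_le_rpow (by positivity) hc (by linarith)
  calc (1 - ‖z‖) ^ (p - 1) * y ^ p =
        (y ^ (p - 2) * (1 - ‖z‖) ^ (p - 2)) * ((1 - ‖z‖) ^ (1 : ℝ) * y ^ (2 : ℝ)) := by
        rw [s1, s2]; ring
    _ ≤ 2 ^ (p - 2) * ((1 - ‖z‖) ^ (1 : ℝ) * y ^ (2 : ℝ)) := by
        have : 0 ≤ (1 - ‖z‖) ^ (1 : ℝ) * y ^ (2 : ℝ) :=
          mul_nonneg (Real.rpow_nonneg hpos.le _) (Real.rpow_nonneg hy0 _)
        gcongr

end Pool.Agent.Q82.OC
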