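import Pool.Agent.Q82.OC5

/-! Outer functions and their bounded multiples. -/

set_option autoImplicit false

namespace Pool.Agent.Q82.OC

open MeasureTheory Metric Set Complex Filter Topology
open scoped ENNReal Real

/-- the Herglotz transform -/
noncomputable def Hz (κ : ℂ → ℝ) (z : ℂ) : ℂ :=
  Real.circleAverage (fun ζ => herglotzRieszKernel 0 z ζ • (κ ζ : ℂ)) 0 1

theorem circ_ofReal {κ : ℂ → ℝ} (hκ : CircleIntegrable κ 0 1) :
    CircleIntegrable (fun ζ => (κ ζ : ℂ)) 0 1 := by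
  simp only [CircleIntegrable, intervalIntegrable_iff] at hκ ⊢
  exact Complex.ofRealCLM.integrable_comp hκ

theorem circ_kernel {κ : ℂ → ℝ} (hκ : CircleIntegrable κ 0 1) {z : ℂ} (hz : z ∈ D) :
    CircleIntegrable (fun ζ => herglotzRieszKernel 0 z ζ • (κ ζ : ℂ)) 0 1 :=
  (circ_ofReal hκ).continuousOn_smul (continuousOn_herglotzRieszKernel_sphere hz)

theorem Hz_diff {κ : ℂ → ℝ} (hκ : CircleIntegrable κ 0 1) : DifferentiableOn ℂ (Hz κ) D :=
  fun _ hz => (hasDerivAt_circleAverage_herglotzRieszKernel_smul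
    (circ_ofReal hκ) hz).differentiableAt.differentiableWithinAt

theorem Hz_sub {κ ν : ℂ → ℝ} (hκ : CircleIntegrable κ 0 1) (hν : CircleIntegrable ν 0 1) {z : ℂ}
    (hz : z ∈ D) : Hz (fun ζ => κ ζ - ν ζ) z = Hz κ z - Hz ν z := by
  unfold Hz
  rw [← Real.circleAverage_fun_sub (circ_kernel hκ hz) (circ_kernel hν hz)]
  congr 1
  funext ζ
  push_cast
  rw [smul_sub]

theorem Hz_re {κ : ℂ → ℝ} (hκ : CircleIntegrable κ 0 1) {z : ℂ} (hz : z ∈ D) :
    (Hz κ z).re = Real.circleAverage ((Complex.re ∘ herglotzRieszKernel 0 z) • κ) 0 1 :=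
  re_circleAverage_herglotzRieszKernel_smul hκ hz

theorem kernel_re_nonneg {z ζ : ℂ} (hz : z ∈ D) (hζ : ζ ∈ sphere (0 : ℂ) 1) :
    0 ≤ (herglotzRieszKernel 0 z ζ).re := by
  have h := le_re_herglotzRieszKernel hζ hz
  rw [herglotzRieszKernel_def]
  refine le_trans ?_ h
  have hz1 : ‖z - 0‖ < 1 := by simpa using hz
  have : 0 ≤ 1 - ‖z - 0‖ := by linarith
  positivity

theorem circ_re_kernel {κ : ℂ → ℝ} (hκ : CircleIntegrable κ 0 1) {z : ℂ} (hz : z ∈ D) :
    CircleIntegrable ((Complex.re ∘ herglotzRieszKernel 0 z) • κ) 0 1 := by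
  refine hκ.continuousOn_smul ?_
  exact Complex.continuous_re.comp_continuousOn (continuousOn_herglotzRieszKernel_sphere hz)

theorem Hz_re_mono {κ ν : ℂ → ℝ} (hκ : CircleIntegrable κ 0 1) (hν : CircleIntegrable ν 0 1)
    (h : ∀ ζ ∈ sphere (0 : ℂ) 1, κ ζ ≤ ν ζ) {z : ℂ} (hz : z ∈ D) : (Hz κ z).re ≤ (Hz ν z).re := by
  rw [Hz_re hκ hz, Hz_re hν hz]
  refine Real.circleAverage_mono (circ_re_kernel hκ hz) (circ_re_kernel hν hz) ?_
  intro ζ hζ
  rw [abs_one] at hζ
  simp only [Pi.smul_apply', Function.comp_apply, smul_eq_mul]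
  exact mul_le_mul_of_nonneg_left (h ζ hζ) (kernel_re_nonneg hz hζ)

theorem Hz_const (s : ℝ) {z : ℂ} (hz : z ∈ D) : (Hz (fun _ => s) z).re = s := by
  rw [Hz_re (circleIntegrable_const _ _ _) hz]
  have h := DiffContOnCl.circleAverage_re_herglotzRieszKernel_smul (E := ℂ)
    (f := fun _ => (s : ℂ)) (c := 0) (R := 1) (diffContOnCl_const) hz
  have h2 := congrArg Complex.re h
  rw [ofReal_re] at h2
  refine Eq.trans ?_ h2
  have h3 : CircleIntegrable ((Complex.re ∘ herglotzRieszKernel 0 z) • fun _ => (s : ℂ)) 0 1 := by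
    refine (circleIntegrable_const _ _ _).continuousOn_smul ?_
    exact Complex.continuous_re.comp_continuousOn (continuousOn_herglotzRieszKernel_sphere hz)
  have h4 := Complex.reCLM.circleAverage_comp_comm h3
  have h5 : (Real.circleAverage ((Complex.re ∘ herglotzRieszKernel 0 z) • fun _ => (s : ℂ)) 0 1).re =
      Complex.reCLM (Real.circleAverage
        ((Complex.re ∘ herglotzRieszKernel 0 z) • fun _ => (s : ℂ)) 0 1) := rfl
  rw [h5, ← h4]
  congr 1
  funext ζ
  simp

theorem Hz_zero (κ : ℂ → ℝ) : Hz κ 0 = ((Real.circleAverage κ 0 1 : ℝ) : ℂ) := by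
  unfold Hz
  have e : ∀ ζ ∈ sphere (0 : ℂ) |1|, herglotzRieszKernel 0 0 ζ • (κ ζ : ℂ) = (κ ζ : ℂ) := by
    intro ζ hζ
    have h0 : ζ ≠ 0 := by
      rintro rfl
      simp at hζ
    rw [herglotzRieszKernel_def]
    simp [h0]
  rw [Real.circleAverage_congr_sphere e, Real.circleAverage_def, Real.circleAverage_def]
  rw [intervalIntegral.integral_ofReal, Complex.real_smul, smul_eq_mul, Complex.ofReal_mul]

/-- truncations -/
noncomputable def trunc (κ : ℂ → ℝ) (n : ℕ) (ζ : ℂ) : ℝ := max (κ ζ) (-(n : ℝ))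

theorem circ_trunc {κ : ℂ → ℝ} (hκ : CircleIntegrable κ 0 1) (n : ℕ) :
    CircleIntegrable (trunc κ n) 0 1 := by
  have h2 : CircleIntegrable (fun _ : ℂ => -(n : ℝ)) 0 1 := circleIntegrable_const _ _ _
  simp only [CircleIntegrable, intervalIntegrable_iff] at hκ h2 ⊢
  exact hκ.sup h2

/-- **bounded multiples of outer functions** -/
theorem outer_mult {f : ℂ → ℂ} {c : ℂ} (hc : ‖c‖ = 1) {κ : ℂ → ℝ} (hκ : CircleIntegrable κ 0 1)
    (hf : ∀ z ∈ D, f z = c * exp (Hz κ z)) :
    ∃ a : ℕ → ℂ → ℂ, (∀ n, DifferentiableOn ℂ (a n) D) ∧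
      (∀ n, ∀ z ∈ D, ‖a n z‖ ≤ Real.exp n) ∧ (∀ n, ∀ z ∈ D, ‖a n z * f z‖ ≤ 1) ∧
      Tendsto (fun n => a n 0 * f 0) atTop (𝓝 1) := by
  have hc0 : c ≠ 0 := by rintro rfl; simp at hc
  have hprod : ∀ n, ∀ z ∈ D, c⁻¹ * exp (-Hz (trunc κ n) z) * f z =
      exp (Hz (fun ζ => κ ζ - trunc κ n ζ) z) := by
    intro n z hz
    rw [hf z hz, Hz_sub hκ (circ_trunc hκ n) hz, sub_eq_add_neg, Complex.exp_add]
    field_simp
  refine ⟨fun n z => c⁻¹ * exp (-Hz (trunc κ n) z), fun n => ?_, fun n z hz => ?_,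
    fun n z hz => ?_, ?_⟩
  · exact ((Hz_diff (circ_trunc hκ n)).neg.cexp).const_mul _
  · rw [norm_mul, norm_inv, hc, inv_one, one_mul, Complex.norm_exp, neg_re]
    refine Real.exp_le_exp.2 ?_
    have h1 := Hz_re_mono (circleIntegrable_const (-(n : ℝ)) 0 1) (circ_trunc hκ n)
      (fun ζ _ => le_max_right _ _) hz
    rw [Hz_const _ hz] at h1
    linarith
  · rw [hprod n z hz, Complex.norm_exp]
    rw [← Real.exp_zero]
    refine Real.exp_le_exp.2 ?_
    have h1 := Hz_re_mono (κ := fun ζ => κ ζ - trunc κ n ζ) (ν := fun _ => 0)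
      (hκ.sub (circ_trunc hκ n)) (circleIntegrable_const 0 0 1)
      (fun ζ _ => by unfold trunc; linarith [le_max_left (κ ζ) (-(n : ℝ))]) hz
    rwa [Hz_const _ hz] at h1
  · have h0 : (0 : ℂ) ∈ D := by simp
    have e : ∀ n, c⁻¹ * exp (-Hz (trunc κ n) 0) * f 0 =
        exp ((Real.circleAverage (fun ζ => κ ζ - trunc κ n ζ) 0 1 : ℝ) : ℂ) := by
      intro n
      rw [hprod n 0 h0, Hz_zero]
    simp only [e]
    have hlim : Tendsto (fun n : ℕ => Real.circleAverage (fun ζ => κ ζ - trunc κ n ζ) 0 1) atTop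
        (𝓝 0) := by
      simp only [Real.circleAverage_def, smul_eq_mul]
      have h2 : Tendsto (fun n : ℕ => ∫ θ in (0 : ℝ)..(2 * π), (κ (circleMap 0 1 θ) -
          trunc κ n (circleMap 0 1 θ))) atTop (𝓝 (∫ θ in (0 : ℝ)..(2 * π), (0 : ℝ))) := by
        refine intervalIntegral.tendsto_integral_filter_of_dominated_convergence
          (fun θ => |κ (circleMap 0 1 θ)|) ?_ ?_ ?_ ?_
        · refine Eventually.of_forall fun n => ?_
          have := (hκ.sub (circ_trunc hκ n))
          simp only [CircleIntegrable, intervalIntegrable_iff] at this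
          exact this.aestronglyMeasurable
        · refine Eventually.of_forall fun n => Eventually.of_forall fun θ _ => ?_
          unfold trunc
          rw [Real.norm_eq_abs]
          set x := κ (circleMap 0 1 θ)
          have hn : (0 : ℝ) ≤ n := Nat.cast_nonneg n
          rcases le_or_gt (-(n : ℝ)) x with h | h
          · rw [max_eq_left h, sub_self, abs_zero]; positivity
          · rw [max_eq_right h.le, abs_of_nonpos (by linarith), abs_of_nonpos (by linarith)]
            linarith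
        · exact hκ.abs
        · refine Eventually.of_forall fun θ _ => ?_
          refine tendsto_const_nhds.congr' ?_
          obtain ⟨N, hN⟩ := exists_nat_ge (-(κ (circleMap 0 1 θ)))
          filter_upwards [eventually_ge_atTop N] with n hn
          unfold trunc
          have : (N : ℝ) ≤ n := by exact_mod_cast hn
          rw [max_eq_left (by linarith), sub_self]
      simp only [intervalIntegral.integral_zero] at h2
      have := h2.const_mul ((2 * π)⁻¹)
      simpa using this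
    have h3 : Tendsto (fun n : ℕ => exp
        ((Real.circleAverage (fun ζ => κ ζ - trunc κ n ζ) 0 1 : ℝ) : ℂ)) atTop (𝓝 (exp ((0 : ℝ) : ℂ))) :=
      ((Complex.continuous_exp.comp Complex.continuous_ofReal).tendsto 0).comp hlim
    simpa using h3

end Pool.Agent.Q82.OC
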