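import Pool.Agent.Q82.OC6

/-! Outer functions are cyclic. -/

set_option autoImplicit false

namespace Pool.Agent.Q82.OC

open MeasureTheory Metric Set Complex Filter Topology
open scoped ENNReal Real

theorem En_deriv_congr {p : ℝ} {g h : ℂ → ℂ} (H : ∀ z ∈ D, g z = h z) :
    En p (deriv g) = En p (deriv h) := by
  refine En_congr fun z hz => ?_
  exact Filter.EventuallyEq.deriv_eq (Filter.eventuallyEq_of_mem (isOpen_ball.mem_nhds hz) H)

theorem meas_piecewise {g : ℂ → ℂ} (hg : ContinuousOn g D) [∀ z : ℂ, Decidable (z ∈ D)] :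
    Measurable (D.piecewise g 0) :=
  ContinuousOn.measurable_piecewise hg continuousOn_const measurableSet_ball

/-- the core statement, for measurable `f` -/
theorem cyclic_core {p : ℝ} (hp : 2 ≤ p) {f : ℂ → ℂ} (hf : DifferentiableOn ℂ f D)
    (hfm : Measurable f) (hfE : En p (deriv f) ≠ ⊤) (a : ℕ → ℂ → ℂ)
    (ha : ∀ n, DifferentiableOn ℂ (a n) D) (ham : ∀ n, Measurable (a n))
    (hab : ∀ n : ℕ, ∀ z ∈ D, ‖a n z‖ ≤ Real.exp n)
    (hb : ∀ n, ∀ z ∈ D, ‖a n z * f z‖ ≤ 1)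
    (hlim : Tendsto (fun n => a n 0 * f 0) atTop (𝓝 1)) {δ : ℝ≥0∞} (hδ : 0 < δ) :
    ∃ q : Polynomial ℂ, ‖q.eval 0 * f 0 - 1‖ₑ ≤ δ ∧ En p (deriv fun z => q.eval z * f z) ≤ δ := by
  have hp1 : 1 ≤ p := by linarith
  set K : ℝ≥0∞ := 2 ^ (p - 1) * (1 + 2 ^ (p - 1) * 2) with hK
  have hKt : K ≠ ⊤ := ENNReal.mul_ne_top (two_ne_top hp1) (ENNReal.add_ne_top.2
    ⟨by norm_num, ENNReal.mul_ne_top (two_ne_top hp1) (by norm_num)⟩)
  have h2pos : (2 : ℝ≥0∞) ^ (p - 1) ≠ 0 := by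
    rw [Ne, ENNReal.rpow_eq_zero_iff]
    rintro (⟨h, _⟩ | ⟨h, _⟩)
    · norm_num at h
    · exact absurd h (by norm_num)
  have hK0 : K ≠ 0 := mul_ne_zero h2pos (by
    intro h
    have := (add_eq_zero.1 h).1
    norm_num at this)
  set η : ℝ≥0∞ := min (δ / K) (δ / 2) with hη
  have hη0 : 0 < η := lt_min (ENNReal.div_pos hδ.ne' hKt) (ENNReal.half_pos hδ.ne')
  -- choose n
  have hbd : ∀ n, DifferentiableOn ℂ (fun z => a n z * f z) D := fun n => (ha n).mul hf
  have hE : Tendsto (fun n => En p (deriv fun z => a n z * f z)) atTop (𝓝 0) := by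
    have h1 : Tendsto (fun n => 2 ^ (p - 2) * ENNReal.ofReal (2 * π * (1 - ‖a n 0 * f 0‖ ^ 2)))
        atTop (𝓝 0) := by
      have h2 : Tendsto (fun n => 2 * π * (1 - ‖a n 0 * f 0‖ ^ 2)) atTop
          (𝓝 (2 * π * (1 - ‖(1 : ℂ)‖ ^ 2))) :=
        ((hlim.norm.pow 2).const_sub 1).const_mul (2 * π)
      rw [norm_one, one_pow, sub_self, mul_zero] at h2
      have h3 := ENNReal.tendsto_ofReal h2
      rw [ENNReal.ofReal_zero] at h3
      have h4 := ENNReal.Tendsto.const_mul (a := (2 : ℝ≥0∞) ^ (p - 2)) h3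
        (Or.inr (ENNReal.rpow_ne_top_of_nonneg (by linarith) (by norm_num)))
      simpa using h4
    refine tendsto_of_tendsto_of_tendsto_of_le_of_le tendsto_const_nhds h1
      (fun _ => by simp) (fun n => En_bounded hp (hbd n) (hb n))
  have hV : Tendsto (fun n => ‖a n 0 * f 0 - 1‖ₑ) atTop (𝓝 0) := by
    have := (hlim.sub_const 1).enorm
    simpa using this
  rw [ENNReal.tendsto_nhds_zero] at hE hV
  obtain ⟨n, hn1, hn2⟩ := ((hE η hη0).and (hV η hη0)).exists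
  -- choose ρ
  have hbE : En p (deriv fun z => a n z * f z) ≠ ⊤ := by
    refine ne_top_of_le_ne_top ?_ (En_bounded hp (hbd n) (hb n))
    exact ENNReal.mul_ne_top (ENNReal.rpow_ne_top_of_nonneg (by linarith) (by norm_num))
      ENNReal.ofReal_ne_top
  have hP := prod_tendsto hp hf hfm (ham n) hfE (ha n) (Real.exp_pos _).le (hab n) hbE
  rw [ENNReal.tendsto_nhds_zero] at hP
  obtain ⟨ρ, hρ1, hρ2, hρ3⟩ := ((hP η hη0).and ((nhdsLT_ge (show (0 : ℝ) < 1 by norm_num)).and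
    nhdsLT_lt)).exists
  obtain ⟨q, hq1, hq2⟩ := poly_prod hp hf hfm hfE (ha n) hρ2 hρ3 hη0
  refine ⟨q, ?_, ?_⟩
  · have e : q.eval 0 * f 0 - 1 = (q.eval 0 * f 0 - a n 0 * f 0) + (a n 0 * f 0 - 1) := by ring
    rw [e]
    calc ‖(q.eval 0 * f 0 - a n 0 * f 0) + (a n 0 * f 0 - 1)‖ₑ
        ≤ ‖q.eval 0 * f 0 - a n 0 * f 0‖ₑ + ‖a n 0 * f 0 - 1‖ₑ := enorm_add_le _ _
      _ ≤ η + η := add_le_add hq1 hn2
      _ ≤ δ / 2 + δ / 2 := add_le_add (min_le_right _ _) (min_le_right _ _)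
      _ = δ := ENNReal.add_halves δ
  · set X : ℂ → ℂ := fun z => deriv (fun z => q.eval z * f z) z -
      deriv (fun z => a n (ρ * z) * f z) z with hX
    set Y : ℂ → ℂ := fun z => deriv (fun z => a n (ρ * z) * f z) z -
      deriv (fun z => a n z * f z) z with hY
    set Z : ℂ → ℂ := deriv fun z => a n z * f z with hZ
    have hXm : Measurable X := (measurable_deriv _).sub (measurable_deriv _)
    have hYm : Measurable Y := (measurable_deriv _).sub (measurable_deriv _)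
    have e : En p (deriv fun z => q.eval z * f z) = En p (fun z => X z + (Y z + Z z)) := by
      refine En_congr fun z _ => ?_
      simp only [hX, hY, hZ]
      ring
    rw [e]
    calc En p (fun z => X z + (Y z + Z z)) ≤ 2 ^ (p - 1) * (En p X + En p (fun z => Y z + Z z)) :=
          En_add_le hp1 hXm
      _ ≤ 2 ^ (p - 1) * (En p X + 2 ^ (p - 1) * (En p Y + En p Z)) := by
          gcongr
          exact En_add_le hp1 hYm
      _ ≤ 2 ^ (p - 1) * (η + 2 ^ (p - 1) * (η + η)) := by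
          gcongr
      _ = K * η := by rw [hK]; ring
      _ ≤ K * (δ / K) := by
          gcongr
          exact min_le_left _ _
      _ = δ := ENNReal.mul_div_cancel hK0 hKt

/-- **Outer functions are cyclic**, quantitative form -/
theorem cyclic_outer {p : ℝ} (hp : 2 ≤ p) {f : ℂ → ℂ} (hf : DifferentiableOn ℂ f D)
    (hfE : En p (deriv f) ≠ ⊤) {c : ℂ} (hc : ‖c‖ = 1) {κ : ℂ → ℝ}
    (hκ : CircleIntegrable κ 0 1) (hfo : ∀ z ∈ D, f z = c * exp (Hz κ z))
    {δ : ℝ≥0∞} (hδ : 0 < δ) :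
    ∃ q : Polynomial ℂ, ‖q.eval 0 * f 0 - 1‖ₑ ≤ δ ∧ En p (deriv fun z => q.eval z * f z) ≤ δ := by
  classical
  obtain ⟨a, ha1, ha2, ha3, ha4⟩ := outer_mult hc hκ hfo
  set F : ℂ → ℂ := D.piecewise f 0 with hF
  set A : ℕ → ℂ → ℂ := fun n => D.piecewise (a n) 0 with hA
  have hFe : ∀ z ∈ D, F z = f z := fun z hz => by rw [hF, piecewise_eq_of_mem _ _ _ hz]
  have hAe : ∀ n, ∀ z ∈ D, A n z = a n z := fun n z hz => by
    rw [hA]; exact piecewise_eq_of_mem _ _ _ hz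
  have h0 : (0 : ℂ) ∈ D := by simp
  obtain ⟨q, hq1, hq2⟩ := cyclic_core hp (f := F) (hf.congr hFe) (meas_piecewise hf.continuousOn)
    (by rw [En_deriv_congr hFe]; exact hfE) A
    (fun n => (ha1 n).congr (hAe n)) (fun n => meas_piecewise (ha1 n).continuousOn)
    (fun n z hz => by rw [hAe n z hz]; exact ha2 n z hz)
    (fun n z hz => by rw [hAe n z hz, hFe z hz]; exact ha3 n z hz)
    (by simp only [hAe _ 0 h0, hFe 0 h0]; exact ha4) hδ
  refine ⟨q, by rwa [hFe 0 h0] at hq1, ?_⟩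
  rwa [En_deriv_congr (h := fun z => q.eval z * f z) (fun z hz => by
    show q.eval z * F z = q.eval z * f z
    rw [hFe z hz])] at hq2

end Pool.Agent.Q82.OC
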