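import Mathlib

/-!
# Coarse groupoid, geometric and ghostly ideals of a uniform Roe algebra

Definitions for the problem MP_6f54aa_an.  The Stone-Cech compactification of a discrete space `X`
is the space `Ultrafilter X` of all ultrafilters on `X`.
-/

open Filter Topology Set

noncomputable section

namespace Pool.Agent.Q82.PA

/-- The Hilbert space of square summable complex functions on `X`. -/
abbrev L2 (X : Type) : Type := lp (fun _ : X => ℂ) 2

/-- The bounded operators on `L2 X`. -/
abbrev Op (X : Type) : Type := L2 X →L[ℂ] L2 X

open Classical in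
/-- The standard basis vector at the point `x`. -/
def delta {X : Type} (x : X) : L2 X := lp.single 2 x (1 : ℂ)

/-- The matrix entry `T(x, y)`: the inner product of `T δ_y` with `δ_x`. -/
def entry {X : Type} (T : Op X) (x y : X) : ℂ := inner ℂ (delta x) (T (delta y))

/-- The spaces of the problem: discrete metric spaces of bounded geometry which are strongly
discrete (the set of all distances is a discrete subset of the real line). -/
structure IsSpace (X : Type) [MetricSpace X] : Prop where
  discrete : DiscreteTopology X
  bounded_geometry : ∀ r : ℝ, ∃ N : ℕ, ∀ x : X, (Metric.closedBall x r).encard ≤ N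
  strongly_discrete : DiscreteTopology (Set.range fun p : X × X => dist p.1 p.2)

section

variable (X : Type) [MetricSpace X]

/-- The entourage `E_R`. -/
def E (R : ℝ) : Set (X × X) := {p | dist p.1 p.2 ≤ R}

/-- The coarse groupoid: the union of the closures of the entourages in the Stone-Cech
compactification of `X × X`. -/
def CG : Set (Ultrafilter (X × X)) := ⋃ R : ℝ, closure ((pure : X × X → Ultrafilter (X × X)) '' E X R)

end

section

variable {X : Type}

/-- The range map: the extension of the first coordinate projection. -/
def rg (γ : Ultrafilter (X × X)) : Ultrafilter X := γ.map Prod.fst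

/-- The source map: the extension of the second coordinate projection. -/
def sr (γ : Ultrafilter (X × X)) : Ultrafilter X := γ.map Prod.snd

variable [MetricSpace X]

/-- `U` is invariant: every arrow with source in `U` has range in `U`. -/
def Invariant (U : Set (Ultrafilter X)) : Prop := ∀ γ ∈ CG X, sr γ ∈ U → rg γ ∈ U

/-- The restriction of the coarse groupoid to a set `F` of units, with the subspace topology. -/
def GF (F : Set (Ultrafilter X)) : Set (Ultrafilter (X × X)) := {γ | γ ∈ CG X ∧ rg γ ∈ F ∧ sr γ ∈ F}

open Classical in
/-- The product of composable arrows: an arrow of the coarse groupoid is determined by its range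
and its source, and the product `β γ` is the arrow with the range of `β` and the source
of `γ`. -/
def mul {F : Set (Ultrafilter X)} (β γ : GF F) : GF F :=
  if h : ∃ ζ : GF F, rg ζ.1 = rg β.1 ∧ sr ζ.1 = sr γ.1 then h.choose else β

/-- An arrow of the coarse groupoid is determined by its range and its source, and any two
composable arrows have a product.  (So `mul` is the multiplication of the restricted
groupoid.) -/
def ArrowsCompose (X : Type) [MetricSpace X] : Prop :=
  (∀ β ∈ CG X, ∀ γ ∈ CG X, rg β = rg γ → sr β = sr γ → β = γ) ∧
    ∀ β ∈ CG X, ∀ γ ∈ CG X, sr β = rg γ → ∃ ζ ∈ CG X, rg ζ = rg β ∧ sr ζ = sr γ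

/-- Topological amenability of the restriction of the coarse groupoid to the closed invariant set
`F` (a locally compact Hausdorff etale groupoid): for every compact set `K` of arrows and every
`ε > 0` there is a nonnegative continuous function `m` with compact support such that
`|∑_{s(β) = r(γ)} m(β) - 1| < ε` and `∑_{s(β) = r(γ)} |m(β) - m(β γ)| < ε` for all
`γ` in `K`. -/
def Amenable (F : Set (Ultrafilter X)) : Prop :=
  ∀ K : Set (GF F), IsCompact K → ∀ ε : ℝ, 0 < ε →
    ∃ m : GF F → ℝ, Continuous m ∧ HasCompactSupport m ∧ (∀ β, 0 ≤ m β) ∧
      ∀ γ ∈ K, |∑' β : {β : GF F // sr β.1 = rg γ.1}, m β.1 - 1| < ε ∧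
        ∑' β : {β : GF F // sr β.1 = rg γ.1}, |m β.1 - m (mul β.1 γ)| < ε

/-- The uniform Roe algebra: the norm closure of the operators of finite propagation. -/
def uRoe (X : Type) [MetricSpace X] : Set (Op X) :=
  closure {T | ∃ R : ℝ, ∀ x y : X, entry T x y ≠ 0 → (x, y) ∈ E X R}

/-- The first coordinates of the support of `T`. -/
def rsupp (T : Op X) : Set X := {x | ∃ y, entry T x y ≠ 0}

/-- The first coordinates of the `ε`-support of `T`. -/
def rsuppE (ε : ℝ) (T : Op X) : Set X := {x | ∃ y, ε ≤ ‖entry T x y‖}

/-- The closure of a subset of `X` in the Stone-Cech compactification. -/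
def clo (A : Set X) : Set (Ultrafilter X) := closure ((pure : X → Ultrafilter X) '' A)

/-- The geometric ideal `I(U)`. -/
def geometric (U : Set (Ultrafilter X)) : Set (Op X) :=
  closure {T | (∃ R : ℝ, ∀ x y : X, entry T x y ≠ 0 → (x, y) ∈ E X R) ∧ clo (rsupp T) ⊆ U}

/-- The ghostly ideal. -/
def ghostly (U : Set (Ultrafilter X)) : Set (Op X) :=
  {T | T ∈ uRoe X ∧ ∀ ε : ℝ, 0 < ε → clo (rsuppE ε T) ⊆ U}

end

/-- A nonempty invariant open set for which the geometric and the ghostly ideal agree, although
the space does not have partial property A towards the complement. -/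
def IsCounterexample (X : Type) [MetricSpace X] (U : Set (Ultrafilter X)) : Prop :=
  IsSpace X ∧ ArrowsCompose X ∧ IsOpen U ∧ U.Nonempty ∧ Invariant U ∧
    ghostly U = geometric U ∧ ¬ Amenable Uᶜ

end Pool.Agent.Q82.PA
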