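import Mathlib

/-!
Finite quotients of the free group of rank two which are injective on large balls, and the failure
of a uniform property A for them.
-/

open FreeGroup

noncomputable section

namespace Pool.Agent.Q82.PA

/-- the free group of rank two -/
abbrev F2 : Type := FreeGroup (Fin 2)

theorem ball_finite (n : ℕ) : {w : F2 | w.norm ≤ n}.Finite := by
  have h1 : {l : List (Fin 2 × Bool) | l.length ≤ n}.Finite := List.finite_length_le _ _
  refine Set.Finite.of_finite_image (f := FreeGroup.toWord) (h1.subset ?_) ?_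
  · rintro _ ⟨w, hw, rfl⟩
    exact hw
  · exact FreeGroup.toWord_injective.injOn

section quot

variable (n : ℕ)

/-- the ball -/
abbrev V : Type := {w : F2 // w.norm ≤ n}

instance : Finite (V n) := (ball_finite n).to_subtype

/-- partial left translation -/
def eV (a : Fin 2) : {v : V n // (of a * v.1).norm ≤ n} ≃ {v : V n // ((of a)⁻¹ * v.1).norm ≤ n} where
  toFun v := ⟨⟨of a * v.1.1, v.2⟩, by
    show ((of a)⁻¹ * (of a * v.1.1)).norm ≤ n
    rw [inv_mul_cancel_left]; exact v.1.2⟩
  invFun v := ⟨⟨(of a)⁻¹ * v.1.1, v.2⟩, by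
    show (of a * ((of a)⁻¹ * v.1.1)).norm ≤ n
    rw [mul_inv_cancel_left]; exact v.1.2⟩
  left_inv v := by
    apply Subtype.ext
    apply Subtype.ext
    show (of a)⁻¹ * (of a * v.1.1) = v.1.1
    rw [inv_mul_cancel_left]
  right_inv v := by
    apply Subtype.ext
    apply Subtype.ext
    show of a * ((of a)⁻¹ * v.1.1) = v.1.1
    rw [mul_inv_cancel_left]

open Classical in
theorem exists_sigma (a : Fin 2) : ∃ s : Equiv.Perm (V n),
    ∀ v : V n, ∀ h : (of a * v.1).norm ≤ n, s v = ⟨of a * v.1, h⟩ := by
  have : Fintype (V n) := Fintype.ofFinite _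
  refine ⟨(eV n a).extendSubtype, ?_⟩
  intro v h
  rw [Equiv.extendSubtype_apply_of_mem (e := eV n a) (x := v) h]
  rfl

theorem exists_quot : ∃ (G : Type) (_ : Group G) (_ : Finite G) (π : F2 →* G),
    Function.Surjective π ∧ ∀ w : F2, w.norm ≤ n → π w = 1 → w = 1 := by
  choose s hs using exists_sigma n
  have h1n : (1 : F2).norm ≤ n := by rw [FreeGroup.norm_one]; exact Nat.zero_le _
  set π : F2 →* Equiv.Perm (V n) := FreeGroup.lift s with hπ
  have hlen : ∀ L : List (Fin 2 × Bool), L.length ≤ n → (FreeGroup.mk L : F2).norm ≤ n :=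
    fun L hL => FreeGroup.norm_mk_le.trans hL
  have key : ∀ L : List (Fin 2 × Bool), ∀ hL : L.length ≤ n,
      π (FreeGroup.mk L) ⟨1, h1n⟩ = ⟨FreeGroup.mk L, hlen L hL⟩ := by
    intro L
    induction L with
    | nil =>
      intro _
      have e : π (FreeGroup.mk []) = 1 := _root_.map_one π
      rw [e]
      rfl
    | cons p L ih =>
      intro hL
      obtain ⟨a, b⟩ := p
      have hL' : L.length ≤ n := by
        rw [List.length_cons] at hL; omega
      have ih' := ih hL'
      have e1 : (FreeGroup.mk ((a, b) :: L) : F2) = FreeGroup.mk [(a, b)] * FreeGroup.mk L := rfl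
      apply Subtype.ext
      show (π (FreeGroup.mk ((a, b) :: L)) ⟨1, h1n⟩).1 = FreeGroup.mk ((a, b) :: L)
      cases b with
      | true =>
        have e2 : (FreeGroup.mk [(a, true)] : F2) = of a := rfl
        rw [e1, _root_.map_mul, Equiv.Perm.mul_apply, ih', e2]
        have e3 : π (of a) = s a := by rw [hπ]; exact FreeGroup.lift_apply_of
        have h4 : (of a * FreeGroup.mk L : F2).norm ≤ n := by
          have := hlen _ hL
          rw [e1, e2] at this
          exact this
        rw [e3, hs a ⟨FreeGroup.mk L, hlen L hL'⟩ h4]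
      | false =>
        have e2 : (FreeGroup.mk [(a, false)] : F2) = (of a)⁻¹ := rfl
        rw [e1, _root_.map_mul, Equiv.Perm.mul_apply, ih', e2]
        have e3 : π (of a)⁻¹ = (s a)⁻¹ := by
          rw [_root_.map_inv]
          congr 1
        have h4 : ((of a)⁻¹ * FreeGroup.mk L : F2).norm ≤ n := by
          have := hlen _ hL
          rw [e1, e2] at this
          exact this
        have h5 : s a ⟨(of a)⁻¹ * FreeGroup.mk L, h4⟩ = ⟨FreeGroup.mk L, hlen L hL'⟩ := by
          have h6 : (of a * ((of a)⁻¹ * FreeGroup.mk L) : F2).norm ≤ n := by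
            rw [mul_inv_cancel_left]; exact hlen L hL'
          rw [hs a ⟨(of a)⁻¹ * FreeGroup.mk L, h4⟩ h6]
          apply Subtype.ext
          exact mul_inv_cancel_left _ _
        rw [e3, ← h5]
        show ((s a).symm ((s a) ⟨(of a)⁻¹ * FreeGroup.mk L, h4⟩)).1 = _
        rw [Equiv.symm_apply_apply]
  refine ⟨π.range, inferInstance, ?_, π.rangeRestrict, π.rangeRestrict_surjective, ?_⟩
  · have : Finite (Equiv.Perm (V n)) := inferInstance
    infer_instance
  · intro w hw h
    have h1 : π w = 1 := by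
      have := congrArg Subtype.val h
      simpa using this
    have h2 := congrArg Subtype.val (key w.toWord hw)
    simp only [FreeGroup.mk_toWord, h1] at h2
    exact h2.symm

end quot

open Classical in
/-- the finite quotients have no uniform property A -/
theorem noA {G : Type} [Group G] [Fintype G] (π : F2 →* G) (S n : ℕ) (hn : 2 * S + 2 ≤ n)
    (hinj : ∀ w : F2, w.norm ≤ n → π w = 1 → w = 1) (m : G → G → ℝ) (h0 : ∀ z x, 0 ≤ m z x)
    (hs : ∀ z x, m z x ≠ 0 → ∃ w : F2, w.norm ≤ S ∧ z = x * π w)
    (h1 : ∀ x, |∑ z, m z x - 1| < 1 / 8)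
    (h2 : ∀ (x : G) (a : Fin 2),
      ∑ z, |m z x - m z (x * π (FreeGroup.mk [(a, true)]))| < 1 / 8) : False := by
  set B : Finset F2 := (ball_finite (S + 1)).toFinset with hB
  have hBm : ∀ w : F2, w ∈ B ↔ w.norm ≤ S + 1 := fun w => by rw [hB, Set.Finite.mem_toFinset]; rfl
  have hinj2 : ∀ w w' : F2, w.norm + w'.norm ≤ n → π w = π w' → w = w' := by
    intro w w' hww h
    have h3 : π (w⁻¹ * w') = 1 := by rw [_root_.map_mul, _root_.map_inv, h, inv_mul_cancel]
    have h4 := hinj _ ((FreeGroup.norm_mul_le _ _).trans (by rw [FreeGroup.norm_inv_eq]; exact hww)) h3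
    exact (inv_mul_eq_one.1 h4)
  have hinjB : ∀ x : G, Set.InjOn (fun w : F2 => x * π w) (B : Set F2) := by
    intro x w hw w' hw' h
    have hw2 := (hBm w).1 hw
    have hw2' := (hBm w').1 hw'
    exact hinj2 w w' (by omega) (mul_left_cancel h)
  have hsup : ∀ (w : F2) (x : G), w.norm ≤ S + 2 → m (x * π w) x ≠ 0 → w.norm ≤ S := by
    intro w x hw hm
    obtain ⟨w', hw', e⟩ := hs _ _ hm
    have := hinj2 w w' (by omega) (mul_left_cancel e)
    rw [this]; exact hw'
  set N : ℝ := ((Fintype.card G : ℕ) : ℝ) with hN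
  have hNpos : 0 < N := by
    rw [hN]; exact_mod_cast Fintype.card_pos
  set h : F2 → ℝ := fun w => ∑ x, m (x * π w) x with hh
  have hh0 : ∀ w, 0 ≤ h w := fun w => Finset.sum_nonneg fun x _ => h0 _ _
  have hhS : ∀ w : F2, w.norm ≤ S + 2 → h w ≠ 0 → w.norm ≤ S := by
    intro w hw hne
    obtain ⟨x, _, hx⟩ := Finset.exists_ne_zero_of_sum_ne_zero hne
    exact hsup w x hw hx
  -- total mass
  have hmass : ∀ x : G, ∑ w ∈ B, m (x * π w) x = ∑ z, m z x := by
    intro x
    rw [← Finset.sum_image (f := fun z => m z x) (g := fun w : F2 => x * π w) (s := B)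
      (fun a ha b hb hab => hinjB x ha hb hab)]
    refine Finset.sum_subset (Finset.subset_univ _) ?_
    intro z _ hz
    by_contra hne
    obtain ⟨w, hw, e⟩ := hs _ _ hne
    apply hz
    rw [Finset.mem_image]
    exact ⟨w, (hBm w).2 (by omega), e.symm⟩
  have hH : ∑ w ∈ B, h w = ∑ x : G, ∑ z, m z x := by
    rw [hh, Finset.sum_comm]
    exact Finset.sum_congr rfl fun x _ => hmass x
  have hHl : 7 / 8 * N ≤ ∑ w ∈ B, h w := by
    rw [hH]
    have : ∑ x : G, (7 / 8 : ℝ) ≤ ∑ x : G, ∑ z, m z x :=
      Finset.sum_le_sum fun x _ => by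
        have := (abs_lt.1 (h1 x)).1
        linarith
    rw [Finset.sum_const, Finset.card_univ, nsmul_eq_mul] at this
    rw [hN]; linarith
  -- translation
  have hdiff : ∀ a : Fin 2, ∑ w ∈ B, |h ((FreeGroup.mk [(a, true)])⁻¹ * w) - h w| ≤ N * (1 / 8) := by
    intro a
    set g : F2 := FreeGroup.mk [(a, true)] with hg
    have e1 : ∀ w, h (g⁻¹ * w) = ∑ x, m (x * π w) (x * π g) := by
      intro w
      show ∑ x, m (x * π (g⁻¹ * w)) x = _
      rw [← Equiv.sum_comp (Equiv.mulRight (π g))]
      refine Finset.sum_congr rfl fun x _ => ?_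
      simp only [Equiv.coe_mulRight]
      congr 1
      rw [_root_.map_mul, _root_.map_inv]
      group
    calc ∑ w ∈ B, |h (g⁻¹ * w) - h w|
        ≤ ∑ w ∈ B, ∑ x, |m (x * π w) (x * π g) - m (x * π w) x| := by
          refine Finset.sum_le_sum fun w _ => ?_
          rw [e1 w]
          show |∑ x, m (x * π w) (x * π g) - ∑ x, m (x * π w) x| ≤ _
          rw [← Finset.sum_sub_distrib]
          exact Finset.abs_sum_le_sum_abs _ _
      _ = ∑ x, ∑ w ∈ B, |m (x * π w) (x * π g) - m (x * π w) x| := Finset.sum_comm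
      _ ≤ ∑ x : G, (1 / 8 : ℝ) := by
          refine Finset.sum_le_sum fun x _ => ?_
          have e2 := Finset.sum_image (f := fun z => |m z (x * π g) - m z x|)
            (g := fun w : F2 => x * π w) (s := B) (fun a ha b hb hab => hinjB x ha hb hab)
          rw [← e2]
          refine (Finset.sum_le_univ_sum_of_nonneg fun z => abs_nonneg _).trans ?_
          have e3 : ∑ z, |m z (x * π g) - m z x| = ∑ z, |m z x - m z (x * π g)| :=
            Finset.sum_congr rfl fun z _ => abs_sub_comm _ _
          rw [e3]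
          exact (h2 x a).le
      _ = N * (1 / 8) := by rw [Finset.sum_const, Finset.card_univ, nsmul_eq_mul]
  -- pieces
  set P : Fin 2 × Bool → ℝ := fun s => ∑ w ∈ B.filter (· ∈ startsWith s), h w with hP
  have hstep : ∀ a : Fin 2, ∑ w ∈ B, h w ≤ P (a, true) + P (a, false) + N * (1 / 8) := by
    intro a
    set g : F2 := FreeGroup.mk [(a, true)] with hg
    have hgn : g.norm ≤ 1 := by rw [hg]; exact FreeGroup.norm_mk_le
    have e1 : ∑ w ∈ B, h w = P (a, false) + ∑ w ∈ B.filter (fun w => ¬ w ∈ startsWith (a, false)), h w := by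
      rw [hP]
      exact (Finset.sum_filter_add_sum_filter_not B (fun w => w ∈ startsWith (a, false)) h).symm
    have e2 : ∑ w ∈ B.filter (fun w => ¬ w ∈ startsWith (a, false)), h w ≤
        ∑ v ∈ B.filter (· ∈ startsWith (a, true)), h (g⁻¹ * v) := by
      have e3 : ∑ w ∈ B.filter (fun w => ¬ w ∈ startsWith (a, false)), h w =
          ∑ w ∈ (B.filter (fun w => ¬ w ∈ startsWith (a, false))).filter (fun w => w.norm ≤ S), h w := by
        symm
        refine Finset.sum_subset (Finset.filter_subset _ _) ?_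
        intro w hw hw2
        by_contra hne
        apply hw2
        rw [Finset.mem_filter]
        refine ⟨hw, hhS w ?_ hne⟩
        have := (hBm w).1 (Finset.mem_filter.1 hw).1
        omega
      rw [e3]
      have e4 := Finset.sum_image (f := fun v => h (g⁻¹ * v)) (g := fun w : F2 => g * w)
        (s := (B.filter (fun w => ¬ w ∈ startsWith (a, false))).filter (fun w => w.norm ≤ S))
        (fun a _ b _ hab => mul_left_cancel hab)
      simp only [inv_mul_cancel_left] at e4
      rw [← e4]
      refine Finset.sum_le_sum_of_subset_of_nonneg ?_ (fun v _ _ => hh0 _)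
      intro v hv
      rw [Finset.mem_image] at hv
      obtain ⟨w, hw, rfl⟩ := hv
      rw [Finset.mem_filter, Finset.mem_filter] at hw
      rw [Finset.mem_filter]
      refine ⟨(hBm _).2 ((FreeGroup.norm_mul_le _ _).trans (by omega)), ?_⟩
      exact startsWith_mk_mul (w := (a, true)) w (by simpa using hw.1.2)
    have e5 : ∑ v ∈ B.filter (· ∈ startsWith (a, true)), h (g⁻¹ * v) ≤ P (a, true) + N * (1 / 8) := by
      have e6 : ∑ v ∈ B.filter (· ∈ startsWith (a, true)), (h (g⁻¹ * v) - h v) ≤
          ∑ v ∈ B, |h (g⁻¹ * v) - h v| := by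
        calc _ ≤ ∑ v ∈ B.filter (· ∈ startsWith (a, true)), |h (g⁻¹ * v) - h v| :=
              Finset.sum_le_sum fun v _ => le_abs_self _
          _ ≤ _ := Finset.sum_le_sum_of_subset_of_nonneg (Finset.filter_subset _ _)
              (fun v _ _ => abs_nonneg _)
      rw [Finset.sum_sub_distrib] at e6
      have e7 := hdiff a
      have e8 : P (a, true) = ∑ w ∈ B.filter (· ∈ startsWith (a, true)), h w := rfl
      rw [e8]
      linarith
    linarith
  have htot : P (0, true) + P (0, false) + P (1, true) + P (1, false) ≤ ∑ w ∈ B, h w := by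
    have hd : ∀ s t : Fin 2 × Bool, s ≠ t → Disjoint (B.filter (· ∈ startsWith s)) (B.filter (· ∈ startsWith t)) := by
      intro s t hst
      rw [Finset.disjoint_left]
      intro w hw hw'
      have := startsWith.disjoint_iff_ne.2 hst
      exact Set.disjoint_left.1 this (Finset.mem_filter.1 hw).2 (Finset.mem_filter.1 hw').2
    have e1 : ∑ s : Fin 2 × Bool, P s = ∑ w ∈ (Finset.univ : Finset (Fin 2 × Bool)).biUnion
        (fun s => B.filter (· ∈ startsWith s)), h w := by
      rw [Finset.sum_biUnion]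
      intro s _ t _ hst
      exact hd s t hst
    have e2 : ∑ s : Fin 2 × Bool, P s = P (0, true) + P (0, false) + P (1, true) + P (1, false) := by
      rw [Fintype.sum_prod_type]
      simp only [Fin.sum_univ_two, Fintype.sum_bool]
      ring
    rw [← e2, e1]
    refine Finset.sum_le_sum_of_subset_of_nonneg ?_ (fun v _ _ => hh0 _)
    intro w hw
    rw [Finset.mem_biUnion] at hw
    obtain ⟨s, _, hs2⟩ := hw
    exact (Finset.mem_filter.1 hs2).1
  have h3 := hstep 0
  have h4 := hstep 1
  linarith

end Pool.Agent.Q82.PA
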