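import Mathlib
import Pool.Agent.Q82.PADefs
import Pool.Agent.Q82.PAFree

/-!
The space: a coarse disjoint union of infinitely many copies of each of the finite quotients.
-/

open Filter Topology Set

noncomputable section

namespace Pool.Agent.Q82.PA

/-- the finite quotients of the free group -/
def Gr (n : ℕ) : Type := (exists_quot n).choose

instance (n : ℕ) : Group (Gr n) := (exists_quot n).choose_spec.choose

instance (n : ℕ) : Finite (Gr n) := (exists_quot n).choose_spec.choose_spec.choose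

/-- the quotient maps -/
def pr (n : ℕ) : F2 →* Gr n := (exists_quot n).choose_spec.choose_spec.choose_spec.choose

theorem pr_surj (n : ℕ) : Function.Surjective (pr n) :=
  (exists_quot n).choose_spec.choose_spec.choose_spec.choose_spec.1

theorem pr_inj (n : ℕ) : ∀ w : F2, w.norm ≤ n → pr n w = 1 → w = 1 :=
  (exists_quot n).choose_spec.choose_spec.choose_spec.choose_spec.2

/-- word length -/
def len {n : ℕ} (g : Gr n) : ℕ := sInf {k | ∃ w : F2, w.norm = k ∧ pr n w = g}

theorem exists_len {n : ℕ} (g : Gr n) : ∃ w : F2, w.norm = len g ∧ pr n w = g := by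
  have h : {k | ∃ w : F2, w.norm = k ∧ pr n w = g}.Nonempty := by
    obtain ⟨w, hw⟩ := pr_surj n g
    exact ⟨_, w, rfl, hw⟩
  exact Nat.sInf_mem h

theorem len_le {n : ℕ} {g : Gr n} {w : F2} (h : pr n w = g) : len g ≤ w.norm :=
  Nat.sInf_le ⟨w, rfl, h⟩

theorem len_one (n : ℕ) : len (1 : Gr n) = 0 := by
  have := len_le (n := n) (w := 1) (map_one _)
  rw [FreeGroup.norm_one] at this
  omega

theorem eq_one_of_len {n : ℕ} {g : Gr n} (h : len g = 0) : g = 1 := by
  obtain ⟨w, h1, h2⟩ := exists_len g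
  rw [h, FreeGroup.norm_eq_zero] at h1
  rw [← h2, h1, map_one]

theorem len_inv {n : ℕ} (g : Gr n) : len g⁻¹ = len g := by
  have key : ∀ g : Gr n, len g⁻¹ ≤ len g := by
    intro g
    obtain ⟨w, h1, h2⟩ := exists_len g
    have := len_le (n := n) (w := w⁻¹) (g := g⁻¹) (by rw [map_inv, h2])
    rw [FreeGroup.norm_inv_eq, h1] at this
    exact this
  refine le_antisymm (key g) ?_
  have := key g⁻¹
  rwa [inv_inv] at this

theorem len_mul {n : ℕ} (g h : Gr n) : len (g * h) ≤ len g + len h := by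
  obtain ⟨w, h1, h2⟩ := exists_len g
  obtain ⟨v, h3, h4⟩ := exists_len h
  have := len_le (n := n) (w := w * v) (g := g * h) (by rw [map_mul, h2, h4])
  refine this.trans ((FreeGroup.norm_mul_le _ _).trans ?_)
  rw [h1, h3]

theorem exists_D (n : ℕ) : ∃ D : ℕ, ∀ g : Gr n, len g ≤ D := by
  obtain ⟨D, hD⟩ := (Set.finite_range (fun g : Gr n => len g)).bddAbove
  exact ⟨D, fun g => hD ⟨g, rfl⟩⟩

/-- a bound of the diameter -/
def D (n : ℕ) : ℕ := (exists_D n).choose

theorem len_le_D {n : ℕ} (g : Gr n) : len g ≤ D n := (exists_D n).choose_spec g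

/-- the distance of the block to the others -/
def wt (p : ℕ × ℕ) : ℕ := D p.1 + Nat.pair p.1 p.2 + 1

theorem wt_finite (R : ℕ) : {p : ℕ × ℕ | wt p ≤ R}.Finite := by
  refine Set.Finite.of_finite_image (f := fun p => Nat.pair p.1 p.2) ((Set.finite_Iic R).subset ?_) ?_
  · rintro _ ⟨p, hp, rfl⟩
    have : wt p ≤ R := hp
    unfold wt at this
    show Nat.pair p.1 p.2 ≤ R
    omega
  · intro p _ q _ h
    have := congrArg Nat.unpair h
    simpa [Nat.unpair_pair] using this

/-- The space. -/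
structure X : Type where
  /-- the block -/
  fst : ℕ × ℕ
  /-- the element of the finite group -/
  snd : Gr fst.1

open Classical in
/-- the distance, a natural number -/
def dN (a b : X) : ℕ := if h : b.1 = a.1 then len (a.2⁻¹ * (h ▸ b.2 : Gr a.1.1)) else wt a.1 + wt b.1

theorem dN_same (p : ℕ × ℕ) (x y : Gr p.1) : dN ⟨p, x⟩ ⟨p, y⟩ = len (x⁻¹ * y) := by
  simp [dN]

theorem dN_ne {p q : ℕ × ℕ} (h : p ≠ q) (x : Gr p.1) (y : Gr q.1) :
    dN ⟨p, x⟩ ⟨q, y⟩ = wt p + wt q := by
  unfold dN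
  rw [dif_neg]
  exact fun h' => h h'.symm

theorem dN_self (a : X) : dN a a = 0 := by
  obtain ⟨p, x⟩ := a
  rw [dN_same, inv_mul_cancel, len_one]

theorem dN_comm (a b : X) : dN a b = dN b a := by
  obtain ⟨p, x⟩ := a
  obtain ⟨q, y⟩ := b
  by_cases h : p = q
  · subst h
    rw [dN_same, dN_same, ← len_inv, mul_inv_rev, inv_inv]
  · rw [dN_ne h, dN_ne (Ne.symm h), add_comm]

theorem dN_triangle (a b c : X) : dN a c ≤ dN a b + dN b c := by
  obtain ⟨p, x⟩ := a
  obtain ⟨q, y⟩ := b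
  obtain ⟨r, z⟩ := c
  have hw : ∀ (p : ℕ × ℕ) (g : Gr p.1), len g ≤ wt p := fun p g => by
    have := len_le_D g
    unfold wt; omega
  by_cases h : p = q
  · subst h
    by_cases h2 : p = r
    · subst h2
      rw [dN_same, dN_same, dN_same]
      have := len_mul (x⁻¹ * y) (y⁻¹ * z)
      rwa [show x⁻¹ * y * (y⁻¹ * z) = x⁻¹ * z by group] at this
    · rw [dN_same, dN_ne h2, dN_ne h2]
      omega
  · by_cases h2 : q = r
    · subst h2
      rw [dN_ne h, dN_ne h]
      omega
    · by_cases h3 : p = r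
      · subst h3
        rw [dN_same, dN_ne h, dN_ne h2]
        have := hw p (x⁻¹ * z)
        omega
      · rw [dN_ne h, dN_ne h2, dN_ne h3]
        omega

theorem eq_of_dN {a b : X} (h : dN a b = 0) : a = b := by
  obtain ⟨p, x⟩ := a
  obtain ⟨q, y⟩ := b
  by_cases h1 : p = q
  · subst h1
    rw [dN_same] at h
    have := inv_mul_eq_one.1 (eq_one_of_len h)
    rw [this]
  · rw [dN_ne h1] at h
    unfold wt at h
    omega

instance : MetricSpace X where
  dist a b := (dN a b : ℝ)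
  dist_self a := by
    show ((dN a a : ℕ) : ℝ) = 0
    rw [dN_self]; norm_num
  dist_comm a b := by
    show ((dN a b : ℕ) : ℝ) = ((dN b a : ℕ) : ℝ)
    rw [dN_comm]
  dist_triangle a b c := by
    show ((dN a c : ℕ) : ℝ) ≤ ((dN a b : ℕ) : ℝ) + ((dN b c : ℕ) : ℝ)
    exact_mod_cast dN_triangle a b c
  eq_of_dist_eq_zero := by
    intro a b h
    have h2 : ((dN a b : ℕ) : ℝ) = 0 := h
    exact eq_of_dN (by exact_mod_cast h2)

theorem dist_eq (a b : X) : dist a b = (dN a b : ℝ) := rfl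

/-- union of blocks -/
def Blk (S : Set (ℕ × ℕ)) : Set X := {a | a.1 ∈ S}

theorem Blk_finite {S : Set (ℕ × ℕ)} (h : S.Finite) : (Blk S).Finite := by
  have : Blk S = ⋃ p ∈ S, Set.range (fun g : Gr p.1 => (⟨p, g⟩ : X)) := by
    ext ⟨p, x⟩
    simp only [mem_iUnion, mem_range, exists_prop]
    show p ∈ S ↔ _
    constructor
    · intro h
      exact ⟨p, h, x, rfl⟩
    · rintro ⟨q, hq, y, e⟩
      have e1 : q = p := congrArg X.fst e
      rw [← e1] at *
      exact hq
  rw [this]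
  exact h.biUnion fun p _ => Set.finite_range _

theorem near {R : ℝ} {a b : X} (h : dist a b ≤ R) : a.1 = b.1 ∨ ((wt a.1 : ℝ) ≤ R ∧ (wt b.1 : ℝ) ≤ R) := by
  obtain ⟨p, x⟩ := a
  obtain ⟨q, y⟩ := b
  by_cases h1 : p = q
  · left; exact h1
  · right
    rw [dist_eq, dN_ne h1] at h
    push_cast at h
    have h2 : (0 : ℝ) ≤ (wt p : ℝ) := Nat.cast_nonneg _
    have h3 : (0 : ℝ) ≤ (wt q : ℝ) := Nat.cast_nonneg _
    exact ⟨by linarith, by linarith⟩

theorem wt_finite' (R : ℝ) : {p : ℕ × ℕ | (wt p : ℝ) ≤ R}.Finite := by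
  refine (wt_finite ⌈R⌉₊).subset ?_
  intro p hp
  have h1 : (wt p : ℝ) ≤ R := hp
  have h2 : (wt p : ℝ) ≤ (⌈R⌉₊ : ℝ) := h1.trans (Nat.le_ceil R)
  show wt p ≤ ⌈R⌉₊
  exact_mod_cast h2

theorem isSpace : IsSpace X where
  discrete := by
    refine DiscreteTopology.of_forall_le_dist (r := 1) one_pos ?_
    intro a b hab
    have h : dN a b ≠ 0 := fun h => hab (eq_of_dN h)
    have h2 : 1 ≤ dN a b := Nat.one_le_iff_ne_zero.2 h
    rw [dist_eq]
    exact_mod_cast h2
  bounded_geometry := by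
    intro r
    have hF : (Blk {p : ℕ × ℕ | (wt p : ℝ) ≤ r}).Finite := Blk_finite (wt_finite' r)
    have hB : {w : F2 | w.norm ≤ ⌈r⌉₊}.Finite := ball_finite _
    refine ⟨hB.toFinset.card + hF.toFinset.card, ?_⟩
    intro a
    obtain ⟨p, x⟩ := a
    have hsub : Metric.closedBall (⟨p, x⟩ : X) r ⊆
        (fun w : F2 => (⟨p, x * pr p.1 w⟩ : X)) '' {w : F2 | w.norm ≤ ⌈r⌉₊} ∪
          Blk {p : ℕ × ℕ | (wt p : ℝ) ≤ r} := by
      rintro ⟨q, y⟩ hb
      rw [Metric.mem_closedBall, dist_comm] at hb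
      rcases near hb with h | h
      · left
        have h' : p = q := h
        subst h'
        rw [dist_eq, dN_same] at hb
        obtain ⟨w, h1, h2⟩ := exists_len (x⁻¹ * y)
        refine ⟨w, ?_, ?_⟩
        · show w.norm ≤ ⌈r⌉₊
          rw [h1]
          have : ((len (x⁻¹ * y) : ℕ) : ℝ) ≤ (⌈r⌉₊ : ℝ) := hb.trans (Nat.le_ceil r)
          exact_mod_cast this
        · show (⟨p, x * pr p.1 w⟩ : X) = ⟨p, y⟩
          rw [h2, mul_inv_cancel_left]
      · right
        exact h.2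
    refine (Set.encard_le_encard hsub).trans ((Set.encard_union_le _ _).trans ?_)
    push_cast
    refine add_le_add ((Set.encard_image_le _ _).trans ?_) ?_
    · rw [← Set.encard_coe_eq_coe_finsetCard, Set.Finite.coe_toFinset]
    · rw [← Set.encard_coe_eq_coe_finsetCard, Set.Finite.coe_toFinset]
  strongly_discrete := by
    refine DiscreteTopology.of_forall_le_dist (r := 1) one_pos ?_
    rintro ⟨s, ⟨⟨a, b⟩, hs⟩⟩ ⟨t, ⟨⟨c, d⟩, ht⟩⟩ hst
    have hs' : s = (dN a b : ℝ) := hs.symm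
    have ht' : t = (dN c d : ℝ) := ht.symm
    have hne : dN a b ≠ dN c d := by
      intro h
      apply hst
      apply Subtype.ext
      show s = t
      rw [hs', ht', h]
    show 1 ≤ dist s t
    rw [hs', ht', Real.dist_eq]
    have h1 : (1 : ℤ) ≤ |(dN a b : ℤ) - (dN c d : ℤ)| := by
      apply Int.one_le_abs
      intro h
      apply hne
      omega
    exact_mod_cast h1

end Pool.Agent.Q82.PA
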