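import Mathlib
import Pool.Agent.Q82.PASpace

/-!
The open set and the failure of amenability of the restricted groupoid.
-/

open Filter Topology Set

noncomputable section

namespace Pool.Agent.Q82.PA

theorem closure_pure {α : Type} (A : Set α) :
    closure ((pure : α → Ultrafilter α) '' A) = {ω | A ∈ ω} := by
  apply Set.Subset.antisymm
  · apply closure_minimal _ (ultrafilter_isClosed_basic A)
    rintro _ ⟨a, ha, rfl⟩
    exact ha
  · intro ω hω
    refine mem_closure_of_tendsto (Ultrafilter.tendsto_pure_self ω) ?_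
    exact Filter.mem_of_superset hω fun a ha => ⟨a, ha, rfl⟩

theorem mem_CG {Y : Type} [MetricSpace Y] {γ : Ultrafilter (Y × Y)} :
    γ ∈ CG Y ↔ ∃ R : ℝ, E Y R ∈ γ := by
  unfold CG
  rw [mem_iUnion]
  refine exists_congr fun R => ?_
  rw [closure_pure]
  rfl

theorem continuous_map {α β : Type} (f : α → β) : Continuous (Ultrafilter.map f) := by
  refine (ultrafilterBasis_is_basis.continuous_iff).2 ?_
  rintro _ ⟨s, rfl⟩
  exact ultrafilter_isOpen_basic (f ⁻¹' s)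

/-- the ideal of sets of blocks -/
def J : Set (Set (ℕ × ℕ)) := {S | ∀ i : ℕ, {j : ℕ | (i, j) ∈ S}.Finite}

theorem J_finite {S : Set (ℕ × ℕ)} (h : S.Finite) : S ∈ J := by
  intro i
  refine Set.Finite.of_finite_image (f := fun j => (i, j)) (h.subset ?_) ?_
  · rintro _ ⟨j, hj, rfl⟩
    exact hj
  · intro a _ b _ hab
    exact congrArg Prod.snd hab

theorem J_union {S T : Set (ℕ × ℕ)} (hS : S ∈ J) (hT : T ∈ J) : S ∪ T ∈ J := by
  intro i
  exact ((hS i).union (hT i)).subset fun j hj => hj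

/-- the open set -/
def U : Set (Ultrafilter X) := {ω | ∃ S ∈ J, Blk S ∈ ω}

theorem U_open : IsOpen U := by
  have : U = ⋃ S ∈ J, {ω : Ultrafilter X | Blk S ∈ ω} := by
    ext ω
    simp only [mem_iUnion, exists_prop]
    rfl
  rw [this]
  exact isOpen_biUnion fun S _ => ultrafilter_isOpen_basic _

theorem U_nonempty : U.Nonempty := by
  refine ⟨pure ⟨(0, 0), 1⟩, {(0, 0)}, J_finite (Set.finite_singleton _), ?_⟩
  show (⟨(0, 0), 1⟩ : X) ∈ Blk {(0, 0)}
  exact rfl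

theorem U_invariant : Invariant U := by
  intro γ hγ hs
  obtain ⟨R, hR⟩ := mem_CG.1 hγ
  obtain ⟨S, hS, hB⟩ := hs
  refine ⟨S ∪ {p | (wt p : ℝ) ≤ R}, J_union hS (J_finite (wt_finite' R)), ?_⟩
  have h1 : Prod.snd ⁻¹' Blk S ∈ γ := hB
  have h2 : Prod.fst ⁻¹' Blk (S ∪ {p | (wt p : ℝ) ≤ R}) ∈ γ := by
    refine Filter.mem_of_superset (Filter.inter_mem hR h1) ?_
    rintro ⟨a, b⟩ ⟨h3, h4⟩
    have h3' : dist a b ≤ R := h3
    have h4' : b.1 ∈ S := h4
    show a.1 ∈ S ∪ {p | (wt p : ℝ) ≤ R}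
    rcases near h3' with h | h
    · left; rw [h]; exact h4'
    · right; exact h.1
  exact h2

/-- the points of the corona -/
def pt (i : ℕ) (x : Gr i) : Ultrafilter X := (hyperfilter ℕ).map fun j => ⟨(i, j), x⟩

/-- the arrows between them -/
def ar (i : ℕ) (x y : Gr i) : Ultrafilter (X × X) :=
  (hyperfilter ℕ).map fun j => (⟨(i, j), x⟩, ⟨(i, j), y⟩)

theorem rg_ar (i : ℕ) (x y : Gr i) : rg (ar i x y) = pt i x := by
  unfold rg ar pt
  rw [Ultrafilter.map_map]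
  rfl

theorem sr_ar (i : ℕ) (x y : Gr i) : sr (ar i x y) = pt i y := by
  unfold sr ar pt
  rw [Ultrafilter.map_map]
  rfl

theorem pt_notMem (i : ℕ) (x : Gr i) : pt i x ∉ U := by
  rintro ⟨S, hS, hB⟩
  have h1 : {j : ℕ | (i, j) ∈ S} ∈ hyperfilter ℕ := hB
  exact (hS i).notMem_hyperfilter h1

theorem pt_inj {i : ℕ} {x y : Gr i} (h : pt i x = pt i y) : x = y := by
  have h1 : (Set.range fun j : ℕ => (⟨(i, j), x⟩ : X)) ∈ pt i x := by
    show (fun j : ℕ => (⟨(i, j), x⟩ : X)) ⁻¹' _ ∈ hyperfilter ℕ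
    exact Filter.mem_of_superset Filter.univ_mem fun j _ => ⟨j, rfl⟩
  rw [h] at h1
  have h2 : (fun j : ℕ => (⟨(i, j), y⟩ : X)) ⁻¹' (Set.range fun j : ℕ => (⟨(i, j), x⟩ : X)) ∈ hyperfilter ℕ := h1
  obtain ⟨j, k, hk⟩ := Ultrafilter.nonempty_of_mem h2
  have hk' : (⟨(i, k), x⟩ : X) = ⟨(i, j), y⟩ := hk
  rw [X.mk.injEq] at hk'
  obtain ⟨h3, h4⟩ := hk'
  have h5 : k = j := congrArg Prod.snd h3
  subst h5
  exact eq_of_heq h4

theorem E_ar (i : ℕ) (x y : Gr i) {R : ℝ} (h : ((len (x⁻¹ * y) : ℕ) : ℝ) ≤ R) : E X R ∈ ar i x y := by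
  show (fun j : ℕ => ((⟨(i, j), x⟩, ⟨(i, j), y⟩) : X × X)) ⁻¹' E X R ∈ hyperfilter ℕ
  refine Filter.mem_of_superset Filter.univ_mem fun j _ => ?_
  show dist (⟨(i, j), x⟩ : X) ⟨(i, j), y⟩ ≤ R
  rw [dist_eq, dN_same]
  exact h

theorem len_of_E (i : ℕ) (x y : Gr i) {R : ℝ} (h : E X R ∈ ar i x y) :
    ((len (x⁻¹ * y) : ℕ) : ℝ) ≤ R := by
  have h2 : (fun j : ℕ => ((⟨(i, j), x⟩, ⟨(i, j), y⟩) : X × X)) ⁻¹' E X R ∈ hyperfilter ℕ := h
  obtain ⟨j, hj⟩ := Ultrafilter.nonempty_of_mem h2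
  have hj' : dist (⟨(i, j), x⟩ : X) ⟨(i, j), y⟩ ≤ R := hj
  rw [dist_eq, dN_same] at hj'
  exact hj'

theorem ar_mem (i : ℕ) (x y : Gr i) : ar i x y ∈ GF Uᶜ := by
  refine ⟨mem_CG.2 ⟨_, E_ar i x y le_rfl⟩, ?_, ?_⟩
  · rw [rg_ar]; exact pt_notMem i x
  · rw [sr_ar]; exact pt_notMem i y

/-- arrows as elements of the restricted groupoid -/
def am (i : ℕ) (x y : Gr i) : GF Uᶜ := ⟨ar i x y, ar_mem i x y⟩

open Classical in
/-- all arrows with source one of our points -/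
theorem classify {i : ℕ} {x : Gr i} {β : Ultrafilter (X × X)} (hβ : β ∈ CG X) (hs : sr β = pt i x) :
    ∃ z : Gr i, β = ar i z x := by
  obtain ⟨R, hR⟩ := mem_CG.1 hβ
  have h1 : {b : X | ∃ j : ℕ, b = ⟨(i, j), x⟩ ∧ R < wt (i, j)} ∈ pt i x := by
    show (fun j : ℕ => (⟨(i, j), x⟩ : X)) ⁻¹' _ ∈ hyperfilter ℕ
    have hfin : {j : ℕ | (wt (i, j) : ℝ) ≤ R}.Finite := (J_finite (wt_finite' R)) i
    refine Filter.mem_of_superset hfin.compl_mem_hyperfilter fun j hj => ?_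
    exact ⟨j, rfl, not_le.1 hj⟩
  rw [← hs] at h1
  have h2 : Prod.snd ⁻¹' {b : X | ∃ j : ℕ, b = ⟨(i, j), x⟩ ∧ R < wt (i, j)} ∈ β := h1
  have h3 : (⋃ z ∈ (Set.univ : Set (Gr i)), Set.range fun j : ℕ => ((⟨(i, j), z⟩, ⟨(i, j), x⟩) : X × X)) ∈ β := by
    refine Filter.mem_of_superset (Filter.inter_mem hR h2) ?_
    rintro ⟨a, b⟩ ⟨h4, h5⟩
    obtain ⟨j, hb, hj⟩ := h5
    have hb' : b = ⟨(i, j), x⟩ := hb
    subst hb'
    have h4' : dist a (⟨(i, j), x⟩ : X) ≤ R := h4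
    obtain ⟨p, g⟩ := a
    rcases near h4' with h | h
    · have h' : p = (i, j) := h
      subst h'
      rw [mem_iUnion₂]
      exact ⟨g, Set.mem_univ _, j, rfl⟩
    · exact absurd h.2 (not_le.2 hj)
  obtain ⟨z, _, hz⟩ := (Ultrafilter.finite_biUnion_mem_iff Set.finite_univ).1 h3
  refine ⟨z, ?_⟩
  set σ : X → X × X := fun b => (if h : ∃ j : ℕ, b = ⟨(i, j), x⟩ then (⟨(i, h.choose), z⟩ : X) else b, b)
    with hσ
  have hσ1 : ∀ j : ℕ, σ ⟨(i, j), x⟩ = (⟨(i, j), z⟩, ⟨(i, j), x⟩) := by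
    intro j
    have h : ∃ k : ℕ, (⟨(i, j), x⟩ : X) = ⟨(i, k), x⟩ := ⟨j, rfl⟩
    have h5 := h.choose_spec
    rw [X.mk.injEq] at h5
    have h6 : j = h.choose := congrArg Prod.snd h5.1
    rw [hσ]
    simp only [dif_pos h]
    rw [← h6]
  have h4 : (sr β).map σ = β := by
    unfold sr
    rw [Ultrafilter.map_map]
    apply Ultrafilter.ext
    intro W
    rw [Ultrafilter.mem_map]
    constructor
    · intro hW
      refine Filter.mem_of_superset (Filter.inter_mem hW hz) ?_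
      rintro t ⟨ht, j, hj⟩
      have ht' : σ t.2 ∈ W := ht
      rw [← hj] at ht' ⊢
      rwa [hσ1] at ht'
    · intro hW
      refine Filter.mem_of_superset (Filter.inter_mem hW hz) ?_
      rintro t ⟨ht, j, hj⟩
      show σ t.2 ∈ W
      rw [← hj] at ht ⊢
      rwa [hσ1]
  rw [← h4, hs]
  unfold pt ar
  rw [Ultrafilter.map_map]
  congr 1
  funext j
  exact hσ1 j

theorem mul_am (i : ℕ) (z x y : Gr i) : mul (am i z x) (am i x y) = am i z y := by
  have h : ∃ ζ : GF Uᶜ, rg ζ.1 = rg (am i z x).1 ∧ sr ζ.1 = sr (am i x y).1 := by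
    refine ⟨am i z y, ?_, ?_⟩
    · show rg (ar i z y) = rg (ar i z x)
      rw [rg_ar, rg_ar]
    · show sr (ar i z y) = sr (ar i x y)
      rw [sr_ar, sr_ar]
  have h1 : mul (am i z x) (am i x y) = h.choose := by
    unfold mul
    rw [dif_pos h]
  rw [h1]
  obtain ⟨h2, h3⟩ := h.choose_spec
  have h3' : sr h.choose.1 = pt i y := by
    rw [h3]; exact sr_ar i x y
  have h2' : rg h.choose.1 = pt i z := by
    rw [h2]; exact rg_ar i z x
  obtain ⟨z', hz'⟩ := classify h.choose.2.1 h3'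
  rw [hz', rg_ar] at h2'
  have h4 := pt_inj h2'
  apply Subtype.ext
  rw [hz', h4]
  rfl

open Classical in
theorem sum_fiber (i : ℕ) (x y : Gr i) [Fintype (Gr i)] (f : GF Uᶜ → ℝ) :
    ∑' β : {β : GF Uᶜ // sr β.1 = rg (am i x y).1}, f β.1 = ∑ z : Gr i, f (am i z x) := by
  have hrg : rg (am i x y).1 = pt i x := rg_ar i x y
  have hinj : Function.Injective fun z : Gr i =>
      (⟨am i z x, by rw [hrg]; exact sr_ar i z x⟩ : {β : GF Uᶜ // sr β.1 = rg (am i x y).1}) := by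
    intro z z' h
    have h1 : ar i z x = ar i z' x := congrArg (fun t => t.1.1) h
    have h2 : pt i z = pt i z' := by rw [← rg_ar i z x, h1, rg_ar]
    exact pt_inj h2
  have hsurj : Function.Surjective fun z : Gr i =>
      (⟨am i z x, by rw [hrg]; exact sr_ar i z x⟩ : {β : GF Uᶜ // sr β.1 = rg (am i x y).1}) := by
    rintro ⟨β, hβ⟩
    obtain ⟨z, hz⟩ := classify β.2.1 (hβ.trans hrg)
    refine ⟨z, ?_⟩
    apply Subtype.ext
    apply Subtype.ext
    exact hz.symm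
  rw [← (Equiv.ofBijective _ ⟨hinj, hsurj⟩).tsum_eq, tsum_fintype]
  rfl

theorem not_amenable : ¬ Amenable Uᶜ := by
  intro hA
  -- the compact set
  set K : Set (GF Uᶜ) := {β | E X 1 ∈ β.1} with hK
  have hKc : IsCompact K := by
    rw [Subtype.isCompact_iff]
    have e : (Subtype.val '' K : Set (Ultrafilter (X × X))) =
        {γ | E X 1 ∈ γ} ∩ (rg ⁻¹' Uᶜ ∩ sr ⁻¹' Uᶜ) := by
      ext γ
      constructor
      · rintro ⟨β, hβ, rfl⟩
        exact ⟨hβ, β.2.2.1, β.2.2.2⟩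
      · rintro ⟨h1, h2, h3⟩
        exact ⟨⟨γ, mem_CG.2 ⟨1, h1⟩, h2, h3⟩, h1, rfl⟩
    rw [e]
    apply IsClosed.isCompact
    refine (ultrafilter_isClosed_basic _).inter (IsClosed.inter ?_ ?_)
    · exact U_open.isClosed_compl.preimage (continuous_map _)
    · exact U_open.isClosed_compl.preimage (continuous_map _)
  obtain ⟨m, hmc, hms, hm0, hm⟩ := hA K hKc (1 / 8) (by norm_num)
  -- propagation of the support
  obtain ⟨S, hS⟩ : ∃ S : ℕ, ∀ β : GF Uᶜ, m β ≠ 0 → E X S ∈ β.1 := by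
    have hcov := IsCompact.elim_directed_cover (s := tsupport m) hms
      (fun n : ℕ => {β : GF Uᶜ | E X n ∈ β.1}) ?_ ?_ ?_
    · obtain ⟨S, hS⟩ := hcov
      exact ⟨S, fun β hβ => hS (subset_tsupport m hβ)⟩
    · intro n
      exact (ultrafilter_isOpen_basic _).preimage continuous_subtype_val
    · intro β _
      obtain ⟨R, hR⟩ := mem_CG.1 β.2.1
      rw [mem_iUnion]
      refine ⟨⌈R⌉₊, Filter.mem_of_superset hR ?_⟩
      intro t ht
      exact (show dist t.1 t.2 ≤ R from ht).trans (Nat.le_ceil R)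
    · apply Monotone.directed_le
      intro a b hab β hβ
      refine Filter.mem_of_superset hβ ?_
      intro t ht
      exact (show dist t.1 t.2 ≤ (a : ℝ) from ht).trans (by exact_mod_cast hab)
  set i : ℕ := 2 * S + 2 with hi
  have : Fintype (Gr i) := Fintype.ofFinite _
  have hmem : ∀ x y : Gr i, len (x⁻¹ * y) ≤ 1 → am i x y ∈ K := by
    intro x y h
    exact E_ar i x y (by exact_mod_cast h)
  refine noA (pr i) S i le_rfl (pr_inj i) (fun z x => m (am i z x)) (fun z x => hm0 _) ?_ ?_ ?_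
  · intro z x hne
    have h1 := len_of_E i z x (hS _ hne)
    obtain ⟨w, h2, h3⟩ := exists_len (z⁻¹ * x)
    refine ⟨w⁻¹, ?_, ?_⟩
    · rw [FreeGroup.norm_inv_eq, h2]
      exact_mod_cast h1
    · rw [map_inv, h3, mul_inv_rev, inv_inv, mul_inv_cancel_left]
  · intro x
    have h1 := (hm (am i x x) (hmem x x (by rw [inv_mul_cancel, len_one]; norm_num))).1
    rw [sum_fiber] at h1
    exact h1
  · intro x a
    set g := pr i (FreeGroup.mk [(a, true)]) with hg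
    have hg1 : len g ≤ 1 := (len_le hg.symm).trans FreeGroup.norm_mk_le
    have h1 := (hm (am i x (x * g)) (hmem x (x * g) (by rwa [inv_mul_cancel_left]))).2
    rw [sum_fiber i x (x * g) (fun β => |m β - m (mul β (am i x (x * g)))|)] at h1
    simp only [mul_am] at h1
    exact h1

end Pool.Agent.Q82.PA
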