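import Mathlib
import Pool.Agent.Q82.PAAmen

/-!
The geometric and the ghostly ideal of the open set agree.
-/

open Filter Topology Set
open scoped InnerProductSpace

noncomputable section

namespace Pool.Agent.Q82.PA

theorem clo_subset {A : Set X} {S : Set (ℕ × ℕ)} (hS : S ∈ J) (h : A ⊆ Blk S) : clo A ⊆ U := by
  intro ω hω
  unfold clo at hω
  rw [closure_pure] at hω
  exact ⟨S, hS, Filter.mem_of_superset hω h⟩

open Classical in
theorem of_clo_subset {A : Set X} (h : clo A ⊆ U) : ∃ S ∈ J, A ⊆ Blk S := by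
  refine ⟨{p | ∃ a ∈ A, a.1 = p}, ?_, fun a ha => ⟨a, ha, rfl⟩⟩
  intro i
  by_contra hinf
  have hinf' : {j : ℕ | (i, j) ∈ {p | ∃ a ∈ A, a.1 = p}}.Infinite := hinf
  set T : Set ℕ := {j : ℕ | (i, j) ∈ {p : ℕ × ℕ | ∃ a ∈ A, a.1 = p}} with hT
  have : Infinite T := hinf'.to_subtype
  set e : ℕ ↪o ℕ := Nat.orderEmbeddingOfSet T with he
  have heT : ∀ k, e k ∈ T := by
    intro k
    have : e k ∈ Set.range e := ⟨k, rfl⟩
    rw [he, Nat.orderEmbeddingOfSet_range] at this
    exact this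
  choose f hf1 hf2 using heT
  have hA : A ∈ (hyperfilter ℕ).map f := by
    show f ⁻¹' A ∈ hyperfilter ℕ
    exact Filter.mem_of_superset Filter.univ_mem fun k _ => hf1 k
  have hU : (hyperfilter ℕ).map f ∈ U := by
    apply h
    unfold clo
    rw [closure_pure]
    exact hA
  obtain ⟨S, hS, hB⟩ := hU
  have hB' : f ⁻¹' Blk S ∈ hyperfilter ℕ := hB
  refine Set.Finite.notMem_hyperfilter ?_ hB'
  refine ((hS i).preimage (f := e) e.injective.injOn).subset ?_
  intro k hk
  have hk' : (f k).1 ∈ S := hk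
  rw [hf2 k] at hk'
  exact hk'

/-! ### Operators -/

theorem norm_delta (x : X) : ‖delta x‖ = 1 := by
  classical
  unfold delta
  rw [lp.norm_single (by norm_num), norm_one]

open Classical in
theorem delta_apply (x y : X) : (delta x : X → ℂ) y = if y = x then 1 else 0 := by
  unfold delta
  rw [lp.single_apply]
  by_cases h : y = x
  · subst h; simp
  · simp [h]

theorem inner_delta (x : X) (f : L2 X) : ⟪delta x, f⟫_ℂ = f x := by
  classical
  unfold delta
  rw [lp.inner_single_left]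
  simp

theorem entry_eq (T : Op X) (x y : X) : entry T x y = (T (delta y) : X → ℂ) x := by
  unfold entry
  exact inner_delta x _

theorem norm_entry_le (T : Op X) (x y : X) : ‖entry T x y‖ ≤ ‖T‖ := by
  unfold entry
  refine (norm_inner_le_norm _ _).trans ?_
  rw [norm_delta, one_mul]
  refine (T.le_opNorm _).trans ?_
  rw [norm_delta, mul_one]

theorem entry_sub (T S : Op X) (x y : X) : entry (T - S) x y = entry T x y - entry S x y := by
  rw [entry_eq, entry_eq, entry_eq]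
  rfl

theorem geometric_subset : (geometric U : Set (Op X)) ⊆ ghostly U := by
  intro T hT
  refine ⟨closure_mono (fun S hS => hS.1) hT, ?_⟩
  intro ε hε
  obtain ⟨S, ⟨_, hS⟩, hTS⟩ := Metric.mem_closure_iff.1 hT ε hε
  obtain ⟨D, hD, hA⟩ := of_clo_subset hS
  refine clo_subset hD (Set.Subset.trans ?_ hA)
  rintro x ⟨y, hy⟩
  refine ⟨y, ?_⟩
  intro h0
  have h1 := norm_entry_le (T - S) x y
  rw [entry_sub, h0, sub_zero] at h1
  rw [dist_eq_norm] at hTS
  linarith

open Classical in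
/-- coordinate projection -/
def P (B : Set X) : Op X :=
  lp.mapCLM 2 (fun x => if x ∈ B then ContinuousLinearMap.id ℂ ℂ else 0) zero_le_one (fun x => by
    split_ifs
    · exact ContinuousLinearMap.norm_id_le
    · simp)

open Classical in
theorem P_apply (B : Set X) (f : L2 X) (x : X) : (P B f : X → ℂ) x = if x ∈ B then f x else 0 := by
  show ((if x ∈ B then ContinuousLinearMap.id ℂ ℂ else 0 : ℂ →L[ℂ] ℂ)) (f x) = _
  split_ifs
  · rfl
  · rfl

theorem norm_P_le (B : Set X) : ‖P B‖ ≤ 1 := lp.norm_mapCLM_le _ _ _ _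

instance (n : ℕ) : Fintype (Gr n) := Fintype.ofFinite _

open Classical in
/-- the points of a block -/
def bl (p : ℕ × ℕ) : Finset X :=
  (Finset.univ : Finset (Gr p.1)).image fun g => (⟨p, g⟩ : X)

theorem mem_bl {p : ℕ × ℕ} {x : X} : x ∈ bl p ↔ x.1 = p := by
  classical
  unfold bl
  rw [Finset.mem_image]
  constructor
  · rintro ⟨g, _, rfl⟩
    rfl
  · intro h
    obtain ⟨q, g⟩ := x
    have h' : q = p := h
    subst h'
    exact ⟨g, Finset.mem_univ _, rfl⟩

theorem card_bl (p : ℕ × ℕ) : (bl p).card ≤ Nat.card (Gr p.1) := by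
  classical
  unfold bl
  refine Finset.card_image_le.trans ?_
  rw [Finset.card_univ, Nat.card_eq_fintype_card]

theorem sum_sq_le (f : L2 X) (s : Finset X) : ∑ x ∈ s, ‖f x‖ ^ 2 ≤ ‖f‖ ^ 2 := by
  have h := lp.sum_rpow_le_norm_rpow (p := 2) (by norm_num) f s
  simpa using h

theorem norm_le_of_sum {f : L2 X} {C : ℝ} (hC : 0 ≤ C) (h : ∀ s : Finset X, ∑ x ∈ s, ‖f x‖ ^ 2 ≤ C ^ 2) :
    ‖f‖ ≤ C := by
  refine lp.norm_le_of_forall_sum_le (p := 2) (by norm_num) hC ?_
  intro s
  simpa using h s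

theorem P_block (p : ℕ × ℕ) (f : L2 X) : P (Blk {p}) f = ∑ x ∈ bl p, (f x : ℂ) • delta x := by
  classical
  apply lp.ext
  funext z
  rw [P_apply]
  have h1 : ((∑ x ∈ bl p, (f x : ℂ) • delta x : L2 X) : X → ℂ) z = ∑ x ∈ bl p, f x * (if z = x then 1 else 0) := by
    rw [lp.coeFn_sum, Finset.sum_apply]
    refine Finset.sum_congr rfl fun x _ => ?_
    rw [lp.coeFn_smul, Pi.smul_apply, smul_eq_mul, delta_apply]
  rw [h1]
  by_cases hz : z ∈ bl p
  · rw [if_pos (show z ∈ Blk {p} from mem_bl.1 hz), Finset.sum_eq_single_of_mem z hz]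
    · simp
    · intro b _ hb
      rw [if_neg (Ne.symm hb), mul_zero]
  · rw [if_neg (fun h : z ∈ Blk {p} => hz (mem_bl.2 h))]
    symm
    apply Finset.sum_eq_zero
    intro x hx
    rw [if_neg, mul_zero]
    rintro rfl
    exact hz hx

theorem norm_P_block_sq (p : ℕ × ℕ) (f : L2 X) : ‖P (Blk {p}) f‖ ^ 2 = ∑ x ∈ bl p, ‖f x‖ ^ 2 := by
  classical
  apply le_antisymm
  · have h0 : 0 ≤ ∑ x ∈ bl p, ‖f x‖ ^ 2 := Finset.sum_nonneg fun _ _ => sq_nonneg _
    have h1 : ‖P (Blk {p}) f‖ ≤ Real.sqrt (∑ x ∈ bl p, ‖f x‖ ^ 2) := by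
      refine norm_le_of_sum (Real.sqrt_nonneg _) fun s => ?_
      rw [Real.sq_sqrt h0]
      have h2 : ∑ x ∈ s, ‖(P (Blk {p}) f : X → ℂ) x‖ ^ 2 ≤ ∑ x ∈ s, (if x ∈ bl p then ‖f x‖ ^ 2 else 0) := by
        refine Finset.sum_le_sum fun x _ => ?_
        rw [P_apply]
        by_cases h : x ∈ bl p
        · rw [if_pos h, if_pos (show x ∈ Blk {p} from mem_bl.1 h)]
        · rw [if_neg h, if_neg (fun h' : x ∈ Blk {p} => h (mem_bl.2 h'))]
          simp
      refine h2.trans ?_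
      rw [← Finset.sum_filter]
      refine Finset.sum_le_sum_of_subset_of_nonneg ?_ (fun _ _ _ => sq_nonneg _)
      intro x hx
      exact (Finset.mem_filter.1 hx).2
    calc ‖P (Blk {p}) f‖ ^ 2 ≤ Real.sqrt (∑ x ∈ bl p, ‖f x‖ ^ 2) ^ 2 :=
          pow_le_pow_left₀ (norm_nonneg _) h1 2
      _ = _ := Real.sq_sqrt h0
  · refine le_trans (le_of_eq ?_) (sum_sq_le (P (Blk {p}) f) (bl p))
    refine Finset.sum_congr rfl fun x hx => ?_
    rw [P_apply, if_pos (show x ∈ Blk {p} from mem_bl.1 hx)]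

/-- operators which are small on the blocks outside `S₀` -/
theorem block_norm (S : Op X) (c : ℝ) (hc : 0 ≤ c) (S₀ : Set (ℕ × ℕ))
    (h : ∀ p ∉ S₀, ∀ f : L2 X, ∑ x ∈ bl p, ‖(S f : X → ℂ) x‖ ^ 2 ≤ c ^ 2 * ∑ x ∈ bl p, ‖f x‖ ^ 2) :
    ‖S - P (Blk S₀) * S‖ ≤ c := by
  classical
  refine ContinuousLinearMap.opNorm_le_bound _ hc fun f => ?_
  refine norm_le_of_sum (mul_nonneg hc (norm_nonneg _)) fun s => ?_
  set g : L2 X := (S - P (Blk S₀) * S) f with hg
  have hgx : ∀ x, (g : X → ℂ) x = if x ∈ Blk S₀ then 0 else (S f : X → ℂ) x := by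
    intro x
    have : (g : X → ℂ) x = (S f : X → ℂ) x - (P (Blk S₀) (S f) : X → ℂ) x := rfl
    rw [this, P_apply]
    split_ifs <;> simp
  have hblock : ∀ p : ℕ × ℕ, ∑ x ∈ bl p, ‖(g : X → ℂ) x‖ ^ 2 ≤ c ^ 2 * ∑ x ∈ bl p, ‖f x‖ ^ 2 := by
    intro p
    by_cases hp : p ∈ S₀
    · have : ∑ x ∈ bl p, ‖(g : X → ℂ) x‖ ^ 2 = 0 := by
        refine Finset.sum_eq_zero fun x hx => ?_
        have hx' : x ∈ Blk S₀ := by
          show x.1 ∈ S₀
          rw [mem_bl.1 hx]; exact hp
        rw [hgx, if_pos hx']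
        simp
      rw [this]
      exact mul_nonneg (sq_nonneg _) (Finset.sum_nonneg fun _ _ => sq_nonneg _)
    · refine le_trans (le_of_eq ?_) (h p hp f)
      refine Finset.sum_congr rfl fun x hx => ?_
      have hx' : x ∉ Blk S₀ := fun hx' => hp (by rw [← mem_bl.1 hx]; exact hx')
      rw [hgx, if_neg hx']
  set t : Finset (ℕ × ℕ) := s.image (fun x => x.1) with ht
  have hdisj : Set.PairwiseDisjoint (t : Set (ℕ × ℕ)) bl := by
    intro p _ q _ hpq
    show Disjoint (bl p) (bl q)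
    rw [Finset.disjoint_left]
    intro x hx hx'
    exact hpq ((mem_bl.1 hx).symm.trans (mem_bl.1 hx'))
  calc ∑ x ∈ s, ‖(g : X → ℂ) x‖ ^ 2 ≤ ∑ x ∈ t.biUnion bl, ‖(g : X → ℂ) x‖ ^ 2 := by
        refine Finset.sum_le_sum_of_subset_of_nonneg ?_ (fun _ _ _ => sq_nonneg _)
        intro x hx
        rw [Finset.mem_biUnion]
        exact ⟨x.1, Finset.mem_image_of_mem _ hx, mem_bl.2 rfl⟩
    _ = ∑ p ∈ t, ∑ x ∈ bl p, ‖(g : X → ℂ) x‖ ^ 2 := Finset.sum_biUnion hdisj
    _ ≤ ∑ p ∈ t, c ^ 2 * ∑ x ∈ bl p, ‖f x‖ ^ 2 := Finset.sum_le_sum fun p _ => hblock p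
    _ = c ^ 2 * ∑ x ∈ t.biUnion bl, ‖f x‖ ^ 2 := by rw [← Finset.mul_sum, Finset.sum_biUnion hdisj]
    _ ≤ c ^ 2 * ‖f‖ ^ 2 := mul_le_mul_of_nonneg_left (sum_sq_le f _) (sq_nonneg _)
    _ = (c * ‖f‖) ^ 2 := by ring

/-- rows of operators of finite propagation -/
theorem apply_eq_zero (S : Op X) (x : X) (h : L2 X) (hh : ∀ y, entry S x y ≠ 0 → h y = 0) :
    (S h : X → ℂ) x = 0 := by
  rw [← inner_delta x (S h), ← ContinuousLinearMap.adjoint_inner_left, lp.inner_eq_tsum]
  have : ∀ y, ⟪((ContinuousLinearMap.adjoint S) (delta x) : X → ℂ) y, (h : X → ℂ) y⟫_ℂ = 0 := by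
    intro y
    by_cases hy : entry S x y = 0
    · have h1 : ((ContinuousLinearMap.adjoint S) (delta x) : X → ℂ) y = 0 := by
        rw [← inner_delta y, ContinuousLinearMap.adjoint_inner_right, ← inner_conj_symm]
        have : ⟪delta x, S (delta y)⟫_ℂ = 0 := hy
        rw [this, map_zero]
      rw [h1]
      simp
    · rw [hh y hy]
      simp
  simp only [this, tsum_zero]

theorem ghostly_subset : (ghostly U : Set (Op X)) ⊆ geometric U := by
  classical
  rintro T ⟨hT, hTε⟩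
  unfold geometric
  rw [Metric.mem_closure_iff]
  intro δ' hδ'
  set δ : ℝ := δ' / 4 with hδ
  have hδ0 : 0 < δ := by positivity
  obtain ⟨S, ⟨R, hR⟩, hTS⟩ := Metric.mem_closure_iff.1 hT δ hδ0
  rw [dist_eq_norm] at hTS
  have hcard : ∀ n : ℕ, 0 < (Nat.card (Gr n) : ℝ) := fun n => by exact_mod_cast Nat.card_pos
  set ε : ℕ → ℝ := fun n => δ / (Nat.card (Gr n) : ℝ) ^ 2 with hε
  have hε0 : ∀ n, 0 < ε n := fun n => div_pos hδ0 (pow_pos (hcard n) 2)
  set D₀ : Set (ℕ × ℕ) := {p | ∃ x : X, x.1 = p ∧ ∃ y, ε p.1 ≤ ‖entry T x y‖} with hD₀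
  have hD₀J : D₀ ∈ J := by
    intro i
    obtain ⟨S₁, hS₁, hsub⟩ := of_clo_subset (hTε (ε i) (hε0 i))
    refine (hS₁ i).subset ?_
    rintro j ⟨x, hx, y, hy⟩
    have h1 : x ∈ Blk S₁ := hsub ⟨y, hy⟩
    have h2 : x.1 ∈ S₁ := h1
    rw [hx] at h2
    exact h2
  set S₀ : Set (ℕ × ℕ) := D₀ ∪ {p | (wt p : ℝ) ≤ R} with hS₀
  have hS₀J : S₀ ∈ J := J_union hD₀J (J_finite (wt_finite' R))
  have hent : ∀ x y, entry (P (Blk S₀) * S) x y = if x ∈ Blk S₀ then entry S x y else 0 := by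
    intro x y
    rw [entry_eq, entry_eq]
    show (P (Blk S₀) (S (delta y)) : X → ℂ) x = _
    rw [P_apply]
  refine ⟨P (Blk S₀) * S, ⟨⟨R, ?_⟩, ?_⟩, ?_⟩
  · intro x y hxy
    rw [hent] at hxy
    split_ifs at hxy with h
    · exact hR x y hxy
    · exact absurd rfl hxy
  · refine clo_subset hS₀J ?_
    rintro x ⟨y, hy⟩
    rw [hent] at hy
    split_ifs at hy with h
    · exact h
    · exact absurd rfl hy
  · have hmain : ‖S - P (Blk S₀) * S‖ ≤ 2 * δ := by
      refine block_norm S (2 * δ) (by positivity) S₀ ?_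
      intro p hp f
      have hpD : p ∉ D₀ := fun h => hp (Or.inl h)
      have hpw : R < wt p := not_le.1 fun h => hp (Or.inr h)
      set fp : L2 X := P (Blk {p}) f with hfp
      have hSx : ∀ x ∈ bl p, (S f : X → ℂ) x = (S fp : X → ℂ) x := by
        intro x hx
        have h0 : (S (f - fp) : X → ℂ) x = 0 := by
          refine apply_eq_zero S x (f - fp) ?_
          intro y hy
          have hd : dist x y ≤ R := hR x y hy
          have hxy : y ∈ Blk {p} := by
            rcases near hd with h | h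
            · show y.1 = p
              rw [← h]; exact mem_bl.1 hx
            · exfalso
              have h2 := h.1
              rw [mem_bl.1 hx] at h2
              linarith
          have e1 : ((f - fp : L2 X) : X → ℂ) y = f y - fp y := rfl
          rw [e1, hfp, P_apply, if_pos hxy, sub_self]
        have e2 : (S (f - fp) : X → ℂ) x = (S f : X → ℂ) x - (S fp : X → ℂ) x := by
          rw [map_sub]; rfl
        rw [e2] at h0
        exact sub_eq_zero.1 h0
      have e3 : ∑ x ∈ bl p, ‖(S f : X → ℂ) x‖ ^ 2 = ‖P (Blk {p}) (S fp)‖ ^ 2 := by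
        rw [norm_P_block_sq]
        exact Finset.sum_congr rfl fun x hx => by rw [hSx x hx]
      have e4 : ∑ x ∈ bl p, ‖f x‖ ^ 2 = ‖fp‖ ^ 2 := by rw [hfp, norm_P_block_sq]
      rw [e3, e4, ← mul_pow]
      refine pow_le_pow_left₀ (norm_nonneg _) ?_ 2
      have hfpy : ∀ y ∈ bl p, ‖f y‖ ≤ ‖fp‖ := by
        intro y hy
        have : (fp : X → ℂ) y = f y := by
          rw [hfp, P_apply, if_pos (show y ∈ Blk {p} from mem_bl.1 hy)]
        rw [← this]
        exact lp.norm_apply_le_norm (by norm_num) fp y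
      have hT1 : ‖P (Blk {p}) (T fp)‖ ≤ δ * ‖fp‖ := by
        rw [P_block]
        have h1 : ∀ x ∈ bl p, ‖(T fp : X → ℂ) x‖ ≤ (bl p).card * (ε p.1 * ‖fp‖) := by
          intro x hx
          have e5 : (T fp : X → ℂ) x = ∑ y ∈ bl p, f y * entry T x y := by
            have : T fp = ∑ y ∈ bl p, (f y : ℂ) • T (delta y) := by
              rw [hfp, P_block, map_sum]
              exact Finset.sum_congr rfl fun y _ => by rw [map_smul]
            rw [this, lp.coeFn_sum, Finset.sum_apply]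
            refine Finset.sum_congr rfl fun y _ => ?_
            rw [lp.coeFn_smul, Pi.smul_apply, smul_eq_mul, entry_eq]
          rw [e5]
          refine (norm_sum_le _ _).trans ?_
          have h2 : ∀ y ∈ bl p, ‖f y * entry T x y‖ ≤ ε p.1 * ‖fp‖ := by
            intro y hy
            rw [norm_mul, mul_comm]
            refine mul_le_mul ?_ (hfpy y hy) (norm_nonneg _) (hε0 _).le
            exact (not_le.1 fun h => hpD ⟨x, mem_bl.1 hx, y, h⟩).le
          refine (Finset.sum_le_sum h2).trans ?_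
          rw [Finset.sum_const, nsmul_eq_mul]
        refine (norm_sum_le _ _).trans ?_
        have h3 : ∀ x ∈ bl p, ‖((T fp : X → ℂ) x : ℂ) • delta x‖ ≤ (bl p).card * (ε p.1 * ‖fp‖) := by
          intro x hx
          rw [norm_smul, norm_delta, mul_one]
          exact h1 x hx
        refine (Finset.sum_le_sum h3).trans ?_
        rw [Finset.sum_const, nsmul_eq_mul]
        have h4 : ((bl p).card : ℝ) ≤ (Nat.card (Gr p.1) : ℝ) := by exact_mod_cast card_bl p
        have h5 : (0 : ℝ) ≤ ((bl p).card : ℝ) := Nat.cast_nonneg _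
        have h6 : ((bl p).card : ℝ) * ((bl p).card : ℝ) ≤ (Nat.card (Gr p.1) : ℝ) ^ 2 := by
          rw [sq]; exact mul_le_mul h4 h4 h5 (hcard _).le
        calc ((bl p).card : ℝ) * (((bl p).card : ℝ) * (ε p.1 * ‖fp‖))
            = (((bl p).card : ℝ) * ((bl p).card : ℝ)) * (ε p.1 * ‖fp‖) := by ring
          _ ≤ (Nat.card (Gr p.1) : ℝ) ^ 2 * (ε p.1 * ‖fp‖) :=
              mul_le_mul_of_nonneg_right h6 (mul_nonneg (hε0 _).le (norm_nonneg _))
          _ = δ * ‖fp‖ := by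
              rw [hε]
              have := (hcard p.1).ne'
              field_simp
      have hT2 : ‖P (Blk {p}) ((S - T) fp)‖ ≤ δ * ‖fp‖ := by
        refine ((P (Blk {p})).le_opNorm _).trans ?_
        have h1 : ‖(S - T) fp‖ ≤ δ * ‖fp‖ := by
          refine ((S - T).le_opNorm _).trans ?_
          rw [norm_sub_rev]
          exact mul_le_mul_of_nonneg_right hTS.le (norm_nonneg _)
        calc ‖P (Blk {p})‖ * ‖(S - T) fp‖ ≤ 1 * (δ * ‖fp‖) :=
              mul_le_mul (norm_P_le _) h1 (norm_nonneg _) zero_le_one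
          _ = _ := one_mul _
      have e6 : P (Blk {p}) (S fp) = P (Blk {p}) (T fp) + P (Blk {p}) ((S - T) fp) := by
        rw [← map_add]
        congr 1
        show S fp = T fp + (S fp - T fp)
        abel
      rw [e6]
      refine (norm_add_le _ _).trans ?_
      linarith
    rw [dist_eq_norm]
    calc ‖T - P (Blk S₀) * S‖ = ‖(T - S) + (S - P (Blk S₀) * S)‖ := by congr 1; abel
      _ ≤ ‖T - S‖ + ‖S - P (Blk S₀) * S‖ := norm_add_le _ _
      _ < δ' := by
        have : δ = δ' / 4 := hδ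
        linarith

end Pool.Agent.Q82.PA
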