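import Mathlib
import Pool.Agent.Q82.PAIdeal

/-!
The arrows of the coarse groupoid of a space of bounded geometry are determined by range and
source, and composable arrows have a product.
-/

open Filter Topology Set

noncomputable section

namespace Pool.Agent.Q82.PA

variable {Y : Type} [MetricSpace Y]

/-- greedy colouring -/
def col (R : ℝ) : Y → ℕ :=
  (IsWellFounded.wf (r := (WellOrderingRel : Y → Y → Prop))).fix
    fun x ih => sInf {n : ℕ | ∀ y, ∀ h : WellOrderingRel y x, dist x y ≤ R → ih y h ≠ n}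

theorem col_eq (R : ℝ) (x : Y) :
    col R x = sInf {n : ℕ | ∀ y, WellOrderingRel y x → dist x y ≤ R → col R y ≠ n} := by
  unfold col
  rw [WellFounded.fix_eq]

theorem exists_colouring (R : ℝ) (N : ℕ) (hN : ∀ x : Y, (Metric.closedBall x R).encard ≤ N) :
    (∀ x : Y, col R x ≤ N) ∧ ∀ x y : Y, x ≠ y → dist x y ≤ R → col R x ≠ col R y := by
  have hfree : ∀ x : Y, ∃ n ≤ N, ∀ y, WellOrderingRel y x → dist x y ≤ R → col R y ≠ n := by
    intro x
    by_contra hcon
    push Not at hcon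
    have : Nonempty Y := ⟨x⟩
    choose! y hy1 hy2 hy3 using hcon
    have hfin : (Metric.closedBall x R).Finite := by
      rw [← Set.encard_ne_top_iff]
      intro h
      have := hN x
      rw [h] at this
      exact absurd this (by simp)
    have hinj : Set.InjOn (fun n : ℕ => col R (y n)) (Finset.range (N + 1) : Set ℕ) := by
      intro a ha b hb hab
      have ha' : a ≤ N := by simpa [Nat.lt_succ_iff] using ha
      have hb' : b ≤ N := by simpa [Nat.lt_succ_iff] using hb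
      have h1 : col R (y a) = col R (y b) := hab
      rw [hy3 a ha', hy3 b hb'] at h1
      exact h1
    have hinj' : Set.InjOn y (Finset.range (N + 1) : Set ℕ) := fun a ha b hb hab =>
      hinj ha hb (by show col R (y a) = col R (y b); rw [hab])
    have h2 : ((Finset.range (N + 1) : Set ℕ)).encard ≤ (Metric.closedBall x R).encard := by
      rw [← hinj'.encard_image]
      apply Set.encard_le_encard
      rintro _ ⟨n, hn, rfl⟩
      have hn' : n ≤ N := by simpa [Nat.lt_succ_iff] using hn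
      rw [Metric.mem_closedBall, dist_comm]
      exact hy2 n hn'
    have h3 := h2.trans (hN x)
    rw [Set.encard_coe_eq_coe_finsetCard, Finset.card_range] at h3
    have h4 : N + 1 ≤ N := by exact_mod_cast h3
    omega
  have hmem : ∀ x : Y, ∀ y, WellOrderingRel y x → dist x y ≤ R → col R y ≠ col R x := by
    intro x
    obtain ⟨n, _, hn2⟩ := hfree x
    have h1 : col R x ∈ {n : ℕ | ∀ y, WellOrderingRel y x → dist x y ≤ R → col R y ≠ n} := by
      rw [col_eq R x]
      exact Nat.sInf_mem ⟨n, hn2⟩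
    exact h1
  refine ⟨?_, ?_⟩
  · intro x
    obtain ⟨n, hn1, hn2⟩ := hfree x
    rw [col_eq R x]
    exact (Nat.sInf_le (s := {n : ℕ | ∀ y, WellOrderingRel y x → dist x y ≤ R → col R y ≠ n}) hn2).trans hn1
  · intro x y hxy hd
    rcases trichotomous_of (WellOrderingRel : Y → Y → Prop) x y with h | h | h
    · exact hmem y x h (by rwa [dist_comm])
    · exact absurd h hxy
    · exact (hmem x y h hd).symm

theorem E_mono {R R' : ℝ} (h : R ≤ R') : E Y R ⊆ E Y R' := fun _ ht => le_trans ht h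

theorem arrow_unique (hbg : ∀ r : ℝ, ∃ N : ℕ, ∀ x : Y, (Metric.closedBall x r).encard ≤ N)
    {β γ : Ultrafilter (Y × Y)} (hβ : β ∈ CG Y) (hγ : γ ∈ CG Y) (hr : rg β = rg γ)
    (hs : sr β = sr γ) : β = γ := by
  obtain ⟨R₁, hR₁⟩ := mem_CG.1 hβ
  obtain ⟨R₂, hR₂⟩ := mem_CG.1 hγ
  set R := max R₁ R₂ with hR
  have h1 : E Y R ∈ β := Filter.mem_of_superset hR₁ (E_mono (le_max_left _ _))
  have h2 : E Y R ∈ γ := Filter.mem_of_superset hR₂ (E_mono (le_max_right _ _))
  obtain ⟨N, hN⟩ := hbg (2 * R)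
  obtain ⟨hc1, hc2⟩ := exists_colouring (2 * R) N hN
  -- the colour of the source
  have h3 : (⋃ l ∈ Set.Iic N, {y : Y | col (2 * R) y = l}) ∈ sr β := by
    refine Filter.mem_of_superset Filter.univ_mem fun y _ => ?_
    rw [mem_iUnion₂]
    exact ⟨_, hc1 y, rfl⟩
  obtain ⟨l, _, hl⟩ := (Ultrafilter.finite_biUnion_mem_iff (Set.finite_Iic N)).1 h3
  have hlβ : Prod.snd ⁻¹' {y : Y | col (2 * R) y = l} ∈ β := hl
  have hlγ : Prod.snd ⁻¹' {y : Y | col (2 * R) y = l} ∈ γ := by rw [hs] at hl; exact hl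
  set W : Set (Y × Y) := E Y R ∩ Prod.snd ⁻¹' {y : Y | col (2 * R) y = l} with hW
  have hWβ : W ∈ β := Filter.inter_mem h1 hlβ
  have hWγ : W ∈ γ := Filter.inter_mem h2 hlγ
  have hinj : ∀ t ∈ W, ∀ t' ∈ W, t.1 = t'.1 → t = t' := by
    rintro ⟨a, b⟩ ⟨ha, hb⟩ ⟨a', b'⟩ ⟨ha', hb'⟩ h
    have h' : a = a' := h
    subst h'
    have ha1 : dist a b ≤ R := ha
    have ha2 : dist a b' ≤ R := ha'
    have hb1 : col (2 * R) b = l := hb
    have hb2 : col (2 * R) b' = l := hb'
    by_contra hne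
    have hbb : b ≠ b' := fun h => hne (by rw [h])
    refine hc2 b b' hbb ?_ (hb1.trans hb2.symm)
    have := dist_triangle_left b b' a
    linarith
  have key : ∀ {β γ : Ultrafilter (Y × Y)}, W ∈ β → W ∈ γ → rg β = rg γ → ∀ V ∈ β, V ∈ γ := by
    intro β γ hβ hγ hr V hV
    have h4 : Prod.fst '' (V ∩ W) ∈ rg β := by
      show Prod.fst ⁻¹' (Prod.fst '' (V ∩ W)) ∈ β
      exact Filter.mem_of_superset (Filter.inter_mem hV hβ) (Set.subset_preimage_image _ _)
    rw [hr] at h4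
    have h5 : Prod.fst ⁻¹' (Prod.fst '' (V ∩ W)) ∈ γ := h4
    refine Filter.mem_of_superset (Filter.inter_mem h5 hγ) ?_
    rintro t ⟨⟨t', ⟨ht'V, ht'W⟩, ht'⟩, htW⟩
    have := hinj t' ht'W t htW ht'
    rw [← this]
    exact ht'V
  exact Ultrafilter.ext fun V => ⟨key hWβ hWγ hr V, key hWγ hWβ hr.symm V⟩

theorem exists_product {β γ : Ultrafilter (Y × Y)} (hβ : β ∈ CG Y) (hγ : γ ∈ CG Y)
    (h : sr β = rg γ) : ∃ ζ ∈ CG Y, rg ζ = rg β ∧ sr ζ = sr γ := by
  obtain ⟨R₁, hR₁⟩ := mem_CG.1 hβ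
  obtain ⟨R₂, hR₂⟩ := mem_CG.1 hγ
  set F : Filter (Y × Y × Y) := Filter.comap (fun t => (t.1, t.2.1)) (β : Filter (Y × Y)) ⊓
    Filter.comap (fun t => (t.2.1, t.2.2)) (γ : Filter (Y × Y)) with hF
  have hne : F.NeBot := by
    rw [hF, Filter.inf_neBot_iff]
    intro A hA B hB
    obtain ⟨V, hV, hVA⟩ := Filter.mem_comap.1 hA
    obtain ⟨W, hW, hWB⟩ := Filter.mem_comap.1 hB
    have h1 : Prod.snd '' V ∈ sr β := by
      show Prod.snd ⁻¹' (Prod.snd '' V) ∈ β
      exact Filter.mem_of_superset hV (Set.subset_preimage_image _ _)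
    have h2 : Prod.fst '' W ∈ rg γ := by
      show Prod.fst ⁻¹' (Prod.fst '' W) ∈ γ
      exact Filter.mem_of_superset hW (Set.subset_preimage_image _ _)
    rw [← h] at h2
    obtain ⟨y, ⟨⟨x, y1⟩, hv, e1⟩, ⟨⟨y2, z⟩, hw, e2⟩⟩ := Ultrafilter.nonempty_of_mem (Filter.inter_mem h1 h2)
    have e1' : y1 = y := e1
    have e2' : y2 = y := e2
    subst e1' e2'
    exact ⟨(x, _, z), hVA hv, hWB hw⟩
  obtain ⟨u, hu⟩ := Ultrafilter.exists_le F
  have hu1 : u.map (fun t : Y × Y × Y => (t.1, t.2.1)) = β := by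
    apply Ultrafilter.eq_of_le
    rw [Ultrafilter.coe_map]
    exact Filter.map_le_iff_le_comap.2 (hu.trans inf_le_left)
  have hu2 : u.map (fun t : Y × Y × Y => (t.2.1, t.2.2)) = γ := by
    apply Ultrafilter.eq_of_le
    rw [Ultrafilter.coe_map]
    exact Filter.map_le_iff_le_comap.2 (hu.trans inf_le_right)
  refine ⟨u.map (fun t => (t.1, t.2.2)), mem_CG.2 ⟨R₁ + R₂, ?_⟩, ?_, ?_⟩
  · show (fun t : Y × Y × Y => (t.1, t.2.2)) ⁻¹' E Y (R₁ + R₂) ∈ u
    rw [← hu1] at hR₁
    rw [← hu2] at hR₂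
    refine Filter.mem_of_superset (Filter.inter_mem hR₁ hR₂) ?_
    rintro ⟨x, y, z⟩ ⟨h1, h2⟩
    have h1' : dist x y ≤ R₁ := h1
    have h2' : dist y z ≤ R₂ := h2
    exact (dist_triangle x y z).trans (add_le_add h1' h2')
  · rw [← hu1]
    unfold rg
    rw [Ultrafilter.map_map, Ultrafilter.map_map]
    rfl
  · rw [← hu2]
    unfold sr
    rw [Ultrafilter.map_map, Ultrafilter.map_map]
    rfl

theorem arrowsCompose (hbg : ∀ r : ℝ, ∃ N : ℕ, ∀ x : Y, (Metric.closedBall x r).encard ≤ N) :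
    ArrowsCompose Y :=
  ⟨fun _ hβ _ hγ => arrow_unique hbg hβ hγ, fun _ hβ _ hγ => exists_product hβ hγ⟩

theorem counterexample : IsCounterexample X U :=
  ⟨isSpace, arrowsCompose isSpace.bounded_geometry, U_open, U_nonempty, U_invariant,
    ghostly_subset.antisymm geometric_subset, not_amenable⟩

end Pool.Agent.Q82.PA
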