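import Mathlib

/-! # Perturbation of an orthonormal basis of eigenvectors with large gaps -/

namespace Q82.Pert

open Filter Topology
open scoped InnerProductSpace

noncomputable section

variable {H : Type*} [NormedAddCommGroup H] [InnerProductSpace ℝ H]

lemma hasSum_sq (s : HilbertBasis ℕ ℝ H) (x : H) : HasSum (fun k => ⟪x, s k⟫_ℝ ^ 2) (‖x‖ ^ 2) := by
  have h := s.hasSum_inner_mul_inner x x
  rw [real_inner_self_eq_norm_sq] at h
  have e : (fun k => ⟪x, s k⟫_ℝ ^ 2) = fun k => ⟪x, s k⟫_ℝ * ⟪s k, x⟫_ℝ := by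
    funext k
    rw [real_inner_comm x (s k)]
    ring
  rw [e]
  exact h

/-- the data: two orthonormal bases and the matrix of a small perturbation -/
structure Data (H : Type*) [NormedAddCommGroup H] [InnerProductSpace ℝ H] where
  b : HilbertBasis ℕ ℝ H
  s : HilbertBasis ℕ ℝ H
  lam : ℕ → ℝ
  mu : ℕ → ℝ
  p : ℕ → H
  q : ℕ → H
  ε : ℝ
  G : ℝ
  hε : 0 < ε
  hG : 8 * ε ≤ G
  hp : ∀ j, ‖p j‖ ≤ ε
  hq : ∀ k, ‖q k‖ ≤ ε
  h1 : ∀ j k, (lam j - mu k) * ⟪b j, s k⟫_ℝ = ⟪p j, s k⟫_ℝ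
  h2 : ∀ j k, ⟪p j, s k⟫_ℝ = ⟪b j, q k⟫_ℝ
  hlam : Monotone lam
  hgap : ∀ k l, k < l → G ≤ mu l - mu k

variable (D : Data H)

namespace Data

lemma near (j : ℕ) : ∃ k, |D.lam j - D.mu k| < 2 * D.ε := by
  by_contra hcon
  push Not at hcon
  have hε := D.hε
  have e1 := hasSum_sq D.s (D.p j)
  have e2 := (hasSum_sq D.s (D.b j)).mul_left ((2 * D.ε) ^ 2)
  have e3 : (2 * D.ε) ^ 2 * ‖D.b j‖ ^ 2 ≤ ‖D.p j‖ ^ 2 := by
    refine hasSum_le (fun k => ?_) e2 e1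
    rw [← D.h1 j k, mul_pow (D.lam j - D.mu k), ← sq_abs (D.lam j - D.mu k)]
    exact mul_le_mul_of_nonneg_right (pow_le_pow_left₀ (by positivity) (hcon k) 2)
      (by positivity)
  rw [D.b.orthonormal.1 j] at e3
  have e4 := D.hp j
  have e5 := norm_nonneg (D.p j)
  nlinarith

lemma near' (k : ℕ) : ∃ j, |D.lam j - D.mu k| < 2 * D.ε := by
  by_contra hcon
  push Not at hcon
  have hε := D.hε
  have e1 := hasSum_sq D.b (D.q k)
  have e2 := (hasSum_sq D.b (D.s k)).mul_left ((2 * D.ε) ^ 2)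
  have e3 : (2 * D.ε) ^ 2 * ‖D.s k‖ ^ 2 ≤ ‖D.q k‖ ^ 2 := by
    refine hasSum_le (fun j => ?_) e2 e1
    rw [real_inner_comm (D.b j) (D.q k), ← D.h2 j k, ← D.h1 j k, mul_pow (D.lam j - D.mu k),
      ← sq_abs (D.lam j - D.mu k), real_inner_comm (D.b j) (D.s k)]
    exact mul_le_mul_of_nonneg_right (pow_le_pow_left₀ (by positivity) (hcon j) 2)
      (by positivity)
  rw [D.s.orthonormal.1 k] at e3
  have e4 := D.hq k
  have e5 := norm_nonneg (D.q k)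
  nlinarith

lemma gap_abs {k l : ℕ} (h : k ≠ l) : D.G ≤ |D.mu l - D.mu k| := by
  rcases lt_or_gt_of_ne h with h | h
  · exact (D.hgap k l h).trans (le_abs_self _)
  · rw [abs_sub_comm]
    exact (D.hgap l k h).trans (le_abs_self _)

/-- mass at the near eigenvalue -/
lemma mass {j k : ℕ} (h : |D.lam j - D.mu k| < 2 * D.ε) :
    1 - (D.ε / (D.G - 2 * D.ε)) ^ 2 ≤ ⟪D.b j, D.s k⟫_ℝ ^ 2 := by
  have hε := D.hε
  have hG := D.hG
  set g := D.G - 2 * D.ε with hg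
  have hg0 : 0 < g := by linarith
  have e1 := hasSum_sq D.s (D.p j)
  have e2 := (hasSum_sq D.s (D.b j))
  rw [D.b.orthonormal.1 j] at e2
  -- g² Σ_{l ≠ k} c_l² ≤ ε²
  have e3 : HasSum (fun l => g ^ 2 * (⟪D.b j, D.s l⟫_ℝ ^ 2 -
      if l = k then ⟪D.b j, D.s k⟫_ℝ ^ 2 else 0)) (g ^ 2 * (1 ^ 2 - ⟪D.b j, D.s k⟫_ℝ ^ 2)) :=
    (e2.sub (hasSum_ite_eq k _)).mul_left _
  have e4 : g ^ 2 * (1 ^ 2 - ⟪D.b j, D.s k⟫_ℝ ^ 2) ≤ ‖D.p j‖ ^ 2 := by
    refine hasSum_le (fun l => ?_) e3 e1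
    by_cases hl : l = k
    · rw [if_pos hl, hl, sub_self, mul_zero]; positivity
    · rw [if_neg hl, sub_zero, ← D.h1 j l, mul_pow]
      apply mul_le_mul_of_nonneg_right _ (by positivity)
      rw [← sq_abs (D.lam j - D.mu l)]
      apply pow_le_pow_left₀ hg0.le
      have h3 := D.gap_abs (fun h' => hl h'.symm : k ≠ l)
      have h4 : D.mu l - D.mu k = (D.mu l - D.lam j) + (D.lam j - D.mu k) := by ring
      have h5 := abs_add_le (D.mu l - D.lam j) (D.lam j - D.mu k)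
      rw [← h4] at h5
      rw [abs_sub_comm (D.mu l) (D.lam j)] at h5
      linarith
  have e5 := D.hp j
  have e6 : ‖D.p j‖ ^ 2 ≤ D.ε ^ 2 := pow_le_pow_left₀ (norm_nonneg _) e5 2
  have e7 : 1 - ⟪D.b j, D.s k⟫_ℝ ^ 2 ≤ D.ε ^ 2 / g ^ 2 := by
    rw [le_div_iff₀ (by positivity)]
    nlinarith
  rw [div_pow]
  linarith

lemma ratio_lt : (D.ε / (D.G - 2 * D.ε)) ^ 2 < 1 / 2 := by
  have hε := D.hε
  have hG := D.hG
  have h1 : D.ε / (D.G - 2 * D.ε) ≤ 1 / 6 := by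
    rw [div_le_div_iff₀ (by linarith) (by norm_num)]
    linarith
  have h0 : 0 ≤ D.ε / (D.G - 2 * D.ε) := div_nonneg hε.le (by linarith)
  nlinarith

/-- the near index -/
def κ (j : ℕ) : ℕ := (D.near j).choose

lemma κ_spec (j : ℕ) : |D.lam j - D.mu (D.κ j)| < 2 * D.ε := (D.near j).choose_spec

lemma κ_unique {j k : ℕ} (h : |D.lam j - D.mu k| < 2 * D.ε) : k = D.κ j := by
  by_contra hne
  have h1 := D.gap_abs hne
  have h2 := D.κ_spec j
  have h3 := abs_add_le (D.mu (D.κ j) - D.lam j) (D.lam j - D.mu k)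
  have h4 : D.mu (D.κ j) - D.mu k = (D.mu (D.κ j) - D.lam j) + (D.lam j - D.mu k) := by ring
  rw [← h4, abs_sub_comm (D.mu (D.κ j)) (D.lam j)] at h3
  have := D.hε
  have := D.hG
  linarith

lemma κ_inj : Function.Injective D.κ := by
  intro i j hij
  by_contra hne
  have h1 := D.mass (D.κ_spec i)
  have h2 := D.mass (D.κ_spec j)
  rw [← hij] at h2
  have h3 := D.ratio_lt
  have h4 : ∑ l ∈ {i, j}, ⟪D.b l, D.s (D.κ i)⟫_ℝ ^ 2 ≤ 1 := by
    have := D.b.orthonormal.sum_inner_products_le (s := {i, j}) (D.s (D.κ i))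
    rw [D.s.orthonormal.1, one_pow] at this
    simpa only [Real.norm_eq_abs, sq_abs] using this
  rw [Finset.sum_pair hne] at h4
  linarith

lemma κ_surj : Function.Surjective D.κ := by
  intro k
  obtain ⟨j, hj⟩ := D.near' k
  exact ⟨j, (D.κ_unique hj).symm⟩

lemma κ_mono : Monotone D.κ := by
  intro i j hij
  by_contra hlt
  push Not at hlt
  have h1 := D.hlam hij
  have h2 := D.hgap _ _ hlt
  have h3 := abs_lt.1 (D.κ_spec i)
  have h4 := abs_lt.1 (D.κ_spec j)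
  have := D.hε
  have := D.hG
  linarith [h3.1, h4.2, h3.2, h4.1]

lemma κ_eq (j : ℕ) : D.κ j = j := by
  have h1 : StrictMono D.κ := D.κ_mono.strictMono_of_injective D.κ_inj
  have h2 : Set.range D.κ = Set.range (id : ℕ → ℕ) := by
    rw [D.κ_surj.range_eq, Set.range_id]
  exact congrFun ((StrictMono.range_inj h1 strictMono_id).1 h2) j

theorem close (j : ℕ) : |D.lam j - D.mu j| < 2 * D.ε ∧
    ∃ σ : ℝ, (σ = 1 ∨ σ = -1) ∧
      ‖D.b j - σ • D.s j‖ ^ 2 ≤ 2 * (D.ε / (D.G - 2 * D.ε)) ^ 2 := by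
  have h0 := D.κ_spec j
  rw [D.κ_eq j] at h0
  refine ⟨h0, ?_⟩
  have h1 := D.mass h0
  have hb := D.b.orthonormal.1 j
  have hs := D.s.orthonormal.1 j
  have hle : |⟪D.b j, D.s j⟫_ℝ| ≤ 1 := by
    have := abs_real_inner_le_norm (D.b j) (D.s j)
    rwa [hb, hs, one_mul] at this
  have key : ∀ σ : ℝ, σ ^ 2 = 1 → σ * ⟪D.b j, D.s j⟫_ℝ = |⟪D.b j, D.s j⟫_ℝ| →
      ‖D.b j - σ • D.s j‖ ^ 2 ≤ 2 * (D.ε / (D.G - 2 * D.ε)) ^ 2 := by
    intro σ h2 h3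
    rw [norm_sub_sq_real, norm_smul, mul_pow, hb, hs, inner_smul_right, h3, Real.norm_eq_abs,
      sq_abs, h2]
    have h4 := abs_nonneg ⟪D.b j, D.s j⟫_ℝ
    rw [← sq_abs ⟪D.b j, D.s j⟫_ℝ] at h1
    nlinarith
  rcases le_total 0 ⟪D.b j, D.s j⟫_ℝ with h | h
  · exact ⟨1, Or.inl rfl, key 1 (by norm_num) (by rw [one_mul, abs_of_nonneg h])⟩
  · exact ⟨-1, Or.inr rfl, key (-1) (by norm_num) (by rw [neg_one_mul, abs_of_nonpos h])⟩

end Data

end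

end Q82.Pert
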