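import Pool.Agent.Q82.QRange

/-!
# The Moebius maximisation and the final bound
-/

namespace Q82.QR

open Polynomial Filter Topology

noncomputable section

variable {E : Type} [NormedAddCommGroup E] [InnerProductSpace ℂ E]

lemma no_kernel {P : E →L[ℂ] E} {C ρ : ℝ} (hρ0 : 0 ≤ ρ) (hρ1 : ρ < 1)
    (hP : ∀ n : ℕ, ‖P ^ n‖ ≤ C * ρ ^ n) {ε : ℂ} (hε : ‖ε‖ ≤ 1) {v : E} (hv : v ≠ 0) :
    v - (starRingEnd ℂ) ε • P v ≠ 0 := by
  intro h
  have h1 : v = (starRingEnd ℂ) ε • P v := sub_eq_zero.1 h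
  have h2 : ∀ n : ℕ, v = ((starRingEnd ℂ) ε) ^ n • (P ^ n) v := by
    intro n
    induction n with
    | zero => simp
    | succ n ih =>
      have e1 : (P ^ (n + 1)) v = (P ^ n) (P v) := by rw [pow_succ]; rfl
      rw [e1, pow_succ, mul_smul, ← map_smul, ← h1]
      exact ih
  have hv0 : 0 < ‖v‖ := norm_pos_iff.2 hv
  have h3 : ∀ n : ℕ, (1 : ℝ) ≤ C * ρ ^ n := by
    intro n
    have h4 : ‖v‖ ≤ 1 * (C * ρ ^ n * ‖v‖) := by
      calc ‖v‖ = ‖((starRingEnd ℂ) ε) ^ n • (P ^ n) v‖ := by rw [← h2 n]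
        _ = ‖ε‖ ^ n * ‖(P ^ n) v‖ := by rw [norm_smul, norm_pow, RCLike.norm_conj]
        _ ≤ 1 * (C * ρ ^ n * ‖v‖) := by
            apply mul_le_mul (pow_le_one₀ (norm_nonneg _) hε) _ (norm_nonneg _) zero_le_one
            exact ((P ^ n).le_opNorm v).trans (mul_le_mul_of_nonneg_right (hP n) hv0.le)
    rw [one_mul] at h4
    by_contra hc
    push Not at hc
    nlinarith
  have h5 : Tendsto (fun n : ℕ => C * ρ ^ n) atTop (𝓝 (C * 0)) :=
    (tendsto_pow_atTop_nhds_zero_of_lt_one hρ0 hρ1).const_mul C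
  have h6 := ge_of_tendsto' h5 h3
  linarith

/-- orthogonality from a maximality property -/
lemma orth_of_max {a b : E} {κ r : ℝ} (hκ : 1 < κ) (hr : 0 < r) (hab : ‖a‖ = κ * ‖b‖)
    (hmax : ∀ δ : ℂ, ‖δ‖ ≤ r → ‖a - δ • b‖ ≤ κ * ‖b - (starRingEnd ℂ) δ • a‖) :
    inner ℂ a b = (0 : ℂ) := by
  by_contra hne
  set ip : ℂ := inner ℂ a b with hip
  have hip0 : 0 < ‖ip‖ := norm_pos_iff.2 hne
  set D : ℝ := (κ ^ 2 + 1) * ‖b‖ ^ 2 + 1 with hD
  have hD0 : 0 < D := by positivity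
  set η : ℝ := min (r / ‖ip‖) (1 / D) with hη
  have hη0 : 0 < η := lt_min (by positivity) (by positivity)
  have hη1 : η * ‖ip‖ ≤ r := by
    have : η ≤ r / ‖ip‖ := min_le_left _ _
    rwa [le_div_iff₀ hip0] at this
  have hη2 : η * D ≤ 1 := by
    have : η ≤ 1 / D := min_le_right _ _
    rwa [le_div_iff₀ hD0] at this
  set δ : ℂ := (η : ℂ) * (starRingEnd ℂ) ip with hδ
  have hδn : ‖δ‖ = η * ‖ip‖ := by
    rw [hδ, norm_mul, Complex.norm_real, Real.norm_of_nonneg hη0.le, RCLike.norm_conj]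
  have h1 := hmax δ (by rw [hδn]; exact hη1)
  have h2 : ‖a - δ • b‖ ^ 2 ≤ κ ^ 2 * ‖b - (starRingEnd ℂ) δ • a‖ ^ 2 := by
    rw [← mul_pow]
    exact pow_le_pow_left₀ (norm_nonneg _) h1 2
  have hR : (δ * ip) = ((η * ‖ip‖ ^ 2 : ℝ) : ℂ) := by
    rw [hδ, mul_assoc, mul_comm ((starRingEnd ℂ) ip), Complex.mul_conj, Complex.normSq_eq_norm_sq]
    push_cast
    ring
  have e1 : RCLike.re (inner ℂ a (δ • b)) = η * ‖ip‖ ^ 2 := by
    rw [inner_smul_right, ← hip, hR]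
    exact Complex.ofReal_re _
  have e2 : RCLike.re (inner ℂ b ((starRingEnd ℂ) δ • a)) = η * ‖ip‖ ^ 2 := by
    rw [inner_smul_right, ← inner_conj_symm, ← map_mul, ← hip, hR, Complex.conj_ofReal]
    exact Complex.ofReal_re _
  rw [norm_sub_sq (𝕜 := ℂ), norm_sub_sq (𝕜 := ℂ), e1, e2, norm_smul, norm_smul, RCLike.norm_conj,
    hδn, hab] at h2
  have h3 : 2 * (κ ^ 2 - 1) * (η * ‖ip‖ ^ 2) ≤
      (κ ^ 2 - 1) * ((κ ^ 2 + 1) * ‖b‖ ^ 2) * (η * ‖ip‖) ^ 2 := by nlinarith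
  have hκ2 : 0 < κ ^ 2 - 1 := by nlinarith
  have h4 : (κ ^ 2 - 1) * (η * ‖ip‖ ^ 2) * 2 ≤
      (κ ^ 2 - 1) * (η * ‖ip‖ ^ 2) * (((κ ^ 2 + 1) * ‖b‖ ^ 2) * η) := by nlinarith
  have h5 : 0 < (κ ^ 2 - 1) * (η * ‖ip‖ ^ 2) := by positivity
  have h6 : 2 ≤ ((κ ^ 2 + 1) * ‖b‖ ^ 2) * η := le_of_mul_le_mul_left h4 h5
  have h7 : ((κ ^ 2 + 1) * ‖b‖ ^ 2) * η ≤ η * D := by rw [hD]; nlinarith
  linarith

/-- The maximising Moebius transform. -/
lemma exists_max [FiniteDimensional ℂ E] [Nontrivial E] {P : E →L[ℂ] E} {C ρ : ℝ} (hρ0 : 0 ≤ ρ) (hρ1 : ρ < 1)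
    (hP : ∀ n : ℕ, ‖P ^ n‖ ≤ C * ρ ^ n) (hbig : 1 < ‖P‖) :
    ∃ (ε : ℂ) (v : E) (κ : ℝ), ‖ε‖ ≤ 1 ∧ 1 < κ ∧ ‖P‖ ≤ κ ∧ v - (starRingEnd ℂ) ε • P v ≠ 0 ∧
      ‖P v - ε • v‖ = κ * ‖v - (starRingEnd ℂ) ε • P v‖ ∧
      inner ℂ (P v - ε • v) (v - (starRingEnd ℂ) ε • P v) = (0 : ℂ) := by
  set X : Set (ℂ × E) := Metric.closedBall (0 : ℂ) 1 ×ˢ Metric.sphere (0 : E) 1 with hX
  have hXc : IsCompact X := by
    have : ProperSpace E := FiniteDimensional.proper ℂ E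
    exact (isCompact_closedBall _ _).prod (isCompact_sphere _ _)
  obtain ⟨v1, hv1⟩ := exists_norm_eq E zero_le_one
  have hXne : X.Nonempty := ⟨(0, v1), by simp [hX, hv1]⟩
  set num : ℂ × E → ℝ := fun w => ‖P w.2 - w.1 • w.2‖ with hnum
  set den : ℂ × E → ℝ := fun w => ‖w.2 - (starRingEnd ℂ) w.1 • P w.2‖ with hden
  have hden0 : ∀ w ∈ X, den w ≠ 0 := by
    rintro ⟨ε, v⟩ ⟨h1, h2⟩
    rw [hden]
    apply norm_ne_zero_iff.2
    apply no_kernel hρ0 hρ1 hP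
    · simpa using h1
    · intro h0
      simp only [mem_sphere_zero_iff_norm] at h2
      change v = 0 at h0
      rw [h0, norm_zero] at h2
      exact zero_ne_one h2
  have hnumc : Continuous num := by
    rw [hnum]; fun_prop
  have hdenc : Continuous den := by
    rw [hden]
    have : Continuous (fun w : ℂ × E => (starRingEnd ℂ) w.1) :=
      Complex.continuous_conj.comp continuous_fst
    fun_prop
  obtain ⟨⟨ε, v⟩, hmem, hmax⟩ := hXc.exists_isMaxOn hXne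
    (hnumc.continuousOn.div hdenc.continuousOn hden0)
  have hε : ‖ε‖ ≤ 1 := by simpa [hX] using hmem.1
  have hv : ‖v‖ = 1 := by simpa [hX] using hmem.2
  set κ : ℝ := num (ε, v) / den (ε, v) with hκ
  have hdpos : 0 < den (ε, v) := lt_of_le_of_ne (norm_nonneg _) (Ne.symm (hden0 _ hmem))
  have hnd : num (ε, v) = κ * den (ε, v) := by rw [hκ]; field_simp
  -- the global inequality
  have hglob : ∀ (ε' : ℂ), ‖ε'‖ ≤ 1 → ∀ w : E,
      ‖P w - ε' • w‖ ≤ κ * ‖w - (starRingEnd ℂ) ε' • P w‖ := by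
    intro ε' hε' w
    by_cases hw : w = 0
    · simp [hw]
    have hwn : ‖w‖ ≠ 0 := norm_ne_zero_iff.2 hw
    set u : E := ((‖w‖⁻¹ : ℝ) : ℂ) • w with hu
    have hu1 : ‖u‖ = 1 := by
      rw [hu, norm_smul, Complex.norm_real, norm_inv, norm_norm, inv_mul_cancel₀ hwn]
    have hwu : w = ((‖w‖ : ℝ) : ℂ) • u := by
      rw [hu, smul_smul, ← Complex.ofReal_mul, mul_inv_cancel₀ hwn, Complex.ofReal_one, one_smul]
    have hmem' : (ε', u) ∈ X := by simp [hX, hε', hu1]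
    have h1 : num (ε', u) / den (ε', u) ≤ κ := hmax hmem'
    have hd' : 0 < den (ε', u) := lt_of_le_of_ne (norm_nonneg _) (Ne.symm (hden0 _ hmem'))
    rw [div_le_iff₀ hd'] at h1
    have e1 : P w - ε' • w = ((‖w‖ : ℝ) : ℂ) • (P u - ε' • u) := by
      conv_lhs => rw [hwu]
      rw [map_smul, smul_sub, smul_comm ε']
    have e2 : w - (starRingEnd ℂ) ε' • P w =
        ((‖w‖ : ℝ) : ℂ) • (u - (starRingEnd ℂ) ε' • P u) := by
      conv_lhs => rw [hwu]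
      rw [map_smul, smul_sub, smul_comm ((starRingEnd ℂ) ε')]
    rw [e1, e2, norm_smul, norm_smul, Complex.norm_real, norm_norm, mul_left_comm]
    exact mul_le_mul_of_nonneg_left h1 (norm_nonneg _)
  have hκP : ‖P‖ ≤ κ := by
    apply ContinuousLinearMap.opNorm_le_bound
    · rw [hκ]; exact div_nonneg (norm_nonneg _) (norm_nonneg _)
    · intro w
      have := hglob 0 (by simp) w
      simpa using this
  have hκ1 : 1 < κ := lt_of_lt_of_le hbig hκP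
  -- the maximum is not on the boundary
  have hε1 : ‖ε‖ < 1 := by
    rcases hε.lt_or_eq with h | h
    · exact h
    · exfalso
      have h1 : P v - ε • v = -(ε • (v - (starRingEnd ℂ) ε • P v)) := by
        rw [smul_sub, smul_smul, Complex.mul_conj, Complex.normSq_eq_norm_sq, h]
        simp
      have h2 : num (ε, v) = den (ε, v) := by
        show ‖P v - ε • v‖ = ‖v - (starRingEnd ℂ) ε • P v‖
        rw [h1, norm_neg, norm_smul, h, one_mul]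
      rw [hnd] at h2
      nlinarith
  refine ⟨ε, v, κ, hε, hκ1, hκP, norm_ne_zero_iff.1 hdpos.ne', hnd, ?_⟩
  apply orth_of_max hκ1 one_pos hnd
  intro δ hδ
  set c : ℂ := 1 + δ * (starRingEnd ℂ) ε with hc
  have hc0 : c ≠ 0 := by
    intro h0
    have h1 : ‖δ * (starRingEnd ℂ) ε‖ = 1 := by
      have : δ * (starRingEnd ℂ) ε = -1 := by
        rw [hc] at h0; linear_combination h0
      rw [this]; simp
    rw [norm_mul, RCLike.norm_conj] at h1
    nlinarith [norm_nonneg δ, norm_nonneg ε]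
  set ε' : ℂ := (ε + δ) / c with hε'
  have hcε : c * ε' = ε + δ := by rw [hε']; field_simp
  have hε'1 : ‖ε'‖ ≤ 1 := by
    rw [hε', norm_div, div_le_one (norm_pos_iff.2 hc0)]
    apply abs_le_of_sq_le_sq' _ (norm_nonneg _) |>.2
    have e1 : ‖ε + δ‖ ^ 2 = Complex.normSq (ε + δ) := (Complex.normSq_eq_norm_sq _).symm
    have e2 : ‖c‖ ^ 2 = Complex.normSq c := (Complex.normSq_eq_norm_sq _).symm
    have e3 : ‖ε‖ ^ 2 = Complex.normSq ε := (Complex.normSq_eq_norm_sq _).symm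
    have e4 : ‖δ‖ ^ 2 = Complex.normSq δ := (Complex.normSq_eq_norm_sq _).symm
    have h5 : Complex.normSq c - Complex.normSq (ε + δ) =
        (1 - Complex.normSq ε) * (1 - Complex.normSq δ) := by
      rw [hc]
      simp only [Complex.normSq_apply, Complex.add_re, Complex.add_im, Complex.mul_re,
        Complex.mul_im, Complex.conj_re, Complex.conj_im, Complex.one_re, Complex.one_im]
      ring
    have h6 : 0 ≤ 1 - Complex.normSq ε := by rw [← e3]; nlinarith [norm_nonneg ε]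
    have h7 : 0 ≤ 1 - Complex.normSq δ := by rw [← e4]; nlinarith [norm_nonneg δ]
    rw [e1, e2]
    nlinarith [mul_nonneg h6 h7]
  have f1 : P v - ε • v - δ • (v - (starRingEnd ℂ) ε • P v) = c • (P v - ε' • v) := by
    rw [smul_sub c, smul_smul c, hcε, hc, smul_sub, smul_smul]
    module
  have f2 : v - (starRingEnd ℂ) ε • P v - (starRingEnd ℂ) δ • (P v - ε • v) =
      (starRingEnd ℂ) c • (v - (starRingEnd ℂ) ε' • P v) := by
    rw [smul_sub ((starRingEnd ℂ) c), smul_smul ((starRingEnd ℂ) c), ← map_mul, hcε, hc, smul_sub,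
      smul_smul]
    simp only [map_add, map_one, map_mul, Complex.conj_conj]
    module
  rw [f1, f2, norm_smul, norm_smul, RCLike.norm_conj, mul_left_comm]
  exact mul_le_mul_of_nonneg_left (hglob ε' hε'1 v) (norm_nonneg _)

/-- the truncated Moebius polynomial -/
def Bp (ε : ℂ) (N : ℕ) : ℂ[X] :=
  -C ε + C ((1 - ‖ε‖ ^ 2 : ℝ) : ℂ) * X * ∑ i ∈ Finset.range N, (C ((starRingEnd ℂ) ε) * X) ^ i

lemma Bp_mul (ε : ℂ) (N : ℕ) : Bp ε N * (1 - C ((starRingEnd ℂ) ε) * X) =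
    X - C ε - C (((1 - ‖ε‖ ^ 2 : ℝ) : ℂ) * (starRingEnd ℂ) ε ^ N) * X ^ (N + 1) := by
  have h := geom_sum_mul_neg (C ((starRingEnd ℂ) ε) * X) N
  unfold Bp
  have h2 : C ε * C ((starRingEnd ℂ) ε) = C ((‖ε‖ ^ 2 : ℝ) : ℂ) := by
    rw [← C_mul, Complex.mul_conj, Complex.normSq_eq_norm_sq]
  have h3 : C ((1 - ‖ε‖ ^ 2 : ℝ) : ℂ) = 1 - C ((‖ε‖ ^ 2 : ℝ) : ℂ) := by
    push_cast
    rw [C_sub, C_1]
  rw [add_mul, mul_assoc (C ((1 - ‖ε‖ ^ 2 : ℝ) : ℂ) * X), h, C_mul, C_pow, mul_pow, pow_succ' X N]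
  have h4 : -C ε * (1 - C ((starRingEnd ℂ) ε) * X) = -C ε + C ((‖ε‖ ^ 2 : ℝ) : ℂ) * X := by
    rw [← h2]; ring
  rw [h4, h3]
  ring

lemma Bp_bound {ε : ℂ} (hε : ‖ε‖ ≤ 1) (N : ℕ) {ρ : ℝ} (hρ0 : 0 ≤ ρ) (hρ1 : ρ < 1) {w : ℂ}
    (hw : ‖w‖ ≤ ρ) : ‖(Bp ε N).eval w‖ ≤ 1 + ρ ^ (N + 1) / (1 - ρ) := by
  have h := congrArg (eval w) (Bp_mul ε N)
  simp only [eval_mul, eval_sub, eval_one, eval_C, eval_X, eval_pow] at h
  set D : ℂ := 1 - (starRingEnd ℂ) ε * w with hD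
  have hDn : 1 - ρ ≤ ‖D‖ := by
    have h1 : ‖(1 : ℂ)‖ - ‖(starRingEnd ℂ) ε * w‖ ≤ ‖D‖ := norm_sub_norm_le _ _
    have h2 : ‖(starRingEnd ℂ) ε * w‖ ≤ 1 * ρ := by
      rw [norm_mul, RCLike.norm_conj]
      exact mul_le_mul hε hw (norm_nonneg _) zero_le_one
    rw [norm_one] at h1
    linarith
  have hD0 : 0 < ‖D‖ := by linarith
  have h1 : ‖w - ε‖ ≤ ‖D‖ := by
    apply abs_le_of_sq_le_sq' _ (norm_nonneg _) |>.2
    have e1 : ‖w - ε‖ ^ 2 = Complex.normSq (w - ε) := (Complex.normSq_eq_norm_sq _).symm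
    have e2 : ‖D‖ ^ 2 = Complex.normSq D := (Complex.normSq_eq_norm_sq _).symm
    have e3 : ‖ε‖ ^ 2 = Complex.normSq ε := (Complex.normSq_eq_norm_sq _).symm
    have e4 : ‖w‖ ^ 2 = Complex.normSq w := (Complex.normSq_eq_norm_sq _).symm
    have h5 : Complex.normSq D - Complex.normSq (w - ε) =
        (1 - Complex.normSq ε) * (1 - Complex.normSq w) := by
      rw [hD]
      simp only [Complex.normSq_apply, Complex.sub_re, Complex.sub_im, Complex.mul_re,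
        Complex.mul_im, Complex.conj_re, Complex.conj_im, Complex.one_re, Complex.one_im]
      ring
    have h6 : 0 ≤ 1 - Complex.normSq ε := by rw [← e3]; nlinarith [norm_nonneg ε]
    have h7 : 0 ≤ 1 - Complex.normSq w := by rw [← e4]; nlinarith [norm_nonneg w]
    rw [e1, e2]
    nlinarith [mul_nonneg h6 h7]
  have h2 : ‖((1 - ‖ε‖ ^ 2 : ℝ) : ℂ) * (starRingEnd ℂ) ε ^ N * w ^ (N + 1)‖ ≤ ρ ^ (N + 1) := by
    rw [norm_mul, norm_mul, norm_pow, norm_pow, RCLike.norm_conj, Complex.norm_real]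
    have e1 : ‖(1 - ‖ε‖ ^ 2 : ℝ)‖ ≤ 1 := by
      rw [Real.norm_eq_abs, abs_le]
      constructor <;> nlinarith [norm_nonneg ε]
    have e2 : ‖ε‖ ^ N ≤ 1 := pow_le_one₀ (norm_nonneg _) hε
    have e3 : ‖w‖ ^ (N + 1) ≤ ρ ^ (N + 1) := pow_le_pow_left₀ (norm_nonneg _) hw _
    calc ‖(1 - ‖ε‖ ^ 2 : ℝ)‖ * ‖ε‖ ^ N * ‖w‖ ^ (N + 1) ≤ 1 * 1 * ρ ^ (N + 1) := by gcongr
      _ = ρ ^ (N + 1) := by ring
  have h3 : ‖(Bp ε N).eval w‖ * ‖D‖ ≤ ‖D‖ + ρ ^ (N + 1) := by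
    rw [← norm_mul, h]
    exact (norm_sub_le _ _).trans (add_le_add h1 h2)
  have h4 : ‖(Bp ε N).eval w‖ ≤ (‖D‖ + ρ ^ (N + 1)) / ‖D‖ := by
    rw [le_div_iff₀ hD0]; exact h3
  refine h4.trans ?_
  rw [add_div, div_self hD0.ne']
  have h5 : ρ ^ (N + 1) / ‖D‖ ≤ ρ ^ (N + 1) / (1 - ρ) :=
    div_le_div_of_nonneg_left (by positivity) (by linarith) hDn
  linarith

/-- **The main bound**, for polynomials bounded on the circles. -/
theorem main_bound [FiniteDimensional ℂ E] [Nontrivial E] {A : E →L[ℂ] E} {p : ℂ[X]}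
    {M s t q : ℝ} (hs : 0 ≤ s) (ht0 : 0 < t)
    (hq0 : 0 < q) (hq : q * (1 + t ^ 2) = 2 * t) (hsq : s ^ 2 * q ^ 2 = 1 - q ^ 2)
    (hM0 : 0 ≤ M) (hM : Bd A s p M)
    (hdim : s ≠ 0 → ∀ x : E, ‖x‖ = 1 → ∃ v : E, ‖v‖ = 1 ∧ inner ℂ v x = 0) :
    ‖aeval A p‖ ≤ max 1 (2 * t) * M := by
  have : CompleteSpace E := FiniteDimensional.complete ℂ E
  have hc0 : 0 < max 1 (2 * t) := lt_of_lt_of_le one_pos (le_max_left _ _)
  apply le_of_forall_pos_le_add
  intro η hη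
  set M' : ℝ := M + η / max 1 (2 * t) with hM'
  have hM'0 : 0 < M' := by positivity
  have hMM' : M < M' := by
    have : 0 < η / max 1 (2 * t) := by positivity
    linarith
  set ρ : ℝ := M / M' with hρ
  have hρ0 : 0 ≤ ρ := by positivity
  have hρ1 : ρ < 1 := by rw [hρ, div_lt_one hM'0]; exact hMM'
  set p' : ℂ[X] := C ((M'⁻¹ : ℝ) : ℂ) * p with hp'
  set P : E →L[ℂ] E := aeval A p' with hP
  have hbd : Bd A s p' ρ := by
    intro x v h1 h2 h3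
    rw [hp', eval_mul, eval_C, norm_mul, Complex.norm_real, Real.norm_of_nonneg (by positivity), hρ,
      div_eq_inv_mul]
    exact mul_le_mul_of_nonneg_left (hM x v h1 h2 h3) (by positivity)
  have hPp : aeval A p = ((M' : ℝ) : ℂ) • P := by
    rw [hP, hp', map_mul, aeval_C, ← Algebra.smul_def, smul_smul, ← Complex.ofReal_mul,
      mul_inv_cancel₀ hM'0.ne', Complex.ofReal_one, one_smul]
  -- it is enough to bound `P`
  have key : ‖P‖ ≤ max 1 (2 * t) := by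
    by_contra hcon
    push Not at hcon
    have hbig : 1 < ‖P‖ := lt_of_le_of_lt (le_max_left _ _) hcon
    obtain ⟨y1, hy1⟩ := exists_norm_eq E zero_le_one
    have hpow : ∀ n : ℕ, ‖P ^ n‖ ≤ (‖S t y1‖ * 2 * ‖S t⁻¹ y1‖) * ρ ^ n := by
      intro n
      have hb : Bd A s (p' ^ n) (ρ ^ n) := by
        intro x v h1 h2 h3
        rw [eval_pow, norm_pow]
        exact pow_le_pow_left₀ (norm_nonneg _) (hbd x v h1 h2 h3) n
      have h1 := similar_bound hs ht0 hq0 hq hsq hb hdim y1 hy1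
      rw [map_pow, ← hP] at h1
      have h2 : P ^ n = S t y1 * (S t⁻¹ y1 * P ^ n * S t y1) * S t⁻¹ y1 := by
        have e : S t y1 * S t⁻¹ y1 = 1 := S_mul _ _ (mul_inv_cancel₀ ht0.ne') _ hy1
        calc P ^ n = (S t y1 * S t⁻¹ y1) * P ^ n * (S t y1 * S t⁻¹ y1) := by rw [e, one_mul, mul_one]
          _ = _ := by simp only [mul_assoc]
      rw [h2]
      calc ‖S t y1 * (S t⁻¹ y1 * P ^ n * S t y1) * S t⁻¹ y1‖
          ≤ ‖S t y1‖ * ‖S t⁻¹ y1 * P ^ n * S t y1‖ * ‖S t⁻¹ y1‖ :=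
            (norm_mul_le _ _).trans (mul_le_mul_of_nonneg_right (norm_mul_le _ _) (norm_nonneg _))
        _ ≤ ‖S t y1‖ * (2 * ρ ^ n) * ‖S t⁻¹ y1‖ := by gcongr
        _ = (‖S t y1‖ * 2 * ‖S t⁻¹ y1‖) * ρ ^ n := by ring
    set K : ℝ := ‖S t y1‖ * 2 * ‖S t⁻¹ y1‖ with hK
    obtain ⟨ε, v, κ, hε, hκ1, hκP, hb0, hab, horth⟩ := exists_max hρ0 hρ1 hpow hbig
    set a : E := P v - ε • v with ha
    set b : E := v - (starRingEnd ℂ) ε • P v with hb
    have hbn : 0 < ‖b‖ := norm_pos_iff.2 hb0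
    have han : 0 < ‖a‖ := by rw [hab]; positivity
    set y : E := ((‖a‖⁻¹ : ℝ) : ℂ) • a with hy
    have hyn : ‖y‖ = 1 := by
      rw [hy, norm_smul, Complex.norm_real, norm_inv, norm_norm, inv_mul_cancel₀ han.ne']
    have hya : inner ℂ y a = ((‖a‖ : ℝ) : ℂ) := by
      rw [hy, inner_smul_left, Complex.conj_ofReal, inner_self_eq_norm_sq_to_K]
      push_cast
      have : (‖a‖ : ℂ) ≠ 0 := by exact_mod_cast han.ne'
      show (‖a‖ : ℂ)⁻¹ * (‖a‖ : ℂ) ^ 2 = ‖a‖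
      field_simp
    have hyb : inner ℂ y b = (0 : ℂ) := by
      rw [hy, inner_smul_left, horth, mul_zero]
    have hSa : S t⁻¹ y a = ((t⁻¹ : ℝ) : ℂ) • a := by
      rw [S_apply, hya, hy, smul_smul, mul_assoc, ← Complex.ofReal_mul, mul_inv_cancel₀ han.ne',
        Complex.ofReal_one, mul_one]
      push_cast
      module
    have hSb : S t⁻¹ y b = b := by
      rw [S_apply, hyb, mul_zero, zero_smul, add_zero]
    -- the limit inequality
    have hlim : ∀ N : ℕ, ‖S t⁻¹ y a‖ ≤ 2 * (1 + ρ ^ (N + 1) / (1 - ρ)) * ‖S t⁻¹ y b‖ +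
        ‖S t⁻¹ y‖ * (K * ρ ^ (N + 1) * ‖v‖) := by
      intro N
      have hbN : Bd A s ((Bp ε N).comp p') (1 + ρ ^ (N + 1) / (1 - ρ)) := by
        intro x v h1 h2 h3
        rw [eval_comp]
        exact Bp_bound hε N hρ0 hρ1 (hbd x v h1 h2 h3)
      have h1 := similar_bound hs ht0 hq0 hq hsq hbN hdim y hyn
      rw [aeval_comp, ← hP] at h1
      set c : ℂ := ((1 - ‖ε‖ ^ 2 : ℝ) : ℂ) * (starRingEnd ℂ) ε ^ N with hc
      have hcn : ‖c‖ ≤ 1 := by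
        rw [hc, norm_mul, norm_pow, RCLike.norm_conj, Complex.norm_real]
        have e1 : ‖(1 - ‖ε‖ ^ 2 : ℝ)‖ ≤ 1 := by
          rw [Real.norm_eq_abs, abs_le]
          constructor <;> nlinarith [norm_nonneg ε]
        have e2 : ‖ε‖ ^ N ≤ 1 := pow_le_one₀ (norm_nonneg _) hε
        calc ‖(1 - ‖ε‖ ^ 2 : ℝ)‖ * ‖ε‖ ^ N ≤ 1 * 1 := by gcongr
          _ = 1 := one_mul 1
      have h2 : (aeval P (Bp ε N)) b = a - c • (P ^ (N + 1)) v := by
        have e1 : b = (aeval P (1 - C ((starRingEnd ℂ) ε) * X)) v := by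
          rw [map_sub, map_mul, map_one, aeval_C, aeval_X, ← Algebra.smul_def]
          rfl
        have e2 : (aeval P (Bp ε N)) b =
            (aeval P (Bp ε N * (1 - C ((starRingEnd ℂ) ε) * X))) v := by
          rw [map_mul, e1]; rfl
        rw [e2, Bp_mul, map_sub, map_sub, map_mul, aeval_X, aeval_C, aeval_C, map_pow, aeval_X,
          ← Algebra.smul_def, ← hc]
        show P v - (algebraMap ℂ (E →L[ℂ] E) ε) v - (c • P ^ (N + 1)) v = _
        rw [Algebra.algebraMap_eq_smul_one]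
        rfl
      have h3 : S t⁻¹ y ((aeval P (Bp ε N)) b) =
          (S t⁻¹ y * aeval P (Bp ε N) * S t y) (S t⁻¹ y b) := by
        have e : S t y (S t⁻¹ y b) = b := by
          have : S t y * S t⁻¹ y = 1 := S_mul _ _ (mul_inv_cancel₀ ht0.ne') _ hyn
          show (S t y * S t⁻¹ y) b = b
          rw [this]; rfl
        show _ = S t⁻¹ y ((aeval P (Bp ε N)) (S t y (S t⁻¹ y b)))
        rw [e]
      have h4 : S t⁻¹ y a = S t⁻¹ y ((aeval P (Bp ε N)) b) + S t⁻¹ y (c • (P ^ (N + 1)) v) := by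
        rw [h2, ← map_add, sub_add_cancel]
      rw [h4]
      refine (norm_add_le _ _).trans (add_le_add ?_ ?_)
      · rw [h3]
        exact ((S t⁻¹ y * aeval P (Bp ε N) * S t y).le_opNorm _).trans
          (mul_le_mul_of_nonneg_right h1 (norm_nonneg _))
      · refine ((S t⁻¹ y).le_opNorm _).trans (mul_le_mul_of_nonneg_left ?_ (norm_nonneg _))
        rw [norm_smul]
        calc ‖c‖ * ‖(P ^ (N + 1)) v‖ ≤ 1 * (K * ρ ^ (N + 1) * ‖v‖) := by
              apply mul_le_mul hcn _ (norm_nonneg _) zero_le_one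
              exact ((P ^ (N + 1)).le_opNorm v).trans
                (mul_le_mul_of_nonneg_right (hpow (N + 1)) (norm_nonneg _))
          _ = _ := one_mul _
    have hρt : Tendsto (fun N : ℕ => ρ ^ (N + 1)) atTop (𝓝 0) :=
      (tendsto_pow_atTop_nhds_zero_of_lt_one hρ0 hρ1).comp (tendsto_add_atTop_nat 1)
    have hT : Tendsto (fun N : ℕ => 2 * (1 + ρ ^ (N + 1) / (1 - ρ)) * ‖S t⁻¹ y b‖ +
        ‖S t⁻¹ y‖ * (K * ρ ^ (N + 1) * ‖v‖)) atTop
        (𝓝 (2 * (1 + 0 / (1 - ρ)) * ‖S t⁻¹ y b‖ + ‖S t⁻¹ y‖ * (K * 0 * ‖v‖))) :=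
      ((((hρt.div_const _).const_add 1).const_mul 2).mul_const _).add
        (((hρt.const_mul K).mul_const _).const_mul _)
    have hfin := ge_of_tendsto' hT hlim
    simp only [zero_div, add_zero, mul_one, mul_zero, zero_mul] at hfin
    rw [hSa, hSb, norm_smul, Complex.norm_real, Real.norm_of_nonneg (by positivity), hab] at hfin
    have h5 : κ * ‖b‖ ≤ (2 * t) * ‖b‖ := by
      have := mul_le_mul_of_nonneg_left hfin ht0.le
      have e : t * (t⁻¹ * (κ * ‖b‖)) = κ * ‖b‖ := by field_simp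
      rw [e] at this
      linarith
    have h6 : κ ≤ 2 * t := le_of_mul_le_mul_right h5 hbn
    have h7 : ‖P‖ ≤ max 1 (2 * t) := (hκP.trans h6).trans (le_max_right _ _)
    linarith
  rw [hPp, norm_smul, Complex.norm_real, Real.norm_of_nonneg hM'0.le]
  calc M' * ‖P‖ ≤ M' * max 1 (2 * t) := mul_le_mul_of_nonneg_left key hM'0.le
    _ = max 1 (2 * t) * M + η := by rw [hM']; field_simp

end

end Q82.QR
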