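import Pool.Agent.W753.CZ.Crouzeix

/-!
# The Crouzeix type bound for scaled `q`-numerical ranges

Main tool: `Pool.Agent.W753.CZ.crouzeix_bound` applied to a similar operator `S A S⁻¹`,
`S = 1 + (1/t - 1) y y*`, whose numerical range lies in the scaled `q`-numerical range.
-/

namespace Q82.QR

open Polynomial Filter Topology

noncomputable section

variable {H : Type} [NormedAddCommGroup H] [InnerProductSpace ℂ H]

/-- the operator `1 + (c - 1) y y*` -/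
def S (c : ℝ) (y : H) : H →L[ℂ] H :=
  1 + ((c - 1 : ℝ) : ℂ) • (innerSL ℂ y).smulRight y

lemma S_apply (c : ℝ) (y u : H) : S c y u = u + (((c - 1 : ℝ) : ℂ) * inner ℂ y u) • y := by
  simp [S, smul_smul]

lemma S_mul (c d : ℝ) (hcd : c * d = 1) (y : H) (hy : ‖y‖ = 1) : S c y * S d y = 1 := by
  ext u
  rw [mul_apply_eq_comp, S_apply, S_apply, inner_add_right, inner_smul_right,
    inner_self_eq_norm_sq_to_K, hy]
  simp only [one_apply_eq_self]
  rw [add_assoc, ← add_smul]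
  have : ((d - 1 : ℝ) : ℂ) * inner ℂ y u + ((c - 1 : ℝ) : ℂ) *
      (inner ℂ y u + ((d - 1 : ℝ) : ℂ) * inner ℂ y u * (((1 : ℝ) : ℂ)) ^ 2) = 0 := by
    have h : (c : ℂ) * d = 1 := by exact_mod_cast hcd
    push_cast
    linear_combination (inner ℂ y u) * h
  have h2 : ((d - 1 : ℝ) : ℂ) * inner ℂ y u + ((c - 1 : ℝ) : ℂ) *
      (inner ℂ y u + ((d - 1 : ℝ) : ℂ) * inner ℂ y u * ((RCLike.ofReal (1 : ℝ) : ℂ)) ^ 2) = 0 := this
  rw [h2, zero_smul, add_zero]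

lemma S_symm (c : ℝ) (y u v : H) : inner ℂ (S c y u) v = inner ℂ u (S c y v) := by
  rw [S_apply, S_apply, inner_add_left, inner_add_right, inner_smul_left, inner_smul_right]
  simp only [map_mul, Complex.conj_ofReal, inner_conj_symm]
  ring

lemma S_norm_sq (c : ℝ) (y u : H) (hy : ‖y‖ = 1) :
    ‖S c y u‖ ^ 2 = ‖u‖ ^ 2 + (c ^ 2 - 1) * ‖(inner ℂ y u : ℂ)‖ ^ 2 := by
  rw [S_apply]
  have h := norm_add_sq (𝕜 := ℂ) u ((((c - 1 : ℝ) : ℂ) * inner ℂ y u) • y)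
  rw [h, norm_smul, hy, mul_one, norm_mul, Complex.norm_real, inner_smul_right]
  have h1 : RCLike.re (((c - 1 : ℝ) : ℂ) * inner ℂ y u * inner ℂ u y) =
      (c - 1) * ‖(inner ℂ y u : ℂ)‖ ^ 2 := by
    rw [mul_assoc]
    have : inner ℂ y u * inner ℂ u y = ((‖(inner ℂ y u : ℂ)‖ ^ 2 : ℝ) : ℂ) := by
      rw [← inner_conj_symm u y, Complex.mul_conj, Complex.normSq_eq_norm_sq]
    rw [this, ← Complex.ofReal_mul]
    exact Complex.ofReal_re _
  rw [h1, mul_pow, Real.norm_eq_abs, sq_abs]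
  ring

/-- the parameters: `t ∈ (0,1]`, `q = 2t/(1+t²)` -/
lemma kantorovich {t q : ℝ} (ht0 : 0 < t) (hq : q * (1 + t ^ 2) = 2 * t) {y u : H}
    (hy : ‖y‖ = 1) (hu : ‖u‖ = 1) : q ^ 2 * (‖S t y u‖ ^ 2 * ‖S t⁻¹ y u‖ ^ 2) ≤ 1 := by
  rw [S_norm_sq _ _ _ hy, S_norm_sq _ _ _ hy, hu]
  set a : ℝ := ‖(inner ℂ y u : ℂ)‖ ^ 2 with ha
  have ha0 : 0 ≤ a := by positivity
  have hq0 : q = 2 * t / (1 + t ^ 2) := by
    rw [eq_div_iff (by positivity)]; exact hq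
  rw [hq0]
  have h1 : (2 * t / (1 + t ^ 2)) ^ 2 * ((1 ^ 2 + (t ^ 2 - 1) * a) * (1 ^ 2 + ((t⁻¹) ^ 2 - 1) * a))
      = (4 * ((1 - (1 - t ^ 2) * a) * (t ^ 2 + (1 - t ^ 2) * a))) / (1 + t ^ 2) ^ 2 := by
    field_simp
    ring
  rw [h1, div_le_one (by positivity)]
  nlinarith [sq_nonneg ((1 - (1 - t ^ 2) * a) - (t ^ 2 + (1 - t ^ 2) * a))]

/-- points of a disc about a point of the numerical range -/
lemma disc_point {A : H →L[ℂ] H} {p : ℂ[X]} {M s : ℝ} (hs : 0 ≤ s)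
    (hM : ∀ x v : H, ‖x‖ = 1 → inner ℂ v x = 0 → ‖v‖ = s →
      ‖p.eval (inner ℂ x (A x) + inner ℂ v (A x))‖ ≤ M)
    (hdim : s ≠ 0 → ∀ x : H, ‖x‖ = 1 → ∃ v : H, ‖v‖ = 1 ∧ inner ℂ v x = 0)
    (x v : H) (hx : ‖x‖ = 1) (hv : inner ℂ v x = 0) (hvs : ‖v‖ ≤ s) :
    ‖p.eval (inner ℂ x (A x) + inner ℂ v (A x))‖ ≤ M := by
  rcases hs.eq_or_lt with h0 | h0
  · apply hM x v hx hv
    rw [← h0] at hvs ⊢
    exact le_antisymm hvs (norm_nonneg _)
  -- a unit vector in the direction of `v`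
  obtain ⟨w, hw1, hw2, hw3⟩ : ∃ w : H, ‖w‖ = 1 ∧ inner ℂ w x = 0 ∧ v = ((‖v‖ : ℝ) : ℂ) • w := by
    by_cases hv0 : v = 0
    · obtain ⟨w, h1, h2⟩ := hdim h0.ne' x hx
      exact ⟨w, h1, h2, by rw [hv0]; simp⟩
    · have hn : ‖v‖ ≠ 0 := norm_ne_zero_iff.2 hv0
      refine ⟨((‖v‖⁻¹ : ℝ) : ℂ) • v, ?_, ?_, ?_⟩
      · rw [norm_smul, Complex.norm_real, norm_inv, norm_norm, inv_mul_cancel₀ hn]
      · rw [inner_smul_left, hv, mul_zero]
      · rw [smul_smul, ← Complex.ofReal_mul, mul_inv_cancel₀ hn, Complex.ofReal_one, one_smul]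
  set c0 : ℂ := inner ℂ w (A x) with hc0
  set f : ℂ → ℂ := fun ω => p.eval (inner ℂ x (A x) + ω * (s * c0)) with hf
  have hfd : Differentiable ℂ f := by
    intro z
    have : f = (fun z => p.eval z) ∘ (fun ω : ℂ => inner ℂ x (A x) + ω * (s * c0)) := rfl
    rw [this]
    exact (p.differentiable.comp (by fun_prop)) z
  have hfr : ∀ z ∈ frontier (Metric.ball (0 : ℂ) 1), ‖f z‖ ≤ M := by
    intro z hz
    rw [frontier_ball (0 : ℂ) one_ne_zero, mem_sphere_zero_iff_norm] at hz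
    have h1 := hM x (((starRingEnd ℂ) z * s) • w) hx (by rw [inner_smul_left, hw2, mul_zero]) (by
      rw [norm_smul, norm_mul, RCLike.norm_conj, hz, hw1, Complex.norm_real,
        Real.norm_of_nonneg h0.le]
      ring)
    rw [inner_smul_left] at h1
    simp only [map_mul, Complex.conj_conj, Complex.conj_ofReal] at h1
    rw [hf]
    simp only
    rw [← mul_assoc]
    exact h1
  have hmem : ((‖v‖ / s : ℝ) : ℂ) ∈ closure (Metric.ball (0 : ℂ) 1) := by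
    rw [closure_ball (0 : ℂ) one_ne_zero, mem_closedBall_zero_iff, Complex.norm_real,
      Real.norm_of_nonneg (by positivity), div_le_one h0]
    exact hvs
  have h2 := Complex.norm_le_of_forall_mem_frontier_norm_le Metric.isBounded_ball
    (hfd.diffContOnCl) hfr hmem
  have h3 : f ((‖v‖ / s : ℝ) : ℂ) = p.eval (inner ℂ x (A x) + inner ℂ v (A x)) := by
    rw [hf]
    simp only
    congr 2
    conv_rhs => rw [hw3]
    rw [inner_smul_left, Complex.conj_ofReal, ← hc0]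
    have : (s : ℂ) ≠ 0 := by exact_mod_cast h0.ne'
    push_cast
    field_simp
  rw [h3] at h2
  exact h2

/-- `|p| ≤ M` on all the circles `⟨A x, x⟩ + ⟨A x, v⟩`, `‖x‖ = 1`, `v ⟂ x`, `‖v‖ = s` -/
def Bd (A : H →L[ℂ] H) (s : ℝ) (p : ℂ[X]) (M : ℝ) : Prop :=
  ∀ x v : H, ‖x‖ = 1 → inner ℂ v x = 0 → ‖v‖ = s →
    ‖p.eval (inner ℂ x (A x) + inner ℂ v (A x))‖ ≤ M

lemma range_sub {A : H →L[ℂ] H} {p : ℂ[X]} {M s t q : ℝ} (hs : 0 ≤ s) (ht0 : 0 < t) (hq0 : 0 < q)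
    (hq : q * (1 + t ^ 2) = 2 * t) (hsq : s ^ 2 * q ^ 2 = 1 - q ^ 2) (hM : Bd A s p M)
    (hdim : s ≠ 0 → ∀ x : H, ‖x‖ = 1 → ∃ v : H, ‖v‖ = 1 ∧ inner ℂ v x = 0)
    (y : H) (hy : ‖y‖ = 1) (u : H) (hu : ‖u‖ = 1) :
    ‖p.eval (inner ℂ u ((S t⁻¹ y * A * S t y) u))‖ ≤ M := by
  set w := S t y u with hw
  set z := S t⁻¹ y u with hz
  have h1 : inner ℂ u ((S t⁻¹ y * A * S t y) u) = inner ℂ z (A w) := by
    rw [hz, S_symm]; rfl
  have h2 : inner ℂ z w = (1 : ℂ) := by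
    rw [hz, S_symm, hw]
    have : S t⁻¹ y (S t y u) = (S t⁻¹ y * S t y) u := rfl
    rw [this, S_mul _ _ (inv_mul_cancel₀ ht0.ne') _ hy]
    show inner ℂ u u = (1 : ℂ)
    rw [inner_self_eq_norm_sq_to_K, hu]
    simp
  have hwn : ‖w‖ ≠ 0 := by
    intro h0
    rw [norm_eq_zero.1 h0, inner_zero_right] at h2
    exact zero_ne_one h2
  have hw0 : 0 < ‖w‖ := lt_of_le_of_ne (norm_nonneg _) (Ne.symm hwn)
  have hk := kantorovich ht0 hq hy hu
  rw [← hw, ← hz] at hk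
  set x : H := ((‖w‖⁻¹ : ℝ) : ℂ) • w with hx
  have hx1 : ‖x‖ = 1 := by
    rw [hx, norm_smul, Complex.norm_real, norm_inv, norm_norm, inv_mul_cancel₀ hwn]
  have hwx : w = ((‖w‖ : ℝ) : ℂ) • x := by
    rw [hx, smul_smul, ← Complex.ofReal_mul, mul_inv_cancel₀ hwn, Complex.ofReal_one, one_smul]
  have hzx : inner ℂ (((‖w‖ : ℝ) : ℂ) • z) x = (1 : ℂ) := by
    rw [inner_smul_left, Complex.conj_ofReal, ← inner_smul_right, ← hwx, h2]
  set v : H := ((‖w‖ : ℝ) : ℂ) • z - x with hv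
  have hxx : inner ℂ x x = (1 : ℂ) := by
    rw [inner_self_eq_norm_sq_to_K, hx1]; simp
  have hvx : inner ℂ v x = (0 : ℂ) := by
    rw [hv, inner_sub_left, hzx, hxx, sub_self]
  have hvn : ‖v‖ ≤ s := by
    apply abs_le_of_sq_le_sq' _ hs |>.2
    rw [hv, norm_sub_sq (𝕜 := ℂ), hzx, hx1, norm_smul, Complex.norm_real, norm_norm]
    simp only [RCLike.one_re]
    have h3 : q ^ 2 * ((‖w‖ * ‖z‖) ^ 2 - 2 * 1 + 1 ^ 2) ≤ q ^ 2 * s ^ 2 := by nlinarith
    exact le_of_mul_le_mul_left h3 (by positivity)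
  have h4 : inner ℂ z (A w) = inner ℂ x (A x) + inner ℂ v (A x) := by
    have e : inner ℂ (((‖w‖ : ℝ) : ℂ) • z) (A x) = ((‖w‖ : ℝ) : ℂ) * inner ℂ z (A x) := by
      rw [inner_smul_left, Complex.conj_ofReal]
    rw [hv, inner_sub_left, e]
    conv_lhs => rw [hwx]
    rw [map_smul, inner_smul_right]
    ring
  rw [h1, h4]
  exact disc_point hs hM hdim x v hx1 hvx hvn

lemma aeval_conj {A : H →L[ℂ] H} {U V : H →L[ℂ] H} (h : V * U = 1) (p : ℂ[X]) :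
    U * aeval A p * V = aeval (U * A * V) p * (U * V) := by
  induction p using Polynomial.induction_on' with
  | add p r hp hr => rw [map_add, map_add, mul_add, add_mul, add_mul, hp, hr]
  | monomial n a =>
    rw [aeval_monomial, aeval_monomial]
    have h1 : U * A ^ n * V = (U * A * V) ^ n * (U * V) := by
      induction n with
      | zero => simp
      | succ n ih =>
        calc U * A ^ (n + 1) * V = U * A ^ n * A * V := by rw [pow_succ]; simp only [mul_assoc]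
          _ = U * A ^ n * (V * U) * A * V := by rw [h, mul_one]
          _ = (U * A ^ n * V) * (U * A * V) := by simp only [mul_assoc]
          _ = (U * A * V) ^ n * (U * V) * (U * A * V) := by rw [ih]
          _ = (U * A * V) ^ n * (U * (V * U) * A * V) := by simp only [mul_assoc]
          _ = (U * A * V) ^ n * ((U * A * V)) := by rw [h, mul_one]
          _ = (U * A * V) ^ n * ((U * A * (V * U) * V)) := by rw [h, mul_one]
          _ = (U * A * V) ^ (n + 1) * (U * V) := by rw [pow_succ]; simp only [mul_assoc]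
    rw [← mul_assoc, ← (Algebra.commutes a U), mul_assoc, mul_assoc, ← mul_assoc U, h1]
    simp only [mul_assoc]

variable [CompleteSpace H] [Nontrivial H]

/-- the similarity version of Crouzeix's inequality -/
theorem similar_bound {A : H →L[ℂ] H} {p : ℂ[X]} {M s t q : ℝ} (hs : 0 ≤ s) (ht0 : 0 < t)
    (hq0 : 0 < q) (hq : q * (1 + t ^ 2) = 2 * t) (hsq : s ^ 2 * q ^ 2 = 1 - q ^ 2)
    (hM : Bd A s p M)
    (hdim : s ≠ 0 → ∀ x : H, ‖x‖ = 1 → ∃ v : H, ‖v‖ = 1 ∧ inner ℂ v x = 0)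
    (y : H) (hy : ‖y‖ = 1) : ‖S t⁻¹ y * aeval A p * S t y‖ ≤ 2 * M := by
  have h1 : S t y * S t⁻¹ y = 1 := S_mul _ _ (mul_inv_cancel₀ ht0.ne') _ hy
  have h2 : S t⁻¹ y * S t y = 1 := S_mul _ _ (inv_mul_cancel₀ ht0.ne') _ hy
  rw [aeval_conj h1, h2, mul_one]
  apply Pool.Agent.W753.CZ.crouzeix_bound
  rintro w ⟨u, hu, rfl⟩
  exact range_sub hs ht0 hq0 hq hsq hM hdim y hy u hu

end

end Q82.QR
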