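import Mathlib

open Filter Topology Set

namespace Pool.Agent.Q82.SR

attribute [local instance] Ultrafilter.add Ultrafilter.addSemigroup

variable {X : Type*} [NormedAddCommGroup X] [NormedSpace ℝ X]

/-- bounded ultrafilter -/
def Bd (U : Ultrafilter X) : Prop := ∃ R : ℝ, ∀ᶠ x in (U : Filter X), ‖x‖ ≤ R

/-- limit of a function along an ultrafilter -/
noncomputable def ul (U : Ultrafilter X) (F : X → ℝ) : ℝ := limUnder (U : Filter X) F

/-- Lipschitz functions -/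
def Lp (K : ℝ) (F : X → ℝ) : Prop := ∀ x y, |F x - F y| ≤ K * ‖x - y‖

/-- dilation of an ultrafilter -/
noncomputable def sm (t : ℝ) (U : Ultrafilter X) : Ultrafilter X := U.map (fun x => t • x)

lemma Lp.bdd {K : ℝ} {F : X → ℝ} (hF : Lp K F) {U : Ultrafilter X} (hU : Bd U) :
    ∃ C, ∀ᶠ x in (U : Filter X), |F x| ≤ C := by
  obtain ⟨R, hR⟩ := hU
  refine ⟨|F 0| + |K| * R, ?_⟩
  filter_upwards [hR] with x hx
  have h1 := hF x 0
  rw [sub_zero] at h1
  have h2 : |F x| ≤ |F 0| + |F x - F 0| := by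
    have := abs_add_le (F 0) (F x - F 0)
    simpa using this
  have h3 : K * ‖x‖ ≤ |K| * ‖x‖ := mul_le_mul_of_nonneg_right (le_abs_self K) (norm_nonneg x)
  have h4 : |K| * ‖x‖ ≤ |K| * R := mul_le_mul_of_nonneg_left hx (abs_nonneg K)
  linarith

lemma Lp.tendsto {K : ℝ} {F : X → ℝ} (hF : Lp K F) {U : Ultrafilter X} (hU : Bd U) :
    Tendsto F (U : Filter X) (𝓝 (ul U F)) := by
  obtain ⟨C, hC⟩ := hF.bdd hU
  have hc : IsCompact (Set.Icc (-C) C) := isCompact_Icc
  obtain ⟨a, -, ha⟩ := hc.ultrafilter_le_nhds (U.map F) (by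
    rw [le_principal_iff]
    show ∀ᶠ x in (U : Filter X), F x ∈ Set.Icc (-C) C
    filter_upwards [hC] with x hx
    exact abs_le.1 hx)
  have h2 : Tendsto F (U : Filter X) (𝓝 a) := ha
  exact tendsto_nhds_limUnder ⟨a, h2⟩

lemma ul_eq_of_tendsto {F : X → ℝ} {U : Ultrafilter X} {a : ℝ}
    (h : Tendsto F (U : Filter X) (𝓝 a)) : ul U F = a := h.limUnder_eq

lemma ul_sm (t : ℝ) (U : Ultrafilter X) (F : X → ℝ) :
    ul (sm t U) F = ul U (fun x => F (t • x)) := by
  unfold ul sm limUnder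
  rw [Ultrafilter.coe_map, Filter.map_map]
  rfl

lemma ev_sm (t : ℝ) (U : Ultrafilter X) (p : X → Prop) :
    (∀ᶠ x in (sm t U : Filter X), p x) ↔ ∀ᶠ x in (U : Filter X), p (t • x) := Iff.rfl

lemma ev_add (U V : Ultrafilter X) (p : X → Prop) :
    (∀ᶠ x in ((U + V : Ultrafilter X) : Filter X), p x) ↔
      ∀ᶠ x in (U : Filter X), ∀ᶠ y in (V : Filter X), p (x + y) := Iff.rfl

lemma Bd.sm {U : Ultrafilter X} (hU : Bd U) (t : ℝ) : Bd (sm t U) := by
  obtain ⟨R, hR⟩ := hU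
  refine ⟨|t| * R, ?_⟩
  rw [ev_sm]
  filter_upwards [hR] with x hx
  rw [norm_smul, Real.norm_eq_abs]
  exact mul_le_mul_of_nonneg_left hx (abs_nonneg t)

lemma Bd.add {U V : Ultrafilter X} (hU : Bd U) (hV : Bd V) : Bd (U + V) := by
  obtain ⟨R, hR⟩ := hU
  obtain ⟨S, hS⟩ := hV
  refine ⟨R + S, ?_⟩
  rw [ev_add]
  filter_upwards [hR] with x hx
  filter_upwards [hS] with y hy
  exact (norm_add_le x y).trans (add_le_add hx hy)

lemma Bd.pure (a : X) : Bd (pure a : Ultrafilter X) := ⟨‖a‖, by simp⟩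

lemma sm_add (t : ℝ) (U V : Ultrafilter X) : sm t (U + V) = sm t U + sm t V := by
  apply Ultrafilter.coe_injective
  apply Filter.ext'
  intro p
  rw [ev_sm, ev_add, ev_add]
  show _ ↔ ∀ᶠ x in (U : Filter X), ∀ᶠ y in (V : Filter X), p (t • x + t • y)
  simp only [smul_add]

lemma sm_sm (s t : ℝ) (U : Ultrafilter X) : sm s (sm t U) = sm (s * t) U := by
  apply Ultrafilter.coe_injective
  apply Filter.ext'
  intro p
  rw [ev_sm, ev_sm, ev_sm]
  simp only [smul_smul]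

lemma sm_one (U : Ultrafilter X) : sm 1 U = U := by
  apply Ultrafilter.coe_injective
  apply Filter.ext'
  intro p
  rw [ev_sm]
  simp only [one_smul]

lemma sm_pure (t : ℝ) : sm t (pure 0 : Ultrafilter X) = pure 0 := by
  apply Ultrafilter.coe_injective
  apply Filter.ext'
  intro p
  rw [ev_sm]
  simp

lemma pure_add (U : Ultrafilter X) : (pure 0 : Ultrafilter X) + U = U := by
  apply Ultrafilter.coe_injective
  apply Filter.ext'
  intro p
  rw [ev_add]
  simp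

lemma ul_pure (a : X) (F : X → ℝ) : ul (pure a) F = F a := by
  apply ul_eq_of_tendsto
  rw [Ultrafilter.coe_pure]
  exact tendsto_pure_nhds F a

lemma ul_const (U : Ultrafilter X) (c : ℝ) : ul U (fun _ => c) = c :=
  ul_eq_of_tendsto tendsto_const_nhds

lemma Lp.ul_le {K : ℝ} {F : X → ℝ} (hF : Lp K F) {U : Ultrafilter X} (hU : Bd U) {c : ℝ}
    (h : ∀ᶠ x in (U : Filter X), F x ≤ c) : ul U F ≤ c :=
  le_of_tendsto (hF.tendsto hU) h

lemma Lp.le_ul {K : ℝ} {F : X → ℝ} (hF : Lp K F) {U : Ultrafilter X} (hU : Bd U) {c : ℝ}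
    (h : ∀ᶠ x in (U : Filter X), c ≤ F x) : c ≤ ul U F :=
  ge_of_tendsto (hF.tendsto hU) h

lemma ul_mono {K L : ℝ} {F G : X → ℝ} (hF : Lp K F) (hG : Lp L G) {U : Ultrafilter X}
    (hU : Bd U) (h : ∀ᶠ x in (U : Filter X), F x ≤ G x) : ul U F ≤ ul U G :=
  le_of_tendsto_of_tendsto (hF.tendsto hU) (hG.tendsto hU) h

lemma ul_add' {K L : ℝ} {F G : X → ℝ} (hF : Lp K F) (hG : Lp L G) {U : Ultrafilter X}
    (hU : Bd U) : ul U (fun x => F x + G x) = ul U F + ul U G :=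
  ul_eq_of_tendsto ((hF.tendsto hU).add (hG.tendsto hU))

lemma ul_mul {K : ℝ} {F : X → ℝ} (hF : Lp K F) {U : Ultrafilter X}
    (hU : Bd U) (c : ℝ) : ul U (fun x => c * F x) = c * ul U F :=
  ul_eq_of_tendsto ((hF.tendsto hU).const_mul c)

lemma ul_abs_sub {K L : ℝ} {F G : X → ℝ} (hF : Lp K F) (hG : Lp L G) {U : Ultrafilter X}
    (hU : Bd U) {e : ℝ} (h : ∀ᶠ x in (U : Filter X), |F x - G x| ≤ e) :
    |ul U F - ul U G| ≤ e :=
  le_of_tendsto (((hF.tendsto hU).sub (hG.tendsto hU)).abs) h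

lemma Lp.add {K L : ℝ} {F G : X → ℝ} (hF : Lp K F) (hG : Lp L G) :
    Lp (K + L) (fun x => F x + G x) := by
  intro x y
  have h1 := hF x y
  have h2 := hG x y
  have h3 : F x + G x - (F y + G y) = (F x - F y) + (G x - G y) := by ring
  rw [h3, add_mul]
  exact (abs_add_le _ _).trans (add_le_add h1 h2)

lemma Lp.mul {K : ℝ} {F : X → ℝ} (hF : Lp K F) (c : ℝ) :
    Lp (|c| * K) (fun x => c * F x) := by
  intro x y
  rw [← mul_sub, abs_mul, mul_assoc]
  exact mul_le_mul_of_nonneg_left (hF x y) (abs_nonneg c)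

lemma Lp.const (c : ℝ) : Lp 0 (fun _ : X => c) := by
  intro x y
  simp

lemma Lp.shift {K : ℝ} {F : X → ℝ} (hF : Lp K F) (a : X) : Lp K (fun x => F (a + x)) := by
  intro x y
  have := hF (a + x) (a + y)
  rwa [add_sub_add_left_eq_sub] at this

lemma Lp.shift' {K : ℝ} {F : X → ℝ} (hF : Lp K F) (a : X) : Lp K (fun x => F (x + a)) := by
  intro x y
  have := hF (x + a) (y + a)
  rwa [add_sub_add_right_eq_sub] at this

lemma Lp.dil {K : ℝ} {F : X → ℝ} (hF : Lp K F) (t : ℝ) : Lp (K * |t|) (fun x => F (t • x)) := by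
  intro x y
  have := hF (t • x) (t • y)
  rwa [← smul_sub, norm_smul, Real.norm_eq_abs, ← mul_assoc] at this

lemma Lp.norm : Lp 1 (fun x : X => ‖x‖) := by
  intro x y
  rw [one_mul]
  exact abs_norm_sub_norm_le x y

lemma Lp.ul {K : ℝ} {F : X → ℝ} (hF : Lp K F) {V : Ultrafilter X} (hV : Bd V) :
    Lp K (fun x => ul V (fun y => F (x + y))) := by
  intro x x'
  refine ul_abs_sub (hF.shift x) (hF.shift x') hV (Eventually.of_forall fun y => ?_)
  have := hF (x + y) (x' + y)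
  rwa [add_sub_add_right_eq_sub] at this

lemma Lp.congr {K L : ℝ} {F : X → ℝ} (hF : Lp K F) (h : K = L) : Lp L F := h ▸ hF

lemma ul_conv {K : ℝ} {F : X → ℝ} (hF : Lp K F) {U V : Ultrafilter X} (hU : Bd U) (hV : Bd V) :
    ul (U + V) F = ul U (fun x => ul V (fun y => F (x + y))) := by
  apply ul_eq_of_tendsto
  rw [Metric.tendsto_nhds]
  intro ε hε
  rw [ev_add]
  have h1 := (Metric.tendsto_nhds.1 ((hF.ul hV).tendsto hU)) (ε / 2) (by positivity)
  filter_upwards [h1] with x hx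
  have h2 := (Metric.tendsto_nhds.1 ((hF.shift x).tendsto hV)) (ε / 2) (by positivity)
  filter_upwards [h2] with y hy
  calc dist (F (x + y)) _ ≤ dist (F (x + y)) (ul V (fun y => F (x + y))) + dist (ul V (fun y => F (x + y))) _ := dist_triangle _ _ _
    _ < ε / 2 + ε / 2 := add_lt_add hy hx
    _ = ε := by ring

end Pool.Agent.Q82.SR
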