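import Pool.Agent.Q82.SR1

open Filter Topology Set

namespace Pool.Agent.Q82.SR

attribute [local instance] Ultrafilter.add Ultrafilter.addSemigroup

variable {X : Type*} [NormedAddCommGroup X] [NormedSpace ℝ X]

/-- an equivalent norm with the convexity estimate that is used -/
structure Nm (N : X → ℝ) (A δ : ℝ) : Prop where
  add : ∀ x y, N (x + y) ≤ N x + N y
  smul : ∀ (t : ℝ) x, N (t • x) = |t| * N x
  lo : ∀ x, ‖x‖ ≤ N x
  hi : ∀ x, N x ≤ A * ‖x‖
  uc : ∀ x y r, 0 < r → N (x + y) ≤ r → N (x - y) ≤ r → r / 4 ≤ N y → N x ≤ (1 - δ) * r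
  dpos : 0 < δ
  dle : δ ≤ 1 / 2
  one_le : 1 ≤ A

lemma Nm.neg {N : X → ℝ} {A δ : ℝ} (hN : Nm N A δ) (x : X) : N (-x) = N x := by
  have := hN.smul (-1) x
  simpa using this

lemma Nm.nonneg {N : X → ℝ} {A δ : ℝ} (hN : Nm N A δ) (x : X) : 0 ≤ N x :=
  (norm_nonneg x).trans (hN.lo x)

lemma Nm.zero {N : X → ℝ} {A δ : ℝ} (hN : Nm N A δ) : N 0 = 0 := by
  have := hN.smul 0 0
  simpa using this

lemma Nm.lp {N : X → ℝ} {A δ : ℝ} (hN : Nm N A δ) : Lp A N := by
  intro x y
  have h1 : N x ≤ N y + N (x - y) := by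
    have := hN.add y (x - y)
    simpa using this
  have h2 : N y ≤ N x + N (x - y) := by
    have := hN.add x (-(x - y))
    rw [hN.neg] at this
    simpa using this
  have h3 := hN.hi (x - y)
  rw [abs_le]
  constructor <;> linarith

/-- alternating sums -/
noncomputable def alt (e : Ultrafilter X) : ℝ → ℕ → Ultrafilter X
  | _, 0 => pure 0
  | s, (n + 1) => sm s e + alt e (-s) n

lemma alt_bd {e : Ultrafilter X} (he : Bd e) (s : ℝ) (n : ℕ) : Bd (alt e s n) := by
  induction n generalizing s with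
  | zero => exact Bd.pure 0
  | succ n ih => exact (he.sm s).add (ih (-s))

lemma alt_sm (e : Ultrafilter X) (s : ℝ) (n : ℕ) : sm (-1) (alt e s n) = alt e (-s) n := by
  induction n generalizing s with
  | zero => exact sm_pure (-1)
  | succ n ih =>
    show sm (-1) (sm s e + alt e (-s) n) = sm (-s) e + alt e (- -s) n
    rw [sm_add, ih, sm_sm]
    congr 2
    ring

lemma alt_close1 {e : Ultrafilter X} {R : ℝ} (he : ∀ᶠ x in (e : Filter X), ‖x‖ ≤ R)
    {K : ℝ} (hK : 0 ≤ K) {F : X → ℝ} (hF : Lp K F) (s : ℝ) (hs : |s| = 1) (n : ℕ) :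
    |ul (alt e s (n + 1)) F - ul (alt e (-s) n) F| ≤ K * R := by
  have heb : Bd e := ⟨R, he⟩
  have h1 : ul (alt e s (n + 1)) F
      = ul (sm s e) (fun x => ul (alt e (-s) n) (fun y => F (x + y))) :=
    ul_conv hF (heb.sm s) (alt_bd heb (-s) n)
  rw [h1, ← ul_const (sm s e) (ul (alt e (-s) n) F)]
  refine ul_abs_sub (hF.ul (alt_bd heb (-s) n)) (Lp.const _) (heb.sm s) ?_
  rw [ev_sm]
  filter_upwards [he] with x hx
  refine ul_abs_sub (hF.shift _) hF (alt_bd heb (-s) n) (Eventually.of_forall fun y => ?_)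
  have h2 := hF (s • x + y) y
  rw [add_sub_cancel_right, norm_smul, Real.norm_eq_abs, hs, one_mul] at h2
  exact h2.trans (mul_le_mul_of_nonneg_left hx hK)

lemma alt_close2 {e : Ultrafilter X} {R : ℝ} (he : ∀ᶠ x in (e : Filter X), ‖x‖ ≤ R)
    {K : ℝ} (hK : 0 ≤ K) {F : X → ℝ} (hF : Lp K F) (s : ℝ) (hs : |s| = 1) (n : ℕ) :
    |ul (alt e s (n + 1)) F - ul (alt e s n) F| ≤ K * R := by
  have heb : Bd e := ⟨R, he⟩
  induction n generalizing s F with
  | zero =>
    have := alt_close1 he hK hF s hs 0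
    exact this
  | succ n ih =>
    have h1 : ul (alt e s (n + 1 + 1)) F
        = ul (sm s e) (fun x => ul (alt e (-s) (n + 1)) (fun y => F (x + y))) :=
      ul_conv hF (heb.sm s) (alt_bd heb (-s) (n + 1))
    have h2 : ul (alt e s (n + 1)) F
        = ul (sm s e) (fun x => ul (alt e (-s) n) (fun y => F (x + y))) :=
      ul_conv hF (heb.sm s) (alt_bd heb (-s) n)
    rw [h1, h2]
    refine ul_abs_sub (hF.ul (alt_bd heb (-s) (n + 1))) (hF.ul (alt_bd heb (-s) n)) (heb.sm s) ?_
    refine Eventually.of_forall fun x => ?_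
    exact ih (hF.shift x) (-s) (by rwa [abs_neg])

lemma alt_close {e : Ultrafilter X} {R : ℝ} (he : ∀ᶠ x in (e : Filter X), ‖x‖ ≤ R)
    {K : ℝ} (hK : 0 ≤ K) {F : X → ℝ} (hF : Lp K F) (n : ℕ) :
    |ul (alt e 1 (n + 1)) F - ul (alt e (-1) (n + 1)) F| ≤ 2 * (K * R) := by
  have h1 := alt_close1 he hK hF 1 (by simp) n
  have h2 := alt_close2 he hK hF (-1) (by simp) n
  rw [abs_sub_comm] at h2
  calc |ul (alt e 1 (n + 1)) F - ul (alt e (-1) (n + 1)) F|
      ≤ |ul (alt e 1 (n + 1)) F - ul (alt e (-1) n) F|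
        + |ul (alt e (-1) n) F - ul (alt e (-1) (n + 1)) F| := abs_sub_le _ _ _
    _ ≤ K * R + K * R := add_le_add h1 h2
    _ = _ := by ring

/-- sums of n copies of D -/
noncomputable def dn (D : Ultrafilter X) : ℕ → Ultrafilter X
  | 0 => pure 0
  | (n + 1) => D + dn D n

lemma dn_bd {D : Ultrafilter X} (hD : Bd D) (n : ℕ) : Bd (dn D n) := by
  induction n with
  | zero => exact Bd.pure 0
  | succ n ih => exact hD.add ih

lemma alt_even (e : Ultrafilter X) (n : ℕ) : alt e 1 (2 * n) = dn (sm 1 e + sm (-1) e) n := by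
  induction n with
  | zero => rfl
  | succ n ih =>
    show sm 1 e + (sm (-1) e + alt e (- -1) (2 * n)) = (sm 1 e + sm (-1) e) + dn _ n
    rw [neg_neg, ih, add_assoc]

/-- signed sums of copies of D -/
noncomputable def bs (D : Ultrafilter X) : List Bool → Ultrafilter X
  | [] => pure 0
  | (b :: s) => sm (if b then 1 else -1) D + bs D s

lemma bs_bd {D : Ultrafilter X} (hD : Bd D) (s : List Bool) : Bd (bs D s) := by
  induction s with
  | nil => exact Bd.pure 0
  | cons b s ih => exact (hD.sm _).add ih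

lemma bs_append (D : Ultrafilter X) (s t : List Bool) : bs D (s ++ t) = bs D s + bs D t := by
  induction s with
  | nil => exact (pure_add _).symm
  | cons b s ih =>
    show sm (if b then 1 else -1) D + bs D (s ++ t) = (sm (if b then 1 else -1) D + bs D s) + bs D t
    rw [ih, add_assoc]

lemma bs_neg (D : Ultrafilter X) (s : List Bool) : sm (-1) (bs D s) = bs D (s.map not) := by
  induction s with
  | nil => exact sm_pure (-1)
  | cons b s ih =>
    show sm (-1) (sm (if b then 1 else -1) D + bs D s)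
      = sm (if (not b) then 1 else -1) D + bs D (s.map not)
    rw [sm_add, ih, sm_sm]
    cases b <;> simp

lemma bs_bound {N : X → ℝ} {A δ : ℝ} (hN : Nm N A δ) {D : Ultrafilter X} (hD : Bd D)
    (s : List Bool) : ∃ p q : ℕ, ∀ w w' : X, ul (bs D s) (fun x => N (w - w' + x))
      ≤ ul (dn D p) (fun x => N (w + x)) + ul (dn D q) (fun x => N (w' + x)) := by
  induction s with
  | nil =>
    refine ⟨0, 0, fun w w' => ?_⟩
    show ul (pure 0) _ ≤ ul (pure 0) _ + ul (pure 0) _
    rw [ul_pure, ul_pure, ul_pure, add_zero, add_zero, add_zero, sub_eq_add_neg]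
    have := hN.add w (-w')
    rwa [hN.neg] at this
  | cons b s ih =>
    obtain ⟨p, q, h⟩ := ih
    have hL : ∀ a : X, Lp A (fun x => N (a + x)) := fun a => hN.lp.shift a
    cases b with
    | true =>
      refine ⟨p + 1, q, fun w w' => ?_⟩
      have h1 : ul (bs D (true :: s)) (fun x => N (w - w' + x))
          = ul (sm 1 D) (fun x => ul (bs D s) (fun y => N (w - w' + (x + y)))) :=
        ul_conv (hL _) (hD.sm 1) (bs_bd hD s)
      have h2 : ul (dn D (p + 1)) (fun x => N (w + x))
          = ul D (fun x => ul (dn D p) (fun y => N (w + (x + y)))) :=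
        ul_conv (hL _) hD (dn_bd hD p)
      rw [h1, h2, sm_one, ← ul_const D (ul (dn D q) (fun x => N (w' + x))),
        ← ul_add' ((hL w).ul (dn_bd hD p)) (Lp.const _) hD]
      refine ul_mono ((hL (w - w')).ul (bs_bd hD s))
        (((hL w).ul (dn_bd hD p)).add (Lp.const _)) hD (Eventually.of_forall fun x => ?_)
      have h3 := h (w + x) w'
      have h4 : ∀ y, w + x - w' + y = w - w' + (x + y) := fun y => by abel
      have h5 : ∀ y, w + x + y = w + (x + y) := fun y => by abel
      simp only [h4, h5] at h3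
      exact h3
    | false =>
      refine ⟨p, q + 1, fun w w' => ?_⟩
      have h1 : ul (bs D (false :: s)) (fun x => N (w - w' + x))
          = ul (sm (-1) D) (fun x => ul (bs D s) (fun y => N (w - w' + (x + y)))) :=
        ul_conv (hL _) (hD.sm (-1)) (bs_bd hD s)
      have h2 : ul (dn D (q + 1)) (fun x => N (w' + x))
          = ul D (fun x => ul (dn D q) (fun y => N (w' + (x + y)))) :=
        ul_conv (hL _) hD (dn_bd hD q)
      rw [h1, h2, ul_sm, ← ul_const D (ul (dn D p) (fun x => N (w + x))),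
        ← ul_add' (Lp.const _) ((hL w').ul (dn_bd hD q)) hD]
      refine ul_mono (((hL (w - w')).ul (bs_bd hD s)).dil (-1))
        ((Lp.const _).add ((hL w').ul (dn_bd hD q))) hD (Eventually.of_forall fun x => ?_)
      have h3 := h w (w' + x)
      have h4 : ∀ y, w - (w' + x) + y = w - w' + ((-1 : ℝ) • x + y) := fun y => by
        rw [neg_one_smul]; abel
      have h5 : ∀ y, w' + x + y = w' + (x + y) := fun y => by abel
      simp only [h4, h5] at h3
      exact h3

/-- the alternating sums of a separated sequence have unbounded norms -/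
lemma alt_unbounded {N : X → ℝ} {A δ : ℝ} (hN : Nm N A δ) {e : Ultrafilter X} (he : Bd e)
    (hsep : 1 ≤ ul e (fun x => ul e (fun y => ‖x - y‖))) (C : ℝ) :
    ∃ n, C < ul (alt e 1 n) N := by
  by_contra hcon
  push Not at hcon
  set D : Ultrafilter X := sm 1 e + sm (-1) e with hD0
  have hD : Bd D := (he.sm 1).add (he.sm (-1))
  have hdn : ∀ n, ul (dn D n) N ≤ C := fun n => by
    rw [← alt_even]
    exact hcon _
  have hbs : ∀ s, ul (bs D s) N ≤ C + C := fun s => by
    obtain ⟨p, q, h⟩ := bs_bound hN hD s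
    have h1 := h 0 0
    simp only [sub_zero, zero_add] at h1
    linarith [hdn p, hdn q]
  set S : Set ℝ := Set.range (fun s => ul (bs D s) N) with hS
  have hSb : BddAbove S := ⟨C + C, by rintro _ ⟨s, rfl⟩; exact hbs s⟩
  set M := sSup S with hM
  have hle : ∀ s, ul (bs D s) N ≤ M := fun s => le_csSup hSb ⟨s, rfl⟩
  have hM1 : 1 ≤ M := by
    refine le_trans ?_ (hle [true])
    have h1 : bs D [true] = D + pure 0 := by
      show sm (if true then 1 else -1) D + pure 0 = _
      simp [sm_one]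
    have h2 : ul (bs D [true]) N = ul D N := by
      rw [h1, ul_conv hN.lp hD (Bd.pure 0)]
      simp only [ul_pure, add_zero]
    rw [h2, hD0, ul_conv hN.lp (he.sm 1) (he.sm (-1)), ul_sm]
    refine hsep.trans ?_
    have hLn : ∀ x : X, Lp (1 * |(-1 : ℝ)|) (fun y : X => ‖x + (-1 : ℝ) • y‖) := fun x =>
      (Lp.norm.shift x).dil (-1)
    have hLN : ∀ x : X, Lp (A * |(-1 : ℝ)|) (fun y : X => N (x + (-1 : ℝ) • y)) := fun x =>
      (hN.lp.shift x).dil (-1)
    have h3 : (fun x : X => ul e (fun y => ‖x - y‖))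
        = fun x => ul (sm (-1) e) (fun y => ‖x + y‖) := by
      funext x
      rw [ul_sm]
      simp only [neg_one_smul, sub_eq_add_neg]
    rw [h3]
    simp only [one_smul]
    refine ul_mono (Lp.norm.ul (he.sm (-1))) (hN.lp.ul (he.sm (-1))) he
      (Eventually.of_forall fun x => ?_)
    exact ul_mono (Lp.norm.shift x) (hN.lp.shift x) (he.sm (-1))
      (Eventually.of_forall fun y => hN.lo _)
  have hd := hN.dpos
  have hd2 := hN.dle
  have hex : ∃ s, (1 - δ / 4) * M < ul (bs D s) N := by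
    have h1 : (1 - δ / 4) * M < sSup S := by rw [← hM]; nlinarith
    obtain ⟨_, ⟨s, rfl⟩, hs⟩ := exists_lt_of_lt_csSup (Set.range_nonempty _) h1
    exact ⟨s, hs⟩
  obtain ⟨s, hs⟩ := hex
  set V := bs D s with hV
  have hVb : Bd V := bs_bd hD s
  have h1 : ul V (fun x => ul V (fun y => N (x + y))) ≤ M := by
    rw [← ul_conv hN.lp hVb hVb, hV, ← bs_append]
    exact hle _
  have h2 : ul V (fun x => ul V (fun y => N (x + (-1 : ℝ) • y))) ≤ M := by
    have : ul (V + sm (-1) V) N ≤ M := by
      rw [hV, bs_neg, ← bs_append]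
      exact hle _
    rw [ul_conv hN.lp hVb (hVb.sm (-1))] at this
    simp only [ul_sm] at this
    exact this
  have hsm : (1 + δ / 4) * M > M := by nlinarith
  have t1 := (hN.lp.ul hVb).tendsto hVb
  have e1 := t1.eventually_lt_const (h1.trans_lt hsm)
  have hL2 : Lp A (fun x => ul V (fun y => N (x + (-1 : ℝ) • y))) := by
    have := hN.lp.ul (hVb.sm (-1))
    simp only [ul_sm] at this
    exact this
  have e2 := (hL2.tendsto hVb).eventually_lt_const (h2.trans_lt hsm)
  have t3 := hN.lp.tendsto hVb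
  have e3 := t3.eventually_const_lt hs
  obtain ⟨x, ⟨hx1, hx2⟩, hx3⟩ := ((e1.and e2).and e3).exists
  have f1 := ((hN.lp.shift x).tendsto hVb).eventually_lt_const hx1
  have f2 := (((hN.lp.shift x).dil (-1)).tendsto hVb).eventually_lt_const hx2
  obtain ⟨y, ⟨hy1, hy2⟩, hy3⟩ := ((f1.and f2).and e3).exists
  rw [neg_one_smul, ← sub_eq_add_neg] at hy2
  have := hN.uc x y ((1 + δ / 4) * M) (by nlinarith) hy1.le hy2.le (by nlinarith)
  nlinarith

end Pool.Agent.Q82.SR
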