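import Pool.Agent.Q82.SR2

open Filter Topology Set

namespace Pool.Agent.Q82.SR

attribute [local instance] Ultrafilter.add Ultrafilter.addSemigroup

variable {X : Type*} [NormedAddCommGroup X] [NormedSpace ℝ X]

/-- normalised almost symmetric types -/
structure Nice (ε : ℝ) (b : Ultrafilter X) : Prop where
  bd : Bd b
  one : ul b (fun x => ‖x‖) = 1
  sym : ∀ K, 0 ≤ K → ∀ F : X → ℝ, Lp K F → |ul b F - ul b (fun x => F (-x))| ≤ K * ε

/-- the quantity `lim lim ‖x + 2 y‖` -/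
noncomputable def ell (b : Ultrafilter X) : ℝ := ul b (fun x => ul b (fun y => ‖x + (2 : ℝ) • y‖))

lemma Lp.neg {K : ℝ} {F : X → ℝ} (hF : Lp K F) : Lp K (fun x => F (-x)) := by
  intro x y
  have := hF (-x) (-y)
  rwa [neg_sub_neg, norm_sub_rev] at this

lemma exists_nice {N : X → ℝ} {A δ : ℝ} (hN : Nm N A δ) (hinf : ¬ FiniteDimensional ℝ X)
    {ε : ℝ} (hε : 0 < ε) : ∃ b : Ultrafilter X, Nice ε b := by
  obtain ⟨R, f, hR1, hfR, hf⟩ := exists_seq_norm_le_one_le_norm_sub (𝕜 := ℝ) (E := X) hinf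
  set e : Ultrafilter X := (hyperfilter ℕ).map f with he0
  have hev : ∀ p : X → Prop, (∀ᶠ x in (e : Filter X), p x)
      ↔ ∀ᶠ n in (hyperfilter ℕ : Filter ℕ), p (f n) := fun p => Iff.rfl
  have he : ∀ᶠ x in (e : Filter X), ‖x‖ ≤ R := by
    rw [hev]
    exact Eventually.of_forall hfR
  have heb : Bd e := ⟨R, he⟩
  have hL2 : ∀ x : X, Lp (1 * |(-1 : ℝ)|) (fun y : X => ‖x + (-1 : ℝ) • y‖) := fun x =>
      (Lp.norm.shift x).dil (-1)
  have hconv : (fun x : X => ul e (fun y => ‖x - y‖))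
        = fun x => ul (sm (-1) e) (fun y => ‖x + y‖) := by
      funext x
      rw [ul_sm]
      simp only [neg_one_smul, sub_eq_add_neg]
  have hsep : 1 ≤ ul e (fun x => ul e (fun y => ‖x - y‖)) := by
    rw [hconv]
    refine (Lp.norm.ul (heb.sm (-1))).le_ul heb ?_
    rw [hev]
    refine Eventually.of_forall fun n => ?_
    refine (Lp.norm.shift (f n)).le_ul (heb.sm (-1)) ?_
    rw [ev_sm, hev]
    have h1 : ∀ᶠ m in (hyperfilter ℕ : Filter ℕ), m ≠ n := by
      have : {n}ᶜ ∈ (hyperfilter ℕ : Filter ℕ) :=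
        compl_mem_hyperfilter_of_finite (Set.finite_singleton n)
      exact this
    filter_upwards [h1] with m hm
    have := hf (Ne.symm hm)
    simpa [sub_eq_add_neg] using this
  obtain ⟨n, hn⟩ := alt_unbounded hN heb hsep (A * (1 + 2 * R / ε))
  have hA := hN.one_le
  have hA0 : 0 < A := by linarith
  have hR0 : 0 < R := by linarith
  have hn0 : n ≠ 0 := by
    rintro rfl
    have : ul (alt e 1 0) N = 0 := by
      show ul (pure 0) N = 0
      rw [ul_pure, hN.zero]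
    rw [this] at hn
    have : 0 < A * (1 + 2 * R / ε) := by positivity
    linarith
  obtain ⟨m, rfl⟩ := Nat.exists_eq_succ_of_ne_zero hn0
  set V := alt e 1 (m + 1) with hV
  have hVb : Bd V := alt_bd heb _ _
  set l := ul V (fun x => ‖x‖) with hl
  have hlN : ul V N ≤ A * l := by
    rw [hl, ← ul_mul Lp.norm hVb]
    exact ul_mono hN.lp (Lp.norm.mul A) hVb (Eventually.of_forall hN.hi)
  have hl1 : 1 + 2 * R / ε < l := by
    have : A * (1 + 2 * R / ε) < A * l := hn.trans_le hlN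
    exact lt_of_mul_lt_mul_left this hA0.le
  have hRe : 0 < 2 * R / ε := by positivity
  have hl0 : 0 < l := by linarith
  refine ⟨sm l⁻¹ V, hVb.sm _, ?_, ?_⟩
  · rw [ul_sm]
    have : (fun x : X => ‖l⁻¹ • x‖) = fun x => l⁻¹ * ‖x‖ := by
      funext x
      rw [norm_smul, Real.norm_eq_abs, abs_of_pos (by positivity)]
    rw [this, ul_mul Lp.norm hVb, ← hl, inv_mul_cancel₀ hl0.ne']
  · intro K hK F hF
    rw [ul_sm, ul_sm]
    have h1 : ul V (fun x => F (-(l⁻¹ • x))) = ul (sm (-1) V) (fun x => F (l⁻¹ • x)) := by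
      rw [ul_sm]
      simp
    rw [h1, hV, alt_sm]
    have h2 := alt_close he (K := K * |l⁻¹|) (by positivity) (hF.dil l⁻¹) m
    refine h2.trans ?_
    rw [abs_of_pos (by positivity : (0 : ℝ) < l⁻¹)]
    have h3 : 2 * R / ε ≤ l := by linarith
    have h4 : 2 * R ≤ l * ε := by rwa [div_le_iff₀ hε] at h3
    have h5 : 2 * (K * l⁻¹ * R) = K * (l⁻¹ * (2 * R)) := by ring
    rw [h5]
    refine mul_le_mul_of_nonneg_left ?_ hK
    calc l⁻¹ * (2 * R) ≤ l⁻¹ * (l * ε) := mul_le_mul_of_nonneg_left h4 (by positivity)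
      _ = ε := by field_simp

lemma one_le_ell {ε : ℝ} {b : Ultrafilter X} (hb : Nice ε b) : 1 ≤ ell b := by
  unfold ell
  have hL : Lp 1 (fun x => ul b (fun y => ‖x + (2 : ℝ) • y‖)) := by
    have := (Lp.norm (X := X)).ul (hb.bd.sm 2)
    simp only [ul_sm] at this
    exact this
  have h1 : ∀ x : X, 2 - ‖x‖ ≤ ul b (fun y => ‖x + (2 : ℝ) • y‖) := by
    intro x
    have h2 : ul b (fun y : X => 2 * ‖y‖ + (-‖x‖)) = 2 - ‖x‖ := by
      rw [ul_add' (Lp.norm.mul 2) (Lp.const _) hb.bd, ul_mul Lp.norm hb.bd, hb.one, ul_const]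
      ring
    rw [← h2]
    refine ul_mono ((Lp.norm.mul 2).add (Lp.const _)) ((Lp.norm.shift x).dil 2) hb.bd
      (Eventually.of_forall fun y => ?_)
    have := norm_sub_le (x + (2 : ℝ) • y) x
    rw [add_sub_cancel_left, norm_smul] at this
    simp only [Real.norm_ofNat] at this
    linarith
  have h3 : ul b (fun x : X => 2 + (-1) * ‖x‖) = 1 := by
    rw [ul_add' (Lp.const _) (Lp.norm.mul (-1)) hb.bd, ul_mul Lp.norm hb.bd, hb.one, ul_const]
    ring
  rw [← h3]
  refine ul_mono ((Lp.const _).add (Lp.norm.mul (-1))) hL hb.bd (Eventually.of_forall fun x => ?_)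
  have := h1 x
  linarith

/-- symmetry of the iterated type -/
lemma sym2 {ε : ℝ} {b : Ultrafilter X} (hb : Nice ε b) {K : ℝ} (hK : 0 ≤ K) {F : X → ℝ}
    (hF : Lp K F) (s t : ℝ) :
    |ul b (fun x => ul b (fun y => F (s • x + t • y)))
      - ul b (fun x => ul b (fun y => F (-(s • x + t • y))))| ≤ K * (|s| + |t|) * ε := by
  have hbd := hb.bd
  have hG : ∀ {F : X → ℝ}, Lp K F → Lp (K * |s|) (fun x => ul b (fun y => F (s • x + t • y))) := by
    intro F hF
    have h1 := (hF.ul (hbd.sm t)).dil s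
    simp only [ul_sm] at h1
    exact h1
  have hF' : Lp K (fun x => F (-x)) := hF.neg
  have h1 := hb.sym (K * |s|) (by positivity) _ (hG hF)
  have h2 : |ul b (fun x => ul b (fun y => F (s • (-x) + t • y)))
      - ul b (fun x => ul b (fun y => F (-(s • x + t • y))))| ≤ K * |t| * ε := by
    refine ul_abs_sub (K := K * |s|) (L := K * |s|) (hG hF).neg (hG hF') hbd
      (Eventually.of_forall fun x => ?_)
    have h3 := hb.sym (K * |t|) (by positivity) _ ((hF.shift (s • (-x))).dil t)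
    have h4 : ∀ y : X, s • (-x) + t • (-y) = -(s • x + t • y) := fun y => by
      rw [smul_neg, smul_neg]; abel
    simp only [h4] at h3
    exact h3
  refine (abs_sub_le _ _ _).trans ((add_le_add h1 h2).trans_eq ?_)
  ring

lemma nice_step {ε : ℝ} {b : Ultrafilter X} (hb : Nice ε b) :
    Nice (3 * ε) (sm (ell b)⁻¹ (b + sm 2 b)) := by
  have hl := one_le_ell hb
  have hl0 : 0 < ell b := by linarith
  have hbd := hb.bd
  have hVb : Bd (b + sm 2 b) := hbd.add (hbd.sm 2)
  have hconv : ∀ {K : ℝ} {F : X → ℝ}, Lp K F → ul (b + sm 2 b) F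
      = ul b (fun x => ul b (fun y => F (x + (2 : ℝ) • y))) := by
    intro K F hF
    rw [ul_conv hF hbd (hbd.sm 2)]
    simp only [ul_sm]
  have hε : 0 ≤ ε := by
    have := hb.sym 1 (by norm_num) _ Lp.norm
    have h2 := abs_nonneg (ul b (fun x : X => ‖x‖) - ul b (fun x => ‖-x‖))
    linarith
  refine ⟨hVb.sm _, ?_, ?_⟩
  · rw [ul_sm]
    have : (fun x : X => ‖(ell b)⁻¹ • x‖) = fun x => (ell b)⁻¹ * ‖x‖ := by
      funext x
      rw [norm_smul, Real.norm_eq_abs, abs_of_pos (by positivity)]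
    rw [this, ul_mul Lp.norm hVb, hconv Lp.norm]
    exact inv_mul_cancel₀ hl0.ne'
  · intro K hK F hF
    rw [ul_sm, ul_sm, hconv (hF.dil _), hconv (K := K * |(ell b)⁻¹|) (hF.neg.dil _)]
    have h1 := sym2 hb (K := K * |(ell b)⁻¹|) (by positivity) (hF.dil (ell b)⁻¹) 1 2
    simp only [one_smul, smul_neg] at h1
    refine h1.trans ?_
    rw [abs_of_pos (by positivity : (0 : ℝ) < (ell b)⁻¹)]
    have h2 : (ell b)⁻¹ ≤ 1 := inv_le_one_of_one_le₀ hl
    have h3 : |(1 : ℝ)| + |(2 : ℝ)| = 3 := by norm_num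
    rw [h3]
    have h4 : K * (ell b)⁻¹ * 3 * ε = (ell b)⁻¹ * (K * (3 * ε)) := by ring
    rw [h4]
    have h5 : 0 ≤ K * (3 * ε) := by positivity
    nlinarith

/-- growth of the auxiliary norm -/
lemma growth {N : X → ℝ} {A δ : ℝ} (hN : Nm N A δ) {ε : ℝ} {b : Ultrafilter X}
    (hb : Nice ε b) (hAε : A * ε ≤ δ / 6) (hell : ell b < 2 + δ) :
    (1 + δ / 6) * ul b N ≤ ul (sm (ell b)⁻¹ (b + sm 2 b)) N := by
  have hl := one_le_ell hb
  have hl0 : 0 < ell b := by linarith
  have hbd := hb.bd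
  have hVb : Bd (b + sm 2 b) := hbd.add (hbd.sm 2)
  have hδ := hN.dpos
  have hδ2 := hN.dle
  have hA := hN.one_le
  set n := ul b N with hn
  set R' := ul b (fun x => ul b (fun y => N (x + (2 : ℝ) • y))) with hR'
  have h0 : ul (sm (ell b)⁻¹ (b + sm 2 b)) N = (ell b)⁻¹ * R' := by
    rw [ul_sm]
    have : (fun x : X => N ((ell b)⁻¹ • x)) = fun x => (ell b)⁻¹ * N x := by
      funext x
      rw [hN.smul, abs_of_pos (by positivity)]
    rw [this, ul_mul hN.lp hVb, ul_conv hN.lp hbd (hbd.sm 2)]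
    simp only [ul_sm]
    rfl
  have hn1 : 1 ≤ n := by
    rw [← hb.one]
    exact ul_mono Lp.norm hN.lp hbd (Eventually.of_forall hN.lo)
  have hG : Lp A (fun x => ul b (fun y => N (x + (2 : ℝ) • y))) := by
    have := hN.lp.ul (hbd.sm 2)
    simp only [ul_sm] at this
    exact this
  have hR3 : R' ≤ 3 * n := by
    have h1 : ∀ x : X, ul b (fun y => N (x + (2 : ℝ) • y)) ≤ N x + 2 * n := by
      intro x
      have h2 : ul b (fun y : X => N x + 2 * N y) = N x + 2 * n := by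
        rw [ul_add' (Lp.const _) (hN.lp.mul 2) hbd, ul_mul hN.lp hbd, ul_const]
      rw [← h2]
      refine ul_mono ((hN.lp.shift x).dil 2) ((Lp.const _).add (hN.lp.mul 2)) hbd
        (Eventually.of_forall fun y => ?_)
      have := hN.add x ((2 : ℝ) • y)
      rw [hN.smul] at this
      simpa using this
    have h3 : ul b (fun x : X => N x + 2 * n) = 3 * n := by
      rw [ul_add' hN.lp (Lp.const _) hbd, ul_const]
      ring
    rw [← h3]
    exact ul_mono hG (hN.lp.add (Lp.const _)) hbd (Eventually.of_forall h1)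
  set S' := ul b (fun x => ul b (fun y => N (-x + (2 : ℝ) • y))) with hS'
  have hS : S' ≤ R' + A * ε := by
    have := hb.sym A (by linarith) _ hG
    have h2 := (abs_le.1 this).1
    linarith
  -- choose x, y
  set τ := δ / 36 with hτ
  have hτ0 : 0 < τ := by positivity
  have e1 := (hG.tendsto hbd).eventually_lt_const (show R' < R' + τ by linarith)
  have e2 := (hG.neg.tendsto hbd).eventually_lt_const (show S' < S' + τ by linarith)
  have e3 := (hN.lp.tendsto hbd).eventually_const_lt (show n - τ < n by linarith)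
  obtain ⟨x, ⟨hx1, hx2⟩, hx3⟩ := ((e1.and e2).and e3).exists
  have f1 := (((hN.lp.shift x).dil 2).tendsto hbd).eventually_lt_const hx1
  have f2 := (((hN.lp.shift (-x)).dil 2).tendsto hbd).eventually_lt_const hx2
  obtain ⟨y, ⟨hy1, hy2⟩, hy3⟩ := ((f1.and f2).and e3).exists
  have g1 : N ((2 : ℝ) • y + x) ≤ R' + A * ε + 2 * τ := by
    rw [add_comm]
    have hε : 0 ≤ A * ε := by
      have := hb.sym A (by linarith) _ hN.lp
      exact (abs_nonneg _).trans this
    linarith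
  have g2 : N ((2 : ℝ) • y - x) ≤ R' + A * ε + 2 * τ := by
    rw [sub_eq_neg_add]
    linarith
  have hRpos : 0 < R' + A * ε + 2 * τ := by
    have : 0 ≤ N ((2 : ℝ) • y + x) := hN.nonneg _
    have h2 : N (x + (2 : ℝ) • y) < R' + τ := hy1
    have h3 : 0 ≤ N (x + (2 : ℝ) • y) := hN.nonneg _
    have hε : 0 ≤ A * ε := by
      have := hb.sym A (by linarith) _ hN.lp
      exact (abs_nonneg _).trans this
    linarith
  have g3 := hN.uc ((2 : ℝ) • y) x _ hRpos g1 g2 (by linarith)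
  rw [hN.smul] at g3
  have g4 : |(2 : ℝ)| = 2 := by norm_num
  rw [g4] at g3
  -- 2 (n - τ) ≤ (1 - δ) (R' + Aε + 2τ)
  have g5 : 2 * (n - τ) ≤ (1 - δ) * (R' + A * ε + 2 * τ) := by linarith
  have g6 : 2 * (n - τ) * (1 + δ) ≤ R' + A * ε + 2 * τ := by
    have h1 : 2 * (n - τ) * (1 + δ) ≤ (1 - δ) * (R' + A * ε + 2 * τ) * (1 + δ) :=
      mul_le_mul_of_nonneg_right g5 (by linarith)
    have h2 : (1 - δ) * (R' + A * ε + 2 * τ) * (1 + δ) = (1 - δ ^ 2) * (R' + A * ε + 2 * τ) := by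
      ring
    nlinarith [mul_pos (pow_pos hδ 2) hRpos]
  have g7 : n * (2 + 5 * δ / 3) ≤ R' := by
    have h1 : 2 * (n - τ) * (1 + δ) = 2 * n + 2 * n * δ - 2 * τ * (1 + δ) := by ring
    have h2 : 2 * τ * (1 + δ) ≤ 4 * τ := by nlinarith
    have h3 : δ ≤ n * δ := by nlinarith
    have : 6 * τ = δ / 6 := by rw [hτ]; ring
    nlinarith
  rw [h0]
  have g8 : (1 + δ / 6) * n * ell b ≤ R' := by
    have h1 : (1 + δ / 6) * n * ell b ≤ (1 + δ / 6) * n * (2 + δ) :=
      mul_le_mul_of_nonneg_left hell.le (by positivity)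
    have h2 : (1 + δ / 6) * (2 + δ) ≤ 2 + 5 * δ / 3 := by
      have : (1 + δ / 6) * (2 + δ) = 2 + 4 * δ / 3 + δ * δ / 6 := by ring
      have h3 : δ * δ ≤ δ * (1 / 2) := mul_le_mul_of_nonneg_left hδ2 hδ.le
      linarith
    calc (1 + δ / 6) * n * ell b ≤ (1 + δ / 6) * n * (2 + δ) := h1
      _ = n * ((1 + δ / 6) * (2 + δ)) := by ring
      _ ≤ n * (2 + 5 * δ / 3) := mul_le_mul_of_nonneg_left h2 (by linarith)
      _ ≤ R' := g7
  rw [inv_mul_eq_div, le_div_iff₀ hl0]
  exact g8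

/-- almost symmetric normalised types with large `ell` -/
lemma exists_large {N : X → ℝ} {A δ : ℝ} (hN : Nm N A δ) (hinf : ¬ FiniteDimensional ℝ X)
    {ε : ℝ} (hε : 0 < ε) : ∃ b : Ultrafilter X, Nice ε b ∧ 2 + δ ≤ ell b := by
  have hA := hN.one_le
  have hδ := hN.dpos
  -- monotonicity of Nice
  have hmono : ∀ {ε₁ ε₂ : ℝ} {b : Ultrafilter X}, ε₁ ≤ ε₂ → Nice ε₁ b → Nice ε₂ b :=
    fun h hb => ⟨hb.bd, hb.one, fun K hK F hF =>
      (hb.sym K hK F hF).trans (mul_le_mul_of_nonneg_left h hK)⟩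
  set ε₁ := min ε (δ / (6 * A)) with hε₁
  have hε₁0 : 0 < ε₁ := by positivity
  have hAε : A * ε₁ ≤ δ / 6 := by
    calc A * ε₁ ≤ A * (δ / (6 * A)) := mul_le_mul_of_nonneg_left (min_le_right _ _) (by linarith)
      _ = δ / 6 := by field_simp
  by_contra hcon
  push Not at hcon
  have hcon' : ∀ b : Ultrafilter X, Nice ε₁ b → ell b < 2 + δ := fun b hb =>
    hcon b (hmono (min_le_left _ _) hb)
  obtain ⟨K, hK⟩ := pow_unbounded_of_one_lt A (show 1 < 1 + δ / 6 by linarith)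
  have hind : ∀ k ≤ K, ∃ b : Ultrafilter X, Nice (ε₁ / 3 ^ (K - k)) b ∧
      (1 + δ / 6) ^ k ≤ ul b N := by
    intro k
    induction k with
    | zero =>
      intro _
      obtain ⟨b, hb⟩ := exists_nice hN hinf (show 0 < ε₁ / 3 ^ (K - 0) by positivity)
      refine ⟨b, hb, ?_⟩
      rw [pow_zero, ← hb.one]
      exact ul_mono Lp.norm hN.lp hb.bd (Eventually.of_forall hN.lo)
    | succ k ih =>
      intro hk
      obtain ⟨b, hb, hbN⟩ := ih (by omega)
      have hle : ε₁ / 3 ^ (K - k) ≤ ε₁ :=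
        div_le_self hε₁0.le (one_le_pow₀ (by norm_num))
      have hb1 : Nice ε₁ b := hmono hle hb
      refine ⟨sm (ell b)⁻¹ (b + sm 2 b), ?_, ?_⟩
      · have := nice_step hb
        refine hmono (le_of_eq ?_) this
        have h1 : K - k = (K - (k + 1)) + 1 := by omega
        rw [h1, pow_succ]
        field_simp
      · have := growth hN hb (by
          refine le_trans (mul_le_mul_of_nonneg_left hle (by linarith)) hAε) (hcon' b hb1)
        calc (1 + δ / 6) ^ (k + 1) = (1 + δ / 6) * (1 + δ / 6) ^ k := by ring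
          _ ≤ (1 + δ / 6) * ul b N := mul_le_mul_of_nonneg_left hbN (by linarith)
          _ ≤ _ := this
  obtain ⟨b, hb, hbN⟩ := hind K le_rfl
  have h1 : ul b N ≤ A := by
    have : ul b (fun x : X => A * ‖x‖) = A := by
      rw [ul_mul Lp.norm hb.bd, hb.one, mul_one]
    rw [← this]
    exact ul_mono hN.lp (Lp.norm.mul A) hb.bd (Eventually.of_forall hN.hi)
  linarith

end Pool.Agent.Q82.SR
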