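import Pool.Agent.Q82.SR3

open Filter Topology Set

namespace Pool.Agent.Q82.SR

attribute [local instance] Ultrafilter.add Ultrafilter.addSemigroup

variable {X : Type*} [NormedAddCommGroup X] [NormedSpace ℝ X]

/-- `lim_v ‖z + t v‖` -/
noncomputable def ps (b : Ultrafilter X) (t : ℝ) (z : X) : ℝ := ul b (fun v => ‖z + t • v‖)

lemma ps_lp {b : Ultrafilter X} (hb : Bd b) (t : ℝ) : Lp 1 (ps b t) := by
  have := (Lp.norm (X := X)).ul (hb.sm t)
  simp only [ul_sm] at this
  exact this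

lemma ps_inner (z : X) (t : ℝ) : Lp (1 * |t|) (fun v : X => ‖z + t • v‖) :=
  (Lp.norm.shift z).dil t

lemma ps_neg {ε : ℝ} {b : Ultrafilter X} (hb : Nice ε b) {t : ℝ} (ht : 0 ≤ t) (z : X) :
    ul b (fun v => ‖z - t • v‖) ≤ ps b t z + t * ε := by
  have := hb.sym (1 * |t|) (by positivity) _ (ps_inner z t)
  rw [one_mul, abs_of_nonneg ht] at this
  simp only [smul_neg, ← sub_eq_add_neg] at this
  have h2 := (abs_le.1 this).1
  unfold ps
  linarith

lemma ps_lower {ε : ℝ} {b : Ultrafilter X} (hb : Nice ε b) {t : ℝ} (ht : 0 ≤ t) (z : X) :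
    2 * ‖z‖ ≤ 2 * ps b t z + t * ε := by
  have h1 := ps_neg hb ht z
  have h2 : 2 * ‖z‖ ≤ ps b t z + ul b (fun v => ‖z - t • v‖) := by
    have hL : Lp (1 * |-t|) (fun v : X => ‖z - t • v‖) := by
      have := ps_inner z (-t)
      simpa only [neg_smul, ← sub_eq_add_neg] using this
    unfold ps
    rw [← ul_add' (ps_inner z t) hL hb.bd]
    refine ((ps_inner z t).add hL).le_ul hb.bd (Eventually.of_forall fun v => ?_)
    have := norm_add_le (z + t • v) (z - t • v)
    have h3 : (z + t • v) + (z - t • v) = (2 : ℝ) • z := by rw [two_smul]; abel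
    rw [h3, norm_smul] at this
    simpa using this
  linarith

lemma ps_two {ε : ℝ} {b : Ultrafilter X} (hb : Nice ε b) {t : ℝ} (ht : 0 ≤ t) (d p q : X) :
    ps b (2 * t) (q - p) ≤ ps b t (d - p) + ps b t (d - q) + t * ε := by
  have h1 := ps_neg hb ht (d - q)
  have hL : Lp (1 * |-t|) (fun v : X => ‖(d - q) - t • v‖) := by
    have := ps_inner (d - q) (-t)
    simpa only [neg_smul, ← sub_eq_add_neg] using this
  have h2 : ps b (2 * t) (q - p) ≤ ps b t (d - p) + ul b (fun v => ‖(d - q) - t • v‖) := by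
    unfold ps
    rw [← ul_add' (ps_inner (d - p) t) hL hb.bd]
    refine ul_mono (ps_inner _ _) ((ps_inner _ _).add hL) hb.bd (Eventually.of_forall fun v => ?_)
    have h3 : q - p + (2 * t) • v = ((d - p) + t • v) - ((d - q) - t • v) := by
      rw [two_mul, add_smul]; abel
    show ‖q - p + (2 * t) • v‖ ≤ _
    rw [h3]
    exact norm_sub_le _ _
  linarith

lemma ps_change {ε : ℝ} {b : Ultrafilter X} (hb : Nice ε b) {s t : ℝ} (hst : s ≤ t)
    (y w : X) : ps b t y ≤ ps b s (y + w) + ‖w‖ + (t - s) := by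
  have h1 : ul b (fun v : X => ‖y + w + s • v‖ + ((t - s) * ‖v‖ + ‖w‖))
      = ps b s (y + w) + ‖w‖ + (t - s) := by
    rw [ul_add' (ps_inner _ _) ((Lp.norm.mul (t - s)).add (Lp.const _)) hb.bd,
      ul_add' (Lp.norm.mul (t - s)) (Lp.const _) hb.bd, ul_mul Lp.norm hb.bd, hb.one, ul_const]
    unfold ps
    ring
  rw [← h1]
  unfold ps
  refine ul_mono (ps_inner _ _) ((ps_inner _ _).add ((Lp.norm.mul (t - s)).add (Lp.const _))) hb.bd
    (Eventually.of_forall fun v => ?_)
  have h2 : y + t • v = (y + w + s • v) + ((t - s) • v - w) := by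
    rw [sub_smul]; abel
  rw [h2]
  refine (norm_add_le _ _).trans (add_le_add le_rfl ((norm_sub_le _ _).trans ?_))
  rw [norm_smul, Real.norm_eq_abs, abs_of_nonneg (by linarith)]

/-- lower bound for the iterated limit -/
lemma theta {ε : ℝ} {b : Ultrafilter X} (hb : Nice ε b) {s t : ℝ} (hs : 0 ≤ s) (hst : s ≤ t)
    (w : X) : t * ell b - (t - s) - (s + 2 * t) * ε / 2
      ≤ ul b (fun x => ps b (2 * t) (w + s • x)) := by
  have hbd := hb.bd
  have ht : 0 ≤ t := hs.trans hst
  have hLs : ∀ w : X, Lp (1 * |s|) (fun x => ps b (2 * t) (w + s • x)) := fun w =>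
    ((ps_lp hbd (2 * t)).shift w).dil s
  have h1 := sym2 hb (K := 1) (by norm_num) ((Lp.norm (X := X)).shift w) s (2 * t)
  have e1 : ul b (fun x => ul b (fun y => ‖w + (s • x + (2 * t) • y)‖))
      = ul b (fun x => ps b (2 * t) (w + s • x)) := by
    unfold ps
    simp only [add_assoc]
  rw [e1, abs_of_nonneg hs, abs_of_nonneg (by linarith : 0 ≤ 2 * t), one_mul] at h1
  set T' := ul b (fun x => ul b (fun y => ‖w + -(s • x + (2 * t) • y)‖)) with hT'
  have h2 := (abs_le.1 h1).1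
  -- convexity
  have hin : ∀ x : X, Lp (1 * |-(2 * t)|) (fun y : X => ‖w + -(s • x + (2 * t) • y)‖) := by
    intro x
    have := ps_inner (w - s • x) (-(2 * t))
    have h3 : ∀ y : X, w - s • x + -(2 * t) • y = w + -(s • x + (2 * t) • y) := fun y => by
      rw [neg_smul]; abel
    simpa only [h3] using this
  have hout : Lp (1 * |-s|) (fun x : X => ul b (fun y => ‖w + -(s • x + (2 * t) • y)‖)) := by
    have := ((ps_lp hbd (-(2 * t))).shift w).dil (-s)
    unfold ps at this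
    have h3 : ∀ x y : X, w + -s • x + -(2 * t) • y = w + -(s • x + (2 * t) • y) := fun x y => by
      rw [neg_smul, neg_smul]; abel
    simpa only [h3] using this
  have h3 : 2 * ul b (fun x => ps b (2 * t) (0 + s • x))
      ≤ ul b (fun x => ps b (2 * t) (w + s • x)) + T' := by
    rw [← ul_mul (hLs 0) hbd, hT', ← ul_add' (hLs w) hout hbd]
    refine ul_mono ((hLs 0).mul 2) ((hLs w).add hout) hbd (Eventually.of_forall fun x => ?_)
    show 2 * ps b (2 * t) (0 + s • x) ≤ ps b (2 * t) (w + s • x) + _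
    unfold ps
    rw [← ul_mul (ps_inner _ _) hbd, ← ul_add' (ps_inner _ _) (hin x) hbd]
    refine ul_mono ((ps_inner _ _).mul 2) ((ps_inner _ _).add (hin x)) hbd
      (Eventually.of_forall fun y => ?_)
    show 2 * ‖0 + s • x + (2 * t) • y‖ ≤ ‖w + s • x + (2 * t) • y‖ + ‖w + -(s • x + (2 * t) • y)‖
    have h4 := norm_sub_le (w + s • x + (2 * t) • y) (w + -(s • x + (2 * t) • y))
    have h5 : w + s • x + (2 * t) • y - (w + -(s • x + (2 * t) • y))
        = (2 : ℝ) • (0 + s • x + (2 * t) • y) := by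
      rw [two_smul ℝ (0 + s • x + (2 * t) • y)]; abel
    rw [h5, norm_smul] at h4
    simpa using h4
  have h4 : t * ell b - (t - s) ≤ ul b (fun x => ps b (2 * t) (0 + s • x)) := by
    have hell : Lp 1 (fun x => ul b (fun y => ‖x + (2 : ℝ) • y‖)) := ps_lp hbd 2
    have h5 : ul b (fun x : X => t * ul b (fun y => ‖x + (2 : ℝ) • y‖) + (-(t - s)) * ‖x‖)
        = t * ell b - (t - s) := by
      rw [ul_add' (hell.mul t) (Lp.norm.mul _) hbd, ul_mul hell hbd, ul_mul Lp.norm hbd, hb.one]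
      unfold ell
      ring
    rw [← h5]
    refine ul_mono ((hell.mul t).add (Lp.norm.mul _)) (hLs 0) hbd (Eventually.of_forall fun x => ?_)
    have h6 := ps_change hb (le_refl (2 * t)) (t • x) (-((t - s) • x))
    have h7 : t • x + -((t - s) • x) = 0 + s • x := by rw [sub_smul]; abel
    have h8 : ps b (2 * t) (t • x) = t * ul b (fun y => ‖x + (2 : ℝ) • y‖) := by
      rw [← ul_mul (ps_inner x 2) hbd]
      unfold ps
      congr 1
      funext v
      have : t • x + (2 * t) • v = t • (x + (2 : ℝ) • v) := by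
        rw [smul_add, smul_smul, mul_comm t 2]
      rw [this, norm_smul, Real.norm_eq_abs, abs_of_nonneg ht]
    rw [h7, h8, norm_neg, norm_smul, Real.norm_eq_abs, abs_of_nonneg (by linarith : 0 ≤ t - s)] at h6
    linarith
  linarith

/-- finite configurations -/
def Good (b : Ultrafilter X) (c : ℝ) (P : Set X) : Prop :=
  P.Finite ∧ ∀ p ∈ P, ∀ q ∈ P, p ≠ q → 2 ≤ ‖p - q‖ ∧
    (4 + 3 * c / 4 ≤ ps b (2 * (2 - c / 32)) (p - q) ∨
      4 + 3 * c / 4 ≤ ps b (2 * (2 - c / 32)) (q - p))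

lemma good_step {b : Ultrafilter X} {c : ℝ} (hc : 0 < c) (hc1 : c ≤ 1) (hb : Nice (c / 64) b)
    (hell : 2 + c ≤ ell b) {P : Set X} (hP : Good b c P) (d : X) :
    ∃ P', P ⊆ P' ∧ Good b c P' ∧ ∃ p ∈ P', ‖d - p‖ ≤ 2 - c / 64 := by
  by_cases hd : ∃ p ∈ P, ‖d - p‖ ≤ 2 - c / 64
  · exact ⟨P, Subset.rfl, hP, hd⟩
  push Not at hd
  have hbd := hb.bd
  set κ := c / 64 with hκ
  have hκ0 : 0 < κ := by positivity
  have hκ1 : κ ≤ 1 / 64 := by rw [hκ]; linarith
  have hcκ : c = 64 * κ := by rw [hκ]; ring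
  set ρ := 2 - c / 32 with hρ
  have hρκ : ρ = 2 - 2 * κ := by rw [hρ, hκ]; ring
  set α := 2 * κ / (2 - κ) with hα
  have h2κ : 0 < 2 - κ := by linarith
  have hα0 : 0 ≤ α := by positivity
  have hα1 : α ≤ 2 * κ := by
    rw [hα, div_le_iff₀ h2κ]
    nlinarith
  have hα2 : (1 + α) * (2 - κ) = 2 + κ := by
    rw [hα]; field_simp; ring
  set β := ρ - 3 * α with hβ
  have hβ0 : 0 ≤ β := by rw [hβ, hρκ]; linarith
  have hβρ : β ≤ ρ := by rw [hβ]; linarith
  have hρ0 : 0 ≤ ρ := by rw [hρκ]; linarith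
  -- the auxiliary vector
  have hw : ∃ w : X, ‖w‖ ≤ 3 * α ∧ ∀ p ∈ P, 2 < ps b β (d - p + w) := by
    by_cases hbad : ∃ p₀ ∈ P, ps b ρ (d - p₀) < 2 + c / 4
    · obtain ⟨p₀, hp₀, hbad⟩ := hbad
      have hy3 : ‖d - p₀‖ ≤ 3 := by
        have := ps_lower hb hρ0 (d - p₀)
        have h2 : ρ * κ ≤ 2 * κ := by rw [hρκ]; nlinarith
        linarith
      refine ⟨α • (d - p₀), ?_, fun p hp => ?_⟩
      · rw [norm_smul, Real.norm_eq_abs, abs_of_nonneg hα0]
        nlinarith
      · by_cases hpp : p = p₀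
        · subst hpp
          have h1 : d - p + α • (d - p) = (1 + α) • (d - p) := by rw [add_smul, one_smul]
          rw [h1]
          have h2 := ps_lower hb hβ0 ((1 + α) • (d - p))
          rw [norm_smul, Real.norm_eq_abs, abs_of_nonneg (by linarith)] at h2
          have h3 := hd p hp
          have h4 : (1 + α) * (2 - κ) < (1 + α) * ‖d - p‖ :=
            mul_lt_mul_of_pos_left h3 (by linarith)
          have h5 : β * κ ≤ 2 * κ := by
            have : β ≤ 2 := by rw [hβ, hρκ]; linarith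
            nlinarith
          linarith
        · have hnb : 2 + c / 4 ≤ ps b ρ (d - p) := by
            by_contra hlt
            push Not at hlt
            have h2 : ρ * κ ≤ 2 * κ := by rw [hρκ]; nlinarith
            rcases (hP.2 p hp p₀ hp₀ hpp).2 with h | h
            · have := ps_two hb hρ0 d p₀ p
              linarith
            · have := ps_two hb hρ0 d p p₀
              linarith
          have h1 := ps_change hb hβρ (d - p) (α • (d - p₀))
          have h2 : ‖α • (d - p₀)‖ ≤ 3 * α := by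
            rw [norm_smul, Real.norm_eq_abs, abs_of_nonneg hα0]
            nlinarith
          have h3 : ρ - β = 3 * α := by rw [hβ]; ring
          linarith
    · push Not at hbad
      refine ⟨0, by simpa using hα0, fun p hp => ?_⟩
      have h1 := ps_change hb hβρ (d - p) 0
      rw [norm_zero] at h1
      have h2 := hbad p hp
      have h3 : ρ - β = 3 * α := by rw [hβ]; ring
      linarith
  obtain ⟨w, hw3, hw2⟩ := hw
  have e1 : ∀ᶠ v in (b : Filter X), ‖v‖ < 1 + κ / 2 := by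
    have := (Lp.norm.tendsto hbd).eventually_lt_const (show ul b (fun x => ‖x‖) < 1 + κ / 2 by
      rw [hb.one]; linarith)
    exact this
  have e2 : ∀ᶠ v in (b : Filter X), ∀ p ∈ P, 2 < ‖d - p + w + β • v‖ := by
    rw [Filter.eventually_all_finite hP.1]
    intro p hp
    exact ((ps_inner _ _).tendsto hbd).eventually_const_lt (hw2 p hp)
  have e3 : ∀ᶠ v in (b : Filter X), ∀ p ∈ P,
      4 + 3 * c / 4 < ps b (2 * ρ) (d - p + w + β • v) := by
    rw [Filter.eventually_all_finite hP.1]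
    intro p hp
    have hL : Lp (1 * |β|) (fun x => ps b (2 * ρ) (d - p + w + β • x)) :=
      ((ps_lp hbd (2 * ρ)).shift _).dil β
    refine (hL.tendsto hbd).eventually_const_lt ?_
    have h1 := theta hb hβ0 hβρ (d - p + w)
    have h2 : ρ * (2 + c) ≤ ρ * ell b := mul_le_mul_of_nonneg_left hell hρ0
    have h3 : ρ - β = 3 * α := by rw [hβ]; ring
    have h4 : (β + 2 * ρ) * κ / 2 ≤ 3 * κ := by
      have : β + 2 * ρ ≤ 6 := by rw [hβ, hρκ]; linarith
      nlinarith
    have h5 : ρ * (2 + c) = 4 + 2 * c - 4 * κ - 2 * κ * c := by rw [hρκ]; ring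
    have h6 : κ * c ≤ κ := by nlinarith
    linarith
  obtain ⟨v, ⟨hv1, hv2⟩, hv3⟩ := ((e1.and e2).and e3).exists
  set q := d + w + β • v with hq
  have hqp : ∀ p, q - p = d - p + w + β • v := fun p => by rw [hq]; abel
  refine ⟨insert q P, Set.subset_insert _ _, ⟨hP.1.insert q, ?_⟩, q, Set.mem_insert _ _, ?_⟩
  · intro p₁ hp₁ p₂ hp₂ hne
    rcases Set.mem_insert_iff.1 hp₁ with rfl | hp₁
    · rcases Set.mem_insert_iff.1 hp₂ with rfl | hp₂
      · exact absurd rfl hne
      · refine ⟨?_, Or.inl ?_⟩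
        · rw [hqp]; exact (hv2 _ hp₂).le
        · rw [hqp]; exact (hv3 _ hp₂).le
    · rcases Set.mem_insert_iff.1 hp₂ with rfl | hp₂
      · refine ⟨?_, Or.inr ?_⟩
        · rw [norm_sub_rev, hqp]; exact (hv2 _ hp₁).le
        · rw [hqp]; exact (hv3 _ hp₁).le
      · exact hP.2 _ hp₁ _ hp₂ hne
  · have h1 : d - q = -(w + β • v) := by rw [hq]; abel
    rw [h1, norm_neg]
    have h2 := norm_add_le w (β • v)
    rw [norm_smul, Real.norm_eq_abs, abs_of_nonneg hβ0] at h2
    have h3 : β * ‖v‖ ≤ β * (1 + κ / 2) := mul_le_mul_of_nonneg_left hv1.le hβ0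
    have h4 : β * (κ / 2) ≤ 2 * (κ / 2) := by
      have : β ≤ 2 := by rw [hβ, hρκ]; linarith
      exact mul_le_mul_of_nonneg_right this (by positivity)
    have h5 : β + 3 * α = 2 - 2 * κ := by rw [hβ, hρκ]; ring
    linarith

/-- the infinite-dimensional case -/
theorem infinite_case [TopologicalSpace.SeparableSpace X] {N : X → ℝ} {A δ : ℝ}
    (hN : Nm N A δ) (hinf : ¬ FiniteDimensional ℝ X) :
    ∃ r : ℝ, 0 < r ∧ r < 2 ∧ ∃ P : Set X, (∀ x ∈ P, ∀ y ∈ P, x ≠ y → 2 ≤ ‖x - y‖) ∧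
      ∀ x, ∃ p ∈ P, ‖x - p‖ ≤ r := by
  have hδ := hN.dpos
  have hδ2 := hN.dle
  obtain ⟨b, hb, hell⟩ := exists_large hN hinf (show 0 < δ / 64 by positivity)
  have hstep : ∀ (P : {P : Set X // Good b δ P}) (d : X), ∃ P' : {P : Set X // Good b δ P},
      P.1 ⊆ P'.1 ∧ ∃ p ∈ P'.1, ‖d - p‖ ≤ 2 - δ / 64 := by
    intro P d
    obtain ⟨P', h1, h2, h3⟩ := good_step hδ (by linarith) hb hell P.2 d
    exact ⟨⟨P', h2⟩, h1, h3⟩
  choose nxt hn1 hn2 using hstep
  let seq : ℕ → {P : Set X // Good b δ P} := fun n => Nat.rec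
    ⟨∅, Set.finite_empty, fun p hp => absurd hp (Set.notMem_empty p)⟩
    (fun k P => nxt P (TopologicalSpace.denseSeq X k)) n
  have hseq : ∀ n, seq (n + 1) = nxt (seq n) (TopologicalSpace.denseSeq X n) := fun n => rfl
  have hmono : Monotone (fun n => (seq n).1) := by
    refine monotone_nat_of_le_succ fun n => ?_
    rw [hseq]
    exact hn1 _ _
  refine ⟨2 - δ / 128, by linarith, by linarith, ⋃ n, (seq n).1, ?_, ?_⟩
  · intro x hx y hy hxy
    obtain ⟨n, hn⟩ := Set.mem_iUnion.1 hx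
    obtain ⟨m, hm⟩ := Set.mem_iUnion.1 hy
    exact ((seq (max n m)).2.2 x (hmono (le_max_left _ _) hn) y
      (hmono (le_max_right _ _) hm) hxy).1
  · intro x
    obtain ⟨n, hn⟩ := (TopologicalSpace.denseRange_denseSeq X).exists_dist_lt x
      (show 0 < δ / 128 by positivity)
    obtain ⟨p, hp, hpd⟩ := hn2 (seq n) (TopologicalSpace.denseSeq X n)
    refine ⟨p, Set.mem_iUnion.2 ⟨n + 1, by rw [hseq]; exact hp⟩, ?_⟩
    rw [dist_eq_norm] at hn
    have := norm_add_le (x - TopologicalSpace.denseSeq X n) (TopologicalSpace.denseSeq X n - p)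
    rw [sub_add_sub_cancel] at this
    linarith

end Pool.Agent.Q82.SR
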