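import Mathlib

open Filter Topology Set

namespace Pool.Agent.Q82.SR

variable {X : Type*} [NormedAddCommGroup X] [NormedSpace ℝ X]

/-- the finite-dimensional case -/
theorem finite_case [FiniteDimensional ℝ X] :
    ∃ r : ℝ, 0 < r ∧ r < 2 ∧ ∃ P : Set X, (∀ x ∈ P, ∀ y ∈ P, x ≠ y → 2 ≤ ‖x - y‖) ∧
      ∀ x, ∃ p ∈ P, ‖x - p‖ ≤ r := by
  set φ := (Module.finBasis ℝ X).equivFunL with hφ
  set C := ‖(φ : X →L[ℝ] (Fin (Module.finrank ℝ X) → ℝ))‖ with hC
  have hC0 : 0 ≤ C := norm_nonneg _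
  have hφC : ∀ x, ‖φ x‖ ≤ C * ‖x‖ := fun x =>
    (φ : X →L[ℝ] (Fin (Module.finrank ℝ X) → ℝ)).le_opNorm x
  set M := 2 * C + 1 with hM
  have hM0 : 0 < M := by positivity
  let lam : (Fin (Module.finrank ℝ X) → ℤ) → X := fun k => φ.symm (fun i => M * (k i : ℝ))
  have hφl : ∀ k, φ (lam k) = fun i => M * (k i : ℝ) := fun k => φ.apply_symm_apply _
  have hl0 : lam 0 = 0 := by
    apply φ.injective
    rw [hφl, map_zero]
    funext i
    simp
  have hladd : ∀ k l, lam (k + l) = lam k + lam l := by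
    intro k l
    apply φ.injective
    rw [map_add, hφl, hφl, hφl]
    funext i
    simp [mul_add]
  have hlneg : ∀ k, lam (-k) = -lam k := by
    intro k
    apply φ.injective
    rw [map_neg, hφl, hφl]
    funext i
    simp
  have hlnorm : ∀ k, k ≠ 0 → 2 ≤ ‖lam k‖ := by
    intro k hk
    obtain ⟨i, hi⟩ := Function.ne_iff.1 hk
    have h1 : (1 : ℝ) ≤ |(k i : ℝ)| := by
      have : (1 : ℤ) ≤ |k i| := Int.one_le_abs hi
      exact_mod_cast this
    have h2 : M ≤ ‖φ (lam k)‖ := by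
      rw [hφl]
      refine le_trans ?_ (norm_le_pi_norm _ i)
      rw [Real.norm_eq_abs, abs_mul, abs_of_pos hM0]
      nlinarith
    have h3 := hφC (lam k)
    by_contra hlt
    push Not at hlt
    nlinarith
  set S : Set (Set X) := {P | (∀ p ∈ P, ∀ k, p + lam k ∈ P) ∧
    ∀ x ∈ P, ∀ y ∈ P, x ≠ y → 2 ≤ ‖x - y‖} with hS
  obtain ⟨P, hP⟩ := zorn_subset S (by
    intro c hcS hc
    refine ⟨⋃₀ c, ⟨?_, ?_⟩, fun s hs => Set.subset_sUnion_of_mem hs⟩
    · rintro p ⟨s, hs, hps⟩ k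
      exact ⟨s, hs, (hcS hs).1 p hps k⟩
    · rintro x ⟨s, hs, hxs⟩ y ⟨t, ht, hyt⟩ hxy
      rcases hc.total hs ht with h | h
      · exact (hcS ht).2 x (h hxs) y hyt hxy
      · exact (hcS hs).2 x hxs y (h hyt) hxy)
  have hPS : P ∈ S := hP.prop
  have hclose : ∀ x, ∃ p ∈ P, ‖x - p‖ < 2 := by
    intro x
    by_contra hcon
    push Not at hcon
    set P' : Set X := P ∪ Set.range (fun k => x + lam k) with hP'
    have hsub : ∀ k, ∀ p ∈ P, 2 ≤ ‖(x + lam k) - p‖ := by
      intro k p hp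
      have h1 := hcon (p + lam (-k)) (hPS.1 p hp (-k))
      have h2 : x - (p + lam (-k)) = (x + lam k) - p := by rw [hlneg]; abel
      rwa [h2] at h1
    have hP'S : P' ∈ S := by
      refine ⟨?_, ?_⟩
      · rintro p (hp | ⟨l, rfl⟩) k
        · exact Or.inl (hPS.1 p hp k)
        · refine Or.inr ⟨l + k, ?_⟩
          show x + lam (l + k) = x + lam l + lam k
          rw [hladd, add_assoc]
      · rintro y (hy | ⟨l, rfl⟩) z (hz | ⟨m, rfl⟩) hyz
        · exact hPS.2 y hy z hz hyz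
        · rw [norm_sub_rev]
          exact hsub m y hy
        · exact hsub l z hz
        · have h1 : (x + lam l) - (x + lam m) = lam (l - m) := by
            rw [sub_eq_add_neg l m, hladd, hlneg]; abel
          show 2 ≤ ‖(x + lam l) - (x + lam m)‖
          rw [h1]
          apply hlnorm
          intro h0
          apply hyz
          rw [sub_eq_zero.1 h0]
    have hle : P' ⊆ P := hP.le_of_ge hP'S Set.subset_union_left
    have hx : x ∈ P := hle (Or.inr ⟨0, by show x + lam 0 = x; rw [hl0, add_zero]⟩)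
    have := hcon x hx
    rw [sub_self, norm_zero] at this
    linarith
  have hne : P.Nonempty := by
    obtain ⟨p, hp, -⟩ := hclose 0
    exact ⟨p, hp⟩
  have hK : IsCompact (φ.symm '' Set.Icc 0 (fun _ => M)) := isCompact_Icc.image φ.symm.continuous
  have hKne : (φ.symm '' Set.Icc 0 (fun _ => M)).Nonempty :=
    ⟨_, 0, ⟨le_rfl, fun _ => hM0.le⟩, rfl⟩
  obtain ⟨x₀, hx₀, hmax⟩ := hK.exists_isMaxOn hKne
    (Metric.continuous_infDist_pt P).continuousOn
  set m := Metric.infDist x₀ P with hm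
  have hm2 : m < 2 := by
    obtain ⟨p, hp, hlt⟩ := hclose x₀
    rw [← dist_eq_norm] at hlt
    exact (Metric.infDist_le_dist_of_mem hp).trans_lt hlt
  have hm0 : 0 ≤ m := Metric.infDist_nonneg
  refine ⟨(m + 2) / 2, by linarith, by linarith, P, hPS.2, fun x => ?_⟩
  set k : Fin (Module.finrank ℝ X) → ℤ := fun i => ⌊φ x i / M⌋ with hk
  have hxk : x - lam k ∈ φ.symm '' Set.Icc 0 (fun _ => M) := by
    refine ⟨φ (x - lam k), ⟨fun i => ?_, fun i => ?_⟩, φ.symm_apply_apply _⟩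
    · rw [map_sub, hφl]
      show 0 ≤ φ x i - M * (k i : ℝ)
      have h1 : (k i : ℝ) ≤ φ x i / M := Int.floor_le _
      rw [le_div_iff₀ hM0] at h1
      linarith
    · rw [map_sub, hφl]
      show φ x i - M * (k i : ℝ) ≤ M
      have h1 : φ x i / M < (k i : ℝ) + 1 := Int.lt_floor_add_one _
      rw [div_lt_iff₀ hM0] at h1
      linarith
  have h1 : Metric.infDist (x - lam k) P ≤ m := hmax hxk
  obtain ⟨p, hp, hlt⟩ := (Metric.infDist_lt_iff hne).1 (h1.trans_lt (show m < (m + 2) / 2 by linarith))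
  refine ⟨p + lam k, hPS.1 p hp k, ?_⟩
  rw [dist_eq_norm] at hlt
  have h2 : x - (p + lam k) = x - lam k - p := by abel
  rw [h2]
  exact hlt.le

end Pool.Agent.Q82.SR
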