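import Mathlib

/-!
# A sign-averaging bound for functionals on `c₀`
-/

open Set
open scoped ZeroAtInfty

namespace Pool.Agent.Q82.SchC0

/-! ### Averages over signs -/

/-- The average over all signs of the first `m` coordinates. -/
noncomputable def av : ℕ → ((ℕ → ℝ) → ℝ) → ℝ
  | 0, F => F (fun _ => 1)
  | m + 1, F => (av m (fun σ => F (Function.update σ m 1)) +
      av m (fun σ => F (Function.update σ m (-1)))) / 2

theorem abs_update {σ : ℕ → ℝ} (h : ∀ i, |σ i| = 1) (m : ℕ) {c : ℝ} (hc : |c| = 1) :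
    ∀ i, |Function.update σ m c i| = 1 := by
  intro i
  by_cases hi : i = m
  · subst hi; simpa using hc
  · rw [Function.update_of_ne hi]; exact h i

theorem av_mono (m : ℕ) : ∀ {F G : (ℕ → ℝ) → ℝ}, (∀ σ, (∀ i, |σ i| = 1) → F σ ≤ G σ) →
    av m F ≤ av m G := by
  induction m with
  | zero => intro F G h; exact h _ (fun _ => by simp)
  | succ m ih =>
    intro F G h
    have h1 := ih (F := fun σ => F (Function.update σ m 1)) (G := fun σ => G (Function.update σ m 1))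
      (fun σ hσ => h _ (abs_update hσ m (by simp)))
    have h2 := ih (F := fun σ => F (Function.update σ m (-1)))
      (G := fun σ => G (Function.update σ m (-1))) (fun σ hσ => h _ (abs_update hσ m (by simp)))
    show (_ + _) / 2 ≤ (_ + _) / 2
    linarith

theorem av_congr (m : ℕ) {F G : (ℕ → ℝ) → ℝ} (h : ∀ σ, (∀ i, |σ i| = 1) → F σ = G σ) :
    av m F = av m G :=
  le_antisymm (av_mono m fun σ hσ => (h σ hσ).le) (av_mono m fun σ hσ => (h σ hσ).ge)

theorem av_const (m : ℕ) (c : ℝ) : av m (fun _ => c) = c := by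
  induction m with
  | zero => rfl
  | succ m ih =>
    show (av m _ + av m _) / 2 = c
    rw [ih]; ring

theorem av_add (m : ℕ) : ∀ F G : (ℕ → ℝ) → ℝ, av m (fun σ => F σ + G σ) = av m F + av m G := by
  induction m with
  | zero => intro F G; rfl
  | succ m ih =>
    intro F G
    show (av m _ + av m _) / 2 = (av m _ + av m _) / 2 + (av m _ + av m _) / 2
    rw [ih (fun σ => F (Function.update σ m 1)) (fun σ => G (Function.update σ m 1)),
      ih (fun σ => F (Function.update σ m (-1))) (fun σ => G (Function.update σ m (-1)))]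
    ring

theorem av_mul (m : ℕ) (c : ℝ) : ∀ F : (ℕ → ℝ) → ℝ, av m (fun σ => c * F σ) = c * av m F := by
  induction m with
  | zero => intro F; rfl
  | succ m ih =>
    intro F
    show (av m _ + av m _) / 2 = c * ((av m _ + av m _) / 2)
    rw [ih (fun σ => F (Function.update σ m 1)), ih (fun σ => F (Function.update σ m (-1)))]
    ring

theorem av_sum (m : ℕ) {ι : Type} (s : Finset ι) (F : ι → (ℕ → ℝ) → ℝ) :
    av m (fun σ => ∑ i ∈ s, F i σ) = ∑ i ∈ s, av m (F i) := by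
  classical
  induction s using Finset.induction_on with
  | empty => simp [av_const]
  | insert a s ha ih =>
    rw [Finset.sum_insert ha, ← ih, ← av_add]
    refine av_congr m fun σ _ => ?_
    rw [Finset.sum_insert ha]

variable {𝕜 : Type} [RCLike 𝕜]

/-- A signed sum. -/
noncomputable def ss (a : ℕ → 𝕜) (m : ℕ) (σ : ℕ → ℝ) : 𝕜 := ∑ i ∈ Finset.range m, (σ i : 𝕜) * a i

theorem ss_update (a : ℕ → 𝕜) (m : ℕ) (σ : ℕ → ℝ) (c : ℝ) :
    ss a (m + 1) (Function.update σ m c) = ss a m σ + (c : 𝕜) * a m := by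
  unfold ss
  rw [Finset.sum_range_succ, Function.update_self]
  congr 1
  refine Finset.sum_congr rfl fun i hi => ?_
  rw [Function.update_of_ne (ne_of_lt (Finset.mem_range.1 hi))]

theorem norm_sq_pm (x y : 𝕜) : ‖x + y‖ ^ 2 + ‖x - y‖ ^ 2 = 2 * (‖x‖ ^ 2 + ‖y‖ ^ 2) := by
  have := parallelogram_law_with_norm ℝ x y
  nlinarith [this]

theorem norm_four_pm (x y : 𝕜) :
    ‖x + y‖ ^ 4 + ‖x - y‖ ^ 4 ≤ 2 * (‖x‖ ^ 4 + 6 * ‖x‖ ^ 2 * ‖y‖ ^ 2 + ‖y‖ ^ 4) := by
  have h1 := norm_sq_pm x y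
  have h2 : ‖x + y‖ ≤ ‖x‖ + ‖y‖ := norm_add_le x y
  have h3 : ‖x - y‖ ≤ ‖x‖ + ‖y‖ := norm_sub_le x y
  -- with `P = ‖x+y‖²`, `Q = ‖x-y‖²`, `P + Q = 2 s`, `|P - Q| ≤ 4 ‖x‖ ‖y‖`
  have hP : ‖x + y‖ ^ 2 ≤ (‖x‖ + ‖y‖) ^ 2 := by
    exact pow_le_pow_left₀ (norm_nonneg _) h2 2
  have hQ : ‖x - y‖ ^ 2 ≤ (‖x‖ + ‖y‖) ^ 2 := by
    exact pow_le_pow_left₀ (norm_nonneg _) h3 2
  set P := ‖x + y‖ ^ 2 with hPd
  set Q := ‖x - y‖ ^ 2 with hQd
  have e1 : ‖x + y‖ ^ 4 = P ^ 2 := by rw [hPd]; ring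
  have e2 : ‖x - y‖ ^ 4 = Q ^ 2 := by rw [hQd]; ring
  rw [e1, e2]
  have hd : (P - Q) ^ 2 ≤ (4 * ‖x‖ * ‖y‖) ^ 2 := by
    refine sq_le_sq' ?_ ?_ <;> nlinarith
  nlinarith

theorem av_sq (a : ℕ → 𝕜) (m : ℕ) : ∀ x : 𝕜,
    av m (fun σ => ‖x + ss a m σ‖ ^ 2) = ‖x‖ ^ 2 + ∑ i ∈ Finset.range m, ‖a i‖ ^ 2 := by
  induction m with
  | zero => intro x; simp [av, ss]
  | succ m ih =>
    intro x
    show (av m _ + av m _) / 2 = _
    have e1 : av m (fun σ => ‖x + ss a (m + 1) (Function.update σ m 1)‖ ^ 2) =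
        ‖x + a m‖ ^ 2 + ∑ i ∈ Finset.range m, ‖a i‖ ^ 2 := by
      rw [← ih (x + a m)]
      refine av_congr m fun σ _ => ?_
      rw [ss_update]
      congr 2
      simp only [RCLike.ofReal_one, one_mul]
      ring
    have e2 : av m (fun σ => ‖x + ss a (m + 1) (Function.update σ m (-1))‖ ^ 2) =
        ‖x - a m‖ ^ 2 + ∑ i ∈ Finset.range m, ‖a i‖ ^ 2 := by
      rw [← ih (x - a m)]
      refine av_congr m fun σ _ => ?_
      rw [ss_update]
      congr 2
      simp only [RCLike.ofReal_neg, RCLike.ofReal_one, neg_mul, one_mul]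
      ring
    rw [e1, e2, Finset.sum_range_succ]
    have := norm_sq_pm x (a m)
    linarith

theorem av_four (a : ℕ → 𝕜) (m : ℕ) : ∀ x : 𝕜,
    av m (fun σ => ‖x + ss a m σ‖ ^ 4) ≤ ‖x‖ ^ 4 +
      6 * ‖x‖ ^ 2 * (∑ i ∈ Finset.range m, ‖a i‖ ^ 2) +
        3 * (∑ i ∈ Finset.range m, ‖a i‖ ^ 2) ^ 2 := by
  induction m with
  | zero => intro x; simp [av, ss]
  | succ m ih =>
    intro x
    show (av m _ + av m _) / 2 ≤ _
    have e1 : av m (fun σ => ‖x + ss a (m + 1) (Function.update σ m 1)‖ ^ 4) =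
        av m (fun σ => ‖(x + a m) + ss a m σ‖ ^ 4) := by
      refine av_congr m fun σ _ => ?_
      rw [ss_update]
      congr 2
      simp only [RCLike.ofReal_one, one_mul]
      ring
    have e2 : av m (fun σ => ‖x + ss a (m + 1) (Function.update σ m (-1))‖ ^ 4) =
        av m (fun σ => ‖(x - a m) + ss a m σ‖ ^ 4) := by
      refine av_congr m fun σ _ => ?_
      rw [ss_update]
      congr 2
      simp only [RCLike.ofReal_neg, RCLike.ofReal_one, neg_mul, one_mul]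
      ring
    rw [e1, e2, Finset.sum_range_succ]
    set S := ∑ i ∈ Finset.range m, ‖a i‖ ^ 2 with hS
    have hS0 : 0 ≤ S := Finset.sum_nonneg fun _ _ => sq_nonneg _
    have h1 := ih (x + a m)
    have h2 := ih (x - a m)
    have h3 := norm_sq_pm x (a m)
    have h4 := norm_four_pm x (a m)
    have h5 : 0 ≤ ‖a m‖ ^ 4 := by positivity
    have h6 : S * (‖x + a m‖ ^ 2 + ‖x - a m‖ ^ 2) = S * (2 * (‖x‖ ^ 2 + ‖a m‖ ^ 2)) := by rw [h3]
    nlinarith

/-- Khinchin's inequality with a crude constant. -/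
theorem khinchin (a : ℕ → 𝕜) (m : ℕ) :
    Real.sqrt (∑ i ∈ Finset.range m, ‖a i‖ ^ 2) ≤ 4 * av m (fun σ => ‖ss a m σ‖) := by
  set S := ∑ i ∈ Finset.range m, ‖a i‖ ^ 2 with hS
  have hS0 : 0 ≤ S := Finset.sum_nonneg fun _ _ => sq_nonneg _
  set s := Real.sqrt S with hs
  have hs2 : s ^ 2 = S := Real.sq_sqrt hS0
  rcases (Real.sqrt_nonneg S).eq_or_lt with h0 | hpos
  · rw [hs, ← h0]
    have : (0 : ℝ) ≤ av m (fun σ => ‖ss a m σ‖) := by
      rw [← av_const m 0]
      exact av_mono m fun σ _ => norm_nonneg _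
    linarith
  · have hpos' : 0 < s := hpos
    -- pointwise: t ≥ t²/s - t⁴/(4 s³)
    have hpt : ∀ t : ℝ, 0 ≤ t → s⁻¹ * t ^ 2 + (-(4 * s ^ 3)⁻¹) * t ^ 4 ≤ t := by
      intro t ht
      have h1 : s⁻¹ * t ^ 2 + (-(4 * s ^ 3)⁻¹) * t ^ 4 = (4 * s ^ 2 * t ^ 2 - t ^ 4) / (4 * s ^ 3) := by
        field_simp
        ring
      rw [h1, div_le_iff₀ (by positivity)]
      have h2 : t * (4 * s ^ 3) - (4 * s ^ 2 * t ^ 2 - t ^ 4) =
          t * ((t - 7 / 6 * s) ^ 2 * (t + 7 / 3 * s) + 1 / 12 * s ^ 2 * t + 89 / 108 * s ^ 3) := by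
        ring
      have h3 : 0 ≤ t * ((t - 7 / 6 * s) ^ 2 * (t + 7 / 3 * s) + 1 / 12 * s ^ 2 * t +
          89 / 108 * s ^ 3) := by positivity
      linarith
    have h1 : av m (fun σ => s⁻¹ * ‖ss a m σ‖ ^ 2 + (-(4 * s ^ 3)⁻¹) * ‖ss a m σ‖ ^ 4) ≤
        av m (fun σ => ‖ss a m σ‖) := av_mono m fun σ _ => hpt _ (norm_nonneg _)
    rw [av_add, av_mul, av_mul] at h1
    have h2 := av_sq a m 0
    have h4 := av_four a m 0
    simp only [zero_add, norm_zero] at h2 h4
    rw [← hS] at h2 h4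
    have h2' : av m (fun σ => ‖ss a m σ‖ ^ 2) = S := by rw [h2]; ring
    have h4' : av m (fun σ => ‖ss a m σ‖ ^ 4) ≤ 3 * S ^ 2 := by
      refine h4.trans (le_of_eq ?_); ring
    rw [h2'] at h1
    have h5 : (4 * s ^ 3)⁻¹ * av m (fun σ => ‖ss a m σ‖ ^ 4) ≤ (4 * s ^ 3)⁻¹ * (3 * S ^ 2) :=
      mul_le_mul_of_nonneg_left h4' (by positivity)
    have h6 : (4 * s ^ 3)⁻¹ * (3 * S ^ 2) = 3 / 4 * s := by
      rw [← hs2]; field_simp
    have h7 : s⁻¹ * S = s := by rw [← hs2]; field_simp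
    rw [h7] at h1
    rw [h6] at h5
    linarith

theorem sum_norm_le (a : ℕ → 𝕜) (m : ℕ) :
    ∑ i ∈ Finset.range m, ‖a i‖ ≤ Real.sqrt m * (4 * av m (fun σ => ‖ss a m σ‖)) := by
  refine le_trans ?_ (mul_le_mul_of_nonneg_left (khinchin a m) (Real.sqrt_nonneg _))
  rw [← Real.sqrt_mul (Nat.cast_nonneg m)]
  refine Real.le_sqrt_of_sq_le ?_
  have := sq_sum_le_card_mul_sum_sq (s := Finset.range m) (f := fun i => ‖a i‖)
  rwa [Finset.card_range] at this

/-! ### The space `c₀` -/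

/-- A finitely supported element of `c₀`. -/
noncomputable def fin (F : Finset ℕ) (a : ℕ → 𝕜) : C₀(ℕ, 𝕜) where
  toFun := fun j => if j ∈ F then a j else 0
  continuous_toFun := continuous_of_discreteTopology
  zero_at_infty' := by
    rw [Filter.cocompact_eq_cofinite]
    refine tendsto_const_nhds.congr' ?_
    filter_upwards [F.finite_toSet.compl_mem_cofinite] with j hj
    rw [if_neg (by simpa using hj)]

theorem fin_apply (F : Finset ℕ) (a : ℕ → 𝕜) (j : ℕ) :
    fin F a j = if j ∈ F then a j else 0 := rfl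

theorem norm_le_c0 {f : C₀(ℕ, 𝕜)} {C : ℝ} (hC : 0 ≤ C) (h : ∀ j, ‖f j‖ ≤ C) : ‖f‖ ≤ C := by
  rw [← ZeroAtInftyContinuousMap.norm_toBCF_eq_norm]
  exact (BoundedContinuousFunction.norm_le hC).2 h

theorem apply_le_c0 (f : C₀(ℕ, 𝕜)) (j : ℕ) : ‖f j‖ ≤ ‖f‖ := by
  rw [← ZeroAtInftyContinuousMap.norm_toBCF_eq_norm]
  exact BoundedContinuousFunction.norm_coe_le_norm f.toBCF j

theorem fin_eq_sum (F : Finset ℕ) (a : ℕ → 𝕜) :
    fin F a = ∑ k ∈ F, a k • fin {k} (fun _ => (1 : 𝕜)) := by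
  classical
  have h : ∀ (G : Finset ℕ) (g : ℕ → C₀(ℕ, 𝕜)) (j : ℕ), (∑ k ∈ G, g k) j = ∑ k ∈ G, g k j := by
    intro G g j
    induction G using Finset.induction_on with
    | empty => simp
    | insert a G ha ih =>
      rw [Finset.sum_insert ha, Finset.sum_insert ha, ZeroAtInftyContinuousMap.add_apply, ih]
  ext j
  rw [h, fin_apply]
  have h2 : ∀ k ∈ F, (a k • fin {k} (fun _ => (1 : 𝕜))) j = if j = k then a k else 0 := by
    intro k _
    rw [ZeroAtInftyContinuousMap.smul_apply, fin_apply]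
    by_cases hjk : j = k
    · simp [hjk]
    · simp [hjk]
  rw [Finset.sum_congr rfl h2, Finset.sum_ite_eq F j]

/-- The main bound: if all signed sums of functionals on `c₀` are bounded by `Q`, then the sum of
their values at vectors of norm at most `R` is at most `4 √m Q R`. -/
theorem sum_apply_le (q : ℕ → C₀(ℕ, 𝕜) →L[𝕜] 𝕜) (r : ℕ → C₀(ℕ, 𝕜)) (m : ℕ) (Q R : ℝ)
    (hR : 0 ≤ R)
    (hq : ∀ σ : ℕ → ℝ, (∀ i, |σ i| = 1) → ‖∑ i ∈ Finset.range m, (σ i : 𝕜) • q i‖ ≤ Q)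
    (hr : ∀ i, ‖r i‖ ≤ R) :
    ‖∑ i ∈ Finset.range m, q i (r i)‖ ≤ 4 * Real.sqrt m * Q * R := by
  classical
  refine le_of_forall_pos_le_add fun ε hε => ?_
  set A := ∑ i ∈ Finset.range m, ‖q i‖ with hA
  have hA0 : 0 ≤ A := Finset.sum_nonneg fun i _ => (q i).opNorm_nonneg
  set δ := ε / (A + 1) with hδ
  have hδ0 : 0 < δ := by positivity
  -- a finite set of coordinates
  obtain ⟨F, hF⟩ : ∃ F : Finset ℕ, ∀ i ∈ Finset.range m, ∀ k ∉ F, ‖r i k‖ ≤ δ := by
    have h1 : ∀ i, {k | δ < ‖r i k‖}.Finite := by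
      intro i
      have h2 := (r i).zero_at_infty'
      rw [Filter.cocompact_eq_cofinite] at h2
      have h3 : Filter.Tendsto (fun k => ‖r i k‖) Filter.cofinite (nhds 0) := by
        have := h2.norm
        rwa [norm_zero] at this
      have h4 := h3.eventually (Iic_mem_nhds hδ0)
      rw [Filter.eventually_cofinite] at h4
      refine h4.subset fun k hk => ?_
      simp only [not_le, Set.mem_ofPred_eq] at hk ⊢
      exact hk
    refine ⟨(Finset.range m).biUnion fun i => (h1 i).toFinset, fun i hi k hk => ?_⟩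
    by_contra hcon
    push Not at hcon
    exact hk (Finset.mem_biUnion.2 ⟨i, hi, (h1 i).mem_toFinset.2 hcon⟩)
  have hdist : ∀ i ∈ Finset.range m, ‖r i - fin F (fun k => r i k)‖ ≤ δ := by
    intro i hi
    refine norm_le_c0 hδ0.le fun k => ?_
    rw [ZeroAtInftyContinuousMap.sub_apply, fin_apply]
    by_cases hk : k ∈ F
    · rw [if_pos hk, sub_self, norm_zero]; exact hδ0.le
    · rw [if_neg hk, sub_zero]; exact hF i hi k hk
  -- a functional is summable along the unit vectors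
  have hsum : ∀ Φ : C₀(ℕ, 𝕜) →L[𝕜] 𝕜,
      ∑ k ∈ F, ‖Φ (fin {k} (fun _ => (1 : 𝕜)))‖ ≤ ‖Φ‖ := by
    intro Φ
    set z : ℕ → 𝕜 := fun k => Φ (fin {k} (fun _ => (1 : 𝕜))) with hz
    set θ : ℕ → 𝕜 := fun k => if z k = 0 then 0 else (starRingEnd 𝕜) (z k) / (‖z k‖ : 𝕜) with hθ
    have hθn : ∀ k, ‖θ k‖ ≤ 1 := by
      intro k
      rw [hθ]
      dsimp only
      split_ifs with h
      · simp
      · rw [norm_div, RCLike.norm_conj, RCLike.norm_ofReal, abs_of_nonneg (norm_nonneg _),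
          div_self (norm_ne_zero_iff.2 h)]
    have hθz : ∀ k, θ k * z k = (‖z k‖ : 𝕜) := by
      intro k
      rw [hθ]
      dsimp only
      split_ifs with h
      · simp [h]
      · rw [div_mul_eq_mul_div, RCLike.conj_mul]
        have : (‖z k‖ : 𝕜) ≠ 0 := by
          exact_mod_cast norm_ne_zero_iff.2 h
        field_simp
    have h1 : Φ (fin F θ) = ((∑ k ∈ F, ‖z k‖ : ℝ) : 𝕜) := by
      rw [fin_eq_sum, map_sum, RCLike.ofReal_sum]
      refine Finset.sum_congr rfl fun k _ => ?_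
      rw [map_smul, smul_eq_mul, ← hθz]
    have h2 : ‖fin F θ‖ ≤ 1 := by
      refine norm_le_c0 zero_le_one fun k => ?_
      rw [fin_apply]
      split_ifs
      · exact hθn k
      · simp
    have h3 : ‖Φ (fin F θ)‖ ≤ ‖Φ‖ := by
      calc ‖Φ (fin F θ)‖ ≤ ‖Φ‖ * ‖fin F θ‖ := Φ.le_opNorm _
        _ ≤ ‖Φ‖ * 1 := mul_le_mul_of_nonneg_left h2 Φ.opNorm_nonneg
        _ = ‖Φ‖ := mul_one _
    rw [h1, RCLike.norm_ofReal, abs_of_nonneg (Finset.sum_nonneg fun _ _ => norm_nonneg _)] at h3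
    exact h3
  have hmain : ‖∑ i ∈ Finset.range m, q i (fin F (fun k => r i k))‖ ≤
      4 * Real.sqrt m * Q * R := by
    have e1 : ∀ i, q i (fin F (fun k => r i k)) =
        ∑ k ∈ F, r i k * q i (fin {k} (fun _ => (1 : 𝕜))) := by
      intro i
      rw [fin_eq_sum, map_sum]
      refine Finset.sum_congr rfl fun k _ => ?_
      rw [map_smul, smul_eq_mul]
    calc ‖∑ i ∈ Finset.range m, q i (fin F (fun k => r i k))‖
        ≤ ∑ i ∈ Finset.range m, ∑ k ∈ F, R * ‖q i (fin {k} (fun _ => (1 : 𝕜)))‖ := by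
          refine (norm_sum_le _ _).trans (Finset.sum_le_sum fun i _ => ?_)
          rw [e1]
          refine (norm_sum_le _ _).trans (Finset.sum_le_sum fun k _ => ?_)
          rw [norm_mul]
          exact mul_le_mul_of_nonneg_right ((apply_le_c0 _ _).trans (hr i)) (norm_nonneg _)
      _ = R * ∑ k ∈ F, ∑ i ∈ Finset.range m, ‖q i (fin {k} (fun _ => (1 : 𝕜)))‖ := by
          rw [Finset.sum_comm, Finset.mul_sum]
          refine Finset.sum_congr rfl fun k _ => ?_
          rw [Finset.mul_sum]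
      _ ≤ R * ∑ k ∈ F, Real.sqrt m * (4 * av m (fun σ =>
            ‖ss (fun i => q i (fin {k} (fun _ => (1 : 𝕜)))) m σ‖)) := by
          refine mul_le_mul_of_nonneg_left (Finset.sum_le_sum fun k _ => ?_) hR
          exact sum_norm_le _ m
      _ = R * (Real.sqrt m * (4 * av m (fun σ => ∑ k ∈ F,
            ‖ss (fun i => q i (fin {k} (fun _ => (1 : 𝕜)))) m σ‖))) := by
          rw [av_sum, ← Finset.mul_sum, ← Finset.mul_sum]
      _ ≤ R * (Real.sqrt m * (4 * av m (fun _ => Q))) := by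
          refine mul_le_mul_of_nonneg_left (mul_le_mul_of_nonneg_left
            (mul_le_mul_of_nonneg_left (av_mono m fun σ hσ => ?_) (by norm_num))
            (Real.sqrt_nonneg _)) hR
          refine le_trans (le_of_eq ?_) ((hsum (∑ i ∈ Finset.range m, (σ i : 𝕜) • q i)).trans
            (hq σ hσ))
          refine Finset.sum_congr rfl fun k _ => ?_
          congr 1
          unfold ss
          rw [_root_.sum_apply]
          refine Finset.sum_congr rfl fun i _ => ?_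
          rw [_root_.smul_apply, smul_eq_mul]
      _ = 4 * Real.sqrt m * Q * R := by rw [av_const]; ring
  have herr : ‖∑ i ∈ Finset.range m, q i (r i) -
      ∑ i ∈ Finset.range m, q i (fin F (fun k => r i k))‖ ≤ ε := by
    rw [← Finset.sum_sub_distrib]
    calc ‖∑ i ∈ Finset.range m, (q i (r i) - q i (fin F (fun k => r i k)))‖
        ≤ ∑ i ∈ Finset.range m, ‖q i‖ * δ := by
          refine (norm_sum_le _ _).trans (Finset.sum_le_sum fun i hi => ?_)
          rw [← map_sub]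
          exact ((q i).le_opNorm _).trans
            (mul_le_mul_of_nonneg_left (hdist i hi) (q i).opNorm_nonneg)
      _ = A * δ := by rw [← Finset.sum_mul]
      _ ≤ ε := by
          rw [hδ, mul_div_assoc', div_le_iff₀ (by positivity)]
          nlinarith
  calc ‖∑ i ∈ Finset.range m, q i (r i)‖
      = ‖(∑ i ∈ Finset.range m, q i (r i) -
          ∑ i ∈ Finset.range m, q i (fin F (fun k => r i k))) +
            ∑ i ∈ Finset.range m, q i (fin F (fun k => r i k))‖ := by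
        rw [sub_add_cancel]
    _ ≤ ε + 4 * Real.sqrt m * Q * R := (norm_add_le _ _).trans (add_le_add herr hmain)
    _ = 4 * Real.sqrt m * Q * R + ε := add_comm _ _

end Pool.Agent.Q82.SchC0
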