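import Pool.Agent.Q82.SchDef

/-!
# Spread averages in the Schreier families
-/

open Set

namespace Pool.Agent.Q82.Sch

/-- A recursion that chooses successive blocks. -/
theorem exists_seq {W : Type} (R : ℕ → ℕ+ → Finset ℕ+ → W → Prop)
    (h : ∀ l q, ∃ J w, R l q J w) (q₀ : ℕ+) :
    ∃ (J : ℕ → Finset ℕ+) (w : ℕ → W) (q : ℕ → ℕ+), q 0 = q₀ ∧
      (∀ l, R l (q l) (J l) (w l)) ∧ (∀ l, q l ≤ q (l + 1)) ∧ ∀ l, ∀ j ∈ J l, j ≤ q (l + 1) := by
  choose J w hR using h
  let q : ℕ → ℕ+ := fun l => Nat.rec q₀ (fun l q => max q ((J l q).sup id)) l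
  refine ⟨fun l => J l (q l), fun l => w l (q l), q, rfl, fun l => hR l (q l), fun l => ?_,
    fun l j hj => ?_⟩
  · exact le_max_left _ _
  · exact le_max_of_le_right (Finset.le_sup (f := id) hj)

/-- Spread averages: for each infinite `N`, each `q` and each `ε > 0` there is a probability
weight on a set `J ∈ S_n` inside `N ∩ (q, ∞)` such that all sets of `S_n` that meet `[1, q]` have
weight at most `ε`. -/
def Spread (n : ℕ) : Prop :=
  ∀ N : Set ℕ+, N.Infinite → ∀ (q : ℕ+) (ε : ℝ), 0 < ε → ∃ (J : Finset ℕ+) (w : ℕ+ → ℝ),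
    J ∈ Fam n ∧ ↑J ⊆ N ∧ (∀ j ∈ J, q < j) ∧ (∀ j, 0 ≤ w j) ∧ (∀ j, j ∉ J → w j = 0) ∧
      ∑ j ∈ J, w j = 1 ∧ ∀ E ∈ Fam n, (∃ a ∈ E, a ≤ q) → ∑ j ∈ E, w j ≤ ε

/-- A block with `m` spread averages with a common support in `S_n`. -/
def IsBlock (n m : ℕ) (N : Set ℕ+) (q : ℕ+) (ε : ℝ) (J : Finset ℕ+)
    (cw : (ℕ+ → ℕ) × (ℕ+ → ℝ)) : Prop :=
  J ∈ Fam n ∧ ↑J ⊆ N ∧ (∀ j ∈ J, q < j) ∧ (∀ j, 0 ≤ cw.2 j) ∧ (∀ j, j ∉ J → cw.2 j = 0) ∧
    (∀ j ∈ J, cw.1 j < m) ∧ (∀ i < m, ∑ j ∈ J with cw.1 j = i, cw.2 j = 1) ∧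
      ∀ E ∈ Fam n, (∃ a ∈ E, a ≤ q) → ∑ j ∈ E, cw.2 j ≤ ε

theorem spread_zero : Spread 0 := by
  classical
  intro N hN q ε hε
  obtain ⟨j, hjN, hj⟩ := hN.exists_gt q
  refine ⟨{j}, fun l => if l = j then 1 else 0, by simp [Fam], by simpa using hjN, by simpa using hj,
    ?_, ?_, by simp, ?_⟩
  · intro l; dsimp only; split_ifs <;> norm_num
  · intro l hl; rw [Finset.mem_singleton] at hl; simp [hl]
  · rintro E hE ⟨a, haE, ha⟩
    have h1 : E = {a} := by
      have hcard : E.card ≤ 1 := hE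
      refine Finset.eq_singleton_iff_unique_mem.2 ⟨haE, fun b hb => ?_⟩
      exact (Finset.card_le_one.1 hcard) b hb a haE
    rw [h1, Finset.sum_singleton, if_neg (ne_of_lt (lt_of_le_of_lt ha hj))]
    exact hε.le

theorem block_of_spread {n : ℕ} (hn : Spread n) (m : ℕ) (hm : 1 ≤ m) (N : Set ℕ+)
    (hN : N.Infinite) (q : ℕ+) (ε : ℝ) (hε : 0 < ε) :
    ∃ J cw, IsBlock (n + 1) m N q ε J cw := by
  classical
  -- the length `L` of the averages
  obtain ⟨L, hL1, hL⟩ : ∃ L : ℕ, 1 ≤ L ∧ 2 * (q : ℝ) / ε ≤ L := by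
    obtain ⟨L, hL⟩ := exists_nat_ge (2 * (q : ℝ) / ε)
    refine ⟨L + 1, by omega, hL.trans ?_⟩
    push_cast
    linarith
  have hL0 : (0 : ℝ) < L := by exact_mod_cast hL1
  set M := m * L with hM
  have hM1 : 1 ≤ M := Nat.mul_pos hm hL1
  have hM0 : (0 : ℝ) < M := by exact_mod_cast hM1
  obtain ⟨J, w, Q, hQ0, hR, hQ, hJQ⟩ := exists_seq
    (fun _ q' (J : Finset ℕ+) (w : ℕ+ → ℝ) =>
      J ∈ Fam n ∧ ↑J ⊆ N ∧ (∀ j ∈ J, q' < j) ∧ (∀ j, 0 ≤ w j) ∧ (∀ j, j ∉ J → w j = 0) ∧
      ∑ j ∈ J, w j = 1 ∧ ∀ E ∈ Fam n, (∃ a ∈ E, a ≤ q') → ∑ j ∈ E, w j ≤ 1 / M)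
    (fun _ q' => hn N hN q' (1 / M) (by positivity)) (max q ⟨M, hM1⟩)
  have hQmono : Monotone Q := monotone_nat_of_le_succ hQ
  have hJne : ∀ l, (J l).Nonempty := by
    intro l
    by_contra h
    rw [Finset.not_nonempty_iff_eq_empty] at h
    have := (hR l).2.2.2.2.2.1
    rw [h, Finset.sum_empty] at this
    exact zero_ne_one this
  have hlt : ∀ l l', l < l' → ∀ a ∈ J l, ∀ b ∈ J l', a < b := by
    intro l l' hll a ha b hb
    exact lt_of_le_of_lt ((hJQ l a ha).trans (hQmono hll)) ((hR l').2.2.1 b hb)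
  have hdisj : ∀ l l' j, j ∈ J l → j ∈ J l' → l = l' := by
    intro l l' j h1 h2
    rcases lt_trichotomy l l' with h | h | h
    · exact absurd (hlt l l' h j h1 j h2) (lt_irrefl _)
    · exact h
    · exact absurd (hlt l' l h j h2 j h1) (lt_irrefl _)
  -- index of a point
  let idx : ℕ+ → ℕ := fun j => if h : ∃ l, j ∈ J l then Nat.find h else 0
  have hidx : ∀ l j, j ∈ J l → idx j = l := by
    intro l j hj
    have h : ∃ l, j ∈ J l := ⟨l, hj⟩
    simp only [idx, dif_pos h]
    exact hdisj _ _ j (Nat.find_spec h) hj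
  have hwnn : ∀ l j, 0 ≤ w l j := fun l => (hR l).2.2.2.1
  have hwsupp : ∀ l j, j ∉ J l → w l j = 0 := fun l => (hR l).2.2.2.2.1
  have hwsum : ∀ l, ∑ j ∈ J l, w l j = 1 := fun l => (hR l).2.2.2.2.2.1
  -- total weight of a set of `S_n`
  have hG : ∀ G ∈ Fam n, ∑ l ∈ Finset.range M, ∑ j ∈ G, w l j ≤ 2 := by
    intro G hG
    by_cases hex : ∃ l, ∃ a ∈ G, a ∈ J l
    · set l₀ := Nat.find hex with hl₀
      have hspec : ∃ a ∈ G, a ∈ J l₀ := Nat.find_spec hex
      have hterm : ∀ l ∈ Finset.range M,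
          ∑ j ∈ G, w l j ≤ (if l = l₀ then 1 else 0) + 1 / (M : ℝ) := by
        intro l _
        rcases lt_trichotomy l l₀ with h | h | h
        · have h0 : ∑ j ∈ G, w l j = 0 := by
            refine Finset.sum_eq_zero fun j hj => hwsupp l j fun hjl => ?_
            exact Nat.find_min hex h ⟨j, hj, hjl⟩
          rw [h0, if_neg (ne_of_lt h)]
          positivity
        · rw [if_pos h]
          have h1 : ∑ j ∈ G, w l j ≤ ∑ j ∈ J l, w l j := by
            calc ∑ j ∈ G, w l j = ∑ j ∈ G ∩ J l, w l j := by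
                  symm
                  refine Finset.sum_subset Finset.inter_subset_left fun j hj hj' => ?_
                  exact hwsupp l j fun h => hj' (Finset.mem_inter.2 ⟨hj, h⟩)
              _ ≤ ∑ j ∈ J l, w l j :=
                  Finset.sum_le_sum_of_subset_of_nonneg Finset.inter_subset_right
                    fun j _ _ => hwnn l j
          rw [hwsum] at h1
          have : (0 : ℝ) ≤ 1 / M := by positivity
          linarith
        · rw [if_neg (ne_of_gt h), zero_add]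
          obtain ⟨a, haG, ha⟩ := hspec
          exact (hR l).2.2.2.2.2.2 G hG ⟨a, haG, (hJQ l₀ a ha).trans (hQmono h)⟩
      refine (Finset.sum_le_sum hterm).trans ?_
      rw [Finset.sum_add_distrib, Finset.sum_const, Finset.card_range, nsmul_eq_mul]
      have h1 : ∑ l ∈ Finset.range M, (if l = l₀ then (1 : ℝ) else 0) ≤ 1 := by
        rw [Finset.sum_ite_eq' (Finset.range M) l₀]
        split_ifs <;> norm_num
      have h2 : (M : ℝ) * (1 / M) = 1 := by field_simp
      linarith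
    · push Not at hex
      refine le_trans (le_of_eq ?_) zero_le_two
      refine Finset.sum_eq_zero fun l _ => Finset.sum_eq_zero fun j hj => ?_
      exact hwsupp l j (hex l j hj)
  have hmemJ : ∀ j, j ∈ (Finset.range M).biUnion J ↔ ∃ l < M, j ∈ J l := by
    intro j; simp
  refine ⟨(Finset.range M).biUnion J, (fun j => idx j / L, fun j =>
    (∑ l ∈ Finset.range M, w l j) / L), ?_, ?_, ?_, ?_, ?_, ?_, ?_, ?_⟩
  · refine ⟨M, fun i => J i, fun i => (hR i).1, fun i => hJne i, fun i j hij => hlt i j hij, ?_, ?_⟩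
    · intro i a ha
      have h1 : Q 0 < a := lt_of_le_of_lt (hQmono (Nat.zero_le _)) ((hR i).2.2.1 a ha)
      rw [hQ0] at h1
      have h2 : (⟨M, hM1⟩ : ℕ+) < a := lt_of_le_of_lt (le_max_right _ _) h1
      exact le_of_lt (by exact_mod_cast h2)
    · ext j
      simp only [Finset.mem_biUnion, Finset.mem_range, Finset.mem_univ, true_and]
      constructor
      · rintro ⟨l, hl, hj⟩; exact ⟨⟨l, hl⟩, hj⟩
      · rintro ⟨l, hj⟩; exact ⟨l, l.2, hj⟩
  · intro j hj
    obtain ⟨l, _, hj⟩ := (hmemJ j).1 hj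
    exact (hR l).2.1 hj
  · intro j hj
    obtain ⟨l, _, hj⟩ := (hmemJ j).1 hj
    have h1 : Q 0 < j := lt_of_le_of_lt (hQmono (Nat.zero_le _)) ((hR l).2.2.1 j hj)
    rw [hQ0] at h1
    exact lt_of_le_of_lt (le_max_left _ _) h1
  · intro j
    exact div_nonneg (Finset.sum_nonneg fun l _ => hwnn l j) hL0.le
  · intro j hj
    show (∑ l ∈ Finset.range M, w l j) / (L : ℝ) = 0
    rw [Finset.sum_eq_zero, zero_div]
    intro l hl
    exact hwsupp l j fun h => hj ((hmemJ j).2 ⟨l, Finset.mem_range.1 hl, h⟩)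
  · intro j hj
    obtain ⟨l, hl, hj⟩ := (hmemJ j).1 hj
    show idx j / L < m
    rw [hidx l j hj, Nat.div_lt_iff_lt_mul hL1]
    exact hl
  · intro i hi
    show ∑ j ∈ (Finset.range M).biUnion J with idx j / L = i,
      (∑ l ∈ Finset.range M, w l j) / (L : ℝ) = 1
    have hset : (Finset.filter (fun j => idx j / L = i) ((Finset.range M).biUnion J)) =
        ((Finset.range M).filter (fun l => l / L = i)).biUnion J := by
      ext j
      simp only [Finset.mem_filter, Finset.mem_biUnion, Finset.mem_range]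
      constructor
      · rintro ⟨⟨l, hl, hj⟩, hij⟩
        rw [hidx l j hj] at hij
        exact ⟨l, ⟨hl, hij⟩, hj⟩
      · rintro ⟨l, ⟨hl, hil⟩, hj⟩
        refine ⟨⟨l, hl, hj⟩, ?_⟩
        rw [hidx l j hj]; exact hil
    rw [hset, Finset.sum_biUnion]
    · have h1 : ∀ l ∈ (Finset.range M).filter (fun l => l / L = i),
          ∑ j ∈ J l, (∑ l' ∈ Finset.range M, w l' j) / (L : ℝ) = 1 / L := by
        intro l hl
        rw [Finset.mem_filter, Finset.mem_range] at hl
        have h2 : ∀ j ∈ J l, (∑ l' ∈ Finset.range M, w l' j) / (L : ℝ) = w l j / L := by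
          intro j hj
          congr 1
          refine Finset.sum_eq_single_of_mem l (Finset.mem_range.2 hl.1) fun l' _ hne => ?_
          exact hwsupp l' j fun h => hne (hdisj l' l j h hj)
        rw [Finset.sum_congr rfl h2, ← Finset.sum_div, hwsum]
      rw [Finset.sum_congr rfl h1, Finset.sum_const, nsmul_eq_mul]
      have hcard : ((Finset.range M).filter (fun l => l / L = i)).card = L := by
        have : (Finset.range M).filter (fun l => l / L = i) = Finset.Ico (i * L) ((i + 1) * L) := by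
          ext l
          simp only [Finset.mem_filter, Finset.mem_range, Finset.mem_Ico]
          rw [Nat.div_eq_iff (by omega)]
          have h3 : (i + 1) * L ≤ m * L := Nat.mul_le_mul_right L hi
          constructor
          · rintro ⟨h1, h2, h4⟩
            constructor
            · omega
            · have : (i + 1) * L = i * L + L := by ring
              omega
          · rintro ⟨h1, h2⟩
            have : (i + 1) * L = i * L + L := by ring
            refine ⟨by omega, by omega, by omega⟩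
        rw [this, Nat.card_Ico]
        have : (i + 1) * L = i * L + L := by ring
        omega
      rw [hcard]
      field_simp
    · intro l _ l' _ hne
      rw [Function.onFun, Finset.disjoint_left]
      intro j hj hj'
      exact hne (hdisj l l' j hj hj')
  · rintro E ⟨k, G, hGmem, hGne, hGlt, hGk, rfl⟩ ⟨a, haE, ha⟩
    have hkq : (k : ℝ) ≤ q := by
      obtain ⟨i, _, hai⟩ := Finset.mem_biUnion.1 haE
      have h1 := hGk i a hai
      have h2 : (a : ℕ) ≤ (q : ℕ) := by exact_mod_cast ha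
      exact_mod_cast h1.trans h2
    calc ∑ j ∈ Finset.univ.biUnion G, (∑ l ∈ Finset.range M, w l j) / (L : ℝ)
        ≤ ∑ i : Fin k, ∑ j ∈ G i, (∑ l ∈ Finset.range M, w l j) / (L : ℝ) := by
          rw [Finset.sum_biUnion]
          intro x _ y _ hne
          rw [Function.onFun, Finset.disjoint_left]
          intro j hj hj'
          rcases lt_or_gt_of_ne hne with h | h
          · exact lt_irrefl _ (hGlt x y h j hj j hj')
          · exact lt_irrefl _ (hGlt y x h j hj' j hj)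
      _ = ∑ i : Fin k, (∑ l ∈ Finset.range M, ∑ j ∈ G i, w l j) / (L : ℝ) := by
          refine Finset.sum_congr rfl fun i _ => ?_
          rw [Finset.sum_comm, Finset.sum_div]
      _ ≤ ∑ _i : Fin k, 2 / (L : ℝ) := by
          refine Finset.sum_le_sum fun i _ => ?_
          exact div_le_div_of_nonneg_right (hG _ (hGmem i)) hL0.le
      _ = k * (2 / L) := by simp
      _ ≤ q * (2 / L) := mul_le_mul_of_nonneg_right hkq (by positivity)
      _ ≤ ε := by
          rw [div_le_iff₀ hε] at hL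
          rw [mul_div_assoc', div_le_iff₀ hL0]
          linarith

theorem spread (n : ℕ) : Spread n := by
  induction n with
  | zero => exact spread_zero
  | succ n ih =>
    intro N hN q ε hε
    obtain ⟨J, cw, hJ, hJN, hJq, hw, hw0, hc, hsum, hE⟩ :=
      block_of_spread ih 1 le_rfl N hN q ε hε
    refine ⟨J, cw.2, hJ, hJN, hJq, hw, hw0, ?_, hE⟩
    have := hsum 0 one_pos
    rwa [Finset.filter_true_of_mem (fun j hj => Nat.lt_one_iff.1 (hc j hj))] at this

theorem exists_block {n : ℕ} (hn : 1 ≤ n) (m : ℕ) (hm : 1 ≤ m) (N : Set ℕ+)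
    (hN : N.Infinite) (q : ℕ+) (ε : ℝ) (hε : 0 < ε) : ∃ J cw, IsBlock n m N q ε J cw := by
  obtain ⟨k, rfl⟩ := Nat.exists_eq_add_of_le' hn
  exact block_of_spread (spread k) m hm N hN q ε hε

end Pool.Agent.Q82.Sch
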