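import Mathlib

/-!
# Schreier spaces, spatial ideals and operators that factor through `c₀`: definitions
-/

open Set UniformSpace
open scoped ZeroAtInfty

namespace Pool.Agent.Q82.Sch

/-- The Schreier families `S_n`, families of finite sets of positive integers. -/
def Fam : ℕ → Set (Finset ℕ+)
  | 0 => {F | F.card ≤ 1}
  | n + 1 => {F | ∃ (k : ℕ) (E : Fin k → Finset ℕ+), (∀ i, E i ∈ Fam n) ∧ (∀ i, (E i).Nonempty) ∧
      (∀ i j, i < j → ∀ a ∈ E i, ∀ b ∈ E j, a < b) ∧ (∀ i, ∀ a ∈ E i, k ≤ (a : ℕ)) ∧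
      F = Finset.univ.biUnion E}

/-- The finitely supported scalar sequences, to be normed by the `n`-th Schreier norm. -/
def C00 (𝕜 : Type) [RCLike 𝕜] (_n : ℕ) : Type := ℕ+ →₀ 𝕜

variable (𝕜 : Type) [RCLike 𝕜] (n : ℕ)

noncomputable instance : AddCommGroup (C00 𝕜 n) := inferInstanceAs (AddCommGroup (ℕ+ →₀ 𝕜))

noncomputable instance : Module 𝕜 (C00 𝕜 n) := inferInstanceAs (Module 𝕜 (ℕ+ →₀ 𝕜))

variable {𝕜 n}

/-- The coordinates of a finitely supported sequence. -/
def C00.coord (x : C00 𝕜 n) (j : ℕ+) : 𝕜 := (show ℕ+ →₀ 𝕜 from x) j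

/-- The Schreier norm `sup {∑_{j ∈ E} |x_j| : E ∈ S_n}`. -/
noncomputable def schNorm (x : C00 𝕜 n) : ℝ := ⨆ E : Fam n, ∑ j ∈ E.1, ‖x.coord j‖

theorem bddAbove_schNorm (x : C00 𝕜 n) :
    BddAbove (range fun E : Fam n => ∑ j ∈ E.1, ‖x.coord j‖) := by
  classical
  refine ⟨∑ j ∈ (show ℕ+ →₀ 𝕜 from x).support, ‖x.coord j‖, ?_⟩
  rintro _ ⟨E, rfl⟩
  have h : ∑ j ∈ E.1, ‖x.coord j‖ =
      ∑ j ∈ E.1 ∩ (show ℕ+ →₀ 𝕜 from x).support, ‖x.coord j‖ := by
    symm
    refine Finset.sum_subset Finset.inter_subset_left fun j hj hj' => ?_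
    have : x.coord j = 0 := by
      by_contra hne
      exact hj' (Finset.mem_inter.2 ⟨hj, Finsupp.mem_support_iff.2 hne⟩)
    rw [this, norm_zero]
  show ∑ j ∈ E.1, ‖x.coord j‖ ≤ _
  rw [h]
  exact Finset.sum_le_sum_of_subset_of_nonneg Finset.inter_subset_right
    fun _ _ _ => norm_nonneg _

theorem sum_le_schNorm (x : C00 𝕜 n) {E : Finset ℕ+} (hE : E ∈ Fam n) :
    ∑ j ∈ E, ‖x.coord j‖ ≤ schNorm x :=
  le_ciSup (bddAbove_schNorm x) ⟨E, hE⟩

theorem empty_mem_fam (n : ℕ) : (∅ : Finset ℕ+) ∈ Fam n := by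
  cases n with
  | zero => simp [Fam]
  | succ n => exact ⟨0, Fin.elim0, fun i => i.elim0, fun i => i.elim0, fun i => i.elim0,
      fun i => i.elim0, by simp⟩

instance (n : ℕ) : Nonempty (Fam n) := ⟨⟨∅, empty_mem_fam n⟩⟩

theorem schNorm_le {x : C00 𝕜 n} {C : ℝ} (h : ∀ E ∈ Fam n, ∑ j ∈ E, ‖x.coord j‖ ≤ C) :
    schNorm x ≤ C :=
  ciSup_le fun E => h E.1 E.2

theorem singleton_mem_fam (n : ℕ) (j : ℕ+) : ({j} : Finset ℕ+) ∈ Fam n := by
  induction n with
  | zero => simp [Fam]
  | succ n ih =>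
    refine ⟨1, fun _ => {j}, fun _ => ih, fun _ => Finset.singleton_nonempty j, ?_, ?_, ?_⟩
    · intro a b hab
      exact absurd hab (by simp [Subsingleton.elim a b])
    · intro _ a ha
      rw [Finset.mem_singleton] at ha
      subst ha
      exact_mod_cast (one_le (a := a))
    · ext a; simp

theorem schNorm_nonneg (x : C00 𝕜 n) : 0 ≤ schNorm x := by
  have := sum_le_schNorm x (empty_mem_fam n)
  simpa using this

noncomputable instance : NormedAddCommGroup (C00 𝕜 n) :=
  AddGroupNorm.toNormedAddCommGroup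
    { toFun := schNorm
      map_zero' := by
        refine le_antisymm (schNorm_le fun E _ => ?_) (schNorm_nonneg _)
        refine (Finset.sum_eq_zero fun j _ => ?_).le
        show ‖(0 : 𝕜)‖ = 0
        exact norm_zero
      add_le' := fun x y => schNorm_le fun E hE => by
        calc ∑ j ∈ E, ‖(x + y).coord j‖ ≤ ∑ j ∈ E, (‖x.coord j‖ + ‖y.coord j‖) :=
              Finset.sum_le_sum fun j _ => norm_add_le _ _
          _ = ∑ j ∈ E, ‖x.coord j‖ + ∑ j ∈ E, ‖y.coord j‖ := Finset.sum_add_distrib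
          _ ≤ schNorm x + schNorm y :=
              add_le_add (sum_le_schNorm x hE) (sum_le_schNorm y hE)
      neg' := fun x => by
        unfold schNorm
        congr 1
        funext E
        refine Finset.sum_congr rfl fun j _ => ?_
        exact norm_neg _
      eq_zero_of_map_eq_zero' := fun x hx => by
        refine Finsupp.ext fun j => ?_
        have h := sum_le_schNorm x (singleton_mem_fam n j)
        rw [Finset.sum_singleton, show schNorm x = 0 from hx] at h
        exact norm_le_zero_iff.1 h }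

noncomputable instance : NormedSpace 𝕜 (C00 𝕜 n) where
  norm_smul_le := fun c x => by
    show schNorm (c • x) ≤ ‖c‖ * schNorm x
    refine schNorm_le fun E hE => ?_
    calc ∑ j ∈ E, ‖(c • x).coord j‖ = ∑ j ∈ E, ‖c‖ * ‖x.coord j‖ :=
          Finset.sum_congr rfl fun j _ => norm_mul _ _
      _ = ‖c‖ * ∑ j ∈ E, ‖x.coord j‖ := (Finset.mul_sum _ _ _).symm
      _ ≤ ‖c‖ * schNorm x := mul_le_mul_of_nonneg_left (sum_le_schNorm x hE) (norm_nonneg c)

variable (𝕜 n)

/-- The Schreier space `X[S_n]`, the completion of the finitely supported sequences. -/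
abbrev Space : Type := Completion (C00 𝕜 n)

/-- The bounded operators on the Schreier space. -/
abbrev Op : Type := Space 𝕜 n →L[𝕜] Space 𝕜 n

variable {𝕜 n}

/-- The restriction of a finitely supported sequence to the coordinates in `N`. -/
noncomputable def restr (N : Set ℕ+) (x : C00 𝕜 n) : C00 𝕜 n := by
  classical
  exact Finsupp.filter (· ∈ N) (show ℕ+ →₀ 𝕜 from x)

theorem restr_coord (N : Set ℕ+) (x : C00 𝕜 n) (j : ℕ+) [Decidable (j ∈ N)] :
    (restr N x).coord j = if j ∈ N then x.coord j else 0 := by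
  unfold restr C00.coord
  rw [Finsupp.filter_apply]
  congr

/-- The restriction to the coordinates in `N`, as a bounded operator. -/
noncomputable def restrL (N : Set ℕ+) : C00 𝕜 n →L[𝕜] C00 𝕜 n :=
  LinearMap.mkContinuous
    { toFun := restr N
      map_add' := fun x y => by classical exact Finsupp.filter_add
      map_smul' := fun c x => by classical exact Finsupp.filter_smul } 1 (fun x => by
      classical
      rw [one_mul]
      refine schNorm_le fun E hE => ?_
      refine le_trans (Finset.sum_le_sum fun j _ => ?_) (sum_le_schNorm x hE)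
      show ‖(restr N x).coord j‖ ≤ _
      rw [restr_coord]
      split_ifs
      · exact le_rfl
      · rw [norm_zero]; exact norm_nonneg _)

/-- The basis projection `P_N` of the Schreier space. -/
noncomputable def proj (N : Set ℕ+) : Op 𝕜 n := (restrL N).completion

/-- A closed two-sided ideal of the algebra of bounded operators. -/
structure IsClosedIdeal (I : Set (Op 𝕜 n)) : Prop where
  isClosed : IsClosed I
  zero_mem : 0 ∈ I
  add_mem : ∀ S ∈ I, ∀ T ∈ I, S + T ∈ I
  mul_mem : ∀ A B : Op 𝕜 n, ∀ T ∈ I, A.comp (T.comp B) ∈ I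

/-- The closed two-sided ideal generated by an operator. -/
def closedIdeal (P : Op 𝕜 n) : Set (Op 𝕜 n) := ⋂₀ {I | IsClosedIdeal I ∧ P ∈ I}

/-- The compact operators. -/
def compacts : Set (Op 𝕜 n) := {T | IsCompactOperator T}

/-- `I` is a non-trivial spatial ideal: it is generated by a basis projection, and it lies strictly
between the compact operators and all operators. -/
def IsNontrivialSpatial (I : Set (Op 𝕜 n)) : Prop :=
  (∃ N : Set ℕ+, N.Nonempty ∧ I = closedIdeal (proj N)) ∧ compacts ⊂ I ∧ I ⊂ univ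

/-- The operators that factor through `c₀`. -/
def factorC0 : Set (Op 𝕜 n) :=
  {T | ∃ (B : Space 𝕜 n →L[𝕜] C₀(ℕ, 𝕜)) (A : C₀(ℕ, 𝕜) →L[𝕜] Space 𝕜 n), T = A.comp B}

end Pool.Agent.Q82.Sch
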