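import Pool.Agent.Q82.SchOp
import Pool.Agent.Q82.SchC0

/-!
# The closure of the operators that factor through `c₀` and the spatial ideals
-/

open Set UniformSpace
open scoped ZeroAtInfty

namespace Pool.Agent.Q82.Sch

variable {𝕜 : Type} [RCLike 𝕜] {n : ℕ}

theorem norm_coe (x : C00 𝕜 n) : ‖(x : Space 𝕜 n)‖ = schNorm x := Completion.norm_coe x

/-! ### Ideals -/

theorem isClosedIdeal_compacts : IsClosedIdeal (compacts : Set (Op 𝕜 n)) where
  isClosed := isClosed_setOfPred_isCompactOperator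
  zero_mem := isCompactOperator_zero
  add_mem := fun _ hS _ hT => IsCompactOperator.add hS hT
  mul_mem := fun A B _ hT => (IsCompactOperator.comp_clm hT B).clm_comp A

theorem closedIdeal_subset {P : Op 𝕜 n} {I : Set (Op 𝕜 n)} (hI : IsClosedIdeal I) (hP : P ∈ I) :
    closedIdeal P ⊆ I := sInter_subset_of_mem ⟨hI, hP⟩

theorem mem_closedIdeal (P A B : Op 𝕜 n) : A.comp (P.comp B) ∈ closedIdeal P := by
  rintro I ⟨hI, hP⟩
  exact hI.mul_mem A B P hP

theorem proj_compact {N : Set ℕ+} (hN : N.Finite) : (proj N : Op 𝕜 n) ∈ compacts := by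
  classical
  -- `P_N` maps into the span of finitely many unit vectors
  let e : ℕ+ → C00 𝕜 n := fun j => (Finsupp.single j 1 : ℕ+ →₀ 𝕜)
  let V : Submodule 𝕜 (Space 𝕜 n) :=
    Submodule.span 𝕜 ((fun j => ((e j : C00 𝕜 n) : Space 𝕜 n)) '' N)
  have hV : FiniteDimensional 𝕜 V := FiniteDimensional.span_of_finite 𝕜 (hN.image _)
  have hVc : IsClosed (V : Set (Space 𝕜 n)) := Submodule.closed_of_finiteDimensional V
  have hmem : ∀ x : Space 𝕜 n, proj N x ∈ V := by
    intro x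
    induction x using Completion.induction_on with
    | hp => exact hVc.preimage (proj N : Op 𝕜 n).continuous
    | ih x =>
      have h1 : (proj N : Op 𝕜 n) (x : Space 𝕜 n) = ((restr N x : C00 𝕜 n) : Space 𝕜 n) := by
        unfold proj
        rw [ContinuousLinearMap.completion_apply_coe]
        rfl
      have h2 : restr N x = ∑ j ∈ hN.toFinset, x.coord j • e j := by
        refine C00.ext' fun l => ?_
        rw [restr_coord, ← coordL_apply l (∑ j ∈ hN.toFinset, x.coord j • e j), map_sum]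
        have h3 : ∀ j ∈ hN.toFinset, coordL 𝕜 n l (x.coord j • e j) =
            if l = j then x.coord j else 0 := by
          intro j _
          rw [map_smul, coordL_apply, smul_eq_mul]
          have : (e j).coord l = if l = j then 1 else 0 := by
            show (Finsupp.single j (1 : 𝕜)) l = _
            rw [Finsupp.single_apply]
            by_cases h : j = l
            · simp [h]
            · rw [if_neg h, if_neg (Ne.symm h)]
          rw [this]
          split_ifs <;> simp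
        rw [Finset.sum_congr rfl h3, Finset.sum_ite_eq hN.toFinset l]
        simp
      rw [h1, h2]
      have h4 : ((∑ j ∈ hN.toFinset, x.coord j • e j : C00 𝕜 n) : Space 𝕜 n) =
          ∑ j ∈ hN.toFinset, x.coord j • ((e j : C00 𝕜 n) : Space 𝕜 n) := by
        have := map_sum (Completion.toComplL (𝕜 := 𝕜) (E := C00 𝕜 n))
          (fun j => x.coord j • e j) hN.toFinset
        simp only [map_smul] at this
        exact this
      rw [h4]
      refine Submodule.sum_mem _ fun j hj => Submodule.smul_mem _ _ (Submodule.subset_span ?_)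
      exact mem_image_of_mem _ (hN.mem_toFinset.1 hj)
  have h5 : (proj N : Op 𝕜 n) = V.subtypeL.comp ((proj N : Op 𝕜 n).codRestrict V hmem) := by
    ext x; rfl
  show IsCompactOperator (proj N : Op 𝕜 n)
  rw [h5]
  have : ProperSpace V := FiniteDimensional.proper_rclike 𝕜 V
  have h6 : IsCompactOperator V.subtypeL :=
    isCompactOperator_of_locallyCompactSpace_rng (V.subtypeL : V →L[𝕜] Space 𝕜 n)
  exact h6.comp_clm ((proj N : Op 𝕜 n).codRestrict V hmem)

theorem infinite_of_nontrivial {N : Set ℕ+} {I : Set (Op 𝕜 n)} (hI : I = closedIdeal (proj N))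
    (h : compacts ⊂ I) : N.Infinite := by
  intro hfin
  have h1 : I ⊆ compacts := by
    rw [hI]
    exact closedIdeal_subset isClosedIdeal_compacts (proj_compact hfin)
  exact h.2 h1

/-! ### Functionals -/

namespace Sys

variable {N : Set ℕ+} (S : Sys n N)

/-- The functional `x ↦ ∑_{j ∈ J_k} τ(c(j)) x_j`. -/
noncomputable def fnl (k : ℕ) (τ : ℕ → 𝕜) (hτ : ∀ i, ‖τ i‖ ≤ 1) : Space 𝕜 n →L[𝕜] 𝕜 :=
  (LinearMap.mkContinuous
    (∑ j ∈ S.J k, τ (S.c k j) • coordL 𝕜 n j) 1 (fun x => by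
      rw [one_mul, LinearMap.sum_apply]
      refine (norm_sum_le _ _).trans ?_
      refine le_trans (Finset.sum_le_sum fun j _ => ?_) (sum_le_schNorm x (S.J_mem k))
      rw [LinearMap.smul_apply, coordL_apply, smul_eq_mul, norm_mul]
      calc ‖τ (S.c k j)‖ * ‖x.coord j‖ ≤ 1 * ‖x.coord j‖ :=
            mul_le_mul_of_nonneg_right (hτ _) (norm_nonneg _)
        _ = ‖x.coord j‖ := one_mul _)).fromCompletion

theorem fnl_coe (k : ℕ) (τ : ℕ → 𝕜) (hτ : ∀ i, ‖τ i‖ ≤ 1) (x : C00 𝕜 n) :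
    S.fnl k τ hτ (x : Space 𝕜 n) = ∑ j ∈ S.J k, τ (S.c k j) * x.coord j := by
  unfold fnl
  rw [ContinuousLinearMap.fromCompletion_apply_coe, LinearMap.mkContinuous_apply,
    LinearMap.sum_apply]
  rfl

theorem fnl_norm_apply (k : ℕ) (τ : ℕ → 𝕜) (hτ : ∀ i, ‖τ i‖ ≤ 1) (x : Space 𝕜 n) :
    ‖S.fnl k τ hτ x‖ ≤ ‖x‖ := by
  induction x using Completion.induction_on with
  | hp => exact isClosed_le (by fun_prop) (by fun_prop)
  | ih x =>
    rw [fnl_coe, norm_coe]
    refine (norm_sum_le _ _).trans ?_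
    refine le_trans (Finset.sum_le_sum fun j _ => ?_) (sum_le_schNorm x (S.J_mem k))
    rw [norm_mul]
    calc ‖τ (S.c k j)‖ * ‖x.coord j‖ ≤ 1 * ‖x.coord j‖ :=
          mul_le_mul_of_nonneg_right (hτ _) (norm_nonneg _)
      _ = ‖x.coord j‖ := one_mul _

/-- The indicator functionals of the colours. -/
noncomputable def ifn (k i : ℕ) : Space 𝕜 n →L[𝕜] 𝕜 :=
  S.fnl k (fun j => if j = i then 1 else 0) (fun j => by split_ifs <;> simp)

theorem sum_ifn (k : ℕ) (σ : ℕ → ℝ) (hσ : ∀ i, ‖((σ i : ℝ) : 𝕜)‖ ≤ 1) (x : Space 𝕜 n) :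
    ∑ i ∈ Finset.range (k + 1), (σ i : 𝕜) * S.ifn k i x = S.fnl k (fun i => (σ i : 𝕜)) hσ x := by
  induction x using Completion.induction_on with
  | hp => exact isClosed_eq (by fun_prop) (by fun_prop)
  | ih x =>
    rw [fnl_coe]
    have h1 : ∀ i ∈ Finset.range (k + 1), (σ i : 𝕜) * S.ifn k i (x : Space 𝕜 n) =
        ∑ j ∈ S.J k, if S.c k j = i then (σ i : 𝕜) * x.coord j else 0 := by
      intro i _
      unfold ifn
      rw [fnl_coe, Finset.mul_sum]
      refine Finset.sum_congr rfl fun j _ => ?_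
      split_ifs <;> simp
    rw [Finset.sum_congr rfl h1, Finset.sum_comm]
    refine Finset.sum_congr rfl fun j hj => ?_
    rw [Finset.sum_ite_eq (Finset.range (k + 1)) (S.c k j),
      if_pos (Finset.mem_range.2 (S.c_lt hj))]

theorem ifn_vec {k i : ℕ} (hi : i < k + 1) :
    S.ifn k i ((S.vec 𝕜 k i : C00 𝕜 n) : Space 𝕜 n) = 1 := by
  unfold ifn
  rw [fnl_coe]
  have h1 : ∀ j ∈ S.J k, (if S.c k j = i then (1 : 𝕜) else 0) * (S.vec 𝕜 k i).coord j =
      if S.c k j = i then (S.w k j : 𝕜) else 0 := by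
    intro j _
    rw [vec_coord]
    split_ifs <;> simp
  rw [Finset.sum_congr rfl h1, ← Finset.sum_filter]
  have := S.w_sum hi
  have h3 : ((∑ j ∈ S.J k with S.c k j = i, S.w k j : ℝ) : 𝕜) = ((1 : ℝ) : 𝕜) := by rw [this]
  rw [RCLike.ofReal_sum] at h3
  simpa using h3

theorem vec_norm (k i : ℕ) : ‖((S.vec 𝕜 k i : C00 𝕜 n) : Space 𝕜 n)‖ ≤ 1 := by
  classical
  rw [norm_coe]
  refine schNorm_le fun E _ => ?_
  have h0 : ∑ j ∈ S.J k with S.c k j = i, S.w k j ≤ 1 := by
    by_cases hi : i < k + 1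
    · exact (S.w_sum hi).le
    · rw [Finset.sum_eq_zero]
      · exact zero_le_one
      · intro j hj
        rw [Finset.mem_filter] at hj
        exact absurd (hj.2 ▸ S.c_lt hj.1) hi
  refine le_trans ?_ h0
  calc ∑ j ∈ E, ‖(S.vec 𝕜 k i).coord j‖ = ∑ j ∈ E with S.c k j = i, S.w k j := by
        rw [Finset.sum_filter]
        refine Finset.sum_congr rfl fun j _ => ?_
        rw [vec_coord]
        split_ifs
        · rw [RCLike.norm_ofReal, abs_of_nonneg (S.w_nonneg k j)]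
        · rw [norm_zero]
    _ = ∑ j ∈ (E ∩ S.J k) with S.c k j = i, S.w k j := by
        symm
        refine Finset.sum_subset ?_ fun l hl hl' => ?_
        · intro l hl
          rw [Finset.mem_filter, Finset.mem_inter] at hl
          rw [Finset.mem_filter]
          exact ⟨hl.1.1, hl.2⟩
        · refine S.w_eq_zero fun h => hl' ?_
          rw [Finset.mem_filter] at hl
          rw [Finset.mem_filter, Finset.mem_inter]
          exact ⟨⟨hl.1, h⟩, hl.2⟩
    _ ≤ ∑ j ∈ S.J k with S.c k j = i, S.w k j := by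
        refine Finset.sum_le_sum_of_subset_of_nonneg ?_ fun l _ _ => S.w_nonneg k l
        intro l hl
        rw [Finset.mem_filter, Finset.mem_inter] at hl
        rw [Finset.mem_filter]
        exact ⟨hl.1.2, hl.2⟩

/-- The operator that fixes the averages is not a limit of operators that factor through `c₀`. -/
theorem op_not_mem_closure : S.op S 𝕜 ∉ closure (factorC0 : Set (Op 𝕜 n)) := by
  intro hmem
  rw [Metric.mem_closure_iff] at hmem
  obtain ⟨T, ⟨B, A, rfl⟩, hT⟩ := hmem (1 / 2) (by norm_num)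
  rw [dist_eq_norm] at hT
  -- choose a long block
  obtain ⟨k, hk⟩ : ∃ k : ℕ, (8 * (‖A‖ * ‖B‖)) ^ 2 < (k + 1 : ℕ) := by
    obtain ⟨k, hk⟩ := exists_nat_gt ((8 * (‖A‖ * ‖B‖)) ^ 2)
    exact ⟨k, hk.trans (by push_cast; linarith)⟩
  set v : ℕ → Space 𝕜 n := fun i => ((S.vec 𝕜 k i : C00 𝕜 n) : Space 𝕜 n) with hv
  have hopv : ∀ i, i < k + 1 → S.op S 𝕜 (v i) = v i := by
    intro i hi
    rw [hv]
    dsimp only
    rw [op_coe, lin_vec S S 𝕜 hi]
  have h1 : ‖∑ i ∈ Finset.range (k + 1), S.ifn k i (A (B (v i)))‖ ≤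
      4 * Real.sqrt (k + 1 : ℕ) * ‖A‖ * ‖B‖ := by
    refine SchC0.sum_apply_le (fun i => (S.ifn k i).comp A) (fun i => B (v i)) (k + 1) ‖A‖ ‖B‖
      B.opNorm_nonneg ?_ ?_
    · intro σ hσ
      have hσ' : ∀ i, ‖((σ i : ℝ) : 𝕜)‖ ≤ 1 := by
        intro i; rw [RCLike.norm_ofReal, hσ i]
      refine ContinuousLinearMap.opNorm_le_bound _ A.opNorm_nonneg fun f => ?_
      have e1 : (∑ i ∈ Finset.range (k + 1), ((σ i : ℝ) : 𝕜) • (S.ifn k i).comp A) f =
          S.fnl k (fun i => (σ i : 𝕜)) hσ' (A f) := by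
        rw [← sum_ifn, _root_.sum_apply]
        rfl
      rw [e1]
      exact (S.fnl_norm_apply k _ hσ' _).trans (A.le_opNorm f)
    · intro i
      calc ‖B (v i)‖ ≤ ‖B‖ * ‖v i‖ := B.le_opNorm _
        _ ≤ ‖B‖ * 1 := mul_le_mul_of_nonneg_left (S.vec_norm k i) B.opNorm_nonneg
        _ = ‖B‖ := mul_one _
  have h2 : ‖∑ i ∈ Finset.range (k + 1), S.ifn k i ((S.op S 𝕜 - A.comp B) (v i))‖ ≤
      (k + 1 : ℕ) * (1 / 2) := by
    calc ‖∑ i ∈ Finset.range (k + 1), S.ifn k i ((S.op S 𝕜 - A.comp B) (v i))‖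
        ≤ ∑ _i ∈ Finset.range (k + 1), (1 / 2 : ℝ) := by
          refine (norm_sum_le _ _).trans (Finset.sum_le_sum fun i _ => ?_)
          refine (S.fnl_norm_apply k _ _ _).trans ?_
          calc ‖(S.op S 𝕜 - A.comp B) (v i)‖ ≤ ‖S.op S 𝕜 - A.comp B‖ * ‖v i‖ :=
                ContinuousLinearMap.le_opNorm _ _
            _ ≤ (1 / 2) * 1 := mul_le_mul hT.le (S.vec_norm k i) (norm_nonneg _) (by norm_num)
            _ = 1 / 2 := mul_one _
      _ = (k + 1 : ℕ) * (1 / 2) := by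
          rw [Finset.sum_const, Finset.card_range, nsmul_eq_mul]
  have h3 : ∑ i ∈ Finset.range (k + 1), S.ifn k i ((S.op S 𝕜 - A.comp B) (v i)) +
      ∑ i ∈ Finset.range (k + 1), S.ifn k i (A (B (v i))) = ((k + 1 : ℕ) : 𝕜) := by
    rw [← Finset.sum_add_distrib]
    have e1 : ∀ i ∈ Finset.range (k + 1), S.ifn k i ((S.op S 𝕜 - A.comp B) (v i)) +
        S.ifn k i (A (B (v i))) = 1 := by
      intro i hi
      rw [← map_add]
      have e2 : (S.op S 𝕜 - A.comp B) (v i) + A (B (v i)) = v i := by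
        rw [_root_.sub_apply, ContinuousLinearMap.comp_apply, sub_add_cancel,
          hopv i (Finset.mem_range.1 hi)]
      rw [e2]
      exact S.ifn_vec (Finset.mem_range.1 hi)
    rw [Finset.sum_congr rfl e1, Finset.sum_const, Finset.card_range, nsmul_eq_mul, mul_one]
  have h4 : ((k + 1 : ℕ) : ℝ) ≤ (k + 1 : ℕ) * (1 / 2) +
      4 * Real.sqrt (k + 1 : ℕ) * ‖A‖ * ‖B‖ := by
    have e1 : ‖((k + 1 : ℕ) : 𝕜)‖ = ((k + 1 : ℕ) : ℝ) := by
      rw [RCLike.norm_natCast]
    calc ((k + 1 : ℕ) : ℝ) = ‖((k + 1 : ℕ) : 𝕜)‖ := e1.symm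
      _ ≤ _ := by
        rw [← h3]
        exact (norm_add_le _ _).trans (add_le_add h2 h1)
  set s := Real.sqrt (k + 1 : ℕ) with hs
  have hs2 : s ^ 2 = ((k + 1 : ℕ) : ℝ) := Real.sq_sqrt (Nat.cast_nonneg _)
  have hs0 : 0 < s := Real.sqrt_pos.2 (by positivity)
  rw [← hs2] at h4 hk
  have h5 : s ≤ 8 * (‖A‖ * ‖B‖) := by
    have : s * s ≤ (8 * (‖A‖ * ‖B‖)) * s := by nlinarith
    exact le_of_mul_le_mul_right this hs0
  have h6 : s ^ 2 ≤ (8 * (‖A‖ * ‖B‖)) ^ 2 := pow_le_pow_left₀ hs0.le h5 2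
  linarith

end Sys

end Pool.Agent.Q82.Sch
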