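import Pool.Agent.Q82.SchComb

/-!
# Operators between the spans of systems of spread averages
-/

open Set UniformSpace

namespace Pool.Agent.Q82.Sch

/-- A system of successive blocks; the `k`-th block consists of `k + 1` spread averages. -/
structure Sys (n : ℕ) (N : Set ℕ+) where
  J : ℕ → Finset ℕ+
  c : ℕ → ℕ+ → ℕ
  w : ℕ → ℕ+ → ℝ
  q : ℕ → ℕ+
  blk : ∀ k, IsBlock n (k + 1) N (q k) ((1 / 2) ^ (k + 1)) (J k) (c k, w k)
  mono : ∀ k, q k ≤ q (k + 1)
  le_q : ∀ k, ∀ j ∈ J k, j ≤ q (k + 1)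

theorem exists_sys {n : ℕ} (hn : 1 ≤ n) {N : Set ℕ+} (hN : N.Infinite) : Nonempty (Sys n N) := by
  obtain ⟨J, cw, q, _, h1, h2, h3⟩ := exists_seq
    (fun k q J cw => IsBlock n (k + 1) N q ((1 / 2) ^ (k + 1)) J cw)
    (fun k q => exists_block hn (k + 1) (by omega) N hN q _ (by positivity)) 1
  exact ⟨⟨J, fun k => (cw k).1, fun k => (cw k).2, q, h1, h2, h3⟩⟩

namespace Sys

variable {n : ℕ} {N N' N'' : Set ℕ+} (S : Sys n N) (S' : Sys n N') (S'' : Sys n N'')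

theorem q_mono : Monotone S.q := monotone_nat_of_le_succ S.mono

theorem J_mem (k : ℕ) : S.J k ∈ Fam n := (S.blk k).1

theorem J_sub (k : ℕ) : ↑(S.J k) ⊆ N := (S.blk k).2.1

theorem q_lt {k : ℕ} {j : ℕ+} (hj : j ∈ S.J k) : S.q k < j := (S.blk k).2.2.1 j hj

theorem w_nonneg (k : ℕ) (j : ℕ+) : 0 ≤ S.w k j := (S.blk k).2.2.2.1 j

theorem w_eq_zero {k : ℕ} {j : ℕ+} (hj : j ∉ S.J k) : S.w k j = 0 := (S.blk k).2.2.2.2.1 j hj

theorem c_lt {k : ℕ} {j : ℕ+} (hj : j ∈ S.J k) : S.c k j < k + 1 := (S.blk k).2.2.2.2.2.1 j hj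

theorem w_sum {k i : ℕ} (hi : i < k + 1) : ∑ j ∈ S.J k with S.c k j = i, S.w k j = 1 :=
  (S.blk k).2.2.2.2.2.2.1 i hi

theorem w_small {k : ℕ} {E : Finset ℕ+} (hE : E ∈ Fam n) (ha : ∃ a ∈ E, a ≤ S.q k) :
    ∑ j ∈ E, S.w k j ≤ (1 / 2) ^ (k + 1) := (S.blk k).2.2.2.2.2.2.2 E hE ha

theorem J_nonempty (k : ℕ) : (S.J k).Nonempty := by
  by_contra h
  rw [Finset.not_nonempty_iff_eq_empty] at h
  have := S.w_sum (k := k) (i := 0) (by omega)
  rw [h, Finset.filter_empty, Finset.sum_empty] at this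
  exact zero_ne_one this

theorem J_lt {k l : ℕ} (h : k < l) {a b : ℕ+} (ha : a ∈ S.J k) (hb : b ∈ S.J l) : a < b :=
  lt_of_le_of_lt ((S.le_q k a ha).trans (S.q_mono h)) (S.q_lt hb)

theorem J_inj {k l : ℕ} {a : ℕ+} (ha : a ∈ S.J k) (hb : a ∈ S.J l) : k = l := by
  rcases lt_trichotomy k l with h | h | h
  · exact absurd (S.J_lt h ha hb) (lt_irrefl _)
  · exact h
  · exact absurd (S.J_lt h hb ha) (lt_irrefl _)

theorem lt_q (k : ℕ) : k < (S.q k : ℕ) := by
  induction k with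
  | zero => exact (S.q 0).pos
  | succ k ih =>
    obtain ⟨j, hj⟩ := S.J_nonempty k
    have h1 : S.q k < S.q (k + 1) := lt_of_lt_of_le (S.q_lt hj) (S.le_q k j hj)
    have h2 : (S.q k : ℕ) < (S.q (k + 1) : ℕ) := by exact_mod_cast h1
    omega

theorem lt_of_mem {k : ℕ} {j : ℕ+} (hj : j ∈ S.J k) : k < (j : ℕ) := by
  have h2 : (S.q k : ℕ) < (j : ℕ) := by exact_mod_cast S.q_lt hj
  exact (S.lt_q k).trans h2

variable (𝕜 : Type) [RCLike 𝕜]

/-- The `i`-th average of the `k`-th block. -/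
noncomputable def vec (k i : ℕ) : C00 𝕜 n := by
  classical
  exact Finsupp.onFinset (S.J k) (fun l => if S.c k l = i then (S.w k l : 𝕜) else 0) (by
    intro l hl
    by_contra h
    rw [S.w_eq_zero h] at hl
    simp at hl)

theorem vec_coord (k i : ℕ) (l : ℕ+) :
    (S.vec 𝕜 k i).coord l = if S.c k l = i then (S.w k l : 𝕜) else 0 := rfl

/-- The images of the unit vectors. -/
noncomputable def img (j : ℕ+) : C00 𝕜 n := by
  classical
  exact if h : ∃ k, j ∈ S.J k then S'.vec 𝕜 (Nat.find h) (S.c (Nat.find h) j) else 0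

theorem img_of_mem {k : ℕ} {j : ℕ+} (hj : j ∈ S.J k) :
    S.img S' 𝕜 j = S'.vec 𝕜 k (S.c k j) := by
  classical
  have h : ∃ k, j ∈ S.J k := ⟨k, hj⟩
  unfold img
  rw [dif_pos h]
  rw [S.J_inj (Nat.find_spec h) hj]

theorem img_of_not_mem {j : ℕ+} (hj : ∀ k, j ∉ S.J k) : S.img S' 𝕜 j = 0 := by
  classical
  have h : ¬ ∃ k, j ∈ S.J k := by push Not; exact hj
  unfold img
  rw [dif_neg h]

/-- The linear map that sends the averages of one system to those of the other. -/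
noncomputable def lin : C00 𝕜 n →ₗ[𝕜] C00 𝕜 n :=
  (Finsupp.linearCombination 𝕜 (S.img S' 𝕜) : (ℕ+ →₀ 𝕜) →ₗ[𝕜] C00 𝕜 n)

end Sys

/-- The coordinate functionals. -/
noncomputable def coordL (𝕜 : Type) [RCLike 𝕜] (n : ℕ) (l : ℕ+) : C00 𝕜 n →ₗ[𝕜] 𝕜 :=
  (Finsupp.lapply l : (ℕ+ →₀ 𝕜) →ₗ[𝕜] 𝕜)

theorem coordL_apply {𝕜 : Type} [RCLike 𝕜] {n : ℕ} (l : ℕ+) (x : C00 𝕜 n) :
    coordL 𝕜 n l x = x.coord l := rfl

/-- The support. -/
noncomputable def C00.supp {𝕜 : Type} [RCLike 𝕜] {n : ℕ} (x : C00 𝕜 n) : Finset ℕ+ :=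
  (show ℕ+ →₀ 𝕜 from x).support

theorem C00.mem_supp {𝕜 : Type} [RCLike 𝕜] {n : ℕ} {x : C00 𝕜 n} {j : ℕ+} :
    j ∈ x.supp ↔ x.coord j ≠ 0 := Finsupp.mem_support_iff

theorem C00.ext' {𝕜 : Type} [RCLike 𝕜] {n : ℕ} {x y : C00 𝕜 n} (h : ∀ j, x.coord j = y.coord j) :
    x = y := Finsupp.ext h

namespace Sys

variable {n : ℕ} {N N' N'' : Set ℕ+} (S : Sys n N) (S' : Sys n N') (S'' : Sys n N'')
variable (𝕜 : Type) [RCLike 𝕜]

theorem lin_apply (x : C00 𝕜 n) :
    S.lin S' 𝕜 x = ∑ j ∈ x.supp, x.coord j • S.img S' 𝕜 j := by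
  unfold lin
  exact Finsupp.linearCombination_apply 𝕜 _

theorem lin_coord (x : C00 𝕜 n) (l : ℕ+) :
    (S.lin S' 𝕜 x).coord l = ∑ j ∈ x.supp, x.coord j * (S.img S' 𝕜 j).coord l := by
  rw [← coordL_apply, lin_apply, map_sum]
  refine Finset.sum_congr rfl fun j _ => ?_
  rw [map_smul, coordL_apply, smul_eq_mul]

theorem lin_coord' (x : C00 𝕜 n) (l : ℕ+) {F : Finset ℕ+} (hF : x.supp ⊆ F) :
    (S.lin S' 𝕜 x).coord l = ∑ j ∈ F, x.coord j * (S.img S' 𝕜 j).coord l := by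
  rw [lin_coord]
  refine Finset.sum_subset hF fun j _ hj => ?_
  rw [C00.mem_supp, not_not] at hj
  rw [hj, zero_mul]

/-- The composition rule. -/
theorem lin_vec {k i : ℕ} (hi : i < k + 1) : S.lin S' 𝕜 (S.vec 𝕜 k i) = S'.vec 𝕜 k i := by
  classical
  refine C00.ext' fun l => ?_
  have hsupp : (S.vec 𝕜 k i).supp ⊆ S.J k := by
    intro j hj
    by_contra h
    rw [C00.mem_supp, vec_coord, S.w_eq_zero h] at hj
    simp at hj
  rw [lin_coord' S S' 𝕜 _ l hsupp]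
  have h1 : ∀ j ∈ S.J k, (S.vec 𝕜 k i).coord j * (S.img S' 𝕜 j).coord l =
      if S.c k j = i then (S.w k j : 𝕜) * (S'.vec 𝕜 k i).coord l else 0 := by
    intro j hj
    rw [vec_coord, S.img_of_mem S' 𝕜 hj]
    split_ifs with h
    · rw [h]
    · rw [zero_mul]
  rw [Finset.sum_congr rfl h1, ← Finset.sum_filter, ← Finset.sum_mul]
  have h2 : ∑ j ∈ S.J k with S.c k j = i, (S.w k j : 𝕜) = 1 := by
    have := S.w_sum hi
    have h3 : ((∑ j ∈ S.J k with S.c k j = i, S.w k j : ℝ) : 𝕜) = ((1 : ℝ) : 𝕜) := by rw [this]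
    rw [RCLike.ofReal_sum] at h3
    simpa using h3
  rw [h2, one_mul]

theorem lin_lin (x : C00 𝕜 n) :
    S'.lin S'' 𝕜 (S.lin S' 𝕜 x) = S.lin S'' 𝕜 x := by
  rw [lin_apply S S' 𝕜 x, map_sum, lin_apply S S'' 𝕜 x]
  refine Finset.sum_congr rfl fun j _ => ?_
  rw [map_smul]
  congr 1
  by_cases h : ∃ k, j ∈ S.J k
  · obtain ⟨k, hk⟩ := h
    rw [S.img_of_mem S' 𝕜 hk, S.img_of_mem S'' 𝕜 hk, lin_vec S' S'' 𝕜 (S.c_lt hk)]
  · push Not at h
    rw [S.img_of_not_mem S' 𝕜 h, S.img_of_not_mem S'' 𝕜 h, map_zero]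

/-- The averages of a system in `N` are not changed by the restriction to `N`. -/
theorem restr_lin (x : C00 𝕜 n) : restr N' (S.lin S' 𝕜 x) = S.lin S' 𝕜 x := by
  classical
  refine C00.ext' fun l => ?_
  rw [restr_coord]
  split_ifs with h
  · rfl
  · rw [lin_coord]
    symm
    refine Finset.sum_eq_zero fun j _ => ?_
    have : (S.img S' 𝕜 j).coord l = 0 := by
      by_cases hj : ∃ k, j ∈ S.J k
      · obtain ⟨k, hk⟩ := hj
        rw [S.img_of_mem S' 𝕜 hk, vec_coord, S'.w_eq_zero (fun hl => h (S'.J_sub k hl))]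
        simp
      · push Not at hj
        rw [S.img_of_not_mem S' 𝕜 hj]
        rfl
    rw [this, mul_zero]

theorem lin_norm (x : C00 𝕜 n) : schNorm (S.lin S' 𝕜 x) ≤ 2 * schNorm x := by
  classical
  refine schNorm_le fun E hE => ?_
  set β : ℕ+ → ℝ := fun j => ∑ l ∈ E, ‖(S.img S' 𝕜 j).coord l‖ with hβ
  have h1 : ∑ l ∈ E, ‖(S.lin S' 𝕜 x).coord l‖ ≤ ∑ j ∈ x.supp, ‖x.coord j‖ * β j := by
    calc ∑ l ∈ E, ‖(S.lin S' 𝕜 x).coord l‖
        ≤ ∑ l ∈ E, ∑ j ∈ x.supp, ‖x.coord j‖ * ‖(S.img S' 𝕜 j).coord l‖ := by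
          refine Finset.sum_le_sum fun l _ => ?_
          rw [lin_coord]
          refine (norm_sum_le _ _).trans (Finset.sum_le_sum fun j _ => ?_)
          rw [norm_mul]
      _ = ∑ j ∈ x.supp, ‖x.coord j‖ * β j := by
          rw [Finset.sum_comm]
          refine Finset.sum_congr rfl fun j _ => ?_
          rw [hβ, Finset.mul_sum]
  -- the value of `β` on the `k`-th block
  have hβk : ∀ k, ∀ j ∈ S.J k, β j = ∑ l ∈ E with S'.c k l = S.c k j, S'.w k l := by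
    intro k j hj
    rw [hβ]
    dsimp only
    rw [S.img_of_mem S' 𝕜 hj, Finset.sum_filter]
    refine Finset.sum_congr rfl fun l _ => ?_
    rw [vec_coord]
    split_ifs
    · rw [RCLike.norm_ofReal, abs_of_nonneg (S'.w_nonneg k l)]
    · rw [norm_zero]
  have hβ1 : ∀ k, ∀ j ∈ S.J k, β j ≤ 1 := by
    intro k j hj
    rw [hβk k j hj, ← S'.w_sum (S.c_lt hj)]
    calc ∑ l ∈ E with S'.c k l = S.c k j, S'.w k l
        = ∑ l ∈ (E ∩ S'.J k) with S'.c k l = S.c k j, S'.w k l := by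
          symm
          refine Finset.sum_subset ?_ fun l hl hl' => ?_
          · intro l hl
            rw [Finset.mem_filter, Finset.mem_inter] at hl
            rw [Finset.mem_filter]
            exact ⟨hl.1.1, hl.2⟩
          · refine S'.w_eq_zero fun h => hl' ?_
            rw [Finset.mem_filter] at hl
            rw [Finset.mem_filter, Finset.mem_inter]
            exact ⟨⟨hl.1, h⟩, hl.2⟩
      _ ≤ ∑ l ∈ S'.J k with S'.c k l = S.c k j, S'.w k l := by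
          refine Finset.sum_le_sum_of_subset_of_nonneg ?_ fun l _ _ => S'.w_nonneg k l
          intro l hl
          rw [Finset.mem_filter, Finset.mem_inter] at hl
          rw [Finset.mem_filter]
          exact ⟨hl.1.2, hl.2⟩
  have hβ0 : ∀ k, (∀ a ∈ E, a ∉ S'.J k) → ∀ j ∈ S.J k, β j = 0 := by
    intro k hk j hj
    rw [hβk k j hj]
    refine Finset.sum_eq_zero fun l hl => S'.w_eq_zero (hk l (Finset.mem_filter.1 hl).1)
  have hβs : ∀ k, (∃ a ∈ E, a ≤ S'.q k) → ∀ j ∈ S.J k, β j ≤ (1 / 2) ^ (k + 1) := by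
    intro k hk j hj
    rw [hβk k j hj]
    refine le_trans ?_ (S'.w_small hE hk)
    exact Finset.sum_le_sum_of_subset_of_nonneg (Finset.filter_subset _ _)
      fun l _ _ => S'.w_nonneg k l
  -- the first block that meets `E`
  obtain ⟨k₀, hk₀⟩ : ∃ k₀ : ℕ, ∀ k, ∀ j ∈ S.J k,
      β j ≤ (if k = k₀ then 1 else 0) + (1 / 2) ^ (k + 1) := by
    by_cases hex : ∃ k, ∃ a ∈ E, a ∈ S'.J k
    · refine ⟨Nat.find hex, fun k j hj => ?_⟩
      rcases lt_trichotomy k (Nat.find hex) with h | h | h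
      · have h0 := hβ0 k (fun a ha hak => Nat.find_min hex h ⟨a, ha, hak⟩) j hj
        rw [h0, if_neg (ne_of_lt h)]
        positivity
      · rw [if_pos h]
        have := hβ1 k j hj
        have h2 : (0 : ℝ) ≤ (1 / 2) ^ (k + 1) := by positivity
        linarith
      · rw [if_neg (ne_of_gt h), zero_add]
        obtain ⟨a, haE, ha⟩ := Nat.find_spec hex
        exact hβs k ⟨a, haE, (S'.le_q _ a ha).trans (S'.q_mono h)⟩ j hj
    · push Not at hex
      refine ⟨0, fun k j hj => ?_⟩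
      rw [hβ0 k (fun a ha => hex k a ha) j hj]
      split_ifs <;> positivity
  set γ : ℕ → ℝ := fun k => (if k = k₀ then 1 else 0) + (1 / 2) ^ (k + 1) with hγ
  have hγ0 : ∀ k, 0 ≤ γ k := by
    intro k
    rw [hγ]
    dsimp only
    split_ifs <;> positivity
  obtain ⟨K, hK⟩ : ∃ K : ℕ, ∀ j ∈ x.supp, (j : ℕ) < K :=
    ⟨(x.supp.sup fun j => (j : ℕ)) + 1, fun j hj =>
      Nat.lt_succ_of_le (Finset.le_sup (f := fun j : ℕ+ => (j : ℕ)) hj)⟩
  have h2 : ∀ j ∈ x.supp, ‖x.coord j‖ * β j ≤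
      ∑ k ∈ Finset.range K, if j ∈ S.J k then ‖x.coord j‖ * γ k else 0 := by
    intro j hj
    by_cases h : ∃ k, j ∈ S.J k
    · obtain ⟨k, hk⟩ := h
      have hkK : k ∈ Finset.range K := Finset.mem_range.2 ((S.lt_of_mem hk).trans (hK j hj))
      rw [Finset.sum_eq_single_of_mem k hkK (fun l _ hl => if_neg fun h => hl (S.J_inj h hk)),
        if_pos hk]
      exact mul_le_mul_of_nonneg_left (hk₀ k j hk) (norm_nonneg _)
    · push Not at h
      have hb : β j = 0 := by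
        rw [hβ]
        dsimp only
        rw [S.img_of_not_mem S' 𝕜 h]
        refine Finset.sum_eq_zero fun l _ => ?_
        show ‖(0 : 𝕜)‖ = 0
        exact norm_zero
      rw [hb, mul_zero]
      exact Finset.sum_nonneg fun k _ => by
        split_ifs
        · exact mul_nonneg (norm_nonneg _) (hγ0 k)
        · exact le_rfl
  have h3 : ∀ k, ∑ j ∈ x.supp, (if j ∈ S.J k then ‖x.coord j‖ * γ k else 0) ≤ schNorm x * γ k := by
    intro k
    rw [← Finset.sum_filter, ← Finset.sum_mul]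
    refine mul_le_mul_of_nonneg_right ?_ (hγ0 k)
    refine le_trans ?_ (sum_le_schNorm x (S.J_mem k))
    refine Finset.sum_le_sum_of_subset_of_nonneg ?_ fun _ _ _ => norm_nonneg _
    intro j hj
    exact (Finset.mem_filter.1 hj).2
  have h4 : ∑ k ∈ Finset.range K, γ k ≤ 2 := by
    rw [hγ, Finset.sum_add_distrib]
    have e1 : ∑ k ∈ Finset.range K, (if k = k₀ then (1 : ℝ) else 0) ≤ 1 := by
      rw [Finset.sum_ite_eq' (Finset.range K) k₀]
      split_ifs <;> norm_num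
    have e2 : ∑ k ∈ Finset.range K, ((1 : ℝ) / 2) ^ (k + 1) ≤ 1 := by
      have e3 : ∀ K : ℕ, ∑ k ∈ Finset.range K, ((1 : ℝ) / 2) ^ (k + 1) = 1 - (1 / 2) ^ K := by
        intro K
        induction K with
        | zero => simp
        | succ K ih => rw [Finset.sum_range_succ, ih]; ring
      rw [e3]
      have : (0 : ℝ) ≤ (1 / 2) ^ K := by positivity
      linarith
    linarith
  calc ∑ l ∈ E, ‖(S.lin S' 𝕜 x).coord l‖ ≤ ∑ j ∈ x.supp, ‖x.coord j‖ * β j := h1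
    _ ≤ ∑ j ∈ x.supp, ∑ k ∈ Finset.range K, (if j ∈ S.J k then ‖x.coord j‖ * γ k else 0) :=
        Finset.sum_le_sum h2
    _ = ∑ k ∈ Finset.range K, ∑ j ∈ x.supp, (if j ∈ S.J k then ‖x.coord j‖ * γ k else 0) :=
        Finset.sum_comm
    _ ≤ ∑ k ∈ Finset.range K, schNorm x * γ k := Finset.sum_le_sum fun k _ => h3 k
    _ = schNorm x * ∑ k ∈ Finset.range K, γ k := (Finset.mul_sum _ _ _).symm
    _ ≤ schNorm x * 2 := mul_le_mul_of_nonneg_left h4 (schNorm_nonneg x)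
    _ = 2 * schNorm x := mul_comm _ _

/-- The bounded operator on the finitely supported sequences. -/
noncomputable def linL : C00 𝕜 n →L[𝕜] C00 𝕜 n :=
  LinearMap.mkContinuous (S.lin S' 𝕜) 2 (fun x => S.lin_norm S' 𝕜 x)

/-- The operator on the Schreier space that sends the averages of one system to those of the
other. -/
noncomputable def op : Op 𝕜 n := (S.linL S' 𝕜).completion

theorem op_coe (x : C00 𝕜 n) : S.op S' 𝕜 (x : Space 𝕜 n) = ((S.lin S' 𝕜 x : C00 𝕜 n) : Space 𝕜 n) := by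
  unfold op
  rw [ContinuousLinearMap.completion_apply_coe]
  rfl

theorem op_comp : (S'.op S'' 𝕜).comp (S.op S' 𝕜) = S.op S'' 𝕜 := by
  ext x
  induction x using Completion.induction_on with
  | hp => exact isClosed_eq (by fun_prop) (by fun_prop)
  | ih x =>
    rw [ContinuousLinearMap.comp_apply, op_coe, op_coe, op_coe, lin_lin]

theorem proj_op : (proj N').comp (S.op S' 𝕜) = S.op S' 𝕜 := by
  ext x
  induction x using Completion.induction_on with
  | hp => exact isClosed_eq (by fun_prop) (by fun_prop)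
  | ih x =>
    rw [ContinuousLinearMap.comp_apply, op_coe]
    unfold proj
    rw [ContinuousLinearMap.completion_apply_coe]
    congr 1
    exact S.restr_lin S' 𝕜 x

end Sys

end Pool.Agent.Q82.Sch
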