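import Pool.Agent.Q82.SchMain
import Pool.Agent.H758R2.Groth

/-!
# A strictly singular operator: the operator
-/

open Set UniformSpace

namespace Pool.Agent.Q82.Sch

/-! ### The Schreier family of order one -/

theorem fam_succ (n : ℕ) : Fam n ⊆ Fam (n + 1) := by
  intro F hF
  by_cases h : F.Nonempty
  · refine ⟨1, fun _ => F, fun _ => hF, fun _ => h, ?_, ?_, ?_⟩
    · intro i j hij
      exact absurd hij (by simp [Subsingleton.elim i j])
    · intro _ a _
      exact a.pos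
    · ext a; simp
  · rw [Finset.not_nonempty_iff_eq_empty.1 h]
    exact empty_mem_fam _

theorem fam_one {F : Finset ℕ+} (h : ∀ a ∈ F, F.card ≤ (a : ℕ)) : F ∈ Fam 1 := by
  refine ⟨F.card, fun i => {F.orderEmbOfFin rfl i}, fun i => ?_,
    fun i => Finset.singleton_nonempty _, ?_, ?_, ?_⟩
  · simp [Fam]
  · intro i j hij a ha b hb
    rw [Finset.mem_singleton] at ha hb
    rw [ha, hb]
    exact (F.orderEmbOfFin rfl).strictMono hij
  · intro i a ha
    rw [Finset.mem_singleton] at ha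
    rw [ha]
    exact h _ (Finset.orderEmbOfFin_mem _ _ _)
  · ext a
    simp only [Finset.mem_biUnion, Finset.mem_univ, Finset.mem_singleton, true_and]
    have hr := Finset.range_orderEmbOfFin F rfl
    constructor
    · intro ha
      have : a ∈ Set.range (F.orderEmbOfFin rfl) := by rw [hr]; exact ha
      obtain ⟨i, hi⟩ := this
      exact ⟨i, hi.symm⟩
    · rintro ⟨i, rfl⟩
      exact Finset.orderEmbOfFin_mem _ _ _

theorem fam_of_card {n : ℕ} (hn : 1 ≤ n) {F : Finset ℕ+} (h : ∀ a ∈ F, F.card ≤ (a : ℕ)) :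
    F ∈ Fam n := by
  induction n with
  | zero => omega
  | succ n ih =>
    by_cases hn1 : 1 ≤ n
    · exact fam_succ n (ih hn1)
    · have : n = 0 := by omega
      subst this
      exact fam_one h

/-! ### The `ℓ₂` norm -/

variable {𝕜 : Type} [RCLike 𝕜] {n : ℕ}

theorem card_le {x : C00 𝕜 n} (hn : 1 ≤ n) {t : ℝ} (ht : 0 < t) (G : Finset ℕ+)
    (hG : ∀ j ∈ G, t < ‖x.coord j‖) : (G.card : ℝ) * t ≤ 4 * schNorm x := by
  classical
  by_cases hne : G.Nonempty
  · obtain ⟨j₀, hj₀⟩ := hne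
    have h0 : t < schNorm x := by
      have := sum_le_schNorm x (singleton_mem_fam n j₀)
      rw [Finset.sum_singleton] at this
      exact lt_of_lt_of_le (hG j₀ hj₀) this
    set p := ⌈schNorm x / t⌉₊ with hp
    have hp1 : (p : ℝ) < schNorm x / t + 1 :=
      Nat.ceil_lt_add_one (div_nonneg (schNorm_nonneg x) ht.le)
    have hp2 : schNorm x / t ≤ p := Nat.le_ceil _
    have hp3 : (p : ℝ) * t ≤ 2 * schNorm x := by
      have h1 : (p : ℝ) * t < (schNorm x / t + 1) * t := mul_lt_mul_of_pos_right hp1 ht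
      have h2 : (schNorm x / t + 1) * t = schNorm x + t := by field_simp
      linarith
    -- the elements of `G` that are at least `p`
    have hsmall : (G.filter (fun j : ℕ+ => p ≤ (j : ℕ))).card ≤ p := by
      by_contra hcon
      push Not at hcon
      obtain ⟨F, hF, hFc⟩ := Finset.exists_subset_card_eq hcon.le
      have hFam : F ∈ Fam n := fam_of_card hn (fun a ha => by
        rw [hFc]; exact (Finset.mem_filter.1 (hF ha)).2)
      have h1 := sum_le_schNorm x hFam
      have hp0 : F.Nonempty := by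
        rw [← Finset.card_pos, hFc]
        exact Nat.ceil_pos.2 (div_pos (ht.trans h0) ht)
      have h2 : ∑ _j ∈ F, t < ∑ j ∈ F, ‖x.coord j‖ :=
        Finset.sum_lt_sum_of_nonempty hp0 fun j hj => hG j (Finset.mem_filter.1 (hF hj)).1
      rw [Finset.sum_const, nsmul_eq_mul, hFc] at h2
      have h3 : schNorm x ≤ p * t := by
        rw [div_le_iff₀ ht] at hp2; exact hp2
      linarith
    have hlow : (G.filter (fun j : ℕ+ => ¬ p ≤ (j : ℕ))).card ≤ p := by
      have h1 : ((G.filter (fun j : ℕ+ => ¬ p ≤ (j : ℕ))).image (fun j : ℕ+ => (j : ℕ))) ⊆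
          Finset.range p := by
        intro a ha
        obtain ⟨j, hj, rfl⟩ := Finset.mem_image.1 ha
        exact Finset.mem_range.2 (not_le.1 (Finset.mem_filter.1 hj).2)
      have h2 := Finset.card_le_card h1
      rwa [Finset.card_image_of_injective _ PNat.coe_injective, Finset.card_range] at h2
    have hcard : G.card ≤ 2 * p := by
      have := Finset.card_filter_add_card_filter_not (s := G) (fun j : ℕ+ => p ≤ (j : ℕ))
      omega
    have hcard' : (G.card : ℝ) ≤ 2 * p := by exact_mod_cast hcard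
    calc (G.card : ℝ) * t ≤ (2 * p) * t := mul_le_mul_of_nonneg_right hcard' ht.le
      _ = 2 * (p * t) := by ring
      _ ≤ 4 * schNorm x := by linarith
  · rw [Finset.not_nonempty_iff_eq_empty.1 hne, Finset.card_empty]
    have := schNorm_nonneg x
    simpa using this

theorem sum_sq_le {x : C00 𝕜 n} (hn : 1 ≤ n) {s : ℝ} (hs : ∀ j, ‖x.coord j‖ ≤ s)
    (F : Finset ℕ+) : ∑ j ∈ F, ‖x.coord j‖ ^ 2 ≤ 16 * s * schNorm x := by
  classical
  have hs0 : 0 ≤ s := (norm_nonneg _).trans (hs 1)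
  rcases hs0.eq_or_lt with h0 | hpos
  · have : ∀ j, ‖x.coord j‖ = 0 := fun j => le_antisymm (h0 ▸ hs j) (norm_nonneg _)
    rw [← h0]
    simp [this]
  -- restrict to the support
  set G := F.filter (fun j => x.coord j ≠ 0) with hG
  have hFG : ∑ j ∈ F, ‖x.coord j‖ ^ 2 = ∑ j ∈ G, ‖x.coord j‖ ^ 2 := by
    rw [hG, Finset.sum_filter]
    refine Finset.sum_congr rfl fun j _ => ?_
    split_ifs with h
    · rfl
    · rw [not_not] at h
      rw [h, norm_zero]; norm_num
  rw [hFG]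
  -- a level below all values
  obtain ⟨N, hN⟩ : ∃ N : ℕ, ∀ j ∈ G, (1 / 2 : ℝ) ^ N * s < ‖x.coord j‖ := by
    have h1 : ∀ j : ℕ+, x.coord j ≠ 0 → ∃ N : ℕ, (1 / 2 : ℝ) ^ N * s < ‖x.coord j‖ := by
      intro j hj
      obtain ⟨N, hN⟩ := exists_pow_lt_of_lt_one (x := ‖x.coord j‖ / s) (y := (1 / 2 : ℝ))
        (div_pos (norm_pos_iff.2 hj) hpos) (by norm_num)
      exact ⟨N, by rwa [lt_div_iff₀ hpos] at hN⟩
    choose! f hf using h1
    refine ⟨G.sup f, fun j hj => ?_⟩
    have h2 := hf j (Finset.mem_filter.1 hj).2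
    refine lt_of_le_of_lt ?_ h2
    refine mul_le_mul_of_nonneg_right ?_ hpos.le
    exact pow_le_pow_of_le_one (by norm_num) (by norm_num) (Finset.le_sup hj)
  have hterm : ∀ j ∈ G, ‖x.coord j‖ ^ 2 ≤
      ∑ i ∈ Finset.range N, if (1 / 2 : ℝ) ^ (i + 1) * s < ‖x.coord j‖ then
        ((1 / 2 : ℝ) ^ i * s) ^ 2 else 0 := by
    intro j hj
    -- the first level below the value
    have hex : ∃ i : ℕ, (1 / 2 : ℝ) ^ i * s < ‖x.coord j‖ := ⟨N, hN j hj⟩
    set i₁ := Nat.find hex with hi₁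
    have hspec : (1 / 2 : ℝ) ^ i₁ * s < ‖x.coord j‖ := Nat.find_spec hex
    have hi1 : i₁ ≠ 0 := by
      intro h
      rw [h] at hspec
      simp only [pow_zero, one_mul] at hspec
      exact absurd (hs j) (not_le.2 hspec)
    obtain ⟨i, hi⟩ := Nat.exists_eq_succ_of_ne_zero hi1
    have hmin : ‖x.coord j‖ ≤ (1 / 2 : ℝ) ^ i * s := by
      have := Nat.find_min hex (m := i) (by rw [← hi₁, hi]; exact Nat.lt_succ_self i)
      exact not_lt.1 this
    have hiN : i ∈ Finset.range N := by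
      rw [Finset.mem_range]
      have : i₁ ≤ N := Nat.find_min' hex (hN j hj)
      omega
    rw [hi] at hspec
    calc ‖x.coord j‖ ^ 2 ≤ ((1 / 2 : ℝ) ^ i * s) ^ 2 :=
          pow_le_pow_left₀ (norm_nonneg _) hmin 2
      _ = if (1 / 2 : ℝ) ^ (i + 1) * s < ‖x.coord j‖ then ((1 / 2 : ℝ) ^ i * s) ^ 2 else 0 := by
          rw [if_pos hspec]
      _ ≤ _ := Finset.single_le_sum (f := fun i => if (1 / 2 : ℝ) ^ (i + 1) * s < ‖x.coord j‖ then
          ((1 / 2 : ℝ) ^ i * s) ^ 2 else 0) (fun i _ => by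
            split_ifs
            · positivity
            · exact le_rfl) hiN
  calc ∑ j ∈ G, ‖x.coord j‖ ^ 2
      ≤ ∑ j ∈ G, ∑ i ∈ Finset.range N, (if (1 / 2 : ℝ) ^ (i + 1) * s < ‖x.coord j‖ then
        ((1 / 2 : ℝ) ^ i * s) ^ 2 else 0) := Finset.sum_le_sum hterm
    _ = ∑ i ∈ Finset.range N, ((G.filter (fun j => (1 / 2 : ℝ) ^ (i + 1) * s <
        ‖x.coord j‖)).card : ℝ) * ((1 / 2 : ℝ) ^ i * s) ^ 2 := by
        rw [Finset.sum_comm]
        refine Finset.sum_congr rfl fun i _ => ?_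
        rw [← Finset.sum_filter, Finset.sum_const, nsmul_eq_mul]
    _ ≤ ∑ i ∈ Finset.range N, 8 * s * schNorm x * (1 / 2 : ℝ) ^ i := by
        refine Finset.sum_le_sum fun i _ => ?_
        have h1 := card_le (x := x) hn (t := (1 / 2 : ℝ) ^ (i + 1) * s) (by positivity)
          (G.filter (fun j => (1 / 2 : ℝ) ^ (i + 1) * s < ‖x.coord j‖))
          (fun j hj => (Finset.mem_filter.1 hj).2)
        set c := ((G.filter (fun j => (1 / 2 : ℝ) ^ (i + 1) * s < ‖x.coord j‖)).card : ℝ) with hc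
        calc c * ((1 / 2 : ℝ) ^ i * s) ^ 2
            = (c * ((1 / 2 : ℝ) ^ (i + 1) * s)) * (2 * ((1 / 2 : ℝ) ^ i * s)) := by
              rw [pow_succ]; ring
          _ ≤ (4 * schNorm x) * (2 * ((1 / 2 : ℝ) ^ i * s)) :=
              mul_le_mul_of_nonneg_right h1 (by positivity)
          _ = 8 * s * schNorm x * (1 / 2 : ℝ) ^ i := by ring
    _ = 8 * s * schNorm x * ∑ i ∈ Finset.range N, (1 / 2 : ℝ) ^ i := (Finset.mul_sum _ _ _).symm
    _ ≤ 8 * s * schNorm x * 2 := by
        refine mul_le_mul_of_nonneg_left ?_ (by have := schNorm_nonneg x; positivity)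
        have : ∀ N : ℕ, ∑ i ∈ Finset.range N, (1 / 2 : ℝ) ^ i = 2 - 2 * (1 / 2) ^ N := by
          intro N
          induction N with
          | zero => simp
          | succ N ih => rw [Finset.sum_range_succ, ih]; ring
        rw [this]
        have : (0 : ℝ) ≤ (1 / 2) ^ N := by positivity
        linarith
    _ = 16 * s * schNorm x := by ring

/-! ### Sums of averages -/

namespace Sys

variable {N : Set ℕ+} (S : Sys n N)

/-- A set of `S_n` gives a small weight to the averages of all blocks but one. -/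
theorem exists_first {E : Finset ℕ+} (hE : E ∈ Fam n) : ∃ k₀ : ℕ, ∀ k i, i < k + 1 →
    ∑ l ∈ E, ‖(S.vec 𝕜 k i).coord l‖ ≤ (if k = k₀ then 1 else 0) + (1 / 2) ^ (k + 1) := by
  classical
  have hval : ∀ k i, ∑ l ∈ E, ‖(S.vec 𝕜 k i).coord l‖ = ∑ l ∈ E with S.c k l = i, S.w k l := by
    intro k i
    rw [Finset.sum_filter]
    refine Finset.sum_congr rfl fun l _ => ?_
    rw [vec_coord]
    split_ifs
    · rw [RCLike.norm_ofReal, abs_of_nonneg (S.w_nonneg k l)]
    · rw [norm_zero]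
  have hle : ∀ k i, ∑ l ∈ E with S.c k l = i, S.w k l ≤ ∑ l ∈ E, S.w k l := fun k i =>
    Finset.sum_le_sum_of_subset_of_nonneg (Finset.filter_subset _ _) fun l _ _ => S.w_nonneg k l
  have hone : ∀ k i, i < k + 1 → ∑ l ∈ E with S.c k l = i, S.w k l ≤ 1 := by
    intro k i hi
    rw [← S.w_sum hi]
    calc ∑ l ∈ E with S.c k l = i, S.w k l
        = ∑ l ∈ (E ∩ S.J k) with S.c k l = i, S.w k l := by
          symm
          refine Finset.sum_subset ?_ fun l hl hl' => ?_
          · intro l hl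
            rw [Finset.mem_filter, Finset.mem_inter] at hl
            rw [Finset.mem_filter]
            exact ⟨hl.1.1, hl.2⟩
          · refine S.w_eq_zero fun h => hl' ?_
            rw [Finset.mem_filter] at hl
            rw [Finset.mem_filter, Finset.mem_inter]
            exact ⟨⟨hl.1, h⟩, hl.2⟩
      _ ≤ ∑ l ∈ S.J k with S.c k l = i, S.w k l := by
          refine Finset.sum_le_sum_of_subset_of_nonneg ?_ fun l _ _ => S.w_nonneg k l
          intro l hl
          rw [Finset.mem_filter, Finset.mem_inter] at hl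
          rw [Finset.mem_filter]
          exact ⟨hl.1.2, hl.2⟩
  by_cases hex : ∃ k, ∃ a ∈ E, a ∈ S.J k
  · refine ⟨Nat.find hex, fun k i hi => ?_⟩
    rw [hval]
    rcases lt_trichotomy k (Nat.find hex) with h | h | h
    · have h0 : ∑ l ∈ E with S.c k l = i, S.w k l = 0 := by
        refine Finset.sum_eq_zero fun l hl => S.w_eq_zero fun hl' => ?_
        exact Nat.find_min hex h ⟨l, (Finset.mem_filter.1 hl).1, hl'⟩
      rw [h0, if_neg (ne_of_lt h)]
      positivity
    · rw [if_pos h]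
      have := hone k i hi
      have h2 : (0 : ℝ) ≤ (1 / 2) ^ (k + 1) := by positivity
      linarith
    · rw [if_neg (ne_of_gt h), zero_add]
      obtain ⟨a, haE, ha⟩ := Nat.find_spec hex
      exact (hle k i).trans (S.w_small hE ⟨a, haE, (S.le_q _ a ha).trans (S.q_mono h)⟩)
  · push Not at hex
    refine ⟨0, fun k i hi => ?_⟩
    rw [hval, Finset.sum_eq_zero]
    · split_ifs <;> positivity
    · intro l hl
      exact S.w_eq_zero (hex k l (Finset.mem_filter.1 hl).1)

theorem sum_half_le (F : Finset ℕ) (κ : ℕ → ℕ) (hκ : StrictMono κ) (k₀ : ℕ) :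
    ∑ m ∈ F, (((if κ m = k₀ then (1 : ℝ) else 0) + (1 / 2) ^ (κ m + 1))) ≤ 2 := by
  classical
  rw [Finset.sum_add_distrib]
  have e1 : ∑ m ∈ F, (if κ m = k₀ then (1 : ℝ) else 0) ≤ 1 := by
    rw [← Finset.sum_filter, Finset.sum_const, nsmul_eq_mul, mul_one]
    have : (F.filter (fun m => κ m = k₀)).card ≤ 1 := by
      rw [Finset.card_le_one]
      intro a ha b hb
      exact hκ.injective ((Finset.mem_filter.1 ha).2.trans (Finset.mem_filter.1 hb).2.symm)
    exact_mod_cast this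
  have e2 : ∑ m ∈ F, ((1 : ℝ) / 2) ^ (κ m + 1) ≤ 1 := by
    have e3 : ∀ K : ℕ, ∑ k ∈ Finset.range K, ((1 : ℝ) / 2) ^ (k + 1) = 1 - (1 / 2) ^ K := by
      intro K
      induction K with
      | zero => simp
      | succ K ih => rw [Finset.sum_range_succ, ih]; ring
    calc ∑ m ∈ F, ((1 : ℝ) / 2) ^ (κ m + 1) ≤ ∑ m ∈ F, ((1 : ℝ) / 2) ^ (m + 1) := by
          refine Finset.sum_le_sum fun m _ => ?_
          exact pow_le_pow_of_le_one (by norm_num) (by norm_num)
            (Nat.succ_le_succ (hκ.id_le m))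
      _ ≤ ∑ m ∈ Finset.range (F.sup id + 1), ((1 : ℝ) / 2) ^ (m + 1) := by
          refine Finset.sum_le_sum_of_subset_of_nonneg ?_ fun _ _ _ => by positivity
          intro m hm
          exact Finset.mem_range.2 (Nat.lt_succ_of_le (Finset.le_sup (f := id) hm))
      _ ≤ 1 := by
          rw [e3]
          have : (0 : ℝ) ≤ (1 / 2) ^ (F.sup id + 1) := by positivity
          linarith
  linarith

/-- The norm of a combination of averages in separate blocks. -/
theorem synth_norm (κ : ℕ → ℕ) (hκ : StrictMono κ) {α : Type} (P : ℕ → Finset α)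
    (enc : ℕ → α → ℕ) (henc : ∀ m, ∀ a ∈ P m, enc m a < κ m + 1) (y : ℕ → α → 𝕜) (M : Finset ℕ)
    {C : ℝ} (hC0 : 0 ≤ C) (hC : ∀ m ∈ M, ∑ a ∈ P m, ‖y m a‖ ≤ C) :
    schNorm (∑ m ∈ M, ∑ a ∈ P m, y m a • S.vec 𝕜 (κ m) (enc m a)) ≤ 2 * C := by
  classical
  refine schNorm_le fun E hE => ?_
  obtain ⟨k₀, hk₀⟩ := S.exists_first (𝕜 := 𝕜) hE
  calc ∑ l ∈ E, ‖(∑ m ∈ M, ∑ a ∈ P m, y m a • S.vec 𝕜 (κ m) (enc m a)).coord l‖
      ≤ ∑ l ∈ E, ∑ m ∈ M, ∑ a ∈ P m, ‖y m a‖ * ‖(S.vec 𝕜 (κ m) (enc m a)).coord l‖ := by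
        refine Finset.sum_le_sum fun l _ => ?_
        rw [← coordL_apply, map_sum]
        refine (norm_sum_le _ _).trans (Finset.sum_le_sum fun m _ => ?_)
        rw [map_sum]
        refine (norm_sum_le _ _).trans (Finset.sum_le_sum fun a _ => ?_)
        rw [map_smul, coordL_apply, smul_eq_mul, norm_mul]
    _ = ∑ m ∈ M, ∑ a ∈ P m, ‖y m a‖ * ∑ l ∈ E, ‖(S.vec 𝕜 (κ m) (enc m a)).coord l‖ := by
        rw [Finset.sum_comm]
        refine Finset.sum_congr rfl fun m _ => ?_
        rw [Finset.sum_comm]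
        refine Finset.sum_congr rfl fun a _ => ?_
        rw [Finset.mul_sum]
    _ ≤ ∑ m ∈ M, ∑ a ∈ P m, ‖y m a‖ * ((if κ m = k₀ then 1 else 0) + (1 / 2) ^ (κ m + 1)) := by
        refine Finset.sum_le_sum fun m _ => Finset.sum_le_sum fun a ha => ?_
        exact mul_le_mul_of_nonneg_left (hk₀ _ _ (henc m a ha)) (norm_nonneg _)
    _ = ∑ m ∈ M, (∑ a ∈ P m, ‖y m a‖) * ((if κ m = k₀ then 1 else 0) + (1 / 2) ^ (κ m + 1)) := by
        refine Finset.sum_congr rfl fun m _ => ?_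
        rw [Finset.sum_mul]
    _ ≤ ∑ m ∈ M, C * ((if κ m = k₀ then 1 else 0) + (1 / 2) ^ (κ m + 1)) := by
        refine Finset.sum_le_sum fun m hm => mul_le_mul_of_nonneg_right (hC m hm) ?_
        split_ifs <;> positivity
    _ = C * ∑ m ∈ M, ((if κ m = k₀ then (1 : ℝ) else 0) + (1 / 2) ^ (κ m + 1)) :=
        (Finset.mul_sum _ _ _).symm
    _ ≤ C * 2 := mul_le_mul_of_nonneg_left (sum_half_le M κ hκ k₀) hC0
    _ = 2 * C := mul_comm _ _

end Sys

/-! ### Long sets -/

/-- Disjoint finite sets with probability weights that are small on all sets of `S_n`. -/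
structure LongSets (n : ℕ) where
  I : ℕ → Finset ℕ+
  lam : ℕ → ℕ+ → ℝ
  disj : ∀ m m' j, j ∈ I m → j ∈ I m' → m = m'
  nonneg : ∀ m j, 0 ≤ lam m j
  supp : ∀ m j, j ∉ I m → lam m j = 0
  sum_one : ∀ m, 1 ≤ m → ∑ j ∈ I m, lam m j = 1
  small : ∀ m, ∀ E ∈ Fam n, ∑ j ∈ E, lam m j ≤ 2 / m

theorem exists_longSets {n : ℕ} (hn : 1 ≤ n) : Nonempty (LongSets n) := by
  classical
  obtain ⟨S⟩ := exists_sys hn (N := (univ : Set ℕ+)) infinite_univ
  have hKdisj : ∀ m m' k : ℕ, k ∈ Finset.Ico (m ^ 2) (m ^ 2 + m) →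
      k ∈ Finset.Ico (m' ^ 2) (m' ^ 2 + m') → m = m' := by
    intro m m' k h h'
    rw [Finset.mem_Ico] at h h'
    rcases lt_trichotomy m m' with hlt | heq | hlt
    · exfalso
      have : (m + 1) ^ 2 ≤ m' ^ 2 := Nat.pow_le_pow_left hlt 2
      nlinarith
    · exact heq
    · exfalso
      have : (m' + 1) ^ 2 ≤ m ^ 2 := Nat.pow_le_pow_left hlt 2
      nlinarith
  have hmem : ∀ m j, j ∈ (Finset.Ico (m ^ 2) (m ^ 2 + m)).biUnion S.J ↔
      ∃ k ∈ Finset.Ico (m ^ 2) (m ^ 2 + m), j ∈ S.J k := by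
    intro m j; rw [Finset.mem_biUnion]
  refine ⟨⟨fun m => (Finset.Ico (m ^ 2) (m ^ 2 + m)).biUnion S.J, fun m j =>
    (∑ k ∈ Finset.Ico (m ^ 2) (m ^ 2 + m), if S.c k j = 0 then S.w k j else 0) / m,
    ?_, ?_, ?_, ?_, ?_⟩⟩
  · intro m m' j hj hj'
    obtain ⟨k, hk, hkj⟩ := (hmem m j).1 hj
    obtain ⟨k', hk', hkj'⟩ := (hmem m' j).1 hj'
    exact hKdisj m m' k hk (S.J_inj hkj' hkj ▸ hk')
  · intro m j
    refine div_nonneg (Finset.sum_nonneg fun k _ => ?_) (Nat.cast_nonneg _)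
    split_ifs
    · exact S.w_nonneg k j
    · exact le_rfl
  · intro m j hj
    rw [Finset.sum_eq_zero, zero_div]
    intro k hk
    have : S.w k j = 0 := S.w_eq_zero fun h => hj ((hmem m j).2 ⟨k, hk, h⟩)
    rw [this]
    split_ifs <;> rfl
  · intro m hm
    have hm0 : (m : ℝ) ≠ 0 := by positivity
    rw [← Finset.sum_div, Finset.sum_comm]
    have h1 : ∀ k ∈ Finset.Ico (m ^ 2) (m ^ 2 + m),
        ∑ j ∈ (Finset.Ico (m ^ 2) (m ^ 2 + m)).biUnion S.J,
          (if S.c k j = 0 then S.w k j else 0) = 1 := by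
      intro k hk
      have h2 := S.w_sum (k := k) (i := 0) (by omega)
      rw [Finset.sum_filter] at h2
      rw [← h2]
      symm
      refine Finset.sum_subset ?_ fun j _ hj => ?_
      · intro j hj
        exact (hmem m j).2 ⟨k, hk, hj⟩
      · rw [S.w_eq_zero hj]
        split_ifs <;> rfl
    rw [Finset.sum_congr rfl h1, Finset.sum_const, Nat.card_Ico, nsmul_eq_mul, mul_one]
    have : m ^ 2 + m - m ^ 2 = m := by omega
    rw [this, div_self hm0]
  · intro m E hE
    obtain ⟨k₀, hk₀⟩ := S.exists_first (𝕜 := ℝ) hE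
    rw [← Finset.sum_div, Finset.sum_comm]
    refine div_le_div_of_nonneg_right ?_ (Nat.cast_nonneg _)
    calc ∑ k ∈ Finset.Ico (m ^ 2) (m ^ 2 + m), ∑ j ∈ E, (if S.c k j = 0 then S.w k j else 0)
        ≤ ∑ k ∈ Finset.Ico (m ^ 2) (m ^ 2 + m),
          ((if id k = k₀ then (1 : ℝ) else 0) + (1 / 2) ^ (id k + 1)) := by
          refine Finset.sum_le_sum fun k _ => ?_
          refine le_trans (le_of_eq ?_) (hk₀ k 0 (by omega))
          refine Finset.sum_congr rfl fun j _ => ?_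
          rw [Sys.vec_coord]
          split_ifs
          · simp only [RCLike.ofReal_real_eq_id, id_eq]
            rw [Real.norm_eq_abs, abs_of_nonneg (S.w_nonneg k j)]
          · rw [norm_zero]
      _ ≤ 2 := Sys.sum_half_le _ id strictMono_id k₀

end Pool.Agent.Q82.Sch
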