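import Pool.Agent.Q82.SchSS

/-!
# A strictly singular operator on the Schreier spaces: the operator
-/

open Set UniformSpace

namespace Pool.Agent.Q82.Sch

/-! ### Signs attached to subsets -/

section signs

variable {𝕜 : Type} [RCLike 𝕜]

/-- The sign of `j` for the subset `A`. -/
noncomputable def sg (𝕜 : Type) [RCLike 𝕜] (A : Finset ℕ+) (j : ℕ+) : 𝕜 := by
  classical
  exact if j ∈ A then 1 else -1

theorem sg_mul_self (A : Finset ℕ+) (j : ℕ+) : sg 𝕜 A j * sg 𝕜 A j = 1 := by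
  unfold sg; split_ifs <;> simp

theorem norm_sg (A : Finset ℕ+) (j : ℕ+) : ‖sg 𝕜 A j‖ = 1 := by
  unfold sg; split_ifs <;> simp

theorem second_moment (x : ℕ+ → 𝕜) (I : Finset ℕ+) :
    ∑ A ∈ I.powerset, ‖∑ j ∈ I, sg 𝕜 A j * x j‖ ^ 2 = 2 ^ I.card * ∑ j ∈ I, ‖x j‖ ^ 2 := by
  classical
  induction I using Finset.induction_on with
  | empty => simp
  | insert a t ha ih =>
    rw [Finset.sum_powerset_insert ha, Finset.sum_insert ha, ← Finset.sum_add_distrib,
      Finset.card_insert_of_notMem ha]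
    have h : ∀ A ∈ t.powerset, ‖∑ j ∈ insert a t, sg 𝕜 A j * x j‖ ^ 2 +
        ‖∑ j ∈ insert a t, sg 𝕜 (insert a A) j * x j‖ ^ 2 =
        2 * ‖∑ j ∈ t, sg 𝕜 A j * x j‖ ^ 2 + 2 * ‖x a‖ ^ 2 := by
      intro A hA
      rw [Finset.mem_powerset] at hA
      have haA : a ∉ A := fun h => ha (hA h)
      have e1 : ∑ j ∈ insert a t, sg 𝕜 A j * x j = (∑ j ∈ t, sg 𝕜 A j * x j) - x a := by
        rw [Finset.sum_insert ha]
        have : sg 𝕜 A a = -1 := by unfold sg; rw [if_neg haA]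
        rw [this]; ring
      have e2 : ∑ j ∈ insert a t, sg 𝕜 (insert a A) j * x j =
          (∑ j ∈ t, sg 𝕜 A j * x j) + x a := by
        rw [Finset.sum_insert ha]
        have h1 : sg 𝕜 (insert a A) a = 1 := by
          unfold sg; rw [if_pos (Finset.mem_insert_self a A)]
        have h2 : ∀ j ∈ t, sg 𝕜 (insert a A) j * x j = sg 𝕜 A j * x j := by
          intro j hj
          have hja : j ≠ a := fun h => ha (h ▸ hj)
          unfold sg
          simp only [Finset.mem_insert, hja, false_or]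
        rw [h1, Finset.sum_congr rfl h2]; ring
      rw [e1, e2]
      have := SchC0.norm_sq_pm (∑ j ∈ t, sg 𝕜 A j * x j) (x a)
      linarith
    rw [Finset.sum_congr rfl h, Finset.sum_add_distrib, ← Finset.mul_sum, ih, Finset.sum_const,
      Finset.card_powerset, nsmul_eq_mul]
    push_cast
    ring

/-- The average of the absolute values of the signed sums. -/
theorem sum_abs_le (x : ℕ+ → 𝕜) (I : Finset ℕ+) :
    ∑ A ∈ I.powerset, ‖((2 : 𝕜) ^ I.card)⁻¹ * ∑ j ∈ I, sg 𝕜 A j * x j‖ ≤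
      Real.sqrt (∑ j ∈ I, ‖x j‖ ^ 2) := by
  classical
  refine Real.le_sqrt_of_sq_le ?_
  have h1 := sq_sum_le_card_mul_sum_sq (s := I.powerset)
    (f := fun A => ‖((2 : 𝕜) ^ I.card)⁻¹ * ∑ j ∈ I, sg 𝕜 A j * x j‖)
  refine h1.trans (le_of_eq ?_)
  have h2 : ∀ A ∈ I.powerset, ‖((2 : 𝕜) ^ I.card)⁻¹ * ∑ j ∈ I, sg 𝕜 A j * x j‖ ^ 2 =
      (((2 : ℝ) ^ I.card)⁻¹) ^ 2 * ‖∑ j ∈ I, sg 𝕜 A j * x j‖ ^ 2 := by
    intro A _
    rw [norm_mul, mul_pow, norm_inv, norm_pow]
    simp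
  rw [Finset.sum_congr rfl h2, ← Finset.mul_sum, second_moment, Finset.card_powerset]
  push_cast
  field_simp

end signs

/-! ### The operator -/

/-- Data for the operator. -/
structure Dat (n : ℕ) where
  L : LongSets n
  S : Sys n (univ : Set ℕ+)

theorem exists_dat {n : ℕ} (hn : 1 ≤ n) : Nonempty (Dat n) := by
  obtain ⟨L⟩ := exists_longSets hn
  obtain ⟨S⟩ := exists_sys hn (N := (univ : Set ℕ+)) infinite_univ
  exact ⟨⟨L, S⟩⟩

namespace Dat

variable {n : ℕ} (D : Dat n)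

/-- The number of the block. -/
def kap (m : ℕ) : ℕ := m + ∑ m' ∈ Finset.range (m + 1), 2 ^ (D.L.I m').card

theorem kap_mono : StrictMono D.kap := by
  refine strictMono_nat_of_lt_succ fun m => ?_
  unfold kap
  rw [Finset.sum_range_succ _ (m + 1)]
  have : 0 < 2 ^ (D.L.I (m + 1)).card := by positivity
  omega

theorem le_kap (m : ℕ) : 2 ^ (D.L.I m).card ≤ D.kap m := by
  unfold kap
  rw [Finset.sum_range_succ]
  omega

/-- The enumeration of the subsets. -/
noncomputable def enc (m : ℕ) (A : Finset ℕ+) : ℕ := by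
  classical
  exact if h : A ∈ (D.L.I m).powerset then ((D.L.I m).powerset.equivFin ⟨A, h⟩ : ℕ) else 0

theorem enc_lt {m : ℕ} {A : Finset ℕ+} (hA : A ∈ (D.L.I m).powerset) :
    D.enc m A < D.kap m + 1 := by
  unfold enc
  rw [dif_pos hA]
  have h1 := ((D.L.I m).powerset.equivFin ⟨A, hA⟩).isLt
  have h3 := Finset.card_powerset (D.L.I m)
  have h2 := D.le_kap m
  omega

theorem enc_inj {m : ℕ} {A B : Finset ℕ+} (hA : A ∈ (D.L.I m).powerset)
    (hB : B ∈ (D.L.I m).powerset) (h : D.enc m A = D.enc m B) : A = B := by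
  unfold enc at h
  rw [dif_pos hA, dif_pos hB] at h
  have h1 := (D.L.I m).powerset.equivFin.injective (Fin.ext h)
  exact congrArg Subtype.val h1

variable (𝕜 : Type) [RCLike 𝕜]

/-- The vector of the target for a subset. -/
noncomputable def tv (m : ℕ) (A : Finset ℕ+) : C00 𝕜 n := D.S.vec 𝕜 (D.kap m) (D.enc m A)

/-- The image of a unit vector whose index lies in the `m`-th long set. -/
noncomputable def img0 (m : ℕ) (j : ℕ+) : C00 𝕜 n :=
  ∑ A ∈ (D.L.I m).powerset, (((2 : 𝕜) ^ (D.L.I m).card)⁻¹ * sg 𝕜 A j) • D.tv 𝕜 m A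

/-- The images of the unit vectors. -/
noncomputable def img (j : ℕ+) : C00 𝕜 n := by
  classical
  exact if h : ∃ m, j ∈ D.L.I m then D.img0 𝕜 (Nat.find h) j else 0

theorem img_of_mem {m : ℕ} {j : ℕ+} (hj : j ∈ D.L.I m) : D.img 𝕜 j = D.img0 𝕜 m j := by
  classical
  have h : ∃ m, j ∈ D.L.I m := ⟨m, hj⟩
  unfold img
  rw [dif_pos h, D.L.disj _ _ j (Nat.find_spec h) hj]

theorem img_of_not_mem {j : ℕ+} (hj : ∀ m, j ∉ D.L.I m) : D.img 𝕜 j = 0 := by
  classical
  have h : ¬ ∃ m, j ∈ D.L.I m := by push Not; exact hj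
  unfold img
  rw [dif_neg h]

/-- The linear map. -/
noncomputable def lin : C00 𝕜 n →ₗ[𝕜] C00 𝕜 n :=
  (Finsupp.linearCombination 𝕜 (D.img 𝕜) : (ℕ+ →₀ 𝕜) →ₗ[𝕜] C00 𝕜 n)

theorem lin_apply (x : C00 𝕜 n) : D.lin 𝕜 x = ∑ j ∈ x.supp, x.coord j • D.img 𝕜 j := by
  unfold lin
  exact Finsupp.linearCombination_apply 𝕜 _

variable {𝕜}

/-- The coefficients of the image. -/
noncomputable def coef (x : C00 𝕜 n) (m : ℕ) (A : Finset ℕ+) : 𝕜 :=
  ((2 : 𝕜) ^ (D.L.I m).card)⁻¹ * ∑ j ∈ D.L.I m, sg 𝕜 A j * x.coord j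

theorem exists_formula (x : C00 𝕜 n) : ∃ M : Finset ℕ, D.lin 𝕜 x =
    ∑ m ∈ M, ∑ A ∈ (D.L.I m).powerset, D.coef x m A • D.S.vec 𝕜 (D.kap m) (D.enc m A) := by
  classical
  -- the long sets that meet the support
  let f : ℕ+ → ℕ := fun j => if h : ∃ m, j ∈ D.L.I m then Nat.find h else 0
  have hf : ∀ m j, j ∈ D.L.I m → f j = m := by
    intro m j hj
    have h : ∃ m, j ∈ D.L.I m := ⟨m, hj⟩
    simp only [f, dif_pos h]
    exact D.L.disj _ _ j (Nat.find_spec h) hj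
  set M := x.supp.image f with hM
  refine ⟨M, ?_⟩
  have h1 : ∀ m ∈ M, ∑ A ∈ (D.L.I m).powerset, D.coef x m A •
      D.S.vec 𝕜 (D.kap m) (D.enc m A) = ∑ j ∈ D.L.I m, x.coord j • D.img 𝕜 j := by
    intro m _
    have h2 : ∀ j ∈ D.L.I m, x.coord j • D.img 𝕜 j = ∑ A ∈ (D.L.I m).powerset,
        (((2 : 𝕜) ^ (D.L.I m).card)⁻¹ * (sg 𝕜 A j * x.coord j)) • D.tv 𝕜 m A := by
      intro j hj
      rw [D.img_of_mem 𝕜 hj]
      unfold img0
      rw [Finset.smul_sum]
      refine Finset.sum_congr rfl fun A _ => ?_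
      rw [smul_smul]
      congr 1
      ring
    rw [Finset.sum_congr rfl h2, Finset.sum_comm]
    refine Finset.sum_congr rfl fun A _ => ?_
    unfold coef
    rw [← Finset.sum_smul, ← Finset.mul_sum]
    rfl
  rw [Finset.sum_congr rfl h1, ← Finset.sum_biUnion]
  · rw [lin_apply]
    have h3 : ∀ j ∈ x.supp ∪ M.biUnion D.L.I, j ∉ x.supp → x.coord j • D.img 𝕜 j = 0 := by
      intro j _ hj
      rw [C00.mem_supp, not_not] at hj
      rw [hj, zero_smul]
    have h4 : ∀ j ∈ x.supp ∪ M.biUnion D.L.I, j ∉ M.biUnion D.L.I →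
        x.coord j • D.img 𝕜 j = 0 := by
      intro j hj hj'
      by_cases hs : j ∈ x.supp
      · by_cases h : ∃ m, j ∈ D.L.I m
        · obtain ⟨m, hm⟩ := h
          exfalso
          refine hj' (Finset.mem_biUnion.2 ⟨m, ?_, hm⟩)
          rw [← hf m j hm]
          exact Finset.mem_image_of_mem f hs
        · push Not at h
          rw [D.img_of_not_mem 𝕜 h, smul_zero]
      · exact h3 j hj hs
    rw [Finset.sum_subset Finset.subset_union_left h3,
      Finset.sum_subset Finset.subset_union_right h4]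
  · intro m _ m' _ hne
    rw [Function.onFun, Finset.disjoint_left]
    intro j hj hj'
    exact hne (D.L.disj m m' j hj hj')

theorem lin_norm_le (hn : 1 ≤ n) (x : C00 𝕜 n) {s : ℝ} (hs : ∀ j, ‖x.coord j‖ ≤ s) :
    schNorm (D.lin 𝕜 x) ≤ 8 * Real.sqrt (s * schNorm x) := by
  classical
  obtain ⟨M, hM⟩ := D.exists_formula x
  rw [hM]
  have h1 := D.S.synth_norm (𝕜 := 𝕜) D.kap D.kap_mono (fun m => (D.L.I m).powerset) D.enc
    (fun m A hA => D.enc_lt hA) (fun m A => D.coef x m A) M (C := 4 * Real.sqrt (s * schNorm x))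
    (by positivity) (fun m _ => ?_)
  · linarith
  · have h2 := sum_abs_le (𝕜 := 𝕜) (fun j => x.coord j) (D.L.I m)
    refine h2.trans ?_
    have h3 := sum_sq_le hn hs (D.L.I m)
    have h4 : 4 * Real.sqrt (s * schNorm x) = Real.sqrt (16 * s * schNorm x) := by
      rw [mul_assoc, Real.sqrt_mul (by norm_num : (0 : ℝ) ≤ 16)]
      congr 1
      rw [show (16 : ℝ) = 4 ^ 2 by norm_num]
      exact (Real.sqrt_sq (by norm_num)).symm
    rw [h4]
    exact Real.sqrt_le_sqrt h3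

theorem coord_le (x : C00 𝕜 n) (j : ℕ+) : ‖x.coord j‖ ≤ schNorm x := by
  have := sum_le_schNorm x (singleton_mem_fam n j)
  rwa [Finset.sum_singleton] at this

theorem lin_norm (hn : 1 ≤ n) (x : C00 𝕜 n) : schNorm (D.lin 𝕜 x) ≤ 8 * schNorm x := by
  have h := D.lin_norm_le hn x (coord_le x)
  rwa [Real.sqrt_mul_self (schNorm_nonneg x)] at h

variable (𝕜)

/-- The bounded operator on the finitely supported sequences. -/
noncomputable def linL (hn : 1 ≤ n) : C00 𝕜 n →L[𝕜] C00 𝕜 n :=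
  LinearMap.mkContinuous (D.lin 𝕜) 8 (fun x => D.lin_norm hn x)

/-- The operator on the Schreier space. -/
noncomputable def op (hn : 1 ≤ n) : Op 𝕜 n := (D.linL 𝕜 hn).completion

theorem op_coe (hn : 1 ≤ n) (x : C00 𝕜 n) :
    D.op 𝕜 hn (x : Space 𝕜 n) = ((D.lin 𝕜 x : C00 𝕜 n) : Space 𝕜 n) := by
  unfold op
  rw [ContinuousLinearMap.completion_apply_coe]
  rfl

end Dat

end Pool.Agent.Q82.Sch
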