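import Pool.Agent.Q82.SchTS
import Pool.Agent.H758R2.Groth

/-!
# A strictly singular operator on the Schreier spaces: the distance to the operators through `c₀`
-/

open Set UniformSpace
open scoped ZeroAtInfty

namespace Pool.Agent.Q82.Sch

variable {𝕜 : Type} [RCLike 𝕜] {n : ℕ}

/-! ### The embedding of the scalars in the complex numbers -/

/-- The embedding of the scalars in the complex numbers. -/
noncomputable def tau (𝕜 : Type) [RCLike 𝕜] : 𝕜 →+* ℂ where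
  toFun z := ⟨RCLike.re z, RCLike.im z⟩
  map_one' := by apply Complex.ext <;> simp
  map_zero' := by apply Complex.ext <;> simp
  map_add' x y := by apply Complex.ext <;> simp
  map_mul' x y := by
    apply Complex.ext
    · simp [RCLike.mul_re]
    · simp [RCLike.mul_im]

theorem norm_tau (z : 𝕜) : ‖tau 𝕜 z‖ = ‖z‖ := by
  have h1 : ‖tau 𝕜 z‖ ^ 2 = ‖z‖ ^ 2 := by
    rw [← Complex.normSq_eq_norm_sq, Complex.normSq_apply, RCLike.norm_sq_eq_def]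
    rfl
  exact (pow_left_inj₀ (norm_nonneg _) (norm_nonneg _) two_ne_zero).1 h1

theorem tau_ofReal (r : ℝ) : tau 𝕜 (r : 𝕜) = (r : ℂ) := by
  apply Complex.ext <;> simp [tau]

/-! ### Unit vectors -/

/-- The unit vectors. -/
noncomputable def ev (𝕜 : Type) [RCLike 𝕜] (n : ℕ) (j : ℕ+) : C00 𝕜 n :=
  (Finsupp.single j 1 : ℕ+ →₀ 𝕜)

theorem ev_coord (j l : ℕ+) : (ev 𝕜 n j).coord l = if l = j then 1 else 0 := by
  show (Finsupp.single j (1 : 𝕜)) l = _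
  rw [Finsupp.single_apply]
  by_cases h : j = l
  · simp [h]
  · rw [if_neg h, if_neg (Ne.symm h)]

theorem norm_ev (j : ℕ+) : ‖((ev 𝕜 n j : C00 𝕜 n) : Space 𝕜 n)‖ ≤ 1 := by
  classical
  rw [norm_coe]
  refine schNorm_le fun E _ => ?_
  have h : ∀ l ∈ E, ‖(ev 𝕜 n j).coord l‖ = if l = j then (1 : ℝ) else 0 := by
    intro l _
    rw [ev_coord]
    split_ifs <;> simp
  rw [Finset.sum_congr rfl h, Finset.sum_ite_eq' E j]
  split_ifs <;> norm_num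

/-- Combinations of unit vectors. -/
theorem coe_sum_ev (F : Finset ℕ+) (a : ℕ+ → 𝕜) :
    ((∑ j ∈ F, a j • ev 𝕜 n j : C00 𝕜 n) : Space 𝕜 n) =
      ∑ j ∈ F, a j • ((ev 𝕜 n j : C00 𝕜 n) : Space 𝕜 n) := by
  have := map_sum (Completion.toComplL (𝕜 := 𝕜) (E := C00 𝕜 n)) (fun j => a j • ev 𝕜 n j) F
  simp only [map_smul] at this
  exact this

theorem sum_ev_coord (F : Finset ℕ+) (a : ℕ+ → 𝕜) (l : ℕ+) [Decidable (l ∈ F)] :
    (∑ j ∈ F, a j • ev 𝕜 n j : C00 𝕜 n).coord l = if l ∈ F then a l else 0 := by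
  rw [← coordL_apply, map_sum]
  have h : ∀ j ∈ F, coordL 𝕜 n l (a j • ev 𝕜 n j) = if l = j then a j else 0 := by
    intro j _
    rw [map_smul, coordL_apply, ev_coord, smul_eq_mul]
    split_ifs <;> simp
  rw [Finset.sum_congr rfl h, Finset.sum_ite_eq F l]
  congr

/-! ### The trace -/

namespace Dat

variable (D : Dat n)

/-- The sum of the indicator functionals with real signs. -/
theorem norm_sum_ifn_le (m : ℕ) (s : Finset ℕ+ → ℝ) (hs : ∀ A, |s A| ≤ 1) (x : Space 𝕜 n) :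
    ‖∑ A ∈ (D.L.I m).powerset, (s A : 𝕜) * D.S.ifn (D.kap m) (D.enc m A) x‖ ≤ ‖x‖ := by
  classical
  set P := (D.L.I m).powerset with hP
  set σ : ℕ → ℝ := fun i => ∑ A ∈ P with D.enc m A = i, s A with hσ
  have hσ1 : ∀ i, ‖((σ i : ℝ) : 𝕜)‖ ≤ 1 := by
    intro i
    rw [RCLike.norm_ofReal, hσ]
    dsimp only
    have hcard : (P.filter (fun A => D.enc m A = i)).card ≤ 1 := by
      rw [Finset.card_le_one]
      intro A hA B hB
      rw [Finset.mem_filter] at hA hB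
      exact D.enc_inj hA.1 hB.1 (hA.2.trans hB.2.symm)
    calc |∑ A ∈ P with D.enc m A = i, s A| ≤ ∑ A ∈ P with D.enc m A = i, |s A| :=
          Finset.abs_sum_le_sum_abs _ _
      _ ≤ ∑ _A ∈ P with D.enc m _A = i, (1 : ℝ) := Finset.sum_le_sum fun A _ => hs A
      _ = ((P.filter (fun A => D.enc m A = i)).card : ℝ) := by
          rw [Finset.sum_const, nsmul_eq_mul, mul_one]
      _ ≤ 1 := by exact_mod_cast hcard
  have h1 := D.S.sum_ifn (𝕜 := 𝕜) (D.kap m) σ hσ1 x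
  have h2 : ∑ i ∈ Finset.range (D.kap m + 1), (σ i : 𝕜) * D.S.ifn (D.kap m) i x =
      ∑ A ∈ P, (s A : 𝕜) * D.S.ifn (D.kap m) (D.enc m A) x := by
    have h3 : ∀ i ∈ Finset.range (D.kap m + 1), (σ i : 𝕜) * D.S.ifn (D.kap m) i x =
        ∑ A ∈ P, if D.enc m A = i then (s A : 𝕜) * D.S.ifn (D.kap m) (D.enc m A) x else 0 := by
      intro i _
      rw [hσ]
      dsimp only
      rw [RCLike.ofReal_sum, Finset.sum_mul, Finset.sum_filter]
      refine Finset.sum_congr rfl fun A _ => ?_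
      split_ifs with h
      · rw [h]
      · rfl
    rw [Finset.sum_congr rfl h3, Finset.sum_comm]
    refine Finset.sum_congr rfl fun A hA => ?_
    rw [Finset.sum_ite_eq (Finset.range (D.kap m + 1)) (D.enc m A),
      if_pos (Finset.mem_range.2 (D.enc_lt hA))]
  rw [← h2, h1]
  exact D.S.fnl_norm_apply _ _ _ _

theorem sg_eq (A : Finset ℕ+) (j : ℕ+) : sg 𝕜 A j = ((sg ℝ A j : ℝ) : 𝕜) := by
  unfold sg; split_ifs <;> simp

theorem norm_sum_sg_le (m : ℕ) (j : ℕ+) (x : Space 𝕜 n) :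
    ‖∑ A ∈ (D.L.I m).powerset, sg 𝕜 A j * D.S.ifn (D.kap m) (D.enc m A) x‖ ≤ ‖x‖ := by
  have h := D.norm_sum_ifn_le (𝕜 := 𝕜) m (fun A => sg ℝ A j) (fun A => by
    rw [← Real.norm_eq_abs, norm_sg]) x
  simp only [← sg_eq] at h
  exact h

/-- The trace functional on families of vectors. -/
noncomputable def tr (m : ℕ) (y : ℕ+ → Space 𝕜 n) : 𝕜 :=
  ∑ j ∈ D.L.I m, (D.L.lam m j : 𝕜) * ∑ A ∈ (D.L.I m).powerset,
    sg 𝕜 A j * D.S.ifn (D.kap m) (D.enc m A) (y j)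

theorem norm_tr_le {m : ℕ} (hm : 1 ≤ m) (y : ℕ+ → Space 𝕜 n) {C : ℝ}
    (hy : ∀ j ∈ D.L.I m, ‖y j‖ ≤ C) : ‖D.tr m y‖ ≤ C := by
  unfold tr
  calc ‖∑ j ∈ D.L.I m, (D.L.lam m j : 𝕜) * ∑ A ∈ (D.L.I m).powerset,
        sg 𝕜 A j * D.S.ifn (D.kap m) (D.enc m A) (y j)‖
      ≤ ∑ j ∈ D.L.I m, D.L.lam m j * C := by
        refine (norm_sum_le _ _).trans (Finset.sum_le_sum fun j hj => ?_)
        rw [norm_mul, RCLike.norm_ofReal, abs_of_nonneg (D.L.nonneg m j)]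
        exact mul_le_mul_of_nonneg_left ((D.norm_sum_sg_le m j (y j)).trans (hy j hj))
          (D.L.nonneg m j)
    _ = C := by rw [← Finset.sum_mul, D.L.sum_one m hm, one_mul]

theorem tr_sub (m : ℕ) (y z : ℕ+ → Space 𝕜 n) :
    D.tr m (fun j => y j - z j) = D.tr m y - D.tr m z := by
  unfold tr
  rw [← Finset.sum_sub_distrib]
  refine Finset.sum_congr rfl fun j _ => ?_
  rw [← mul_sub, ← Finset.sum_sub_distrib]
  congr 1
  refine Finset.sum_congr rfl fun A _ => ?_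
  rw [map_sub, mul_sub]

theorem ifn_vec_ne (k : ℕ) {i i' : ℕ} (hii : i ≠ i') :
    D.S.ifn k i ((D.S.vec 𝕜 k i' : C00 𝕜 n) : Space 𝕜 n) = 0 := by
  unfold Sys.ifn
  rw [Sys.fnl_coe]
  refine Finset.sum_eq_zero fun j _ => ?_
  rw [Sys.vec_coord]
  by_cases h : D.S.c k j = i
  · rw [if_neg (fun h' => hii (h.symm.trans h')), mul_zero]
  · rw [if_neg h, zero_mul]

theorem op_ev (hn : 1 ≤ n) {m : ℕ} {j : ℕ+} (hj : j ∈ D.L.I m) :
    D.op 𝕜 hn ((ev 𝕜 n j : C00 𝕜 n) : Space 𝕜 n) = ∑ A ∈ (D.L.I m).powerset,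
      (((2 : 𝕜) ^ (D.L.I m).card)⁻¹ * sg 𝕜 A j) • ((D.tv 𝕜 m A : C00 𝕜 n) : Space 𝕜 n) := by
  have h1 : D.lin 𝕜 (ev 𝕜 n j) = D.img0 𝕜 m j := by
    rw [← D.img_of_mem 𝕜 hj]
    unfold lin ev
    have := Finsupp.linearCombination_single (R := 𝕜) (v := D.img 𝕜) (1 : 𝕜) j
    rw [one_smul] at this
    exact this
  rw [op_coe, h1]
  unfold img0
  have := map_sum (Completion.toComplL (𝕜 := 𝕜) (E := C00 𝕜 n))
    (fun A => (((2 : 𝕜) ^ (D.L.I m).card)⁻¹ * sg 𝕜 A j) • D.tv 𝕜 m A) (D.L.I m).powerset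
  simp only [map_smul] at this
  exact this

theorem tr_op (hn : 1 ≤ n) {m : ℕ} (hm : 1 ≤ m) :
    D.tr m (fun j => D.op 𝕜 hn ((ev 𝕜 n j : C00 𝕜 n) : Space 𝕜 n)) = 1 := by
  classical
  unfold tr
  have h1 : ∀ j ∈ D.L.I m, (D.L.lam m j : 𝕜) * ∑ A ∈ (D.L.I m).powerset,
      sg 𝕜 A j * D.S.ifn (D.kap m) (D.enc m A)
        (D.op 𝕜 hn ((ev 𝕜 n j : C00 𝕜 n) : Space 𝕜 n)) = (D.L.lam m j : 𝕜) := by
    intro j hj
    have h2 : ∀ A ∈ (D.L.I m).powerset, sg 𝕜 A j * D.S.ifn (D.kap m) (D.enc m A)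
        (D.op 𝕜 hn ((ev 𝕜 n j : C00 𝕜 n) : Space 𝕜 n)) = ((2 : 𝕜) ^ (D.L.I m).card)⁻¹ := by
      intro A hA
      rw [D.op_ev hn hj, map_sum]
      have h3 : ∀ B ∈ (D.L.I m).powerset, D.S.ifn (D.kap m) (D.enc m A)
          ((((2 : 𝕜) ^ (D.L.I m).card)⁻¹ * sg 𝕜 B j) • ((D.tv 𝕜 m B : C00 𝕜 n) : Space 𝕜 n)) =
          if A = B then ((2 : 𝕜) ^ (D.L.I m).card)⁻¹ * sg 𝕜 B j else 0 := by
        intro B hB
        rw [map_smul, smul_eq_mul]
        unfold tv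
        by_cases hAB : A = B
        · rw [if_pos hAB, hAB, D.S.ifn_vec (D.enc_lt hB), mul_one]
        · rw [if_neg hAB, D.ifn_vec_ne _ (fun h => hAB (D.enc_inj hA hB h)), mul_zero]
      rw [Finset.sum_congr rfl h3, Finset.sum_ite_eq (D.L.I m).powerset A, if_pos hA]
      calc sg 𝕜 A j * (((2 : 𝕜) ^ (D.L.I m).card)⁻¹ * sg 𝕜 A j)
          = ((2 : 𝕜) ^ (D.L.I m).card)⁻¹ * (sg 𝕜 A j * sg 𝕜 A j) := by ring
        _ = _ := by rw [sg_mul_self, mul_one]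
    rw [Finset.sum_congr rfl h2, Finset.sum_const, Finset.card_powerset, nsmul_eq_mul]
    push_cast
    have : ((2 : 𝕜) ^ (D.L.I m).card) ≠ 0 := pow_ne_zero _ two_ne_zero
    rw [mul_inv_cancel₀ this, mul_one]
  rw [Finset.sum_congr rfl h1, ← RCLike.ofReal_sum, D.L.sum_one m hm, RCLike.ofReal_one]

/-! ### Operators through `c₀` -/

/-- Evaluation on `c₀`. -/
def evl (𝕜 : Type) [RCLike 𝕜] (i : ℕ) : C₀(ℕ, 𝕜) →ₗ[𝕜] 𝕜 where
  toFun f := f i
  map_add' _ _ := rfl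
  map_smul' _ _ := rfl

theorem sum_sq_coeff (V : Space 𝕜 n →L[𝕜] C₀(ℕ, 𝕜)) (m : ℕ) (i : ℕ) :
    ∑ j ∈ D.L.I m, D.L.lam m j * ‖V ((ev 𝕜 n j : C00 𝕜 n) : Space 𝕜 n) i‖ ^ 2 ≤
      ‖V‖ * (‖V‖ * (2 / m)) := by
  classical
  set b : ℕ+ → 𝕜 := fun j => V ((ev 𝕜 n j : C00 𝕜 n) : Space 𝕜 n) i with hb
  have hbn : ∀ j, ‖b j‖ ≤ ‖V‖ := by
    intro j
    refine (SchC0.apply_le_c0 _ i).trans ((V.le_opNorm _).trans ?_)
    calc ‖V‖ * ‖((ev 𝕜 n j : C00 𝕜 n) : Space 𝕜 n)‖ ≤ ‖V‖ * 1 :=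
          mul_le_mul_of_nonneg_left (norm_ev j) V.opNorm_nonneg
      _ = ‖V‖ := mul_one _
  -- the unimodular factors
  set θ : ℕ+ → 𝕜 := fun j => if b j = 0 then 0 else (starRingEnd 𝕜) (b j) / (‖b j‖ : 𝕜) with hθ
  have hθn : ∀ j, ‖θ j‖ ≤ 1 := by
    intro j
    rw [hθ]
    dsimp only
    split_ifs with h
    · simp
    · rw [norm_div, RCLike.norm_conj, RCLike.norm_ofReal, abs_of_nonneg (norm_nonneg _),
        div_self (norm_ne_zero_iff.2 h)]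
  have hθb : ∀ j, θ j * b j = (‖b j‖ : 𝕜) := by
    intro j
    rw [hθ]
    dsimp only
    split_ifs with h
    · simp [h]
    · rw [div_mul_eq_mul_div, RCLike.conj_mul]
      have : (‖b j‖ : 𝕜) ≠ 0 := by exact_mod_cast norm_ne_zero_iff.2 h
      field_simp
  set x : C00 𝕜 n := ∑ j ∈ D.L.I m, ((D.L.lam m j : 𝕜) * θ j) • ev 𝕜 n j with hx
  have hxn : ‖((x : C00 𝕜 n) : Space 𝕜 n)‖ ≤ 2 / m := by
    rw [norm_coe]
    refine schNorm_le fun E hE => (Finset.sum_le_sum fun j _ => ?_).trans (D.L.small m E hE)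
    rw [hx, sum_ev_coord]
    split_ifs with h
    · rw [norm_mul, RCLike.norm_ofReal, abs_of_nonneg (D.L.nonneg m j)]
      calc D.L.lam m j * ‖θ j‖ ≤ D.L.lam m j * 1 :=
            mul_le_mul_of_nonneg_left (hθn j) (D.L.nonneg m j)
        _ = D.L.lam m j := mul_one _
    · rw [norm_zero]; exact D.L.nonneg m j
  have hVx : evl 𝕜 i (V ((x : C00 𝕜 n) : Space 𝕜 n)) =
      ((∑ j ∈ D.L.I m, D.L.lam m j * ‖b j‖ : ℝ) : 𝕜) := by
    rw [hx, coe_sum_ev, map_sum, map_sum, RCLike.ofReal_sum]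
    refine Finset.sum_congr rfl fun j _ => ?_
    rw [map_smul, map_smul, smul_eq_mul]
    show (D.L.lam m j : 𝕜) * θ j * b j = _
    rw [mul_assoc, hθb, RCLike.ofReal_mul]
  have h1 : ∑ j ∈ D.L.I m, D.L.lam m j * ‖b j‖ ≤ ‖V‖ * (2 / m) := by
    have h2 : ‖evl 𝕜 i (V ((x : C00 𝕜 n) : Space 𝕜 n))‖ ≤ ‖V‖ * (2 / m) := by
      refine (SchC0.apply_le_c0 _ i).trans ((V.le_opNorm _).trans ?_)
      exact mul_le_mul_of_nonneg_left hxn V.opNorm_nonneg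
    rw [hVx, RCLike.norm_ofReal, abs_of_nonneg (Finset.sum_nonneg fun j _ =>
      mul_nonneg (D.L.nonneg m j) (norm_nonneg _))] at h2
    exact h2
  calc ∑ j ∈ D.L.I m, D.L.lam m j * ‖b j‖ ^ 2
      ≤ ∑ j ∈ D.L.I m, ‖V‖ * (D.L.lam m j * ‖b j‖) := by
        refine Finset.sum_le_sum fun j _ => ?_
        have h3 : 0 ≤ D.L.lam m j * ‖b j‖ := mul_nonneg (D.L.nonneg m j) (norm_nonneg _)
        calc D.L.lam m j * ‖b j‖ ^ 2 = (D.L.lam m j * ‖b j‖) * ‖b j‖ := by ring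
          _ ≤ (D.L.lam m j * ‖b j‖) * ‖V‖ := mul_le_mul_of_nonneg_left (hbn j) h3
          _ = ‖V‖ * (D.L.lam m j * ‖b j‖) := mul_comm _ _
    _ = ‖V‖ * ∑ j ∈ D.L.I m, D.L.lam m j * ‖b j‖ := (Finset.mul_sum _ _ _).symm
    _ ≤ ‖V‖ * (‖V‖ * (2 / m)) := mul_le_mul_of_nonneg_left h1 V.opNorm_nonneg

/-- The matrix of an operator from `c₀`. -/
noncomputable def mat (m : ℕ) (F : Finset ℕ) (U : C₀(ℕ, 𝕜) →L[𝕜] Space 𝕜 n) (i : F)
    (A : (D.L.I m).powerset) : ℂ :=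
  tau 𝕜 (D.S.ifn (D.kap m) (D.enc m A) (U (SchC0.fin {(i : ℕ)} (fun _ => (1 : 𝕜)))))

theorem mat_real (m : ℕ) (F : Finset ℕ) (U : C₀(ℕ, 𝕜) →L[𝕜] Space 𝕜 n)
    (r : F → ℝ) (s : (D.L.I m).powerset → ℝ) (hr : ∀ i, |r i| ≤ 1) (hs : ∀ A, |s A| ≤ 1) :
    ‖∑ i, ∑ A, D.mat m F U i A * (r i : ℂ) * (s A : ℂ)‖ ≤ ‖U‖ := by
  classical
  let r' : ℕ → ℝ := fun k => if h : k ∈ F then r ⟨k, h⟩ else 0
  let s' : Finset ℕ+ → ℝ := fun A => if h : A ∈ (D.L.I m).powerset then s ⟨A, h⟩ else 0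
  have hr' : ∀ i : F, r' i = r i := fun i => by simp only [r', dif_pos i.2]
  have hs' : ∀ A : (D.L.I m).powerset, s' A = s A := fun A => by simp only [s', dif_pos A.2]
  have hs1 : ∀ A, |s' A| ≤ 1 := by
    intro A
    simp only [s']
    split_ifs
    · exact hs _
    · simp
  have hr1 : ∀ k, |r' k| ≤ 1 := by
    intro k
    simp only [r']
    split_ifs
    · exact hr _
    · simp
  have key : ∑ i, ∑ A, D.mat m F U i A * (r i : ℂ) * (s A : ℂ) =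
      tau 𝕜 (∑ A ∈ (D.L.I m).powerset, (s' A : 𝕜) * D.S.ifn (D.kap m) (D.enc m A)
        (U (SchC0.fin F (fun k => (r' k : 𝕜))))) := by
    have e1 : ∀ i : F, ∑ A, D.mat m F U i A * (r i : ℂ) * (s A : ℂ) =
        ∑ A ∈ (D.L.I m).powerset, tau 𝕜 (D.S.ifn (D.kap m) (D.enc m A)
          (U (SchC0.fin {(i : ℕ)} (fun _ => (1 : 𝕜))))) * (r' i : ℂ) * (s' A : ℂ) := by
      intro i
      rw [← Finset.sum_coe_sort (D.L.I m).powerset]
      refine Finset.sum_congr rfl fun A _ => ?_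
      rw [hs', hr']
      rfl
    rw [Finset.sum_congr rfl fun i _ => e1 i,
      Finset.sum_coe_sort F (fun k => ∑ A ∈ (D.L.I m).powerset,
        tau 𝕜 (D.S.ifn (D.kap m) (D.enc m A) (U (SchC0.fin {k} (fun _ => (1 : 𝕜))))) *
          (r' k : ℂ) * (s' A : ℂ)), Finset.sum_comm, map_sum]
    refine Finset.sum_congr rfl fun A _ => ?_
    rw [map_mul, tau_ofReal, SchC0.fin_eq_sum, map_sum, map_sum, map_sum, Finset.mul_sum]
    refine Finset.sum_congr rfl fun k _ => ?_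
    rw [map_smul, map_smul, smul_eq_mul, map_mul, tau_ofReal]
    ring
  rw [key, norm_tau]
  refine (D.norm_sum_ifn_le m s' hs1 _).trans ((U.le_opNorm _).trans ?_)
  calc ‖U‖ * ‖SchC0.fin F (fun k => (r' k : 𝕜))‖ ≤ ‖U‖ * 1 := by
        refine mul_le_mul_of_nonneg_left ?_ U.opNorm_nonneg
        refine SchC0.norm_le_c0 zero_le_one fun k => ?_
        rw [SchC0.fin_apply]
        split_ifs
        · rw [RCLike.norm_ofReal]; exact hr1 k
        · simp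
    _ = ‖U‖ := mul_one _

open Pool.Agent.H758R2.Groth in
theorem mat_bbound (m : ℕ) (F : Finset ℕ) (U : C₀(ℕ, 𝕜) →L[𝕜] Space 𝕜 n) :
    BBound (D.mat m F U) (4 * ‖U‖) := by
  intro x y hx hy
  have hre : ∀ z : ℂ, ‖z‖ ≤ 1 → |z.re| ≤ 1 := fun z hz => (Complex.abs_re_le_norm z).trans hz
  have him : ∀ z : ℂ, ‖z‖ ≤ 1 → |z.im| ≤ 1 := fun z hz => (Complex.abs_im_le_norm z).trans hz
  have h1 := D.mat_real m F U (fun i => (x i).re) (fun A => (y A).re) (fun i => hre _ (hx i))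
    (fun A => hre _ (hy A))
  have h2 := D.mat_real m F U (fun i => (x i).im) (fun A => (y A).re) (fun i => him _ (hx i))
    (fun A => hre _ (hy A))
  have h3 := D.mat_real m F U (fun i => (x i).re) (fun A => (y A).im) (fun i => hre _ (hx i))
    (fun A => him _ (hy A))
  have h4 := D.mat_real m F U (fun i => (x i).im) (fun A => (y A).im) (fun i => him _ (hx i))
    (fun A => him _ (hy A))
  set a := ∑ i, ∑ A, D.mat m F U i A * ((x i).re : ℂ) * ((y A).re : ℂ) with ha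
  set b := ∑ i, ∑ A, D.mat m F U i A * ((x i).im : ℂ) * ((y A).re : ℂ) with hb
  set c := ∑ i, ∑ A, D.mat m F U i A * ((x i).re : ℂ) * ((y A).im : ℂ) with hc
  set d := ∑ i, ∑ A, D.mat m F U i A * ((x i).im : ℂ) * ((y A).im : ℂ) with hd
  have key : ∑ i, ∑ A, D.mat m F U i A * x i * y A = a + Complex.I * b + Complex.I * c - d := by
    rw [ha, hb, hc, hd, Finset.mul_sum, Finset.mul_sum, ← Finset.sum_add_distrib,
      ← Finset.sum_add_distrib, ← Finset.sum_sub_distrib]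
    refine Finset.sum_congr rfl fun i _ => ?_
    rw [Finset.mul_sum, Finset.mul_sum, ← Finset.sum_add_distrib,
      ← Finset.sum_add_distrib, ← Finset.sum_sub_distrib]
    refine Finset.sum_congr rfl fun A _ => ?_
    have e1 : x i = ((x i).re : ℂ) + ((x i).im : ℂ) * Complex.I := (Complex.re_add_im _).symm
    have e2 : y A = ((y A).re : ℂ) + ((y A).im : ℂ) * Complex.I := (Complex.re_add_im _).symm
    calc D.mat m F U i A * x i * y A = D.mat m F U i A *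
          (((x i).re : ℂ) + ((x i).im : ℂ) * Complex.I) *
            (((y A).re : ℂ) + ((y A).im : ℂ) * Complex.I) := by rw [← e1, ← e2]
      _ = _ := by
          ring_nf
          rw [Complex.I_sq]
          ring
  rw [key]
  have hI : ∀ z : ℂ, ‖Complex.I * z‖ = ‖z‖ := fun z => by
    rw [norm_mul, Complex.norm_I, one_mul]
  calc ‖a + Complex.I * b + Complex.I * c - d‖
      ≤ ‖a + Complex.I * b + Complex.I * c‖ + ‖d‖ := norm_sub_le _ _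
    _ ≤ (‖a + Complex.I * b‖ + ‖Complex.I * c‖) + ‖d‖ := by gcongr; exact norm_add_le _ _
    _ ≤ ((‖a‖ + ‖Complex.I * b‖) + ‖Complex.I * c‖) + ‖d‖ := by gcongr; exact norm_add_le _ _
    _ = ‖a‖ + ‖b‖ + ‖c‖ + ‖d‖ := by rw [hI, hI]
    _ ≤ 4 * ‖U‖ := by linarith

open Pool.Agent.H758R2.Groth in
/-- The trace of a composition through finitely many coordinates of `c₀`. -/
theorem norm_tr_fin_le {m : ℕ} (hm : 1 ≤ m) (F : Finset ℕ) (U : C₀(ℕ, 𝕜) →L[𝕜] Space 𝕜 n)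
    (V : Space 𝕜 n →L[𝕜] C₀(ℕ, 𝕜)) :
    ‖D.tr m (fun j => U (SchC0.fin F (fun k => V ((ev 𝕜 n j : C00 𝕜 n) : Space 𝕜 n) k)))‖ ≤
      384 * ‖U‖ * (2 * (‖V‖ + 1) / Real.sqrt m) := by
  classical
  have hm0 : (0 : ℝ) < m := by exact_mod_cast hm
  have hsm : 0 < Real.sqrt m := Real.sqrt_pos.2 hm0
  set g : ℕ → ℕ+ → 𝕜 := fun k j => V ((ev 𝕜 n j : C00 𝕜 n) : Space 𝕜 n) k with hg
  let u : F → D.L.I m → ℂ := fun i j => (Real.sqrt (D.L.lam m j) : ℂ) * tau 𝕜 (g i j)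
  let v : (D.L.I m).powerset → D.L.I m → ℂ := fun A j =>
    (Real.sqrt (D.L.lam m j) : ℂ) * tau 𝕜 (sg 𝕜 A j)
  have hform : tau 𝕜 (D.tr m (fun j => U (SchC0.fin F (fun k => g k j)))) =
      form (D.mat m F U) u v := by
    unfold form tr
    have e1 : ∀ i : F, ∀ A : (D.L.I m).powerset, D.mat m F U i A * ∑ j, u i j * v A j =
        ∑ j ∈ D.L.I m, (D.L.lam m j : ℂ) * (tau 𝕜 (sg 𝕜 A j) * (tau 𝕜 (g i j) *
          tau 𝕜 (D.S.ifn (D.kap m) (D.enc m A)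
            (U (SchC0.fin {(i : ℕ)} (fun _ => (1 : 𝕜))))))) := by
      intro i A
      rw [← Finset.sum_coe_sort (D.L.I m), Finset.mul_sum]
      refine Finset.sum_congr rfl fun j _ => ?_
      have h1 : (Real.sqrt (D.L.lam m j) : ℂ) * (Real.sqrt (D.L.lam m j) : ℂ) =
          (D.L.lam m j : ℂ) := by
        rw [← Complex.ofReal_mul, Real.mul_self_sqrt (D.L.nonneg m j)]
      rw [← h1]
      simp only [u, v]
      show tau 𝕜 _ * _ = _
      ring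
    rw [Finset.sum_congr rfl fun i _ => Finset.sum_congr rfl fun A _ => e1 i A]
    rw [Finset.sum_coe_sort F (fun k => ∑ A : (D.L.I m).powerset, ∑ j ∈ D.L.I m,
      (D.L.lam m j : ℂ) * (tau 𝕜 (sg 𝕜 A j) * (tau 𝕜 (g k j) *
          tau 𝕜 (D.S.ifn (D.kap m) (D.enc m A) (U (SchC0.fin {k} (fun _ => (1 : 𝕜))))))))]
    have e2 : ∀ k ∈ F, ∑ A : (D.L.I m).powerset, ∑ j ∈ D.L.I m,
      (D.L.lam m j : ℂ) * (tau 𝕜 (sg 𝕜 A j) * (tau 𝕜 (g k j) *
          tau 𝕜 (D.S.ifn (D.kap m) (D.enc m A) (U (SchC0.fin {k} (fun _ => (1 : 𝕜))))))) =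
        ∑ A ∈ (D.L.I m).powerset, ∑ j ∈ D.L.I m,
      (D.L.lam m j : ℂ) * (tau 𝕜 (sg 𝕜 A j) * (tau 𝕜 (g k j) *
          tau 𝕜 (D.S.ifn (D.kap m) (D.enc m A) (U (SchC0.fin {k} (fun _ => (1 : 𝕜))))))) :=
      fun k _ => Finset.sum_coe_sort (D.L.I m).powerset (fun A => ∑ j ∈ D.L.I m,
        (D.L.lam m j : ℂ) * (tau 𝕜 (sg 𝕜 A j) * (tau 𝕜 (g k j) *
          tau 𝕜 (D.S.ifn (D.kap m) (D.enc m A) (U (SchC0.fin {k} (fun _ => (1 : 𝕜))))))))
    rw [Finset.sum_congr rfl e2, map_sum]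
    have e3 : ∀ j ∈ D.L.I m, tau 𝕜 ((D.L.lam m j : 𝕜) * ∑ A ∈ (D.L.I m).powerset,
        sg 𝕜 A j * D.S.ifn (D.kap m) (D.enc m A) (U (SchC0.fin F (fun k => g k j)))) =
        ∑ k ∈ F, ∑ A ∈ (D.L.I m).powerset, (D.L.lam m j : ℂ) * (tau 𝕜 (sg 𝕜 A j) *
          (tau 𝕜 (g k j) * tau 𝕜 (D.S.ifn (D.kap m) (D.enc m A)
            (U (SchC0.fin {k} (fun _ => (1 : 𝕜))))))) := by
      intro j _
      rw [map_mul, tau_ofReal, map_sum, Finset.mul_sum, Finset.sum_comm]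
      refine Finset.sum_congr rfl fun A _ => ?_
      rw [map_mul, SchC0.fin_eq_sum, map_sum, map_sum, map_sum, Finset.mul_sum, Finset.mul_sum]
      refine Finset.sum_congr rfl fun k _ => ?_
      rw [map_smul, map_smul, smul_eq_mul, map_mul]
    rw [Finset.sum_congr rfl e3, Finset.sum_comm]
    refine Finset.sum_congr rfl fun k _ => ?_
    rw [Finset.sum_comm]
  have ha : 0 < 2 * (‖V‖ + 1) / Real.sqrt m := by
    have := V.opNorm_nonneg
    positivity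
  have hsq : ∀ j : D.L.I m, ‖(Real.sqrt (D.L.lam m j) : ℂ)‖ ^ 2 = D.L.lam m j := by
    intro j
    rw [Complex.norm_real, Real.norm_of_nonneg (Real.sqrt_nonneg _),
      Real.sq_sqrt (D.L.nonneg m j)]
  have hu : ∀ i : F, ∑ j, ‖u i j‖ ^ 2 ≤ (2 * (‖V‖ + 1) / Real.sqrt m) ^ 2 := by
    intro i
    have h1 : ∀ j : D.L.I m, ‖u i j‖ ^ 2 = D.L.lam m j * ‖g i j‖ ^ 2 := by
      intro j
      simp only [u]
      rw [norm_mul, mul_pow, hsq, norm_tau]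
    rw [Finset.sum_congr rfl fun j _ => h1 j,
      Finset.sum_coe_sort (D.L.I m) (fun j => D.L.lam m j * ‖g i j‖ ^ 2)]
    refine (D.sum_sq_coeff V m i).trans ?_
    rw [div_pow, Real.sq_sqrt hm0.le, mul_div_assoc', mul_div_assoc',
      div_le_div_iff_of_pos_right hm0]
    have := V.opNorm_nonneg
    nlinarith
  have hv : ∀ A : (D.L.I m).powerset, ∑ j, ‖v A j‖ ^ 2 ≤ (1 : ℝ) ^ 2 := by
    intro A
    have h1 : ∀ j : D.L.I m, ‖v A j‖ ^ 2 = D.L.lam m j := by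
      intro j
      simp only [v]
      rw [norm_mul, mul_pow, hsq, norm_tau, norm_sg]
      ring
    rw [Finset.sum_congr rfl fun j _ => h1 j,
      Finset.sum_coe_sort (D.L.I m) (fun j => D.L.lam m j), D.L.sum_one m hm]
    norm_num
  have h1 := form_le (D.mat m F U) u v ha one_pos hu hv
  have h2 := groth (D.mat m F U) (D.mat_bbound m F U)
  rw [← norm_tau, hform]
  refine h1.trans ?_
  rw [mul_one]
  refine mul_le_mul_of_nonneg_right ?_ ha.le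
  linarith

/-- The trace of an operator that factors through `c₀`. -/
theorem norm_tr_comp_le {m : ℕ} (hm : 1 ≤ m) (U : C₀(ℕ, 𝕜) →L[𝕜] Space 𝕜 n)
    (V : Space 𝕜 n →L[𝕜] C₀(ℕ, 𝕜)) :
    ‖D.tr m (fun j => U (V ((ev 𝕜 n j : C00 𝕜 n) : Space 𝕜 n)))‖ ≤
      384 * ‖U‖ * (2 * (‖V‖ + 1) / Real.sqrt m) := by
  classical
  refine le_of_forall_pos_le_add fun ε hε => ?_
  set δ := ε / (‖U‖ + 1) with hδ
  have hU0 := U.opNorm_nonneg
  have hδ0 : 0 < δ := by positivity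
  set r : ℕ+ → C₀(ℕ, 𝕜) := fun j => V ((ev 𝕜 n j : C00 𝕜 n) : Space 𝕜 n) with hr
  obtain ⟨F, hF⟩ : ∃ F : Finset ℕ, ∀ j ∈ D.L.I m, ∀ k ∉ F, ‖r j k‖ ≤ δ := by
    have h1 : ∀ j, {k | δ < ‖r j k‖}.Finite := by
      intro j
      have h2 := (r j).zero_at_infty'
      rw [Filter.cocompact_eq_cofinite] at h2
      have h3 : Filter.Tendsto (fun k => ‖r j k‖) Filter.cofinite (nhds 0) := by
        have := h2.norm
        rwa [norm_zero] at this
      have h4 := h3.eventually (Iic_mem_nhds hδ0)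
      rw [Filter.eventually_cofinite] at h4
      refine h4.subset fun k hk => ?_
      simp only [not_le, Set.mem_ofPred_eq] at hk ⊢
      exact hk
    refine ⟨(D.L.I m).biUnion fun j => (h1 j).toFinset, fun j hj k hk => ?_⟩
    by_contra hcon
    push Not at hcon
    exact hk (Finset.mem_biUnion.2 ⟨j, hj, (h1 j).mem_toFinset.2 hcon⟩)
  have hdist : ∀ j ∈ D.L.I m, ‖r j - SchC0.fin F (fun k => r j k)‖ ≤ δ := by
    intro j hj
    refine SchC0.norm_le_c0 hδ0.le fun k => ?_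
    rw [ZeroAtInftyContinuousMap.sub_apply, SchC0.fin_apply]
    by_cases hk : k ∈ F
    · rw [if_pos hk, sub_self, norm_zero]; exact hδ0.le
    · rw [if_neg hk, sub_zero]; exact hF j hj k hk
  have h1 := D.norm_tr_fin_le hm F U V
  have h2 : ‖D.tr m (fun j => U (r j)) - D.tr m (fun j => U (SchC0.fin F (fun k => r j k)))‖ ≤
      ε := by
    rw [← tr_sub]
    refine D.norm_tr_le hm _ fun j hj => ?_
    rw [← map_sub]
    calc ‖U (r j - SchC0.fin F (fun k => r j k))‖ ≤ ‖U‖ * δ :=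
          (U.le_opNorm _).trans (mul_le_mul_of_nonneg_left (hdist j hj) hU0)
      _ ≤ ε := by
          rw [hδ, mul_div_assoc', div_le_iff₀ (by positivity)]
          nlinarith
  calc ‖D.tr m (fun j => U (r j))‖
      = ‖(D.tr m (fun j => U (r j)) - D.tr m (fun j => U (SchC0.fin F (fun k => r j k)))) +
          D.tr m (fun j => U (SchC0.fin F (fun k => r j k)))‖ := by rw [sub_add_cancel]
    _ ≤ ε + 384 * ‖U‖ * (2 * (‖V‖ + 1) / Real.sqrt m) :=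
        (norm_add_le _ _).trans (add_le_add h2 h1)
    _ = 384 * ‖U‖ * (2 * (‖V‖ + 1) / Real.sqrt m) + ε := add_comm _ _

/-- The operator is not a limit of operators that factor through `c₀`. -/
theorem op_not_mem_closure (hn : 1 ≤ n) : D.op 𝕜 hn ∉ closure (factorC0 : Set (Op 𝕜 n)) := by
  intro hmem
  rw [Metric.mem_closure_iff] at hmem
  obtain ⟨R, ⟨V, U, rfl⟩, hR⟩ := hmem (1 / 2) (by norm_num)
  rw [dist_eq_norm] at hR
  have hU0 := U.opNorm_nonneg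
  have hV0 := V.opNorm_nonneg
  obtain ⟨m, hm⟩ := exists_nat_gt ((1536 * ‖U‖ * (‖V‖ + 1)) ^ 2)
  have hm0 : (0 : ℝ) < m := lt_of_le_of_lt (by positivity) hm
  have hm1 : 1 ≤ m := by
    have : 0 < m := by exact_mod_cast hm0
    omega
  have h1 := D.norm_tr_comp_le hm1 U V
  have h2 : ‖D.tr m (fun j => D.op 𝕜 hn ((ev 𝕜 n j : C00 𝕜 n) : Space 𝕜 n)) -
      D.tr m (fun j => U (V ((ev 𝕜 n j : C00 𝕜 n) : Space 𝕜 n)))‖ ≤ 1 / 2 := by
    rw [← tr_sub]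
    refine D.norm_tr_le hm1 _ fun j _ => ?_
    calc ‖(D.op 𝕜 hn - U.comp V) ((ev 𝕜 n j : C00 𝕜 n) : Space 𝕜 n)‖
        ≤ ‖D.op 𝕜 hn - U.comp V‖ * ‖((ev 𝕜 n j : C00 𝕜 n) : Space 𝕜 n)‖ :=
          ContinuousLinearMap.le_opNorm _ _
      _ ≤ (1 / 2) * 1 := mul_le_mul hR.le (norm_ev j) (norm_nonneg _) (by norm_num)
      _ = 1 / 2 := mul_one _
  rw [D.tr_op hn hm1] at h2
  have h3 : (1 : ℝ) ≤ 1 / 2 + 384 * ‖U‖ * (2 * (‖V‖ + 1) / Real.sqrt m) := by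
    calc (1 : ℝ) = ‖(1 : 𝕜)‖ := norm_one.symm
      _ = ‖((1 : 𝕜) - D.tr m (fun j => U (V ((ev 𝕜 n j : C00 𝕜 n) : Space 𝕜 n)))) +
            D.tr m (fun j => U (V ((ev 𝕜 n j : C00 𝕜 n) : Space 𝕜 n)))‖ := by
          rw [sub_add_cancel]
      _ ≤ _ := (norm_add_le _ _).trans (add_le_add h2 h1)
  have hsm : 0 < Real.sqrt m := Real.sqrt_pos.2 hm0
  have h4 : 1536 * ‖U‖ * (‖V‖ + 1) < Real.sqrt m :=
    Real.lt_sqrt_of_sq_lt hm
  have h5 : 384 * ‖U‖ * (2 * (‖V‖ + 1) / Real.sqrt m) < 1 / 2 := by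
    rw [mul_div_assoc', div_lt_iff₀ hsm]
    linarith
  linarith

end Dat

end Pool.Agent.Q82.Sch
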