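import Pool.Agent.Q82.SchT

/-!
# A strictly singular operator on the Schreier spaces: strict singularity
-/

open Set UniformSpace

namespace Pool.Agent.Q82.Sch

variable {𝕜 : Type} [RCLike 𝕜] {n : ℕ}

/-- An operator is strictly singular if it is not bounded below on any infinite-dimensional closed
subspace. -/
def StrictlySingular (T : Op 𝕜 n) : Prop :=
  ∀ Z : Submodule 𝕜 (Space 𝕜 n), IsClosed (Z : Set (Space 𝕜 n)) → ¬ FiniteDimensional 𝕜 Z →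
    ¬ ∃ c > 0, ∀ z ∈ Z, c * ‖z‖ ≤ ‖T z‖

/-- The coordinate functionals on the completion. -/
noncomputable def cf (𝕜 : Type) [RCLike 𝕜] (n : ℕ) (l : ℕ+) : Space 𝕜 n →L[𝕜] 𝕜 :=
  (LinearMap.mkContinuous (coordL 𝕜 n l) 1 (fun x => by
    rw [one_mul]
    exact Dat.coord_le x l)).fromCompletion

theorem cf_coe (l : ℕ+) (x : C00 𝕜 n) : cf 𝕜 n l (x : Space 𝕜 n) = x.coord l := by
  unfold cf
  rw [ContinuousLinearMap.fromCompletion_apply_coe]
  rfl

theorem cf_norm (l : ℕ+) (z : Space 𝕜 n) : ‖cf 𝕜 n l z‖ ≤ ‖z‖ := by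
  induction z using Completion.induction_on with
  | hp => exact isClosed_le (by fun_prop) (by fun_prop)
  | ih x =>
    rw [cf_coe, norm_coe]
    exact Dat.coord_le x l

theorem sum_cf_le (hn : 1 ≤ n) (E : Finset ℕ+) (hE : ∀ a ∈ E, E.card ≤ (a : ℕ))
    (z : Space 𝕜 n) : ∑ l ∈ E, ‖cf 𝕜 n l z‖ ≤ ‖z‖ := by
  induction z using Completion.induction_on with
  | hp => exact isClosed_le (by fun_prop) (by fun_prop)
  | ih x =>
    rw [norm_coe]
    simp only [cf_coe]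
    exact sum_le_schNorm x (fam_of_card hn hE)

theorem exists_approx (z : Space 𝕜 n) {δ : ℝ} (hδ : 0 < δ) : ∃ x : C00 𝕜 n,
    ‖z - (x : Space 𝕜 n)‖ < δ := by
  have h := (Completion.denseRange_coe (α := C00 𝕜 n)).exists_dist_lt z hδ
  obtain ⟨x, hx⟩ := h
  exact ⟨x, by rwa [dist_eq_norm] at hx⟩

theorem cf_tail (z : Space 𝕜 n) {δ : ℝ} (hδ : 0 < δ) : ∃ N : ℕ+, ∀ l, N < l →
    ‖cf 𝕜 n l z‖ < δ := by
  obtain ⟨x, hx⟩ := exists_approx z hδ
  refine ⟨x.supp.sup id, fun l hl => ?_⟩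
  have h0 : x.coord l = 0 := by
    by_contra h
    have h1 : l ≤ x.supp.sup id := Finset.le_sup (f := id) (C00.mem_supp.2 h)
    exact absurd hl (not_lt.2 h1)
  calc ‖cf 𝕜 n l z‖ = ‖cf 𝕜 n l (z - (x : Space 𝕜 n))‖ := by rw [map_sub, cf_coe, h0, sub_zero]
    _ ≤ ‖z - (x : Space 𝕜 n)‖ := cf_norm l _
    _ < δ := hx

/-- The norm of the image is controlled by the supremum norm. -/
theorem Dat.op_norm_le (D : Dat n) (hn : 1 ≤ n) (z : Space 𝕜 n) {s : ℝ}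
    (hs : ∀ l, ‖cf 𝕜 n l z‖ ≤ s) : ‖D.op 𝕜 hn z‖ ^ 2 ≤ 64 * (s * ‖z‖) := by
  have hs0 : 0 ≤ s := (norm_nonneg _).trans (hs 1)
  -- a sequence of approximations
  have hex : ∀ k : ℕ, ∃ x : C00 𝕜 n, ‖z - (x : Space 𝕜 n)‖ < 1 / ((k : ℝ) + 1) := fun k =>
    exists_approx z (by positivity)
  choose x hx using hex
  have hlim0 : Filter.Tendsto (fun k : ℕ => 1 / ((k : ℝ) + 1)) Filter.atTop (nhds 0) :=
    tendsto_one_div_add_atTop_nhds_zero_nat
  have hlim : Filter.Tendsto (fun k => ((x k : C00 𝕜 n) : Space 𝕜 n)) Filter.atTop (nhds z) := by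
    rw [tendsto_iff_norm_sub_tendsto_zero]
    refine squeeze_zero (fun k => norm_nonneg _) (fun k => ?_) hlim0
    rw [norm_sub_rev]
    exact (hx k).le
  have h1 : ∀ k, ‖D.op 𝕜 hn ((x k : C00 𝕜 n) : Space 𝕜 n)‖ ^ 2 ≤
      64 * ((s + 1 / ((k : ℝ) + 1)) * ‖((x k : C00 𝕜 n) : Space 𝕜 n)‖) := by
    intro k
    rw [op_coe, norm_coe, norm_coe]
    have h2 : ∀ j, ‖(x k).coord j‖ ≤ s + 1 / ((k : ℝ) + 1) := by
      intro j
      calc ‖(x k).coord j‖ = ‖cf 𝕜 n j z - cf 𝕜 n j (z - ((x k : C00 𝕜 n) : Space 𝕜 n))‖ := by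
            rw [map_sub, cf_coe, sub_sub_cancel]
        _ ≤ ‖cf 𝕜 n j z‖ + ‖cf 𝕜 n j (z - ((x k : C00 𝕜 n) : Space 𝕜 n))‖ := norm_sub_le _ _
        _ ≤ s + 1 / ((k : ℝ) + 1) := add_le_add (hs j) ((cf_norm j _).trans (hx k).le)
    have h3 := D.lin_norm_le hn (x k) h2
    have h4 : 0 ≤ (s + 1 / ((k : ℝ) + 1)) * schNorm (x k) :=
      mul_nonneg (by positivity) (schNorm_nonneg _)
    calc schNorm (D.lin 𝕜 (x k)) ^ 2
        ≤ (8 * Real.sqrt ((s + 1 / ((k : ℝ) + 1)) * schNorm (x k))) ^ 2 :=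
          pow_le_pow_left₀ (schNorm_nonneg _) h3 2
      _ = 64 * ((s + 1 / ((k : ℝ) + 1)) * schNorm (x k)) := by
          rw [mul_pow, Real.sq_sqrt h4]; norm_num
  have hl1 : Filter.Tendsto (fun k => ‖D.op 𝕜 hn ((x k : C00 𝕜 n) : Space 𝕜 n)‖ ^ 2)
      Filter.atTop (nhds (‖D.op 𝕜 hn z‖ ^ 2)) :=
    ((((D.op 𝕜 hn).continuous.tendsto z).comp hlim).norm).pow 2
  have hl2 : Filter.Tendsto (fun k : ℕ => 64 * ((s + 1 / ((k : ℝ) + 1)) *
      ‖((x k : C00 𝕜 n) : Space 𝕜 n)‖)) Filter.atTop (nhds (64 * ((s + 0) * ‖z‖))) :=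
    ((hlim0.const_add s).mul hlim.norm).const_mul 64
  have h5 := le_of_tendsto_of_tendsto' hl1 hl2 h1
  rwa [add_zero] at h5

/-- A non-zero vector of an infinite-dimensional subspace that vanishes on an initial segment. -/
theorem exists_vanishing {Z : Submodule 𝕜 (Space 𝕜 n)} (hZ : ¬ FiniteDimensional 𝕜 Z)
    (N : ℕ+) : ∃ z ∈ Z, z ≠ 0 ∧ ∀ l ≤ N, cf 𝕜 n l z = 0 := by
  classical
  by_contra hcon
  push Not at hcon
  apply hZ
  let f : Z →ₗ[𝕜] (Finset.Iic N → 𝕜) :=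
    { toFun := fun z l => cf 𝕜 n l z
      map_add' := fun x y => by ext l; simp
      map_smul' := fun c x => by ext l; simp }
  have hf : Function.Injective f := by
    rw [injective_iff_map_eq_zero]
    intro z hz
    by_contra hne
    obtain ⟨l, hl, hl'⟩ := hcon z z.2 (fun h => hne (Subtype.ext h))
    apply hl'
    have := congrFun hz ⟨l, Finset.mem_Iic.2 hl⟩
    exact this
  exact FiniteDimensional.of_injective f hf

/-- Gliding humps: sums of many vectors with one large coordinate each. -/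
theorem exists_humps {Z : Submodule 𝕜 (Space 𝕜 n)} (hZ : ¬ FiniteDimensional 𝕜 Z)
    (hsep : ∀ z ∈ Z, (∀ l, cf 𝕜 n l z = 0) → z = 0) (r : ℕ) : ∀ (N : ℕ+) (η : ℝ), 0 < η →
    ∃ z ∈ Z, ∃ E : Finset ℕ+, E.card = r ∧ (∀ l ∈ E, N < l) ∧ (∀ l ≤ N, cf 𝕜 n l z = 0) ∧
      (∀ l, ‖cf 𝕜 n l z‖ ≤ 1 + η) ∧ ∀ l ∈ E, 1 - η ≤ ‖cf 𝕜 n l z‖ := by
  classical
  induction r with
  | zero =>
    intro N η hη
    refine ⟨0, Z.zero_mem, ∅, rfl, by simp, by simp, fun l => ?_, by simp⟩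
    rw [map_zero, norm_zero]; linarith
  | succ r ih =>
    intro N η hη
    obtain ⟨z₀, hz₀, hne, hvan⟩ := exists_vanishing hZ N
    -- the largest coordinate
    obtain ⟨l₀, hl₀⟩ : ∃ l, cf 𝕜 n l z₀ ≠ 0 := by
      by_contra h
      push Not at h
      exact hne (hsep z₀ hz₀ h)
    obtain ⟨N', hN'⟩ := cf_tail z₀ (norm_pos_iff.2 hl₀)
    have hl₀N' : l₀ ≤ N' := by
      by_contra h
      exact lt_irrefl _ (hN' l₀ (not_le.1 h))
    obtain ⟨p, hpmem, hp⟩ := Finset.exists_max_image (Finset.Iic N') (fun l => ‖cf 𝕜 n l z₀‖)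
      ⟨l₀, Finset.mem_Iic.2 hl₀N'⟩
    have hpmax : ∀ l, ‖cf 𝕜 n l z₀‖ ≤ ‖cf 𝕜 n p z₀‖ := by
      intro l
      by_cases h : l ≤ N'
      · exact hp l (Finset.mem_Iic.2 h)
      · exact (hN' l (not_le.1 h)).le.trans (hp l₀ (Finset.mem_Iic.2 hl₀N'))
    have hp0 : cf 𝕜 n p z₀ ≠ 0 := by
      rw [← norm_pos_iff]
      exact lt_of_lt_of_le (norm_pos_iff.2 hl₀) (hpmax l₀)
    have hNp : N < p := by
      by_contra h
      exact hp0 (hvan p (not_lt.1 h))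
    set u : Space 𝕜 n := (cf 𝕜 n p z₀)⁻¹ • z₀ with hu
    have huc : ∀ l, ‖cf 𝕜 n l u‖ = ‖cf 𝕜 n p z₀‖⁻¹ * ‖cf 𝕜 n l z₀‖ := by
      intro l
      rw [hu, map_smul, smul_eq_mul, norm_mul, norm_inv]
    have hu1 : ∀ l, ‖cf 𝕜 n l u‖ ≤ 1 := by
      intro l
      rw [huc, inv_mul_le_iff₀ (norm_pos_iff.2 hp0), mul_one]
      exact hpmax l
    have hup : ‖cf 𝕜 n p u‖ = 1 := by
      rw [huc, inv_mul_cancel₀ (norm_ne_zero_iff.2 hp0)]
    have huZ : u ∈ Z := Z.smul_mem _ hz₀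
    have hu0 : ∀ l ≤ N, cf 𝕜 n l u = 0 := by
      intro l hl
      rw [hu, map_smul, hvan l hl, smul_zero]
    obtain ⟨N₁, hN₁⟩ := cf_tail u (half_pos hη)
    obtain ⟨z', hz', E, hEc, hEN, hE0, hE1, hE2⟩ := ih (max N₁ p) (η / 2) (half_pos hη)
    have hpE : p ∉ E := fun h => absurd (hEN p h) (not_lt.2 (le_max_right _ _))
    refine ⟨u + z', Z.add_mem huZ hz', insert p E, ?_, ?_, ?_, ?_, ?_⟩
    · rw [Finset.card_insert_of_notMem hpE, hEc]
    · intro l hl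
      rcases Finset.mem_insert.1 hl with rfl | hl
      · exact hNp
      · exact hNp.trans (lt_of_le_of_lt (le_max_right _ _) (hEN l hl))
    · intro l hl
      rw [map_add, hu0 l hl, hE0 l ((hl.trans hNp.le).trans (le_max_right _ _)), add_zero]
    · intro l
      rw [map_add]
      by_cases h : l ≤ max N₁ p
      · rw [hE0 l h, add_zero]
        have := hu1 l
        linarith
      · have h1 := hN₁ l (lt_of_le_of_lt (le_max_left _ _) (not_le.1 h))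
        have h2 := hE1 l
        have h3 := norm_add_le (cf 𝕜 n l u) (cf 𝕜 n l z')
        linarith
    · intro l hl
      rw [map_add]
      rcases Finset.mem_insert.1 hl with rfl | hl
      · rw [hE0 l (le_max_right _ _), add_zero, hup]
        linarith
      · have h1 := hN₁ l (lt_of_le_of_lt (le_max_left _ _) (hEN l hl))
        have h2 := hE2 l hl
        have h3 : ‖cf 𝕜 n l z'‖ ≤ ‖cf 𝕜 n l u + cf 𝕜 n l z'‖ + ‖cf 𝕜 n l u‖ := by
          have := norm_sub_le (cf 𝕜 n l u + cf 𝕜 n l z') (cf 𝕜 n l u)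
          rwa [add_sub_cancel_left] at this
        linarith

/-- The operator is strictly singular. -/
theorem Dat.op_strictlySingular (D : Dat n) (hn : 1 ≤ n) : StrictlySingular (D.op 𝕜 hn) := by
  rintro Z - hZ ⟨c, hc, hcZ⟩
  -- on `Z` the norm is controlled by the supremum norm
  have hK : ∀ z ∈ Z, ∀ s : ℝ, (∀ l, ‖cf 𝕜 n l z‖ ≤ s) → c ^ 2 * ‖z‖ ≤ 64 * s := by
    intro z hz s hs
    have hs0 : 0 ≤ s := (norm_nonneg _).trans (hs 1)
    have h1 := D.op_norm_le hn z hs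
    have h2 : (c * ‖z‖) ^ 2 ≤ ‖D.op 𝕜 hn z‖ ^ 2 :=
      pow_le_pow_left₀ (by positivity) (hcZ z hz) 2
    rcases (norm_nonneg z).eq_or_lt with h0 | hpos
    · rw [← h0]; nlinarith
    · have h3 : (c ^ 2 * ‖z‖) * ‖z‖ ≤ (64 * s) * ‖z‖ := by nlinarith
      exact le_of_mul_le_mul_right h3 hpos
  have hsep : ∀ z ∈ Z, (∀ l, cf 𝕜 n l z = 0) → z = 0 := by
    intro z hz h
    have h1 := hK z hz 0 (fun l => by rw [h l, norm_zero])
    have h2 : ‖z‖ ≤ 0 := by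
      by_contra hcon
      push Not at hcon
      have : 0 < c ^ 2 * ‖z‖ := by positivity
      linarith
    exact norm_le_zero_iff.1 h2
  obtain ⟨r, hr⟩ := exists_nat_gt (2 * (64 * (3 / 2)) / c ^ 2)
  have hr0 : 0 < r := by
    have : (0 : ℝ) < r := lt_of_le_of_lt (by positivity) hr
    exact_mod_cast this
  obtain ⟨z, hz, E, hEc, hEN, -, hE1, hE2⟩ := exists_humps hZ hsep r ⟨r, hr0⟩ (1 / 2) (by norm_num)
  have h1 := hK z hz (3 / 2) (fun l => (hE1 l).trans (by norm_num))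
  have h2 : ∑ l ∈ E, ‖cf 𝕜 n l z‖ ≤ ‖z‖ := by
    refine sum_cf_le hn E (fun a ha => ?_) z
    rw [hEc]
    have h3 : (⟨r, hr0⟩ : ℕ+) < a := hEN a ha
    exact le_of_lt (by exact_mod_cast h3)
  have h3 : (r : ℝ) * (1 / 2) ≤ ∑ l ∈ E, ‖cf 𝕜 n l z‖ := by
    rw [← hEc, ← nsmul_eq_mul]
    refine Finset.card_nsmul_le_sum _ _ _ fun l hl => ?_
    have := hE2 l hl
    linarith
  have hc2 : 0 < c ^ 2 := by positivity
  rw [div_lt_iff₀ hc2] at hr
  have h4 : c ^ 2 * (r * (1 / 2)) ≤ c ^ 2 * ‖z‖ :=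
    mul_le_mul_of_nonneg_left (h3.trans h2) hc2.le
  nlinarith

end Pool.Agent.Q82.Sch
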