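import Pool.Agent.Q82.Sine
import Pool.Agent.Q82.Pert

/-! # Dirichlet eigenfunctions of `-u'' + V u` on `(0,1)` for a small potential -/

namespace Q82.Schr

open MeasureTheory Set Filter Topology
open scoped ENNReal InnerProductSpace
open Q82.Sine

noncomputable section

/-- Dirichlet eigenfunction -/
def IsEigen (V : ℝ → ℝ) (l : ℝ) (u : ℝ → ℝ) : Prop :=
  ContinuousOn u (Icc 0 1) ∧ u 0 = 0 ∧ u 1 = 0 ∧
    ∃ u' : ℝ → ℝ, ∀ x ∈ Ioo (0 : ℝ) 1,
      HasDerivAt u (u' x) x ∧ HasDerivAt u' (V x * u x - l * u x) x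

/-- admissible eigenbasis -/
def IsBasis (V : ℝ → ℝ) (u : ℕ → ℝ → ℝ) (l : ℕ → ℝ) : Prop :=
  Monotone l ∧ (∀ j, IsEigen V (l j) (u j)) ∧
    (∀ i j, ∫ x in (0 : ℝ)..1, u i x * u j x = if i = j then 1 else 0) ∧
    ∀ f : ℝ → ℝ, MemLp f 2 (volume.restrict (Ioc (0 : ℝ) 1)) →
      (∀ j, ∫ x in (0 : ℝ)..1, f x * u j x = 0) →
      ∀ᵐ x ∂volume.restrict (Ioc (0 : ℝ) 1), f x = 0

/-- eigenvalues of the unperturbed problem -/
def m (k : ℕ) : ℝ := ((k + 1) * Real.pi) ^ 2

/-- derivative of `phi` -/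
def dphi (k : ℕ) (x : ℝ) : ℝ := √2 * ((k + 1) * Real.pi * Real.cos ((k + 1) * Real.pi * x))

lemma phi_deriv (k : ℕ) (x : ℝ) : HasDerivAt (phi k) (dphi k x) x := by
  have hl : HasDerivAt (fun u : ℝ => ((k : ℝ) + 1) * Real.pi * u) (((k : ℝ) + 1) * Real.pi) x := by
    simpa using (hasDerivAt_id x).const_mul (((k : ℝ) + 1) * Real.pi)
  refine (hl.sin.const_mul √2).congr_deriv ?_
  unfold dphi
  ring

lemma dphi_deriv (k : ℕ) (x : ℝ) : HasDerivAt (dphi k) (- m k * phi k x) x := by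
  have hl : HasDerivAt (fun u : ℝ => ((k : ℝ) + 1) * Real.pi * u) (((k : ℝ) + 1) * Real.pi) x := by
    simpa using (hasDerivAt_id x).const_mul (((k : ℝ) + 1) * Real.pi)
  refine ((hl.cos.const_mul (((k : ℝ) + 1) * Real.pi)).const_mul √2).congr_deriv ?_
  unfold m phi
  ring

lemma phi_zero (k : ℕ) : phi k 0 = 0 := by simp [phi]

lemma phi_one (k : ℕ) : phi k 1 = 0 := by
  unfold phi
  have := Real.sin_nat_mul_pi (k + 1)
  push_cast at this
  rw [mul_one, this, mul_zero]

lemma dphi_cont (k : ℕ) : Continuous (dphi k) := by unfold dphi; fun_prop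

/-- Green's identity -/
lemma green {V : ℝ → ℝ} (hV : Continuous V) {l : ℝ} {u : ℝ → ℝ} (hu : IsEigen V l u) (k : ℕ) :
    (l - m k) * ∫ x in (0 : ℝ)..1, u x * phi k x = ∫ x in (0 : ℝ)..1, (V x * u x) * phi k x := by
  obtain ⟨hc, h0, h1, u', hu'⟩ := hu
  have hg : ContinuousOn (fun x => V x * u x - l * u x) (Icc 0 1) :=
    (hV.continuousOn.mul hc).sub (continuousOn_const.mul hc)
  obtain ⟨M, hM⟩ := isCompact_Icc.exists_bound_of_continuousOn hg
  obtain ⟨N, hN⟩ := isCompact_Icc.exists_bound_of_continuousOn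
    ((dphi_cont k).continuousOn (s := Icc (0 : ℝ) 1))
  have hbd : ∀ x ∈ Ioo (0 : ℝ) 1, |u' x| ≤ |u' (1 / 2)| + M := by
    intro x hx
    have h2 := Convex.norm_image_sub_le_of_norm_hasDerivWithin_le (f := u')
      (s := Ioo (0 : ℝ) 1) (x := 1 / 2) (y := x) (C := M)
      (fun y hy => (hu' y hy).2.hasDerivWithinAt) (fun y hy => hM y (Ioo_subset_Icc_self hy))
      (convex_Ioo 0 1) (by norm_num) hx
    have h3 : ‖x - 1 / 2‖ ≤ 1 := by
      rw [Real.norm_eq_abs, abs_le]; constructor <;> linarith [hx.1, hx.2]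
    have hM0 : 0 ≤ M := (norm_nonneg _).trans (hM 0 (by norm_num))
    rw [Real.norm_eq_abs] at h2
    have h4 : |u' x| ≤ |u' x - u' (1 / 2)| + |u' (1 / 2)| := by
      have := abs_add_le (u' x - u' (1 / 2)) (u' (1 / 2))
      rwa [sub_add_cancel] at this
    have h5 : M * ‖x - 1 / 2‖ ≤ M := mul_le_of_le_one_right hM0 h3
    linarith
  set F : ℝ → ℝ := fun x => u' x * phi k x - u x * dphi k x with hF
  have hFd : ∀ x ∈ Ioo (0 : ℝ) 1, HasDerivAt F
      ((V x * u x) * phi k x - (l - m k) * (u x * phi k x)) x := by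
    intro x hx
    have h2 := ((hu' x hx).2.mul (phi_deriv k x)).sub ((hu' x hx).1.mul (dphi_deriv k x))
    refine h2.congr_deriv ?_
    ring
  have hFb : ∀ x ∈ Ioo (0 : ℝ) 1, |F x| ≤ (|u' (1 / 2)| + M) * |phi k x| + N * |u x| := by
    intro x hx
    have h2 : |F x| ≤ |u' x * phi k x| + |u x * dphi k x| := abs_sub _ _
    rw [abs_mul, abs_mul] at h2
    have h3 := hbd x hx
    have h4 := hN x (Ioo_subset_Icc_self hx)
    rw [Real.norm_eq_abs] at h4
    have h5 := mul_le_mul_of_nonneg_right h3 (abs_nonneg (phi k x))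
    have h6 := mul_le_mul_of_nonneg_left h4 (abs_nonneg (u x))
    linarith
  have hB : ContinuousOn (fun x => (|u' (1 / 2)| + M) * |phi k x| + N * |u x|) (Icc 0 1) :=
    (continuousOn_const.mul (phi_cont k).abs.continuousOn).add (continuousOn_const.mul hc.abs)
  have hB0 : Tendsto (fun x => (|u' (1 / 2)| + M) * |phi k x| + N * |u x|) (𝓝[>] 0) (𝓝 0) := by
    have h2 := hB 0 (by norm_num)
    unfold ContinuousWithinAt at h2
    simp only [phi_zero, h0, abs_zero, mul_zero, add_zero] at h2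
    apply h2.mono_left
    rw [← nhdsWithin_Ioo_eq_nhdsGT (zero_lt_one (α := ℝ))]
    exact nhdsWithin_mono _ Ioo_subset_Icc_self
  have hB1 : Tendsto (fun x => (|u' (1 / 2)| + M) * |phi k x| + N * |u x|) (𝓝[<] 1) (𝓝 0) := by
    have h2 := hB 1 (by norm_num)
    unfold ContinuousWithinAt at h2
    simp only [phi_one, h1, abs_zero, mul_zero, add_zero] at h2
    apply h2.mono_left
    rw [← nhdsWithin_Ioo_eq_nhdsLT (zero_lt_one (α := ℝ))]
    exact nhdsWithin_mono _ Ioo_subset_Icc_self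
  have hF0 : Tendsto F (𝓝[>] 0) (𝓝 0) := by
    apply squeeze_zero_norm' _ hB0
    filter_upwards [Ioo_mem_nhdsGT (zero_lt_one (α := ℝ))] with x hx
    exact hFb x hx
  have hF1 : Tendsto F (𝓝[<] 1) (𝓝 0) := by
    apply squeeze_zero_norm' _ hB1
    filter_upwards [Ioo_mem_nhdsLT (zero_lt_one (α := ℝ))] with x hx
    exact hFb x hx
  have hi1 : IntervalIntegrable (fun x => (V x * u x) * phi k x) volume 0 1 := by
    apply ContinuousOn.intervalIntegrable
    rw [uIcc_of_le zero_le_one]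
    exact (hV.continuousOn.mul hc).mul (phi_cont k).continuousOn
  have hi2 : IntervalIntegrable (fun x => u x * phi k x) volume 0 1 := by
    apply ContinuousOn.intervalIntegrable
    rw [uIcc_of_le zero_le_one]
    exact hc.mul (phi_cont k).continuousOn
  have h3 := intervalIntegral.integral_eq_sub_of_hasDerivAt_of_tendsto zero_lt_one hFd
    (hi1.sub (hi2.const_mul _)) hF0 hF1
  rw [intervalIntegral.integral_sub hi1 (hi2.const_mul _), intervalIntegral.integral_const_mul,
    sub_self] at h3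
  linarith

/-- the weight -/
def w (x : ℝ) : ℝ := max (x - 1 / 2) 0

lemma w_cont : Continuous w := by unfold w; fun_prop

lemma w_nonneg (x : ℝ) : 0 ≤ w x := le_max_right _ _

lemma w_le {x : ℝ} (hx : x ≤ 1) : w x ≤ 1 / 2 := max_le (by linarith) (by norm_num)

lemma mean_phi (k : ℕ) : ∫ x in (0 : ℝ)..1, w x * phi k x ^ 2 =
    1 / 8 - (1 - Real.cos ((k + 1) * Real.pi)) / (2 * ((k + 1) * Real.pi)) ^ 2 := by
  have hpi := Real.pi_pos
  set a : ℝ := 2 * ((k + 1) * Real.pi) with ha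
  have ha0 : a ≠ 0 := by positivity
  have hc : Continuous (fun x => w x * phi k x ^ 2) := w_cont.mul ((phi_cont k).pow 2)
  rw [← intervalIntegral.integral_add_adjacent_intervals (b := 1 / 2)
    (hc.intervalIntegrable _ _) (hc.intervalIntegrable _ _)]
  have e1 : ∫ x in (0 : ℝ)..(1 / 2), w x * phi k x ^ 2 = 0 := by
    have : ∫ x in (0 : ℝ)..(1 / 2), w x * phi k x ^ 2 = ∫ x in (0 : ℝ)..(1 / 2), (0 : ℝ) := by
      apply intervalIntegral.integral_congr
      intro x hx
      rw [uIcc_of_le (by norm_num)] at hx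
      have : w x = 0 := max_eq_right (by linarith [hx.2])
      simp [this]
    rw [this]; simp
  have e2 : ∫ x in (1 / 2 : ℝ)..1, w x * phi k x ^ 2 =
      ∫ x in (1 / 2 : ℝ)..1, (x - 1 / 2) * (1 - Real.cos (a * x)) := by
    apply intervalIntegral.integral_congr
    intro x hx
    rw [uIcc_of_le (by norm_num)] at hx
    have h1 : w x = x - 1 / 2 := max_eq_left (by linarith [hx.1])
    have h2 : phi k x ^ 2 = 1 - Real.cos (a * x) := by
      have h3 : a * x = 2 * ((k + 1) * Real.pi * x) := by rw [ha]; ring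
      rw [h3, Real.cos_two_mul, phi, mul_pow, Real.sq_sqrt (by norm_num), Real.sin_sq]
      ring
    simp only
    rw [h1, h2]
  have e3 : ∫ x in (1 / 2 : ℝ)..1, (x - 1 / 2) * (1 - Real.cos (a * x)) =
      1 / 8 - (1 - Real.cos ((k + 1) * Real.pi)) / a ^ 2 := by
    have hd : ∀ x ∈ uIcc (1 / 2 : ℝ) 1, HasDerivAt
        (fun x => (x - 1 / 2) ^ 2 / 2 - ((x - 1 / 2) * Real.sin (a * x) / a +
          Real.cos (a * x) / a ^ 2)) ((x - 1 / 2) * (1 - Real.cos (a * x))) x := by
      intro x _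
      have hl : HasDerivAt (fun x : ℝ => a * x) a x := by
        simpa using (hasDerivAt_id x).const_mul a
      have hx : HasDerivAt (fun x : ℝ => x - 1 / 2) 1 x := (hasDerivAt_id x).sub_const _
      have h := ((hx.pow 2).div_const 2).sub (((hx.mul hl.sin).div_const a).add
        (hl.cos.div_const (a ^ 2)))
      refine h.congr_deriv ?_
      field_simp
      ring
    rw [intervalIntegral.integral_eq_sub_of_hasDerivAt hd
      (by apply Continuous.intervalIntegrable; fun_prop)]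
    have s1 : Real.sin (a * 1) = 0 := by
      have := Real.sin_nat_mul_pi (2 * (k + 1))
      rw [← this]; congr 1; rw [ha]; push_cast; ring
    have c1 : Real.cos (a * 1) = 1 := by
      have h := Real.cos_nat_mul_two_pi (k + 1)
      have e : a * 1 = ((k + 1 : ℕ) : ℝ) * (2 * Real.pi) := by rw [ha]; push_cast; ring
      rw [e]; exact h
    have c2 : Real.cos (a * (1 / 2)) = Real.cos ((k + 1) * Real.pi) := by
      congr 1; rw [ha]; ring
    rw [s1, c1, c2]
    field_simp
    ring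
  rw [e1, e2, e3, zero_add]

/-- the potential -/
def V (x : ℝ) : ℝ := 1 / 100 * w x

lemma V_cont : Continuous V := w_cont.const_mul _

lemma V_abs {x : ℝ} (hx : x ≤ 1) : |V x| ≤ 1 / 200 := by
  unfold V
  rw [abs_of_nonneg (mul_nonneg (by norm_num) (w_nonneg x))]
  linarith [w_le hx]

variable {u : ℕ → ℝ → ℝ} {l : ℕ → ℝ}

lemma u_mem (hB : IsBasis V u l) (j : ℕ) : MemLp (u j) 2 mu := mem_of_cont (hB.2.1 j).1

lemma Vf_mem {f : ℝ → ℝ} (hf : ContinuousOn f (Icc 0 1)) : MemLp (fun x => V x * f x) 2 mu :=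
  mem_of_cont (V_cont.continuousOn.mul hf)

lemma Vf_norm {f : ℝ → ℝ} (hf : ContinuousOn f (Icc 0 1)) :
    ‖(Vf_mem hf).toLp (fun x => V x * f x)‖ ≤ 1 / 200 * ‖(mem_of_cont hf).toLp f‖ := by
  apply Lp.norm_le_mul_norm_of_ae_le_mul
  filter_upwards [(Vf_mem hf).coeFn_toLp, (mem_of_cont hf).coeFn_toLp,
    ae_restrict_mem measurableSet_Ioc] with x h1 h2 h3
  rw [h1, h2, norm_mul]
  exact mul_le_mul_of_nonneg_right (V_abs h3.2) (norm_nonneg _)

lemma u_orth (hB : IsBasis V u l) : Orthonormal ℝ (fun j => (u_mem hB j).toLp (u j)) := by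
  rw [orthonormal_iff_ite]
  intro i j
  exact (inner_toLp (u_mem hB i) (u_mem hB j)).trans (hB.2.2.1 i j)

/-- the Hilbert basis of an admissible eigenbasis -/
def bas (hB : IsBasis V u l) : HilbertBasis ℕ ℝ H :=
  HilbertBasis.mkOfOrthogonalEqBot (u_orth hB) (by
    rw [Submodule.eq_bot_iff]
    intro f hf
    have h1 : ∀ j, ∫ x in (0 : ℝ)..1, f x * u j x = 0 := by
      intro j
      have h2 := (Submodule.mem_orthogonal _ _).1 hf _ (Submodule.subset_span ⟨j, rfl⟩)
      simp only at h2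
      rw [L2.inner_def] at h2
      refine Eq.trans ?_ h2
      rw [intervalIntegral.integral_of_le zero_le_one]
      apply integral_congr_ae
      filter_upwards [(u_mem hB j).coeFn_toLp] with x hx
      rw [hx]
      simp
    have h3 := hB.2.2.2 f (Lp.memLp f) h1
    rw [Lp.ext_iff]
    filter_upwards [h3, Lp.coeFn_zero ℝ 2 mu] with x hx hx'
    rw [hx, hx']
    rfl)

lemma bas_apply (hB : IsBasis V u l) (j : ℕ) : bas hB j = (u_mem hB j).toLp (u j) := by
  unfold bas
  rw [HilbertBasis.coe_mkOfOrthogonalEqBot]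

lemma m_gap (k n : ℕ) (h : k < n) : 27 ≤ m n - m k := by
  unfold m
  have h1 : (k : ℝ) + 1 ≤ n := by exact_mod_cast h
  have hk : (0 : ℝ) ≤ k := Nat.cast_nonneg k
  have hpi := Real.pi_gt_three
  have h2 : (9 : ℝ) ≤ Real.pi ^ 2 := by nlinarith
  have h3 : (3 : ℝ) ≤ (n + 1) ^ 2 - (k + 1) ^ 2 := by nlinarith
  nlinarith

/-- the data for the abstract perturbation lemma -/
def data (hB : IsBasis V u l) : Pert.Data H where
  b := bas hB
  s := basis
  lam := l
  mu := m
  p := fun j => (Vf_mem (hB.2.1 j).1).toLp (fun x => V x * u j x)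
  q := fun k => (Vf_mem (phi_cont k).continuousOn).toLp (fun x => V x * phi k x)
  ε := 1 / 200
  G := 27
  hε := by norm_num
  hG := by norm_num
  hp := fun j => by
    refine (Vf_norm (hB.2.1 j).1).trans ?_
    have : ‖(mem_of_cont (hB.2.1 j).1).toLp (u j)‖ = 1 := (u_orth hB).1 j
    rw [this, mul_one]
  hq := fun k => by
    refine (Vf_norm (phi_cont k).continuousOn).trans ?_
    have : ‖(mem_of_cont (phi_cont k).continuousOn).toLp (phi k)‖ = 1 := ph_orth.1 k
    rw [this, mul_one]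
  h1 := fun j k => by
    rw [bas_apply, basis_apply, ph, inner_toLp, inner_toLp]
    exact green V_cont (hB.2.1 j) k
  h2 := fun j k => by
    rw [bas_apply, basis_apply, ph, inner_toLp, inner_toLp]
    congr 1
    ext x
    ring
  hlam := hB.1
  hgap := m_gap

/-- the mean of the weight is close to the unperturbed one -/
theorem mean_close (hB : IsBasis V u l) (j : ℕ) :
    |(∫ x in (0 : ℝ)..1, w x * u j x ^ 2) - ∫ x in (0 : ℝ)..1, w x * phi j x ^ 2| ≤ 1 / 1000 := by
  obtain ⟨-, σ, hσ, hclose⟩ := (data hB).close j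
  have hσ2 : σ ^ 2 = 1 := by rcases hσ with h | h <;> rw [h] <;> norm_num
  have hcu := (hB.2.1 j).1
  have hcp : ContinuousOn (phi j) (Icc 0 1) := (phi_cont j).continuousOn
  have hd : ContinuousOn (fun x => u j x - σ * phi j x) (Icc 0 1) :=
    hcu.sub (continuousOn_const.mul hcp)
  have ha : ContinuousOn (fun x => u j x + σ * phi j x) (Icc 0 1) :=
    hcu.add (continuousOn_const.mul hcp)
  have hwd : ContinuousOn (fun x => w x * (u j x - σ * phi j x)) (Icc 0 1) :=
    w_cont.continuousOn.mul hd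
  have e1 : (∫ x in (0 : ℝ)..1, w x * u j x ^ 2) - ∫ x in (0 : ℝ)..1, w x * phi j x ^ 2 =
      ⟪(mem_of_cont hwd).toLp _, (mem_of_cont ha).toLp _⟫_ℝ := by
    rw [inner_toLp, ← intervalIntegral.integral_sub]
    · congr 1
      ext x
      linear_combination (w x * phi j x ^ 2) * hσ2
    · apply ContinuousOn.intervalIntegrable
      rw [uIcc_of_le zero_le_one]
      exact w_cont.continuousOn.mul (hcu.pow 2)
    · apply ContinuousOn.intervalIntegrable
      rw [uIcc_of_le zero_le_one]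
      exact w_cont.continuousOn.mul (hcp.pow 2)
  have e2 : (mem_of_cont hd).toLp _ = (data hB).b j - σ • (data hB).s j := by
    change _ = bas hB j - σ • basis j
    rw [bas_apply, basis_apply, ph, ← MemLp.toLp_const_smul, ← MemLp.toLp_sub]
    rfl
  have e3 : (mem_of_cont ha).toLp _ = (data hB).b j + σ • (data hB).s j := by
    change _ = bas hB j + σ • basis j
    rw [bas_apply, basis_apply, ph, ← MemLp.toLp_const_smul, ← MemLp.toLp_add]
    rfl
  have e4 : ‖(mem_of_cont hwd).toLp _‖ ≤ 1 / 2 * ‖(mem_of_cont hd).toLp _‖ := by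
    apply Lp.norm_le_mul_norm_of_ae_le_mul
    filter_upwards [(mem_of_cont hwd).coeFn_toLp, (mem_of_cont hd).coeFn_toLp,
      ae_restrict_mem measurableSet_Ioc] with x h1 h2 h3
    rw [h1, h2, norm_mul]
    apply mul_le_mul_of_nonneg_right _ (norm_nonneg _)
    rw [Real.norm_of_nonneg (w_nonneg x)]
    exact w_le h3.2
  have e5 : ‖(mem_of_cont ha).toLp _‖ ≤ 2 := by
    rw [e3]
    refine (norm_add_le _ _).trans ?_
    rw [norm_smul, (data hB).b.orthonormal.1 j, (data hB).s.orthonormal.1 j]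
    rcases hσ with h | h <;> rw [h] <;> norm_num
  have e6 : ‖(mem_of_cont hd).toLp _‖ ≤ 1 / 1000 := by
    rw [e2]
    apply le_of_sq_le_sq _ (by norm_num)
    refine hclose.trans ?_
    change 2 * ((1 / 200 : ℝ) / (27 - 2 * (1 / 200))) ^ 2 ≤ _
    norm_num
  rw [e1]
  refine (abs_real_inner_le_norm _ _).trans ?_
  have h7 := norm_nonneg ((mem_of_cont ha).toLp _)
  have h8 := norm_nonneg ((mem_of_cont hwd).toLp _)
  nlinarith

theorem main (hB : IsBasis V u l) :
    ∫ x in (0 : ℝ)..1, V x * u 2 x ^ 2 < ∫ x in (0 : ℝ)..1, V x * u 1 x ^ 2 := by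
  have h1 := abs_le.1 (mean_close hB 1)
  have h2 := abs_le.1 (mean_close hB 2)
  rw [mean_phi] at h1 h2
  have c1 : Real.cos (((1 : ℕ) + 1) * Real.pi) = 1 := by
    have : (((1 : ℕ) : ℝ) + 1) * Real.pi = 2 * Real.pi := by norm_num
    rw [this, Real.cos_two_pi]
  have c2 : Real.cos (((2 : ℕ) + 1) * Real.pi) = -1 := by
    have : (((2 : ℕ) : ℝ) + 1) * Real.pi = Real.pi + 2 * Real.pi := by push_cast; ring
    rw [this, Real.cos_add_two_pi, Real.cos_pi]
  rw [c1] at h1
  rw [c2] at h2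
  have hpi := Real.pi_lt_d2
  have hpi0 := Real.pi_pos
  have h3 : (1 : ℝ) / 200 ≤ (1 - -1) / (2 * (((2 : ℕ) + 1) * Real.pi)) ^ 2 := by
    rw [div_le_div_iff₀ (by norm_num) (by positivity)]
    push_cast
    nlinarith
  have h4 : ∀ f : ℝ → ℝ, ∫ x in (0 : ℝ)..1, V x * f x ^ 2 =
      1 / 100 * ∫ x in (0 : ℝ)..1, w x * f x ^ 2 := by
    intro f
    rw [← intervalIntegral.integral_const_mul]
    congr 1
    ext x
    unfold V
    ring
  rw [h4, h4]
  have h5 := h1.1
  have h6 := h2.2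
  norm_num at h5
  nlinarith

end

end Q82.Schr
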