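import Mathlib

/-!
# Elementary facts on strongly continuous semigroups
-/

namespace Q82.Semi

open Filter Topology

variable {E : Type*} [NormedAddCommGroup E] [NormedSpace ℂ E]

/-- The orbit of an eigenvector of the generator. -/
theorem eigen {T : ℝ → E →L[ℂ] E} (h0 : T 0 = 1)
    (hadd : ∀ s t, 0 ≤ s → 0 ≤ t → T (s + t) = T s * T t)
    (hcont : ∀ φ, ContinuousOn (fun t => T t φ) (Set.Ici 0)) {φ : E} {l : ℂ}
    (h : Tendsto (fun t : ℝ => ((t : ℂ)⁻¹) • (T t φ - φ)) (𝓝[>] 0) (𝓝 (l • φ))) {t : ℝ}
    (ht : 0 ≤ t) : T t φ = Complex.exp (l * t) • φ := by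
  have hd : ∀ x ∈ Set.Ico 0 t, HasDerivWithinAt (fun r => T r φ) (l • T x φ) (Set.Ici x) x := by
    intro x hx
    rw [← hasDerivWithinAt_Ioi_iff_Ici, hasDerivWithinAt_iff_tendsto_slope' (by simp)]
    have h1 : Tendsto (fun r : ℝ => T x (((r : ℂ)⁻¹) • (T r φ - φ))) (𝓝[>] 0)
        (𝓝 (T x (l • φ))) := ((T x).continuous.tendsto _).comp h
    rw [map_smul] at h1
    have h2 : Tendsto (fun y : ℝ => y - x) (𝓝[>] x) (𝓝[>] 0) := by
      apply tendsto_nhdsWithin_of_tendsto_nhds_of_eventually_within
      · have : Tendsto (fun y : ℝ => y - x) (𝓝 x) (𝓝 (x - x)) :=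
          (continuous_id.sub continuous_const).tendsto x
        rw [sub_self] at this
        exact this.mono_left nhdsWithin_le_nhds
      · filter_upwards [self_mem_nhdsWithin] with y hy
        have hy' : x < y := hy
        exact sub_pos.2 hy'
    have h3 := h1.comp h2
    refine h3.congr' ?_
    filter_upwards [self_mem_nhdsWithin] with y hy
    have hy' : x < y := hy
    have hyx : 0 < y - x := sub_pos.2 hy'
    have h4 : T y = T x * T (y - x) := by
      rw [← hadd x (y - x) hx.1 hyx.le]; congr 1; ring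
    simp only [Function.comp, slope, vsub_eq_sub]
    rw [h4, mul_apply_eq_comp, ← map_sub, map_smul, ← Complex.ofReal_inv,
      Complex.coe_smul]
  have hexp : ∀ x : ℝ, HasDerivAt (fun r : ℝ => Complex.exp (-(l * r)))
      (-(l * Complex.exp (-(l * x)))) x := by
    intro x
    have h1 : HasDerivAt (fun r : ℂ => Complex.exp (-(l * r)))
        (Complex.exp (-(l * x)) * (-(l * 1))) (x : ℂ) :=
      (((hasDerivAt_id (x : ℂ)).const_mul l).neg).cexp
    have h2 := h1.comp_ofReal
    convert h2 using 1
    ring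
  have hc : ∀ x ∈ Set.Icc 0 t, Complex.exp (-(l * x)) • T x φ =
      Complex.exp (-(l * (0 : ℝ))) • T 0 φ := by
    apply constant_of_has_deriv_right_zero
    · apply ContinuousOn.smul
      · exact (Complex.continuous_exp.comp
          ((continuous_const.mul Complex.continuous_ofReal).neg)).continuousOn
      · exact (hcont φ).mono (fun x hx => hx.1)
    · intro x hx
      have h1 := ((hexp x).hasDerivWithinAt (s := Set.Ici x)).smul (hd x hx)
      have h2 : Complex.exp (-(l * x)) • l • T x φ + -(l * Complex.exp (-(l * x))) • T x φ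
          = 0 := by
        rw [smul_smul, neg_smul, mul_comm]
        simp
      rw [h2] at h1
      exact h1
  have h5 := hc t ⟨ht, le_rfl⟩
  rw [h0] at h5
  simp only [Complex.ofReal_zero, mul_zero, neg_zero, Complex.exp_zero, one_smul] at h5
  have h6 : Complex.exp (l * t) • (Complex.exp (-(l * t)) • T t φ) = Complex.exp (l * t) • φ := by
    rw [h5]; rfl
  rw [smul_smul, ← Complex.exp_add, add_neg_cancel, Complex.exp_zero, one_smul] at h6
  exact h6

end Q82.Semi
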