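import Pool.Agent.Q82.Dens

/-! # Distributional chaos of weighted shifts on sequence spaces: a Baire category argument -/

namespace Q82.Shift

open Filter Topology Q82.Dens

noncomputable section

/-- the data of a sequence space used in the arguments -/
structure SeqSp (K X : Type) [RCLike K] [NormedAddCommGroup X] [NormedSpace K X] where
  c : X →ₗ[K] (ℕ → K)
  inj : Function.Injective c
  le : ∀ x i, ‖c x i‖ ≤ ‖x‖
  dom : ∀ (x : X) (y : ℕ → K) (C : ℝ) (j : ℕ), 0 ≤ C → (∀ i, ‖y i‖ ≤ C * ‖c x (i + j)‖) →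
    ∃ z : X, c z = y ∧ ‖z‖ ≤ C * ‖x‖
  ys : X
  hys : ∀ i, c ys i = (((1 / ((i : ℝ) + 1) ^ 2 : ℝ)) : K)
  fin : ∀ (x : X) (ε : ℝ), 0 < ε → ∃ z : X, ‖x - z‖ < ε ∧ ∃ m, ∀ i, m ≤ i → c z i = 0

variable {K X : Type} [RCLike K] [NormedAddCommGroup X] [NormedSpace K X]

/-- `T` is the weighted backward shift with weights `B (i + 1) / B i` -/
def IsSh (s : SeqSp K X) (B : ℕ → ℝ) (T : X →L[K] X) : Prop :=
  ∀ x i, s.c (T x) i = ((B (i + 1) / B i : ℝ) : K) * s.c x (i + 1)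

lemma exists_T (s : SeqSp K X) (B : ℕ → ℝ) (hB : ∀ n, 0 < B n) (hB2 : ∀ n, B (n + 1) ≤ 2 * B n) :
    ∃ T : X →L[K] X, IsSh s B T := by
  have h1 : ∀ x : X, ∃ z : X, s.c z = (fun i => ((B (i + 1) / B i : ℝ) : K) * s.c x (i + 1)) ∧
      ‖z‖ ≤ 2 * ‖x‖ := by
    intro x
    apply s.dom x _ 2 1 (by norm_num)
    intro i
    rw [norm_mul, RCLike.norm_ofReal, abs_of_pos (div_pos (hB _) (hB _))]
    gcongr
    rw [div_le_iff₀ (hB i)]
    exact hB2 i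
  choose f hf1 hf2 using h1
  refine ⟨LinearMap.mkContinuous
    { toFun := f
      map_add' := fun x y => ?_
      map_smul' := fun r x => ?_ } 2 hf2, fun x i => ?_⟩
  · apply s.inj
    rw [map_add, hf1, hf1, hf1]
    ext i
    simp only [map_add, Pi.add_apply]
    ring
  · apply s.inj
    rw [RingHom.id_apply, map_smul, hf1, hf1]
    ext i
    simp only [map_smul, Pi.smul_apply, smul_eq_mul]
    ring
  · change s.c (f x) i = _
    rw [hf1]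

variable {s : SeqSp K X} {B : ℕ → ℝ} {T : X →L[K] X}

lemma pow_apply (hB : ∀ n, 0 < B n) (hT : IsSh s B T) (j : ℕ) (x : X) (i : ℕ) :
    s.c ((T ^ j) x) i = ((B (i + j) / B i : ℝ) : K) * s.c x (i + j) := by
  induction j generalizing i with
  | zero =>
    have : B i / B i = 1 := div_self (hB i).ne'
    simp [this]
  | succ j ih =>
    have e : (T ^ (j + 1)) x = T ((T ^ j) x) := by rw [pow_succ']; rfl
    rw [e, hT, ih, ← mul_assoc, ← RCLike.ofReal_mul]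
    have h1 : B (i + 1) / B i * (B (i + 1 + j) / B (i + 1)) = B (i + (j + 1)) / B i := by
      have := (hB i).ne'
      have := (hB (i + 1)).ne'
      rw [show i + 1 + j = i + (j + 1) by ring]
      field_simp
    rw [h1, show i + 1 + j = i + (j + 1) by ring]

lemma pow_norm_le (hB : ∀ n, 0 < B n) (hT : IsSh s B T) (j : ℕ) (hj : ∀ n, B (n + j) ≤ 2 * B n)
    (x : X) : ‖(T ^ j) x‖ ≤ 2 * ‖x‖ := by
  obtain ⟨z, hz1, hz2⟩ := s.dom x (s.c ((T ^ j) x)) 2 j (by norm_num) (by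
    intro i
    rw [pow_apply hB hT, norm_mul, RCLike.norm_ofReal, abs_of_pos (div_pos (hB _) (hB _))]
    gcongr
    rw [div_le_iff₀ (hB i)]
    exact hj i)
  have := s.inj hz1
  rwa [this] at hz2

lemma pow_fin (hB : ∀ n, 0 < B n) (hT : IsSh s B T) {z : X} {m : ℕ}
    (hz : ∀ i, m ≤ i → s.c z i = 0) {j : ℕ} (hj : m ≤ j) : (T ^ j) z = 0 := by
  apply s.inj
  ext i
  rw [pow_apply hB hT, hz (i + j) (by omega), mul_zero, map_zero]
  rfl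

/-- orbits tend to zero along `J` -/
lemma tend_zero (hB : ∀ n, 0 < B n) (hT : IsSh s B T) {J : Set ℕ}
    (hJ : ∀ j ∈ J, ∀ n, B (n + j) ≤ 2 * B n) (x : X) {ε : ℝ} (hε : 0 < ε) :
    ∃ m, ∀ j ∈ J, m ≤ j → ‖(T ^ j) x‖ < ε := by
  obtain ⟨z, hz, m, hm⟩ := s.fin x (ε / 2) (by positivity)
  refine ⟨m, fun j hj hmj => ?_⟩
  have h1 : (T ^ j) x = (T ^ j) (x - z) := by rw [map_sub, pow_fin hB hT hm hmj, sub_zero]
  rw [h1]
  have := pow_norm_le hB hT j (hJ j hj) (x - z)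
  linarith

lemma window_finite (q : ℝ) (n : ℕ) (P : ℕ → Prop) :
    {j : ℕ | P j ∧ 1 ≤ j ∧ (j : ℝ) ≤ (n : ℝ) ^ q}.Finite := by
  apply (Set.finite_Iic ⌊(n : ℝ) ^ q⌋₊).subset
  rintro j ⟨_, _, h⟩
  exact Nat.le_floor h

/-- not chaotic: the difference of two orbits is small along a set of positive density -/
theorem not_zero (hB : ∀ n, 0 < B n) (hT : IsSh s B T) {J : Set ℕ}
    (hJ : ∀ j ∈ J, ∀ n, B (n + j) ≤ 2 * B n) {q : ℝ}
    (hbig : ∀ c : ℕ, ∀ᶠ n : ℕ in atTop,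
      (n : ℝ) ≤ (({j : ℕ | (j ∈ J ∧ c ≤ j) ∧ 1 ≤ j ∧ (j : ℝ) ≤ (n : ℝ) ^ q}.ncard : ℕ) : ℝ))
    (x y : X) {σ : ℝ} (hσ : 0 < σ) : dens q {j | ‖(T ^ j) x - (T ^ j) y‖ < σ} ≠ 0 := by
  obtain ⟨m, hm⟩ := tend_zero hB hT hJ (x - y) hσ
  have h1 : (1 : ENNReal) ≤ dens q {j | ‖(T ^ j) x - (T ^ j) y‖ < σ} := by
    unfold dens
    apply le_liminf_of_le
    · isBoundedDefault
    · filter_upwards [hbig m, eventually_ge_atTop 1] with n hn hn1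
      have h2 : (({j : ℕ | (j ∈ J ∧ m ≤ j) ∧ 1 ≤ j ∧ (j : ℝ) ≤ (n : ℝ) ^ q}.ncard : ℕ)) ≤
          ({j : ℕ | j ∈ {j | ‖(T ^ j) x - (T ^ j) y‖ < σ} ∧ 1 ≤ j ∧
            (j : ℝ) ≤ (n : ℝ) ^ q}.ncard : ℕ) := by
        apply Set.ncard_le_ncard _ (window_finite q n _)
        rintro j ⟨⟨h3, h4⟩, h5⟩
        refine ⟨?_, h5⟩
        have := hm j h3 h4
        rwa [map_sub] at this
      have h6 : n ≤ ({j : ℕ | j ∈ {j | ‖(T ^ j) x - (T ^ j) y‖ < σ} ∧ 1 ≤ j ∧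
            (j : ℝ) ≤ (n : ℝ) ^ q}.ncard : ℕ) := by
        have : (n : ℝ) ≤ (({j : ℕ | j ∈ {j | ‖(T ^ j) x - (T ^ j) y‖ < σ} ∧ 1 ≤ j ∧
            (j : ℝ) ≤ (n : ℝ) ^ q}.ncard : ℕ) : ℝ) := hn.trans (by exact_mod_cast h2)
        exact_mod_cast this
      rw [ENNReal.le_div_iff_mul_le (Or.inl (by positivity)) (Or.inl (ENNReal.natCast_ne_top n)),
        one_mul]
      exact_mod_cast h6
  intro h0
  rw [h0] at h1
  exact absurd h1 (by simp)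

lemma dens_zero {q : ℝ} {A : Set ℕ} (h : ∀ ε : ℝ, 0 < ε → ∃ᶠ n : ℕ in atTop,
    (({j : ℕ | j ∈ A ∧ 1 ≤ j ∧ (j : ℝ) ≤ (n : ℝ) ^ q}.ncard : ℕ) : ℝ) ≤ ε * n) :
    dens q A = 0 := by
  apply le_antisymm _ zero_le
  apply ENNReal.le_of_forall_pos_le_add
  intro ε hε _
  rw [zero_add]
  unfold dens
  apply liminf_le_of_frequently_le'
  have h1 := (h ε (by exact_mod_cast hε)).and_eventually (eventually_ge_atTop 1)
  refine h1.mono fun n hn => ?_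
  obtain ⟨hn, hn1⟩ := hn
  rw [ENNReal.div_le_iff (by positivity) (ENNReal.natCast_ne_top n)]
  have h2 : ((({j : ℕ | j ∈ A ∧ 1 ≤ j ∧ (j : ℝ) ≤ (n : ℝ) ^ q}.ncard : ℕ) : NNReal)) ≤ ε * (n : NNReal) := by
    rw [← NNReal.coe_le_coe]
    push_cast
    exact hn
  exact_mod_cast h2

/-- the set of vectors whose orbit is large at most times up to some time -/
def U (T : X →L[K] X) (q : ℝ) (k : ℕ) : Set X :=
  {z | ∃ n ≥ k, ((({j : ℕ | ‖(T ^ j) z‖ ≤ k ∧ 1 ≤ j ∧ (j : ℝ) ≤ (n : ℝ) ^ q}.ncard : ℕ) : ℝ)) <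
    (n : ℝ) / (k + 1)}

/-- the set of vectors whose orbit is small at most times up to some time -/
def V (T : X →L[K] X) (q : ℝ) (k : ℕ) : Set X :=
  {z | ∃ n ≥ k, ((({j : ℕ | 1 / ((k : ℝ) + 1) ≤ ‖(T ^ j) z‖ ∧ 1 ≤ j ∧
    (j : ℝ) ≤ (n : ℝ) ^ q}.ncard : ℕ) : ℝ)) < (n : ℝ) / (k + 1)}

lemma U_open (q : ℝ) (k : ℕ) : IsOpen (U T q k) := by
  rw [isOpen_iff_mem_nhds]
  rintro z ⟨n, hn, hz⟩
  have h1 : ∀ᶠ z' in 𝓝 z, ∀ j ∈ (window_finite q n (fun _ => True)).toFinset,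
      (k : ℝ) < ‖(T ^ j) z‖ → (k : ℝ) < ‖(T ^ j) z'‖ := by
    rw [Filter.eventually_all_finset]
    intro j _
    by_cases h : (k : ℝ) < ‖(T ^ j) z‖
    · have : ContinuousAt (fun z' => ‖(T ^ j) z'‖) z := ((T ^ j).continuous.norm).continuousAt
      filter_upwards [this.eventually (lt_mem_nhds h)] with z' hz' _ using hz'
    · exact Eventually.of_forall fun z' h' => absurd h' h
  filter_upwards [h1] with z' hz'
  refine ⟨n, hn, lt_of_le_of_lt ?_ hz⟩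
  have : ({j : ℕ | ‖(T ^ j) z'‖ ≤ k ∧ 1 ≤ j ∧ (j : ℝ) ≤ (n : ℝ) ^ q}.ncard : ℕ) ≤
      {j : ℕ | ‖(T ^ j) z‖ ≤ k ∧ 1 ≤ j ∧ (j : ℝ) ≤ (n : ℝ) ^ q}.ncard := by
    apply Set.ncard_le_ncard _ (window_finite q n _)
    rintro j ⟨h3, h4⟩
    refine ⟨?_, h4⟩
    by_contra h5
    push Not at h5
    have := hz' j (by rw [Set.Finite.mem_toFinset]; exact ⟨trivial, h4⟩) h5
    linarith
  exact_mod_cast this

lemma V_open (q : ℝ) (k : ℕ) : IsOpen (V T q k) := by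
  rw [isOpen_iff_mem_nhds]
  rintro z ⟨n, hn, hz⟩
  have h1 : ∀ᶠ z' in 𝓝 z, ∀ j ∈ (window_finite q n (fun _ => True)).toFinset,
      ‖(T ^ j) z‖ < 1 / ((k : ℝ) + 1) → ‖(T ^ j) z'‖ < 1 / ((k : ℝ) + 1) := by
    rw [Filter.eventually_all_finset]
    intro j _
    by_cases h : ‖(T ^ j) z‖ < 1 / ((k : ℝ) + 1)
    · have : ContinuousAt (fun z' => ‖(T ^ j) z'‖) z := ((T ^ j).continuous.norm).continuousAt
      filter_upwards [this.eventually (gt_mem_nhds h)] with z' hz' _ using hz'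
    · exact Eventually.of_forall fun z' h' => absurd h' h
  filter_upwards [h1] with z' hz'
  refine ⟨n, hn, lt_of_le_of_lt ?_ hz⟩
  have : ({j : ℕ | 1 / ((k : ℝ) + 1) ≤ ‖(T ^ j) z'‖ ∧ 1 ≤ j ∧ (j : ℝ) ≤ (n : ℝ) ^ q}.ncard : ℕ) ≤
      {j : ℕ | 1 / ((k : ℝ) + 1) ≤ ‖(T ^ j) z‖ ∧ 1 ≤ j ∧ (j : ℝ) ≤ (n : ℝ) ^ q}.ncard := by
    apply Set.ncard_le_ncard _ (window_finite q n _)
    rintro j ⟨h3, h4⟩
    refine ⟨?_, h4⟩
    by_contra h5
    push Not at h5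
    have := hz' j (by rw [Set.Finite.mem_toFinset]; exact ⟨trivial, h4⟩) h5
    linarith
  exact_mod_cast this

lemma V_dense (hB : ∀ n, 0 < B n) (hT : IsSh s B T) (q : ℝ) (k : ℕ) : Dense (V T q k) := by
  rw [Metric.dense_iff]
  intro x r hr
  obtain ⟨z, hz, m, hm⟩ := s.fin x r hr
  refine ⟨z, by rw [Metric.mem_ball, dist_comm, dist_eq_norm]; exact hz, ?_⟩
  refine ⟨max k (m * (k + 1) + 1), le_max_left _ _, ?_⟩
  have h1 : ({j : ℕ | 1 / ((k : ℝ) + 1) ≤ ‖(T ^ j) z‖ ∧ 1 ≤ j ∧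
      (j : ℝ) ≤ ((max k (m * (k + 1) + 1) : ℕ) : ℝ) ^ q}.ncard : ℕ) ≤ m := by
    have h2 : {j : ℕ | 1 / ((k : ℝ) + 1) ≤ ‖(T ^ j) z‖ ∧ 1 ≤ j ∧
      (j : ℝ) ≤ ((max k (m * (k + 1) + 1) : ℕ) : ℝ) ^ q} ⊆ (Finset.range m : Set ℕ) := by
      rintro j ⟨h3, _⟩
      rw [Finset.mem_coe, Finset.mem_range]
      by_contra h4
      push Not at h4
      rw [pow_fin hB hT hm h4, norm_zero] at h3
      have : (0 : ℝ) < 1 / ((k : ℝ) + 1) := by positivity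
      linarith
    have := Set.ncard_le_ncard h2 (Finset.finite_toSet _)
    rwa [Set.ncard_coe_finset, Finset.card_range] at this
  rw [lt_div_iff₀ (by positivity)]
  have h5 : (({j : ℕ | 1 / ((k : ℝ) + 1) ≤ ‖(T ^ j) z‖ ∧ 1 ≤ j ∧
      (j : ℝ) ≤ ((max k (m * (k + 1) + 1) : ℕ) : ℝ) ^ q}.ncard : ℕ) : ℝ) ≤ m := by exact_mod_cast h1
  have h6 : ((m : ℝ) * (k + 1) + 1) ≤ ((max k (m * (k + 1) + 1) : ℕ) : ℝ) := by
    exact_mod_cast le_max_right k (m * (k + 1) + 1)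
  nlinarith [mul_le_mul_of_nonneg_right h5 (by positivity : (0 : ℝ) ≤ (k : ℝ) + 1)]

lemma U_dense (hB : ∀ n, 0 < B n) (hT : IsSh s B T) {R : Set ℕ}
    (hR : ∀ j, j ∉ R → ((j : ℝ) + 1) ^ 3 ≤ B j) {q : ℝ}
    (hsmall : ∀ (c : ℕ) (ε : ℝ), 0 < ε → ∃ᶠ n : ℕ in atTop, ∀ A : Set ℕ, A ⊆ {j | j ∈ R ∨ j < c} →
      (({j : ℕ | j ∈ A ∧ 1 ≤ j ∧ (j : ℝ) ≤ (n : ℝ) ^ q}.ncard : ℕ) : ℝ) ≤ ε * n)
    (k : ℕ) : Dense (U T q k) := by
  rw [Metric.dense_iff]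
  intro x r hr
  obtain ⟨z, hz, m, hm⟩ := s.fin x (r / 2) (by positivity)
  set α : ℝ := r / (2 * (‖s.ys‖ + 1)) with hα
  have hα0 : 0 < α := by positivity
  set v : X := z + (α : K) • s.ys with hv
  have hvx : ‖x - v‖ < r := by
    have h1 : ‖(α : K) • s.ys‖ < r / 2 := by
      rw [norm_smul, RCLike.norm_ofReal, abs_of_pos hα0, hα, div_mul_eq_mul_div,
        div_lt_iff₀ (by positivity)]
      nlinarith [norm_nonneg s.ys]
    calc ‖x - v‖ = ‖(x - z) - (α : K) • s.ys‖ := by rw [hv]; congr 1; abel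
      _ ≤ ‖x - z‖ + ‖(α : K) • s.ys‖ := norm_sub_le _ _
      _ < r := by linarith
  obtain ⟨c, hc⟩ := exists_nat_gt (max (m : ℝ) (k * B 0 / α))
  have hcm : m < c := by exact_mod_cast (le_max_left _ _).trans_lt hc
  have hck : k * B 0 / α < c := (le_max_right _ _).trans_lt hc
  obtain ⟨n, hn, hnk⟩ := ((hsmall c (1 / (2 * (k + 1))) (by positivity)).and_eventually
    (eventually_ge_atTop (k + 1))).exists
  refine ⟨v, by rw [Metric.mem_ball, dist_comm, dist_eq_norm]; exact hvx, n, by omega, ?_⟩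
  have hA : {j : ℕ | ‖(T ^ j) v‖ ≤ k} ⊆ {j | j ∈ R ∨ j < c} := by
    intro j hj
    by_contra hcon
    simp only [Set.mem_ofPred_eq, not_or, not_lt] at hcon hj
    obtain ⟨h1, h2⟩ := hcon
    have h3 : s.c ((T ^ j) v) 0 = ((B j / B 0 * (α * (1 / ((j : ℝ) + 1) ^ 2)) : ℝ) : K) := by
      rw [pow_apply hB hT, zero_add, hv, map_add, Pi.add_apply, hm j (by omega), zero_add,
        map_smul, Pi.smul_apply, smul_eq_mul, s.hys]
      push_cast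
      ring
    have h4 : B j / B 0 * (α * (1 / ((j : ℝ) + 1) ^ 2)) ≤ k := by
      have h5 := (s.le ((T ^ j) v) 0).trans hj
      rw [h3, RCLike.norm_ofReal] at h5
      exact (le_abs_self _).trans h5
    have h6 := hR j h1
    have hB0 := hB 0
    have h7 : (α * ((j : ℝ) + 1)) / B 0 ≤ B j / B 0 * (α * (1 / ((j : ℝ) + 1) ^ 2)) := by
      have : (α * ((j : ℝ) + 1)) / B 0 = ((j : ℝ) + 1) ^ 3 / B 0 * (α * (1 / ((j : ℝ) + 1) ^ 2)) := by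
        field_simp
      rw [this]
      gcongr
    have h8 : k * B 0 / α < (j : ℝ) + 1 := by
      have : (c : ℝ) ≤ j := by exact_mod_cast h2
      linarith
    rw [div_lt_iff₀ hα0] at h8
    have h9 := h7.trans h4
    rw [div_le_iff₀ hB0] at h9
    linarith
  have h10 := hn _ hA
  have h11 : ({j : ℕ | ‖(T ^ j) v‖ ≤ k ∧ 1 ≤ j ∧ (j : ℝ) ≤ (n : ℝ) ^ q}) =
      {j : ℕ | j ∈ {j : ℕ | ‖(T ^ j) v‖ ≤ k} ∧ 1 ≤ j ∧ (j : ℝ) ≤ (n : ℝ) ^ q} := rfl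
  rw [h11]
  refine h10.trans_lt ?_
  have hn0 : (0 : ℝ) < n := by
    have : (k : ℝ) + 1 ≤ n := by exact_mod_cast hnk
    have : (0 : ℝ) ≤ k := by positivity
    linarith
  rw [div_mul_eq_mul_div, one_mul, div_lt_div_iff₀ (by positivity) (by positivity)]
  nlinarith [(by positivity : (0 : ℝ) ≤ (k : ℝ))]

end

end Q82.Shift
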