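import Pool.Agent.Q82.Shift

/-! # A dense scrambled set -/

namespace Q82.Shift

open Filter Topology Q82.Dens

noncomputable section

variable {K X : Type} [RCLike K] [NormedAddCommGroup X] [NormedSpace K X]
variable {s : SeqSp K X} {B : ℕ → ℝ} {T : X →L[K] X}

lemma exists_e (s : SeqSp K X) (i : ℕ) : ∃ e : X, s.c e = Pi.single i 1 := by
  obtain ⟨z, hz, _⟩ := s.dom s.ys (Pi.single i 1) (((i : ℝ) + 1) ^ 2) 0 (by positivity) (by
    intro n
    rw [add_zero, s.hys, RCLike.norm_ofReal, abs_of_pos (by positivity)]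
    by_cases h : n = i
    · subst h
      rw [Pi.single_eq_same, norm_one]
      rw [mul_one_div_cancel (by positivity)]
    · rw [Pi.single_eq_of_ne h, norm_zero]
      positivity)
  exact ⟨z, hz⟩

lemma exists_seq (s : SeqSp K X) : ∃ u : ℕ → X, (∀ i, ∃ m, ∀ n, m ≤ n → s.c (u i) n = 0) ∧
    ∀ x : X, ∀ ε : ℝ, 0 < ε → ∃ i, ‖x - u i‖ < ε := by
  choose e he using exists_e s
  set Fs : Set X := {z | ∃ m, ∀ n, m ≤ n → s.c z n = 0} with hFs
  have h1 : Fs ⊆ (Submodule.span K (Set.range e) : Set X) := by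
    rintro z ⟨m, hm⟩
    have : z = ∑ i ∈ Finset.range m, (s.c z i) • e i := by
      apply s.inj
      rw [map_sum]
      ext n
      rw [Finset.sum_apply]
      simp only [map_smul, he, Pi.smul_apply, smul_eq_mul]
      by_cases hn : n < m
      · rw [Finset.sum_eq_single n]
        · simp
        · intro b _ hb
          rw [Pi.single_eq_of_ne hb.symm, mul_zero]
        · intro h
          exact absurd (Finset.mem_range.2 hn) h
      · rw [hm n (by omega), Finset.sum_eq_zero]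
        intro b hb
        rw [Finset.mem_range] at hb
        rw [Pi.single_eq_of_ne (by omega), mul_zero]
    rw [this]
    apply Submodule.sum_mem
    intro i _
    exact Submodule.smul_mem _ _ (Submodule.subset_span ⟨i, rfl⟩)
  have h2 : TopologicalSpace.IsSeparable Fs :=
    (TopologicalSpace.IsSeparable.span (R := K) (Set.countable_range e).isSeparable).mono h1
  obtain ⟨t, htF, htc, htd⟩ := h2.exists_countable_dense_subset
  have hne : t.Nonempty := by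
    have h0 : (0 : X) ∈ Fs := ⟨0, fun n _ => by rw [map_zero]; rfl⟩
    exact closure_nonempty_iff.1 ⟨0, htd h0⟩
  obtain ⟨u, hu⟩ := htc.exists_eq_range hne
  refine ⟨u, fun i => htF (by rw [hu]; exact ⟨i, rfl⟩), fun x ε hε => ?_⟩
  obtain ⟨z, hz, hm⟩ := s.fin x (ε / 2) (by positivity)
  have h3 : z ∈ closure t := htd hm
  rw [Metric.mem_closure_iff] at h3
  obtain ⟨b, hb, hzb⟩ := h3 (ε / 2) (by positivity)
  rw [hu] at hb
  obtain ⟨i, rfl⟩ := hb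
  refine ⟨i, ?_⟩
  rw [dist_eq_norm] at hzb
  calc ‖x - u i‖ = ‖(x - z) + (z - u i)‖ := by congr 1; abel
    _ ≤ ‖x - z‖ + ‖z - u i‖ := norm_add_le _ _
    _ < ε := by linarith

/-- a vector with distributionally irregular orbit -/
lemma exists_irregular (s : SeqSp K X) [CompleteSpace X] (hB : ∀ n, 0 < B n) (hT : IsSh s B T)
    {R : Set ℕ}
    (hR : ∀ j, j ∉ R → ((j : ℝ) + 1) ^ 3 ≤ B j) {q : ℝ}
    (hsmall : ∀ (c : ℕ) (ε : ℝ), 0 < ε → ∃ᶠ n : ℕ in atTop, ∀ A : Set ℕ, A ⊆ {j | j ∈ R ∨ j < c} →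
      (({j : ℕ | j ∈ A ∧ 1 ≤ j ∧ (j : ℝ) ≤ (n : ℝ) ^ q}.ncard : ℕ) : ℝ) ≤ ε * n) :
    ∃ z : X, (∀ k, z ∈ U T q k) ∧ ∀ k, z ∈ V T q k := by
  have h1 : Dense (⋂ k, U T q k) :=
    dense_iInter_of_isOpen_nat (fun k => U_open q k) (fun k => U_dense hB hT hR hsmall k)
  have h2 : Dense (⋂ k, V T q k) :=
    dense_iInter_of_isOpen_nat (fun k => V_open q k) (fun k => V_dense hB hT q k)
  have h3 := Dense.inter_of_Gδ (IsGδ.iInter_of_isOpen (fun k => U_open (T := T) q k))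
    (IsGδ.iInter_of_isOpen (fun k => V_open (T := T) q k)) h1 h2
  obtain ⟨z, hz1, hz2⟩ := h3.nonempty
  exact ⟨z, fun k => Set.mem_iInter.1 hz1 k, fun k => Set.mem_iInter.1 hz2 k⟩

lemma diff_large {z d : X} {q : ℝ} (hU : ∀ k, z ∈ U T q k) {m : ℕ}
    (hm : ∀ j, m ≤ j → (T ^ j) d = 0) {r : ℝ} (hr : r ≠ 0) :
    dens q {j | ‖(T ^ j) ((r : K) • z + d)‖ < 1} = 0 := by
  apply dens_zero
  intro ε hε
  rw [frequently_atTop]
  intro N
  have hr0 : 0 < |r| := abs_pos.2 hr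
  obtain ⟨k, hk⟩ := exists_nat_gt (max (max (N : ℝ) (1 / |r|)) ((m + 1) / ε))
  have hk1 : (N : ℝ) < k := ((le_max_left _ _).trans (le_max_left _ _)).trans_lt hk
  have hk2 : 1 / |r| < k := ((le_max_right _ _).trans (le_max_left _ _)).trans_lt hk
  have hk3 : (m + 1) / ε < k := (le_max_right _ _).trans_lt hk
  obtain ⟨n, hn, hz⟩ := hU k
  have hkN : N < k := by exact_mod_cast hk1
  refine ⟨n, by omega, ?_⟩
  have hsub : {j : ℕ | j ∈ {j | ‖(T ^ j) ((r : K) • z + d)‖ < 1} ∧ 1 ≤ j ∧ (j : ℝ) ≤ (n : ℝ) ^ q} ⊆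
      {j : ℕ | ‖(T ^ j) z‖ ≤ k ∧ 1 ≤ j ∧ (j : ℝ) ≤ (n : ℝ) ^ q} ∪ (Finset.range m : Set ℕ) := by
    rintro j ⟨h1, h2⟩
    by_cases hjm : j < m
    · exact Or.inr (by rw [Finset.mem_coe, Finset.mem_range]; exact hjm)
    · left
      refine ⟨?_, h2⟩
      have h1' : ‖(T ^ j) ((r : K) • z + d)‖ < 1 := h1
      rw [map_add, hm j (by omega), add_zero, map_smul, norm_smul, RCLike.norm_ofReal] at h1'
      rw [div_lt_iff₀ hr0] at hk2
      by_contra h3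
      push Not at h3
      have : |r| * k < 1 := by nlinarith
      linarith
  have h4 := Set.ncard_le_ncard hsub ((window_finite q n _).union (Finset.finite_toSet _))
  have h5 := h4.trans (Set.ncard_union_le _ _)
  rw [Set.ncard_coe_finset, Finset.card_range] at h5
  have h6 : (({j : ℕ | j ∈ {j | ‖(T ^ j) ((r : K) • z + d)‖ < 1} ∧ 1 ≤ j ∧
      (j : ℝ) ≤ (n : ℝ) ^ q}.ncard : ℕ) : ℝ) ≤
      (({j : ℕ | ‖(T ^ j) z‖ ≤ k ∧ 1 ≤ j ∧ (j : ℝ) ≤ (n : ℝ) ^ q}.ncard : ℕ) : ℝ) + m := by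
    exact_mod_cast h5
  refine h6.trans ?_
  rw [div_lt_iff₀ hε] at hk3
  have hnk : (k : ℝ) ≤ n := by exact_mod_cast hn
  have hk0 : (0 : ℝ) ≤ k := by positivity
  rw [lt_div_iff₀ (by positivity)] at hz
  set Z : ℝ := (({j : ℕ | ‖(T ^ j) z‖ ≤ k ∧ 1 ≤ j ∧ (j : ℝ) ≤ (n : ℝ) ^ q}.ncard : ℕ) : ℝ) with hZ
  have hm0 : (0 : ℝ) ≤ m := by positivity
  -- (Z + m) (k + 1) ≤ n + m (k + 1) ≤ ε n (k + 1)
  have h7 : (Z + m) * (k + 1) ≤ (ε * n) * (k + 1) := by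
    have h8 : (m : ℝ) + 1 ≤ ε * k := by linarith
    have h9 : ((m : ℝ) + 1) * n ≤ ε * k * n := mul_le_mul_of_nonneg_right h8 (by positivity)
    have h10 : (m : ℝ) * (k + 1) ≤ m * n + m := by nlinarith
    have h11 : (m : ℝ) ≤ ε * n := by nlinarith
    nlinarith
  exact le_of_mul_le_mul_right h7 (by positivity)

lemma diff_small {z d : X} {q : ℝ} (hV : ∀ k, z ∈ V T q k) {m : ℕ}
    (hm : ∀ j, m ≤ j → (T ^ j) d = 0) {r : ℝ} {δ : ℝ} (hδ : 0 < δ) :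
    dens q {j | δ < ‖(T ^ j) ((r : K) • z + d)‖} = 0 := by
  apply dens_zero
  intro ε hε
  rw [frequently_atTop]
  intro N
  obtain ⟨k, hk⟩ := exists_nat_gt (max (max (N : ℝ) (|r| / δ)) ((m + 1) / ε))
  have hk1 : (N : ℝ) < k := ((le_max_left _ _).trans (le_max_left _ _)).trans_lt hk
  have hk2 : |r| / δ < k := ((le_max_right _ _).trans (le_max_left _ _)).trans_lt hk
  have hk3 : (m + 1) / ε < k := (le_max_right _ _).trans_lt hk
  obtain ⟨n, hn, hz⟩ := hV k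
  have hkN : N < k := by exact_mod_cast hk1
  refine ⟨n, by omega, ?_⟩
  have hsub : {j : ℕ | j ∈ {j | δ < ‖(T ^ j) ((r : K) • z + d)‖} ∧ 1 ≤ j ∧ (j : ℝ) ≤ (n : ℝ) ^ q} ⊆
      {j : ℕ | 1 / ((k : ℝ) + 1) ≤ ‖(T ^ j) z‖ ∧ 1 ≤ j ∧ (j : ℝ) ≤ (n : ℝ) ^ q} ∪
        (Finset.range m : Set ℕ) := by
    rintro j ⟨h1, h2⟩
    by_cases hjm : j < m
    · exact Or.inr (by rw [Finset.mem_coe, Finset.mem_range]; exact hjm)
    · left
      refine ⟨?_, h2⟩
      have h1' : δ < ‖(T ^ j) ((r : K) • z + d)‖ := h1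
      rw [map_add, hm j (by omega), add_zero, map_smul, norm_smul, RCLike.norm_ofReal] at h1'
      rw [div_lt_iff₀ hδ] at hk2
      by_contra h3
      push Not at h3
      have hk0 : (0 : ℝ) ≤ k := by positivity
      rw [lt_div_iff₀ (by positivity)] at h3
      have h4 : |r| * (‖(T ^ j) z‖ * (k + 1)) ≤ |r| * 1 :=
        mul_le_mul_of_nonneg_left h3.le (abs_nonneg r)
      have h5 : δ * (k + 1) < |r| * ‖(T ^ j) z‖ * (k + 1) :=
        mul_lt_mul_of_pos_right h1' (by positivity)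
      nlinarith
  have h4 := Set.ncard_le_ncard hsub ((window_finite q n _).union (Finset.finite_toSet _))
  have h5 := h4.trans (Set.ncard_union_le _ _)
  rw [Set.ncard_coe_finset, Finset.card_range] at h5
  have h6 : (({j : ℕ | j ∈ {j | δ < ‖(T ^ j) ((r : K) • z + d)‖} ∧ 1 ≤ j ∧
      (j : ℝ) ≤ (n : ℝ) ^ q}.ncard : ℕ) : ℝ) ≤
      (({j : ℕ | 1 / ((k : ℝ) + 1) ≤ ‖(T ^ j) z‖ ∧ 1 ≤ j ∧
        (j : ℝ) ≤ (n : ℝ) ^ q}.ncard : ℕ) : ℝ) + m := by
    exact_mod_cast h5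
  refine h6.trans ?_
  rw [div_lt_iff₀ hε] at hk3
  have hnk : (k : ℝ) ≤ n := by exact_mod_cast hn
  have hk0 : (0 : ℝ) ≤ k := by positivity
  rw [lt_div_iff₀ (by positivity)] at hz
  set Z : ℝ := (({j : ℕ | 1 / ((k : ℝ) + 1) ≤ ‖(T ^ j) z‖ ∧ 1 ≤ j ∧
    (j : ℝ) ≤ (n : ℝ) ^ q}.ncard : ℕ) : ℝ) with hZ
  have hm0 : (0 : ℝ) ≤ m := by positivity
  have h7 : (Z + m) * (k + 1) ≤ (ε * n) * (k + 1) := by
    have h8 : (m : ℝ) + 1 ≤ ε * k := by linarith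
    have h9 : ((m : ℝ) + 1) * n ≤ ε * k * n := mul_le_mul_of_nonneg_right h8 (by positivity)
    have h10 : (m : ℝ) * (k + 1) ≤ m * n + m := by nlinarith
    have h11 : (m : ℝ) ≤ ε * n := by nlinarith
    nlinarith
  exact le_of_mul_le_mul_right h7 (by positivity)

lemma nat_le_rpow {q : ℝ} (hq : 1 ≤ q) {j n : ℕ} (h : j ≤ n) : (j : ℝ) ≤ (n : ℝ) ^ q := by
  rcases Nat.eq_zero_or_pos n with h0 | h0
  · have : j = 0 := by omega
    subst this
    rw [Nat.cast_zero]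
    positivity
  · have h1 : (1 : ℝ) ≤ n := by exact_mod_cast h0
    calc (j : ℝ) ≤ n := by exact_mod_cast h
      _ = (n : ℝ) ^ (1 : ℝ) := (Real.rpow_one _).symm
      _ ≤ (n : ℝ) ^ q := Real.rpow_le_rpow_of_exponent_le h1 hq

lemma not_null {z : X} {q : ℝ} (hq : 1 ≤ q) (hU : ∀ k, z ∈ U T q k) (m : ℕ) :
    ∃ j, m ≤ j ∧ (T ^ j) z ≠ 0 := by
  obtain ⟨n, hn, hz⟩ := hU (2 * m + 2)
  by_contra hcon
  push Not at hcon
  have h1 : ((Finset.Icc (m + 1) n : Finset ℕ) : Set ℕ) ⊆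
      {j : ℕ | ‖(T ^ j) z‖ ≤ ((2 * m + 2 : ℕ) : ℝ) ∧ 1 ≤ j ∧ (j : ℝ) ≤ (n : ℝ) ^ q} := by
    intro j hj
    rw [Finset.mem_coe, Finset.mem_Icc] at hj
    refine ⟨?_, by omega, nat_le_rpow hq hj.2⟩
    rw [hcon j (by omega), norm_zero]
    positivity
  have h2 := Set.ncard_le_ncard h1 (window_finite q n _)
  rw [Set.ncard_coe_finset, Nat.card_Icc] at h2
  have h3 : (((n + 1 - (m + 1) : ℕ)) : ℝ) < n / ((2 * m + 2 : ℕ) + 1) :=
    lt_of_le_of_lt (by exact_mod_cast h2) hz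
  rw [lt_div_iff₀ (by positivity)] at h3
  have h4 : (n + 1 - (m + 1)) * ((2 * m + 2) + 1) < n := by exact_mod_cast h3
  have h5 : n + 1 - (m + 1) = n - m := by omega
  rw [h5] at h4
  have h6 : (n - m) * 3 ≤ (n - m) * ((2 * m + 2) + 1) := Nat.mul_le_mul_left _ (by omega)
  omega

/-- **Dense distributional chaos.** -/
theorem dense_chaos (s : SeqSp K X) [CompleteSpace X] (hB : ∀ n, 0 < B n) (hT : IsSh s B T)
    {R : Set ℕ}
    (hR : ∀ j, j ∉ R → ((j : ℝ) + 1) ^ 3 ≤ B j) {q : ℝ} (hq : 1 ≤ q)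
    (hsmall : ∀ (c : ℕ) (ε : ℝ), 0 < ε → ∃ᶠ n : ℕ in atTop, ∀ A : Set ℕ, A ⊆ {j | j ∈ R ∨ j < c} →
      (({j : ℕ | j ∈ A ∧ 1 ≤ j ∧ (j : ℝ) ≤ (n : ℝ) ^ q}.ncard : ℕ) : ℝ) ≤ ε * n) :
    ∃ S : Set X, ¬ S.Countable ∧ Dense S ∧ ∃ σ : ℝ, 0 < σ ∧ ∀ x ∈ S, ∀ y ∈ S, x ≠ y →
      dens q {j | ‖(T ^ j) x - (T ^ j) y‖ < σ} = 0 ∧
      ∀ ε : ℝ, 0 < ε → dens q {j | ε < ‖(T ^ j) x - (T ^ j) y‖} = 0 := by
  obtain ⟨z, hU, hV⟩ := exists_irregular s hB hT hR hsmall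
  obtain ⟨u, hu1, hu2⟩ := exists_seq s
  set g : ℝ → X := fun t => (t : K) • z + u (Nat.unpair ⌊1 / t⌋₊).1 with hg
  have hdiff : ∀ t t' : ℝ, ∃ (d : X) (m : ℕ), (∀ j, m ≤ j → (T ^ j) d = 0) ∧
      g t - g t' = ((t - t' : ℝ) : K) • z + d := by
    intro t t'
    obtain ⟨m1, hm1⟩ := hu1 (Nat.unpair ⌊1 / t⌋₊).1
    obtain ⟨m2, hm2⟩ := hu1 (Nat.unpair ⌊1 / t'⌋₊).1
    refine ⟨u (Nat.unpair ⌊1 / t⌋₊).1 - u (Nat.unpair ⌊1 / t'⌋₊).1, max m1 m2, ?_, ?_⟩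
    · intro j hj
      rw [map_sub, pow_fin hB hT hm1 (le_trans (le_max_left _ _) hj),
        pow_fin hB hT hm2 (le_trans (le_max_right _ _) hj), sub_zero]
    · rw [hg]
      simp only
      rw [RCLike.ofReal_sub, sub_smul]
      abel
  have hinj : Function.Injective g := by
    intro t t' h
    by_contra hne
    obtain ⟨d, m, hd, he⟩ := hdiff t t'
    rw [h, sub_self] at he
    obtain ⟨j, hj, hjz⟩ := not_null hq hU m
    have h1 : (T ^ j) (((t - t' : ℝ) : K) • z + d) = 0 := by rw [← he, map_zero]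
    rw [map_add, hd j hj, add_zero, map_smul, smul_eq_zero] at h1
    rcases h1 with h1 | h1
    · rw [RCLike.ofReal_eq_zero] at h1
      exact hne (sub_eq_zero.1 h1)
    · exact hjz h1
  refine ⟨g '' (Set.Ioo 0 1), ?_, ?_, 1, one_pos, ?_⟩
  · intro hc
    have h1 : (Set.Ioo (0 : ℝ) 1).Countable := (Set.countable_of_injective_of_countable_image
      (fun x _ y _ h => hinj h) hc)
    have h2 := Cardinal.mk_Ioo_real (zero_lt_one)
    rw [← Cardinal.le_aleph0_iff_set_countable, h2] at h1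
    exact absurd h1 (not_le.2 Cardinal.aleph0_lt_continuum)
  · rw [Metric.dense_iff]
    intro x r hr
    obtain ⟨i, hi⟩ := hu2 x (r / 2) (by positivity)
    obtain ⟨k, hk⟩ := exists_nat_gt (max 2 (2 * (‖z‖ + 1) / r))
    have hk1 : (2 : ℝ) < k := (le_max_left _ _).trans_lt hk
    have hk2 : 2 * (‖z‖ + 1) / r < k := (le_max_right _ _).trans_lt hk
    set M : ℕ := Nat.pair i k with hM
    have hMk : k ≤ M := Nat.right_le_pair i k
    have hMr : (k : ℝ) ≤ M := by exact_mod_cast hMk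
    have hM0 : (0 : ℝ) < M := by linarith
    refine ⟨g (1 / M), ?_, ⟨1 / (M : ℝ), ⟨by positivity, ?_⟩, rfl⟩⟩
    · rw [Metric.mem_ball, dist_comm, dist_eq_norm]
      have h1 : g (1 / M) = ((1 / (M : ℝ) : ℝ) : K) • z + u i := by
        rw [hg]
        simp only
        rw [one_div_one_div, Nat.floor_natCast, hM, Nat.unpair_pair]
      rw [h1]
      have h2 : ‖((1 / (M : ℝ) : ℝ) : K) • z‖ < r / 2 := by
        rw [norm_smul, RCLike.norm_ofReal, abs_of_pos (by positivity), div_mul_eq_mul_div, one_mul,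
          div_lt_iff₀ hM0]
        rw [div_lt_iff₀ hr] at hk2
        nlinarith [norm_nonneg z]
      calc ‖x - (((1 / (M : ℝ) : ℝ) : K) • z + u i)‖ = ‖(x - u i) - ((1 / (M : ℝ) : ℝ) : K) • z‖ := by
            congr 1; abel
        _ ≤ ‖x - u i‖ + ‖((1 / (M : ℝ) : ℝ) : K) • z‖ := norm_sub_le _ _
        _ < r := by linarith
    · rw [div_lt_one hM0]; linarith
  · rintro _ ⟨t, _, rfl⟩ _ ⟨t', _, rfl⟩ hne
    obtain ⟨d, m, hd, he⟩ := hdiff t t'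
    have htt : t - t' ≠ 0 := by
      intro h
      exact hne (by rw [sub_eq_zero.1 h])
    have h1 : ∀ j, (T ^ j) (g t) - (T ^ j) (g t') = (T ^ j) (((t - t' : ℝ) : K) • z + d) := by
      intro j
      rw [← map_sub, he]
    simp only [h1]
    exact ⟨diff_large hU hd htt, fun ε hε => diff_small hV hd hε⟩

end

end Q82.Shift
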