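import Pool.Agent.Q82.Shift

/-! # The spaces `ℓ^p` and `c_0` as sequence spaces -/

namespace Q82.Shift

open Filter Topology
open scoped ZeroAtInfty ENNReal

noncomputable section

variable (K : Type) [RCLike K]

lemma sq_summable : Summable (fun i : ℕ => 1 / ((i : ℝ) + 1) ^ 2) := by
  have h := (Real.summable_one_div_nat_pow (p := 2)).2 (by norm_num)
  have h2 := (summable_nat_add_iff 1).2 h
  refine h2.congr fun i => ?_
  push_cast
  rfl

lemma norm_sq_inv (i : ℕ) : ‖(((1 / ((i : ℝ) + 1) ^ 2 : ℝ)) : K)‖ = 1 / ((i : ℝ) + 1) ^ 2 := by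
  rw [RCLike.norm_ofReal, abs_of_pos (by positivity)]

/-- `ℓ^p` -/
def lpSp (p : ℝ≥0∞) [Fact (1 ≤ p)] (hp : p ≠ ∞) : SeqSp K (lp (fun _ : ℕ => K) p) where
  c := { toFun := fun x => (x : ∀ _ : ℕ, K)
         map_add' := fun _ _ => rfl
         map_smul' := fun _ _ => rfl }
  inj := fun x y h => Subtype.ext h
  le := fun x i => lp.norm_apply_le_norm (by
    have := Fact.out (p := 1 ≤ p)
    exact (zero_lt_one.trans_le this).ne') x i
  dom := by
    intro x y C j hC hy
    have hp1 : (1 : ℝ) ≤ p.toReal := by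
      rw [← ENNReal.toReal_one]
      exact ENNReal.toReal_mono hp Fact.out
    have hp0 : 0 < p.toReal := by linarith
    have hle : ∀ i, ‖y i‖ ^ p.toReal ≤ C ^ p.toReal * ‖x (i + j)‖ ^ p.toReal := by
      intro i
      rw [← Real.mul_rpow hC (norm_nonneg _)]
      exact Real.rpow_le_rpow (norm_nonneg _) (hy i) hp0.le
    have hx : Summable (fun i => ‖x (i + j)‖ ^ p.toReal) :=
      ((lp.memℓp x).summable hp0).comp_injective (add_left_injective j)
    have hmem : Memℓp y p := by
      apply memℓp_gen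
      exact Summable.of_nonneg_of_le (fun i => by positivity) hle (hx.mul_left _)
    refine ⟨⟨y, hmem⟩, rfl, ?_⟩
    apply lp.norm_le_of_forall_sum_le hp0 (by positivity)
    intro s
    calc ∑ i ∈ s, ‖y i‖ ^ p.toReal ≤ ∑ i ∈ s, C ^ p.toReal * ‖x (i + j)‖ ^ p.toReal :=
          Finset.sum_le_sum fun i _ => hle i
      _ = C ^ p.toReal * ∑ i ∈ s.map (addRightEmbedding j), ‖x i‖ ^ p.toReal := by
          rw [Finset.sum_map, Finset.mul_sum]; rfl
      _ ≤ C ^ p.toReal * ‖x‖ ^ p.toReal := by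
          gcongr
          exact lp.sum_rpow_le_norm_rpow hp0 x _
      _ = (C * ‖x‖) ^ p.toReal := (Real.mul_rpow hC (norm_nonneg _)).symm
  ys := ⟨fun i => (((1 / ((i : ℝ) + 1) ^ 2 : ℝ)) : K), by
    have hp1 : (1 : ℝ) ≤ p.toReal := by
      rw [← ENNReal.toReal_one]
      exact ENNReal.toReal_mono hp Fact.out
    apply memℓp_gen
    refine Summable.of_nonneg_of_le (fun i => by positivity) (fun i => ?_) sq_summable
    rw [norm_sq_inv]
    have h1 : 1 / ((i : ℝ) + 1) ^ 2 ≤ 1 := by
      rw [div_le_one (by positivity)]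
      nlinarith [(by positivity : (0 : ℝ) ≤ (i : ℝ))]
    calc (1 / ((i : ℝ) + 1) ^ 2) ^ p.toReal ≤ (1 / ((i : ℝ) + 1) ^ 2) ^ (1 : ℝ) :=
          Real.rpow_le_rpow_of_exponent_ge (by positivity) h1 hp1
      _ = _ := Real.rpow_one _⟩
  hys := fun i => rfl
  fin := by
    intro x ε hε
    have h := lp.hasSum_single hp x
    rw [HasSum, Metric.tendsto_nhds] at h
    obtain ⟨s, hs⟩ := (h ε hε).exists
    refine ⟨∑ i ∈ s, lp.single p i (x i), ?_, s.sup id + 1, ?_⟩
    · rw [← dist_eq_norm, dist_comm]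
      exact hs
    · intro i hi
      change (↑(∑ b ∈ s, lp.single p b (x b)) : ∀ _ : ℕ, K) i = 0
      rw [lp.coeFn_sum, Finset.sum_apply]
      apply Finset.sum_eq_zero
      intro b hb
      have : b ≤ s.sup id := Finset.le_sup (f := id) hb
      rw [lp.single_apply, Pi.single_eq_of_ne (by omega)]

lemma c0_tendsto (x : C₀(ℕ, K)) : Tendsto (fun i => x i) atTop (𝓝 0) := by
  have := x.zero_at_infty'
  rwa [cocompact_eq_cofinite, Nat.cofinite_eq_atTop] at this

/-- build an element of `c_0` -/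
def mkC0 (y : ℕ → K) (h : Tendsto y atTop (𝓝 0)) : C₀(ℕ, K) where
  toFun := y
  continuous_toFun := continuous_of_discreteTopology
  zero_at_infty' := by rwa [cocompact_eq_cofinite, Nat.cofinite_eq_atTop]

lemma c0_norm_le {x : C₀(ℕ, K)} {C : ℝ} (hC : 0 ≤ C) (h : ∀ i, ‖x i‖ ≤ C) : ‖x‖ ≤ C := by
  rw [← ZeroAtInftyContinuousMap.norm_toBCF_eq_norm]
  exact (BoundedContinuousFunction.norm_le hC).2 h

lemma c0_le (x : C₀(ℕ, K)) (i : ℕ) : ‖x i‖ ≤ ‖x‖ := by
  rw [← ZeroAtInftyContinuousMap.norm_toBCF_eq_norm]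
  exact BoundedContinuousFunction.norm_coe_le_norm x.toBCF i

/-- `c_0` -/
def c0Sp : SeqSp K C₀(ℕ, K) where
  c := { toFun := fun x => (x : ℕ → K)
         map_add' := fun _ _ => rfl
         map_smul' := fun _ _ => rfl }
  inj := fun x y h => DFunLike.coe_injective h
  le := c0_le K
  dom := by
    intro x y C j hC hy
    have h1 : Tendsto (fun i => C * ‖x (i + j)‖) atTop (𝓝 0) := by
      have := ((c0_tendsto K x).comp (tendsto_add_atTop_nat j)).norm.const_mul C
      simpa using this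
    have h2 : Tendsto y atTop (𝓝 0) := squeeze_zero_norm hy h1
    refine ⟨mkC0 K y h2, rfl, ?_⟩
    apply c0_norm_le K (by positivity)
    intro i
    refine (hy i).trans ?_
    gcongr
    exact c0_le K x _
  ys := mkC0 K (fun i => (((1 / ((i : ℝ) + 1) ^ 2 : ℝ)) : K)) (by
    rw [tendsto_zero_iff_norm_tendsto_zero]
    simp only [norm_sq_inv]
    exact sq_summable.tendsto_atTop_zero)
  hys := fun i => rfl
  fin := by
    intro x ε hε
    have h1 := (c0_tendsto K x).norm
    rw [norm_zero] at h1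
    obtain ⟨m, hm⟩ := (h1.eventually (gt_mem_nhds (half_pos hε))).exists_forall_of_atTop
    have h2 : Tendsto (fun i => if i < m then x i else 0) atTop (𝓝 0) := by
      apply tendsto_const_nhds.congr'
      filter_upwards [eventually_ge_atTop m] with i hi
      rw [if_neg (by omega)]
    refine ⟨mkC0 K _ h2, ?_, m, ?_⟩
    · refine lt_of_le_of_lt (c0_norm_le K (half_pos hε).le ?_) (half_lt_self hε)
      intro i
      change ‖x i - (if i < m then x i else 0)‖ ≤ ε / 2
      by_cases hi : i < m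
      · rw [if_pos hi, sub_self, norm_zero]; positivity
      · rw [if_neg hi, sub_zero]; exact (hm i (by omega)).le
    · intro i hi
      change (if i < m then x i else 0) = 0
      rw [if_neg (by omega)]

end

end Q82.Shift
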