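import Mathlib

/-! # The sine basis of `L²(0,1)` -/

namespace Q82.Sine

open MeasureTheory Set Filter Topology
open scoped ENNReal InnerProductSpace

noncomputable section

/-- Lebesgue measure on `(0,1]` -/
abbrev mu : Measure ℝ := volume.restrict (Ioc (0 : ℝ) 1)

/-- real `L²(0,1)` -/
abbrev H : Type := Lp ℝ 2 mu

instance : IsProbabilityMeasure mu := ⟨by simp [mu]⟩

lemma inner_toLp {f g : ℝ → ℝ} (hf : MemLp f 2 mu) (hg : MemLp g 2 mu) :
    ⟪hf.toLp f, hg.toLp g⟫_ℝ = ∫ x in (0 : ℝ)..1, f x * g x := by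
  rw [L2.inner_def, intervalIntegral.integral_of_le zero_le_one]
  apply integral_congr_ae
  filter_upwards [hf.coeFn_toLp, hg.coeFn_toLp] with x h1 h2
  rw [h1, h2]
  simp [mul_comm]

lemma mem_of_cont {f : ℝ → ℝ} (hf : ContinuousOn f (Icc 0 1)) : MemLp f 2 mu := by
  obtain ⟨C, hC⟩ := isCompact_Icc.exists_bound_of_continuousOn hf
  apply MemLp.of_bound _ C
  · rw [ae_restrict_iff' measurableSet_Ioc]
    exact Eventually.of_forall fun x hx => hC x (Ioc_subset_Icc_self hx)
  · exact (hf.mono Ioc_subset_Icc_self).aestronglyMeasurable measurableSet_Ioc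

/-- the sines -/
def phi (k : ℕ) (x : ℝ) : ℝ := √2 * Real.sin ((k + 1) * Real.pi * x)

lemma phi_cont (k : ℕ) : Continuous (phi k) := by unfold phi; fun_prop

lemma phi_mem (k : ℕ) : MemLp (phi k) 2 mu := mem_of_cont (phi_cont k).continuousOn

/-- the sines in `L²` -/
def ph (k : ℕ) : H := (phi_mem k).toLp

lemma int_cos (m : ℤ) : ∫ u in (0 : ℝ)..1, Real.cos (m * Real.pi * u) =
    if m = 0 then 1 else 0 := by
  split_ifs with h
  · subst h; norm_num
  · have hm : (m : ℝ) ≠ 0 := by exact_mod_cast h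
    have h0 : m * Real.pi ≠ 0 := by have := Real.pi_pos; positivity
    rw [intervalIntegral.integral_comp_mul_left (fun x => Real.cos x) h0, integral_cos]
    have h1 : Real.sin (m * Real.pi * 1) = 0 := by
      rw [mul_one]; exact Real.sin_int_mul_pi m
    rw [h1, mul_zero, Real.sin_zero]; simp

lemma phi_phi (j k : ℕ) : ∫ x in (0 : ℝ)..1, phi j x * phi k x = if j = k then 1 else 0 := by
  have h1 : ∀ u : ℝ, phi j u * phi k u =
      Real.cos (((j - k : ℤ) : ℝ) * Real.pi * u) -
      Real.cos (((j + k + 2 : ℤ) : ℝ) * Real.pi * u) := by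
    intro u
    have e1 : ((j - k : ℤ) : ℝ) * Real.pi * u =
        (j + 1) * Real.pi * u - (k + 1) * Real.pi * u := by
      push_cast; ring
    have e2 : ((j + k + 2 : ℤ) : ℝ) * Real.pi * u =
        (j + 1) * Real.pi * u + (k + 1) * Real.pi * u := by
      push_cast; ring
    rw [e1, e2, Real.cos_sub, Real.cos_add]
    unfold phi
    have h2 : √2 * √2 = 2 := Real.mul_self_sqrt (by norm_num)
    linear_combination (Real.sin ((j + 1) * Real.pi * u) * Real.sin ((k + 1) * Real.pi * u)) * h2
  simp only [h1]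
  rw [intervalIntegral.integral_sub (by apply Continuous.intervalIntegrable; fun_prop)
    (by apply Continuous.intervalIntegrable; fun_prop), int_cos, int_cos]
  have h2 : ¬ ((j : ℤ) + k + 2 = 0) := by omega
  rw [if_neg h2]
  by_cases h : j = k
  · rw [if_pos (by omega), if_pos h]; norm_num
  · rw [if_neg (by omega), if_neg h]; norm_num

lemma ph_orth : Orthonormal ℝ ph := by
  rw [orthonormal_iff_ite]
  intro j k
  exact (inner_toLp (phi_mem j) (phi_mem k)).trans (phi_phi j k)

/-- extension by zero -/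
def ext (f : ℝ → ℝ) : ℝ → ℝ := indicator (Ioc (0 : ℝ) 1) f

lemma ext_mem (f : H) : MemLp (ext f) 2 volume :=
  (memLp_indicator_iff_restrict measurableSet_Ioc).2 (Lp.memLp f)

lemma ext_mem' (f : H) : MemLp (fun x => ext f (-x)) 2 volume :=
  (ext_mem f).comp_measurePreserving (Measure.measurePreserving_neg volume)

/-- the odd extension -/
def odd (f : H) (x : ℝ) : ℂ := ((ext f x - ext f (-x) : ℝ) : ℂ)

lemma odd_mem (f : H) : MemLp (odd f) 2 (volume.restrict (Ioc (-1 : ℝ) 1)) :=
  (((ext_mem f).sub (ext_mem' f)).ofReal (K := ℂ)).restrict _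

lemma int_ext (f : H) (h : ℝ → ℝ) :
    ∫ x in (-1 : ℝ)..1, h x * ext f x = ∫ x in (0 : ℝ)..1, h x * f x := by
  rw [intervalIntegral.integral_of_le (by norm_num), intervalIntegral.integral_of_le zero_le_one]
  have : (fun x => h x * ext f x) = indicator (Ioc (0 : ℝ) 1) (fun x => h x * f x) := by
    ext x
    unfold ext
    by_cases hx : x ∈ Ioc (0 : ℝ) 1
    · rw [indicator_of_mem hx, indicator_of_mem hx]
    · rw [indicator_of_notMem hx, indicator_of_notMem hx, mul_zero]
  rw [this, setIntegral_indicator measurableSet_Ioc,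
    inter_eq_right.2 (Ioc_subset_Ioc_left (by norm_num))]

lemma sin_zero (f : H) (hf : ∀ k, ⟪ph k, f⟫_ℝ = 0) (n : ℤ) :
    ∫ x in (0 : ℝ)..1, Real.sin (n * Real.pi * x) * f x = 0 := by
  have key : ∀ k : ℕ, ∫ x in (0 : ℝ)..1, Real.sin ((k + 1) * Real.pi * x) * f x = 0 := by
    intro k
    have h1 := hf k
    rw [L2.inner_def, ← intervalIntegral.integral_of_le zero_le_one] at h1
    have h2 : ∫ x in (0 : ℝ)..1, ⟪(ph k : ℝ → ℝ) x, f x⟫_ℝ =
        ∫ x in (0 : ℝ)..1, √2 * (Real.sin ((k + 1) * Real.pi * x) * f x) := by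
      rw [intervalIntegral.integral_of_le zero_le_one, intervalIntegral.integral_of_le zero_le_one]
      apply integral_congr_ae
      filter_upwards [(phi_mem k).coeFn_toLp] with x hx
      change ⟪(phi_mem k).toLp (phi k) x, f x⟫_ℝ = _
      rw [hx]
      unfold phi
      simp only [RCLike.inner_apply, conj_trivial]
      ring
    rw [h2, intervalIntegral.integral_const_mul] at h1
    have h3 : √2 ≠ 0 := by positivity
    exact (mul_eq_zero.1 h1).resolve_left h3
  rcases lt_trichotomy n 0 with hn | hn | hn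
  · obtain ⟨k, hk⟩ : ∃ k : ℕ, n = -((k : ℤ) + 1) := ⟨(-n - 1).toNat, by omega⟩
    have h1 : ∀ x : ℝ, Real.sin (n * Real.pi * x) * f x =
        - (Real.sin ((k + 1) * Real.pi * x) * f x) := by
      intro x
      rw [← neg_mul, ← Real.sin_neg]
      congr 2
      rw [hk]; push_cast; ring
    simp only [h1]
    rw [intervalIntegral.integral_neg, key, neg_zero]
  · subst hn; simp
  · obtain ⟨k, hk⟩ : ∃ k : ℕ, n = (k : ℤ) + 1 := ⟨(n - 1).toNat, by omega⟩
    have h1 : ∀ x : ℝ, Real.sin (n * Real.pi * x) * f x =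
        Real.sin ((k + 1) * Real.pi * x) * f x := by
      intro x
      congr 2
      rw [hk]; push_cast; ring
    simp only [h1]
    exact key k

lemma lt' : (-1 : ℝ) < 1 := by norm_num

lemma coeff_zero (f : H) (hf : ∀ k, ⟪ph k, f⟫_ℝ = 0) (n : ℤ) :
    fourierCoeffOn lt' (odd f) n = 0 := by
  rw [fourierCoeffOn_eq_integral]
  have hint : ∀ g : ℝ → ℝ, Continuous g →
      IntervalIntegrable (fun x => g x * ext f x) volume (-1) 1 := by
    intro g hg
    have h1 : IntervalIntegrable (ext f) volume (-1) 1 := by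
      rw [intervalIntegrable_iff_integrableOn_Ioc_of_le (by norm_num)]
      exact ((ext_mem f).restrict _).integrable (by norm_num)
    exact h1.continuousOn_mul hg.continuousOn
  have hc : ∀ x : ℝ, (fourier (-n) (x : AddCircle (1 - (-1) : ℝ)) : ℂ) =
      (Real.cos (n * Real.pi * x) : ℂ) - Complex.I * (Real.sin (n * Real.pi * x) : ℂ) := by
    intro x
    rw [fourier_coe_apply]
    have h1 : 2 * (Real.pi : ℂ) * Complex.I * ((-n : ℤ) : ℂ) * (x : ℂ) / ((1 - (-1) : ℝ) : ℂ) =
        ((-(n * Real.pi * x) : ℝ) : ℂ) * Complex.I := by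
      push_cast; ring
    rw [h1, Complex.exp_mul_I, ← Complex.ofReal_cos, ← Complex.ofReal_sin, Real.cos_neg,
      Real.sin_neg]
    push_cast
    ring
  have h1 : ∫ x in (-1 : ℝ)..1, (fourier (-n) (x : AddCircle (1 - (-1) : ℝ)) : ℂ) • odd f x =
      ((∫ x in (-1 : ℝ)..1, Real.cos (n * Real.pi * x) * (ext f x - ext f (-x)) : ℝ) : ℂ) -
      Complex.I *
      ((∫ x in (-1 : ℝ)..1, Real.sin (n * Real.pi * x) * (ext f x - ext f (-x)) : ℝ) : ℂ) := by
    have hneg : ∀ g : ℝ → ℝ, Continuous g →
        IntervalIntegrable (fun x => g x * ext f (-x)) volume (-1) 1 := by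
      intro g hg
      have h1 : IntervalIntegrable (fun x => ext f (-x)) volume (-1) 1 := by
        rw [intervalIntegrable_iff_integrableOn_Ioc_of_le (by norm_num)]
        exact ((ext_mem' f).restrict _).integrable (by norm_num)
      exact h1.continuousOn_mul hg.continuousOn
    have hi : ∀ g : ℝ → ℝ, Continuous g →
        IntervalIntegrable (fun x => g x * (ext f x - ext f (-x))) volume (-1) 1 := by
      intro g hg
      simpa only [mul_sub] using (hint g hg).sub (hneg g hg)
    have hiC : ∀ g : ℝ → ℝ, Continuous g →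
        IntervalIntegrable (fun x => ((g x * (ext f x - ext f (-x)) : ℝ) : ℂ)) volume (-1) 1 :=
      fun g hg => ⟨(hi g hg).1.ofReal, (hi g hg).2.ofReal⟩
    rw [← intervalIntegral.integral_ofReal, ← intervalIntegral.integral_ofReal,
      ← intervalIntegral.integral_const_mul, ← intervalIntegral.integral_sub
        (hiC (fun x => Real.cos (n * Real.pi * x)) (by fun_prop))
        ((hiC (fun x => Real.sin (n * Real.pi * x)) (by fun_prop)).const_mul _)]
    congr 1
    ext x
    rw [hc]
    unfold odd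
    rw [smul_eq_mul]
    push_cast
    ring
  have h2 : ∀ g : ℝ → ℝ, Continuous g →
      ∫ x in (-1 : ℝ)..1, g x * (ext f x - ext f (-x)) =
      ∫ x in (0 : ℝ)..1, (g x - g (-x)) * f x := by
    intro g hg
    have e1 : ∫ x in (-1 : ℝ)..1, g x * ext f (-x) = ∫ x in (-1 : ℝ)..1, g (-x) * ext f x := by
      have := intervalIntegral.integral_comp_neg (a := -1) (b := 1)
        (fun x => g (-x) * ext f x)
      simp only [neg_neg] at this
      exact this
    have hneg : IntervalIntegrable (fun x => g x * ext f (-x)) volume (-1) 1 := by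
      have h1 : IntervalIntegrable (fun x => ext f (-x)) volume (-1) 1 := by
        rw [intervalIntegrable_iff_integrableOn_Ioc_of_le (by norm_num)]
        exact ((ext_mem' f).restrict _).integrable (by norm_num)
      exact h1.continuousOn_mul hg.continuousOn
    simp only [mul_sub]
    rw [intervalIntegral.integral_sub (hint g hg) hneg, e1,
      ← intervalIntegral.integral_sub (hint g hg) (hint (fun x => g (-x)) (by fun_prop))]
    simp only [← sub_mul]
    exact int_ext f (fun x => g x - g (-x))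
  rw [h1, h2 _ (by fun_prop), h2 _ (by fun_prop)]
  have h3 : ∀ x : ℝ, (Real.cos (n * Real.pi * x) - Real.cos (n * Real.pi * -x)) * f x = 0 := by
    intro x
    rw [mul_neg, Real.cos_neg, sub_self, zero_mul]
  have h4 : ∀ x : ℝ, (Real.sin (n * Real.pi * x) - Real.sin (n * Real.pi * -x)) * f x =
      2 * (Real.sin (n * Real.pi * x) * f x) := by
    intro x
    rw [mul_neg, Real.sin_neg]; ring
  simp only [h3, h4]
  rw [intervalIntegral.integral_const_mul, sin_zero f hf n]
  simp

theorem complete (f : H) (hf : ∀ k, ⟪ph k, f⟫_ℝ = 0) : f = 0 := by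
  have h1 := tsum_sq_fourierCoeffOn lt' (odd_mem f)
  simp only [coeff_zero f hf, norm_zero] at h1
  have h2 : ∫ x in (-1 : ℝ)..1, ‖odd f x‖ ^ 2 = 0 := by
    have : (1 - (-1 : ℝ))⁻¹ ≠ 0 := by norm_num
    rw [smul_eq_mul] at h1
    have h3 : (1 - (-1 : ℝ))⁻¹ * ∫ x in (-1 : ℝ)..1, ‖odd f x‖ ^ 2 = 0 := by
      rw [← h1]; simp
    exact (mul_eq_zero.1 h3).resolve_left this
  rw [intervalIntegral.integral_of_le (by norm_num),
    integral_eq_zero_iff_of_nonneg (fun x => by positivity)
      ((odd_mem f).integrable_norm_pow (by norm_num))] at h2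
  have h3 : ∀ᵐ x ∂mu, f x = 0 := by
    have hle : mu ≤ volume.restrict (Ioc (-1 : ℝ) 1) :=
      Measure.restrict_mono_set _ (Ioc_subset_Ioc_left (by norm_num))
    filter_upwards [ae_mono hle h2, ae_restrict_mem measurableSet_Ioc] with x hx hx'
    have h4 : odd f x = 0 := by simpa using hx
    have h5 : ext f (-x) = 0 := by
      unfold ext
      rw [indicator_of_notMem]
      intro h
      linarith [h.1, hx'.1]
    unfold odd at h4
    rw [h5, sub_zero] at h4
    have h6 : ext f x = f x := by
      unfold ext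
      rw [indicator_of_mem hx']
    rw [h6] at h4
    exact_mod_cast h4
  rw [Lp.ext_iff]
  filter_upwards [h3, Lp.coeFn_zero ℝ 2 mu] with x hx hx'
  rw [hx, hx']
  rfl

/-- the sine basis -/
def basis : HilbertBasis ℕ ℝ H := HilbertBasis.mkOfOrthogonalEqBot ph_orth (by
  rw [Submodule.eq_bot_iff]
  intro f hf
  apply complete
  intro k
  exact (Submodule.mem_orthogonal _ _).1 hf _ (Submodule.subset_span ⟨k, rfl⟩))

lemma basis_apply (k : ℕ) : basis k = ph k := by
  unfold basis
  rw [HilbertBasis.coe_mkOfOrthogonalEqBot]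

end

end Q82.Sine
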