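import Mathlib

/-! # Complex manifolds from families of local homeomorphisms (general part) -/

open Set Topology Filter Manifold ContDiff

namespace Pool.Agent.Q82.TW

/-- A topological space covered by the images of local homeomorphisms defined on a complex normed
space, with holomorphic changes of parameters whose derivatives satisfy a relation. -/
structure Param (E : Type) [NormedAddCommGroup E] [NormedSpace ℂ E]
    (M : Type) [TopologicalSpace M] (ι : Type)
    (R : ι → ι → E → E → (E →L[ℂ] E) → Prop) where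
  P : ι → E → M
  loc : ∀ i, IsLocalHomeomorph (P i)
  ix : M → ι
  pt : M → E
  sec : ∀ x, P (ix x) (pt x) = x
  trans : ∀ i j a b, P i a = P j b → ∃ g : E → E, g a = b ∧ ContDiffAt ℂ ω g a ∧
    (∀ᶠ a' in 𝓝 a, P j (g a') = P i a') ∧ R i j a b (fderiv ℂ g a)

variable {E : Type} [NormedAddCommGroup E] [NormedSpace ℂ E] {M : Type} [TopologicalSpace M]
  {ι : Type} {R : ι → ι → E → E → (E →L[ℂ] E) → Prop}

/-- The space `M`, to be seen as a complex manifold. -/
def Sp (_p : Param E M ι R) : Type := M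

instance (p : Param E M ι R) : TopologicalSpace (Sp p) := inferInstanceAs (TopologicalSpace M)

/-- The parametrizations. -/
def Param.Q (p : Param E M ι R) (i : ι) : E → Sp p := p.P i

theorem Param.locQ (p : Param E M ι R) (i : ι) : IsLocalHomeomorph (p.Q i) := p.loc i

/-- the index of the preferred parametrization at a point -/
def Param.ixQ (p : Param E M ι R) (x : Sp p) : ι := p.ix x

/-- the parameter of a point -/
def Param.ptQ (p : Param E M ι R) (x : Sp p) : E := p.pt x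

theorem Param.secQ (p : Param E M ι R) (x : Sp p) : p.Q (p.ixQ x) (p.ptQ x) = x := p.sec x

theorem Param.transQ (p : Param E M ι R) {i j : ι} {a b : E} (h : p.Q i a = p.Q j b) :
    ∃ g : E → E, g a = b ∧ ContDiffAt ℂ ω g a ∧
    (∀ᶠ a' in 𝓝 a, p.Q j (g a') = p.Q i a') ∧ R i j a b (fderiv ℂ g a) := p.trans i j a b h

noncomputable instance instCharted (p : Param E M ι R) : ChartedSpace E (Sp p) where
  atlas := {e | ∃ i, ⇑e.symm = p.Q i}
  chartAt x := (p.locQ (p.ixQ x)).localInverseAt (p.ptQ x)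
  mem_chart_source x := by
    have h := (p.locQ (p.ixQ x)).apply_self_mem_localInverseAt_source (x := p.ptQ x)
    rw [p.secQ x] at h
    exact h
  chart_mem_atlas x := ⟨p.ixQ x, IsLocalHomeomorph.localInverseAt_symm (p.locQ (p.ixQ x)) _⟩

theorem chartAt_symm (p : Param E M ι R) (x : Sp p) : ⇑(chartAt E x).symm = p.Q (p.ixQ x) :=
  IsLocalHomeomorph.localInverseAt_symm (p.locQ (p.ixQ x)) _

theorem chartAt_self (p : Param E M ι R) (x : Sp p) : chartAt E x x = p.ptQ x := by
  have h := (p.locQ (p.ixQ x)).localInverseAt_apply_self (x := p.ptQ x)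
  rw [p.secQ x] at h
  exact h

theorem mem_atlas (p : Param E M ι R) {e : OpenPartialHomeomorph (Sp p) E} :
    e ∈ atlas E (Sp p) ↔ ∃ i, ⇑e.symm = p.Q i := Iff.rfl

/-- local form of a chart composed with a parametrization -/
theorem chart_comp (p : Param E M ι R) {e : OpenPartialHomeomorph (Sp p) E} {j : ι}
    (he : ⇑e.symm = p.Q j) {i : ι} {a : E} (ha : p.Q i a ∈ e.source) {g : E → E}
    (hga : g a = e (p.Q i a)) (hg : ContinuousAt g a)
    (hP : ∀ᶠ a' in 𝓝 a, p.Q j (g a') = p.Q i a') :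
    ∀ᶠ a' in 𝓝 a, e (p.Q i a') = g a' := by
  have h1 : ∀ᶠ a' in 𝓝 a, g a' ∈ e.target := by
    apply hg.eventually
    rw [hga]
    exact e.open_target.mem_nhds (e.map_source ha)
  filter_upwards [h1, hP] with a' h1 h2
  rw [← h2, ← he, e.right_inv h1]

theorem chart_comp_contDiffAt (p : Param E M ι R) {e : OpenPartialHomeomorph (Sp p) E} {j : ι}
    (he : ⇑e.symm = p.Q j) {i : ι} {a : E} (ha : p.Q i a ∈ e.source) :
    ContDiffAt ℂ ω (fun a' => e (p.Q i a')) a := by
  have h0 : p.Q i a = p.Q j (e (p.Q i a)) := by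
    rw [← he, e.left_inv ha]
  obtain ⟨g, h1, h2, h3, -⟩ := p.transQ h0
  have h4 := chart_comp p he ha h1 h2.continuousAt h3
  exact h2.congr_of_eventuallyEq h4

instance instManifold (p : Param E M ι R) : IsManifold 𝓘(ℂ, E) ω (Sp p) := by
  apply isManifold_of_contDiffOn
  rintro e e' ⟨i, hi⟩ ⟨j, hj⟩
  intro a ha
  simp only [mfld_simps] at ha
  obtain ⟨ha1, ha2⟩ := ha
  have h := chart_comp_contDiffAt p hj (i := i) (a := a) (by rw [← hi]; exact ha2)
  have h' : (𝓘(ℂ, E) ∘ (e.symm ≫ₕ e') ∘ 𝓘(ℂ, E).symm) = fun a' => e' (p.Q i a') := by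
    funext a'
    simp [← hi]
  rw [h']
  exact h.contDiffWithinAt

theorem contMDiff_Q (p : Param E M ι R) (i : ι) : ContMDiff 𝓘(ℂ, E) 𝓘(ℂ, E) ω (p.Q i) := by
  intro a
  have hl := p.locQ i
  have hm : hl.localInverseAt a ∈ IsManifold.maximalAtlas 𝓘(ℂ, E) ω (Sp p) :=
    IsManifold.subset_maximalAtlas ⟨i, IsLocalHomeomorph.localInverseAt_symm hl _⟩
  have h := contMDiffAt_symm_of_mem_maximalAtlas hm (x := a) (by simp)
  rwa [IsLocalHomeomorph.localInverseAt_symm] at h

theorem mdiffAt_Q (p : Param E M ι R) (i : ι) (a : E) :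
    MDifferentiableAt 𝓘(ℂ, E) 𝓘(ℂ, E) (p.Q i) a :=
  (contMDiff_Q p i a).mdifferentiableAt (by simp)

/-- the derivative of a parametrization, seen in the preferred chart -/
theorem mfderiv_Q (p : Param E M ι R) {i : ι} {a : E} {x : Sp p} (hx : p.Q i a = x) {g : E → E}
    (hga : g a = p.ptQ x) (hg : ContinuousAt g a)
    (hP : ∀ᶠ a' in 𝓝 a, p.Q (p.ixQ x) (g a') = p.Q i a') :
    (mfderiv 𝓘(ℂ, E) 𝓘(ℂ, E) (p.Q i) a : E →L[ℂ] E) = fderiv ℂ g a := by
  subst hx
  have hd := mdiffAt_Q p i a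
  have h1 : ∀ᶠ a' in 𝓝 a, chartAt E (p.Q i a) (p.Q i a') = g a' :=
    chart_comp p (chartAt_symm p _) (mem_chart_source E _)
      (by rw [chartAt_self, hga]) hg hP
  rw [hd.mfderiv]
  simp only [writtenInExtChartAt, mfld_simps]
  rw [fderivWithin_univ]
  exact Filter.EventuallyEq.fderiv_eq h1

theorem rel_Q (p : Param E M ι R) (i : ι) (a : E) :
    R i (p.ixQ (p.Q i a)) a (p.ptQ (p.Q i a)) (mfderiv 𝓘(ℂ, E) 𝓘(ℂ, E) (p.Q i) a : E →L[ℂ] E) := by
  obtain ⟨g, h1, h2, h3, h4⟩ := p.transQ (p.secQ (p.Q i a)).symm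
  rw [mfderiv_Q p rfl h1 h2.continuousAt h3]
  exact h4

end Pool.Agent.Q82.TW
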