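import Pool.Agent.Q82.TW9

/-! # Partial hyperbolicity -/

open Set Topology Filter Manifold ContDiff ComplexConjugate Pool.Agent.Q82.TWD

namespace Pool.Agent.Q82.TW

noncomputable def Ecb : Subspaces E4 MM := par.bundle Sc
noncomputable def Esb : Subspaces E4 MM := par.bundle Ss
noncomputable def Eub : Subspaces E4 MM := par.bundle Su

theorem contC : ContinuousSubbundle 1 Ecb := by
  refine bundle_cont par RR_Sc (r := 1) (fun i _ b => (1, evB i (iv i b.1 b.2))) ?_ ?_ ?_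
  · intro i _
    exact continuous_const.prodMk ((continuous_evB i).comp (continuous_iv i))
  · intro i b
    apply LinearIndependent.of_subsingleton (0 : Fin 1)
    intro h
    exact one_ne_zero (congrArg Prod.fst h)
  · intro i b
    have h1 : (range fun _ : Fin 1 => ((1, evB i (iv i b.1 b.2)) : E4))
        = {((1, evB i (iv i b.1 b.2)) : E4)} := Set.range_const
    rw [h1]
    ext v
    rw [Submodule.mem_span_singleton, mem_Sc]
    constructor
    · rintro ⟨c, rfl⟩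
      simp [eta]
    · intro h
      refine ⟨v.1, ?_⟩
      have h2 : v.2 = v.1 • evB i (iv i b.1 b.2) := sub_eq_zero.mp h
      ext1
      · simp
      · rw [h2]; rfl

theorem contS : ContinuousSubbundle 2 Esb := by
  refine bundle_cont par RR_Ss (r := 2)
    (fun _ k _ => if k = 0 then (0, 1, 0, 0) else (0, 0, 1, 0)) ?_ ?_ ?_
  · intro i k
    exact continuous_const
  · intro i b
    rw [Fintype.linearIndependent_iff]
    intro g hg
    rw [Fin.sum_univ_two] at hg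
    have h0 := congrArg (fun v : E4 => v.2.1) hg
    have h1 := congrArg (fun v : E4 => v.2.2.1) hg
    simp at h0 h1
    intro k
    fin_cases k
    · exact h0
    · exact h1
  · intro i b
    apply le_antisymm
    · rw [Submodule.span_le]
      rintro _ ⟨k, rfl⟩
      fin_cases k
      · exact ⟨rfl, rfl⟩
      · exact ⟨rfl, rfl⟩
    · intro v hv
      rw [mem_Ss] at hv
      have h1 : v = v.2.1 • ((0, 1, 0, 0) : E4) + v.2.2.1 • ((0, 0, 1, 0) : E4) := by
        simp [Prod.ext_iff, hv.1, hv.2]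
      rw [h1]
      refine Submodule.add_mem _ (Submodule.smul_mem _ _ ?_) (Submodule.smul_mem _ _ ?_)
      · exact Submodule.subset_span ⟨0, rfl⟩
      · exact Submodule.subset_span ⟨1, rfl⟩

theorem contU : ContinuousSubbundle 1 Eub := by
  refine bundle_cont par RR_Su (r := 1) (fun _ _ _ => (0, 0, 0, 1)) ?_ ?_ ?_
  · intro i _
    exact continuous_const
  · intro i b
    apply LinearIndependent.of_subsingleton (0 : Fin 1)
    intro h
    exact one_ne_zero (congrArg (fun v : E4 => v.2.2.2) h)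
  · intro i b
    have h1 : (range fun _ : Fin 1 => ((0, 0, 0, 1) : E4))
        = {((0, 0, 0, 1) : E4)} := Set.range_const
    rw [h1]
    ext v
    rw [Submodule.mem_span_singleton, mem_Su]
    constructor
    · rintro ⟨c, rfl⟩
      simp
    · rintro ⟨h1, h2, h3⟩
      refine ⟨v.2.2.2, ?_⟩
      simp [Prod.ext_iff, h1, h2, h3]

theorem decompE (i : Bool) (a v : E4) : ∃! t : E4 × E4 × E4,
    t.1 ∈ Ss i a ∧ t.2.1 ∈ Sc i a ∧ t.2.2 ∈ Su i a ∧ t.1 + t.2.1 + t.2.2 = v := by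
  refine ⟨((0, (eta i a v).1, (eta i a v).2.1, 0), (v.1, v.1 • evB i (iv i a.1 a.2)),
    (0, 0, 0, (eta i a v).2.2)), ⟨⟨rfl, rfl⟩, ?_, ⟨rfl, rfl, rfl⟩, ?_⟩, ?_⟩
  · rw [mem_Sc]
    simp [eta]
  · simp [eta, Prod.ext_iff]
  · rintro ⟨s, c, u⟩ ⟨hs, hc, hu, h⟩
    simp only at hs hc hu h
    rw [mem_Ss] at hs
    rw [mem_Su] at hu
    rw [mem_Sc] at hc
    have h1 : c.1 = v.1 := by rw [← h]; simp [hs.1, hu.1]
    have h2 : c.2 = v.1 • evB i (iv i a.1 a.2) := by
      rw [← h1]; exact sub_eq_zero.mp hc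
    have h3 : eta i a v = s.2 + u.2 := by
      have : v.2 = s.2 + c.2 + u.2 := by rw [← h]; rfl
      rw [eta, this, h2]; abel
    rw [h3]
    simp [Prod.ext_iff, h1, h2, hs.1, hs.2, hu.1, hu.2.1, hu.2.2]

/-- the metric -/
noncomputable def NB : Finsler E4 MM := par.nm NN

theorem eta_add (i : Bool) (a v w : E4) : eta i a (v + w) = eta i a v + eta i a w :=
  (etaL i a).map_add v w

theorem eta_sub (i : Bool) (a v w : E4) : eta i a (v - w) = eta i a v - eta i a w :=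
  (etaL i a).map_sub v w

theorem eta_smul (i : Bool) (a v : E4) (c : ℂ) : eta i a (c • v) = c • eta i a v :=
  (etaL i a).map_smul c v

theorem NN_smul (i : Bool) (a v : E4) (c : ℂ) : NN i a (c • v) = ‖c‖ * NN i a v := by
  have h1 : NN i a (c • v) = Real.sqrt (‖c‖ ^ 2 * NN i a v ^ 2) := by
    rw [NN_sq, NN, eta_smul]
    congr 1
    simp only [Prod.smul_fst, Prod.smul_snd, smul_eq_mul, norm_mul]
    ring
  have h2 : 0 ≤ NN i a v := Real.sqrt_nonneg _
  rw [h1, Real.sqrt_mul (by positivity), Real.sqrt_sq (norm_nonneg c), Real.sqrt_sq h2]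

theorem para (z w : ℂ) : ‖z + w‖ ^ 2 + ‖z - w‖ ^ 2 = 2 * (‖z‖ ^ 2 + ‖w‖ ^ 2) := by
  have := parallelogram_law_with_norm ℝ z w
  nlinarith

theorem NN_para (i : Bool) (a v w : E4) :
    NN i a (v + w) ^ 2 + NN i a (v - w) ^ 2 = 2 * (NN i a v ^ 2 + NN i a w ^ 2) := by
  rw [NN_sq, NN_sq, NN_sq, NN_sq, eta_add, eta_sub]
  simp only [Prod.fst_add, Prod.snd_add, Prod.fst_sub, Prod.snd_sub]
  have h0 := para v.1 w.1
  have h1 := para (eta i a v).1 (eta i a w).1
  have h2 := para (eta i a v).2.1 (eta i a w).2.1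
  have h3 := para (eta i a v).2.2 (eta i a w).2.2
  have hp : (1 + ‖a.1‖ ^ 2) ≠ 0 := by positivity
  set P := 1 + ‖a.1‖ ^ 2
  have e0 : (‖v.1 + w.1‖ / P) ^ 2 + (‖v.1 - w.1‖ / P) ^ 2
      = 2 * ((‖v.1‖ / P) ^ 2 + (‖w.1‖ / P) ^ 2) := by
    rw [div_pow, div_pow, div_pow, div_pow, ← add_div, h0]; ring
  have e1 : (‖(eta i a v).1 + (eta i a w).1‖ ^ 2 + ‖(eta i a v).2.1 + (eta i a w).2.1‖ ^ 2) / P +
      (‖(eta i a v).1 - (eta i a w).1‖ ^ 2 + ‖(eta i a v).2.1 - (eta i a w).2.1‖ ^ 2) / P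
      = 2 * ((‖(eta i a v).1‖ ^ 2 + ‖(eta i a v).2.1‖ ^ 2) / P
        + (‖(eta i a w).1‖ ^ 2 + ‖(eta i a w).2.1‖ ^ 2) / P) := by
    rw [← add_div]
    have : ‖(eta i a v).1 + (eta i a w).1‖ ^ 2 + ‖(eta i a v).2.1 + (eta i a w).2.1‖ ^ 2 +
      (‖(eta i a v).1 - (eta i a w).1‖ ^ 2 + ‖(eta i a v).2.1 - (eta i a w).2.1‖ ^ 2)
      = 2 * ((‖(eta i a v).1‖ ^ 2 + ‖(eta i a v).2.1‖ ^ 2)
        + (‖(eta i a w).1‖ ^ 2 + ‖(eta i a w).2.1‖ ^ 2)) := by linarith
    rw [this]; ring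
  linarith

theorem NN_eq_zero {i : Bool} {a v : E4} (h : NN i a v = 0) : v = 0 := by
  have h1 := NN_sq i a v
  rw [h] at h1
  have hp : (0 : ℝ) < 1 + ‖a.1‖ ^ 2 := by positivity
  have p0 : 0 ≤ (‖v.1‖ / (1 + ‖a.1‖ ^ 2)) ^ 2 := by positivity
  have p1 : 0 ≤ (‖(eta i a v).1‖ ^ 2 + ‖(eta i a v).2.1‖ ^ 2) / (1 + ‖a.1‖ ^ 2) := by positivity
  have p2 : 0 ≤ ‖(eta i a v).2.2‖ ^ 2 := by positivity
  have q0 : (‖v.1‖ / (1 + ‖a.1‖ ^ 2)) ^ 2 = 0 := by nlinarith
  have q1 : (‖(eta i a v).1‖ ^ 2 + ‖(eta i a v).2.1‖ ^ 2) / (1 + ‖a.1‖ ^ 2) = 0 := by nlinarith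
  have q2 : ‖(eta i a v).2.2‖ ^ 2 = 0 := by nlinarith
  have r0 : v.1 = 0 := by
    have := pow_eq_zero_iff (two_ne_zero) |>.mp q0
    rw [div_eq_zero_iff] at this
    exact norm_eq_zero.mp (this.resolve_right hp.ne')
  have r1 : ‖(eta i a v).1‖ ^ 2 + ‖(eta i a v).2.1‖ ^ 2 = 0 :=
    (div_eq_zero_iff.mp q1).resolve_right hp.ne'
  rw [eta_of_zero r0] at r1 q2
  have s1 : ‖v.2.1‖ ^ 2 = 0 := by nlinarith [sq_nonneg ‖v.2.1‖, sq_nonneg ‖v.2.2.1‖]
  have s2 : ‖v.2.2.1‖ ^ 2 = 0 := by nlinarith [sq_nonneg ‖v.2.1‖, sq_nonneg ‖v.2.2.1‖]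
  have t1 : v.2.1 = 0 := by simpa using s1
  have t2 : v.2.2.1 = 0 := by simpa using s2
  have t3 : v.2.2.2 = 0 := by simpa using q2
  simp [Prod.ext_iff, r0, t1, t2, t3]

theorem NB_herm : IsHermitianNorm NB where
  cont := nm_continuous par RR_NN continuous_NN
  herm x :=
    { nonneg := fun _ => Real.sqrt_nonneg _
      eq_zero := fun _ h => NN_eq_zero (i := par.ixQ x) (a := par.ptQ x) h
      smul := fun _ _ => NN_smul _ _ _ _
      parallelogram := fun _ _ => NN_para _ _ _ _ }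

/-- the diffeomorphism of the fourfold -/
noncomputable def ffD : MM ≃ₘ^ω⟮𝓘(ℂ, E4), 𝓘(ℂ, E4)⟯ MM where
  toEquiv := ffE
  contMDiff_toFun := map_contMDiff par (F := fun _ => FF) ffE_Q (fun _ => FF.contDiff)
  contMDiff_invFun := map_contMDiff par (F := fun _ => FI) ffE_symm_Q (fun _ => FI.contDiff)

theorem T_FF (i : Bool) (a v : E4) : par.T ffE (par.Q i a) (par.D i a v)
    = par.D i (FF a) (FF v) := by
  have h := T_D par (F := fun _ => FF) ffE_Q (fun _ => FF.contDiff) i a v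
  rw [h]
  simp only [ContinuousLinearMap.fderiv]

theorem nr_FF (i : Bool) (a v : E4) : par.nr NN (ffE (par.Q i a))
    (par.T ffE (par.Q i a) (par.D i a v)) = NN i (FF a) (FF v) := by
  have h := nr_T par RR_NN (F := fun _ => FF) ffE_Q (fun _ => FF.contDiff) i a v
  rw [h]
  simp only [ContinuousLinearMap.fderiv]

theorem ph : IsPartiallyHyperbolic ffE Esb Ecb Eub where
  decomp x v := decompE (par.ixQ x) (par.ptQ x) v
  contS := ⟨2, contS⟩
  contC := ⟨1, contC⟩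
  contU := ⟨1, contU⟩
  invS x := bun_map par RR_Ss (F := fun _ => FF) ffE_Q (fun _ => FF.contDiff)
    (fun i a v => by simp only [ContinuousLinearMap.fderiv]; exact FF_Ss i a v)
    (fun i a => by simp only [ContinuousLinearMap.fderiv]; exact FF_surj) x
  invC x := bun_map par RR_Sc (F := fun _ => FF) ffE_Q (fun _ => FF.contDiff)
    (fun i a v => by simp only [ContinuousLinearMap.fderiv]; exact FF_Sc i a v)
    (fun i a => by simp only [ContinuousLinearMap.fderiv]; exact FF_surj) x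
  invU x := bun_map par RR_Su (F := fun _ => FF) ffE_Q (fun _ => FF.contDiff)
    (fun i a v => by simp only [ContinuousLinearMap.fderiv]; exact FF_Su i a v)
    (fun i a => by simp only [ContinuousLinearMap.fderiv]; exact FF_surj) x
  rates := by
    refine ⟨NB, 1, NB_herm, le_rfl, ?_⟩
    rw [Function.iterate_one]
    refine fun x => ⟨‖sig‖, 1, 1, rho, sig_norm, rho_gt, sig_norm, rho_gt, ?_, ?_, ?_, ?_⟩
    · intro v hv
      obtain ⟨i, a, rfl⟩ : ∃ i a, par.Q i a = x := ⟨_, _, par.secQ x⟩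
      obtain ⟨w, rfl⟩ := D_surjective par i a v
      have hw : w ∈ Ss i a := (bun_mem par RR_Ss i a w).mp hv
      show par.nr NN (ffE (par.Q i a)) (par.T ffE (par.Q i a) (par.D i a w))
        ≤ ‖sig‖ * par.nr NN (par.Q i a) (par.D i a w)
      rw [nr_FF, nr_D par RR_NN, NN_FF_s hw]
    · intro v hv
      obtain ⟨i, a, rfl⟩ : ∃ i a, par.Q i a = x := ⟨_, _, par.secQ x⟩
      obtain ⟨w, rfl⟩ := D_surjective par i a v
      have hw : w ∈ Sc i a := (bun_mem par RR_Sc i a w).mp hv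
      show 1 * par.nr NN (par.Q i a) (par.D i a w) ≤
        par.nr NN (ffE (par.Q i a)) (par.T ffE (par.Q i a) (par.D i a w))
      rw [nr_FF, nr_D par RR_NN, NN_FF_c hw, one_mul]
    · intro v hv
      obtain ⟨i, a, rfl⟩ : ∃ i a, par.Q i a = x := ⟨_, _, par.secQ x⟩
      obtain ⟨w, rfl⟩ := D_surjective par i a v
      have hw : w ∈ Sc i a := (bun_mem par RR_Sc i a w).mp hv
      show par.nr NN (ffE (par.Q i a)) (par.T ffE (par.Q i a) (par.D i a w))
        ≤ 1 * par.nr NN (par.Q i a) (par.D i a w)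
      rw [nr_FF, nr_D par RR_NN, NN_FF_c hw, one_mul]
    · intro v hv
      obtain ⟨i, a, rfl⟩ : ∃ i a, par.Q i a = x := ⟨_, _, par.secQ x⟩
      obtain ⟨w, rfl⟩ := D_surjective par i a v
      have hw : w ∈ Su i a := (bun_mem par RR_Su i a w).mp hv
      show rho * par.nr NN (par.Q i a) (par.D i a w) ≤
        par.nr NN (ffE (par.Q i a)) (par.T ffE (par.Q i a) (par.D i a w))
      rw [nr_FF, nr_D par RR_NN, NN_FF_u hw]

end Pool.Agent.Q82.TW
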