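import Pool.Agent.Q82.TW10

/-! # The center foliation; the center bundle is nowhere holomorphic -/

open Set Topology Filter Manifold ContDiff ComplexConjugate Pool.Agent.Q82.TWD

namespace Pool.Agent.Q82.TW

/-- the projection to the leaf space -/
def prT (x : MM) : T6 := x.2

instance : T2Space MM := inferInstanceAs (T2Space (OnePoint ℂ × T6))
instance : CompactSpace MM := inferInstanceAs (CompactSpace (OnePoint ℂ × T6))

instance : ConnectedSpace (OnePoint ℂ) := inferInstance

instance : ConnectedSpace (AddCircle (1 : ℝ)) := by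
  have : Function.Surjective ((↑) : ℝ → AddCircle (1 : ℝ)) := QuotientAddGroup.mk_surjective
  exact this.connectedSpace (AddCircle.continuous_mk' (1 : ℝ))

instance : ConnectedSpace MM := inferInstanceAs (ConnectedSpace (OnePoint ℂ × T6))

/-- the leaf through a point -/
noncomputable def leafC (i : Bool) (v : V3) (z : ℂ) : MM := par.Q i (z, ev i z v)

theorem leafC_eq (i : Bool) (v : V3) (z : ℂ) : leafC i v z = (kap i z, Psi v) := by
  show (kap i z, Psi (iv i z (ev i z v))) = _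
  rw [iv_ev]

noncomputable def lcE (i : Bool) (v : V3) (z : ℂ) : E4 := (z, ev i z v)

theorem lcE_hasFDerivAt (i : Bool) (v : V3) (z : ℂ) :
    HasFDerivAt (lcE i v) ((ContinuousLinearMap.id ℂ ℂ).prod
      ((ContinuousLinearMap.id ℂ ℂ).smulRight (evB i v))) z := by
  refine HasFDerivAt.prodMk (hasFDerivAt_id z) ?_
  show HasFDerivAt (fun z : ℂ => evA i v + z • evB i v) _ z
  refine HasFDerivAt.const_add (evA i v) ?_
  exact (hasFDerivAt_id z).smul_const (evB i v)

theorem leaf_mdiff (i : Bool) (v : V3) :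
    MDifferentiable 𝓘(ℂ, ℂ) 𝓘(ℂ, E4) (leafC i v) := by
  intro z
  exact (mdiffAt_Q par i _).comp z (lcE_hasFDerivAt i v z).differentiableAt.mdifferentiableAt

theorem leaf_mfderiv (i : Bool) (v : V3) (z t : ℂ) :
    (mfderiv 𝓘(ℂ, ℂ) 𝓘(ℂ, E4) (leafC i v) z : ℂ →L[ℂ] E4) t
      = par.D i (z, ev i z v) (t, t • evB i v) := by
  have h1 : mfderiv 𝓘(ℂ, ℂ) 𝓘(ℂ, E4) (par.Q i ∘ lcE i v) z
      = (mfderiv 𝓘(ℂ, E4) 𝓘(ℂ, E4) (par.Q i) (lcE i v z)).comp
        (mfderiv 𝓘(ℂ, ℂ) 𝓘(ℂ, E4) (lcE i v) z) :=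
    mfderiv_comp z (mdiffAt_Q par i _) (lcE_hasFDerivAt i v z).differentiableAt.mdifferentiableAt
  rw [mfderiv_eq_fderiv, (lcE_hasFDerivAt i v z).fderiv] at h1
  exact congrArg (fun L : ℂ →L[ℂ] E4 => L t) h1

theorem leaf_range (i : Bool) (v : V3) (z : ℂ) :
    (mfderiv 𝓘(ℂ, ℂ) 𝓘(ℂ, E4) (leafC i v) z : ℂ →L[ℂ] E4).toLinearMap.range
      = par.bun Sc (leafC i v z) := by
  ext u
  obtain ⟨w, rfl⟩ := D_surjective par i (z, ev i z v) u
  have h1 : par.D i (z, ev i z v) w ∈ par.bun Sc (leafC i v z) ↔ w ∈ Sc i (z, ev i z v) :=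
    bun_mem par RR_Sc i (z, ev i z v) w
  have h2 : eta i (z, ev i z v) w = w.2 - w.1 • evB i v := by
    show w.2 - w.1 • evB i (iv i z (ev i z v)) = _
    rw [iv_ev]
  have h5 : w ∈ Sc i (z, ev i z v) ↔ w.2 - w.1 • evB i v = 0 := by
    rw [mem_Sc, h2]
  refine Iff.trans ?_ (h1.trans h5).symm
  constructor
  · intro h
    obtain ⟨t, ht⟩ : ∃ t : ℂ, (mfderiv 𝓘(ℂ, ℂ) 𝓘(ℂ, E4) (leafC i v) z : ℂ →L[ℂ] E4) t
      = par.D i (z, ev i z v) w := h
    have h3 : par.D i (z, ev i z v) (t, t • evB i v) = par.D i (z, ev i z v) w :=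
      (leaf_mfderiv i v z t).symm.trans ht
    have h4 := D_injective par i _ h3
    rw [← h4]
    simp
  · intro h
    refine ⟨w.1, ?_⟩
    have h3 := leaf_mfderiv i v z w.1
    refine h3.trans ?_
    rw [← sub_eq_zero.mp h]

theorem centerFib : IsCenterFibration Ecb prT where
  fibration := by
    refine ⟨OnePoint ℂ, inferInstance, inferInstance, inferInstance, ?_⟩
    exact ⟨(Homeomorph.prodComm (OnePoint ℂ) T6 : MM ≃ₜ T6 × OnePoint ℂ), fun x => rfl⟩
  leaf x := by
    obtain ⟨i, a, rfl⟩ : ∃ i a, par.Q i a = x := ⟨_, _, par.secQ x⟩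
    set v := iv i a.1 a.2 with hv
    have hx : leafC i v a.1 = par.Q i a := by
      show par.Q i (a.1, ev i a.1 v) = par.Q i a
      rw [hv, ev_iv]
    have hpr : prT (par.Q i a) = Psi v := rfl
    have hc : leafC i v = fun z => ((kap i z, Psi v) : OnePoint ℂ × T6) :=
      funext fun z => leafC_eq i v z
    refine ⟨leafC i v, ⟨leaf_mdiff i v, ?_, ⟨a.1, hx⟩, ?_, fun z => leaf_range i v z⟩⟩
    · have h1 : IsEmbedding fun z : ℂ => ((kap i z, Psi v) : OnePoint ℂ × T6) :=
        (isEmbedding_prodMkLeft (Psi v)).comp (kap_open i).isEmbedding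
      rw [hc]
      exact h1
    · refine ⟨{y : MM | (y.1 : OnePoint ℂ) ∈ range (kap i)}, ?_, ?_⟩
      · exact (kap_open i).isOpen_range.preimage
          (continuous_fst : Continuous (Prod.fst : OnePoint ℂ × T6 → OnePoint ℂ))
      · rw [hpr, hc]
        ext y
        constructor
        · rintro ⟨z, rfl⟩
          exact ⟨⟨z, rfl⟩, rfl⟩
        · rintro ⟨⟨z, hz⟩, hy⟩
          refine ⟨z, ?_⟩
          have hy' : y.2 = Psi v := hy
          show (kap i z, Psi v) = y
          rw [hz, ← hy']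
          rfl

/-- the conjugation is not differentiable -/
theorem conj_not_diff {c : ℂ} (hc : c ≠ 0) :
    ¬ DifferentiableAt ℂ (fun t : ℂ => c * conj t) 0 := by
  intro h
  have h1 : DifferentiableAt ℂ (fun t : ℂ => conj t) 0 := by
    have h2 := h.const_mul c⁻¹
    refine h2.congr_of_eventuallyEq (Filter.Eventually.of_forall fun t => ?_)
    show conj t = c⁻¹ * (c * conj t)
    rw [inv_mul_cancel_left₀ hc]
  have h2 := h1.hasDerivAt
  have h3 : HasDerivAt (fun t : ℝ => conj (t : ℂ)) (deriv (fun t : ℂ => conj t) 0) 0 :=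
    HasDerivAt.comp_ofReal (z := 0) (by simpa using h2)
  have h4 : HasDerivAt (fun t : ℝ => conj (t : ℂ)) 1 0 := by
    have : (fun t : ℝ => conj (t : ℂ)) = fun t : ℝ => (t : ℂ) := by
      funext t; simp
    rw [this]
    exact Complex.ofRealCLM.hasDerivAt
  have h5 := h3.unique h4
  rw [h5] at h2
  have h6 : HasDerivAt (fun t : ℝ => conj ((t : ℂ) * Complex.I)) (1 * Complex.I) 0 := by
    have h7 : HasDerivAt (fun t : ℝ => (t : ℂ) * Complex.I) (1 * Complex.I) 0 :=
      (Complex.ofRealCLM.hasDerivAt).mul_const Complex.I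
    have h8 := HasDerivAt.scomp (𝕜 := ℝ) (x := 0) (h := fun t : ℝ => (t : ℂ) * Complex.I)
      (g₁ := fun t : ℂ => conj t) (by simpa using h2) h7
    have h9 : HasDerivAt (fun t : ℝ => conj ((t : ℂ) * Complex.I)) ((1 * Complex.I) • (1 : ℂ)) 0 :=
      h8
    simpa only [smul_eq_mul, mul_one] using h9
  have h7 : HasDerivAt (fun t : ℝ => conj ((t : ℂ) * Complex.I)) (-Complex.I) 0 := by
    have : (fun t : ℝ => conj ((t : ℂ) * Complex.I)) = fun t : ℝ => (t : ℂ) * (-Complex.I) := by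
      funext t; simp
    rw [this]
    have := (Complex.ofRealCLM.hasDerivAt (x := 0)).mul_const (-Complex.I)
    simpa using this
  have h8 := h6.unique h7
  have := congrArg Complex.im h8
  norm_num at this

theorem evB_line (i : Bool) (z w1 w2 w3 t : ℂ) :
    (evB i (iv i z (w1, w2 + t, w3))).1 = (evB i (iv i z (w1, w2, w3))).1
      + (cond i 1 (-1)) / nz z * conj t := by
  cases i
  · simp only [evB, iv, map_add, cond_false]
    ring
  · simp only [evB, iv, map_add, cond_true]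
    ring

/-- the center bundle is nowhere spanned by holomorphic vector fields -/
theorem not_holo (U : Set MM) (hU : IsOpen U) (hne : U.Nonempty) :
    ¬ SpannedByHolomorphic Ecb U := by
  rintro ⟨κ, X, hX, hspan⟩
  obtain ⟨x₀, hx₀⟩ := hne
  set i := par.ixQ x₀ with hi
  set a := par.ptQ x₀ with ha
  have hxa : par.Q i a = x₀ := par.secQ x₀
  have haU : par.Q i a ∈ U := by rw [hxa]; exact hx₀
  -- the local expressions
  set u : κ → E4 → E4 := fun k b =>
    (mfderiv 𝓘(ℂ, E4) 𝓘(ℂ, E4) (par.e i a) (par.Q i b) : E4 →L[ℂ] E4) (X k (par.Q i b)) with hu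
  set O : Set E4 := {b | b ∈ (par.e i a).target ∧ par.Q i b ∈ U} with hO
  have hOo : IsOpen O :=
    (par.e i a).open_target.inter (hU.preimage (par.locQ i).continuous)
  have haO : a ∈ O := ⟨e_mem_target par i a, haU⟩
  have hdiff : ∀ k, DifferentiableOn ℂ (u k) O := fun k => pull_section par hU (hX k) i a
  have hDu : ∀ k, ∀ b ∈ O, par.D i b (u k b) = X k (par.Q i b) := by
    intro k b hb
    exact congrArg (fun L : E4 →L[ℂ] E4 => L (X k (par.Q i b))) (comp_mfderiv_e par i a hb.1)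
  have hmem : ∀ k, ∀ b ∈ O, eta i b (u k b) = 0 := by
    intro k b hb
    have h1 : (X k (par.Q i b) : E4) ∈ (par.bun Sc (par.Q i b)) := by
      have h2 : X k (par.Q i b) ∈ Submodule.span ℂ (Set.range fun k => X k (par.Q i b)) :=
        Submodule.subset_span ⟨k, rfl⟩
      rw [hspan _ hb.2] at h2
      exact h2
    rw [← hDu k b hb] at h1
    exact mem_Sc.mp ((bun_mem par RR_Sc i b _).mp h1)
  -- one of the sections does not vanish at the point
  obtain ⟨k, hk⟩ : ∃ k, u k a ≠ 0 := by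
    by_contra hcon
    push Not at hcon
    have h1 : ∀ k, (X k (par.Q i a) : E4) = 0 := by
      intro k
      rw [← hDu k a haO, hcon k, map_zero]
      rfl
    have h2 : Submodule.span ℂ (Set.range fun k => (X k (par.Q i a) : E4)) = ⊥ := by
      rw [Submodule.span_eq_bot]
      rintro _ ⟨k, rfl⟩
      exact h1 k
    have h3 : par.bun Sc (par.Q i a) = ⊥ := (hspan _ haU).symm.trans h2
    have h4 : par.D i a (1, evB i (iv i a.1 a.2)) ∈ par.bun Sc (par.Q i a) := by
      rw [bun_mem par RR_Sc, mem_Sc]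
      simp [eta]
    rw [h3, Submodule.mem_bot] at h4
    have h5 := D_injective par i a (h4.trans (map_zero _).symm)
    exact one_ne_zero (congrArg Prod.fst h5)
  have hk1 : (u k a).1 ≠ 0 := by
    intro h0
    have h1 := hmem k a haO
    rw [eta_of_zero h0] at h1
    exact hk (Prod.ext h0 h1)
  -- the slope is holomorphic near the point
  set h : E4 → ℂ := fun b => (u k b).2.1 * ((u k b).1)⁻¹ with hh
  have hda : DifferentiableAt ℂ (u k) a := (hdiff k a haO).differentiableAt (hOo.mem_nhds haO)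
  have hhd : DifferentiableAt ℂ h a := by
    have h1 : DifferentiableAt ℂ (fun b => (u k b).1) a := hda.fst
    have h2 : DifferentiableAt ℂ (fun b => (u k b).2.1) a := hda.snd.fst
    exact h2.mul (h1.inv hk1)
  have hev : ∀ᶠ b in 𝓝 a, h b = (evB i (iv i b.1 b.2)).1 := by
    have h1 : ∀ᶠ b in 𝓝 a, (u k b).1 ≠ 0 :=
      (continuous_fst.continuousAt.comp hda.continuousAt).eventually_ne hk1
    filter_upwards [h1, hOo.mem_nhds haO] with b hb1 hbO
    have h2 := sub_eq_zero.mp (hmem k b hbO)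
    show (u k b).2.1 * ((u k b).1)⁻¹ = _
    rw [h2]
    show ((u k b).1 * _) * _ = _
    rw [mul_comm, inv_mul_cancel_left₀ hb1]
  have hg : DifferentiableAt ℂ (fun b : E4 => (evB i (iv i b.1 b.2)).1) a :=
    hhd.congr_of_eventuallyEq (hev.mono fun b hb => hb.symm)
  -- restrict to a line
  have hline : DifferentiableAt ℂ
      (fun t : ℂ => (evB i (iv i a.1 (a.2.1, a.2.2.1 + t, a.2.2.2))).1) 0 := by
    have h1 : DifferentiableAt ℂ (fun t : ℂ => ((a.1, a.2.1, a.2.2.1 + t, a.2.2.2) : E4)) 0 := by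
      fun_prop
    have h2 : ((a.1, a.2.1, a.2.2.1 + 0, a.2.2.2) : E4) = a := by
      rw [add_zero]
    have h3 : DifferentiableAt ℂ (fun b : E4 => (evB i (iv i b.1 b.2)).1)
        ((fun t : ℂ => ((a.1, a.2.1, a.2.2.1 + t, a.2.2.2) : E4)) 0) := by
      show DifferentiableAt ℂ _ ((a.1, a.2.1, a.2.2.1 + 0, a.2.2.2) : E4)
      rw [h2]
      exact hg
    exact DifferentiableAt.comp (g := fun b : E4 => (evB i (iv i b.1 b.2)).1)
      (f := fun t : ℂ => ((a.1, a.2.1, a.2.2.1 + t, a.2.2.2) : E4)) (0 : ℂ) h3 h1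
  have hc : (cond i 1 (-1) : ℂ) / nz a.1 ≠ 0 := by
    apply div_ne_zero _ (nz_ne _)
    cases i <;> simp
  apply conj_not_diff hc
  have h1 := hline.sub_const ((evB i (iv i a.1 (a.2.1, a.2.2.1, a.2.2.2))).1)
  refine h1.congr_of_eventuallyEq (Filter.Eventually.of_forall fun t => ?_)
  show _ = (evB i (iv i a.1 (a.2.1, a.2.2.1 + t, a.2.2.2))).1
    - (evB i (iv i a.1 (a.2.1, a.2.2.1, a.2.2.2))).1
  rw [evB_line]
  ring

/-- the torus is a topological manifold of dimension six -/
@[instance_reducible]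
noncomputable def chartedT6 : ChartedSpace (EuclideanSpace ℝ (Fin 6)) T6 :=
  IsLocalHomeomorph.chartedSpace (M := EuclideanSpace ℝ (Fin 6))
    (f := q0 ∘ (EuclideanSpace.equiv (Fin 6) ℝ))
    (isLocalHomeomorph_q0.comp (EuclideanSpace.equiv (Fin 6) ℝ).toHomeomorph.isLocalHomeomorph)
    (q0_surj.comp (EuclideanSpace.equiv (Fin 6) ℝ).surjective)

theorem fiberedOver : IsFiberedOver 6 Ecb :=
  ⟨T6, inferInstance, inferInstance, inferInstance, chartedT6, prT, centerFib⟩

theorem finrank_E4 : Module.finrank ℂ E4 = 4 := by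
  simp [Module.finrank_prod]

end Pool.Agent.Q82.TW
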