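import Pool.Agent.Q82.TW1

/-! # Complex manifolds from families of local homeomorphisms: bundles, norms and maps -/

open Set Topology Filter Manifold ContDiff Bundle

namespace Pool.Agent.Q82.TW

variable {E : Type} [NormedAddCommGroup E] [NormedSpace ℂ E] {M : Type} [TopologicalSpace M]
  {ι : Type} {R : ι → ι → E → E → (E →L[ℂ] E) → Prop}

/-- the derivative of a parametrization -/
noncomputable def Param.D (p : Param E M ι R) (i : ι) (a : E) : E →L[ℂ] E :=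
  mfderiv 𝓘(ℂ, E) 𝓘(ℂ, E) (p.Q i) a

/-- the local inverse of `Q i` near `a` -/
noncomputable def Param.e (p : Param E M ι R) (i : ι) (a : E) : OpenPartialHomeomorph (Sp p) E :=
  (p.locQ i).localInverseAt a

theorem e_symm (p : Param E M ι R) (i : ι) (a : E) : ⇑(p.e i a).symm = p.Q i :=
  IsLocalHomeomorph.localInverseAt_symm (p.locQ i) a

theorem e_self (p : Param E M ι R) (i : ι) (a : E) : p.e i a (p.Q i a) = a :=
  (p.locQ i).localInverseAt_apply_self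

theorem e_mem_source (p : Param E M ι R) (i : ι) (a : E) : p.Q i a ∈ (p.e i a).source :=
  (p.locQ i).apply_self_mem_localInverseAt_source

theorem e_mem_target (p : Param E M ι R) (i : ι) (a : E) : a ∈ (p.e i a).target :=
  (p.locQ i).self_mem_localInverseAt_target

theorem Q_e (p : Param E M ι R) (i : ι) (a : E) {x : Sp p} (hx : x ∈ (p.e i a).source) :
    p.Q i (p.e i a x) = x := by
  rw [← e_symm p i a, (p.e i a).left_inv hx]

theorem e_Q (p : Param E M ι R) (i : ι) (a : E) {b : E} (hb : b ∈ (p.e i a).target) :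
    p.e i a (p.Q i b) = b := by
  rw [← e_symm p i a, (p.e i a).right_inv hb]

theorem e_max (p : Param E M ι R) (i : ι) (a : E) :
    p.e i a ∈ IsManifold.maximalAtlas 𝓘(ℂ, E) ω (Sp p) :=
  IsManifold.subset_maximalAtlas ⟨i, e_symm p i a⟩

theorem contMDiffOn_e (p : Param E M ι R) (i : ι) (a : E) :
    ContMDiffOn 𝓘(ℂ, E) 𝓘(ℂ, E) ω (p.e i a) (p.e i a).source :=
  contMDiffOn_of_mem_maximalAtlas (e_max p i a)

theorem mdiffAt_e (p : Param E M ι R) (i : ι) (a : E) {x : Sp p} (hx : x ∈ (p.e i a).source) :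
    MDifferentiableAt 𝓘(ℂ, E) 𝓘(ℂ, E) (p.e i a) x :=
  ((contMDiffOn_e p i a).contMDiffAt ((p.e i a).open_source.mem_nhds hx)).mdifferentiableAt
    (by simp)

/-- the derivative of the local inverse -/
theorem mfderiv_e_comp (p : Param E M ι R) (i : ι) (a : E) {b : E}
    (hb : b ∈ (p.e i a).target) :
    (mfderiv 𝓘(ℂ, E) 𝓘(ℂ, E) (p.e i a) (p.Q i b) : E →L[ℂ] E).comp (p.D i b)
      = ContinuousLinearMap.id ℂ E := by
  have hs : p.Q i b ∈ (p.e i a).source := by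
    rw [← e_symm p i a]; exact (p.e i a).map_target hb
  have h1 : (fun b' => p.e i a (p.Q i b')) =ᶠ[𝓝 b] id := by
    filter_upwards [(p.e i a).open_target.mem_nhds hb] with b' hb'
    exact e_Q p i a hb'
  have h2 : mfderiv 𝓘(ℂ, E) 𝓘(ℂ, E) (p.e i a ∘ p.Q i) b
      = (mfderiv 𝓘(ℂ, E) 𝓘(ℂ, E) (p.e i a) (p.Q i b)).comp
        (mfderiv 𝓘(ℂ, E) 𝓘(ℂ, E) (p.Q i) b) :=
    mfderiv_comp b (mdiffAt_e p i a hs) (mdiffAt_Q p i b)
  have h3 : mfderiv 𝓘(ℂ, E) 𝓘(ℂ, E) (p.e i a ∘ p.Q i) b = mfderiv 𝓘(ℂ, E) 𝓘(ℂ, E) id b :=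
    Filter.EventuallyEq.mfderiv_eq h1
  rw [h3, mfderiv_id] at h2
  exact h2.symm

theorem comp_mfderiv_e (p : Param E M ι R) (i : ι) (a : E) {b : E}
    (hb : b ∈ (p.e i a).target) :
    (p.D i b).comp (mfderiv 𝓘(ℂ, E) 𝓘(ℂ, E) (p.e i a) (p.Q i b) : E →L[ℂ] E)
      = ContinuousLinearMap.id ℂ E := by
  have hs : p.Q i b ∈ (p.e i a).source := by
    rw [← e_symm p i a]; exact (p.e i a).map_target hb
  have h1 : (fun x => p.Q i (p.e i a x)) =ᶠ[𝓝 (p.Q i b)] id := by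
    filter_upwards [(p.e i a).open_source.mem_nhds hs] with x hx
    exact Q_e p i a hx
  have h2 : mfderiv 𝓘(ℂ, E) 𝓘(ℂ, E) (p.Q i ∘ p.e i a) (p.Q i b)
      = (mfderiv 𝓘(ℂ, E) 𝓘(ℂ, E) (p.Q i) (p.e i a (p.Q i b))).comp
        (mfderiv 𝓘(ℂ, E) 𝓘(ℂ, E) (p.e i a) (p.Q i b)) :=
    mfderiv_comp _ (mdiffAt_Q p i _) (mdiffAt_e p i a hs)
  have h3 : mfderiv 𝓘(ℂ, E) 𝓘(ℂ, E) (p.Q i ∘ p.e i a) (p.Q i b)
      = mfderiv 𝓘(ℂ, E) 𝓘(ℂ, E) id (p.Q i b) :=
    Filter.EventuallyEq.mfderiv_eq h1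
  rw [h3, mfderiv_id, e_Q p i a hb] at h2
  exact h2.symm

theorem D_injective (p : Param E M ι R) (i : ι) (a : E) : Function.Injective (p.D i a) := by
  have h := mfderiv_e_comp p i a (e_mem_target p i a)
  intro u v huv
  have h1 : (mfderiv 𝓘(ℂ, E) 𝓘(ℂ, E) (p.e i a) (p.Q i a) : E →L[ℂ] E) (p.D i a u) = u :=
    congrArg (fun L : E →L[ℂ] E => L u) h
  have h2 : (mfderiv 𝓘(ℂ, E) 𝓘(ℂ, E) (p.e i a) (p.Q i a) : E →L[ℂ] E) (p.D i a v) = v :=
    congrArg (fun L : E →L[ℂ] E => L v) h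
  rw [← h1, huv, h2]

theorem D_surjective (p : Param E M ι R) (i : ι) (a : E) : Function.Surjective (p.D i a) := by
  have h := comp_mfderiv_e p i a (e_mem_target p i a)
  intro u
  refine ⟨(mfderiv 𝓘(ℂ, E) 𝓘(ℂ, E) (p.e i a) (p.Q i a) : E →L[ℂ] E) u, ?_⟩
  exact congrArg (fun L : E →L[ℂ] E => L u) h

theorem rel_D (p : Param E M ι R) (i : ι) (a : E) :
    R i (p.ixQ (p.Q i a)) a (p.ptQ (p.Q i a)) (p.D i a) := rel_Q p i a

/-- the subbundle given by a family of subspaces -/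
noncomputable def Param.bundle (p : Param E M ι R) (S : ι → E → Submodule ℂ E) (x : Sp p) :
    Submodule ℂ (TangentSpace 𝓘(ℂ, E) x) := S (p.ixQ x) (p.ptQ x)

/-- the function on the tangent bundle given by a family of functions -/
noncomputable def Param.nm (p : Param E M ι R) (N : ι → E → E → ℝ) (x : Sp p)
    (v : TangentSpace 𝓘(ℂ, E) x) : ℝ := N (p.ixQ x) (p.ptQ x) v

theorem bundle_Q (p : Param E M ι R) {S : ι → E → Submodule ℂ E}
    (hS : ∀ i j a b L, R i j a b L → (S i a).map (L : E →ₗ[ℂ] E) = S j b) (i : ι) (a : E) :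
    p.bundle S (p.Q i a) = (S i a).map (p.D i a : E →ₗ[ℂ] E) :=
  (hS _ _ _ _ _ (rel_D p i a)).symm

theorem nm_Q (p : Param E M ι R) {N : ι → E → E → ℝ}
    (hN : ∀ i j a b L, R i j a b L → ∀ v, N j b (L v) = N i a v) (i : ι) (a v : E) :
    p.nm N (p.Q i a) (p.D i a v) = N i a v :=
  hN _ _ _ _ _ (rel_D p i a) v

theorem nm_continuous (p : Param E M ι R) {N : ι → E → E → ℝ}
    (hN : ∀ i j a b L, R i j a b L → ∀ v, N j b (L v) = N i a v)
    (hc : ∀ i, Continuous fun q : E × E => N i q.1 q.2) :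
    Continuous fun v : TangentBundle 𝓘(ℂ, E) (Sp p) => p.nm N v.1 v.2 := by
  rw [continuous_iff_continuousAt]
  intro v0
  set i := p.ixQ v0.1 with hi
  set a := p.ptQ v0.1 with ha
  have hx0 : p.Q i a = v0.1 := p.secQ v0.1
  set e := p.e i a with he
  have hU : IsOpen (π E (TangentSpace 𝓘(ℂ, E)) ⁻¹' e.source : Set (TangentBundle 𝓘(ℂ, E) (Sp p))) :=
    e.open_source.preimage (FiberBundle.continuous_proj E (TangentSpace 𝓘(ℂ, E)))
  have hv0 : v0 ∈ (π E (TangentSpace 𝓘(ℂ, E)) ⁻¹' e.source :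
      Set (TangentBundle 𝓘(ℂ, E) (Sp p))) := by
    show v0.1 ∈ e.source
    rw [← hx0]
    exact e_mem_source p i a
  have h1 : ContinuousOn (tangentMapWithin 𝓘(ℂ, E) 𝓘(ℂ, E) e e.source)
      (π E (TangentSpace 𝓘(ℂ, E)) ⁻¹' e.source) :=
    (contMDiffOn_e p i a).continuousOn_tangentMapWithin (by simp) e.open_source.uniqueMDiffOn
  have h2 : ContinuousAt (tangentMapWithin 𝓘(ℂ, E) 𝓘(ℂ, E) e e.source) v0 :=
    h1.continuousAt (hU.mem_nhds hv0)
  have h3 : ContinuousAt (fun v : TangentBundle 𝓘(ℂ, E) (Sp p) =>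
      N i (tangentBundleModelSpaceHomeomorph 𝓘(ℂ, E)
        (tangentMapWithin 𝓘(ℂ, E) 𝓘(ℂ, E) e e.source v)).1
        (tangentBundleModelSpaceHomeomorph 𝓘(ℂ, E)
        (tangentMapWithin 𝓘(ℂ, E) 𝓘(ℂ, E) e e.source v)).2) v0 := by
    have h4 := ((hc i).comp (tangentBundleModelSpaceHomeomorph 𝓘(ℂ, E)).continuous).continuousAt
      (x := tangentMapWithin 𝓘(ℂ, E) 𝓘(ℂ, E) e e.source v0)
    exact h4.comp h2
  refine h3.congr ?_
  filter_upwards [hU.mem_nhds hv0] with v hv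
  have hv' : v.1 ∈ e.source := hv
  have hb : e v.1 ∈ e.target := e.map_source hv'
  have hQ : p.Q i (e v.1) = v.1 := Q_e p i a hv'
  have h5 : mfderivWithin 𝓘(ℂ, E) 𝓘(ℂ, E) e e.source v.1 = mfderiv 𝓘(ℂ, E) 𝓘(ℂ, E) e v.1 :=
    mfderivWithin_of_isOpen e.open_source hv'
  have h6 := comp_mfderiv_e p i a hb
  rw [hQ] at h6
  have h7 := nm_Q p hN i (e v.1) ((mfderiv 𝓘(ℂ, E) 𝓘(ℂ, E) e v.1 : E →L[ℂ] E) v.2)
  have h8 : (p.D i (e v.1)) ((mfderiv 𝓘(ℂ, E) 𝓘(ℂ, E) e v.1 : E →L[ℂ] E) v.2) = v.2 :=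
    congrArg (fun L : E →L[ℂ] E => L v.2) h6
  rw [h8, hQ] at h7
  simp only [tangentBundleModelSpaceHomeomorph_coe, TotalSpace.toProd, Equiv.coe_fn_mk,
    tangentMapWithin, h5]
  exact h7.symm

end Pool.Agent.Q82.TW
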