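import Pool.Agent.Q82.TW2

/-! # Complex manifolds from families of local homeomorphisms: frames, maps, sections -/

open Set Topology Filter Manifold ContDiff Bundle

namespace Pool.Agent.Q82.TW

variable {E : Type} [NormedAddCommGroup E] [NormedSpace ℂ E] {M : Type} [TopologicalSpace M]
  {ι : Type} {R : ι → ι → E → E → (E →L[ℂ] E) → Prop}

/-- a local vector field given in a parametrization -/
noncomputable def Param.frame (p : Param E M ι R) (i : ι) (a : E) (c : E → E) (x : Sp p) :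
    TangentSpace 𝓘(ℂ, E) x := p.D i (p.e i a x) (c (p.e i a x))

theorem frame_continuousOn (p : Param E M ι R) (i : ι) (a : E) {c : E → E} (hc : Continuous c) :
    ContinuousOn (fun x : Sp p => (⟨x, p.frame i a c x⟩ : TangentBundle 𝓘(ℂ, E) (Sp p)))
      (p.e i a).source := by
  have h1 : Continuous (tangentMap 𝓘(ℂ, E) 𝓘(ℂ, E) (p.Q i)) :=
    (contMDiff_Q p i).continuous_tangentMap (by simp)
  have h2 : ContinuousOn (fun x : Sp p => (tangentBundleModelSpaceHomeomorph 𝓘(ℂ, E)).symm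
      (p.e i a x, c (p.e i a x))) (p.e i a).source := by
    apply (tangentBundleModelSpaceHomeomorph 𝓘(ℂ, E)).symm.continuous.comp_continuousOn
    exact (p.e i a).continuousOn.prodMk (hc.comp_continuousOn (p.e i a).continuousOn)
  refine (h1.comp_continuousOn h2).congr ?_
  intro x hx
  have h3 : p.Q i (p.e i a x) = x := Q_e p i a hx
  refine TotalSpace.ext h3.symm ?_
  exact heq_of_eq rfl

theorem frame_Q (p : Param E M ι R) (i : ι) (a : E) {c : E → E} {b : E}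
    (hb : b ∈ (p.e i a).target) : p.frame i a c (p.Q i b) = p.D i b (c b) := by
  show p.D i (p.e i a (p.Q i b)) (c (p.e i a (p.Q i b))) = _
  rw [e_Q p i a hb]

/-- the local expression of a map -/
theorem map_contMDiff (p : Param E M ι R) {f : Sp p → Sp p} {F : ι → E → E}
    (hf : ∀ i a, f (p.Q i a) = p.Q i (F i a)) (hF : ∀ i, ContDiff ℂ ω (F i)) :
    ContMDiff 𝓘(ℂ, E) 𝓘(ℂ, E) ω f := by
  intro x
  set i := p.ixQ x
  set a := p.ptQ x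
  have hx : p.Q i a = x := p.secQ x
  have hs : x ∈ (p.e i a).source := by
    rw [← hx]; exact e_mem_source p i a
  have h1 : f =ᶠ[𝓝 x] (p.Q i ∘ F i) ∘ p.e i a := by
    filter_upwards [(p.e i a).open_source.mem_nhds hs] with y hy
    show f y = p.Q i (F i (p.e i a y))
    rw [← hf, Q_e p i a hy]
  refine ContMDiffAt.congr_of_eventuallyEq ?_ h1
  have h2 : ContMDiff 𝓘(ℂ, E) 𝓘(ℂ, E) ω (p.Q i ∘ F i) :=
    (contMDiff_Q p i).comp (hF i).contMDiff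
  exact (h2.contMDiffAt (x := p.e i a x)).comp x
    ((contMDiffOn_e p i a).contMDiffAt ((p.e i a).open_source.mem_nhds hs))

theorem map_mfderiv (p : Param E M ι R) {f : Sp p → Sp p} {F : ι → E → E}
    (hf : ∀ i a, f (p.Q i a) = p.Q i (F i a)) (hF : ∀ i, ContDiff ℂ ω (F i)) (i : ι) (a v : E) :
    (mfderiv 𝓘(ℂ, E) 𝓘(ℂ, E) f (p.Q i a) : E →L[ℂ] E) (p.D i a v)
      = p.D i (F i a) (fderiv ℂ (F i) a v) := by
  have h1 : mfderiv 𝓘(ℂ, E) 𝓘(ℂ, E) (f ∘ p.Q i) a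
      = (mfderiv 𝓘(ℂ, E) 𝓘(ℂ, E) f (p.Q i a)).comp (mfderiv 𝓘(ℂ, E) 𝓘(ℂ, E) (p.Q i) a) :=
    mfderiv_comp a ((map_contMDiff p hf hF (p.Q i a)).mdifferentiableAt (by simp))
      (mdiffAt_Q p i a)
  have hFa : DifferentiableAt ℂ (F i) a := (hF i).contDiffAt.differentiableAt (by simp)
  have h2 : mfderiv 𝓘(ℂ, E) 𝓘(ℂ, E) (p.Q i ∘ F i) a
      = (mfderiv 𝓘(ℂ, E) 𝓘(ℂ, E) (p.Q i) (F i a)).comp (mfderiv 𝓘(ℂ, E) 𝓘(ℂ, E) (F i) a) :=
    mfderiv_comp a (mdiffAt_Q p i _) hFa.mdifferentiableAt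
  have h3 : f ∘ p.Q i = p.Q i ∘ F i := by
    funext b; exact hf i b
  rw [h3, h2, mfderiv_eq_fderiv] at h1
  exact (congrArg (fun L : E →L[ℂ] E => L v) h1).symm

/-- pulling back a holomorphic vector field by a parametrization -/
theorem pull_section (p : Param E M ι R) {U : Set (Sp p)} (hU : IsOpen U)
    {X : ∀ x : Sp p, TangentSpace 𝓘(ℂ, E) x}
    (hX : MDifferentiableOn 𝓘(ℂ, E) 𝓘(ℂ, E).tangent
      (fun x => (⟨x, X x⟩ : TangentBundle 𝓘(ℂ, E) (Sp p))) U) (i : ι) (a : E) :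
    DifferentiableOn ℂ
      (fun b => (mfderiv 𝓘(ℂ, E) 𝓘(ℂ, E) (p.e i a) (p.Q i b) : E →L[ℂ] E) (X (p.Q i b)))
      {b | b ∈ (p.e i a).target ∧ p.Q i b ∈ U} := by
  rintro b ⟨hb, hbU⟩
  set e := p.e i a with he
  have hs : p.Q i b ∈ e.source := by
    rw [← e_symm p i a]; exact (p.e i a).map_target hb
  have hV : IsOpen (π E (TangentSpace 𝓘(ℂ, E)) ⁻¹' e.source : Set (TangentBundle 𝓘(ℂ, E) (Sp p))) :=
    e.open_source.preimage (FiberBundle.continuous_proj E (TangentSpace 𝓘(ℂ, E)))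
  have h1 : ContMDiffOn 𝓘(ℂ, E).tangent 𝓘(ℂ, E).tangent 1
      (tangentMapWithin 𝓘(ℂ, E) 𝓘(ℂ, E) e e.source)
      (π E (TangentSpace 𝓘(ℂ, E)) ⁻¹' e.source) :=
    (contMDiffOn_e p i a).contMDiffOn_tangentMapWithin (by simp) e.open_source.uniqueMDiffOn
  have h2 : MDifferentiableAt 𝓘(ℂ, E).tangent 𝓘(ℂ, E).tangent
      (tangentMapWithin 𝓘(ℂ, E) 𝓘(ℂ, E) e e.source)
      (⟨p.Q i b, X (p.Q i b)⟩ : TangentBundle 𝓘(ℂ, E) (Sp p)) :=
    (h1.contMDiffAt (hV.mem_nhds hs)).mdifferentiableAt (by simp)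
  have h3 : MDifferentiableAt 𝓘(ℂ, E) 𝓘(ℂ, E).tangent
      (fun x => (⟨x, X x⟩ : TangentBundle 𝓘(ℂ, E) (Sp p))) (p.Q i b) :=
    (hX _ hbU).mdifferentiableAt (hU.mem_nhds hbU)
  have h4 : MDifferentiableAt 𝓘(ℂ, E) 𝓘(ℂ, E).tangent
      ((fun x => (⟨x, X x⟩ : TangentBundle 𝓘(ℂ, E) (Sp p))) ∘ p.Q i) b :=
    h3.comp b (mdiffAt_Q p i b)
  have h5 : MDifferentiableAt 𝓘(ℂ, E) 𝓘(ℂ, E).tangent
      ((tangentMapWithin 𝓘(ℂ, E) 𝓘(ℂ, E) e e.source) ∘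
      ((fun x => (⟨x, X x⟩ : TangentBundle 𝓘(ℂ, E) (Sp p))) ∘ p.Q i)) b :=
    h2.comp b h4
  have h6 := ((contMDiff_snd_tangentBundle_modelSpace (n := 1) E 𝓘(ℂ, E)).contMDiffAt
    (x := ((tangentMapWithin 𝓘(ℂ, E) 𝓘(ℂ, E) e e.source) ∘
      ((fun x => (⟨x, X x⟩ : TangentBundle 𝓘(ℂ, E) (Sp p))) ∘ p.Q i)) b)).mdifferentiableAt
      one_ne_zero
  have h7 := (h6.comp b h5).differentiableAt
  have h8 : (fun b => (mfderiv 𝓘(ℂ, E) 𝓘(ℂ, E) e (p.Q i b) : E →L[ℂ] E) (X (p.Q i b)))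
      =ᶠ[𝓝 b] ((fun q : TangentBundle 𝓘(ℂ, E) E => q.2) ∘
      ((tangentMapWithin 𝓘(ℂ, E) 𝓘(ℂ, E) e e.source) ∘
      ((fun x => (⟨x, X x⟩ : TangentBundle 𝓘(ℂ, E) (Sp p))) ∘ p.Q i))) := by
    filter_upwards [e.open_target.mem_nhds hb] with b' hb'
    have hs' : p.Q i b' ∈ e.source := by
      rw [← e_symm p i a]; exact (p.e i a).map_target hb'
    show _ = (mfderivWithin 𝓘(ℂ, E) 𝓘(ℂ, E) e e.source (p.Q i b') : E →L[ℂ] E) (X (p.Q i b'))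
    rw [mfderivWithin_of_isOpen e.open_source hs']
  exact (h7.congr_of_eventuallyEq h8).differentiableWithinAt

end Pool.Agent.Q82.TW
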