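import Mathlib

/-! # The Riemann sphere as one point compactification, the six-torus, the lattice -/

open Set Topology Filter OnePoint

namespace Pool.Agent.Q82.TW

/-- inversion on the sphere -/
noncomputable def inv1 : OnePoint ℂ → OnePoint ℂ :=
  fun p => p.elim ((0 : ℂ) : OnePoint ℂ) (fun z => if z = 0 then ∞ else ((z⁻¹ : ℂ) : OnePoint ℂ))

theorem inv1_infty : inv1 ∞ = ((0 : ℂ) : OnePoint ℂ) := rfl

theorem inv1_coe (z : ℂ) : inv1 (z : OnePoint ℂ) =
    if z = 0 then ∞ else ((z⁻¹ : ℂ) : OnePoint ℂ) := rfl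

theorem inv1_inv1 (p : OnePoint ℂ) : inv1 (inv1 p) = p := by
  induction p using OnePoint.rec with
  | infty => rw [inv1_infty, inv1_coe, if_pos rfl]
  | coe z =>
    rw [inv1_coe]
    split_ifs with h
    · rw [inv1_infty, h]
    · rw [inv1_coe, if_neg (inv_ne_zero h), inv_inv]

theorem continuous_inv1 : Continuous inv1 := by
  rw [OnePoint.continuous_iff]
  constructor
  · rw [inv1_infty, coclosedCompact_eq_cocompact]
    have h1 : Tendsto (fun z : ℂ => z⁻¹) (cocompact ℂ) (𝓝 0) := by
      rw [← Metric.cobounded_eq_cocompact]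
      exact tendsto_inv₀_cobounded
    have h2 : Tendsto (fun z : ℂ => ((z⁻¹ : ℂ) : OnePoint ℂ)) (cocompact ℂ)
        (𝓝 ((0 : ℂ) : OnePoint ℂ)) := (OnePoint.continuous_coe.tendsto 0).comp h1
    refine h2.congr' ?_
    have h3 : ∀ᶠ z : ℂ in cocompact ℂ, z ≠ 0 := by
      have := (isCompact_singleton (x := (0 : ℂ))).compl_mem_cocompact
      filter_upwards [this] with z hz
      exact hz
    filter_upwards [h3] with z hz
    rw [inv1_coe, if_neg hz]
  · rw [continuous_iff_continuousAt]
    intro z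
    by_cases hz : z = 0
    · subst hz
      rw [continuousAt_iff_punctured_nhds, inv1_coe, if_pos rfl]
      have h1 : Tendsto (fun z : ℂ => z⁻¹) (𝓝[≠] 0) (coclosedCompact ℂ) := by
        rw [coclosedCompact_eq_cocompact, ← Metric.cobounded_eq_cocompact]
        exact tendsto_inv₀_nhdsNE_zero
      have h2 : Tendsto (fun z : ℂ => ((z⁻¹ : ℂ) : OnePoint ℂ)) (𝓝[≠] 0) (𝓝 ∞) :=
        OnePoint.tendsto_coe_infty.comp h1
      refine h2.congr' ?_
      filter_upwards [self_mem_nhdsWithin] with w hw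
      have hw' : w ≠ 0 := hw
      rw [inv1_coe, if_neg hw']
    · have h1 : ContinuousAt (fun z : ℂ => ((z⁻¹ : ℂ) : OnePoint ℂ)) z :=
        OnePoint.continuous_coe.continuousAt.comp (continuousAt_inv₀ hz)
      refine h1.congr ?_
      filter_upwards [isOpen_ne.mem_nhds hz] with w hw
      rw [inv1_coe, if_neg hw]

/-- inversion as a homeomorphism -/
noncomputable def inv1H : OnePoint ℂ ≃ₜ OnePoint ℂ where
  toFun := inv1
  invFun := inv1
  left_inv := inv1_inv1
  right_inv := inv1_inv1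
  continuous_toFun := continuous_inv1
  continuous_invFun := continuous_inv1

/-- the two affine parametrizations of the sphere -/
noncomputable def kap : Bool → ℂ → OnePoint ℂ
  | false => fun z => (z : OnePoint ℂ)
  | true => fun z => inv1 (z : OnePoint ℂ)

theorem kap_open (i : Bool) : IsOpenEmbedding (kap i) := by
  cases i
  · exact OnePoint.isOpenEmbedding_coe
  · exact inv1H.isOpenEmbedding.comp OnePoint.isOpenEmbedding_coe

theorem kap_surj (p : OnePoint ℂ) : ∃ i z, kap i z = p := by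
  induction p using OnePoint.rec with
  | infty => exact ⟨true, 0, by show inv1 _ = _; rw [inv1_coe, if_pos rfl]⟩
  | coe z => exact ⟨false, z, rfl⟩

theorem kap_ne {i j : Bool} (hij : i ≠ j) {z t : ℂ} (h : kap i z = kap j t) :
    z ≠ 0 ∧ t = z⁻¹ := by
  cases i <;> cases j
  · exact absurd rfl hij
  · have h' : (z : OnePoint ℂ) = inv1 (t : OnePoint ℂ) := h
    rw [inv1_coe] at h'
    split_ifs at h' with ht
    · exact absurd h' (OnePoint.coe_ne_infty z)
    · have := OnePoint.coe_injective h'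
      subst this
      exact ⟨inv_ne_zero ht, (inv_inv t).symm⟩
  · have h' : inv1 (z : OnePoint ℂ) = (t : OnePoint ℂ) := h
    rw [inv1_coe] at h'
    split_ifs at h' with hz
    · exact absurd h'.symm (OnePoint.coe_ne_infty t)
    · have := OnePoint.coe_injective h'
      exact ⟨hz, this.symm⟩
  · exact absurd rfl hij

theorem kap_not (i : Bool) {z : ℂ} (hz : z ≠ 0) : kap (!i) z⁻¹ = kap i z := by
  cases i
  · show inv1 ((z⁻¹ : ℂ) : OnePoint ℂ) = (z : OnePoint ℂ)
    rw [inv1_coe, if_neg (inv_ne_zero hz), inv_inv]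
  · show ((z⁻¹ : ℂ) : OnePoint ℂ) = inv1 (z : OnePoint ℂ)
    rw [inv1_coe, if_neg hz]

/-- the six-torus -/
abbrev T6 : Type := Fin 6 → AddCircle (1 : ℝ)

/-- the quotient map -/
noncomputable def q0 (y : Fin 6 → ℝ) : T6 := fun i => (y i : AddCircle (1 : ℝ))

theorem q0_add (y y' : Fin 6 → ℝ) : q0 (y + y') = q0 y + q0 y' := by
  funext i; simp [q0]

theorem q0_surj : Function.Surjective q0 := by
  intro b
  choose y hy using fun i => QuotientAddGroup.mk_surjective (b i)
  exact ⟨y, funext hy⟩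

theorem continuous_q0 : Continuous q0 :=
  continuous_pi fun i => (AddCircle.continuous_mk' (1 : ℝ)).comp (continuous_apply i)

theorem isOpenMap_q0 : IsOpenMap q0 := by
  have : q0 = Pi.map (fun (_ : Fin 6) (y : ℝ) => (y : AddCircle (1 : ℝ))) := rfl
  rw [this]
  refine IsOpenMap.piMap (fun i => QuotientAddGroup.isOpenMap_coe) ?_
  exact Filter.Eventually.of_forall fun i => QuotientAddGroup.mk_surjective

theorem q0_locInj {y y' : Fin 6 → ℝ} (h : q0 y = q0 y') (hd : ∀ i, |y i - y' i| < 1) : y = y' := by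
  funext i
  have h1 : ((y i : ℝ) : AddCircle (1 : ℝ)) = ((y' i : ℝ) : AddCircle (1 : ℝ)) := congrFun h i
  have h2 : ((y i - y' i : ℝ) : AddCircle (1 : ℝ)) = 0 := by
    rw [AddCircle.coe_sub, h1, sub_self]
  obtain ⟨n, hn⟩ := (AddCircle.coe_eq_zero_iff (1 : ℝ)).mp h2
  have h3 : (n : ℝ) = y i - y' i := by
    rw [← hn]; simp
  have h4 := hd i
  rw [← h3] at h4
  have h5 : |n| < 1 := by
    exact_mod_cast h4
  have h6 : n = 0 := Int.abs_lt_one_iff.mp h5
  rw [h6] at h3
  have : y i - y' i = 0 := by rw [← h3]; simp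
  linarith

theorem isLocalHomeomorph_q0 : IsLocalHomeomorph q0 := by
  rw [isLocalHomeomorph_iff_isOpenEmbedding_restrict]
  intro y
  refine ⟨Metric.ball y (1 / 2), Metric.ball_mem_nhds y (by norm_num), ?_⟩
  refine IsOpenEmbedding.of_continuous_injective_isOpenMap
    (continuous_q0.comp continuous_subtype_val) ?_ (isOpenMap_q0.domRestrict Metric.isOpen_ball)
  rintro ⟨u, hu⟩ ⟨v, hv⟩ huv
  have h : q0 u = q0 v := huv
  rw [Subtype.mk.injEq]
  apply q0_locInj h
  intro i
  have h1 : dist (u i) (y i) < 1 / 2 := lt_of_le_of_lt (dist_le_pi_dist u y i) hu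
  have h2 : dist (v i) (y i) < 1 / 2 := lt_of_le_of_lt (dist_le_pi_dist v y i) hv
  rw [Real.dist_eq] at h1 h2
  rw [abs_lt] at *
  constructor <;> linarith

end Pool.Agent.Q82.TW
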