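import Pool.Agent.Q82.TW4

/-! # The hyperbolic automorphism of the six-torus in eigen-coordinates -/

open Set Topology Filter

namespace Pool.Agent.Q82.TW

theorem exists_roots : ∃ (r : ℝ) (s : ℂ), 1 < r ∧ r ^ 3 = r + 1 ∧ s ^ 3 = s + 1 ∧ s.im ≠ 0 ∧
    ‖s‖ < 1 := by
  have hc : ContinuousOn (fun x : ℝ => x ^ 3 - x - 1) (Icc (1.3 : ℝ) 2) := by fun_prop
  have h0 : (0 : ℝ) ∈ Icc ((1.3 : ℝ) ^ 3 - 1.3 - 1) (2 ^ 3 - 2 - 1) := by
    constructor <;> norm_num
  obtain ⟨r, hr, hr0⟩ := intermediate_value_Icc (by norm_num) hc h0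
  have hr1 : (1.3 : ℝ) ≤ r := hr.1
  have hr3 : r ^ 3 = r + 1 := by
    have : r ^ 3 - r - 1 = 0 := hr0
    linarith
  have hpos : 0 < 3 * r ^ 2 - 4 := by nlinarith
  set q := Real.sqrt (3 * r ^ 2 - 4) with hq
  have hq0 : 0 < q := Real.sqrt_pos.mpr hpos
  have hq2 : q ^ 2 = 3 * r ^ 2 - 4 := Real.sq_sqrt hpos.le
  refine ⟨r, ⟨-r / 2, q / 2⟩, by linarith, hr3, ?_, ?_, ?_⟩
  · have h1 : (⟨-r / 2, q / 2⟩ : ℂ) ^ 2 = ⟨r ^ 2 / 4 - q ^ 2 / 4, -(r * q) / 2⟩ := by
      rw [sq]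
      apply Complex.ext
      · simp only [Complex.mul_re]; ring
      · simp only [Complex.mul_im]; ring
    rw [pow_succ, h1]
    apply Complex.ext
    · simp only [Complex.mul_re, Complex.add_re, Complex.one_re]
      rw [hq2]
      have : r * (-(r * q) / 2) * 0 = 0 := by ring
      nlinarith [hq2, hr3]
    · simp only [Complex.mul_im, Complex.add_im, Complex.one_im]
      rw [hq2]
      ring_nf
  · simp only
    positivity
  · have h1 : ‖(⟨-r / 2, q / 2⟩ : ℂ)‖ ^ 2 < 1 := by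
      rw [← Complex.normSq_eq_norm_sq, Complex.normSq_mk]
      have h2 : -r / 2 * (-r / 2) + q / 2 * (q / 2) = r ^ 2 - 1 := by
        have : -r / 2 * (-r / 2) + q / 2 * (q / 2) = r ^ 2 / 4 + q ^ 2 / 4 := by ring
        rw [this, hq2]; ring
      rw [h2]
      have h3 : r * (r ^ 2 - 1) = 1 := by nlinarith
      nlinarith
    nlinarith [norm_nonneg (⟨-r / 2, q / 2⟩ : ℂ)]

/-- the real root -/
noncomputable def rho : ℝ := exists_roots.choose

/-- the complex root -/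
noncomputable def sig : ℂ := exists_roots.choose_spec.choose

theorem rho_gt : 1 < rho := exists_roots.choose_spec.choose_spec.1
theorem rho_eq : rho ^ 3 = rho + 1 := exists_roots.choose_spec.choose_spec.2.1
theorem sig_eq : sig ^ 3 = sig + 1 := exists_roots.choose_spec.choose_spec.2.2.1
theorem sig_im : sig.im ≠ 0 := exists_roots.choose_spec.choose_spec.2.2.2.1
theorem sig_norm : ‖sig‖ < 1 := exists_roots.choose_spec.choose_spec.2.2.2.2

theorem rho_eq' : (rho : ℂ) ^ 3 = rho + 1 := by exact_mod_cast congrArg (fun x : ℝ => (x : ℂ)) rho_eq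

theorem sig_ne : sig ≠ 0 := by
  intro h
  have := sig_im
  rw [h] at this
  exact this rfl

abbrev V3 : Type := ℂ × ℂ × ℂ

/-- eigen-coordinates -/
noncomputable def PhiL : (Fin 6 → ℝ) →ₗ[ℝ] V3 where
  toFun y := ((y 0 : ℂ) + y 1 * sig + y 2 * sig ^ 2, (y 3 : ℂ) + y 4 * sig + y 5 * sig ^ 2,
    ((y 0 : ℂ) + y 1 * rho + y 2 * rho ^ 2) + Complex.I * ((y 3 : ℂ) + y 4 * rho + y 5 * rho ^ 2))
  map_add' y y' := by
    simp only [Pi.add_apply, Complex.ofReal_add, Prod.mk_add_mk, Prod.mk.injEq]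
    refine ⟨by ring, by ring, by ring⟩
  map_smul' c y := by
    simp only [Pi.smul_apply, smul_eq_mul, Complex.ofReal_mul, RingHom.id_apply, Prod.smul_mk,
      Complex.real_smul, Prod.mk.injEq]
    refine ⟨by ring, by ring, by ring⟩

theorem poly_zero {a b c : ℝ} (h1 : (a : ℂ) + b * sig + c * sig ^ 2 = 0)
    (h2 : a + b * rho + c * rho ^ 2 = 0) : a = 0 ∧ b = 0 ∧ c = 0 := by
  have h2' : (a : ℂ) + b * rho + c * rho ^ 2 = 0 := by exact_mod_cast h2
  have hne : sig - rho ≠ 0 := by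
    intro h
    have := congrArg Complex.im h
    simp at this
    exact sig_im this
  have h3 : (sig - rho) * ((b : ℂ) + c * (sig + rho)) = 0 := by
    linear_combination h1 - h2'
  have h4 : (b : ℂ) + c * (sig + rho) = 0 := (mul_eq_zero.mp h3).resolve_left hne
  have h5 := congrArg Complex.im h4
  simp at h5
  have hc : c = 0 := h5.resolve_right sig_im
  subst hc
  have h6 := congrArg Complex.re h4
  simp at h6
  subst h6
  refine ⟨?_, rfl, rfl⟩
  linarith

theorem PhiL_injective : Function.Injective PhiL := by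
  rw [← LinearMap.ker_eq_bot, LinearMap.ker_eq_bot']
  intro y hy
  have hy' : ((y 0 : ℂ) + y 1 * sig + y 2 * sig ^ 2, (y 3 : ℂ) + y 4 * sig + y 5 * sig ^ 2,
    ((y 0 : ℂ) + y 1 * rho + y 2 * rho ^ 2) + Complex.I * ((y 3 : ℂ) + y 4 * rho + y 5 * rho ^ 2))
    = ((0, 0, 0) : V3) := hy
  simp only [Prod.mk.injEq] at hy'
  obtain ⟨h1, h2, h3⟩ := hy'
  have h4 : ((y 0 : ℂ) + y 1 * rho + y 2 * rho ^ 2) + Complex.I * ((y 3 : ℂ) + y 4 * rho
      + y 5 * rho ^ 2) = ((y 0 + y 1 * rho + y 2 * rho ^ 2 : ℝ) : ℂ) +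
      ((y 3 + y 4 * rho + y 5 * rho ^ 2 : ℝ) : ℂ) * Complex.I := by
    push_cast; ring
  rw [h4] at h3
  have key : ∀ A B : ℝ, (A : ℂ) + (B : ℂ) * Complex.I = 0 → A = 0 ∧ B = 0 := by
    intro A B h
    have h5 := congrArg Complex.re h
    have h6 := congrArg Complex.im h
    simp at h5 h6
    exact ⟨h5, h6⟩
  obtain ⟨h5, h6⟩ := key _ _ h3
  obtain ⟨a1, a2, a3⟩ := poly_zero h1 h5
  obtain ⟨a4, a5, a6⟩ := poly_zero h2 h6
  funext i
  fin_cases i
  · exact a1
  · exact a2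
  · exact a3
  · exact a4
  · exact a5
  · exact a6

theorem finrank_V3 : Module.finrank ℝ V3 = 6 := by
  simp [Module.finrank_prod, Complex.finrank_real_complex]

/-- eigen-coordinates as an equivalence -/
noncomputable def Phi : (Fin 6 → ℝ) ≃L[ℝ] V3 :=
  (PhiL.linearEquivOfInjective PhiL_injective
    (by rw [finrank_V3, Module.finrank_fin_fun])).toContinuousLinearEquiv

theorem Phi_apply (y : Fin 6 → ℝ) : Phi y = PhiL y := rfl

/-- the projection of eigen-coordinates to the torus -/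
noncomputable def Psi (v : V3) : T6 := q0 (Phi.symm v)

theorem Psi_add (v w : V3) : Psi (v + w) = Psi v + Psi w := by
  simp only [Psi, map_add, q0_add]

theorem Psi_surj : Function.Surjective Psi := q0_surj.comp Phi.symm.surjective

theorem isLocalHomeomorph_Psi : IsLocalHomeomorph Psi :=
  isLocalHomeomorph_q0.comp Phi.symm.toHomeomorph.isLocalHomeomorph

theorem Psi_shift {v v' : V3} (h : Psi v = Psi v') (x : V3) : Psi (x + (v' - v)) = Psi x := by
  have h1 : Psi (v + (v' - v)) = Psi v' := by congr 1; abel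
  rw [Psi_add, h] at h1
  rw [Psi_add, add_eq_left.mp h1, add_zero]

/-- the diagonal map on eigen-coordinates -/
noncomputable def D0 (v : V3) : V3 := (sig * v.1, sig * v.2.1, rho * v.2.2)

/-- the integer matrix -/
def AR (y : Fin 6 → ℝ) : Fin 6 → ℝ := ![y 2, y 0 + y 2, y 1, y 5, y 3 + y 5, y 4]

theorem PhiL_AR (y : Fin 6 → ℝ) : PhiL (AR y) = D0 (PhiL y) := by
  have h1 := sig_eq
  have h2 := rho_eq'
  have e : ∀ y : Fin 6 → ℝ, PhiL y = ((y 0 : ℂ) + y 1 * sig + y 2 * sig ^ 2,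
    (y 3 : ℂ) + y 4 * sig + y 5 * sig ^ 2,
    ((y 0 : ℂ) + y 1 * rho + y 2 * rho ^ 2) + Complex.I * ((y 3 : ℂ) + y 4 * rho
      + y 5 * rho ^ 2)) := fun _ => rfl
  rw [e, e, D0]
  have a0 : AR y 0 = y 2 := rfl
  have a1 : AR y 1 = y 0 + y 2 := rfl
  have a2 : AR y 2 = y 1 := rfl
  have a3 : AR y 3 = y 5 := rfl
  have a4 : AR y 4 = y 3 + y 5 := rfl
  have a5 : AR y 5 = y 4 := rfl
  rw [a0, a1, a2, a3, a4, a5]
  simp only [Complex.ofReal_add, Prod.mk.injEq]
  refine ⟨?_, ?_, ?_⟩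
  · linear_combination -(y 2 : ℂ) * h1
  · linear_combination -(y 5 : ℂ) * h1
  · linear_combination (-(y 2 : ℂ) - Complex.I * y 5) * h2

/-- the automorphism of the torus -/
noncomputable def AB : T6 ≃ₜ T6 where
  toFun b := ![b 2, b 0 + b 2, b 1, b 5, b 3 + b 5, b 4]
  invFun c := ![c 1 - c 0, c 2, c 0, c 4 - c 3, c 5, c 3]
  left_inv b := by
    funext i
    fin_cases i <;> simp
  right_inv b := by
    funext i
    fin_cases i <;> simp
  continuous_toFun := by
    apply continuous_pi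
    intro i
    fin_cases i <;> simp <;> fun_prop
  continuous_invFun := by
    apply continuous_pi
    intro i
    fin_cases i <;> simp <;> fun_prop

theorem q0_AR (y : Fin 6 → ℝ) : q0 (AR y) = AB (q0 y) := by
  funext i
  fin_cases i <;> simp [q0, AR, AB]

theorem Psi_D0 (v : V3) : Psi (D0 v) = AB (Psi v) := by
  rw [Psi, Psi, ← q0_AR]
  congr 1
  apply Phi.injective
  rw [Phi.apply_symm_apply, Phi_apply, PhiL_AR, ← Phi_apply, Phi.apply_symm_apply]

end Pool.Agent.Q82.TW
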