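import Pool.Agent.Q82.TW3
import Pool.Agent.Q82.TW5

/-! # The complex atlas on the product of the sphere and the six-torus -/

open Set Topology Filter ContDiff ComplexConjugate

namespace Pool.Agent.Q82.TW

abbrev E4 : Type := ℂ × V3

noncomputable def evA : Bool → V3 → V3
  | false => fun v => (v.1, -conj v.2.1, v.2.2)
  | true => fun v => (v.2.1, conj v.1, v.2.2)

noncomputable def evB : Bool → V3 → V3
  | false => fun v => (v.2.1, conj v.1, 0)
  | true => fun v => (v.1, -conj v.2.1, 0)

noncomputable def ev (i : Bool) (z : ℂ) (v : V3) : V3 := evA i v + z • evB i v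

noncomputable def nz (z : ℂ) : ℂ := 1 + z * conj z

theorem nz_eq (z : ℂ) : nz z = ((1 + ‖z‖ ^ 2 : ℝ) : ℂ) := by
  rw [nz, Complex.mul_conj, Complex.normSq_eq_norm_sq]; push_cast; ring

theorem nz_ne (z : ℂ) : nz z ≠ 0 := by
  rw [nz_eq]
  have : (1 + ‖z‖ ^ 2 : ℝ) ≠ 0 := by positivity
  exact_mod_cast this

theorem conj_nz (z : ℂ) : conj (nz z) = nz z := by
  rw [nz_eq, Complex.conj_ofReal]

noncomputable def iv : Bool → ℂ → V3 → V3
  | false => fun z w => ((w.1 + z * conj w.2.1) / nz z, (conj z * w.1 - conj w.2.1) / nz z, w.2.2)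
  | true => fun z w => ((conj w.2.1 + conj z * w.1) / nz z, (w.1 - z * conj w.2.1) / nz z, w.2.2)

theorem ev_iv (i : Bool) (z : ℂ) (w : V3) : ev i z (iv i z w) = w := by
  obtain ⟨w1, w2, w3⟩ := w
  have h := nz_ne z
  have h' : 1 + z * conj z ≠ 0 := h
  have h'' : 1 + conj z * z ≠ 0 := by rwa [mul_comm]
  cases i
  · simp only [ev, evA, evB, iv, map_div₀, map_one, map_add, map_sub, map_mul, Complex.conj_conj,
      Prod.smul_mk, smul_eq_mul, Prod.mk_add_mk, Prod.mk.injEq, mul_zero, add_zero, and_true, nz]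
    constructor
    · field_simp; ring
    · field_simp; ring
  · simp only [ev, evA, evB, iv, map_div₀, map_one, map_add, map_sub, map_mul, Complex.conj_conj,
      Prod.smul_mk, smul_eq_mul, Prod.mk_add_mk, Prod.mk.injEq, mul_zero, add_zero, and_true, nz]
    constructor
    · field_simp; ring
    · field_simp; ring

theorem iv_ev (i : Bool) (z : ℂ) (v : V3) : iv i z (ev i z v) = v := by
  obtain ⟨a, b, c⟩ := v
  have h := nz_ne z
  have h' : 1 + z * conj z ≠ 0 := h
  have h'' : 1 + conj z * z ≠ 0 := by rwa [mul_comm]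
  cases i
  · simp only [ev, evA, evB, iv, map_neg, map_add, map_mul, Complex.conj_conj,
      Prod.smul_mk, smul_eq_mul, Prod.mk_add_mk, Prod.mk.injEq, mul_zero, add_zero, and_true, nz]
    constructor
    · field_simp; ring
    · field_simp; ring
  · simp only [ev, evA, evB, iv, map_neg, map_add, map_mul, Complex.conj_conj,
      Prod.smul_mk, smul_eq_mul, Prod.mk_add_mk, Prod.mk.injEq, mul_zero, add_zero, and_true, nz]
    constructor
    · field_simp; ring
    · field_simp; ring

theorem evA_add (i : Bool) (v w : V3) : evA i (v + w) = evA i v + evA i w := by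
  cases i <;> (simp [evA]; try ring)

theorem evB_add (i : Bool) (v w : V3) : evB i (v + w) = evB i v + evB i w := by
  cases i <;> (simp [evB]; try ring)

theorem ev_add (i : Bool) (z : ℂ) (v w : V3) : ev i z (v + w) = ev i z v + ev i z w := by
  simp only [ev, evA_add, evB_add, smul_add]; abel

theorem iv_add_ev (i : Bool) (z : ℂ) (w l : V3) : iv i z (w + ev i z l) = iv i z w + l := by
  have h : w + ev i z l = ev i z (iv i z w + l) := by rw [ev_add, ev_iv]
  rw [h, iv_ev]

noncomputable def dl (z : ℂ) (w : V3) : V3 := (z⁻¹ * w.1, z⁻¹ * w.2.1, w.2.2)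

theorem ev_swap (i : Bool) {z : ℂ} (hz : z ≠ 0) (v : V3) : ev (!i) z⁻¹ v = dl z (ev i z v) := by
  obtain ⟨a, b, c⟩ := v
  cases i
  · simp only [ev, evA, evB, dl, Bool.not_false, Prod.smul_mk, smul_eq_mul, Prod.mk_add_mk,
      Prod.mk.injEq, mul_zero, add_zero, and_true]
    constructor
    · field_simp; ring
    · field_simp; ring
  · simp only [ev, evA, evB, dl, Bool.not_true, Prod.smul_mk, smul_eq_mul, Prod.mk_add_mk,
      Prod.mk.injEq, mul_zero, add_zero, and_true]
    constructor
    · field_simp; ring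
    · field_simp; ring

theorem iv_swap (i : Bool) {z : ℂ} (hz : z ≠ 0) (w : V3) : iv (!i) z⁻¹ (dl z w) = iv i z w := by
  have h : dl z w = ev (!i) z⁻¹ (iv i z w) := by rw [ev_swap i hz, ev_iv]
  rw [h, iv_ev]

noncomputable def Dh (w : V3) : V3 := (sig * w.1, conj sig * w.2.1, rho * w.2.2)

theorem ev_D0 (i : Bool) (z : ℂ) (v : V3) : ev i z (D0 v) = Dh (ev i z v) := by
  cases i
  · simp only [ev, evA, evB, D0, Dh, Prod.smul_mk, smul_eq_mul, Prod.mk_add_mk, map_mul,
      Prod.mk.injEq, mul_zero, add_zero, and_true]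
    constructor <;> ring
  · simp only [ev, evA, evB, D0, Dh, Prod.smul_mk, smul_eq_mul, Prod.mk_add_mk, map_mul,
      Prod.mk.injEq, mul_zero, add_zero, and_true]
    constructor <;> ring

theorem evB_D0 (i : Bool) (v : V3) : evB i (D0 v) = Dh (evB i v) := by
  cases i
  · simp only [evB, D0, Dh, map_mul, mul_zero]
  · simp only [evB, D0, Dh, map_mul, mul_zero, mul_neg]

theorem iv_Dh (i : Bool) (z : ℂ) (w : V3) : iv i z (Dh w) = D0 (iv i z w) := by
  have h : Dh w = ev i z (D0 (iv i z w)) := by rw [ev_D0, ev_iv]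
  rw [h, iv_ev]

theorem continuous_iv (i : Bool) : Continuous fun q : ℂ × V3 => iv i q.1 q.2 := by
  have hn : Continuous fun q : ℂ × V3 => nz q.1 := by unfold nz; fun_prop
  have hc : ∀ q : ℂ × V3, nz q.1 ≠ 0 := fun q => nz_ne q.1
  cases i
  · unfold iv
    refine Continuous.prodMk ?_ (Continuous.prodMk ?_ ?_)
    · exact Continuous.div (by fun_prop) hn hc
    · exact Continuous.div (by fun_prop) hn hc
    · fun_prop
  · unfold iv
    refine Continuous.prodMk ?_ (Continuous.prodMk ?_ ?_)
    · exact Continuous.div (by fun_prop) hn hc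
    · exact Continuous.div (by fun_prop) hn hc
    · fun_prop

theorem continuous_evB (i : Bool) : Continuous (evB i) := by
  cases i <;> (unfold evB; fun_prop)

theorem continuous_ev (i : Bool) : Continuous fun q : ℂ × V3 => ev i q.1 q.2 := by
  cases i <;> (unfold ev evA evB; fun_prop)

/-- the affine trivialization -/
noncomputable def Theta (i : Bool) : E4 ≃ₜ ℂ × V3 where
  toFun q := (q.1, iv i q.1 q.2)
  invFun q := (q.1, ev i q.1 q.2)
  left_inv q := by simp [ev_iv]
  right_inv q := by simp [iv_ev]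
  continuous_toFun := continuous_fst.prodMk (continuous_iv i)
  continuous_invFun := continuous_fst.prodMk (continuous_ev i)

/-- the parametrizations -/
noncomputable def PP (i : Bool) (q : E4) : OnePoint ℂ × T6 := (kap i q.1, Psi (iv i q.1 q.2))

theorem PP_loc (i : Bool) : IsLocalHomeomorph (PP i) := by
  have h1 : IsLocalHomeomorph (Prod.map (kap i) Psi) := by
    have hk := (kap_open i).isLocalHomeomorph
    intro q
    obtain ⟨e1, h1, h1'⟩ := hk q.1
    obtain ⟨e2, h2, h2'⟩ := isLocalHomeomorph_Psi q.2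
    refine ⟨e1.prod e2, ⟨h1, h2⟩, ?_⟩
    rw [h1', h2']
    rfl
  exact h1.comp (Theta i).isLocalHomeomorph

end Pool.Agent.Q82.TW
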