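import Pool.Agent.Q82.TW6

/-! # The changes of parameters -/

open Set Topology Filter ContDiff ComplexConjugate

namespace Pool.Agent.Q82.TW

/-- the vertical part of a tangent vector in eigen-coordinates -/
noncomputable def eta (i : Bool) (a v : E4) : V3 := v.2 - v.1 • evB i (iv i a.1 a.2)

noncomputable def sc (d : ℂ) (w : V3) : V3 := (d * w.1, d * w.2.1, w.2.2)

/-- the relation satisfied by the derivatives of the changes of parameters -/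
def RR (i j : Bool) (a b : E4) (L : E4 →L[ℂ] E4) : Prop :=
  ∃ k d : ℂ, k ≠ 0 ∧ d ≠ 0 ∧ ‖k‖ / (1 + ‖b.1‖ ^ 2) = 1 / (1 + ‖a.1‖ ^ 2) ∧
    ‖d‖ ^ 2 / (1 + ‖b.1‖ ^ 2) = 1 / (1 + ‖a.1‖ ^ 2) ∧
    ∀ v, (L v).1 = k * v.1 ∧ eta j b (L v) = sc d (eta i a v)

theorem trans_same (i : Bool) (a b : E4) (h : PP i a = PP i b) :
    ∃ g : E4 → E4, g a = b ∧ ContDiffAt ℂ ω g a ∧
    (∀ᶠ a' in 𝓝 a, PP i (g a') = PP i a') ∧ RR i i a b (fderiv ℂ g a) := by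
  have h1 : a.1 = b.1 := (kap_open i).injective (congrArg Prod.fst h)
  have h2 : Psi (iv i a.1 a.2) = Psi (iv i b.1 b.2) := congrArg Prod.snd h
  set l := iv i b.1 b.2 - iv i a.1 a.2 with hl
  have hg : ∀ x : E4, x.2 + ev i x.1 l = x.2 + (evA i l + x.1 • evB i l) := fun _ => rfl
  have hder : HasFDerivAt (fun x : E4 => (x.1, x.2 + ev i x.1 l))
      ((ContinuousLinearMap.fst ℂ ℂ V3).prod ((ContinuousLinearMap.snd ℂ ℂ V3) +
        (ContinuousLinearMap.fst ℂ ℂ V3).smulRight (evB i l))) a := by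
    refine HasFDerivAt.prodMk hasFDerivAt_fst ?_
    refine HasFDerivAt.add hasFDerivAt_snd ?_
    show HasFDerivAt (fun x : E4 => evA i l + x.1 • evB i l) _ a
    refine HasFDerivAt.const_add (evA i l) ?_
    exact (hasFDerivAt_fst (𝕜 := ℂ) (p := a)).smul_const (evB i l)
  refine ⟨fun x => (x.1, x.2 + ev i x.1 l), ?_, ?_, ?_, 1, 1, one_ne_zero, one_ne_zero, ?_, ?_, ?_⟩
  · show (a.1, a.2 + ev i a.1 l) = b
    have h3 : a.2 + ev i a.1 l = b.2 :=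
      calc a.2 + ev i a.1 l = ev i a.1 (iv i a.1 a.2) + ev i a.1 l := by rw [ev_iv]
        _ = ev i a.1 (iv i a.1 a.2 + l) := (ev_add _ _ _ _).symm
        _ = ev i a.1 (iv i b.1 b.2) := by congr 1; rw [hl]; abel
        _ = ev i b.1 (iv i b.1 b.2) := by rw [h1]
        _ = b.2 := ev_iv _ _ _
    rw [h3, h1]
  · show ContDiffAt ℂ ω (fun x : E4 => (x.1, x.2 + (evA i l + x.1 • evB i l))) a
    fun_prop
  · refine Filter.Eventually.of_forall fun x => ?_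
    show (kap i x.1, Psi (iv i x.1 (x.2 + ev i x.1 l))) = (kap i x.1, Psi (iv i x.1 x.2))
    rw [iv_add_ev, hl, Psi_shift h2]
  · rw [h1]; simp
  · rw [h1]; simp
  · intro v
    rw [hder.fderiv]
    constructor
    · simp
    · have h6 : iv i b.1 b.2 = iv i a.1 a.2 + l := by rw [hl]; abel
      show (v.2 + v.1 • evB i l) - v.1 • evB i (iv i b.1 b.2)
        = sc 1 (v.2 - v.1 • evB i (iv i a.1 a.2))
      rw [h6, evB_add, smul_add]
      have h7 : ∀ w : V3, sc 1 w = w := fun w => by simp [sc]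
      rw [h7]
      abel

theorem evB_not (i : Bool) (v : V3) : (evB (!i) v).1 = (evA i v).1 ∧
    (evB (!i) v).2.1 = (evA i v).2.1 ∧ (evB (!i) v).2.2 = 0 := by
  cases i <;> simp [evA, evB]

theorem trans_swap (i : Bool) (a b : E4) (h : PP i a = PP (!i) b) :
    ∃ g : E4 → E4, g a = b ∧ ContDiffAt ℂ ω g a ∧
    (∀ᶠ a' in 𝓝 a, PP (!i) (g a') = PP i a') ∧ RR i (!i) a b (fderiv ℂ g a) := by
  have hne : i ≠ !i := by cases i <;> simp
  obtain ⟨hz, h1⟩ := kap_ne hne (congrArg Prod.fst h : kap i a.1 = kap (!i) b.1)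
  have h2 : Psi (iv i a.1 a.2) = Psi (iv (!i) b.1 b.2) := congrArg Prod.snd h
  set l := iv (!i) b.1 b.2 - iv i a.1 a.2 with hl
  set p := evA (!i) l with hp
  set r := evB (!i) l with hr
  have hg : ∀ x : E4, ((x.1⁻¹, dl x.1 x.2 + ev (!i) x.1⁻¹ l) : E4)
      = (x.1⁻¹, x.1⁻¹ * x.2.1 + (p.1 + x.1⁻¹ * r.1), x.1⁻¹ * x.2.2.1 + (p.2.1 + x.1⁻¹ * r.2.1),
        x.2.2.2 + (p.2.2 + x.1⁻¹ * r.2.2)) := fun x => rfl
  have hi : HasFDerivAt (fun x : E4 => x.1⁻¹)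
      ((-(a.1 ^ 2)⁻¹) • ContinuousLinearMap.fst ℂ ℂ V3) a :=
    (hasDerivAt_inv hz).comp_hasFDerivAt a hasFDerivAt_fst
  have hx1 : HasFDerivAt (fun x : E4 => x.2.1)
      ((ContinuousLinearMap.fst ℂ ℂ (ℂ × ℂ)).comp (ContinuousLinearMap.snd ℂ ℂ V3)) a :=
    ((ContinuousLinearMap.fst ℂ ℂ (ℂ × ℂ)).comp (ContinuousLinearMap.snd ℂ ℂ V3)).hasFDerivAt
  have hx2 : HasFDerivAt (fun x : E4 => x.2.2.1)
      (((ContinuousLinearMap.fst ℂ ℂ ℂ).comp (ContinuousLinearMap.snd ℂ ℂ (ℂ × ℂ))).comp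
        (ContinuousLinearMap.snd ℂ ℂ V3)) a :=
    (((ContinuousLinearMap.fst ℂ ℂ ℂ).comp (ContinuousLinearMap.snd ℂ ℂ (ℂ × ℂ))).comp
        (ContinuousLinearMap.snd ℂ ℂ V3)).hasFDerivAt
  have hx3 : HasFDerivAt (fun x : E4 => x.2.2.2)
      (((ContinuousLinearMap.snd ℂ ℂ ℂ).comp (ContinuousLinearMap.snd ℂ ℂ (ℂ × ℂ))).comp
        (ContinuousLinearMap.snd ℂ ℂ V3)) a :=
    (((ContinuousLinearMap.snd ℂ ℂ ℂ).comp (ContinuousLinearMap.snd ℂ ℂ (ℂ × ℂ))).comp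
        (ContinuousLinearMap.snd ℂ ℂ V3)).hasFDerivAt
  have hder := hi.prodMk (((hi.mul hx1).add ((hi.mul_const r.1).const_add p.1)).prodMk
    (((hi.mul hx2).add ((hi.mul_const r.2.1).const_add p.2.1)).prodMk
      (hx3.add ((hi.mul_const r.2.2).const_add p.2.2))))
  have hlb : iv (!i) b.1 b.2 = iv i a.1 a.2 + l := by rw [hl]; abel
  refine ⟨fun x => (x.1⁻¹, x.1⁻¹ * x.2.1 + (p.1 + x.1⁻¹ * r.1),
    x.1⁻¹ * x.2.2.1 + (p.2.1 + x.1⁻¹ * r.2.1),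
        x.2.2.2 + (p.2.2 + x.1⁻¹ * r.2.2)), ?_, ?_, ?_, -(a.1 ^ 2)⁻¹, a.1⁻¹, ?_, ?_, ?_, ?_, ?_⟩
  · refine (hg a).symm.trans ?_
    have h3 : dl a.1 a.2 + ev (!i) a.1⁻¹ l = b.2 := by
      have h4 : dl a.1 a.2 = ev (!i) a.1⁻¹ (iv i a.1 a.2) := by rw [ev_swap i hz, ev_iv]
      rw [h4, ← ev_add, ← hlb, ← h1, ev_iv]
    rw [h3, ← h1]
  · have hc : ContDiffAt ℂ ω (fun x : E4 => x.1⁻¹) a := contDiffAt_fst.inv hz
    fun_prop
  · have hev : ∀ᶠ x : E4 in 𝓝 a, x.1 ≠ 0 :=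
      continuous_fst.continuousAt.eventually_ne hz
    filter_upwards [hev] with x hx
    rw [← hg x]
    show (kap (!i) x.1⁻¹, Psi (iv (!i) x.1⁻¹ (dl x.1 x.2 + ev (!i) x.1⁻¹ l)))
      = (kap i x.1, Psi (iv i x.1 x.2))
    rw [kap_not i hx, iv_add_ev, iv_swap i hx, hl, Psi_shift h2]
  · exact neg_ne_zero.mpr (inv_ne_zero (pow_ne_zero 2 hz))
  · exact inv_ne_zero hz
  · rw [h1, norm_neg, norm_inv, norm_inv, norm_pow]
    have : ‖a.1‖ ≠ 0 := norm_ne_zero_iff.mpr hz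
    have h5 : 1 + ‖a.1‖ ^ 2 ≠ 0 := by positivity
    have h6 : 1 + ‖a.1‖⁻¹ ^ 2 ≠ 0 := by positivity
    field_simp
    ring
  · rw [h1, norm_inv]
    have : ‖a.1‖ ≠ 0 := norm_ne_zero_iff.mpr hz
    have h5 : 1 + ‖a.1‖ ^ 2 ≠ 0 := by positivity
    have h6 : 1 + ‖a.1‖⁻¹ ^ 2 ≠ 0 := by positivity
    field_simp
    ring
  · intro v
    have hL : fderiv ℂ (fun x : E4 => ((x.1⁻¹, x.1⁻¹ * x.2.1 + (p.1 + x.1⁻¹ * r.1),
      x.1⁻¹ * x.2.2.1 + (p.2.1 + x.1⁻¹ * r.2.1),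
        x.2.2.2 + (p.2.2 + x.1⁻¹ * r.2.2)) : E4)) a v
        = (-(a.1 ^ 2)⁻¹ * v.1, a.1⁻¹ * v.2.1 + a.2.1 * (-(a.1 ^ 2)⁻¹ * v.1)
            + r.1 * (-(a.1 ^ 2)⁻¹ * v.1),
          a.1⁻¹ * v.2.2.1 + a.2.2.1 * (-(a.1 ^ 2)⁻¹ * v.1) + r.2.1 * (-(a.1 ^ 2)⁻¹ * v.1),
          v.2.2.2 + r.2.2 * (-(a.1 ^ 2)⁻¹ * v.1)) := by
      exact (congrArg (fun L : E4 →L[ℂ] E4 => L v) hder.fderiv).trans (by simp)
    rw [hL]
    refine ⟨rfl, ?_⟩
    obtain ⟨e1, e2, e3⟩ := evB_not i (iv i a.1 a.2)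
    have hw : ev i a.1 (iv i a.1 a.2) = a.2 := ev_iv i a.1 a.2
    have hw1 : (evA i (iv i a.1 a.2)).1 + a.1 * (evB i (iv i a.1 a.2)).1 = a.2.1 :=
      congrArg (fun w : V3 => w.1) hw
    have hw2 : (evA i (iv i a.1 a.2)).2.1 + a.1 * (evB i (iv i a.1 a.2)).2.1 = a.2.2.1 :=
      congrArg (fun w : V3 => w.2.1) hw
    have e3' : (evB i (iv i a.1 a.2)).2.2 = 0 := by cases i <;> rfl
    simp only [eta, hlb, evB_add, sc, ← hr, Prod.ext_iff, Prod.fst_sub, Prod.snd_sub,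
      Prod.smul_fst, Prod.smul_snd, Prod.fst_add, Prod.snd_add, smul_eq_mul, e1, e2, e3, e3']
    refine ⟨?_, ?_, ?_⟩
    · rw [← hw1]; field_simp; ring
    · rw [← hw2]; field_simp; ring
    · ring

/-- the complex atlas -/
noncomputable def par : Param E4 (OnePoint ℂ × T6) Bool RR where
  P := PP
  loc := PP_loc
  ix x := (kap_surj x.1).choose
  pt x := ((kap_surj x.1).choose_spec.choose,
    ev (kap_surj x.1).choose (kap_surj x.1).choose_spec.choose (Psi_surj x.2).choose)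
  sec x := by
    show (kap _ _, Psi (iv _ _ (ev _ _ _))) = x
    rw [iv_ev, (Psi_surj x.2).choose_spec, (kap_surj x.1).choose_spec.choose_spec]
  trans i j a b h := by
    by_cases hij : j = i
    · subst hij
      exact trans_same j a b h
    · have : j = !i := by cases i <;> cases j <;> simp_all
      subst this
      exact trans_swap i a b h

/-- the complex fourfold -/
abbrev MM : Type := Sp par

end Pool.Agent.Q82.TW
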