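import Mathlib

/-! # Definitions: fibered holomorphic partially hyperbolic diffeomorphisms -/

open Set Topology Manifold ContDiff

namespace Pool.Agent.Q82.TWD

/-- families of complex subspaces of the tangent spaces of a complex manifold `M` modelled on the
complex normed space `E` -/
abbrev Subspaces (E M : Type) [NormedAddCommGroup E] [NormedSpace ℂ E] [TopologicalSpace M]
    [ChartedSpace E M] : Type :=
  ∀ x : M, Submodule ℂ (TangentSpace 𝓘(ℂ, E) x)

/-- vector fields (sections of the tangent bundle, without regularity) -/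
abbrev VField (E M : Type) [NormedAddCommGroup E] [NormedSpace ℂ E] [TopologicalSpace M]
    [ChartedSpace E M] : Type :=
  ∀ x : M, TangentSpace 𝓘(ℂ, E) x

/-- functions on the tangent bundle -/
abbrev Finsler (E M : Type) [NormedAddCommGroup E] [NormedSpace ℂ E] [TopologicalSpace M]
    [ChartedSpace E M] : Type :=
  ∀ x : M, TangentSpace 𝓘(ℂ, E) x → ℝ

/-- `n` is the norm of a Hermitian inner product on the complex vector space `V` -/
structure IsHermitian {V : Type} [AddCommGroup V] [Module ℂ V] (n : V → ℝ) : Prop where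
  nonneg : ∀ v, 0 ≤ n v
  eq_zero : ∀ v, n v = 0 → v = 0
  smul : ∀ (c : ℂ) (v : V), n (c • v) = ‖c‖ * n v
  parallelogram : ∀ v w, n (v + w) ^ 2 + n (v - w) ^ 2 = 2 * (n v ^ 2 + n w ^ 2)

/-- the space `V` is the direct sum of the three subspaces -/
def IsDirectSum {V : Type} [AddCommGroup V] [Module ℂ V] (A B C : Submodule ℂ V) : Prop :=
  ∀ v : V, ∃! t : V × V × V, t.1 ∈ A ∧ t.2.1 ∈ B ∧ t.2.2 ∈ C ∧ t.1 + t.2.1 + t.2.2 = v

variable {E : Type} [NormedAddCommGroup E] [NormedSpace ℂ E] {M : Type} [TopologicalSpace M]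
  [ChartedSpace E M] [IsManifold 𝓘(ℂ, E) ω M]

/-- The vector field `X` is continuous on `U`. -/
def ContField (X : VField E M) (U : Set M) : Prop :=
  ContinuousOn (fun x => (⟨x, X x⟩ : TangentBundle 𝓘(ℂ, E) M)) U

/-- The vector field `X` is holomorphic on the open set `U`. -/
def HoloField (X : VField E M) (U : Set M) : Prop :=
  MDifferentiableOn 𝓘(ℂ, E) 𝓘(ℂ, E).tangent (fun x => (⟨x, X x⟩ : TangentBundle 𝓘(ℂ, E) M)) U

/-- The family `V` of complex subspaces of the tangent spaces of the complex manifold `M` is a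
continuous subbundle of complex rank `r`: near every point there are `r` continuous vector fields
which form a basis of `V x` for every `x`. -/
def ContinuousSubbundle (r : ℕ) (V : Subspaces E M) : Prop :=
  ∀ x₀ : M, ∃ U ∈ 𝓝 x₀, ∃ X : Fin r → VField E M, (∀ k, ContField (X k) U) ∧
    ∀ x ∈ U, LinearIndependent ℂ (fun k => X k x) ∧
      Submodule.span ℂ (Set.range fun k => X k x) = V x

/-- Over the open set `U` the family `V` is spanned by holomorphic vector fields. -/
def SpannedByHolomorphic (V : Subspaces E M) (U : Set M) : Prop :=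
  ∃ (κ : Type) (X : κ → VField E M), (∀ k, HoloField (X k) U) ∧
    ∀ x ∈ U, Submodule.span ℂ (Set.range fun k => X k x) = V x

/-- Over no nonempty open set the family `V` is spanned by holomorphic vector fields. -/
def NowhereHolomorphic (V : Subspaces E M) : Prop :=
  ∀ U : Set M, IsOpen U → U.Nonempty → ¬ SpannedByHolomorphic V U

/-- `N` is the norm of a continuous Hermitian (in particular Riemannian) metric on the complex
manifold `M`. -/
structure IsHermitianNorm (N : Finsler E M) : Prop where
  cont : Continuous fun v : TangentBundle 𝓘(ℂ, E) M => N v.1 v.2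
  herm : ∀ x : M, IsHermitian (N x)

/-- `Df (V x) = V (f x)` for all `x` -/
def Invariant (f : M → M) (V : Subspaces E M) : Prop :=
  ∀ x, (V x).map (mfderiv 𝓘(ℂ, E) 𝓘(ℂ, E) f x).toLinearMap = V (f x)

/-- on `V x` the norm of the derivative of the map `g` at `x` is at most `c` -/
def NormLE (N : Finsler E M) (g : M → M) (V : Subspaces E M) (x : M) (c : ℝ) : Prop :=
  ∀ v ∈ V x, N (g x) (mfderiv 𝓘(ℂ, E) 𝓘(ℂ, E) g x v) ≤ c * N x v

/-- on `V x` the conorm of the derivative of the map `g` at `x` is at least `c` -/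
def ConormGE (N : Finsler E M) (g : M → M) (V : Subspaces E M) (x : M) (c : ℝ) : Prop :=
  ∀ v ∈ V x, c * N x v ≤ N (g x) (mfderiv 𝓘(ℂ, E) 𝓘(ℂ, E) g x v)

/-- contraction on `Es`, expansion on `Eu` and domination for the map `g` at every point -/
def Rates (N : Finsler E M) (g : M → M) (Es Ec Eu : Subspaces E M) : Prop :=
  ∀ x : M, ∃ s c₁ c₂ u : ℝ, s < 1 ∧ 1 < u ∧ s < c₁ ∧ c₂ < u ∧
    NormLE N g Es x s ∧ ConormGE N g Ec x c₁ ∧ NormLE N g Ec x c₂ ∧ ConormGE N g Eu x u

/-- `f` is partially hyperbolic with splitting `Es ⊕ Ec ⊕ Eu` of the tangent bundle. -/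
structure IsPartiallyHyperbolic (f : M → M) (Es Ec Eu : Subspaces E M) : Prop where
  decomp : ∀ x : M, IsDirectSum (Es x) (Ec x) (Eu x)
  contS : ∃ r, ContinuousSubbundle r Es
  contC : ∃ r, ContinuousSubbundle r Ec
  contU : ∃ r, ContinuousSubbundle r Eu
  invS : Invariant f Es
  invC : Invariant f Ec
  invU : Invariant f Eu
  rates : ∃ (N : Finsler E M) (k : ℕ), IsHermitianNorm N ∧ 1 ≤ k ∧ Rates N f^[k] Es Ec Eu

/-- `c` is an embedded holomorphic curve, open in a fibre of `π`, with tangent spaces `Ec` -/
structure IsLeafChart {B : Type} (Ec : Subspaces E M) (π : M → B) (x : M) (c : ℂ → M) :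
    Prop where
  holo : MDifferentiable 𝓘(ℂ, ℂ) 𝓘(ℂ, E) c
  emb : IsEmbedding c
  mem : x ∈ range c
  isOpen : ∃ V : Set M, IsOpen V ∧ range c = V ∩ π ⁻¹' {π x}
  tangent : ∀ z : ℂ, (mfderiv 𝓘(ℂ, ℂ) 𝓘(ℂ, E) c z).toLinearMap.range = Ec (c z)

/-- The fibres of `π : M → B` are the leaves of a foliation with compact (connected) leaves tangent
to `Ec` (a line bundle), and `π` is a topological (even topologically trivial) fibration: there are
a compact connected space `F` and a homeomorphism of `M` with `B × F` which carries `π` to the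
projection, and near each of its points every fibre is an embedded holomorphic curve whose tangent
space is `Ec`. -/
structure IsCenterFibration {B : Type} [TopologicalSpace B] (Ec : Subspaces E M) (π : M → B) :
    Prop where
  fibration : ∃ (F : Type) (_ : TopologicalSpace F) (_ : CompactSpace F) (_ : ConnectedSpace F),
    IsHomeomorphicTrivialFiberBundle F π
  leaf : ∀ x : M, ∃ c : ℂ → M, IsLeafChart Ec π x c

/-- `Ec` is tangent to the compact fibres of a fibration over a topological manifold of real
dimension `d` -/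
def IsFiberedOver (d : ℕ) (Ec : Subspaces E M) : Prop :=
  ∃ (B : Type) (_ : TopologicalSpace B) (_ : T2Space B) (_ : SecondCountableTopology B)
    (_ : ChartedSpace (EuclideanSpace ℝ (Fin d)) B) (π : M → B), IsCenterFibration Ec π

end Pool.Agent.Q82.TWD
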