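import Pool.Agent.Q82.TW7
import Pool.Agent.Q82.TWDefs

/-! # Subbundles, norms and maps: general lemmas -/

open Set Topology Filter Manifold ContDiff Bundle Pool.Agent.Q82.TWD

namespace Pool.Agent.Q82.TW

variable {E : Type} [NormedAddCommGroup E] [NormedSpace ℂ E] {M : Type} [TopologicalSpace M]
  {ι : Type} {R : ι → ι → E → E → (E →L[ℂ] E) → Prop}

/-- the subbundle, in the model space -/
def Param.bun (p : Param E M ι R) (S : ι → E → Submodule ℂ E) (x : Sp p) :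
    Submodule ℂ E := S (p.ixQ x) (p.ptQ x)

/-- the derivative of a map, in the model space -/
noncomputable def Param.T (p : Param E M ι R) (f : Sp p → Sp p) (x : Sp p) : E →L[ℂ] E :=
  mfderiv 𝓘(ℂ, E) 𝓘(ℂ, E) f x

/-- the norm, in the model space -/
def Param.nr (p : Param E M ι R) (N : ι → E → E → ℝ) (x : Sp p) (v : E) : ℝ :=
  N (p.ixQ x) (p.ptQ x) v

theorem T_D (p : Param E M ι R) {f : Sp p → Sp p} {F : ι → E → E}
    (hf : ∀ i a, f (p.Q i a) = p.Q i (F i a)) (hF : ∀ i, ContDiff ℂ ω (F i)) (i : ι) (a v : E) :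
    p.T f (p.Q i a) (p.D i a v) = p.D i (F i a) (fderiv ℂ (F i) a v) :=
  map_mfderiv p hf hF i a v

theorem bun_mem (p : Param E M ι R) {S : ι → E → Submodule ℂ E}
    (hS : ∀ i j a b L, R i j a b L → ∀ v, L v ∈ S j b ↔ v ∈ S i a) (i : ι) (a v : E) :
    p.D i a v ∈ p.bun S (p.Q i a) ↔ v ∈ S i a :=
  hS _ _ _ _ _ (rel_D p i a) v

theorem bun_eq_map (p : Param E M ι R) {S : ι → E → Submodule ℂ E}
    (hS : ∀ i j a b L, R i j a b L → ∀ v, L v ∈ S j b ↔ v ∈ S i a) (i : ι) (a : E) :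
    p.bun S (p.Q i a) = (S i a).map (p.D i a).toLinearMap := by
  ext u
  obtain ⟨v, rfl⟩ := D_surjective p i a u
  rw [bun_mem p hS, Submodule.mem_map]
  constructor
  · intro h
    exact ⟨v, h, rfl⟩
  · rintro ⟨w, hw, hwv⟩
    rwa [← D_injective p i a hwv]

theorem bun_map (p : Param E M ι R) {S : ι → E → Submodule ℂ E}
    (hS : ∀ i j a b L, R i j a b L → ∀ v, L v ∈ S j b ↔ v ∈ S i a)
    {f : Sp p → Sp p} {F : ι → E → E}
    (hf : ∀ i a, f (p.Q i a) = p.Q i (F i a)) (hF : ∀ i, ContDiff ℂ ω (F i))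
    (hFS : ∀ i a v, fderiv ℂ (F i) a v ∈ S i (F i a) ↔ v ∈ S i a)
    (hFs : ∀ i a, Function.Surjective (fderiv ℂ (F i) a)) (x : Sp p) :
    (p.bun S x).map (p.T f x).toLinearMap = p.bun S (f x) := by
  obtain ⟨i, a, hx⟩ : ∃ i a, p.Q i a = x := ⟨_, _, p.secQ x⟩
  subst hx
  have key := T_D p hf hF i a
  ext u
  obtain ⟨w, rfl⟩ := D_surjective p i (F i a) u
  obtain ⟨v, rfl⟩ := hFs i a w
  have h2 : p.D i (F i a) (fderiv ℂ (F i) a v) ∈ p.bun S (f (p.Q i a)) ↔ v ∈ S i a := by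
    rw [hf, bun_mem p hS, hFS]
  rw [h2]
  constructor
  · rintro ⟨u', hu', hu⟩
    obtain ⟨v', rfl⟩ := D_surjective p i a u'
    have h4 : v' ∈ S i a := (bun_mem p hS i a v').mp hu'
    have h5 : p.D i (F i a) (fderiv ℂ (F i) a v') = p.D i (F i a) (fderiv ℂ (F i) a v) :=
      (key v').symm.trans hu
    have h6 := D_injective p i (F i a) h5
    rw [← hFS i a v, ← h6, hFS i a v']
    exact h4
  · intro hv
    exact ⟨p.D i a v, (bun_mem p hS i a v).mpr hv, key v⟩

theorem bundle_cont (p : Param E M ι R) {S : ι → E → Submodule ℂ E}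
    (hS : ∀ i j a b L, R i j a b L → ∀ v, L v ∈ S j b ↔ v ∈ S i a) {r : ℕ}
    (c : ι → Fin r → E → E) (hc : ∀ i k, Continuous (c i k))
    (hli : ∀ i b, LinearIndependent ℂ (fun k => c i k b))
    (hsp : ∀ i b, Submodule.span ℂ (range fun k => c i k b) = S i b) :
    ContinuousSubbundle r (p.bundle S) := by
  intro x₀
  set i := p.ixQ x₀
  set a := p.ptQ x₀
  have hx : p.Q i a = x₀ := p.secQ x₀
  refine ⟨(p.e i a).source, ?_, fun k => p.frame i a (c i k), ?_, ?_⟩
  · apply (p.e i a).open_source.mem_nhds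
    rw [← hx]; exact e_mem_source p i a
  · intro k
    exact frame_continuousOn p i a (hc i k)
  · intro x hxs
    obtain ⟨b, hb, rfl⟩ : ∃ b, b ∈ (p.e i a).target ∧ p.Q i b = x :=
      ⟨p.e i a x, (p.e i a).map_source hxs, Q_e p i a hxs⟩
    have h1 : (fun k => (p.frame i a (c i k) (p.Q i b) : E)) = fun k => p.D i b (c i k b) := by
      funext k
      exact frame_Q p i a hb
    constructor
    · show LinearIndependent ℂ (fun k => (p.frame i a (c i k) (p.Q i b) : E))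
      rw [h1]
      exact (hli i b).map' (p.D i b).toLinearMap (LinearMap.ker_eq_bot.mpr (D_injective p i b))
    · show Submodule.span ℂ (range fun k => (p.frame i a (c i k) (p.Q i b) : E))
        = p.bun S (p.Q i b)
      rw [h1, bun_eq_map p hS, ← hsp i b, Submodule.map_span, ← Set.range_comp]
      rfl

theorem nr_T (p : Param E M ι R) {N : ι → E → E → ℝ}
    (hN : ∀ i j a b L, R i j a b L → ∀ v, N j b (L v) = N i a v)
    {f : Sp p → Sp p} {F : ι → E → E}
    (hf : ∀ i a, f (p.Q i a) = p.Q i (F i a)) (hF : ∀ i, ContDiff ℂ ω (F i)) (i : ι) (a v : E) :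
    p.nr N (f (p.Q i a)) (p.T f (p.Q i a) (p.D i a v)) = N i (F i a) (fderiv ℂ (F i) a v) := by
  rw [T_D p hf hF, hf]
  exact nm_Q p hN i (F i a) (fderiv ℂ (F i) a v)

theorem nr_D (p : Param E M ι R) {N : ι → E → E → ℝ}
    (hN : ∀ i j a b L, R i j a b L → ∀ v, N j b (L v) = N i a v) (i : ι) (a v : E) :
    p.nr N (p.Q i a) (p.D i a v) = N i a v :=
  nm_Q p hN i a v

end Pool.Agent.Q82.TW
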