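import Pool.Agent.Q82.TW8

/-! # The invariant splitting, the metric and the diffeomorphism -/

open Set Topology Filter Manifold ContDiff ComplexConjugate Pool.Agent.Q82.TWD

namespace Pool.Agent.Q82.TW

/-- `eta` as a linear map -/
noncomputable def etaL (i : Bool) (a : E4) : E4 →ₗ[ℂ] V3 :=
  LinearMap.snd ℂ ℂ V3 - (LinearMap.fst ℂ ℂ V3).smulRight (evB i (iv i a.1 a.2))

theorem etaL_apply (i : Bool) (a v : E4) : etaL i a v = eta i a v := rfl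

noncomputable def Sc (i : Bool) (a : E4) : Submodule ℂ E4 := (etaL i a).ker

def Ss (_ : Bool) (_ : E4) : Submodule ℂ E4 where
  carrier := {v | v.1 = 0 ∧ v.2.2.2 = 0}
  add_mem' := by
    rintro v w ⟨h1, h2⟩ ⟨h3, h4⟩
    exact ⟨by simp [h1, h3], by simp [h2, h4]⟩
  zero_mem' := ⟨rfl, rfl⟩
  smul_mem' := by
    rintro c v ⟨h1, h2⟩
    exact ⟨by simp [h1], by simp [h2]⟩

def Su (_ : Bool) (_ : E4) : Submodule ℂ E4 where
  carrier := {v | v.1 = 0 ∧ v.2.1 = 0 ∧ v.2.2.1 = 0}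
  add_mem' := by
    rintro v w ⟨h1, h2, h2'⟩ ⟨h3, h4, h4'⟩
    exact ⟨by simp [h1, h3], by simp [h2, h4], by simp [h2', h4']⟩
  zero_mem' := ⟨rfl, rfl, rfl⟩
  smul_mem' := by
    rintro c v ⟨h1, h2, h3⟩
    exact ⟨by simp [h1], by simp [h2], by simp [h3]⟩

theorem mem_Sc {i : Bool} {a v : E4} : v ∈ Sc i a ↔ eta i a v = 0 := Iff.rfl
theorem mem_Ss {i : Bool} {a v : E4} : v ∈ Ss i a ↔ v.1 = 0 ∧ v.2.2.2 = 0 := Iff.rfl
theorem mem_Su {i : Bool} {a v : E4} : v ∈ Su i a ↔ v.1 = 0 ∧ v.2.1 = 0 ∧ v.2.2.1 = 0 := Iff.rfl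

theorem eta_of_zero {i : Bool} {a v : E4} (h : v.1 = 0) : eta i a v = v.2 := by
  simp [eta, h]

theorem RR_Sc (i j : Bool) (a b : E4) (L : E4 →L[ℂ] E4) (h : RR i j a b L) (v : E4) :
    L v ∈ Sc j b ↔ v ∈ Sc i a := by
  obtain ⟨k, d, hk, hd, -, -, hv⟩ := h
  rw [mem_Sc, mem_Sc, (hv v).2]
  simp [sc, Prod.ext_iff, hd]

theorem RR_Ss (i j : Bool) (a b : E4) (L : E4 →L[ℂ] E4) (h : RR i j a b L) (v : E4) :
    L v ∈ Ss j b ↔ v ∈ Ss i a := by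
  obtain ⟨k, d, hk, hd, -, -, hv⟩ := h
  obtain ⟨h1, h2⟩ := hv v
  rw [mem_Ss, mem_Ss]
  have h3 : (L v).1 = 0 ↔ v.1 = 0 := by rw [h1]; simp [hk]
  rw [h3]
  apply and_congr_right
  intro h0
  rw [eta_of_zero (h3.mpr h0), eta_of_zero h0] at h2
  rw [h2]
  rfl

theorem RR_Su (i j : Bool) (a b : E4) (L : E4 →L[ℂ] E4) (h : RR i j a b L) (v : E4) :
    L v ∈ Su j b ↔ v ∈ Su i a := by
  obtain ⟨k, d, hk, hd, -, -, hv⟩ := h
  obtain ⟨h1, h2⟩ := hv v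
  rw [mem_Su, mem_Su]
  have h3 : (L v).1 = 0 ↔ v.1 = 0 := by rw [h1]; simp [hk]
  rw [h3]
  apply and_congr_right
  intro h0
  rw [eta_of_zero (h3.mpr h0), eta_of_zero h0] at h2
  rw [h2]
  simp [sc, hd]

/-- the Hermitian norm -/
noncomputable def NN (i : Bool) (a v : E4) : ℝ :=
  Real.sqrt ((‖v.1‖ / (1 + ‖a.1‖ ^ 2)) ^ 2 +
    (‖(eta i a v).1‖ ^ 2 + ‖(eta i a v).2.1‖ ^ 2) / (1 + ‖a.1‖ ^ 2) + ‖(eta i a v).2.2‖ ^ 2)

theorem NN_sq (i : Bool) (a v : E4) : NN i a v ^ 2 = (‖v.1‖ / (1 + ‖a.1‖ ^ 2)) ^ 2 +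
    (‖(eta i a v).1‖ ^ 2 + ‖(eta i a v).2.1‖ ^ 2) / (1 + ‖a.1‖ ^ 2) + ‖(eta i a v).2.2‖ ^ 2 :=
  Real.sq_sqrt (by positivity)

theorem RR_NN (i j : Bool) (a b : E4) (L : E4 →L[ℂ] E4) (h : RR i j a b L) (v : E4) :
    NN j b (L v) = NN i a v := by
  obtain ⟨k, d, hk, hd, h1, h2, hv⟩ := h
  obtain ⟨h3, h4⟩ := hv v
  unfold NN
  rw [h3, h4]
  congr 1
  simp only [sc, norm_mul]
  have e1 : ‖k‖ * ‖v.1‖ / (1 + ‖b.1‖ ^ 2) = ‖v.1‖ / (1 + ‖a.1‖ ^ 2) := by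
    calc ‖k‖ * ‖v.1‖ / (1 + ‖b.1‖ ^ 2) = (‖k‖ / (1 + ‖b.1‖ ^ 2)) * ‖v.1‖ := by ring
      _ = ‖v.1‖ / (1 + ‖a.1‖ ^ 2) := by rw [h1]; ring
  have e2 : ((‖d‖ * ‖(eta i a v).1‖) ^ 2 + (‖d‖ * ‖(eta i a v).2.1‖) ^ 2) / (1 + ‖b.1‖ ^ 2)
      = (‖(eta i a v).1‖ ^ 2 + ‖(eta i a v).2.1‖ ^ 2) / (1 + ‖a.1‖ ^ 2) := by
    calc ((‖d‖ * ‖(eta i a v).1‖) ^ 2 + (‖d‖ * ‖(eta i a v).2.1‖) ^ 2) / (1 + ‖b.1‖ ^ 2)
        = (‖d‖ ^ 2 / (1 + ‖b.1‖ ^ 2)) * (‖(eta i a v).1‖ ^ 2 + ‖(eta i a v).2.1‖ ^ 2) := by ring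
      _ = (‖(eta i a v).1‖ ^ 2 + ‖(eta i a v).2.1‖ ^ 2) / (1 + ‖a.1‖ ^ 2) := by rw [h2]; ring
  rw [e1, e2]

theorem continuous_eta (i : Bool) : Continuous fun q : E4 × E4 => eta i q.1 q.2 := by
  have h1 : Continuous fun q : E4 × E4 => evB i (iv i q.1.1 q.1.2) :=
    (continuous_evB i).comp ((continuous_iv i).comp continuous_fst)
  unfold eta
  fun_prop

theorem continuous_NN (i : Bool) : Continuous fun q : E4 × E4 => NN i q.1 q.2 := by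
  have h1 := continuous_eta i
  unfold NN
  apply Real.continuous_sqrt.comp
  have h2 : ∀ q : E4 × E4, (1 + ‖q.1.1‖ ^ 2) ≠ 0 := fun q => by positivity
  refine Continuous.add (Continuous.add ?_ ?_) ?_
  · exact (Continuous.div (by fun_prop) (by fun_prop) h2).pow 2
  · exact Continuous.div (((continuous_fst.comp h1).norm.pow 2).add
      ((continuous_fst.comp (continuous_snd.comp h1)).norm.pow 2)) (by fun_prop) h2
  · exact (continuous_snd.comp (continuous_snd.comp h1)).norm.pow 2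

/-- the local form of the diffeomorphism -/
noncomputable def FF : E4 →L[ℂ] E4 :=
  (ContinuousLinearMap.fst ℂ ℂ V3).prod
    (((sig • (ContinuousLinearMap.fst ℂ ℂ (ℂ × ℂ))).prod
      ((conj sig • ((ContinuousLinearMap.fst ℂ ℂ ℂ).comp (ContinuousLinearMap.snd ℂ ℂ (ℂ × ℂ)))).prod
      ((rho : ℂ) • ((ContinuousLinearMap.snd ℂ ℂ ℂ).comp
        (ContinuousLinearMap.snd ℂ ℂ (ℂ × ℂ)))))).comp (ContinuousLinearMap.snd ℂ ℂ V3))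

theorem FF_apply (a : E4) : FF a = (a.1, Dh a.2) := rfl

/-- the local form of the inverse -/
noncomputable def FI : E4 →L[ℂ] E4 :=
  (ContinuousLinearMap.fst ℂ ℂ V3).prod
    (((sig⁻¹ • (ContinuousLinearMap.fst ℂ ℂ (ℂ × ℂ))).prod
      (((conj sig)⁻¹ • ((ContinuousLinearMap.fst ℂ ℂ ℂ).comp
        (ContinuousLinearMap.snd ℂ ℂ (ℂ × ℂ)))).prod
      ((rho : ℂ)⁻¹ • ((ContinuousLinearMap.snd ℂ ℂ ℂ).comp
        (ContinuousLinearMap.snd ℂ ℂ (ℂ × ℂ)))))).comp (ContinuousLinearMap.snd ℂ ℂ V3))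

theorem rho_ne : (rho : ℂ) ≠ 0 := by
  have := rho_gt
  exact_mod_cast (by linarith : rho ≠ 0)

theorem rho_ne' : rho ≠ 0 := by
  have := rho_gt
  linarith

theorem csig_ne : conj sig ≠ 0 := by
  rw [Ne, map_eq_zero]; exact sig_ne

theorem FI_FF (a : E4) : FI (FF a) = a := by
  show (a.1, sig⁻¹ * (sig * a.2.1), (conj sig)⁻¹ * (conj sig * a.2.2.1),
    (rho : ℂ)⁻¹ * (rho * a.2.2.2)) = a
  rw [inv_mul_cancel_left₀ sig_ne, inv_mul_cancel_left₀ csig_ne, inv_mul_cancel_left₀ rho_ne]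

theorem FF_FI (a : E4) : FF (FI a) = a := by
  show (a.1, sig * (sig⁻¹ * a.2.1), (conj sig) * ((conj sig)⁻¹ * a.2.2.1),
    (rho : ℂ) * ((rho : ℂ)⁻¹ * a.2.2.2)) = a
  rw [mul_inv_cancel_left₀ sig_ne, mul_inv_cancel_left₀ csig_ne, mul_inv_cancel_left₀ rho_ne]

/-- the diffeomorphism -/
noncomputable def ffE : MM ≃ MM where
  toFun x := (x.1, AB x.2)
  invFun x := (x.1, AB.symm x.2)
  left_inv x := by
    show (x.1, AB.symm (AB x.2)) = x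
    rw [AB.symm_apply_apply]
    rfl
  right_inv x := by
    show (x.1, AB (AB.symm x.2)) = x
    rw [AB.apply_symm_apply]
    rfl

theorem ffE_Q (i : Bool) (a : E4) : ffE (par.Q i a) = par.Q i (FF a) := by
  show (kap i a.1, AB (Psi (iv i a.1 a.2))) = (kap i a.1, Psi (iv i a.1 (Dh a.2)))
  rw [iv_Dh, Psi_D0]

theorem ffE_symm_Q (i : Bool) (a : E4) : ffE.symm (par.Q i a) = par.Q i (FI a) := by
  rw [Equiv.symm_apply_eq, ffE_Q, FF_FI]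

theorem eta_FF (i : Bool) (a v : E4) : eta i (FF a) (FF v) = Dh (eta i a v) := by
  show Dh v.2 - v.1 • evB i (iv i a.1 (Dh a.2)) = Dh (v.2 - v.1 • evB i (iv i a.1 a.2))
  rw [iv_Dh, evB_D0]
  simp only [Dh, Prod.ext_iff, Prod.fst_sub, Prod.snd_sub, Prod.smul_fst, Prod.smul_snd,
    smul_eq_mul]
  refine ⟨by ring, by ring, by ring⟩

theorem Dh_eq_zero {w : V3} : Dh w = 0 ↔ w = 0 := by
  simp [Dh, Prod.ext_iff, sig_ne, rho_ne']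

theorem FF_Sc (i : Bool) (a v : E4) : FF v ∈ Sc i (FF a) ↔ v ∈ Sc i a := by
  rw [mem_Sc, mem_Sc, eta_FF, Dh_eq_zero]

theorem FF_Ss (i : Bool) (a v : E4) : FF v ∈ Ss i (FF a) ↔ v ∈ Ss i a := by
  rw [mem_Ss, mem_Ss]
  show v.1 = 0 ∧ (rho : ℂ) * v.2.2.2 = 0 ↔ _
  simp [rho_ne']

theorem FF_Su (i : Bool) (a v : E4) : FF v ∈ Su i (FF a) ↔ v ∈ Su i a := by
  rw [mem_Su, mem_Su]
  show v.1 = 0 ∧ sig * v.2.1 = 0 ∧ conj sig * v.2.2.1 = 0 ↔ _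
  simp [sig_ne]

theorem FF_surj : Function.Surjective FF := fun a => ⟨FI a, FF_FI a⟩

theorem NN_FF_c {i : Bool} {a v : E4} (h : v ∈ Sc i a) : NN i (FF a) (FF v) = NN i a v := by
  rw [mem_Sc] at h
  unfold NN
  rw [eta_FF, h]
  have h1 : Dh 0 = 0 := Dh_eq_zero.mpr rfl
  rw [h1]
  rfl

theorem NN_FF_s {i : Bool} {a v : E4} (h : v ∈ Ss i a) :
    NN i (FF a) (FF v) = ‖sig‖ * NN i a v := by
  rw [mem_Ss] at h
  unfold NN
  rw [eta_FF, eta_of_zero h.1]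
  have h1 : (FF v).1 = 0 := h.1
  have h2 : (FF a).1 = a.1 := rfl
  rw [h1, h2, h.1]
  have h3 : ‖sig‖ = Real.sqrt (‖sig‖ ^ 2) := (Real.sqrt_sq (norm_nonneg _)).symm
  rw [h3, ← Real.sqrt_mul (by positivity)]
  congr 1
  simp only [Dh, norm_mul, h.2, norm_zero, RCLike.norm_conj]
  ring

theorem NN_FF_u {i : Bool} {a v : E4} (h : v ∈ Su i a) :
    NN i (FF a) (FF v) = rho * NN i a v := by
  have hr : 0 ≤ rho := by linarith [rho_gt]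
  rw [mem_Su] at h
  unfold NN
  rw [eta_FF, eta_of_zero h.1]
  have h1 : (FF v).1 = 0 := h.1
  have h2 : (FF a).1 = a.1 := rfl
  rw [h1, h2, h.1]
  have h3 : rho = Real.sqrt (rho ^ 2) := (Real.sqrt_sq hr).symm
  conv_rhs => rw [h3]
  rw [← Real.sqrt_mul (by positivity)]
  congr 1
  simp only [Dh, norm_mul, h.2.1, h.2.2, norm_zero, Complex.norm_real, Real.norm_of_nonneg hr,
    RCLike.norm_conj]
  ring

end Pool.Agent.Q82.TW
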